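import Mathlib

/-!
# Numerical parameters: the genus and the modulus of the admissible subgroups
-/

namespace Pool.Agent.Hyp

/-- the genus `gg` and the modulus `mo` -/
class Par where
  gg : ℕ
  mo : ℕ
  gg_pos : 0 < gg
  six : 6 ∣ mo
  mo_pos : 0 < mo

export Par (gg mo)

variable [Par]

theorem mo_pos : 0 < mo := Par.mo_pos

theorem mo_ne : mo ≠ 0 := Par.mo_pos.ne'

instance : NeZero mo := ⟨mo_ne⟩

theorem two_dvd_mo : 2 ∣ mo := (by norm_num : 2 ∣ 6).trans Par.six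

theorem three_dvd_mo : 3 ∣ mo := (by norm_num : 3 ∣ 6).trans Par.six

theorem one_lt_mo : 1 < mo := lt_of_lt_of_le (by norm_num) (Nat.le_of_dvd mo_pos two_dvd_mo)

theorem two_ne_of_six {K : Type} [Field K] (h6 : ((mo : ℕ) : K) ≠ 0) : (2 : K) ≠ 0 := fun h => by
  obtain ⟨c, hc⟩ := two_dvd_mo
  exact h6 (by rw [hc, Nat.cast_mul, Nat.cast_ofNat, h, zero_mul])

theorem three_ne_of_six {K : Type} [Field K] (h6 : ((mo : ℕ) : K) ≠ 0) : (3 : K) ≠ 0 := fun h => by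
  obtain ⟨c, hc⟩ := three_dvd_mo
  exact h6 (by rw [hc, Nat.cast_mul, Nat.cast_ofNat, h, zero_mul])

theorem six_ne_map {K L : Type} [Field K] [Field L] (f : K →+* L) (h6 : ((mo : ℕ) : K) ≠ 0) :
    ((mo : ℕ) : L) ≠ 0 := by
  rw [← map_natCast f mo]
  exact (_root_.map_ne_zero f).2 h6

end Pool.Agent.Hyp
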