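import Pool.Agent.Work.MP_60d5ce_nt.Qt.Tame
import Pool.Agent.Work.MP_60d5ce_nt.Hy.Par
import Pool.Agent.Lib.Dwork.Series
import Pool.Agent.Work.MP_60d5ce_nt.Qt.Alg

-- merged part: Pool.Agent.Work.MP_60d5ce_nt.Hy.Form
section
/-!
# The standard symplectic lattice of rank `2 gg`
-/

namespace Pool.Agent.Hyp

open Pool.Agent.Quad

variable [Par]

noncomputable section

/-- the index set -/
abbrev Ix : Type := Fin gg ⊕ Fin gg

/-- the lattice -/
abbrev V : Type := Ix → O

/-- its reduction -/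
abbrev Vb : Type := Ix → F2

/-- the index set of the doubled lattice -/
abbrev H : Type := Ix ⊕ Ix

/-- the number of vectors modulo two -/
def NV : ℕ := 2 ^ (2 * gg)

/-- the number of matrices modulo two -/
def NM : ℕ := 2 ^ (2 * gg * (2 * gg))

theorem card_Ix : Fintype.card Ix = 2 * gg := by simp [two_mul]

theorem card_Vb : Fintype.card Vb = NV := by
  rw [Fintype.card_fun, ZMod.card, card_Ix, NV]

theorem card_Mb : Fintype.card (Matrix Ix Ix F2) = NM := by
  rw [Fintype.card_congr (Matrix.of (m := Ix) (n := Ix) (α := F2)).symm, Fintype.card_fun,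
    Fintype.card_fun, ZMod.card, card_Ix, NM, ← pow_mul]

theorem card_Hb : Fintype.card (H → F2) = NV ^ 2 := by
  rw [Fintype.card_fun, ZMod.card, Fintype.card_sum, card_Ix, NV, ← pow_mul]
  exact congrArg _ (by ring)

theorem four_le_NV : 4 ≤ NV :=
  (by norm_num : 4 = 2 ^ (2 * 1)).trans_le
    (Nat.pow_le_pow_right (by norm_num) (Nat.mul_le_mul_left 2 Par.gg_pos))

theorem NV_pos : 0 < NV := lt_of_lt_of_le (by norm_num) four_le_NV

theorem NM_pos : 0 < NM := by unfold NM; positivity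

variable {R : Type} [CommRing R]

/-- the alternating form -/
def ee (a b : Ix → R) : R := ∑ j, (a (Sum.inl j) * b (Sum.inr j) - a (Sum.inr j) * b (Sum.inl j))

/-- first component -/
def p0 {A : Type} (a : H → A) : Ix → A := fun i => a (Sum.inl i)

/-- second component -/
def p1 {A : Type} (a : H → A) : Ix → A := fun i => a (Sum.inr i)

/-- the symmetric form on the doubled lattice -/
def bil (a b : H → R) : R := ee (p1 a) (p0 b) - ee (p0 a) (p1 b)

theorem ee_self (a : Ix → R) : ee a a = 0 := Finset.sum_eq_zero fun j _ => by ring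

theorem ee_swap (a b : Ix → R) : ee a b = -ee b a := by
  rw [ee, ee, ← Finset.sum_neg_distrib]
  exact Finset.sum_congr rfl fun j _ => by ring

theorem ee_comm (a b : Vb) : ee a b = ee b a := by rw [ee_swap, F2_neg]

theorem ee_add_left (a a' b : Ix → R) : ee (a + a') b = ee a b + ee a' b := by
  rw [ee, ee, ee, ← Finset.sum_add_distrib]
  exact Finset.sum_congr rfl fun j _ => by simp only [Pi.add_apply]; ring

theorem ee_add_right (a b b' : Ix → R) : ee a (b + b') = ee a b + ee a b' := by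
  rw [ee, ee, ee, ← Finset.sum_add_distrib]
  exact Finset.sum_congr rfl fun j _ => by simp only [Pi.add_apply]; ring

theorem ee_sub_left (a a' b : Ix → R) : ee (a - a') b = ee a b - ee a' b := by
  rw [ee, ee, ee, ← Finset.sum_sub_distrib]
  exact Finset.sum_congr rfl fun j _ => by simp only [Pi.sub_apply]; ring

theorem ee_sub_right (a b b' : Ix → R) : ee a (b - b') = ee a b - ee a b' := by
  rw [ee, ee, ee, ← Finset.sum_sub_distrib]
  exact Finset.sum_congr rfl fun j _ => by simp only [Pi.sub_apply]; ring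

theorem ee_smul_left (c : R) (a b : Ix → R) : ee (c • a) b = c * ee a b := by
  rw [ee, ee, Finset.mul_sum]
  exact Finset.sum_congr rfl fun j _ => by simp only [Pi.smul_apply, smul_eq_mul]; ring

theorem ee_smul_right (c : R) (a b : Ix → R) : ee a (c • b) = c * ee a b := by
  rw [ee, ee, Finset.mul_sum]
  exact Finset.sum_congr rfl fun j _ => by simp only [Pi.smul_apply, smul_eq_mul]; ring

@[simp] theorem ee_zero_left (b : Ix → R) : ee 0 b = 0 := by simp [ee]

@[simp] theorem ee_zero_right (a : Ix → R) : ee a 0 = 0 := by simp [ee]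

theorem ee_neg_left (a b : Ix → R) : ee (-a) b = -ee a b := by
  rw [← neg_one_smul R a, ee_smul_left, neg_one_mul]

theorem ee_neg_right (a b : Ix → R) : ee a (-b) = -ee a b := by
  rw [← neg_one_smul R b, ee_smul_right, neg_one_mul]

theorem ee_sum_left {ι : Type*} (s : Finset ι) (a : ι → Ix → R) (b : Ix → R) :
    ee (∑ i ∈ s, a i) b = ∑ i ∈ s, ee (a i) b := by
  classical
  induction s using Finset.induction_on with
  | empty => simp
  | insert i s hi ih => rw [Finset.sum_insert hi, Finset.sum_insert hi, ee_add_left, ih]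

theorem ee_sum_right {ι : Type*} (s : Finset ι) (a : Ix → R) (b : ι → Ix → R) :
    ee a (∑ i ∈ s, b i) = ∑ i ∈ s, ee a (b i) := by
  classical
  induction s using Finset.induction_on with
  | empty => simp
  | insert i s hi ih => rw [Finset.sum_insert hi, Finset.sum_insert hi, ee_add_right, ih]

theorem ee_single_inl (a : Ix → R) (j : Fin gg) : ee a (Pi.single (Sum.inl j) 1) = -a (Sum.inr j) := by
  simp [ee, Pi.single_apply]

theorem ee_single_inr (a : Ix → R) (j : Fin gg) : ee a (Pi.single (Sum.inr j) 1) = a (Sum.inl j) := by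
  simp [ee, Pi.single_apply]

theorem ee_map {S : Type} [CommRing S] (φ : R →+* S) (a b : Ix → R) :
    φ (ee a b) = ee (fun i => φ (a i)) fun i => φ (b i) := by
  simp [ee]

theorem bil_comm (a b : H → R) : bil a b = bil b a := by
  rw [bil, bil, ee_swap (p1 a), ee_swap (p0 a)]
  ring

theorem ee_dvd {i j : ℕ} {a b : V} (ha : VD i a) (hb : VD j b) : (2 : O) ^ (i + j) ∣ ee a b := by
  rw [pow_add]
  exact Finset.dvd_sum fun l _ => (mul_dvd_mul (ha _) (hb _)).sub (mul_dvd_mul (ha _) (hb _))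

theorem dig_ee {i j : ℕ} {a b : V} (ha : VD i a) (hb : VD j b) :
    dig (i + j) (ee a b) = ee (digV i a) (digV j b) := by
  rw [ee, dig_sum _ fun l _ => by
    rw [pow_add]
    exact (mul_dvd_mul (ha _) (hb _)).sub (mul_dvd_mul (ha _) (hb _))]
  refine Finset.sum_congr rfl fun l _ => ?_
  rw [dig_sub (by rw [pow_add]; exact mul_dvd_mul (ha _) (hb _))
    (by rw [pow_add]; exact mul_dvd_mul (ha _) (hb _)), dig_mul (ha _) (hb _), dig_mul (ha _) (hb _)]
  rfl

theorem _root_.Pool.Agent.Quad.VD.q0 {j : ℕ} {a : H → O} (ha : VD j a) : VD j (p0 a) :=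
  fun i => ha (Sum.inl i)

theorem _root_.Pool.Agent.Quad.VD.q1 {j : ℕ} {a : H → O} (ha : VD j a) : VD j (p1 a) :=
  fun i => ha (Sum.inr i)

theorem VD_of_p {j : ℕ} {a : H → O} (h0 : VD j (p0 a)) (h1 : VD j (p1 a)) : VD j a := by
  rintro (i | i)
  · exact h0 i
  · exact h1 i

theorem bil_dvd {i j : ℕ} {a b : H → O} (ha : VD i a) (hb : VD j b) :
    (2 : O) ^ (i + j) ∣ bil a b :=
  (ee_dvd ha.q1 hb.q0).sub (ee_dvd ha.q0 hb.q1)

theorem dig_bil {i j : ℕ} {a b : H → O} (ha : VD i a) (hb : VD j b) :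
    dig (i + j) (bil a b) = bil (digV i a) (digV j b) := by
  rw [bil, dig_sub (ee_dvd ha.q1 hb.q0) (ee_dvd ha.q0 hb.q1), dig_ee ha.q1 hb.q0,
    dig_ee ha.q0 hb.q1]
  rfl

/-- nondegeneracy -/
theorem eq_zero_of_ee' {a : Ix → R} (h : ∀ b, ee a b = 0) : a = 0 := by
  funext i
  rcases i with j | j
  · exact (ee_single_inr a j).symm.trans (h _)
  · exact neg_eq_zero.1 ((ee_single_inl a j).symm.trans (h _))

theorem eq_zero_of_ee {a : Vb} (h : ∀ b, ee a b = 0) : a = 0 := eq_zero_of_ee' h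

/-- every linear form is a pairing -/
theorem exists_ee (φ : (Ix → R) →ₗ[R] R) : ∃ a, ∀ b, φ b = ee a b := by
  refine ⟨Sum.elim (fun j => φ (Pi.single (Sum.inr j) 1)) fun j => -φ (Pi.single (Sum.inl j) 1),
    fun b => ?_⟩
  conv_lhs => rw [pi_eq_sum_univ' b]
  rw [map_sum, Fintype.sum_sum_type, ee, ← Finset.sum_add_distrib]
  refine Finset.sum_congr rfl fun j _ => ?_
  simp only [map_smul, smul_eq_mul, Sum.elim_inl, Sum.elim_inr]
  ring

theorem exists_ee_ne {a : Vb} (ha : a ≠ 0) : ∃ b, ee a b = 1 := by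
  by_contra! h
  exact ha (eq_zero_of_ee fun b => (F2_cases _).resolve_right (h b))

/-- a vector orthogonal to the vectors fixed by a symplectic matrix -/
theorem pair_orth (m : Matrix Ix Ix F2) (hm : ∀ a b, ee (m.mulVec a) (m.mulVec b) = ee a b) (y : Vb)
    (hy : ∀ n, m.mulVec n = n → ee y n = 0) : ∃ t, y = m.mulVec t + t := by
  by_contra! h
  let φ : Vb →ₗ[F2] Vb := m.mulVecLin + LinearMap.id
  have hy' : y ∉ LinearMap.range φ := fun ⟨t, ht⟩ => h t ht.symm
  obtain ⟨f, hf, hf'⟩ := Submodule.exists_dual_map_eq_bot_of_notMem hy' inferInstance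
  obtain ⟨n, hn⟩ := exists_ee f
  have h1 : ∀ t, ee n (m.mulVec t + t) = 0 := fun t => by
    rw [← hn]
    exact (Submodule.mem_bot F2).1 (hf' ▸ Submodule.mem_map_of_mem (f := f) ⟨t, rfl⟩)
  have hinj : Function.Injective m.mulVecLin := by
    rw [← LinearMap.ker_eq_bot, LinearMap.ker_eq_bot']
    intro a ha
    refine eq_zero_of_ee fun b => ?_
    rw [← hm, show m.mulVec a = 0 from ha, ee_zero_left]
  have h2 : m.mulVec n = n := by
    rw [← sub_eq_zero, vb_sub]
    refine eq_zero_of_ee fun b => ?_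
    obtain ⟨t, rfl⟩ := Finite.surjective_of_injective hinj b
    have := h1 t
    rw [ee_add_right] at this
    rw [Matrix.mulVecLin_apply, ee_add_left, hm, add_comm, this]
  exact hf (by rw [hn, ee_comm, hy n h2])

end

end Pool.Agent.Hyp
end

-- merged part: Pool.Agent.Work.MP_60d5ce_nt.Hy.PLD
section
/-!
# Polynomials given by their power sums, reciprocal polynomials  (task HY PLD)

`LF c a` says `a = exp (- ∑ c n T ^ n / n)`.  Use `LD.mul`, `LD.unique`, `LD.rescale`, `ld_det` (see the end of `Lb/CPoly.lean` for the passage from `Matrix.det` to `charpolyRev`),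
`Polynomial.coe_injective`.  For `LF.expand` either use `LD.rec`-like coefficient identities (`Polynomial.coeff_expand`, `coeff_X_mul_deriv`, `PowerSeries.coeff_mul`), or
`Polynomial.derivative_expand` together with the ring homomorphism `PowerSeries.subst (X ^ e)` (`PowerSeries.expand`).
`Rc f g` says that `g` is the normalised reverse of `f`.  `Polynomial.reverse_mul_of_domain`, `reflect_reflect`, `Matrix.reverse_charpoly`, `natDegree_expand`, `leadingCoeff_expand`.
* `rc_cp`: `charpoly M = det (X - M) = det (-M) * det (1 - X M')`, and `reverse (charpolyRev M) = charpoly M` since `charpoly M` has the unit constant term `det (-M)`.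
* `Rc.mult`, `Rc.self`: write `f = (X - 1) ^ m * s`, `s.eval 1 ≠ 0` (`exists_eq_pow_rootMultiplicity_mul_and_not_dvd`); `(reverse s).eval 1 = s.eval 1`, `reverse (X - 1) = 1 - X`.
* `mult_expand`: `expand e (X - 1) = (X - 1) * geom`, `geom.eval 1 = e ≠ 0`.
-/

namespace Pool.Agent.Hyp

open Pool.Agent.Quad Pool.Agent.Lib.Dwork Polynomial

/-- `a = exp (- ∑ c n T ^ n / n)` -/
def LF (c : ℕ → O) (a : O[X]) : Prop :=
  LD (-(PowerSeries.mk fun n => if n = 0 then 0 else c n)) (a : PowerSeries O)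

variable {c c' : ℕ → O} {a a' f f' g g' : O[X]}

theorem LF.congr (h : LF c a) (e : ∀ n, 0 < n → c n = c' n) : LF c' a := by
  have e' : (fun n => if n = 0 then 0 else c' n) = fun n => if n = 0 then 0 else c n := by
    funext n
    split_ifs with h0
    · rfl
    · exact (e n (Nat.pos_of_ne_zero h0)).symm
  rwa [LF, e']

theorem LF.coeff_zero (h : LF c a) : a.coeff 0 = 1 := by
  exact (constantCoeff_coe a).symm.trans h.1

theorem LF.unique (h : LF c a) (h' : LF c' a') (e : ∀ n, 0 < n → c n = c' n) : a = a' := by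
  exact coe_injective O (LD.unique (h.congr e) h')

theorem LF.coeff_eq (h : LF c a) (h' : LF c' a') {N : ℕ} (e : ∀ n, 0 < n → n ≤ N → c n = c' n) :
    ∀ n ≤ N, a.coeff n = a'.coeff n := by
  intro n hn
  have := LD.coeff_eq h h' N (fun m hm => by
    rw [map_neg, map_neg, PowerSeries.coeff_mk, PowerSeries.coeff_mk]
    split_ifs with h0
    · rfl
    · rw [e m (Nat.pos_of_ne_zero h0) hm]) n hn
  rwa [coeff_coe, coeff_coe] at this

theorem lf_one : LF (fun _ => 0) 1 := by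
  have e : -(PowerSeries.mk fun n : ℕ => if n = 0 then (0 : O) else 0) = 0 := by
    ext n
    simp
  rw [LF, e, coe_one]
  exact LD.one

theorem LF.mul (h : LF c a) (h' : LF c' a') : LF (fun n => c n + c' n) (a * a') := by
  have := LD.mul h h'
  rw [LF, coe_mul]
  convert this using 1
  ext n
  simp only [map_neg, map_add, PowerSeries.coeff_mk]
  split_ifs <;> ring

theorem lf_prod {ι : Type} (s : Finset ι) {c : ι → ℕ → O} {a : ι → O[X]}
    (h : ∀ i ∈ s, LF (c i) (a i)) : LF (fun n => ∑ i ∈ s, c i n) (∏ i ∈ s, a i) := by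
  classical
  induction s using Finset.induction_on with
  | empty => simpa using lf_one
  | insert i s hi ih =>
    simp only [Finset.sum_insert hi, Finset.prod_insert hi]
    exact (h i (Finset.mem_insert_self _ _)).mul (ih fun j hj => h j (Finset.mem_insert_of_mem hj))

theorem LF.expand (h : LF c a) {e : ℕ} (he : 0 < e) :
    LF (fun n => if e ∣ n then e * c (n / e) else 0) (expand O e a) := by
  have e1 : ((Polynomial.expand O e a : O[X]) : PowerSeries O) =
      PowerSeries.expand e he.ne' (a : PowerSeries O) := by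
    ext n
    rw [coeff_coe, coeff_expand he, PowerSeries.coeff_expand, coeff_coe]
  have e2 : -(PowerSeries.mk fun n : ℕ =>
      if n = 0 then (0 : O) else if e ∣ n then e * c (n / e) else 0) = PowerSeries.C (e : O) *
      PowerSeries.expand e he.ne' (-(PowerSeries.mk fun n => if n = 0 then 0 else c n)) := by
    ext n
    rw [PowerSeries.coeff_C_mul, PowerSeries.coeff_expand, map_neg, map_neg, PowerSeries.coeff_mk,
      PowerSeries.coeff_mk]
    by_cases h1 : e ∣ n
    · obtain ⟨k, rfl⟩ := h1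
      rw [Nat.mul_div_cancel_left _ he]
      by_cases h2 : k = 0 <;> simp [h2, he.ne']
    · simp [h1]
  rw [LF, e1, e2]
  refine ⟨(PowerSeries.constantCoeff_expand _ _ _).trans h.1, ?_⟩
  rw [mul_assoc, ← map_mul, ← h.2]
  ext n
  rw [coeff_X_mul_deriv, PowerSeries.coeff_C_mul, PowerSeries.coeff_expand,
    PowerSeries.coeff_expand, coeff_X_mul_deriv]
  split_ifs with h1
  · obtain ⟨k, rfl⟩ := h1
    rw [Nat.mul_div_cancel_left _ he, Nat.cast_mul, mul_assoc]
  · simp

theorem LF.scale (h : LF c a) (u : O) : LF (fun n => u ^ n * c n) (a.comp (C u * X)) := by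
  have := LD.rescale h u
  rw [LF]
  convert this using 1
  · ext n
    simp only [map_neg, PowerSeries.coeff_mk, PowerSeries.coeff_rescale]
    split_ifs <;> simp
  · ext n
    rw [coeff_coe, comp_C_mul_X_coeff, PowerSeries.coeff_rescale, coeff_coe, mul_comm]

theorem lf_cp {I : Type} [Fintype I] [DecidableEq I] (M : Matrix I I O) :
    LF (fun n => (M ^ n).trace) M.charpolyRev := by
  have := ld_det M
  rw [LF]
  convert this using 1
  rw [Matrix.charpolyRev, ← coeToPowerSeries.ringHom_apply, RingHom.map_det]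
  congr 1
  ext1 i j
  by_cases e : i = j <;> simp [e] <;> exact mul_comm _ _

theorem lf_lin (u : O) : LF (fun n => u ^ n) (1 - C u * X) := by
  have := lf_cp (Matrix.diagonal fun _ : Unit => u)
  have e : (Matrix.diagonal fun _ : Unit => u).charpolyRev = 1 - C u * X := by
    rw [Matrix.charpolyRev, Matrix.det_unique, mul_comm]
    simp
  rw [e] at this
  refine this.congr fun n _ => ?_
  rw [Matrix.diagonal_pow]
  simp

theorem PLD_rev (h : f.coeff 0 ≠ 0) : f.reverse.natDegree = f.natDegree ∧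
    f.reverse.leadingCoeff = f.coeff 0 ∧ f.reverse.reverse = f := by
  have h1 : f.natTrailingDegree = 0 := natTrailingDegree_eq_zero.2 (Or.inr h)
  have h2 : f.reverse.natDegree = f.natDegree := by rw [reverse_natDegree, h1, Nat.sub_zero]
  refine ⟨h2, by rw [reverse_leadingCoeff, trailingCoeff, h1], ?_⟩
  rw [reverse, h2, reverse, reflect_reflect]

theorem PLD_cp0 {I : Type} [Fintype I] [DecidableEq I] (M : Matrix I I O) :
    M.charpoly.coeff 0 = (-1) ^ Fintype.card I * M.det := by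
  rw [Matrix.det_eq_sign_charpoly_coeff, ← mul_assoc, ← mul_pow]
  simp

theorem PLD_mult {s : O[X]} {x : O} {m : ℕ} (h : a = (X - C x) ^ m * s) (hs : s.eval x ≠ 0) :
    a.rootMultiplicity x = m := by
  rw [h, mul_comm, rootMultiplicity_mul_X_sub_C_pow (by rintro rfl; simp at hs),
    rootMultiplicity_eq_zero hs, zero_add]

theorem PLD_dec (h : a ≠ 0) :
    ∃ s : O[X], a = (X - C 1) ^ a.rootMultiplicity 1 * s ∧ s.eval 1 ≠ 0 := by
  obtain ⟨s, h1, h2⟩ := exists_eq_pow_rootMultiplicity_mul_and_not_dvd a h 1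
  exact ⟨s, h1, fun e => h2 (dvd_iff_isRoot.2 e)⟩

theorem PLD_rev_pow (m : ℕ) (s : O[X]) :
    ((X - C 1) ^ m * s).reverse = (X - C 1) ^ m * ((-1) ^ m * s.reverse) := by
  have e : (X - C 1 : O[X]).reverse = -(X - C 1) := by
    rw [reverse, natDegree_X_sub_C, reflect_sub, reflect_one_X, reflect_C]
    simp
  induction m with
  | zero => simp
  | succ m ih =>
    rw [pow_succ', mul_assoc, reverse_mul_of_domain, ih, e]
    ring

theorem PLD_rev_eval (s : O[X]) : s.reverse.eval 1 = s.eval 1 := by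
  let _ : Invertible (1 : O) := invertibleOne
  have := eval₂_reverse_mul_pow (RingHom.id O) 1 s
  rwa [invOf_one, one_pow, mul_one] at this

theorem PLD_rev_mult (a : O[X]) : a.reverse.rootMultiplicity 1 = a.rootMultiplicity 1 := by
  by_cases h : a = 0
  · simp [h]
  obtain ⟨s, h1, h2⟩ := PLD_dec h
  refine PLD_mult ((congrArg reverse h1).trans (PLD_rev_pow _ s)) ?_
  rw [eval_mul, PLD_rev_eval]
  simpa using h2

theorem cp_lead {I : Type} [Fintype I] [DecidableEq I] {M : Matrix I I O} (h : M.det ≠ 0) :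
    M.charpolyRev.natDegree = Fintype.card I ∧
      M.charpolyRev.leadingCoeff = (-1) ^ Fintype.card I * M.det := by
  have h1 := PLD_cp0 M
  have h2 : M.charpoly.coeff 0 ≠ 0 := by
    rw [h1]
    exact mul_ne_zero (pow_ne_zero _ (by norm_num)) h
  rw [← Matrix.reverse_charpoly, (PLD_rev h2).1, (PLD_rev h2).2.1, h1]
  exact ⟨M.charpoly_natDegree_eq_dim, rfl⟩

theorem cp_mult {I : Type} [Fintype I] [DecidableEq I] (M : Matrix I I O) :
    M.charpolyRev.rootMultiplicity 1 =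
      (M.map (algebraMap O ℚ_[2])).charpoly.rootMultiplicity 1 := by
  rw [← Matrix.reverse_charpoly, PLD_rev_mult, Matrix.charpoly_map,
    eq_rootMultiplicity_map (FaithfulSMul.algebraMap_injective O ℚ_[2]), map_one]

theorem scale_lead {u : O} (hu : u ≠ 0) (a : O[X]) : (a.comp (C u * X)).natDegree = a.natDegree ∧
    (a.comp (C u * X)).leadingCoeff = u ^ a.natDegree * a.leadingCoeff := by
  have h1 : (C u * X).natDegree = 1 := natDegree_C_mul_X _ hu
  refine ⟨by rw [natDegree_comp, h1, mul_one], ?_⟩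
  rw [leadingCoeff_comp (by omega), leadingCoeff_C_mul_X, mul_comm]

theorem scale_mult {u u' : O} (hu : u * u' = 1) (a : O[X]) :
    (a.comp (C u * X)).rootMultiplicity u' = a.rootMultiplicity 1 := by
  by_cases h : a = 0
  · simp [h]
  obtain ⟨s, h1, h2⟩ := PLD_dec h
  have e : (X - C 1 : O[X]).comp (C u * X) = (X - C u') * C u := by
    rw [sub_comp, X_comp, C_comp, ← hu, C_mul]
    ring
  refine PLD_mult (s := C u ^ a.rootMultiplicity 1 * s.comp (C u * X)) ?_ ?_
  · conv_lhs => rw [h1]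
    rw [mul_comp, pow_comp, e, mul_pow, mul_assoc]
  · rw [eval_mul, eval_pow, eval_C, eval_comp, eval_mul, eval_C, eval_X, hu]
    exact mul_ne_zero (pow_ne_zero _ (left_ne_zero_of_mul_eq_one hu)) h2

theorem mult_expand {e : ℕ} (he : 0 < e) (a : O[X]) :
    (expand O e a).rootMultiplicity 1 = a.rootMultiplicity 1 := by
  by_cases h : a = 0
  · simp [h]
  obtain ⟨s, h1, h2⟩ := PLD_dec h
  have e1 : Polynomial.expand O e (X - C 1) = (X - C 1) * ∑ i ∈ Finset.range e, X ^ i := by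
    rw [map_sub, expand_X, expand_C, C_1, mul_geom_sum]
  refine PLD_mult
    (s := (∑ i ∈ Finset.range e, X ^ i) ^ a.rootMultiplicity 1 * Polynomial.expand O e s) ?_ ?_
  · conv_lhs => rw [h1]
    rw [map_mul, map_pow, e1, mul_pow, mul_assoc]
  · rw [eval_mul, eval_pow, expand_eval, one_pow, eval_geom_sum]
    refine mul_ne_zero (pow_ne_zero _ ?_) h2
    simpa using he.ne'

/-- `g` is the normalised reverse of `f` -/
def Rc (f g : O[X]) : Prop :=
  f.coeff 0 = 1 ∧ IsUnit f.leadingCoeff ∧ f.reverse = C f.leadingCoeff * g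

theorem Rc.lead (h : Rc f g) : f.leadingCoeff * g.leadingCoeff = 1 := by
  have := congrArg leadingCoeff h.2.2
  rw [(PLD_rev (h.1 ▸ one_ne_zero)).2.1, h.1, leadingCoeff_mul, leadingCoeff_C] at this
  exact this.symm

theorem Rc.symm (h : Rc f g) : Rc g f := by
  have h1 := h.lead
  refine ⟨?_, IsUnit.of_mul_eq_one_right _ h1, ?_⟩
  · have := congrArg (coeff · 0) h.2.2
    simp only [coeff_zero_reverse, coeff_C_mul] at this
    exact mul_left_cancel₀ h.2.1.ne_zero (by rw [← this, mul_one])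
  · have := congrArg reverse h.2.2
    rw [(PLD_rev (h.1 ▸ one_ne_zero)).2.2, reverse_mul_of_domain, reverse_C] at this
    conv_rhs => rw [this]
    rw [← mul_assoc, ← C_mul, mul_comm g.leadingCoeff, h1, C_1, one_mul]

theorem rc_one : Rc 1 1 := by
  refine ⟨by simp, by simp, ?_⟩
  rw [← C_1, reverse_C]
  simp

theorem Rc.mul (h : Rc f g) (h' : Rc f' g') : Rc (f * f') (g * g') := by
  refine ⟨by rw [mul_coeff_zero, h.1, h'.1, one_mul], ?_, ?_⟩
  · rw [leadingCoeff_mul]
    exact h.2.1.mul h'.2.1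
  · rw [reverse_mul_of_domain, h.2.2, h'.2.2, leadingCoeff_mul, C_mul]
    ring

theorem rc_prod {ι : Type} (s : Finset ι) {f g : ι → O[X]} (h : ∀ i ∈ s, Rc (f i) (g i)) :
    Rc (∏ i ∈ s, f i) (∏ i ∈ s, g i) := by
  classical
  induction s using Finset.induction_on with
  | empty => simpa using rc_one
  | insert i s hi ih =>
    rw [Finset.prod_insert hi, Finset.prod_insert hi]
    exact (h i (Finset.mem_insert_self _ _)).mul (ih fun j hj => h j (Finset.mem_insert_of_mem hj))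

theorem PLD_rev_expand {e : ℕ} (he : 0 < e) (f : O[X]) :
    (Polynomial.expand O e f).reverse = Polynomial.expand O e f.reverse := by
  ext n
  rw [coeff_reverse, natDegree_expand, coeff_expand he, coeff_expand he, coeff_reverse]
  by_cases h1 : e ∣ n
  · obtain ⟨k, rfl⟩ := h1
    have e1 : revAt (f.natDegree * e) (e * k) = e * revAt f.natDegree k := by
      rw [mul_comm f.natDegree]
      rcases le_or_gt k f.natDegree with h2 | h2
      · rw [revAt_le h2, revAt_le (Nat.mul_le_mul_left e h2), Nat.mul_sub]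
      · rw [revAt_eq_self_of_lt h2, revAt_eq_self_of_lt (Nat.mul_lt_mul_of_pos_left h2 he)]
    rw [e1, if_pos (Dvd.intro _ rfl), if_pos (Dvd.intro _ rfl), Nat.mul_div_cancel_left _ he,
      Nat.mul_div_cancel_left _ he]
  · rw [if_neg h1, if_neg]
    intro h3
    rcases le_or_gt n (f.natDegree * e) with h2 | h2
    · rw [revAt_le h2] at h3
      exact h1 ((Nat.dvd_sub_iff_right h2 (Dvd.intro_left _ rfl)).1 h3)
    · rw [revAt_eq_self_of_lt h2] at h3
      exact h1 h3

theorem Rc.expand (h : Rc f g) {e : ℕ} (he : 0 < e) : Rc (expand O e f) (expand O e g) := by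
  refine ⟨by rw [coeff_expand he, if_pos (dvd_zero e), Nat.zero_div, h.1], ?_, ?_⟩
  · rw [leadingCoeff_expand he]
    exact h.2.1
  · rw [PLD_rev_expand he, h.2.2, map_mul, expand_C, leadingCoeff_expand he]

theorem rc_cp {I : Type} [Fintype I] [DecidableEq I] {M M' : Matrix I I O} (h : M * M' = 1) :
    Rc M.charpolyRev M'.charpolyRev := by
  have hd : IsUnit M.det := Matrix.isUnit_det_of_right_inverse h
  have h1 := cp_lead hd.ne_zero
  have h2 : M.charpoly.coeff 0 ≠ 0 := by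
    rw [PLD_cp0]
    exact mul_ne_zero (pow_ne_zero _ (by norm_num)) hd.ne_zero
  refine ⟨by rw [coeff_zero_eq_eval_zero, Matrix.eval_charpolyRev], ?_, ?_⟩
  · rw [h1.2]
    exact (isUnit_neg_one.pow _).mul hd
  · rw [h1.2, ← Matrix.reverse_charpoly M, (PLD_rev h2).2.2, ← Matrix.det_neg, RingHom.map_det,
      Matrix.charpolyRev, ← Matrix.det_mul, Matrix.charpoly, Matrix.charmatrix, map_neg, mul_sub,
      Matrix.mul_smul, neg_mul, neg_mul, ← RingHom.mapMatrix_apply, ← map_mul, h]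
    congr 1
    ext1 i j
    by_cases e : i = j <;> simp [e]
    ring

theorem Rc.mult (h : Rc f g) : g.rootMultiplicity 1 = f.rootMultiplicity 1 := by
  have h1 : g ≠ 0 := leadingCoeff_ne_zero.1 (right_ne_zero_of_mul_eq_one h.lead)
  rw [← PLD_rev_mult f, h.2.2, rootMultiplicity_mul (mul_ne_zero (C_ne_zero.2 h.2.1.ne_zero) h1),
    rootMultiplicity_C, zero_add]

theorem Rc.self (h : Rc f f) : f.leadingCoeff = (-1) ^ f.rootMultiplicity 1 := by
  obtain ⟨s, h1, h2⟩ := PLD_dec (leadingCoeff_ne_zero.1 h.2.1.ne_zero)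
  have h3 := ((congrArg reverse h1).trans (PLD_rev_pow _ s)).symm.trans
    (h.2.2.trans (congrArg (C f.leadingCoeff * ·) h1))
  rw [mul_left_comm (C f.leadingCoeff)] at h3
  have h4 := congrArg (eval 1) (mul_left_cancel₀ (pow_ne_zero _ (X_sub_C_ne_zero 1)) h3)
  rw [eval_mul, eval_mul, PLD_rev_eval, eval_C, eval_pow, eval_neg, eval_one] at h4
  exact (mul_right_cancel₀ h2 h4).symm

end Pool.Agent.Hyp
end

-- merged part: Pool.Agent.Work.MP_60d5ce_nt.Hy.PPerm
section
/-!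
# Fixed points and fixed cycles of permutations  (task HY PPerm)

`fo s t` is the number of cycles (fixed points included) of `t` that `s` maps to themselves.
* `lf_pp`: `lf_cp`, `Matrix.trace_permutation`, powers of `permMatrix` (`Matrix.permMatrix_mul`); `pp_lead`: `cp_lead`, `Matrix.det_permutation`.
* `fo_eq`: `D ↦ p '' D` is a singleton; or the bijection `o ↦ p ⁻¹' {o}`.
* `exists_fo`: `s * t ^ i = t ^ (Q * i) * s`, so `s` preserves `t.SameCycle` (use `SameCycle.exists_pow_eq'`); the induced map on `Quotient (SameCycle.setoid t)` is onto, hence a permutation `s'`;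
  `fo_eq` for the powers; `F = pp s'`.
* `fo_swap`: `fo_eq` with `p` collapsing `b` to `a` on `{z // z ≠ b}`.
* `fo_un`, `fo_ram`: the cycles of `(t, +0)` are `D × {c}`; the cycles of `(1, +1)` are `{z} × F2`.
-/

namespace Pool.Agent.Hyp

open scoped Classical
open Pool.Agent.Quad Polynomial

variable {Z Z' : Type}

/-- the number of fixed points -/
noncomputable def fx (s : Equiv.Perm Z) : ℕ := (Function.fixedPoints s).ncard

/-- the number of cycles of `t` fixed by `s` -/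
noncomputable def fo (s t : Equiv.Perm Z) : ℕ :=
  {D : Set Z | ∃ z, D = {z' | t.SameCycle z z'} ∧ t.SameCycle z (s z)}.ncard

/-- the permutation of `Z × F2` given by `s` and a translation -/
def tw (s : Equiv.Perm Z) (a : F2) : Equiv.Perm (Z × F2) := Equiv.prodCongr s (Equiv.addRight a)

theorem tw_apply (s : Equiv.Perm Z) (a : F2) (z : Z × F2) : tw s a z = (s z.1, z.2 + a) := rfl

theorem tw_mul (s t : Equiv.Perm Z) (a b : F2) : tw (s * t) (a + b) = tw s a * tw t b := by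
  refine Equiv.ext fun z => ?_
  simp only [Equiv.Perm.mul_apply, tw_apply]
  rw [add_comm a b, add_assoc]

theorem tw_pow (s : Equiv.Perm Z) (a : F2) (m : ℕ) : tw s a ^ m = tw (s ^ m) (m • a) := by
  induction m with
  | zero =>
    refine Equiv.ext fun z => ?_
    simp [tw_apply]
  | succ m ih => rw [pow_succ, ih, pow_succ, succ_nsmul, tw_mul]

variable [Fintype Z] [Fintype Z']

/-- `det (1 - T s)` -/
noncomputable def pp (s : Equiv.Perm Z) : O[X] := (s.permMatrix O).charpolyRev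

theorem PPerm_pow (s : Equiv.Perm Z) (n : ℕ) : s.permMatrix O ^ n = (s ^ n).permMatrix O := by
  induction n with
  | zero => rw [pow_zero, pow_zero, Matrix.permMatrix_one]
  | succ n ih => rw [pow_succ, ih, pow_succ', Matrix.permMatrix_mul]

theorem PPerm_sc {t : Equiv.Perm Z} {z z' : Z} : t.SameCycle z z' ↔ ∃ i : ℕ, (t ^ i) z = z' :=
  ⟨fun h => (h.exists_pow_eq').imp fun _ h => h.2, fun ⟨i, h⟩ => ⟨i, by rwa [zpow_natCast]⟩⟩

theorem PPerm_one : fx (1 : Equiv.Perm Z) = Fintype.card Z := by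
  have h : Function.fixedPoints (1 : Equiv.Perm Z) = Set.univ :=
    Set.eq_univ_of_forall fun _ => rfl
  rw [fx, h, Set.ncard_univ, Nat.card_eq_fintype_card]

theorem lf_pp (s : Equiv.Perm Z) : LF (fun m => (fx (s ^ m) : O)) (pp s) := by
  refine (lf_cp (s.permMatrix O)).congr fun n _ => ?_
  rw [PPerm_pow, Matrix.trace_permutation, fx]

theorem pp_lead (s : Equiv.Perm Z) : (pp s).natDegree = Fintype.card Z ∧
    (pp s).leadingCoeff = (-1) ^ Fintype.card Z * ((Equiv.Perm.sign s : ℤ) : O) := by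
  have h : (s.permMatrix O).det = ((Equiv.Perm.sign s : ℤ) : O) := Matrix.det_permutation s
  have h0 : (s.permMatrix O).det ≠ 0 := by
    rw [h]
    exact Int.cast_ne_zero.2 (Units.ne_zero _)
  rw [← h]
  exact cp_lead h0

theorem fo_eq {s t : Equiv.Perm Z} {p : Z → Z'} (hp : Function.Surjective p)
    (h : ∀ z z', p z = p z' ↔ t.SameCycle z z') {s' : Equiv.Perm Z'} (hs : ∀ z, p (s z) = s' (p z)) :
    fo s t = fx s' := by
  have e : ∀ z, {z' | t.SameCycle z z'} = p ⁻¹' {p z} := fun z => by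
    ext z'
    rw [Set.mem_preimage, Set.mem_singleton_iff, eq_comm, h]
    rfl
  have hi : Function.Injective fun o : Z' => p ⁻¹' {o} := fun o o' h' =>
    Set.singleton_injective (hp.preimage_injective h')
  rw [fo, fx, ← Set.ncard_image_of_injective _ hi]
  congr 1
  ext D
  constructor
  · rintro ⟨z, rfl, hz⟩
    exact ⟨p z, (hs z).symm.trans ((h _ _).2 hz).symm, (e z).symm⟩
  · rintro ⟨o, ho, rfl⟩
    obtain ⟨z, rfl⟩ := hp o
    exact ⟨z, (e z).symm, (h _ _).1 ((hs z).trans ho).symm⟩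

theorem fo_one (s : Equiv.Perm Z) : fo s 1 = fx s := by
  exact fo_eq (p := id) Function.surjective_id (fun _ _ => Equiv.Perm.sameCycle_one.symm)
    fun _ => rfl

theorem exists_fo {s t : Equiv.Perm Z} {Q : ℕ} (h : s * t = t ^ Q * s) :
    ∃ F : O[X], LF (fun m => (fo (s ^ m) t : O)) F ∧ F.natDegree = fo 1 t ∧
      F.leadingCoeff ^ 2 = 1 := by
  have h1 : ∀ i : ℕ, s * t ^ i = t ^ (Q * i) * s := fun i => by
    induction i with
    | zero => simp
    | succ i ih => rw [pow_succ, ← mul_assoc, ih, mul_assoc, h, ← mul_assoc, ← pow_add, Nat.mul_succ]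
  have h2 : ∀ z z', t.SameCycle z z' → t.SameCycle (s z) (s z') := fun z z' hz => by
    obtain ⟨i, rfl⟩ := PPerm_sc.1 hz
    exact PPerm_sc.2 ⟨Q * i, (DFunLike.congr_fun (h1 i) z).symm⟩
  let f : Quotient (Equiv.Perm.SameCycle.setoid t) → Quotient (Equiv.Perm.SameCycle.setoid t) :=
    Quotient.map s h2
  have h3 : Function.Surjective f := fun o => by
    obtain ⟨z, rfl⟩ := Quotient.exists_rep o
    obtain ⟨z, rfl⟩ := s.surjective z
    exact ⟨Quotient.mk _ z, rfl⟩
  let s' : Equiv.Perm (Quotient (Equiv.Perm.SameCycle.setoid t)) :=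
    Equiv.ofBijective f (Finite.surjective_iff_bijective.1 h3)
  let _ : Fintype (Quotient (Equiv.Perm.SameCycle.setoid t)) := Fintype.ofFinite _
  have h4 : ∀ m : ℕ, fo (s ^ m) t = fx (s' ^ m) := fun m => by
    refine fo_eq (p := Quotient.mk _) Quotient.mk_surjective (fun _ _ => Quotient.eq) ?_
    induction m with
    | zero => exact fun _ => rfl
    | succ m ih =>
      intro z
      rw [pow_succ, pow_succ, Equiv.Perm.mul_apply, Equiv.Perm.mul_apply, ih]
      rfl
  refine ⟨pp s', (lf_pp s').congr fun m _ => by rw [h4], ?_, ?_⟩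
  · have h5 := h4 0
    rw [pow_zero, pow_zero, PPerm_one] at h5
    rw [(pp_lead s').1, h5]
  · rw [(pp_lead s').2, mul_pow, ← pow_mul, mul_comm _ 2, pow_mul, neg_one_sq, one_pow, one_mul,
      ← Int.cast_pow, ← Units.val_pow_eq_pow_val, Int.units_sq, Units.val_one, Int.cast_one]

theorem fo_swap {t : Equiv.Perm Z} (h : t.IsSwap) : fo 1 t + 1 = Fintype.card Z := by
  obtain ⟨a, b, hab, rfl⟩ := h
  let p : Z → {z // z ≠ b} := fun z => if hz : z = b then ⟨a, hab⟩ else ⟨z, hz⟩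
  have p1 : ∀ z, (p z).1 = if z = b then a else z := fun z => by
    simp only [p]
    split_ifs <;> rfl
  have h1 : ∀ z, (Equiv.swap a b).SameCycle z (p z) := fun z => by
    rw [p1]
    split_ifs with hz
    · exact PPerm_sc.2 ⟨1, by rw [hz, pow_one, Equiv.swap_apply_right]⟩
    · exact Equiv.Perm.SameCycle.refl _ _
  have h2 : ∀ z, p (Equiv.swap a b z) = p z := fun z => Subtype.ext (by
    rw [p1, p1, Equiv.swap_apply_def]
    split_ifs <;> simp_all)
  have h3 : fo 1 (Equiv.swap a b) = fx (1 : Equiv.Perm {z // z ≠ b}) := by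
    refine fo_eq (p := p) (fun z => ⟨z.1, Subtype.ext (by rw [p1, if_neg z.2])⟩)
      (fun z z' => ⟨fun e => (h1 z).trans (e ▸ (h1 z').symm), fun e => ?_⟩) fun _ => rfl
    obtain ⟨i, rfl⟩ := PPerm_sc.1 e
    clear e
    induction i with
    | zero => rfl
    | succ i ih => rw [pow_succ', Equiv.Perm.mul_apply, h2, ih]
  have h4 : 0 < Fintype.card Z := Fintype.card_pos_iff.2 ⟨a⟩
  rw [h3, PPerm_one, Fintype.card_subtype_compl, Fintype.card_subtype_eq]
  omega

theorem fo_un (s t : Equiv.Perm Z) (a : F2) :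
    (fo (tw s a) (tw t 0) : O) = (1 + sg a) * fo s t := by
  have h1 : ∀ z z' : Z × F2, (tw t 0).SameCycle z z' ↔ t.SameCycle z.1 z'.1 ∧ z.2 = z'.2 := by
    intro z z'
    simp only [PPerm_sc, tw_pow, tw_apply, smul_zero, add_zero, Prod.ext_iff, exists_and_right]
  have h2 : ∀ z : Z × F2, {z' | (tw t 0).SameCycle z z'} = {z' | t.SameCycle z.1 z'} ×ˢ {z.2} := by
    intro z
    ext z'
    exact (h1 z z').trans (and_congr_right fun _ => eq_comm)
  rcases F2_cases a with rfl | rfl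
  · have h3 : {D : Set (Z × F2) | ∃ z, D = {z' | (tw t 0).SameCycle z z'} ∧
        (tw t 0).SameCycle z (tw s 0 z)} = (fun q : Set Z × F2 => q.1 ×ˢ {q.2}) ''
          ({D : Set Z | ∃ z, D = {z' | t.SameCycle z z'} ∧ t.SameCycle z (s z)} ×ˢ Set.univ) := by
      ext D
      constructor
      · rintro ⟨z, rfl, hz⟩
        exact ⟨(_, z.2), ⟨⟨z.1, rfl, ((h1 _ _).1 hz).1⟩, trivial⟩, (h2 z).symm⟩
      · rintro ⟨⟨_, c⟩, ⟨⟨z, rfl, hz⟩, -⟩, rfl⟩
        exact ⟨(z, c), (h2 (z, c)).symm, (h1 _ _).2 ⟨hz, (add_zero c).symm⟩⟩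
    rw [fo, h3, Set.InjOn.ncard_image, Set.ncard_prod, Set.ncard_univ, Nat.card_zmod, sg_zero, fo]
    · push_cast
      ring
    · rintro ⟨_, c⟩ ⟨⟨z, rfl, -⟩, -⟩ ⟨D, c'⟩ - e
      have h4 : ({z' | t.SameCycle z z'} ×ˢ ({c} : Set F2)).Nonempty :=
        ⟨(z, c), Equiv.Perm.SameCycle.refl _ _, rfl⟩
      obtain ⟨h5, h6⟩ := (Set.prod_eq_prod_iff_of_nonempty h4).1 e
      exact Prod.ext h5 (Set.singleton_injective h6)
  · have h3 : {D : Set (Z × F2) | ∃ z, D = {z' | (tw t 0).SameCycle z z'} ∧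
        (tw t 0).SameCycle z (tw s 1 z)} = ∅ := by
      refine Set.eq_empty_of_forall_notMem ?_
      rintro _ ⟨z, -, hz⟩
      exact one_ne_zero (left_eq_add.1 ((h1 _ _).1 hz).2)
    rw [fo, h3, Set.ncard_empty, sg_one]
    simp

theorem fo_ram (s : Equiv.Perm Z) (a : F2) : fo (tw s a) (tw 1 1) = fx s := by
  refine fo_eq (p := Prod.fst) Prod.fst_surjective (fun z z' => ?_) fun _ => rfl
  simp only [PPerm_sc, tw_pow, tw_apply, one_pow, Equiv.Perm.one_apply, Prod.ext_iff,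
    exists_and_left]
  refine ⟨fun h => ⟨h, (z'.2 - z.2).val, ?_⟩, fun h => h.1⟩
  rw [nsmul_eq_mul, mul_one, ZMod.natCast_zmod_val, add_sub_cancel]

theorem fx_unit : fx (1 : Equiv.Perm Unit) = 1 := by
  rw [PPerm_one, Fintype.card_unit]

end Pool.Agent.Hyp
end

-- merged part: Pool.Agent.Work.MP_60d5ce_nt.Hy.PEul
section
/-!
# Congruences between Euler products  (task HY PEul)

* `lf_loc`: `lf_prod`, `LF.expand`.
* `eul_split`: `mem_Pd`; `Pd T A n` is the disjoint union of `Pd T A' n` and `(A' \ A).filter (dg ∣ n)`.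
* `euler_congr`: fix `N`; let `S` be the finite set of places outside `A` of degree at most `N` (`T.dg_fin`), `Π = ∏ v ∈ S, expand (dg v) (a v)`, `Π'` the same for `b`.  By `lf_loc`, `LF.mul`,
  `LF.coeff_eq` the coefficients of `Z * Π` and `Z' * Π'` agree up to `N`.  `Π.map φ = Π'.map φ` (`map_expand`) has constant term one; strong induction on the coefficients (`coeff_mul`), or
  `X ^ (N + 1) ∣ (Z.map φ - Z'.map φ) * Π.map φ` with `IsCoprime`.
* `four_trick`: `b = a + 2 w`; `a * w(u X) + w * a(u X)` has even coefficients for `u = 1` and for `u = -1` (modulo two, `p(u X) = p`).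
* `lead_map`: `natDegree_map_eq_of_isUnit...`, `leadingCoeff_map_of_leadingCoeff_ne_zero`.
-/

namespace Pool.Agent.Hyp

open scoped Classical
open Pool.Agent.Quad Pool.Agent.Lef Polynomial

variable {W P : Type} [Group W] (T : Tame W P)

/-- the power sums of an Euler product over the places outside `A` -/
noncomputable def eul (A : Finset P) (c : P → ℕ → O) (n : ℕ) : O :=
  ∑ v ∈ Pd T A n, (T.dg v : O) * c v (n / T.dg v)

/-- the power sums of a finite product over the places in `A` -/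
noncomputable def lsum (A : Finset P) (c : P → ℕ → O) (n : ℕ) : O :=
  ∑ v ∈ A.filter fun v => T.dg v ∣ n, (T.dg v : O) * c v (n / T.dg v)

variable {T} {A A' : Finset P} {c c' : P → ℕ → O}

theorem lf_loc {a : P → O[X]} (h : ∀ v ∈ A, LF (c v) (a v)) :
    LF (lsum T A c) (∏ v ∈ A, expand O (T.dg v) (a v)) := by
  refine (lf_prod A fun v hv => (h v hv).expand (T.dg_pos v)).congr fun n _ => ?_
  rw [lsum, Finset.sum_filter]

theorem eul_split (h : A ⊆ A') (c : P → ℕ → O) {n : ℕ} (hn : 0 < n) :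
    eul T A c n = eul T A' c n + lsum T (A' \ A) c n := by
  rw [eul, eul, lsum, ← Finset.sum_union]
  · refine Finset.sum_congr ?_ fun _ _ => rfl
    ext v
    simp only [Finset.mem_union, mem_Pd, Finset.mem_filter, Finset.mem_sdiff]
    constructor
    · rintro ⟨h1, h2, h3⟩
      by_cases hv : v ∈ A'
      · exact Or.inr ⟨⟨hv, h1⟩, h2⟩
      · exact Or.inl ⟨hv, h2, h3⟩
    · rintro (⟨h1, h2, h3⟩ | ⟨⟨_, h1⟩, h2⟩)
      · exact ⟨fun hv => h1 (h hv), h2, h3⟩
      · exact ⟨h1, h2, hn.ne'⟩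
  · rw [Finset.disjoint_left]
    intro v hv hv'
    exact (mem_Pd.1 hv).1 (Finset.mem_sdiff.1 (Finset.mem_filter.1 hv').1).1

theorem eul_congr (h : ∀ v ∉ A, ∀ m, 0 < m → c v m = c' v m) (n : ℕ) :
    eul T A c n = eul T A c' n := by
  refine Finset.sum_congr rfl fun v hv => ?_
  obtain ⟨h1, h2, h3⟩ := mem_Pd.1 hv
  rw [h v h1 _ (Nat.div_pos (Nat.le_of_dvd (Nat.pos_of_ne_zero h3) h2) (T.dg_pos v))]

theorem lsum_congr (h : ∀ v ∈ A, ∀ m, 0 < m → c v m = c' v m) {n : ℕ} (hn : 0 < n) :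
    lsum T A c n = lsum T A c' n := by
  refine Finset.sum_congr rfl fun v hv => ?_
  obtain ⟨h1, h2⟩ := Finset.mem_filter.1 hv
  rw [h v h1 _ (Nat.div_pos (Nat.le_of_dvd hn h2) (T.dg_pos v))]

theorem eul_add (A : Finset P) (c c' : P → ℕ → O) (n : ℕ) :
    eul T A (fun v m => c v m + c' v m) n = eul T A c n + eul T A c' n := by
  simp only [eul, mul_add, Finset.sum_add_distrib]

theorem PEul_cancel {R : Type} [CommRing R] {f g p : R[X]} {N : ℕ} (hp : p.coeff 0 = 1)
    (h : ∀ n ≤ N, (f * p).coeff n = (g * p).coeff n) : ∀ n ≤ N, f.coeff n = g.coeff n := by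
  have h1 : (X : R[X]) ^ (N + 1) ∣ (f - g) * p := by
    rw [X_pow_dvd_iff]
    intro d hd
    rw [sub_mul, coeff_sub, h d (by omega), sub_self]
  have h2 : IsCoprime (X : R[X]) p := by
    refine ⟨-p.divX, 1, ?_⟩
    have := X_mul_divX_add p
    rw [hp, map_one] at this
    linear_combination -this
  have h3 := (h2.pow_left (m := N + 1)).dvd_of_dvd_mul_right h1
  rw [X_pow_dvd_iff] at h3
  intro n hn
  have := h3 n (by omega)
  rwa [coeff_sub, sub_eq_zero] at this

theorem euler_congr {R : Type} [CommRing R] (φ : O →+* R) {d : ℕ → O} {Z Z' : O[X]}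
    (hZ : LF (fun n => d n - eul T A c n) Z) (hZ' : LF (fun n => d n - eul T A c' n) Z')
    (h : ∀ v ∉ A, ∃ a b, LF (c v) a ∧ LF (c' v) b ∧ a.map φ = b.map φ) :
    Z.map φ = Z'.map φ := by
  choose! a b ha hb hab using h
  ext N
  let A' : Finset P := A ∪ (Finset.range (N + 1)).biUnion fun e => (T.dg_fin e).toFinset
  have hA : A ⊆ A' := Finset.subset_union_left
  have h0 : ∀ (e : P → ℕ → O) n, 0 < n → n ≤ N → eul T A e n = lsum T (A' \ A) e n := by
    intro e n hn hN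
    rw [eul_split hA e hn, eul, Finset.sum_eq_zero, zero_add]
    intro v hv
    obtain ⟨h1, h2, -⟩ := mem_Pd.1 hv
    refine absurd (Finset.mem_union_right _ (Finset.mem_biUnion.2 ⟨T.dg v, ?_, ?_⟩)) h1
    · exact Finset.mem_range.2 (Nat.lt_succ_of_le ((Nat.le_of_dvd hn h2).trans hN))
    · exact (T.dg_fin _).mem_toFinset.2 rfl
  have hS : ∀ v ∈ A' \ A, v ∉ A := fun v hv => (Finset.mem_sdiff.1 hv).2
  have hp := lf_loc (T := T) (A := A' \ A) (c := c) (a := a) fun v hv => ha v (hS v hv)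
  have hq := lf_loc (T := T) (A := A' \ A) (c := c') (a := b) fun v hv => hb v (hS v hv)
  have hpq : (∏ v ∈ A' \ A, expand O (T.dg v) (a v)).map φ =
      (∏ v ∈ A' \ A, expand O (T.dg v) (b v)).map φ := by
    rw [Polynomial.map_prod, Polynomial.map_prod]
    refine Finset.prod_congr rfl fun v hv => ?_
    rw [map_expand, map_expand, hab v (hS v hv)]
  have hc := (hZ.mul hp).coeff_eq (hZ'.mul hq) (N := N) fun n hn hN => by
    rw [h0 c n hn hN, h0 c' n hn hN]; ring
  refine PEul_cancel (p := (∏ v ∈ A' \ A, expand O (T.dg v) (a v)).map φ) (N := N) ?_ ?_ N le_rfl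
  · rw [coeff_map, hp.coeff_zero, map_one]
  · intro n hn
    conv_rhs => rw [hpq]
    rw [← Polynomial.map_mul, ← Polynomial.map_mul, coeff_map, coeff_map, hc n hn]

theorem PEul_two_dvd {p : O[X]} (h : p.map res = 0) : ∃ w, p = C 2 * w := by
  refine (C_dvd_iff_dvd_coeff (2 : O) p).2 fun i => (res_eq_zero_iff _).1 ?_
  rw [← coeff_map, h, coeff_zero]

theorem PEul_scale (a : O[X]) (x : F2) : (a.comp (C (sg x) * X)).map res = a.map res := by
  rw [map_comp, Polynomial.map_mul, map_C, map_X, res_sg, map_one, one_mul, comp_X]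

theorem four_trick {a b : O[X]} (h : a.map res = b.map res) (x : F2) :
    (a.comp (C (sg x) * X) * a).map (rO 2) = (b.comp (C (sg x) * X) * b).map (rO 2) := by
  obtain ⟨w, hw⟩ := PEul_two_dvd (p := b - a) (by rw [Polynomial.map_sub, h, sub_self])
  obtain rfl : b = a + C 2 * w := by rw [← hw]; ring
  obtain ⟨z, hz⟩ := PEul_two_dvd (p := a.comp (C (sg x) * X) * w + w.comp (C (sg x) * X) * a) (by
    rw [Polynomial.map_add, Polynomial.map_mul, Polynomial.map_mul, PEul_scale, PEul_scale,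
      mul_comm (w.map res), ← two_mul]
    have : (2 : F2[X]) = 0 := by
      rw [← map_ofNat C 2, F2_two, map_zero]
    rw [this, zero_mul])
  have e : (a + C 2 * w).comp (C (sg x) * X) * (a + C 2 * w) =
      a.comp (C (sg x) * X) * a + C (2 ^ 2) * (z + w.comp (C (sg x) * X) * w) := by
    rw [add_comp, mul_comp, C_comp, map_pow]
    linear_combination C 2 * hz
  rw [e, Polynomial.map_add, Polynomial.map_mul (p := C (2 ^ 2)), map_C, rO_eq_zero.2 dvd_rfl,
    map_zero, zero_mul, add_zero]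

theorem scale_res (a : O[X]) (x : F2) : (a.comp (C (sg x) * X)).map res = a.map res := by
  exact PEul_scale a x

theorem lead_map {R : Type} [CommRing R] [Nontrivial R] (φ : O →+* R) {a b : O[X]}
    (ha : IsUnit a.leadingCoeff) (hb : IsUnit b.leadingCoeff) (h : a.map φ = b.map φ) :
    a.natDegree = b.natDegree ∧ φ a.leadingCoeff = φ b.leadingCoeff := by
  have ha' : φ a.leadingCoeff ≠ 0 := (ha.map φ).ne_zero
  have hb' : φ b.leadingCoeff ≠ 0 := (hb.map φ).ne_zero
  refine ⟨?_, ?_⟩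
  · rw [← natDegree_map_of_leadingCoeff_ne_zero φ ha', ← natDegree_map_of_leadingCoeff_ne_zero φ hb', h]
  · rw [← leadingCoeff_map_of_leadingCoeff_ne_zero φ ha',
      ← leadingCoeff_map_of_leadingCoeff_ne_zero φ hb', h]

end Pool.Agent.Hyp
end

-- merged part: Pool.Agent.Work.MP_60d5ce_nt.Hy.B2Def
section
/-!
# The dual trace formula  (task HY B2Def)

* `hasTr_QQ'`: as `hasTr_QQ` in `Lb/BSh.lean`, with `hasTr_cob` for `w⁻¹`, `γ⁻¹`, `q = 1`, and `L2.tr`; `sh_op`.
* `cnt_inv`: `cnt_two` for the class function `s ↦ χ s⁻¹`, reindexed along the bijection `δ ↦ w⁻¹ * δ⁻¹ * w` of `Gn T U 0`; `cjs T U e γ x` depends only on the class of `γ` modulo `U`.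
* `trace_formula'`: copy the proof of `trace_formula` in `Lb/BMain.lean` with `w⁻¹` in place of `w` (`hasTr_QQ` for `w` still gives the basis): the trace of `F * R δ` is
  `ncard - fixY γ + fixT γ` for `γ = (w⁻¹ * δ.out)⁻¹`; `cnt_one` for `w⁻¹`, `cnt_inv` for `x = σ ^ m` and for `x = σ ^ m * τ ^ i`.
-/

namespace Pool.Agent.Hyp

open scoped Classical
open Pool.Agent.Quad Pool.Agent.Lef

variable {W P : Type} [Group W] (T : Tame W P)

/-- `q ^ n - 1` times the number of fixed points over `A` -/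
noncomputable def fixT (U : Subgroup W) (A : Finset P) (γ : W) (n : ℕ) : ℕ :=
  ∑ v ∈ A.filter fun v => T.dg v ∣ n, ∑ i ∈ Finset.range (T.q ^ n - 1),
    (cjs T U (T.dg v) γ (T.σ v ^ (n / T.dg v) * T.τ v ^ i)).ncard

/-- more geometric input: duality and the sign of the functional equation of a curve -/
structure LefAx2 : Prop where
  tr : ∀ U : Subgroup W, T.Adm U → ∀ A : Finset P, A.Nonempty → (∀ v ∉ A, T.τ v ∈ U) →
    ∀ (J n : ℕ) (γ : W), 0 < n → T.deg γ = n →
    HasTr (2 ^ (J + 1)) (ZH T U (fun _ => AddMonoidHom.id (ZMod (2 ^ (J + 1)))) A)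
      (fun χ g => χ (γ * g * γ⁻¹)) (1 - fixY T U A γ n + fixT T U A γ n)
  zz : ∀ (Z : Type) [Fintype Z] [Nonempty Z] (π : W →* Equiv.Perm Z),
    (∃ U, T.Adm U ∧ ∀ u ∈ U, π u = 1) → (∀ z z', ∃ g, T.deg g = 0 ∧ π g z = z') →
    ∃ (r : ℕ) (Φ : Matrix (Fin r ⊕ Fin r) (Fin r ⊕ Fin r) O), Φ.det = (T.q : O) ^ r ∧
      ∀ n, 0 < n → (Φ ^ n).trace = 1 + (T.q : O) ^ n -
        eul T ∅ (fun v m => (fo (π (T.σ v) ^ m) (π (T.τ v)) : O)) n

variable {T} {U : Subgroup W} {A : Finset P}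

theorem hasTr_QQ' [U.Normal] (L2 : LefAx2 T) (hU : T.Adm U) (hA : A.Nonempty)
    (hτ : ∀ v ∉ A, T.τ v ∈ U) {J n : ℕ} (hn : 0 < n) {w γ : W} (hw : T.deg w = n)
    (hγ : T.deg γ = n) :
    HasTr (2 ^ (J + 1)) (QQ T U A (ZMod (2 ^ (J + 1))))
      (opQ U (ZMod (2 ^ (J + 1))) w⁻¹ (γ⁻¹ : W))
      (({s | s ∈ Gn T U 0 ∧ ((w⁻¹ : W) : W ⧸ U)⁻¹ * s * (γ⁻¹ : W) = s}.ncard : ZMod (2 ^ (J + 1))) -
        fixY T U A γ n + fixT T U A γ n) := by
  have h : T.deg γ⁻¹ = T.deg w⁻¹ := by rw [T.deg_inv, T.deg_inv, hγ, hw]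
  have key := (hasTr_cob (J := J) hU h 1).add (L2.tr U hU A hA hτ J n γ hn hγ)
    (H := QQ T U A (ZMod (2 ^ (J + 1)))) (j := sh U) (fun c _ d _ => funext fun u => ?_)
    (sh_ker hU hτ) (sh_image hU hτ)
    ⟨fun c hc => nsmul_mem (opQ_mem hU ((mk_mem_Gn hU).2 h) hc) _,
      fun c _ d _ => by simp only [map_add, smul_add]⟩
    (fun c _ => funext fun g => funext fun s => ?_) fun c hc => funext fun u => ?_
  · rw [Nat.cast_one, one_mul, ← add_assoc, sub_add_sub_cancel] at key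
    exact key.congr fun c _ => one_smul _ _
  · by_cases hu : u ∈ U
    · simp only [sh, if_pos hu, Pi.add_apply]
    · simp only [sh, if_neg hu, Pi.add_apply, add_zero]
  · rw [Pi.smul_apply, Pi.smul_apply, nsmul_eq_mul, ZMod.natCast_self, zero_mul]
    rfl
  · rw [one_smul, sh_op hU h hc, inv_inv]

theorem cnt_inv [U.Normal] {Λ : Type} [CommRing Λ] (hU : T.Adm U) {w x : W}
    (h : T.deg x = T.deg w) (e : ℕ) {χ : W ⧸ U → Λ} (hχ : ∀ x y, χ (y⁻¹ * x * y) = χ x) :
    ∑ δ ∈ (Gn_finite hU 0).toFinset,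
      ((cjs T U e (w⁻¹ * δ.out)⁻¹ x).ncard : Λ) * χ ((w⁻¹ : W) * δ) =
      (U.relIndex T.G0 : Λ) * (e * χ (x⁻¹ : W)) := by
  rw [← mul_assoc, ← Nat.cast_mul, ← (blin_range hU e).2]
  refine blin_fib (blin_range hU e).1 (fun s => (w : W ⧸ U) * s * (x : W ⧸ U)⁻¹ * s⁻¹) ?_
    (fun s _ => ?_) fun δ s => ?_
  · rintro _ ⟨g, rfl, -⟩
    refine (Set.Finite.mem_toFinset _).2 ⟨w * g * x⁻¹ * g⁻¹, rfl, ?_⟩
    simp only [T.deg_mul, T.deg_inv]
    omega
  · rw [← hχ (x⁻¹ : W) s⁻¹, QuotientGroup.mk_inv, QuotientGroup.mk_inv]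
    congr 1
    group
  · have k : ∀ g : W, x⁻¹ * (g⁻¹ * (w⁻¹ * δ.out)⁻¹ * g) ∈ U ↔
        (w : W ⧸ U) * g * (x : W ⧸ U)⁻¹ * (g : W ⧸ U)⁻¹ = δ := by
      intro g
      rw [← QuotientGroup.eq, QuotientGroup.mk_mul, QuotientGroup.mk_mul, QuotientGroup.mk_inv,
        QuotientGroup.mk_inv, QuotientGroup.mk_mul, QuotientGroup.mk_inv, QuotientGroup.out_eq']
      constructor
      · intro h
        rw [h]
        group
      · intro h
        rw [← h]
        group
    constructor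
    · rintro ⟨g, rfl, h1, h2, h3⟩
      exact ⟨⟨g, rfl, h1, h2⟩, (k g).1 h3⟩
    · rintro ⟨⟨g, rfl, h1, h2⟩, h3⟩
      exact ⟨g, rfl, h1, h2, (k g).2 h3⟩

/-- the trace of `F * R δ` -/
theorem B2Def_tr [U.Normal] (L2 : LefAx2 T) (hU : T.Adm U) (hA : A.Nonempty)
    (hτ : ∀ v ∉ A, T.τ v ∈ U) {J r n : ℕ} (hn : 0 < n) {w : W} (hw : T.deg w = n)
    {e : (Fin r → ZMod (2 ^ (J + 1))) →+ (W → W ⧸ U → ZMod (2 ^ (J + 1)))}
    (he : Function.Injective e) (hr : e.range = QQ T U A (ZMod (2 ^ (J + 1)))) {δ : W ⧸ U}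
    (hδ : δ ∈ Gn T U 0) {m : Matrix (Fin r) (Fin r) (ZMod (2 ^ (J + 1)))}
    (hm : ∀ x, opQ U _ w⁻¹ ((w⁻¹ : W) * δ) (e x) = e (m.mulVec x)) :
    m.trace = ({s | s ∈ Gn T U 0 ∧ ((w⁻¹ : W) : W ⧸ U)⁻¹ * s * ((w⁻¹ : W) * δ) = s}.ncard :
      ZMod (2 ^ (J + 1))) - fixY T U A (w⁻¹ * δ.out)⁻¹ n + fixT T U A (w⁻¹ * δ.out)⁻¹ n := by
  have h0 : T.deg δ.out = 0 := by
    rw [← mk_mem_Gn hU, QuotientGroup.out_eq']
    exact hδ
  have h1 : T.deg (w⁻¹ * δ.out)⁻¹ = n := by
    rw [T.deg_inv, T.deg_mul, T.deg_inv, h0, hw, add_zero, neg_neg]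
  have h2 := hasTr_QQ' (J := J) L2 hU hA hτ hn hw h1
  have h3 : ((w⁻¹ * δ.out : W) : W ⧸ U) = (w⁻¹ : W) * δ := by
    rw [QuotientGroup.mk_mul, QuotientGroup.out_eq']
  rw [inv_inv, h3] at h2
  exact (hasTr_of_basis e he hr m hm).unique h2

theorem trace_formula' (L : LefAx T) (L2 : LefAx2 T) (hU : T.Adm U) (hA : A.Nonempty)
    (hτ : ∀ v ∉ A, T.τ v ∈ U) {j : ℕ} {I : Type} [Fintype I] [DecidableEq I]
    {ρ : W → Matrix I I (ZMod (2 ^ (j + 1)))} (hρ : ∀ g h, ρ (g * h) = ρ g * ρ h)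
    (hρU : ∀ u ∈ U, ρ u = 1) {n : ℕ} (hn : 0 < n) {w : W} (hw : T.deg w = n) :
    HasTr (2 ^ (j + 1)) (ZH T T.G0 (mv ρ) A) (conjOp (mv ρ) w⁻¹)
      ((ρ w⁻¹).trace -
        ∑ v ∈ Pd T A n, (T.dg v : ZMod (2 ^ (j + 1))) * (ρ (T.σ v ^ (n / T.dg v))⁻¹).trace +
        ∑ v ∈ A.filter fun v => T.dg v ∣ n, (T.dg v : ZMod (2 ^ (j + 1))) *
          ∑ i ∈ Finset.range (T.q ^ n - 1), (ρ (T.σ v ^ (n / T.dg v) * T.τ v ^ i)⁻¹).trace) := by
  have := T.adm_normal U hU
  obtain ⟨J, hJ, hcan⟩ := cancel_two (T.adm_index U hU) j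
  have hs : ∀ δ, δ ∈ (Gn_finite hU 0).toFinset ↔ δ ∈ T.G0.map (QuotientGroup.mk' U) := fun δ => by
    rw [BMain_memG, Set.Finite.mem_toFinset]
  have hcard : (Gn_finite hU 0).toFinset.card = U.relIndex T.G0 := by
    rw [← Gn_ncard hU 0, Set.ncard_eq_toFinset_card _ (Gn_finite hU 0)]
  have hfr := (hasTr_QQ (J := J) L hU hA hτ hn hw hw).fr
  have hfin := hfr.finite
  obtain ⟨r, e, he, hr⟩ := hfr
  have hRe : ∀ δ : W ⧸ U, ∃ m : Matrix (Fin r) (Fin r) (ZMod (2 ^ (J + 1))), δ ∈ Gn T U 0 →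
      ∀ x, opQ U _ 1 δ (e x) = e (m.mulVec x) := fun δ => by
    by_cases hδ : δ ∈ Gn T U 0
    · obtain ⟨m, hm⟩ := BMain_mat (w := 1) hU he hr (by rw [T.deg_one]; exact hδ)
      exact ⟨m, fun _ => hm⟩
    · exact ⟨0, fun h => absurd h hδ⟩
  choose R hR using hRe
  obtain ⟨F, hF⟩ := BMain_mat (w := w⁻¹) (γ := (w⁻¹ : W)) hU he hr ((mk_mem_Gn hU).2 rfl)
  obtain ⟨ε, hε, hsum⟩ := exists_higman (R := ZMod (2 ^ (J + 1))) (j := J + 1) L hU hA hτ
    (fun x => by rw [nsmul_eq_mul, ZMod.natCast_self, zero_mul]) hfin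
  obtain ⟨E, hE⟩ := exists_mat e he (hr.symm ▸ hε)
  have hR' : ∀ δ ∈ T.G0.map (QuotientGroup.mk' U), ∀ x, opQ U _ 1 δ (e x) = e ((R δ).mulVec x) :=
    fun δ hδ => hR δ ((BMain_memG δ).1 hδ)
  have r1 : ∀ δ ∈ T.G0.map (QuotientGroup.mk' U), ∀ δ' ∈ T.G0.map (QuotientGroup.mk' U),
      R (δ * δ') = R δ * R δ' := fun δ hδ δ' hδ' =>
    BMain_uniq he (hR' _ (mul_mem hδ hδ')) (BMain_mul (hR' _ hδ) (hR' _ hδ')) (mul_one 1).symm rfl
  have r2 : R 1 = 1 :=
    BMain_uniq he (hR' _ (one_mem _)) (fun x => by rw [opQ_one, Matrix.one_mulVec]) rfl rfl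
  have r3 : ∀ δ ∈ T.G0.map (QuotientGroup.mk' U),
      R δ * F = F * R (((w⁻¹ : W) : W ⧸ U)⁻¹ * δ * (w⁻¹ : W)) :=
    fun δ hδ => BMain_uniq he (BMain_mul (hR' _ hδ) hF)
      (BMain_mul hF (hR' _ (BMain_conj w⁻¹ δ hδ))) (by rw [one_mul, mul_one]) (by group)
  have r4 : ∑ δ ∈ (Gn_finite hU 0).toFinset, R δ * E * R δ⁻¹ = 1 := by
    refine tr_ext fun x => he ?_
    rw [Matrix.one_mulVec, Matrix.sum_mulVec, map_sum,
      ← hsum (e x) (hr ▸ AddMonoidHom.mem_range.2 ⟨x, rfl⟩)]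
    refine Finset.sum_congr rfl fun δ hδ => ?_
    have hδ' := (hs δ).1 hδ
    rw [hR' _ (inv_mem hδ'), hE, hR' _ hδ', Matrix.mulVec_mulVec, Matrix.mulVec_mulVec]
  have hρ' : ∀ x y : W ⧸ U, ρ (x * y).out = ρ x.out * ρ y.out := BMain_out_mul hρ hρU
  obtain ⟨χ, hχd⟩ : ∃ χ : W ⧸ U → ZMod (2 ^ (J + 1)), ∀ s, χ s = (((ρ s.out).trace.val : ℕ) : _) :=
    ⟨_, fun _ => rfl⟩
  have hχ : ∀ x y, χ (y⁻¹ * x * y) = χ x := fun x y => by
    rw [hχd, hχd, BMain_class (ρ := fun s : W ⧸ U => ρ s.out) hρ' x y]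
  have hχr : ∀ s, redZ hJ (χ s) = (ρ s.out).trace := fun s => by rw [hχd, BMain_val]
  have c0 := lin_cnt hs (BMain_conj w⁻¹) r1 r2 r3 r4 hχ
  have c1 := cnt_one hU w⁻¹ hχ
  have hdg : ∀ v, T.dg v ∣ n → T.deg (T.σ v ^ (n / T.dg v)) = T.deg w := fun v hv => by
    rw [BMain_deg_pow, T.deg_σ, hw, ← Nat.cast_mul, Nat.div_mul_cancel hv]
  have c2 : ∑ δ ∈ (Gn_finite hU 0).toFinset,
      (fixY T U A (w⁻¹ * δ.out)⁻¹ n : ZMod (2 ^ (J + 1))) * χ ((w⁻¹ : W) * δ) =
      (U.relIndex T.G0 : _) * ∑ v ∈ Pd T A n,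
        (T.dg v : ZMod (2 ^ (J + 1))) * χ ((T.σ v ^ (n / T.dg v))⁻¹ : W) := by
    simp only [fixY, Nat.cast_sum, Finset.sum_mul]
    rw [Finset.sum_comm, Finset.mul_sum]
    exact Finset.sum_congr rfl fun v hv => cnt_inv hU (hdg v (mem_Pd.1 hv).2.1) _ hχ
  have c2' : ∑ δ ∈ (Gn_finite hU 0).toFinset,
      (fixT T U A (w⁻¹ * δ.out)⁻¹ n : ZMod (2 ^ (J + 1))) * χ ((w⁻¹ : W) * δ) =
      (U.relIndex T.G0 : _) * ∑ v ∈ A.filter fun v => T.dg v ∣ n, (T.dg v : ZMod (2 ^ (J + 1))) *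
        ∑ i ∈ Finset.range (T.q ^ n - 1), χ ((T.σ v ^ (n / T.dg v) * T.τ v ^ i)⁻¹ : W) := by
    simp only [fixT, Nat.cast_sum, Finset.sum_mul]
    rw [Finset.sum_comm, Finset.mul_sum]
    refine Finset.sum_congr rfl fun v hv => ?_
    rw [Finset.sum_comm, Finset.mul_sum, Finset.mul_sum]
    refine Finset.sum_congr rfl fun i _ => cnt_inv hU ?_ _ hχ
    rw [T.deg_mul, hdg v (Finset.mem_filter.1 hv).2, BMain_deg_pow, T.deg_τ, mul_zero, add_zero]
  have c3 : ∑ δ ∈ (Gn_finite hU 0).toFinset, (F * R δ).trace * χ ((w⁻¹ : W) * δ) =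
      (U.relIndex T.G0 : _) * χ (w⁻¹ : W) - (U.relIndex T.G0 : _) * ∑ v ∈ Pd T A n,
        (T.dg v : ZMod (2 ^ (J + 1))) * χ ((T.σ v ^ (n / T.dg v))⁻¹ : W) +
      (U.relIndex T.G0 : _) * ∑ v ∈ A.filter fun v => T.dg v ∣ n, (T.dg v : ZMod (2 ^ (J + 1))) *
        ∑ i ∈ Finset.range (T.q ^ n - 1), χ ((T.σ v ^ (n / T.dg v) * T.τ v ^ i)⁻¹ : W) := by
    rw [← c1, ← c2, ← c2', ← Finset.sum_sub_distrib, ← Finset.sum_add_distrib]
    refine Finset.sum_congr rfl fun δ hδ => ?_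
    have hδ' := (Set.Finite.mem_toFinset _).1 hδ
    have h1 := BMain_mul hF (hR δ hδ')
    rw [mul_one] at h1
    rw [B2Def_tr L2 hU hA hτ hn hw he hr hδ' h1]
    ring
  rw [hcard] at c0
  obtain ⟨y, hy⟩ := hcan (∑ δ ∈ (Gn_finite hU 0).toFinset,
      (F * R δ * E).trace * χ ((w⁻¹ : W) * δ) - (χ (w⁻¹ : W) - ∑ v ∈ Pd T A n,
        (T.dg v : ZMod (2 ^ (J + 1))) * χ ((T.σ v ^ (n / T.dg v))⁻¹ : W) +
      ∑ v ∈ A.filter fun v => T.dg v ∣ n, (T.dg v : ZMod (2 ^ (J + 1))) *
        ∑ i ∈ Finset.range (T.q ^ n - 1), χ ((T.σ v ^ (n / T.dg v) * T.τ v ^ i)⁻¹ : W)))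
    (by rw [← c0] at c3; linear_combination c3)
  have hz := BMain_two hJ y
  rw [← hy, map_sub, sub_eq_zero] at hz
  obtain ⟨e', he', hr', hee⟩ := exists_redQ L hU hA hτ hJ e he hr
  have k := lin_tr (R := fun δ => (redZ hJ).mapMatrix (R δ)) (F := (redZ hJ).mapMatrix F)
    (E := (redZ hJ).mapMatrix E) (ρ := fun s : W ⧸ U => ρ s.out) hs (BMain_conj w⁻¹)
    (fun δ hδ δ' hδ' => by rw [r1 δ hδ δ' hδ', map_mul]) (by rw [r2, map_one])
    (fun δ hδ => by rw [← map_mul, ← map_mul, r3 δ hδ])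
    (by simp only [← map_mul]; rw [← map_sum, r4, map_one]) hρ'
  have hG : ((T.G0.map (QuotientGroup.mk' U) : Subgroup (W ⧸ U)) : Set (W ⧸ U)) = Gn T U 0 :=
    Set.ext BMain_memG
  rw [hG, BMain_out hρ hρU] at k
  have k' := hasTr_inv hU hρ hρU e' he' hr' (fun δ hδ => BMain_red hJ hee (hR δ hδ))
    (BMain_red hJ hee hF) k
  simp only [map_mul, map_sub, map_add, map_sum, map_natCast, hχr, BMain_out hρ hρU] at hz
  rw [← hz]
  refine Eq.mp (congrArg _ (Finset.sum_congr rfl fun δ _ => ?_)) k'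
  rw [← map_mul, ← map_mul, AddMonoidHom.map_trace]
  rfl

end Pool.Agent.Hyp
end

-- merged part: Pool.Agent.Work.MP_60d5ce_nt.Hy.Node
section
/-!
# Linear algebra at a node  (task HY Node)

`N = B - 1`.  From `ee (B s) (B t) = ee s t` and `ee (N s) (N t) = 0` (dependent vectors, `O` is a domain): `ee (N s) t = - ee s (N t)`, so `N * N = 0` (`eq_zero_of_ee'`), `B ^ i = 1 + i • N`,
`S * N = Q • N * S`.
* `Nod.trace`: `tr (S ^ m * N) = Q ^ m * tr (N * S ^ m)`, `Q ^ m ≠ 1` in `O`.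
* Fix `l = N s0 ≠ 0`.  Then `N t = 0 ↔ ee t l = 0`; `S l = Q • N (S s0)` is dependent on `l`: over `K = ℚ_[2]`, `S l = a l`, `N t = c * ee t l • l`, `a * ee (S t) l = Q * ee t l`, `a ^ 2 = Q ^ 2`.
  So `ee (S t) l = η * ee t l`, `S l = η Q l` with `η = 1` or `η = -1`; these identities hold over `O` (`Nod.line`).
* `Nod.mult`: `cp_mult`, `LinearMap.finrank_maxGenEigenspace_eq` (see `exists_pair` in `Lb/CPoly.lean`).  The sum of the generalised eigenspaces of `S` for `1` and `-1` meets the hyperplane `ee · l = 0`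
  trivially (else it contains an eigenvector in the hyperplane, which is fixed by `B`), so its dimension is at most one; `S - η` is not onto, so not injective.
* `Nod.loc`: let `t ≠ 0`, `S S t = t`, `B B t = t`; then `2 • N t = 0`, so `ee t l = 0`.  On `ker φ` the map `S S - 1` is injective: a fixed vector `u` lies in `K`, so is dependent on `l ∈ K`, and
  `S S l = Q ^ 2 l`.  Hence `φ t ≠ 0`.  `D = S S - 1` maps `ker φ` injectively into `ker φ ⊓ ker (ee · l)`, so `ker φ ≤ ker (ee · l)` by a dimension count over `K` (`φ ≠ 0`): if not, the intersection has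
  smaller dimension.  Two nonzero forms with nested kernels are proportional, so `φ t = 0`.
-/

namespace Pool.Agent.Hyp

open Pool.Agent.Quad Polynomial

variable [Par]

/-- Frobenius and a transvection -/
structure Nod (S B : Matrix Ix Ix O) (Q : ℕ) : Prop where
  hQ : 1 < Q
  hS : ∀ a b, ee (S.mulVec a) (S.mulVec b) = Q * ee a b
  hB : ∀ a b, ee (B.mulVec a) (B.mulVec b) = ee a b
  rel : S * B = B ^ Q * S
  ne : B ≠ 1
  rk : ∀ s t : V, ∃ a b : O, (a ≠ 0 ∨ b ≠ 0) ∧ a • (B.mulVec s - s) = b • (B.mulVec t - t)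

variable {S B : Matrix Ix Ix O} {Q : ℕ}

theorem Node_dep {x y : V} (h : ∃ a b : O, (a ≠ 0 ∨ b ≠ 0) ∧ a • x = b • y) : ee x y = 0 := by
  obtain ⟨a, b, hab, e⟩ := h
  rcases hab with ha | hb
  · refine (mul_eq_zero.1 ?_).resolve_left ha
    rw [← ee_smul_left, e, ee_smul_left, ee_self, mul_zero]
  · refine (mul_eq_zero.1 ?_).resolve_left hb
    rw [← ee_smul_right, ← e, ee_smul_right, ee_self, mul_zero]

theorem Node_n (B : Matrix Ix Ix O) (t : V) : (B - 1).mulVec t = B.mulVec t - t := by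
  rw [Matrix.sub_mulVec, Matrix.one_mulVec]

theorem Nod.Node_nn (h : Nod S B Q) (s t : V) : ee ((B - 1).mulVec s) ((B - 1).mulVec t) = 0 := by
  rw [Node_n, Node_n]
  exact Node_dep (h.rk s t)

theorem Nod.Node_adj (h : Nod S B Q) (s t : V) :
    ee ((B - 1).mulVec s) t = -ee s ((B - 1).mulVec t) := by
  have h1 := h.Node_nn s t
  have h2 := h.hB s t
  rw [Node_n, Node_n, ee_sub_left, ee_sub_right, ee_sub_right] at h1
  rw [Node_n, Node_n, ee_sub_left, ee_sub_right]
  linear_combination h2 - h1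

theorem Node_det (M : Matrix Ix Ix O) {l : V} (hl : l ≠ 0) (h : ∀ u, ee (M.mulVec u) l = 0) :
    M.det = 0 := by
  by_contra hd
  refine hl (eq_zero_of_ee' fun u => ?_)
  have h1 := h (M.adjugate.mulVec u)
  rw [Matrix.mulVec_mulVec, Matrix.mul_adjugate, Matrix.smul_mulVec, Matrix.one_mulVec,
    ee_smul_left] at h1
  rw [ee_swap, (mul_eq_zero.1 h1).resolve_left hd, neg_zero]

theorem Node_pos (M : Matrix Ix Ix O) :
    0 < M.charpolyRev.rootMultiplicity 1 ↔ (1 - M).det = 0 := by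
  have h0 : M.charpolyRev ≠ 0 := fun h => by
    have := Matrix.eval_charpolyRev (M := M)
    rw [h, eval_zero] at this
    exact zero_ne_one this
  rw [rootMultiplicity_pos h0, IsRoot.def, Matrix.charpolyRev, ← coe_evalRingHom, RingHom.map_det]
  have e : (evalRingHom (1 : O)).mapMatrix (1 - (X : O[X]) • M.map C) = 1 - M := by
    ext i j
    by_cases hij : i = j <;> simp [hij]
  rw [e]

theorem Node_le (M : Matrix Ix Ix O) (l : V) (h : ∀ u, ee (M.mulVec u) l = ee u l)
    (h2 : 2 ≤ M.charpolyRev.rootMultiplicity 1) :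
    ∃ t : V, t ≠ 0 ∧ M.mulVec t = t ∧ ee t l = 0 := by
  classical
  rw [cp_mult, ← Matrix.charpoly_toLin', ← LinearMap.finrank_maxGenEigenspace_eq] at h2
  obtain ⟨f, hf⟩ : ∃ f, f = Matrix.toLin' (M.map (algebraMap O ℚ_[2])) := ⟨_, rfl⟩
  rw [← hf] at h2
  let lK : Ix → ℚ_[2] := fun i => algebraMap O ℚ_[2] (l i)
  let lam : (Ix → ℚ_[2]) →ₗ[ℚ_[2]] ℚ_[2] :=
    { toFun := fun v => ee v lK
      map_add' := fun a b => ee_add_left a b lK
      map_smul' := fun c a => ee_smul_left c a lK }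
  have clear : ∀ v : Ix → ℚ_[2], ∃ (c : ℚ_[2]) (y : V), c ≠ 0 ∧
      (fun i => algebraMap O ℚ_[2] (y i)) = c • v := fun v => by
    obtain ⟨c, hc⟩ := IsLocalization.exist_integer_multiples_of_finite (nonZeroDivisors O) v
    choose y hy using hc
    exact ⟨algebraMap O ℚ_[2] c, y,
      (FaithfulSMul.algebraMap_eq_zero_iff O _).not.2 (nonZeroDivisors.ne_zero c.2), funext hy⟩
  have hfy : ∀ y : V, f (fun i => algebraMap O ℚ_[2] (y i)) =
      fun i => algebraMap O ℚ_[2] (M.mulVec y i) := fun y => by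
    rw [hf]
    exact funext fun i => (RingHom.map_mulVec _ M y i).symm
  have hinv : ∀ v, lam (f v) = lam v := fun v => by
    obtain ⟨c, y, hc, hy⟩ := clear v
    have h1 : lam (f (c • v)) = lam (c • v) := by
      rw [← hy, hfy]
      exact (ee_map _ _ _).symm.trans ((congrArg _ (h y)).trans (ee_map _ _ _))
    rw [map_smul, map_smul, map_smul, smul_eq_mul, smul_eq_mul] at h1
    exact mul_left_cancel₀ hc h1
  obtain ⟨⟨v, hv⟩, hv1, hv0⟩ := (Submodule.ne_bot_iff _).1
    (LinearMap.ker_ne_bot_of_finrank_lt (f := lam.domRestrict (Module.End.maxGenEigenspace f 1))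
      (by rw [Module.finrank_self]; exact h2))
  have hv2 : lam v = 0 := hv1
  have hv3 : v ≠ 0 := fun h0 => hv0 (Subtype.ext h0)
  obtain ⟨k, hk⟩ := (Module.End.mem_maxGenEigenspace f 1 v).1 hv
  have key : ∀ (k : ℕ) (v : Ix → ℚ_[2]), v ≠ 0 → lam v = 0 →
      ((f - (1 : ℚ_[2]) • (1 : Module.End ℚ_[2] (Ix → ℚ_[2]))) ^ k) v = 0 →
      ∃ w, w ≠ 0 ∧ lam w = 0 ∧ f w = w := by
    intro k
    induction k with
    | zero => exact fun v h1 _ h3 => absurd h3 h1
    | succ k ih =>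
      intro v h1 h3 h4
      by_cases h5 : f v = v
      · exact ⟨v, h1, h3, h5⟩
      · refine ih (f v - v) (sub_ne_zero.2 h5) (by rw [map_sub, hinv, sub_self]) ?_
        rw [pow_succ, Module.End.mul_apply, one_smul] at h4
        rw [one_smul]
        exact h4
  obtain ⟨w, hw0, hw1, hw2⟩ := key k v hv3 hv2 hk
  obtain ⟨c, y, hc, hy⟩ := clear w
  refine ⟨y, fun h0 => ?_, funext fun i => FaithfulSMul.algebraMap_injective O ℚ_[2] ?_,
    FaithfulSMul.algebraMap_injective O ℚ_[2] ?_⟩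
  · refine smul_ne_zero hc hw0 ?_
    rw [← hy, h0]
    exact funext fun i => map_zero _
  · have h1 := hfy y
    rw [hy, map_smul, hw2, ← hy] at h1
    exact (congrFun h1 i).symm
  · rw [ee_map, map_zero, hy]
    have h1 : lam (c • w) = 0 := by rw [map_smul, hw1, smul_zero]
    exact h1

theorem Nod.sq (h : Nod S B Q) : (B - 1) * (B - 1) = 0 := by
  refine Matrix.ext_iff_mulVec.2 fun s => ?_
  rw [← Matrix.mulVec_mulVec, Matrix.zero_mulVec]
  refine eq_zero_of_ee' fun t => ?_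
  rw [h.Node_adj, h.Node_nn, neg_zero]

theorem Nod.Node_pow (h : Nod S B Q) (i : ℕ) : B ^ i = 1 + (i : O) • (B - 1) := by
  induction i with
  | zero => simp
  | succ i ih =>
    have e : B = 1 + (B - 1) := by abel
    calc B ^ (i + 1) = (1 + (i : O) • (B - 1)) * (1 + (B - 1)) := by rw [pow_succ, ih, ← e]
      _ = 1 + ((i + 1 : ℕ) : O) • (B - 1) := by
          rw [mul_add, mul_one, add_mul, one_mul, smul_mul_assoc, h.sq, smul_zero, add_zero,
            Nat.cast_succ, add_smul, one_smul, add_assoc]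

theorem Nod.Node_comm (h : Nod S B Q) : S * (B - 1) = (Q : O) • ((B - 1) * S) := by
  rw [mul_sub, h.rel, h.Node_pow, add_mul, one_mul, mul_one, smul_mul_assoc, add_sub_cancel_left]

theorem Nod.Node_Q (h : Nod S B Q) {m : ℕ} (hm : 0 < m) : (Q : O) ^ m - 1 ≠ 0 := by
  rw [sub_ne_zero]
  exact_mod_cast (Nat.one_lt_pow hm.ne' h.hQ).ne'

theorem Nod.trace (h : Nod S B Q) {m : ℕ} (hm : 0 < m) (i : ℕ) :
    (S ^ m * B ^ i).trace = (S ^ m).trace := by
  have h1 : ∀ m : ℕ, S ^ m * (B - 1) = (Q : O) ^ m • ((B - 1) * S ^ m) := fun m => by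
    induction m with
    | zero => simp
    | succ m ih =>
      rw [pow_succ', mul_assoc, ih, mul_smul_comm, ← mul_assoc, h.Node_comm, smul_mul_assoc,
        smul_smul, mul_assoc, ← pow_succ]
  have h2 := congrArg Matrix.trace (h1 m)
  rw [Matrix.trace_smul, Matrix.trace_mul_comm (B - 1), smul_eq_mul] at h2
  have h3 : (S ^ m * (B - 1)).trace = 0 :=
    (mul_eq_zero.1 (by linear_combination -h2)).resolve_left (h.Node_Q hm)
  rw [h.Node_pow, mul_add, mul_one, mul_smul_comm, Matrix.trace_add, Matrix.trace_smul, h3,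
    smul_zero, add_zero]

theorem Nod.line (h : Nod S B Q) : ∃ (l : V) (η : F2), l ≠ 0 ∧ (∃ s, l = B.mulVec s - s) ∧
    (∀ t, B.mulVec t = t ↔ ee t l = 0) ∧ S.mulVec l = (sg η * Q) • l ∧
    ∀ t, ee (S.mulVec t) l = sg η * ee t l := by
  obtain ⟨s, hs⟩ : ∃ s, (B - 1).mulVec s ≠ 0 := by
    by_contra! h0
    exact h.ne (sub_eq_zero.1 (Matrix.ext_iff_mulVec.2 fun s => by
      rw [h0, Matrix.zero_mulVec]))
  have hQ : (Q : O) ≠ 0 := by exact_mod_cast (zero_lt_one.trans h.hQ).ne'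
  have dep : ∀ u, ∃ a b : O, a ≠ 0 ∧ a • (B - 1).mulVec u = b • (B - 1).mulVec s := fun u => by
    obtain ⟨a, b, hab, e⟩ := h.rk u s
    rw [← Node_n, ← Node_n] at e
    refine ⟨a, b, fun ha => ?_, e⟩
    rw [ha, zero_smul] at e
    exact smul_ne_zero (hab.resolve_left fun h1 => h1 ha) hs e.symm
  have fix : ∀ t, (B - 1).mulVec t = 0 ↔ ee t ((B - 1).mulVec s) = 0 := fun t => by
    constructor
    · intro ht
      have := h.Node_adj t s
      rw [ht, ee_zero_left] at this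
      exact neg_eq_zero.1 this.symm
    · intro ht
      refine eq_zero_of_ee' fun u => ?_
      obtain ⟨a, b, ha, e⟩ := dep u
      rw [h.Node_adj, neg_eq_zero]
      refine (mul_eq_zero.1 ?_).resolve_left ha
      rw [← ee_smul_right, e, ee_smul_right, ht, mul_zero]
  have hSl : S.mulVec ((B - 1).mulVec s) = (Q : O) • (B - 1).mulVec (S.mulVec s) := by
    rw [Matrix.mulVec_mulVec, h.Node_comm, Matrix.smul_mulVec, Matrix.mulVec_mulVec]
  have hinv : ∀ t, ee (S.mulVec t) ((B - 1).mulVec (S.mulVec s)) = ee t ((B - 1).mulVec s) :=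
    fun t => by
      refine mul_left_cancel₀ hQ ?_
      rw [← ee_smul_right, ← hSl, h.hS]
  obtain ⟨a, b, ha, e⟩ := dep (S.mulVec s)
  have hc : ee s ((B - 1).mulVec s) ≠ 0 := fun h0 => hs ((fix s).2 h0)
  have e1 := congrArg (ee (S.mulVec s)) e
  have e2 := congrArg (ee s) e
  rw [ee_smul_right, ee_smul_right] at e1 e2
  have e3 : ee s ((B - 1).mulVec (S.mulVec s)) = ee (S.mulVec s) ((B - 1).mulVec s) := by
    rw [ee_swap (S.mulVec s), h.Node_adj, neg_neg]
  rw [hinv] at e1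
  rw [e3] at e2
  have e4 : (b - a) * (b + a) = 0 :=
    (mul_eq_zero.1 (show (b - a) * (b + a) * ee s ((B - 1).mulVec s) = 0 by
      linear_combination -a * e1 - b * e2)).resolve_right hc
  obtain ⟨η, hη⟩ : ∃ η : F2, b = a * sg η := by
    rcases mul_eq_zero.1 e4 with h1 | h1
    · exact ⟨0, by rw [sg_zero]; linear_combination h1⟩
    · exact ⟨1, by rw [sg_one]; linear_combination h1⟩
  have e5 : (B - 1).mulVec (S.mulVec s) = sg η • (B - 1).mulVec s := by
    rw [hη, mul_smul] at e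
    exact smul_right_injective _ ha e
  refine ⟨(B - 1).mulVec s, η, hs, ⟨s, Node_n B s⟩, fun t => ?_, ?_, fun t => ?_⟩
  · rw [← fix, Node_n, sub_eq_zero]
  · rw [hSl, e5, smul_smul, mul_comm]
  · rw [← hinv t, e5, ee_smul_right, ← mul_assoc, sg_mul_self, one_mul]

theorem Nod.mult (h : Nod S B Q)
    (hl : ∀ t, S.mulVec (S.mulVec t) = t → B.mulVec (B.mulVec t) = t → t = 0) :
    S.charpolyRev.rootMultiplicity 1 + (-S).charpolyRev.rootMultiplicity 1 = 1 := by
  obtain ⟨l, η, hl0, -, hfix, -, hee⟩ := h.line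
  have key : ∀ M : Matrix Ix Ix O, (∀ u, ee (M.mulVec u) l = ee u l) →
      (∀ u, M.mulVec (M.mulVec u) = S.mulVec (S.mulVec u)) →
      M.charpolyRev.rootMultiplicity 1 = 1 ∧ (-M).charpolyRev.rootMultiplicity 1 = 0 := by
    intro M h1 h2
    have h3 : ∀ t, M.mulVec (M.mulVec t) = t → ee t l = 0 → t = 0 := fun t h4 h5 =>
      hl t ((h2 t).symm.trans h4) (by rw [(hfix t).2 h5, (hfix t).2 h5])
    refine ⟨le_antisymm ?_ ((Node_pos M).2 (Node_det _ hl0 fun u => ?_)), ?_⟩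
    · by_contra h4
      obtain ⟨t, h5, h6, h7⟩ := Node_le M l h1 (not_le.1 h4)
      exact h5 (h3 t (by rw [h6, h6]) h7)
    · rw [Matrix.sub_mulVec, Matrix.one_mulVec, ee_sub_left, h1, sub_self]
    · by_contra h4
      obtain ⟨t, h5, h6⟩ := Matrix.exists_mulVec_eq_zero_iff.2
        ((Node_pos (-M)).1 (Nat.pos_of_ne_zero h4))
      rw [Matrix.sub_mulVec, Matrix.one_mulVec, Matrix.neg_mulVec, sub_neg_eq_add] at h6
      have h7 : M.mulVec t = -t := eq_neg_of_add_eq_zero_right h6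
      refine h5 (h3 t (by rw [h7, Matrix.mulVec_neg, h7, neg_neg]) (two_mul_eq_zero ?_))
      have h8 := h1 t
      rw [h7, ee_neg_left] at h8
      linear_combination -h8
  rcases F2_cases η with rfl | rfl
  · obtain ⟨h1, h2⟩ := key S (fun u => by rw [hee, sg_zero, one_mul]) fun _ => rfl
    rw [h1, h2]
  · obtain ⟨h1, h2⟩ := key (-S)
      (fun u => by rw [Matrix.neg_mulVec, ee_neg_left, hee, sg_one, neg_one_mul, neg_neg])
      fun u => by rw [Matrix.neg_mulVec, Matrix.neg_mulVec, Matrix.mulVec_neg, neg_neg]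
    rw [neg_neg] at h2
    rw [h1, h2]

theorem Nod.loc (h : Nod S B Q) (K : Submodule O V) (φ : V →ₗ[O] O)
    (hK : ∀ s ∈ K, ∀ t ∈ K, ∃ a b : O, (a ≠ 0 ∨ b ≠ 0) ∧ a • s = b • t)
    (hN : ∀ t, B.mulVec t - t ∈ K) (hφ : ∀ t, φ t = 0 → φ (S.mulVec t) = 0)
    (hf : ∀ t, φ t = 0 → S.mulVec (S.mulVec t) = t → t ∈ K) (t : V)
    (h1 : S.mulVec (S.mulVec t) = t) (h2 : B.mulVec (B.mulVec t) = t) : t = 0 := by
  obtain ⟨l, η, hl0, ⟨s, hs⟩, hfix, hSl, hee⟩ := h.line
  have ht : ee t l = 0 := by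
    rw [Matrix.mulVec_mulVec, ← pow_two, h.Node_pow, Matrix.add_mulVec, Matrix.one_mulVec,
      Matrix.smul_mulVec, add_eq_left, smul_eq_zero, Node_n, sub_eq_zero] at h2
    exact (hfix t).1 (h2.resolve_left (by norm_num))
  have hA : ∀ u, φ u = 0 → S.mulVec (S.mulVec u) = u → u = 0 := fun u h3 h4 => by
    obtain ⟨a, b, hab, e⟩ := hK u (hf u h3 h4) l (hs ▸ hN s)
    have e1 := congrArg (fun v => S.mulVec (S.mulVec v)) e
    simp only [Matrix.mulVec_smul, h4, hSl, smul_smul] at e1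
    rw [e, ← sub_eq_zero, ← sub_smul, smul_eq_zero] at e1
    have e2 := e1.resolve_right hl0
    have hb : b = 0 := (mul_eq_zero.1 (show b * ((Q : O) ^ 2 - 1) = 0 by
      linear_combination -e2 - b * (Q : O) ^ 2 * sg_mul_self η)).resolve_right (h.Node_Q two_pos)
    rw [hb, zero_smul, smul_eq_zero] at e
    exact e.resolve_left (hab.resolve_right fun h5 => h5 hb)
  by_contra ht0
  have hφt : φ t ≠ 0 := fun h3 => ht0 (hA t h3 h1)
  have hD : ∀ u, φ (S.mulVec (S.mulVec u)) = φ u := fun u => by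
    have h3 : φ (φ t • u - φ u • t) = 0 := by
      rw [map_sub, map_smul, map_smul, smul_eq_mul, smul_eq_mul, mul_comm, sub_self]
    have h4 := hφ _ (hφ _ h3)
    rw [Matrix.mulVec_sub, Matrix.mulVec_sub, Matrix.mulVec_smul, Matrix.mulVec_smul,
      Matrix.mulVec_smul, Matrix.mulVec_smul, h1, map_sub, map_smul, map_smul, smul_eq_mul,
      smul_eq_mul] at h4
    exact mul_left_cancel₀ hφt (by linear_combination h4)
  let f : V →ₗ[O] V := S.mulVecLin ∘ₗ S.mulVecLin - LinearMap.id + φ.smulRight t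
  have hfu : ∀ u, f u = S.mulVec (S.mulVec u) - u + φ u • t := fun _ => rfl
  obtain ⟨u, hu0, hu⟩ := Matrix.exists_mulVec_eq_zero_iff.2
    (Node_det (LinearMap.toMatrix' f) hl0 fun u => by
      rw [LinearMap.toMatrix'_mulVec, hfu, ee_add_left, ee_sub_left, ee_smul_left, ht, hee, hee,
        ← mul_assoc, sg_mul_self]
      ring)
  rw [LinearMap.toMatrix'_mulVec, hfu] at hu
  have h3 := congrArg φ hu
  rw [map_add, map_sub, hD, sub_self, zero_add, map_smul, map_zero, smul_eq_mul] at h3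
  have h4 := (mul_eq_zero.1 h3).resolve_right hφt
  rw [h4, zero_smul, add_zero, sub_eq_zero] at hu
  exact hu0 (hA u h4 hu)

end Pool.Agent.Hyp
end
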