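import Pool.Agent.Work.MP_60d5ce_nt.Qt.Alg
import Pool.Agent.Work.MP_60d5ce_nt.Hy.Form
import Pool.Agent.Work.MP_60d5ce_nt.Qt.Cube
import Pool.Agent.Work.MP_60d5ce_nt.Qt.Tame

-- merged part: Pool.Agent.Work.MP_60d5ce_nt.Hy.JDef
section
-- merged part: Pool.Agent.Work.MP_60d5ce_nt.Hy.Lat
section
/-!
# Lattices with an action of the Weil group, Selmer structures: definitions

See `/team-store/h4_quad_plan.md`.
-/

namespace Pool.Agent.Hyp

open Pool.Agent.Quad

variable [Par]

open scoped Classical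

noncomputable section

variable {W P : Type} [Group W]

/-- a symplectic lattice with large image modulo two -/
structure Rep (T : Tame W P) extends Lat T Ix where
  symp : ∀ g a b, ee ((ρ g).mulVec a) ((ρ g).mulVec b) = T.cq g * ee a b
  geo : ∀ g, ∃ z, T.deg z = 0 ∧ toLat.rb z = toLat.rb g
  span : ∀ m : Matrix Ix Ix F2, m ∈ AddSubgroup.closure {m | ∃ g h, m = toLat.rb g + toLat.rb h}
  free : ∃ z, toLat.Free z
  h1 : ∀ w, toLat.Z1 w → (∀ z, T.deg z = 0 → toLat.rb z = 1 → w z = 0) → toLat.IsCob w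
  chi : ∀ v ∉ S, ∀ n, toLat.Fx (T.σ v) n → ∃ w ∈ toLat.Z1U (insert v S), w (T.τ v) = n
  locfin : ∃ c : ℕ, ∀ v ∈ S, ∀ (a b : F2) (m : ℕ) (t : V),
    VD m (sg a • (ρ (T.σ v)).mulVec t - t) → VD m (sg b • (ρ (T.τ v)).mulVec t - t) → VD (m - c) t

namespace Rep

variable {T : Tame W P} (R : Rep T)

/-- the doubled lattice: the tensor product with the unipotent representation `2 lam deg` -/
def hat (lam : O) : Lat T H where
  ρ g := Matrix.fromBlocks (R.ρ g) 0 ((2 * lam * (T.deg g : O)) • R.ρ g) (R.ρ g)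
  ρ_one := by simp [R.ρ_one, T.deg_one]
  ρ_mul g h := by
    rw [Matrix.fromBlocks_multiply, R.ρ_mul, T.deg_mul]
    simp only [Matrix.zero_mul, Matrix.mul_zero, add_zero, zero_add, Matrix.smul_mul,
      Matrix.mul_smul, Int.cast_add, mul_add, add_smul, smul_zero]
  S := R.S
  inf_mem := R.inf_mem
  unr v hv := by simp [R.unr v hv, T.deg_τ]
  sm j := by
    obtain ⟨U, hU, h⟩ := R.sm j
    refine ⟨U, hU, fun u hu a b => ?_⟩
    have h0 : T.deg u = 0 := T.adm_le U hU hu
    rcases a with a | a <;> rcases b with b | b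
    · simpa [Matrix.one_apply] using h u hu a b
    · simp
    · simp [h0]
    · simpa [Matrix.one_apply] using h u hu a b

/-- a chosen cocycle ramified at `v` with value `n` at `τ v` -/
def ch (v : P) (n : Vb) : W → Vb :=
  if h : v ∉ R.S ∧ R.Fx (T.σ v) n ∧ n ≠ 0 then (R.chi v h.1 n h.2.1).choose else 0

/-- the same for the doubled lattice -/
def chH (v : P) (n : H → F2) (g : W) : H → F2 := Sum.elim (R.ch v (p0 n) g) (R.ch v (p1 n) g)

/-- the local pairing -/
def br (v : P) (a b : W → Vb) : F2 := T.inv v fun g h => ee (a g) ((R.rb g).mulVec (b h))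

/-- the local pairing on the doubled lattice -/
def hbr (v : P) (a b : W → H → F2) : F2 :=
  R.br v (fun g => p1 (a g)) (fun g => p0 (b g)) + R.br v (fun g => p0 (a g)) fun g => p1 (b g)

/-- the value at `σ v` of the local cocycle with value `n` at `τ v` -/
def kap (v : P) (n : Vb) : Vb := digV 1 (lftV n - (R.ρ (T.σ v)).mulVec (lftV n))

/-- the level one condition at a prime where the twist ramifies; `s` is the value of the twist at
`σ v`, `y` is a shift -/
def LLs (s : F2) (y : Vb) (v : P) (w : W → Vb) : Prop :=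
  ∀ n, R.Fx (T.σ v) n → ee (w (T.σ v) + R.kap v (w (T.τ v)) + s • w (T.τ v) + y) n = 0

/-- the same for the doubled lattice; `d` is the residue of `lam` -/
def LH (d s : F2) (v : P) (w : W → H → F2) : Prop :=
  R.LLs s 0 v (fun g => p0 (w g)) ∧
    R.LLs s ((d * (T.dg v : F2)) • p0 (w (T.τ v))) v fun g => p1 (w g)

/-- cocycles unramified outside `A` with the level one condition on `Ot` -/
def G1 (A Ot : Finset P) (xs : P → F2) : Set (W → Vb) :=
  {w | w ∈ R.Z1U A ∧ ∀ v ∈ Ot, R.LLs (xs v) 0 v w}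

/-- the same for the doubled lattice -/
def GH (d : F2) (A Ot : Finset P) (xs : P → F2) : Set (W → H → F2) :=
  {w | w ∈ (R.hat 0).Z1U A ∧ ∀ v ∈ Ot, R.LH d (xs v) v w}

/-- nondegenerate classes -/
def ND (lam : O) (w : W → H → F2) : Prop :=
  ¬ R.IsCob (fun g => p0 (w g)) ∧
    (res lam = 0 → ¬ R.IsCob (fun g => p1 (w g)) ∧ ¬ R.IsCob fun g => p0 (w g) + p1 (w g))

/-- no nondegenerate class lifts to level `K` -/
def NoLift (lam : O) (A : Finset P) (x : W → F2) (K : ℕ) : Prop :=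
  ∀ w, R.ND lam w → ¬ (R.hat lam).Lifts A x K w

/-- the conclusion of the statistical part -/
def Good (A : Finset P) (x : W → F2) (c : ℕ) : Prop :=
  ∃ K1 K : ℕ, c ≤ K1 ∧ R.NoLift 0 A x K1 ∧ ∀ a ≤ 4 * K1, R.NoLift (2 ^ a) A x K

/-- the diagonal Cassels-Tate pairing of level `j` vanishes -/
def Diag (lam : O) (A : Finset P) (x : W → F2) (j : ℕ) : Prop :=
  ∀ s : W → H → O, (R.hat lam).Coc x (j + 1) s → (∀ v ∉ A, VD (j + 1) (s (T.τ v))) →
    ∀ l : P → W → H → O,
      (∀ v ∈ A, (R.hat lam).LTyp x v (l v) ∧ ∀ g ∈ T.D v, VD j (s g - l v g)) →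
      ∑ v ∈ A, R.hbr v (fun g => digV j (s g - l v g)) (fun g => digV 0 (s g)) = 0

/-- two marks in general position -/
def Nondeg (na nb : H → F2) : Prop :=
  ∃ g, ee ((R.rb g).mulVec (p0 na)) (p1 nb) + ee ((R.rb g).mulVec (p1 na)) (p0 nb) ≠ 0

end Rep

end

end Pool.Agent.Hyp
end

-- merged part: Pool.Agent.Work.MP_60d5ce_nt.Hy.JDef
section
/-!
# The Tate module of a hyperelliptic Jacobian, abstractly  (task HY JDef)

`X` is the set of the `2 gg + 1` roots, `δ a` the two-torsion point attached to the root `a`, `Nd` the set of places with a nodal fibre.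
* `span`: the linear map `c ↦ ∑ a, c a • δ a` has the kernel `{0, 1}` (`δ_rel`, `δ_sum`), so its range has `2 ^ (2 gg)` elements (`card_Vb`); add the constant function to make the weight even.
* `even_inj`: `c - c'` is constant and of even weight, `Fintype.card X` is odd.
* `π_sm`: `J.sm 1`, `δ_eq`, `δ_inj`.  `rb_eq`: `span`, `Matrix.ext_of_mulVec`-like argument with `Pi.single`.
-/

namespace Pool.Agent.Hyp

open Pool.Agent.Quad

variable [Par]

open scoped Classical

variable {W P : Type} [Group W]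

/-- the data attached to a pencil of hyperelliptic curves -/
structure JD (T : Tame W P) (X : Type) [Fintype X] extends Lat T Ix where
  symp : ∀ g a b, ee ((ρ g).mulVec a) ((ρ g).mulVec b) = T.cq g * ee a b
  π : W →* Equiv.Perm X
  card : Fintype.card X = 2 * gg + 1
  surj : ∀ s, ∃ z, T.deg z = 0 ∧ π z = s
  δ : X → Vb
  δ_eq : ∀ g a, (toLat.rb g).mulVec (δ a) = δ (π g a)
  δ_rel : ∀ c : X → F2, ∑ a, c a • δ a = 0 → ∀ a b, c a = c b
  δ_sum : ∑ a, δ a = 0
  Nd : Finset P
  Nd_sub : Nd ⊆ S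
  inf_not : T.inf ∉ Nd
  good : ∀ v ∉ Nd, v ≠ T.inf → ρ (T.τ v) = 1
  swap : ∀ v ∈ Nd, (π (T.τ v)).IsSwap
  rk1 : ∀ v ∈ Nd, ∀ s t : V, ∃ a b : O, (a ≠ 0 ∨ b ≠ 0) ∧
    a • ((ρ (T.τ v)).mulVec s - s) = b • ((ρ (T.τ v)).mulVec t - t)
  loc : ∀ v (t : V), (ρ (T.σ v)).mulVec ((ρ (T.σ v)).mulVec t) = t →
    (ρ (T.τ v)).mulVec ((ρ (T.τ v)).mulVec t) = t → t = 0
  chi : ∀ v ∉ S, ∀ m : X → F2, (∀ a, m (π (T.σ v) a) = m a) → ∃ c : W → X → F2, T.Sm c ∧
    (∀ g h a, c (g * h) (π g a) = c g (π g a) + c h a) ∧ (∀ w ∉ insert v S, c (T.τ w) = 0) ∧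
    c (T.τ v) = m

namespace JD

variable {T : Tame W P} {X : Type} [Fintype X] (J : JD T X)

include J in
theorem JDef_card : (Fintype.card X : F2) = 1 := by
  rw [J.card, Nat.cast_succ, Nat.cast_mul, show ((2 : ℕ) : F2) = 0 from rfl, zero_mul, zero_add]

theorem span (n : Vb) : ∃ c : X → F2, ∑ a, c a = 0 ∧ n = ∑ a, c a • J.δ a := by
  have h1 : LinearMap.ker (Fintype.linearCombination F2 J.δ) ≤ Submodule.span F2 {fun _ => 1} := by
    intro c hc
    have h2 := J.δ_rel c (by simpa [Fintype.linearCombination_apply] using hc)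
    obtain ⟨a⟩ : Nonempty X := Fintype.card_pos_iff.1 (by rw [J.card]; omega)
    exact Submodule.mem_span_singleton.2 ⟨c a, funext fun b => by simp [h2 a b]⟩
  have h2 := (Submodule.finrank_mono h1).trans (finrank_span_le_card (R := F2) _)
  have h3 := LinearMap.finrank_range_add_finrank_ker (Fintype.linearCombination F2 J.δ)
  have h4 := Submodule.finrank_le (LinearMap.range (Fintype.linearCombination F2 J.δ))
  have h5 : Module.finrank F2 Vb = 2 * gg := by rw [Module.finrank_fintype_fun_eq_card, card_Ix]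
  rw [Module.finrank_fintype_fun_eq_card, J.card] at h3
  rw [Set.toFinset_singleton, Finset.card_singleton] at h2
  have h6 := Submodule.eq_top_of_finrank_eq (S := LinearMap.range (Fintype.linearCombination F2 J.δ))
    (by omega)
  obtain ⟨c, hc⟩ := LinearMap.range_eq_top.1 h6 n
  refine ⟨fun a => c a + ∑ b, c b, ?_, ?_⟩
  · rw [Finset.sum_add_distrib, Finset.sum_const, Finset.card_univ, nsmul_eq_mul, J.JDef_card,
      one_mul, CharTwo.add_self_eq_zero]
  · simp only [add_smul, Finset.sum_add_distrib]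
    rw [← Finset.smul_sum, J.δ_sum, smul_zero, add_zero, ← hc, Fintype.linearCombination_apply]

theorem even_inj {c c' : X → F2} (h : ∑ a, c a = ∑ a, c' a)
    (e : ∑ a, c a • J.δ a = ∑ a, c' a • J.δ a) : c = c' := by
  have h1 := J.δ_rel (fun a => c a - c' a) (by
    simp only [sub_smul, Finset.sum_sub_distrib, e, sub_self])
  funext a
  have h2 : ∑ b, (c b - c' b) = ∑ _b : X, (c a - c' a) := Finset.sum_congr rfl fun b _ => h1 b a
  rw [Finset.sum_sub_distrib, h, sub_self, Finset.sum_const, Finset.card_univ, nsmul_eq_mul,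
    J.JDef_card, one_mul] at h2
  exact sub_eq_zero.1 h2.symm

theorem δ_inj : Function.Injective J.δ := by
  intro a b h
  have h1 := J.even_inj (c := Pi.single a 1) (c' := Pi.single b 1) (by simp)
    (by simp [Pi.single_apply, h])
  by_contra hn
  simpa [Pi.single_apply, hn] using congrFun h1 a

theorem rb_sum (g : W) (c : X → F2) :
    (J.rb g).mulVec (∑ a, c a • J.δ a) = ∑ a, c ((J.π g)⁻¹ a) • J.δ a := by
  rw [Matrix.mulVec_sum, ← Equiv.sum_comp (J.π g) fun a => c ((J.π g)⁻¹ a) • J.δ a]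
  refine Finset.sum_congr rfl fun a _ => ?_
  rw [Matrix.mulVec_smul, J.δ_eq]
  simp

theorem rb_eq {g h : W} : J.rb g = J.rb h ↔ J.π g = J.π h := by
  refine ⟨fun e => Equiv.ext fun a => J.δ_inj ?_, fun e => Matrix.ext_iff_mulVec.2 fun n => ?_⟩
  · rw [← J.δ_eq, ← J.δ_eq, e]
  · obtain ⟨c, -, rfl⟩ := J.span n
    rw [J.rb_sum, J.rb_sum, e]

theorem JDef_one {g : W} (h : ∀ a b, (2 : O) ∣ (J.ρ g - 1) a b) : J.π g = 1 := by
  rw [← J.π.map_one, ← J.rb_eq]
  ext a b
  have h1 := (res_eq_zero_iff _).2 (h a b)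
  rw [Matrix.sub_apply, map_sub, sub_eq_zero] at h1
  simp only [Lat.rb, Matrix.map_apply, J.ρ_one, h1]

theorem π_sm : ∃ U, T.Adm U ∧ ∀ u ∈ U, J.π u = 1 := by
  obtain ⟨U, hU, h⟩ := J.sm 1
  exact ⟨U, hU, fun u hu => J.JDef_one fun a b => by simpa using h u hu a b⟩

theorem π_good {v : P} (hv : v ∉ J.Nd) (h : v ≠ T.inf) : J.π (T.τ v) = 1 :=
  J.JDef_one fun a b => by simp [J.good v hv h]

theorem π_rel (v : P) :
    J.π (T.σ v) * J.π (T.τ v) = J.π (T.τ v) ^ T.Q v * J.π (T.σ v) := by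
  obtain ⟨U, hU, h⟩ := J.π_sm
  have h1 := Tame.sm_rel (f := J.π) ⟨U, hU, fun g u hu => by rw [map_mul, h u hu, mul_one]⟩ v
  simpa using h1

theorem τ_ne {v : P} (hv : v ∈ J.Nd) : J.ρ (T.τ v) ≠ 1 := by
  intro h
  obtain ⟨a, b, hab, e⟩ := J.swap v hv
  rw [J.JDef_one (g := T.τ v) fun a b => by simp [h]] at e
  exact hab (Equiv.swap_eq_one_iff.1 e.symm)

end JD

end Pool.Agent.Hyp
end
end

-- merged part: Pool.Agent.Work.MP_60d5ce_nt.Hy.Cube
section
-- merged part: Pool.Agent.Work.MP_60d5ce_nt.Hy.Act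
section
/-!
# The twisted action, cocycles, local types

All easy.  `rho_rel`: `sm` for every `j` and `eq_zero_of_forall_dvd`.
-/

namespace Pool.Agent.Hyp

open Pool.Agent.Quad

variable [Par]

open scoped Classical

noncomputable section

variable {W P : Type} [Group W] {T : Tame W P}

namespace Rep

variable {R : Rep T} {x : W → F2} {lam : O}

theorem ee_act (g : W) (s t : V) : ee (R.act x g s) (R.act x g t) = T.cq g * ee s t := by
  rw [Lat.act, Lat.act, ee_smul_left, ee_smul_right, ← mul_assoc, sg_mul_self, one_mul, R.symp]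

theorem ee_rb (g : W) (s t : Vb) : ee ((R.rb g).mulVec s) ((R.rb g).mulVec t) = ee s t := by
  have h := congrArg res (R.symp g (lftV s) (lftV t))
  rw [map_mul, Tame.res_cq, one_mul] at h
  have k : ∀ a b : V, res (ee a b) = ee (digV 0 a) (digV 0 b) := fun a b =>
    dig_ee (i := 0) (j := 0) (VD.triv a) (VD.triv b)
  rwa [k, k, digV_mulVec _ (VD.triv _), digV_mulVec _ (VD.triv _), digV_lftV, digV_lftV] at h

theorem hat_S : (R.hat lam).S = R.S := rfl

theorem p0_act (g : W) (t : H → O) : p0 ((R.hat lam).act x g t) = R.act x g (p0 t) := by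
  funext i
  simp [p0, Lat.act, hat, Matrix.mulVec, dotProduct]

theorem p1_act (g : W) (t : H → O) : p1 ((R.hat lam).act x g t) =
    R.act x g (p1 t) + (2 * lam * (T.deg g : O)) • R.act x g (p0 t) := by
  funext i
  simp only [p0, p1, Lat.act, hat, Matrix.mulVec, dotProduct, Fintype.sum_sum_type (α₁ := Ix),
    Matrix.fromBlocks_apply₂₁, Matrix.fromBlocks_apply₂₂, Pi.smul_apply, Pi.add_apply, smul_eq_mul,
    Matrix.smul_apply, mul_assoc, ← Finset.mul_sum]
  ring

theorem hat_rb (g : W) : (R.hat lam).rb g = Matrix.fromBlocks (R.rb g) 0 0 (R.rb g) := by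
  ext (a | a) (b | b) <;> simp [Lat.rb, hat]

theorem hat_rb_eq (lam' : O) : (R.hat lam).rb = (R.hat lam').rb :=
  funext fun g => by rw [hat_rb, hat_rb]

theorem p0_rb (g : W) (t : H → F2) : p0 (((R.hat lam).rb g).mulVec t) = (R.rb g).mulVec (p0 t) := by
  funext i
  simp [p0, hat_rb, Matrix.mulVec, dotProduct]

theorem p1_rb (g : W) (t : H → F2) : p1 (((R.hat lam).rb g).mulVec t) = (R.rb g).mulVec (p1 t) := by
  funext i
  simp [p1, hat_rb, Matrix.mulVec, dotProduct]

theorem p_ext {A : Type} {a b : H → A} (h0 : p0 a = p0 b) (h1 : p1 a = p1 b) : a = b := by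
  funext i
  rcases i with i | i
  · exact congrFun h0 i
  · exact congrFun h1 i

theorem hat_z1_iff {w : W → H → F2} : (R.hat lam).Z1 w ↔
    (R.Z1 fun g => p0 (w g)) ∧ R.Z1 fun g => p1 (w g) := by
  constructor
  · rintro ⟨h1, h2⟩
    exact ⟨⟨Tame.sm_comp h1 p0, fun g h => by beta_reduce; rw [h2, ← p0_rb (lam := lam)]; rfl⟩,
      ⟨Tame.sm_comp h1 p1, fun g h => by beta_reduce; rw [h2, ← p1_rb (lam := lam)]; rfl⟩⟩
  · rintro ⟨⟨h1, h2⟩, k1, k2⟩
    refine ⟨?_, fun g h => p_ext ?_ ?_⟩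
    · have := Tame.sm_comp₂ h1 k1 (fun a b => (Sum.elim a b : H → F2))
      have e : (fun g => Sum.elim (p0 (w g)) (p1 (w g))) = w := funext fun g => p_ext rfl rfl
      exact e ▸ this
    · exact (h2 g h).trans (by rw [← p0_rb (lam := lam)]; rfl)
    · exact (k2 g h).trans (by rw [← p1_rb (lam := lam)]; rfl)

theorem hat_z1U_iff {A : Finset P} {w : W → H → F2} : w ∈ (R.hat lam).Z1U A ↔
    (fun g => p0 (w g)) ∈ R.Z1U A ∧ (fun g => p1 (w g)) ∈ R.Z1U A := by
  constructor
  · rintro ⟨h1, h2⟩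
    exact ⟨⟨(hat_z1_iff.1 h1).1, fun v hv => by simp only [h2 v hv]; rfl⟩,
      ⟨(hat_z1_iff.1 h1).2, fun v hv => by simp only [h2 v hv]; rfl⟩⟩
  · rintro ⟨⟨h1, h2⟩, k1, k2⟩
    exact ⟨hat_z1_iff.2 ⟨h1, k1⟩, fun v hv => p_ext (h2 v hv) (k2 v hv)⟩

theorem hat_lz_iff {v : P} {w : W → H → F2} : (R.hat lam).LZ v w ↔
    (R.LZ v fun g => p0 (w g)) ∧ R.LZ v fun g => p1 (w g) := by
  constructor
  · rintro ⟨h1, h2⟩
    exact ⟨⟨fun g hg h hh => by beta_reduce; rw [h1 g hg h hh, ← p0_rb (lam := lam)]; rfl, congrArg p0 h2⟩,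
      ⟨fun g hg h hh => by beta_reduce; rw [h1 g hg h hh, ← p1_rb (lam := lam)]; rfl, congrArg p1 h2⟩⟩
  · rintro ⟨⟨h1, h2⟩, k1, k2⟩
    refine ⟨fun g hg h hh => p_ext ?_ ?_, p_ext h2 k2⟩
    · exact (h1 g hg h hh).trans (by rw [← p0_rb (lam := lam)]; rfl)
    · exact (k1 g hg h hh).trans (by rw [← p1_rb (lam := lam)]; rfl)

theorem hat_fx_iff {g : W} {n : H → F2} :
    (R.hat lam).Fx g n ↔ R.Fx g (p0 n) ∧ R.Fx g (p1 n) := by
  simp only [Lat.Fx, ← p0_rb (lam := lam), ← p1_rb (lam := lam)]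
  exact ⟨fun h => ⟨congrArg p0 h, congrArg p1 h⟩, fun h => p_ext h.1 h.2⟩

theorem hat_free {g : W} (h : R.Free g) : (R.hat lam).Free g := fun n hn =>
  p_ext (h _ (hat_fx_iff.1 hn).1) (h _ (hat_fx_iff.1 hn).2)

theorem hat_ram {A : Finset P} : (R.hat lam).Ram x A ↔ R.Ram x A := Iff.rfl

theorem ch_zero (v : P) : R.ch v 0 = 0 := by
  rw [ch, dif_neg fun h => h.2.2 rfl]

theorem ch_spec {v : P} (hv : v ∉ R.S) {n : Vb} (hn : R.Fx (T.σ v) n) :
    R.ch v n ∈ R.Z1U (insert v R.S) ∧ R.ch v n (T.τ v) = n := by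
  by_cases h0 : n = 0
  · rw [h0, ch_zero]
    exact ⟨⟨Lat.z1_zero, fun _ _ => rfl⟩, rfl⟩
  · rw [ch, dif_pos ⟨hv, hn, h0⟩]
    exact (R.chi v hv n hn).choose_spec

theorem ch_mem (v : P) (n : Vb) : R.ch v n ∈ R.Z1U (insert v R.S) := by
  by_cases h : v ∉ R.S ∧ R.Fx (T.σ v) n ∧ n ≠ 0
  · exact (ch_spec h.1 h.2.1).1
  · rw [ch, dif_neg h]
    exact ⟨Lat.z1_zero, fun _ _ => rfl⟩

theorem ch_eq_zero {v : P} {n : Vb} (h : ¬ (v ∉ R.S ∧ R.Fx (T.σ v) n)) : R.ch v n = 0 := by
  rw [ch, dif_neg fun h' => h ⟨h'.1, h'.2.1⟩]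

theorem p0_chH (v : P) (n : H → F2) (g : W) : p0 (R.chH v n g) = R.ch v (p0 n) g := rfl

theorem p1_chH (v : P) (n : H → F2) (g : W) : p1 (R.chH v n g) = R.ch v (p1 n) g := rfl

theorem chH_mem (v : P) (n : H → F2) : R.chH v n ∈ (R.hat lam).Z1U (insert v R.S) :=
  hat_z1U_iff.2 ⟨ch_mem v _, ch_mem v _⟩

theorem chH_tau {v : P} (hv : v ∉ R.S) {n : H → F2} (hn : (R.hat lam).Fx (T.σ v) n) :
    R.chH v n (T.τ v) = n :=
  p_ext (ch_spec hv (hat_fx_iff.1 hn).1).2 (ch_spec hv (hat_fx_iff.1 hn).2).2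

theorem exists_free (e : ℤ) : ∃ z, T.deg z = e ∧ R.Free z := by
  obtain ⟨z, hz⟩ := R.free
  have hd : T.deg (T.σ T.inf ^ e) = e := by
    have h1 : T.deg (T.σ T.inf) = 1 := by rw [T.deg_σ, T.dg_inf, Nat.cast_one]
    induction e using Int.induction_on with
    | zero => simpa using T.deg_one
    | succ n ih => rw [zpow_add_one, T.deg_mul, ih, h1]
    | pred n ih => rw [zpow_sub_one, T.deg_mul, ih, T.deg_inv, h1, sub_eq_add_neg]
  obtain ⟨y, h0, h1⟩ := R.geo ((T.σ T.inf ^ e)⁻¹ * z)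
  refine ⟨T.σ T.inf ^ e * y, by rw [T.deg_mul, hd, h0, add_zero], fun n hn => hz n ?_⟩
  rwa [Lat.Fx, Lat.rb_mul, h1, ← Lat.rb_mul, mul_inv_cancel_left] at hn

/-- the geometric group fixes no nonzero vector -/
theorem eq_zero_of_fx {n : Vb} (h : ∀ g, T.deg g = 0 → R.Fx g n) : n = 0 := by
  obtain ⟨z, hz, e⟩ := exists_free (R := R) 0
  exact e n (h z hz)

end Rep

end

end Pool.Agent.Hyp
end

-- merged part: Pool.Agent.Work.MP_60d5ce_nt.Hy.Geo
section
/-!
# From cocycles on the geometric group to Selmer cocycles on the Weil group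

Hints.
* `extend`: every `g` is `(g * φ ^ (-deg g)) * φ ^ deg g`.  Work with affine bijections of the quotient
  of `I → O` by the vectors divisible by `2 ^ n`: `α g t = act g t + ψ0 g` for `deg g = 0`,
  `β t = act φ t + y`; the hypothesis says `β * α (φ⁻¹ * g * φ) = α g * β`.  Then
  `g ↦ α (g * φ ^ (-deg g)) * β ^ deg g` is a homomorphism; `ψ g` is a lift of its value at `0`.
  Smoothness: intersect the given `U` with the one of `act_sm`; it is normal (`adm_normal`).
* `locOK_of_tau`: put `N = m + n`, `X` the finite quotient modulo `2 ^ N`, `c g = 2 ^ m ψ g - (act g t - t)`,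
  a cocycle with `c τ = 0`.  `Coc.rel` gives `z = c σ` fixed by `τ ^ Q`.  By `act_rel`,
  `Fix (τ ^ Q) = σ Fix τ`, it contains `Fix τ` and has the same cardinality, so both are equal to a
  group `F` stable under `σ`.  On `F` the kernel of `σ - 1` has at most `2 ^ (card I * c)` elements, the
  cokernel has the same cardinality, a power of two; so `2 ^ e z = (σ - 1) a`, `a ∈ F`, `e = card I * c`.
  Hence `2 ^ (e + m) ψ g = act g t' - t'` modulo `2 ^ N` for `g = σ, τ`, thus on `D v`; divide.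
* `hat_fin`: first component, then second component (`p0_act`, `p1_act`); for `v ∉ S` use `act_ram`.
-/

namespace Pool.Agent.Hyp

open Pool.Agent.Quad

variable [Par]

open scoped Classical

noncomputable section

variable {W P : Type} [Group W] {T : Tame W P}

namespace Rep

variable (R : Rep T)

/-- a uniform bound for the local torsion -/
theorem exists_fin : ∃ c : ℕ, 1 ≤ c ∧ ∀ (x : W → F2) (A : Finset P), R.Ram x A → ∀ v ∈ A,
    ∀ (m : ℕ) (t : V), VD m (R.act x (T.σ v) t - t) → VD m (R.act x (T.τ v) t - t) →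
      VD (m - c) t := by
  obtain ⟨c, hc⟩ := R.locfin
  refine ⟨c + 1, by omega, fun x A hA v hv m t h1 h2 => ?_⟩
  by_cases h : v ∈ R.S
  · exact (hc v h _ _ m t h1 h2).mono (by omega)
  rw [Lat.act_ram h (hA.2.1 v hv h)] at h2
  refine ((VD_pow_smul_iff 1 (m - 1) t).1 ?_).mono (by omega)
  rcases m with _ | m
  · exact (VD_pow_smul_iff 1 _ t).2 (VD.triv t)
  · convert h2.neg using 1
    · omega
    · rw [pow_one, two_smul]
      abel

theorem hat_fin : ∃ c : ℕ, 1 ≤ c ∧ ∀ (lam : O) (x : W → F2) (A : Finset P), R.Ram x A → ∀ v ∈ A,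
    ∀ (m : ℕ) (t : H → O), VD m ((R.hat lam).act x (T.σ v) t - t) →
      VD m ((R.hat lam).act x (T.τ v) t - t) → VD (m - c) t := by
  obtain ⟨c, h0, hc⟩ := R.exists_fin
  refine ⟨c + c, by omega, fun lam x A hA v hv m t h1 h2 => ?_⟩
  have e0 : ∀ g, VD m ((R.hat lam).act x g t - t) → VD m (R.act x g (p0 t) - p0 t) := fun g h =>
    p0_act (R := R) (lam := lam) g t ▸ h.q0
  have h3 := hc x A hA v hv m _ (e0 _ h1) (e0 _ h2)
  have e1 : ∀ g, VD m ((R.hat lam).act x g t - t) → VD (m - c) (R.act x g (p1 t) - p1 t) :=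
    fun g h => by
      have h4 : VD m (p1 ((R.hat lam).act x g t) - p1 t) := h.q1
      rw [p1_act, add_sub_right_comm] at h4
      have h5 := (h4.mono (Nat.sub_le m c)).sub
        ((Lat.act_VD (R := R.toLat) (x := x) h3 g).smul (2 * lam * (T.deg g : O)))
      rwa [add_sub_cancel_right] at h5
  exact VD_of_p (h3.mono (by omega)) ((hc x A hA v hv _ _ (e1 _ h1) (e1 _ h2)).mono (by omega))

/-- vectors fixed by the geometric group -/
theorem VD_of_fix {x : W → F2} {m : ℕ} {t : V}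
    (h : ∀ g, T.deg g = 0 → VD m (R.act x g t - t)) : VD m t := by
  induction m with
  | zero => exact VD.triv t
  | succ m ih =>
    have h1 := ih fun g hg => (h g hg).mono m.le_succ
    refine (digV_eq_zero_iff h1).1 (eq_zero_of_fx (R := R) fun g hg => ?_)
    have h2 := (Lat.digV_act_sub (R := R.toLat) (x := x) h1 g).symm.trans (digV_of_VD (h g hg))
    exact (eq_neg_of_add_eq_zero_left h2).trans (vb_neg _)

end Rep

end

end Pool.Agent.Hyp
end

-- merged part: Pool.Agent.Work.MP_60d5ce_nt.Hy.Cube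
section
/-!
# Differences on cubes: the symplectic form
-/

namespace Pool.Agent.Hyp

open Pool.Agent.Quad

variable [Par]

noncomputable section

variable {ι : Type} [DecidableEq ι] {U : Finset ι}

theorem cube_gr_sum {κ : Type} (s : Finset κ) {f : κ → Finset ι → O} (h : ∀ j, Gr U (f j)) :
    Gr U (fun e => ∑ j ∈ s, f j e) ∧ dig U.card (Dl U fun e => ∑ j ∈ s, f j e) =
      ∑ j ∈ s, dig U.card (Dl U (f j)) := by
  have e : ∀ B, Dl B (fun e => ∑ j ∈ s, f j e) = ∑ j ∈ s, Dl B (f j) := fun B => by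
    simp only [Dl, Finset.smul_sum]
    exact Finset.sum_comm
  exact ⟨fun B hB => e B ▸ Finset.dvd_sum fun j _ => h j B hB,
    e U ▸ dig_sum s fun j _ => h j U subset_rfl⟩

theorem gr_ee {f g : Finset ι → V} (hf : GrV U f) (hg : GrV U g) :
    Gr U fun e => ee (f e) (g e) := by
  rw [grV_iff] at hf hg
  exact (cube_gr_sum Finset.univ fun j => ((hf _).mul (hg _)).sub ((hf _).mul (hg _))).1

theorem leibniz_ee {f g : Finset ι → V} (hf : GrV U f) (hg : GrV U g) :
    dig U.card (Dl U fun e => ee (f e) (g e)) = ∑ C ∈ U.powerset,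
      ee (digV C.card (Dl C f)) (digV (U \ C).card (Dl (U \ C) g)) := by
  have hf' := grV_iff.1 hf
  have hg' := grV_iff.1 hg
  unfold ee
  rw [(cube_gr_sum Finset.univ fun j => ((hf' _).mul (hg' _)).sub ((hf' _).mul (hg' _))).2,
    Finset.sum_comm]
  refine Finset.sum_congr rfl fun j _ => ?_
  rw [Dl_sub, dig_sub (((hf' _).mul (hg' _)) U subset_rfl)
    (((hf' _).mul (hg' _)) U subset_rfl), leibniz (hf' _) (hg' _),
    leibniz (hf' _) (hg' _), ← Finset.sum_sub_distrib]
  refine Finset.sum_congr rfl fun C _ => ?_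
  simp only [digV, Dl_apply]

theorem p0_Dl (B : Finset ι) (f : Finset ι → H → O) : p0 (Dl B f) = Dl B fun e => p0 (f e) := by
  funext a
  simp only [p0, Dl_apply]

theorem p1_Dl (B : Finset ι) (f : Finset ι → H → O) : p1 (Dl B f) = Dl B fun e => p1 (f e) := by
  funext a
  simp only [p1, Dl_apply]

theorem _root_.Pool.Agent.Quad.GrV.q0 {f : Finset ι → H → O} (hf : GrV U f) : GrV U fun e => p0 (f e) := fun B hB => by
  rw [← p0_Dl]
  exact (hf B hB).q0

theorem _root_.Pool.Agent.Quad.GrV.q1 {f : Finset ι → H → O} (hf : GrV U f) : GrV U fun e => p1 (f e) := fun B hB => by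
  rw [← p1_Dl]
  exact (hf B hB).q1

variable {W P : Type} [Group W] {T : Tame W P}

theorem p0_uop (β : ι → W → F2) (g : W) (a : Finset ι → H → F2) (B : Finset ι) :
    p0 (uop β g a B) = uop β g (fun C => p0 (a C)) B := by
  funext i
  simp only [uop, p0, Finset.sum_apply, Pi.smul_apply]

theorem p1_uop (β : ι → W → F2) (g : W) (a : Finset ι → H → F2) (B : Finset ι) :
    p1 (uop β g a B) = uop β g (fun C => p1 (a C)) B := by
  funext i
  simp only [uop, p1, Finset.sum_apply, Pi.smul_apply]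

/-- the pairing of families is invariant, since `(1 + β ε) ^ 2 = 1` -/
theorem uop_pair (β : ι → W → F2) (g : W) (a b : Finset ι → Vb) (U : Finset ι) :
    ∑ B ∈ U.powerset, ee (uop β g a B) (uop β g b (U \ B)) =
      ∑ B ∈ U.powerset, ee (a B) (b (U \ B)) := by
  induction U using Finset.induction_on generalizing a b with
  | empty => simp [cube_uop_empty]
  | insert i U hi ih =>
    have h1 : ∀ B ∈ U.powerset, insert i U \ B = insert i (U \ B) := fun B hB =>
      Finset.insert_sdiff_of_notMem _ fun h => hi (Finset.mem_powerset.1 hB h)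
    have h2 : ∀ B : Finset ι, insert i U \ insert i B = U \ B := fun B => by
      rw [Finset.insert_sdiff_insert, Finset.sdiff_insert_of_notMem hi]
    have h3 : ∑ B ∈ U.powerset, ee (a B) (b (insert i U \ B)) =
        ∑ B ∈ U.powerset, ee (uop β g a B) (uop β g (fun C => b (insert i C)) (U \ B)) := by
      rw [ih]
      exact Finset.sum_congr rfl fun B hB => by rw [h1 B hB]
    have h4 : ∑ B ∈ U.powerset, ee (a (insert i B)) (b (insert i U \ insert i B)) =
        ∑ B ∈ U.powerset, ee (uop β g (fun C => a (insert i C)) B) (uop β g b (U \ B)) := by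
      rw [ih]
      exact Finset.sum_congr rfl fun B _ => by rw [h2 B]
    rw [Finset.sum_powerset_insert hi, Finset.sum_powerset_insert hi, h3, h4,
      ← Finset.sum_add_distrib, ← Finset.sum_add_distrib]
    refine Finset.sum_congr rfl fun B hB => ?_
    rw [h1 B hB, h2 B, cube_uop_insert β g b fun h => hi (Finset.mem_sdiff.1 h).1,
      cube_uop_insert β g a fun h => hi (Finset.mem_powerset.1 hB h), ee_add_left, ee_add_right,
      ee_smul_left, ee_smul_right]
    linear_combination β i g * ee (uop β g a B) (uop β g b (U \ B)) * F2_two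

namespace Rep

variable {R : Rep T} {lam : O} {β : ι → W → F2} {Θ : Finset ι → W → H → F2}

theorem urel_p0 (h : (R.hat lam).URel β U Θ) : R.URel β U fun B g => p0 (Θ B g) :=
  fun B hB g k => by
    beta_reduce
    rw [h B hB, ← p0_uop, ← p0_rb (lam := lam)]
    rfl

theorem urel_p1 (h : (R.hat lam).URel β U Θ) : R.URel β U fun B g => p1 (Θ B g) :=
  fun B hB g k => by
    beta_reduce
    rw [h B hB, ← p1_uop, ← p1_rb (lam := lam)]
    rfl

end Rep

end

end Pool.Agent.Hyp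
end
end

-- merged part: Pool.Agent.Work.MP_60d5ce_nt.Hy.Symp
section
/-!
# Symplectic bases and similitudes  (task HY Symp)

* `exists_symp`: prove it for a finite free `O`-module `M` by strong induction on `Module.finrank O M`.  If `M` is not zero take a basis vector `a`; by `hn` there is `b` with `B a b` a unit
  (`PadicInt` is local with maximal ideal `2`; `res`), scale `b` so that `B a b = 1`.  `M' = {m | B a m = 0 ∧ B b m = 0}` is finite free (principal ideal domain), `m ↦ m - B m b • a + B m a • b`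
  projects onto it, the rank drops by two, and nondegeneracy modulo two passes to `M'` (`M'` is saturated).  Glue with `Fin.cons` or `finSuccEquiv`.  It may be easier to construct families
  `u w : Fin r → M` with `B (u i) (w j) = δ i j`, `B (u i) (u j) = 0 = B (w i) (w j)` that span `M`, and to build the equivalence at the end (`Fintype.linearCombination`, injective by pairing).
* `det_sim`: `eg a b = - a ⬝ᵥ (Matrix.J _ _).mulVec b`; `M * D⁻¹` is symplectic for `D = fromBlocks 1 0 0 (c • 1)`; `SymplecticGroup.det_eq_one`, `SymplecticGroup.mem_iff'`.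
* `trace_sim`: `Mᵀ * J * M = c • J`, so `Mᵀ * J = c • J * M'`; `Matrix.J_squared`, `Matrix.trace_mul_comm`, `Matrix.trace_transpose`.
* `exists_left`: over `ℚ_[2]` an injective matrix has a left inverse; clear denominators (`IsLocalization.exist_integer_multiples_of_finite`); a nonzero element of `O` is a unit times `2 ^ c`
  (`PadicInt.unitCoeff_spec`).
* `dep_of_sat`: if `s = 0` take `a = 1`, `b = 0`.  Otherwise `s = 2 ^ i • s0`, `¬ VD 1 s0`, `s0 ∈ K`; some `s0 l` is a unit; `t' = s0 l • t - t l • s0` vanishes at `l`; if it is not zero, `t' = 2 ^ j • t0`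
  with `¬ VD 1 t0`, `t0 l = 0`, and `VD 1 (s0 - t0)` is absurd.
-/

namespace Pool.Agent.Hyp

open Pool.Agent.Quad

/-- the standard alternating form of rank `2 r` -/
def eg {r : ℕ} {R : Type} [CommRing R] (a b : Fin r ⊕ Fin r → R) : R :=
  ∑ j, (a (Sum.inl j) * b (Sum.inr j) - a (Sum.inr j) * b (Sum.inl j))

theorem Symp_prim {I : Type} {s : I → O} (hs : s ≠ 0) :
    ∃ (j : ℕ) (s0 : I → O), s = (2 : O) ^ j • s0 ∧ ¬ VD 1 s0 := by
  by_contra hc
  refine hs (VD.eq_zero fun j => ?_)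
  induction j with
  | zero => exact VD.triv s
  | succ j ih =>
    obtain ⟨b, hb⟩ := ih.exists
    by_contra h
    exact hc ⟨j, b, hb, fun h1 => h (hb ▸ (VD_pow_smul_iff j 1 b).2 h1)⟩

theorem Symp_rep {r : ℕ} {R : Type} [CommRing R] (φ : (Fin r ⊕ Fin r → R) →ₗ[R] R) :
    ∃ c, ∀ y, eg c y = φ y := by
  refine ⟨Sum.elim (fun j => φ fun k => if Sum.inr j = k then 1 else 0)
    (fun j => -φ fun k => if Sum.inl j = k then 1 else 0), fun y => ?_⟩
  rw [φ.pi_apply_eq_sum_univ y, Fintype.sum_sum_type, ← Finset.sum_add_distrib]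
  refine Finset.sum_congr rfl fun j _ => ?_
  simp only [Sum.elim_inl, Sum.elim_inr, smul_eq_mul]
  ring

theorem Symp_nd {r : ℕ} {R : Type} [CommRing R] {a : Fin r ⊕ Fin r → R} (h : ∀ b, eg a b = 0) :
    a = 0 := by
  funext x
  rcases x with j | j
  · simpa [eg, Pi.single_apply] using h (Pi.single (Sum.inr j) 1)
  · simpa [eg, Pi.single_apply] using h (Pi.single (Sum.inl j) 1)

theorem Symp_inj {r : ℕ} {N : Type} [AddCommGroup N] [Module O N] {B : N →ₗ[O] N →ₗ[O] O}
    {L : (Fin r ⊕ Fin r → O) →ₗ[O] N} (h : ∀ a b, B (L a) (L b) = eg a b) :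
    Function.Injective L :=
  (injective_iff_map_eq_zero L).2 fun a ha => Symp_nd fun b => by
    rw [← h, ha, map_zero, LinearMap.zero_apply]

theorem Symp_ext {r : ℕ} {N : Type} [AddCommGroup N] [Module O N] {B : N →ₗ[O] N →ₗ[O] O}
    (h0 : B.IsAlt) {L : (Fin r ⊕ Fin r → O) →ₗ[O] N} (h : ∀ a b, B (L a) (L b) = eg a b) {u w : N}
    (hu : ∀ y, B u (L y) = 0) (hw : ∀ y, B w (L y) = 0) (h1 : B u w = 1) :
    ∃ L' : (Fin (r + 1) ⊕ Fin (r + 1) → O) →ₗ[O] N, ∀ a b, B (L' a) (L' b) = eg a b := by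
  refine ⟨L.comp (LinearMap.funLeft O O (Sum.map Fin.succ Fin.succ)) +
    (LinearMap.proj (Sum.inl 0)).smulRight u + (LinearMap.proj (Sum.inr 0)).smulRight w,
    fun a b => ?_⟩
  have hu' : ∀ y, B (L y) u = 0 := fun y => by rw [← h0.neg, hu, neg_zero]
  have hw' : ∀ y, B (L y) w = 0 := fun y => by rw [← h0.neg, hw, neg_zero]
  have h2 : B w u = -1 := by rw [← h0.neg, h1]
  simp only [LinearMap.add_apply, LinearMap.comp_apply, LinearMap.smulRight_apply,
    LinearMap.proj_apply, map_add, map_smul, LinearMap.smul_apply, h, hu, hw, hu', hw', h1, h2,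
    h0 u, h0 w, smul_eq_mul, eg, Fin.sum_univ_succ, LinearMap.funLeft_apply, Sum.map_inl,
    Sum.map_inr]
  ring

theorem exists_symp {I : Type} [Fintype I] [DecidableEq I]
    (B : (I → O) →ₗ[O] (I → O) →ₗ[O] O) (h0 : ∀ a, B a a = 0)
    (hn : ∀ a, (∀ b, (2 : O) ∣ B a b) → VD 1 a) :
    ∃ (r : ℕ) (e : (Fin r ⊕ Fin r → O) ≃ₗ[O] (I → O)), ∀ a b, B (e a) (e b) = eg a b := by
  classical
  let P : ℕ → Prop := fun r =>
    ∃ L : (Fin r ⊕ Fin r → O) →ₗ[O] (I → O), ∀ a b, B (L a) (L b) = eg a b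
  have hb : ∀ r, P r → r ≤ Fintype.card I := fun r ⟨L, hL⟩ => by
    have h1 := LinearMap.finrank_le_finrank_of_injective (Symp_inj hL)
    simp only [Module.finrank_fintype_fun_eq_card, Fintype.card_sum, Fintype.card_fin] at h1
    omega
  have hz : P 0 := ⟨0, fun a b => by simp [eg]⟩
  obtain ⟨L, hL⟩ : P (Nat.findGreatest P (Fintype.card I)) :=
    Nat.findGreatest_spec (Nat.zero_le _) hz
  have hp : ∀ m, ∃ c, ∀ y, B (m - L c) (L y) = 0 := fun m => by
    obtain ⟨c, hc⟩ := Symp_rep ((B m).comp L)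
    exact ⟨c, fun y => by rw [map_sub, LinearMap.sub_apply, hL, hc, LinearMap.comp_apply, sub_self]⟩
  refine ⟨_, LinearEquiv.ofBijective L ⟨Symp_inj hL, fun m => ?_⟩, hL⟩
  obtain ⟨c, hc⟩ := hp m
  by_contra hm
  obtain ⟨j, u, h1, h2⟩ := Symp_prim (s := m - L c) fun e => hm ⟨c, (sub_eq_zero.1 e).symm⟩
  have hu : ∀ y, B u (L y) = 0 := fun y => two_pow_mul_eq_zero (j := j) (by
    rw [← hc y, h1, map_smul, LinearMap.smul_apply, smul_eq_mul])
  obtain ⟨b, h3⟩ := not_forall.1 fun h => h2 (hn u h)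
  obtain ⟨d, hd⟩ := (isUnit_of_res_ne_zero fun e => h3 ((res_eq_zero_iff _).1 e)).exists_left_inv
  obtain ⟨c', hc'⟩ := hp b
  have h4 : P (Nat.findGreatest P (Fintype.card I) + 1) :=
    Symp_ext h0 hL hu (w := d • (b - L c'))
      (fun y => by rw [map_smul, LinearMap.smul_apply, hc', smul_zero])
      (by rw [map_smul, map_sub, hu, sub_zero, smul_eq_mul, hd])
  exact Nat.findGreatest_is_greatest (Nat.lt_succ_self _) (hb _ h4) h4

variable {r : ℕ} {R : Type} [CommRing R] {M M' : Matrix (Fin r ⊕ Fin r) (Fin r ⊕ Fin r) R} {c : R}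

theorem Symp_eg (a b : Fin r ⊕ Fin r → R) :
    eg a b = -(a ⬝ᵥ (Matrix.J (Fin r) R).mulVec b) := by
  simp only [eg, Matrix.J, Matrix.fromBlocks_mulVec, dotProduct, Fintype.sum_sum_type,
    Matrix.zero_mulVec, Matrix.neg_mulVec, Matrix.one_mulVec, zero_add, add_zero, Sum.elim_inl,
    Sum.elim_inr, Pi.neg_apply, Function.comp_apply, ← Finset.sum_add_distrib,
    ← Finset.sum_neg_distrib]
  exact Finset.sum_congr rfl fun j _ => by ring

theorem Symp_mat (h : ∀ a b, eg (M.mulVec a) (M.mulVec b) = c * eg a b) :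
    M.transpose * Matrix.J (Fin r) R * M = c • Matrix.J (Fin r) R := by
  have h1 : ∀ a b, a ⬝ᵥ (M.transpose * Matrix.J (Fin r) R * M).mulVec b =
      a ⬝ᵥ (c • Matrix.J (Fin r) R).mulVec b := fun a b => by
    have h2 := h a b
    rw [Symp_eg, Symp_eg, mul_neg, neg_inj] at h2
    rw [← Matrix.mulVec_mulVec, ← Matrix.mulVec_mulVec, Matrix.dotProduct_mulVec a,
      Matrix.vecMul_transpose, h2, Matrix.smul_mulVec, dotProduct_smul, smul_eq_mul]
  ext i j
  simpa using h1 (Pi.single i 1) (Pi.single j 1)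

theorem det_sim (hc : IsUnit c) (h : ∀ a b, eg (M.mulVec a) (M.mulVec b) = c * eg a b) :
    M.det = c ^ r := by
  obtain ⟨d, hd⟩ := hc.exists_left_inv
  have h1 : M * Matrix.fromBlocks 1 0 0 (d • 1) ∈ Matrix.symplecticGroup (Fin r) R := by
    rw [SymplecticGroup.mem_iff', Matrix.transpose_mul, Matrix.mul_assoc, Matrix.mul_assoc,
      ← Matrix.mul_assoc _ M, ← Matrix.mul_assoc M.transpose, ← Matrix.mul_assoc M.transpose,
      Symp_mat h]
    simp [Matrix.J, Matrix.fromBlocks_transpose, Matrix.fromBlocks_smul,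
      Matrix.fromBlocks_multiply, smul_smul, hd, mul_comm c d]
  have h2 := SymplecticGroup.det_eq_one h1
  rw [Matrix.det_mul, Matrix.det_fromBlocks_zero₂₁, Matrix.det_one, one_mul, Matrix.det_smul,
    Matrix.det_one, mul_one, Fintype.card_fin] at h2
  calc M.det = M.det * (d * c) ^ r := by rw [hd, one_pow, mul_one]
    _ = c ^ r := by rw [mul_pow, ← mul_assoc, h2, one_mul]

theorem trace_sim (h : ∀ a b, eg (M.mulVec a) (M.mulVec b) = c * eg a b) (hM : M * M' = 1) :
    c * M'.trace = M.trace := by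
  have h1 : M.transpose * Matrix.J (Fin r) R = c • (Matrix.J (Fin r) R * M') := by
    rw [← Matrix.smul_mul, ← Symp_mat h, Matrix.mul_assoc, hM, Matrix.mul_one]
  have h2 := congrArg (fun A => (Matrix.J (Fin r) R * A).trace) h1
  rw [Matrix.trace_mul_comm, Matrix.mul_assoc, Matrix.J_squared, Matrix.mul_smul,
    ← Matrix.mul_assoc, Matrix.J_squared] at h2
  simpa using h2.symm

theorem exists_left {I J : Type} [Fintype I] [Fintype J] (F : Matrix J I O)
    (h : ∀ t, F.mulVec t = 0 → t = 0) :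
    ∃ c : ℕ, ∀ (m : ℕ) (t : I → O), VD m (F.mulVec t) → VD (m - c) t := by
  obtain ⟨k, hk⟩ := (Ideal.span {(2 : O)}).exists_pow_inf_eq_pow_smul (LinearMap.range F.mulVecLin)
  refine ⟨k, fun m t ht => ?_⟩
  rcases le_total m k with hm | hm
  · rw [Nat.sub_eq_zero_of_le hm]
    exact VD.triv t
  obtain ⟨b, hb⟩ := ht.exists
  have h1 : F.mulVec t ∈ (Ideal.span {(2 : O)}) ^ m • ⊤ ⊓ LinearMap.range F.mulVecLin := by
    refine ⟨?_, t, rfl⟩
    rw [Ideal.span_singleton_pow, Submodule.ideal_span_singleton_smul]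
    exact (Submodule.mem_smul_pointwise_iff_exists _ _ _).2 ⟨b, trivial, hb.symm⟩
  rw [hk m hm, Ideal.span_singleton_pow, Submodule.ideal_span_singleton_smul,
    Submodule.mem_smul_pointwise_iff_exists] at h1
  obtain ⟨_, ⟨-, t', rfl⟩, h2⟩ := h1
  have h3 : t = (2 : O) ^ (m - k) • t' := sub_eq_zero.1 (h _ (by
    rw [Matrix.mulVec_sub, Matrix.mulVec_smul, ← h2, Matrix.mulVecLin_apply, sub_self]))
  exact h3 ▸ VD_pow_smul _ _

theorem dep_of_sat {I : Type} (K : Submodule O (I → O)) (hs : ∀ t, (2 : O) • t ∈ K → t ∈ K)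
    (h : ∀ s ∈ K, ∀ t ∈ K, ¬ VD 1 s → ¬ VD 1 t → VD 1 (s - t)) :
    ∀ s ∈ K, ∀ t ∈ K, ∃ a b : O, (a ≠ 0 ∨ b ≠ 0) ∧ a • s = b • t := by
  have hsat : ∀ (j : ℕ) (t : I → O), (2 : O) ^ j • t ∈ K → t ∈ K := fun j => by
    induction j with
    | zero => simp
    | succ j ih => exact fun t ht => hs t (ih _ (by rwa [smul_smul, ← pow_succ]))
  intro s hsK t ht
  by_cases h0 : s = 0
  · exact ⟨1, 0, Or.inl one_ne_zero, by simp [h0]⟩
  obtain ⟨i, s0, rfl, h1⟩ := Symp_prim h0
  have h2 := hsat i s0 hsK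
  obtain ⟨l, hl⟩ := not_forall.1 h1
  by_cases h3 : s0 l • t - t l • s0 = 0
  · refine ⟨t l, 2 ^ i * s0 l, Or.inr fun e => hl ?_, ?_⟩
    · rw [two_pow_mul_eq_zero e]
      exact dvd_zero _
    · rw [mul_smul, sub_eq_zero.1 h3, smul_comm]
  obtain ⟨j, t0, h4, h5⟩ := Symp_prim h3
  have h6 : t0 l = 0 := two_pow_mul_eq_zero (j := j) (by
    have h7 := congrFun h4 l
    simp only [Pi.sub_apply, Pi.smul_apply, smul_eq_mul] at h7
    rw [← h7]
    ring)
  have h8 := h s0 h2 t0 (hsat j t0 (h4 ▸ K.sub_mem (K.smul_mem _ ht) (K.smul_mem _ h2))) h1 h5 l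
  rw [Pi.sub_apply, h6, sub_zero] at h8
  exact absurd h8 hl

end Pool.Agent.Hyp
end

-- merged part: Pool.Agent.Work.MP_60d5ce_nt.Hy.JRep
section
/-!
# The abstract Jacobian has large image  (task HY JRep)

* `free`: `z` with `π z` a cycle of full length (`Fintype.equivFin`, `finRotate`, or `Equiv.Perm.exists_...isCycle`); a fixed vector has an invariant even representative (`span`, `rb_sum`, `even_inj`), which is constant.
* `spanM`: for a swap `s = (a b)` the matrix `rb s + 1` is `n ↦ φ a b n • (δ a + δ b)`, `φ a b (∑ c • δ) = c a + c b`.  `rb g * (rb s + 1) * rb h = rb (g s h) + rb (g h)`; `π` is onto, so all rank one matrices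
  `n ↦ φ a' b' n • (δ a + δ b)` lie in the closure.  The `δ a + δ b` span `Vb` (even weight), the `φ a b` span the dual (every linear form is `∑ c • δ ↦ ∑ c a * y a` with `∑ y = 0`).
* `h1`: let `c g` be the even representative of `w g`, `A g a = c g (π g a)`; then `A (g h) a = A g (π h a) + A h a`, and on `G0` it depends only on `π g`.  For a swap `s = (b c)`: `A s b + A s c = 0`, the values
  `A s a` at fixed points `a` are all equal (conjugate), the weight is even and `card X - 2` is odd, so they vanish.  A permutation fixing `a0` is a product of swaps fixing `a0`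
  (`Equiv.Perm.swap_induction_on` on the subtype, or induction on the support), so `A g a0 = t (π g a0)`, `A g a = t (π g a) + t a`, and `w = db (∑ t • δ)` on `G0`.  For general `g` compare
  `w' (z * g)` and `w' (g * (g⁻¹ z g))` for `z ∈ G0` free (`free` gives `deg z = 0`).
* `chiV`: even representative, `J.chi`, `w g = ∑ a, c g a • δ a`.
* `locfin`: `exists_left` for the matrix `Matrix.fromRows (sg a • ρ σ - 1) (sg b • ρ τ - 1)`; finitely many `(v, a, b)`.
-/

namespace Pool.Agent.Hyp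

open Pool.Agent.Quad

variable [Par]

open scoped Classical

omit [Par] in
theorem JRep_cycle {X : Type} [Fintype X] {n : ℕ} (h : Fintype.card X = n + 1) :
    ∃ s : Equiv.Perm X, ∀ c : X → F2, (∀ a, c (s a) = c a) → ∀ a b, c a = c b := by
  obtain ⟨e⟩ : Nonempty (X ≃ Fin (n + 1)) := ⟨Fintype.equivFinOfCardEq h⟩
  refine ⟨(e.trans (finRotate (n + 1))).trans e.symm, fun c hc => ?_⟩
  have h1 : ∀ i : Fin (n + 1), c (e.symm i) = c (e.symm 0) := by
    intro i
    induction i using Fin.induction with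
    | zero => rfl
    | succ i ih =>
      rw [← ih, ← hc (e.symm i.castSucc)]
      simp
  intro a b
  rw [← e.symm_apply_apply a, ← e.symm_apply_apply b, h1, h1 (e b)]

omit [Par] in
theorem JRep_two {X : Type} {a b a' b' : X} (h : a ≠ b) (h' : a' ≠ b') :
    ∃ s : Equiv.Perm X, s a = a' ∧ s b = b' := by
  refine ⟨Equiv.swap (Equiv.swap a a' b) b' * Equiv.swap a a', ?_, ?_⟩
  · rw [Equiv.Perm.mul_apply, Equiv.swap_apply_left]
    refine Equiv.swap_apply_of_ne_of_ne (fun e => h ?_) h'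
    apply (Equiv.swap a a').injective
    rw [Equiv.swap_apply_left, ← e]
  · rw [Equiv.Perm.mul_apply, Equiv.swap_apply_left]

omit [Par] in
theorem JRep_h1 {X : Type} [Fintype X] {n : ℕ} (hX : Fintype.card X = 2 * n + 1) (a0 : X)
    (A : Equiv.Perm X → X → F2) (hA : ∀ s t a, A (s * t) a = A s (t a) + A t a)
    (hs : ∀ s, ∑ a, A s a = 0) : ∃ t : X → F2, ∀ s a, A s a = t (s a) + t a := by
  have h1 : ∀ a, A 1 a = 0 := fun a => by
    have e := hA 1 1 a
    rw [mul_one, Equiv.Perm.one_apply, F2_add_self] at e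
    exact e
  have h2 : ∀ x y, A (Equiv.swap x y) y = A (Equiv.swap x y) x := fun x y => by
    have e := hA (Equiv.swap x y) (Equiv.swap x y) x
    rw [Equiv.swap_mul_self, h1, Equiv.swap_apply_left, ← F2_sub] at e
    exact sub_eq_zero.1 e.symm
  have h3 : ∀ x y a a', a ≠ x → a ≠ y → a' ≠ x → a' ≠ y →
      A (Equiv.swap x y) a' = A (Equiv.swap x y) a := by
    intro x y a a' e1 e2 e3 e4
    have e5 : Equiv.swap x y * Equiv.swap a a' = Equiv.swap a a' * Equiv.swap x y := by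
      rw [Equiv.mul_swap_eq_swap_mul, Equiv.swap_apply_of_ne_of_ne e1 e2,
        Equiv.swap_apply_of_ne_of_ne e3 e4]
    have e6 := hA (Equiv.swap x y) (Equiv.swap a a') a
    rw [e5, hA, Equiv.swap_apply_of_ne_of_ne e1 e2, Equiv.swap_apply_left, add_comm] at e6
    exact (add_right_cancel e6).symm
  have h4 : ∀ x y a, a ≠ x → a ≠ y → A (Equiv.swap x y) a = 0 := by
    intro x y a e1 e2
    by_cases e : x = y
    · rw [e, Equiv.swap_self]
      exact h1 a
    have e3 : ∑ b, (A (Equiv.swap x y) b + A (Equiv.swap x y) a) = 0 := by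
      rw [Finset.sum_eq_add_of_mem x y (Finset.mem_univ _) (Finset.mem_univ _) e, h2, F2_add_self]
      intro b _ hb
      rw [h3 x y a b e1 e2 hb.1 hb.2, F2_add_self]
    rw [Finset.sum_add_distrib, hs, zero_add, Finset.sum_const, Finset.card_univ, hX,
      nsmul_eq_mul] at e3
    push_cast at e3
    rwa [F2_two, zero_mul, zero_add, one_mul] at e3
  have h5 : ∀ x y, A (Equiv.swap x y) x = A (Equiv.swap a0 y) a0 + A (Equiv.swap a0 x) a0 := by
    intro x y
    by_cases e1 : a0 = x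
    · rw [← e1, Equiv.swap_self]
      exact (add_eq_left.2 (h1 a0)).symm
    by_cases e2 : a0 = y
    · rw [← e2, Equiv.swap_self, Equiv.swap_comm x a0, h2]
      exact (add_eq_right.2 (h1 a0)).symm
    have e5 : Equiv.swap x y * Equiv.swap a0 x = Equiv.swap a0 y * Equiv.swap x y := by
      rw [Equiv.mul_swap_eq_swap_mul, Equiv.swap_apply_of_ne_of_ne e1 e2, Equiv.swap_apply_left]
    have e6 := hA (Equiv.swap x y) (Equiv.swap a0 x) a0
    rw [e5, hA, Equiv.swap_apply_of_ne_of_ne e1 e2, Equiv.swap_apply_left, h4 x y a0 e1 e2,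
      add_zero] at e6
    rw [e6, add_assoc, F2_add_self, add_zero]
  refine ⟨fun a => A (Equiv.swap a0 a) a0, fun s => ?_⟩
  have h6 : ∀ x y a, A (Equiv.swap x y) a =
      A (Equiv.swap a0 (Equiv.swap x y a)) a0 + A (Equiv.swap a0 a) a0 := by
    intro x y a
    by_cases e1 : a = x
    · rw [e1, Equiv.swap_apply_left, h5]
    by_cases e2 : a = y
    · rw [e2, Equiv.swap_apply_right, Equiv.swap_comm x y, h5]
    rw [h4 x y a e1 e2, Equiv.swap_apply_of_ne_of_ne e1 e2, F2_add_self]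
  induction s using Equiv.Perm.swap_induction_on with
  | one => intro a; rw [h1, Equiv.Perm.one_apply, F2_add_self]
  | swap_mul f x y _ ih =>
    intro a
    rw [hA, h6, ih, Equiv.Perm.mul_apply, add_assoc, ← add_assoc (A (Equiv.swap a0 (f a)) a0),
      F2_add_self, zero_add]

namespace JD

variable {W P : Type} [Group W] {T : Tame W P} {X : Type} [Fintype X] (J : JD T X)

include J in
theorem JRep_ne : Nonempty X := Fintype.card_pos_iff.1 (by rw [J.card]; omega)

theorem JRep_fix {g : W} {n : Vb} (hn : J.Fx g n) :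
    ∃ c : X → F2, ∑ a, c a = 0 ∧ n = ∑ a, c a • J.δ a ∧ ∀ a, c (J.π g a) = c a := by
  obtain ⟨c, h1, rfl⟩ := J.span n
  refine ⟨c, h1, rfl, fun a => ?_⟩
  have e : (fun a => c ((J.π g)⁻¹ a)) = c :=
    J.even_inj (Equiv.sum_comp (J.π g)⁻¹ c) ((J.rb_sum g c).symm.trans hn)
  have e1 := congrFun e (J.π g a)
  simp only [Equiv.Perm.coe_inv, Equiv.symm_apply_apply] at e1
  exact e1.symm

theorem geo (g : W) : ∃ z, T.deg z = 0 ∧ J.rb z = J.rb g := by
  obtain ⟨z, h1, h2⟩ := J.surj (J.π g)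
  exact ⟨z, h1, J.rb_eq.2 h2⟩

theorem free : ∃ z, T.deg z = 0 ∧ J.Free z := by
  obtain ⟨s, hs⟩ := JRep_cycle J.card
  obtain ⟨z, h1, h2⟩ := J.surj s
  refine ⟨z, h1, fun n hn => ?_⟩
  obtain ⟨c, -, rfl, h3⟩ := J.JRep_fix hn
  rw [h2] at h3
  obtain ⟨a0⟩ := J.JRep_ne
  rw [Finset.sum_congr rfl fun a _ => by rw [hs c h3 a a0], ← Finset.smul_sum, J.δ_sum, smul_zero]

theorem spanM (m : Matrix Ix Ix F2) :
    m ∈ AddSubgroup.closure {m | ∃ g h, m = J.rb g + J.rb h} := by
  obtain ⟨K, hK⟩ : ∃ K, K = AddSubgroup.closure {m | ∃ g h, m = J.rb g + J.rb h} := ⟨_, rfl⟩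
  rw [← hK]
  obtain ⟨a0⟩ := J.JRep_ne
  have h1 : ∀ a b a' b' : X, ∃ M ∈ K, ∀ c : X → F2,
      M.mulVec (∑ x, c x • J.δ x) = (c a + c b) • (J.δ a' + J.δ b') := by
    intro a b a' b'
    by_cases e : a = b
    · exact ⟨0, zero_mem _, fun c => by rw [e, F2_add_self, zero_smul, Matrix.zero_mulVec]⟩
    by_cases e' : a' = b'
    · exact ⟨0, zero_mem _, fun c => by rw [e', vb_add_self, smul_zero, Matrix.zero_mulVec]⟩
    obtain ⟨s, hs1, hs2⟩ := JRep_two e e'
    obtain ⟨g, -, hg⟩ := J.surj s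
    obtain ⟨z, -, hz⟩ := J.surj (Equiv.swap a b)
    refine ⟨J.rb (g * z) + J.rb g, hK ▸ AddSubgroup.subset_closure ⟨_, _, rfl⟩, fun c => ?_⟩
    have e2 : (J.rb z).mulVec (∑ x, c x • J.δ x) + ∑ x, c x • J.δ x =
        (c a + c b) • (J.δ a + J.δ b) := by
      rw [J.rb_sum, hz, Equiv.swap_inv, ← Finset.sum_add_distrib,
        Finset.sum_eq_add_of_mem a b (Finset.mem_univ _) (Finset.mem_univ _) e]
      · rw [Equiv.swap_apply_left, Equiv.swap_apply_right]
        module
      · intro x _ hx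
        rw [Equiv.swap_apply_of_ne_of_ne hx.1 hx.2, vb_add_self]
    rw [Matrix.add_mulVec, J.toLat.rb_mul, ← Matrix.mulVec_mulVec, ← Matrix.mulVec_add, e2,
      Matrix.mulVec_smul, Matrix.mulVec_add, J.δ_eq, J.δ_eq, hg, hs1, hs2]
  have h2 : ∀ (a b : X) (u : Vb), ∃ M ∈ K, ∀ c : X → F2,
      M.mulVec (∑ x, c x • J.δ x) = (c a + c b) • u := by
    intro a b u
    obtain ⟨y, hy, rfl⟩ := J.span u
    choose M hM1 hM2 using fun a' => h1 a b a' a0
    refine ⟨∑ a', y a' • M a', sum_mem fun a' _ => ?_, fun c => ?_⟩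
    · rcases F2_cases (y a') with e | e
      · rw [e, zero_smul]
        exact zero_mem _
      · rw [e, one_smul]
        exact hM1 a'
    · rw [Matrix.sum_mulVec]
      have e : ∀ a', (y a' • M a').mulVec (∑ x, c x • J.δ x) =
          (c a + c b) • (y a' • J.δ a') + (c a + c b) • (y a' • J.δ a0) := by
        intro a'
        rw [Matrix.smul_mulVec, hM2]
        module
      rw [Finset.sum_congr rfl fun a' _ => e a', Finset.sum_add_distrib, ← Finset.smul_sum,
        ← Finset.smul_sum, ← Finset.sum_smul, hy, zero_smul, smul_zero, add_zero]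
  choose M hM1 hM2 using fun a => h2 a a0 (m.mulVec (J.δ a))
  have e : m = ∑ a, M a := by
    refine Matrix.ext_iff_mulVec.2 fun n => ?_
    obtain ⟨c, -, rfl⟩ := J.span n
    rw [Matrix.sum_mulVec, Finset.sum_congr rfl fun a _ => hM2 a c]
    simp only [add_smul, Finset.sum_add_distrib]
    rw [← Finset.smul_sum, ← Matrix.mulVec_sum, J.δ_sum, Matrix.mulVec_zero, smul_zero, add_zero,
      Matrix.mulVec_sum]
    exact Finset.sum_congr rfl fun a _ => Matrix.mulVec_smul _ _ _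
  rw [e]
  exact sum_mem fun a _ => hM1 a

theorem h1 (w : W → Vb) (hw : J.Z1 w) (h : ∀ z, T.deg z = 0 → J.rb z = 1 → w z = 0) :
    J.IsCob w := by
  have hw2 := hw.2
  have hπ : ∀ z z', T.deg z = 0 → T.deg z' = 0 → J.π z = J.π z' → w z = w z' := by
    intro z z' h1 h2 e
    have h3 : w (z⁻¹ * z') = 0 := by
      refine h _ (by rw [T.deg_mul, T.deg_inv, h1, h2]; rfl) ?_
      rw [← J.toLat.rb_one]
      refine J.rb_eq.2 ?_
      rw [map_mul, map_inv, e, inv_mul_cancel, map_one]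
    have h4 := hw2 z (z⁻¹ * z')
    rw [mul_inv_cancel_left, h3, Matrix.mulVec_zero, add_zero] at h4
    exact h4.symm
  choose z hz1 hz2 using J.surj
  choose c hc1 hc2 using fun s => J.span (w (z s))
  have hc : ∀ s t, c (s * t) = fun a => c s a + c t (s⁻¹ a) := by
    intro s t
    refine J.even_inj ?_ ?_
    · rw [hc1, Finset.sum_add_distrib, hc1, Equiv.sum_comp s⁻¹ (c t), hc1, add_zero]
    · rw [← hc2, hπ (z (s * t)) (z s * z t) (hz1 _) (by rw [T.deg_mul, hz1, hz1]; rfl)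
        (by rw [map_mul, hz2, hz2, hz2]), hw2, hc2 s, hc2 t, J.rb_sum, hz2,
        ← Finset.sum_add_distrib]
      exact Finset.sum_congr rfl fun a _ => (add_smul _ _ _).symm
  obtain ⟨a0⟩ := J.JRep_ne
  obtain ⟨t, ht⟩ := JRep_h1 J.card a0 (fun s a => c s (s a))
    (fun s t a => by
      rw [hc]
      simp only [Equiv.Perm.mul_apply, Equiv.Perm.coe_inv, Equiv.symm_apply_apply])
    (fun s => by rw [Equiv.sum_comp s (c s), hc1])
  have h0 : ∀ g, T.deg g = 0 → w g = J.db (∑ a, t a • J.δ a) g := by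
    intro g hg
    rw [hπ g (z (J.π g)) hg (hz1 _) (hz2 _).symm, hc2, Lat.db, J.rb_sum, ← Finset.sum_add_distrib]
    refine Finset.sum_congr rfl fun a _ => ?_
    have e := ht (J.π g) ((J.π g)⁻¹ a)
    simp only [Equiv.Perm.coe_inv, Equiv.apply_symm_apply] at e
    rw [e, add_smul, add_comm]
    rfl
  refine ⟨∑ a, t a • J.δ a, fun g => ?_⟩
  obtain ⟨n, hn⟩ : ∃ n, n = ∑ a, t a • J.δ a := ⟨_, rfl⟩
  rw [← hn] at h0 ⊢
  obtain ⟨y, hy1, hy2⟩ := J.free
  have h1 : ∀ g g', w (g * g') + J.db n (g * g') =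
      (w g + J.db n g) + (J.rb g).mulVec (w g' + J.db n g') := by
    intro g g'
    rw [hw2, J.toLat.db_mul, Matrix.mulVec_add]
    abel
  have h2 : ∀ g, T.deg g = 0 → w g + J.db n g = 0 := fun g hg => by rw [h0 g hg, vb_add_self]
  have h3 := h1 y g
  have h4 := h1 g (g⁻¹ * y * g)
  rw [h2 y hy1, zero_add] at h3
  rw [h2 (g⁻¹ * y * g) (by rw [T.deg_mul, T.deg_mul, T.deg_inv, hy1]; ring), Matrix.mulVec_zero,
    add_zero, show g * (g⁻¹ * y * g) = y * g by group, h3] at h4
  have h5 := hy2 _ h4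
  rw [← vb_sub, sub_eq_zero] at h5
  exact h5

theorem chiV {v : P} (hv : v ∉ J.S) {n : Vb} (hn : J.Fx (T.σ v) n) :
    ∃ w ∈ J.Z1U (insert v J.S), w (T.τ v) = n := by
  obtain ⟨c, -, rfl, h3⟩ := J.JRep_fix hn
  obtain ⟨cc, h1, h2, h4, h5⟩ := J.chi v hv c h3
  refine ⟨fun g => ∑ a, cc g a • J.δ a, ⟨⟨T.sm_comp h1 fun y => ∑ a, y a • J.δ a, fun g g' => ?_⟩,
    fun u hu => ?_⟩, ?_⟩
  · rw [J.rb_sum, ← Finset.sum_add_distrib]
    refine Finset.sum_congr rfl fun a _ => ?_
    have e := h2 g g' ((J.π g)⁻¹ a)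
    simp only [Equiv.Perm.coe_inv, Equiv.apply_symm_apply] at e
    rw [e, add_smul]
    rfl
  · simp [h4 u hu]
  · simp only [h5]

theorem loc_sg (v : P) (a b : F2) (t : V) (h : sg a • (J.ρ (T.σ v)).mulVec t = t)
    (h' : sg b • (J.ρ (T.τ v)).mulVec t = t) : t = 0 := by
  have key : ∀ (M : Matrix Ix Ix O) (a : F2), sg a • M.mulVec t = t →
      M.mulVec (M.mulVec t) = t := by
    intro M a e
    have e1 : M.mulVec t = sg a • t := by
      conv_rhs => rw [← e, smul_smul, sg_mul_self, one_smul]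
    conv_lhs => arg 2; rw [e1]
    rw [Matrix.mulVec_smul, e]
  exact J.loc v t (key _ a h) (key _ b h')

theorem locfin : ∃ c : ℕ, ∀ v ∈ J.S, ∀ (a b : F2) (m : ℕ) (t : V),
    VD m (sg a • (J.ρ (T.σ v)).mulVec t - t) → VD m (sg b • (J.ρ (T.τ v)).mulVec t - t) →
      VD (m - c) t := by
  have key : ∀ x : P × F2 × F2, ∃ c : ℕ, ∀ (m : ℕ) (t : V),
      VD m (sg x.2.1 • (J.ρ (T.σ x.1)).mulVec t - t) →
      VD m (sg x.2.2 • (J.ρ (T.τ x.1)).mulVec t - t) → VD (m - c) t := by
    rintro ⟨v, a, b⟩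
    have e : ∀ t : V, (Matrix.fromRows (sg a • J.ρ (T.σ v) - 1) (sg b • J.ρ (T.τ v) - 1)).mulVec t =
        Sum.elim (sg a • (J.ρ (T.σ v)).mulVec t - t) (sg b • (J.ρ (T.τ v)).mulVec t - t) := by
      intro t
      rw [Matrix.fromRows_mulVec, Matrix.sub_mulVec, Matrix.sub_mulVec, Matrix.smul_mulVec,
        Matrix.smul_mulVec, Matrix.one_mulVec]
    obtain ⟨c, hc⟩ := exists_left
      (Matrix.fromRows (sg a • J.ρ (T.σ v) - 1) (sg b • J.ρ (T.τ v) - 1)) fun t ht => by
        rw [e] at ht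
        refine J.loc_sg v a b t (sub_eq_zero.1 (funext fun i => ?_))
          (sub_eq_zero.1 (funext fun i => ?_))
        · exact congrFun ht (Sum.inl i)
        · exact congrFun ht (Sum.inr i)
    refine ⟨c, fun m t h1 h2 => hc m t ?_⟩
    rw [e]
    rintro (i | i)
    · exact h1 i
    · exact h2 i
  choose c hc using key
  refine ⟨(J.S ×ˢ (Finset.univ : Finset (F2 × F2))).sup c, fun v hv a b m t h1 h2 => ?_⟩
  have h3 : c (v, a, b) ≤ (J.S ×ˢ (Finset.univ : Finset (F2 × F2))).sup c :=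
    Finset.le_sup (Finset.mem_product.2 ⟨hv, Finset.mem_univ _⟩)
  exact (hc (v, a, b) m t h1 h2).mono (by omega)

/-- the representation -/
def rep : Rep T where
  toLat := J.toLat
  symp := J.symp
  geo := J.geo
  span := J.spanM
  free := J.free.imp fun _ h => h.2
  h1 := J.h1
  chi _ hv _ hn := J.chiV hv hn
  locfin := J.locfin

end JD

end Pool.Agent.Hyp
end
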