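import Pool.Agent.Work.MP_60d5ce_nt.Hy.GalBasic

-- merged part: Pool.Agent.Work.MP_60d5ce_nt.Hy.GalLoc
section
/-!
# Places and local models: elementary facts

Hints.
* `Loc.kum_tau`: `r ^ 2 = unif ^ n * u` with `w u = 1`; a cube root `s` of `u` has `τ s = ζ ^ i * s`
  and `w (τ s - s) < 1` (`τh_res`), while `ζ ^ i - 1` is zero or a constant of size one.
* `exists_place`: `v` is the minimal polynomial of `y` over `k`; its roots are the `x ^ q ^ i`
  (`FiniteField.minpoly_frobeniusAlgHom`, `FiniteField.orderOf_frobeniusAlgEquivOfAlgebraic` on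
  `k⟮x⟯`, or: the product of `X - x ^ q ^ i` over one period has coefficients fixed by `frob`).
-/

namespace Pool.Agent.Hyp

open Pool.Agent.Quad

variable [Par]

open scoped Classical
open Polynomial

noncomputable section

variable {k : Type} [Field k] [Fintype k] {Ω : Type} [Field Ω] [Algebra (RatFunc k) Ω]
  [Algebra k Ω] [IsScalarTower k (RatFunc k) Ω]

section places

theorem pdg_pos (v : Pl k) : 0 < pdg v := by
  cases v with
  | none => exact Nat.one_pos
  | some p => exact p.2.2.natDegree_pos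

theorem pdg_fin (e : ℕ) : {v : Pl k | pdg v = e}.Finite := by
  have h : {p : {p : k[X] // p.Monic ∧ Irreducible p} | p.1.natDegree = e}.Finite := by
    refine Set.Finite.of_finite_image (f := fun p (i : Fin (e + 1)) => p.1.coeff i)
      (Set.toFinite _) fun p hp p' hp' h => Subtype.ext (Polynomial.ext fun i => ?_)
    by_cases hi : i < e + 1
    · exact congrFun h ⟨i, hi⟩
    · have h1 : p.1.natDegree = e := hp
      have h2 : p'.1.natDegree = e := hp'
      rw [coeff_eq_zero_of_natDegree_lt (by omega), coeff_eq_zero_of_natDegree_lt (by omega)]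
  refine ((h.image some).insert none).subset fun v hv => ?_
  cases v with
  | none => exact Set.mem_insert _ _
  | some p => exact Set.mem_insert_of_mem _ ⟨p, hv, rfl⟩

variable {v : Pl k}

theorem Loc.w_na (l : Loc Ω v) : IsNonarchimedean l.w := by
  intro a b
  simpa only [Loc.w_apply, map_add] using l.wΛ_na (l.ι a) (l.ι b)

theorem Loc.w_lin (l : Loc Ω v) (hv : v ≠ none) {y : Kb k Ω} (hy : y ≠ l.x) :
    l.w (tt k Ω - y) = 1 := by
  obtain ⟨p, rfl⟩ := Option.ne_none_iff_exists'.1 hv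
  have h1 : l.w (tt k Ω - l.x) = 2⁻¹ := l.w_unif
  have h2 : l.w ((l.x - y : Kb k Ω) : Ω) = 1 := l.w_const _ (sub_ne_zero.2 hy.symm)
  have e : tt k Ω - y = (tt k Ω - l.x) + ((l.x - y : Kb k Ω) : Ω) := by
    push_cast
    ring
  rw [e, l.w_na.add_eq_right_of_lt (by rw [h1, h2]; norm_num), h2]

theorem Loc.w_τ (l : Loc Ω v) (a : Ω) : l.w (gal l.τ a) = l.w a := by
  rw [Loc.w_apply, l.ι_τ, l.wΛ_iso, Loc.w_apply]

theorem Loc.w_σ (l : Loc Ω v) (a : Ω) : l.w (gal l.σ a) = l.w a := by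
  rw [Loc.w_apply, l.ι_σ, l.wΛ_iso, Loc.w_apply]

theorem Loc.τ_res (l : Loc Ω v) {a : Ω} (ha : l.w a ≤ 1) : l.w (gal l.τ a - a) < 1 := by
  rw [Loc.w_apply, map_sub, l.ι_τ]
  exact l.τh_res _ ha

theorem Loc.σ_res (l : Loc Ω v) {a : Ω} (ha : l.w a ≤ 1) :
    l.w (gal l.σ a - a ^ Fintype.card k ^ pdg v) < 1 := by
  rw [Loc.w_apply, map_sub, map_pow, l.ι_σ]
  exact l.σh_res _ ha

theorem Loc.w_res (l : Loc Ω v) {a : Ω} (ha : l.w a ≤ 1) : ∃ c : Kb k Ω, l.w (a - c) < 1 := by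
  obtain ⟨c, hc⟩ := l.Λ_res _ ha
  exact ⟨c, by rwa [Loc.w_apply, map_sub]⟩

end places

variable [IsSepClosure (RatFunc k) Ω]

section places

variable {v : Pl k}

theorem galloc_split (l : Loc Ω v) {p : (Kb k Ω)[X]} (hp : p ≠ 0) :
    l.w (aeval (tt k Ω) p) = (p.roots.map fun a : Kb k Ω => l.w (tt k Ω - a)).prod := by
  have h1 : l.w (algebraMap (Kb k Ω) Ω p.leadingCoeff) = 1 :=
    l.w_const _ (leadingCoeff_ne_zero.2 hp)
  conv_lhs => rw [(IsAlgClosed.splits p).eq_prod_roots]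
  rw [map_mul, map_mul, aeval_C, h1, one_mul, map_multiset_prod, map_multiset_prod,
    Multiset.map_map, Multiset.map_map]
  congr 1
  refine Multiset.map_congr rfl fun a _ => ?_
  simp

omit [IsSepClosure (RatFunc k) Ω] in
theorem galloc_fix {x : Kb k Ω} (m : ℕ) : (frob k Ω ^ m) x = x ↔ (minpoly k x).natDegree ∣ m := by
  have hx : IsIntegral k x := Algebra.IsIntegral.isIntegral x
  rw [(minpoly.irreducible hx).natDegree_dvd_iff_dvd_X_pow_card_pow_sub_X, minpoly.dvd_iff,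
    frob_pow_apply, Nat.card_eq_fintype_card, map_sub, map_pow, aeval_X, sub_eq_zero]

omit [IsSepClosure (RatFunc k) Ω] in
theorem galloc_inj {x : Kb k Ω} {i j : ℕ} (hi : i < (minpoly k x).natDegree)
    (hj : j < (minpoly k x).natDegree) (h : (frob k Ω ^ i) x = (frob k Ω ^ j) x) : i = j := by
  wlog hij : i ≤ j generalizing i j
  · exact (this hj hi h.symm (by omega)).symm
  obtain ⟨m, rfl⟩ := Nat.exists_eq_add_of_le hij
  rw [pow_add, AlgEquiv.mul_apply] at h
  have h1 := (galloc_fix m).1 ((frob k Ω ^ i).injective h).symm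
  have := Nat.eq_zero_of_dvd_of_lt h1 (by omega)
  omega

omit [IsSepClosure (RatFunc k) Ω] in
theorem galloc_min {p : {p : k[X] // p.Monic ∧ Irreducible p}} (l : Loc Ω (some p)) :
    p.1 = minpoly k l.x :=
  minpoly.eq_of_irreducible_of_monic p.2.2 (l.root p rfl) p.2.1

theorem Loc.w_poly (l : Loc Ω v) (hv : v ≠ none) {p : (Kb k Ω)[X]} (hp : p ≠ 0) :
    l.w (aeval (tt k Ω) p) = 2 ^ (-(p.rootMultiplicity l.x : ℤ)) := by
  rw [galloc_split l hp, ← count_roots]
  generalize p.roots = s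
  induction s using Multiset.induction_on with
  | empty => simp
  | cons a s ih =>
    rw [Multiset.map_cons, Multiset.prod_cons, ih]
    by_cases ha : a = l.x
    · obtain ⟨p, rfl⟩ := Option.ne_none_iff_exists'.1 hv
      have h1 : l.w (tt k Ω - l.x) = 2⁻¹ := l.w_unif
      rw [ha, h1, Multiset.count_cons_self]
      push_cast
      rw [neg_add, zpow_add₀ two_ne_zero, zpow_neg_one, mul_comm]
    · rw [l.w_lin hv ha, one_mul, Multiset.count_cons_of_ne (Ne.symm ha)]

theorem Loc.w_poly_inf (l : Loc Ω (none : Pl k)) {p : (Kb k Ω)[X]} (hp : p ≠ 0) :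
    l.w (aeval (tt k Ω) p) = 2 ^ (p.natDegree : ℤ) := by
  have h1 : l.w (tt k Ω) = 2 := by
    have h : l.w (tt k Ω)⁻¹ = 2⁻¹ := l.w_unif
    rwa [map_inv₀, inv_inj] at h
  have h2 : ∀ a : Kb k Ω, l.w (tt k Ω - a) = 2 := fun a => by
    by_cases ha : a = 0
    · simp [ha, h1]
    · have h3 : l.w (-(a : Ω)) = 1 := by
        rw [AbsoluteValue.map_neg]
        exact l.w_const _ ha
      rw [sub_eq_add_neg, l.w_na.add_eq_left_of_lt (by rw [h1, h3]; norm_num), h1]
  rw [galloc_split l hp, (IsAlgClosed.splits p).natDegree_eq_card_roots]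
  simp [h2]

theorem Loc.kum_tau (h6 : ((mo : ℕ) : k) ≠ 0) (l : Loc Ω v) {r : Ω} (hr : r ≠ 0)
    (hf : gal l.τ (r ^ 2) = r ^ 2) {n : ℤ} (hn : l.w (r ^ 2) = 2 ^ (-n)) :
    kum r (gal l.τ) = (n : F2) := by
  have h2 : (2 : Ω) ≠ 0 := GalKum_two h6
  obtain ⟨s, hs⟩ : ∃ s : Ω, s ^ 2 = unif v l.x := ⟨_, sqr_spec h6 _⟩
  have hw : l.w (s ^ 2) = 2⁻¹ := hs ▸ l.w_unif
  have hs0 : s ≠ 0 := by
    rintro rfl
    simp at hw
  have hτ := l.kummer s hs
  obtain ⟨u, rfl⟩ : ∃ u, r = u * s ^ n := ⟨r / s ^ n, (div_mul_cancel₀ _ (zpow_ne_zero _ hs0)).symm⟩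
  have hu0 : u ≠ 0 := left_ne_zero_of_mul hr
  have e3 : (s ^ n) ^ 2 = (s ^ 2) ^ n := by
    rw [← zpow_natCast, ← zpow_natCast, ← zpow_mul, ← zpow_mul, mul_comm]
  have hu : l.w u = 1 := by
    rw [mul_pow, e3, map_mul, map_zpow₀, hw, inv_zpow', map_pow,
      mul_eq_right₀ (zpow_ne_zero _ two_ne_zero)] at hn
    exact (pow_eq_one_iff_of_nonneg (l.w.nonneg u) two_ne_zero).1 hn
  have hf' : gal l.τ (u ^ 2) = u ^ 2 := by
    have h1 : gal l.τ (s ^ 2) = s ^ 2 := by rw [map_pow, hτ, neg_sq]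
    rw [mul_pow, e3, map_mul, map_zpow₀, h1] at hf
    exact mul_right_cancel₀ (zpow_ne_zero _ (pow_ne_zero _ hs0)) hf
  have hτu : gal l.τ u = u := by
    rw [map_pow] at hf'
    refine (sq_eq_sq_iff_eq_or_eq_neg.1 hf').resolve_right fun h1 => ?_
    have h3 := l.τ_res hu.le
    have h4 : algebraMap k (Kb k Ω) 2 ≠ 0 := (_root_.map_ne_zero _).2 (two_ne_of_six h6)
    have h5 : l.w (algebraMap k Ω 2) = 1 := l.w_const _ h4
    rw [map_ofNat] at h5
    rw [h1, show -u - u = -(2 * u) by ring, l.w.map_neg, map_mul, hu, mul_one] at h3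
    exact h3.ne h5
  refine kum_eq h6 hr ?_
  have e : (-1 : Ω) ^ n = (-1) ^ (n : F2).val := by
    rw [← zpow_natCast, ZMod.val_intCast]
    conv_lhs => rw [← Int.mul_ediv_add_emod n (2 : ℕ), zpow_add₀ (neg_ne_zero.2 one_ne_zero),
      zpow_mul, zpow_natCast, neg_one_sq, one_zpow, one_mul]
  rw [map_mul, map_zpow₀, hτu, hτ, neg_eq_neg_one_mul s, mul_zpow, e]
  ring

/-- every constant is conjugate to the chosen point of a finite place -/
theorem exists_place (ℓ : Locs k Ω) (y : Kb k Ω) :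
    ∃ (v : Pl k) (i : ℕ), v ≠ none ∧ i < pdg v ∧ y = (frob k Ω ^ i) (ℓ v).x := by
  have hy : IsIntegral k y := Algebra.IsIntegral.isIntegral y
  let p : {p : k[X] // p.Monic ∧ Irreducible p} :=
    ⟨minpoly k y, minpoly.monic hy, minpoly.irreducible hy⟩
  have hp : minpoly k y = minpoly k (ℓ (some p)).x := galloc_min (ℓ (some p))
  have hd : pdg (some p) = (minpoly k (ℓ (some p)).x).natDegree := congrArg natDegree hp
  refine ⟨some p, ?_⟩
  rw [hd]
  generalize (ℓ (some p)).x = x at hp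
  have h0 : minpoly k x ≠ 0 := hp ▸ minpoly.ne_zero hy
  have h1 : (Finset.range (minpoly k x).natDegree).image (fun i => (frob k Ω ^ i) x) =
      ((minpoly k x).aroots (Kb k Ω)).toFinset := by
    refine Finset.eq_of_subset_of_card_le (fun z hz => ?_) ?_
    · obtain ⟨i, -, rfl⟩ := Finset.mem_image.1 hz
      rw [Multiset.mem_toFinset, mem_aroots]
      exact ⟨h0, by rw [aeval_algHom_apply, minpoly.aeval, map_zero]⟩
    · rw [Finset.card_image_of_injOn fun i hi j hj h =>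
        galloc_inj (Finset.mem_range.1 hi) (Finset.mem_range.1 hj) h, Finset.card_range]
      exact (Multiset.toFinset_card_le _).trans ((card_roots' _).trans natDegree_map_le)
  have h2 : y ∈ ((minpoly k x).aroots (Kb k Ω)).toFinset := by
    rw [Multiset.mem_toFinset, mem_aroots]
    exact ⟨h0, hp ▸ minpoly.aeval k y⟩
  rw [← h1] at h2
  obtain ⟨i, hi, rfl⟩ := Finset.mem_image.1 h2
  exact ⟨i, Option.some_ne_none _, Finset.mem_range.1 hi, rfl⟩

theorem place_unique (ℓ : Locs k Ω) {v v' : Pl k} (hv : v ≠ none) (hv' : v' ≠ none) {i i' : ℕ}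
    (hi : i < pdg v) (hi' : i' < pdg v')
    (h : (frob k Ω ^ i) (ℓ v).x = (frob k Ω ^ i') (ℓ v').x) : v = v' ∧ i = i' := by
  obtain ⟨p, rfl⟩ := Option.ne_none_iff_exists'.1 hv
  obtain ⟨p', rfl⟩ := Option.ne_none_iff_exists'.1 hv'
  have h1 := congrArg (minpoly k) h
  rw [minpoly.algEquiv_eq, minpoly.algEquiv_eq, ← galloc_min, ← galloc_min] at h1
  obtain rfl : p = p' := Subtype.ext h1
  have hd : pdg (some p) = (minpoly k (ℓ (some p)).x).natDegree :=
    congrArg natDegree (galloc_min (ℓ (some p)))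
  exact ⟨rfl, galloc_inj (hd ▸ hi) (hd ▸ hi') h⟩

theorem frob_pdg (l : Loc Ω v) (hv : v ≠ none) : (frob k Ω ^ pdg v) l.x = l.x := by
  obtain ⟨p, rfl⟩ := Option.ne_none_iff_exists'.1 hv
  rw [galloc_fix, ← galloc_min]
  rfl

end places

end

end Pool.Agent.Hyp
end

-- merged part: Pool.Agent.Work.MP_60d5ce_nt.Hy.ChebP
section
/-!
# Counting monic irreducible polynomials over a finite field
-/

namespace Pool.Agent.Hyp

open Pool.Agent.Quad

variable [Par]

open scoped Classical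
open Polynomial

variable {k : Type} [Field k] [Fintype k]

theorem chebp_sum (e : ℕ) (he : 0 < e) : ∃ S : Finset k[X],
    (∀ p, p ∈ S ↔ p.Monic ∧ Irreducible p ∧ p.natDegree ∣ e) ∧
      ∑ p ∈ S, p.natDegree = Fintype.card k ^ e := by
  have h1 : 1 < Fintype.card k := Fintype.one_lt_card
  have h0 : (X ^ Fintype.card k ^ e - X : k[X]) ≠ 0 :=
    FiniteField.X_pow_card_pow_sub_X_ne_zero k he.ne' h1
  have hd : (X ^ Fintype.card k ^ e - X : k[X]).natDegree = Fintype.card k ^ e :=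
    FiniteField.X_pow_card_pow_sub_X_natDegree_eq k he.ne' h1
  have hsep : (X ^ Fintype.card k ^ e - X : k[X]).Separable := by
    obtain ⟨p, hp⟩ := CharP.exists k
    obtain ⟨n, hpp, hn⟩ := FiniteField.card k p
    refine galois_poly_separable p _ ?_
    rw [hn]
    exact dvd_pow (dvd_pow_self p n.ne_zero) he.ne'
  have hnd := (UniqueFactorizationMonoid.squarefree_iff_nodup_normalizedFactors h0).1
    hsep.squarefree
  refine ⟨⟨_, hnd⟩, fun p => ?_, ?_⟩
  · rw [Finset.mem_mk, Polynomial.mem_normalizedFactors_iff h0]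
    constructor
    · rintro ⟨a, b, c⟩
      refine ⟨b, a, ?_⟩
      rw [a.natDegree_dvd_iff_dvd_X_pow_card_pow_sub_X, Nat.card_eq_fintype_card]
      exact c
    · rintro ⟨b, a, c⟩
      refine ⟨a, b, ?_⟩
      rwa [a.natDegree_dvd_iff_dvd_X_pow_card_pow_sub_X, Nat.card_eq_fintype_card] at c
  · refine Eq.trans ?_ hd
    rw [Finset.sum_mk, ← natDegree_multiset_prod _
      (UniqueFactorizationMonoid.zero_notMem_normalizedFactors _)]
    exact natDegree_eq_of_degree_eq (degree_eq_degree_of_associated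
      (UniqueFactorizationMonoid.prod_normalizedFactors h0))

theorem chebp_le (d : ℕ) (T : Finset k[X])
    (hT : ∀ p ∈ T, p.Monic ∧ Irreducible p ∧ p.natDegree = d) :
    d * T.card ≤ Fintype.card k ^ d := by
  rcases Nat.eq_zero_or_pos d with rfl | hd
  · simp
  obtain ⟨S, hS, hs⟩ := chebp_sum (k := k) d hd
  rw [← hs, mul_comm, ← smul_eq_mul, ← Finset.sum_const,
    ← Finset.sum_congr rfl fun p hp => (hT p hp).2.2]
  exact Finset.sum_le_sum_of_subset fun p hp =>
    (hS p).2 ⟨(hT p hp).1, (hT p hp).2.1, (hT p hp).2.2 ▸ dvd_rfl⟩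

theorem chebp_card (d : ℕ) : ∃ T : Finset k[X],
    (∀ p, p ∈ T ↔ p.Monic ∧ Irreducible p ∧ p.natDegree = d) ∧
      {v : Pl k | pdg v = d ∧ v ≠ none}.ncard = T.card := by
  have hf : {v : Pl k | pdg v = d ∧ v ≠ none}.Finite := (pdg_fin d).subset fun v hv => hv.1
  let f : Pl k → k[X] := fun v => v.elim 0 Subtype.val
  have hinj : Set.InjOn f {v : Pl k | pdg v = d ∧ v ≠ none} := by
    intro v hv v' hv' h
    obtain ⟨p, rfl⟩ := Option.ne_none_iff_exists'.1 hv.2
    obtain ⟨p', rfl⟩ := Option.ne_none_iff_exists'.1 hv'.2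
    exact congrArg some (Subtype.ext h)
  refine ⟨(hf.image f).toFinset, fun p => ?_, ?_⟩
  · rw [Set.Finite.mem_toFinset]
    constructor
    · rintro ⟨v, hv, rfl⟩
      obtain ⟨p, rfl⟩ := Option.ne_none_iff_exists'.1 hv.2
      exact ⟨p.2.1, p.2.2, hv.1⟩
    · rintro ⟨a, b, c⟩
      exact ⟨some ⟨p, a, b⟩, ⟨c, Option.some_ne_none _⟩, rfl⟩
  · rw [← Set.ncard_eq_toFinset_card _ (hf.image f), hinj.ncard_image]

theorem chebp_geom {q : ℕ} (hq : 2 ≤ q) (m : ℕ) : ∑ d ∈ Finset.range (m + 1), q ^ d ≤ 2 * q ^ m := by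
  induction m with
  | zero => simp
  | succ m ih =>
    rw [Finset.sum_range_succ, pow_succ]
    nlinarith [Nat.zero_le (q ^ m)]

theorem chebp_upper (e : ℕ) :
    e * {v : Pl k | pdg v = e ∧ v ≠ none}.ncard ≤ Fintype.card k ^ e := by
  obtain ⟨T, hT, h⟩ := chebp_card (k := k) e
  rw [h]
  exact chebp_le e T fun p hp => (hT p).1 hp

theorem chebp_lower (e : ℕ) (he : 0 < e) : Fintype.card k ^ e ≤
    e * {v : Pl k | pdg v = e ∧ v ≠ none}.ncard + 2 * Fintype.card k ^ ((e + 1) / 2) := by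
  obtain ⟨T, hT, h⟩ := chebp_card (k := k) e
  obtain ⟨S, hS, hs⟩ := chebp_sum (k := k) e he
  have h1 : 1 < Fintype.card k := Fintype.one_lt_card
  rw [h, ← hs, ← Finset.sum_filter_add_sum_filter_not S fun p => p.natDegree = e]
  refine add_le_add (le_of_eq ?_) ?_
  · have : S.filter (fun p => p.natDegree = e) = T := by
      ext p
      rw [Finset.mem_filter, hS, hT]
      exact ⟨fun h => ⟨h.1.1, h.1.2.1, h.2⟩, fun h => ⟨⟨h.1, h.2.1, h.2.2 ▸ dvd_rfl⟩, h.2.2⟩⟩
    rw [this, Finset.sum_congr rfl fun p hp => ((hT p).1 hp).2.2, Finset.sum_const, smul_eq_mul,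
      mul_comm]
  · rw [← Finset.sum_fiberwise_of_maps_to (t := Finset.range (e / 2 + 1)) (g := natDegree)]
    · refine (Finset.sum_le_sum fun d _ => ?_).trans ((chebp_geom h1 (e / 2)).trans
        (Nat.mul_le_mul_left 2 (Nat.pow_le_pow_right h1.le (by omega))))
      rw [Finset.sum_congr rfl fun p hp => (Finset.mem_filter.1 hp).2, Finset.sum_const,
        smul_eq_mul, mul_comm]
      refine chebp_le d _ fun p hp => ?_
      obtain ⟨hp1, hp2⟩ := Finset.mem_filter.1 hp
      have := (hS p).1 (Finset.mem_filter.1 hp1).1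
      exact ⟨this.1, this.2.1, hp2⟩
    · intro p hp
      obtain ⟨hp1, hp2⟩ := Finset.mem_filter.1 hp
      obtain ⟨c, hc⟩ := ((hS p).1 hp1).2.2
      rw [Finset.mem_range, Nat.lt_succ_iff, Nat.le_div_iff_mul_le two_pos]
      have : 2 ≤ c := by
        rcases c with _ | _ | c
        · omega
        · omega
        · omega
      rw [hc]
      exact Nat.mul_le_mul_left _ this

end Pool.Agent.Hyp
end
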