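import Mathlib
import Pool.Agent.Work.MP_7f58ab_ag.Lt.Sa
import Pool.Agent.Work.MP_7f58ab_ag.Lt.GsD
import Pool.Agent.Work.MP_7f58ab_ag.Lt.Rp
import Pool.Agent.Work.MP_7f58ab_ag.Lt.Pm
import Pool.Agent.Work.MP_60d5ce_nt.Hy.GalBasic
import Pool.Agent.Work.MP_7f58ab_ag.Lt.Gs
import Pool.Agent.Work.MP_60d5ce_nt.Hy.ChebP

-- merged part: Pool.Agent.Work.MP_60d5ce_nt.Hy.RedL
section
-- merged part: Pool.Agent.Work.MP_60d5ce_nt.Hy.Two
section
/-!
# The prime two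
-/

namespace Pool.Agent.Hyp

/-- the prime two -/
abbrev ll : ℕ := 2

theorem ll_prime : ll.Prime := Nat.prime_two

theorem ll_pos : 0 < ll := ll_prime.pos

theorem ll_ne_zero : ll ≠ 0 := ll_prime.ne_zero

theorem ll_one_lt : 1 < ll := ll_prime.one_lt

theorem ll_ne_one : ll ≠ 1 := ll_prime.one_lt.ne'

theorem ll_posZ : (0 : ℤ) < ll := Nat.cast_pos.2 ll_pos

theorem ll_ne_zeroZ : (ll : ℤ) ≠ 0 := ll_posZ.ne'

theorem ll_not_dvd_one : ¬ ll ∣ 1 := fun h => ll_ne_one (Nat.dvd_one.1 h)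

end Pool.Agent.Hyp
end

-- merged part: Pool.Agent.Work.MP_60d5ce_nt.Hy.CubA
section
/-!
# The function fields `y ^ ll = f (x)`: algebra  (ported from Lt CubA)

* `indep`: multiply the three conjugates formally: from `a + b y + c y ^ 2 = 0` and `y ^ ll = f` one gets
  `a ^ ll + b ^ ll f + c ^ ll f ^ 2 = ll a b c f` in `𝕜[X]` (`linear_combination`, injectivity of `aeval x`); the degrees
  of the nonzero terms on the left are different modulo ll, and the largest exceeds the degree on the right.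
  Alternatively: `X ^ ll - C (f x)` is irreducible over `𝕜⟮x⟯` (`X_pow_sub_C_irreducible_of_prime`) since `f` is not
  a cube in `𝕜(x)`.
* `decomp`: the `u` of this form are a subring that contains `𝕜⟮x⟯` and `y`; `y` is algebraic over `𝕜⟮x⟯`
  (`IntermediateField.adjoin_simple_toSubalgebra_of_isAlgebraic`, `adjoin_adjoin_left`), or invert with the norm form.
* `exists_hom`: `RatFunc.liftRingHom`/`IsFractionRing.lift` for `𝕜⟮x⟯`, then `AdjoinRoot.lift` or a power basis.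
  With `exists_rat`: `L` is `AdjoinRoot (X ^ ll - C f)` over `RatFunc 𝕜`.
* `exists_cub`: `AdjoinRoot (X ^ ll - C (algebraMap f))` over `RatFunc κ`.
-/

namespace Pool.Agent.Hyp

open Pool.Agent.Ell.AT

open PR0 Polynomial

/-- a cyclic cubic cover of the line -/
structure Cub (𝕜 L : Type) [Field 𝕜] [Field L] [Algebra 𝕜 L] where
  x : L
  y : L
  f : 𝕜[X]
  ω : 𝕜
  hω : IsPrimitiveRoot ω ll
  tr : Transcendental 𝕜 x
  eq : y ^ ll = aeval x f
  gen : IntermediateField.adjoin 𝕜 {x, y} = ⊤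
  deg : ¬ ll ∣ f.natDegree

/-- the cubic equation over the rational function field -/
noncomputable abbrev CubA_p {κ : Type} [Field κ] (f : κ[X]) : (RatFunc κ)[X] :=
  X ^ ll - Polynomial.C (algebraMap κ[X] (RatFunc κ) f)

theorem CubA_irr {κ : Type} [Field κ] {f : κ[X]} (hd : ¬ ll ∣ f.natDegree) :
    Irreducible (CubA_p f) := by
  refine X_pow_sub_C_irreducible_of_prime ll_prime fun b hb => hd ?_
  have hf : f ≠ 0 := fun h => hd (by simp [h])
  have hb0 : b ≠ 0 := by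
    rintro rfl
    exact RatFunc.algebraMap_ne_zero hf (by rw [← hb, zero_pow ll_ne_zero])
  have h0 : ∀ n : ℕ, (b ^ n).intDegree = n * b.intDegree := fun n => by
    induction n with
    | zero => simp
    | succ n ih =>
      rw [pow_succ, RatFunc.intDegree_mul (pow_ne_zero _ hb0) hb0, ih, Nat.cast_succ, add_mul,
        one_mul]
  have h1 := congrArg RatFunc.intDegree hb
  rw [RatFunc.intDegree_polynomial, h0] at h1
  exact Int.natCast_dvd_natCast.1 ⟨_, h1.symm⟩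

theorem CubA_monic {κ : Type} [Field κ] (f : κ[X]) : (CubA_p f).Monic := by
  exact monic_X_pow_sub_C _ ll_ne_zero

theorem CubA_deg {κ : Type} [Field κ] (f : κ[X]) : (CubA_p f).natDegree = ll :=
  natDegree_X_pow_sub_C

theorem CubA_lift {κ M : Type} [Field κ] [Field M] (j : κ →+* M) (x' : M)
    (hx : ∀ p : κ[X], p ≠ 0 → p.eval₂ j x' ≠ 0) :
    ∃ g : RatFunc κ →+* M, ∀ p : κ[X], g (algebraMap κ[X] (RatFunc κ) p) = p.eval₂ j x' := by
  have hi : Function.Injective (eval₂RingHom j x') :=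
    (injective_iff_map_eq_zero _).2 fun p hp => by_contra fun h => hx p h hp
  exact ⟨IsFractionRing.lift hi, fun p => IsFractionRing.lift_algebraMap hi p⟩

theorem exists_cub {κ : Type} [Field κ] (f : κ[X]) (ω : κ) (hω : IsPrimitiveRoot ω ll)
    (hd : ¬ ll ∣ f.natDegree) :
    ∃ (L : Type) (_ : Field L) (_ : Algebra κ L) (C : Cub κ L), C.f = f ∧ C.ω = ω := by
  haveI : Fact (Irreducible (CubA_p f)) := ⟨CubA_irr hd⟩
  have hx : ∀ p : κ[X], aeval (algebraMap (RatFunc κ) (AdjoinRoot (CubA_p f)) RatFunc.X) p =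
      algebraMap (RatFunc κ) (AdjoinRoot (CubA_p f)) (algebraMap κ[X] (RatFunc κ) p) := fun p => by
    rw [aeval_algebraMap_apply, RatFunc.aeval_X_left_eq_algebraMap]
  refine ⟨AdjoinRoot (CubA_p f), inferInstance, inferInstance,
    ⟨algebraMap (RatFunc κ) _ RatFunc.X, AdjoinRoot.root _, f, ω, hω, ?_, ?_, ?_, hd⟩, rfl, rfl⟩
  · exact (transcendental_algebraMap_iff (algebraMap (RatFunc κ) _).injective).2
      RatFunc.transcendental_X
  · have h := AdjoinRoot.eval₂_root (CubA_p f)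
    rw [eval₂_sub, eval₂_X_pow, eval₂_C, sub_eq_zero] at h
    rw [h, hx]
    rfl
  · set S := IntermediateField.adjoin κ
      {algebraMap (RatFunc κ) (AdjoinRoot (CubA_p f)) RatFunc.X, AdjoinRoot.root (CubA_p f)}
    have h1 : algebraMap (RatFunc κ) (AdjoinRoot (CubA_p f)) RatFunc.X ∈ S :=
      IntermediateField.subset_adjoin _ _ (Or.inl rfl)
    have h2 : AdjoinRoot.root (CubA_p f) ∈ S := IntermediateField.subset_adjoin _ _ (Or.inr rfl)
    have h3 : ∀ p : κ[X], algebraMap (RatFunc κ) (AdjoinRoot (CubA_p f))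
        (algebraMap κ[X] (RatFunc κ) p) ∈ S := fun p => by
      rw [← hx]
      exact Algebra.adjoin_le (S := S.toSubalgebra) (Set.singleton_subset_iff.2 h1)
        (aeval_mem_adjoin_singleton _ _)
    have h4 : ∀ r : RatFunc κ, algebraMap (RatFunc κ) (AdjoinRoot (CubA_p f)) r ∈ S := fun r => by
      rw [← r.num_div_denom, map_div₀]
      exact div_mem (h3 _) (h3 _)
    refine eq_top_iff.2 fun u _ => ?_
    induction u using AdjoinRoot.induction_on with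
    | ih q =>
      rw [← AdjoinRoot.aeval_eq, aeval_def, eval₂_eq_sum_range]
      exact sum_mem fun i _ => mul_mem (h4 _) (pow_mem h2 _)

namespace Cub

variable {𝕜 L : Type} [Field 𝕜] [Field L] [Algebra 𝕜 L] (C : Cub 𝕜 L)

theorem f_ne : C.f ≠ 0 := fun h => C.deg (by simp [h])

theorem aeval_ne {p : 𝕜[X]} (hp : p ≠ 0) : aeval C.x p ≠ 0 := fun h => C.tr ⟨p, hp, h⟩

theorem aeval_inj : Function.Injective (aeval C.x : 𝕜[X] →ₐ[𝕜] L) :=
  transcendental_iff_injective.1 C.tr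

theorem y_ne : C.y ≠ 0 := by
  exact fun h => C.aeval_ne C.f_ne (by rw [← C.eq, h]; simp [ll_ne_zero])

theorem x_sub_ne (a : 𝕜) : C.x - algebraMap 𝕜 L a ≠ 0 := by
  simpa using C.aeval_ne (X_sub_C_ne_zero a)

include C in
theorem three_ne : (ll : 𝕜) ≠ 0 := by
  have := C.hω.neZero'.out
  exact_mod_cast this

theorem CubA_iso : ∃ e : AdjoinRoot (CubA_p C.f) ≃+* L, e (AdjoinRoot.root _) = C.y ∧
    ∀ p : 𝕜[X], e (AdjoinRoot.of _ (algebraMap 𝕜[X] (RatFunc 𝕜) p)) = aeval C.x p := by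
  haveI : Fact (Irreducible (CubA_p C.f)) := ⟨CubA_irr C.deg⟩
  obtain ⟨g, hg⟩ := CubA_lift (algebraMap 𝕜 L) C.x fun p hp => C.aeval_ne hp
  have h0 : (CubA_p C.f).eval₂ g C.y = 0 := by
    rw [eval₂_sub, eval₂_X_pow, eval₂_C, hg, C.eq, aeval_def, sub_self]
  let ψ := AdjoinRoot.lift g C.y h0
  have h1 : ψ (AdjoinRoot.root _) = C.y := AdjoinRoot.lift_root h0
  have h2 : ∀ p : 𝕜[X], ψ (AdjoinRoot.of _ (algebraMap 𝕜[X] (RatFunc 𝕜) p)) = aeval C.x p :=
    fun p => (AdjoinRoot.lift_of h0).trans (hg p)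
  have hs : Function.Surjective ψ := by
    intro u
    have hu : u ∈ IntermediateField.adjoin 𝕜 {C.x, C.y} := by
      rw [C.gen]
      trivial
    induction hu using IntermediateField.adjoin_induction with
    | mem z hz =>
      rcases hz with rfl | rfl
      · exact ⟨_, (h2 X).trans (aeval_X _)⟩
      · exact ⟨_, h1⟩
    | algebraMap c => exact ⟨_, (h2 (Polynomial.C c)).trans (aeval_C _ _)⟩
    | add a b _ _ ha hb =>
      obtain ⟨a, rfl⟩ := ha
      obtain ⟨b, rfl⟩ := hb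
      exact ⟨a + b, map_add _ _ _⟩
    | inv a _ ha =>
      obtain ⟨a, rfl⟩ := ha
      exact ⟨a⁻¹, map_inv₀ _ _⟩
    | mul a b _ _ ha hb =>
      obtain ⟨a, rfl⟩ := ha
      obtain ⟨b, rfl⟩ := hb
      exact ⟨a * b, map_mul _ _ _⟩
  exact ⟨RingEquiv.ofBijective ψ ⟨ψ.injective, hs⟩, h1, h2⟩

theorem indep {a : Fin ll → 𝕜[X]} (h : ∑ i, aeval C.x (a i) * C.y ^ (i : ℕ) = 0) : a = 0 := by
  obtain ⟨e, h1, h2⟩ := C.CubA_iso
  let q : (RatFunc 𝕜)[X] :=
    ∑ i : Fin ll, Polynomial.C (algebraMap 𝕜[X] (RatFunc 𝕜) (a i)) * X ^ (i : ℕ)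
  have hq : AdjoinRoot.mk (CubA_p C.f) q = 0 := by
    apply e.injective
    simp only [q, map_sum, map_mul, map_pow, AdjoinRoot.mk_C, AdjoinRoot.mk_X, h1, h2, map_zero]
    exact h
  have h0 : q = 0 := eq_zero_of_dvd_of_degree_lt (AdjoinRoot.mk_eq_zero.1 hq) (by
    rw [degree_X_pow_sub_C ll_pos]
    exact degree_sum_fin_lt _)
  funext i
  have k := congrArg (coeff · i) h0
  simp only [q, finsetSum_coeff, coeff_C_mul_X_pow, Fin.val_inj, Finset.sum_ite_eq,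
    Finset.mem_univ, if_true, coeff_zero] at k
  exact RatFunc.algebraMap_injective 𝕜 (k.trans (map_zero _).symm)

theorem decomp (u : L) : ∃ (a : Fin ll → 𝕜[X]) (d : 𝕜[X]), d ≠ 0 ∧
    u * aeval C.x d = ∑ i, aeval C.x (a i) * C.y ^ (i : ℕ) := by
  obtain ⟨e, h1, h2⟩ := C.CubA_iso
  obtain ⟨v, rfl⟩ := e.surjective u
  induction v using AdjoinRoot.induction_on with
  | ih q =>
    have hm := CubA_monic C.f
    have hq : AdjoinRoot.mk (CubA_p C.f) q = AdjoinRoot.mk (CubA_p C.f) (q %ₘ CubA_p C.f) := by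
      conv_lhs => rw [← modByMonic_add_div q (CubA_p C.f)]
      rw [map_add, map_mul, AdjoinRoot.mk_self, zero_mul, add_zero]
    have hd : (q %ₘ CubA_p C.f).natDegree < ll := by
      refine lt_of_lt_of_eq (natDegree_modByMonic_lt _ hm fun h => ?_) (CubA_deg C.f)
      have := CubA_deg C.f
      rw [h, natDegree_one] at this
      exact ll_ne_zero this.symm
    generalize q %ₘ CubA_p C.f = r at hq hd
    obtain ⟨⟨d, hd0⟩, hb⟩ := IsLocalization.exist_integer_multiples_of_finite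
      (nonZeroDivisors 𝕜[X]) fun i : Fin ll => r.coeff i
    choose a ha using hb
    refine ⟨a, d, nonZeroDivisors.ne_zero hd0, ?_⟩
    rw [hq, ← AdjoinRoot.aeval_eq, aeval_def, eval₂_eq_sum_range' _ hd, Finset.sum_range, map_sum,
      Finset.sum_mul]
    refine Finset.sum_congr rfl fun i _ => ?_
    rw [← h2, ← h2, ha, Algebra.smul_def, map_mul, map_mul, map_mul, map_pow, h1,
      AdjoinRoot.algebraMap_eq]
    ring

/-- the rational functions of `x` -/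
def Base (u : L) : Prop := ∃ a d : 𝕜[X], d ≠ 0 ∧ u = aeval C.x a / aeval C.x d

theorem base_iff {u : L} : C.Base u ↔ u ∈ IntermediateField.adjoin 𝕜 {C.x} := by
  rw [IntermediateField.mem_adjoin_simple_iff]
  refine ⟨fun ⟨a, d, _, h⟩ => ⟨a, d, h⟩, fun ⟨a, d, h⟩ => ?_⟩
  by_cases hd : d = 0
  · exact ⟨0, 1, one_ne_zero, by simp [h, hd]⟩
  · exact ⟨a, d, hd, h⟩

theorem finrank_eq : Module.finrank (IntermediateField.adjoin 𝕜 {C.x}) L = ll := by
  obtain ⟨e, -, h2⟩ := C.CubA_iso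
  rw [← Algebra.finrank_eq_of_equiv_equiv (RatFunc.algEquivOfTranscendental C.x C.tr).toRingEquiv e]
  · exact ((AdjoinRoot.powerBasis' (CubA_monic C.f)).finrank).trans (CubA_deg C.f)
  · refine IsFractionRing.ringHom_ext (A := 𝕜[X]) fun p => ?_
    refine Eq.trans ?_ (h2 p).symm
    change ((RatFunc.algEquivOfTranscendental C.x C.tr (algebraMap 𝕜[X] (RatFunc 𝕜) p) :
      IntermediateField.adjoin 𝕜 {C.x}) : L) = _
    rw [RatFunc.algEquivOfTranscendental_algebraMap]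
    exact (aeval_algebraMap_apply L (IntermediateField.AdjoinSimple.gen 𝕜 C.x) p).symm

include C in
theorem isFF : IsFF 𝕜 L := by
  exact ⟨C.x, C.tr, Module.finite_of_finrank_pos (by rw [C.finrank_eq]; exact ll_pos)⟩

theorem exists_rat : ∃ _ : Algebra (RatFunc 𝕜) L, FiniteDimensional (RatFunc 𝕜) L ∧
    ∀ p : 𝕜[X], algebraMap (RatFunc 𝕜) L (algebraMap 𝕜[X] (RatFunc 𝕜) p) = aeval C.x p := by
  obtain ⟨e, -, h2⟩ := C.CubA_iso
  letI : Algebra (RatFunc 𝕜) L := (e.toRingHom.comp (AdjoinRoot.of _)).toAlgebra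
  refine ⟨this, Module.finite_of_finrank_pos ?_, h2⟩
  rw [← Algebra.finrank_eq_of_equiv_equiv (RingEquiv.refl (RatFunc 𝕜)) e rfl,
    ((AdjoinRoot.powerBasis' (CubA_monic C.f)).finrank).trans (CubA_deg C.f)]
  exact ll_pos

theorem hom_ext {M : Type} [Field M] {φ ψ : L →+* M}
    (hc : ∀ c, φ (algebraMap 𝕜 L c) = ψ (algebraMap 𝕜 L c)) (hx : φ C.x = ψ C.x)
    (hy : φ C.y = ψ C.y) : φ = ψ := by
  ext u
  have hu : u ∈ IntermediateField.adjoin 𝕜 {C.x, C.y} := by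
    rw [C.gen]
    trivial
  induction hu using IntermediateField.adjoin_induction with
  | mem z hz =>
    rcases hz with rfl | rfl
    · exact hx
    · exact hy
  | algebraMap c => exact hc c
  | add a b _ _ ha hb => rw [map_add, map_add, ha, hb]
  | inv a _ ha => rw [map_inv₀, map_inv₀, ha]
  | mul a b _ _ ha hb => rw [map_mul, map_mul, ha, hb]

theorem exists_hom {M : Type} [Field M] (j : 𝕜 →+* M) (x' y' : M)
    (hx : ∀ p : 𝕜[X], p ≠ 0 → p.eval₂ j x' ≠ 0) (hy : y' ^ ll = C.f.eval₂ j x') :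
    ∃ φ : L →+* M, (∀ c, φ (algebraMap 𝕜 L c) = j c) ∧ φ C.x = x' ∧ φ C.y = y' := by
  obtain ⟨e, h1, h2⟩ := C.CubA_iso
  obtain ⟨g, hg⟩ := CubA_lift j x' hx
  have h0 : (CubA_p C.f).eval₂ g y' = 0 := by
    rw [eval₂_sub, eval₂_X_pow, eval₂_C, hg, hy, sub_self]
  have h3 : ∀ p : 𝕜[X], (AdjoinRoot.lift g y' h0) (e.symm (aeval C.x p)) = p.eval₂ j x' :=
    fun p => by rw [← h2, e.symm_apply_apply, AdjoinRoot.lift_of, hg]
  refine ⟨(AdjoinRoot.lift g y' h0).comp e.symm.toRingHom, fun c => ?_, ?_, ?_⟩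
  · have := h3 (Polynomial.C c)
    rwa [aeval_C, eval₂_C] at this
  · have := h3 X
    rwa [aeval_X, eval₂_X] at this
  · change AdjoinRoot.lift g y' h0 (e.symm C.y) = y'
    rw [← h1, e.symm_apply_apply, AdjoinRoot.lift_root]

end Cub

end Pool.Agent.Hyp
end

-- merged part: Pool.Agent.Work.MP_60d5ce_nt.Hy.CubB
section
/-!
# The function fields `y ^ ll = f (x)`: automorphisms, norms, charts  (ported from Lt CubB)

* `exists_sa`: `exists_hom` for `θ, e` and for `θ.symm, θ.symm e⁻¹`; `hom_ext` shows that they are inverse.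
* `fix_iff`: `decomp`, apply `s`, `indep`.
* `fixed_mem`: `decomp`, `indep`: `a / d`, `b / d`, `c / d` are fixed.  If `p / q` is fixed with `p, q` coprime and
  `q` monic then `p.map θ * q = p * q.map θ`, so `q ∣ q.map θ`, equal degrees and monic, so `q.map θ = q`.
* `h90s`: `b = m + u * s m + u * s u * s (s m)` is nonzero for one of `m = 1, y, y ^ 2` (the sum of
  `b_m / m` is `ll`).
* `norm_surj`: `exists_rat`, `Smith.H2_cyclic`.
* `chart_mul`: `rootMultiplicity` of `p.comp (C α + C β * X)` at `b` is that of `p` at `α + β * b`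
  (an algebra automorphism of `𝕜[X]`; `Polynomial.algEquivCMulXAddC`, or `le_rootMultiplicity_iff`).
-/

namespace Pool.Agent.Hyp

open Pool.Agent.Ell.AT

open PR0 Polynomial

namespace Cub

variable {𝕜 L : Type} [Field 𝕜] [Field L] [Algebra 𝕜 L] (C : Cub 𝕜 L)

theorem CubB_hom (θ : 𝕜 ≃+* 𝕜) (e : 𝕜)
    (h : C.f.map (θ : 𝕜 →+* 𝕜) = Polynomial.C (e ^ ll) * C.f) :
    ∃ φ : L →+* L, (∀ c, φ (algebraMap 𝕜 L c) = algebraMap 𝕜 L (θ c)) ∧ φ C.x = C.x ∧
      φ C.y = algebraMap 𝕜 L e * C.y := by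
  have h1 : ∀ p : 𝕜[X], p.eval₂ ((algebraMap 𝕜 L).comp (θ : 𝕜 →+* 𝕜)) C.x =
      aeval C.x (p.map (θ : 𝕜 →+* 𝕜)) := fun p => by rw [aeval_def, eval₂_map]
  refine C.exists_hom ((algebraMap 𝕜 L).comp (θ : 𝕜 →+* 𝕜)) C.x _ (fun p hp => ?_) ?_
  · rw [h1]
    exact C.aeval_ne (Polynomial.map_ne_zero hp)
  · rw [h1, h, map_mul, aeval_C, ← C.eq, mul_pow, map_pow]

theorem exists_sa (θ : 𝕜 ≃+* 𝕜) (e : 𝕜) (he : e ≠ 0)
    (h : C.f.map (θ : 𝕜 →+* 𝕜) = Polynomial.C (e ^ ll) * C.f) :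
    ∃ σ : SA 𝕜 L, sc σ = θ ∧ sl σ C.x = C.x ∧ sl σ C.y = algebraMap 𝕜 L e * C.y := by
  have he' : θ.symm e ≠ 0 := (_root_.map_ne_zero _).2 he
  have h' : C.f.map (θ.symm : 𝕜 →+* 𝕜) = Polynomial.C ((θ.symm e)⁻¹ ^ ll) * C.f := by
    have h1 := congrArg (Polynomial.map (θ.symm : 𝕜 →+* 𝕜)) h
    rw [Polynomial.map_map, RingEquiv.symm_comp, Polynomial.map_id, Polynomial.map_mul,
      Polynomial.map_C, map_pow] at h1
    conv_rhs => rw [h1, ← mul_assoc, ← map_mul, ← mul_pow]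
    simp [he]
  obtain ⟨φ, a1, a2, a3⟩ := C.CubB_hom θ e h
  obtain ⟨ψ, b1, b2, b3⟩ := C.CubB_hom θ.symm _ h'
  have e1 : φ.comp ψ = RingHom.id L := C.hom_ext (fun c => by simp [a1, b1]) (by simp [a2, b2]) (by
    rw [RingHom.comp_apply, b3, map_mul, a1, a3, ← mul_assoc, ← map_mul]
    simp [he])
  have e2 : ψ.comp φ = RingHom.id L := C.hom_ext (fun c => by simp [a1, b1]) (by simp [a2, b2]) (by
    rw [RingHom.comp_apply, a3, map_mul, b1, b3, ← mul_assoc, ← map_mul]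
    simp [he])
  exact ⟨⟨(θ, RingEquiv.ofRingHom φ ψ e1 e2), a1⟩, rfl, a2, a3⟩

theorem sa_ext {σ σ' : SA 𝕜 L} (hc : sc σ = sc σ') (hx : sl σ C.x = sl σ' C.x)
    (hy : sl σ C.y = sl σ' C.y) : σ = σ' :=
  sa_eq (RingEquiv.toRingHom_injective (C.hom_ext (fun c => by
    show sl σ _ = sl σ' _
    rw [sl_const, sl_const, hc]) hx hy))

theorem exists_s : ∃ σ : SA 𝕜 L, sc σ = 1 ∧ sl σ C.x = C.x ∧ sl σ C.y = algebraMap 𝕜 L C.ω * C.y :=
  C.exists_sa 1 C.ω (C.hω.ne_zero ll_ne_zero) (by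
    rw [C.hω.pow_eq_one, map_one, one_mul]
    exact Polynomial.map_id)

/-- the generator of the Galois group -/
noncomputable def s : SA 𝕜 L := C.exists_s.choose

theorem s_c : sc C.s = 1 := C.exists_s.choose_spec.1

theorem s_x : sl C.s C.x = C.x := C.exists_s.choose_spec.2.1

theorem s_y : sl C.s C.y = algebraMap 𝕜 L C.ω * C.y := C.exists_s.choose_spec.2.2

theorem s_const (c : 𝕜) : sl C.s (algebraMap 𝕜 L c) = algebraMap 𝕜 L c := by
  rw [sl_const, s_c]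
  rfl

theorem s_pow_x (i : ℕ) : sl (C.s ^ i) C.x = C.x := by
  induction i with
  | zero => rw [pow_zero, phi_one]
  | succ i ih => rw [pow_succ', phi_mul, ih, s_x]

theorem s_pow_y (i : ℕ) : sl (C.s ^ i) C.y = algebraMap 𝕜 L (C.ω ^ i) * C.y := by
  induction i with
  | zero => simp
  | succ i ih => rw [pow_succ', phi_mul, ih, map_mul, s_const, s_y, pow_succ, map_mul, mul_assoc]

theorem s_cube : C.s ^ ll = 1 := by
  refine C.sa_ext ?_ ?_ ?_
  · rw [map_pow, s_c, one_pow, map_one]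
  · rw [s_pow_x, phi_one]
  · rw [s_pow_y, phi_one, C.hω.pow_eq_one, map_one, one_mul]

theorem comm {σ : SA 𝕜 L} {e : 𝕜} (hω : sc σ C.ω = C.ω) (hx : sl σ C.x = C.x)
    (hy : sl σ C.y = algebraMap 𝕜 L e * C.y) : σ * C.s = C.s * σ := by
  refine C.sa_ext ?_ ?_ ?_
  · rw [map_mul, map_mul, s_c, mul_one, one_mul]
  · rw [phi_mul, phi_mul, s_x, hx, s_x]
  · rw [phi_mul, phi_mul, s_y, hy, map_mul, map_mul, sl_const, hω, hy, s_const, s_y, mul_left_comm]

theorem CubB_s_aeval (p : 𝕜[X]) : sl C.s (aeval C.x p) = aeval C.x p := by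
  rw [sl_aeval, s_x, s_c]
  exact congrArg _ Polynomial.map_id

theorem fix_iff {u : L} : sl C.s u = u ↔ C.Base u := by
  constructor
  · intro h
    obtain ⟨a, d, hd, e⟩ := C.decomp u
    have e' := congrArg (sl C.s) e
    simp only [map_mul, map_sum, map_pow, CubB_s_aeval, h, s_y] at e'
    have h1 := C.indep (a := fun i => a i * Polynomial.C (C.ω ^ (i : ℕ) - 1)) (by
      rw [← sub_self (u * aeval C.x d)]
      nth_rw 1 [e']
      rw [e, ← Finset.sum_sub_distrib]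
      refine Finset.sum_congr rfl fun i _ => ?_
      simp only [map_mul, aeval_C, map_sub, map_pow, map_one]
      ring)
    rw [Finset.sum_eq_single 0 (fun i _ hi => by
      rw [(mul_eq_zero.1 (congrFun h1 i)).resolve_right (Polynomial.C_ne_zero.2 (sub_ne_zero.2
        (C.hω.pow_ne_one_of_pos_of_lt (fun h0 => hi (Fin.ext h0)) i.2))), map_zero, zero_mul])
      fun h0 => absurd (Finset.mem_univ _) h0] at e
    exact ⟨a 0, d, hd, eq_div_of_mul_eq (C.aeval_ne hd) (by simpa using e)⟩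
  · rintro ⟨a, d, -, rfl⟩
    rw [map_div₀, CubB_s_aeval, CubB_s_aeval]

theorem map_f {σ : SA 𝕜 L} {i : ℕ} (hx : sl σ C.x = C.x)
    (hy : sl σ C.y = algebraMap 𝕜 L (C.ω ^ i) * C.y) : C.f.map (sc σ : 𝕜 →+* 𝕜) = C.f := by
  refine C.aeval_inj ?_
  have h := congrArg (sl σ) C.eq
  rw [sl_aeval, hx, map_pow, hy, mul_pow, ← map_pow, ← pow_mul, mul_comm i, pow_mul,
    C.hω.pow_eq_one, one_pow, map_one, one_mul] at h
  rw [← h, C.eq]

theorem base_fin (u : L) : ∃ S : Finset 𝕜, ∀ σ : SA 𝕜 L, sl σ C.x = C.x → sl σ C.y = C.y →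
    (∀ a ∈ S, sc σ a = a) → sl σ u = u := by
  classical
  obtain ⟨a, d, hd, e⟩ := C.decomp u
  refine ⟨d.coeffs ∪ Finset.univ.biUnion fun i => (a i).coeffs, fun σ hx hy h => ?_⟩
  have key : ∀ p : 𝕜[X], p.coeffs ⊆ d.coeffs ∪ Finset.univ.biUnion (fun i => (a i).coeffs) →
      sl σ (aeval C.x p) = aeval C.x p := fun p hp => by
    rw [sl_aeval, hx]
    refine congrArg _ (Polynomial.ext fun n => ?_)
    rw [coeff_map]
    by_cases h0 : p.coeff n = 0
    · simp [h0]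
    · exact h _ (hp (coeff_mem_coeffs h0))
  have h1 := fun i => key (a i) fun c hc =>
    Finset.mem_union_right _ (Finset.mem_biUnion.2 ⟨i, Finset.mem_univ _, hc⟩)
  have e' := congrArg (sl σ) e
  simp only [map_mul, map_sum, map_pow, hy, h1, key d Finset.subset_union_left] at e'
  exact mul_right_cancel₀ (C.aeval_ne hd) (e'.trans e.symm)

theorem base_ind [IsAlgClosed 𝕜] {p : L → Prop} (hc : ∀ c : 𝕜, c ≠ 0 → p (algebraMap 𝕜 L c))
    (hx : ∀ a : 𝕜, p (C.x - algebraMap 𝕜 L a))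
    (hm : ∀ u v, C.Base u → C.Base v → u ≠ 0 → v ≠ 0 → p u → p v → p (u * v))
    (hi : ∀ u, C.Base u → u ≠ 0 → p u → p u⁻¹) {u : L} (hu : C.Base u) (h0 : u ≠ 0) : p u := by
  have hb : ∀ a : 𝕜[X], C.Base (aeval C.x a) := fun a => ⟨a, 1, one_ne_zero, by simp⟩
  have key : ∀ (m : Multiset 𝕜) (c : 𝕜), c ≠ 0 →
      p (aeval C.x (Polynomial.C c * (m.map fun a => X - Polynomial.C a).prod)) := by
    intro m c hc0
    induction m using Multiset.induction_on with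
    | empty => simpa using hc c hc0
    | cons a m ih =>
      rw [Multiset.map_cons, Multiset.prod_cons, mul_left_comm, map_mul]
      refine hm _ _ (hb _) (hb _) (C.aeval_ne (X_sub_C_ne_zero a)) (C.aeval_ne (mul_ne_zero
        (Polynomial.C_ne_zero.2 hc0) (monic_multisetProd_X_sub_C m).ne_zero)) ?_ ih
      simpa using hx a
  have hp : ∀ a : 𝕜[X], a ≠ 0 → p (aeval C.x a) := fun a ha => by
    rw [(IsAlgClosed.splits a).eq_prod_roots]
    exact key _ _ (leadingCoeff_ne_zero.2 ha)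
  obtain ⟨a, d, hd, rfl⟩ := hu
  have ha : a ≠ 0 := fun h => h0 (by simp [h])
  rw [div_eq_mul_inv]
  exact hm _ _ (hb a) ⟨1, d, hd, by simp⟩ (C.aeval_ne ha) (inv_ne_zero (C.aeval_ne hd)) (hp a ha)
    (hi _ (hb d) (C.aeval_ne hd) (hp d hd))

section act

variable {G : Type} [Group G] (Ψ : G →* (𝕜 ≃+* 𝕜)) (hf : ∀ g, C.f.map (Ψ g : 𝕜 →+* 𝕜) = C.f)

include hf in
theorem exists_act (g : G) : ∃ σ : SA 𝕜 L, sc σ = Ψ g ∧ sl σ C.x = C.x ∧ sl σ C.y = C.y := by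
  simpa using C.exists_sa (Ψ g) 1 one_ne_zero (by simpa using hf g)

/-- the action on the coefficients -/
noncomputable def act : G →* SA 𝕜 L :=
  MonoidHom.mk' (fun g => (C.exists_act Ψ hf g).choose) fun g h => by
    obtain ⟨a1, a2, a3⟩ := (C.exists_act Ψ hf g).choose_spec
    obtain ⟨b1, b2, b3⟩ := (C.exists_act Ψ hf h).choose_spec
    obtain ⟨c1, c2, c3⟩ := (C.exists_act Ψ hf (g * h)).choose_spec
    refine C.sa_ext ?_ ?_ ?_
    · rw [c1, map_mul, map_mul, a1, b1]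
    · rw [c2, phi_mul, b2, a2]
    · rw [c3, phi_mul, b3, a3]

theorem act_c (g : G) : sc (C.act Ψ hf g) = Ψ g := (C.exists_act Ψ hf g).choose_spec.1

theorem act_x (g : G) : sl (C.act Ψ hf g) C.x = C.x := (C.exists_act Ψ hf g).choose_spec.2.1

theorem act_y (g : G) : sl (C.act Ψ hf g) C.y = C.y := (C.exists_act Ψ hf g).choose_spec.2.2

theorem act_fx (S : Finset L) : ∃ S' : Finset 𝕜, Fx Ψ S' ≤ Fx (sl.comp (C.act Ψ hf)) S := by
  classical
  choose T hT using C.base_fin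
  refine ⟨S.biUnion T, fun g hg u hu => hT u _ (C.act_x Ψ hf g) (C.act_y Ψ hf g) fun a ha => ?_⟩
  rw [act_c]
  exact hg a (Finset.mem_biUnion.2 ⟨u, hu, ha⟩)

theorem act_finOrb (h : FinOrb Ψ) : FinOrb (sl.comp (C.act Ψ hf)) := by
  intro u
  obtain ⟨S, hS⟩ := C.act_fx Ψ hf {u}
  refine Smo.finite h ⟨S, fun g v hv => ?_⟩
  beta_reduce
  rw [phi_mul, hS hv u (Finset.mem_singleton_self u)]

theorem CubB_red (p : 𝕜[X]) {d : 𝕜[X]} (hd : d ≠ 0) :
    ∃ p' d' : 𝕜[X], d'.Monic ∧ IsCoprime p' d' ∧ p * d' = p' * d := by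
  let r : RatFunc 𝕜 := algebraMap _ _ p / algebraMap _ _ d
  refine ⟨r.num, r.denom, r.monic_denom, r.isCoprime_num_denom, ?_⟩
  exact ((RatFunc.num_mul_eq_mul_denom_iff hd).2 rfl).symm

theorem CubB_fix (θ : 𝕜 →+* 𝕜) {p d p' d' : 𝕜[X]} (hd : d ≠ 0) (hm : d'.Monic)
    (hc : IsCoprime p' d') (e : p * d' = p' * d) (h : p * d.map θ = d * p.map θ) :
    p'.map θ = p' ∧ d'.map θ = d' := by
  have e' := congrArg (Polynomial.map θ) e
  rw [Polynomial.map_mul, Polynomial.map_mul] at e'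
  have h1 : p' * d'.map θ = d' * p'.map θ :=
    mul_left_cancel₀ (mul_ne_zero hd (Polynomial.map_ne_zero (f := θ) hd)) (by
      linear_combination d' * d'.map θ * h + d * d' * e' - d.map θ * d'.map θ * e)
  have h2 : d'.map θ = d' := eq_of_monic_of_dvd_of_natDegree_le hm (hm.map θ)
    (hc.symm.dvd_of_dvd_mul_left ⟨_, h1⟩) (natDegree_map θ).le
  rw [h2, mul_comm] at h1
  exact ⟨(mul_left_cancel₀ hm.ne_zero h1).symm, h2⟩

theorem fixed_mem {u : L} (h : ∀ g, sl (C.act Ψ hf g) u = u) :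
    u ∈ Subfield.closure (algebraMap 𝕜 L '' {c | ∀ g, Ψ g c = c} ∪ {C.x, C.y}) := by
  set K := Subfield.closure (algebraMap 𝕜 L '' {c | ∀ g, Ψ g c = c} ∪ {C.x, C.y})
  have hx : C.x ∈ K := Subfield.subset_closure (Or.inr (Or.inl rfl))
  have hy : C.y ∈ K := Subfield.subset_closure (Or.inr (Or.inr rfl))
  have h1 : ∀ q : 𝕜[X], (∀ g, q.map (Ψ g : 𝕜 →+* 𝕜) = q) → aeval C.x q ∈ K := fun q hq => by
    rw [aeval_eq_sum_range]
    refine sum_mem fun i _ => ?_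
    rw [Algebra.smul_def]
    refine mul_mem (Subfield.subset_closure (Or.inl ⟨_, fun g => ?_, rfl⟩)) (pow_mem hx _)
    have := congrArg (fun r => r.coeff i) (hq g)
    simpa using this
  obtain ⟨a, d, hd, e⟩ := C.decomp u
  have hd' := C.aeval_ne hd
  have h2 : ∀ p : 𝕜[X], (∀ g, p * d.map (Ψ g : 𝕜 →+* 𝕜) - d * p.map (Ψ g : 𝕜 →+* 𝕜) = 0) →
      aeval C.x p / aeval C.x d ∈ K := fun p hp => by
    obtain ⟨p', d', hm, e1, e2⟩ := CubB_red p hd
    have h3 := fun g => CubB_fix (Ψ g : 𝕜 →+* 𝕜) hd hm e1 e2 (sub_eq_zero.1 (hp g))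
    rw [(div_eq_div_iff hd' (C.aeval_ne hm.ne_zero)).2 (by rw [← map_mul, e2, map_mul])]
    exact div_mem (h1 _ fun g => (h3 g).1) (h1 _ fun g => (h3 g).2)
  have h3 := fun g => C.indep
    (a := fun i => a i * d.map (Ψ g : 𝕜 →+* 𝕜) - d * (a i).map (Ψ g : 𝕜 →+* 𝕜)) (by
      have e' := congrArg (sl (C.act Ψ hf g)) e
      simp only [map_mul, map_sum, map_pow, sl_aeval, h, act_x, act_y, act_c] at e'
      simp only [map_mul, map_sub, sub_mul, Finset.sum_sub_distrib, mul_assoc (aeval C.x d),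
        mul_right_comm _ (aeval C.x (d.map (Ψ g : 𝕜 →+* 𝕜))), ← Finset.mul_sum, ← Finset.sum_mul]
      rw [← e, ← e']
      ring)
  rw [eq_div_of_mul_eq hd' e, Finset.sum_div]
  refine sum_mem fun i _ => ?_
  rw [mul_div_right_comm]
  exact mul_mem (h2 _ fun g => congrFun (h3 g) i) (pow_mem hy _)

end act

/-- the norm to the rational subfield -/
noncomputable def nm (u : L) : L := ∏ i ∈ Finset.range ll, sl (C.s ^ i) u

theorem sss (u : L) : sl (C.s ^ ll) u = u := by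
  rw [s_cube, phi_one]

theorem CubB_shift {M : Type} [CommMonoid M] (f : ℕ → M) {n : ℕ} (h : f n = f 0) :
    ∏ i ∈ Finset.range n, f (i + 1) = ∏ i ∈ Finset.range n, f i := by
  cases n with
  | zero => rfl
  | succ n => rw [Finset.prod_range_succ, h, Finset.prod_range_succ' f]

theorem CubB_shift_add {M : Type} [AddCommMonoid M] (f : ℕ → M) {n : ℕ} (h : f n = f 0) :
    ∑ i ∈ Finset.range n, f (i + 1) = ∑ i ∈ Finset.range n, f i := by
  cases n with
  | zero => rfl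
  | succ n => rw [Finset.sum_range_succ, h, Finset.sum_range_succ' f]

theorem nm_base (u : L) : C.Base (C.nm u) := by
  refine C.fix_iff.1 ?_
  simp only [nm, map_prod, ← phi_mul, ← pow_succ']
  exact CubB_shift (fun i => sl (C.s ^ i) u) (by rw [sss, pow_zero, phi_one])

theorem nm_mul (u v : L) : C.nm (u * v) = C.nm u * C.nm v := by
  simp only [nm, map_mul, Finset.prod_mul_distrib]

theorem nm_ne {u : L} (h : u ≠ 0) : C.nm u ≠ 0 := by
  exact Finset.prod_ne_zero_iff.2 fun i _ => (_root_.map_ne_zero _).2 h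

theorem h90s {u : L} (h : C.nm u = 1) : ∃ b : L, b ≠ 0 ∧ u * sl C.s b = b := by
  have key : ∀ m : L, u * sl C.s (∑ i ∈ Finset.range ll,
      (∏ j ∈ Finset.range i, sl (C.s ^ j) u) * sl (C.s ^ i) m) = ∑ i ∈ Finset.range ll,
      (∏ j ∈ Finset.range i, sl (C.s ^ j) u) * sl (C.s ^ i) m := fun m => by
    refine Eq.trans ?_ (CubB_shift_add
      (fun i => (∏ j ∈ Finset.range i, sl (C.s ^ j) u) * sl (C.s ^ i) m)
      (by rw [← nm, h, sss, Finset.prod_range_zero, pow_zero, phi_one]))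
    rw [map_sum, Finset.mul_sum]
    refine Finset.sum_congr rfl fun i _ => ?_
    rw [Finset.prod_range_succ', pow_zero, phi_one, map_mul (sl C.s), map_prod]
    simp only [pow_succ', phi_mul]
    ring
  by_contra hn
  push Not at hn
  have h0 := fun m => of_not_not fun h0 => hn _ h0 (key m)
  have h1 : ∀ k ∈ Finset.range ll, ∑ i ∈ Finset.range ll, (∏ j ∈ Finset.range i, sl (C.s ^ j) u) *
      algebraMap 𝕜 L ((C.ω ^ i) ^ k) = 0 := fun k _ => by
    have h2 := h0 (C.y ^ k)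
    simp only [map_pow (sl _) C.y, s_pow_y, mul_pow, ← mul_assoc, ← Finset.sum_mul] at h2
    simpa only [map_pow] using (mul_eq_zero.1 h2).resolve_right (pow_ne_zero k C.y_ne)
  have h2 := Finset.sum_eq_zero h1
  rw [Finset.sum_comm, Finset.sum_eq_single 0 (fun i hi hi0 => by
    have h3 := geom_sum_mul (C.ω ^ i) ll
    rw [← pow_mul, mul_comm i, pow_mul, C.hω.pow_eq_one, one_pow, sub_self] at h3
    rw [← Finset.mul_sum, ← map_sum, (mul_eq_zero.1 h3).resolve_right (sub_ne_zero.2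
      (C.hω.pow_ne_one_of_pos_of_lt hi0 (Finset.mem_range.1 hi))), map_zero, mul_zero])
    fun h3 => absurd (Finset.mem_range.2 ll_pos) h3] at h2
  refine (_root_.map_ne_zero (algebraMap 𝕜 L)).2 C.three_ne ?_
  rw [map_natCast]
  simpa using h2

section chart

variable (α : 𝕜) {β γ : 𝕜} (hβ : β ≠ 0) (hγ : γ ≠ 0)

/-- the polynomial in a chart -/
noncomputable def chf (α β γ : 𝕜) : 𝕜[X] :=
  Polynomial.C (γ⁻¹ ^ ll) * C.f.comp (Polynomial.C α + Polynomial.C β * X)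

include hβ in
theorem CubB_x : algebraMap 𝕜 L α + algebraMap 𝕜 L β *
    ((C.x - algebraMap 𝕜 L α) / algebraMap 𝕜 L β) = C.x := by
  rw [mul_div_cancel₀ _ ((_root_.map_ne_zero _).2 hβ), add_sub_cancel]

include hβ in
theorem chart_tr : Transcendental 𝕜 ((C.x - algebraMap 𝕜 L α) / algebraMap 𝕜 L β) := by
  intro h
  refine C.tr ?_
  rw [← C.CubB_x α hβ]
  exact (isAlgebraic_algebraMap α).add ((isAlgebraic_algebraMap β).mul h)

include hβ in
theorem chart_eq (γ : 𝕜) : (C.y / algebraMap 𝕜 L γ) ^ ll =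
    aeval ((C.x - algebraMap 𝕜 L α) / algebraMap 𝕜 L β) (C.chf α β γ) := by
  rw [chf, map_mul, aeval_comp, map_add, map_mul, aeval_C, aeval_C, aeval_C, aeval_X,
    C.CubB_x α hβ, ← C.eq, map_pow, map_inv₀, ← mul_pow, div_eq_inv_mul]

include hβ hγ in
theorem chart_gen : IntermediateField.adjoin 𝕜
    {(C.x - algebraMap 𝕜 L α) / algebraMap 𝕜 L β, C.y / algebraMap 𝕜 L γ} = ⊤ := by
  refine top_le_iff.1 (C.gen ▸ IntermediateField.adjoin_le_iff.2 ?_)
  rintro _ (rfl | rfl)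
  · have := add_mem (IntermediateField.algebraMap_mem _ α) (mul_mem
      (IntermediateField.algebraMap_mem _ β) (IntermediateField.subset_adjoin 𝕜
        {(C.x - algebraMap 𝕜 L α) / algebraMap 𝕜 L β, C.y / algebraMap 𝕜 L γ} (Or.inl rfl)))
    rwa [C.CubB_x α hβ] at this
  · have := mul_mem (IntermediateField.algebraMap_mem _ γ) (IntermediateField.subset_adjoin 𝕜
      {(C.x - algebraMap 𝕜 L α) / algebraMap 𝕜 L β, C.y / algebraMap 𝕜 L γ} (Or.inr rfl))
    rwa [mul_div_cancel₀ _ ((_root_.map_ne_zero _).2 hγ)] at this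

include hβ hγ in
theorem chart_deg : (C.chf α β γ).natDegree = C.f.natDegree := by
  rw [chf, natDegree_C_mul (pow_ne_zero _ (inv_ne_zero hγ)), natDegree_comp, add_comm,
    natDegree_linear hβ, mul_one]

/-- the same curve in the coordinates `(x - α) / β`, `y / γ` -/
noncomputable def chart : Cub 𝕜 L where
  x := (C.x - algebraMap 𝕜 L α) / algebraMap 𝕜 L β
  y := C.y / algebraMap 𝕜 L γ
  f := C.chf α β γ
  ω := C.ω
  hω := C.hω
  tr := C.chart_tr α hβ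
  eq := C.chart_eq α hβ γ
  gen := C.chart_gen α hβ hγ
  deg := by
    rw [C.chart_deg α hβ hγ]
    exact C.deg

theorem chart_s : (C.chart α hβ hγ).s = C.s := by
  refine (C.chart α hβ hγ).sa_ext ?_ ?_ ?_
  · rw [s_c, s_c]
  · rw [s_x]
    simp only [chart, map_div₀, map_sub, s_x, s_const]
  · rw [s_y]
    simp only [chart, map_div₀, s_y, s_const, mul_div_assoc]

end chart

end Cub

end Pool.Agent.Hyp
end

-- merged part: Pool.Agent.Work.MP_60d5ce_nt.Hy.CubP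
section
/-!
# The places of `y ^ ll = f (x)`  (ported from Lt CubP)

* `pr_surj`: `exists_place_val` for `x`, and for `x⁻¹` with value `0`.
* `base_mem`: for `pr P = pr Q` the orders of `x - a` at `P` and `Q` have the same sign for all `a`; a base
  element is `z ^ n * unit` at both places with `z = x - b` or `x⁻¹` (`base_ind`, or factor out the root
  multiplicity).
* `pr_eq_iff`: if `Q` is not in the orbit of `P`, `weak_approx` gives `u` with value `1` on the orbit of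
  `Q` and positive order at `P`, and regular on the orbit of `P` (the two orbits are disjoint); `nm u` is a base element
  with value `1` at `Q` and `0` at `P`, against `base_mem` for its inverse.
* `ord_sub`: `dg_dvInf` for `z = (x - a)⁻¹` or `z = x` (`𝕜⟮z⟯ = 𝕜⟮x⟯`, `finrank_eq`): the orders over the fibre add up to ll,
  they are equal along the orbit (`ord_smul`), the orbit has one or `ll` elements (`s_cube`).
* `ram_iff`: if `P` is not fixed then `ord (x - b) = 1`, and `ll * ord y = mult`, or `= -deg f`; so `mult = 0`.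
  If `f b ≠ 0` then `val y ≠ 0` and `val_smul` shows that `s • P = P` gives `ω * val y = val y`.
-/

namespace Pool.Agent.Hyp

open Pool.Agent.Ell.AT

open PR0 Polynomial
open scoped Classical

namespace Cub

variable {𝕜 L : Type} [Field 𝕜] [Field L] [Algebra 𝕜 L] (C : Cub 𝕜 L)

/-- the point of the line below a place -/
noncomputable def pr (P : Place 𝕜 L) : Option 𝕜 := if C.x ∈ P.1 then some (P.val C.x) else none

/-- ramified places -/
def Ram (P : Place 𝕜 L) : Prop := C.s • P = P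

/-- odd multiplicity -/
def Sim (b : 𝕜) : Prop := ¬ ll ∣ C.f.rootMultiplicity b

/-- the ramification index -/
noncomputable def ex (P : Place 𝕜 L) : ℤ := if C.Ram P then ll else 1

/-- a uniformiser of the line at a point -/
noncomputable def CubP_lp (z : Option 𝕜) : L := z.elim C.x⁻¹ fun b => C.x - algebraMap 𝕜 L b

theorem CubP_lp_none : C.CubP_lp none = C.x⁻¹ := rfl

theorem CubP_lp_some (b : 𝕜) : C.CubP_lp (some b) = C.x - algebraMap 𝕜 L b := rfl

theorem CubP_x_ne : C.x ≠ 0 := by simpa using C.x_sub_ne 0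

theorem CubP_lp_ne (z : Option 𝕜) : C.CubP_lp z ≠ 0 := by
  cases z with
  | none => exact inv_ne_zero C.CubP_x_ne
  | some b => exact C.x_sub_ne b

theorem CubP_lp_s (z : Option 𝕜) : sl C.s (C.CubP_lp z) = C.CubP_lp z := by
  cases z with
  | none => rw [CubP_lp_none, map_inv₀, s_x]
  | some b => rw [CubP_lp_some, map_sub, s_x, s_const]

theorem CubP_lp_adj (z : Option 𝕜) :
    IntermediateField.adjoin 𝕜 {(C.CubP_lp z)⁻¹} = IntermediateField.adjoin 𝕜 {C.x} := by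
  cases z with
  | none => rw [CubP_lp_none, inv_inv]
  | some b =>
    rw [CubP_lp_some]
    apply le_antisymm
    · rw [IntermediateField.adjoin_simple_le_iff]
      exact inv_mem (sub_mem (IntermediateField.mem_adjoin_simple_self _ _)
        (IntermediateField.algebraMap_mem _ _))
    · rw [IntermediateField.adjoin_simple_le_iff]
      have h1 := inv_mem (IntermediateField.mem_adjoin_simple_self 𝕜 (C.x - algebraMap 𝕜 L b)⁻¹)
      rw [inv_inv] at h1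
      have h2 := add_mem h1 (IntermediateField.algebraMap_mem _ b)
      rwa [sub_add_cancel] at h2

theorem CubP_some {P : Place 𝕜 L} {b : 𝕜} : C.pr P = some b ↔ C.x ∈ P.1 ∧ P.val C.x = b := by
  unfold pr
  by_cases h : C.x ∈ P.1 <;> simp [h]

theorem CubP_none {P : Place 𝕜 L} : C.pr P = none ↔ C.x ∉ P.1 := by
  unfold pr
  by_cases h : C.x ∈ P.1 <;> simp [h]

theorem CubP_sss (P : Place 𝕜 L) : C.s ^ ll • P = P := by
  rw [s_cube, one_smul]

theorem CubP_ex_pos (P : Place 𝕜 L) : 0 < C.ex P := by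
  unfold ex
  split_ifs
  exacts [ll_posZ, one_pos]

theorem CubP_ex_ram {P : Place 𝕜 L} (h : C.Ram P) : C.ex P = ll := if_pos h

theorem CubP_ex_not {P : Place 𝕜 L} (h : ¬ C.Ram P) : C.ex P = 1 := if_neg h

theorem CubP_ram_s {P : Place 𝕜 L} : C.Ram (C.s • P) ↔ C.Ram P := smul_left_cancel_iff C.s

theorem CubP_ex_s (P : Place 𝕜 L) : C.ex (C.s • P) = C.ex P := by
  unfold ex
  rw [CubP_ram_s]

theorem CubP_ind {β : Type} (g : Place 𝕜 L → β) (hg : ∀ P, g (C.s • P) = g P) (P : Place 𝕜 L)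
    (i : ℕ) : g (C.s ^ i • P) = g P := by
  induction i with
  | zero => rw [pow_zero, one_smul]
  | succ i ih => rw [pow_succ', mul_smul, hg, ih]

theorem CubP_pow_ram {P : Place 𝕜 L} (h : C.Ram P) (i : ℕ) : C.s ^ i • P = P :=
  pow_mem (MulAction.mem_stabilizer_iff.2 h) i

theorem CubP_mod (P : Place 𝕜 L) (i : ℕ) : ∃ j < ll, C.s ^ i • P = C.s ^ j • P :=
  ⟨i % ll, Nat.mod_lt _ ll_pos, by rw [← pow_eq_pow_mod _ C.s_cube]⟩

theorem CubP_back (P : Place 𝕜 L) {i : ℕ} (hi : i ≤ ll) : C.s ^ (ll - i) • C.s ^ i • P = P := by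
  rw [← mul_smul, ← pow_add, Nat.sub_add_cancel hi, CubP_sss]

theorem CubP_ss_ne {P : Place 𝕜 L} (h : ¬ C.Ram P) {i : ℕ} (hi : ¬ ll ∣ i) : C.s ^ i • P ≠ P := by
  intro h'
  obtain ⟨m, -, hm⟩ := Nat.exists_mul_mod_eq_one_of_coprime
    (ll_prime.coprime_iff_not_dvd.2 hi).symm ll_one_lt
  have h1 : (C.s ^ i) ^ m • P = P := pow_mem (MulAction.mem_stabilizer_iff.2 h') m
  rw [← pow_mul, pow_eq_pow_mod _ C.s_cube, hm, pow_one] at h1
  exact h h1

theorem CubP_inj {P : Place 𝕜 L} (h : ¬ C.Ram P) {i j : ℕ} (hi : i < ll) (hj : j < ll)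
    (e : C.s ^ i • P = C.s ^ j • P) : i = j := by
  wlog hij : i ≤ j generalizing i j
  · exact (this hj hi e.symm (by omega)).symm
  obtain ⟨k, rfl⟩ := Nat.exists_eq_add_of_le hij
  rw [pow_add, mul_smul, smul_left_cancel_iff] at e
  have h1 : ll ∣ k := by_contra fun h1 => C.CubP_ss_ne h h1 e.symm
  rw [Nat.eq_zero_of_dvd_of_lt h1 (by omega), add_zero]

variable [IsAlgClosed 𝕜] [Fact (IsFF 𝕜 L)] {P Q : Place 𝕜 L} {b : 𝕜}

theorem CubP_lp_tr (z : Option 𝕜) : Transcendental 𝕜 (C.CubP_lp z)⁻¹ := by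
  cases z with
  | none => rw [CubP_lp_none, inv_inv]; exact C.tr
  | some b =>
    apply rr_tr_inv
    rw [CubP_lp_some, PR0.transcendental_iff]
    rintro ⟨c, hc⟩
    apply C.x_sub_ne (c + b)
    rw [map_add, hc]
    ring

theorem CubP_one (P : Place 𝕜 L) : P.ord (1 : L) = 0 := by
  simpa using P.ord_const (c := (1 : 𝕜)) one_ne_zero

theorem CubP_mem {u : L} (hu : u ≠ 0) : u ∈ P.1 ↔ 0 ≤ P.ord u := by
  rw [Place.mem_iff, Place.Ge, or_iff_right hu]

theorem CubP_unit {u : L} (hu : u ∈ P.1) (h : P.val u ≠ 0) : u ≠ 0 ∧ P.ord u = 0 := by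
  have h0 : u ≠ 0 := by
    rintro rfl
    exact h ((Place.val_eq_zero hu).2 (Or.inl rfl))
  refine ⟨h0, ?_⟩
  have h1 := (CubP_mem h0).1 hu
  have h2 : ¬ 1 ≤ P.ord u := fun h2 => h ((Place.val_eq_zero hu).2 (Or.inr h2))
  omega

theorem CubP_val_pow {u : L} (hu : u ∈ P.1) (n : ℕ) : P.val (u ^ n) = P.val u ^ n := by
  induction n with
  | zero => simpa using Place.val_const (P := P) (1 : 𝕜)
  | succ n ih => rw [pow_succ, pow_succ, Place.val_mul (pow_mem hu n) hu, ih]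

theorem CubP_lp_pos {z : Option 𝕜} : C.pr P = z ↔ 1 ≤ P.ord (C.CubP_lp z) := by
  cases z with
  | none =>
    rw [CubP_none, CubP_lp_none, P.ord_inv C.CubP_x_ne, CubP_mem C.CubP_x_ne]
    omega
  | some b =>
    rw [CubP_some, CubP_lp_some]
    constructor
    · rintro ⟨h, rfl⟩
      exact (Place.ge_sub_val h).resolve_left (C.x_sub_ne _)
    · intro h
      refine ⟨?_, Place.val_eq (Or.inr h)⟩
      have h1 : C.x - algebraMap 𝕜 L b ∈ P.1 := (CubP_mem (C.x_sub_ne b)).2 (by omega)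
      have h2 := add_mem h1 (P.2.2 b)
      rwa [sub_add_cancel] at h2

theorem CubP_sub_inf (h : C.pr P = none) (a : 𝕜) :
    P.ord (C.x - algebraMap 𝕜 L a) = -P.ord (C.CubP_lp none) := by
  have h1 := C.CubP_lp_pos.1 h
  rw [CubP_lp_none, P.ord_inv C.CubP_x_ne] at h1 ⊢
  have h2 : P.Ge (-algebraMap 𝕜 L a) (P.ord C.x + 1) :=
    (P.mem_iff.1 (neg_mem (P.2.2 a))).mono (by omega)
  rw [neg_neg, sub_eq_add_neg]
  exact (Place.ord_add_of_lt C.CubP_x_ne h2).2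

theorem CubP_sub_ne (h : C.pr P = some b) {a : 𝕜} (ha : b ≠ a) :
    P.ord (C.x - algebraMap 𝕜 L a) = 0 := by
  have h1 : C.x - algebraMap 𝕜 L a ∈ P.1 := sub_mem (C.CubP_some.1 h).1 (P.2.2 a)
  have h2 := (CubP_mem (C.x_sub_ne a)).1 h1
  have h3 : ¬ 1 ≤ P.ord (C.x - algebraMap 𝕜 L a) := fun h3 => by
    have := (C.CubP_lp_pos (z := some a)).2 h3
    rw [h, Option.some_inj] at this
    exact ha this
  omega

theorem CubP_ord_base (z : Option 𝕜) {u : L} (hu : C.Base u) (h0 : u ≠ 0) :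
    ∃ n : ℤ, ∀ P : Place 𝕜 L, C.pr P = z → P.ord u = n * P.ord (C.CubP_lp z) := by
  refine C.base_ind (p := fun u => ∃ n : ℤ, ∀ P : Place 𝕜 L, C.pr P = z →
    P.ord u = n * P.ord (C.CubP_lp z)) ?_ ?_ ?_ ?_ hu h0
  · intro c hc
    exact ⟨0, fun P _ => by rw [P.ord_const hc, zero_mul]⟩
  · intro a
    cases z with
    | none => exact ⟨-1, fun P h => by rw [C.CubP_sub_inf h]; ring⟩
    | some b =>
      by_cases hb : b = a
      · subst hb
        exact ⟨1, fun P _ => by rw [one_mul, CubP_lp_some]⟩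
      · exact ⟨0, fun P h => by rw [C.CubP_sub_ne h hb, zero_mul]⟩
  · rintro u v - - hu hv ⟨n, hn⟩ ⟨m, hm⟩
    exact ⟨n + m, fun P h => by rw [P.ord_mul hu hv, hn P h, hm P h]; ring⟩
  · rintro u - hu ⟨n, hn⟩
    exact ⟨-n, fun P h => by rw [P.ord_inv hu, hn P h]; ring⟩

theorem CubP_ord_fprod (P : Place 𝕜 L) (T : Finset ℕ) {a : ℕ → L} (ha : ∀ i, a i ≠ 0) :
    P.ord (∏ i ∈ T, a i) = ∑ i ∈ T, P.ord (a i) := by
  induction T using Finset.induction_on with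
  | empty => simpa using CubP_one P
  | insert i T hi ih =>
    rw [Finset.prod_insert hi, Finset.sum_insert hi,
      P.ord_mul (ha i) (Finset.prod_ne_zero_iff.2 fun c _ => ha c), ih]

theorem CubP_ord_nm (P : Place 𝕜 L) {u : L} (hu : u ≠ 0) :
    P.ord (C.nm u) = ∑ i ∈ Finset.range ll, (C.s ^ i • P).ord u := by
  have h1 := Finset.sum_range_succ' (fun i => (C.s ^ i • P).ord u) ll
  rw [Finset.sum_range_succ, CubP_sss, pow_zero, one_smul, add_left_inj] at h1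
  rw [nm, CubP_ord_fprod P _ fun i => (_root_.map_ne_zero _).2 hu, h1, ← Finset.sum_range_reflect]
  refine Finset.sum_congr rfl fun i hi => ?_
  have h2 := Finset.mem_range.1 hi
  have h3 := ord_smul (C.s ^ (ll - (i + 1))) (C.s ^ (i + 1) • P) hu
  rwa [C.CubP_back P h2, Nat.sub_add_eq, Nat.sub_right_comm] at h3

theorem CubP_lp_ord_s (P : Place 𝕜 L) (z : Option 𝕜) :
    (C.s • P).ord (C.CubP_lp z) = P.ord (C.CubP_lp z) := by
  have := ord_smul C.s P (C.CubP_lp_ne z)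
  rwa [CubP_lp_s] at this

theorem pr_smul {σ : SA 𝕜 L} (hx : sl σ C.x = C.x) (P : Place 𝕜 L) :
    C.pr (σ • P) = (C.pr P).map (sc σ) := by
  have h1 : C.x ∈ (σ • P).1 ↔ C.x ∈ P.1 := by
    conv_lhs => rw [← hx]
    exact sl_mem
  unfold pr
  by_cases h : C.x ∈ P.1
  · rw [if_pos h, if_pos (h1.2 h), Option.map_some, ← val_smul σ P h, hx]
  · rw [if_neg h, if_neg (fun h' => h (h1.1 h')), Option.map_none]

theorem pr_s (P : Place 𝕜 L) : C.pr (C.s • P) = C.pr P := by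
  rw [C.pr_smul C.s_x, s_c]
  cases C.pr P <;> rfl

theorem pr_surj (z : Option 𝕜) : ∃ P, C.pr P = z := by
  cases z with
  | none =>
    obtain ⟨P, h1, h2⟩ := exists_place_val (rr_tr_inv C.tr) (0 : 𝕜)
    exact ⟨P, C.CubP_lp_pos.2 (((Place.val_eq_zero h1).1 h2).resolve_left (C.CubP_lp_ne none))⟩
  | some a =>
    obtain ⟨P, h⟩ := exists_place_val C.tr a
    exact ⟨P, C.CubP_some.2 h⟩

theorem val_aeval (h : C.pr P = some b) (p : 𝕜[X]) :
    aeval C.x p ∈ P.1 ∧ P.val (aeval C.x p) = p.eval b := by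
  obtain ⟨h1, h2⟩ := C.CubP_some.1 h
  induction p using Polynomial.induction_on with
  | C a => simpa using ⟨P.2.2 a, Place.val_const a⟩
  | add p q hp hq =>
    rw [map_add, eval_add, Place.val_add hp.1 hq.1, hp.2, hq.2]
    exact ⟨add_mem hp.1 hq.1, rfl⟩
  | monomial n a ih =>
    rw [pow_succ, ← mul_assoc, map_mul, eval_mul, aeval_X, eval_X, Place.val_mul ih.1 h1, ih.2, h2]
    exact ⟨mul_mem ih.1 h1, rfl⟩

theorem y_mem (h : C.pr P = some b) : C.y ∈ P.1 ∧ P.val C.y ^ ll = C.f.eval b := by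
  obtain ⟨h1, h2⟩ := C.val_aeval h C.f
  rw [← C.eq] at h1 h2
  have h3 := (CubP_mem (pow_ne_zero ll C.y_ne)).1 h1
  rw [P.ord_pow C.y_ne] at h3
  have h4 : C.y ∈ P.1 := (CubP_mem C.y_ne).2 ((mul_nonneg_iff_of_pos_left ll_posZ).1 h3)
  exact ⟨h4, by rw [← CubP_val_pow h4, h2]⟩

theorem base_mem (h : C.pr P = C.pr Q) {u : L} (hu : C.Base u) : u ∈ P.1 ↔ u ∈ Q.1 := by
  by_cases h0 : u = 0
  · subst h0
    simp
  obtain ⟨n, hn⟩ := C.CubP_ord_base (C.pr Q) hu h0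
  have h1 := C.CubP_lp_pos.1 h
  have h2 := (C.CubP_lp_pos (P := Q)).1 rfl
  rw [CubP_mem h0, CubP_mem h0, hn P h, hn Q rfl,
    mul_nonneg_iff_of_pos_right (by omega), mul_nonneg_iff_of_pos_right (by omega)]

theorem pr_eq_iff : C.pr P = C.pr Q ↔ ∃ i < ll, Q = C.s ^ i • P := by
  refine ⟨fun h => ?_, ?_⟩
  swap
  · rintro ⟨i, -, rfl⟩
    exact (C.CubP_ind C.pr C.pr_s P i).symm
  by_contra hQ
  let O : Place 𝕜 L → Prop := fun R => ∃ i, R = C.s ^ i • P
  have hO : ∀ j < ll, ¬ O (C.s ^ j • Q) := by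
    rintro j hj ⟨i, hi⟩
    obtain ⟨k, hk, e⟩ := C.CubP_mod P (ll - j + i)
    exact hQ ⟨k, hk, by rw [← e, pow_add, mul_smul, ← hi, C.CubP_back Q hj.le]⟩
  obtain ⟨u, hu⟩ := weak_approx (((Set.finite_lt_nat ll).image fun i => C.s ^ i • P).union
    ((Set.finite_lt_nat ll).image fun i => C.s ^ i • Q)) (fun R => if O R then 0 else 1)
      (fun _ => 1)
  have hu1 : ∀ j < ll, u ≠ 0 ∧ (C.s ^ j • Q).ord u = 0 := by
    intro j hj
    have h1 := hu _ (Or.inr ⟨j, hj, rfl⟩)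
    simp only [if_neg (hO j hj)] at h1
    have h2 := Place.ord_add_of_lt (P := C.s ^ j • Q) (f := 1) (g := u - 1) one_ne_zero (by
      rw [CubP_one, zero_add]; exact h1)
    rwa [add_sub_cancel, CubP_one] at h2
  have q0 := (hu1 0 ll_pos).1
  have hu0 : ∀ j < ll, 0 < (C.s ^ j • P).ord u := by
    intro j hj
    have h1 := hu _ (Or.inl ⟨j, hj, rfl⟩)
    simp only [if_pos (show O (C.s ^ j • P) from ⟨j, rfl⟩), sub_zero] at h1
    exact h1.resolve_left q0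
  obtain ⟨n, hn⟩ := C.CubP_ord_base (C.pr Q) (C.nm_base u) (C.nm_ne q0)
  have e1 := hn P h
  have e2 := hn Q rfl
  rw [C.CubP_ord_nm _ q0] at e1 e2
  rw [Finset.sum_eq_zero fun j hj => (hu1 j (Finset.mem_range.1 hj)).2] at e2
  have h2 := (C.CubP_lp_pos (P := Q)).1 rfl
  have hn0 : n = 0 := (mul_eq_zero.1 e2.symm).resolve_right (by omega)
  rw [hn0, zero_mul] at e1
  exact (Finset.sum_pos (fun j hj => hu0 j (Finset.mem_range.1 hj))
    (Finset.nonempty_range_iff.2 ll_ne_zero)).ne' e1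

theorem CubP_ord_lp (P : Place 𝕜 L) : P.ord (C.CubP_lp (C.pr P)) = C.ex P := by
  have hd := dg_dvInf (C.CubP_lp_tr (C.pr P))
  rw [CubP_lp_adj, finrank_eq] at hd
  have hpos : 1 ≤ P.ord (C.CubP_lp (C.pr P)) := C.CubP_lp_pos.1 rfl
  have hap : ∀ R : Place 𝕜 L, dvInf 𝕜 (C.CubP_lp (C.pr P))⁻¹ R =
      if ∃ i < ll, R = C.s ^ i • P then P.ord (C.CubP_lp (C.pr P)) else 0 := by
    intro R
    rw [dvInf_apply (inv_ne_zero (C.CubP_lp_ne _)), R.ord_inv (C.CubP_lp_ne _), neg_neg]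
    split_ifs with h
    · obtain ⟨i, -, rfl⟩ := h
      rw [C.CubP_ind (fun R => R.ord (C.CubP_lp (C.pr P))) (fun R => C.CubP_lp_ord_s R _) P i]
      omega
    · have h1 : ¬ 1 ≤ R.ord (C.CubP_lp (C.pr P)) := fun h1 =>
        h (C.pr_eq_iff.1 (C.CubP_lp_pos.2 h1).symm)
      omega
  by_cases h : C.Ram P
  · have e : dvInf 𝕜 (C.CubP_lp (C.pr P))⁻¹ = Finsupp.single P (P.ord (C.CubP_lp (C.pr P))) := by
      ext R
      rw [hap, Finsupp.single_apply]
      simp only [C.CubP_pow_ram h]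
      exact if_congr ⟨fun ⟨_, _, h'⟩ => h'.symm, fun h' => ⟨0, ll_pos, h'.symm⟩⟩ rfl rfl
    rw [e, dg_single] at hd
    rw [hd, C.CubP_ex_ram h]
  · have e : dvInf 𝕜 (C.CubP_lp (C.pr P))⁻¹ = ∑ i ∈ Finset.range ll,
        Finsupp.single (C.s ^ i • P) (P.ord (C.CubP_lp (C.pr P))) := by
      ext R
      rw [hap, Finsupp.finsetSum_apply]
      split_ifs with h1
      · obtain ⟨i, hi, rfl⟩ := h1
        rw [Finset.sum_eq_single_of_mem i (Finset.mem_range.2 hi) fun j hj hij =>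
          Finsupp.single_eq_of_ne fun h2 => hij (C.CubP_inj h hi (Finset.mem_range.1 hj) h2).symm,
          Finsupp.single_eq_same]
      · exact (Finset.sum_eq_zero fun j hj => Finsupp.single_eq_of_ne fun h2 =>
          h1 ⟨j, Finset.mem_range.1 hj, h2⟩).symm
    rw [e, dg_sum] at hd
    simp only [dg_single, Finset.sum_const, Finset.card_range, nsmul_eq_mul] at hd
    rw [C.CubP_ex_not h]
    exact (mul_eq_left₀ ll_ne_zeroZ).1 hd

theorem ord_sub (P : Place 𝕜 L) (a : 𝕜) : P.ord (C.x - algebraMap 𝕜 L a) =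
    if C.pr P = none then -C.ex P else if C.pr P = some a then C.ex P else 0 := by
  have h0 := C.CubP_ord_lp P
  split_ifs with h1 h2
  · rw [C.CubP_sub_inf h1, ← h0, h1]
  · rw [← h0, h2, CubP_lp_some]
  · obtain ⟨b, hb⟩ := Option.ne_none_iff_exists'.1 h1
    exact C.CubP_sub_ne hb fun h => h2 (h ▸ hb)

theorem CubP_ord_aeval (h : C.pr P = some b) {p : 𝕜[X]} (hp : p ≠ 0) :
    P.ord (aeval C.x p) = C.ex P * p.rootMultiplicity b := by
  obtain ⟨q, hq, hd⟩ := exists_eq_pow_rootMultiplicity_mul_and_not_dvd p hp b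
  rw [dvd_iff_isRoot] at hd
  obtain ⟨h1, h2⟩ := C.val_aeval h q
  obtain ⟨h3, h4⟩ := CubP_unit h1 (by rw [h2]; exact hd)
  have h5 := C.ord_sub P b
  rw [h, if_neg (by simp), if_pos rfl] at h5
  conv_lhs => rw [hq]
  rw [map_mul, map_pow, map_sub, aeval_X, aeval_C, P.ord_mul (pow_ne_zero _ (C.x_sub_ne b)) h3,
    P.ord_pow (C.x_sub_ne b), h4, h5]
  ring

theorem CubP_ord_aeval_inf (h : C.pr P = none) (n : ℕ) : ∀ {p : 𝕜[X]}, p ≠ 0 → p.natDegree = n →
    P.ord (aeval C.x p) = -(C.ex P * n) := by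
  induction n with
  | zero =>
    intro p hp hn
    rw [eq_C_of_natDegree_eq_zero hn] at hp ⊢
    rw [aeval_C, P.ord_const (fun h0 => hp (by rw [h0, map_zero]))]
    simp
  | succ n ih =>
    intro p hp hn
    obtain ⟨a, ha⟩ := IsAlgClosed.exists_root p (by
      rw [degree_eq_natDegree hp, hn]
      exact_mod_cast n.succ_ne_zero)
    obtain ⟨q, rfl⟩ := dvd_iff_isRoot.2 ha
    have hq : q ≠ 0 := right_ne_zero_of_mul hp
    rw [natDegree_mul (X_sub_C_ne_zero a) hq, natDegree_X_sub_C] at hn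
    have h5 := C.ord_sub P a
    rw [if_pos h] at h5
    rw [map_mul, map_sub, aeval_X, aeval_C, P.ord_mul (C.x_sub_ne a) (C.aeval_ne hq), h5,
      ih hq (by omega)]
    push_cast
    ring

theorem CubP_ord_y (P : Place 𝕜 L) : ll * P.ord C.y = P.ord (aeval C.x C.f) := by
  rw [← C.eq, P.ord_pow C.y_ne]

theorem CubP_val_s (h : C.pr P = some b) : C.ω * (C.s • P).val C.y = P.val C.y := by
  have h1 := val_smul C.s P (C.y_mem h).1
  have h2 : C.y ∈ (C.s • P).1 := (C.y_mem ((C.pr_s P).trans h)).1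
  rw [s_y, s_c, Place.val_mul ((C.s • P).2.2 _) h2, Place.val_const] at h1
  exact h1

theorem CubP_val_pw (h : C.pr P = some b) (i : ℕ) :
    C.ω ^ i * (C.s ^ i • P).val C.y = P.val C.y := by
  induction i with
  | zero => rw [pow_zero, pow_zero, one_smul, one_mul]
  | succ i ih =>
    rw [pow_succ, pow_succ' C.s, mul_smul, mul_assoc,
      C.CubP_val_s ((C.CubP_ind C.pr C.pr_s P i).trans h), ih]

theorem CubP_root (h : C.pr P = some b) (h' : P.val C.y = (C.s • P).val C.y) : C.f.IsRoot b := by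
  have h1 := C.CubP_val_s h
  rw [← h'] at h1
  have h2 : (C.ω - 1) * P.val C.y = 0 := by rw [sub_mul, h1, one_mul, sub_self]
  have h3 : C.ω - 1 ≠ 0 := sub_ne_zero.2 (C.hω.ne_one ll_one_lt)
  have h4 := (C.y_mem h).2
  rw [(mul_eq_zero.1 h2).resolve_left h3] at h4
  rw [IsRoot, ← h4]
  simp [ll_ne_zero]

theorem ram_root (h : C.Ram P) (hb : C.pr P = some b) : C.f.IsRoot b := by
  have h' : C.s • P = P := h
  exact C.CubP_root hb (by rw [h'])

theorem ram_of (h : ∀ b, C.pr P = some b → C.Sim b) : C.Ram P := by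
  by_contra hr
  have h1 := C.CubP_ord_y P
  cases hz : C.pr P with
  | none =>
    rw [C.CubP_ord_aeval_inf hz _ C.f_ne rfl, C.CubP_ex_not hr, one_mul] at h1
    exact C.deg (Int.natCast_dvd_natCast.1 (dvd_neg.1 ⟨_, h1.symm⟩))
  | some b =>
    rw [C.CubP_ord_aeval hz C.f_ne, C.CubP_ex_not hr, one_mul] at h1
    exact h b hz (Int.natCast_dvd_natCast.1 ⟨_, h1.symm⟩)

theorem ord_aeval (h : C.pr P = some b) {p : 𝕜[X]} (hp : p ≠ 0) :
    P.ord (aeval C.x p) = C.ex P * p.rootMultiplicity b := by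
  exact C.CubP_ord_aeval h hp

theorem ord_aeval_inf (h : C.pr P = none) {p : 𝕜[X]} (hp : p ≠ 0) :
    P.ord (aeval C.x p) = -(ll * p.natDegree) := by
  rw [C.CubP_ord_aeval_inf h _ hp rfl, C.CubP_ex_ram (C.ram_of fun b hb => by simp [h] at hb)]

theorem ex_dvd (P : Place 𝕜 L) {u : L} (hu : C.Base u) (h0 : u ≠ 0) : C.ex P ∣ P.ord u := by
  obtain ⟨n, hn⟩ := C.CubP_ord_base (C.pr P) hu h0
  rw [hn P rfl, CubP_ord_lp]
  exact Dvd.intro_left n rfl

theorem sss_smul (P : Place 𝕜 L) : C.s ^ ll • P = P := by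
  exact C.CubP_sss P

theorem ram_s : C.Ram (C.s • P) ↔ C.Ram P := by
  exact C.CubP_ram_s

theorem ss_ne (h : ¬ C.Ram P) {i : ℕ} (hi : ¬ ll ∣ i) : C.s ^ i • P ≠ P := by
  exact C.CubP_ss_ne h hi

theorem finite_ram : {P | C.Ram P}.Finite := by
  refine ((finite_poles (K := 𝕜) C.x).union (finite_ord (K := 𝕜) (C.aeval_ne C.f_ne))).subset ?_
  intro P hP
  cases hz : C.pr P with
  | none => exact Or.inl (C.CubP_none.1 hz)
  | some b =>
    right
    obtain ⟨h1, h2⟩ := C.val_aeval hz C.f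
    have h3 := ((Place.val_eq_zero h1).1 (h2.trans (C.ram_root hP hz))).resolve_left
      (C.aeval_ne C.f_ne)
    show P.ord (aeval C.x C.f) ≠ 0
    omega

theorem finite_fib (z : Option 𝕜) : {P | C.pr P = z}.Finite := by
  obtain ⟨P, rfl⟩ := C.pr_surj z
  refine ((Set.finite_lt_nat ll).image fun i => C.s ^ i • P).subset fun Q hQ => ?_
  obtain ⟨i, hi, e⟩ := C.pr_eq_iff.1 (Eq.symm hQ)
  exact ⟨i, hi, e.symm⟩

theorem eq_of_val (hb : ¬ C.f.IsRoot b) (hP : C.pr P = some b) (hQ : C.pr Q = some b)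
    (h : P.val C.y = Q.val C.y) : P = Q := by
  obtain ⟨i, hi, rfl⟩ := C.pr_eq_iff.1 (hP.trans hQ.symm)
  have h0 : P.val C.y ≠ 0 := fun h0 => hb (by
    rw [IsRoot, ← (C.y_mem hP).2, h0, zero_pow ll_ne_zero])
  have h1 := C.CubP_val_pw hP i
  rw [← h, mul_eq_right₀ h0, C.hω.pow_eq_one_iff_dvd] at h1
  rw [Nat.eq_zero_of_dvd_of_lt h1 hi, pow_zero, one_smul]

/-- a place above a point -/
noncomputable def pt (z : Option 𝕜) : Place 𝕜 L := (C.pr_surj z).choose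

theorem pr_pt (z : Option 𝕜) : C.pr (C.pt z) = z := (C.pr_surj z).choose_spec

theorem eq_pt (h : C.Ram P) : C.pt (C.pr P) = P := by
  obtain ⟨i, -, e⟩ := C.pr_eq_iff.1 (C.pr_pt (C.pr P)).symm
  rw [e, C.CubP_pow_ram h]

theorem ram_inf : C.Ram (C.pt none) := C.ram_of fun b h => by simp [pr_pt] at h

theorem ram_pt (h : C.Sim b) : C.Ram (C.pt (some b)) := C.ram_of fun b' h' => by
  rw [pr_pt, Option.some_inj] at h'
  exact h' ▸ h

theorem smul_inf {σ : SA 𝕜 L} (hx : sl σ C.x = C.x) : σ • C.pt none = C.pt none := by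
  have h1 : C.pr (σ • C.pt none) = none := by rw [C.pr_smul hx, pr_pt, Option.map_none]
  have h2 := C.eq_pt (P := σ • C.pt none) (C.ram_of fun b hb => by simp [h1] at hb)
  rw [h1] at h2
  exact h2.symm

theorem smul_pt {σ : SA 𝕜 L} (hx : sl σ C.x = C.x) (h : C.Sim (sc σ b)) :
    σ • C.pt (some b) = C.pt (some (sc σ b)) := by
  have h1 : C.pr (σ • C.pt (some b)) = some (sc σ b) := by
    rw [C.pr_smul hx, pr_pt, Option.map_some]
  have h2 := C.eq_pt (P := σ • C.pt (some b)) (C.ram_of fun b' hb' => by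
    rw [h1, Option.some_inj] at hb'
    exact hb' ▸ h)
  rw [h1] at h2
  exact h2.symm

theorem CubP_ord_prod (P : Place 𝕜 L) (T : Finset 𝕜) (g : 𝕜 → ℤ) :
    P.ord (∏ a ∈ T, (C.x - algebraMap 𝕜 L a) ^ g a) =
      ∑ a ∈ T, g a * P.ord (C.x - algebraMap 𝕜 L a) := by
  induction T using Finset.induction_on with
  | empty => simpa using CubP_one P
  | insert a T ha ih =>
    rw [Finset.prod_insert ha, Finset.sum_insert ha,
      P.ord_mul (zpow_ne_zero _ (C.x_sub_ne a))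
        (Finset.prod_ne_zero_iff.2 fun c _ => zpow_ne_zero _ (C.x_sub_ne c)),
      P.ord_zpow (C.x_sub_ne a), ih]

theorem CubP_inv_s {E : Dv 𝕜 L} (h : C.s • E = E) (P : Place 𝕜 L) : E (C.s • P) = E P := by
  conv_lhs => rw [← h]
  rw [dv_smul_apply, inv_smul_smul]

/-- invariant divisors of degree zero that come from the line are principal -/
theorem base_dv {E : Dv 𝕜 L} (h : C.s • E = E) (h3 : ∀ P, C.Ram P → (ll : ℤ) ∣ E P) (hd : dg E = 0) :
    ∃ ν : L, ν ≠ 0 ∧ C.Base ν ∧ dv 𝕜 ν = E := by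
  let T : Finset 𝕜 := E.support.image fun R => R.val C.x
  let g : 𝕜 → ℤ := fun a => E (C.pt (some a)) / C.ex (C.pt (some a))
  have hν : ∏ a ∈ T, (C.x - algebraMap 𝕜 L a) ^ g a ≠ 0 :=
    Finset.prod_ne_zero_iff.2 fun c _ => zpow_ne_zero _ (C.x_sub_ne c)
  refine ⟨_, hν, ?_, ?_⟩
  · rw [base_iff]
    exact prod_mem fun a _ => zpow_mem (sub_mem (IntermediateField.mem_adjoin_simple_self _ _)
      (IntermediateField.algebraMap_mem _ _)) _
  have key : ∀ R : Place 𝕜 L, R ≠ C.pt none →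
      (E - dv 𝕜 (∏ a ∈ T, (C.x - algebraMap 𝕜 L a) ^ g a)) R = 0 := by
    intro R hR
    cases hz : C.pr R with
    | none =>
      have := C.eq_pt (P := R) (C.ram_of fun b hb => by simp [hz] at hb)
      rw [hz] at this
      exact absurd this.symm hR
    | some c =>
      have e1 : g c * C.ex R = E R := by
        have hdv : C.ex (C.pt (some c)) ∣ E (C.pt (some c)) := by
          by_cases hr : C.Ram (C.pt (some c))
          · rw [C.CubP_ex_ram hr]
            exact h3 _ hr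
          · rw [C.CubP_ex_not hr]
            exact one_dvd _
        have e0 : g c * C.ex (C.pt (some c)) = E (C.pt (some c)) := Int.ediv_mul_cancel hdv
        obtain ⟨i, -, h'⟩ := C.pr_eq_iff.1 ((C.pr_pt (some c)).trans hz.symm)
        rw [h', C.CubP_ind C.ex C.CubP_ex_s, C.CubP_ind E (C.CubP_inv_s h), e0]
      rw [Finsupp.sub_apply, dv_apply hν, CubP_ord_prod, sub_eq_zero, Finset.sum_eq_single c]
      · rw [ord_sub, hz, if_neg (by simp), if_pos rfl, e1]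
      · intro a _ ha
        rw [C.CubP_sub_ne hz ha.symm, mul_zero]
      · intro hc
        rw [ord_sub, hz, if_neg (by simp), if_pos rfl, e1]
        by_contra hE
        exact hc (Finset.mem_image.2 ⟨R, Finsupp.mem_support_iff.2 hE, (C.CubP_some.1 hz).2⟩)
  have e2 : E - dv 𝕜 (∏ a ∈ T, (C.x - algebraMap 𝕜 L a) ^ g a) = Finsupp.single (C.pt none)
      ((E - dv 𝕜 (∏ a ∈ T, (C.x - algebraMap 𝕜 L a) ^ g a)) (C.pt none)) := by
    ext R
    by_cases hR : R = C.pt none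
    · rw [hR, Finsupp.single_eq_same]
    · rw [key R hR, Finsupp.single_eq_of_ne hR]
  have e3 := congrArg dg e2
  rw [dg_sub, hd, dg_dv, dg_single, sub_zero] at e3
  rw [← e3, Finsupp.single_zero, sub_eq_zero] at e2
  exact e2.symm

end Cub

end Pool.Agent.Hyp
end

-- merged part: Pool.Agent.Work.MP_60d5ce_nt.Hy.PicD
section
/-!
# The divisor classes of `y ^ ll = f (x)`  (ported from Lt PicD)

* `norm_dv`: `base_dv` for `∑ s ^ i • D`.
* `PicD_rep`: `Q - s ^ i • Q = E - s • E` for `E = ∑ j < i, s ^ j • Q`.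
* `div_s`: `ν` from `norm_dv`, `ν = nm φ` (`norm_surj`), `D' = D - dv φ` has norm zero; `PicD_rep`, `PicD_val`.
* `div_k`: take `m` with `k * m % ll = 1`, `E0 - s • E0 = D + dv φ` (`div_s`) and `E = ∑ i < m, s ^ (k * i) • E0` (telescoping, `s_cube`).
* `sg_dv`, `sg_ram`: `Polynomial.induction_on'`, `sg_pow`.  `sg_cyc`: `cyc_id`.  `div_prod`: induction on `K`, `div_k`, `sg_dv`.
* `PicD_three`: `div_prod` for `Finset.Ico 1 ll`, `sg_cyc`, `norm_dv`.
* `t3_div`: `c = c1 - s c1`; `ll • c1 = ∑ i < ll, (c1 - s ^ i c1) + norm` and `c1 - s ^ i c1 = ∑ j < i, s ^ j c`, so `T3 c1`; take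
  `s ^ (hlf + 1) c1` (`two_hlf`, `pa_iter`).
* `fixed_eq`: `c = cl D`, `D - s • D = dv φ`, `nm φ` has trivial divisor, so is a constant, an `ll`-th power; rescale so
  that `nm φ = 1`; `h90s` gives `b` with `D - dv b` invariant.  Subtract `∑ n b • (pt b - pt none)` with `n b` the
  residue of the coefficient modulo ll; at `pt none` the coefficient is divisible by ll since the degree is zero and the
  other places contribute multiples of ll; `base_dv`.
* `cube_crit`: `s u = ω ^ i * u`, so `u / y ^ i` is a base element `a / d`: `g * d ^ ll = f ^ i * a ^ ll`.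
-/

namespace Pool.Agent.Hyp

open Pool.Agent.Ell.AT

open PR0 Polynomial
open scoped Classical

/-- ll-power torsion -/
def T3 {A : Type} [AddCommGroup A] (c : A) : Prop := ∃ e : ℕ, ll ^ e • c = 0

section

variable {A B : Type} [AddCommGroup A] [AddCommGroup B] {c c' : A}

theorem T3.zero : T3 (0 : A) := ⟨0, smul_zero _⟩

theorem T3.add (h : T3 c) (h' : T3 c') : T3 (c + c') := by
    obtain ⟨e, he⟩ := h
    obtain ⟨e', he'⟩ := h'
    refine ⟨e + e', ?_⟩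
    rw [smul_add, pow_add, mul_smul _ _ c', he', mul_comm, mul_smul, he, smul_zero, smul_zero, add_zero]

theorem T3.neg (h : T3 c) : T3 (-c) := h.imp fun e he => by rw [smul_neg, he, neg_zero]

theorem T3.sub (h : T3 c) (h' : T3 c') : T3 (c - c') := by
  rw [sub_eq_add_neg]
  exact h.add h'.neg

theorem T3.map (h : T3 c) (φ : A →+ B) : T3 (φ c) :=
  h.imp fun e he => by rw [← map_nsmul, he, map_zero]

end

variable {𝕜 L : Type} [Field 𝕜] [Field L] [Algebra 𝕜 L] [IsAlgClosed 𝕜] [Fact (IsFF 𝕜 L)]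

theorem dg_of_tors {D : Dv 𝕜 L} {N : ℕ} (hN : N ≠ 0) (h : N • cl D = 0) : dg D = 0 := by
    rw [← map_nsmul] at h
    obtain ⟨a, -, ha⟩ := cl_eq_zero.1 h
    have h1 : dg (N • D) = N • dg D := map_nsmul rr_dg N D
    rw [← ha, dg_dv, nsmul_eq_mul] at h1
    exact (mul_eq_zero.1 h1.symm).resolve_left (Nat.cast_ne_zero.2 hN)

theorem pa_iter (σ : SA 𝕜 L) (i : ℕ) (c : Pic 𝕜 L) : (pa σ)^[i] c = pa (σ ^ i) c := by
  induction i with
  | zero => exact (pa_one c).symm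
  | succ i ih => rw [Function.iterate_succ_apply', ih, pow_succ', pa_mul]

omit [IsAlgClosed 𝕜] [Fact (IsFF 𝕜 L)] in
theorem PicD_tel (σ : SA 𝕜 L) (E : Dv 𝕜 L) (n : ℕ) :
    ∑ j ∈ Finset.range n, σ ^ j • E - σ • ∑ j ∈ Finset.range n, σ ^ j • E = E - σ ^ n • E := by
  rw [Finset.smul_sum, ← Finset.sum_sub_distrib]
  simp only [smul_smul, ← pow_succ']
  rw [Finset.sum_range_sub' (fun j => σ ^ j • E), pow_zero, one_smul]

namespace Cub

variable (C : Cub 𝕜 L)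

omit [IsAlgClosed 𝕜] [Fact (IsFF 𝕜 L)] in
theorem PicD_sss (D : Dv 𝕜 L) : C.s ^ ll • D = D := by
  rw [C.s_cube, one_smul]

omit [IsAlgClosed 𝕜] [Fact (IsFF 𝕜 L)] in
theorem PicD_kill (E : Dv 𝕜 L) : ∑ i ∈ Finset.range ll, C.s ^ i • (E - C.s • E) = 0 := by
  simp only [smul_sub, smul_smul, ← pow_succ]
  rw [Finset.sum_range_sub' (fun j => C.s ^ j • E), pow_zero, one_smul, C.PicD_sss, sub_self]

omit [IsAlgClosed 𝕜] [Fact (IsFF 𝕜 L)] in
theorem PicD_fix {P : Place 𝕜 L} (h : C.Ram P) (i : ℕ) : C.s ^ i • P = P :=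
  (MulAction.stabilizer (SA 𝕜 L) P).pow_mem (x := C.s) h i

theorem PicD_s (D : Dv 𝕜 L) (P : Place 𝕜 L) : (C.s • D) P = D (C.s ^ (ll - 1) • P) := by
  rw [dv_smul_apply, inv_eq_of_mul_eq_one_right (a := C.s) (b := C.s ^ (ll - 1))]
  rw [← pow_succ', Nat.sub_add_cancel ll_pos, C.s_cube]

theorem PicD_nv (D : Dv 𝕜 L) (P : Place 𝕜 L) :
    (∑ i ∈ Finset.range ll, C.s ^ i • D) P = ∑ i ∈ Finset.range ll, D (C.s ^ i • P) := by
  have h1 : ∀ i ∈ Finset.range ll, (C.s ^ i • D) P = D (C.s ^ (ll - 1 - i + 1) • P) := by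
    intro i hi
    have h2 := Finset.mem_range.1 hi
    rw [dv_smul_apply, inv_eq_of_mul_eq_one_right (a := C.s ^ i) (b := C.s ^ (ll - 1 - i + 1))]
    rw [← pow_add, show i + (ll - 1 - i + 1) = ll by omega, C.s_cube]
  have h3 := Finset.sum_range_succ (fun i => D (C.s ^ i • P)) ll
  rw [Finset.sum_range_succ', C.s_cube, pow_zero] at h3
  rw [Finsupp.finsetSum_apply, Finset.sum_congr rfl h1,
    Finset.sum_range_reflect (fun i => D (C.s ^ (i + 1) • P)) ll]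
  exact add_right_cancel h3

theorem PicD_nm {φ : L} (h : φ ≠ 0) :
    dv 𝕜 (C.nm φ) = ∑ i ∈ Finset.range ll, C.s ^ i • dv 𝕜 φ := by
  rw [nm, dv_prod _ fun i _ => (_root_.map_ne_zero _).2 h]
  exact Finset.sum_congr rfl fun i _ => dv_sl _ _

/-- move a divisor to the chosen places -/
theorem PicD_rep (D : Dv 𝕜 L) : ∃ E D0 : Dv 𝕜 L, (∀ P, D0 P ≠ 0 → C.pt (C.pr P) = P) ∧
    D = D0 + (E - C.s • E) := by
  induction D using Finsupp.induction_linear with
  | zero => exact ⟨0, 0, fun _ h => absurd rfl h, by simp⟩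
  | add D D' h h' =>
    obtain ⟨E, D0, h1, rfl⟩ := h
    obtain ⟨E', D0', h1', rfl⟩ := h'
    refine ⟨E + E', D0 + D0', fun P hP => ?_, by rw [smul_add]; abel⟩
    by_cases h2 : D0 P = 0
    · rw [Finsupp.add_apply, h2, zero_add] at hP
      exact h1' P hP
    · exact h1 P h2
  | single P n =>
    have h1 : ∀ Q, (Finsupp.single (C.pt (C.pr P)) n : Dv 𝕜 L) Q ≠ 0 → C.pt (C.pr Q) = Q := by
      intro Q hQ
      rw [(Finsupp.single_apply_ne_zero.1 hQ).1, C.pr_pt]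
    obtain ⟨i, -, h2⟩ := C.pr_eq_iff.1 (C.pr_pt (C.pr P))
    generalize C.pt (C.pr P) = Q at h1 h2
    refine ⟨-∑ j ∈ Finset.range i, C.s ^ j • Finsupp.single Q n, _, h1, ?_⟩
    rw [smul_neg, neg_sub_neg, ← neg_sub, PicD_tel, smul_single, h2]
    abel

theorem PicD_val {D E D0 : Dv 𝕜 L} (h : ∀ P, D0 P ≠ 0 → C.pt (C.pr P) = P)
    (hD : D = D0 + (E - C.s • E)) {Q : Place 𝕜 L} (hQ : D0 Q ≠ 0) :
    (∑ i ∈ Finset.range ll, C.s ^ i • D) Q = C.ex Q * D0 Q := by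
  have e : ∑ i ∈ Finset.range ll, C.s ^ i • D = ∑ i ∈ Finset.range ll, C.s ^ i • D0 := by
    rw [hD]
    simp only [smul_add, Finset.sum_add_distrib, C.PicD_kill, add_zero]
  rw [e, C.PicD_nv, ex]
  split_ifs with hr
  · simp only [C.PicD_fix hr, Finset.sum_const, Finset.card_range, nsmul_eq_mul]
  · rw [Finset.sum_eq_single_of_mem 0 (Finset.mem_range.2 ll_pos), pow_zero, one_smul, one_mul]
    intro i hi h0
    by_contra h1
    have h2 := h _ h1
    rw [← C.pr_eq_iff.2 ⟨i, Finset.mem_range.1 hi, rfl⟩, h Q hQ] at h2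
    exact C.ss_ne hr (Nat.not_dvd_of_pos_of_lt (Nat.pos_of_ne_zero h0) (Finset.mem_range.1 hi))
      h2.symm

theorem PicD_inf (n : ℤ) :
    C.s • (Finsupp.single (C.pt none) n : Dv 𝕜 L) = Finsupp.single (C.pt none) n := by
  rw [smul_single, C.smul_inf C.s_x]

theorem norm_dv {D : Dv 𝕜 L} (h : dg D = 0) :
    ∃ ν : L, ν ≠ 0 ∧ C.Base ν ∧ dv 𝕜 ν = ∑ i ∈ Finset.range ll, C.s ^ i • D := by
  refine C.base_dv ?_ (fun P hP => ?_) ?_
  · refine (sub_eq_zero.1 ?_).symm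
    rw [PicD_tel, C.PicD_sss, sub_self]
  · rw [C.PicD_nv]
    simp only [C.PicD_fix hP, Finset.sum_const, Finset.card_range, nsmul_eq_mul]
    exact dvd_mul_right _ _
  · rw [dg_sum]
    exact Finset.sum_eq_zero fun i _ => by rw [dg_sa, h]

theorem PicD_norm {D : Dv 𝕜 L} (h : dg D = 0) :
    ∑ i ∈ Finset.range ll, (pa C.s)^[i] (cl D) = 0 := by
  obtain ⟨ν, -, -, h2⟩ := C.norm_dv h
  simp only [pa_iter, pa_cl]
  rw [← map_sum, ← h2, cl_dv]

theorem t3_norm {c : Pic 𝕜 L} (h : T3 c) : ∑ i ∈ Finset.range ll, (pa C.s)^[i] c = 0 := by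
    obtain ⟨D, rfl⟩ := cl_surj c
    obtain ⟨e, he⟩ := h
    exact C.PicD_norm (dg_of_tors (pow_ne_zero e ll_ne_zero) he)

/-- the class of a ramified point -/
noncomputable def e1 (b : 𝕜) : Pic 𝕜 L :=
  cl (Finsupp.single (C.pt (some b)) 1 - Finsupp.single (C.pt none) 1)

theorem kum_e1 {b : 𝕜} (h : C.Sim b) : Kum ll (C.x - algebraMap 𝕜 L b) (C.e1 b) := by
    refine ⟨C.x_sub_ne b, _, ?_, rfl⟩
    ext P
    have h1 : (C.pt (some b) = P) ↔ C.pr P = some b :=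
      ⟨fun e => e ▸ C.pr_pt _, fun e => e ▸ C.eq_pt (C.ram_of fun b' h' => by
        rw [e, Option.some_inj] at h'
        exact h' ▸ h)⟩
    have h2 : (C.pt none = P) ↔ C.pr P = none :=
      ⟨fun e => e ▸ C.pr_pt _, fun e => e ▸ C.eq_pt (C.ram_of fun b' h' => by simp [e] at h')⟩
    rw [dv_apply (C.x_sub_ne b), C.ord_sub, Finsupp.smul_apply, Finsupp.sub_apply,
      Finsupp.single_apply, Finsupp.single_apply]
    simp only [h1, h2]
    by_cases a1 : C.pr P = none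
    · have : C.Ram P := h2.2 a1 ▸ C.ram_inf
      simp [a1, ex, this]
    · by_cases a2 : C.pr P = some b
      · have : C.Ram P := h1.2 a2 ▸ C.ram_pt h
        simp [a2, ex, this]
      · simp [a1, a2]

theorem pa_e1 {σ : SA 𝕜 L} (hx : sl σ C.x = C.x) {b : 𝕜} (h : C.Sim (sc σ b)) :
    pa σ (C.e1 b) = C.e1 (sc σ b) := by
  rw [e1, pa_cl, smul_sub, smul_single, smul_single, C.smul_pt hx h, C.smul_inf hx, e1]

omit [IsAlgClosed 𝕜] in
theorem PicD_mult {p : 𝕜[X]} (hp : p ≠ 0) (n : ℕ) (b : 𝕜) :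
    (p ^ n).rootMultiplicity b = n * p.rootMultiplicity b := by
  induction n with
  | zero => simp
  | succ n ih =>
    rw [pow_succ, rootMultiplicity_mul (mul_ne_zero (pow_ne_zero _ hp) hp), ih]
    ring

theorem PicD_dvd {F : Dv 𝕜 L} (h : C.s • F = F) (h3 : ∀ P, C.Ram P → (ll : ℤ) ∣ F P) : (ll : ℤ) ∣ dg F := by
  obtain ⟨E, D0, a1, a2⟩ := C.PicD_rep F
  have a3 : dg F = dg D0 := by
    rw [a2, dg_add, dg_sub, dg_sa, sub_self, add_zero]
  have a5 : ∀ i : ℕ, C.s ^ i • F = F := fun i =>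
    (MulAction.stabilizer (SA 𝕜 L) F).pow_mem (x := C.s) h i
  rw [a3]
  refine Finset.dvd_sum fun Q hQ => ?_
  change (ll : ℤ) ∣ D0 Q
  have a4 := C.PicD_val a1 a2 (Finsupp.mem_support_iff.1 hQ)
  simp only [a5, Finset.sum_const, Finset.card_range, Finsupp.smul_apply, nsmul_eq_mul, ex] at a4
  split_ifs at a4 with hr
  · exact mul_left_cancel₀ ll_ne_zeroZ a4 ▸ h3 Q hr
  · exact ⟨F Q, by rw [a4, one_mul]⟩

theorem PicD_inv {D : Dv 𝕜 L} (hs : pa C.s (cl D) = cl D) :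
    ∃ b : L, C.s • (D - dv 𝕜 b) = D - dv 𝕜 b := by
  obtain ⟨φ, h0, h1⟩ := cl_eq_iff.1 ((pa_cl C.s D).symm.trans hs).symm
  have h2 : dv 𝕜 (C.nm φ) = 0 := by
    rw [C.PicD_nm h0, ← sub_eq_iff_eq_add'.2 h1, C.PicD_kill]
  obtain ⟨k, hk, h3⟩ := const_of_dv (C.nm_ne h0) h2
  obtain ⟨m, rfl⟩ := IsAlgClosed.exists_pow_nat_eq k ll_pos
  have hm : algebraMap 𝕜 L m ≠ 0 := (_root_.map_ne_zero _).2 (ne_zero_pow ll_ne_zero hk)
  have h4 : C.nm (φ * algebraMap 𝕜 L m⁻¹) = 1 := by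
    have h8 : ∀ i : ℕ, sl (C.s ^ i) (algebraMap 𝕜 L m⁻¹) = algebraMap 𝕜 L m⁻¹ := fun i => by
      rw [sl_const, map_pow, C.s_c, one_pow]
      rfl
    rw [C.nm_mul, h3, nm]
    simp only [h8, Finset.prod_const, Finset.card_range]
    rw [map_pow, map_inv₀, ← mul_pow, mul_inv_cancel₀ hm, one_pow]
  obtain ⟨b, hb, h5⟩ := C.h90s h4
  have h6 : algebraMap 𝕜 L m⁻¹ ≠ 0 := by rw [map_inv₀]; exact inv_ne_zero hm
  have h7 := congrArg (dv 𝕜) h5
  rw [dv_mul (mul_ne_zero h0 h6) ((_root_.map_ne_zero _).2 hb), dv_mul h0 h6, dv_const, add_zero,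
    dv_sl] at h7
  refine ⟨b, ?_⟩
  rw [smul_sub, sub_eq_sub_iff_add_eq_add]
  nth_rewrite 1 [← h7]
  nth_rewrite 2 [h1]
  abel

theorem fixed_eq (hm : ∀ b, C.f.IsRoot b → C.Sim b) {c : Pic 𝕜 L} (h : T3 c) (hs : pa C.s c = c) :
    ∃ n : 𝕜 → ℕ, c = ∑ b ∈ C.f.roots.toFinset, n b • C.e1 b := by
    obtain ⟨D, rfl⟩ := cl_surj c
    obtain ⟨b, hb⟩ := C.PicD_inv hs
    have h0 : dg (D - dv 𝕜 b) = 0 := by
      rw [dg_sub, dg_dv, dg_of_tors (pow_ne_zero _ ll_ne_zero) h.choose_spec, sub_zero]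
    have h1 : cl D = cl (D - dv 𝕜 b) := by rw [map_sub, cl_dv, sub_zero]
    rw [h1]
    generalize D - dv 𝕜 b = F at hb h0
    obtain ⟨n, hn⟩ : ∃ n : 𝕜 → ℕ, ∀ a, (ll : ℤ) ∣ F (C.pt (some a)) - n a :=
      ⟨fun a => (F (C.pt (some a)) % ll).toNat, fun a => by
        rw [Int.toNat_of_nonneg (Int.emod_nonneg _ ll_ne_zeroZ)]
        exact Int.dvd_self_sub_emod⟩
    refine ⟨n, ?_⟩
    obtain ⟨G, hG⟩ : ∃ G : Dv 𝕜 L, G = F - ∑ a ∈ C.f.roots.toFinset,
      n a • (Finsupp.single (C.pt (some a)) 1 - Finsupp.single (C.pt none) 1) := ⟨_, rfl⟩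
    have hr : ∀ a, a ∈ C.f.roots.toFinset ↔ C.f.IsRoot a := fun a => by
      rw [Multiset.mem_toFinset, mem_roots C.f_ne]
    have g1 : C.s • G = G := by
      rw [hG, smul_sub, hb, Finset.smul_sum]
      refine congrArg _ (Finset.sum_congr rfl fun a ha => ?_)
      rw [dv_smul_nsmul, smul_sub, C.PicD_inf, smul_single]
      rw [show C.s • C.pt (some a) = _ from C.ram_pt (hm a ((hr a).1 ha))]
    have g2 : dg G = 0 := by
      rw [hG, dg_sub, h0, dg_sum, Finset.sum_eq_zero, sub_zero]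
      intro a _
      refine (map_nsmul rr_dg _ _).trans ?_
      change n a • dg _ = 0
      rw [dg_sub, dg_single, dg_single, sub_self, smul_zero]
    have g3 : ∀ P, C.Ram P → P ≠ C.pt none → (ll : ℤ) ∣ G P := by
      intro P hP hne
      have e := C.eq_pt hP
      rcases hz : C.pr P with _ | a
      · exact absurd (hz ▸ e).symm hne
      rw [hz] at e
      rw [hG, Finsupp.sub_apply, Finsupp.finsetSum_apply,
        Finset.sum_eq_single_of_mem a ((hr a).2 (C.ram_root hP hz))]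
      · rw [Finsupp.smul_apply, Finsupp.sub_apply, Finsupp.single_eq_of_ne hne, e,
          Finsupp.single_eq_same, ← e]
        simpa using hn a
      · intro a' _ ha'
        rw [Finsupp.smul_apply, Finsupp.sub_apply, Finsupp.single_eq_of_ne hne,
          Finsupp.single_eq_of_ne, sub_zero, smul_zero]
        intro e'
        rw [e', C.pr_pt, Option.some_inj] at hz
        exact ha' hz
    have g4 : (ll : ℤ) ∣ G (C.pt none) := by
      have := C.PicD_dvd (F := G - Finsupp.single (C.pt none) (G (C.pt none)))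
        (by rw [smul_sub, g1, C.PicD_inf]) fun P hP => by
          rw [Finsupp.sub_apply]
          by_cases e : P = C.pt none
          · rw [e, Finsupp.single_eq_same, sub_self]
            exact dvd_zero _
          · rw [Finsupp.single_eq_of_ne e, sub_zero]
            exact g3 P hP e
      rwa [dg_sub, g2, dg_single, zero_sub, dvd_neg] at this
    obtain ⟨ν, -, -, hν⟩ := C.base_dv g1 (fun P hP => by
      by_cases e : P = C.pt none
      · exact e ▸ g4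
      · exact g3 P hP e) g2
    have g5 := cl_dv (𝕜 := 𝕜) ν
    rw [hν, hG, map_sub, sub_eq_zero, map_sum] at g5
    rw [g5]
    exact Finset.sum_congr rfl fun a _ => map_nsmul _ _ _

omit [IsAlgClosed 𝕜] [Fact (IsFF 𝕜 L)] in
theorem cube_crit {g : 𝕜[X]} (hg : g ≠ 0) {u : L} (h : aeval C.x g = u ^ ll) :
    ∃ i : ℕ, ∀ b, g.rootMultiplicity b ≡ i * C.f.rootMultiplicity b [MOD ll] := by
    have hu : u ≠ 0 := by
      rintro rfl
      exact C.aeval_ne hg (by rw [h, zero_pow ll_ne_zero])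
    have h1 : (sl C.s u / u) ^ ll = 1 := by
      rw [div_pow, ← map_pow, ← h, C.fix_iff.2 ⟨g, 1, one_ne_zero, by simp⟩,
        div_self (C.aeval_ne hg)]
    obtain ⟨i, -, hi⟩ := (C.hω.map_of_injective (algebraMap 𝕜 L).injective).eq_pow_of_pow_eq_one h1
    have hω : algebraMap 𝕜 L C.ω ≠ 0 := (_root_.map_ne_zero _).2 (C.hω.ne_zero ll_ne_zero)
    have hy := C.y_ne
    have h2 : sl C.s (u / C.y ^ i) = u / C.y ^ i := by
      rw [map_div₀, map_pow, C.s_y, ← (eq_div_iff hu).1 hi, mul_pow,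
        mul_div_mul_left _ _ (pow_ne_zero _ hω)]
    obtain ⟨a, d, hd, h3⟩ := C.fix_iff.1 h2
    have ha : a ≠ 0 := by
      rintro rfl
      rw [map_zero, zero_div] at h3
      exact div_ne_zero hu (pow_ne_zero _ hy) h3
    rw [div_eq_div_iff (pow_ne_zero _ hy) (C.aeval_ne hd)] at h3
    have h4 : g * d ^ ll = a ^ ll * C.f ^ i := C.aeval_inj (by
      rw [map_mul, map_mul, map_pow, map_pow, map_pow, h, ← C.eq, ← mul_pow, h3]
      ring)
    refine ⟨i, fun b => ?_⟩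
    have h5 := congrArg (rootMultiplicity b) h4
    rw [rootMultiplicity_mul (mul_ne_zero hg (pow_ne_zero _ hd)),
      rootMultiplicity_mul (mul_ne_zero (pow_ne_zero _ ha) (pow_ne_zero _ C.f_ne)),
      PicD_mult hd, PicD_mult ha, PicD_mult C.f_ne] at h5
    unfold Nat.ModEq
    rw [← Nat.add_mul_mod_self_left _ ll (rootMultiplicity b d), h5, Nat.mul_add_mod]

end Cub

end Pool.Agent.Hyp
end

-- merged part: Pool.Agent.Work.MP_60d5ce_nt.Hy.RedA
section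
/-!
# Constant reduction of `y ^ ll = f (x)`: existence  (ported from Lt RedA)

Call `(a, a')` related if `a = ∑ A i x * y ^ i`, `a' = ∑ A' i x' * y' ^ i` with `Rp (A i) (A' i)`.
The relation is functional (`indep`, `Rp.unique`), closed under sums and products (first: closed under multiplication
by a related pair of polynomials and by the pair `(y, y')`, using `y ^ ll = f x`; then expand the second factor).  So the related `a` are a
subring `Z` with a homomorphism `π : Z → L'`.  `w = {u | ∃ d ∈ Z, π d ≠ 0 ∧ u * d ∈ Z}`, `ρ u = π (u * d) / π d`.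
By `decomp` and `exists_prim` every `u ≠ 0` is `c * a / d` with `c` constant, `a, d ∈ Z`, `π a ≠ 0`, `π d ≠ 0`; `c ∈ o.w` or
`c⁻¹ ∈ o.w`, so `w` is a valuation ring.  `zero_iff`: `u ∈ w` nonzero is a nonunit iff `u⁻¹ ∉ w`.  `surj`: `decomp` in `L'`
and lifting of coefficients (`o.surj`).
-/

namespace Pool.Agent.Hyp

open Pool.Agent.Ell.AT

open Polynomial

variable {𝕜 L κ L' : Type} [Field 𝕜] [Field L] [Algebra 𝕜 L] [Field κ] [Field L'] [Algebra κ L']

/-- `C'` is a reduction of `C` -/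
structure Red (C : Cub 𝕜 L) (C' : Cub κ L') where
  o : Pm 𝕜 κ
  m : Pm L L'
  cw : ∀ c, algebraMap 𝕜 L c ∈ m.w ↔ c ∈ o.w
  cρ : ∀ c ∈ o.w, m.ρ (algebraMap 𝕜 L c) = algebraMap κ L' (o.ρ c)
  xw : C.x ∈ m.w
  yw : C.y ∈ m.w
  xρ : m.ρ C.x = C'.x
  yρ : m.ρ C.y = C'.y
  fρ : o.Rp C.f C'.f
  ωρ : o.ρ C.ω = C'.ω

/-- a subring with a homomorphism, given by its graph -/
structure RedA_Gr (R : L → L' → Prop) : Prop where
  fn : ∀ {a a' a''}, R a a' → R a a'' → a' = a''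
  one : R 1 1
  zero : R 0 0
  neg : ∀ {a a'}, R a a' → R (-a) (-a')
  add : ∀ {a a' b b'}, R a a' → R b b' → R (a + b) (a' + b')
  mul : ∀ {a a' b b'}, R a a' → R b b' → R (a * b) (a' * b')

/-- the localisation of the graph -/
def RedA_loc (R : L → L' → Prop) (u : L) (u' : L') : Prop :=
  ∃ d d', R d d' ∧ d' ≠ 0 ∧ R (u * d) (u' * d')

theorem RedA_of {R : L → L' → Prop} (h : RedA_Gr R) {a : L} {a' : L'} (ha : R a a') :
    RedA_loc R a a' := ⟨1, 1, h.one, one_ne_zero, by simpa using ha⟩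

theorem RedA_locGr {R : L → L' → Prop} (h : RedA_Gr R) : RedA_Gr (RedA_loc R) where
  fn := by
    rintro u u' u'' ⟨d, d', h1, h2, h3⟩ ⟨e, e', k1, k2, k3⟩
    have a1 := h.mul h3 k1
    have a2 := h.mul k3 h1
    rw [show u * e * d = u * d * e by ring] at a2
    have a3 := h.fn a1 a2
    have a4 : (u' - u'') * (d' * e') = 0 := by linear_combination a3
    exact sub_eq_zero.1 ((mul_eq_zero.1 a4).resolve_right (mul_ne_zero h2 k2))
  one := RedA_of h h.one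
  zero := RedA_of h h.zero
  neg := by
    rintro u u' ⟨d, d', h1, h2, h3⟩
    exact ⟨d, d', h1, h2, by simpa using h.neg h3⟩
  add := by
    rintro u u' v v' ⟨d, d', h1, h2, h3⟩ ⟨e, e', k1, k2, k3⟩
    refine ⟨d * e, d' * e', h.mul h1 k1, mul_ne_zero h2 k2, ?_⟩
    have a1 := h.add (h.mul h3 k1) (h.mul k3 h1)
    rw [show (u + v) * (d * e) = u * d * e + v * e * d by ring,
      show (u' + v') * (d' * e') = u' * d' * e' + v' * e' * d' by ring]
    exact a1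
  mul := by
    rintro u u' v v' ⟨d, d', h1, h2, h3⟩ ⟨e, e', k1, k2, k3⟩
    refine ⟨d * e, d' * e', h.mul h1 k1, mul_ne_zero h2 k2, ?_⟩
    rw [show u * v * (d * e) = u * d * (v * e) by ring,
      show u' * v' * (d' * e') = u' * d' * (v' * e') by ring]
    exact h.mul h3 k3

theorem RedA_inv {R : L → L' → Prop} {u : L} {u' : L'} (hu : RedA_loc R u u') (h0 : u ≠ 0)
    (h0' : u' ≠ 0) : RedA_loc R u⁻¹ u'⁻¹ := by
  obtain ⟨d, d', h1, h2, h3⟩ := hu
  refine ⟨u * d, u' * d', h3, mul_ne_zero h0' h2, ?_⟩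
  rw [inv_mul_cancel_left₀ h0, inv_mul_cancel_left₀ h0']
  exact h1

theorem RedA_abs {R : L → L' → Prop} (h : RedA_Gr R)
    (hv : ∀ u, u ≠ 0 → ∃ d d' a', R d d' ∧ R (u * d) a' ∧ (d' ≠ 0 ∨ a' ≠ 0))
    (hs : ∀ b, ∃ a d d', R d d' ∧ d' ≠ 0 ∧ R a (b * d')) :
    ∃ m : Pm L L', ∀ a a', R a a' → a ∈ m.w ∧ m.ρ a = a' := by
  classical
  have g := RedA_locGr h
  let w : ValuationSubring L :=
    { carrier := {u | ∃ u', RedA_loc R u u'}
      mul_mem' := fun ⟨_, ha⟩ ⟨_, hb⟩ => ⟨_, g.mul ha hb⟩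
      one_mem' := ⟨_, g.one⟩
      add_mem' := fun ⟨_, ha⟩ ⟨_, hb⟩ => ⟨_, g.add ha hb⟩
      zero_mem' := ⟨_, g.zero⟩
      neg_mem' := fun ⟨_, ha⟩ => ⟨_, g.neg ha⟩
      mem_or_inv_mem' := fun u => by
        by_cases h0 : u = 0
        · exact Or.inl ⟨_, h0 ▸ g.zero⟩
        obtain ⟨d, d', a', h1, h2, h3 | h3⟩ := hv u h0
        · exact Or.inl ⟨a' / d', d, d', h1, h3, by rwa [div_mul_cancel₀ _ h3]⟩
        · refine Or.inr ⟨d' / a', u * d, a', h2, h3, ?_⟩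
          rw [inv_mul_cancel_left₀ h0, div_mul_cancel₀ _ h3]
          exact h1 }
  have hw : ∀ u, u ∈ w ↔ ∃ u', RedA_loc R u u' := fun u => Iff.rfl
  let ρ : L → L' := fun u => if hu : ∃ u', RedA_loc R u u' then hu.choose else 0
  have hρ : ∀ {u}, u ∈ w → RedA_loc R u (ρ u) := fun {u} hu => by
    have hu' := (hw u).1 hu
    simp only [ρ, dif_pos hu']
    exact hu'.choose_spec
  have hρ' : ∀ {u u'}, RedA_loc R u u' → ρ u = u' := fun {u u'} hu => g.fn (hρ ⟨_, hu⟩) hu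
  refine ⟨⟨w, ρ, fun ha hb => hρ' (g.add (hρ ha) (hρ hb)), fun ha hb => hρ' (g.mul (hρ ha) (hρ hb)),
    hρ' g.one, fun {a} ha => ?_, fun b => ?_⟩,
    fun a a' ha => ⟨⟨_, RedA_of h ha⟩, hρ' (RedA_of h ha)⟩⟩
  · rw [ValuationSubring.mem_nonunits_iff_or]
    constructor
    · intro h1
      by_cases h0 : a = 0
      · exact Or.inl h0
      refine Or.inr fun hi => ?_
      have a1 := g.mul (hρ ha) (hρ hi)
      rw [mul_inv_cancel₀ h0, h1, zero_mul] at a1
      exact zero_ne_one (g.fn a1 g.one)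
    · rintro (h0 | h1)
      · rw [h0]; exact hρ' g.zero
      by_contra h2
      by_cases h0 : a = 0
      · exact h1 (by rw [h0, inv_zero]; exact zero_mem _)
      exact h1 ⟨_, RedA_inv (hρ ha) h0 h2⟩
  · obtain ⟨a, d, d', h1, h2, h3⟩ := hs b
    have d0 : d ≠ 0 := fun h0 => h2 (h.fn (h0 ▸ h1) h.zero)
    have a1 : RedA_loc R (a / d) b := ⟨d, d', h1, h2, by rwa [div_mul_cancel₀ _ d0]⟩
    exact ⟨a / d, ⟨_, a1⟩, hρ' a1⟩

/-- integral elements and their reductions -/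
def RedA_rel (C : Cub 𝕜 L) (C' : Cub κ L') (o : Pm 𝕜 κ) (a : L) (a' : L') : Prop :=
  ∃ (A : Fin ll → 𝕜[X]) (A' : Fin ll → κ[X]), (∀ i, o.Rp (A i) (A' i)) ∧
    a = ∑ i, aeval C.x (A i) * C.y ^ (i : ℕ) ∧ a' = ∑ i, aeval C'.x (A' i) * C'.y ^ (i : ℕ)

theorem RedA_rp0 (o : Pm 𝕜 κ) : o.Rp 0 0 := by simpa using (Pm.rp_one (o := o)).sub Pm.rp_one

theorem RedA_mon (C : Cub 𝕜 L) (C' : Cub κ L') {o : Pm 𝕜 κ} {p : 𝕜[X]} {p' : κ[X]}
    (h : o.Rp p p') (j : Fin ll) :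
    RedA_rel C C' o (aeval C.x p * C.y ^ (j : ℕ)) (aeval C'.x p' * C'.y ^ (j : ℕ)) := by
  refine ⟨Pi.single j p, Pi.single j p', fun i => ?_, ?_, ?_⟩
  · by_cases hi : i = j
    · rwa [hi, Pi.single_eq_same, Pi.single_eq_same]
    · rw [Pi.single_eq_of_ne hi, Pi.single_eq_of_ne hi]
      exact RedA_rp0 o
  · rw [Fintype.sum_eq_single j fun i hi => by simp [Pi.single_eq_of_ne hi], Pi.single_eq_same]
  · rw [Fintype.sum_eq_single j fun i hi => by simp [Pi.single_eq_of_ne hi], Pi.single_eq_same]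

theorem RedA_poly (C : Cub 𝕜 L) (C' : Cub κ L') {o : Pm 𝕜 κ} {p : 𝕜[X]} {p' : κ[X]}
    (h : o.Rp p p') : RedA_rel C C' o (aeval C.x p) (aeval C'.x p') := by
  simpa using RedA_mon C C' h 0

theorem RedA_pow (C : Cub 𝕜 L) (C' : Cub κ L') {o : Pm 𝕜 κ} (hf : o.Rp C.f C'.f) {p : 𝕜[X]}
    {p' : κ[X]} (h : o.Rp p p') (n : ℕ) :
    RedA_rel C C' o (aeval C.x p * C.y ^ n) (aeval C'.x p' * C'.y ^ n) := by
  have := RedA_mon C C' (h.mul (hf.pow (n / ll))) ⟨n % ll, Nat.mod_lt _ ll_pos⟩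
  simpa only [map_mul, map_pow, ← C.eq, ← C'.eq, ← pow_mul, mul_assoc, ← pow_add,
    Nat.div_add_mod] using this

theorem RedA_add (C : Cub 𝕜 L) (C' : Cub κ L') {o : Pm 𝕜 κ} {a b : L} {a' b' : L'}
    (h : RedA_rel C C' o a a') (k : RedA_rel C C' o b b') : RedA_rel C C' o (a + b) (a' + b') := by
  obtain ⟨A, A', h1, rfl, rfl⟩ := h
  obtain ⟨B, B', k1, rfl, rfl⟩ := k
  refine ⟨A + B, A' + B', fun i => (h1 i).add (k1 i), ?_, ?_⟩ <;>
    simp only [Pi.add_apply, map_add, add_mul, Finset.sum_add_distrib]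

theorem RedA_sum (C : Cub 𝕜 L) (C' : Cub κ L') {o : Pm 𝕜 κ} {ι : Type} (s : Finset ι) {a : ι → L}
    {a' : ι → L'} (h : ∀ i, RedA_rel C C' o (a i) (a' i)) :
    RedA_rel C C' o (∑ i ∈ s, a i) (∑ i ∈ s, a' i) := by
  classical
  induction s using Finset.induction_on with
  | empty => simpa using RedA_poly C C' (RedA_rp0 o)
  | insert i s hi ih =>
    rw [Finset.sum_insert hi, Finset.sum_insert hi]
    exact RedA_add C C' (h i) ih

theorem RedA_gr (C : Cub 𝕜 L) (C' : Cub κ L') {o : Pm 𝕜 κ} (hf : o.Rp C.f C'.f) :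
    RedA_Gr (RedA_rel C C' o) := by
  refine ⟨?_, by simpa using RedA_poly C C' (Pm.rp_one (o := o)),
    by simpa using RedA_poly C C' (RedA_rp0 o), ?_, RedA_add C C', ?_⟩
  · rintro a a' a'' ⟨A, A', h1, h2, rfl⟩ ⟨B, B', k1, k2, rfl⟩
    have e : A - B = 0 := C.indep (by
      simp only [Pi.sub_apply, map_sub, sub_mul, Finset.sum_sub_distrib, ← h2, ← k2, sub_self])
    obtain rfl := sub_eq_zero.1 e
    exact Finset.sum_congr rfl fun i _ => by rw [(h1 i).unique (k1 i)]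
  · rintro a a' ⟨A, A', h1, rfl, rfl⟩
    refine ⟨fun i => 0 - A i, fun i => 0 - A' i, fun i => (RedA_rp0 o).sub (h1 i), ?_, ?_⟩ <;> simp
  · rintro a a' b b' ⟨A, A', h1, rfl, rfl⟩ ⟨B, B', k1, rfl, rfl⟩
    rw [Finset.sum_mul_sum, Finset.sum_mul_sum]
    refine RedA_sum C C' _ fun i => RedA_sum C C' _ fun j => ?_
    have := RedA_pow C C' hf ((h1 i).mul (k1 j)) (i + j)
    rwa [map_mul, map_mul, pow_add, pow_add, mul_mul_mul_comm,
      mul_mul_mul_comm (aeval C'.x (A' i))] at this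

theorem RedA_lift (o : Pm 𝕜 κ) (p' : κ[X]) : ∃ p, o.Rp p p' := by
  have hs : Function.Surjective o.hom := fun b => by
    obtain ⟨a, ha, h⟩ := o.surj b
    exact ⟨⟨a, ha⟩, h⟩
  obtain ⟨r, hr⟩ := Polynomial.map_surjective _ hs p'
  exact ⟨_, Pm.rp_iff.2 ⟨r, rfl, hr⟩⟩

theorem RedA_val (C : Cub 𝕜 L) (C' : Cub κ L') (o : Pm 𝕜 κ) (u : L) :
    ∃ d d' a', RedA_rel C C' o d d' ∧ RedA_rel C C' o (u * d) a' ∧ (d' ≠ 0 ∨ a' ≠ 0) := by
  obtain ⟨a, d, hd, h⟩ := C.decomp u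
  obtain ⟨i0, l, f', -, h2, h3⟩ := o.exists_prim (fun i : Option (Fin ll) => i.elim d a) ⟨none, hd⟩
  generalize (i0.elim d a).coeff l = e at h3
  refine ⟨_, _, _, RedA_poly C C' (h3 none),
    ⟨_, fun i => f' (some i), fun i => h3 (some i), ?_, rfl⟩, ?_⟩
  · simp only [map_mul, Option.elim, mul_assoc, ← Finset.mul_sum, ← h]
    ring
  · by_contra hn
    push Not at hn
    have e0 := C'.indep hn.2
    rcases i0 with _ | i
    · exact C'.aeval_ne h2 hn.1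
    · exact h2 (congrFun e0 i)

theorem exists_red (C : Cub 𝕜 L) (C' : Cub κ L') (o : Pm 𝕜 κ) (hf : o.Rp C.f C'.f)
    (hω : o.ρ C.ω = C'.ω) : ∃ R : Red C C', R.o = o := by
  obtain ⟨m, hm⟩ := RedA_abs (RedA_gr C C' hf) (fun u _ => RedA_val C C' o u) (fun b => by
    obtain ⟨a', d', hd, h⟩ := C'.decomp b
    choose a1 ha using fun i => RedA_lift o (a' i)
    obtain ⟨d1, hd1⟩ := RedA_lift o d'
    exact ⟨_, _, _, RedA_poly C C' hd1, C'.aeval_ne hd, a1, a', ha, rfl, h⟩)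
  have hc : ∀ c ∈ o.w, algebraMap 𝕜 L c ∈ m.w ∧
      m.ρ (algebraMap 𝕜 L c) = algebraMap κ L' (o.ρ c) := fun c h => by
    simpa using hm _ _ (RedA_poly C C' (Pm.rp_C h))
  have hx : C.x ∈ m.w ∧ m.ρ C.x = C'.x := by simpa using hm _ _ (RedA_poly C C' Pm.rp_X)
  have hy : C.y ∈ m.w ∧ m.ρ C.y = C'.y := by
    simpa using hm _ _ (RedA_pow C C' hf Pm.rp_one 1)
  refine ⟨⟨o, m, fun c => ⟨fun h => ?_, fun h => (hc c h).1⟩, fun c h => (hc c h).2, hx.1, hy.1,
    hx.2, hy.2, hf, hω⟩, rfl⟩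
  by_contra hn
  have c0 : c ≠ 0 := fun h0 => hn (h0 ▸ zero_mem _)
  have hi : c⁻¹ ∈ o.w := (o.w.mem_or_inv_mem c).resolve_left hn
  have h0 : o.ρ c⁻¹ = 0 := (o.zero_iff hi).2 (by
    rw [ValuationSubring.mem_nonunits_iff_or, inv_inv]
    exact Or.inr hn)
  have h1 := m.mul h (hc _ hi).1
  rw [← map_mul, mul_inv_cancel₀ c0, map_one, m.one, (hc _ hi).2, h0, map_zero, mul_zero] at h1
  exact one_ne_zero h1

end Pool.Agent.Hyp
end

-- merged part: Pool.Agent.Work.MP_60d5ce_nt.Hy.Ker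
section
/-!
# The kernel of reduction  (ported from Lt Ker)

* `ker_add`: raise both data to the level `ll ^ (j + j')` (`Kum.pow`); the elements `≡ 1` are a group.
* `mem_ker_of_pow`: `c0 = μ ^ (n * ll ^ j)`; `root_one` for `z = u * μ ^ ll ^ j / lam ^ ll ^ j`; the root of unity is a `ll ^ j`-th power.
* `mem_ker_iff`: for data `(j', u', lam')` compare `u ^ ll ^ j'` and `u' ^ ll ^ j` by `Kum.eq_iff`, then as before.
* `k1`: `Prim` gives a Kummer function `u` that is a unit (constants do not change the divisor); `σ u / σ' u ≡ 1`.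
* `eq_zero_of_fixed`: `pp s` is nilpotent on `T3` elements; if `c ≠ 0` the last nonzero iterate is fixed (`Tate_pp`).
-/

namespace Pool.Agent.Hyp

open Pool.Agent.Ell.AT

open PR0

variable {𝕜 L : Type} [Field 𝕜] [Field L] [Algebra 𝕜 L]

variable (𝕜) in
/-- every element is a constant times a unit -/
def Prim (w : ValuationSubring L) : Prop :=
  ∀ u : L, u ≠ 0 → ∃ c : 𝕜, c ≠ 0 ∧ Un w (u / algebraMap 𝕜 L c)

theorem Ker_one_mul {w : ValuationSubring L} {a b : L} (h : a - 1 ∈ w.nonunits)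
    (h' : b - 1 ∈ w.nonunits) : a * b - 1 ∈ w.nonunits :=
  nu_mul_sub (un_of_sub_one h').1 (one_mem _) h h' (one_mul 1)

theorem Ker_one_pow {w : ValuationSubring L} {a : L} (h : a - 1 ∈ w.nonunits) (n : ℕ) :
    a ^ n - 1 ∈ w.nonunits := by
  induction n with
  | zero => rw [pow_zero, sub_self]; exact zero_mem _
  | succ n ih => rw [pow_succ]; exact Ker_one_mul ih h

theorem Ker_one_inv {w : ValuationSubring L} {a : L} (h : a - 1 ∈ w.nonunits) :
    a⁻¹ - 1 ∈ w.nonunits := by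
  have h1 : Un w (1 : L) := un_of_sub_one (by rw [sub_self]; exact zero_mem _)
  have := nu_inv_sub (un_of_sub_one h) h1 h
  rwa [inv_one] at this

theorem Ker_root [IsAlgClosed 𝕜] {w : ValuationSubring L} {u lam : L} {n N : ℕ} (hn : n ≠ 0)
    (hN : N ≠ 0) (hl : lam ≠ 0) {c0 : 𝕜} (h0 : c0 ≠ 0)
    (h1 : u ^ n * algebraMap 𝕜 L c0 / lam ^ (n * N) - 1 ∈ w.nonunits) :
    ∃ lam' : L, lam' ≠ 0 ∧ u / lam' ^ N - 1 ∈ w.nonunits := by
  obtain ⟨μ, hμ⟩ := IsAlgClosed.exists_pow_nat_eq c0 (Nat.pos_of_ne_zero (mul_ne_zero hn hN))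
  have hμ0 : μ ≠ 0 := by
    rintro rfl
    rw [zero_pow (mul_ne_zero hn hN)] at hμ
    exact h0 hμ.symm
  have hz : (u * algebraMap 𝕜 L μ ^ N / lam ^ N) ^ n - 1 ∈ w.nonunits := by
    rw [div_pow, mul_pow, ← pow_mul, ← pow_mul, mul_comm N n, ← map_pow, hμ]
    exact h1
  obtain ⟨ζ, hζ, hz'⟩ := root_one (𝕜 := 𝕜) w hn hz
  obtain ⟨θ, hθ⟩ := IsAlgClosed.exists_pow_nat_eq ζ (Nat.pos_of_ne_zero hN)
  have hθ0 : θ ≠ 0 := by
    rintro rfl
    rw [zero_pow hN] at hθ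
    rw [← hθ, zero_pow hn] at hζ
    exact zero_ne_one hζ
  have hμ1 : algebraMap 𝕜 L μ ≠ 0 := (map_ne_zero _).2 hμ0
  have hθ1 : algebraMap 𝕜 L θ ≠ 0 := (map_ne_zero _).2 hθ0
  refine ⟨lam * algebraMap 𝕜 L θ / algebraMap 𝕜 L μ, div_ne_zero (mul_ne_zero hl hθ1) hμ1, ?_⟩
  have : u / (lam * algebraMap 𝕜 L θ / algebraMap 𝕜 L μ) ^ N
      = u * algebraMap 𝕜 L μ ^ N / lam ^ N / algebraMap 𝕜 L ζ := by
    rw [← hθ, map_pow, div_pow, mul_pow]
    field_simp
  rw [this]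
  exact hz'

variable [IsAlgClosed 𝕜] [Fact (IsFF 𝕜 L)]

theorem Ker_kum_const (N : ℕ) {c0 : 𝕜} (h0 : c0 ≠ 0) :
    Kum N (algebraMap 𝕜 L c0) (0 : Pic 𝕜 L) :=
  ⟨(map_ne_zero _).2 h0, 0, by rw [dv_const, smul_zero], map_zero _⟩

theorem Ker_kum_one (N : ℕ) : Kum N (1 : L) (0 : Pic 𝕜 L) := by
  have := Ker_kum_const (L := L) N (one_ne_zero (α := 𝕜))
  rwa [map_one] at this

/-- a Kummer function is a power modulo the maximal ideal -/
def KerP (w : ValuationSubring L) (c : Pic 𝕜 L) : Prop :=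
  ∃ (j : ℕ) (u lam : L), Kum (ll ^ j) u c ∧ lam ≠ 0 ∧ u / lam ^ ll ^ j - 1 ∈ w.nonunits

variable {w : ValuationSubring L} {c c' : Pic 𝕜 L} {j : ℕ} {u : L} {σ σ' : SA 𝕜 L}

theorem ker_zero : KerP w (0 : Pic 𝕜 L) := by
  refine ⟨0, 1, 1, Ker_kum_one _, one_ne_zero, ?_⟩
  rw [one_pow, div_one, sub_self]
  exact zero_mem _

theorem ker_add (h : KerP w c) (h' : KerP w c') : KerP w (c + c') := by
  obtain ⟨j, u, lam, h, hl, h1⟩ := h
  obtain ⟨j', u', lam', h', hl', h1'⟩ := h'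
  have k := h.pow (ll ^ j')
  have k' := h'.pow (ll ^ j)
  rw [mul_comm, ← pow_add] at k
  rw [← pow_add] at k'
  refine ⟨j + j', _, lam * lam', k.mul k', mul_ne_zero hl hl', ?_⟩
  have : u ^ ll ^ j' * u' ^ ll ^ j / (lam * lam') ^ ll ^ (j + j')
      = (u / lam ^ ll ^ j) ^ ll ^ j' * (u' / lam' ^ ll ^ j') ^ ll ^ j := by
    rw [div_pow, div_pow, ← pow_mul, ← pow_mul, mul_comm (ll ^ j') (ll ^ j), ← pow_add, mul_pow,
      mul_div_mul_comm]
  rw [this]
  exact Ker_one_mul (Ker_one_pow h1 _) (Ker_one_pow h1' _)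

theorem ker_neg (h : KerP w c) : KerP w (-c) := by
  obtain ⟨j, u, lam, h, hl, h1⟩ := h
  have k := (Ker_kum_one (ll ^ j)).div h
  rw [zero_sub] at k
  refine ⟨j, _, lam⁻¹, k, inv_ne_zero hl, ?_⟩
  have : 1 / u / lam⁻¹ ^ ll ^ j = (u / lam ^ ll ^ j)⁻¹ := by
    rw [inv_pow, one_div, div_inv_eq_mul, inv_div, div_eq_inv_mul]
  rw [this]
  exact Ker_one_inv h1

variable (𝕜) in
/-- the kernel of reduction -/
def Ker (w : ValuationSubring L) : AddSubgroup (Pic 𝕜 L) where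
  carrier := {c | KerP w c}
  add_mem' := ker_add
  zero_mem' := ker_zero
  neg_mem' := ker_neg

theorem ker_t3 (h : c ∈ Ker 𝕜 w) : T3 c := by
  obtain ⟨j, u, _, h, -⟩ := h
  exact ⟨j, h.tors⟩

theorem mem_ker_of_pow (h : Kum (ll ^ j) u c) {n : ℕ} (hn : n ≠ 0) {lam : L} (hl : lam ≠ 0) {c0 : 𝕜}
    (h0 : c0 ≠ 0) (h1 : u ^ n * algebraMap 𝕜 L c0 / lam ^ (n * ll ^ j) - 1 ∈ w.nonunits) :
    c ∈ Ker 𝕜 w := by
  obtain ⟨lam', hl', h2⟩ := Ker_root hn (pow_ne_zero j ll_ne_zero) hl h0 h1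
  exact ⟨j, u, lam', h, hl', h2⟩

theorem mem_ker_iff (h : Kum (ll ^ j) u c) :
    c ∈ Ker 𝕜 w ↔ ∃ lam : L, lam ≠ 0 ∧ u / lam ^ ll ^ j - 1 ∈ w.nonunits := by
  refine ⟨?_, fun ⟨lam, hl, h1⟩ => ⟨j, u, lam, h, hl, h1⟩⟩
  rintro ⟨j', u', lam', h', hl', h1'⟩
  have k := h.pow (ll ^ j')
  have k' := h'.pow (ll ^ j)
  rw [mul_comm] at k'
  have h3 : ∀ i : ℕ, (ll : ℕ) ^ i ≠ 0 := fun i => pow_ne_zero i ll_ne_zero
  obtain ⟨b, hb, hbe⟩ := (Kum.eq_iff (mul_ne_zero (h3 j') (h3 j)) k k').1 rfl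
  refine Ker_root (𝕜 := 𝕜) (h3 j') (h3 j) (mul_ne_zero hl' hb) (one_ne_zero (α := 𝕜)) ?_
  have : u ^ ll ^ j' * algebraMap 𝕜 L 1 / (lam' * b) ^ (ll ^ j' * ll ^ j)
      = (u' / lam' ^ ll ^ j') ^ ll ^ j := by
    rw [map_one, mul_one, hbe, mul_pow, mul_div_mul_right _ _ (pow_ne_zero _ hb), div_pow,
      ← pow_mul]
  rw [this]
  exact Ker_one_pow h1' _

theorem ker_pa (hσ : Stb w (sl σ)) (h : c ∈ Ker 𝕜 w) : pa σ c ∈ Ker 𝕜 w := by
  obtain ⟨j, u, lam, h, hl, h1⟩ := h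
  refine ⟨j, sl σ u, sl σ lam, h.sl σ, (map_ne_zero _).2 hl, ?_⟩
  have := hσ.nonunits.2 h1
  rwa [map_sub, map_div₀, map_pow, map_one] at this

theorem exists_kum_un (hP : Prim 𝕜 w) (h : ll ^ j • c = 0) : ∃ u, Un w u ∧ Kum (ll ^ j) u c := by
  obtain ⟨u, hu⟩ := exists_kum h
  obtain ⟨c0, h0, h1⟩ := hP u hu.1
  have k := hu.div (Ker_kum_const (ll ^ j) h0)
  rw [sub_zero] at k
  exact ⟨_, h1, k⟩

theorem k1 (hP : Prim 𝕜 w) (hσ' : Stb w (sl σ')) (h : ∀ a ∈ w, sl σ a - sl σ' a ∈ w.nonunits)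
    (hc : T3 c) : pa σ c - pa σ' c ∈ Ker 𝕜 w := by
  obtain ⟨e, he⟩ := hc
  obtain ⟨u, hu, k⟩ := exists_kum_un hP he
  refine ⟨e, _, 1, (k.sl σ).div (k.sl σ'), one_ne_zero, ?_⟩
  have h1 : Un w (sl σ' u) := hσ'.un.2 hu
  rw [one_pow, div_one, div_sub_one h1.ne_zero, div_eq_mul_inv]
  exact nu_mul_mem (h u hu.1) h1.inv.1

end Pool.Agent.Hyp
end

-- merged part: Pool.Agent.Work.MP_60d5ce_nt.Hy.RedB
section
/-!
# Constant reduction: structure of the valuation ring  (ported from Lt RedB)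

* `frac`: `decomp`, `exists_prim` for the numerator `(a, b, e)` and for the denominator; the reduction of the
  numerator is nonzero by `C'.indep`.
* `frac_mem`: in `frac`, `u / c` is a unit, so `c ∈ o.w` (`cw`).
* `stb`: `frac_mem`; `σ` maps integral polynomials to integral polynomials, and those with nonzero reduction to
  such (`Stb.nonunits`); apply the same to `σ⁻¹` (`sc σ ω` is a primitive cube root of unity, so a power of `ω`),
  or use `frac` directly: `u / c` and `σ (u / c)` are both units.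
* `compat`: `frac_mem`, `sl_aeval`.
* `ine`: `compat` for `σ, C'.s ^ i` and for `C.s ^ i, C'.s ^ i`.
-/

namespace Pool.Agent.Hyp

open Pool.Agent.Ell.AT

open Polynomial

variable {𝕜 L κ L' : Type} [Field 𝕜] [Field L] [Algebra 𝕜 L] [Field κ] [Field L'] [Algebra κ L']
  {C : Cub 𝕜 L} {C' : Cub κ L'}

namespace Red

variable (R : Red C C')

theorem ωw : C.ω ∈ R.o.w := by
  rcases R.o.w.mem_or_inv_mem C.ω with h | h
  · exact h
  · have h3 : C.ω * C.ω ^ (ll - 1) = 1 := by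
      rw [← pow_succ', Nat.sub_add_cancel ll_pos, C.hω.pow_eq_one]
    rw [eq_inv_of_mul_eq_one_left h3, ← inv_pow]
    exact pow_mem h _

theorem aeval {p : 𝕜[X]} {p' : κ[X]} (h : R.o.Rp p p') :
    Polynomial.aeval C.x p ∈ R.m.w ∧ R.m.ρ (Polynomial.aeval C.x p) = Polynomial.aeval C'.x p' := by
  obtain ⟨r, rfl, rfl⟩ := Pm.rp_iff.1 h
  clear h
  induction r using Polynomial.induction_on' with
  | add p q hp hq =>
    rw [Polynomial.map_add, Polynomial.map_add, map_add, map_add]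
    exact ⟨add_mem hp.1 hq.1, by rw [R.m.add hp.1 hq.1, hp.2, hq.2]⟩
  | monomial n a =>
    rw [Polynomial.map_monomial, Polynomial.map_monomial, aeval_monomial, aeval_monomial]
    have h1 : algebraMap 𝕜 L (R.o.w.subtype a) ∈ R.m.w := (R.cw _).2 a.2
    have h2 : C.x ^ n ∈ R.m.w := pow_mem R.xw n
    refine ⟨mul_mem h1 h2, ?_⟩
    rw [R.m.mul h1 h2, R.m.pow R.xw, R.xρ]
    congr 1
    exact R.cρ _ a.2

theorem cnon (c : 𝕜) : algebraMap 𝕜 L c ∈ R.m.w.nonunits ↔ c ∈ R.o.w.nonunits := by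
  rw [ValuationSubring.mem_nonunits_iff_or, ValuationSubring.mem_nonunits_iff_or, ← map_inv₀, R.cw,
    map_eq_zero]

theorem RedB_zero : R.o.Rp 0 0 := fun i => by
  simp [R.o.zero]

theorem RedB_tri {a : Fin ll → 𝕜[X]} {a' : Fin ll → κ[X]} (ha : ∀ i, R.o.Rp (a i) (a' i)) :
    ∑ i, Polynomial.aeval C.x (a i) * C.y ^ (i : ℕ) ∈ R.m.w ∧
    R.m.ρ (∑ i, Polynomial.aeval C.x (a i) * C.y ^ (i : ℕ)) =
      ∑ i, Polynomial.aeval C'.x (a' i) * C'.y ^ (i : ℕ) := by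
  have h1 : ∀ i : Fin ll, Polynomial.aeval C.x (a i) * C.y ^ (i : ℕ) ∈ R.m.w := fun i =>
    mul_mem (R.aeval (ha i)).1 (pow_mem R.yw _)
  refine ⟨sum_mem fun i _ => h1 i, ?_⟩
  have h2 := map_sum R.m.hom (fun i => (⟨_, h1 i⟩ : R.m.w)) Finset.univ
  have h3 : ((∑ i, (⟨_, h1 i⟩ : R.m.w) : R.m.w) : L) =
      ∑ i, Polynomial.aeval C.x (a i) * C.y ^ (i : ℕ) :=
    map_sum R.m.w.subtype (fun i => (⟨_, h1 i⟩ : R.m.w)) Finset.univ
  rw [← h3]
  refine h2.trans (Finset.sum_congr rfl fun i _ => ?_)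
  rw [← (R.aeval (ha i)).2, ← R.yρ, ← R.m.pow R.yw, ← R.m.mul (R.aeval (ha i)).1 (pow_mem R.yw _)]
  rfl

theorem RedB_tri_un {a : Fin ll → 𝕜[X]} {a' : Fin ll → κ[X]} (ha : ∀ i, R.o.Rp (a i) (a' i))
    (h0 : a' ≠ 0) : Un R.m.w (∑ i, Polynomial.aeval C.x (a i) * C.y ^ (i : ℕ)) := by
  obtain ⟨h1, h2⟩ := R.RedB_tri ha
  rw [R.m.un_iff h1, h2]
  exact fun h => h0 (C'.indep h)

theorem RedB_un {d : 𝕜[X]} {d' : κ[X]} (hd : R.o.Rp d d') (h0 : d' ≠ 0) :
    Un R.m.w (Polynomial.aeval C.x d) := by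
  obtain ⟨h1, h2⟩ := R.aeval hd
  rw [R.m.un_iff h1, h2]
  exact C'.aeval_ne h0

theorem RedB_mem_iff {u D N : L} {c : 𝕜} (hD : Un R.m.w D) (hN : Un R.m.w N)
    (h : u * D = algebraMap 𝕜 L c * N) : u ∈ R.m.w ↔ c ∈ R.o.w := by
  rw [← R.cw]
  constructor
  · intro hu
    have : algebraMap 𝕜 L c = u * D * N⁻¹ := by
      rw [h, mul_assoc, mul_inv_cancel₀ hN.ne_zero, mul_one]
    rw [this]
    exact mul_mem (mul_mem hu hD.1) hN.inv.1
  · intro hc
    have : u = algebraMap 𝕜 L c * N * D⁻¹ := by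
      rw [← h, mul_assoc, mul_inv_cancel₀ hD.ne_zero, mul_one]
    rw [this]
    exact mul_mem (mul_mem hc hN.1) hD.inv.1

theorem RedB_prim1 {p : 𝕜[X]} (hp : p ≠ 0) : ∃ (l : ℕ) (p' : κ[X]), p.coeff l ≠ 0 ∧ p' ≠ 0 ∧
    R.o.Rp (Polynomial.C (p.coeff l)⁻¹ * p) p' := by
  obtain ⟨i0, l, f', h1, h2, h3⟩ := R.o.exists_prim (fun _ : Unit => p) ⟨(), hp⟩
  exact ⟨l, f' i0, h1, h2, h3 i0⟩

theorem frac {u : L} (hu : u ≠ 0) : ∃ (c : 𝕜) (a : Fin ll → 𝕜[X]) (d : 𝕜[X]) (a' : Fin ll → κ[X])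
    (d' : κ[X]), c ≠ 0 ∧ (∀ i, R.o.Rp (a i) (a' i)) ∧ R.o.Rp d d' ∧ d' ≠ 0 ∧ a' ≠ 0 ∧
    u * Polynomial.aeval C.x d = algebraMap 𝕜 L c *
      ∑ i, Polynomial.aeval C.x (a i) * C.y ^ (i : ℕ) := by
  obtain ⟨a, d, hd, h⟩ := C.decomp u
  have hne : ∃ i, a i ≠ 0 := by
    by_contra hc
    push Not at hc
    simp only [hc, map_zero, zero_mul, Finset.sum_const_zero, mul_eq_zero] at h
    exact h.elim hu (C.aeval_ne hd)
  obtain ⟨i0, l, f', h1, h2, h3⟩ := R.o.exists_prim a hne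
  obtain ⟨l', d', g1, g2, g3⟩ := R.RedB_prim1 hd
  refine ⟨(a i0).coeff l / d.coeff l', _, _, f', d', div_ne_zero h1 g1, h3, g3, g2,
    fun k => h2 (congrFun k i0), ?_⟩
  have n1 : algebraMap 𝕜 L ((a i0).coeff l) ≠ 0 := (_root_.map_ne_zero _).2 h1
  have n2 : algebraMap 𝕜 L (d.coeff l') ≠ 0 := (_root_.map_ne_zero _).2 g1
  simp only [map_mul, aeval_C, map_inv₀, map_div₀, mul_assoc, ← Finset.mul_sum, ← h]
  field_simp

theorem prim : Prim 𝕜 R.m.w := by
  intro u hu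
  obtain ⟨c, a, d, a', d', hc, ha, hd, hd0, h0, h⟩ := R.frac hu
  refine ⟨c, hc, ?_⟩
  have hD := R.RedB_un hd hd0
  have hN := R.RedB_tri_un ha h0
  have n1 : algebraMap 𝕜 L c ≠ 0 := (_root_.map_ne_zero _).2 hc
  have : u / algebraMap 𝕜 L c = (∑ i, Polynomial.aeval C.x (a i) * C.y ^ (i : ℕ)) *
      (Polynomial.aeval C.x d)⁻¹ := by
    have n2 := hD.ne_zero
    field_simp
    linear_combination h
  rw [this]
  exact hN.mul hD.inv

theorem frac_mem {u : L} (hu : u ∈ R.m.w) : ∃ (a : Fin ll → 𝕜[X]) (d : 𝕜[X]) (a' : Fin ll → κ[X])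
    (d' : κ[X]), (∀ i, R.o.Rp (a i) (a' i)) ∧ R.o.Rp d d' ∧ d' ≠ 0 ∧
    u * Polynomial.aeval C.x d = ∑ i, Polynomial.aeval C.x (a i) * C.y ^ (i : ℕ) := by
  by_cases h0 : u = 0
  · exact ⟨0, 1, 0, 1, fun _ => R.RedB_zero, Pm.rp_one, one_ne_zero, by simp [h0]⟩
  obtain ⟨c, a, d, a', d', hc, ha, hd, hd0, h1, h⟩ := R.frac h0
  have hcw : c ∈ R.o.w := (R.RedB_mem_iff (R.RedB_un hd hd0) (R.RedB_tri_un ha h1) h).1 hu
  have hC := Pm.rp_C (o := R.o) hcw
  refine ⟨_, d, _, d', fun i => hC.mul (ha i), hd, hd0, ?_⟩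
  simp only [map_mul, aeval_C, mul_assoc, ← Finset.mul_sum, h]

theorem gauss {p : 𝕜[X]} (hp : p ≠ 0) :
    ∃ l, p.coeff l ≠ 0 ∧ Un R.m.w (Polynomial.aeval C.x p / algebraMap 𝕜 L (p.coeff l)) := by
  obtain ⟨l, p', h1, h2, h3⟩ := R.RedB_prim1 hp
  refine ⟨l, h1, ?_⟩
  have := R.RedB_un h3 h2
  rwa [map_mul, aeval_C, map_inv₀, mul_comm, ← div_eq_mul_inv] at this

theorem rp_of_mem {p : 𝕜[X]} (h : Polynomial.aeval C.x p ∈ R.m.w) : ∃ p', R.o.Rp p p' := by
  by_cases hp : p = 0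
  · exact ⟨0, hp ▸ R.RedB_zero⟩
  obtain ⟨l, p', h1, h2, h3⟩ := R.RedB_prim1 hp
  have hN := R.RedB_un h3 h2
  have hone : Un R.m.w 1 := un_iff.2 ⟨one_ne_zero, one_mem _, by rw [inv_one]; exact one_mem _⟩
  have n1 : algebraMap 𝕜 L (p.coeff l) ≠ 0 := (_root_.map_ne_zero _).2 h1
  have hcw : p.coeff l ∈ R.o.w := (R.RedB_mem_iff hone hN (by
    rw [map_mul, aeval_C, map_inv₀]
    field_simp)).1 h
  have := (Pm.rp_C (o := R.o) hcw).mul h3
  rw [← mul_assoc, ← Polynomial.C_mul, mul_inv_cancel₀ h1, Polynomial.C_1, one_mul] at this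
  exact ⟨_, this⟩

theorem base {u : L} (hu : u ∈ R.m.w) (h : C.Base u) : C'.Base (R.m.ρ u) := by
  obtain ⟨a, d, hd, rfl⟩ := h
  obtain ⟨l, d', h1, h2, h3⟩ := R.RedB_prim1 hd
  have hD := R.RedB_un h3 h2
  have n1 : algebraMap 𝕜 L (d.coeff l) ≠ 0 := (_root_.map_ne_zero _).2 h1
  have n2 := C.aeval_ne hd
  have e1 : Polynomial.aeval C.x (Polynomial.C (d.coeff l)⁻¹ * a) =
      Polynomial.aeval C.x a / Polynomial.aeval C.x d *
        Polynomial.aeval C.x (Polynomial.C (d.coeff l)⁻¹ * d) := by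
    simp only [map_mul, aeval_C, map_inv₀]
    field_simp
  have hA : Polynomial.aeval C.x (Polynomial.C (d.coeff l)⁻¹ * a) ∈ R.m.w := by
    rw [e1]
    exact mul_mem hu hD.1
  obtain ⟨a', ha'⟩ := R.rp_of_mem hA
  refine ⟨a', d', h2, ?_⟩
  have e2 := R.m.mul hu hD.1
  rw [← e1, (R.aeval ha').2, (R.aeval h3).2] at e2
  rw [e2, mul_div_assoc, div_self (C'.aeval_ne h2), mul_one]

variable {σ : SA 𝕜 L} {i : ℕ}

theorem RedB_map {θ : 𝕜 ≃+* 𝕜} (h : Stb R.o.w θ) {p : 𝕜[X]} {p' : κ[X]} (hp : R.o.Rp p p') :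
    ∃ q, R.o.Rp (p.map (θ : 𝕜 →+* 𝕜)) q ∧ (q = 0 → p' = 0) := by
  have hm : ∀ i, (p.map (θ : 𝕜 →+* 𝕜)).coeff i ∈ R.o.w := fun i => by
    rw [coeff_map]
    exact (h _).2 (hp i).1
  obtain ⟨q, hq⟩ := Pm.exists_rp hm
  refine ⟨q, hq, fun h0 => Polynomial.ext fun i => ?_⟩
  have h1 := (hq i).2
  rw [h0, coeff_zero] at h1
  have h2 := (R.o.zero_iff (hm i)).1 h1.symm
  rw [coeff_map] at h2
  rw [(hp i).2, coeff_zero]
  exact (R.o.zero_iff (hp i).1).2 (h.nonunits.1 h2)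

theorem RedB_map' {θ : 𝕜 ≃+* 𝕜} (h : Stb R.o.w θ) {θ' : κ ≃+* κ}
    (h' : ∀ c ∈ R.o.w, R.o.ρ (θ c) = θ' (R.o.ρ c)) {p : 𝕜[X]} {p' : κ[X]} (hp : R.o.Rp p p') :
    R.o.Rp (p.map (θ : 𝕜 →+* 𝕜)) (p'.map (θ' : κ →+* κ)) := fun i => by
  rw [coeff_map, coeff_map]
  refine ⟨(h _).2 (hp i).1, ?_⟩
  rw [(hp i).2]
  exact (h' _ (hp i).1).symm

theorem RedB_om (n : ℕ) : R.o.Rp (Polynomial.C (C.ω ^ n)) (Polynomial.C (C'.ω ^ n)) := by
  have := Pm.rp_C (o := R.o) (pow_mem R.ωw n)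
  rwa [R.o.pow R.ωw, R.ωρ] at this


theorem RedB_sl (hx : sl σ C.x = C.x) (hy : sl σ C.y = algebraMap 𝕜 L (C.ω ^ i) * C.y)
    (a : Fin ll → 𝕜[X]) :
    sl σ (∑ n, Polynomial.aeval C.x (a n) * C.y ^ (n : ℕ)) =
      ∑ n : Fin ll, Polynomial.aeval C.x (Polynomial.C (C.ω ^ (n * i)) *
        (a n).map (sc σ : 𝕜 →+* 𝕜)) * C.y ^ (n : ℕ) := by
  rw [map_sum]
  refine Finset.sum_congr rfl fun n _ => ?_
  rw [map_mul (sl σ), map_pow (sl σ), sl_aeval, hx, hy]
  simp only [map_mul, aeval_C, map_pow]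
  ring

theorem stb (h : Stb R.o.w (sc σ)) (hx : sl σ C.x = C.x)
    (hy : sl σ C.y = algebraMap 𝕜 L (C.ω ^ i) * C.y) : Stb R.m.w (sl σ) := by
  intro u
  by_cases h0 : u = 0
  · simp [h0]
  obtain ⟨c, a, d, a', d', hc, ha, hd, hd0, h1, h2⟩ := R.frac h0
  rw [R.RedB_mem_iff (R.RedB_un hd hd0) (R.RedB_tri_un ha h1) h2, ← h c]
  choose a2 ha2 ha3 using fun n => R.RedB_map h (ha n)
  obtain ⟨d2, hd2, hd3⟩ := R.RedB_map h hd
  have hω : C'.ω ≠ 0 := C'.hω.ne_zero ll_ne_zero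
  have hN := R.RedB_tri_un (fun n => (R.RedB_om (n * i)).mul (ha2 n)) fun k =>
    h1 (funext fun n => ha3 n ((mul_eq_zero.1 (congrFun k n)).resolve_left
      (Polynomial.C_ne_zero.2 (pow_ne_zero _ hω))))
  refine R.RedB_mem_iff (R.RedB_un hd2 fun k => hd0 (hd3 k)) hN ?_
  have := congrArg (sl σ) h2
  rw [map_mul, map_mul, sl_const, RedB_sl hx hy, sl_aeval, hx] at this
  exact this

theorem stb_s (i : ℕ) : Stb R.m.w (sl (C.s ^ i)) := by
  refine R.stb (i := i) ?_ (C.s_pow_x i) (C.s_pow_y i)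
  rw [map_pow, C.s_c, one_pow]
  exact fun _ => Iff.rfl

theorem compat (h : Stb R.o.w (sc σ)) (hx : sl σ C.x = C.x)
    (hy : sl σ C.y = algebraMap 𝕜 L (C.ω ^ i) * C.y) {σ' : SA κ L'}
    (h' : ∀ c ∈ R.o.w, R.o.ρ (sc σ c) = sc σ' (R.o.ρ c)) (hx' : sl σ' C'.x = C'.x)
    (hy' : sl σ' C'.y = algebraMap κ L' (C'.ω ^ i) * C'.y) :
    ∀ u ∈ R.m.w, R.m.ρ (sl σ u) = sl σ' (R.m.ρ u) := by
  intro u hu
  have hu' : sl σ u ∈ R.m.w := (R.stb h hx hy u).2 hu
  obtain ⟨a, d, a', d', ha, hd, hd0, h2⟩ := R.frac_mem hu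
  have e1 := congrArg (sl σ) h2
  rw [map_mul, RedB_sl hx hy, sl_aeval, hx] at e1
  have hd2 := R.RedB_map' h h' hd
  have e2 := congrArg R.m.ρ e1
  rw [R.m.mul hu' (R.aeval hd2).1, (R.aeval hd2).2,
    (R.RedB_tri fun n => (R.RedB_om (n * i)).mul (R.RedB_map' h h' (ha n))).2] at e2
  have e3 := congrArg R.m.ρ h2
  rw [R.m.mul hu (R.aeval hd).1, (R.aeval hd).2, (R.RedB_tri ha).2] at e3
  have e4 := congrArg (sl σ') e3
  rw [map_mul, RedB_sl hx' hy', sl_aeval, hx', ← e2] at e4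
  have n1 : Polynomial.aeval C'.x (d'.map (sc σ' : κ →+* κ)) ≠ 0 :=
    C'.aeval_ne (Polynomial.map_ne_zero hd0)
  exact (mul_right_cancel₀ n1 e4).symm

theorem compat_s : ∀ u ∈ R.m.w, R.m.ρ (sl C.s u) = sl C'.s (R.m.ρ u) := by
  refine R.compat (i := 1) ?_ C.s_x (by rw [pow_one]; exact C.s_y) ?_ C'.s_x
    (by rw [pow_one]; exact C'.s_y)
  · rw [C.s_c]
    exact fun _ => Iff.rfl
  · intro c _
    rw [C.s_c, C'.s_c]
    rfl

theorem ine (h : Ine R.o.w (sc σ)) (hx : sl σ C.x = C.x)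
    (hy : sl σ C.y = algebraMap 𝕜 L (C.ω ^ i) * C.y) :
    ∀ a ∈ R.m.w, sl σ a - sl (C.s ^ i) a ∈ R.m.w.nonunits := by
  intro a ha
  have k1 : sc (C.s ^ i) = 1 := by rw [map_pow, C.s_c, one_pow]
  have k2 : sc (C'.s ^ i) = 1 := by rw [map_pow, C'.s_c, one_pow]
  have e1 := R.compat h.1 hx hy (σ' := C'.s ^ i) (fun c hc => by
    rw [k2]
    exact (R.o.eq_iff ((h.1 c).2 hc) hc).2 (h.2 c hc)) (C'.s_pow_x i) (C'.s_pow_y i) a ha
  have e2 := R.compat (σ := C.s ^ i) (by rw [k1]; exact fun _ => Iff.rfl) (C.s_pow_x i) (C.s_pow_y i)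
    (σ' := C'.s ^ i) (fun c _ => by rw [k1, k2]; rfl) (C'.s_pow_x i) (C'.s_pow_y i) a ha
  exact (R.m.eq_iff ((R.stb h.1 hx hy a).2 ha) ((R.stb_s i a).2 ha)).1 (e1.trans e2.symm)

end Red

end Pool.Agent.Hyp
end

-- merged part: Pool.Agent.Work.MP_60d5ce_nt.Hy.RedK
section
/-!
# Regularity is preserved by reduction at unramified places  (ported from Lt RedK)

The disc over `ξ` is the set of `P` with `pr P = some b`, `b ∈ o.w`, `ρ b = ξ`; it is stable under `s` (`pr_s`).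
* `reg_base`: `u = p / q` with `p, q` coprime (divide by the gcd).  A root `b` of `q` in the disc gives a pole at `pt (some b)`
  (`ord_aeval`).  `rp_split` for `q`: `c * q` reduces to `q'` with `q' ξ ≠ 0`; `c * p = u * (c * q) ∈ w`, `rp_of_mem`;
  `ρ u = p' x' / q' x'` is regular at `P'` (`val_aeval`).
* `reg_disc`: `ll * a k * y ^ k` is the sum of the `ω ^ (j (ll - k)) * s ^ j u` for
  `u = ∑ a i * y ^ i` with base elements `a i` (`decomp`); `ll` and `y` are units of `w` (`C'.three_ne`, `C'.y_ne`), `y` is a unit at the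
  places of the disc since `f' ξ ≠ 0`; `reg_base`.
* `reg`: multiply `u` by `∏ (y - val y) ^ m` over the finitely many poles `P` in the disc (none of them is `To`, so
  `ρ (val y) ≠ val' y'`); the reduction of the product is a unit at `P'`; `reg_disc`.
-/

namespace Pool.Agent.Hyp

open Pool.Agent.Ell.AT

open PR0 Polynomial

variable {𝕜 L κ L' : Type} [Field 𝕜] [Field L] [Algebra 𝕜 L] [Field κ] [Field L'] [Algebra κ L']
  {C : Cub 𝕜 L} {C' : Cub κ L'}

theorem RedK_root (w : ValuationSubring 𝕜) {a : 𝕜} {n : ℕ} (hn : n ≠ 0) (h : a ^ n ∈ w) :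
    a ∈ w := by
  rw [← w.valuation_le_one_iff] at h ⊢
  rw [map_pow] at h
  exact (pow_le_one_iff_of_nonneg zero_le hn).1 h

theorem RedK_un [IsAlgClosed 𝕜] [Fact (IsFF 𝕜 L)] {P : Place 𝕜 L} {b : L} (hb : b ∈ P.1)
    (h : P.val b ≠ 0) : b ≠ 0 ∧ b⁻¹ ∈ P.1 := by
  rw [Ne, Place.val_eq_zero hb, ← P.valuation_lt_one_iff] at h
  have := un_iff.1 (un_iff_val.2
    (le_antisymm ((P.1.valuation_le_one_iff b).2 hb) (not_lt.1 h)))
  exact ⟨this.1, this.2.2⟩

theorem RedK_coprime {u : L} (hb : C.Base u) : ∃ p q : 𝕜[X], q ≠ 0 ∧ IsCoprime p q ∧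
    u * aeval C.x q = aeval C.x p := by
  classical
  obtain ⟨a, d, hd, rfl⟩ := hb
  obtain ⟨p, q, hp, hq, hu⟩ := extract_gcd a d
  have hq0 : q ≠ 0 := fun h => hd (by rw [hq, h, mul_zero])
  have hg : gcd a d ≠ 0 := fun h => hd (by rw [hq, h, zero_mul])
  refine ⟨p, q, hq0, (gcd_isUnit_iff p q).1 hu, ?_⟩
  have h1 := C.aeval_ne hd
  have h2 := congrArg (aeval C.x) hp
  have h3 := congrArg (aeval C.x) hq
  rw [map_mul] at h2 h3
  field_simp
  linear_combination (aeval C.x q) * h2 - (aeval C.x p) * h3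

theorem RedK_dec (C : Cub 𝕜 L) (u : L) : ∃ a : Fin ll → L, (∀ i, C.Base (a i)) ∧
    u = ∑ i, a i * C.y ^ (i : ℕ) := by
  obtain ⟨a, d, hd, h⟩ := C.decomp u
  refine ⟨fun i => aeval C.x (a i) / aeval C.x d, fun i => ⟨a i, d, hd, rfl⟩, ?_⟩
  rw [eq_div_of_mul_eq (C.aeval_ne hd) h, Finset.sum_div]
  exact Finset.sum_congr rfl fun i _ => (div_mul_eq_mul_div _ _ _).symm
theorem RedK_fix {a : L} (ha : C.Base a) (j : ℕ) : sl (C.s ^ j) a = a := by
  induction j with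
  | zero => rw [pow_zero, phi_one]
  | succ j ih => rw [pow_succ, phi_mul, C.fix_iff.2 ha, ih]

theorem RedK_geom {ω : 𝕜} (hω : IsPrimitiveRoot ω ll) (i k : Fin ll) :
    ∑ j ∈ Finset.range ll, (ω ^ (ll - k + i)) ^ j = if i = k then (ll : 𝕜) else 0 := by
  have hi := i.2
  have hk := k.2
  split_ifs with h
  · subst h
    rw [Nat.sub_add_cancel hi.le, hω.pow_eq_one]
    simp
  · have h1 : ω ^ (ll - k + i) - 1 ≠ 0 := fun h1 => h (Fin.ext (by
      obtain ⟨m, hm⟩ := (hω.pow_eq_one_iff_dvd _).1 (sub_eq_zero.1 h1)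
      have h2 : m = 1 := by
        rcases m with _ | _ | m
        · omega
        · rfl
        · rw [mul_add, mul_add] at hm
          omega
      rw [h2] at hm
      omega))
    refine (mul_eq_zero.1 ?_).resolve_right h1
    rw [geom_sum_mul, ← pow_mul, mul_comm, pow_mul, hω.pow_eq_one, one_pow, sub_self]


theorem RedK_comp (V : ValuationSubring L) {u : L} {a : Fin ll → L} (ha : ∀ i, C.Base (a i))
    (hu : u = ∑ i, a i * C.y ^ (i : ℕ)) (h0 : ∀ j : ℕ, sl (C.s ^ j) u ∈ V)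
    (hω : algebraMap 𝕜 L C.ω ∈ V) (h3 : (ll : L)⁻¹ ∈ V)
    (hy : C.y⁻¹ ∈ V) : ∀ i, a i ∈ V := by
  intro k
  have t0 : (ll : L) ≠ 0 := by
    have := (map_ne_zero (algebraMap 𝕜 L)).2 C.three_ne
    rwa [map_natCast] at this
  have e : ∑ j ∈ Finset.range ll, algebraMap 𝕜 L C.ω ^ (j * (ll - k)) * sl (C.s ^ j) u =
      ll * (a k * C.y ^ (k : ℕ)) := by
    have e1 : ∀ j, algebraMap 𝕜 L C.ω ^ (j * (ll - k)) * sl (C.s ^ j) u =
        ∑ i : Fin ll, algebraMap 𝕜 L ((C.ω ^ (ll - k + i)) ^ j) * (a i * C.y ^ (i : ℕ)) := by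
      intro j
      rw [hu, map_sum, Finset.mul_sum]
      refine Finset.sum_congr rfl fun i _ => ?_
      rw [map_mul, map_pow (sl (C.s ^ j)), RedK_fix (ha i), C.s_pow_y]
      simp only [map_pow]
      ring
    rw [Finset.sum_congr rfl fun j _ => e1 j, Finset.sum_comm, Finset.sum_eq_single k]
    · rw [← Finset.sum_mul, ← map_sum, RedK_geom C.hω, if_pos rfl, map_natCast]
    · intro i _ hi
      rw [← Finset.sum_mul, ← map_sum, RedK_geom C.hω, if_neg hi, map_zero, zero_mul]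
    · exact fun h => absurd (Finset.mem_univ k) h
  have e2 : a k = (ll : L)⁻¹ * (C.y⁻¹ ^ (k : ℕ) * (ll * (a k * C.y ^ (k : ℕ)))) := by
    rw [mul_left_comm (C.y⁻¹ ^ (k : ℕ)), inv_mul_cancel_left₀ t0, mul_left_comm, ← mul_pow,
      inv_mul_cancel₀ C.y_ne, one_pow, mul_one]
  rw [e2, ← e]
  exact mul_mem h3 (mul_mem (pow_mem hy _)
    (sum_mem fun j _ => mul_mem (pow_mem hω _) (h0 j)))

namespace Red

variable (R : Red C C')

/-- the places over the residue disc of `ξ` -/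
def Disc (ξ : κ) (P : Place 𝕜 L) : Prop := ∃ b ∈ R.o.w, C.pr P = some b ∧ R.o.ρ b = ξ

/-- `P` reduces to the finite place `P'` -/
def To (P : Place 𝕜 L) (P' : Place κ L') : Prop :=
  ∃ ξ, C'.pr P' = some ξ ∧ R.Disc ξ P ∧ R.o.ρ (P.val C.y) = P'.val C'.y

variable [IsAlgClosed 𝕜] [Fact (IsFF 𝕜 L)] [IsAlgClosed κ] [Fact (IsFF κ L')] {ξ : κ}
  {P : Place 𝕜 L} {P' : Place κ L'} {u : L}

theorem val_y (h : R.Disc ξ P) : P.val C.y ∈ R.o.w ∧ R.o.ρ (P.val C.y) ^ ll = C'.f.eval ξ := by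
  obtain ⟨b, hb, hP, rfl⟩ := h
  have h1 := (C.y_mem hP).2
  have h2 := R.fρ.eval hb
  have h3 : P.val C.y ∈ R.o.w := RedK_root R.o.w (n := ll) ll_ne_zero (h1 ▸ h2.1)
  exact ⟨h3, by rw [← R.o.pow h3, h1, h2.2]⟩

theorem reg_base (hP : C'.pr P' = some ξ) (hu : u ∈ R.m.w) (hb : C.Base u)
    (h : ∀ P, R.Disc ξ P → u ∈ P.1) : R.m.ρ u ∈ P'.1 := by
  obtain ⟨p, q, hq, hpq, hu'⟩ := RedK_coprime hb
  obtain ⟨c, q', -, hc, hq'⟩ := R.o.rp_split hq ξ fun b hb hr hξ => by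
    have hpt := C.pr_pt (some b)
    have h1 := C.val_aeval hpt p
    have h2 := C.val_aeval hpt q
    have h3 := Place.val_mul (h _ ⟨b, hb, hpt, hξ⟩) h2.1
    rw [hu', h1.2, h2.2, hr.eq_zero, mul_zero] at h3
    obtain ⟨r, t, hrt⟩ := hpq
    have := congrArg (eval b) hrt
    simp [h3, hr.eq_zero] at this
  have h1 := R.aeval hc
  have e : u * Polynomial.aeval C.x (Polynomial.C c * q) =
      Polynomial.aeval C.x (Polynomial.C c * p) := by
    rw [map_mul, map_mul, ← hu']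
    ring
  obtain ⟨p', hp'⟩ := R.rp_of_mem (e ▸ mul_mem hu h1.1)
  have h2 := (R.aeval hp').2
  rw [← e, R.m.mul hu h1.1, h1.2] at h2
  have h3 := C'.val_aeval hP q'
  obtain ⟨h4, h5⟩ := RedK_un h3.1 (h3.2 ▸ hq')
  rw [(eq_mul_inv_iff_mul_eq₀ h4).2 h2]
  exact mul_mem (C'.val_aeval hP p').1 h5

theorem RedK_s (h : R.Disc ξ P) : R.Disc ξ (C.s • P) := by
  obtain ⟨b, hb, hP, hξ⟩ := h
  exact ⟨b, hb, by rw [C.pr_s, hP], hξ⟩
theorem RedK_sp (h : R.Disc ξ P) (j : ℕ) : R.Disc ξ (C.s ^ j • P) := by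
  induction j with
  | zero => rwa [pow_zero, one_smul]
  | succ j ih =>
    rw [pow_succ', mul_smul]
    exact R.RedK_s ih


theorem RedK_sl (h : ∀ P, R.Disc ξ P → u ∈ P.1) : ∀ P, R.Disc ξ P → sl C.s u ∈ P.1 := by
  intro P hP
  have e : C.s • C.s ^ (ll - 1) • P = P := by
    rw [← mul_smul, ← pow_succ', Nat.sub_add_cancel ll_pos, C.sss_smul]
  rw [← e, sl_mem]
  exact h _ (R.RedK_sp hP _)
theorem RedK_slp (h : ∀ P, R.Disc ξ P → u ∈ P.1) (j : ℕ) :
    ∀ P, R.Disc ξ P → sl (C.s ^ j) u ∈ P.1 := by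
  induction j with
  | zero => simpa only [pow_zero, phi_one] using h
  | succ j ih => simpa only [pow_succ', phi_mul] using R.RedK_sl ih


theorem reg_disc (hP : C'.pr P' = some ξ) (hξ : ¬ C'.f.IsRoot ξ) (hu : u ∈ R.m.w)
    (h : ∀ P, R.Disc ξ P → u ∈ P.1) : R.m.ρ u ∈ P'.1 := by
  obtain ⟨a, ha, hd⟩ := RedK_dec C u
  have h3 : (ll : L)⁻¹ ∈ R.m.w := by
    have m3 : (ll : L) ∈ R.m.w := natCast_mem _ ll
    refine (un_iff.1 ((R.m.un_iff m3).2 ?_)).2.2
    have e3 : R.m.ρ ll = ll := map_natCast R.m.hom ll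
    have := (map_ne_zero (algebraMap κ L')).2 C'.three_ne
    rwa [map_natCast, ← e3] at this
  have hy : C.y⁻¹ ∈ R.m.w := (un_iff.1 ((R.m.un_iff R.yw).2 (R.yρ ▸ C'.y_ne))).2.2
  have a1 := RedK_comp R.m.w ha hd (fun j => (R.stb_s j _).2 hu) ((R.cw _).2 R.ωw) h3 hy
  have key : ∀ P, R.Disc ξ P → ∀ i, a i ∈ P.1 := fun P hP => by
    refine RedK_comp P.1 ha hd (fun j => R.RedK_slp h j P hP)
      (P.2.2 _) (by simpa only [map_inv₀, map_natCast] using P.2.2 (ll : 𝕜)⁻¹) ?_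
    have h1 := (R.val_y hP).2
    obtain ⟨_, -, h2, -⟩ := hP
    refine (RedK_un (C.y_mem h2).1 fun h0 => hξ ?_).2
    rw [h0, R.o.zero] at h1
    rw [IsRoot.def, ← h1, zero_pow ll_ne_zero]
  have y1 := (C'.y_mem hP).1
  rw [hd, R.m.sum _ fun i _ => mul_mem (a1 i) (pow_mem R.yw _)]
  refine sum_mem fun i _ => ?_
  rw [R.m.mul (a1 i) (pow_mem R.yw _), R.m.pow R.yw, R.yρ]
  exact mul_mem (R.reg_base hP (a1 i) (ha i) fun P hP => key P hP i) (pow_mem y1 _)

theorem RedK_ind (hP : C'.pr P' = some ξ) (hξ : ¬ C'.f.IsRoot ξ) (S : Finset (Place 𝕜 L))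
    (hS : ∀ P ∈ S, R.Disc ξ P ∧ ¬ R.To P P') : ∀ u ∈ R.m.w,
    (∀ P, R.Disc ξ P → P ∉ S → u ∈ P.1) → R.m.ρ u ∈ P'.1 := by
  classical
  induction S using Finset.induction_on with
  | empty => exact fun u hu h => R.reg_disc hP hξ hu fun P hP => h P hP (Finset.notMem_empty P)
  | insert Q S hQ ih =>
    intro u hu h
    obtain ⟨d1, d2⟩ := hS Q (Finset.mem_insert_self Q S)
    have c1 := (R.val_y d1).1
    have c2 := (R.cw _).2 c1
    have z1 : C.y - algebraMap 𝕜 L (Q.val C.y) ∈ R.m.w := sub_mem R.yw c2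
    have hy : ∀ P, R.Disc ξ P → C.y ∈ P.1 := by
      rintro P ⟨_, -, h2, -⟩
      exact (C.y_mem h2).1
    have := ih (fun P hP => hS P (Finset.mem_insert_of_mem hP))
      (u * (C.y - algebraMap 𝕜 L (Q.val C.y)) ^ (-Q.ord u).toNat) (mul_mem hu (pow_mem z1 _))
      fun P hP hPS => by
        by_cases e : P = Q
        · subst e
          have g1 : P.Ge u (P.ord u) := .inr le_rfl
          exact P.mem_iff.2 ((g1.mul ((Place.ge_sub_val (hy P hP)).pow _)).mono (by omega))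
        · exact mul_mem (h P hP (by simp [e, hPS])) (pow_mem (sub_mem (hy P hP) (P.2.2 _)) _)
    rw [R.m.mul hu (pow_mem z1 _), R.m.pow z1, R.m.sub R.yw c2, R.yρ, R.cρ _ c1] at this
    have z2 : C'.y - algebraMap κ L' (R.o.ρ (Q.val C.y)) ∈ P'.1 :=
      sub_mem (C'.y_mem hP).1 (P'.2.2 _)
    obtain ⟨h4, h5⟩ := RedK_un z2 fun h0 =>
      d2 ⟨ξ, hP, d1, (Place.val_eq ((Place.val_eq_zero z2).1 h0)).symm⟩
    have h6 := mul_mem this (pow_mem h5 (-Q.ord u).toNat)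
    rwa [mul_assoc, ← mul_pow, mul_inv_cancel₀ h4, one_pow, mul_one] at h6

theorem reg (h1 : C'.pr P' = some ξ) (h2 : ¬ C'.f.IsRoot ξ) (hu : u ∈ R.m.w)
    (h : ∀ P, R.To P P' → u ∈ P.1) : R.m.ρ u ∈ P'.1 := by
  have hf : {P | R.Disc ξ P ∧ u ∉ P.1}.Finite := (finite_poles u).subset fun P hP => hP.2
  refine R.RedK_ind h1 h2 hf.toFinset (fun P hP => ?_) u hu fun P hP hPS => ?_
  · rw [Set.Finite.mem_toFinset] at hP
    exact ⟨hP.1, fun h' => hP.2 (h P h')⟩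
  · by_contra h'
    exact hPS (hf.mem_toFinset.2 ⟨hP, h'⟩)

end Red

end Pool.Agent.Hyp
end

-- merged part: Pool.Agent.Work.MP_60d5ce_nt.Hy.FrobFin
section
/-!
# Finiteness of the classes fixed by a Frobenius  (ported from Lt FrobFin)

`γ` from `rr_bdd`, `Pi = pt none`.  For `dg D = 0` let `m : ℕ` be least with `ell (D + m • Pi) ≠ 0`; `m ≤ γ + 1`.
Then `ell (D + m • Pi) = 1`: for `m > 0` by `rr_ell_step`; for `m = 0` the class is zero.  So there is exactly one effective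
divisor `E` in the class of `D + m • Pi` (`rr_le_of_mem`, `rr_exists`), and `σ • E = E`.  The support of `E` has at most `m`
points and is stable under `σ`, so each of its points is fixed by `σ ^ (M !)`, `M = (γ + 1).toNat`; such places are
finitely many (`pr_smul`, `finite_fib`, `hfin`), and the coefficients lie in `[0, M]`.
-/

namespace Pool.Agent.Hyp

open Pool.Agent.Ell.AT

open PR0

variable {𝕜 L : Type} [Field 𝕜] [Field L] [Algebra 𝕜 L] [IsAlgClosed 𝕜] [Fact (IsFF 𝕜 L)]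

theorem FrobFin_ell (P : Place 𝕜 L) : ∃ M : ℕ, ∀ D : Dv 𝕜 L, dg D = 0 →
    ∃ m : ℕ, m ≤ M ∧ ell (D + Finsupp.single P (m : ℤ)) = 1 := by
  classical
  obtain ⟨γ, hγ⟩ := rr_bdd (K := 𝕜) (L := L)
  refine ⟨(γ + 1).toNat, fun D hD => ?_⟩
  have hM : ell (D + Finsupp.single P (((γ + 1).toNat : ℕ) : ℤ)) ≠ 0 := fun h => by
    have := hγ (D + Finsupp.single P (((γ + 1).toNat : ℕ) : ℤ))
    rw [h, dg_add, hD, dg_single] at this
    omega
  have hex : ∃ m : ℕ, ell (D + Finsupp.single P (m : ℤ)) ≠ 0 := ⟨_, hM⟩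
  refine ⟨Nat.find hex, Nat.find_min' hex hM, ?_⟩
  have h1 := Nat.find_spec hex
  have h2 := fun m => Nat.find_min hex (m := m)
  generalize Nat.find hex = m at h1 h2
  have h0 : ell (D + Finsupp.single P ((m : ℤ) - 1)) = 0 := by
    rcases m with _ | m
    · rw [ell, Lsp_eq_bot (by rw [dg_add, hD, dg_single]; simp), finrank_bot]
    · simpa using h2 m (Nat.lt_succ_self m)
  have e : D + Finsupp.single P (m : ℤ) =
      D + Finsupp.single P ((m : ℤ) - 1) + Finsupp.single P 1 := by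
    rw [add_assoc, ← Finsupp.single_add, sub_add_cancel]
  rw [e] at h1 ⊢
  rcases rr_ell_step (D + Finsupp.single P ((m : ℤ) - 1)) P with h | h
  · rw [h.1, h0]
  · exact absurd (by rw [ell, h.1]; exact h0) h1

theorem FrobFin_uniq {D E E' : Dv 𝕜 L} (h : ell D = 1) (hE : 0 ≤ E) (hE' : 0 ≤ E')
    (h1 : cl E = cl D) (h2 : cl E' = cl D) : E = E' := by
  have key : ∀ a : L, a ≠ 0 → 0 ≤ D + dv 𝕜 a → a ∈ Lsp D := fun a ha h P => Or.inr (by
    have := h P
    rw [Finsupp.add_apply, dv_apply ha, Finsupp.coe_zero, Pi.zero_apply] at this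
    omega)
  obtain ⟨a, ha, rfl⟩ := cl_eq_iff.1 h1
  obtain ⟨b, hb, rfl⟩ := cl_eq_iff.1 h2
  obtain ⟨c, hc⟩ := (finrank_eq_one_iff_of_nonzero' (K := 𝕜) (⟨a, key a ha hE⟩ : Lsp D)
    (fun e => ha (congrArg Subtype.val e))).1 h ⟨b, key b hb hE'⟩
  have e : algebraMap 𝕜 L c * a = b := by
    rw [← Algebra.smul_def]
    exact congrArg Subtype.val hc
  rw [← e] at hb ⊢
  rw [dv_mul (left_ne_zero_of_mul hb) ha, dv_const, zero_add]

omit [IsAlgClosed 𝕜] [Fact (IsFF 𝕜 L)] in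
theorem FrobFin_per {σ : SA 𝕜 L} {E : Dv 𝕜 L} (h : σ • E = E) {M : ℕ} (hM : E.support.card ≤ M)
    {P : Place 𝕜 L} (hP : P ∈ E.support) : σ ^ M.factorial • P = P := by
  have h1 : ∀ n : ℕ, σ ^ n • P ∈ E.support := fun n => by
    induction n with
    | zero => rwa [pow_zero, one_smul]
    | succ n ih =>
      rw [Finsupp.mem_support_iff] at ih ⊢
      rw [← h, dv_smul_apply, pow_succ', mul_smul, inv_smul_smul]
      exact ih
  have h2 : ∀ i j : ℕ, i < j → j ≤ M → σ ^ i • P = σ ^ j • P → σ ^ M.factorial • P = P := by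
    intro i j hij hj e
    obtain ⟨d, rfl⟩ := Nat.exists_eq_add_of_lt hij
    rw [add_assoc, pow_add, mul_smul, smul_left_cancel_iff] at e
    obtain ⟨k, hk⟩ : d + 1 ∣ M.factorial := Nat.dvd_factorial d.succ_pos (by omega)
    rw [hk, pow_mul]
    exact (MulAction.stabilizer (SA 𝕜 L) P).pow_mem e.symm k
  obtain ⟨i, hi, j, hj, hij, e⟩ := Finset.exists_ne_map_eq_of_card_lt_of_maps_to
    (s := Finset.range (M + 1)) (t := E.support) (by rw [Finset.card_range]; omega)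
    (f := fun n => σ ^ n • P) fun n _ => h1 n
  rw [Finset.mem_range] at hi hj
  rcases lt_or_gt_of_ne hij with h | h
  · exact h2 i j h (by omega) e
  · exact h2 j i h (by omega) e.symm

theorem FrobFin_fix (C : Cub 𝕜 L) (σ : SA 𝕜 L) (hx : sl σ C.x = C.x)
    (hfin : {a : 𝕜 | sc σ a = a}.Finite) : {P : Place 𝕜 L | σ • P = P}.Finite := by
  refine (((hfin.image some).insert none).biUnion fun z _ => C.finite_fib z).subset fun P hP => ?_
  have h := C.pr_smul hx P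
  rw [show σ • P = P from hP] at h
  refine Set.mem_biUnion (x := C.pr P) ?_ rfl
  rcases hz : C.pr P with _ | b
  · exact .inl rfl
  · rw [hz, Option.map_some, Option.some_inj] at h
    exact .inr ⟨b, h.symm, rfl⟩

omit [IsAlgClosed 𝕜] [Fact (IsFF 𝕜 L)] in
theorem FrobFin_card {E : Dv 𝕜 L} (hE : 0 ≤ E) :
    (E.support.card : ℤ) ≤ dg E ∧ ∀ P, E P ≤ dg E := by
  refine ⟨?_, fun P => ?_⟩
  · rw [Finset.card_eq_sum_ones, Nat.cast_sum]
    refine Finset.sum_le_sum fun P hP => ?_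
    have h1 := Finsupp.mem_support_iff.1 hP
    have h2 : 0 ≤ E P := hE P
    simp only [Nat.cast_one]
    omega
  · by_cases hP : P ∈ E.support
    · exact Finset.single_le_sum (f := fun P => E P) (fun Q _ => hE Q) hP
    · rw [Finsupp.notMem_support_iff.1 hP]
      exact Finset.sum_nonneg fun Q _ => hE Q

theorem Cub.frob_fin (C : Cub 𝕜 L) (σ : SA 𝕜 L) (hx : sl σ C.x = C.x)
    (hfin : ∀ m : ℕ, 0 < m → {a : 𝕜 | (sc σ ^ m) a = a}.Finite) :
    {c : Pic 𝕜 L | (∃ D, dg D = 0 ∧ cl D = c) ∧ pa σ c = c}.Finite := by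
  classical
  obtain ⟨M, hM⟩ := FrobFin_ell (C.pt none)
  have hx' : ∀ n : ℕ, sl (σ ^ n) C.x = C.x := fun n => by
    induction n with
    | zero => rw [pow_zero, phi_one]
    | succ n ih => rw [pow_succ, phi_mul, hx, ih]
  have hT := FrobFin_fix C (σ ^ M.factorial) (hx' _) (by
    rw [map_pow]
    exact hfin _ M.factorial_pos)
  refine ((Set.finite_Icc (0 : Dv 𝕜 L) (Finsupp.indicator hT.toFinset fun _ _ => (M : ℤ))).image
    fun E => cl E - cl (Finsupp.single (C.pt none) (dg E))).subset ?_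
  rintro _ ⟨⟨D, hD, rfl⟩, hc⟩
  obtain ⟨m, hm, h1⟩ := hM D hD
  obtain ⟨f, hf, hf0⟩ := rr_exists (D := D + Finsupp.single (C.pt none) (m : ℤ)) (by omega)
  have hE := rr_le_of_mem hf0 hf
  have hd : dg (D + Finsupp.single (C.pt none) (m : ℤ) + dv 𝕜 f) = m := by
    rw [dg_add, dg_add, hD, dg_single, dg_dv, zero_add, add_zero]
  have hcl : cl (D + Finsupp.single (C.pt none) (m : ℤ) + dv 𝕜 f) =
      cl (D + Finsupp.single (C.pt none) (m : ℤ)) := by
    rw [map_add, cl_dv, add_zero]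
  generalize D + Finsupp.single (C.pt none) (m : ℤ) + dv 𝕜 f = E at hE hd hcl
  have hs : σ • E = E := FrobFin_uniq h1 (fun P => by rw [dv_smul_apply]; exact hE _) hE (by
    rw [← pa_cl, hcl, map_add, map_add, hc, pa_cl, smul_single, C.smul_inf hx]) hcl
  obtain ⟨h2, h3⟩ := FrobFin_card hE
  refine ⟨E, ⟨hE, fun P => ?_⟩, ?_⟩
  · by_cases hP : P ∈ E.support
    · rw [Finsupp.indicator_of_mem (hT.mem_toFinset.2 (FrobFin_per hs (by omega) hP))]
      have := h3 P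
      omega
    · rw [Finsupp.notMem_support_iff.1 hP, Finsupp.indicator_apply]
      split_ifs <;> simp
  · simp only [hd, hcl, map_add, add_sub_cancel_right]

end Pool.Agent.Hyp
end

-- merged part: Pool.Agent.Work.MP_60d5ce_nt.Hy.RedL
section
/-!
# Reduction of torsion classes  (ported from Lt RedL)

* `k2_ram`: `nm u` is a base element whose order at every `P` is divisible by `N * ex P` (`ord_smul`); its divisor is
  `N • E` with `E` as in `base_dv`, so `nm u = c * μ ^ N = μ' ^ N` with a base element `μ'` (`const_of_dv`), a unit of `w`.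
  Reduce (`compat_s`): `C'.nm (ρ u) = (ρ μ') ^ N`; at a ramified `P'`: `ll * ord (ρ u) = N * ord (ρ μ')`, and `ll ∣ ord (ρ μ')` (`ex_dvd`).
* `k2_unr`: the `P` with `To P P'` are unramified, and determined by `pr P` (`eq_of_val`, `pr_eq_iff`, `val_smul`; `ω' ≠ 1`).
  Divide `u` by the finite product of the `(x - b) ^ ord u` over these `P` with `ord u ≠ 0`; each `x - b` is a unit of `w` with
  reduction `x' - ξ`, of order one at `P'`.  The quotient and its inverse are regular at all these `P`; `reg`.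
* `k4`: `σ'` from `C'.exists_sa θ (ω' ^ i)` (`map_f`, `fρ`).  Let `Rc c c'` mean `∃ j u, Un w u ∧ Kum (ll ^ j) u c ∧ Kum (ll ^ j) (ρ u) c'`.
  It is total on `T3` (`exists_kum_un`, `k2`), functional (common level by `Kum.pow`; `u1 = u2 * b ^ N` makes `b` a unit), additive,
  compatible with `s` and with `σ, σ'` (`compat`), and `Rc c 0` gives `c ∈ Ker` (lift `b'` by `m.surj`).  The reductions `c' n` lie in the finite
  set of `frob_fin` (`dg_of_tors`), `pp (c' (n + 1)) = c' n`, `c' 0 = 0`; if `c' m1 = c' m2` with `m1 < m2` then `c' m2` is fixed by a positive power of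
  the operator `pp`, which is nilpotent on it, so it is zero, and so are all earlier ones.
-/

namespace Pool.Agent.Hyp

open Pool.Agent.Ell.AT

open PR0 Polynomial

theorem RedL_seq {A : Type} [AddCommGroup A] (p : A →+ A) (c : ℕ → A) (h0 : c 0 = 0)
    (hs : ∀ n, p (c (n + 1)) = c n) {F : Set A} (hF : F.Finite) (hc : ∀ n, c n ∈ F) (n : ℕ) :
    c n = 0 := by
  have h1 : ∀ k m, p^[k] (c (m + k)) = c m := by
    intro k
    induction k with
    | zero => exact fun m => rfl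
    | succ k ih => exact fun m => by rw [Function.iterate_succ_apply, ← add_assoc, hs, ih]
  have h2 : ∀ k, p^[k] 0 = 0 := fun k => Function.iterate_fixed (map_zero p) k
  obtain ⟨a, b, hab, h3⟩ := hF.exists_lt_map_eq_of_forall_mem (f := fun k => c (n + k))
    fun k => hc _
  obtain ⟨d, rfl⟩ := Nat.exists_eq_add_of_lt hab
  have h4 : p^[d + 1] (c (n + a)) = c (n + a) := by
    have h5 := h1 (d + 1) (n + a)
    rw [show n + a + (d + 1) = n + (a + d + 1) by ring] at h5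
    exact (congrArg _ h3).trans h5
  have h6 := Function.iterate_fixed h4 (n + a)
  have h7 := h1 (n + a) 0
  rw [zero_add, h0] at h7
  rw [← Function.iterate_mul, add_one_mul, Function.iterate_add_apply, h7, h2] at h6
  rw [← h1 a n, ← h6, h2]

theorem RedL_un {L : Type} [Field L] {w : ValuationSubring L} {a : L} {N : ℕ} (hN : N ≠ 0)
    (h : Un w (a ^ N)) : Un w a := by
  rw [un_iff_val] at h ⊢
  rw [map_pow] at h
  exact (pow_eq_one_iff_of_nonneg zero_le hN).1 h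

theorem RedL_un_pow {L : Type} [Field L] {w : ValuationSubring L} {a : L} (h : Un w a) (N : ℕ) :
    Un w (a ^ N) := by
  simpa using h.zpow N

section

variable {𝕜 L : Type} [Field 𝕜] [Field L] [Algebra 𝕜 L] [IsAlgClosed 𝕜] [Fact (IsFF 𝕜 L)]

theorem RedL_div {u : L} {N : ℕ} (hu : u ≠ 0) (h : ∀ P : Place 𝕜 L, (N : ℤ) ∣ P.ord u) :
    ∃ D : Dv 𝕜 L, dv 𝕜 u = N • D := by
  refine ⟨(dv 𝕜 u).mapRange (fun n => n / N) (by simp), Finsupp.ext fun P => ?_⟩
  rw [Finsupp.smul_apply, Finsupp.mapRange_apply, dv_apply hu, nsmul_eq_mul,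
    Int.mul_ediv_cancel' (h P)]

theorem RedL_one (N : ℕ) : Kum N (1 : L) (0 : Pic 𝕜 L) :=
  ⟨one_ne_zero, 0, by simpa using dv_const (L := L) (1 : 𝕜), map_zero _⟩

theorem RedL_nm (C : Cub 𝕜 L) {u : L} {N : ℕ} (hN : N ≠ 0) (hu : u ≠ 0)
    (h : ∀ P : Place 𝕜 L, (N : ℤ) ∣ P.ord u) : ∃ μ, C.Base μ ∧ C.nm u = μ ^ N := by
  obtain ⟨D, hD⟩ := RedL_div hu h
  have h1 : dg D = 0 := dg_of_tors hN (by rw [← map_nsmul, ← hD, cl_dv])
  obtain ⟨ν, h2, h3, h4⟩ := C.norm_dv h1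
  have h5 := pow_ne_zero N h2
  obtain ⟨k, -, h6⟩ := const_of_dv (𝕜 := 𝕜) (div_ne_zero (C.nm_ne hu) h5) (by
    rw [dv_div (C.nm_ne hu) h5, dv_pow h2, C.PicD_nm hu, h4, hD, Finset.smul_sum,
      Finset.sum_congr rfl fun i _ => dv_smul_nsmul (C.s ^ i) N D, sub_self])
  obtain ⟨m, rfl⟩ := IsAlgClosed.exists_pow_nat_eq k (Nat.pos_of_ne_zero hN)
  refine ⟨algebraMap 𝕜 L m * ν, C.fix_iff.1 ?_, ?_⟩
  · rw [map_mul, C.s_const, C.fix_iff.2 h3]
  · rw [mul_pow, ← map_pow, ← h6, div_mul_cancel₀ _ h5]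

end

variable {𝕜 L κ L' : Type} [Field 𝕜] [Field L] [Algebra 𝕜 L] [Field κ] [Field L'] [Algebra κ L']
  {C : Cub 𝕜 L} {C' : Cub κ L'}
  [IsAlgClosed 𝕜] [Fact (IsFF 𝕜 L)] [IsAlgClosed κ] [Fact (IsFF κ L')]

namespace Red

variable (R : Red C C') {u : L} {N : ℕ} {P' : Place κ L'}
omit [IsAlgClosed 𝕜] [Fact (IsFF 𝕜 L)] [IsAlgClosed κ] [Fact (IsFF κ L')] in
theorem RedL_compat (i : ℕ) : ∀ u ∈ R.m.w, R.m.ρ (sl (C.s ^ i) u) = sl (C'.s ^ i) (R.m.ρ u) := by
  intro u hu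
  induction i with
  | zero => rw [pow_zero, pow_zero, phi_one, phi_one]
  | succ i ih =>
    rw [pow_succ', pow_succ', phi_mul, phi_mul, R.compat_s _ ((R.stb_s i _).2 hu), ih]


theorem k2_ram (hN : N ≠ 0) (hu : Un R.m.w u) (h : ∀ P : Place 𝕜 L, (N : ℤ) ∣ P.ord u)
    (hP : C'.Ram P') : (N : ℤ) ∣ P'.ord (R.m.ρ u) := by
  obtain ⟨μ, h1, h2⟩ := RedL_nm C hN hu.ne_zero h
  have n1 := (R.m.un_iff hu.1).1 hu
  have u1 : ∀ i ∈ Finset.range ll, sl (C.s ^ i) u ∈ R.m.w := fun i _ => (R.stb_s i _).2 hu.1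
  have h4 : R.m.ρ (C.nm u) = C'.nm (R.m.ρ u) :=
    (R.m.prod _ u1).trans (Finset.prod_congr rfl fun i _ => R.RedL_compat i u hu.1)
  have h3 : Un R.m.w μ :=
    RedL_un hN (h2 ▸ (R.m.un_iff (prod_mem u1)).2 (h4.trans_ne (C'.nm_ne n1)))
  have n2 := (R.m.un_iff h3.1).1 h3
  have h5 : ∀ i : ℕ, C'.s ^ i • P' = P' := fun i =>
    MulAction.mem_stabilizer_iff.1 (pow_mem (MulAction.mem_stabilizer_iff.2 hP) i)
  have h7 := C'.CubP_ord_nm P' n1
  simp only [h5, Finset.sum_const, Finset.card_range, nsmul_eq_mul] at h7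
  rw [← h4, h2, R.m.pow h3.1, P'.ord_pow n2] at h7
  obtain ⟨k, hk⟩ := C'.ex_dvd P' (R.base h3.1 h1) n2
  rw [Cub.ex, if_pos hP] at hk
  rw [hk] at h7
  exact ⟨k, mul_left_cancel₀ ll_ne_zeroZ (by rw [← h7]; ring)⟩

theorem RedL_ord {ξ : κ} (hξ : C'.pr P' = some ξ) (hf : ¬ C'.f.IsRoot ξ) {P Q : Place 𝕜 L} {b : 𝕜}
    (hP : R.To P P') (hQ : R.To Q P') (hb : C.pr Q = some b) :
    (P = Q → P.ord (C.x - algebraMap 𝕜 L b) = 1) ∧
      (P ≠ Q → P.ord (C.x - algebraMap 𝕜 L b) = 0) := by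
  obtain ⟨ξ1, p1, p2, p3⟩ := hP
  obtain ⟨ξ2, q1, q2, q3⟩ := hQ
  obtain rfl : ξ = ξ1 := Option.some_inj.1 (hξ.symm.trans p1)
  obtain rfl : ξ = ξ2 := Option.some_inj.1 (hξ.symm.trans q1)
  obtain ⟨p4, p5⟩ := R.val_y p2
  obtain ⟨q4, q5⟩ := R.val_y q2
  obtain ⟨a, a1, a2, a3⟩ := p2
  rw [C.ord_sub, if_neg (by simp [a2])]
  constructor
  · rintro rfl
    rw [if_pos hb, Cub.ex, if_neg]
    intro hr
    have h1 := (R.fρ.eval a1).2
    rw [(C.ram_root hr a2).eq_zero, R.o.zero, a3] at h1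
    exact hf h1.symm
  · intro hne
    refine if_neg fun hb' => hne (C.eq_of_val (fun hr => ?_) hb' hb ?_)
    · have h1 := (R.fρ.eval a1).2
      rw [Option.some_inj.1 (a2.symm.trans hb'), hr.eq_zero, R.o.zero,
        ← Option.some_inj.1 (a2.symm.trans hb'), a3] at h1
      exact hf h1.symm
    have h1 := (C.y_mem hb').2.trans (C.y_mem hb).2.symm
    have h2 := geom_sum₂_mul (P.val C.y) (Q.val C.y) ll
    rw [h1, sub_self] at h2
    refine sub_eq_zero.1 ((mul_eq_zero.1 h2).resolve_left fun h3 => ?_)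
    have h4 := congrArg R.o.ρ h3
    rw [R.o.sum _ fun i _ => mul_mem (pow_mem p4 _) (pow_mem q4 _), R.o.zero,
      Finset.sum_congr rfl fun i _ => by
        rw [R.o.mul (pow_mem p4 _) (pow_mem q4 _), R.o.pow p4, R.o.pow q4, q3, p3],
      geom_sum₂_self] at h4
    rw [p3, eq_zero_of_pow_eq_zero ((mul_eq_zero.1 h4).resolve_left C'.three_ne), zero_pow ll_ne_zero] at p5
    exact hf p5.symm

theorem RedL_unr {ξ : κ} (hξ : C'.pr P' = some ξ) (hf : ¬ C'.f.IsRoot ξ)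
    (S : Finset (Place 𝕜 L)) : ∀ u : L, Un R.m.w u →
    (∀ P, R.To P P' → (N : ℤ) ∣ P.ord u) → (∀ P, R.To P P' → P ∉ S → P.ord u = 0) →
    (N : ℤ) ∣ P'.ord (R.m.ρ u) := by
  classical
  induction S using Finset.induction_on with
  | empty =>
    intro u hu _ h0
    have h1 : ∀ P, R.To P P' → Un P.1 u := fun P hT =>
      (un_iff_ord P hu.ne_zero).2 (h0 P hT (Finset.notMem_empty P))
    have n1 := (R.m.un_iff hu.1).1 hu
    have h2 := R.reg hξ hf hu.1 fun P hT => (h1 P hT).1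
    have h3 := R.reg hξ hf hu.inv.1 fun P hT => (h1 P hT).inv.1
    rw [R.m.inv hu] at h3
    rw [(un_iff_ord P' n1).1 (un_iff.2 ⟨n1, h2, h3⟩)]
    exact dvd_zero _
  | insert Q S hQS ih =>
    intro u hu h h0
    by_cases hQ : R.To Q P'
    swap
    · exact ih u hu h fun P hT hS => h0 P hT fun h1 =>
        (Finset.mem_insert.1 h1).elim (fun e => hQ (e ▸ hT)) hS
    obtain ⟨ξ1, q1, ⟨b, b1, b2, b3⟩, -⟩ := id hQ
    obtain rfl : ξ = ξ1 := Option.some_inj.1 (hξ.symm.trans q1)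
    have t0 := C.x_sub_ne b
    have t1 := sub_mem R.xw ((R.cw b).2 b1)
    have t2 : R.m.ρ (C.x - algebraMap 𝕜 L b) = C'.x - algebraMap κ L' ξ := by
      rw [R.m.sub R.xw ((R.cw b).2 b1), R.xρ, R.cρ b b1, b3]
    have t3 : Un R.m.w (C.x - algebraMap 𝕜 L b) := (R.m.un_iff t1).2 (t2 ▸ C'.x_sub_ne ξ)
    have t4 : ∀ P : Place 𝕜 L, P.ord (u * (C.x - algebraMap 𝕜 L b) ^ (-Q.ord u)) =
        P.ord u - Q.ord u * P.ord (C.x - algebraMap 𝕜 L b) := fun P => by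
      rw [P.ord_mul hu.ne_zero (zpow_ne_zero _ t0), P.ord_zpow t0]
      ring
    have h1 := ih _ (hu.mul (t3.zpow (-Q.ord u)))
      (fun P hT => t4 P ▸ dvd_sub (h P hT) ((h Q hQ).mul_right _)) fun P hT hS => by
        rw [t4]
        by_cases e : P = Q
        · rw [(R.RedL_ord hξ hf hT hQ b2).1 e, e, mul_one, sub_self]
        · rw [(R.RedL_ord hξ hf hT hQ b2).2 e, mul_zero, sub_zero]
          exact h0 P hT fun h1 => (Finset.mem_insert.1 h1).elim e hS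
    rw [R.m.mul hu.1 (t3.zpow _).1, R.m.zpow t3, t2,
      P'.ord_mul ((R.m.un_iff hu.1).1 hu) (zpow_ne_zero _ (C'.x_sub_ne ξ)),
      P'.ord_zpow (C'.x_sub_ne ξ)] at h1
    exact (dvd_add_left ((h Q hQ).neg_right.mul_right _)).1 h1

theorem k2_unr (hu : Un R.m.w u) (h : ∀ P : Place 𝕜 L, (N : ℤ) ∣ P.ord u) {ξ : κ}
    (hξ : C'.pr P' = some ξ) (hf : ¬ C'.f.IsRoot ξ) : (N : ℤ) ∣ P'.ord (R.m.ρ u) := by
  refine R.RedL_unr hξ hf (finite_ord (K := 𝕜) hu.ne_zero).toFinset u hu (fun P _ => h P)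
    fun P _ h1 => by_contra fun h2 => h1 ?_
  exact (Set.Finite.mem_toFinset _).2 h2

theorem k2_pt (hN : N ≠ 0) (hu : Un R.m.w u) {c : Pic 𝕜 L} (h : Kum N u c)
    (hP : ∀ ξ, C'.pr P' = some ξ → C'.f.IsRoot ξ → C'.Sim ξ) : (N : ℤ) ∣ P'.ord (R.m.ρ u) := by
  obtain ⟨h0, D, hD, -⟩ := h
  have h1 : ∀ P : Place 𝕜 L, (N : ℤ) ∣ P.ord u := fun P =>
    ⟨D P, by rw [← dv_apply h0, hD, Finsupp.smul_apply, nsmul_eq_mul]⟩
  by_cases hr : C'.Ram P'
  · exact R.k2_ram hN hu h1 hr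
  · obtain ⟨ξ, hξ, hf⟩ : ∃ ξ, C'.pr P' = some ξ ∧ ¬ C'.f.IsRoot ξ := by
      by_contra h2
      exact hr (C'.ram_of fun b hb => hP b hb (by_contra fun h3 => h2 ⟨b, hb, h3⟩))
    exact R.k2_unr hu h1 hξ hf

theorem k2_of (hu : Un R.m.w u) (h : ∀ P' : Place κ L', (N : ℤ) ∣ P'.ord (R.m.ρ u)) :
    ∃ c' : Pic κ L', Kum N (R.m.ρ u) c' := by
  have n1 := (R.m.un_iff hu.1).1 hu
  obtain ⟨D', hD'⟩ := RedL_div (𝕜 := κ) (N := N) n1 h
  exact ⟨_, n1, D', hD', rfl⟩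

theorem k2 (hm : ∀ ξ, C'.f.IsRoot ξ → C'.Sim ξ) (hN : N ≠ 0) (hu : Un R.m.w u) {c : Pic 𝕜 L}
    (h : Kum N u c) : ∃ c' : Pic κ L', Kum N (R.m.ρ u) c' :=
  R.k2_of hu fun _ => R.k2_pt hN hu h fun ξ _ => hm ξ

/-- `c'` is the reduction of `c` -/
def RedL_Rc (c : Pic 𝕜 L) (c' : Pic κ L') : Prop :=
  ∃ (j : ℕ) (u : L), Un R.m.w u ∧ Kum (ll ^ j) u c ∧ Kum (ll ^ j) (R.m.ρ u) c'

variable {R} {a b : Pic 𝕜 L} {a' b' : Pic κ L'}

theorem RedL_total (hm : ∀ ξ, C'.f.IsRoot ξ → C'.Sim ξ) (h : T3 a) : ∃ a', R.RedL_Rc a a' := by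
  obtain ⟨j, hj⟩ := h
  obtain ⟨u, h1, h2⟩ := exists_kum_un R.prim hj
  obtain ⟨a', h3⟩ := R.k2 hm (pow_ne_zero j ll_ne_zero) h1 h2
  exact ⟨a', j, u, h1, h2, h3⟩

theorem RedL_Rc.sub (h : R.RedL_Rc a a') (h' : R.RedL_Rc b b') : R.RedL_Rc (a - b) (a' - b') := by
  obtain ⟨j, u, h1, h2, h3⟩ := h
  obtain ⟨l, v, k1, k2, k3⟩ := h'
  have h4 := h2.pow (ll ^ l)
  have h5 := h3.pow (ll ^ l)
  have k4 := k2.pow (ll ^ j)
  have k5 := k3.pow (ll ^ j)
  rw [← pow_add] at h4 h5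
  rw [← pow_add, add_comm] at k4 k5
  have u1 := RedL_un_pow h1 (ll ^ l)
  have v1 := RedL_un_pow k1 (ll ^ j)
  refine ⟨l + j, u ^ ll ^ l / v ^ ll ^ j, ?_, h4.div k4, ?_⟩
  · rw [div_eq_mul_inv]
    exact u1.mul v1.inv
  · rw [(R.m.div u1.1 v1).2, R.m.pow h1.1, R.m.pow k1.1]
    exact h5.div k5

theorem RedL_Rc.fn (h : R.RedL_Rc a a') (h' : R.RedL_Rc a b') : a' = b' := by
  obtain ⟨j, u, h1, h2, h3⟩ := h.sub h'
  have hN := pow_ne_zero j ll_ne_zero
  rw [sub_self] at h2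
  obtain ⟨v, -, hv⟩ := (Kum.eq_iff hN h2 (RedL_one _)).1 rfl
  rw [one_mul] at hv
  have h4 : Un R.m.w v := RedL_un hN (hv ▸ h1)
  refine sub_eq_zero.1 ((Kum.eq_iff hN h3 (RedL_one _)).2 ⟨_, (R.m.un_iff h4.1).1 h4, ?_⟩)
  rw [one_mul, hv, R.m.pow h4.1]

theorem RedL_Rc.pa (h : R.RedL_Rc a a') {τ : SA 𝕜 L} {τ' : SA κ L'} (h1 : Stb R.m.w (sl τ))
    (h2 : ∀ u ∈ R.m.w, R.m.ρ (sl τ u) = sl τ' (R.m.ρ u)) : R.RedL_Rc (pa τ a) (pa τ' a') := by
  obtain ⟨j, u, k1, k2, k3⟩ := h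
  exact ⟨j, sl τ u, h1.un.2 k1, k2.sl τ, h2 u k1.1 ▸ k3.sl τ'⟩

theorem RedL_Rc.ker (h : R.RedL_Rc a 0) : a ∈ Ker 𝕜 R.m.w := by
  obtain ⟨j, u, h1, h2, h3⟩ := h
  obtain ⟨v', h4, h5⟩ := (Kum.eq_iff (pow_ne_zero j ll_ne_zero) h3 (RedL_one _)).1 rfl
  obtain ⟨v, h6, rfl⟩ := R.m.surj v'
  have h7 := (R.m.un_iff h6).2 h4
  obtain ⟨h8, h9⟩ := R.m.div h1.1 (RedL_un_pow h7 (ll ^ j))
  refine ⟨j, u, v, h2, h7.ne_zero, (R.m.eq_iff h8 (one_mem _)).1 ?_⟩
  rw [h9, h5, one_mul, R.m.pow h6, div_self (pow_ne_zero _ h4), R.m.one]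

end Red

end Pool.Agent.Hyp
end
end

-- merged part: Pool.Agent.Work.MP_60d5ce_nt.Hy.Ov
section
-- merged part: Pool.Agent.Work.MP_60d5ce_nt.Hy.LocB
section
/-!
# Tame inertia: quotients of order dividing a power of six are generated by one element

Hints.
* `exists_tau`: `r ^ mo = π`; `g ↦ g r / r` is a homomorphism to the sixth roots of unity (`fixu`); if
  its image has order `m` then `r ^ m` is fixed by all `g`, so `2 ^ (-m / 6)` is an integral power of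
  two (`disc`), `m = 6`.
* `mem_of_fix`: `Γ = G / N` is finite (`LocB_open`), of order `e ∣ mo ^ n` (every prime divisor of the
  order is the order of an element).  Take `r ^ mo ^ (n + 1) = π`, `g r = r`.  For `a ≠ 0` fixed by `N`
  the product of `s a` over representatives `s` of `Γ` is fixed by `G` and has size `w a ^ e` (`iso`),
  so `w a = w (r ^ s)` for an integer `s`; `a = r ^ s * u` with `w u = 1` and `res` give
  `w (g a - a) < w a`, and the same for all powers of `g`.  If `g a ≠ a` for some `a` fixed by `N`, put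
  `b = g a - a ≠ 0` (fixed by `N`, which is normal); `∑ i < mo ^ j, g ^ i b = g ^ mo ^ j a - a = 0`, but the
  sum is `mo ^ j b` plus terms of size `< w b`, and `w 6 = 1`.  So `g` fixes the fixed field of the
  closed subgroup `N` (`InfiniteGalois.fixingSubgroup_fixedField`).
* `cyclic`: with `r` as in `mem_of_fix`, `τ r = η r`, `η ^ mo ^ n = z` (`r ^ mo ^ n` is a sixth root of
  `π`), so `η` is a primitive `mo ^ (n + 1)`-th root of unity (its order divides `mo ^ (n + 1)`, and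
  `η ^ (mo ^ (n + 1) / p) ≠ 1` for `p = 2, 3`), and `g r / r` is a power of `η`.
-/

namespace Pool.Agent.Hyp

open Pool.Agent.Quad

variable [Par]

variable {M Λ : Type} [Field M] [Field Λ] [Algebra M Λ] [IsGalois M Λ]

theorem LocB_open (N : Subgroup (Λ ≃ₐ[M] Λ)) (S : Finset Λ)
    (hS : ∀ g : Λ ≃ₐ[M] Λ, (∀ a ∈ S, g a = a) → g ∈ N) : IsOpen (N : Set (Λ ≃ₐ[M] Λ)) := by
  have : FiniteDimensional M (IntermediateField.adjoin M (S : Set Λ)) :=
    IntermediateField.finiteDimensional_adjoin fun x _ => Algebra.IsIntegral.isIntegral x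
  refine Subgroup.isOpen_mono (fun g hg => hS g fun a ha => ?_)
    (IntermediateField.fixingSubgroup_isOpen (IntermediateField.adjoin M (S : Set Λ)))
  exact (IntermediateField.mem_fixingSubgroup_iff _ _).1 hg a
    (IntermediateField.subset_adjoin _ _ ha)

/-- The data of a tamely ramified situation over the maximal unramified extension. -/
structure TI (M Λ : Type) [Field M] [Field Λ] [Algebra M Λ] where
  w : AbsoluteValue Λ ℝ
  z : Λ
  π : Λ
  hz : IsPrimitiveRoot z mo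
  hπ : w π = 2⁻¹
  fixπ : ∀ g : Λ ≃ₐ[M] Λ, g π = π
  fixu : ∀ (g : Λ ≃ₐ[M] Λ) (u : Λ) (n : ℕ), 0 < n → u ^ n = 1 → g u = u
  na : IsNonarchimedean w
  six : w ((mo : ℕ) : Λ) = 1
  iso : ∀ (g : Λ ≃ₐ[M] Λ) (a : Λ), w (g a) = w a
  res : ∀ (g : Λ ≃ₐ[M] Λ) (a : Λ), w a ≤ 1 → w (g a - a) < 1
  disc : ∀ a : Λ, a ≠ 0 → (∀ g : Λ ≃ₐ[M] Λ, g a = a) → ∃ n : ℤ, w a = 2 ^ n
  root : ∀ n : ℕ, ∃ r : Λ, r ^ mo ^ n = π

namespace TI

variable (T : TI M Λ)

omit [IsGalois M Λ] in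
theorem π_ne : T.π ≠ 0 := by
  intro h
  have := T.hπ
  rw [h, map_zero] at this
  norm_num at this

omit [IsGalois M Λ] in
theorem root_ne {r : Λ} {n : ℕ} (hn : 0 < n) (hr : r ^ n = T.π) : r ≠ 0 := by
  rintro rfl
  rw [zero_pow hn.ne'] at hr
  exact T.π_ne hr.symm

include T in
omit [IsGalois M Λ] in
theorem LocB_pow {g : Λ ≃ₐ[M] Λ} {r u : Λ} {n : ℕ} (hn : 0 < n) (hu : u ^ n = 1) (h : g r = u * r)
    (k : ℕ) : (g ^ k) r = u ^ k * r := by
  induction k with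
  | zero => simp
  | succ k ih => rw [pow_succ, AlgEquiv.mul_apply, h, map_mul, ih, T.fixu _ u n hn hu]; ring

omit [IsGalois M Λ] in
theorem LocB_root {r u : Λ} {n : ℕ} (hn : 0 < n) (hr : r ^ n = T.π) (hu : IsPrimitiveRoot u n)
    (g : Λ ≃ₐ[M] Λ) : ∃ i < n, g r = u ^ i * r := by
  have : NeZero n := ⟨hn.ne'⟩
  obtain ⟨i, hi, e⟩ := hu.eq_pow_of_pow_eq_one (ξ := g r / r)
    (by rw [div_pow, ← map_pow, hr, T.fixπ, div_self T.π_ne])
  exact ⟨i, hi, by rw [e, div_mul_cancel₀ _ (T.root_ne hn hr)]⟩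

omit [IsGalois M Λ] in
theorem exists_tau : ∃ τ : Λ ≃ₐ[M] Λ, ∀ r, r ^ mo = T.π → τ r = T.z * r := by
  obtain ⟨r, hr⟩ := T.root 1
  rw [pow_one] at hr
  have h0 := T.root_ne mo_pos hr
  have hz0 : T.z ≠ 0 := T.hz.ne_zero mo_ne
  have hf : ∀ (g : Λ ≃ₐ[M] Λ) (i : ℤ), g (T.z ^ i) = T.z ^ i := fun g i => by
    rw [map_zpow₀, T.fixu g _ mo mo_pos T.hz.pow_eq_one]
  let S : AddSubgroup ℤ :=
    { carrier := {i | ∃ g : Λ ≃ₐ[M] Λ, g r = T.z ^ i * r}
      add_mem' := by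
        rintro a b ⟨g, hg⟩ ⟨h, hh⟩
        exact ⟨g * h, by rw [AlgEquiv.mul_apply, hh, map_mul, hf, hg, zpow_add₀ hz0]; ring⟩
      zero_mem' := ⟨1, by simp⟩
      neg_mem' := by
        rintro a ⟨g, hg⟩
        refine ⟨g⁻¹, ?_⟩
        have := congrArg (g⁻¹ : Λ ≃ₐ[M] Λ) hg
        rw [← AlgEquiv.mul_apply, inv_mul_cancel, AlgEquiv.one_apply, map_mul, hf] at this
        rw [zpow_neg, eq_inv_mul_iff_mul_eq₀ (zpow_ne_zero _ hz0), ← this] }
  obtain ⟨c, hc⟩ := Int.subgroup_cyclic S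
  have hmem : ∀ i, i ∈ S ↔ c ∣ i := fun i => by
    rw [hc, AddSubgroup.mem_closure_singleton]
    exact ⟨fun ⟨n, e⟩ => ⟨n, by rw [← e, smul_eq_mul, mul_comm]⟩,
      fun ⟨n, e⟩ => ⟨n, by rw [e, smul_eq_mul, mul_comm]⟩⟩
  have hzm : T.z ^ (mo : ℤ) = 1 := by rw [zpow_natCast, T.hz.pow_eq_one]
  obtain ⟨d, hd⟩ := (hmem mo).1 ⟨1, by simp [hzm]⟩
  obtain ⟨n, e⟩ := T.disc (r ^ d) (zpow_ne_zero _ h0) fun g => by
    obtain ⟨i, -, e⟩ := T.LocB_root mo_pos hr T.hz g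
    obtain ⟨a, ha⟩ := (hmem i).1 ⟨g, by rw [e, zpow_natCast]⟩
    rw [map_zpow₀, e, mul_zpow, ← zpow_natCast, ← zpow_mul, ha, mul_right_comm, ← hd, zpow_mul, hzm,
      one_zpow, one_mul]
  have h1 := T.hπ
  rw [← hr, ← zpow_natCast, hd, mul_comm, zpow_mul, map_zpow₀, e, ← zpow_mul, ← zpow_neg_one] at h1
  have h2 := zpow_right_injective₀ (by norm_num) (by norm_num) h1
  obtain ⟨τ, hτ⟩ := (hmem 1).2 ⟨-n, by linarith⟩
  refine ⟨τ, fun s hs => ?_⟩
  rw [← div_mul_cancel₀ s h0, map_mul, hτ,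
    T.fixu _ _ mo mo_pos (by rw [div_pow, hs, hr, div_self T.π_ne]), zpow_one]
  ring

omit [IsGalois M Λ] in
theorem LocB_norm (N : Subgroup (Λ ≃ₐ[M] Λ)) [Finite ((Λ ≃ₐ[M] Λ) ⧸ N)] {a : Λ} (h0 : a ≠ 0)
    (ha : ∀ g ∈ N, g a = a) : ∃ m : ℤ, T.w a ^ Nat.card ((Λ ≃ₐ[M] Λ) ⧸ N) = 2 ^ m := by
  have := Fintype.ofFinite ((Λ ≃ₐ[M] Λ) ⧸ N)
  let F : (Λ ≃ₐ[M] Λ) ⧸ N → Λ := fun q => Quotient.liftOn' q (fun s => s a) fun s t h => by
    rw [← mul_inv_cancel_left s t, AlgEquiv.mul_apply, ha _ (QuotientGroup.leftRel_apply.1 h)]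
  have h1 : ∀ q, T.w (F q) = T.w a := fun q => Quotient.inductionOn' q fun s => T.iso s a
  have h2 : T.w (∏ q, F q) = T.w a ^ Nat.card ((Λ ≃ₐ[M] Λ) ⧸ N) := by
    rw [map_prod, Finset.prod_congr rfl fun q _ => h1 q, Finset.prod_const, Finset.card_univ,
      Nat.card_eq_fintype_card]
  rw [← h2]
  refine T.disc _ (T.w.ne_zero_iff.1 (h2 ▸ pow_ne_zero _ (T.w.ne_zero h0))) fun g => ?_
  rw [map_prod]
  exact Fintype.prod_equiv (MulAction.toPerm g) _ _ fun q => Quotient.inductionOn' q fun s => rfl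

omit [IsGalois M Λ] in
theorem LocB_sum {c : ℝ} (hc : 0 < c) (x : ℕ → Λ) (h : ∀ i, T.w (x i) < c) (k : ℕ) :
    T.w (∑ i ∈ Finset.range k, x i) < c := by
  induction k with
  | zero => simpa
  | succ k ih => rw [Finset.sum_range_succ]; exact (T.na _ _).trans_lt (max_lt ih (h k))

/-- An element fixing a root of the uniformiser of large order is in `N`. -/
theorem mem_of_fix (N : Subgroup (Λ ≃ₐ[M] Λ)) [hN : N.Normal] (S : Finset Λ)
    (hS : ∀ g : Λ ≃ₐ[M] Λ, (∀ a ∈ S, g a = a) → g ∈ N) (h3 : ∀ g, ∃ j : ℕ, g ^ mo ^ j ∈ N) :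
    ∃ (n : ℕ) (r : Λ), r ^ mo ^ (n + 1) = T.π ∧ ∀ g : Λ ≃ₐ[M] Λ, g r = r → g ∈ N := by
  have ho := LocB_open N S hS
  have := N.quotient_finite_of_isOpen ho
  obtain ⟨n, hn⟩ : ∃ n, Nat.card ((Λ ≃ₐ[M] Λ) ⧸ N) ∣ mo ^ n :=
    ⟨_, (Nat.dvd_pow_self_iff Nat.card_pos.ne' mo_ne).2 fun p hp => by
      have hp' := Nat.prime_of_mem_primeFactors hp
      obtain ⟨x, hx⟩ := exists_prime_orderOf_dvd_card' p (hp := ⟨hp'⟩)
        (Nat.dvd_of_mem_primeFactors hp)
      obtain ⟨g, rfl⟩ := QuotientGroup.mk_surjective x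
      obtain ⟨j, hj⟩ := h3 g
      refine Nat.mem_primeFactors.2 ⟨hp', hp'.dvd_of_dvd_pow (n := j) ?_, mo_ne⟩
      rw [← hx, orderOf_dvd_iff_pow_eq_one, ← QuotientGroup.mk_pow, QuotientGroup.eq_one_iff]
      exact hj⟩
  obtain ⟨c, hc⟩ := hn.trans (pow_dvd_pow mo n.le_succ)
  obtain ⟨r, hr⟩ := T.root (n + 1)
  have hr0 := T.root_ne (pow_pos mo_pos _) hr
  have hlt : ∀ a, a ≠ 0 → (∀ h ∈ N, h a = a) → ∀ g : Λ ≃ₐ[M] Λ, g r = r →
      T.w (g a - a) < T.w a := fun a h0 ha g hg => by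
    obtain ⟨m, hm⟩ := T.LocB_norm N h0 ha
    have h1 : T.w (r ^ (-(m * c))) = T.w a := by
      refine (pow_left_inj₀ (T.w.nonneg _) (T.w.nonneg _)
        (pow_ne_zero (n + 1) mo_ne)).1 ?_
      rw [← map_pow, ← zpow_natCast, zpow_comm, zpow_natCast, hr, map_zpow₀, T.hπ, hc, pow_mul, hm,
        inv_zpow', neg_neg, zpow_mul, zpow_natCast]
    have h2 := zpow_ne_zero (-(m * c)) hr0
    have h4 := T.res g (a / r ^ (-(m * c))) (by rw [map_div₀, h1, div_self (T.w.ne_zero h0)])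
    rwa [map_div₀, map_zpow₀, hg, ← sub_div, map_div₀, h1, div_lt_one (T.w.pos h0)] at h4
  refine ⟨n, r, hr, fun g hg => ?_⟩
  refine (InfiniteGalois.fixingSubgroup_fixedField ⟨N, N.isClosed_of_isOpen ho⟩).le
    ((IntermediateField.mem_fixingSubgroup_iff _ _).2 fun a ha => ?_)
  replace ha : ∀ h ∈ N, h a = a := fun h hh => ha ⟨h, hh⟩
  by_contra hne
  have h0 := sub_ne_zero.2 hne
  have hb : ∀ h ∈ N, h (g a - a) = g a - a := fun h hh => by
    rw [map_sub, ha h hh, ← AlgEquiv.mul_apply, ← mul_inv_cancel_left g (h * g), ← mul_assoc g⁻¹,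
      AlgEquiv.mul_apply, ha _ (hN.conj_mem' h hh g)]
  obtain ⟨j, hj⟩ := h3 g
  have h1 := T.LocB_sum (T.w.pos h0) (fun i => (g ^ i) (g a - a) - (g a - a))
    (fun i => hlt _ h0 hb _ (by simpa using T.LocB_pow one_pos (one_pow 1) (by simpa using hg) i))
    (mo ^ j)
  have h2 : ∑ i ∈ Finset.range (mo ^ j), (g ^ i) (g a - a) = 0 := by
    simp only [map_sub, ← AlgEquiv.mul_apply, ← pow_succ]
    rw [Finset.sum_range_sub fun i => (g ^ i) a, ha _ hj, pow_zero, AlgEquiv.one_apply, sub_self]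
  rw [Finset.sum_sub_distrib, h2, zero_sub, T.w.map_neg, Finset.sum_const, Finset.card_range,
    nsmul_eq_mul, map_mul, Nat.cast_pow, map_pow, T.six, one_pow, one_mul] at h1
  exact h1.false

variable {T} {τ : Λ ≃ₐ[M] Λ} (hτ : ∀ r, r ^ mo = T.π → τ r = T.z * r)

include hτ

theorem cyclic (N : Subgroup (Λ ≃ₐ[M] Λ)) [N.Normal] (S : Finset Λ)
    (hS : ∀ g : Λ ≃ₐ[M] Λ, (∀ a ∈ S, g a = a) → g ∈ N) (h3 : ∀ g, ∃ j : ℕ, g ^ mo ^ j ∈ N)
    (g : Λ ≃ₐ[M] Λ) : ∃ m : ℤ, (τ ^ m)⁻¹ * g ∈ N := by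
  obtain ⟨n, r, hr, h⟩ := T.mem_of_fix N S hS h3
  have hn : 0 < mo ^ (n + 1) := pow_pos mo_pos _
  have h0 := T.root_ne hn hr
  have h1 : (τ r / r) ^ mo ^ n = T.z := by
    rw [div_pow, ← map_pow, hτ _ (by rw [← pow_mul, ← pow_succ, hr]),
      mul_div_cancel_right₀ _ (pow_ne_zero _ h0)]
  have h2 : (τ r / r) ^ mo ^ (n + 1) = 1 := by rw [pow_succ, pow_mul, h1, T.hz.pow_eq_one]
  have h4 : orderOf (τ r / r) = mo ^ (n + 1) :=
    orderOf_eq_of_pow_and_pow_div_prime hn h2 fun p hp hd => by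
      have h5 := hp.dvd_of_dvd_pow hd
      rw [pow_succ, Nat.mul_div_assoc _ h5, pow_mul, h1]
      exact T.hz.pow_ne_one_of_pos_of_lt (Nat.div_pos (Nat.le_of_dvd mo_pos h5) hp.pos).ne'
        (Nat.div_lt_self mo_pos hp.one_lt)
  obtain ⟨i, -, e⟩ := T.LocB_root hn hr (h4 ▸ IsPrimitiveRoot.orderOf (τ r / r)) g
  refine ⟨i, h _ ?_⟩
  rw [AlgEquiv.mul_apply, e, ← T.LocB_pow hn h2 (div_mul_cancel₀ _ h0).symm, zpow_natCast,
    ← AlgEquiv.mul_apply, inv_mul_cancel, AlgEquiv.one_apply]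

end TI

end Pool.Agent.Hyp
end

-- merged part: Pool.Agent.Work.MP_60d5ce_nt.Hy.LocA
section
/-!
# Valued Galois extensions whose residue field lifts: Frobenius, inertia, the tame relation
-/

namespace Pool.Agent.Hyp

open Pool.Agent.Quad

variable [Par]

open Polynomial

section small

variable {Λ : Type} [Field Λ] {w : AbsoluteValue Λ ℝ} (hw : IsNonarchimedean w)

include hw

theorem LocA_add_lt {a b : Λ} {t : ℝ} (ha : w a < t) (hb : w b < t) : w (a + b) < t :=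
  (hw a b).trans_lt (max_lt ha hb)

theorem LocA_add_le {a b : Λ} {t : ℝ} (ha : w a ≤ t) (hb : w b ≤ t) : w (a + b) ≤ t :=
  (hw a b).trans (max_le ha hb)

theorem LocA_sum_lt {ι : Type} (s : Finset ι) (f : ι → Λ) (h : ∀ i ∈ s, w (f i) < 1) :
    w (∑ i ∈ s, f i) < 1 :=
  Finset.sum_induction f (fun a => w a < 1) (fun _ _ => LocA_add_lt hw) (by simp) h

theorem LocA_sum_le {ι : Type} (s : Finset ι) (f : ι → Λ) (h : ∀ i ∈ s, w (f i) ≤ 1) :
    w (∑ i ∈ s, f i) ≤ 1 :=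
  Finset.sum_induction f (fun a => w a ≤ 1) (fun _ _ => LocA_add_le hw) (by simp) h

theorem LocA_trans {a b c : Λ} {t : ℝ} (h1 : w (a - b) < t) (h2 : w (b - c) < t) :
    w (a - c) < t := by
  rw [← sub_add_sub_cancel a b c]
  exact LocA_add_lt hw h1 h2

theorem LocA_le {a b : Λ} {t : ℝ} (hb : w b ≤ t) (h : w (a - b) < t) : w a ≤ t := by
  rw [← sub_add_cancel a b]
  exact LocA_add_le hw h.le hb

theorem LocA_eq {a b : Λ} (h : w (a - b) < w b) : w a = w b := by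
  refine le_antisymm (LocA_le hw le_rfl h) (not_lt.1 fun h1 => ?_)
  have := LocA_add_lt hw h1 ((w.map_sub b a).trans_lt h)
  rw [add_sub_cancel] at this
  exact lt_irrefl _ this

theorem LocA_pow {a b : Λ} (ha : w a ≤ 1) (hb : w b ≤ 1) (h : w (a - b) < 1) (n : ℕ) :
    w (a ^ n - b ^ n) < 1 := by
  rw [← (Commute.all a b).geom_sum₂_mul n, map_mul]
  refine mul_lt_one_of_nonneg_of_lt_one_right (LocA_sum_le hw _ _ fun i _ => ?_) (w.nonneg _) h
  rw [map_mul, map_pow, map_pow]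
  exact mul_le_one₀ (pow_le_one₀ (w.nonneg _) ha) (by positivity) (pow_le_one₀ (w.nonneg _) hb)

variable {C : Type} [Field C] {j : C →+* Λ} (hj : ∀ c, c ≠ 0 → w (j c) = 1)

include hj

omit hw in
theorem LocA_j_le (c : C) : w (j c) ≤ 1 := by
  by_cases h : c = 0
  · simp [h]
  · exact (hj c h).le

omit hw in
theorem LocA_j_eq {c c' : C} (h : w (j c - j c') < 1) : c = c' := by
  by_contra hne
  rw [← map_sub, hj _ (sub_ne_zero.2 hne)] at h
  exact lt_irrefl _ h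

theorem LocA_eval (g : C[X]) {a : Λ} {x : C} (h : w (a - j x) < 1) :
    w (eval₂ j a g - j (eval x g)) < 1 := by
  rw [eval₂_eq_sum_range, eval_eq_sum_range, map_sum, ← Finset.sum_sub_distrib]
  refine LocA_sum_lt hw _ _ fun i _ => ?_
  rw [map_mul, ← mul_sub, map_mul, map_pow j]
  exact mul_lt_one_of_nonneg_of_lt_one_right (LocA_j_le hj _) (w.nonneg _)
    (LocA_pow hw (LocA_le hw (LocA_j_le hj x) h) (LocA_j_le hj x) h i)

omit hw hj in
theorem LocA_root [IsAlgClosed C] {g : C[X]} (hg : g.Monic) {a : Λ} (h : w (eval₂ j a g) < 1) :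
    ∃ r, g.IsRoot r ∧ w (a - j r) < 1 := by
  by_contra hcon
  push Not at hcon
  refine absurd h (not_lt.2 ?_)
  rw [(IsAlgClosed.splits g).eq_prod_roots_of_monic hg, eval₂_multiset_prod, Multiset.map_map]
  refine Multiset.prod_induction (fun b => 1 ≤ w b) _ (fun b c hb hc => ?_) (by simp) ?_
  · rw [map_mul]
    exact one_le_mul_of_one_le_of_one_le hb hc
  · intro b hb
    obtain ⟨r, hr, rfl⟩ := Multiset.mem_map.1 hb
    simpa using hcon r ((mem_roots hg.ne_zero).1 hr)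

end small

theorem LocA_mem {Λ C : Type} [Field Λ] [Field C] [IsAlgClosed C] (j : C →+* Λ) {u : Λ} {n : ℕ}
    (hn : 0 < n) (hu : u ^ n = 1) : ∃ c, j c = u := by
  let _ : Algebra C Λ := j.toAlgebra
  have hi : IsIntegral C u := IsIntegral.of_pow hn (hu ▸ isIntegral_one)
  exact hi.mem_range_algebraMap_of_minpoly_splits (K := C) (IsAlgClosed.splits _)

theorem LocA_tors {Λ C : Type} [Field Λ] [Field C] (w : AbsoluteValue Λ ℝ) (j : C →+* Λ)
    (h : ∀ c : C, c ≠ 0 → ∃ n, 0 < n ∧ c ^ n = 1) (c : C) (hc : c ≠ 0) : w (j c) = 1 := by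
  obtain ⟨n, hn, h1⟩ := h c hc
  refine (pow_eq_one_iff_of_nonneg (w.nonneg _) hn.ne').1 ?_
  rw [← map_pow, ← map_pow, h1, map_one, map_one]

/-- Local data. -/
structure LD (L Λ C : Type) [Field L] [Field Λ] [Algebra L Λ] [Field C] where
  j : C →+* Λ
  w : AbsoluteValue Λ ℝ
  φ : C →+* C
  na : IsNonarchimedean w
  iso : ∀ (s : Λ ≃ₐ[L] Λ) a, w (s a) = w a
  int : ∀ a, w a ≤ 1 → ∀ i, w (algebraMap L Λ ((minpoly L a).coeff i)) ≤ 1
  tors : ∀ c : C, c ≠ 0 → ∃ n, 0 < n ∧ c ^ n = 1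
  res : ∀ a : L, w (algebraMap L Λ a) ≤ 1 → ∃ c, φ c = c ∧ w (algebraMap L Λ a - j c) < 1
  disc : ∀ a : L, a ≠ 0 → ∃ n : ℤ, w (algebraMap L Λ a) = 2 ^ n

namespace LD

variable {L Λ C : Type} [Field L] [Field Λ] [Algebra L Λ] [Field C] (D : LD L Λ C)

theorem w_j (c : C) (hc : c ≠ 0) : D.w (D.j c) = 1 := LocA_tors D.w D.j D.tors c hc

theorem phi_fix {c : C} {a : L} (h : D.j c = algebraMap L Λ a) : D.φ c = c := by
  obtain ⟨c', h1, h2⟩ := D.res a (h ▸ LocA_j_le D.w_j c)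
  rw [← h] at h2
  rw [LocA_j_eq D.w_j h2, h1]

variable [IsAlgClosed C]

theorem map_mem (s : Λ ≃ₐ[L] Λ) (c : C) : ∃ c', D.j c' = s (D.j c) := by
  by_cases hc : c = 0
  · exact ⟨0, by simp [hc]⟩
  · obtain ⟨n, hn, h⟩ := D.tors c hc
    exact LocA_mem D.j hn (by rw [← map_pow, ← map_pow, h, map_one, map_one])

variable [IsGalois L Λ]

theorem big_res {a : Λ} (ha : D.w a ≤ 1) : ∃ c, D.w (a - D.j c) < 1 := by
  have hi : IsIntegral L a := Algebra.IsIntegral.isIntegral a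
  choose c _ hc using fun i => D.res _ (D.int a ha i)
  let g : C[X] := X ^ (minpoly L a).natDegree +
    ∑ i ∈ Finset.range (minpoly L a).natDegree, Polynomial.C (c i) * X ^ i
  have hg : g.Monic := monic_X_pow_add (by
    rw [← Fin.sum_univ_eq_sum_range (fun i => Polynomial.C (c i) * X ^ i)]
    exact degree_sum_fin_lt _)
  have h0 := minpoly.aeval L a
  rw [aeval_eq_sum_range, Finset.sum_range_succ, (minpoly.monic hi).coeff_natDegree,
    one_smul] at h0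
  obtain ⟨r, -, hr⟩ := LocA_root (w := D.w) (j := D.j) hg (a := a) (by
    have e : eval₂ D.j a g = ∑ i ∈ Finset.range (minpoly L a).natDegree,
        -((algebraMap L Λ ((minpoly L a).coeff i) - D.j (c i)) * a ^ i) := by
      simp only [g, eval₂_add, eval₂_pow, eval₂_X, eval₂_finsetSum, eval₂_mul, eval₂_C, sub_mul,
        neg_sub, Finset.sum_sub_distrib, ← Algebra.smul_def]
      linear_combination h0
    rw [e]
    refine LocA_sum_lt D.na _ _ fun i _ => ?_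
    rw [AbsoluteValue.map_neg, map_mul, map_pow]
    exact mul_lt_one_of_nonneg_of_lt_one_left (D.w.nonneg _) (hc i)
      (pow_le_one₀ (D.w.nonneg _) ha))
  exact ⟨r, hr⟩

theorem one_frob (c : C) : ∃ s : Λ ≃ₐ[L] Λ, s (D.j c) = D.j (D.φ c) := by
  have hi : IsIntegral L (D.j c) := Algebra.IsIntegral.isIntegral _
  have hm := (minpoly.monic hi).map (algebraMap L Λ)
  obtain ⟨g, hg⟩ : (minpoly L (D.j c)).map (algebraMap L Λ) ∈ lifts D.j := by
    rw [(Normal.splits inferInstance (D.j c)).eq_prod_roots_of_monic hm]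
    refine Subsemiring.multiset_prod_mem _ _ fun p hp => ?_
    obtain ⟨r, hr, rfl⟩ := Multiset.mem_map.1 hp
    obtain ⟨s, hs⟩ := minpoly.exists_algEquiv_of_root' hi.isAlgebraic
      (show aeval r (minpoly L (D.j c)) = 0 by
        rw [← eval_map_algebraMap]
        exact (mem_roots hm.ne_zero).1 hr)
    obtain ⟨c', hc'⟩ := D.map_mem s c
    exact ⟨X - Polynomial.C c', by simp [hc', hs]⟩
  rw [coe_mapRingHom] at hg
  have h1 : g.map D.φ = g := by
    ext i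
    rw [coeff_map]
    exact D.phi_fix (by rw [← coeff_map, hg, coeff_map])
  have h2 : ∀ x, D.j (eval x g) = aeval (D.j x) (minpoly L (D.j c)) := fun x => by
    rw [← eval_map_algebraMap, ← hg, eval_map, eval₂_at_apply]
  have h3 : eval c g = 0 := D.j.injective (by rw [h2, minpoly.aeval, map_zero])
  refine minpoly.exists_algEquiv_of_root' hi.isAlgebraic ?_
  rw [← h2, ← h1, eval_map, eval₂_at_apply, h3, map_zero, map_zero]

theorem exists_frob : ∃ s : Λ ≃ₐ[L] Λ, ∀ c, s (D.j c) = D.j (D.φ c) := by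
  have hc : ∀ c : C, IsClosed {s : Λ ≃ₐ[L] Λ | s (D.j c) = D.j (D.φ c)} := by
    intro c
    obtain ⟨s, hs⟩ := D.one_frob c
    have h1 := (MulAction.stabilizer (Λ ≃ₐ[L] Λ) (D.j c)).isClosed_of_isOpen
      (stabilizer_isOpen_of_isIntegral (K := L) (D.j c))
    convert h1.preimage (continuous_const_mul s⁻¹) using 1
    ext t
    simp only [Set.mem_ofPred_eq, Set.mem_preimage, SetLike.mem_coe, MulAction.mem_stabilizer_iff,
      AlgEquiv.smul_def, AlgEquiv.mul_apply, AlgEquiv.aut_inv, AlgEquiv.symm_apply_eq, hs]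
  obtain ⟨s, -, hs⟩ := isCompact_univ.inter_iInter_nonempty _ hc fun T => by
    obtain ⟨n, hn, hT⟩ : ∃ n, 0 < n ∧ ∀ c ∈ T, c ≠ 0 → c ^ n = 1 := by
      classical
      induction T using Finset.induction_on with
      | empty => exact ⟨1, one_pos, by simp⟩
      | insert a T _ ih =>
        obtain ⟨n, hn, h⟩ := ih
        by_cases ha : a = 0
        · exact ⟨n, hn, fun c hc c0 => h c ((Finset.mem_insert.1 hc).resolve_left (ha ▸ c0)) c0⟩
        · obtain ⟨m, hm, h'⟩ := D.tors a ha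
          refine ⟨m * n, Nat.mul_pos hm hn, fun c hc c0 => ?_⟩
          rcases Finset.mem_insert.1 hc with rfl | hc
          · rw [pow_mul, h', one_pow]
          · rw [mul_comm, pow_mul, h c hc c0, one_pow]
    have : NeZero n := ⟨hn.ne'⟩
    obtain ⟨u, hu⟩ := IsCyclic.exists_monoid_generator (α := rootsOfUnity n C)
    obtain ⟨s, hs⟩ := D.one_frob ((u : Cˣ) : C)
    refine ⟨s, Set.mem_univ _, Set.mem_iInter₂.2 fun c hcT => ?_⟩
    by_cases c0 : c = 0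
    · simp [c0]
    · obtain ⟨i, hi⟩ := hu (rootsOfUnity.mkOfPowEq c (hT c hcT c0))
      have e : c = ((u : Cˣ) : C) ^ i := by
        have := congrArg (fun x : rootsOfUnity n C => ((x : Cˣ) : C)) hi
        simpa using this.symm
      rw [Set.mem_ofPred_eq, e, map_pow, map_pow, hs, map_pow, map_pow]
  exact ⟨s, fun c => Set.mem_iInter.1 hs c⟩

theorem res' (a : L) (ha : D.w (algebraMap L Λ a) ≤ 1) :
    ∃ (e : L) (c : C), algebraMap L Λ e = D.j c ∧ D.w (algebraMap L Λ (a - e)) < 1 := by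
  obtain ⟨c, -, hc⟩ := D.res a ha
  obtain ⟨e, he⟩ := (InfiniteGalois.mem_range_algebraMap_iff_fixed (k := L) (D.j c)).2 fun s => by
    obtain ⟨c', hc'⟩ := D.map_mem s c
    have h1 : D.w (algebraMap L Λ a - D.j c') < 1 := by
      rw [hc', ← s.commutes, ← map_sub, D.iso]
      exact hc
    rw [← hc', LocA_j_eq D.w_j (LocA_trans D.na ((D.w.map_sub _ _).trans_lt h1) hc)]
  exact ⟨e, c, he, by rw [map_sub, he]; exact hc⟩

theorem span_disc (s : Finset C) (l : C → L) :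
    ∃ b : L, D.w (∑ c ∈ s, algebraMap L Λ (l c) * D.j c) = D.w (algebraMap L Λ b) := by
  classical
  induction s using Finset.strongInduction generalizing l with
  | H s ih =>
    rcases s.eq_empty_or_nonempty with rfl | hne
    · exact ⟨0, by simp⟩
    obtain ⟨c0, h0, hmax⟩ := s.exists_max_image (fun c => D.w (algebraMap L Λ (l c))) hne
    by_cases hl : l c0 = 0
    · refine ⟨0, congrArg D.w ((Finset.sum_eq_zero fun c hc => ?_).trans (map_zero _).symm)⟩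
      have := hmax c hc
      rw [hl, map_zero, map_zero] at this
      rw [D.w.nonpos_iff.1 this, zero_mul]
    have hpos : 0 < D.w (algebraMap L Λ (l c0)) := D.w.pos (by simpa using hl)
    have hle : ∀ c ∈ s, D.w (algebraMap L Λ (l c / l c0)) ≤ 1 := fun c hc => by
      rw [map_div₀, map_div₀]
      exact (div_le_one hpos).2 (hmax c hc)
    choose! e d hed hsm using fun c hc => D.res' _ (hle c hc)
    suffices h : ∃ b : L, D.w (∑ c ∈ s, algebraMap L Λ (l c / l c0) * D.j c) =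
        D.w (algebraMap L Λ b) by
      obtain ⟨b, hb⟩ := h
      refine ⟨l c0 * b, ?_⟩
      rw [map_mul, map_mul, ← hb, ← map_mul, Finset.mul_sum]
      refine congrArg D.w (Finset.sum_congr rfl fun c _ => ?_)
      rw [← mul_assoc, ← map_mul, mul_div_cancel₀ _ hl]
    have e1 : ∑ c ∈ s, algebraMap L Λ (l c / l c0) * D.j c - D.j (∑ c ∈ s, d c * c) =
        ∑ c ∈ s, algebraMap L Λ (l c / l c0 - e c) * D.j c := by
      rw [map_sum, ← Finset.sum_sub_distrib]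
      refine Finset.sum_congr rfl fun c hc => ?_
      rw [map_mul, ← hed c hc, map_sub, sub_mul]
    by_cases hD : ∑ c ∈ s, d c * c = 0
    · rw [hD, map_zero, sub_zero] at e1
      have h1 : l c0 / l c0 - e c0 = 0 := by
        have h2 := hsm c0 h0
        rw [div_self hl, map_sub, map_one, hed c0 h0, ← map_one D.j] at h2
        refine (algebraMap L Λ).injective ?_
        rw [div_self hl, map_sub, map_one, hed c0 h0, ← LocA_j_eq D.w_j h2, map_one, sub_self,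
          map_zero]
      rw [e1, ← Finset.add_sum_erase s _ h0, h1, map_zero, zero_mul, zero_add]
      exact ih _ (Finset.erase_ssubset h0) fun c => l c / l c0 - e c
    · refine ⟨1, ?_⟩
      rw [map_one, map_one, ← D.w_j _ hD]
      refine LocA_eq D.na ?_
      rw [e1, D.w_j _ hD]
      refine LocA_sum_lt D.na _ _ fun c hc => ?_
      rw [map_mul]
      exact mul_lt_one_of_nonneg_of_lt_one_left (D.w.nonneg _) (hsm c hc) (LocA_j_le D.w_j c)

/-- the maximal unramified extension -/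
noncomputable def M : IntermediateField L Λ := IntermediateField.adjoin L (Set.range D.j)

theorem M_disc {a : Λ} (ha : a ∈ D.M) (a0 : a ≠ 0) : ∃ n : ℤ, D.w a = 2 ^ n := by
  have h1 : a ∈ (IntermediateField.adjoin L (Set.range D.j)).toSubalgebra := ha
  rw [IntermediateField.adjoin_toSubalgebra_of_isAlgebraic
    fun x _ => Algebra.IsAlgebraic.isAlgebraic x] at h1
  have h2 : a ∈ Submodule.span L (Set.range D.j) := by
    have h3 : a ∈ Subalgebra.toSubmodule (Algebra.adjoin L (Set.range D.j)) := h1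
    rw [Algebra.adjoin_eq_span] at h3
    have h4 : Submonoid.closure (Set.range D.j) = MonoidHom.mrange D.j :=
      Submonoid.closure_eq (MonoidHom.mrange D.j)
    rw [h4] at h3
    exact h3
  obtain ⟨l, rfl⟩ := Finsupp.mem_span_range_iff_exists_finsupp.1 h2
  obtain ⟨b, hb⟩ := D.span_disc l.support l
  have e : (l.sum fun i a => a • D.j i) = ∑ c ∈ l.support, algebraMap L Λ (l c) * D.j c := by
    simp only [Finsupp.sum, Algebra.smul_def]
  rw [← e] at hb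
  rw [hb]
  refine D.disc b fun h => a0 ?_
  rw [h, map_zero, map_zero] at hb
  exact D.w.eq_zero.1 hb

omit [IsAlgClosed C] [IsGalois L Λ] in
theorem fix_j (g : Λ ≃ₐ[D.M] Λ) (c : C) : g (D.j c) = D.j c :=
  g.commutes ⟨D.j c, IntermediateField.subset_adjoin _ _ ⟨c, rfl⟩⟩

/-- inertia inside the decomposition group -/
noncomputable def incl : (Λ ≃ₐ[D.M] Λ) →* (Λ ≃ₐ[L] Λ) where
  toFun g := g.restrictScalars L
  map_one' := rfl
  map_mul' _ _ := rfl

omit [IsAlgClosed C] [IsGalois L Λ] in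
theorem exists_incl (s : Λ ≃ₐ[L] Λ) (hs : ∀ c, s (D.j c) = D.j c) : ∃ g, D.incl g = s := by
  have key : ∀ z ∈ D.M, s z = z := by
    intro z hz
    induction hz using IntermediateField.adjoin_induction with
    | mem y hy =>
      obtain ⟨c, rfl⟩ := hy
      exact hs c
    | algebraMap y => exact s.commutes y
    | add y z _ _ ihy ihz => rw [map_add, ihy, ihz]
    | inv y _ ih => rw [map_inv₀, ih]
    | mul y z _ _ ihy ihz => rw [map_mul, ihy, ihz]
  exact ⟨{ s.toRingEquiv with commutes' := fun z => key z z.2 }, rfl⟩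

theorem fix_res (s : Λ ≃ₐ[L] Λ) (hs : ∀ c, s (D.j c) = D.j c) (a : Λ) (ha : D.w a ≤ 1) :
    D.w (s a - a) < 1 := by
  obtain ⟨c, hc⟩ := D.big_res ha
  refine LocA_trans D.na ?_ ((D.w.map_sub _ _).trans_lt hc)
  rw [← hs, ← map_sub, D.iso]
  exact hc

theorem frob_res {Q : ℕ} (hQ : ∀ c, D.φ c = c ^ Q) (s : Λ ≃ₐ[L] Λ)
    (hs : ∀ c, s (D.j c) = D.j (D.φ c)) (a : Λ) (ha : D.w a ≤ 1) : D.w (s a - a ^ Q) < 1 := by
  obtain ⟨c, hc⟩ := D.big_res ha
  refine LocA_trans D.na (b := D.j c ^ Q) ?_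
    (LocA_pow D.na (LocA_j_le D.w_j c) ha ((D.w.map_sub _ _).trans_lt hc) Q)
  rw [← map_pow, ← hQ, ← hs, ← map_sub, D.iso]
  exact hc

/-- the tame data of the inertia group -/
def ti {z : C} (hz : IsPrimitiveRoot z mo) {π : Λ} (hπ : D.w π = 2⁻¹)
    (hf : ∀ s : Λ ≃ₐ[L] Λ, (∀ c, s (D.j c) = D.j c) → s π = π)
    (hr : ∀ n : ℕ, ∃ r : Λ, r ^ mo ^ n = π) : TI D.M Λ where
  w := D.w
  z := D.j z
  π := π
  hz := hz.map_of_injective D.j.injective
  hπ := hπ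
  fixπ g := hf (D.incl g) (D.fix_j g)
  fixu g u n hn hu := by
    obtain ⟨c, rfl⟩ := LocA_mem D.j hn hu
    exact D.fix_j g c
  na := D.na
  six := by
    rw [← map_natCast D.j mo]
    exact D.w_j _ (by exact_mod_cast hz.neZero'.out)
  iso g a := D.iso (D.incl g) a
  res g := D.fix_res (D.incl g) (D.fix_j g)
  disc a a0 h := by
    obtain ⟨b, rfl⟩ := (InfiniteGalois.mem_range_algebraMap_iff_fixed (k := D.M) a).2 h
    exact D.M_disc b.2 a0
  root := hr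

theorem main {z : C} (hz : IsPrimitiveRoot z mo) {π : Λ} (hπ : D.w π = 2⁻¹)
    (hf : ∀ s : Λ ≃ₐ[L] Λ, (∀ c, s (D.j c) = D.j c) → s π = π)
    (hr : ∀ n : ℕ, ∃ r : Λ, r ^ mo ^ n = π) {Q : ℕ} (hQ : ∀ c, D.φ c = c ^ Q)
    {σ : Λ ≃ₐ[L] Λ} (hσ : ∀ c, σ (D.j c) = D.j (D.φ c)) (hσπ : σ π = π) :
    ∃ τ : Λ ≃ₐ[L] Λ, (∀ c, τ (D.j c) = D.j c) ∧ (∀ r, r ^ mo = π → τ r = D.j z * r) ∧
      ∀ N : Subgroup (Λ ≃ₐ[L] Λ),
        (∀ g : Λ ≃ₐ[L] Λ, (∀ c, g (D.j c) = D.j c) → ∀ n ∈ N, g * n * g⁻¹ ∈ N) →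
        (∃ S : Finset Λ, ∀ g : Λ ≃ₐ[L] Λ, (∀ c, g (D.j c) = D.j c) → (∀ a ∈ S, g a = a) → g ∈ N) →
        (∀ g : Λ ≃ₐ[L] Λ, (∀ c, g (D.j c) = D.j c) → ∃ i : ℕ, g ^ mo ^ i ∈ N) →
        (∀ a, a ≠ 0 → (∀ n ∈ N, n a = a) → τ a = a → ∃ n : ℤ, D.w a = 2 ^ n) ∧
          (σ * τ)⁻¹ * (τ ^ Q * σ) ∈ N := by
  obtain ⟨τ, hτ⟩ := (D.ti hz hπ hf hr).exists_tau
  refine ⟨D.incl τ, D.fix_j τ, hτ, fun N h1 ⟨S, h2⟩ h3 => ?_⟩
  have : (N.comap D.incl).Normal := ⟨fun n hn g => by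
    rw [Subgroup.mem_comap, map_mul, map_mul, map_inv]
    exact h1 _ (D.fix_j g) _ hn⟩
  have h2' : ∀ g : Λ ≃ₐ[D.M] Λ, (∀ a ∈ S, g a = a) → g ∈ N.comap D.incl :=
    fun g hg => h2 _ (D.fix_j g) hg
  have h3' : ∀ g : Λ ≃ₐ[D.M] Λ, ∃ i : ℕ, g ^ mo ^ i ∈ N.comap D.incl := fun g => by
    obtain ⟨i, hi⟩ := h3 (D.incl g) (D.fix_j g)
    exact ⟨i, by rw [Subgroup.mem_comap, map_pow]; exact hi⟩
  refine ⟨fun a a0 ha hτa => (D.ti hz hπ hf hr).disc a a0 fun g => ?_, ?_⟩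
  · obtain ⟨m, hm⟩ := TI.cyclic hτ (N.comap D.incl) S h2' h3' g
    have h4 : ((τ ^ m)⁻¹ * g) a = a := ha _ hm
    have h5 : (τ ^ m) a = a :=
      (MulAction.stabilizer (Λ ≃ₐ[D.M] Λ) a).zpow_mem (MulAction.mem_stabilizer_iff.2 hτa) m
    rw [AlgEquiv.mul_apply, AlgEquiv.aut_inv, AlgEquiv.symm_apply_eq] at h4
    exact h4.trans h5
  · obtain ⟨n, r, hr', hN⟩ := (D.ti hz hπ hf hr).mem_of_fix (N.comap D.incl) S h2' h3'
    replace hr' : r ^ mo ^ (n + 1) = π := hr'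
    have hpos : 0 < mo ^ (n + 1) := pow_pos mo_pos _
    have r0 := (D.ti hz hπ hf hr).root_ne hpos hr'
    have π0 : π ≠ 0 := (D.ti hz hπ hf hr).π_ne
    have hQτ : ∀ c, (D.incl τ ^ Q) (D.j c) = D.j c := fun c => by
      rw [← map_pow]
      exact D.fix_j _ c
    have hτc : ∀ c, D.incl τ (D.j c) = D.j c := D.fix_j τ
    obtain ⟨g, hg⟩ := D.exists_incl ((σ * D.incl τ)⁻¹ * (D.incl τ ^ Q * σ)) fun c => by
      rw [AlgEquiv.mul_apply, AlgEquiv.aut_inv, AlgEquiv.symm_apply_eq, AlgEquiv.mul_apply,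
        AlgEquiv.mul_apply, hτc, hσ, hQτ]
    rw [← hg]
    refine hN g ?_
    change D.incl g r = r
    obtain ⟨u, hu⟩ := LocA_mem D.j hpos (u := σ r / r)
      (by rw [div_pow, ← map_pow, hr', hσπ, div_self π0])
    obtain ⟨η, hη⟩ := LocA_mem D.j hpos (u := D.incl τ r / r)
      (by rw [div_pow, ← map_pow, hr', hf _ hτc, div_self π0])
    replace hu := ((eq_div_iff r0).1 hu).symm
    replace hη := ((eq_div_iff r0).1 hη).symm
    have hp : ∀ i : ℕ, (D.incl τ ^ i) r = D.j η ^ i * r := by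
      intro i
      induction i with
      | zero => simp
      | succ i ih =>
        rw [pow_succ', AlgEquiv.mul_apply, ih, map_mul, map_pow, hτc, hη]
        ring
    rw [hg, AlgEquiv.mul_apply, AlgEquiv.aut_inv, AlgEquiv.symm_apply_eq, AlgEquiv.mul_apply,
      AlgEquiv.mul_apply, hη, map_mul, hσ, hu, map_mul, hQτ, hp, hQ, map_pow]
    ring

end LD

end Pool.Agent.Hyp
end

-- merged part: Pool.Agent.Work.MP_60d5ce_nt.Hy.LocC
section
/-!
# Absolute values of the rational function field, and the geometric point of a place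
-/

namespace Pool.Agent.Hyp

open Pool.Agent.Quad

variable [Par]

open Polynomial WithZero IsDedekindDomain

theorem LocC_abs {K : Type} [Field K] (ν : Valuation K ℤᵐ⁰) : ∃ w : AbsoluteValue K ℝ,
    IsNonarchimedean w ∧ (∀ a (n : ℤ), ν a = exp n → w a = 2 ^ n) ∧
      (∀ a, a ≠ 0 → ∃ n : ℤ, w a = 2 ^ n) ∧ ∀ a, w a < 1 ↔ ν a < 1 := by
  have hm := WithZeroMulInt.toNNReal_strictMono (e := 2) one_lt_two
  have hna : ∀ x y : K, (WithZeroMulInt.toNNReal (e := 2) two_ne_zero (ν (x + y)) : ℝ) ≤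
      max (WithZeroMulInt.toNNReal (e := 2) two_ne_zero (ν x) : ℝ)
        (WithZeroMulInt.toNNReal (e := 2) two_ne_zero (ν y) : ℝ) := by
    intro x y
    rcases le_max_iff.1 (ν.map_add x y) with h | h
    · exact le_max_of_le_left (NNReal.coe_le_coe.2 (hm.monotone h))
    · exact le_max_of_le_right (NNReal.coe_le_coe.2 (hm.monotone h))
  let w : AbsoluteValue K ℝ :=
    { toFun := fun x => (WithZeroMulInt.toNNReal (e := 2) two_ne_zero (ν x) : ℝ)
      map_mul' := fun x y => by simp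
      nonneg' := fun x => NNReal.coe_nonneg _
      eq_zero' := fun x => by simp
      add_le' := fun x y => (hna x y).trans
        (max_le_add_of_nonneg (NNReal.coe_nonneg _) (NNReal.coe_nonneg _)) }
  have h1 : ∀ a (n : ℤ), ν a = exp n → w a = 2 ^ n := by
    intro a n h
    change (WithZeroMulInt.toNNReal (e := 2) two_ne_zero (ν a) : ℝ) = _
    rw [h, WithZeroMulInt.toNNReal_neg_apply _ exp_ne_zero]
    push_cast
    rfl
  refine ⟨w, hna, h1, fun a ha => ⟨_, h1 a _ (exp_log (by simpa using ha)).symm⟩, fun a => ?_⟩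
  rw [← WithZeroMulInt.toNNReal_lt_one_iff (e := 2) one_lt_two]
  exact NNReal.coe_lt_one

variable {k : Type} [Field k]

/-- the properties of the absolute value at a place -/
def LocC_Good (v : Pl k) (w : RatFunc k → ℝ) : Prop :=
  match v with
  | none => w RatFunc.X = 2 ∧ ∀ a, w a ≤ 1 → ∃ c : k, w (a - algebraMap k _ c) < 1
  | some p => w (algebraMap k[X] _ p.1) = 2⁻¹ ∧
      ∀ a, w a ≤ 1 → ∃ b : k[X], w (a - algebraMap k[X] _ b) < 1

theorem LocC_exists (v : Pl k) : ∃ w : AbsoluteValue (RatFunc k) ℝ, IsNonarchimedean w ∧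
    (∀ a, a ≠ 0 → ∃ n : ℤ, w a = 2 ^ n) ∧ LocC_Good v w ∧ ∃ a, a ≠ 0 ∧ w a ≠ 1 := by
  classical
  rcases v with _ | ⟨p, hm, hp⟩
  · obtain ⟨w, h1, h2, h3, -⟩ := LocC_abs (RatFunc.inftyValuation k)
    have hX : w RatFunc.X = 2 := by simpa using h2 _ _ (RatFunc.inftyValuation.X k)
    have hb : ∀ b : k[X], b ≠ 0 → w (algebraMap k[X] _ b) = 2 ^ (b.natDegree : ℤ) :=
      fun b hb => h2 _ _ (RatFunc.inftyValuation.polynomial k hb)
    refine ⟨w, h1, h3, ⟨hX, fun a ha => ?_⟩, RatFunc.X, RatFunc.X_ne_zero, by rw [hX]; norm_num⟩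
    have hd := hb _ a.denom_ne_zero
    have hd0 : algebraMap k[X] (RatFunc k) a.denom ≠ 0 := RatFunc.algebraMap_ne_zero a.denom_ne_zero
    have hdeg : a.num.natDegree ≤ a.denom.natDegree := by
      by_cases h0 : a.num = 0
      · simp [h0]
      · rw [← a.num_div_denom, map_div₀, hb _ h0, hd, div_le_one (by positivity),
          zpow_le_zpow_iff_right₀ one_lt_two] at ha
        exact_mod_cast ha
    obtain ⟨c, hc⟩ : ∃ c, Polynomial.C c = a.num /ₘ a.denom := natDegree_eq_zero.1 (by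
      rw [natDegree_divByMonic _ a.monic_denom]
      omega)
    refine ⟨c, ?_⟩
    have e : a - algebraMap k _ c = algebraMap k[X] _ (a.num %ₘ a.denom) /
        algebraMap k[X] (RatFunc k) a.denom := by
      rw [eq_div_iff hd0, eq_sub_of_add_eq (modByMonic_add_div a.num a.denom), ← hc, map_sub,
        map_mul, (div_eq_iff hd0).1 a.num_div_denom, RatFunc.algebraMap_C, RatFunc.algebraMap_eq_C]
      ring
    rw [e, map_div₀, hd, div_lt_one (by positivity)]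
    by_cases h0 : a.num %ₘ a.denom = 0
    · rw [h0, map_zero, map_zero]
      positivity
    · rw [hb _ h0, zpow_lt_zpow_iff_right₀ one_lt_two]
      exact_mod_cast natDegree_lt_natDegree h0 (degree_modByMonic_lt _ a.monic_denom)
  · let P : HeightOneSpectrum k[X] := ⟨Ideal.span {p},
      (Ideal.span_singleton_prime hp.ne_zero).2 hp.prime,
      fun e => hp.ne_zero (Ideal.span_singleton_eq_bot.1 e)⟩
    obtain ⟨w, h1, h2, h3, h4⟩ := LocC_abs (P.valuation (RatFunc k))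
    have hself : w (algebraMap k[X] _ p) = 2⁻¹ := by
      simpa using h2 _ _ ((P.valuation_of_algebraMap (K := RatFunc k) p).trans
        (P.intValuation_singleton hp.ne_zero rfl))
    have hlt : ∀ b : k[X], w (algebraMap k[X] _ b) < 1 ↔ p ∣ b := fun b => by
      rw [h4, P.valuation_lt_one_iff_mem]
      exact Ideal.mem_span_singleton
    refine ⟨w, h1, h3, ⟨hself, fun a ha => ?_⟩, algebraMap k[X] _ p,
      RatFunc.algebraMap_ne_zero hp.ne_zero, by rw [hself]; norm_num⟩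
    have hd0 : algebraMap k[X] (RatFunc k) a.denom ≠ 0 := RatFunc.algebraMap_ne_zero a.denom_ne_zero
    have e : algebraMap k[X] (RatFunc k) a.num = a * algebraMap k[X] (RatFunc k) a.denom :=
      (div_eq_iff hd0).1 a.num_div_denom
    have hnd : ¬ p ∣ a.denom := fun h => by
      refine hp.not_isUnit (a.isCoprime_num_denom.isUnit_of_dvd' ((hlt _).1 ?_) h)
      rw [e, map_mul]
      exact mul_lt_one_of_nonneg_of_lt_one_right ha (w.nonneg _) ((hlt _).2 h)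
    obtain ⟨s, t, hst⟩ := hp.coprime_iff_not_dvd.2 hnd
    refine ⟨a.num * t, ?_⟩
    have e2 : a - algebraMap k[X] (RatFunc k) (a.num * t) =
        a * algebraMap k[X] (RatFunc k) (s * p) := by
      rw [eq_sub_of_add_eq hst, map_sub, map_one, map_mul, map_mul, e]
      ring
    rw [e2, map_mul]
    exact mul_lt_one_of_nonneg_of_lt_one_right ha (w.nonneg _) ((hlt _).2 (dvd_mul_left _ _))

variable [Fintype k] {Ω : Type} [Field Ω] [Algebra (RatFunc k) Ω] [Algebra k Ω]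
  [IsScalarTower k (RatFunc k) Ω]

omit [Algebra (RatFunc k) Ω] [IsScalarTower k (RatFunc k) Ω] in
theorem LocC_tors (c : Kb k Ω) (hc : c ≠ 0) : ∃ n, 0 < n ∧ c ^ n = 1 := by
  have hi : IsIntegral k c := Algebra.IsIntegral.isIntegral c
  have := IntermediateField.adjoin.finiteDimensional hi
  have : Finite (IntermediateField.adjoin k {c}) := Module.finite_of_finite k
  have := Fintype.ofFinite (IntermediateField.adjoin k {c})
  refine ⟨Fintype.card (IntermediateField.adjoin k {c}) - 1,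
    Nat.sub_pos_of_lt Fintype.one_lt_card, ?_⟩
  have h := FiniteField.pow_card_sub_one_eq_one (IntermediateField.AdjoinSimple.gen k c)
    fun h => hc (congrArg Subtype.val h)
  exact congrArg Subtype.val h

variable {Λ : Type} [Field Λ] [Algebra (RatFunc k) Λ]

/-- the embedding of the constants -/
noncomputable def LocC_j (ι : Ω →ₐ[RatFunc k] Λ) : Kb k Ω →+* Λ :=
  ι.toRingHom.comp (algebraMap (Kb k Ω) Ω)

omit [Fintype k] [IsScalarTower k (RatFunc k) Ω] in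
theorem LocC_j_apply (ι : Ω →ₐ[RatFunc k] Λ) (c : Kb k Ω) : LocC_j ι c = ι c := rfl

theorem LocC_eval (ι : Ω →ₐ[RatFunc k] Λ) (b : k[X]) :
    eval₂ (LocC_j ι) (ι (tt k Ω)) (b.map (algebraMap k (Kb k Ω))) =
      algebraMap (RatFunc k) Λ (algebraMap k[X] _ b) := by
  rw [← ι.commutes, ← aeval_tt_base, ← aeval_tt_map, aeval_def]
  exact (hom_eval₂ _ _ ι.toRingHom _).symm

variable [IsSepClosure (RatFunc k) Ω]

theorem LocC_point (ι : Ω →ₐ[RatFunc k] Λ) {w : AbsoluteValue Λ ℝ} (hw : IsNonarchimedean w)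
    (v : Pl k) (hv : LocC_Good v fun a => w (algebraMap (RatFunc k) Λ a)) :
    ∃ x : Kb k Ω, (∀ p, v = some p → aeval x p.1 = 0) ∧ w (ι (unif v x)) = 2⁻¹ ∧
      (frob k Ω ^ pdg v) x = x ∧ ∀ a : RatFunc k, w (algebraMap _ Λ a) ≤ 1 →
        ∃ c : Kb k Ω, (frob k Ω ^ pdg v) c = c ∧ w (algebraMap _ Λ a - ι c) < 1 := by
  have ht : ι (tt k Ω) = algebraMap _ Λ (RatFunc.X : RatFunc k) := ι.commutes _
  rcases v with _ | ⟨p, hm, hp⟩
  · obtain ⟨h1, h2⟩ := hv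
    refine ⟨0, fun p h => (by cases h), ?_, map_zero _, fun a ha => ?_⟩
    · change w (ι (tt k Ω)⁻¹) = _
      rw [map_inv₀, map_inv₀, ht]
      exact congrArg _ h1
    · obtain ⟨c, hc⟩ := h2 a ha
      refine ⟨algebraMap k _ c, AlgEquiv.commutes _ c, ?_⟩
      have e : ι (algebraMap k (Kb k Ω) c) = algebraMap _ Λ (algebraMap k (RatFunc k) c) := by
        rw [← ι.commutes, ← IsScalarTower.algebraMap_apply]
        rfl
      rw [e, ← map_sub]
      exact hc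
  · obtain ⟨h1, h3⟩ := hv
    have hj := LocA_tors w (LocC_j ι) LocC_tors
    have h4 : w (eval₂ (LocC_j ι) (ι (tt k Ω)) (p.map (algebraMap k (Kb k Ω)))) = 2⁻¹ := by
      rw [LocC_eval]
      exact h1
    obtain ⟨x, hx, hlt⟩ := LocA_root (w := w) (j := LocC_j ι) (hm.map (algebraMap k (Kb k Ω)))
      (a := ι (tt k Ω)) (by rw [h4]; norm_num)
    have hx' : aeval x p = 0 := by rw [← eval_map_algebraMap]; exact hx
    have hfix : (frob k Ω ^ p.natDegree) x = x := by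
      have h5 := aeval_eq_zero_of_dvd_aeval_eq_zero
        (hp.natDegree_dvd_iff_dvd_X_pow_card_pow_sub_X.1 dvd_rfl) hx'
      rw [map_sub, map_pow, aeval_X, sub_eq_zero, Nat.card_eq_fintype_card] at h5
      rw [frob_pow_apply, h5]
    refine ⟨x, fun q h => (by cases h; exact hx'), ?_, hfix, fun a ha => ?_⟩
    · obtain ⟨g, hg⟩ := dvd_iff_isRoot.2 hx
      have hg0 : eval x g ≠ 0 := fun h => by
        obtain ⟨g', rfl⟩ := dvd_iff_isRoot.2 h
        refine not_isUnit_X_sub_C x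
          (((PerfectField.separable_of_irreducible hp).map
            (f := algebraMap k (Kb k Ω))).squarefree (X - Polynomial.C x) ⟨g', ?_⟩)
        rw [hg, mul_assoc]
      have h5 := LocA_eval hw hj g hlt
      have h6 := LocA_eq hw (h5.trans_eq (hj _ hg0).symm)
      rw [hg, eval₂_mul, map_mul, h6, hj _ hg0, mul_one, eval₂_sub, eval₂_X, eval₂_C] at h4
      change w (ι (tt k Ω - x)) = _
      rw [map_sub]
      exact h4
    · obtain ⟨b, hb⟩ := h3 a ha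
      refine ⟨aeval x b, (aeval_algHom_apply _ x b).symm.trans (congrArg (aeval · b) hfix), ?_⟩
      have h5 := LocA_eval hw hj (b.map (algebraMap k (Kb k Ω))) hlt
      rw [LocC_eval, eval_map_algebraMap] at h5
      refine LocA_trans hw ?_ h5
      rw [← map_sub]
      exact hb

end Pool.Agent.Hyp
end

-- merged part: Pool.Agent.Work.MP_60d5ce_nt.Hy.Fb
section
/-!
# The Galois group acting on the algebraic closure  (ported from Lt Fb)

`Fb Ω` is purely inseparable over the separably closed field `Ω` (`Algebra.IsAlgebraic.isPurelyInseparable_of_isSepClosed`,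
`IsPurelyInseparable.pow_mem`); `card k` is a positive power of the characteristic `p` (`FiniteField.card`), and `a ↦ a ^ p ^ e` is
injective (`iterateFrobenius`, `pow_left_injective`-like: `sub_pow_char_pow`).
* `psi_surj`: `s` restricts to `Ω` (`AlgEquiv.restrictNormal`; `Ω` is normal over `RatFunc k`), `fb_ext`.
* `psi_fixed`: `a ^ q ^ e ∈ Ω` is fixed by `Gam`, so lies in `RatFunc k` (`fixed_all`, or `InfiniteGalois.mem_bot_iff_fixed`).
* `dense_psi`: `fx_base`, `Smith.dense`.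
-/

namespace Pool.Agent.Hyp

open Pool.Agent.Ell.AT

/-- the algebraic closure -/
abbrev Fb (Ω : Type) [Field Ω] : Type := AlgebraicClosure Ω

variable {k : Type} [Field k] [Fintype k] {Ω : Type} [Field Ω] [Algebra (RatFunc k) Ω]
  [Algebra k Ω] [IsScalarTower k (RatFunc k) Ω] [IsSepClosure (RatFunc k) Ω]

variable (k) in
theorem exists_pow (a : Fb Ω) : ∃ (e : ℕ) (b : Ω), a ^ Fintype.card k ^ e = algebraMap Ω (Fb Ω) b := by
  obtain ⟨p, hp⟩ := CharP.exists k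
  obtain ⟨n, hpp, hn⟩ := FiniteField.card k p
  have := charP_of_injective_algebraMap (algebraMap k Ω).injective p
  have : ExpChar Ω p := ExpChar.prime hpp
  have := IsSepClosure.sep_closed (RatFunc k) (K := Ω)
  have : IsPurelyInseparable Ω (Fb Ω) := Algebra.IsAlgebraic.isPurelyInseparable_of_isSepClosed
  obtain ⟨m, b, hb⟩ := IsPurelyInseparable.pow_mem Ω p a
  obtain ⟨r, hr⟩ : ∃ r : ℕ, (n : ℕ) = r + 1 := ⟨n - 1, by have := n.pos; omega⟩
  refine ⟨m, b ^ p ^ (r * m), ?_⟩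
  rw [map_pow, hb, hn, hr, ← pow_mul, ← pow_mul, ← pow_add]
  congr 2
  ring

variable (k Ω) in
theorem fb_pow_inj (e : ℕ) : Function.Injective fun a : Fb Ω => a ^ Fintype.card k ^ e := by
  obtain ⟨p, hp⟩ := CharP.exists k
  obtain ⟨n, hpp, hn⟩ := FiniteField.card k p
  have := charP_of_injective_algebraMap (algebraMap k (Fb Ω)).injective p
  have : ExpChar (Fb Ω) p := ExpChar.prime hpp
  rw [hn, ← pow_mul]
  exact (iterateFrobenius (Fb Ω) p (n * e)).injective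

variable (k) in
include k in
theorem fb_ext {σ σ' : Fb Ω ≃+* Fb Ω}
    (h : ∀ b : Ω, σ (algebraMap Ω (Fb Ω) b) = σ' (algebraMap Ω (Fb Ω) b)) : σ = σ' := by
  refine RingEquiv.ext fun a => ?_
  obtain ⟨e, b, hb⟩ := exists_pow k a
  refine fb_pow_inj k Ω e ?_
  simp only
  rw [← map_pow, ← map_pow, hb, h]

variable (k Ω) in
/-- the action on the algebraic closure -/
noncomputable def psi : Gam k Ω →* (Fb Ω ≃+* Fb Ω) :=
  MonoidHom.mk' (fun g => IsAlgClosure.equivOfEquiv (Fb Ω) (Fb Ω) (g : Ω ≃+* Ω)) fun g h =>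
    fb_ext k fun b => by
      simp only [RingAut.mul_apply, IsAlgClosure.equivOfEquiv_algebraMap]
      rfl

theorem psi_alg (g : Gam k Ω) (b : Ω) :
    psi k Ω g (algebraMap Ω (Fb Ω) b) = algebraMap Ω (Fb Ω) (g b) :=
  IsAlgClosure.equivOfEquiv_algebraMap (Fb Ω) (Fb Ω) (g : Ω ≃+* Ω) b

theorem psi_base (g : Gam k Ω) (c : RatFunc k) :
    psi k Ω g (algebraMap (RatFunc k) (Fb Ω) c) = algebraMap (RatFunc k) (Fb Ω) c := by
  rw [IsScalarTower.algebraMap_apply (RatFunc k) Ω (Fb Ω), psi_alg, AlgEquiv.commutes]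

theorem psi_const (g : Gam k Ω) (c : k) :
    psi k Ω g (algebraMap k (Fb Ω) c) = algebraMap k (Fb Ω) c := by
  rw [IsScalarTower.algebraMap_apply k (RatFunc k) (Fb Ω), psi_base]

instance : IsAlgClosure (RatFunc k) (Fb Ω) where
  isAlgClosed := inferInstance
  isAlgebraic := Algebra.IsAlgebraic.trans (RatFunc k) Ω (Fb Ω)

theorem finOrb_psi : FinOrb (psi k Ω) := finOrb_of_algebraic psi_base

theorem psi_surj (s : Fb Ω ≃ₐ[RatFunc k] Fb Ω) : ∃ g, ∀ a, psi k Ω g a = s a := by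
  refine ⟨s.restrictNormal Ω, fun a => ?_⟩
  exact DFunLike.congr_fun (fb_ext k (σ := psi k Ω (s.restrictNormal Ω)) (σ' := s.toRingEquiv)
    fun b => (psi_alg _ b).trans (s.restrictNormal_commutes Ω b)) a

theorem fx_base (S : Finset (Fb Ω)) :
    ∃ S' : Finset Ω, ∀ g : Gam k Ω, (∀ b ∈ S', g b = b) → g ∈ Fx (psi k Ω) S := by
  classical
  choose e b hb using exists_pow k (Ω := Ω)
  refine ⟨S.image b, fun g hg a ha => fb_pow_inj k Ω (e a) ?_⟩
  simp only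
  rw [← map_pow, hb, psi_alg, hg _ (Finset.mem_image_of_mem b ha)]

theorem psi_fixed {a : Fb Ω} (h : ∀ g, psi k Ω g a = a) :
    ∃ (e : ℕ) (c : RatFunc k), a ^ Fintype.card k ^ e = algebraMap (RatFunc k) (Fb Ω) c := by
  obtain ⟨e, b, hb⟩ := exists_pow k a
  obtain ⟨c, hc⟩ := (InfiniteGalois.mem_range_algebraMap_iff_fixed (k := RatFunc k) b).2 fun g =>
    (algebraMap Ω (Fb Ω)).injective (by rw [← psi_alg, ← hb, map_pow, h])
  exact ⟨e, c, by rw [hb, ← hc, ← IsScalarTower.algebraMap_apply]⟩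

theorem dense_psi [Par] (φ : WG k Ω) (hφ : wdeg φ = 1) (S : Finset (Fb Ω)) (g : Gam k Ω) :
    ∃ w : WG k Ω, (gal w)⁻¹ * g ∈ Fx (psi k Ω) S := by
  obtain ⟨S', hS⟩ := fx_base (k := k) S
  obtain ⟨w, hw⟩ := dense φ hφ g S'
  refine ⟨w, hS _ fun b hb => ?_⟩
  rw [AlgEquiv.mul_apply, ← hw b hb, ← AlgEquiv.mul_apply, inv_mul_cancel, AlgEquiv.one_apply]

variable (k Ω) in
/-- the base field inside the algebraic closure -/
noncomputable def FF : Subfield (Fb Ω) := (algebraMap (RatFunc k) (Fb Ω)).fieldRange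

theorem psi_FF (g : Gam k Ω) : ∀ a ∈ FF k Ω, psi k Ω g a = a := by
  rintro _ ⟨c, rfl⟩
  exact psi_base g c

variable (Ω) in
/-- polynomials in `t` as elements of the algebraic closure -/
noncomputable def pj : Polynomial k →+* Fb Ω :=
  (algebraMap (RatFunc k) (Fb Ω)).comp (algebraMap (Polynomial k) (RatFunc k))

theorem pj_mem (p : Polynomial k) : pj Ω p ∈ FF k Ω := ⟨_, rfl⟩

theorem pj_inj : Function.Injective (pj Ω : Polynomial k → Fb Ω) :=
  (algebraMap (RatFunc k) (Fb Ω)).injective.comp (IsFractionRing.injective _ _)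

/-- on elements that are algebraic over `k` the Weil group acts by powers of the Frobenius -/
theorem psi_frob [Par] (g : WG k Ω) {m : ℕ} (hg : wdeg g = m) {a : Fb Ω} (ha : IsAlgebraic k a) :
    psi k Ω (gal g) a = a ^ Fintype.card k ^ m := by
  obtain ⟨e, b, hb⟩ := exists_pow k a
  have h1 : IsAlgebraic k b :=
    (isAlgebraic_algebraMap_iff (algebraMap Ω (Fb Ω)).injective).1 (hb ▸ ha.pow _)
  have h2 := gal_const g ⟨b, mem_algebraicClosure_iff.2 h1⟩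
  rw [hg, zpow_natCast, frob_pow_apply] at h2
  have h3 : gal g b = b ^ Fintype.card k ^ m := h2
  refine fb_pow_inj k Ω e ?_
  simp only
  rw [← map_pow, hb, psi_alg, h3, map_pow, ← hb, ← pow_mul, ← pow_mul, mul_comm]

end Pool.Agent.Hyp
end

-- merged part: Pool.Agent.Work.MP_60d5ce_nt.Hy.Ov
section
/-!
# The valuation ring of the algebraic closure at a place  (ported from Lt Ov)

* `exists_ov`: `w = {a | ∀ e b, a ^ q ^ e = algebraMap b → l.w b ≤ 1}` (one `e` suffices; `exists_pow`, `Loc.w_na`;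
  `(a + a') ^ q ^ e = a ^ q ^ e + a' ^ q ^ e`).  For `a ∈ w` with `a ^ q ^ e = b` take `c` from `Loc.w_res` and a `q ^ e`-th root
  `c'` of it in the algebraically closed field `Kb k Ω`; `(a - c') ^ q ^ e = b - c`.  `ρ a` is the unique such constant (`w_const`).
* the rest: reduce to `Ω` by `exists_pow`; `Loc.w_τ`, `w_σ`, `τ_res`, `σ_res`, `w_poly`, `w_poly_inf`, `kum_tau`
  (`aeval_tt_base`, `aeval_tt_map`, `galloc_min`, `LocEx`-free).  For `some p`: `l.x` is a simple root of `p`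
  (see `chi_self` in `Sm/RecipA.lean`), so the multiplicity of `l.x` in `g` is the multiplicity of `p` in `g`.
* `exists_nu`: on `RatFunc k` the absolute value is a power of two (`num`, `denom`, `w_poly`).
-/

namespace Pool.Agent.Hyp

open Pool.Agent.Ell.AT

open Polynomial

variable {k : Type} [Field k] [Fintype k] {Ω : Type} [Field Ω] [Algebra (RatFunc k) Ω]
  [Algebra k Ω] [IsScalarTower k (RatFunc k) Ω] [IsSepClosure (RatFunc k) Ω] [Par] {v : Pl k}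

/-- `o` is the extension of the absolute value of `l` -/
structure OV (l : Loc Ω v) (o : Pm (Fb Ω) (Kb k Ω)) : Prop where
  mem : ∀ b : Ω, algebraMap Ω (Fb Ω) b ∈ o.w ↔ l.w b ≤ 1
  const : ∀ c : Kb k Ω, o.ρ (algebraMap Ω (Fb Ω) c) = c

theorem Ov_pow_mem {A : Type} [Field A] (w : ValuationSubring A) (a : A) {n : ℕ} (hn : n ≠ 0) :
    a ^ n ∈ w ↔ a ∈ w := by
  rw [← w.valuation_le_one_iff, ← w.valuation_le_one_iff, map_pow, pow_le_one_iff hn]

theorem Ov_pow_non {A : Type} [Field A] (w : ValuationSubring A) (a : A) {n : ℕ} (hn : n ≠ 0) :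
    a ^ n ∈ w.nonunits ↔ a ∈ w.nonunits := by
  rw [w.mem_nonunits_iff, w.mem_nonunits_iff, map_pow, pow_lt_one_iff hn]

variable (k) in
theorem Ov_q_ne (e : ℕ) : Fintype.card k ^ e ≠ 0 := pow_ne_zero _ Fintype.card_ne_zero

variable (k) in
theorem Ov_fr (A : Type) [Field A] [Algebra k A] (e : ℕ) :
    ∃ f : A →+* A, ∀ a, f a = a ^ Fintype.card k ^ e :=
  ⟨(FiniteField.frobeniusAlgHom k A ^ e : A →ₐ[k] A), fun a => by
    rw [RingHom.coe_coe, AlgHom.coe_pow, FiniteField.coe_frobeniusAlgHom, pow_iterate]⟩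

variable (k) in
theorem Ov_add_pow {A : Type} [Field A] [Algebra k A] (e : ℕ) (a b : A) :
    (a + b) ^ Fintype.card k ^ e = a ^ Fintype.card k ^ e + b ^ Fintype.card k ^ e := by
  obtain ⟨f, hf⟩ := Ov_fr k A e
  rw [← hf, ← hf, ← hf, map_add]

variable (k) in
theorem Ov_sub_pow {A : Type} [Field A] [Algebra k A] (e : ℕ) (a b : A) :
    (a - b) ^ Fintype.card k ^ e = a ^ Fintype.card k ^ e - b ^ Fintype.card k ^ e := by
  obtain ⟨f, hf⟩ := Ov_fr k A e
  rw [← hf, ← hf, ← hf, map_sub]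

variable (k) in
theorem Ov_neg_pow {A : Type} [Field A] [Algebra k A] (e : ℕ) (a : A) :
    (-a) ^ Fintype.card k ^ e = -a ^ Fintype.card k ^ e := by
  obtain ⟨f, hf⟩ := Ov_fr k A e
  rw [← hf, ← hf, map_neg]

theorem Ov_up {u : AbsoluteValue Ω ℝ} {a : Fb Ω} {e : ℕ} {b : Ω} (e' : ℕ)
    (h : a ^ Fintype.card k ^ e = algebraMap Ω (Fb Ω) b) (hb : u b ≤ 1) :
    ∃ b', a ^ Fintype.card k ^ (e + e') = algebraMap Ω (Fb Ω) b' ∧ u b' ≤ 1 :=
  ⟨b ^ Fintype.card k ^ e', by rw [pow_add, pow_mul, h, map_pow], by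
    rw [map_pow]
    exact pow_le_one₀ (u.nonneg b) hb⟩

/-- the valuation ring -/
def Ov_w (l : Loc Ω v) : ValuationSubring (Fb Ω) where
  carrier := {a | ∃ (e : ℕ) (b : Ω), a ^ Fintype.card k ^ e = algebraMap Ω (Fb Ω) b ∧ l.w b ≤ 1}
  mul_mem' := by
    rintro a a' ⟨e, b, h1, h2⟩ ⟨e', b', h1', h2'⟩
    obtain ⟨c, h3, h4⟩ := Ov_up e' h1 h2
    obtain ⟨c', h3', h4'⟩ := Ov_up e h1' h2'
    rw [add_comm] at h3'
    refine ⟨e + e', c * c', by rw [mul_pow, h3, h3', map_mul], ?_⟩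
    rw [map_mul]
    exact mul_le_one₀ h4 (l.w.nonneg _) h4'
  one_mem' := ⟨0, 1, by simp, by simp⟩
  add_mem' := by
    rintro a a' ⟨e, b, h1, h2⟩ ⟨e', b', h1', h2'⟩
    obtain ⟨c, h3, h4⟩ := Ov_up e' h1 h2
    obtain ⟨c', h3', h4'⟩ := Ov_up e h1' h2'
    rw [add_comm] at h3'
    exact ⟨e + e', c + c', by rw [Ov_add_pow, h3, h3', map_add],
      (l.w_na c c').trans (max_le h4 h4')⟩
  zero_mem' := ⟨0, 0, by simp, by simp⟩
  neg_mem' := by
    rintro a ⟨e, b, h1, h2⟩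
    exact ⟨e, -b, by rw [Ov_neg_pow, h1, map_neg], by rwa [l.w.map_neg]⟩
  mem_or_inv_mem' a := by
    obtain ⟨e, b, h⟩ := exists_pow k a
    by_cases hb : l.w b ≤ 1
    · exact Or.inl ⟨e, b, h, hb⟩
    · refine Or.inr ⟨e, b⁻¹, by rw [inv_pow, h, map_inv₀], ?_⟩
      rw [map_inv₀]
      exact inv_le_one_of_one_le₀ (not_le.1 hb).le

theorem Ov_w_mem (l : Loc Ω v) (b : Ω) : algebraMap Ω (Fb Ω) b ∈ Ov_w l ↔ l.w b ≤ 1 := by
  refine ⟨?_, fun h => ⟨0, b, by simp, h⟩⟩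
  rintro ⟨e, b', h1, h2⟩
  rw [← map_pow] at h1
  rw [← (algebraMap Ω (Fb Ω)).injective h1, map_pow] at h2
  exact (pow_le_one_iff_of_nonneg (l.w.nonneg b) (Ov_q_ne k e)).1 h2

section gen

variable {l : Loc Ω v} {w : ValuationSubring (Fb Ω)}
  (hm : ∀ b : Ω, algebraMap Ω (Fb Ω) b ∈ w ↔ l.w b ≤ 1)

include hm

theorem Ov_non (b : Ω) : algebraMap Ω (Fb Ω) b ∈ w.nonunits ↔ l.w b < 1 := by
  by_cases hb : b = 0
  · subst hb
    simp [zero_mem]
  rw [w.mem_nonunits_iff_or, or_iff_right ((_root_.map_ne_zero _).2 hb), ← map_inv₀, hm, map_inv₀,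
    not_le, one_lt_inv₀ (l.w.pos hb)]

theorem Ov_cmem (c : Kb k Ω) : algebraMap Ω (Fb Ω) c ∈ w := by
  rw [hm]
  by_cases hc : c = 0
  · subst hc
    simp
  · exact (l.w_const c hc).le

theorem Ov_uniq {a : Fb Ω} {c c' : Kb k Ω} (h : a - algebraMap Ω (Fb Ω) c ∈ w.nonunits)
    (h' : a - algebraMap Ω (Fb Ω) c' ∈ w.nonunits) : c = c' := by
  have h1 := w.nonunits.sub_mem h' h
  have e : a - algebraMap Ω (Fb Ω) c' - (a - algebraMap Ω (Fb Ω) c) =
      algebraMap Ω (Fb Ω) ((c - c' : Kb k Ω) : Ω) := by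
    push_cast
    ring
  rw [e, Ov_non hm] at h1
  by_contra hc
  exact h1.ne (l.w_const _ (sub_ne_zero.2 hc))

theorem Ov_res {a : Fb Ω} (ha : a ∈ w) : ∃ c : Kb k Ω, a - algebraMap Ω (Fb Ω) c ∈ w.nonunits := by
  obtain ⟨e, b, h⟩ := exists_pow k a
  have h1 := (Ov_pow_mem w a (Ov_q_ne k e)).2 ha
  rw [h, hm] at h1
  obtain ⟨c, hc⟩ := l.w_res h1
  obtain ⟨c', rfl⟩ := IsAlgClosed.exists_pow_nat_eq c (Nat.pos_of_ne_zero (Ov_q_ne k e))
  refine ⟨c', (Ov_pow_non w _ (Ov_q_ne k e)).1 ?_⟩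
  rw [Ov_sub_pow, h, ← map_pow, ← map_sub, Ov_non hm]
  exact hc

theorem Ov_stb {g : Gam k Ω} (hg : ∀ b, l.w (g b) = l.w b) : Stb w (psi k Ω g) := by
  intro a
  obtain ⟨e, b, h⟩ := exists_pow k a
  rw [← Ov_pow_mem w a (Ov_q_ne k e), ← Ov_pow_mem w _ (Ov_q_ne k e), ← map_pow, h, psi_alg, hm,
    hm, hg]

theorem Ov_un (b : Ω) : Un w (algebraMap Ω (Fb Ω) b) ↔ l.w b = 1 := by
  rw [Un, hm, Ov_non hm, not_lt]
  exact ⟨fun h => le_antisymm h.1 h.2, fun h => ⟨h.le, h.ge⟩⟩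

end gen

theorem Ov_pj (g : k[X]) : pj Ω g = algebraMap Ω (Fb Ω) (aeval (tt k Ω) g) := by
  rw [aeval_tt_base, ← IsScalarTower.algebraMap_apply]
  rfl

theorem Ov_w_poly (l : Loc Ω v) (hv : v ≠ none) {g : k[X]} (hg : g ≠ 0) :
    l.w (aeval (tt k Ω) g) =
      2 ^ (-((g.map (algebraMap k (Kb k Ω))).rootMultiplicity l.x : ℤ)) := by
  rw [← aeval_tt_map]
  exact l.w_poly hv (Polynomial.map_ne_zero hg)

theorem Ov_root {p : {p : k[X] // p.Monic ∧ Irreducible p}} (l : Loc Ω (some p)) (g : k[X]) :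
    (g.map (algebraMap k (Kb k Ω))).IsRoot l.x ↔ p.1 ∣ g := by
  rw [IsRoot, eval_map_algebraMap, galloc_min l, minpoly.dvd_iff]

theorem Ov_mult {p : {p : k[X] // p.Monic ∧ Irreducible p}} (l : Loc Ω (some p)) :
    (p.1.map (algebraMap k (Kb k Ω))).rootMultiplicity l.x = 1 :=
  le_antisymm (rootMultiplicity_le_one_of_separable
    ((PerfectField.separable_of_irreducible p.2.2).map (f := algebraMap k (Kb k Ω))) l.x)
    ((rootMultiplicity_pos (Polynomial.map_ne_zero p.2.1.ne_zero)).2 ((Ov_root l _).2 dvd_rfl))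

theorem Ov_small (l : Loc Ω v) :
    ∃ c : RatFunc k, c ≠ 0 ∧ l.w (algebraMap (RatFunc k) Ω c) = 2 ^ (-(1 : ℤ)) := by
  cases v with
  | none =>
    refine ⟨RatFunc.X⁻¹, inv_ne_zero RatFunc.X_ne_zero, ?_⟩
    rw [map_inv₀, zpow_neg_one]
    exact l.w_unif
  | some p =>
    refine ⟨algebraMap k[X] (RatFunc k) p.1, RatFunc.algebraMap_ne_zero p.2.1.ne_zero, ?_⟩
    rw [← aeval_tt_base, Ov_w_poly l (by simp) p.2.1.ne_zero, Ov_mult]
    rfl

theorem Ov_disc (l : Loc Ω v) {c : RatFunc k} (hc : c ≠ 0) :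
    ∃ n : ℤ, l.w (algebraMap (RatFunc k) Ω c) = 2 ^ (-n) := by
  obtain ⟨n, hn⟩ := l.disc _ adm_WG0 (algebraMap (RatFunc k) Ω c) ((_root_.map_ne_zero _).2 hc)
    (fun u _ => AlgEquiv.commutes _ c) (AlgEquiv.commutes _ c)
  exact ⟨-n, by rw [neg_neg]; exact hn⟩

theorem exists_ov (l : Loc Ω v) : ∃ o, OV l o := by
  have hm := Ov_w_mem l
  let ρ : Fb Ω → Kb k Ω := fun a =>
    Classical.epsilon fun c : Kb k Ω => a - algebraMap Ω (Fb Ω) c ∈ (Ov_w l).nonunits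
  have h1 : ∀ a ∈ Ov_w l, a - algebraMap Ω (Fb Ω) (ρ a) ∈ (Ov_w l).nonunits :=
    fun a ha => Classical.epsilon_spec (Ov_res hm ha)
  have h2 : ∀ (a : Fb Ω) (c : Kb k Ω), a - algebraMap Ω (Fb Ω) c ∈ (Ov_w l).nonunits → ρ a = c :=
    fun a c h => Ov_uniq hm (Classical.epsilon_spec
      (p := fun c : Kb k Ω => a - algebraMap Ω (Fb Ω) c ∈ (Ov_w l).nonunits) ⟨c, h⟩) h
  have h3 : ∀ c : Kb k Ω, ρ (algebraMap Ω (Fb Ω) c) = c := fun c => h2 _ _ (by
    rw [sub_self]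
    exact zero_mem _)
  refine ⟨⟨Ov_w l, ρ, fun {a b} ha hb => h2 _ _ ?_, fun {a b} ha hb => h2 _ _ ?_, ?_,
    fun {a} ha => ⟨fun h => ?_, fun h => h2 _ _ ?_⟩, fun c => ⟨_, Ov_cmem hm c, h3 c⟩⟩, hm, h3⟩
  · have := (Ov_w l).nonunits.add_mem (h1 a ha) (h1 b hb)
    refine (congrArg (· ∈ (Ov_w l).nonunits) ?_).mp this
    push_cast
    ring
  · refine nu_mul_sub hb (Ov_cmem hm _) (h1 a ha) (h1 b hb) ?_
    push_cast
    rfl
  · simpa using h3 1
  · simpa [h] using h1 a ha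
  · simpa using h

namespace OV

variable {l : Loc Ω v} {o : Pm (Fb Ω) (Kb k Ω)} (h : OV l o)

include h

theorem non (b : Ω) : algebraMap Ω (Fb Ω) b ∈ o.w.nonunits ↔ l.w b < 1 := by
  exact Ov_non h.mem b

theorem ine_τ : Ine o.w (psi k Ω (gal l.τ)) := by
  refine ⟨Ov_stb h.mem l.w_τ, fun a ha => ?_⟩
  obtain ⟨e, b, hb⟩ := exists_pow k a
  have h1 := (Ov_pow_mem o.w a (Ov_q_ne k e)).2 ha
  rw [hb, h.mem] at h1
  rw [← Ov_pow_non o.w _ (Ov_q_ne k e), Ov_sub_pow, ← map_pow, hb, psi_alg, ← map_sub, h.non]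
  exact l.τ_res h1

theorem stb_σ : Stb o.w (psi k Ω (gal l.σ)) := by
  exact Ov_stb h.mem l.w_σ

theorem res_σ : ∀ a ∈ o.w, o.ρ (psi k Ω (gal l.σ) a) =
    ((frob k Ω ^ pdg v : Kb k Ω ≃ₐ[k] Kb k Ω) : Kb k Ω ≃+* Kb k Ω) (o.ρ a) := by
  intro a ha
  have h1 : a - algebraMap Ω (Fb Ω) (o.ρ a) ∈ o.w.nonunits :=
    (o.eq_iff ha (Ov_cmem h.mem _)).1 (h.const _).symm
  have h2 := h.stb_σ.nonunits.2 h1
  rw [map_sub, psi_alg, gal_const, l.deg_σ, zpow_natCast] at h2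
  rw [(o.eq_iff ((h.stb_σ a).2 ha) (Ov_cmem h.mem _)).2 h2, h.const]
  rfl

omit h in
theorem frob_fin (v : Pl k) (m : ℕ) (hm : 0 < m) : {a : Kb k Ω |
    (((frob k Ω ^ pdg v : Kb k Ω ≃ₐ[k] Kb k Ω) : Kb k Ω ≃+* Kb k Ω) ^ m) a = a}.Finite := by
  classical
  have key : ∀ (n : ℕ) (a : Kb k Ω),
      (((frob k Ω ^ pdg v : Kb k Ω ≃ₐ[k] Kb k Ω) : Kb k Ω ≃+* Kb k Ω) ^ n) a =
        a ^ Fintype.card k ^ (pdg v * n) := by
    intro n
    induction n with
    | zero => intro a; simp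
    | succ n ih =>
      intro a
      rw [pow_succ, RingAut.mul_apply, ih, AlgEquiv.coe_ringEquiv, frob_pow_apply, ← pow_mul,
        ← pow_add, mul_add, mul_one, add_comm]
  have h0 := FiniteField.X_pow_card_pow_sub_X_ne_zero (Kb k Ω)
    (mul_ne_zero (pdg_pos v).ne' hm.ne') (Fintype.one_lt_card (α := k))
  refine (Finset.finite_toSet
    (X ^ Fintype.card k ^ (pdg v * m) - X : (Kb k Ω)[X]).roots.toFinset).subset fun a ha => ?_
  have ha' := (key m a).symm.trans ha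
  simp only [Finset.mem_coe, Multiset.mem_toFinset, mem_roots h0, IsRoot, eval_sub, eval_pow,
    eval_X, ha', sub_self]

end OV

section fin

variable {p : {p : k[X] // p.Monic ∧ Irreducible p}} {l : Loc Ω (some p)}
  {o : Pm (Fb Ω) (Kb k Ω)}

theorem OV.pj_mem (h : OV l o) (g : k[X]) : pj Ω g ∈ o.w := by
  by_cases hg : g = 0
  · rw [hg, map_zero]
    exact zero_mem _
  rw [Ov_pj, h.mem, Ov_w_poly l (by simp) hg, zpow_le_one_iff_right₀ one_lt_two]
  omega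

theorem OV.pj_non (h : OV l o) (g : k[X]) : pj Ω g ∈ o.w.nonunits ↔ p.1 ∣ g := by
  by_cases hg : g = 0
  · rw [hg, map_zero]
    exact iff_of_true (zero_mem _) (dvd_zero _)
  rw [Ov_pj, h.non, Ov_w_poly l (by simp) hg, zpow_lt_one_iff_right₀ one_lt_two, ← Ov_root l,
    ← rootMultiplicity_pos (Polynomial.map_ne_zero hg)]
  omega

end fin

theorem OV.un_inf {l : Loc Ω none} {o : Pm (Fb Ω) (Kb k Ω)} (h : OV l o) {g : k[X]} (hg : g ≠ 0) :
    Un o.w (pj Ω g / pj Ω ((X : k[X]) ^ g.natDegree)) := by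
  have key : ∀ {g : k[X]}, g ≠ 0 → l.w (aeval (tt k Ω) g) = 2 ^ (g.natDegree : ℤ) := by
    intro g hg
    rw [← aeval_tt_map, l.w_poly_inf (Polynomial.map_ne_zero hg), natDegree_map]
  rw [Ov_pj, Ov_pj, ← map_div₀, Ov_un h.mem, map_div₀, key hg, key (pow_ne_zero _ X_ne_zero),
    natDegree_X_pow, div_self (zpow_ne_zero _ two_ne_zero)]

end Pool.Agent.Hyp
end
end
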