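import Pool.Agent.Work.MP_60d5ce_nt.Qt.Alg
import Pool.Agent.Work.MP_60d5ce_nt.Hy.Cube
import Pool.Agent.Work.MP_60d5ce_nt.Lb.LkAbs
import Pool.Agent.Work.MP_7f58ab_ag.Lt.Sa
import Mathlib
import Pool.Agent.Work.MP_60d5ce_nt.Hy.Ov
import Pool.Agent.Work.MP_60d5ce_nt.Qt.Tame
import Pool.Agent.Work.MP_60d5ce_nt.Hy.GalBasic
import Pool.Agent.Work.MP_60d5ce_nt.Asc.Loc
import Pool.Agent.Work.MP_60d5ce_nt.Hy.Form

-- merged part: Pool.Agent.Work.MP_60d5ce_nt.Hy.WeT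
section
-- merged part: Pool.Agent.Work.MP_60d5ce_nt.Hy.TateI
section
/-!
# Tate modules with an arbitrary finite index set
-/

namespace Pool.Agent.Hyp

open Pool.Agent.Quad Pool.Agent.Lef

noncomputable section

/-- a basis of the Tate module -/
structure TateI (I : Type) (A : Type) [AddCommGroup A] where
  pt : ℕ → (I → O) →+ A
  two : ∀ j a, 2 • pt (j + 1) a = pt j a
  ker : ∀ j a, pt j a = 0 ↔ VD j a
  surj : ∀ j P, 2 ^ j • P = 0 → ∃ a, pt j a = P

variable {A : Type} [AddCommGroup A] {I : Type} [Fintype I] [DecidableEq I]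

/-- index set `Fin r` -/
def ofR {r : ℕ} (B : TateR r A) : TateI (Fin r) A := ⟨B.pt, B.two, B.ker, B.surj⟩

namespace TateI

variable (B : TateI I A)

theorem pow_smul_pt (j : ℕ) (a : I → O) : 2 ^ j • B.pt j a = 0 := by
  rw [← map_nsmul, B.ker]
  intro i
  simp

theorem pow_smul_add (i j : ℕ) (a : I → O) : 2 ^ i • B.pt (i + j) a = B.pt j a := by
  induction i with
  | zero => simp
  | succ i ih => rw [pow_succ, mul_smul, Nat.add_right_comm, B.two, ih]

theorem pt_eq_iff (j : ℕ) (a b : I → O) :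
    B.pt j a = B.pt j b ↔ ∀ i, (2 : O) ^ j ∣ a i - b i := by
  rw [← sub_eq_zero, ← map_sub, B.ker]
  rfl

theorem pt_smul (j : ℕ) (c : O) (a : I → O) :
    B.pt j (c • a) = c.appr j • B.pt j a := by
  rw [← map_nsmul, pt_eq_iff]
  intro i
  simpa [← sub_mul] using (TateMod_appr j c).mul_right (a i)

theorem pt_rO (j : ℕ) (a b : I → O) :
    B.pt j a = B.pt j b ↔ (fun i => rO j (a i)) = fun i => rO j (b i) := by
  rw [pt_eq_iff, funext_iff]
  exact forall_congr' fun i => by rw [← rO_eq_zero, map_sub, sub_eq_zero]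

theorem exists_mat (f : A →+ A) :
    ∃ m : Matrix (I) (I) O, ∀ j a, f (B.pt j a) = B.pt j (m.mulVec a) := by
  choose c hc using fun k j => B.surj j (f (B.pt j (Pi.single k 1))) (by
    rw [← map_nsmul, pow_smul_pt, map_zero])
  choose m hm using fun i k => TateMod_lim (fun j => c k j i) fun j =>
    (B.pt_eq_iff j _ _).1 (by rw [← B.two, hc, ← map_nsmul, B.two, hc]) i
  refine ⟨Matrix.of m, fun j a => ?_⟩
  have e1 : a = ∑ k, a k • Pi.single k (1 : O) := by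
    funext i; simp [Pi.single_apply]
  have e2 : (Matrix.of m).mulVec a = ∑ k, a k • fun i => m i k := by
    funext i; simp [Matrix.mulVec, dotProduct, mul_comm]
  rw [e2, map_sum]
  conv_lhs => rw [e1, map_sum, map_sum]
  refine Finset.sum_congr rfl fun k _ => ?_
  rw [pt_smul, pt_smul, map_nsmul, ← hc, (B.pt_eq_iff j _ _).2 fun i => hm i k j]

theorem exists_emb (j : ℕ) : ∃ e : (I → ZMod (2 ^ j)) →+ A, Function.Injective e ∧
    e.range = tors A (2 ^ j) ∧ ∀ a, e (fun i => rO j (a i)) = B.pt j a := by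
  choose s hs using rO_surj j
  have key : ∀ a : I → O, B.pt j (fun i => s (rO j (a i))) = B.pt j a := fun a =>
    (B.pt_rO j _ _).2 (funext fun i => hs _)
  refine ⟨AddMonoidHom.mk' (fun x => B.pt j fun i => s (x i)) fun x y => ?_, fun x y h => ?_, ?_,
    key⟩
  · rw [← map_add, pt_rO]
    funext i
    rw [Pi.add_apply, Pi.add_apply, map_add, hs, hs, hs]
  · have h1 := (B.pt_rO j _ _).1 h
    funext i
    simpa only [hs] using congrFun h1 i
  · ext P
    constructor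
    · rintro ⟨x, rfl⟩
      exact B.pow_smul_pt j _
    · intro h
      obtain ⟨a, rfl⟩ := B.surj j P h
      exact ⟨fun i => rO j (a i), key a⟩

theorem hasTr {j : ℕ} {f : A → A} {m : Matrix (I) (I) O}
    (h : ∀ a, f (B.pt j a) = B.pt j (m.mulVec a)) :
    HasTr (2 ^ j) (tors A (2 ^ j)) f (rO j m.trace) := by
  obtain ⟨e, he, hr, ha⟩ := B.exists_emb j
  rw [AddMonoidHom.map_trace (rO j) m]
  refine hasTr_of_basis e he hr (m.map (rO j)) fun x => ?_
  choose a hx using fun i => rO_surj j (x i)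
  obtain rfl : x = fun i => rO j (a i) := funext fun i => (hx i).symm
  rw [ha, h, ← ha]
  exact congrArg e (funext fun i => RingHom.map_mulVec (rO j) m a i)

include B in
theorem card_tors (j : ℕ) : (tors A (2 ^ j) : Set A).Finite ∧
    (tors A (2 ^ j) : Set A).ncard = (2 ^ j) ^ Fintype.card I := by
  obtain ⟨e, he, hr, -⟩ := B.exists_emb j
  have h : (tors A (2 ^ j) : Set A) = Set.range e := by rw [← hr]; rfl
  rw [h]
  refine ⟨Set.finite_range e, ?_⟩
  rw [Set.ncard_range_of_injective he]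
  simp

theorem pt_pow_smul (i j : ℕ) (a : I → O) : B.pt (i + j) ((2 : O) ^ i • a) = B.pt j a := by
  rw [← B.pow_smul_add i j a, ← map_nsmul, ← Nat.cast_smul_eq_nsmul O]
  simp

/-- the matrix of an endomorphism -/
def mat (f : A →+ A) : Matrix I I O := (B.exists_mat f).choose

theorem mat_spec (f : A →+ A) (j : ℕ) (a : I → O) : f (B.pt j a) = B.pt j ((B.mat f).mulVec a) :=
  (B.exists_mat f).choose_spec j a

theorem mat_unique {f : A →+ A} {m : Matrix I I O}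
    (h : ∀ j a, f (B.pt j a) = B.pt j (m.mulVec a)) : B.mat f = m := by
  ext a b
  refine sub_eq_zero.1 (TateMod_zero fun j => ?_)
  simpa using (B.pt_eq_iff j _ _).1 ((B.mat_spec f j (Pi.single b 1)).symm.trans (h j _)) a

theorem mat_one {f : A →+ A} (h : ∀ (j : ℕ) (P : A), 2 ^ j • P = 0 → f P = P) : B.mat f = 1 := by
  exact B.mat_unique fun j a => by rw [Matrix.one_mulVec, h j _ (B.pow_smul_pt j a)]

theorem mat_mul {f g fg : A →+ A} (h : ∀ P, fg P = f (g P)) : B.mat fg = B.mat f * B.mat g := by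
  exact B.mat_unique fun j a => by rw [h, mat_spec, mat_spec, Matrix.mulVec_mulVec]

theorem mat_dvd_iff (f : A →+ A) (j : ℕ) :
    (∀ a b, (2 : O) ^ j ∣ (B.mat f - 1) a b) ↔ ∀ P : A, 2 ^ j • P = 0 → f P = P := by
  constructor
  · intro h P hP
    obtain ⟨a, rfl⟩ := B.surj j P hP
    rw [mat_spec, ← sub_eq_zero, ← map_sub, B.ker]
    intro i
    rw [show (B.mat f).mulVec a - a = (B.mat f - 1).mulVec a by
      rw [Matrix.sub_mulVec, Matrix.one_mulVec]]
    exact Finset.dvd_sum (s := Finset.univ) fun k _ => (h i k).mul_right (a k)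
  · intro h a b
    have := (B.pt_eq_iff j _ _).1 ((B.mat_spec f j (Pi.single b 1)).symm.trans
      (h _ (B.pow_smul_pt j _))) a
    simpa [Matrix.one_apply, Pi.single_apply] using this

open Classical in
/-- coordinates of a torsion point -/
def crd (j : ℕ) (P : A) : I → O := if h : ∃ a, B.pt j a = P then h.choose else 0

theorem pt_crd {j : ℕ} {P : A} (h : 2 ^ j • P = 0) : B.pt j (B.crd j P) = P := by
  rw [crd, dif_pos (B.surj j P h)]
  exact (B.surj j P h).choose_spec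

/-- change of coordinates -/
def change {I' : Type} (e : (I' → O) ≃ₗ[O] (I → O)) : TateI I' A where
  pt j := (B.pt j).comp e.toLinearMap.toAddMonoidHom
  two j a := B.two j (e a)
  ker j a := (B.ker j (e a)).trans ⟨fun h => by
      obtain ⟨b, hb⟩ := h.exists
      rw [← e.symm_apply_apply a, hb, map_smul]
      exact fun i => Dvd.intro _ rfl, fun h => by
      obtain ⟨b, rfl⟩ := h.exists
      rw [map_smul]
      exact fun i => Dvd.intro _ rfl⟩
  surj j P h := by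
    obtain ⟨a, rfl⟩ := B.surj j P h
    exact ⟨e.symm a, congrArg (B.pt j) (e.apply_symm_apply a)⟩

theorem change_pt {I' : Type} (e : (I' → O) ≃ₗ[O] (I → O)) (j : ℕ) (a : I' → O) :
    (B.change e).pt j a = B.pt j (e a) := rfl

end TateI

/-- the standard model -/
theorem exists_model (I : Type) [Fintype I] [DecidableEq I] :
    ∃ (A : Type) (_ : AddCommGroup A) (B : TateI I A), ∀ m : Matrix I I O,
      ∃ f : A →+ A, ∀ j t, f (B.pt j t) = B.pt j (m.mulVec t) := by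
  let ι : (I → O) →ₗ[O] (I → ℚ_[2]) := (Algebra.linearMap O ℚ_[2]).compLeft I
  have hι : Function.Injective ι := fun a b h =>
    funext fun i => FaithfulSMul.algebraMap_injective O ℚ_[2] (congrFun h i)
  let L : Submodule O (I → ℚ_[2]) := LinearMap.range ι
  have h2 : ∀ j : ℕ, ((2 : ℚ_[2]) ^ j) ≠ 0 := fun j => pow_ne_zero _ two_ne_zero
  have hs : ∀ (j : ℕ) (z : I → ℚ_[2]), (2 : O) ^ j • z = (2 : ℚ_[2]) ^ j • z := fun j z => by
    rw [← algebraMap_smul ℚ_[2], map_pow, map_ofNat]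
  let p : ℕ → (I → O) →+ (I → ℚ_[2]) ⧸ L := fun j =>
    (L.mkQ ∘ₗ (((2 : ℚ_[2]) ^ j)⁻¹ • ι)).toAddMonoidHom
  have hp : ∀ j a, p j a = L.mkQ (((2 : ℚ_[2]) ^ j)⁻¹ • ι a) := fun _ _ => rfl
  refine ⟨(I → ℚ_[2]) ⧸ L, inferInstance, ⟨p, fun j a => ?_, fun j a => ?_, fun j P h => ?_⟩,
    fun m => ?_⟩
  · rw [hp, hp, ← map_nsmul, ← Nat.cast_smul_eq_nsmul ℚ_[2], smul_smul]
    refine congrArg (fun c : ℚ_[2] => L.mkQ (c • ι a)) ?_
    rw [pow_succ, mul_inv, Nat.cast_ofNat, mul_left_comm, mul_inv_cancel₀ two_ne_zero, mul_one]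
  · rw [hp, Submodule.mkQ_apply, Submodule.Quotient.mk_eq_zero]
    constructor
    · rintro ⟨b, hb⟩
      have : a = (2 : O) ^ j • b := hι (by rw [map_smul, hb, hs, smul_inv_smul₀ (h2 j)])
      rw [this]
      exact fun i => Dvd.intro _ rfl
    · intro h
      obtain ⟨b, rfl⟩ := h.exists
      exact ⟨b, by rw [map_smul, hs, inv_smul_smul₀ (h2 j)]⟩
  · obtain ⟨z, rfl⟩ := L.mkQ_surjective P
    rw [← map_nsmul, Submodule.mkQ_apply, Submodule.Quotient.mk_eq_zero] at h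
    obtain ⟨a, ha⟩ := h
    refine ⟨a, ?_⟩
    change p j a = _
    rw [hp, ha, ← Nat.cast_smul_eq_nsmul ℚ_[2], Nat.cast_pow, Nat.cast_ofNat, inv_smul_smul₀ (h2 j)]
  · have hm : ∀ a, (m.map (algebraMap O ℚ_[2])).mulVec (ι a) = ι (m.mulVec a) := fun a =>
      funext fun i => (RingHom.map_mulVec (algebraMap O ℚ_[2]) m a i).symm
    refine ⟨(L.mapQ L ((m.map (algebraMap O ℚ_[2])).mulVecLin.restrictScalars O) ?_).toAddMonoidHom,
      fun j t => ?_⟩
    · rintro _ ⟨a, rfl⟩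
      exact ⟨m.mulVec a, (hm a).symm⟩
    · change L.mkQ ((m.map (algebraMap O ℚ_[2])).mulVec (((2 : ℚ_[2]) ^ j)⁻¹ • ι t)) = p j _
      rw [hp, Matrix.mulVec_smul, hm]

end

end Pool.Agent.Hyp
end

-- merged part: Pool.Agent.Work.MP_60d5ce_nt.Hy.GeoM
section
/-!
# The generalised eigenspace has corank at most one

Hints.  `ZG` and `IsB` define subgroups of `W → A`, `nu` is additive and preserves both.
* `lift_pair`: `2 ^ n • c i` is the coboundary of `pt j t = 2 ^ n • pt (n + j) t`; subtract the coboundary of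
  `pt (n + j) t`, so that `2 ^ n` kills `c i` on the geometric group.  Then `nu c0` and
  `nu c1 + 2 ^ b • c0` are coboundaries of points `y i` with `2 ^ n • y i` fixed by the geometric group,
  hence zero (`Rep.VD_of_fix`).  For the second component note
  `nu c1 + 2 ^ b • a φ (c0 (φ⁻¹ g φ)) = nu c1 + 2 ^ b • c0 + 2 ^ b • nu c0`.
  Take coordinates (`crd n`), apply `Lat.extend` for `R.hat lam`, then `Lat.locOK_of_tau` on `A`
  and `act_unr` outside.  If `p0 (digV 0 (ψ g)) = db t g` then `2 ^ (n - 1) • c0 g = pt 1 (ψ g)` is the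
  coboundary of `pt 1 (lftV t)`.
* `geo_main`: `c` of `hat_fin`, `c0 = 4 c`, `alg_main` with `n1 = K1 + c0`, `n2 = K + c0`, `a1 = 4 K1`;
  `lam = 0` (`b` arbitrary is not needed: use `hlam` with the integer `0`), `lam = 2 ^ a`.
-/

namespace Pool.Agent.Hyp

open Pool.Agent.Quad

variable [Par]

open scoped Classical

noncomputable section

variable {W P : Type} [Group W] {T : Tame W P}

/-- a group of points with Tate module `R` twisted by `x` -/
structure GM (R : Rep T) (x : W → F2) (A : Type) [AddCommGroup A] extends TateI Ix A where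
  a : W → A →+ A
  a_pt : ∀ g j t, a g (pt j t) = pt j (R.act x g t)

theorem exists_gm (R : Rep T) (x : W → F2) :
    ∃ (A : Type) (_ : AddCommGroup A), Nonempty (GM R x A) := by
  obtain ⟨A, _, B, h⟩ := exists_model Ix
  choose f hf using h
  exact ⟨A, inferInstance, ⟨B, fun g => f (sg (x g) • R.ρ g), fun g j t => by
    rw [hf, Matrix.smul_mulVec]
    rfl⟩⟩

namespace GM

variable {R : Rep T} {x : W → F2} {A : Type} [AddCommGroup A] (M : GM R x A)

/-- cocycles on the geometric group, trivial on inertia -/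
def ZG (c : W → A) : Prop :=
  (∃ j : ℕ, ∀ g, T.deg g = 0 → 2 ^ j • c g = 0) ∧
    (∃ U, T.Adm U ∧ ∀ g, T.deg g = 0 → ∀ u ∈ U, c (g * u) = c g) ∧
    (∀ g h, T.deg g = 0 → T.deg h = 0 → c (g * h) = c g + M.a g (c h)) ∧
    ∀ v g, ∃ y, Tor2 y ∧ c (g * T.τ v * g⁻¹) = M.a (g * T.τ v * g⁻¹) y - y

/-- coboundaries on the geometric group -/
def IsB (c : W → A) : Prop := ∃ y, Tor2 y ∧ ∀ g, T.deg g = 0 → c g = M.a g y - y

/-- the operator `φ - 1` -/
def nu (φ : W) (c : W → A) (g : W) : A := M.a φ (c (φ⁻¹ * g * φ)) - c g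

variable {M}

theorem GeoM_zero : Tor2 (0 : A) := ⟨0, smul_zero _⟩

theorem GeoM_le {y : A} {i j : ℕ} (h : 2 ^ i • y = 0) (hij : i ≤ j) : 2 ^ j • y = 0 := by
  obtain ⟨k, rfl⟩ := Nat.exists_eq_add_of_le' hij
  rw [pow_add, mul_smul, h, smul_zero]

theorem GeoM_add {y z : A} (hy : Tor2 y) (hz : Tor2 z) : Tor2 (y + z) := by
  obtain ⟨i, hi⟩ := hy
  obtain ⟨j, hj⟩ := hz
  exact ⟨i + j, by rw [smul_add, GeoM_le hi le_self_add, GeoM_le hj le_add_self, add_zero]⟩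

theorem GeoM_neg {y : A} (hy : Tor2 y) : Tor2 (-y) :=
  hy.imp fun _ h => by rw [smul_neg, h, neg_zero]

theorem GeoM_a (g : W) {y : A} (hy : Tor2 y) : Tor2 (M.a g y) :=
  hy.imp fun _ h => by rw [← map_nsmul, h, map_zero]

theorem GeoM_mul (hx : T.IsHom x) (g h : W) {y : A} (hy : Tor2 y) :
    M.a (g * h) y = M.a g (M.a h y) := by
  obtain ⟨j, hj⟩ := hy
  obtain ⟨t, rfl⟩ := M.surj j y hj
  rw [M.a_pt, M.a_pt, M.a_pt, Lat.act_mul hx]

theorem GeoM_conj (hx : T.IsHom x) (φ g : W) {y : A} (hy : Tor2 y) :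
    M.a φ (M.a (φ⁻¹ * g * φ) y) = M.a g (M.a φ y) := by
  rw [← GeoM_mul hx _ _ hy, ← GeoM_mul hx _ _ hy, mul_assoc, mul_inv_cancel_left]

theorem GeoM_deg (φ : W) {g : W} (h : T.deg g = 0) : T.deg (φ⁻¹ * g * φ) = 0 := by
  rw [T.deg_mul, T.deg_mul, T.deg_inv, h, add_zero, neg_add_cancel]

variable (M) in
/-- the group of cocycles -/
def GeoM_Z : AddSubgroup (W → A) where
  carrier := {c | M.ZG c}
  zero_mem' := ⟨⟨0, fun _ _ => smul_zero _⟩, ⟨_, T.adm_G0, fun _ _ _ _ => rfl⟩,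
    fun _ _ _ _ => by simp, fun _ _ => ⟨0, GeoM_zero, by simp⟩⟩
  add_mem' := by
    rintro c d ⟨⟨i, hi⟩, ⟨U, hU, h1⟩, h2, h3⟩ ⟨⟨j, hj⟩, ⟨U', hU', k1⟩, k2, k3⟩
    refine ⟨⟨i + j, fun g hg => ?_⟩, ⟨_, T.adm_inf _ _ hU hU', fun g hg u hu => ?_⟩,
      fun g h hg hh => ?_, fun v g => ?_⟩
    · rw [Pi.add_apply, smul_add, GeoM_le (hi g hg) le_self_add, GeoM_le (hj g hg) le_add_self,
        add_zero]
    · rw [Pi.add_apply, Pi.add_apply, h1 g hg u hu.1, k1 g hg u hu.2]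
    · simp only [Pi.add_apply, h2 g h hg hh, k2 g h hg hh, map_add]
      abel
    · obtain ⟨y, hy, e⟩ := h3 v g
      obtain ⟨z, hz, e'⟩ := k3 v g
      exact ⟨y + z, GeoM_add hy hz, by rw [Pi.add_apply, e, e', map_add, add_sub_add_comm]⟩
  neg_mem' := by
    rintro c ⟨⟨i, hi⟩, ⟨U, hU, h1⟩, h2, h3⟩
    refine ⟨⟨i, fun g hg => ?_⟩, ⟨_, hU, fun g hg u hu => ?_⟩, fun g h hg hh => ?_, fun v g => ?_⟩
    · rw [Pi.neg_apply, smul_neg, hi g hg, neg_zero]
    · rw [Pi.neg_apply, Pi.neg_apply, h1 g hg u hu]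
    · simp only [Pi.neg_apply, h2 g h hg hh, map_neg, neg_add]
    · obtain ⟨y, hy, e⟩ := h3 v g
      exact ⟨-y, GeoM_neg hy, by rw [Pi.neg_apply, e, map_neg, neg_sub', sub_neg_eq_add]⟩

variable (M) in
/-- the group of coboundaries -/
def GeoM_B : AddSubgroup (W → A) where
  carrier := {c | M.IsB c}
  zero_mem' := ⟨0, GeoM_zero, fun _ _ => by simp⟩
  add_mem' := by
    rintro c d ⟨y, hy, e⟩ ⟨z, hz, e'⟩
    exact ⟨y + z, GeoM_add hy hz, fun g hg => by
      rw [Pi.add_apply, e g hg, e' g hg, map_add, add_sub_add_comm]⟩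
  neg_mem' := by
    rintro c ⟨y, hy, e⟩
    exact ⟨-y, GeoM_neg hy, fun g hg => by
      rw [Pi.neg_apply, e g hg, map_neg, neg_sub', sub_neg_eq_add]⟩

variable (M) in
/-- the operator as an additive map -/
def GeoM_nu (φ : W) : (W → A) →+ (W → A) :=
  AddMonoidHom.mk' (M.nu φ) fun c d => funext fun g => by
    simp only [nu, Pi.add_apply, map_add, add_sub_add_comm]

theorem GeoM_nuZ (hx : T.IsHom x) (φ : W) {c : W → A} (h : c ∈ GeoM_Z M) :
    GeoM_nu M φ c ∈ GeoM_Z M := by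
  refine sub_mem (show (fun g => M.a φ (c (φ⁻¹ * g * φ))) ∈ GeoM_Z M from ?_) h
  obtain ⟨⟨i, hi⟩, ⟨U, hU, h1⟩, h2, h3⟩ := h
  refine ⟨⟨i, fun g hg => ?_⟩, ⟨_, hU, fun g hg u hu => ?_⟩, fun g h hg hh => ?_, fun v g => ?_⟩
  · rw [← map_nsmul, hi _ (GeoM_deg φ hg), map_zero]
  · have e : φ⁻¹ * (g * u) * φ = φ⁻¹ * g * φ * (φ⁻¹ * u * φ) := by group
    simp only [e, h1 _ (GeoM_deg φ hg) _ ((T.adm_normal U hU).conj_mem' u hu φ)]
  · have e : φ⁻¹ * (g * h) * φ = φ⁻¹ * g * φ * (φ⁻¹ * h * φ) := by group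
    simp only [e, h2 _ _ (GeoM_deg φ hg) (GeoM_deg φ hh), map_add,
      GeoM_conj hx φ g ⟨i, hi _ (GeoM_deg φ hh)⟩]
  · obtain ⟨y, hy, e⟩ := h3 v (φ⁻¹ * g)
    have e' : φ⁻¹ * g * T.τ v * (φ⁻¹ * g)⁻¹ = φ⁻¹ * (g * T.τ v * g⁻¹) * φ := by group
    rw [e'] at e
    exact ⟨M.a φ y, GeoM_a φ hy, by simp only [e, map_sub, GeoM_conj hx φ _ hy]⟩

theorem GeoM_nuB (hx : T.IsHom x) (φ : W) {c : W → A} (h : c ∈ GeoM_B M) :
    GeoM_nu M φ c ∈ GeoM_B M := by
  refine sub_mem (show (fun g => M.a φ (c (φ⁻¹ * g * φ))) ∈ GeoM_B M from ?_) h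
  obtain ⟨y, hy, e⟩ := h
  exact ⟨M.a φ y, GeoM_a φ hy, fun g hg => by
    simp only [e _ (GeoM_deg φ hg), map_sub, GeoM_conj hx φ _ hy]⟩

theorem GeoM_cob (hx : T.IsHom x) (j : ℕ) (t : V) :
    (fun g => M.a g (M.pt j t) - M.pt j t) ∈ GeoM_Z M := by
  have hy : Tor2 (M.pt j t) := ⟨j, M.pow_smul_pt j t⟩
  obtain ⟨U, hU, h⟩ := R.act_sm hx j
  refine ⟨⟨j, fun g _ => ?_⟩, ⟨U, hU, fun g _ u hu => ?_⟩, fun g h _ _ => ?_,
    fun v g => ⟨_, hy, rfl⟩⟩
  · rw [smul_sub, ← map_nsmul, M.pow_smul_pt, map_zero, sub_zero]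
  · simp only [GeoM_mul hx g u hy, M.a_pt u, (M.pt_eq_iff j _ _).2 (h u hu t)]
  · simp only [GeoM_mul hx g h hy, map_sub]
    abel

theorem GeoM_norm (hx : T.IsHom x) {n : ℕ} {c : W → A} (h : M.ZG c) (ht : M.IsB (2 ^ n • c)) :
    ∃ d, M.ZG d ∧ c - d ∈ GeoM_B M ∧ ∀ g, T.deg g = 0 → 2 ^ n • d g = 0 := by
  obtain ⟨y, ⟨j, hj⟩, e⟩ := ht
  obtain ⟨t, rfl⟩ := M.surj j y hj
  refine ⟨_, sub_mem (show c ∈ GeoM_Z M from h) (GeoM_cob hx (n + j) t), ?_, fun g hg => ?_⟩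
  · rw [sub_sub_cancel]
    exact ⟨_, ⟨_, M.pow_smul_pt _ t⟩, fun _ _ => rfl⟩
  · rw [Pi.sub_apply, smul_sub, smul_sub, ← map_nsmul, M.pow_smul_add, ← e g hg, Pi.smul_apply,
      sub_self]

theorem GeoM_lev {n : ℕ} {d : W → A} (h : M.IsB d) (ht : ∀ g, T.deg g = 0 → 2 ^ n • d g = 0) :
    ∃ s, ∀ g, T.deg g = 0 → d g = M.pt n (R.act x g s) - M.pt n s := by
  obtain ⟨y, ⟨j, hj⟩, e⟩ := h
  obtain ⟨t, h1⟩ := M.surj j (2 ^ n • y) (by rw [smul_comm, hj, smul_zero])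
  have h2 : VD j t := R.VD_of_fix (x := x) fun g hg => (M.pt_eq_iff j _ _).1 (by
    rw [← M.a_pt, h1, map_nsmul, ← sub_eq_zero, ← smul_sub, ← e g hg, ht g hg])
  obtain ⟨s, rfl⟩ := M.surj n y (h1.symm.trans ((M.ker j t).2 h2))
  exact ⟨s, fun g hg => by rw [e g hg, M.a_pt]⟩

theorem GeoM_top {n : ℕ} (hn : 1 ≤ n) {f : W → V} {c : W → A}
    (h : ∀ g, T.deg g = 0 → M.pt n (f g) = c g) (hc : R.IsCob fun g => digV 0 (f g)) :
    M.IsB (2 ^ (n - 1) • c) := by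
  obtain ⟨t, ht⟩ := hc
  obtain ⟨k, rfl⟩ := Nat.exists_eq_add_of_le' hn
  refine ⟨M.pt 1 (lftV t), ⟨_, M.pow_smul_pt _ _⟩, fun g hg => ?_⟩
  rw [Pi.smul_apply, ← h g hg, Nat.add_sub_cancel, M.pow_smul_add, M.a_pt, ← map_sub, M.pt_eq_iff]
  refine (digV_eq_zero_iff (VD.triv (f g - (R.act x g (lftV t) - lftV t)))).1 ?_
  rw [digV_sub (VD.triv _) (VD.triv _), Lat.digV_act_sub (VD.triv _), digV_lftV, ← ht g, sub_self]

variable (M) in
theorem GeoM_VD {n : ℕ} {t : H → O} : VD n t ↔ M.pt n (p0 t) = 0 ∧ M.pt n (p1 t) = 0 :=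
  ⟨fun h => ⟨(M.ker _ _).2 h.q0, (M.ker _ _).2 h.q1⟩,
    fun h => VD_of_p ((M.ker _ _).1 h.1) ((M.ker _ _).1 h.2)⟩

theorem GeoM_p (a b : H → O) (s t : V) (r : O) : p0 (a + b) = p0 a + p0 b ∧
    p1 (a + b) = p1 a + p1 b ∧ p0 (a - b) = p0 a - p0 b ∧ p1 (a - b) = p1 a - p1 b ∧
    p0 (Sum.elim s t) = s ∧ p1 (Sum.elim s t) = t ∧ p0 (r • a) = r • p0 a ∧
    p1 (r • a) = r • p1 a := ⟨rfl, rfl, rfl, rfl, rfl, rfl, rfl, rfl⟩

theorem GeoM_core (hx : T.IsHom x) {A0 : Finset P} (hA : R.Ram x A0) {c : ℕ} {lam : O}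
    (hfin : ∀ v ∈ A0, ∀ (m : ℕ) (t : H → O), VD m ((R.hat lam).act x (T.σ v) t - t) →
      VD m ((R.hat lam).act x (T.τ v) t - t) → VD (m - c) t)
    {φ : W} (hφ : T.deg φ = 1) {b : ℕ} (hlam : 2 * lam = (b : O)) {n : ℕ} (hn : 1 ≤ n)
    {c0 c1 : W → A} (h0 : M.ZG c0) (h1 : M.ZG c1) (k0 : M.nu φ c0 ∈ GeoM_B M)
    (k1 : M.nu φ c1 + b • c0 ∈ GeoM_B M) (t0 : ∀ g, T.deg g = 0 → 2 ^ n • c0 g = 0)
    (t1 : ∀ g, T.deg g = 0 → 2 ^ n • c1 g = 0) :
    ∃ w, (R.hat lam).Lifts A0 x (n - 4 * gg * c) w ∧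
      (R.IsCob (fun g => p0 (w g)) → M.IsB (2 ^ (n - 1) • c0)) ∧
      (R.IsCob (fun g => p1 (w g)) → M.IsB (2 ^ (n - 1) • c1)) ∧
      (R.IsCob (fun g => p0 (w g) + p1 (w g)) → M.IsB (2 ^ (n - 1) • (c0 + c1))) := by
  have pa := fun a b : H → O => (GeoM_p a b 0 0 0).1
  have pa' := fun a b : H → O => (GeoM_p a b 0 0 0).2.1
  have ps := fun a b : H → O => (GeoM_p a b 0 0 0).2.2.1
  have ps' := fun a b : H → O => (GeoM_p a b 0 0 0).2.2.2.1
  have pe := fun s t : V => (GeoM_p 0 0 s t 0).2.2.2.2.1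
  have pe' := fun s t : V => (GeoM_p 0 0 s t 0).2.2.2.2.2.1
  have tn : ∀ {d : W → A}, (∀ g, T.deg g = 0 → 2 ^ n • d g = 0) →
      ∀ g, T.deg g = 0 → 2 ^ n • M.nu φ d g = 0 := fun h g hg => by
    rw [nu, smul_sub, ← map_nsmul, h g hg, h _ (GeoM_deg φ hg), map_zero, sub_zero]
  obtain ⟨s0, e0⟩ := GeoM_lev k0 (tn t0)
  obtain ⟨s1, e1⟩ := GeoM_lev (n := n) (add_mem k1 (nsmul_mem k0 b)) fun g hg => by
    simp only [Pi.add_apply, Pi.smul_apply, smul_add, smul_comm (2 ^ n) b, tn t0 g hg, tn t1 g hg,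
      t0 g hg, smul_zero, add_zero]
  obtain ⟨-, ⟨U, hU, a1⟩, a2, a3⟩ := h0
  obtain ⟨-, ⟨U', hU', b1⟩, b2, b3⟩ := h1
  obtain ⟨ψ, hψ, hg⟩ := (R.hat lam).extend hx hφ (n := n)
    (ψ0 := fun g => Sum.elim (M.crd n (c0 g)) (M.crd n (c1 g))) (y := Sum.elim s0 s1)
    ⟨_, T.adm_inf _ _ hU hU', fun g hg u hu => by
      rw [a1 g hg u hu.1, b1 g hg u hu.2, sub_self]
      exact VD.zero _⟩
    (fun g h hg hh => by
      have hgh : T.deg (g * h) = 0 := by rw [T.deg_mul, hg, hh, add_zero]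
      simp only [GeoM_VD M, pa, pa', ps, ps', pe, pe', Rep.p0_act, Rep.p1_act, hg, Int.cast_zero,
        mul_zero, zero_smul, add_zero, map_sub, map_add, ← M.a_pt, M.pt_crd (t0 _ hg),
        M.pt_crd (t0 _ hh), M.pt_crd (t0 _ hgh), M.pt_crd (t1 _ hg), M.pt_crd (t1 _ hh),
        M.pt_crd (t1 _ hgh)]
      rw [a2 g h hg hh, b2 g h hg hh]
      exact ⟨sub_self _, sub_self _⟩)
    (fun g hg => by
      have hc := GeoM_deg φ hg
      simp only [GeoM_VD M, ps, ps', pe, pe', Rep.p0_act, Rep.p1_act, hg, hφ, Int.cast_zero,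
        Int.cast_one, mul_one, hlam, Nat.cast_smul_eq_nsmul, map_nsmul,
        mul_zero, zero_smul, add_zero, map_sub, map_add, ← M.a_pt φ, M.pt_crd (t0 _ hg),
        M.pt_crd (t0 _ hc), M.pt_crd (t1 _ hg), M.pt_crd (t1 _ hc), ← e0 g hg, ← e1 g hg, nu,
        Pi.add_apply, Pi.smul_apply, smul_sub]
      exact ⟨sub_self _, by abel⟩)
  have K : ∀ g, T.deg g = 0 → M.pt n (p0 (ψ g)) = c0 g ∧ M.pt n (p1 (ψ g)) = c1 g := fun g h => by
    simpa only [GeoM_VD M, ps, ps', pe, pe', map_sub, M.pt_crd (t0 _ h), M.pt_crd (t1 _ h),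
      sub_eq_zero] using hg g h
  refine ⟨fun g => digV 0 (ψ g), ⟨ψ, ⟨hψ.mono (Nat.sub_le _ _), fun v hv => ?_, fun v hv => ?_⟩,
    fun _ => rfl⟩, GeoM_top hn fun g h => (K g h).1, GeoM_top hn fun g h => (K g h).2, fun h => ?_⟩
  · obtain ⟨y0, ⟨i, hi⟩, f0⟩ := a3 v 1
    obtain ⟨y1, ⟨j, hj⟩, f1⟩ := b3 v 1
    rw [one_mul, inv_one, mul_one] at f0 f1
    obtain ⟨r0, rfl⟩ := M.surj (i + j + n) y0 (GeoM_le hi (by omega))
    obtain ⟨r1, rfl⟩ := M.surj (i + j + n) y1 (GeoM_le hj (by omega))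
    have := Lat.locOK_of_tau hx (hfin v hv) hψ (m := i + j) (t := Sum.elim r0 r1) (by
      simp only [GeoM_VD M, ps, ps', pe, pe', Rep.p0_act, Rep.p1_act, T.deg_τ, Int.cast_zero,
        mul_zero, zero_smul, add_zero, map_sub, ← M.a_pt, (GeoM_p (ψ (T.τ v)) 0 0 0 _).2.2.2.2.2.2,
        M.pt_pow_smul, K _ (T.deg_τ v), f0, f1, sub_self, and_self])
    rwa [Fintype.card_sum, card_Ix, show 2 * gg + 2 * gg = 4 * gg by ring] at this
  · obtain ⟨y0, ⟨i, hi⟩, f0⟩ := a3 v 1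
    obtain ⟨y1, ⟨j, hj⟩, f1⟩ := b3 v 1
    obtain ⟨r0, rfl⟩ := M.surj i y0 hi
    obtain ⟨r1, rfl⟩ := M.surj j y1 hj
    rw [one_mul, inv_one, mul_one, M.a_pt, Lat.act_unr (fun h => hv (hA.1 h)) (hA.2.2 v hv),
      sub_self] at f0 f1
    exact ((GeoM_VD M).2 ⟨(K _ (T.deg_τ v)).1.trans f0, (K _ (T.deg_τ v)).2.trans f1⟩).mono
      (Nat.sub_le _ _)
  · refine GeoM_top hn (f := fun g => p0 (ψ g) + p1 (ψ g)) (fun g h => ?_) ?_
    · rw [map_add, (K g h).1, (K g h).2, Pi.add_apply]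
    · simp only [digV_add (VD.triv _) (VD.triv _)]
      exact h

theorem lift_pair (hx : T.IsHom x) {A0 : Finset P} (hA : R.Ram x A0) {c : ℕ} {lam : O}
    (hfin : ∀ v ∈ A0, ∀ (m : ℕ) (t : H → O), VD m ((R.hat lam).act x (T.σ v) t - t) →
      VD m ((R.hat lam).act x (T.τ v) t - t) → VD (m - c) t)
    {φ : W} (hφ : T.deg φ = 1) {b : ℕ} (hlam : 2 * lam = (b : O)) {n : ℕ} (hn : 1 ≤ n)
    {c0 c1 : W → A} (h0 : M.ZG c0) (h1 : M.ZG c1) (k0 : M.IsB (M.nu φ c0))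
    (k1 : M.IsB (M.nu φ c1 + b • c0)) (t0 : M.IsB (2 ^ n • c0)) (t1 : M.IsB (2 ^ n • c1)) :
    ∃ w, (R.hat lam).Lifts A0 x (n - 4 * gg * c) w ∧
      (R.IsCob (fun g => p0 (w g)) → M.IsB (2 ^ (n - 1) • c0)) ∧
      (R.IsCob (fun g => p1 (w g)) → M.IsB (2 ^ (n - 1) • c1)) ∧
      (R.IsCob (fun g => p0 (w g) + p1 (w g)) → M.IsB (2 ^ (n - 1) • (c0 + c1))) := by
  obtain ⟨d0, z0, e0, u0⟩ := GeoM_norm hx h0 t0
  obtain ⟨d1, z1, e1, u1⟩ := GeoM_norm hx h1 t1
  have k0' : M.nu φ d0 ∈ GeoM_B M := by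
    have := sub_mem (show GeoM_nu M φ c0 ∈ GeoM_B M from k0) (GeoM_nuB hx φ e0)
    rwa [map_sub, sub_sub_cancel] at this
  have k1' : M.nu φ d1 + b • d0 ∈ GeoM_B M := by
    have := sub_mem (sub_mem (show GeoM_nu M φ c1 + b • c0 ∈ GeoM_B M from k1) (GeoM_nuB hx φ e1))
      (nsmul_mem e0 b)
    rw [map_sub, smul_sub] at this
    convert this using 1
    change GeoM_nu M φ d1 + b • d0 = _
    abel
  obtain ⟨w, h2, h3, h4, h5⟩ := GeoM_core hx hA hfin hφ hlam hn z0 z1 k0' k1' u0 u1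
  have key : ∀ {c d : W → A}, c - d ∈ GeoM_B M → 2 ^ (n - 1) • d ∈ GeoM_B M →
      2 ^ (n - 1) • c ∈ GeoM_B M := fun h h' => by
    have := add_mem (nsmul_mem h (2 ^ (n - 1))) h'
    rwa [← smul_add, sub_add_cancel] at this
  exact ⟨w, h2, fun h => key e0 (h3 h), fun h => key e1 (h4 h),
    fun h => key (add_sub_add_comm c0 c1 d0 d1 ▸ add_mem e0 e1) (h5 h)⟩

end GM

theorem geo_main (R : Rep T) : ∃ c0 : ℕ, ∀ (x : W → F2) (A0 : Finset P), T.IsHom x → R.Ram x A0 →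
    R.Good A0 x c0 → ∀ {A : Type} [AddCommGroup A] (M : GM R x A) (φ : W), T.deg φ = 1 →
    ∀ m : ℕ, ∃ N : ℕ, ∀ c1 c2 : W → A, M.ZG c1 → M.ZG c2 → M.IsB ((M.nu φ)^[m] c1) →
      M.IsB ((M.nu φ)^[m] c2) → M.IsB (2 ^ (N + 1) • c1) → M.IsB (2 ^ (N + 1) • c2) →
      M.IsB (2 ^ N • c1) ∨ M.IsB (2 ^ N • c2) ∨ M.IsB (2 ^ N • (c1 + c2)) := by
  obtain ⟨c, hc, hfin⟩ := R.hat_fin
  have hc' : 1 ≤ 4 * gg * c := Nat.mul_pos (Nat.mul_pos (by norm_num) Par.gg_pos) hc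
  refine ⟨4 * gg * c, fun x A0 hx hA ⟨K1, K, h1, h2, h3⟩ A _ M φ hφ m => ?_⟩
  obtain ⟨N, hN⟩ := alg_main (GM.GeoM_Z M) (GM.GeoM_B M) (GM.GeoM_nu M φ)
    (fun _ => GM.GeoM_nuZ hx φ) (fun _ => GM.GeoM_nuB hx φ)
    (fun d hd => hd.1.imp fun j h => ⟨0, GM.GeoM_zero, fun g hg => by simpa using h g hg⟩)
    (n1 := K1 + 4 * gg * c) (n2 := K + 4 * gg * c) (a1 := 4 * K1) (by omega) (by omega) (by omega)
    (fun n hn c1 z1 c2 z2 k1 k2 t1 t2 => by
      obtain ⟨w, a1, a2, a3, a4⟩ := GM.lift_pair hx hA (hfin 0 x A0 hA) hφ (b := 0) (by simp)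
        (by omega) z1 z2 k1 (by rwa [zero_smul, add_zero]) t1 t2
      by_contra h
      exact h2 w ⟨fun e => h (.inl (a2 e)), fun _ => ⟨fun e => h (.inr (.inl (a3 e))),
        fun e => h (.inr (.inr (a4 e)))⟩⟩ (a1.mono (by omega)))
    (fun a ha n hn c1 z1 c2 z2 k1 k2 t1 t2 => by
      obtain ⟨w, a1, a2, a3, a4⟩ := GM.lift_pair hx hA (hfin (2 ^ a) x A0 hA) hφ (b := 2 ^ (a + 1))
        (by push_cast; ring) (by omega) z1 z2 k1 k2 t1 t2
      by_contra h
      refine h3 a ha w ⟨fun e => h (.inl (a2 e)), fun e0 => ?_⟩ (a1.mono (by omega))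
      have h4 : 1 ≤ a := Nat.pos_of_ne_zero fun e => by simp [e] at e0
      exact ⟨fun e => h (.inr ⟨h4, .inl (a3 e)⟩), fun e => h (.inr ⟨h4, .inr (a4 e)⟩)⟩) m
  exact ⟨N, fun c1 c2 z1 z2 => hN c1 z1 c2 z2⟩

end

end Pool.Agent.Hyp
end

-- merged part: Pool.Agent.Work.MP_60d5ce_nt.Hy.WeT
section
/-!
# The Weil pairing on the Tate module of the Jacobian  (task HY WeT)

* `we_swap`, `we_two`: `exists_kumD`, `Ev_ex`, `we_eq`; `KD (2 * N) f D` gives `KD N f (2 • D)`; `evD_nsmul`.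
* `exists_tate_pic`: `exists_tateR` for the subgroup of the classes killed by a power of two (`tors_fr`, `Fr.div`, `Fr.finite`); compose with the inclusion.
* `exists_form`: choose `ζ j` primitive of order `2 ^ j` with `ζ (j + 1) ^ 2 = ζ j` (square roots in the algebraically closed field; `ζ 0 = 1`, `ζ 1 = -1`).  `E j s t = lg (ζ j) (2 ^ j) (we ..)` is
  compatible (`we_two`, `B.two`); take the limit (`TateMod_lim` or `PadicInt.lift`), identities in `O` by `eq_of_rO`; `O`-linearity by `TateI.pt_smul`; `we_pa`.  `E s s = - E s s`.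
* `exists_sympT`: `exists_symp`, `TateI.change`, `TateI.mat_spec`.
* `we_nondeg`: as in `thmA`: `exists_kf`, `main_hd`, `we_inj`.
-/

namespace Pool.Agent.Hyp

open PR0 Pool.Agent.Ell.AT Pool.Agent.Quad Pool.Agent.Lef

variable {κ K : Type} [Field κ] [Field K] [Algebra κ K] [IsAlgClosed κ] [Fact (IsFF κ K)]
  {N : ℕ} {c c' : Pic κ K}

theorem we_swap (hN : N ≠ 0) (h : N • c = 0) (h' : N • c' = 0) : we N c c' * we N c' c = 1 := by
  obtain ⟨g, E, k, rfl, -⟩ := Ev_ex h' 0 0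
  obtain ⟨f, D, k1, rfl, d1, -⟩ := Ev_ex h E E
  rw [we_eq hN k1 k d1, we_eq hN k k1 d1.symm, div_mul_div_cancel₀ (k.off d1.symm).evD_ne,
    div_self (k1.off d1).evD_ne]

theorem we_two (hN : N ≠ 0) (h : (2 * N) • c = 0) (h' : (2 * N) • c' = 0) :
    we N (2 • c) (2 • c') = we (2 * N) c c' ^ 2 := by
  obtain ⟨g, E, k, rfl, -⟩ := Ev_ex h' 0 0
  obtain ⟨f, D, k1, rfl, d1, -⟩ := Ev_ex h E E
  have e : ∀ {a : K} {F : Dv κ K}, KD (2 * N) a F → KD N a (2 • F) := fun q =>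
    ⟨q.1, by rw [q.2, mul_comm, mul_smul]⟩
  rw [← map_nsmul, ← map_nsmul, we_eq hN (e k1) (e k) fun P => (d1 P).imp
    (fun q => by rw [Finsupp.smul_apply, q, smul_zero]) fun q => by
      rw [Finsupp.smul_apply, q, smul_zero],
    we_eq (mul_ne_zero two_ne_zero hN) k1 k d1, evD_nsmul, evD_nsmul, div_pow]

variable (κ K) in
theorem exists_tate_pic (h2 : (2 : κ) ≠ 0) : ∃ r, Nonempty (TateI (Fin r) (Pic κ K)) := by
  let H : AddSubgroup (Pic κ K) :=
    { carrier := {x | ∃ j : ℕ, 2 ^ j • x = 0}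
      add_mem' := by
        rintro a b ⟨i, hi⟩ ⟨j, hj⟩
        exact ⟨i + j, by
          rw [smul_add, pow_add, mul_smul (2 ^ i) _ b, hj, mul_comm, mul_smul, hi, smul_zero,
            smul_zero, add_zero]⟩
      zero_mem' := ⟨0, smul_zero _⟩
      neg_mem' := by
        rintro a ⟨i, hi⟩
        exact ⟨i, by rw [smul_neg, hi, neg_zero]⟩ }
  obtain ⟨r, ⟨B⟩⟩ := exists_tateR (A := H) (fun P => by
    obtain ⟨P, j, hj⟩ := P
    obtain ⟨y, hy, rfl⟩ := (tors_fr h2 j).div P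
      (mem_tors.2 (by rw [pow_succ', mul_smul, hj, smul_zero])) hj
    exact ⟨⟨y, _, hy⟩, rfl⟩) (((tors_finite κ K (N := 2) (by exact_mod_cast h2)).preimage
      Subtype.val_injective.injOn).subset fun x hx => congrArg Subtype.val (mem_tors.1 hx))
  refine ⟨r, ⟨⟨fun j => H.subtype.comp (B.pt j), fun j a => congrArg Subtype.val (B.two j a),
    fun j a => Iff.trans ⟨fun h => Subtype.ext h, fun h => congrArg Subtype.val h⟩ (B.ker j a),
    fun j P h => ?_⟩⟩⟩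
  obtain ⟨a, ha⟩ := B.surj j ⟨P, j, h⟩ (Subtype.ext h)
  exact ⟨a, congrArg Subtype.val ha⟩

/-- `γ` raises the roots of unity of two-power order to the power `u` -/
def Cyc (γ : SA κ K) (u : O) : Prop :=
  ∀ (j : ℕ) (z : κ), z ^ 2 ^ j = 1 → sc γ z = z ^ (rO j u).val

theorem WeT_zero (hN : N ≠ 0) (h : N • c = 0) : we N 0 c = 1 := by
  have h1 := we_add_left hN (smul_zero N) (smul_zero N) h
  have h2 : we N 0 c ≠ 0 := fun e => by simpa [e, hN] using we_pow hN (smul_zero N) h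
  rw [add_zero] at h1
  exact mul_left_cancel₀ h2 (h1.symm.trans (mul_one _).symm)

theorem WeT_left (hN : N ≠ 0) (h : N • c = 0) (h' : N • c' = 0) (n : ℕ) :
    we N (n • c) c' = we N c c' ^ n := by
  induction n with
  | zero => rw [zero_smul, pow_zero, WeT_zero hN h']
  | succ n ih =>
    rw [succ_nsmul, we_add_left hN (by rw [smul_comm, h, smul_zero]) h h', ih, pow_succ]

theorem WeT_right (hN : N ≠ 0) (h : N • c = 0) (h' : N • c' = 0) (n : ℕ) :
    we N c (n • c') = we N c c' ^ n := by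
  have h1 := we_swap hN (by rw [smul_comm, h', smul_zero] : N • n • c' = 0) h
  rw [WeT_left hN h' h] at h1
  have h2 := congrArg (· ^ n) (we_swap hN h' h)
  simp only [mul_pow, one_pow] at h2
  exact mul_left_cancel₀ (left_ne_zero_of_mul_eq_one h1) (h1.trans h2.symm)

theorem WeT_roots (h2 : (2 : κ) ≠ 0) : ∃ ζ : ℕ → κ, (∀ j, IsPrimitiveRoot (ζ j) (2 ^ j)) ∧
    ∀ j, ζ (j + 1) ^ 2 = ζ j := by
  choose R hR using fun x : κ => IsAlgClosed.exists_pow_nat_eq x two_pos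
  have h1 : ∀ j, R^[j] (-1) ^ 2 ^ j = -1 := fun j => by
    induction j with
    | zero => simp
    | succ j ih => rw [Function.iterate_succ_apply', pow_succ', pow_mul, hR, ih]
  refine ⟨fun j => R^[j] (-1) ^ 2, fun j => ?_, fun j => by
    simp only [Function.iterate_succ_apply', hR]⟩
  have h3 : IsPrimitiveRoot (R^[j] (-1)) (2 ^ (j + 1)) := by
    rw [IsPrimitiveRoot.iff_orderOf]
    refine orderOf_eq_prime_pow ?_ (by rw [pow_succ, pow_mul, h1, neg_one_sq])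
    rw [h1]
    exact fun e => h2 (by linear_combination -e)
  exact h3.pow (pow_pos two_pos _) (pow_succ' 2 j)

omit [IsAlgClosed κ] in
theorem WeT_lim {ζ w : ℕ → κ} (hζ : ∀ j, IsPrimitiveRoot (ζ j) (2 ^ j))
    (hz : ∀ j, ζ (j + 1) ^ 2 = ζ j) (h1 : ∀ j, w j ^ 2 ^ j = 1) (hw : ∀ j, w (j + 1) ^ 2 = w j) :
    ∃ x : O, ∀ j, ζ j ^ (rO j x).val = w j := by
  have hN : ∀ j : ℕ, 2 ^ j ≠ 0 := fun j => pow_ne_zero _ two_ne_zero
  obtain ⟨x, hx⟩ := TateMod_lim (fun j => ((lg (ζ j) (2 ^ j) (w j)).val : O)) fun j => by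
    rw [← rO_eq_zero, map_sub, sub_eq_zero, map_natCast, map_natCast]
    refine pow_val_inj (hN j) (hζ j) ?_
    rw [ZMod.val_natCast, ZMod.val_natCast, ← pow_eq_pow_mod _ (hζ j).pow_eq_one,
      ← pow_eq_pow_mod _ (hζ j).pow_eq_one, lg_spec (hN j) (hζ j) (h1 j), ← hz, ← pow_mul,
      pow_mul', lg_spec (hN _) (hζ _) (h1 _), hw]
  refine ⟨x, fun j => ?_⟩
  have h3 := hx j
  rw [← rO_eq_zero, map_sub, sub_eq_zero, map_natCast] at h3
  rw [h3, ZMod.val_natCast, ← pow_eq_pow_mod _ (hζ j).pow_eq_one, lg_spec (hN j) (hζ j) (h1 j)]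

theorem WeT_appr (j : ℕ) (u : O) : ((u.appr j : ℕ) : ZMod (2 ^ j)) = rO j u := by
  have h := TateMod_appr j u
  rw [← rO_eq_zero, map_sub, sub_eq_zero, map_natCast] at h
  exact h.symm

theorem exists_form (h2 : (2 : κ) ≠ 0) {I : Type} [Fintype I] [DecidableEq I]
    (B : TateI I (Pic κ K)) : ∃ E : (I → O) →ₗ[O] (I → O) →ₗ[O] O, (∀ s, E s s = 0) ∧
      (∀ s t, (2 : O) ∣ E s t ↔ we 2 (B.pt 1 s) (B.pt 1 t) = 1) ∧
      ∀ (γ : SA κ K) (u : O), Cyc γ u → ∀ s t,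
        E ((B.mat (pa γ)).mulVec s) ((B.mat (pa γ)).mulVec t) = u * E s t := by
  obtain ⟨ζ, hζ, hz⟩ := WeT_roots h2
  have hN : ∀ j : ℕ, 2 ^ j ≠ 0 := fun j => pow_ne_zero _ two_ne_zero
  have ht := B.pow_smul_pt
  choose E hE using fun s t : I → O => WeT_lim
    (w := fun j => we (2 ^ j) (B.pt j s) (B.pt j t)) hζ hz
    (fun j => we_pow (hN j) (ht j s) (ht j t)) fun j => by
      have h3 := we_two (hN j) (pow_succ' 2 j ▸ ht (j + 1) s) (pow_succ' 2 j ▸ ht (j + 1) t)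
      rw [B.two, B.two, ← pow_succ'] at h3
      exact h3.symm
  have ext : ∀ {x y : O}, (∀ j, ζ j ^ (rO j x).val = ζ j ^ (rO j y).val) → x = y := fun h =>
    eq_of_rO fun j => pow_val_inj (hN _) (hζ _) (h _)
  have ad : ∀ j (x y : O), ζ j ^ (rO j (x + y)).val = ζ j ^ (rO j x).val * ζ j ^ (rO j y).val :=
    fun j x y => by rw [map_add, pow_val_add (hN j) (hζ j).pow_eq_one]
  have mu : ∀ j (x y : O), ζ j ^ (rO j (x * y)).val = (ζ j ^ (rO j y).val) ^ x.appr j :=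
    fun j x y => by rw [map_mul, ← WeT_appr, pow_val_mul (hN j) (hζ j).pow_eq_one]
  refine ⟨LinearMap.mk₂ O E (fun s s' t => ext fun j => ?_) (fun a s t => ext fun j => ?_)
    (fun s t t' => ext fun j => ?_) fun a s t => ext fun j => ?_, fun s => ?_, fun s t => ?_,
    fun γ u hu s t => ext fun j => ?_⟩
  · rw [ad, hE, hE, hE, map_add, we_add_left (hN j) (ht j _) (ht j _) (ht j _)]
  · rw [smul_eq_mul, mu, hE, hE, B.pt_smul, WeT_left (hN j) (ht j _) (ht j _)]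
  · rw [ad, hE, hE, hE, map_add, we_add_right (hN j) (ht j _) (ht j _) (ht j _)]
  · rw [smul_eq_mul, mu, hE, hE, B.pt_smul, WeT_right (hN j) (ht j _) (ht j _)]
  · refine two_mul_eq_zero ((two_mul _).trans (ext fun j => ?_))
    rw [ad, LinearMap.mk₂_apply, hE, we_swap (hN j) (ht j _) (ht j _), map_zero, ZMod.val_zero,
      pow_zero]
  · have h3 : _ = we 2 (B.pt 1 s) (B.pt 1 t) := hE s t 1
    rw [LinearMap.mk₂_apply, ← pow_one (2 : O), ← rO_eq_zero, ← h3]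
    refine ⟨fun e => by rw [e, ZMod.val_zero, pow_zero], fun e => pow_val_inj (hN 1) (hζ 1) ?_⟩
    rw [e, ZMod.val_zero, pow_zero]
  · rw [LinearMap.mk₂_apply, LinearMap.mk₂_apply, mu, hE, hE, ← B.mat_spec, ← B.mat_spec,
      we_pa (hN j) γ (ht j _) (ht j _), hu j _ (we_pow (hN j) (ht j _) (ht j _)), ← WeT_appr,
      ZMod.val_natCast, ← pow_eq_pow_mod _ (we_pow (hN j) (ht j _) (ht j _))]

theorem exists_sympT (h2 : (2 : κ) ≠ 0)
    (hn : ∀ c : Pic κ K, 2 • c = 0 → (∀ b, 2 • b = 0 → we 2 c b = 1) → c = 0) :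
    ∃ (r : ℕ) (B : TateI (Fin r ⊕ Fin r) (Pic κ K)), ∀ (γ : SA κ K) (u : O), Cyc γ u → ∀ s t,
      eg ((B.mat (pa γ)).mulVec s) ((B.mat (pa γ)).mulVec t) = u * eg s t := by
  obtain ⟨r, ⟨B⟩⟩ := exists_tate_pic κ K h2
  obtain ⟨E, h0, h1, h3⟩ := exists_form h2 B
  obtain ⟨r', e, he⟩ := exists_symp E h0 fun a ha => (B.ker 1 a).1
    (hn _ (B.pow_smul_pt 1 a) fun b hb => by
      obtain ⟨t, rfl⟩ := B.surj 1 b hb
      exact (h1 a t).1 (ha t))
  refine ⟨r', B.change e, fun γ u hu s t => ?_⟩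
  have k : ∀ s, e (((B.change e).mat (pa γ)).mulVec s) = (B.mat (pa γ)).mulVec (e s) := fun s =>
    funext fun i => sub_eq_zero.1 (TateMod_zero fun j => (B.pt_eq_iff j _ _).1
      ((((B.change e).mat_spec (pa γ) j s).symm).trans (B.mat_spec (pa γ) j (e s))) i)
  rw [← he, ← he, k, k, h3 γ u hu]

theorem we_nondeg {p : ℕ} [Fact p.Prime] [CharP κ p] (h2 : (2 : κ) ≠ 0) {γ : SA κ K} {Q : ℕ}
    (hγ : IsFr p γ Q) (c : Pic κ K) (hc : 2 • c = 0) (h : ∀ b, 2 • b = 0 → we 2 c b = 1) :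
    c = 0 := by
  have hN : 2 ^ (0 + 1) ≠ 0 := pow_ne_zero _ two_ne_zero
  have hN' : ((2 ^ (0 + 1) : ℕ) : κ) ≠ 0 := by
    rw [Nat.cast_pow, Nat.cast_ofNat]
    exact pow_ne_zero _ h2
  have := NeZero.mk hN'
  obtain ⟨ζ, hζ⟩ := HasEnoughRootsOfUnity.exists_primitiveRoot κ (2 ^ (0 + 1))
  obtain ⟨L, _, _, _, hL⟩ := exists_kf (AlgebraicClosure K) hN hζ (tors_finite κ K hN')
  obtain ⟨τ, s, h3, h4, -⟩ := main_hd hN hζ (tors_fr h2 0) hγ hL
  exact we_inj hN hζ (tors_fr h2 0) h3 h4 hc (smul_zero _) fun b hb =>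
    (h b hb).trans (WeT_zero hN hb).symm

end Pool.Agent.Hyp
end
end

-- merged part: Pool.Agent.Work.MP_60d5ce_nt.Hy.PicE
section
-- merged part: Pool.Agent.Work.MP_60d5ce_nt.Bs.ThA
section
/-!
# Divisor classes and the Picard group of the ring of functions regular outside one place
-/

namespace Pool.Agent.Hyp

open PR0 Pool.Agent.Ell.AT Submodule TensorProduct
open scoped Classical

theorem pic_nat {R S A B : Type} [CommRing R] [CommRing S] [CommRing A] [CommRing B] [Algebra R A]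
    [Algebra S B] [FaithfulSMul R A] [FaithfulSMul S B] (φ : R →+* S) (ψ : A →+* B)
    (h : ∀ r, ψ (algebraMap R A r) = algebraMap S B (φ r)) (I : (Submodule R A)ˣ)
    (J : (Submodule S B)ˣ) (h1 : ∀ a ∈ I.1, ψ a ∈ J.1) (h2 : ∀ b ∈ J.1, ∃ a ∈ I.1, ψ a = b) :
    CommRing.Pic.mapRingHom φ (unitsToPic R A I) = unitsToPic S B J := by
  let := φ.toAlgebra
  let : Module R J.1 := Module.compHom J.1 φ
  have : IsScalarTower R S J.1 := ⟨fun r s b => mul_smul (φ r) s b⟩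
  let g : I.1 →ₗ[R] J.1 :=
    { toFun := fun a => ⟨ψ a, h1 a a.2⟩
      map_add' := fun a b => Subtype.ext (map_add ψ _ _)
      map_smul' := fun r a => Subtype.ext (by
        change ψ (r • a.1) = φ r • ψ a
        rw [Algebra.smul_def, Algebra.smul_def, map_mul, h]) }
  have hs : Function.Surjective (g.liftBaseChange S) := fun b => by
    obtain ⟨a, ha, e⟩ := h2 b b.2
    exact ⟨1 ⊗ₜ ⟨a, ha⟩, Subtype.ext (by rw [LinearMap.liftBaseChange_tmul, one_smul]; exact e)⟩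
  exact CommRing.Pic.mk_eq_mk_iff.2 ⟨AlgebraTensorModule.congr (.refl ..) (unitsToPicEquiv I) ≪≫ₗ
    .ofBijective _ (Module.Invertible.bijective_of_surjective hs)⟩

variable {𝕜 L : Type} [Field 𝕜] [Field L] [Algebra 𝕜 L] [IsAlgClosed 𝕜] [Fact (IsFF 𝕜 L)]
  {R : Type} [CommRing R] [Algebra R L] {o : Place 𝕜 L}
  (hR : ∀ u : L, (∃ r, algebraMap R L r = u) ↔ ∀ P, P ≠ o → u ∈ P.1) {E E' : Dv 𝕜 L}

/-- the fractional ideal of a divisor -/
def LE (E : Dv 𝕜 L) : Submodule R L where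
  carrier := {u | ∀ P, P ≠ o → P.Ge u (E P)}
  add_mem' ha hb P hP := (ha P hP).add (hb P hP)
  zero_mem' _ _ := .inl rfl
  smul_mem' r u hu P hP := by
    have := (P.mem_iff.1 ((hR _).1 ⟨r, rfl⟩ P hP)).mul (hu P hP)
    rwa [zero_add, ← Algebra.smul_def] at this

theorem exists_LE (E : Dv 𝕜 L) {P : Place 𝕜 L} (hP : P ≠ o) :
    ∃ a ∈ LE hR E, a ≠ 0 ∧ P.ord a ≤ E P := by
  have h0 : P.unif ^ E P ≠ 0 := zpow_ne_zero _ P.unif_ne_zero
  have h1 : P.ord (P.unif ^ E P) = E P := by rw [P.ord_zpow P.unif_ne_zero, P.ord_unif, mul_one]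
  generalize P.unif ^ E P = u at h0 h1
  obtain ⟨g, hg⟩ := weak_approx (((E - dv 𝕜 u).hasFiniteSupport).insert P)
    (fun Q => if Q = P then 1 else 0) fun Q => if Q = P then 1 else (E - dv 𝕜 u) Q
  have g1 := hg P (Set.mem_insert _ _)
  rw [if_pos rfl, if_pos rfl, ← map_one (algebraMap 𝕜 L)] at g1
  have g2 : g ∈ P.1 := by
    have := add_mem (P.mem_iff.2 (g1.mono zero_le_one)) (P.2.2 1)
    rwa [sub_add_cancel] at this
  obtain ⟨s, s1, s2, s3⟩ := exists_den_place (Set.finite_singleton o) (Set.singleton_nonempty o)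
    hP g2
  have h2 : ¬ P.Ge (s * g) 1 := by
    rw [← Place.val_eq_zero (s3 P hP), Place.val_mul (s1 P hP) g2, Place.val_eq g1, mul_one]
    exact s2
  have h3 : s * g ≠ 0 := fun e => h2 (.inl e)
  refine ⟨s * g * u, fun Q hQ => ?_, mul_ne_zero h3 h0, ?_⟩
  · by_cases h4 : (E - dv 𝕜 u) Q = 0
    · rw [Finsupp.sub_apply, dv_apply h0, sub_eq_zero] at h4
      have := (Q.mem_iff.1 (s3 Q hQ)).mul (.inr h4.le)
      rwa [zero_add] at this
    · have h5 : Q ≠ P := fun e => h4 (by rw [e, Finsupp.sub_apply, dv_apply h0, h1, sub_self])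
      have h6 := hg Q (Set.mem_insert_of_mem _ h4)
      rw [if_neg h5, if_neg h5, sub_zero, Finsupp.sub_apply, dv_apply h0] at h6
      have := ((Q.mem_iff.1 (s1 Q hQ)).mul h6).mul (.inr (le_refl (Q.ord u)))
      rwa [zero_add, sub_add_cancel] at this
  · have := not_or.1 h2
    rw [P.ord_mul h3 h0, h1]
    omega

theorem eq_LE {I : Submodule R L} (h1 : I ≤ LE hR E)
    (h2 : ∀ P, P ≠ o → ∃ a ∈ I, a ≠ 0 ∧ P.ord a ≤ E P) : I = LE hR E := by
  refine le_antisymm h1 fun u hu => ?_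
  have h3 := mem_span_of_ord (Set.finite_singleton o) (Set.singleton_nonempty o)
    (Subtype.val : I → L) (f := u) fun P hP => (hu P hP).imp_right fun h => by
      obtain ⟨a, ha, h4, h5⟩ := h2 P hP
      exact ⟨⟨a, ha⟩, h4, h5.trans h⟩
  clear hu
  induction h3 using span_induction with
  | mem a ha =>
    obtain ⟨a, rfl⟩ := ha
    exact a.2
  | zero => exact I.zero_mem
  | add a b _ _ ha hb => exact I.add_mem ha hb
  | smul s a _ ha =>
    obtain ⟨r, hr⟩ := (hR s).2 s.2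
    have := I.smul_mem r ha
    rwa [Algebra.smul_def, hr] at this

theorem LE_add (E E' : Dv 𝕜 L) : LE hR E * LE hR E' = LE hR (E + E') := by
  refine eq_LE hR (mul_le.2 fun a ha b hb P hP => (ha P hP).mul (hb P hP)) fun P hP => ?_
  obtain ⟨a, a1, a2, a3⟩ := exists_LE hR E hP
  obtain ⟨b, b1, b2, b3⟩ := exists_LE hR E' hP
  exact ⟨a * b, mul_mem_mul a1 b1, mul_ne_zero a2 b2, by
    rw [P.ord_mul a2 b2]
    exact add_le_add a3 b3⟩

theorem LE_sup (E E' : Dv 𝕜 L) : LE hR E ⊔ LE hR E' = LE hR (E ⊓ E') := by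
  refine eq_LE hR (sup_le (fun a ha P hP => (ha P hP).mono inf_le_left)
    fun a ha P hP => (ha P hP).mono inf_le_right) fun P hP => ?_
  obtain ⟨a, a1, a2, a3⟩ := exists_LE hR E hP
  obtain ⟨b, b1, b2, b3⟩ := exists_LE hR E' hP
  rcases le_total (E P) (E' P) with h | h
  · exact ⟨a, mem_sup_left a1, a2, le_inf a3 (a3.trans h)⟩
  · exact ⟨b, mem_sup_right b1, b2, le_inf (b3.trans h) b3⟩

theorem LE_dv {u : L} (hu : u ≠ 0) : span R {u} = LE hR (dv 𝕜 u) :=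
  eq_LE hR ((span_singleton_le_iff_mem _ _).2 fun P _ => .inr (dv_apply hu P).le)
    fun P _ => ⟨u, mem_span_singleton_self u, hu, (dv_apply hu P).ge⟩

theorem LE_zero : LE hR 0 = 1 := by
  rw [one_eq_span, LE_dv hR one_ne_zero, ← map_one (algebraMap 𝕜 L), dv_const]

theorem LE_iff : LE hR E = LE hR E' ↔ ∀ P, P ≠ o → E P = E' P := by
  have key : ∀ {E E' : Dv 𝕜 L}, LE hR E = LE hR E' → ∀ P, P ≠ o → E' P ≤ E P := fun h P hP => by
    obtain ⟨a, a1, a2, a3⟩ := exists_LE hR _ hP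
    exact (((h ▸ a1) P hP).resolve_left a2).trans a3
  exact ⟨fun h P hP => le_antisymm (key h.symm P hP) (key h P hP), fun h => ext fun u =>
    forall₂_congr fun P hP => by rw [h P hP]⟩

/-- the fractional ideal as a unit -/
noncomputable def LU : Multiplicative (Dv 𝕜 L) →* (Submodule R L)ˣ :=
  MonoidHom.toHomUnits ⟨⟨fun E => LE hR E.toAdd, LE_zero hR⟩, fun _ _ => (LE_add hR _ _).symm⟩

theorem LU_val (E : Dv 𝕜 L) : (LU hR (.ofAdd E)).1 = LE hR E := rfl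

theorem LU_surj (I : (Submodule R L)ˣ) (hI : I.1.FG) : ∃ E, dg E = 0 ∧ LU hR (.ofAdd E) = I := by
  have h1 : I.1 = ⊥ ∨ ∃ E, I.1 = LE hR E := by
    generalize I.1 = J at hI
    induction J, hI using fg_induction with
    | singleton u =>
      by_cases hu : u = 0
      · exact .inl (span_singleton_eq_bot.2 hu)
      · exact .inr ⟨_, LE_dv hR hu⟩
    | sup J J' _ _ h h' =>
      rcases h with rfl | ⟨E, rfl⟩
      · rwa [bot_sup_eq]
      · rcases h' with rfl | ⟨E', rfl⟩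
        · exact .inr ⟨E, sup_bot_eq _⟩
        · exact .inr ⟨_, LE_sup hR E E'⟩
  obtain ⟨E, hE⟩ := h1.resolve_left I.ne_zero
  refine ⟨E - Finsupp.single o (dg E), by rw [dg_sub, dg_single, sub_self], Units.ext ?_⟩
  rw [LU_val, hE, LE_iff]
  intro P hP
  rw [Finsupp.sub_apply, Finsupp.single_eq_of_ne hP, sub_zero]

variable [FaithfulSMul R L]

theorem LU_ker : unitsToPic R L (LU hR (.ofAdd E)) = 1 ↔
    ∃ u : L, u ≠ 0 ∧ LE hR (dv 𝕜 u) = LE hR E := by
  rw [← MonoidHom.mem_ker, ker_unitsToPic]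
  exact ⟨fun ⟨u, hu⟩ => ⟨u, u.ne_zero, (LE_dv hR u.ne_zero).symm.trans (congrArg Units.val hu)⟩,
    fun ⟨u, hu, h⟩ => ⟨.mk0 u hu, Units.ext ((LE_dv hR hu).trans h)⟩⟩

/-- from divisor classes to the Picard group -/
noncomputable def eta : Pic 𝕜 L →+ Additive (CommRing.Pic R) :=
  QuotientAddGroup.lift _ (((unitsToPic R L).comp (LU hR)).toAdditiveRight) (by
    rintro _ ⟨u, hu, rfl⟩
    exact (LU_ker hR).2 ⟨u, hu, rfl⟩)

theorem eta_cl (E : Dv 𝕜 L) : eta hR (cl E) = .ofMul (unitsToPic R L (LU hR (.ofAdd E))) := rfl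

theorem eta_surj (c : Additive (CommRing.Pic R)) : ∃ E, dg E = 0 ∧ eta hR (cl E) = c := by
  obtain ⟨I, hI⟩ : c.toMul ∈ (unitsToPic R L).range := by
    rw [range_unitsToPic, CommRing.relPic_eq_top]
    trivial
  obtain ⟨E, h1, rfl⟩ := LU_surj hR I (Module.Finite.iff_fg.1 inferInstance)
  exact ⟨E, h1, congrArg Additive.ofMul hI⟩

theorem eta_inj (hE : dg E = 0) (h : eta hR (cl E) = 0) : cl E = 0 := by
  obtain ⟨u, hu, h1⟩ := (LU_ker hR).1 h
  have h2 : dv 𝕜 u - E = Finsupp.single o ((dv 𝕜 u - E) o) := Finsupp.ext fun P => by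
    by_cases hP : P = o
    · rw [hP, Finsupp.single_eq_same]
    · rw [Finsupp.single_eq_of_ne hP, Finsupp.sub_apply, (LE_iff hR).1 h1 P hP, sub_self]
  have h3 := congrArg dg h2
  rw [dg_single, dg_sub, dg_dv, hE, sub_self] at h3
  rw [← h3, Finsupp.single_zero, sub_eq_zero] at h2
  rw [← h2, cl_dv]

theorem eta_nat {σ : SA 𝕜 L} (hσ : σ • o = o) (s : R →+* R)
    (hs : ∀ r, sl σ (algebraMap R L r) = algebraMap R L (s r)) (c : Pic 𝕜 L) :
    (CommRing.Pic.mapRingHom s).toAdditive (eta hR c) = eta hR (pa σ c) := by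
  obtain ⟨E, rfl⟩ := cl_surj c
  have key : ∀ a : L, sl σ a ∈ LE hR (σ • E) ↔ a ∈ LE hR E := fun a => by
    refine ((MulAction.toPerm σ).forall_congr fun P => ?_).symm
    rw [MulAction.toPerm_apply, dv_smul_apply, inv_smul_smul]
    refine imp_congr (by rw [← (MulAction.injective σ).ne_iff, hσ]) ?_
    by_cases ha : a = 0
    · simp [ha, Place.Ge]
    · rw [Place.Ge, Place.Ge, ord_smul σ P ha, map_eq_zero]
  rw [pa_cl, eta_cl, eta_cl]
  refine congrArg Additive.ofMul (pic_nat s (sl σ : L →+* L) hs _ _ (fun a => (key a).2)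
    fun b hb => ?_)
  obtain ⟨a, rfl⟩ := (sl σ).surjective b
  exact ⟨a, (key a).1 hb, rfl⟩

end Pool.Agent.Hyp
end

-- merged part: Pool.Agent.Work.MP_60d5ce_nt.Bs.Crd
section
/-!
# The coordinate ring of `y ^ 2 = D(x)` and its Picard group
-/

namespace Pool.Agent.Bs

open Polynomial

/-- The coordinate ring `A[x, y] / (y ^ 2 - D(x))`; the pair `⟨a, b⟩` is `a(x) + b(x) y`. -/
abbrev Crd {A : Type} [CommRing A] (D : A[X]) : Type := QuadraticAlgebra A[X] D 0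

/-- The map of coordinate rings that applies `φ` to the coefficients. -/
noncomputable def cmap {A B : Type} [CommRing A] [CommRing B] (φ : A →+* B) {D : A[X]} {E : B[X]}
    (h : D.map φ = E) : Crd D →+* Crd E where
  toFun z := ⟨z.re.map φ, z.im.map φ⟩
  map_one' := by ext1 <;> simp [QuadraticAlgebra.re_one, QuadraticAlgebra.im_one]
  map_mul' z w := by ext1 <;> simp [h]
  map_zero' := by ext1 <;> simp
  map_add' z w := by ext1 <;> simp

variable {F : Type} [Field F]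

/-- The Picard group of the coordinate ring of `y ^ 2 = D(x)` over an extension `K` of `F`. -/
abbrev Jac (D : F[X]) (K : Type) [Field K] [Algebra F K] : Type :=
  Additive (CommRing.Pic (Crd (D.map (algebraMap F K))))

/-- The map `Jac D K → Jac D L` induced by an embedding `K → L` over `F`. -/
noncomputable def jmap (D : F[X]) {K L : Type} [Field K] [Algebra F K] [Field L] [Algebra F L]
    (φ : K →ₐ[F] L) : Jac D K →+ Jac D L :=
  (CommRing.Pic.mapRingHom (cmap (φ : K →+* L)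
    (by rw [Polynomial.map_map, φ.comp_algebraMap]))).toAdditive

end Pool.Agent.Bs
end

-- merged part: Pool.Agent.Work.MP_60d5ce_nt.Hy.PicE
section
/-!
# The classes fixed by `s` for a split polynomial  (ported from Lt PicE)

`ll • e1 b = 0` (`kum_e1`, `Kum.tors`).  `cls_eq_zero`: `Kum.eq_iff` with `Kum ll 1 0` shows that the product is a cube;
`cube_crit`; conversely the product of all `x - A i` is `y ^ ll`.  `pp s c = 0` gives `s c = c` (apply `s` twice,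
`s_cube`).
-/

namespace Pool.Agent.Hyp

open Pool.Agent.Ell.AT

open PR0 Polynomial
open Pool.Agent.Quad (F2)

variable {𝕜 L : Type} [Field 𝕜] [Field L] [Algebra 𝕜 L] [IsAlgClosed 𝕜] [Fact (IsFF 𝕜 L)]
  {ι : Type} [Fintype ι]

theorem PicE_one : Kum (𝕜 := 𝕜) ll (1 : L) 0 :=
  ⟨one_ne_zero, 0, by simpa using dv_const (L := L) (1 : 𝕜), map_zero _⟩

theorem PicE_pow {u : L} {c : Pic 𝕜 L} (h : Kum ll u c) (m : ℕ) : Kum ll (u ^ m) (m • c) := by
  induction m with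
  | zero =>
    rw [pow_zero, zero_nsmul]
    exact PicE_one
  | succ m ih =>
    rw [pow_succ, succ_nsmul]
    exact ih.mul h

theorem PicE_prod (s : Finset ι) {u : ι → L} {c : ι → Pic 𝕜 L} (h : ∀ i, Kum ll (u i) (c i)) :
    Kum ll (∏ i ∈ s, u i) (∑ i ∈ s, c i) := by
  classical
  induction s using Finset.induction_on with
  | empty => exact PicE_one
  | insert i s hi ih =>
    rw [Finset.prod_insert hi, Finset.sum_insert hi]
    exact (h i).mul ih

omit [IsAlgClosed 𝕜] in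
theorem PicE_mult {A : ι → 𝕜} (h : Function.Injective A) (m : ι → ℕ) (i : ι) :
    (∏ j, (X - Polynomial.C (A j)) ^ m j).rootMultiplicity (A i) = m i := by
  classical
  have h1 : ¬ (∏ j ∈ Finset.univ.erase i, (X - Polynomial.C (A j)) ^ m j).IsRoot (A i) := by
    rw [IsRoot.def, eval_prod]
    refine Finset.prod_ne_zero_iff.2 fun j hj => ?_
    rw [eval_pow, eval_sub, eval_X, eval_C]
    exact pow_ne_zero _ (sub_ne_zero.2 fun e => Finset.ne_of_mem_erase hj (h e).symm)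
  rw [← Finset.prod_erase_mul _ _ (Finset.mem_univ i), rootMultiplicity_mul_X_sub_C_pow,
    rootMultiplicity_eq_zero h1, zero_add]
  intro e
  exact h1 (by rw [e]; exact IsRoot.def.2 eval_zero)

namespace Cub

variable (C : Cub 𝕜 L)

/-- the polynomial is the product of the `X - A i`, all different -/
structure Spt (A : ι → 𝕜) : Prop where
  inj : Function.Injective A
  eq : C.f = ∏ i, (X - Polynomial.C (A i))

/-- combinations of the ramified points -/
noncomputable def cls (A : ι → 𝕜) (n : ι → F2) : Pic 𝕜 L := ∑ i, (n i).val • C.e1 (A i)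

variable {C} {A : ι → 𝕜}

theorem Spt.root (h : C.Spt A) (i : ι) : C.f.IsRoot (A i) := by
  rw [h.eq, IsRoot.def, eval_prod]
  exact Finset.prod_eq_zero (Finset.mem_univ i) (by simp)

theorem Spt.mult (h : C.Spt A) (i : ι) : C.f.rootMultiplicity (A i) = 1 := by
  have h1 := PicE_mult h.inj (fun _ => 1) i
  simp only [pow_one] at h1
  rw [h.eq, h1]

theorem Spt.sim (h : C.Spt A) (i : ι) : C.Sim (A i) := by
  rw [Sim, h.mult]
  exact ll_not_dvd_one

omit [IsAlgClosed 𝕜] [Fact (IsFF 𝕜 L)] in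
theorem Spt.of_root (h : C.Spt A) {b : 𝕜} (hb : C.f.IsRoot b) : ∃ i, A i = b := by
  rw [h.eq, IsRoot.def, eval_prod, Finset.prod_eq_zero_iff] at hb
  obtain ⟨i, -, h2⟩ := hb
  rw [eval_sub, eval_X, eval_C, sub_eq_zero] at h2
  exact ⟨i, h2.symm⟩

theorem Spt.sims (h : C.Spt A) (b : 𝕜) (hb : C.f.IsRoot b) : C.Sim b := by
  obtain ⟨i, rfl⟩ := h.of_root hb
  exact h.sim i

theorem Spt.card (h : C.Spt A) : ¬ ll ∣ Fintype.card ι := by
  have h1 := C.deg
  rwa [h.eq, natDegree_prod_of_monic _ _ fun i _ => monic_X_sub_C (A i),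
    Finset.sum_congr rfl fun i _ => natDegree_X_sub_C (A i), Finset.sum_const, smul_eq_mul,
    mul_one, Finset.card_univ] at h1

theorem Spt.kum (h : C.Spt A) (n : ι → F2) :
    Kum ll (∏ i, (C.x - algebraMap 𝕜 L (A i)) ^ (n i).val) (C.cls A n) :=
  PicE_prod _ fun i => PicE_pow (C.kum_e1 (h.sim i)) _

theorem Spt.cls_add (h : C.Spt A) (n n' : ι → F2) : C.cls A (n + n') = C.cls A n + C.cls A n' := by
  rw [cls, cls, cls, ← Finset.sum_add_distrib]
  refine Finset.sum_congr rfl fun i _ => ?_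
  rw [Pi.add_apply, ZMod.val_add, ← add_nsmul]
  exact (nsmul_eq_mod_nsmul _ (C.kum_e1 (h.sim i)).tors).symm

theorem Spt.cls_sub (h : C.Spt A) (n n' : ι → F2) : C.cls A (n - n') = C.cls A n - C.cls A n' := by
  rw [eq_sub_iff_add_eq, ← h.cls_add, sub_add_cancel]

theorem Spt.cls_eq_zero (h : C.Spt A) {n : ι → F2} : C.cls A n = 0 ↔ ∀ i j, n i = n j := by
  rw [Kum.eq_iff ll_ne_zero (h.kum n) PicE_one]
  constructor
  · rintro ⟨b, -, hb⟩ i j
    obtain ⟨k, hk⟩ := C.cube_crit (g := ∏ j, (X - Polynomial.C (A j)) ^ (n j).val) (u := b)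
      (Finset.prod_ne_zero_iff.2 fun j _ => pow_ne_zero _ (X_sub_C_ne_zero _))
      (by simpa using hb)
    have h1 : ∀ i, n i = (k : F2) := fun i => by
      have h2 := hk (A i)
      rw [PicE_mult h.inj, h.mult, mul_one] at h2
      rw [← (ZMod.natCast_eq_natCast_iff _ _ _).2 h2, ZMod.natCast_zmod_val]
    rw [h1, h1]
  · intro hn
    obtain ⟨m, hm⟩ : ∃ m, ∀ i, (n i).val = m := by
      rcases isEmpty_or_nonempty ι with h1 | ⟨⟨i⟩⟩
      · exact ⟨0, fun i => h1.elim i⟩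
      · exact ⟨(n i).val, fun j => by rw [hn j i]⟩
    refine ⟨C.y ^ m, pow_ne_zero _ C.y_ne, ?_⟩
    rw [one_mul, ← pow_mul, mul_comm, pow_mul, C.eq, h.eq]
    simp [hm, Finset.prod_pow]

theorem Spt.t3 (h : C.Spt A) (n : ι → F2) : T3 (C.cls A n) := ⟨1, by simpa using (h.kum n).tors⟩

theorem Spt.pa_e1 (h : C.Spt A) {σ : SA 𝕜 L} (hx : sl σ C.x = C.x) {i j : ι}
    (hA : sc σ (A i) = A j) : pa σ (C.e1 (A i)) = C.e1 (A j) := by
  rw [C.pa_e1 hx (hA ▸ h.sim j), hA]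

theorem Spt.fixed (h : C.Spt A) {c : Pic 𝕜 L} (hc : T3 c) (hs : pa C.s c = c) :
    ∃ n, c = C.cls A n := by
  classical
  obtain ⟨n, rfl⟩ := C.fixed_eq h.sims hc hs
  refine ⟨fun i => (n (A i) : F2), ?_⟩
  rw [cls]
  symm
  refine Finset.sum_bij (fun i _ => A i) (fun i _ => ?_) (fun i _ j _ e => h.inj e)
    (fun b hb => ?_) fun i _ => ?_
  · exact Multiset.mem_toFinset.2 ((mem_roots C.f_ne).2 (h.root i))
  · have h1 := (mem_roots C.f_ne).1 (Multiset.mem_toFinset.1 hb)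
    rw [h.eq, IsRoot.def, eval_prod, Finset.prod_eq_zero_iff] at h1
    obtain ⟨i, hi, h2⟩ := h1
    rw [eval_sub, eval_X, eval_C, sub_eq_zero] at h2
    exact ⟨i, hi, h2.symm⟩
  · rw [ZMod.val_natCast]
    exact (nsmul_eq_mod_nsmul _ (C.kum_e1 (h.sim i)).tors).symm

theorem s_neg {c : Pic 𝕜 L} (hc : T3 c) : pa C.s c = -c := by
  have h := C.t3_norm hc
  rw [Finset.sum_range_succ, Finset.sum_range_one, Function.iterate_zero_apply,
    Function.iterate_one] at h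
  exact eq_neg_of_add_eq_zero_right h

theorem Spt.two (h : C.Spt A) {c : Pic 𝕜 L} (hc : 2 • c = 0) : ∃ n, c = C.cls A n := by
  have h1 : T3 c := ⟨1, by rw [pow_one]; exact hc⟩
  refine h.fixed h1 ?_
  rw [s_neg h1, neg_eq_iff_add_eq_zero, ← two_nsmul, hc]

end Cub

end Pool.Agent.Hyp
end

-- merged part: Pool.Agent.Work.MP_60d5ce_nt.Bs.ThB
section
/-!
# Divisor classes of `y ^ 2 = f(x)` and the Picard group of the coordinate ring
-/

namespace Pool.Agent.Hyp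

open PR0 Pool.Agent.Ell.AT Polynomial Pool.Agent.Bs
open scoped Classical

variable {𝕜 L : Type} [Field 𝕜] [Field L] [Algebra 𝕜 L] [IsAlgClosed 𝕜]

theorem dvd_of_mult {p q : 𝕜[X]} (hq : q ≠ 0)
    (h : p ≠ 0 → ∀ b, q.rootMultiplicity b ≤ p.rootMultiplicity b) : q ∣ p := by
  by_cases hp : p = 0
  · exact hp ▸ dvd_zero q
  · exact (IsAlgClosed.splits q).dvd_of_roots_le_roots hq (Multiset.le_iff_count.2 fun b => by
      rw [count_roots, count_roots]
      exact h hp b)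

variable [Fact (IsFF 𝕜 L)] (C : Cub 𝕜 L)

namespace Cub

theorem ThB_fin {P : Place 𝕜 L} (hP : P ≠ C.pt none) : ∃ b, C.pr P = some b :=
  Option.ne_none_iff_exists'.1 fun h => hP (by
    rw [← h, C.eq_pt (C.ram_of fun b hb => by simp [h] at hb)])

theorem ThB_le {w : L} (hw : ∀ P, P ≠ C.pt none → w ∈ P.1) {p q : 𝕜[X]} (hq : q ≠ 0) (hp : p ≠ 0)
    (h : w * aeval C.x q = aeval C.x p) (b : 𝕜) :
    q.rootMultiplicity b ≤ p.rootMultiplicity b := by
  have h0 : w ≠ 0 := fun e => C.aeval_ne hp (by rw [← h, e, zero_mul])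
  have h1 := C.pr_pt (some b)
  have h2 := (CubP_mem h0).1 (hw (C.pt (some b)) fun e => by simp [e, C.pr_pt] at h1)
  have h3 := congrArg (C.pt (some b)).ord h
  rw [Place.ord_mul _ h0 (C.aeval_ne hq), C.ord_aeval h1 hq, C.ord_aeval h1 hp] at h3
  exact_mod_cast le_of_mul_le_mul_left (le_of_le_of_eq (le_add_of_nonneg_left h2) h3)
    (C.CubP_ex_pos _)

theorem ThB_reg (hf : ∀ b, C.f.rootMultiplicity b ≤ 1) {u : L}
    (hu : ∀ P, P ≠ C.pt none → u ∈ P.1) : ∃ a b : 𝕜[X], u = aeval C.x a + aeval C.x b * C.y := by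
  obtain ⟨a, d, hd, h⟩ := C.decomp u
  rw [Fin.sum_univ_two] at h
  simp only [Fin.val_zero, Fin.val_one, pow_zero, pow_one, mul_one] at h
  have h' := congrArg (sl C.s) h
  rw [map_mul, map_add, map_mul, C.CubB_s_aeval, C.CubB_s_aeval, C.CubB_s_aeval, C.s_y,
    C.hω.eq_neg_one_of_two_right, map_neg, map_one] at h'
  have hv : ∀ P, P ≠ C.pt none → sl C.s u ∈ P.1 := fun P hP => by
    rw [← smul_inv_smul C.s P, sl_mem]
    exact hu _ fun e => hP (by rw [← smul_inv_smul C.s P, e, C.smul_inf C.s_x])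
  generalize sl C.s u = v at h' hv
  have h2 : (2 : 𝕜) ≠ 0 := C.three_ne
  have h3 : ∀ P, P ≠ C.pt none → algebraMap 𝕜 L 2⁻¹ ∈ P.1 := fun P _ => P.2.2 _
  have h4 : algebraMap 𝕜 L 2⁻¹ * 2 = 1 := by
    rw [← map_ofNat (algebraMap 𝕜 L), ← map_mul, inv_mul_cancel₀ h2, map_one]
  generalize algebraMap 𝕜 L 2⁻¹ = t at h3 h4
  obtain ⟨p, hp⟩ : d ∣ a 0 := dvd_of_mult hd fun h0 => C.ThB_le (w := t * (u + v))
    (fun P hP => mul_mem (h3 P hP) (add_mem (hu P hP) (hv P hP))) hd h0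
    (by linear_combination t * h + t * h' + aeval C.x (a 0) * h4)
  obtain ⟨q, hq⟩ : d ∣ a 1 := dvd_of_mult hd fun h0 b => by
    have h5 := C.ThB_le (w := (t * (u - v)) ^ 2) (p := a 1 * a 1 * C.f) (fun P hP =>
      pow_mem (mul_mem (h3 P hP) (sub_mem (hu P hP) (hv P hP))) 2) (mul_ne_zero hd hd)
      (mul_ne_zero (mul_ne_zero h0 h0) C.f_ne) (by
        have h6 : t * (u - v) * aeval C.x d = aeval C.x (a 1) * C.y := by
          linear_combination t * h - t * h' + aeval C.x (a 1) * C.y * h4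
        rw [map_mul, map_mul, map_mul, ← C.eq]
        linear_combination (t * (u - v) * aeval C.x d + aeval C.x (a 1) * C.y) * h6) b
    rw [rootMultiplicity_mul (mul_ne_zero hd hd), rootMultiplicity_mul
      (mul_ne_zero (mul_ne_zero h0 h0) C.f_ne), rootMultiplicity_mul (mul_ne_zero h0 h0)] at h5
    have := hf b
    omega
  refine ⟨p, q, mul_right_cancel₀ (C.aeval_ne hd) ?_⟩
  rw [h, hp, hq, map_mul, map_mul]
  ring

theorem exists_eta (hf : ∀ b, C.f.rootMultiplicity b ≤ 1) {δ : 𝕜} (hδ : δ ≠ 0) {D : 𝕜[X]}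
    (hD : D = Polynomial.C (δ ^ 2) * C.f) :
    ∃ η : Pic 𝕜 L →+ Additive (CommRing.Pic (Crd D)), (∀ c, ∃ E, dg E = 0 ∧ η (cl E) = c) ∧
      (∀ E, dg E = 0 → η (cl E) = 0 → cl E = 0) ∧
      ∀ (σ : SA 𝕜 L) (s : 𝕜 →+* 𝕜) (h : D.map s = D), (∀ a, sc σ a = s a) → sl σ C.x = C.x →
        sl σ (algebraMap 𝕜 L δ * C.y) = algebraMap 𝕜 L δ * C.y →
        ∀ c, (CommRing.Pic.mapRingHom (cmap s h)).toAdditive (η c) = η (pa σ c) := by
  have h1 : aeval C.x D = (algebraMap 𝕜 L δ * C.y) ^ 2 := by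
    rw [hD, map_mul, aeval_C, ← C.eq, map_pow, mul_pow]
  let e : Crd D →+* L :=
    { toFun := fun z => aeval C.x z.re + aeval C.x z.im * (algebraMap 𝕜 L δ * C.y)
      map_one' := by simp [QuadraticAlgebra.re_one, QuadraticAlgebra.im_one]
      map_mul' := fun z w => by
        simp only [QuadraticAlgebra.re_mul, QuadraticAlgebra.im_mul, map_add, map_mul, h1, map_zero]
        ring
      map_zero' := by simp
      map_add' := fun z w => by
        simp only [QuadraticAlgebra.re_add, QuadraticAlgebra.im_add, map_add]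
        ring }
  let := e.toAlgebra
  have he : ∀ z : Crd D, algebraMap (Crd D) L z =
      aeval C.x z.re + aeval C.x z.im * (algebraMap 𝕜 L δ * C.y) := fun _ => rfl
  have : FaithfulSMul (Crd D) L := (faithfulSMul_iff_algebraMap_injective _ _).2
    ((injective_iff_map_eq_zero _).2 fun z hz => by
      have h2 := C.indep (a := ![z.re, z.im * Polynomial.C δ]) (by
        rw [Fin.sum_univ_two, ← hz, he]
        simp [mul_assoc])
      have h3 : z.im * Polynomial.C δ = 0 := congrFun h2 1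
      exact QuadraticAlgebra.ext (congrFun h2 0)
        ((mul_eq_zero.1 h3).resolve_right (C_ne_zero.2 hδ)))
  have hR : ∀ u : L, (∃ r, algebraMap (Crd D) L r = u) ↔ ∀ P, P ≠ C.pt none → u ∈ P.1 := fun u => by
    refine ⟨fun ⟨r, hr⟩ P hP => ?_, fun hu => ?_⟩
    · obtain ⟨b, hb⟩ := C.ThB_fin hP
      rw [← hr, he]
      exact add_mem (C.val_aeval hb _).1
        (mul_mem (C.val_aeval hb _).1 (mul_mem (P.2.2 _) (C.y_mem hb).1))
    · obtain ⟨a, b, rfl⟩ := C.ThB_reg hf hu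
      refine ⟨⟨a, b * Polynomial.C δ⁻¹⟩, ?_⟩
      rw [he, map_mul, aeval_C, mul_assoc, ← mul_assoc (algebraMap 𝕜 L δ⁻¹), ← map_mul,
        inv_mul_cancel₀ hδ, map_one, one_mul]
  refine ⟨eta hR, eta_surj hR, fun E => eta_inj hR, fun σ s h hs hx hy =>
    eta_nat hR (C.smul_inf hx) _ fun r => ?_⟩
  rw [he, he, map_add, map_mul, hy, sl_aeval, sl_aeval, hx,
    show (sc σ : 𝕜 →+* 𝕜) = s from RingHom.ext hs]
  rfl

end Cub

end Pool.Agent.Hyp
end

-- merged part: Pool.Agent.Work.MP_60d5ce_nt.Bs.Defs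
section
/-!
# The two-primary part of the Tate-Shafarevich group of the Jacobian of `y ^ 2 = D(x)`

`Ω` is a separable closure of `F`.  `H^1(F, J)` is the group of continuous (locally constant)
1-cocycles `Gal(Ω/F) → J(Ω)` modulo coboundaries.
-/

namespace Pool.Agent.Bs

open Polynomial

variable {F : Type} [Field F] (D : F[X]) {Ω : Type} [Field Ω] [Algebra F Ω]

/-- Continuous (= locally constant for the Krull topology) 1-cocycles `Gal(Ω/F) → J(Ω)`. -/
def IsCocycle (c : (Ω ≃ₐ[F] Ω) → Jac D Ω) : Prop :=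
  IsLocallyConstant c ∧ ∀ σ τ, c (σ * τ) = c σ + jmap D σ.toAlgHom (c τ)

/-- 1-coboundaries `σ ↦ σ P - P`, `P ∈ J(Ω)`. -/
def IsCob (c : (Ω ≃ₐ[F] Ω) → Jac D Ω) : Prop :=
  ∃ P : Jac D Ω, ∀ σ, c σ = jmap D σ.toAlgHom P - P

/-- The class of `c` restricts to zero in `H^1(L, J)`, for an extension field `L` of `F`: for an
embedding `ι` of `Ω` in the separable closure of `L` there is a point `P` over it with
`ι (c σ) = τ P - P` whenever `τ ∈ Gal(L^sep/L)` restricts to `σ ∈ Gal(Ω/F)`. -/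
def SplitsOver (L : Type) [Field L] [Algebra F L] (c : (Ω ≃ₐ[F] Ω) → Jac D Ω) : Prop :=
  ∃ (ι : Ω →ₐ[F] SeparableClosure L) (P : Jac D (SeparableClosure L)),
    ∀ (τ : SeparableClosure L ≃ₐ[L] SeparableClosure L) (σ : Ω ≃ₐ[F] Ω),
      (∀ x, ι (σ x) = τ (ι x)) →
        jmap D ι (c σ) = jmap D (τ.toAlgHom.restrictScalars F) P - P

/-- `c` is a continuous cocycle whose class lies in the Tate-Shafarevich group, the kernel of
`H^1(F, J) → ∏_v H^1(F_v, J)`, `v` running over all nontrivial real absolute values of `F`. -/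
def InSha (c : (Ω ≃ₐ[F] Ω) → Jac D Ω) : Prop :=
  IsCocycle D c ∧ ∀ v : AbsoluteValue F ℝ, v.IsNontrivial → SplitsOver D v.Completion c

variable (Ω) in
/-- The classes of two-power order in the Tate-Shafarevich group are finitely many. -/
def ShaTwoFinite : Prop :=
  ∃ S : Set ((Ω ≃ₐ[F] Ω) → Jac D Ω), S.Finite ∧
    ∀ c, InSha D c → (∃ j : ℕ, IsCob D (2 ^ j • c)) → ∃ s ∈ S, IsCob D (c - s)

end Pool.Agent.Bs
end

-- merged part: Pool.Agent.Work.MP_60d5ce_nt.Hy.LocEx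
section
/-!
# Existence of local models

Port of `Sm/LocEx.lean`.  `z` is a primitive sixth root of unity in the algebraically closed field
`Kb k Ω`; for `r ^ 2 = unif` take `s ^ mo = unif` in `Λ`, `ι r = ± s ^ 3`, and `z ^ 3 = -1`.
-/

namespace Pool.Agent.Hyp

open Pool.Agent.Quad

variable [Par]

variable {k : Type} [Field k] [Fintype k] {Ω : Type} [Field Ω] [Algebra (RatFunc k) Ω]
  [Algebra k Ω] [IsScalarTower k (RatFunc k) Ω] [IsSepClosure (RatFunc k) Ω]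

omit [IsSepClosure (RatFunc k) Ω] [IsScalarTower k (RatFunc k) Ω] in
theorem LocEx_ext {g h : WG k Ω} (h1 : gal g = gal h) (h2 : wdeg g = wdeg h) : g = h :=
  Subtype.ext (Prod.ext h1 (Multiplicative.toAdd.injective h2))

theorem LocEx_res {F Ω L Λ : Type} [Field F] [Field Ω] [Algebra F Ω] [Normal F Ω] [Field L]
    [Field Λ] [Algebra F L] [Algebra L Λ] [Algebra F Λ] [IsScalarTower F L Λ] (ι : Ω →ₐ[F] Λ) :
    ∃ ρ : (Λ ≃ₐ[L] Λ) →* (Ω ≃ₐ[F] Ω), ∀ s a, ι (ρ s a) = s (ι a) := by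
  let _ : Algebra Ω Λ := ι.toRingHom.toAlgebra
  have _ : IsScalarTower F Ω Λ := IsScalarTower.of_algebraMap_eq fun x => (ι.commutes x).symm
  exact ⟨MonoidHom.mk' (fun s => (s.restrictScalars F).restrictNormal Ω) fun s t =>
    map_mul (AlgEquiv.restrictNormalHom Ω) (s.restrictScalars F) (t.restrictScalars F),
    fun s a => AlgEquiv.restrictNormal_commutes (s.restrictScalars F) Ω a⟩

theorem LocEx_w (L Λ : Type) [NontriviallyNormedField L] [CompleteSpace L] [IsUltrametricDist L]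
    [Field Λ] [Algebra L Λ] [Algebra.IsAlgebraic L Λ] :
    ∃ w : AbsoluteValue Λ ℝ, ∀ a, w a = spectralNorm L Λ a :=
  ⟨{ toFun := spectralNorm L Λ
     map_mul' := spectralAlgNorm_mul
     nonneg' := spectralNorm_nonneg
     eq_zero' := fun x => ⟨fun h => eq_zero_of_map_spectralNorm_eq_zero h
       (Algebra.IsAlgebraic.isAlgebraic x), fun h => h ▸ spectralNorm_zero⟩
     add_le' := fun _ _ => isNonarchimedean_spectralNorm.add_le spectralNorm_nonneg },
    fun _ => rfl⟩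

theorem LocEx_of (h6 : ((mo : ℕ) : k) ≠ 0) (v : Pl k) (L Λ : Type)
    [NontriviallyNormedField L] [CompleteSpace L] [IsUltrametricDist L] [Algebra (RatFunc k) L]
    [Field Λ] [Algebra L Λ] [Algebra (RatFunc k) Λ] [IsScalarTower (RatFunc k) L Λ]
    [IsSepClosure L Λ] (hd : DenseRange (algebraMap (RatFunc k) L))
    (hdisc : ∀ a : RatFunc k, a ≠ 0 → ∃ n : ℤ, ‖algebraMap _ L a‖ = 2 ^ n)
    (hv : LocC_Good v fun a => ‖algebraMap (RatFunc k) L a‖) : Nonempty (Loc Ω v) := by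
  classical
  have : IsSepClosed Λ := IsSepClosure.sep_closed L
  let ι : Ω →ₐ[RatFunc k] Λ := IsSepClosed.lift
  obtain ⟨w, hw⟩ := LocEx_w L Λ
  have hna : IsNonarchimedean w := fun a b => by
    simp only [hw]
    exact isNonarchimedean_spectralNorm a b
  have hiso : ∀ (s : Λ ≃ₐ[L] Λ) a, w (s a) = w a := fun s a => by
    rw [hw, hw, ← spectralNorm_eq_of_equiv]
  have hext : ∀ a : L, w (algebraMap L Λ a) = ‖a‖ := fun a => by rw [hw, spectralNorm_extends]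
  have hF : ∀ a : RatFunc k, algebraMap _ Λ a = algebraMap L Λ (algebraMap _ L a) :=
    IsScalarTower.algebraMap_apply _ L Λ
  have happ : ∀ (a : L) (ε : ℝ), 0 < ε → ∃ b : RatFunc k,
      w (algebraMap L Λ a - algebraMap _ Λ b) < ε := fun a ε hε => by
    obtain ⟨b, hb⟩ := hd.exists_dist_lt a hε
    exact ⟨b, by rwa [hF, ← map_sub, hext, ← dist_eq_norm]⟩
  have hL : ∀ a : L, a ≠ 0 → ∃ n : ℤ, ‖a‖ = 2 ^ n := fun a ha => by
    obtain ⟨b, hb⟩ := happ a _ (norm_pos_iff.2 ha)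
    have h1 := LocA_eq hna ((w.map_sub _ _).trans_lt (hb.trans_eq (hext a).symm))
    rw [hF, hext, hext] at h1
    rw [← h1]
    refine hdisc b fun h => ha ?_
    rw [h, map_zero, norm_zero] at h1
    exact norm_eq_zero.1 h1.symm
  obtain ⟨x, hx1, hx2, hx3, hx4⟩ := LocC_point ι hna v (by simpa only [hF, hext] using hv)
  let D : LD L Λ (Kb k Ω) :=
    { j := LocC_j ι
      w := w
      φ := (frob k Ω ^ pdg v : Kb k Ω ≃ₐ[k] Kb k Ω)
      na := hna
      iso := hiso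
      int := fun a ha i => by
        rw [hw] at ha
        rw [hext]
        exact (spectralValue_le_one_iff (minpoly.monic (Algebra.IsIntegral.isIntegral a))).1 ha i
      tors := LocC_tors
      res := fun a ha => by
        obtain ⟨b, hb⟩ := happ a 1 one_pos
        obtain ⟨c, h1, h2⟩ := hx4 b (LocA_le hna ha ((w.map_sub _ _).trans_lt hb))
        exact ⟨c, h1, LocA_trans hna hb h2⟩
      disc := fun a ha => by
        rw [hext]
        exact hL a ha }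
  have hQ : ∀ c, D.φ c = c ^ Fintype.card k ^ pdg v := frob_pow_apply (pdg v)
  obtain ⟨σ, hσ⟩ := D.exists_frob
  have hfix : ∀ s : Λ ≃ₐ[L] Λ, s (ι x) = ι x → s (ι (unif v x)) = ι (unif v x) := by
    intro s hs
    have ht : s (ι (tt k Ω)) = ι (tt k Ω) := by
      rw [tt, ι.commutes, hF, s.commutes]
    rcases v with _ | p
    · change s (ι (tt k Ω)⁻¹) = ι (tt k Ω)⁻¹
      rw [map_inv₀, map_inv₀, ht]
    · change s (ι (tt k Ω - x)) = ι (tt k Ω - x)
      rw [map_sub, map_sub, ht, hs]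
  obtain ⟨z, hz⟩ : ∃ z : Kb k Ω, IsPrimitiveRoot z mo := by
    have : NeZero ((mo : ℕ) : Kb k Ω) := ⟨six_ne_map (algebraMap k (Kb k Ω)) h6⟩
    have : NeZero mo := ⟨mo_ne⟩
    exact HasEnoughRootsOfUnity.exists_primitiveRoot (Kb k Ω) mo
  have hroot : ∀ (n : ℕ) (a : Λ), ∃ r : Λ, r ^ mo ^ n = a := fun n a => by
    have : NeZero ((mo : ℕ) : Λ) := (hz.map_of_injective D.j.injective).neZero'
    have : NeZero ((mo ^ n : ℕ) : Λ) := ⟨by
      rw [Nat.cast_pow]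
      exact pow_ne_zero _ (NeZero.ne _)⟩
    exact IsSepClosed.exists_pow_nat_eq _ _
  obtain ⟨τ, hτ1, hτ2, hτ3⟩ := D.main hz (π := ι (unif v x)) hx2 (fun s hs => hfix s (hs x))
    (fun n => hroot n _) hQ hσ (hfix σ ((hσ x).trans (congrArg D.j hx3)))
  obtain ⟨ρ, hρ⟩ := LocEx_res (L := L) ι
  have mk : ∀ (s : Λ ≃ₐ[L] Λ) (n : ℕ), (∀ c, s (D.j c) = D.j ((frob k Ω ^ n) c)) →
      ∃ g : WG k Ω, gal g = ρ s ∧ wdeg g = n := fun s n h =>
    ⟨⟨(ρ s, Multiplicative.ofAdd (n : ℤ)), fun c => ι.injective (by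
      rw [toAdd_ofAdd, zpow_natCast]
      exact (hρ s c).trans (h c))⟩, rfl, rfl⟩
  obtain ⟨σ', hσ1, hσ2⟩ := mk σ (pdg v) hσ
  obtain ⟨τ', hτ4, hτ5⟩ := mk τ 0 hτ1
  have key : ∀ U : Subgroup (WG k Ω), Adm U →
      (∀ a, a ≠ 0 → (∀ n ∈ (U.map gal).comap ρ, n a = a) → τ a = a → ∃ n : ℤ, w a = 2 ^ n) ∧
        (σ * τ)⁻¹ * (τ ^ Fintype.card k ^ pdg v * σ) ∈ (U.map gal).comap ρ := by
    intro U hU
    refine hτ3 _ (fun g hg n hn => ?_) ?_ (fun g hg => ?_)
    · obtain ⟨u, hu, e⟩ := hn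
      obtain ⟨g', e', -⟩ := mk g 0 hg
      exact ⟨g' * u * g'⁻¹, hU.1.conj_mem u hu g', by simp only [map_mul, map_inv, e, e']⟩
    · obtain ⟨S, hS⟩ := hU.2.2.1
      refine ⟨S.image ι, fun g hg h => ?_⟩
      obtain ⟨g', e', hd'⟩ := mk g 0 hg
      refine ⟨g', hS g' hd' fun a ha => ι.injective ?_, e'⟩
      rw [e']
      exact (hρ g a).trans (h _ (Finset.mem_image_of_mem _ ha))
    · obtain ⟨g', e', hd'⟩ := mk g 0 hg
      obtain ⟨i, hi⟩ := hU.2.2.2 g' hd'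
      exact ⟨i, g' ^ mo ^ i, hi, by rw [map_pow, map_pow, e']⟩
  exact ⟨{
    L := L
    Λ := Λ
    ι := ι
    wΛ := w
    wΛ_eq := hw
    wΛ_na := hna
    wΛ_iso := hiso
    L_disc := hL
    σh := σ
    τh := τ
    σh_res := D.frob_res hQ σ hσ
    τh_res := D.fix_res τ hτ1
    Λ_res := fun a ha => D.big_res ha
    σ := σ'
    τ := τ'
    ι_σ := fun a => by rw [hσ1, hρ]
    ι_τ := fun a => by rw [hτ4, hρ]
    deg_σ := hσ2
    deg_τ := hτ5
    x := x
    root := hx1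
    w_const := D.w_j
    w_unif := hx2
    kummer := fun r hr => ι.injective (by
      obtain ⟨s, hs⟩ := hroot 1 (ι (unif v x))
      rw [pow_one] at hs
      obtain ⟨c, hc⟩ := two_dvd_mo
      rw [mul_comm] at hc
      have h3 : D.j z ^ c = -1 := ((hz.map_of_injective D.j.injective).pow (a := c) (b := 2)
        mo_pos hc).eq_neg_one_of_two_right
      have h : τ (s ^ c) = -s ^ c := by rw [map_pow, hτ2 s hs, mul_pow, h3, neg_one_mul]
      have h1 : ι r ^ 2 = (s ^ c) ^ 2 := by rw [← pow_mul, ← hc, hs, ← map_pow, hr]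
      change ι (gal τ' r) = ι (-r)
      rw [hτ4, hρ, map_neg]
      rcases sq_eq_sq_iff_eq_or_eq_neg.1 h1 with e | e
      · rw [e, h]
      · rw [e, map_neg, h])
    disc := fun U hU a a0 h1 h2 => (key U hU).1 (ι a) ((map_ne_zero ι).2 a0)
      (fun n ⟨u, hu, e⟩ => by rw [← hρ, ← e, h1 u hu]) (by rw [← hρ, ← hτ4, h2])
    rel := fun U hU => by
      obtain ⟨u, hu, e⟩ := (key U hU).2
      have : u = (σ' * τ')⁻¹ * (τ' ^ Fintype.card k ^ pdg v * σ') := LocEx_ext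
        (by simp only [e, map_mul, map_inv, map_pow, hσ1, hτ4])
        (by
          rw [hU.2.1 u hu, wdeg_mul, wdeg_inv, wdeg_mul, wdeg_mul, wdeg_pow, hτ5]
          simp)
      exact this ▸ hu }⟩

theorem exists_loc (h6 : ((mo : ℕ) : k) ≠ 0) (v : Pl k) : Nonempty (Loc Ω v) := by
  obtain ⟨w, h1, h2, h3, a, ha, ha1⟩ := LocC_exists v
  have hn : ∀ a : RatFunc k, ‖algebraMap _ w.Completion a‖ = w a := fun a => by
    have : algebraMap _ w.Completion a = ((WithAbs.toAbs w a : WithAbs w) : w.Completion) := rfl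
    rw [this, UniformSpace.Completion.norm_coe]
    rfl
  have hd : DenseRange (algebraMap (RatFunc k) w.Completion) := by
    have h1 : DenseRange ((↑) : WithAbs w → w.Completion) := UniformSpace.Completion.denseRange_coe
    have h2 : Function.Surjective (WithAbs.toAbs w) := fun x => ⟨x.ofAbs, rfl⟩
    exact h1.comp h2.denseRange (UniformSpace.Completion.continuous_coe _)
  let _ : NontriviallyNormedField w.Completion := NontriviallyNormedField.ofNormNeOne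
    ⟨algebraMap _ _ a, by simpa using ha, by rwa [hn]⟩
  have : IsUltrametricDist w.Completion :=
    IsUltrametricDist.isUltrametricDist_of_forall_norm_natCast_le_one fun n => by
      rw [← map_natCast (algebraMap (RatFunc k) w.Completion), hn]
      exact h1.apply_natCast_le_one
  exact LocEx_of h6 v w.Completion (SeparableClosure w.Completion) hd
    (by simpa only [hn] using h2) (by simpa only [hn] using h3)

end Pool.Agent.Hyp
end

-- merged part: Pool.Agent.Work.MP_60d5ce_nt.Bs.Loc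
section
/-!
# Local splittings and the local models
-/

namespace Pool.Agent.Bs

open Polynomial

variable {F : Type} [Field F] {D : F[X]} {K L M N : Type} [Field K] [Field L] [Field M] [Field N]
  [Algebra F K] [Algebra F L] [Algebra F M] [Algebra F N]

theorem jm_comp (φ : K →ₐ[F] L) (ψ : L →ₐ[F] M) (χ : K →ₐ[F] M) (h : ∀ x, ψ (φ x) = χ x)
    (c : Jac D K) : jmap D ψ (jmap D φ c) = jmap D χ c := by
  obtain rfl : ψ.comp φ = χ := AlgHom.ext h
  refine congrArg Additive.ofMul (CommRing.Pic.mapRingHom_mapRingHom.trans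
    (congrArg (fun s => CommRing.Pic.mapRingHom s c.toMul) (RingHom.ext fun z => ?_)))
  exact QuadraticAlgebra.ext (map_map _ _ _) (map_map _ _ _)

theorem jm_sq (φ : K →ₐ[F] L) (ψ : L →ₐ[F] M) (φ' : K →ₐ[F] N) (ψ' : N →ₐ[F] M)
    (h : ∀ x, ψ (φ x) = ψ' (φ' x)) (c : Jac D K) :
    jmap D ψ (jmap D φ c) = jmap D ψ' (jmap D φ' c) :=
  (jm_comp φ ψ (ψ'.comp φ') h c).trans (jm_comp φ' ψ' _ (fun _ => rfl) c).symm

theorem transport [Normal F K] {c : (K ≃ₐ[F] K) → Jac D K}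
    (hc : ∀ σ τ, c (σ * τ) = c σ + jmap D σ.toAlgHom (c τ)) (hs : SplitsOver D L c)
    [IsSepClosed M] (e : L →ₐ[F] M) (ι : K →ₐ[F] M) :
    ∃ P : Jac D M, ∀ (τ : M ≃ₐ[F] M) (σ : K ≃ₐ[F] K), (∀ y, τ (e y) = e y) →
      (∀ x, ι (σ x) = τ (ι x)) → jmap D ι (c σ) = jmap D τ.toAlgHom P - P := by
  obtain ⟨ι1, P1, hP1⟩ := hs
  let _ : Algebra L M := e.toRingHom.toAlgebra
  have : IsScalarTower F L M := IsScalarTower.of_algebraMap_eq fun x => (e.commutes x).symm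
  let κ : SeparableClosure L →ₐ[L] M := IsSepClosed.lift
  obtain ⟨σ0, hσ0⟩ := ShaAsc.exists_conj (K := F) ι ((κ.restrictScalars F).comp ι1) fun x => by
    rw [AlgHom.commutes, AlgHom.commutes]
  refine ⟨jmap D (κ.restrictScalars F) P1 - jmap D ι (c σ0), fun τ σ hτ hσ => ?_⟩
  obtain ⟨τ', hτ'⟩ := ShaFF.exists_res κ ({ τ.toRingEquiv with commutes' := hτ } : M ≃ₐ[L] M)
  have k2 := congrArg (jmap D (κ.restrictScalars F)) (hP1 τ' (σ0⁻¹ * σ * σ0) fun x =>
    κ.injective (((hσ0 _).symm.trans (by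
      rw [← AlgEquiv.mul_apply, mul_assoc, mul_inv_cancel_left, AlgEquiv.mul_apply, hσ, hσ0]
      rfl)).trans (hτ' _).symm))
  rw [← jm_sq σ0.toAlgHom ι ι1 (κ.restrictScalars F) hσ0, map_sub, jm_sq
    (τ'.toAlgHom.restrictScalars F) (κ.restrictScalars F) (κ.restrictScalars F) τ.toAlgHom hτ'] at k2
  have k3 := hc σ0 (σ0⁻¹ * σ * σ0)
  rw [show σ0 * (σ0⁻¹ * σ * σ0) = σ * σ0 by group, hc] at k3
  have k4 := congrArg (jmap D ι) k3
  rw [map_add, map_add, k2, jm_sq σ.toAlgHom ι ι τ.toAlgHom hσ] at k4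
  rw [map_sub, ← sub_eq_zero, ← sub_eq_zero.2 k4]
  abel

end Pool.Agent.Bs

namespace Pool.Agent.Hyp

open Polynomial Pool.Agent.Bs

variable [Par] {k : Type} [Field k] [Fintype k] {Ω : Type} [Field Ω] [Algebra (RatFunc k) Ω]
  [Algebra k Ω] [IsScalarTower k (RatFunc k) Ω] [IsSepClosure (RatFunc k) Ω] {v : Pl k}
  (l : Loc Ω v)

/-- the embedding in the algebraic closure of the local field -/
noncomputable def Loc.ib : Ω →ₐ[RatFunc k] Fb l.Λ :=
  (IsScalarTower.toAlgHom (RatFunc k) l.Λ (Fb l.Λ)).comp l.ι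

omit [IsScalarTower k (RatFunc k) Ω] [IsSepClosure (RatFunc k) Ω] in
theorem Loc.exists_bar : ∃ (w : AbsoluteValue (Fb l.Λ) ℝ) (τ : Fb l.Λ ≃ₐ[RatFunc k] Fb l.Λ),
    IsNonarchimedean w ∧ (∀ a, w (l.ib a) = l.w a) ∧ (∀ a, w (τ a) = w a) ∧
    (∀ a, w a ≤ 1 → w (τ a - a) < 1) ∧ (∀ a, l.ib (gal l.τ a) = τ (l.ib a)) ∧
    ∀ y, τ (algebraMap l.L _ y) = algebraMap l.L _ y := by
  have : Algebra.IsAlgebraic l.L (Fb l.Λ) := Algebra.IsAlgebraic.trans l.L l.Λ _
  obtain ⟨w, hw⟩ := LocEx_w l.L (Fb l.Λ)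
  have h1 : ∀ a, w (algebraMap l.Λ _ a) = l.wΛ a := fun a => by
    rw [hw, l.wΛ_eq, ← spectralNorm.eq_of_tower]
  have h2 := IsAlgClosure.equivOfEquiv_algebraMap (Fb l.Λ) (Fb l.Λ) (l.τh : l.Λ ≃+* l.Λ)
  let τ : Fb l.Λ ≃ₐ[l.L] Fb l.Λ :=
    { IsAlgClosure.equivOfEquiv (Fb l.Λ) (Fb l.Λ) (l.τh : l.Λ ≃+* l.Λ) with
      commutes' := fun y => (h2 (algebraMap l.L l.Λ y)).trans
        (congrArg (algebraMap l.Λ _) (l.τh.commutes y)) }
  have h3 : ∀ a, τ (algebraMap l.Λ _ a) = algebraMap l.Λ _ (l.τh a) := h2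
  refine ⟨w, τ.restrictScalars _, fun a b => ?_, fun a => h1 _, fun a => ?_, fun a ha => ?_,
    fun a => (congrArg (algebraMap l.Λ _) (l.ι_τ a)).trans (h3 _).symm, τ.commutes⟩
  · rw [hw, hw, hw]
    exact isNonarchimedean_spectralNorm a b
  · rw [hw, hw, AlgEquiv.restrictScalars_apply, ← spectralNorm_eq_of_equiv]
  · obtain ⟨p, hp⟩ := ExpChar.exists l.Λ
    have := expChar_of_injective_algebraMap (algebraMap l.Λ (Fb l.Λ)).injective p
    have := IsSepClosure.sep_closed l.L (K := l.Λ)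
    have : IsPurelyInseparable l.Λ (Fb l.Λ) :=
      Algebra.IsAlgebraic.isPurelyInseparable_of_isSepClosed
    obtain ⟨m, b, hb⟩ := IsPurelyInseparable.pow_mem l.Λ p a
    have h0 : p ^ m ≠ 0 := (expChar_pow_pos l.Λ p m).ne'
    rw [← pow_lt_one_iff_of_nonneg (w.nonneg _) h0, ← map_pow, sub_pow_expChar_pow, ← map_pow, ← hb,
      AlgEquiv.restrictScalars_apply, h3, ← map_sub, h1]
    refine l.τh_res b ?_
    rw [← h1, hb, map_pow]
    exact pow_le_one₀ (w.nonneg _) ha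

theorem Loc.split {D : (RatFunc k)[X]} {c : Gam k Ω → Jac D Ω} (hc : InSha D c) :
    ∃ P : Jac D (Fb l.Λ), ∀ (τ : Fb l.Λ ≃ₐ[RatFunc k] Fb l.Λ) (σ : Gam k Ω),
      (∀ y, τ (algebraMap l.L _ y) = algebraMap l.L _ y) → (∀ x, l.ib (σ x) = τ (l.ib x)) →
      jmap D l.ib (c σ) = jmap D τ.toAlgHom P - P := by
  let w := (NormedField.toAbsoluteValue l.L).comp (algebraMap (RatFunc k) l.L).injective
  obtain ⟨a, ha, h1⟩ := Ov_small l
  rw [l.w_apply, l.ι.commutes, l.wΛ_eq, IsScalarTower.algebraMap_apply (RatFunc k) l.L,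
    spectralNorm_extends] at h1
  obtain ⟨e, he⟩ := ShaAsc.exists_ext w (algebraMap (RatFunc k) l.L) fun _ => rfl
  obtain ⟨P, hP⟩ := transport hc.1.2 (hc.2 w ⟨a, ha, fun h => by
    rw [show ‖algebraMap (RatFunc k) l.L a‖ = 1 from h] at h1
    norm_num at h1⟩) ((IsScalarTower.toAlgHom (RatFunc k) l.L (Fb l.Λ)).comp ⟨e, he⟩) l.ib
  exact ⟨P, fun τ σ h => hP τ σ fun y => h _⟩

end Pool.Agent.Hyp
end

-- merged part: Pool.Agent.Work.MP_60d5ce_nt.Hy.CubT
section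
/-!
# The trace of Frobenius on the Jacobian of `y ^ 2 = ∏ (x - A i)`  (task HY CubT)

* `pt_bij`: injective: at a root of `f` the place is ramified (`ram_of`, `eq_pt`), otherwise `eq_of_val`.  Surjective: `pr_surj`, `y_mem`; change the sign of `val y` by `s` (`pr_s`, `val_smul`, `s_y`, `C.ω = -1`).
* `fix_card`: the place at infinity is fixed (`smul_inf`, `eq_pt`).  A place with the point `(a, b)` is moved to the place with the point `(a ^ Q, e b ^ Q)` (`pr_smul`, `val_smul`).  The map `(a, b) ↦ (a, δ b)` is a bijection onto the set in `affN`.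
  `fix_finite`.
* `trace`: `thmA`.
-/

namespace Pool.Agent.Hyp

open PR0 Polynomial Pool.Agent.Ell.AT Pool.Agent.Lef

/-- the number of affine points of `y ^ 2 = d g (x)` fixed by `z ↦ z ^ Q` -/
noncomputable def affN {κ : Type} [Field κ] (g : κ[X]) (d : κ) (Q : ℕ) : ℕ :=
  {z : κ × κ | z.2 ^ 2 = d * g.eval z.1 ∧ z.1 ^ Q = z.1 ∧ z.2 ^ Q = z.2}.ncard

variable {κ L : Type} [Field κ] [Field L] [Algebra κ L] [IsAlgClosed κ] [Fact (IsFF κ L)]
  {ι : Type} [Fintype ι] {C : Cub κ L} {A : ι → κ}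

namespace Cub

theorem CubT_ext (h : C.Spt A) {P P' : Place κ L} (h1 : C.pr P = C.pr P')
    (h2 : ∀ a, C.pr P = some a → P.val C.y = P'.val C.y) : P = P' := by
  by_cases k : ∀ a, C.pr P = some a → C.f.IsRoot a
  · rw [← C.eq_pt (C.ram_of fun a ha => h.sims a (k a ha)), h1,
      C.eq_pt (C.ram_of fun a ha => h.sims a (k a (h1.trans ha)))]
  · simp only [not_forall] at k
    obtain ⟨a, k1, k2⟩ := k
    exact C.eq_of_val k2 k1 (h1.symm.trans k1) (h2 a k1)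

theorem Spt.pt_bij (h : C.Spt A) {a b : κ} (e : b ^ 2 = C.f.eval a) :
    ∃! P : Place κ L, C.pr P = some a ∧ P.val C.y = b := by
  refine existsUnique_of_exists_of_unique ?_ fun P P' k k' =>
    CubT_ext h (k.1.trans k'.1.symm) fun _ _ => k.2.trans k'.2.symm
  obtain ⟨P, hP⟩ := C.pr_surj (some a)
  rcases sq_eq_sq_iff_eq_or_eq_neg.1 ((C.y_mem hP).2.trans e.symm) with k | k
  · exact ⟨P, hP, k⟩
  · have k1 := C.CubP_val_s hP
    rw [C.hω.eq_neg_one_of_two_right, k, neg_one_mul, neg_inj] at k1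
    exact ⟨C.s • P, (C.pr_s P).trans hP, k1⟩

variable {p : ℕ} [Fact p.Prime] [CharP κ p] {γ : SA κ L} {Q : ℕ} {e d δ : κ}

theorem Spt.fix_card (h : C.Spt A) (hγ : IsFr p γ Q) (hx : sl γ C.x = C.x)
    (hy : sl γ C.y = algebraMap κ L e * C.y) (he : e ^ 2 = 1) (hδ : δ ^ 2 = d) (h0 : δ ≠ 0)
    (hδe : δ ^ Q = e * δ) : {P : Place κ L | γ • P = P}.ncard = 1 + affN C.f d Q := by
  let Φ : Place κ L → Option (κ × κ) := fun P => (C.pr P).map fun a => (a, δ * P.val C.y)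
  have inj : Function.Injective Φ := fun P P' k => by
    have k1 := congrArg (Option.map Prod.fst) k
    simp only [Φ, Option.map_map, Function.comp_def, Option.map_id'] at k1
    refine CubT_ext h k1 fun a ha => ?_
    simp only [Φ, ← k1, ha, Option.map_some, Option.some.injEq, Prod.mk.injEq, true_and] at k
    exact mul_left_cancel₀ h0 k
  have key : ∀ (P : Place κ L) (a : κ), C.pr P = some a →
      (γ • P = P ↔ a ^ Q = a ∧ (δ * P.val C.y) ^ Q = δ * P.val C.y) := fun P a ha => by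
    have k1 := C.pr_smul hx P
    rw [ha, Option.map_some, hγ.c] at k1
    have k2 := val_smul γ P (C.y_mem ha).1
    rw [hy, Place.val_mul ((γ • P).2.2 _) (C.y_mem k1).1, Place.val_const, hγ.c] at k2
    rw [mul_pow, hδe, ← k2]
    constructor
    · intro k
      rw [k] at k1 ⊢
      exact ⟨Option.some.inj (k1.symm.trans ha), by linear_combination δ * P.val C.y * he⟩
    · rintro ⟨k3, k4⟩
      refine CubT_ext h (by rw [k1, k3, ha]) fun _ _ => mul_left_cancel₀ h0 ?_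
      linear_combination k4 - δ * (γ • P).val C.y * he
  have im : Φ '' {P : Place κ L | γ • P = P} = insert none (some ''
      {z : κ × κ | z.2 ^ 2 = d * C.f.eval z.1 ∧ z.1 ^ Q = z.1 ∧ z.2 ^ Q = z.2}) := by
    ext z
    constructor
    · rintro ⟨P, hP, rfl⟩
      cases ha : C.pr P with
      | none => exact Or.inl (by simp only [Φ, ha, Option.map_none])
      | some a =>
        refine Or.inr ⟨(a, δ * P.val C.y), ⟨?_, (key P a ha).1 hP⟩, by
          simp only [Φ, ha, Option.map_some]⟩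
        rw [mul_pow, hδ, (C.y_mem ha).2]
    · rintro (rfl | ⟨⟨a, c⟩, ⟨k1, k2⟩, rfl⟩)
      · exact ⟨C.pt none, C.smul_inf hx, by simp only [Φ, C.pr_pt, Option.map_none]⟩
      · obtain ⟨P, ⟨k3, k4⟩, -⟩ := h.pt_bij (a := a) (b := c / δ) (by
          rw [div_pow, div_eq_iff (pow_ne_zero 2 h0), hδ, mul_comm]
          exact k1)
        have k5 : δ * P.val C.y = c := by rw [k4, mul_div_cancel₀ _ h0]
        exact ⟨P, (key P a k3).2 (by rw [k5]; exact k2), by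
          simp only [Φ, k3, Option.map_some, k5]⟩
  have fin := (fix_finite hγ).image Φ
  rw [← Set.ncard_image_of_injective _ inj, im, Set.ncard_insert_of_notMem (by simp)
    ((im ▸ fin).subset (Set.subset_insert _ _)),
    Set.ncard_image_of_injective _ (Option.some_injective _), add_comm, affN]

theorem Spt.trace (h : C.Spt A) (hγ : IsFr p γ Q) (hx : sl γ C.x = C.x)
    (hy : sl γ C.y = algebraMap κ L e * C.y) (he : e ^ 2 = 1) (hδ : δ ^ 2 = d) (h0 : δ ≠ 0)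
    (hδe : δ ^ Q = e * δ) (J : ℕ) :
    HasTr (2 ^ (J + 1)) (tors (Pic κ L) (2 ^ (J + 1))) (pa γ)
      ((Q : ZMod (2 ^ (J + 1))) - (affN C.f d Q : ℕ)) := by
  have k := thmA (Nat.cast_ofNat (R := κ) (n := 2) ▸ C.three_ne) hγ J
  rwa [h.fix_card hγ hx hy he hδ h0 hδe, Nat.cast_add, Nat.cast_one, add_sub_add_left_eq_sub] at k

end Cub

end Pool.Agent.Hyp
end
end

-- merged part: Pool.Agent.Work.MP_60d5ce_nt.Hy.WeX
section
/-!
# The Weil pairing of the two-torsion points of `y ^ 2 = ∏ (x - A i)`  (task HY WeX)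

`ll = 2` (reducible), `n = Fintype.card ι` is odd (`Spt.card`), `C.ω = -1`.  `2 ≠ 0` in `𝕜` is `C.three_ne`.
* `we_e1`: `a = A i`, `b = A j`, `o = C.pt none`, `P c = C.pt (some c)`.  `KD 2 (x - a) (P a - o)` (`ord_sub`, `ram_pt`, `eq_pt`; see the proof of `kum_e1`).  `E = dv (y - 1) - n • (P b - o)`, `g = (y - 1) ^ 2 / (x - b) ^ n`,
  `KD 2 g E`, `cl E = - n • e1 b = e1 b`.  The divisor of `y - 1`: at `o` the order is `- n` (`2 ord y = ord f (x)`, `ord_aeval_inf`); at a place `Q` with `pr Q = some ξ` it is zero unless `val y = 1`, and then `y + 1` is a unit, `Q` is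
  not ramified (`ram_root`), and the order is that of `(y - 1) (y + 1) = aeval x (f - 1)`, the multiplicity of `ξ` in `f - 1` (`ord_aeval`).  For each root `ξ` of `f - 1` there is exactly one such place (`pr_surj`, `y_mem`, `pr_s`, `val_smul`, `eq_of_val`).
  So `evD E (x - a) = ∏ (ξ - a) / (b - a) ^ n` with `∏ (ξ - a) = (-1) ^ n (f - 1)(a) = 1` (product over the roots with multiplicity), and `evD (P a - o) g = (a - b) ^ (-n) / 1`: the value of `g` at `o` is one, since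
  `y ^ 2 / (x - b) ^ n = ∏ (x - A l) / (x - b)`, each factor `1 + (b - A l) / (x - b)` has the value one, and `(y - 1) / y` has the value one.  `we_eq`.
* `we_self`: the sum of all `e1 (A i)` is zero (`cls_eq_zero` for the constant function one), `we_add_left`, `we_pow`.
* `nondeg`: `Spt.two`; the pairing of `cls m` with `e1 (A j)` is `(-1) ^ (∑ i ≠ j, m i)`.
* `card_two`: `cls` is a homomorphism onto the two-torsion with the kernel `{0, 1}`.  `rank`, `card_tors`: `TateI.card_tors`, `exists_tate_pic`.  `exists_symp`: `exists_sympT`, `rank`, `subst`.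
-/

namespace Pool.Agent.Hyp

open PR0 Polynomial Pool.Agent.Ell.AT Pool.Agent.Quad Pool.Agent.Lef

variable {𝕜 L : Type} [Field 𝕜] [Field L] [Algebra 𝕜 L] [IsAlgClosed 𝕜] [Fact (IsFF 𝕜 L)]
  {ι : Type} [Fintype ι] {C : Cub 𝕜 L} {A : ι → 𝕜}

namespace Cub

omit [IsAlgClosed 𝕜] [Fact (IsFF 𝕜 L)] in
theorem WeX_two (C : Cub 𝕜 L) : (2 : 𝕜) ≠ 0 := by exact_mod_cast C.three_ne

theorem Spt.WeX_odd (h : C.Spt A) : Odd (Fintype.card ι) :=
  Nat.odd_iff.2 (Nat.two_dvd_ne_zero.1 h.card)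

omit [IsAlgClosed 𝕜] [Fact (IsFF 𝕜 L)] in
theorem Spt.WeX_monic (h : C.Spt A) : C.f.Monic := by
  rw [h.eq]
  exact monic_prod_of_monic _ _ fun i _ => monic_X_sub_C _

omit [IsAlgClosed 𝕜] [Fact (IsFF 𝕜 L)] in
theorem Spt.WeX_deg (h : C.Spt A) : C.f.natDegree = Fintype.card ι := by
  rw [h.eq, natDegree_prod_of_monic _ _ fun i _ => monic_X_sub_C (A i),
    Finset.sum_congr rfl fun i _ => natDegree_X_sub_C (A i), Finset.sum_const, smul_eq_mul,
    mul_one, Finset.card_univ]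

theorem WeX_inf {P : Place 𝕜 L} : C.pt none = P ↔ C.pr P = none :=
  ⟨fun e => e ▸ C.pr_pt _, fun e => e ▸ C.eq_pt (C.ram_of fun b' h' => by simp [e] at h')⟩

open scoped Classical in
theorem WeX_kd {b : 𝕜} (h : C.Sim b) : dv 𝕜 (C.x - algebraMap 𝕜 L b) =
    2 • (Finsupp.single (C.pt (some b)) 1 - Finsupp.single (C.pt none) 1) := by
  ext P
  have h1 : (C.pt (some b) = P) ↔ C.pr P = some b :=
    ⟨fun e => e ▸ C.pr_pt _, fun e => e ▸ C.eq_pt (C.ram_of fun b' h' => by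
      rw [e, Option.some_inj] at h'
      exact h' ▸ h)⟩
  rw [dv_apply (C.x_sub_ne b), C.ord_sub, Finsupp.smul_apply, Finsupp.sub_apply,
    Finsupp.single_apply, Finsupp.single_apply]
  simp only [h1, WeX_inf]
  by_cases a1 : C.pr P = none
  · have : C.Ram P := WeX_inf.2 a1 ▸ C.ram_inf
    simp [a1, ex, this]
  · by_cases a2 : C.pr P = some b
    · have : C.Ram P := h1.2 a2 ▸ C.ram_pt h
      simp [a2, ex, this]
    · simp [a1, a2]

theorem WeX_ordy (C : Cub 𝕜 L) : (C.pt none).ord C.y = -(C.f.natDegree : ℤ) := by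
  have h1 := C.CubP_ord_y (C.pt none)
  rw [C.ord_aeval_inf (C.pr_pt _) C.f_ne, ← mul_neg] at h1
  exact mul_left_cancel₀ ll_ne_zeroZ h1

omit [IsAlgClosed 𝕜] [Fact (IsFF 𝕜 L)] in
theorem WeX_pos (C : Cub 𝕜 L) : 0 < C.f.natDegree :=
  Nat.pos_of_ne_zero fun e => C.deg (e ▸ dvd_zero _)

theorem WeX_unit (C : Cub 𝕜 L) : (1 - C.y⁻¹ ≠ 0 ∧ (C.pt none).ord (1 - C.y⁻¹) = 0) ∧
    (C.pt none).val (1 - C.y⁻¹) = 1 := by
  have := Ev_odd
  have h := RecE_inf (Q := C.pt none) (v := C.y) (by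
    rw [Place.ord_inv _ C.y_ne, WeX_ordy, neg_neg]
    exact_mod_cast C.WeX_pos) 1
  rwa [map_one, one_mul] at h

omit [IsAlgClosed 𝕜] [Fact (IsFF 𝕜 L)] in
theorem WeX_fac (C : Cub 𝕜 L) : C.y - 1 = C.y * (1 - C.y⁻¹) := by
  rw [mul_sub, mul_one, mul_inv_cancel₀ C.y_ne]

theorem WeX_ne (C : Cub 𝕜 L) : C.y - 1 ≠ 0 := by
  rw [WeX_fac]
  exact mul_ne_zero C.y_ne C.WeX_unit.1.1

omit [IsAlgClosed 𝕜] [Fact (IsFF 𝕜 L)] in
theorem WeX_g (C : Cub 𝕜 L) : C.f - 1 ≠ 0 := fun e => by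
  have h := C.WeX_pos
  rw [sub_eq_zero.1 e, natDegree_one] at h
  exact lt_irrefl _ h

theorem WeX_lift (C : Cub 𝕜 L) (ξ : 𝕜) :
    ∃ Q : Place 𝕜 L, C.f.eval ξ = 1 → C.pr Q = some ξ ∧ Q.val C.y = 1 := by
  obtain ⟨P, hP⟩ := C.pr_surj (some ξ)
  by_cases h : P.val C.y = 1
  · exact ⟨P, fun _ => ⟨hP, h⟩⟩
  refine ⟨C.s • P, fun e => ⟨(C.pr_s P).trans hP, ?_⟩⟩
  have h1 := C.CubP_val_s hP
  have h2 := (C.y_mem hP).2
  rw [e] at h2
  rw [C.hω.eq_neg_one_of_two_right,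
    (mul_self_eq_one_iff.1 ((pow_two _).symm.trans h2)).resolve_left h] at h1
  linear_combination -h1

open scoped Classical in
theorem WeX_dv {φ : 𝕜 → Place 𝕜 L}
    (hφ : ∀ ξ, C.f.eval ξ = 1 → C.pr (φ ξ) = some ξ ∧ (φ ξ).val C.y = 1) :
    dv 𝕜 (C.y - 1) = ∑ ξ ∈ (C.f - 1).roots.toFinset,
      Finsupp.single (φ ξ) ((C.f - 1).rootMultiplicity ξ : ℤ) -
        C.f.natDegree • Finsupp.single (C.pt none) 1 := by
  have hr : ∀ {ξ}, ξ ∈ (C.f - 1).roots.toFinset ↔ C.f.eval ξ = 1 := fun {ξ} => by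
    rw [Multiset.mem_toFinset, mem_roots C.WeX_g, IsRoot.def, eval_sub, eval_one, sub_eq_zero]
  ext Q
  rw [dv_apply C.WeX_ne, Finsupp.sub_apply, Finsupp.finsetSum_apply, Finsupp.smul_apply]
  cases hQ : C.pr Q with
  | none =>
    rw [Finset.sum_eq_zero fun ξ hξ => Finsupp.single_eq_of_ne' fun e => by
      have := (hφ ξ (hr.1 hξ)).1
      rw [e, hQ] at this
      cases this]
    rw [← WeX_inf.2 hQ, WeX_fac, Place.ord_mul _ C.y_ne C.WeX_unit.1.1, C.WeX_unit.1.2, WeX_ordy]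
    simp
  | some ξ =>
    obtain ⟨m1, m2⟩ := C.y_mem hQ
    have n0 : C.pt none ≠ Q := fun e => by
      rw [WeX_inf.1 e] at hQ
      cases hQ
    rw [Finsupp.single_eq_of_ne' n0, smul_zero, sub_zero]
    by_cases hv : Q.val C.y = 1
    · rw [hv, one_pow] at m2
      have n1 : ¬ C.f.IsRoot ξ := fun e => one_ne_zero (m2.trans e)
      rw [Finset.sum_eq_single ξ (fun ξ' h' hne => Finsupp.single_eq_of_ne' fun e => by
        have := (hφ ξ' (hr.1 h')).1
        rw [e, hQ] at this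
        exact hne (Option.some_inj.1 this).symm) fun h' => absurd (hr.2 m2.symm) h',
        C.eq_of_val n1 (hφ ξ m2.symm).1 hQ ((hφ ξ m2.symm).2.trans hv.symm), Finsupp.single_eq_same]
      have u := RecE_sub m1 (-1)
      rw [hv, map_neg, map_one, sub_neg_eq_add, sub_neg_eq_add, one_add_one_eq_two] at u
      have u2 := CubP_unit u.1 (by rw [u.2]; exact C.WeX_two)
      have h1 := C.ord_aeval hQ C.WeX_g
      rw [C.CubP_ex_not fun e => n1 (C.ram_root e hQ), one_mul, map_sub, map_one, ← C.eq,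
        show C.y ^ ll - 1 = (C.y - 1) * (C.y + 1) by ring, Place.ord_mul _ C.WeX_ne u2.1, u2.2,
        add_zero] at h1
      exact h1
    · have u := RecE_sub m1 1
      rw [map_one] at u
      rw [(CubP_unit u.1 (by rw [u.2]; exact sub_ne_zero.2 hv)).2]
      exact (Finset.sum_eq_zero fun ξ' h' => Finsupp.single_eq_of_ne' fun e =>
        hv (by rw [← (hφ ξ' (hr.1 h')).2, e])).symm

theorem WeX_sum {κ : Type} (T : Finset κ) (φ : κ → Place 𝕜 L) (m : κ → ℤ) {u : L} (hu : u ≠ 0)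
    (h : ∀ ξ ∈ T, (φ ξ).ord u = 0) : Off (∑ ξ ∈ T, Finsupp.single (φ ξ) (m ξ)) u ∧
      evD (∑ ξ ∈ T, Finsupp.single (φ ξ) (m ξ)) u = ∏ ξ ∈ T, (φ ξ).val u ^ m ξ := by
  classical
  induction T using Finset.induction_on with
  | empty => exact ⟨⟨hu, fun P hP => absurd rfl hP⟩, evD_zero _⟩
  | insert a T ha ih =>
    obtain ⟨h1, h2⟩ := ih fun ξ hξ => h ξ (Finset.mem_insert_of_mem hξ)
    have h3 : Off (Finsupp.single (φ a) (m a)) u := ⟨hu, fun P hP => by
      by_contra h4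
      exact hP (Finsupp.single_eq_of_ne' fun e => h4 (e ▸ h a (Finset.mem_insert_self _ _)))⟩
    rw [Finset.sum_insert ha, Finset.prod_insert ha, evD_add h3 h1, evD_single, h2]
    exact ⟨h3.add h1, rfl⟩

omit [IsAlgClosed 𝕜] [Fact (IsFF 𝕜 L)] in
theorem WeX_off {P : Place 𝕜 L} {u : L} (hu : u ≠ 0) (h : P.ord u = 0) :
    Off (Finsupp.single P 1) u := ⟨hu, fun Q hQ => by
  by_contra h4
  exact hQ (Finsupp.single_eq_of_ne' fun e => h4 (e ▸ h))⟩

theorem Spt.WeX_val (h : C.Spt A) (b : 𝕜) :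
    (C.pt none).ord ((C.y - 1) ^ 2 / (C.x - algebraMap 𝕜 L b) ^ Fintype.card ι) = 0 ∧
      (C.pt none).val ((C.y - 1) ^ 2 / (C.x - algebraMap 𝕜 L b) ^ Fintype.card ι) = 1 := by
  have := Ev_odd
  have h0 : 0 < (C.pt none).ord (C.x - algebraMap 𝕜 L b)⁻¹ := by
    rw [Place.ord_inv _ (C.x_sub_ne b), C.ord_sub, if_pos (C.pr_pt _), neg_neg]
    exact C.CubP_ex_pos _
  have h1 := fun l => RecE_inf h0 (A l - b)
  have h2 := RecE_val_prod (C.pt none) Finset.univ _ (fun _ => 1) fun l _ => (h1 l).1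
  simp only [zpow_one, (h1 _).2, Finset.prod_const_one] at h2
  have h3 := Finset.prod_ne_zero_iff.2 fun l (_ : l ∈ Finset.univ) => (h1 l).1.1
  obtain ⟨⟨u1, u2⟩, u3⟩ := C.WeX_unit
  have e : (C.y - 1) ^ 2 / (C.x - algebraMap 𝕜 L b) ^ Fintype.card ι =
      (∏ l, (1 - algebraMap 𝕜 L (A l - b) * (C.x - algebraMap 𝕜 L b)⁻¹)) * (1 - C.y⁻¹) ^ 2 := by
    rw [WeX_fac, mul_pow, C.eq, h.eq, map_prod, mul_div_right_comm, ← Finset.card_univ,
      ← Finset.prod_const, ← Finset.prod_div_distrib]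
    congr 1
    refine Finset.prod_congr rfl fun l _ => ?_
    have := C.x_sub_ne b
    rw [map_sub, map_sub, aeval_X, aeval_C]
    field_simp
    ring
  have u4 : (C.pt none).ord ((1 - C.y⁻¹) ^ 2) = 0 := by rw [Place.ord_pow _ u1, u2, mul_zero]
  rw [e, Place.ord_mul _ h3 (pow_ne_zero _ u1), Sy_mul h3 (pow_ne_zero _ u1) h2.1 u4,
    Sy_pow u1 u2, h2.1, h2.2, u3, u4]
  simp

theorem Spt.we_e1 (h : C.Spt A) {i j : ι} (hij : i ≠ j) :
    we 2 (C.e1 (A i)) (C.e1 (A j)) = -1 := by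
  classical
  have := Ev_odd
  choose φ hφ using C.WeX_lift
  have hab : A i - A j ≠ 0 := sub_ne_zero.2 fun e => hij (h.inj e)
  have hx : algebraMap 𝕜 L (A i) - C.x ≠ 0 := sub_ne_zero.2 (sub_ne_zero.1 (C.x_sub_ne _)).symm
  have hv : ∀ {Q : Place 𝕜 L} {ξ : 𝕜}, C.pr Q = some ξ → algebraMap 𝕜 L (A i) - C.x ∈ Q.1 ∧
      Q.val (algebraMap 𝕜 L (A i) - C.x) = A i - ξ := fun hQ => by
    have u := C.val_aeval hQ (Polynomial.C (A i) - X)
    rwa [map_sub, aeval_C, aeval_X, eval_sub, eval_C, eval_X] at u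
  have hr : ∀ {ξ}, ξ ∈ (C.f - 1).roots.toFinset → C.f.eval ξ = 1 := fun {ξ} => by
    rw [Multiset.mem_toFinset, mem_roots C.WeX_g, IsRoot.def, eval_sub, eval_one, sub_eq_zero]
    exact id
  obtain ⟨o1, e1⟩ := WeX_sum (C.f - 1).roots.toFinset φ
    (fun ξ => ((C.f - 1).rootMultiplicity ξ : ℤ)) hx fun ξ hξ => by
      have u := hv (hφ ξ (hr hξ)).1
      refine (CubP_unit u.1 ?_).2
      rw [u.2]
      exact sub_ne_zero.2 fun e => zero_ne_one ((h.root i).symm.trans (e ▸ hr hξ))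
  have e2 : ∏ ξ ∈ (C.f - 1).roots.toFinset, (φ ξ).val (algebraMap 𝕜 L (A i) - C.x) ^
      ((C.f - 1).rootMultiplicity ξ : ℤ) = -1 := by
    have hm : (C.f - 1).Monic := h.WeX_monic.sub_of_left (by
      rw [degree_one]
      exact natDegree_pos_iff_degree_pos.1 C.WeX_pos)
    have h1 := congrArg (eval (A i)) ((IsAlgClosed.splits (C.f - 1)).eq_prod_roots_of_monic hm)
    rw [eval_sub, eval_one, (h.root i).eq_zero, zero_sub, eval_multiset_prod, Multiset.map_map,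
      Finset.prod_multiset_map_count] at h1
    rw [h1]
    refine Finset.prod_congr rfl fun ξ hξ => ?_
    rw [(hv (hφ ξ (hr hξ)).1).2, zpow_natCast, count_roots]
    simp
  rw [e2] at e1
  have hd := WeX_dv hφ
  generalize ∑ ξ ∈ (C.f - 1).roots.toFinset,
    Finsupp.single (φ ξ) ((C.f - 1).rootMultiplicity ξ : ℤ) = F at o1 e1 hd
  rw [h.WeX_deg] at hd
  have ub := hv (C.pr_pt (some (A j)))
  have o2 := WeX_off hx (CubP_unit ub.1 (by rw [ub.2]; exact hab)).2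
  have k1 : KD 2 (algebraMap 𝕜 L (A i) - C.x)
      (Finsupp.single (C.pt (some (A i))) 1 - Finsupp.single (C.pt none) 1) := ⟨hx, by
    rw [← WeX_kd (h.sim i)]
    ext P
    rw [dv_apply hx, dv_apply (C.x_sub_ne _), ← neg_sub, Place.ord_neg]⟩
  have g0 := pow_ne_zero 2 C.WeX_ne
  have g1 := pow_ne_zero (Fintype.card ι) (C.x_sub_ne (A j))
  have k2 : KD 2 ((C.y - 1) ^ 2 / (C.x - algebraMap 𝕜 L (A j)) ^ Fintype.card ι)
      (F - Fintype.card ι • Finsupp.single (C.pt (some (A j))) 1) := ⟨div_ne_zero g0 g1, by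
    rw [dv_div g0 g1, dv_pow C.WeX_ne, dv_pow (C.x_sub_ne _), hd, WeX_kd (h.sim j)]
    module⟩
  have c2 : cl (F - Fintype.card ι • Finsupp.single (C.pt (some (A j))) 1) = C.e1 (A j) := by
    obtain ⟨k, hk⟩ := h.WeX_odd
    have t : 2 • C.e1 (A j) = 0 := (C.kum_e1 (h.sim j)).tors
    have h1 : F - Fintype.card ι • Finsupp.single (C.pt (some (A j))) 1 = dv 𝕜 (C.y - 1) -
        Fintype.card ι • (Finsupp.single (C.pt (some (A j))) 1 - Finsupp.single (C.pt none) 1) := by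
      rw [hd]
      module
    rw [h1, map_sub, cl_dv, map_nsmul, zero_sub, neg_eq_iff_add_eq_zero, ← Cub.e1, ← succ_nsmul, hk,
      show 2 * k + 1 + 1 = (k + 1) * 2 by ring, mul_smul, t, smul_zero]
  have o3 := o1.sub (o2.nsmul (Fintype.card ι))
  have dj : Dj (Finsupp.single (C.pt (some (A i))) 1 - Finsupp.single (C.pt none) 1)
      (F - Fintype.card ι • Finsupp.single (C.pt (some (A j))) 1) := fun P => by
    refine ((off_iff.1 o3).2 P).symm.imp_left fun e => ?_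
    rw [k1.2, Finsupp.smul_apply, smul_eq_zero] at e
    exact e.resolve_left two_ne_zero
  obtain ⟨v1, v2⟩ := h.WeX_val (A j)
  obtain ⟨m1, m2⟩ := C.y_mem (C.pr_pt (some (A i)))
  rw [(h.root i).eq_zero, pow_eq_zero_iff ll_ne_zero] at m2
  have w1 := RecE_sub m1 1
  rw [map_one, m2, zero_sub] at w1
  have w2 := (CubP_unit w1.1 (by rw [w1.2]; exact neg_ne_zero.2 one_ne_zero)).2
  obtain ⟨n1, n2⟩ := C.CubP_some.1 (C.pr_pt (some (A i)))
  have w3 := RecE_sub n1 (A j)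
  rw [n2] at w3
  have w4 := (CubP_unit w3.1 (by rw [w3.2]; exact hab)).2
  have o4 := WeX_off C.WeX_ne w2
  have o5 := WeX_off (C.x_sub_ne (A j)) w4
  rw [← c2, Cub.e1, we_eq two_ne_zero k1 k2 dj, evD_sub o1 (o2.nsmul _), e1, evD_nsmul, evD_single,
    evD_sub ((o4.pow _).div (o5.pow _)) (WeX_off k2.1 v1), evD_div (o4.pow _) (o5.pow _),
    evD_pow o4, evD_pow o5, evD_single, evD_single, evD_single, ub.2, w1.2, w3.2, v2]
  have := pow_ne_zero (Fintype.card ι) hab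
  simp only [zpow_one]
  field_simp

theorem Spt.WeX_tors (h : C.Spt A) (i : ι) : 2 • C.e1 (A i) = 0 := (C.kum_e1 (h.sim i)).tors

theorem Spt.WeX_cls (h : C.Spt A) (m : ι → F2) {b : Pic 𝕜 L} (hb : 2 • b = 0) :
    we 2 (C.cls A m) b = ∏ i, we 2 (C.e1 (A i)) b ^ (m i).val := by
  classical
  have key : ∀ s : Finset ι, 2 • ∑ i ∈ s, (m i).val • C.e1 (A i) = 0 ∧
      we 2 (∑ i ∈ s, (m i).val • C.e1 (A i)) b = ∏ i ∈ s, we 2 (C.e1 (A i)) b ^ (m i).val := by
    intro s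
    induction s using Finset.induction_on with
    | empty => exact ⟨smul_zero _, WeT_zero two_ne_zero hb⟩
    | insert a s ha ih =>
      have t : 2 • (m a).val • C.e1 (A a) = 0 := by rw [smul_comm, h.WeX_tors, smul_zero]
      rw [Finset.sum_insert ha, Finset.prod_insert ha, we_add_left two_ne_zero t ih.1 hb, ih.2,
        WeT_left two_ne_zero (h.WeX_tors a) hb, smul_add, t, ih.1]
      exact ⟨add_zero _, rfl⟩
  exact (key _).2

theorem Spt.we_self (h : C.Spt A) (i : ι) : we 2 (C.e1 (A i)) (C.e1 (A i)) = 1 := by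
  classical
  have h1 := h.WeX_cls (fun _ => 1) (h.WeX_tors i)
  rw [h.cls_eq_zero.2 fun _ _ => rfl, WeT_zero two_ne_zero (h.WeX_tors i),
    ← Finset.mul_prod_erase _ _ (Finset.mem_univ i), Finset.prod_congr rfl fun l hl => by
      rw [h.we_e1 (Finset.ne_of_mem_erase hl)], Finset.prod_const,
    Finset.card_erase_of_mem (Finset.mem_univ i), Finset.card_univ, ZMod.val_one, pow_one, pow_one,
    (Nat.Odd.sub_odd h.WeX_odd odd_one).neg_one_pow, mul_one] at h1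
  exact h1.symm

theorem Spt.nondeg (h : C.Spt A) (c : Pic 𝕜 L) (hc : 2 • c = 0)
    (h1 : ∀ b, 2 • b = 0 → we 2 c b = 1) : c = 0 := by
  classical
  obtain ⟨m, rfl⟩ := h.two hc
  have key : ∀ j, m j = ∑ i, m i := fun j => by
    have h2 := h1 _ (h.WeX_tors j)
    rw [h.WeX_cls m (h.WeX_tors j), ← Finset.mul_prod_erase _ _ (Finset.mem_univ j), h.we_self,
      one_pow, one_mul, Finset.prod_congr rfl fun l hl => by
        rw [h.we_e1 (Finset.ne_of_mem_erase hl)], Finset.prod_pow_eq_pow_sum,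
      neg_one_pow_eq_one_iff_even fun e => C.WeX_two (by linear_combination -e),
      ← ZMod.natCast_eq_zero_iff_even, Nat.cast_sum] at h2
    simp only [ZMod.natCast_zmod_val] at h2
    rw [← Finset.add_sum_erase _ _ (Finset.mem_univ j), h2, add_zero]
  exact h.cls_eq_zero.2 fun i j => (key i).trans (key j).symm

theorem Spt.card_two (h : C.Spt A) :
    2 * (tors (Pic 𝕜 L) 2 : Set (Pic 𝕜 L)).ncard = 2 ^ Fintype.card ι := by
  classical
  let φ : (ι → F2) →+ Pic 𝕜 L := AddMonoidHom.mk' (C.cls A) h.cls_add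
  have h1 : φ.range = tors (Pic 𝕜 L) 2 := by
    ext c
    refine ⟨?_, fun hc => ?_⟩
    · rintro ⟨n, rfl⟩
      exact (h.kum n).tors
    · obtain ⟨n, hn⟩ := h.two (mem_tors.1 hc)
      exact ⟨n, hn.symm⟩
  obtain ⟨i⟩ : Nonempty ι := Fintype.card_pos_iff.1 h.WeX_odd.pos
  have h2 : Nat.card φ.ker = 2 := by
    exact (Nat.card_congr ⟨fun n => n.1 i, fun a => ⟨fun _ => a, h.cls_eq_zero.2 fun _ _ => rfl⟩,
      fun n => Subtype.ext (funext fun l => h.cls_eq_zero.1 n.2 i l), fun _ => rfl⟩).trans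
      (Nat.card_zmod 2)
  have h3 := φ.ker.card_mul_index
  rw [h2, AddSubgroup.index_ker, h1, Nat.card_fun, Nat.card_zmod, Nat.card_eq_fintype_card (α := ι)]
    at h3
  rw [← h3, ← Nat.card_coe_set_eq]
  rfl

theorem Spt.rank (h : C.Spt A) {I : Type} [Fintype I] [DecidableEq I] (B : TateI I (Pic 𝕜 L)) :
    Fintype.card I + 1 = Fintype.card ι := by
  have h1 := h.card_two
  have h2 := (B.card_tors 1).2
  rw [pow_one] at h2
  rw [h2, ← pow_succ'] at h1
  exact Nat.pow_right_injective le_rfl h1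

theorem Spt.card_tors (h : C.Spt A) (j : ℕ) : (tors (Pic 𝕜 L) (2 ^ j) : Set (Pic 𝕜 L)).Finite ∧
    (tors (Pic 𝕜 L) (2 ^ j) : Set (Pic 𝕜 L)).ncard = (2 ^ j) ^ (Fintype.card ι - 1) := by
  obtain ⟨r, ⟨B⟩⟩ := exists_tate_pic 𝕜 L C.WeX_two
  rw [← h.rank B, Nat.add_sub_cancel]
  exact B.card_tors j

theorem Spt.exists_symp [Par] (h : C.Spt A) (hc : Fintype.card ι = 2 * gg + 1) :
    ∃ B : TateI Ix (Pic 𝕜 L), ∀ (γ : SA 𝕜 L) (u : O), Cyc γ u → ∀ s t,
      ee ((B.mat (pa γ)).mulVec s) ((B.mat (pa γ)).mulVec t) = u * ee s t := by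
  obtain ⟨r, B, hB⟩ := exists_sympT C.WeX_two h.nondeg
  have h1 := h.rank B
  rw [hc, Fintype.card_sum, Fintype.card_fin] at h1
  obtain rfl : r = gg := by omega
  exact ⟨B, hB⟩

end Cub

end Pool.Agent.Hyp
end
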