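import Pool.Agent.Work.MP_60d5ce_nt.Hy.Cube
import Pool.Agent.Work.MP_60d5ce_nt.Qt.Pair

/-!
# The local pairing modulo two, free primes, the level one condition, components

Hints.
* `br_comm`: with `F g = ee (a g) (b g)` the function `F g + F h - F (g * h)` equals the sum of the two cup
  products on `D v` (`ee_rb`), and `inv_cob` applies.  `br_cob_left`: `ee (db t g) (rb g (b h))` is the
  coboundary of `g ↦ ee t (b g)`.
* `br_good`: `a (τ ^ n) = n • a τ`, `LZ.fx`, `basic_sum`, `Q_choose`, `Q_cast`.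
* `cob_of_free`: `n ↦ rb σ n + n` is injective, so onto; `LZ.fx` gives `w τ = 0`; `LZ.eq_on_D`.
* `locOK_of_free`: induction on `j` for functions satisfying the cocycle identity on `D v` and the relation
  modulo `2 ^ j`: the leading digit is `db t` on `D v`; subtract `act g (lftV t) - lftV t`, divide by two.
* `unr_of_free`: `Coc.rel` gives `act σ (ψ τ) = Q • ψ τ` modulo `2 ^ j`; induction on the power of two.
* `URel.cob_of_free`: induction on the cardinality of `B` (construct `t` on all sets of cardinality less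
  than `n`): `g ↦ rb g (uop β g t B) + t B` is a family satisfying `URel` (`uop_mul`, `uop_map`); the
  difference at `B` is a local cocycle (`uop_eq_top`).
* `lls_of_ll`: `LTyp.ram` at `σ`; write `l τ = lftV n + 2 • s`, `sg_eq`.
* `LLs.add`: `lftV (n + n') = lftV n + lftV n' - 2 • lftV (n * n')`.
* `LLs.locCob`: a vector orthogonal to all vectors fixed by a matrix `m` of determinant one over `F2` is
  of the form `m t + t` (`decide` on the entries).
-/

namespace Pool.Agent.Hyp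

open Pool.Agent.Quad

variable [Par]

open scoped Classical

noncomputable section

variable {W P : Type} [Group W] {T : Tame W P}

namespace Rep

variable {R : Rep T} {v : P} {x : W → F2} {lam : O}

section br

variable {a a' b b' : W → Vb}

theorem br_congr (ha : ∀ g ∈ T.D v, a g = a' g) (hb : ∀ g ∈ T.D v, b g = b' g) :
    R.br v a b = R.br v a' b' := by
  exact Tame.inv_congr v fun g hg k hk => by rw [ha g hg, hb k hk]

theorem br_add_left (a a' b : W → Vb) :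
    R.br v (fun g => a g + a' g) b = R.br v a b + R.br v a' b := by
  simp only [br, ee_add_left, Tame.inv_add]

theorem br_add_right (a b b' : W → Vb) :
    R.br v a (fun g => b g + b' g) = R.br v a b + R.br v a b' := by
  simp only [br, Matrix.mulVec_add, ee_add_right, Tame.inv_add]

theorem br_zero_left (ha : ∀ g ∈ T.D v, a g = 0) (b : W → Vb) : R.br v a b = 0 := by
  rw [br_congr (a' := fun _ => 0) (b' := b) ha fun _ _ => rfl]
  simp [br, Pre.inv]

theorem br_zero_right (a : W → Vb) (hb : ∀ g ∈ T.D v, b g = 0) : R.br v a b = 0 := by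
  rw [br_congr (a' := a) (b' := fun _ => 0) (fun _ _ => rfl) hb]
  simp [br, Pre.inv]

theorem br_sum_left {ι : Type*} (s : Finset ι) (f : ι → W → Vb) (b : W → Vb) :
    R.br v (fun g => ∑ i ∈ s, f i g) b = ∑ i ∈ s, R.br v (f i) b := by
  induction s using Finset.induction_on with
  | empty => exact br_zero_left (fun _ _ => rfl) b
  | insert i s hi ih => simp only [Finset.sum_insert hi, br_add_left, ih]

theorem br_sum_right {ι : Type*} (s : Finset ι) (a : W → Vb) (f : ι → W → Vb) :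
    R.br v a (fun g => ∑ i ∈ s, f i g) = ∑ i ∈ s, R.br v a (f i) := by
  induction s using Finset.induction_on with
  | empty => exact br_zero_right a fun _ _ => rfl
  | insert i s hi ih => simp only [Finset.sum_insert hi, br_add_right, ih]

theorem br_comm (ha : R.LZ v a) (hb : R.LZ v b) : R.br v a b = R.br v b a := by
  have h1 := Tame.inv_cob (T := T) v (b := fun g => ee (a g) (b g)) (by rw [ha.2, hb.2])
  rw [← sub_eq_zero, F2_sub, br, br, ← Tame.inv_add, ← h1]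
  refine Tame.inv_congr v fun g hg k hk => ?_
  rw [ha.1 g hg k hk, hb.1 g hg k hk, ee_add_left, ee_add_right, ee_add_right, ee_rb,
    ee_comm (b g)]
  linear_combination (ee (a g) ((R.rb g).mulVec (b k)) + ee ((R.rb g).mulVec (a k)) (b g)) * F2_two

theorem br_cob_left (ha : R.LocCob v a) (hb : R.LZ v b) : R.br v a b = 0 := by
  obtain ⟨t, ht⟩ := ha
  rw [br, ← Tame.inv_cob (T := T) v (b := fun g => ee t (b g)) (by rw [hb.2])]
  refine Tame.inv_congr v fun g hg k hk => ?_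
  rw [ht g hg, hb.1 g hg k hk, Lat.db, ee_add_left, ee_add_right, ee_rb]
  linear_combination ee t ((R.rb g).mulVec (b k)) * F2_two

theorem br_cob_right (ha : R.LZ v a) (hb : R.LocCob v b) : R.br v a b = 0 := by
  rw [br_comm ha hb.lz, br_cob_left hb ha]

theorem br_good (hv : v ∉ R.S) (ha : R.LZ v a) (hb : R.LZ v b) :
    R.br v a b = ee (a (T.σ v)) (b (T.τ v)) + ee (a (T.τ v)) (b (T.σ v)) +
      T.eps * (T.dg v : F2) * ee (a (T.τ v)) (b (T.τ v)) := by
  have h1 : (R.rb (T.σ v)).mulVec (b (T.τ v)) = b (T.τ v) := hb.fx hv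
  simp only [br, Pre.inv, h1, Lat.pair_rb_pow hv, ha.pair_pow hv, Matrix.one_mulVec, ee_smul_left,
    Tame.Q_cast, one_mul, ← Finset.sum_mul, Tame.basic_sum, Tame.Q_choose, F2_sub]

theorem br_unr_left (hv : v ∉ R.S) (ha : R.LZ v a) (hb : R.LZ v b) (h : a (T.τ v) = 0) :
    R.br v a b = ee (a (T.σ v)) (b (T.τ v)) := by
  rw [br_good hv ha hb, h]
  simp

theorem br_free (hv : v ∉ R.S) (hf : R.Free (T.σ v)) (ha : R.LZ v a) (hb : R.LZ v b) :
    R.br v a b = 0 := br_cob_left (ha.cob_of_free hv hf) hb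

/-- reciprocity -/
theorem br_recip (ha : R.Z1 a) (hb : R.Z1 b) {A : Finset P} (hS : R.S ⊆ A)
    (h : ∀ v ∉ A, a (T.τ v) = 0 ∧ b (T.τ v) = 0) : ∑ v ∈ A, R.br v a b = 0 := by
  refine T.recip _ (Tame.sm2_of_sm (Tame.sm_comp₂ ha.1 (Lat.rb_sm (R := R.toLat)) Prod.mk) hb.1
    fun p y => ee p.1 (p.2.mulVec y)) (fun g k l => ?_) A fun v hv => ?_
  · dsimp only
    rw [ha.2, hb.2, Lat.rb_mul, ← Matrix.mulVec_mulVec, Matrix.mulVec_add, ee_add_left,
      ee_add_right, ee_rb]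
    ring
  · refine (br_good (fun hs => hv (hS hs)) (ha.lz v) (hb.lz v)).trans ?_
    rw [(h v hv).1, (h v hv).2]
    simp

/-- the pairing of two local cocycles only depends on their values at `σ v` and `τ v` -/
theorem br_eq_of_vals (ha : R.LZ v a) (ha' : R.LZ v a') (hb : R.LZ v b) (hb' : R.LZ v b')
    (h1 : a (T.σ v) = a' (T.σ v)) (h2 : a (T.τ v) = a' (T.τ v)) (h3 : b (T.σ v) = b' (T.σ v))
    (h4 : b (T.τ v) = b' (T.τ v)) : R.br v a b = R.br v a' b' :=
  br_congr (ha.eq_on_D ha' h1 h2) (hb.eq_on_D hb' h3 h4)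

end br

section lls

variable {w w' : W → Vb} {s : F2} {y y' : Vb}

theorem pair_ee_db {g : W} {n : Vb} (hn : R.Fx g n) (t : Vb) : ee (R.db t g) n = 0 := by
  have h1 := ee_rb (R := R) g t n
  rw [show (R.rb g).mulVec n = n from hn] at h1
  rw [Lat.db, ee_add_left, h1, F2_add_self]

theorem pair_dig (g : W) (m : V) : digV 0 ((R.ρ g).mulVec m - m) = R.db (digV 0 m) g := by
  rw [digV_sub (VD.triv _) (VD.triv _), digV_mulVec _ (VD.triv _), vb_sub]
  rfl

theorem pair_kap {a b e : V} (h : (2 : O) • a = b - R.act x (T.σ v) b - (2 : O) • e)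
    (hb : R.Fx (T.σ v) (digV 0 b)) {n : Vb} (hn : R.Fx (T.σ v) n) :
    ee (digV 0 a + R.kap v (digV 0 b) + x (T.σ v) • digV 0 b + digV 0 e) n = 0 := by
  obtain ⟨m, hm⟩ := (VD_sub_lftV (VD.triv b)).exists
  rw [pow_zero, one_smul, zero_add, pow_one] at hm
  have h1 : lftV (digV 0 b) - (R.ρ (T.σ v)).mulVec (lftV (digV 0 b)) = (2 : O) ^ 1 •
      (a + e + ((R.ρ (T.σ v)).mulVec m - m) - lft (x (T.σ v)) • (R.ρ (T.σ v)).mulVec b) := by
    rw [show lftV (digV 0 b) = b - (2 : O) • m by rw [← hm, sub_sub_cancel], Matrix.mulVec_sub,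
      Matrix.mulVec_smul, pow_one, smul_sub, smul_add, smul_add, h, Lat.act, sg_eq]
    module
  rw [kap, h1, digV_pow_smul, digV_sub (VD.triv _) (VD.triv _), digV_add (VD.triv _) (VD.triv _),
    digV_add (VD.triv _) (VD.triv _), pair_dig, digV_smul _ (VD.triv _), res_lft,
    digV_mulVec _ (VD.triv _), show ((R.ρ (T.σ v)).map res).mulVec (digV 0 b) = digV 0 b from hb]
  simp only [ee_add_left, ee_sub_left, pair_ee_db hn]
  linear_combination (ee (digV 0 a) n + ee (digV 0 e) n) * F2_two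

theorem lls_of_ll (hx : T.IsHom x) (hv : v ∉ R.S) (h1 : x (T.τ v) = 1) (h : R.LL x v w) :
    R.LLs (x (T.σ v)) 0 v w := by
  have h0 := (h.lz hx).fx hv
  obtain ⟨l, h2, h3⟩ := h
  intro n hn
  rw [← h3 _ (Tame.τ_mem v)] at h0
  have h4 := pair_kap (x := x) (e := 0) ((h2.ram hv h1 _ (Tame.σ_mem v)).trans (by simp)) h0 hn
  rw [h3 _ (Tame.τ_mem v), h3 _ (Tame.σ_mem v), digV_of_VD (VD.zero 1)] at h4
  exact h4

theorem lh_of_ll (hx : T.IsHom x) (hv : v ∉ R.S) (h1 : x (T.τ v) = 1) {w : W → H → F2}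
    (h : (R.hat lam).LL x v w) : R.LH (res lam) (x (T.σ v)) v w := by
  have h0 := (h.lz hx).fx hv
  obtain ⟨l, h2, h3⟩ := h
  rw [← h3 _ (Tame.τ_mem v)] at h0
  obtain ⟨k0, k1⟩ := hat_fx_iff.1 h0
  have h4 := h2.ram hv h1 _ (Tame.σ_mem v)
  have e0 : (2 : O) • p0 (l (T.σ v)) =
      p0 (l (T.τ v)) - R.act x (T.σ v) (p0 (l (T.τ v))) - (2 : O) • 0 := by
    rw [smul_zero, sub_zero, ← p0_act (lam := lam)]
    exact congrArg p0 h4
  have e1 : (2 : O) • p1 (l (T.σ v)) = p1 (l (T.τ v)) - R.act x (T.σ v) (p1 (l (T.τ v))) -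
      (2 : O) • (lam * (T.deg (T.σ v) : O)) • R.act x (T.σ v) (p0 (l (T.τ v))) := by
    rw [smul_smul, ← mul_assoc, sub_sub, ← p1_act]
    exact congrArg p1 h4
  refine ⟨fun n hn => ?_, fun n hn => ?_⟩
  · have h5 := pair_kap e0 k0 hn
    rw [digV_of_VD (VD.zero 1)] at h5
    beta_reduce
    rw [← h3 _ (Tame.τ_mem v), ← h3 _ (Tame.σ_mem v)]
    exact h5
  · have h5 := pair_kap e1 k1 hn
    rw [digV_smul _ (VD.triv _), Lat.digV_act (VD.triv _), map_mul, map_intCast, T.deg_σ,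
      Int.cast_natCast, show (R.rb (T.σ v)).mulVec (digV 0 (p0 (l (T.τ v)))) =
        p0 (digV 0 (l (T.τ v))) from k0] at h5
    beta_reduce
    rw [← h3 _ (Tame.τ_mem v), ← h3 _ (Tame.σ_mem v)]
    exact h5

theorem pair_lft_add (a b : F2) : lft (a + b) = lft a + lft b - 2 * lft (a * b) := by
  rcases F2_cases a with rfl | rfl <;> rcases F2_cases b with rfl | rfl <;> simp [F2_add_self]
  norm_num

theorem pair_kap_add {n n' : Vb} (hn : R.Fx (T.σ v) n) (hn' : R.Fx (T.σ v) n') :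
    R.kap v (n + n') = R.kap v n + R.kap v n' + R.db (n * n') (T.σ v) := by
  have h1 : ∀ n, R.Fx (T.σ v) n → VD 1 (lftV n - (R.ρ (T.σ v)).mulVec (lftV n)) := fun n hn => by
    rw [← neg_sub]
    refine ((digV_eq_zero_iff (VD.triv _)).1 ?_).neg
    rw [pair_dig, digV_lftV, Lat.db, show (R.rb (T.σ v)).mulVec n = n from hn, vb_add_self]
  have h2 : lftV (n + n') = lftV n + lftV n' - (2 : O) • lftV (n * n') :=
    funext fun i => pair_lft_add (n i) (n' i)
  have h3 : lftV (n + n') - (R.ρ (T.σ v)).mulVec (lftV (n + n')) =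
      lftV n - (R.ρ (T.σ v)).mulVec (lftV n) + (lftV n' - (R.ρ (T.σ v)).mulVec (lftV n')) +
        (2 : O) ^ 1 • ((R.ρ (T.σ v)).mulVec (lftV (n * n')) - lftV (n * n')) := by
    rw [h2, Matrix.mulVec_sub, Matrix.mulVec_add, Matrix.mulVec_smul, pow_one]
    module
  rw [kap, h3, digV_add ((h1 n hn).add (h1 n' hn')) (VD_pow_smul 1 _),
    digV_add (h1 n hn) (h1 n' hn'), digV_pow_smul, pair_dig, digV_lftV]
  rfl

theorem LLs.add (hv : v ∉ R.S) (hw : R.LZ v w) (hw' : R.LZ v w') (h : R.LLs s y v w)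
    (h' : R.LLs s y' v w') : R.LLs s (y + y') v (w + w') := by
  intro n hn
  have h1 := h n hn
  have h2 := h' n hn
  simp only [Pi.add_apply, pair_kap_add (hw.fx hv) (hw'.fx hv), smul_add, ee_add_left,
    pair_ee_db hn] at h1 h2 ⊢
  linear_combination h1 + h2

theorem LH.add {d : F2} {w w' : W → H → F2} (hv : v ∉ R.S) (hw : (R.hat lam).LZ v w)
    (hw' : (R.hat lam).LZ v w') (h : R.LH d s v w) (h' : R.LH d s v w') :
    R.LH d s v (w + w') := by
  have h1 := LLs.add hv (hat_lz_iff.1 hw).1 (hat_lz_iff.1 hw').1 h.1 h'.1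
  have h2 := LLs.add hv (hat_lz_iff.1 hw).2 (hat_lz_iff.1 hw').2 h.2 h'.2
  rw [add_zero] at h1
  rw [← smul_add] at h2
  exact ⟨h1, h2⟩

theorem kap_zero : R.kap v 0 = 0 := by
  have h1 : lftV (0 : Vb) = 0 := funext fun _ => lft_zero
  rw [kap, h1, Matrix.mulVec_zero, sub_zero]
  exact digV_of_VD (VD.zero 2)

theorem lls_db (hv : v ∉ R.S) (t : Vb) : R.LLs s 0 v (R.db t) := by
  intro n hn
  rw [Lat.db_of_rb (Lat.rb_unr hv), kap_zero, smul_zero, add_zero, add_zero, add_zero]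
  exact pair_ee_db hn t

theorem LLs.pair_sigma (h : R.LLs s 0 v w) (h0 : w (T.τ v) = 0) (n : Vb) (hn : R.Fx (T.σ v) n) :
    ee (w (T.σ v)) n = 0 := by
  have h1 := h n hn
  rwa [h0, kap_zero, smul_zero, add_zero, add_zero, add_zero] at h1

theorem LLs.locCob (hv : v ∉ R.S) (hw : R.LZ v w) (h : R.LLs s 0 v w) (h0 : w (T.τ v) = 0) :
    R.LocCob v w := by
  obtain ⟨t, ht⟩ := pair_orth _ (ee_rb (R := R) (T.σ v)) _ (h.pair_sigma h0)
  exact ⟨t, hw.eq_on_D ((Lat.z1_db t).lz v) ht (h0.trans (Lat.db_of_rb (Lat.rb_unr hv) t).symm)⟩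

theorem LLs.sigma_zero (hs : R.rb (T.σ v) = 1) (h : R.LLs s 0 v w) (h0 : w (T.τ v) = 0) :
    w (T.σ v) = 0 := by
  exact eq_zero_of_ee fun n => h.pair_sigma h0 n (by rw [Lat.Fx, hs, Matrix.one_mulVec])

theorem LH.sigma_zero {d : F2} {w : W → H → F2} (hs : R.rb (T.σ v) = 1) (h : R.LH d s v w)
    (h0 : w (T.τ v) = 0) : w (T.σ v) = 0 := by
  have h1 := h.2
  rw [show p0 (w (T.τ v)) = 0 from congrArg p0 h0, smul_zero] at h1
  exact p_ext (h.1.sigma_zero hs (congrArg p0 h0)) (h1.sigma_zero hs (congrArg p1 h0))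

end lls

section comp

variable {A : Finset P} {j : ℕ} {ψ : W → H → O} {c d : W → V}

theorem ltyp_p0 (h : (R.hat lam).LTyp x v ψ) : R.LTyp x v fun g => p0 (ψ g) := by
  obtain ⟨m, t, h⟩ := h
  refine ⟨m, p0 t, fun g hg => ?_⟩
  rw [← p0_act (lam := lam)]
  exact congrArg p0 (h g hg)

theorem coc_p0 (h : (R.hat lam).Coc x j ψ) : R.Coc x j fun g => p0 (ψ g) := by
  obtain ⟨⟨U, hU, h1⟩, h2⟩ := h
  refine ⟨⟨U, hU, fun g u hu => (h1 g u hu).q0⟩, fun g k => ?_⟩
  rw [← p0_act (lam := lam)]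
  exact (h2 g k).q0

theorem sel_p0 (h : (R.hat lam).Sel A x j ψ) : R.Sel A x j fun g => p0 (ψ g) := by
  refine ⟨coc_p0 h.1, fun v hv => ?_, fun v hv => (h.2.2 v hv).q0⟩
  obtain ⟨l, h1, h2⟩ := h.2.1 v hv
  exact ⟨_, ltyp_p0 h1, fun g hg => (h2 g hg).q0⟩

theorem pair_act_inr (g : W) (t : V) :
    (R.hat lam).act x g (Sum.elim 0 t) = (Sum.elim 0 (R.act x g t) : H → O) := by
  refine p_ext ?_ ?_
  · rw [p0_act]
    exact Lat.act_zero g
  · rw [p1_act, show p0 (Sum.elim (0 : V) t) = (0 : V) from rfl, Lat.act_zero, smul_zero, add_zero]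
    rfl

theorem pair_act_zero (g : W) (s t : V) :
    (R.hat 0).act x g (Sum.elim s t) = Sum.elim (R.act x g s) (R.act x g t) := by
  refine p_ext (p0_act g _) ?_
  rw [p1_act, mul_zero, zero_mul, zero_smul, add_zero]
  rfl

theorem ltyp_inr (h : R.LTyp x v c) : (R.hat lam).LTyp x v fun g => Sum.elim 0 (c g) := by
  obtain ⟨m, t, h⟩ := h
  refine ⟨m, Sum.elim 0 t, fun g hg => ?_⟩
  rw [pair_act_inr]
  exact p_ext ((smul_zero ((2 : O) ^ m)).trans (sub_zero (0 : V)).symm) (h g hg)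

theorem sel_inr (h : R.Sel A x j c) : (R.hat lam).Sel A x j fun g => Sum.elim 0 (c g) := by
  obtain ⟨⟨⟨U, hU, h1⟩, h2⟩, h3, h4⟩ := h
  refine ⟨⟨⟨U, hU, fun g u hu => VD_of_p ((VD.zero j).sub (VD.zero j)) (h1 g u hu)⟩,
    fun g k => ?_⟩, fun v hv => ?_, fun v hv => VD_of_p (VD.zero j) (h4 v hv)⟩
  · rw [pair_act_inr]
    exact VD_of_p (((VD.zero j).add (VD.zero j)).sub (VD.zero j)) (h2 g k)
  · obtain ⟨l, k1, k2⟩ := h3 v hv
    exact ⟨_, ltyp_inr k1, fun g hg => VD_of_p ((VD.zero j).sub (VD.zero j)) (k2 g hg)⟩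

theorem pair_p1_act (g : W) (t : H → O) : p1 ((R.hat 0).act x g t) = R.act x g (p1 t) := by
  rw [p1_act, mul_zero, zero_mul, zero_smul, add_zero]

theorem ltyp_p1 (h : (R.hat 0).LTyp x v ψ) : R.LTyp x v fun g => p1 (ψ g) := by
  obtain ⟨m, t, h⟩ := h
  refine ⟨m, p1 t, fun g hg => ?_⟩
  rw [← pair_p1_act]
  exact congrArg p1 (h g hg)

theorem coc_p1 (h : (R.hat 0).Coc x j ψ) : R.Coc x j fun g => p1 (ψ g) := by
  obtain ⟨⟨U, hU, h1⟩, h2⟩ := h
  refine ⟨⟨U, hU, fun g u hu => (h1 g u hu).q1⟩, fun g k => ?_⟩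
  rw [← pair_p1_act]
  exact (h2 g k).q1

theorem pair_ltyp (h : R.LTyp x v c) (h' : R.LTyp x v d) :
    (R.hat 0).LTyp x v fun g => Sum.elim (c g) (d g) := by
  have h1 : (R.hat 0).LTyp x v fun g => Sum.elim (c g) 0 := by
    obtain ⟨m, t, h⟩ := h
    refine ⟨m, Sum.elim t 0, fun g hg => ?_⟩
    rw [pair_act_zero, Lat.act_zero]
    exact p_ext (h g hg) ((smul_zero ((2 : O) ^ m)).trans (sub_zero (0 : V)).symm)
  exact (h1.add (ltyp_inr h')).congr fun g _ => p_ext (add_zero _) (zero_add _)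

theorem sel_pair (h : R.Sel A x j c) (h' : R.Sel A x j d) :
    (R.hat 0).Sel A x j fun g => Sum.elim (c g) (d g) := by
  obtain ⟨⟨⟨U, hU, h1⟩, h2⟩, h3, h4⟩ := h
  obtain ⟨⟨⟨U', hU', k1⟩, k2⟩, k3, k4⟩ := h'
  refine ⟨⟨⟨U ⊓ U', T.adm_inf _ _ hU hU', fun g u hu => VD_of_p (h1 g u hu.1) (k1 g u hu.2)⟩,
    fun g k => ?_⟩, fun v hv => ?_, fun v hv => VD_of_p (h4 v hv) (k4 v hv)⟩
  · rw [pair_act_zero]
    exact VD_of_p (h2 g k) (k2 g k)
  · obtain ⟨l, a1, a2⟩ := h3 v hv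
    obtain ⟨l', b1, b2⟩ := k3 v hv
    exact ⟨_, pair_ltyp a1 b1, fun g hg => VD_of_p (a2 g hg) (b2 g hg)⟩

end comp

end Rep

end

end Pool.Agent.Hyp
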