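import Pool.Agent.Work.MP_60d5ce_nt.Qt.Cube
import Pool.Agent.Work.MP_60d5ce_nt.Hy.Pair
import Pool.Agent.Work.MP_60d5ce_nt.Hy.Cube

-- merged part: Pool.Agent.Work.MP_60d5ce_nt.Hy.ZoneA
section
/-!
# Level one: types of Frobenius elements, values of cocycles, finiteness  (task QT ZoneA)

Hints.
* Facts about `GL2(F2)` are finite checks (`decide` on `Matrix Ix Ix F2`, or on four
  elements of `F2`); `det_rb`.
* `exists_conj`: every matrix over `F2` is a sum of four matrices `m1, ..., m4` of determinant one;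
  take `h i` with `rb (h i) = m i` (`surj`) and the product of the conjugates `h i * z0 * (h i)⁻¹`
  (`Z1.conj`, `db_of_rb`).  `exists_zm`: induction on the set, `z0 = τ u`.
* `exists_ne`: suppose `w` vanishes on `K = {deg = 0, rb = 1}`.  Let `c` of degree zero have
  `rb c = !![0, 1; 1, 1]` (free), `t` with `w c = db t c`, `w' = w + db t`; `w'` kills `c`, `c ^ 2`, `K`.
  For any `g`, `g c g⁻¹` has degree zero and `rb` equal to `rb c` or `rb (c ^ 2)`, so `w'` kills it,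
  and `Z1.conj` gives `db (w' g) (g c g⁻¹) = 0`, hence `w' g = 0`.  `spread` follows with `exists_conj`.
* `cob_of_loc`: otherwise `exists_prime` for `φ g = (rb g = 1 ∧ w g ≠ 0)` (`cl_z1`, `surj`, `spread`) gives
  `v ∉ A`; take `n` with `ee (w (σ v)) n ≠ 0`; `br_recip` for `w` and `ch v n` over `insert v A`,
  `br_zero_left` on `A` (`eq_zero_on_D`), `br_unr_left` at `v`.
* `z1U_card`: `fam_diff` with the values at `σ v`, `τ v`, `v ∈ A`; there are at most four coboundaries.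
* `recip`: `br_recip` for `ch v n'`, `ch b m` over `S ∪ {v, b}`, `br_good` at `v`, `br_unr_left` at `b`.
-/

namespace Pool.Agent.Hyp

open Pool.Agent.Quad

variable [Par]

open scoped Classical

noncomputable section

/-- the exponent of the bound for the indices -/
def KK : ℕ := 2 * (2 * gg * (2 * gg)) + 1 + (2 * gg * (2 * gg) + 2 * gg) * NV

/-- the bound for the indices -/
def NN (n : ℕ) : ℕ := 2 ^ (KK * (n + 1))

theorem NN_mono {m n : ℕ} (h : m ≤ n) : NN m ≤ NN n :=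
  Nat.pow_le_pow_right (by norm_num) (Nat.mul_le_mul_left _ (by omega))

theorem NN_pos (n : ℕ) : 0 < NN n := by unfold NN; positivity

theorem NN_bound {a n : ℕ} (h : a ≤ n) : NM * 2 ^ n * NM * (NM * NV) ^ (a * NV) ≤ NN n := by
  have e : NM * 2 ^ n * NM * (NM * NV) ^ (a * NV) =
      2 ^ (2 * (2 * gg * (2 * gg)) + n + (2 * gg * (2 * gg) + 2 * gg) * (a * NV)) := by
    conv_lhs => rw [NM, show 2 ^ (2 * gg * (2 * gg)) * NV = 2 ^ (2 * gg * (2 * gg) + 2 * gg) by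
      rw [pow_add, NV]]
    rw [← pow_mul, ← pow_add, ← pow_add, ← pow_add]
    exact congrArg _ (by ring)
  rw [e]
  refine Nat.pow_le_pow_right (by norm_num) ?_
  have := Nat.mul_le_mul_left ((2 * gg * (2 * gg) + 2 * gg) * NV) h
  rw [KK]
  nlinarith [Nat.zero_le ((2 * gg * (2 * gg)) * n), Nat.zero_le ((2 * gg * (2 * gg) + 2 * gg) * NV)]

theorem NN_bound' (n : ℕ) : NM * 2 ^ n * (NM * NV) ≤ NN n := by
  have e : NM * 2 ^ n * (NM * NV) = 2 ^ (2 * (2 * gg * (2 * gg)) + n + 2 * gg) := by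
    rw [NM, NV, ← pow_add, ← pow_add, ← pow_add]
    exact congrArg _ (by ring)
  rw [e]
  refine Nat.pow_le_pow_right (by norm_num) ?_
  have := Nat.mul_le_mul_left (2 * gg * (2 * gg) + 2 * gg) (show 1 ≤ NV from NV_pos)
  rw [KK]
  nlinarith [Nat.zero_le ((2 * gg * (2 * gg)) * n),
    Nat.zero_le ((2 * gg * (2 * gg) + 2 * gg) * NV * n), Nat.zero_le (2 * gg * (2 * gg))]

theorem NN_bound'' (n : ℕ) : NM * 2 ^ n ≤ NN n :=
  (Nat.le_mul_of_pos_right _ (Nat.mul_pos NM_pos NV_pos)).trans (NN_bound' n)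

theorem NM_le_NN (n : ℕ) : NM ≤ NN n :=
  (Nat.le_mul_of_pos_right _ (by positivity)).trans (NN_bound'' n)

/-- counting through fibres whose differences lie in a finite set -/
theorem fam_diff {α β γ : Type*} [AddCommGroup γ] (S : Set α) (φ : α → β) (Im : Set β)
    (hIm : Im.Finite) (hφ : ∀ a ∈ S, φ a ∈ Im) (ψ : α → γ) (G : Set γ) (hG : G.Finite)
    (hinj : ∀ a ∈ S, ∀ a' ∈ S, φ a = φ a' → ψ a = ψ a' → a = a')
    (hd : ∀ a ∈ S, ∀ a' ∈ S, φ a = φ a' → ψ a - ψ a' ∈ G) :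
    S.Finite ∧ S.ncard ≤ G.ncard * Im.ncard := by
  have hfib : ∀ a0 ∈ S, (S ∩ φ ⁻¹' {φ a0}).Finite ∧ (S ∩ φ ⁻¹' {φ a0}).ncard ≤ G.ncard := by
    intro a0 ha0
    have hm : ∀ a ∈ S ∩ φ ⁻¹' {φ a0}, ψ a - ψ a0 ∈ G := fun a ha => hd a ha.1 a0 ha0 ha.2
    have hi : Set.InjOn (fun a => ψ a - ψ a0) (S ∩ φ ⁻¹' {φ a0}) := by
      intro a ha a' ha' h
      have h1 : φ a = φ a0 := ha.2
      have h2 : φ a' = φ a0 := ha'.2
      exact hinj a ha.1 a' ha'.1 (h1.trans h2.symm) (sub_left_injective h)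
    exact ⟨Set.Finite.of_injOn hm hi hG, Set.ncard_le_ncard_of_injOn _ hm hi hG⟩
  have himg : φ '' S ⊆ Im := by
    rintro _ ⟨a, ha, rfl⟩
    exact hφ a ha
  have hS : S.Finite := by
    refine Set.Finite.of_finite_fibers φ (hIm.subset himg) ?_
    rintro _ ⟨a, ha, rfl⟩
    exact (hfib a ha).1
  refine ⟨hS, ?_⟩
  have h1 := Finset.card_le_mul_card_image (f := φ) hS.toFinset G.ncard (by
    intro y hy
    obtain ⟨a, ha, rfl⟩ := Finset.mem_image.1 hy
    have ha' : a ∈ S := hS.mem_toFinset.1 ha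
    refine le_trans (le_of_eq ?_) (hfib a ha').2
    rw [← Set.ncard_coe_finset]
    congr 1
    ext x
    simp)
  rw [Set.ncard_eq_toFinset_card S hS]
  refine h1.trans (Nat.mul_le_mul_left _ ?_)
  rw [← Set.ncard_coe_finset]
  refine Set.ncard_le_ncard ?_ hIm
  intro y hy
  obtain ⟨a, ha, rfl⟩ := Finset.mem_image.1 (Finset.mem_coe.1 hy)
  exact hφ a (hS.mem_toFinset.1 ha)

variable {W P : Type} [Group W] {T : Tame W P}

namespace Rep

variable (R : Rep T)

/-- the number of fixed vectors -/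
def nf (g : W) : ℕ := {n | R.Fx g n}.ncard

/-- two marks in the same orbit -/
def Orb (n n' : H → F2) : Prop :=
  ∃ g, p0 n' = (R.rb g).mulVec (p0 n) ∧ p1 n' = (R.rb g).mulVec (p1 n)

variable {R}

theorem ZoneA_nf (g : W) :
    R.nf g = (Finset.univ.filter fun n : Vb => (R.rb g).mulVec n = n).card := by
  rw [nf, ← Set.ncard_coe_finset]
  exact congrArg Set.ncard (Set.ext fun n => by simp [Lat.Fx])

theorem nf_pos (g : W) : 1 ≤ R.nf g :=
  (Set.ncard_pos (Set.toFinite _)).2 ⟨0, Matrix.mulVec_zero _⟩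

theorem nf_le (g : W) : R.nf g ≤ NV := by
  rw [ZoneA_nf, ← card_Vb]
  exact Finset.card_le_univ _

theorem nf_eq_one {g : W} : R.nf g = 1 ↔ R.Free g := by
  rw [nf, Set.ncard_eq_one]
  refine ⟨fun ⟨a, ha⟩ n hn => ?_, fun h => ⟨0, Set.eq_singleton_iff_unique_mem.2
    ⟨Matrix.mulVec_zero _, h⟩⟩⟩
  have h1 : n ∈ ({a} : Set Vb) := ha ▸ hn
  have h2 : (0 : Vb) ∈ ({a} : Set Vb) := ha ▸ (Matrix.mulVec_zero _ : R.Fx g 0)
  exact h1.trans h2.symm

theorem nf_eq_four {g : W} : R.nf g = NV ↔ R.rb g = 1 := by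
  rw [ZoneA_nf, ← card_Vb, Finset.card_eq_iff_eq_univ, Finset.filter_eq_self]
  refine ⟨fun h => Matrix.ext_iff_mulVec.2 fun n => ?_, fun h n _ => by rw [h, Matrix.one_mulVec]⟩
  rw [h n (Finset.mem_univ n), Matrix.one_mulVec]

theorem nf_congr {g h : W} (e : R.rb g = R.rb h) : R.nf g = R.nf h := by
  rw [ZoneA_nf, ZoneA_nf, e]

theorem fx_conj {g : W} {n : Vb} (hn : R.Fx g n) (h : W) :
    R.Fx (h * g * h⁻¹) ((R.rb h).mulVec n) := by
  rw [Lat.Fx, Lat.rb_mul, Lat.rb_mul, ← Matrix.mulVec_mulVec, ← Matrix.mulVec_mulVec,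
    Lat.rb_inv_mulVec, hn]

theorem nf_conj (g h : W) : R.nf (h * g * h⁻¹) = R.nf g := by
  have key : ∀ g h : W, R.nf g ≤ R.nf (h * g * h⁻¹) := fun g h =>
    Set.ncard_le_ncard_of_injOn (R.rb h).mulVec (fun n hn => fx_conj hn h) (fun a _ b _ e => by
      rw [← Lat.rb_inv_mulVec (R := R.toLat) h a, e, Lat.rb_inv_mulVec]) (Set.toFinite _)
  refine le_antisymm ((key _ h⁻¹).trans_eq (congrArg _ (by group))) (key g h)

theorem cl_rb' {A : Finset P} (hA : R.S ⊆ A) : T.Cl A NM R.rb :=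
  (Lat.cl_rb hA).mono subset_rfl (by rw [card_Ix, NM])

theorem cl_z1' {A : Finset P} (hA : R.S ⊆ A) {w : W → Vb} (hw : w ∈ R.Z1U A) :
    T.Cl A (NM * NV) fun g => (R.rb g, w g) :=
  (Lat.cl_z1 hA hw).mono subset_rfl (by rw [card_Ix, NM, NV, pow_add])

theorem cl_nf {A : Finset P} (hA : R.S ⊆ A) : T.Cl A NM R.nf :=
  (cl_rb' hA).comp fun m => {n | m.mulVec n = n}.ncard

theorem exists_rb (e : ℤ) (g0 : W) : ∃ g, T.deg g = e ∧ R.rb g = R.rb g0 := by
  obtain ⟨g, hg⟩ := T.exists_deg e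
  obtain ⟨z, h0, h1⟩ := R.geo (g⁻¹ * g0)
  exact ⟨g * z, by rw [T.deg_mul, hg, h0, add_zero], by
    rw [Lat.rb_mul, h1, ← Lat.rb_mul, mul_inv_cancel_left]⟩

theorem exists_rb_one (e : ℤ) : ∃ g, T.deg g = e ∧ R.rb g = 1 := by
  simpa only [Lat.rb_one] using R.exists_rb e 1

theorem dens_nf {t : ℕ} (ht : t = 1 ∨ t = NV) (e : ℕ) :
    1 / (NM : ℝ) ≤ T.dens (fun g => R.nf g = t) e := by
  obtain ⟨g, h0, h1⟩ : ∃ g, T.deg g = e ∧ R.nf g = t := by
    rcases ht with rfl | rfl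
    · obtain ⟨g, h0, h1⟩ := exists_free (R := R) e
      exact ⟨g, h0, nf_eq_one.2 h1⟩
    · obtain ⟨g, h0, h1⟩ := R.exists_rb_one e
      exact ⟨g, h0, nf_eq_four.2 h1⟩
  have := Tame.le_dens ((cl_nf (R := R) subset_rfl).comp (· = t)) h0 h1
  rwa [div_le_iff₀' (by exact_mod_cast NM_pos)]

theorem ee_db {g : W} {n : Vb} (hn : R.Fx g n) (t : Vb) : ee (R.db t g) n = 0 :=
  pair_ee_db hn t

theorem ee_conj {w : W → Vb} (hw : R.Z1 w) {g : W} {n : Vb} (hn : R.Fx g n) (h : W) :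
    ee (w (h * g * h⁻¹)) ((R.rb h).mulVec n) = ee (w g) n := by
  rw [hw.conj, ee_add_left, ee_rb, ee_db (fx_conj hn h), add_zero]

variable (R) in
/-- functionals on cocycles realised by an element -/
def ZoneAG (a : (W → Vb) → Vb) : Prop :=
  ∃ z, T.deg z = 0 ∧ R.rb z = 1 ∧ (∀ h : W → F2, T.IsHom h → h z = 0) ∧ ∀ w, R.Z1 w → w z = a w

theorem ZoneA_zero : R.ZoneAG fun _ => 0 :=
  ⟨1, T.deg_one, Lat.rb_one, fun _ => Tame.hom_one, fun _ h => h.one⟩

theorem ZoneA_add {a b : (W → Vb) → Vb} (ha : R.ZoneAG a) (hb : R.ZoneAG b) :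
    R.ZoneAG fun w => a w + b w := by
  obtain ⟨y, a1, a2, a3, a4⟩ := ha
  obtain ⟨z, b1, b2, b3, b4⟩ := hb
  exact ⟨y * z, by rw [T.deg_mul, a1, b1, add_zero], by rw [Lat.rb_mul, a2, b2, one_mul],
    fun h hh => by rw [hh.2, a3 h hh, b3 h hh, add_zero],
    fun w hw => by rw [hw.2, a2, Matrix.one_mulVec, a4 w hw, b4 w hw]⟩

theorem ZoneA_conj {z : W} (h1 : R.rb z = 1) (h : W) : R.rb (h * z * h⁻¹) = 1 := by
  rw [Lat.rb_mul, Lat.rb_mul, h1, mul_one, ← Lat.rb_mul, mul_inv_cancel, Lat.rb_one]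

theorem ZoneA_deg (z h : W) : T.deg (h * z * h⁻¹) = T.deg z := by
  rw [T.deg_mul, T.deg_mul, T.deg_inv]
  ring

theorem ZoneA_pair {z0 : W} (h0 : T.deg z0 = 0) (h1 : R.rb z0 = 1) (g g' : W) :
    R.ZoneAG fun w => (R.rb g + R.rb g').mulVec (w z0) := by
  have a := ZoneA_conj h1 g
  have b := ZoneA_conj h1 g'
  exact ⟨g * z0 * g⁻¹ * (g' * z0 * g'⁻¹), by rw [T.deg_mul, ZoneA_deg, ZoneA_deg, h0, add_zero],
    by rw [Lat.rb_mul, a, b, one_mul],
    fun h hh => by rw [hh.2, Tame.hom_conj hh, Tame.hom_conj hh, F2_add_self], fun w hw => by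
      rw [hw.2, a, Matrix.one_mulVec, hw.conj, hw.conj, Lat.db_of_rb a, Lat.db_of_rb b, add_zero,
        add_zero, ← Matrix.add_mulVec]⟩

theorem ZoneA_neg (m : Matrix Ix Ix F2) : -m = m := Matrix.ext fun _ _ => F2_neg _

theorem exists_conj {z0 : W} (h0 : T.deg z0 = 0) (h1 : R.rb z0 = 1) (m : Matrix Ix Ix F2) :
    ∃ z, T.deg z = 0 ∧ R.rb z = 1 ∧ (∀ h : W → F2, T.IsHom h → h z = 0) ∧
      ∀ w, R.Z1 w → w z = m.mulVec (w z0) := by
  change R.ZoneAG fun w => m.mulVec (w z0)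
  induction R.span m using AddSubgroup.closure_induction with
  | mem m hm =>
    obtain ⟨g, g', rfl⟩ := hm
    exact ZoneA_pair h0 h1 g g'
  | zero => simpa using ZoneA_zero
  | add a b _ _ ha hb => simpa only [Matrix.add_mulVec] using ZoneA_add ha hb
  | neg a _ ha => rwa [ZoneA_neg]

theorem exists_zm {B : Finset P} (hB : ∀ u ∈ B, u ∉ R.S) (m : P → Matrix Ix Ix F2) :
    ∃ z, T.deg z = 0 ∧ R.rb z = 1 ∧ (∀ h : W → F2, T.IsHom h → h z = 0) ∧
      ∀ w, R.Z1 w → w z = ∑ u ∈ B, (m u).mulVec (w (T.τ u)) := by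
  induction B using Finset.induction_on with
  | empty => exact ZoneA_zero
  | insert u B hu ih =>
    simp only [Finset.sum_insert hu]
    exact ZoneA_add (exists_conj (T.deg_τ u) (Lat.rb_unr (hB u (Finset.mem_insert_self _ _))) _)
      (ih fun v hv => hB v (Finset.mem_insert_of_mem hv))

theorem exists_ne {w : W → Vb} (hw : R.Z1 w) (hc : ¬ R.IsCob w) :
    ∃ z, T.deg z = 0 ∧ R.rb z = 1 ∧ w z ≠ 0 := by
  by_contra! hK
  exact hc (R.h1 w hw hK)

theorem ZoneA_rk (b t : Vb) : ∃ m : Matrix Ix Ix F2, ∀ y, m.mulVec y = ee y b • t :=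
  ⟨LinearMap.toMatrix' (LinearMap.smulRight
    { toFun := fun y => ee y b, map_add' := fun _ _ => ee_add_left _ _ _,
      map_smul' := fun _ _ => ee_smul_left _ _ _ } t), fun y => by
    rw [LinearMap.toMatrix'_mulVec]; rfl⟩

theorem spread {w : W → Vb} (hw : R.Z1 w) (hc : ¬ R.IsCob w) (t : Vb) :
    ∃ z, T.deg z = 0 ∧ R.rb z = 1 ∧ (∀ h : W → F2, T.IsHom h → h z = 0) ∧ w z = t := by
  obtain ⟨z0, h0, h1, h2⟩ := exists_ne hw hc
  have key : ∀ y : Vb, y ≠ 0 → ∀ t, ∃ m : Matrix Ix Ix F2, m.mulVec y = t := fun y hy t => by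
    obtain ⟨b, hb⟩ := exists_ee_ne hy
    obtain ⟨m, hm⟩ := ZoneA_rk b t
    exact ⟨m, by rw [hm, hb, one_smul]⟩
  obtain ⟨m, rfl⟩ := key _ h2 t
  obtain ⟨z, a, b, c, d⟩ := exists_conj h0 h1 m
  exact ⟨z, a, b, c, d w hw⟩

theorem not_cob_of_ram {w : W → Vb} {v : P} (hv : v ∉ R.S) (h : w (T.τ v) ≠ 0) : ¬ R.IsCob w :=
  fun ⟨t, ht⟩ => h (by rw [ht, Lat.db_of_rb (Lat.rb_unr hv)])

theorem cob_of_loc {A : Finset P} (hA : R.S ⊆ A) {w : W → Vb} (hw : w ∈ R.Z1U A)
    (h : ∀ v ∈ A, w (T.σ v) = 0 ∧ w (T.τ v) = 0) : R.IsCob w := by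
  by_contra hc
  obtain ⟨v, hv, h1, h2⟩ := Tame.exists_prime (φ := fun g => R.rb g = 1 ∧ w g ≠ 0) (hA R.inf_mem)
    ((cl_z1' hA hw).comp fun p => p.1 = 1 ∧ p.2 ≠ 0)
    (fun g k e => ⟨ZoneA_conj e.1 k, fun e' => e.2 (by
      rw [hw.1.conj, Lat.db_of_rb (ZoneA_conj e.1 k), add_zero] at e'
      exact Lat.rb_mulVec_eq_zero e')⟩) fun e => by
      obtain ⟨g, a, b⟩ := R.exists_rb_one e
      obtain ⟨z, c, d, f⟩ := exists_ne hw.1 hc
      by_cases k : w g = 0
      · exact ⟨g * z, by rw [T.deg_mul, a, c, add_zero], by rw [Lat.rb_mul, b, d, one_mul], by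
          rwa [hw.1.2, k, b, zero_add, Matrix.one_mulVec]⟩
      · exact ⟨g, a, b, k⟩
  refine h2 (eq_zero_of_ee fun n => ?_)
  have hS : v ∉ R.S := fun e => hv (hA e)
  obtain ⟨a, b⟩ := ch_spec hS (n := n) (by rw [Lat.Fx, h1, Matrix.one_mulVec])
  have h3 := br_recip hw.1 a.1 (A := insert v A) (hA.trans (Finset.subset_insert _ _)) fun u hu =>
    ⟨hw.2 u fun e => hu (Finset.mem_insert_of_mem e),
      a.2 u fun e => hu (Finset.insert_subset_insert _ hA e)⟩
  rwa [Finset.sum_insert hv, Finset.sum_eq_zero fun u hu => br_zero_left (Lat.eq_zero_on_D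
    (hw.1.lz u).1 (h u hu).1 (h u hu).2) _, add_zero,
    br_unr_left hS (hw.1.lz v) (a.1.lz v) (hw.2 v hv), b] at h3

theorem z1U_mono {A A' : Finset P} (h : A ⊆ A') : R.Z1U A ⊆ R.Z1U A' :=
  fun _ hw => ⟨hw.1, fun v hv => hw.2 v fun e => hv (h e)⟩

theorem ZoneA_card {A : Finset P} (hA : R.S ⊆ A) :
    (R.Z1U A).Finite ∧ (R.Z1U A).ncard ≤ NV * (NV ^ 2) ^ A.card := by
  have h := fam_diff (R.Z1U A) (fun w (v : A) => (w (T.σ v), w (T.τ v))) Set.univ Set.finite_univ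
    (fun _ _ => trivial) id (Set.range R.db) (Set.finite_range _) (fun _ _ _ _ _ e => e)
    fun a ha b hb e => by
      obtain ⟨t, ht⟩ := cob_of_loc hA (w := a + b) ⟨ha.1.add hb.1, fun v hv => by
        rw [Pi.add_apply, ha.2 v hv, hb.2 v hv, add_zero]⟩ fun v hv => by
          have e' := Prod.mk.inj (congrFun e ⟨v, hv⟩)
          rw [Pi.add_apply, Pi.add_apply, e'.1, e'.2]
          exact ⟨vb_add_self _, vb_add_self _⟩
      exact ⟨t, funext fun g => (ht g).symm.trans (vb_sub _ _).symm⟩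
  refine ⟨h.1, h.2.trans (Nat.mul_le_mul ?_ (by
    rw [Set.ncard_univ, Nat.card_eq_fintype_card, Fintype.card_fun, Fintype.card_prod, card_Vb,
      Fintype.card_coe, sq]))⟩
  rw [← Set.image_univ]
  exact (Set.ncard_image_le Set.finite_univ).trans
    (by rw [Set.ncard_univ, Nat.card_eq_fintype_card, card_Vb])

theorem z1U_finite (A : Finset P) : (R.Z1U A).Finite :=
  (ZoneA_card Finset.subset_union_right).1.subset (z1U_mono Finset.subset_union_left)

theorem z1U_card {A : Finset P} (hA : R.S ⊆ A) : (R.Z1U A).ncard ≤ NV * (NV ^ 2) ^ A.card :=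
  (ZoneA_card hA).2

theorem recip {v b : P} (hv : v ∉ R.S) (hb : b ∉ R.S) (hne : v ≠ b) {n' m : Vb}
    (hn : R.Fx (T.σ v) n') (hm : R.Fx (T.σ b) m) :
    ee n' (R.ch b m (T.σ v)) =
      ee (R.ch v n' (T.σ b)) m + ∑ s ∈ R.S, R.br s (R.ch v n') (R.ch b m) := by
  obtain ⟨a1, a2⟩ := ch_spec hv hn
  obtain ⟨b1, b2⟩ := ch_spec hb hm
  have h := br_recip a1.1 b1.1 (A := insert v (insert b R.S))
    ((Finset.subset_insert _ _).trans (Finset.subset_insert _ _)) fun u hu =>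
      ⟨a1.2 u fun e => hu (Finset.insert_subset_insert _ (Finset.subset_insert _ _) e),
        b1.2 u fun e => hu (Finset.mem_insert_of_mem e)⟩
  have k : v ∉ insert b R.S := by simp [hv, hne]
  rwa [Finset.sum_insert k, Finset.sum_insert hb, br_good hv (a1.1.lz v) (b1.1.lz v), b1.2 v k,
    br_unr_left hb (a1.1.lz b) (b1.1.lz b) (a1.2 b (by simp [hb, hne.symm])), a2, b2, ee_zero_right,
    ee_zero_right, zero_add, mul_zero, add_zero, ← F2_sub, sub_eq_zero] at h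

/-- the value of `ch b m` at another prime only depends on the tests and on the colour -/
theorem ee_ch_eq {v b b' : P} (hv : v ∉ R.S) (hb : b ∉ R.S) (hb' : b' ∉ R.S) (hne : v ≠ b)
    (hne' : v ≠ b') {n' m m' : Vb} (hn : R.Fx (T.σ v) n') (hm : R.Fx (T.σ b) m)
    (hm' : R.Fx (T.σ b') m') (ht : ee (R.ch v n' (T.σ b)) m = ee (R.ch v n' (T.σ b')) m')
    (hc : ∀ s ∈ R.S, R.ch b m (T.σ s) = R.ch b' m' (T.σ s) ∧ R.ch b m (T.τ s) = R.ch b' m' (T.τ s)) :
    ee n' (R.ch b m (T.σ v)) = ee n' (R.ch b' m' (T.σ v)) := by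
  rw [recip hv hb hne hn hm, recip hv hb' hne' hn hm', ht, Finset.sum_congr rfl fun s hs =>
    br_eq_of_vals ((ch_mem v n').1.lz s) ((ch_mem v n').1.lz s) ((ch_mem b m).1.lz s)
      ((ch_mem b' m').1.lz s) rfl rfl (hc s hs).1 (hc s hs).2]

theorem Orb.refl (n : H → F2) : R.Orb n n :=
  ⟨1, by rw [Lat.rb_one, Matrix.one_mulVec], by rw [Lat.rb_one, Matrix.one_mulVec]⟩

theorem Orb.symm {n n' : H → F2} (h : R.Orb n n') : R.Orb n' n := by
  obtain ⟨m, b, c⟩ := h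
  exact ⟨m⁻¹, by rw [b, Lat.rb_inv_mulVec], by rw [c, Lat.rb_inv_mulVec]⟩

theorem Orb.trans {n n' n'' : H → F2} (h : R.Orb n n') (h' : R.Orb n' n'') : R.Orb n n'' := by
  obtain ⟨m, b, c⟩ := h
  obtain ⟨k, b', c'⟩ := h'
  exact ⟨k * m, by rw [b', b, Matrix.mulVec_mulVec, Lat.rb_mul],
    by rw [c', c, Matrix.mulVec_mulVec, Lat.rb_mul]⟩

theorem orb_rb (lam : O) (h : W) (n : H → F2) : R.Orb n (((R.hat lam).rb h).mulVec n) :=
  ⟨h, p0_rb h n, p1_rb h n⟩

theorem Nondeg.orb {a b a' b' : H → F2} (h : R.Nondeg a b) (ha : R.Orb a a') (hb : R.Orb b b') :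
    R.Nondeg a' b' := by
  obtain ⟨m, m2⟩ := h
  obtain ⟨k, k2, k3⟩ := ha.symm
  obtain ⟨l, l2, l3⟩ := hb
  refine ⟨l * m * k, ?_⟩
  simp only [Lat.rb_mul, ← Matrix.mulVec_mulVec]
  rwa [← k2, ← k3, l2, l3, ee_rb, ee_rb]

theorem Nondeg.exists_bil {a b : H → F2} (h : R.Nondeg a b) (lam : O) :
    ∃ g, T.deg g = 0 ∧ bil (((R.hat lam).rb g).mulVec a) b = 1 := by
  obtain ⟨m, m2⟩ := h
  obtain ⟨g, g0, e⟩ := R.geo m
  exact ⟨g, g0, by
    rw [bil, p0_rb, p1_rb, F2_sub, add_comm, e]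
    exact (F2_cases _).resolve_left m2⟩

theorem Nondeg.p0_ne {a b : H → F2} (h : R.Nondeg a b) : p0 a ≠ 0 ∨ p0 b ≠ 0 := by
  by_contra! e
  obtain ⟨m, m2⟩ := h
  simp [e.1, e.2] at m2

theorem bil_rb (lam : O) (g : W) (a b : H → F2) :
    bil (((R.hat lam).rb g).mulVec a) (((R.hat lam).rb g).mulVec b) = bil a b := by
  simp only [bil, p0_rb, p1_rb, ee_rb]

/-- if no pair of marks is in general position, one of the three linear forms vanishes -/
theorem pattern {ι : Type*} (I1 I2 : Finset ι) (n : ι → H → F2)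
    (h : ∀ a ∈ I1, ∀ b ∈ I2, ¬ R.Nondeg (n a) (n b)) :
    (∀ a ∈ I1, p0 (n a) = 0) ∨ (∀ b ∈ I2, p0 (n b) = 0) ∨ (∀ b ∈ I2, p1 (n b) = 0) ∨
      ∀ b ∈ I2, p0 (n b) + p1 (n b) = 0 := by
  refine or_iff_not_imp_left.2 fun k => Or.inr ?_
  push Not at k
  obtain ⟨a, ha, k⟩ := k
  have key : ∀ b ∈ I2, ∀ m : Matrix Ix Ix F2,
      ee (m.mulVec (p0 (n a))) (p1 (n b)) + ee (m.mulVec (p1 (n a))) (p0 (n b)) = 0 := by
    intro b hb m
    have h0 : ∀ g, ee ((R.rb g).mulVec (p0 (n a))) (p1 (n b)) +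
        ee ((R.rb g).mulVec (p1 (n a))) (p0 (n b)) = 0 := fun g =>
      by_contra fun f => h a ha b hb ⟨g, f⟩
    induction R.span m using AddSubgroup.closure_induction with
    | mem m hm =>
      obtain ⟨g, g', rfl⟩ := hm
      simp only [Matrix.add_mulVec, ee_add_left]
      linear_combination h0 g + h0 g'
    | zero => simp
    | add x y _ _ hx hy =>
      simp only [Matrix.add_mulVec, ee_add_left]
      linear_combination hx + hy
    | neg x _ hx => rwa [ZoneA_neg]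
  obtain ⟨b0, hb0⟩ := exists_ee_ne k
  by_cases e : ∃ c, ee (p0 (n a)) c = 1 ∧ ee (p1 (n a)) c = 0
  · obtain ⟨c, c1, c2⟩ := e
    refine Or.inl fun b hb => eq_zero_of_ee fun t => ?_
    obtain ⟨m, hm⟩ := ZoneA_rk c t
    have := key b hb m
    rwa [hm, hm, c1, c2, one_smul, zero_smul, ee_zero_left, add_zero, ee_comm] at this
  · refine Or.inr fun b hb => eq_zero_of_ee fun t => ?_
    obtain ⟨m, hm⟩ := ZoneA_rk b0 t
    have := key b hb m
    rwa [hm, hm, hb0, (F2_cases _).resolve_left fun f => e ⟨b0, hb0, f⟩, one_smul, ← ee_add_right,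
      ee_comm, add_comm] at this

end Rep

end

end Pool.Agent.Hyp
end

-- merged part: Pool.Agent.Work.MP_60d5ce_nt.Hy.Fam
section
/-!
# Counting classes of level one and governing families  (task QT Fam)

Template `Sm/Fam.lean`.  `G1` is an additive subgroup in disguise (`LLs.add`), finite by `z1U_finite`.
`G1_union`: the map `h ↦ (h (τ v))_{v ∈ Z}` has kernel inside `G1 A`.  `G1_free`: at a free prime
cocycles are unramified (`LZ.tau_of_free`) and the condition is empty.  `GH_card`: `fam_diff` with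
`p0`, `p1` (`LLs.add`, `y + y = 0`).  `famS_ncard`: two families that agree on all proper subsets of
`B` differ at `B` by a cocycle (`uop_eq_top`, `URel.add`), which lies in `GH` (`LH.add`).
-/

namespace Pool.Agent.Hyp

open Pool.Agent.Quad

variable [Par]

open scoped Classical

noncomputable section

/-- triangular counting -/
theorem ncard_le_pow {κ A : Type*} [AddCommGroup A] (s : Finset κ) (rk : κ → ℕ) (G : Set A)
    (hG : G.Finite) (𝒯 : Set (κ → A)) (h0 : ∀ f ∈ 𝒯, ∀ b ∉ s, f b = 0)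
    (h : ∀ f ∈ 𝒯, ∀ f' ∈ 𝒯, ∀ b ∈ s, (∀ c ∈ s, rk c < rk b → f c = f' c) → f b - f' b ∈ G) :
    𝒯.Finite ∧ 𝒯.ncard ≤ G.ncard ^ s.card := by
  induction s using Finset.induction_on_max_value rk generalizing 𝒯 with
  | empty =>
    have hsub : 𝒯 ⊆ {0} := fun f hf => funext fun b => h0 f hf b (Finset.notMem_empty b)
    refine ⟨(Set.finite_singleton _).subset hsub, ?_⟩
    simpa using Set.ncard_le_ncard hsub (Set.finite_singleton _)
  | insert b s hb hmax ih =>
    obtain ⟨hF, hN⟩ := ih ((fun f : κ → A => Function.update f b 0) '' 𝒯) (by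
      rintro _ ⟨f, hf, rfl⟩ c hc
      by_cases hcb : c = b
      · subst hcb
        simp
      · simp only [Function.update_of_ne hcb]
        exact h0 f hf c (by simp [hcb, hc])) (by
      rintro _ ⟨f, hf, rfl⟩ _ ⟨f', hf', rfl⟩ c hc hag
      have hcb : c ≠ b := fun e => hb (e ▸ hc)
      simp only [Function.update_of_ne hcb]
      refine h f hf f' hf' c (Finset.mem_insert_of_mem hc) fun d hd hdc => ?_
      rcases Finset.mem_insert.1 hd with rfl | hd
      · exact absurd (hmax c hc) (not_le.2 hdc)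
      · have hdb : d ≠ b := fun e => hb (e ▸ hd)
        simpa only [Function.update_of_ne hdb] using hag d hd hdc)
    have hne : ∀ f f' : κ → A, Function.update f b 0 = Function.update f' b 0 →
        ∀ c, c ≠ b → f c = f' c := by
      intro f f' e c hcb
      simpa only [Function.update_of_ne hcb] using congrFun e c
    obtain ⟨h1, h2⟩ := fam_diff 𝒯 (fun f : κ → A => Function.update f b 0) _ hF
      (fun f hf => Set.mem_image_of_mem _ hf) (fun f => f b) G hG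
      (by
        intro f _ f' _ e1 e2
        funext c
        by_cases hcb : c = b
        · subst hcb
          exact e2
        · exact hne f f' e1 c hcb)
      (by
        intro f hf f' hf' e
        refine h f hf f' hf' b (Finset.mem_insert_self _ _) fun c _ hc => ?_
        exact hne f f' e c fun e' => by simp [e'] at hc)
    refine ⟨h1, h2.trans ?_⟩
    rw [Finset.card_insert_of_notMem hb, pow_succ']
    exact Nat.mul_le_mul_left _ hN

variable {W P : Type} [Group W] {T : Tame W P}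

namespace Rep

variable {R : Rep T} {A Z Ot : Finset P} {xs xs' : P → F2} {d : F2}

theorem G1_finite (A Ot : Finset P) (xs : P → F2) : (R.G1 A Ot xs).Finite :=
  (z1U_finite A).subset fun _ h => h.1

theorem Fam_lls_zero (s : F2) (v : P) : R.LLs s 0 v 0 := fun n _ => by
  rw [Pi.zero_apply, Pi.zero_apply, kap_zero, smul_zero, add_zero, add_zero, add_zero, ee_zero_left]

theorem Fam_sub {X I : Type} (w w' : X → I → F2) : w - w' = w + w' :=
  funext fun g => vb_sub (w g) (w' g)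

theorem Fam_z1U_add {I : Type} [Fintype I] [DecidableEq I] {L : Lat T I} {w w' : W → I → F2}
    (h : w ∈ L.Z1U A) (h' : w' ∈ L.Z1U A) : w + w' ∈ L.Z1U A :=
  ⟨h.1.add h'.1, fun v hv => by rw [Pi.add_apply, h.2 v hv, h'.2 v hv, add_zero]⟩

theorem Fam_univ (Z : Finset P) : (Set.univ : Set (Z → Vb)).ncard = NV ^ Z.card := by
  rw [Set.ncard_univ, Nat.card_eq_fintype_card, Fintype.card_fun, card_Vb, Fintype.card_coe]

theorem G1_zero (A Ot : Finset P) (xs : P → F2) : 0 ∈ R.G1 A Ot xs :=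
  ⟨⟨Lat.z1_zero, fun _ _ => rfl⟩, fun v _ => Fam_lls_zero _ v⟩

theorem G1_add (hO : ∀ v ∈ Ot, v ∉ R.S) {w w' : W → Vb} (h : w ∈ R.G1 A Ot xs)
    (h' : w' ∈ R.G1 A Ot xs) : w + w' ∈ R.G1 A Ot xs :=
  ⟨Fam_z1U_add h.1 h'.1, fun v hv => by
    simpa only [add_zero] using
      (h.2 v hv).add (hO v hv) (h.1.1.lz v) (h'.1.1.lz v) (h'.2 v hv)⟩

theorem G1_congr (h : ∀ v ∈ Ot, xs v = xs' v) : R.G1 A Ot xs = R.G1 A Ot xs' := by
  ext w
  exact and_congr_right fun _ => forall₂_congr fun v hv => by rw [h v hv]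

theorem G1_anti {Ot' : Finset P} (h : Ot ⊆ Ot') : R.G1 A Ot' xs ⊆ R.G1 A Ot xs :=
  fun _ hw => ⟨hw.1, fun v hv => hw.2 v (h hv)⟩

theorem G1_union (hO : ∀ v ∈ Ot, v ∉ R.S) (A Z : Finset P) (xs : P → F2) :
    (R.G1 (A ∪ Z) Ot xs).ncard ≤ (R.G1 A Ot xs).ncard * NV ^ Z.card := by
  rw [← Fam_univ Z]
  refine (fam_diff (R.G1 (A ∪ Z) Ot xs) (fun h (v : Z) => h (T.τ v)) Set.univ Set.finite_univ
    (fun _ _ => Set.mem_univ _) id _ (G1_finite A Ot xs) (fun _ _ _ _ _ e => e) ?_).2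
  intro w hw w' hw' e
  have h := G1_add hO hw hw'
  rw [id, id, Fam_sub]
  refine ⟨⟨h.1.1, fun v hv => ?_⟩, h.2⟩
  by_cases hz : v ∈ Z
  · have e' : w (T.τ v) = w' (T.τ v) := congrFun e ⟨v, hz⟩
    rw [Pi.add_apply, e', vb_add_self]
  · exact h.1.2 v fun k => (Finset.mem_union.1 k).elim hv hz

theorem G1_free (hZ : ∀ v ∈ Z, v ∉ R.S ∧ R.Free (T.σ v)) (A Ot : Finset P) (xs : P → F2) :
    R.G1 (A ∪ Z) (Ot ∪ Z) xs = R.G1 A Ot xs := by
  ext w
  refine ⟨fun h => ⟨⟨h.1.1, fun v hv => ?_⟩, fun v hv => h.2 v (Finset.mem_union_left _ hv)⟩,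
    fun h => ⟨⟨h.1.1, fun v hv => h.1.2 v fun k => hv (Finset.mem_union_left _ k)⟩,
      fun v hv => ?_⟩⟩
  · by_cases hz : v ∈ Z
    · exact (h.1.1.lz v).tau_of_free (hZ v hz).1 (hZ v hz).2
    · exact h.1.2 v fun k => (Finset.mem_union.1 k).elim hv hz
  · rcases Finset.mem_union.1 hv with hv | hv
    · exact h.2 v hv
    · intro n hn
      rw [(hZ v hv).2 n hn, ee_zero_right]

theorem GH_finite (d : F2) (A Ot : Finset P) (xs : P → F2) : (R.GH d A Ot xs).Finite :=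
  Set.Finite.of_injOn (f := fun w : W → H → F2 => (fun g => p0 (w g), fun g => p1 (w g)))
    (fun _ hw => hat_z1U_iff.1 hw.1)
    (fun _ _ _ _ e => funext fun g =>
      p_ext (congrFun (congrArg Prod.fst e) g) (congrFun (congrArg Prod.snd e) g))
    ((z1U_finite (R := R) A).prod (z1U_finite (R := R) A))

theorem GH_card (hO : ∀ v ∈ Ot, v ∉ R.S) (d : F2) (A : Finset P) (xs : P → F2) :
    (R.GH d A Ot xs).ncard ≤ (R.G1 A Ot xs).ncard ^ 2 := by
  rw [sq]
  refine (fam_diff (R.GH d A Ot xs) (fun w g => p0 (w g)) _ (G1_finite A Ot xs)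
    (fun w hw => ⟨(hat_z1U_iff.1 hw.1).1, fun v hv => (hw.2 v hv).1⟩) (fun w g => p1 (w g)) _
    (G1_finite A Ot xs)
    (fun _ _ _ _ e e' => funext fun g => p_ext (congrFun e g) (congrFun e' g)) ?_).2
  intro w hw w' hw' e
  have h := (hat_z1U_iff.1 hw.1).2
  have h' := (hat_z1U_iff.1 hw'.1).2
  rw [Fam_sub]
  refine ⟨Fam_z1U_add h h', fun v hv => ?_⟩
  have k := (hw.2 v hv).2.add (hO v hv) (h.1.lz v) (h'.1.lz v) (hw'.2 v hv).2
  have e' : p0 (w (T.τ v)) = p0 (w' (T.τ v)) := congrFun e _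
  rwa [e', vb_add_self] at k

theorem lh_zero (d s : F2) (v : P) : R.LH d s v 0 := by
  refine ⟨Fam_lls_zero s v, ?_⟩
  have e : (d * (T.dg v : F2)) • p0 ((0 : W → H → F2) (T.τ v)) = 0 := smul_zero _
  rw [e]
  exact Fam_lls_zero s v

theorem mem_GH_of_lifts {x : W → F2} (hx : T.IsHom x) (hA : R.Ram x A) (hO : Ot ⊆ A)
    (hO' : ∀ v ∈ Ot, v ∉ R.S) {lam : O} {j : ℕ} (hj : 0 < j) {w : W → H → F2}
    (h : (R.hat lam).Lifts A x j w) : w ∈ R.GH (res lam) A Ot fun v => x (T.σ v) :=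
  ⟨hat_z1U_iff.2 (hat_z1U_iff.1 (h.mem hj).1), fun v hv =>
    lh_of_ll hx (hO' v hv) (hA.2.1 v (hO hv) (hO' v hv)) ((h.mem hj).2 v (hO hv))⟩

variable {ι : Type} [DecidableEq ι]

variable (R) in
/-- governing families -/
def FamS (lam : O) (β : ι → W → F2) (U : Finset ι) (A Ot : Finset P) (xs : P → F2) :
    Set (Finset ι → W → H → F2) :=
  {Θ | (R.hat lam).URel β U Θ ∧ (∀ B ⊆ U, T.Sm (Θ B) ∧ (∀ v ∉ A, Θ B (T.τ v) = 0) ∧
    ∀ v ∈ Ot, (R.hat lam).LZ v (Θ B) ∧ R.LH (res lam) (xs v) v (Θ B)) ∧ ∀ B, ¬ B ⊆ U → Θ B = 0}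

theorem famS_ncard (hO : ∀ v ∈ Ot, v ∉ R.S) (lam : O) (β : ι → W → F2) (U : Finset ι)
    (A : Finset P) (xs : P → F2) :
    (R.FamS lam β U A Ot xs).Finite ∧
      (R.FamS lam β U A Ot xs).ncard ≤ ((R.G1 A Ot xs).ncard ^ 2) ^ 2 ^ U.card := by
  have key := ncard_le_pow U.powerset Finset.card _ (GH_finite (R := R) (res lam) A Ot xs)
    (R.FamS lam β U A Ot xs)
    (fun Θ hΘ B hB => hΘ.2.2 B fun h => hB (Finset.mem_powerset.2 h)) (by
      intro Θ hΘ Θ' hΘ' B hB hag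
      have hBU : B ⊆ U := Finset.mem_powerset.1 hB
      obtain ⟨s1, u1, l1⟩ := hΘ.2.1 B hBU
      obtain ⟨s2, u2, l2⟩ := hΘ'.2.1 B hBU
      rw [Fam_sub]
      refine ⟨⟨⟨Tame.sm_comp₂ s1 s2 fun a b => a + b, fun g g' => ?_⟩, fun v hv => ?_⟩,
        fun v hv => (l1 v hv).2.add (hO v hv) (l1 v hv).1 (l2 v hv).1 (l2 v hv).2⟩
      · have h1 := (hΘ.1.add hΘ'.1) B hBU g g'
        rw [uop_eq_top, hat_rb_eq (0 : O)] at h1
        · exact h1
        · intro C hC
          change Θ C g' + Θ' C g' = 0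
          rw [hag C (Finset.mem_powerset.2 (hC.subset.trans hBU)) (Finset.card_lt_card hC)]
          exact vb_add_self _
      · rw [Pi.add_apply, u1 v hv, u2 v hv, add_zero])
  rw [Finset.card_powerset] at key
  exact ⟨key.1, key.2.trans (Nat.pow_le_pow_left (GH_card hO _ A xs) _)⟩

end Rep

end

end Pool.Agent.Hyp
end

-- merged part: Pool.Agent.Work.MP_60d5ce_nt.Hy.Cnt
section
/-!
# Counting primes with a type, symbols and level one conditions  (task QT Cnt)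

Hints.  All bounds come from `pr_upper`, `pr_lower`, `prM_upper` (indices: `cl_nf`, `cl_sym`, `cl_z1'`,
`Cl.comp₂`, `cl_pi`, `Small.mono`), `dens_sym` (with `A0`, `N = 16`) and `dens_family_le`.
* `cnt_w`: family `z t` of `spread`, `J = Vb`: `w (g * z t) = w g + rb g t`, and the number of `t` with
  `ee (w g + rb g t) n = 0` for all `n` fixed by `g` is at most `4 / nf g` (finite check on `rb g`).
  Conjugation invariance: `ee_conj`, `fx_conj` (with `h⁻¹`).
* `cnt_mark`: for a fixed mark `n ≠ 0` use the family `z m` of `exists_zm`, `J = A'' → Matrix`: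
  `ch u n' (g * z m) = ch u n' g + rb g (m u n')` for `n'` fixed by `σ u` (`ch_spec`), and
  `ee (rb g t) n = ee t n` as `g` fixes `n`; for each `u` the number of matrices `m` with
  `ee (m n') n = b n'` for all `n'` fixed by `σ u` is at most `16 / nf (σ u)` (finite check on `rb (σ u)`);
  the count is a product (`Fintype.piFinset`).  There are three nonzero marks.
-/

namespace Pool.Agent.Hyp

open Pool.Agent.Quad

variable [Par]

open scoped Classical

noncomputable section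

theorem cnt_dual {M : Type} [AddCommGroup M] [Module F2 M] [Fintype M] (F : Submodule F2 Vb)
    (Φ : M →ₗ[F2] Module.Dual F2 F) (hΦ : Function.Surjective Φ) (b : Vb → F2) :
    (Finset.univ.filter fun m : M => ∀ f : F, Φ m f = b f).card * Nat.card F ≤ Fintype.card M := by
  rcases (Finset.univ.filter fun m : M => ∀ f : F, Φ m f = b f).eq_empty_or_nonempty with
    e | ⟨m0, h0⟩
  · rw [e, Finset.card_empty, zero_mul]
    exact Nat.zero_le _
  have h1 : (Finset.univ.filter fun m : M => ∀ f : F, Φ m f = b f).card ≤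
      Nat.card (LinearMap.ker Φ) := by
    rw [Nat.card_eq_fintype_card, ← Fintype.card_coe]
    refine Fintype.card_le_of_injective (fun m => ⟨m.1 - m0, LinearMap.mem_ker.2 (LinearMap.ext
      fun f => ?_)⟩) fun a c e => Subtype.ext (sub_left_injective (congrArg Subtype.val e))
    rw [map_sub, LinearMap.sub_apply, (Finset.mem_filter.1 m.2).2, (Finset.mem_filter.1 h0).2,
      sub_self, LinearMap.zero_apply]
  have h2 : Nat.card F = Nat.card (M ⧸ LinearMap.ker Φ) := by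
    rw [Nat.card_congr (Φ.quotKerEquivOfSurjective hΦ).toEquiv, 
      Module.natCard_eq_pow_finrank (K := F2) (V := F),
      Module.natCard_eq_pow_finrank (K := F2) (V := Module.Dual F2 F), Subspace.dual_finrank_eq]
  rw [h2, ← Nat.card_eq_fintype_card, Submodule.card_eq_card_quotient_mul_card (LinearMap.ker Φ)]
  exact Nat.mul_le_mul_right _ h1

/-- the fixed vectors -/
def cntF (r : Matrix Ix Ix F2) : Submodule F2 Vb := LinearMap.eqLocus r.mulVecLin LinearMap.id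

theorem cnt_F (r : Matrix Ix Ix F2) :
    (Finset.univ.filter fun n => r.mulVec n = n).card = Nat.card (cntF r) := by
  rw [Nat.card_eq_fintype_card, ← Fintype.card_coe]
  exact Fintype.card_congr (Equiv.subtypeEquivRight fun n => by simp [cntF])

theorem cnt_vec (r : Matrix Ix Ix F2) (hr : ∀ a, ∃ t, r.mulVec t = a) (y : Vb) :
    (Finset.univ.filter fun t : Vb => ∀ n, r.mulVec n = n → ee (y + r.mulVec t) n = 0).card *
      (Finset.univ.filter fun n => r.mulVec n = n).card ≤ Fintype.card Vb := by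
  let Φ : Vb →ₗ[F2] Module.Dual F2 (cntF r) := LinearMap.mk₂ F2 (fun t f => ee (r.mulVec t) f.1)
    (fun _ _ _ => by rw [Matrix.mulVec_add, ee_add_left])
    (fun _ _ _ => by rw [Matrix.mulVec_smul, ee_smul_left, smul_eq_mul])
    (fun _ _ _ => ee_add_right _ _ _) fun _ _ _ => ee_smul_right _ _ _
  rw [cnt_F]
  refine le_trans (Nat.mul_le_mul_right _ (Finset.card_le_card fun t ht => ?_))
    (cnt_dual (cntF r) Φ (fun φ => ?_) fun n => ee y n)
  · refine Finset.mem_filter.2 ⟨Finset.mem_univ _, fun f => ?_⟩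
    have := (Finset.mem_filter.1 ht).2 f.1 f.2
    rw [ee_add_left, ← F2_sub, sub_eq_zero] at this
    exact this.symm
  · obtain ⟨ψ, hψ⟩ := LinearMap.exists_extend φ
    obtain ⟨a, ha⟩ := exists_ee ψ
    obtain ⟨t, rfl⟩ := hr a
    exact ⟨t, LinearMap.ext fun f => by rw [← hψ]; exact (ha f).symm⟩

theorem cnt_mat (r : Matrix Ix Ix F2) (n : Vb) (hn : n ≠ 0) (b : Vb → F2) :
    (Finset.univ.filter fun m : Matrix Ix Ix F2 =>
      ∀ n', r.mulVec n' = n' → ee (m.mulVec n') n = b n').card *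
      (Finset.univ.filter fun n => r.mulVec n = n).card ≤ Fintype.card (Matrix Ix Ix F2) := by
  let Φ : Matrix Ix Ix F2 →ₗ[F2] Module.Dual F2 (cntF r) :=
    LinearMap.mk₂ F2 (fun m f => ee (m.mulVec f.1) n)
    (fun _ _ _ => by rw [Matrix.add_mulVec, ee_add_left])
    (fun _ _ _ => by rw [Matrix.smul_mulVec, ee_smul_left, smul_eq_mul])
    (fun _ _ _ => by rw [Submodule.coe_add, Matrix.mulVec_add, ee_add_left])
    fun _ _ _ => by rw [Submodule.coe_smul, Matrix.mulVec_smul, ee_smul_left, smul_eq_mul]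
  rw [cnt_F]
  refine le_trans (Nat.mul_le_mul_right _ (Finset.card_le_card fun t ht => ?_))
    (cnt_dual (cntF r) Φ (fun φ => ?_) b)
  · exact Finset.mem_filter.2 ⟨Finset.mem_univ _, fun f => (Finset.mem_filter.1 ht).2 f.1 f.2⟩
  · obtain ⟨ψ, hψ⟩ := LinearMap.exists_extend φ
    obtain ⟨a, ha⟩ := exists_ee ψ
    obtain ⟨t, ht⟩ := exists_ee_ne hn
    obtain ⟨m, hm⟩ := Rep.ZoneA_rk a t
    refine ⟨m, LinearMap.ext fun f => ?_⟩
    rw [← hψ]
    change ee (m.mulVec f.1) n = ψ f.1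
    rw [hm, ee_smul_left, ee_comm t, ht, mul_one, ha, ee_comm]

theorem cnt_nc {α : Type} [Fintype α] (p : α → Prop) [DecidablePred p] :
    ({a | p a} : Set α).ncard = (Finset.univ.filter p).card := by
  rw [← Finset.coe_filter_univ, Set.ncard_coe_finset]

theorem cnt_div {a t c : ℕ} (ht : 1 ≤ t) (h : a * t ≤ c) :
    (a : ℝ) ≤ (t : ℝ)⁻¹ * c := by
  rw [le_inv_mul_iff₀' (by exact_mod_cast (by omega : 0 < t))]
  exact_mod_cast h

variable {W P : Type} [Group W] {T : Tame W P}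

namespace Rep

variable (R : Rep T)

/-- the expected number of primes of type `t` and degree `e` with `n` prescribed symbols -/
def wt (t e n : ℕ) : ℝ := T.dens (fun g => R.nf g = t) e * ((T.q : ℝ) ^ e / e) * (2 : ℝ)⁻¹ ^ n

/-- type and symbols -/
def TS (t : ℕ) (A' : Finset P) (c : P → F2) (g : W) : Prop := R.nf g = t ∧ ∀ a ∈ A', T.χ a g = c a

variable {R} {A0 A' : Finset P} {e : ℕ} {η : ℝ}

theorem cnt_nf (g : W) :
    R.nf g = (Finset.univ.filter fun n => (R.rb g).mulVec n = n).card :=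
  cnt_nc fun n => (R.rb g).mulVec n = n

theorem cnt_cl (hS : R.S ⊆ A0) (t : ℕ) (c : P → F2) :
    T.Cl (A0 ∪ A') (NM * 2 ^ A'.card) (R.TS t A' c) := by
  exact (cl_nf (hS.trans Finset.subset_union_left)).comp₂
    (Tame.cl_sym (Finset.mem_union_left _ (hS R.inf_mem)) Finset.subset_union_right c)
    fun a p => a = t ∧ p

theorem cnt_conj {t : ℕ} {c : P → F2} {g : W} (h : W) (k : R.TS t A' c g) :
    R.TS t A' c (h * g * h⁻¹) :=
  ⟨(nf_conj g h).trans k.1, fun a ha => (Tame.hom_conj (T.χ_hom a) g h).trans (k.2 a ha)⟩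

theorem cnt_shift {t : ℕ} {c : P → F2} {g z : W} (h1 : R.rb z = 1)
    (h2 : ∀ h : W → F2, T.IsHom h → h z = 0) (k : R.TS t A' c (g * z)) : R.TS t A' c g :=
  ⟨(nf_congr (by rw [Lat.rb_mul, h1, mul_one])).trans k.1, fun a ha => by
    rw [← k.2 a ha, (T.χ_hom a).2, h2 _ (T.χ_hom a), add_zero]⟩

theorem cnt_dens (hS : R.S ⊆ A0) (hd : ∀ a ∈ A', a ∉ A0) (t : ℕ) (c : P → F2) (e : ℕ) :
    T.dens (R.TS t A' c) e * ((T.q : ℝ) ^ e / e) = R.wt t e A'.card := by
  have h := Tame.dens_sym (e := e) (hS R.inf_mem) ((cl_nf hS).comp (· = t)) hd c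
  rw [wt, mul_comm _ (_ ^ A'.card), ← mul_assoc, ← h]
  rfl

theorem cnt_end {a d d' θ X : ℝ} (hη : 0 ≤ η) (hX : 0 ≤ X) (h1 : a ≤ (1 + η) * (d * X))
    (h2 : d ≤ θ * d') : a ≤ θ * ((1 + η) * (d' * X)) :=
  h1.trans ((mul_le_mul_of_nonneg_left (mul_le_mul_of_nonneg_right h2 hX) (by linarith)).trans_eq
    (by ring))

theorem wt_nonneg (t e n : ℕ) : 0 ≤ R.wt t e n := by
  exact mul_nonneg (mul_nonneg Tame.dens_nonneg (by positivity)) (by positivity)

theorem cnt_lower (hS : R.S ⊆ A0) (t : ℕ) (he : 0 < e)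
    (h : T.Small η NM (∑ v ∈ A0, T.dg v) e) :
    (1 - η) * R.wt t e 0 ≤ ((T.Pr A0 (fun g => R.nf g = t) e).ncard : ℝ) := by
  rw [wt, pow_zero, mul_one]
  exact Tame.pr_lower (hS R.inf_mem) ((cl_nf hS).comp (· = t))
    (fun g k h1 => (nf_conj g k).trans h1) he h

theorem cnt_frac (hS : R.S ⊆ A0) {t : ℕ} (ht : t = 1 ∨ t = NV) (he : 0 < e) (hη : η ≤ 1 / 8)
    (h : T.Small η NM (∑ v ∈ A0, T.dg v) e) :
    1 / (2 * NM) * ((T.Pr A0 (fun _ => True) e).ncard : ℝ) ≤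
      ((T.Pr A0 (fun g => R.nf g = t) e).ncard : ℝ) := by
  have h1 := Tame.pr_upper (hS R.inf_mem) (Tame.cl_const True) (fun _ _ k => k) he
    (h.mono le_rfl NM_pos le_rfl)
  have h2 := cnt_lower hS t he h
  have h3 : (0 : ℝ) ≤ (T.q : ℝ) ^ e / e := by positivity
  have h4 := mul_le_mul_of_nonneg_left (mul_le_mul_of_nonneg_right (dens_nf (R := R) ht e) h3)
    (show 0 ≤ 1 - η by linarith)
  rw [Tame.dens_true] at h1
  rw [wt, pow_zero, mul_one] at h2
  have h5 : (0 : ℝ) < 1 / NM := one_div_pos.2 (by exact_mod_cast NM_pos)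
  rw [show 1 / (2 * (NM : ℝ)) = 1 / NM / 2 by rw [div_div, mul_comm]]
  generalize 1 / (NM : ℝ) = u at *
  nlinarith [mul_le_mul_of_nonneg_right hη (mul_nonneg h5.le h3), mul_le_mul_of_nonneg_left h1 h5.le]

theorem cnt_ty (hS : R.S ⊆ A0) (hd : ∀ a ∈ A', a ∉ A0) (t : ℕ) (c : P → F2) (he : 0 < e)
    (h : T.Small η (NN A'.card) (∑ v ∈ A0 ∪ A', T.dg v) e) :
    ((T.Pr (A0 ∪ A') (R.TS t A' c) e).ncard : ℝ) ≤ (1 + η) * R.wt t e A'.card := by
  rw [← cnt_dens hS hd t c]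
  exact Tame.pr_upper (Finset.mem_union_left _ (hS R.inf_mem)) (cnt_cl hS t c)
    (fun g k => cnt_conj k) he (h.mono le_rfl (NN_bound'' _) le_rfl)

theorem cnt_w (hS : R.S ⊆ A0) (hd : ∀ a ∈ A', a ∉ A0) (t : ℕ) (c : P → F2) (he : 0 < e)
    (h : T.Small η (NN A'.card) (∑ v ∈ A0 ∪ A', T.dg v) e) {w : W → Vb}
    (hw : w ∈ R.Z1U (A0 ∪ A')) (hc : ¬ R.IsCob w) :
    ((T.Pr (A0 ∪ A') (fun g => R.TS t A' c g ∧ ∀ n, R.Fx g n → ee (w g) n = 0) e).ncard : ℝ) ≤
      (t : ℝ)⁻¹ * ((1 + η) * R.wt t e A'.card) := by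
  have hc1 : T.Cl (A0 ∪ A') (NM * 2 ^ A'.card * (NM * NV))
      fun g => R.TS t A' c g ∧ ∀ n, R.Fx g n → ee (w g) n = 0 :=
    (cnt_cl hS t c).comp₂ (cl_z1' (hS.trans Finset.subset_union_left) hw)
      fun p y => p ∧ ∀ n, y.1.mulVec n = n → ee y.2 n = 0
  choose z z1 z2 z3 z4 using spread hw.1 hc
  rw [← cnt_dens hS hd t c]
  refine cnt_end h.nonneg (by positivity) (Tame.pr_upper (Finset.mem_union_left _ (hS R.inf_mem))
    hc1 (fun g k h1 => ⟨cnt_conj k h1.1, fun n hn => ?_⟩) he (h.mono le_rfl ?_ le_rfl))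
    (Tame.dens_family_le hc1.sm (cnt_cl hS t c).sm z z1 (by positivity)
      (fun g _ j h1 => cnt_shift (z2 j) (z3 j) h1.1) fun g _ h1 => ?_)
  · have h2 := fx_conj hn k⁻¹
    rw [show k⁻¹ * (k * g * k⁻¹) * k⁻¹⁻¹ = g by group] at h2
    rw [← Lat.rb_mulVec_inv (R := R.toLat) k n, ee_conj hw.1 h2, h1.2 _ h2]
  · exact NN_bound' _
  · have h2 := cnt_vec _ (fun a => ⟨_, Lat.rb_mulVec_inv (R := R.toLat) g a⟩) (w g)
    rw [← cnt_nf, h1.1, ← cnt_nc] at h2
    refine cnt_div (h1.1 ▸ nf_pos g) (le_trans (Nat.mul_le_mul_right _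
      (Set.ncard_le_ncard ?_ (Set.toFinite _))) h2)
    intro j hj n hn
    rw [← z4 j, ← hw.1.2]
    exact hj.2 n (by rwa [Lat.Fx, Lat.rb_mul, z2, mul_one])

theorem cnt_mark (hS : R.S ⊆ A0) (hd : ∀ a ∈ A', a ∉ A0) (t : ℕ) (c : P → F2) (he : 0 < e)
    (h : T.Small η (NN A'.card) (∑ v ∈ A0 ∪ A', T.dg v) e) {A'' : Finset P} (hA : A'' ⊆ A')
    (b : P → Vb → F2) :
    ((T.PrM (A0 ∪ A') (fun g (n : Vb) => R.TS t A' c g ∧ R.Fx g n ∧ n ≠ 0 ∧
        ∀ u ∈ A'', ∀ n', R.Fx (T.σ u) n' → ee (R.ch u n' g) n = b u n') e).ncard : ℝ) ≤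
      NV * (∏ u ∈ A'', (R.nf (T.σ u) : ℝ)⁻¹) * ((1 + η) * R.wt t e A'.card) := by
  have hu : ∀ u ∈ A'', u ∉ R.S := fun u k k' => hd u (hA k) (hS k')
  have hS' : R.S ⊆ A0 ∪ A' := hS.trans Finset.subset_union_left
  have hc0 : T.Cl (A0 ∪ A') ((NM * NV) ^ Fintype.card (A'' × Vb)) fun g (p : A'' × Vb) =>
      R.ch p.1 p.2 g := Tame.cl_pi fun p => (cl_z1' hS' (z1U_mono (Finset.insert_subset
        (Finset.mem_union_right _ (hA p.1.2)) hS') (ch_mem (R := R) p.1.1 p.2))).comp Prod.snd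
  have hm : R.MP (A0 ∪ A') (NM * 2 ^ A'.card * NM * (NM * NV) ^ Fintype.card (A'' × Vb))
      fun g (n : Vb) => R.TS t A' c g ∧ R.Fx g n ∧ n ≠ 0 ∧
        ∀ u ∈ A'', ∀ n', R.Fx (T.σ u) n' → ee (R.ch u n' g) n = b u n' := by
    refine ⟨?_, fun g n k h1 => ⟨cnt_conj k h1.1, fx_conj h1.2.1 k,
      fun h2 => h1.2.2.1 (Lat.rb_mulVec_eq_zero h2),
      fun u k1 n' k2 => (ee_conj (ch_mem u n').1 h1.2.1 k).trans (h1.2.2.2 u k1 n' k2)⟩⟩
    simpa only [Subtype.forall, Lat.Fx] using (((cnt_cl hS t c).comp₂ (cl_rb' hS') Prod.mk).comp₂ hc0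
      fun y F (n : Vb) => y.1 ∧ y.2.mulVec n = n ∧ n ≠ 0 ∧
        ∀ u : A'', ∀ n', R.Fx (T.σ u) n' → ee (F (u, n')) n = b u n')
  choose z z1 z2 z3 z4 using fun m : A'' → Matrix Ix Ix F2 =>
    exists_zm hu fun u => if k : u ∈ A'' then m ⟨u, k⟩ else 0
  have z5 : ∀ m (u : A'') n', R.Fx (T.σ u) n' → R.ch u n' (z m) = (m u).mulVec n' :=
    fun m u n' k => by
      rw [z4 m _ (ch_mem (R := R) u.1 n').1, Finset.sum_eq_single_of_mem u.1 u.2 fun v hv k' => by
        rw [(ch_mem u.1 n').2 v fun k1 => (Finset.mem_insert.1 k1).elim k' (hu v hv),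
          Matrix.mulVec_zero], dif_pos u.2, (ch_spec (hu _ u.2) k).2]
  have hθ : 0 ≤ ∏ u ∈ A'', (R.nf (T.σ u) : ℝ)⁻¹ := by positivity
  rw [← cnt_dens hS hd t c]
  refine cnt_end h.nonneg (by positivity) (Lat.prM_upper (Finset.mem_union_left _ (hS R.inf_mem))
    hm he (h.mono le_rfl ?_ le_rfl)) ?_
  · rw [Fintype.card_prod, Fintype.card_coe, card_Vb]
    exact NN_bound (Finset.card_le_card hA)
  rw [Tame.dM, ← Finset.add_sum_erase _ _ (Finset.mem_univ 0),
    Tame.dens_false fun g _ k => k.2.2.1 rfl, zero_add, mul_assoc]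
  refine (Finset.sum_le_card_nsmul _ _ _ fun n hn => Tame.dens_family_le
    (Tame.sm_comp hm.cl.sm fun F => F n) (cnt_cl hS t c).sm z z1 hθ
    (fun g _ j h1 => cnt_shift (z2 j) (z3 j) h1.1) fun g _ _ => ?_).trans ?_
  · have h2 : ∀ u : A'', _ := fun u => cnt_div (nf_pos (R := R) (T.σ u)) ((cnt_nf (R := R) _).symm ▸
      cnt_mat (R.rb (T.σ u)) n (Finset.ne_of_mem_erase hn) fun n' => b u n' - ee (R.ch u n' g) n)
    refine le_trans ?_ ((Finset.prod_le_prod (s := Finset.univ) (fun _ _ => Nat.cast_nonneg _)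
      fun u _ => h2 u).trans_eq ?_)
    · rw [← Nat.cast_prod, Nat.cast_le, ← Fintype.card_piFinset, ← Set.ncard_coe_finset]
      refine Set.ncard_le_ncard (fun m hm => Finset.mem_coe.2 (Fintype.mem_piFinset.2 fun u =>
        Finset.mem_filter.2 ⟨Finset.mem_univ _, fun n' k => ?_⟩)) (Set.toFinite _)
      have h3 : (R.rb g).mulVec n = n := by
        have := hm.2.1
        rwa [Lat.Fx, Lat.rb_mul, z2, mul_one] at this
      rw [← hm.2.2.2 u u.2 n' k, (ch_mem u.1 n').1.2, z5 m u n' k, ee_add_left,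
        add_sub_cancel_left, ← ee_rb (R := R) g, h3]
    · rw [Finset.prod_mul_distrib, Finset.prod_coe_sort A'' fun u => (R.nf (T.σ u) : ℝ)⁻¹,
        Finset.prod_const, Fintype.card_fun, Nat.cast_pow]
      rfl
  · rw [nsmul_eq_mul]
    refine mul_le_mul_of_nonneg_right (Nat.cast_le.2 ?_) (mul_nonneg hθ Tame.dens_nonneg)
    rw [← card_Vb]
    exact Finset.card_le_univ _

end Rep

end

end Pool.Agent.Hyp
end

-- merged part: Pool.Agent.Work.MP_60d5ce_nt.Hy.BoxA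
section
/-!
# Boxes of primes: definitions and basic facts  (task QT BoxA)

Template `Sm/BoxA.lean`.
* `tpts_lower`: `tpts ty` is the product of the sets `Pr S1 (nf = ty i) (e i)` (`cnt_lower`, `Small.mono`,
  `16 ≤ NN _`); `∏ (1 - η) ≥ 7 / 8`, `∏ (1 + η) ≤ 8 / 7` (for instance `1 + η ≤ (1 - η)⁻¹`).
* `x_eq`: `chi_symm` for the indices of larger rank.
* `exists_rk`: `rk i = e i + (∑ e + 1)` on `I` and `e i` elsewhere, `η' = 1 / B` on `I` and `η` elsewhere.
* `geom_rk`: induction on `J`, removing the element of maximal rank (`Finset.induction_on_max_value`).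
* `sum_cf`: the configurations vanish outside the pairs `rk j < rk i`, so there are `2 ^ ∑ card prev` of them;
  sum over the fibres.
-/

namespace Pool.Agent.Hyp

open Pool.Agent.Quad

variable [Par]

open scoped Classical

noncomputable section

variable {W P : Type} [Group W] {T : Tame W P}

/-- a box: fixed places, a fixed character, distinct degrees -/
structure Box (R : Rep T) (ι : Type) where
  S1 : Finset P
  x0 : W → F2
  e : ι → ℕ
  x0_hom : T.IsHom x0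
  ram : R.Ram x0 S1
  e_inj : Function.Injective e
  e_pos : ∀ i, 0 < e i

/-- the indices of smaller rank -/
def prev {ι : Type} [Fintype ι] (rk : ι → ℕ) (i : ι) : Finset ι :=
  Finset.univ.filter fun j => rk j < rk i

/-- the indices other than `a`, `b` -/
def jab {ι : Type} [Fintype ι] (a b : ι) : Finset ι := Finset.univ.filter fun i => i ≠ a ∧ i ≠ b

/-- the constant of the first moments -/
def CC (m : ℕ) : ℕ := 8 * NV ^ 3 * (NV ^ 4) ^ m

theorem geom_rk {ι : Type} (rk : ι → ℕ) (hrk : Function.Injective rk) (t : ι → ℕ) (ht : ∀ i, 1 ≤ t i)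
    (J : Finset ι) : ∑ a ∈ J.filter (fun a => 2 ≤ t a),
      ∏ j ∈ J.filter (fun j => rk a < rk j), (t j : ℝ)⁻¹ ≤ 2 := by
  induction J using Finset.induction_on_max_value rk with
  | empty => simp
  | insert m s hm hmax ih =>
    have h1 : ∀ a ∈ s.filter (fun a => 2 ≤ t a), ∏ j ∈ (insert m s).filter (fun j => rk a < rk j),
        (t j : ℝ)⁻¹ = (t m : ℝ)⁻¹ * ∏ j ∈ s.filter (fun j => rk a < rk j), (t j : ℝ)⁻¹ :=
      fun a ha => by
        have h2 := (Finset.mem_filter.1 ha).1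
        rw [Finset.filter_insert, if_pos (lt_of_le_of_ne (hmax a h2) fun h => hm (hrk h ▸ h2)),
          Finset.prod_insert fun h => hm (Finset.mem_filter.1 h).1]
    have h2 : (insert m s).filter (fun j => rk m < rk j) = ∅ :=
      Finset.filter_eq_empty_iff.2 fun j hj => not_lt.2
        ((Finset.mem_insert.1 hj).elim (fun h => h ▸ le_rfl) (hmax j))
    rw [Finset.filter_insert]
    split_ifs with h
    · have h3 : (t m : ℝ)⁻¹ ≤ 2⁻¹ := inv_anti₀ two_pos (by exact_mod_cast h)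
      rw [Finset.sum_insert fun h => hm (Finset.mem_filter.1 h).1, h2, Finset.prod_empty,
        Finset.sum_congr rfl h1, ← Finset.mul_sum]
      linarith [mul_le_mul h3 ih (by positivity) (by norm_num)]
    · have h3 : (t m : ℝ)⁻¹ ≤ 1 := inv_le_one_of_one_le₀ (by exact_mod_cast ht m)
      rw [Finset.sum_congr rfl h1, ← Finset.mul_sum]
      linarith [mul_le_mul h3 ih (by positivity) (by norm_num)]

namespace Box

variable {R : Rep T} {ι : Type} [Fintype ι] (X : Box R ι)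

/-- the points of the box -/
def pts : Set (ι → P) := {p | ∀ i, T.dg (p i) = X.e i ∧ p i ∉ X.S1}

/-- the points with given types -/
def tpts (ty : ι → ℕ) : Set (ι → P) := {p | p ∈ X.pts ∧ ∀ i, R.nf (T.σ (p i)) = ty i}

/-- the twist -/
def x (p : ι → P) (g : W) : F2 := X.x0 g + ∑ i, T.χ (p i) g

/-- the places with a local condition -/
def A (p : ι → P) : Finset P := X.S1 ∪ Finset.univ.image p

/-- classes of level one ramified only at the indices of `J` -/
def Gs (J : Finset ι) (p : ι → P) : Set (W → Vb) :=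
  R.G1 (X.S1 ∪ J.image p) (J.image p) fun v => X.x p (T.σ v)

/-- error terms when the primes are chosen in the order given by `rk` -/
def SmR (rk : ι → ℕ) (η : ι → ℝ) : Prop :=
  ∀ i, T.Small (η i) (NN (prev rk i).card) (∑ v ∈ X.S1, T.dg v + ∑ j ∈ prev rk i, X.e j) (X.e i)

/-- error terms for the order of the degrees -/
def SmA (η : ι → ℝ) : Prop := ∑ i, η i ≤ 1 / 16 ∧ X.SmR X.e η

/-- error terms for the large degrees -/
def SmL (B : ℕ) (L : Finset ι) : Prop :=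
  ∀ j ∈ L, T.Small (1 / (B : ℝ)) (B * NN (X.S1.card + Fintype.card ι))
    (∑ v ∈ X.S1, T.dg v + B * ∑ i, X.e i) (X.e j)

/-- the mutual symbols -/
def cf (_X : Box R ι) (rk : ι → ℕ) (p : ι → P) (i j : ι) : F2 :=
  if rk j < rk i then T.χ (p j) (T.σ (p i)) else 0

/-- the class with given marks -/
def wf (_X : Box R ι) (w0 : W → Vb) (f : ι → P × Vb) (g : W) : Vb :=
  w0 g + ∑ i, R.ch (f i).1 (f i).2 g

/-- a nontrivial class unramified on `I` -/
def FM (I : Finset ι) (p : ι → P) : Prop :=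
  ∃ w ∈ X.Gs Finset.univ p, ¬ R.IsCob w ∧ ∀ i ∈ I, w (T.τ (p i)) = 0

/-- a class whose marks on `I` are values of a second cocycle -/
def G2 (I : Finset ι) (p : ι → P) : Prop :=
  ∃ w ∈ X.Gs Finset.univ p, ∃ u ∈ R.Z1U (X.S1 ∪ Iᶜ.image p),
    (∀ j, R.LLs (X.x p (T.σ (p j))) ((X.e j : F2) • w (T.τ (p j))) (p j) u) ∧
      ∃ i ∈ I, w (T.τ (p i)) ≠ 0

/-- pairs of a point and a class in general position at `a`, `b` that lifts to level `j` -/
def Prs (ty : ι → ℕ) (lam : O) (a b : ι) (Rb j : ℕ) : Set ((ι → P) × (W → H → F2)) :=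
  {z | z.1 ∈ X.tpts ty ∧ (X.Gs (jab a b) z.1).ncard ≤ Rb ∧
    R.Nondeg (z.2 (T.τ (z.1 a))) (z.2 (T.τ (z.1 b))) ∧
    (R.hat lam).Lifts (X.A z.1) (X.x z.1) j z.2}

variable {X} {p p' : ι → P} {ty : ι → ℕ} {rk : ι → ℕ} {η : ι → ℝ}

theorem S_sub : R.S ⊆ X.S1 := X.ram.1

theorem inf_mem : T.inf ∈ X.S1 := S_sub R.inf_mem

theorem pts_finite : X.pts.Finite :=
  (Set.Finite.pi' fun i => T.dg_fin (X.e i)).subset fun _ hp i => (hp i).1

theorem tpts_finite (ty : ι → ℕ) : (X.tpts ty).Finite := pts_finite.subset fun _ h => h.1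

theorem inj (hp : p ∈ X.pts) : Function.Injective p := fun i j h =>
  X.e_inj (by rw [← (hp i).1, ← (hp j).1, h])

theorem ne_inf (hp : p ∈ X.pts) (i : ι) : p i ≠ T.inf := fun h => (hp i).2 (h ▸ inf_mem)

theorem notMem_S (hp : p ∈ X.pts) (i : ι) : p i ∉ R.S := fun h => (hp i).2 (S_sub h)

theorem image_S (hp : p ∈ X.pts) (J : Finset ι) : ∀ v ∈ J.image p, v ∉ R.S := by
  intro v hv
  obtain ⟨i, -, rfl⟩ := Finset.mem_image.1 hv
  exact notMem_S hp i

theorem x_hom (p : ι → P) : T.IsHom (X.x p) := by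
  exact Tame.hom_add X.x0_hom (Tame.hom_sum Finset.univ fun i _ => T.χ_hom (p i))

theorem x_τ (hp : p ∈ X.pts) (i : ι) : X.x p (T.τ (p i)) = 1 := by
  rw [x, X.ram.2.2 _ (hp i).2, zero_add, Finset.sum_eq_single i
    (fun j _ hj => T.χ_ne _ _ (fun h => hj (inj hp h).symm) (ne_inf hp i)) (by simp),
    T.χ_self _ (ne_inf hp i)]

theorem ram_x (hp : p ∈ X.pts) : R.Ram (X.x p) (X.A p) := by
  refine ⟨S_sub.trans Finset.subset_union_left, fun v hv h1 => ?_, fun v hv => ?_⟩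
  · rcases Finset.mem_union.1 hv with h | h
    · rw [x, X.ram.2.1 v h h1, Finset.sum_eq_zero fun i _ => T.χ_ne (p i) v
        (fun e => (hp i).2 (e ▸ h)) fun e => h1 (e ▸ R.inf_mem), add_zero]
    · obtain ⟨i, -, rfl⟩ := Finset.mem_image.1 h
      exact x_τ hp i
  · rw [A, Finset.mem_union, not_or] at hv
    rw [x, X.ram.2.2 v hv.1, zero_add]
    exact Finset.sum_eq_zero fun i _ => T.χ_ne _ v
      (fun h => hv.2 (Finset.mem_image.2 ⟨i, Finset.mem_univ i, h.symm⟩))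
      fun h => hv.1 (h ▸ inf_mem)

theorem ty_pos (hp : p ∈ X.tpts ty) (i : ι) : 1 ≤ ty i := by
  have := Rep.nf_pos (R := R) (T.σ (p i))
  rwa [hp.2 i] at this

theorem x_eq (hrk : Function.Injective rk) (hp : p ∈ X.pts) (hp' : p' ∈ X.pts)
    (h : X.cf rk p = X.cf rk p') {j : ι} (hj : p j = p' j) :
    X.x p (T.σ (p j)) = X.x p' (T.σ (p' j)) := by
  rw [x, x, ← hj]
  refine congrArg _ (Finset.sum_congr rfl fun i _ => ?_)
  rcases lt_trichotomy (rk i) (rk j) with k | k | k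
  · have := congrFun (congrFun h j) i
    rwa [cf, cf, if_pos k, if_pos k, ← hj] at this
  · rw [hrk k, hj]
  · have := congrFun (congrFun h i) j
    have hne : i ≠ j := fun e => k.ne (e ▸ rfl)
    rw [cf, cf, if_pos k, if_pos k] at this
    rw [Tame.chi_symm (ne_inf hp i) (ne_inf hp j) fun e => hne (inj hp e), this, hj,
      Tame.chi_symm (ne_inf hp' i) (ne_inf hp' j) fun e => hne (inj hp' e), (hp i).1, (hp' i).1]

theorem wf_mem {w0 : W → Vb} (h0 : w0 ∈ R.Z1U X.S1) (f : ι → P × Vb) {J : Finset ι}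
    (hJ : ∀ i ∉ J, (f i).2 = 0) : X.wf w0 f ∈ R.Z1U (X.S1 ∪ J.image fun i => (f i).1) := by
  refine ⟨h0.1.add (Lat.Z1.sum Finset.univ fun i _ => (Rep.ch_mem (f i).1 (f i).2).1),
    fun v hv => ?_⟩
  rw [Finset.mem_union, not_or] at hv
  rw [wf, h0.2 v hv.1, zero_add]
  refine Finset.sum_eq_zero fun i _ => ?_
  by_cases hi : i ∈ J
  · exact (Rep.ch_mem (f i).1 (f i).2).2 v fun k => (Finset.mem_insert.1 k).elim
      (fun e => hv.2 (Finset.mem_image.2 ⟨i, hi, e.symm⟩)) fun k => hv.1 (S_sub k)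
  · rw [hJ i hi, Rep.ch_zero]
    rfl

theorem wf_τ {w0 : W → Vb} (h0 : w0 ∈ R.Z1U X.S1) {f : ι → P × Vb}
    (hp : (fun i => (f i).1) ∈ X.pts) (hf : ∀ i, R.Fx (T.σ (f i).1) (f i).2) (i : ι) :
    X.wf w0 f (T.τ (f i).1) = (f i).2 := by
  rw [wf, h0.2 _ (hp i).2, zero_add, Finset.sum_eq_single i (fun j _ hj =>
    (Rep.ch_mem (f j).1 (f j).2).2 _ fun k => (Finset.mem_insert.1 k).elim
      (fun e => hj (inj hp e).symm) (notMem_S hp i)) (by simp)]
  exact (Rep.ch_spec (notMem_S hp i) (hf i)).2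

theorem exists_w0 (hp : p ∈ X.pts) {w : W → Vb} (hw : w ∈ R.Z1U (X.A p)) :
    (∀ i, R.Fx (T.σ (p i)) (w (T.τ (p i)))) ∧
      ∃ w0 ∈ R.Z1U X.S1, w = X.wf w0 fun i => (p i, w (T.τ (p i))) := by
  have h1 := fun i => (hw.1.lz (p i)).fx (notMem_S hp i)
  have h0 : (0 : W → Vb) ∈ R.Z1U X.S1 := ⟨Lat.z1_zero, fun _ _ => rfl⟩
  have h2 := wf_mem h0 (fun i => (p i, w (T.τ (p i)))) (J := Finset.univ)
    fun i hi => absurd (Finset.mem_univ i) hi
  refine ⟨h1, w + X.wf 0 fun i => (p i, w (T.τ (p i))), ⟨hw.1.add h2.1, fun v hv => ?_⟩,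
    funext fun g => ?_⟩
  · by_cases h : v ∈ Finset.univ.image p
    · obtain ⟨i, -, rfl⟩ := Finset.mem_image.1 h
      rw [Pi.add_apply, wf_τ h0 (f := fun i => (p i, w (T.τ (p i)))) hp h1 i, vb_add_self]
    · have h3 : v ∉ X.A p := fun k => (Finset.mem_union.1 k).elim hv h
      rw [Pi.add_apply, hw.2 v h3, h2.2 v h3, add_zero]
  · rw [wf, Pi.add_apply, wf, Pi.zero_apply, zero_add, add_assoc, vb_add_self, add_zero]

omit [Fintype ι] in
theorem BoxA_prod (s : Finset ι) {η : ι → ℝ} (h0 : ∀ i, 0 ≤ η i) (h1 : ∀ i, η i ≤ 1) :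
    1 - ∑ i ∈ s, η i ≤ ∏ i ∈ s, (1 - η i) := by
  induction s using Finset.induction_on with
  | empty => simp
  | insert i s hi ih =>
    rw [Finset.sum_insert hi, Finset.prod_insert hi]
    have h2 : 0 ≤ ∑ i ∈ s, η i := Finset.sum_nonneg fun j _ => h0 j
    nlinarith [mul_le_mul_of_nonneg_left ih (sub_nonneg.2 (h1 i)), mul_nonneg (h0 i) h2]

theorem tpts_lower (h : X.SmR rk η) (hη : ∑ i, η i ≤ 1 / 8) (ty : ι → ℕ) :
    ∏ i, (1 + η i) * R.wt (ty i) (X.e i) 0 ≤ 2 * (X.tpts ty).ncard := by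
  have h0 : ∀ i, 0 ≤ η i := fun i => (h i).nonneg
  have h1 : ∀ i, η i ≤ 1 := fun i =>
    ((Finset.single_le_sum (fun j _ => h0 j) (Finset.mem_univ i)).trans hη).trans (by norm_num)
  have k2 : ∏ i, (1 - η i) * R.wt (ty i) (X.e i) 0 ≤ (X.tpts ty).ncard := by
    have e : X.tpts ty = ↑(Fintype.piFinset fun i =>
        (Tame.pr_finite (T := T) X.S1 (fun g => R.nf g = ty i) (X.e i)).toFinset) := by
      ext p
      simp only [tpts, pts, Tame.Pr, Set.mem_ofPred_eq, Fintype.coe_piFinset, Set.mem_univ_pi,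
        Set.Finite.coe_toFinset, forall_and, and_assoc]
    rw [e, Set.ncard_coe_finset, Fintype.card_piFinset, Nat.cast_prod]
    refine Finset.prod_le_prod (fun i _ => mul_nonneg (sub_nonneg.2 (h1 i)) (Rep.wt_nonneg _ _ _))
      fun i _ => ?_
    rw [← Set.ncard_eq_toFinset_card _ (Tame.pr_finite _ _ _)]
    exact Rep.cnt_lower S_sub _ (X.e_pos i) ((h i).mono le_rfl
      (NM_le_NN _) (Nat.le_add_right _ _))
  have k4 : (7 / 8 : ℝ) ≤ ∏ i, (1 - η i) := by
    have := BoxA_prod Finset.univ h0 h1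
    linarith
  have k5 : (∏ i, (1 + η i)) * ∏ i, (1 - η i) ≤ 1 := by
    rw [← Finset.prod_mul_distrib]
    exact Finset.prod_le_one (fun i _ => mul_nonneg (by linarith [h0 i]) (sub_nonneg.2 (h1 i)))
      fun i _ => by nlinarith [h0 i]
  have k6 : 0 ≤ ∏ i, (1 + η i) := Finset.prod_nonneg fun i _ => by linarith [h0 i]
  have k7 : ∏ i, (1 + η i) ≤ 2 * ∏ i, (1 - η i) := by nlinarith
  rw [Finset.prod_mul_distrib] at k2 ⊢
  refine (mul_le_mul_of_nonneg_right k7
    (Finset.prod_nonneg fun i _ => Rep.wt_nonneg _ _ _)).trans ?_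
  linarith

theorem SmL.mono {B B' : ℕ} {L : Finset ι} (hs : X.SmL B L) (hB : 0 < B') (h : B' ≤ B) :
    X.SmL B' L := by
  intro j hj
  exact (hs j hj).mono (one_div_le_one_div_of_le (by exact_mod_cast hB) (by exact_mod_cast h))
    (Nat.mul_le_mul_right _ h) (Nat.add_le_add_left (Nat.mul_le_mul_right _ h) _)

theorem exists_rk (hA : X.SmA η) {B : ℕ} {L I : Finset ι} (hL : X.SmL B L) (hI : I ⊆ L) (hB : 0 < B)
    (hc : 16 * I.card ≤ B) : ∃ (rk : ι → ℕ) (η' : ι → ℝ), Function.Injective rk ∧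
      (∀ i ∈ I, ∀ j ∉ I, rk j < rk i) ∧ ∑ i, η' i ≤ 1 / 8 ∧ X.SmR rk η' := by
  have h1 : ∀ j, X.e j ≤ ∑ i, X.e i := fun j =>
    Finset.single_le_sum (fun _ _ => Nat.zero_le _) (Finset.mem_univ j)
  refine ⟨fun i => if i ∈ I then X.e i + (∑ i, X.e i + 1) else X.e i,
    fun i => if i ∈ I then 1 / (B : ℝ) else η i, fun i j h => ?_, fun i hi j hj => ?_, ?_,
    fun i => ?_⟩
  · have := h1 i
    have := h1 j
    refine X.e_inj ?_
    dsimp only at h
    split_ifs at h <;> omega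
  · have := h1 j
    simp only [if_pos hi, if_neg hj]
    omega
  · have h2 : (I.card : ℝ) * (1 / B) ≤ 1 / 16 := by
      rw [mul_one_div, div_le_div_iff₀ (by exact_mod_cast hB) (by norm_num), one_mul, mul_comm]
      exact_mod_cast hc
    rw [Finset.sum_ite, Finset.sum_const, Finset.filter_mem_eq_inter, Finset.univ_inter,
      nsmul_eq_mul]
    linarith [hA.1, Finset.sum_le_sum_of_subset_of_nonneg (f := η)
      (Finset.filter_subset (· ∉ I) Finset.univ) fun i _ _ => (hA.2 i).nonneg]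
  · by_cases hi : i ∈ I
    · simp only [if_pos hi]
      exact (hL i (hI hi)).mono le_rfl
        ((NN_mono ((Finset.card_le_univ _).trans (Nat.le_add_left _ _))).trans
          (Nat.le_mul_of_pos_left _ hB))
        (Nat.add_le_add_left ((Finset.sum_le_sum_of_subset (Finset.subset_univ _)).trans
          (Nat.le_mul_of_pos_left _ hB)) _)
    · have h2 : prev (fun i => if i ∈ I then X.e i + (∑ i, X.e i + 1) else X.e i) i ⊆
          prev X.e i := fun j hj => by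
        simp only [prev, Finset.mem_filter, Finset.mem_univ, true_and, if_neg hi] at hj ⊢
        split_ifs at hj <;> omega
      simp only [if_neg hi]
      exact (hA.2 i).mono le_rfl (NN_mono (Finset.card_le_card h2))
        (Nat.add_le_add_left (Finset.sum_le_sum_of_subset h2) _)

theorem sum_cf {α : Type} (𝒮 : Set α) (π : α → ι → P) {b : ℝ} (hb : 0 ≤ b)
    (h : ∀ c, {f | f ∈ 𝒮 ∧ X.cf rk (π f) = c}.Finite ∧
      ({f | f ∈ 𝒮 ∧ X.cf rk (π f) = c}.ncard : ℝ) ≤ b * ∏ i, (2 : ℝ)⁻¹ ^ (prev rk i).card) :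
    𝒮.Finite ∧ (𝒮.ncard : ℝ) ≤ b := by
  obtain ⟨h1, -, h2⟩ := seq_fiber 𝒮 (↑(Fintype.piFinset fun i => Fintype.piFinset fun j =>
      if rk j < rk i then (Finset.univ : Finset F2) else {0})) (Finset.finite_toSet _)
    (fun f => X.cf rk (π f)) (fun f _ => Finset.mem_coe.2 (Fintype.mem_piFinset.2 fun i =>
      Fintype.mem_piFinset.2 fun j => by
        rw [cf]
        split_ifs
        exacts [Finset.mem_univ _, Finset.mem_singleton_self _]))
    (fun c _ => (h c).1) 0 _ fun c _ => ⟨Nat.cast_nonneg _, (h c).2⟩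
  refine ⟨h1, h2.trans_eq ?_⟩
  rw [Set.ncard_coe_finset, Fintype.card_piFinset, Nat.cast_prod, mul_assoc,
    ← Finset.prod_mul_distrib, Finset.prod_eq_one fun i _ => ?_, mul_one]
  simp only [Fintype.card_piFinset, apply_ite Finset.card, Finset.card_univ, ZMod.card,
    Finset.card_singleton, Finset.prod_ite, Finset.prod_const, one_pow, mul_one]
  rw [prev, Nat.cast_pow, Nat.cast_ofNat, ← mul_pow, inv_mul_cancel₀ two_ne_zero, one_pow]

theorem Prs_anti {lam : O} {a b : ι} {Rb i j : ℕ} (h : i ≤ j) :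
    X.Prs ty lam a b Rb j ⊆ X.Prs ty lam a b Rb i := by
  exact fun _ k => ⟨k.1, k.2.1, k.2.2.1, k.2.2.2.mono h⟩

theorem BoxA_GH (hp : p ∈ X.pts) {lam : O} {j : ℕ} (hj : 1 ≤ j) {w : W → H → F2}
    (h : (R.hat lam).Lifts (X.A p) (X.x p) j w) (J : Finset ι) :
    w ∈ R.GH (res lam) (X.A p) (J.image p) fun v => X.x p (T.σ v) :=
  Rep.mem_GH_of_lifts (x_hom p) (ram_x hp) ((Finset.image_subset_image J.subset_univ).trans
    Finset.subset_union_right) (image_S hp J) hj h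

theorem prs_card {lam : O} {a b : ι} {Rb j : ℕ} (hj : 1 ≤ j) (Q : (ι → P) → Prop) :
    {z | z ∈ X.Prs ty lam a b Rb j ∧ Q z.1}.Finite ∧
      ({z | z ∈ X.Prs ty lam a b Rb j ∧ Q z.1}.ncard : ℝ) ≤
        (NV ^ 2 * Rb) ^ 2 * {p | p ∈ X.tpts ty ∧ Q p}.ncard := by
  have hsub : ∀ p ∈ {p | p ∈ X.tpts ty ∧ Q p},
      {z | z ∈ {z | z ∈ X.Prs ty lam a b Rb j ∧ Q z.1} ∧ z.1 = p} ⊆ Prod.mk p ''
        R.GH (res lam) (X.A p) ((jab a b).image p) fun v => X.x p (T.σ v) := by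
    rintro p hp z ⟨hz, rfl⟩
    exact ⟨z.2, BoxA_GH hp.1.1 hj hz.1.2.2.2 _, rfl⟩
  obtain ⟨h1, -, h2⟩ := seq_fiber {z | z ∈ X.Prs ty lam a b Rb j ∧ Q z.1}
    {p | p ∈ X.tpts ty ∧ Q p} ((tpts_finite ty).subset fun _ k => k.1) Prod.fst
    (fun z hz => ⟨hz.1.1, hz.2⟩)
    (fun p hp => ((Rep.GH_finite _ _ _ _).image _).subset (hsub p hp)) 0 ((NV ^ 2 * Rb) ^ 2)
    fun p hp => ⟨Nat.cast_nonneg _, by
      rcases Set.eq_empty_or_nonempty
        {z | z ∈ {z | z ∈ X.Prs ty lam a b Rb j ∧ Q z.1} ∧ z.1 = p} with k | ⟨z, hz, rfl⟩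
      · rw [k, Set.ncard_empty, Nat.cast_zero]
        positivity
      have e : X.A z.1 = X.S1 ∪ (jab a b).image z.1 ∪ {z.1 a, z.1 b} := by
        ext v
        simp only [A, jab, Finset.mem_union, Finset.mem_image, Finset.mem_univ, true_and,
          Finset.mem_filter, Finset.mem_insert, Finset.mem_singleton, or_assoc]
        refine or_congr_right ⟨?_, ?_⟩
        · rintro ⟨i, rfl⟩
          by_cases ha : i = a
          · exact Or.inr (Or.inl (ha ▸ rfl))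
          · by_cases hb : i = b
            · exact Or.inr (Or.inr (hb ▸ rfl))
            · exact Or.inl ⟨i, ⟨ha, hb⟩, rfl⟩
        · rintro (⟨i, -, rfl⟩ | rfl | rfl) <;> exact ⟨_, rfl⟩
      have k1 := Rep.G1_union (image_S hp.1.1 (jab a b)) (X.S1 ∪ (jab a b).image z.1)
        {z.1 a, z.1 b} fun v => X.x z.1 (T.σ v)
      rw [← e] at k1
      have k2 := (Set.ncard_le_ncard (hsub _ hp) ((Rep.GH_finite _ _ _ _).image _)).trans
        ((Set.ncard_image_le (Rep.GH_finite _ _ _ _)).trans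
          ((Rep.GH_card (image_S hp.1.1 _) _ _ _).trans (Nat.pow_le_pow_left (k1.trans
            (Nat.mul_le_mul hz.1.2.1 (Nat.pow_le_pow_right NV_pos Finset.card_le_two))) 2)))
      rw [mul_comm Rb] at k2
      exact_mod_cast k2⟩
  exact ⟨h1, h2⟩

theorem BoxA_alt (hp : p ∈ X.pts) (I : Finset ι) {d : F2} {w u : W → Vb}
    (hw : w ∈ X.Gs Finset.univ p) (h1 : ¬ R.IsCob w) (hu : u ∈ R.Z1U (X.A p))
    (h2 : ∀ j, R.LLs (X.x p (T.σ (p j))) ((d * (T.dg (p j) : F2)) • w (T.τ (p j))) (p j) u)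
    (h3 : d = 0 → ¬ R.IsCob u) (h4 : ∀ i ∈ I, u (T.τ (p i)) = 0) :
    X.FM I p ∨ d ≠ 0 ∧ X.G2 I p := by
  rcases F2_cases d with rfl | rfl
  · refine Or.inl ⟨u, ⟨hu, fun v hv => ?_⟩, h3 rfl, h4⟩
    obtain ⟨j, -, rfl⟩ := Finset.mem_image.1 hv
    simpa only [zero_mul, zero_smul] using h2 j
  · by_cases h5 : ∀ i ∈ I, w (T.τ (p i)) = 0
    · exact Or.inl ⟨w, hw, h1, h5⟩
    · push Not at h5
      refine Or.inr ⟨one_ne_zero, w, hw, u, ⟨hu.1, fun v hv => ?_⟩, fun j => ?_, h5⟩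
      · by_cases h6 : v ∈ Finset.univ.image p
        · obtain ⟨i, -, rfl⟩ := Finset.mem_image.1 h6
          exact h4 i (by_contra fun k => hv (Finset.mem_union_right _
            (Finset.mem_image_of_mem p (Finset.mem_compl.2 k))))
        · exact hu.2 v fun k => (Finset.mem_union.1 k).elim
            (fun k => hv (Finset.mem_union_left _ k)) h6
      · simpa only [one_mul, (hp j).1] using h2 j

/-- a class that lifts is degenerate or in general position at some pair -/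
theorem cover (hp : p ∈ X.tpts ty) (I1 I2 : Finset ι) {lam : O} {K : ℕ} (hK : 1 ≤ K) (Rb : ℕ)
    (h : ¬ R.NoLift lam (X.A p) (X.x p) K) :
    X.FM I1 p ∨ X.FM I2 p ∨ (res lam ≠ 0 ∧ X.G2 I2 p) ∨ ∃ a ∈ I1, ∃ b ∈ I2,
      Rb < (X.Gs (jab a b) p).ncard ∨ ∃ w, (p, w) ∈ X.Prs ty lam a b Rb K := by
  rw [Rep.NoLift] at h
  push Not at h
  obtain ⟨w, hn, hl⟩ := h
  by_cases hd : ∃ a ∈ I1, ∃ b ∈ I2, R.Nondeg (w (T.τ (p a))) (w (T.τ (p b)))
  · obtain ⟨a, ha, b, hb, hd⟩ := hd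
    exact Or.inr (Or.inr (Or.inr ⟨a, ha, b, hb,
      (lt_or_ge _ _).imp_right fun k => ⟨w, hp, k, hd, hl⟩⟩))
  push Not at hd
  obtain ⟨h1, h2⟩ := BoxA_GH hp.1 hK hl Finset.univ
  obtain ⟨h3, h4⟩ := Rep.hat_z1U_iff.1 h1
  have h5 : (fun g => p0 (w g)) ∈ X.Gs Finset.univ p := ⟨h3, fun v hv => (h2 v hv).1⟩
  have h6 := fun j => h2 (p j) (Finset.mem_image_of_mem p (Finset.mem_univ j))
  rcases Rep.pattern I1 I2 (fun i => w (T.τ (p i))) hd with k | k | k | k
  · exact Or.inl ⟨_, h5, hn.1, k⟩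
  · exact Or.inr (Or.inl ⟨_, h5, hn.1, k⟩)
  · exact Or.inr ((BoxA_alt hp.1 I2 h5 hn.1 h4 (fun j => (h6 j).2) (fun e => (hn.2 e).1)
      k).imp_right Or.inl)
  · refine Or.inr ((BoxA_alt hp.1 I2 h5 hn.1 (Rep.Fam_z1U_add h3 h4) (fun j => ?_)
      (fun e => (hn.2 e).2) k).imp_right Or.inl)
    simpa only [zero_add] using
      (h6 j).1.add (notMem_S hp.1 j) (h3.1.lz _) (h4.1.lz _) (h6 j).2

end Box

end

end Pool.Agent.Hyp
end

-- merged part: Pool.Agent.Work.MP_60d5ce_nt.Hy.JLoc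
section
/-!
# Half of the cup product on the doubled lattice: local computations

Write `δ g = lam * deg g`, `l0 = p0 l`, `l1 = p1 l`; `inv` of `(g, h) ↦ δ g * F g h` is `δ σ * F σ τ`.
Hints.
* `J_formula`: if `2 ^ r • l g = act g t - t` then `2 ^ r • l1 g = g t1 - t1 + 2 δ g • g t0` (`p1_act`);
  `ee (g t1 - t1) (g (l0' h))` is the coboundary `b g + cq g * b h - b (g * h)` of `b g = ee t1 (l0' g)`
  (`ee_act`, `LTyp.coc`), so its invariant vanishes (`inv_cob_cq`, `LTyp.rel`).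
* `J_swap`: the invariant of `bil (l g) (act g (l' h))` vanishes (coboundary of `bil t (l' g)` after
  multiplying by `2 ^ r`), and with `F g = ee (l0 g) (l1' g)` one has
  `F g + cq g * F h - F (g * h) = -ee (l0 g) (g (l1' h)) + ee (l1' g) (g (l0 h)) - 2 δ g * ee (l0 g + g (l0 h)) (g (l0' h))`.
* `J_self`: `LTyp.ram` and `J_formula` with `r = 1`, `t = -l τ`.
* `lemA`: on `D v` write `Dl B (l · g) = 2 ^ card B • n B g` with `n B` of type `LTyp` (`LTyp.sum`,
  `LTyp.of_pow_smul`), `l e = ∑ B ⊆ e, 2 ^ card B • n B` (`Dl_inversion`).  Then `Dl U (J (l e) (l e))` is the sum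
  over pairs with `B ∪ B' = U` of `2 ^ (card B + card B') * J (n B) (n B')`.  Modulo `2 ^ (m + 2)` only
  `card (B ∩ B') ≤ 1` counts; the pairs with `card (B ∩ B') = 1` cancel by the swap (`J_swap`, `B ≠ B'` as
  `m ≥ 2`); the complementary pairs give `2 ^ m ∑ (B ∋ i0), (2 J (n B) (n Bc) + 2 δ Q ee (n B τ) (n Bc τ))`.
  Use `dig_Dl_gam` for the other term.  (An induction on `U` as in `cube_leib` is another route.)
* `lemB`: bilinearity, `J_swap`, `dig_J`.
-/

namespace Pool.Agent.Hyp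

open Pool.Agent.Quad

variable [Par]

open scoped Classical

noncomputable section

variable {W P : Type} [Group W] {T : Tame W P}

/-- the product of the coordinates -/
def gam (a : V) : O := ∑ j, a (Sum.inl j) * a (Sum.inr j)

theorem gr_gam {ι : Type} [DecidableEq ι] {U : Finset ι} {f : Finset ι → V} (hf : GrV U f) :
    Gr U fun e => gam (f e) :=
  (cube_gr_sum Finset.univ fun _ => (grV_iff.1 hf _).mul (grV_iff.1 hf _)).1

theorem JLoc_half {ι : Type} [DecidableEq ι] {A : Type*} [AddCommMonoid A] {U : Finset ι} {i0 : ι}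
    (hi : i0 ∈ U) (φ : Finset ι → A) :
    ∑ C ∈ U.powerset, φ C = ∑ B ∈ U.powerset.filter (i0 ∈ ·), (φ B + φ (U \ B)) := by
  rw [Finset.sum_add_distrib, ← Finset.sum_filter_add_sum_filter_not U.powerset (i0 ∈ ·)]
  congr 1
  refine Finset.sum_nbij' (U \ ·) (U \ ·) (fun C hC => ?_) (fun C hC => ?_) (fun C hC => ?_)
    (fun C hC => ?_) fun C hC => ?_
  · simp only [Finset.mem_filter, Finset.mem_powerset] at hC ⊢
    exact ⟨Finset.sdiff_subset, Finset.mem_sdiff.2 ⟨hi, hC.2⟩⟩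
  · simp only [Finset.mem_filter, Finset.mem_powerset] at hC ⊢
    exact ⟨Finset.sdiff_subset, fun h => (Finset.mem_sdiff.1 h).2 hC.2⟩
  · exact Finset.sdiff_sdiff_eq_self (Finset.mem_powerset.1 (Finset.mem_filter.1 hC).1)
  · exact Finset.sdiff_sdiff_eq_self (Finset.mem_powerset.1 (Finset.mem_filter.1 hC).1)
  · rw [Finset.sdiff_sdiff_eq_self (Finset.mem_powerset.1 (Finset.mem_filter.1 hC).1)]

theorem JLoc_ins {ι : Type} [DecidableEq ι] {A : Type*} [AddCommMonoid A] {U : Finset ι} {i0 : ι}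
    (hi : i0 ∉ U) (φ : Finset ι → A) :
    ∑ B ∈ (insert i0 U).powerset.filter (i0 ∈ ·), φ B = ∑ C ∈ U.powerset, φ (insert i0 C) := by
  rw [Finset.sum_filter, Finset.sum_powerset_insert hi, Finset.sum_eq_zero fun C hC =>
    if_neg fun h => hi (Finset.mem_powerset.1 hC h), zero_add]
  exact Finset.sum_congr rfl fun C _ => if_pos (Finset.mem_insert_self _ _)

theorem JLoc_leib_ee {ι : Type} [DecidableEq ι] (U : Finset ι) (i j : ℕ) (f g : Finset ι → V)
    (hf : ∀ B ⊆ U, VD (i + B.card) (Dl B f)) (hg : ∀ B ⊆ U, VD (j + B.card) (Dl B g)) :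
    (2 : O) ^ (i + j + U.card) ∣ Dl U (fun e => ee (f e) (g e)) ∧
      dig (i + j + U.card) (Dl U fun e => ee (f e) (g e)) = ∑ C ∈ U.powerset,
        ee (digV (i + C.card) (Dl C f)) (digV (j + (U \ C).card) (Dl (U \ C) g)) := by
  have k : ∀ a b : Ix, _ := fun a b => cube_leib U i j (fun e => f e a) (fun e => g e b)
    (fun B hB => by rw [← Dl_apply]; exact hf B hB a)
    (fun B hB => by rw [← Dl_apply]; exact hg B hB b)
  have e : Dl U (fun e => ee (f e) (g e)) = ∑ l : Fin gg,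
      (Dl U (fun e => f e (Sum.inl l) * g e (Sum.inr l)) -
        Dl U fun e => f e (Sum.inr l) * g e (Sum.inl l)) := by
    simp only [Dl, ee, Finset.smul_sum, smul_sub, ← Finset.sum_sub_distrib]
    exact Finset.sum_comm
  rw [e]
  refine ⟨Finset.dvd_sum fun l _ => (k _ _).1.sub (k _ _).1, ?_⟩
  rw [dig_sum _ fun l _ => (k _ _).1.sub (k _ _).1]
  unfold ee
  rw [Finset.sum_comm]
  refine Finset.sum_congr rfl fun l _ => ?_
  rw [dig_sub (k _ _).1 (k _ _).1, (k _ _).2, (k _ _).2, ← Finset.sum_sub_distrib]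
  refine Finset.sum_congr rfl fun C _ => ?_
  simp only [digV, Dl_apply]

theorem dig_Dl_gam {ι : Type} [DecidableEq ι] {U : Finset ι} {i0 : ι} (hi : i0 ∈ U)
    {f : Finset ι → V} (hf : GrV U f) : dig U.card (Dl U fun e => gam (f e)) =
      ∑ B ∈ U.powerset.filter (i0 ∈ ·),
        ee (digV B.card (Dl B f)) (digV (U \ B).card (Dl (U \ B) f)) := by
  unfold gam ee
  rw [(cube_gr_sum Finset.univ fun _ => (grV_iff.1 hf _).mul (grV_iff.1 hf _)).2, Finset.sum_comm]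
  refine Finset.sum_congr rfl fun l _ => ?_
  rw [leibniz (grV_iff.1 hf _) (grV_iff.1 hf _), JLoc_half hi]
  refine Finset.sum_congr rfl fun B hB => ?_
  rw [Finset.sdiff_sdiff_eq_self (Finset.mem_powerset.1 (Finset.mem_filter.1 hB).1)]
  simp only [digV, Dl_apply, F2_sub]
  ring

/-- squares: the complementary pairs cancel -/
theorem Dl_sq {ι : Type} [DecidableEq ι] {U : Finset ι} (hU : U.Nonempty) {f : Finset ι → O}
    (hf : Gr U f) : (2 : O) ^ (U.card + 1) ∣ Dl U fun e => f e * f e := by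
  obtain ⟨i0, hi⟩ := hU
  rw [← dig_eq_zero_iff (hf.mul hf U subset_rfl), leibniz hf hf, JLoc_half hi]
  refine Finset.sum_eq_zero fun B hB => ?_
  rw [Finset.sdiff_sdiff_eq_self (Finset.mem_powerset.1 (Finset.mem_filter.1 hB).1), mul_comm,
    F2_add_self]

theorem JLoc_p0_add {A : Type} [Add A] (a b : H → A) : p0 (a + b) = p0 a + p0 b := rfl

theorem JLoc_p1_add {A : Type} [Add A] (a b : H → A) : p1 (a + b) = p1 a + p1 b := rfl

theorem JLoc_p0_sub (a b : H → O) : p0 (a - b) = p0 a - p0 b := rfl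

theorem JLoc_p1_sub (a b : H → O) : p1 (a - b) = p1 a - p1 b := rfl

theorem JLoc_p0_smul (c : O) (a : H → O) : p0 (c • a) = c • p0 a := rfl

theorem JLoc_p1_smul (c : O) (a : H → O) : p1 (c • a) = c • p1 a := rfl

theorem JLoc_deg (v : P) (n : ℕ) : T.deg (T.τ v ^ n) = 0 :=
  pow_mem (show T.τ v ∈ T.G0 from T.deg_τ v) n

theorem JLoc_inv_deg (v : P) (c : O) (F : W → W → O) :
    T.inv v (fun g h => c * (T.deg g : O) * F g h) = c * (T.dg v : O) * F (T.σ v) (T.τ v) := by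
  simp [Pre.inv, JLoc_deg, T.deg_σ]

theorem JLoc_inv_dvd (v : P) {j : ℕ} {θ : W → W → O}
    (h : ∀ g ∈ T.D v, ∀ g' ∈ T.D v, (2 : O) ^ j ∣ θ g g') : (2 : O) ^ j ∣ T.inv v θ :=
  ((h _ (Tame.σ_mem v) _ (Tame.τ_mem v)).sub
    (h _ (pow_mem (Tame.τ_mem v) _) _ (Tame.σ_mem v))).sub
    (Finset.dvd_sum fun i _ => h _ (pow_mem (Tame.τ_mem v) i) _ (Tame.τ_mem v))

theorem JLoc_lft {n : ℕ} {a : O} {c : F2} (h : (2 : O) ^ n ∣ a) (hc : dig n a = c) :
    (2 : O) ^ (n + 2) ∣ 2 * a - (2 : O) ^ (n + 1) * lft c := by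
  obtain ⟨b, hb⟩ := eq_pow_mul_lft_dig h
  rw [hc] at hb
  exact ⟨b, by linear_combination 2 * hb⟩

theorem JLoc_gam (k : ℕ) {L l κ ct s tp : V} (h1 : VD (k + 2 + 2) (ct - (L - (2 : O) • l)))
    (h2 : VD (k + 2) (s - (l + (2 : O) ^ (k + 1) • κ)))
    (h3 : VD (k + 2 + 1) (tp - (L + (2 : O) ^ (k + 2) • κ))) :
    (2 : O) ^ (k + 3) ∣ gam tp + 2 * ee s ct - (gam L - 2 * ee L l) := by
  obtain ⟨c, hc⟩ := h1.exists
  obtain ⟨b, hb⟩ := h2.exists
  obtain ⟨a, ha⟩ := h3.exists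
  rw [sub_eq_iff_eq_add] at hc hb ha
  subst ha hb hc
  simp only [gam, ee, Finset.mul_sum, ← Finset.sum_add_distrib, ← Finset.sum_sub_distrib]
  refine Finset.dvd_sum fun j _ => ?_
  simp only [Pi.add_apply, Pi.sub_apply, Pi.smul_apply, smul_eq_mul]
  generalize L (Sum.inl j) = L0, L (Sum.inr j) = L1, l (Sum.inl j) = l0, l (Sum.inr j) = l1,
    κ (Sum.inl j) = k0, κ (Sum.inr j) = k1, a (Sum.inl j) = a0, a (Sum.inr j) = a1,
    b (Sum.inl j) = b0, b (Sum.inr j) = b1, c (Sum.inl j) = c0, c (Sum.inr j) = c1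
  refine ⟨L1 * k0 + L0 * a1 + L1 * a0 + 2 * 2 ^ k * (k0 + 2 * a0) * (k1 + 2 * a1) +
    4 * (l0 * c1 - l1 * c0) - (k0 * l1 - k1 * l0) + 8 * 2 ^ k * (k0 * c1 - k1 * c0) +
    (b0 * (2 ^ (k + 2 + 2) * c1 + (L1 - 2 * l1)) - b1 * (2 ^ (k + 2 + 2) * c0 + (L0 - 2 * l0))), ?_⟩
  ring

namespace Rep

variable (R : Rep T)

/-- half of the cup product -/
def cupJ (x : W → F2) (a b : W → H → O) (g h : W) : O := ee (p1 (a g)) (R.act x g (p0 (b h)))

/-- its local invariant -/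
def J (x : W → F2) (v : P) (a b : W → H → O) : O := T.inv v (R.cupJ x a b)

/-- the local factor `2 lam deg Q` -/
def dQ (_R : Rep T) (lam : O) (v : P) : O := 2 * lam * (T.dg v : O) * (T.Q v : O)

variable {R} {x : W → F2} {v : P} {lam : O} {a a' b b' l l' : W → H → O}

theorem J_add_left (a a' b : W → H → O) :
    R.J x v (fun g => a g + a' g) b = R.J x v a b + R.J x v a' b := by
  unfold J cupJ
  rw [← Tame.inv_add]
  simp only [JLoc_p1_add, ee_add_left]

theorem J_add_right (a b b' : W → H → O) :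
    R.J x v a (fun g => b g + b' g) = R.J x v a b + R.J x v a b' := by
  unfold J cupJ
  rw [← Tame.inv_add]
  simp only [JLoc_p0_add, Lat.act_add, ee_add_right]

theorem J_smul_left (c : O) (a b : W → H → O) :
    R.J x v (fun g => c • a g) b = c * R.J x v a b := by
  unfold J cupJ
  rw [← Tame.inv_mul_left]
  simp only [JLoc_p1_smul, ee_smul_left]

theorem J_smul_right (c : O) (a b : W → H → O) :
    R.J x v a (fun g => c • b g) = c * R.J x v a b := by
  unfold J cupJ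
  rw [← Tame.inv_mul_left]
  simp only [JLoc_p0_smul, Lat.act_smul, ee_smul_right]

theorem JLoc_sub_left (a a' b : W → H → O) :
    R.J x v (fun g => a g - a' g) b = R.J x v a b - R.J x v a' b := by
  unfold J cupJ
  rw [← Tame.inv_sub]
  simp only [JLoc_p1_sub, ee_sub_left]

theorem JLoc_sub_right (a b b' : W → H → O) :
    R.J x v a (fun g => b g - b' g) = R.J x v a b - R.J x v a b' := by
  unfold J cupJ
  rw [← Tame.inv_sub]
  simp only [JLoc_p0_sub, Lat.act_sub, ee_sub_right]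

theorem J_twist {y : W → F2} (h : ∀ g ∈ T.D v, x g = y g) (a b : W → H → O) :
    R.J x v a b = R.J y v a b :=
  Tame.inv_congr v fun g hg g' _ => by rw [cupJ, cupJ, Lat.act_congr (h g hg)]

theorem J_congr {j : ℕ} (ha : ∀ g ∈ T.D v, VD j (a g - a' g)) (hb : ∀ g ∈ T.D v, VD j (b g - b' g)) :
    (2 : O) ^ j ∣ R.J x v a b - R.J x v a' b' := by
  refine Tame.inv_dvd v fun g hg g' hg' => ?_
  have h1 := ee_dvd (ha g hg).q1 (VD.triv (R.act x g (p0 (b g'))))
  have h2 := ee_dvd (VD.triv (p1 (a' g))) (Lat.act_VD (R := R.toLat) (x := x) (hb g' hg').q0 g)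
  rw [add_zero, JLoc_p1_sub, ee_sub_left] at h1
  rw [zero_add, JLoc_p0_sub, Lat.act_sub, ee_sub_right] at h2
  have := h1.add h2
  rwa [sub_add_sub_cancel] at this

theorem dig_J {i j : ℕ} (ha : ∀ g ∈ T.D v, VD i (a g)) (hb : ∀ g ∈ T.D v, VD j (b g)) :
    (2 : O) ^ (i + j) ∣ R.J x v a b ∧ dig (i + j) (R.J x v a b) =
      R.br v (fun g => p1 (digV i (a g))) fun g => p0 (digV j (b g)) := by
  have h1 : ∀ g ∈ T.D v, ∀ g' ∈ T.D v, (2 : O) ^ (i + j) ∣ R.cupJ x a b g g' := fun g hg g' hg' =>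
    ee_dvd (ha g hg).q1 (Lat.act_VD (hb g' hg').q0 g)
  refine ⟨JLoc_inv_dvd v h1, ?_⟩
  rw [J, ← Tame.inv_dig v h1]
  refine Tame.inv_congr v fun g hg g' hg' => ?_
  rw [cupJ, dig_ee (ha g hg).q1 (Lat.act_VD (hb g' hg').q0 g), Lat.digV_act (hb g' hg').q0]
  rfl

theorem J_formula (hx : T.IsHom x) {r : ℕ} {t : H → O}
    (h : ∀ g ∈ T.D v, (2 : O) ^ r • l g = (R.hat lam).act x g t - t)
    (h' : (R.hat lam).LTyp x v l') :
    (2 : O) ^ r * R.J x v l l' = R.dQ lam v * ee (p0 t) (p0 (l' (T.τ v))) := by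
  have h1 := Tame.inv_cob_cq (T := T) v (b := fun g => ee (p1 t) (p0 (l' g)))
  rw [← h'.rel hx, sub_self] at h1
  have h2 := JLoc_inv_deg (T := T) v (2 * lam) fun g k => T.cq g * ee (p0 t) (p0 (l' k))
  rw [Tame.cq_σ, ← mul_assoc] at h2
  rw [dQ, ← h2, ← zero_add (T.inv v _), ← h1, ← Tame.inv_add, J, ← Tame.inv_mul_left]
  refine Tame.inv_congr v fun g hg k hk => ?_
  rw [cupJ, ← ee_smul_left, ← JLoc_p1_smul, h g hg, h'.coc hx g hg k hk, JLoc_p1_sub, p1_act,
    JLoc_p0_add, p0_act, ee_sub_left, ee_add_left, ee_smul_left, ee_act, ee_act, ee_add_right]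
  ring

theorem J_swap (hx : T.IsHom x) (h : (R.hat lam).LTyp x v l) (h' : (R.hat lam).LTyp x v l') :
    R.J x v l' l - R.J x v l l' = R.dQ lam v * ee (p0 (l (T.τ v))) (p0 (l' (T.τ v))) := by
  obtain ⟨r, t, ht⟩ := id h
  obtain ⟨s, u, hu⟩ := id h'
  have h1 := J_formula hx ht h'
  have h2 := J_formula hx hu h
  have h3 := congrArg p0 (ht _ (Tame.τ_mem v))
  have h4 := congrArg p0 (hu _ (Tame.τ_mem v))
  rw [JLoc_p0_smul, JLoc_p0_sub, p0_act] at h3 h4
  have h5 : (2 : O) ^ s * ee (p0 t) (p0 (l' (T.τ v))) =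
      ee (p0 t) (R.act x (T.τ v) (p0 u)) - ee (p0 t) (p0 u) := by
    rw [← ee_smul_right, h4, ee_sub_right]
  have h6 : (2 : O) ^ r * ee (p0 u) (p0 (l (T.τ v))) =
      -ee (R.act x (T.τ v) (p0 t)) (p0 u) + ee (p0 t) (p0 u) := by
    rw [← ee_smul_right, h3, ee_sub_right, ee_swap (p0 u), ee_swap (p0 u), sub_neg_eq_add]
  have h7 : (2 : O) ^ r * ((2 : O) ^ s * ee (p0 (l (T.τ v))) (p0 (l' (T.τ v)))) =
      ee (p0 t) (p0 u) - ee (R.act x (T.τ v) (p0 t)) (p0 u) -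
        (ee (p0 t) (R.act x (T.τ v) (p0 u)) - ee (p0 t) (p0 u)) := by
    rw [← ee_smul_right, ← ee_smul_left, h3, h4, ee_sub_left, ee_sub_right, ee_sub_right, ee_act,
      Tame.cq_of_deg_zero (T.deg_τ v), one_mul]
  refine two_pow_mul_cancel (j := r + s) ?_
  rw [pow_add]
  linear_combination (2 : O) ^ r * h2 - (2 : O) ^ s * h1 + R.dQ lam v * (h6 - h5 - h7)

theorem J_self (hx : T.IsHom x) (hv : v ∉ R.S) (h1 : x (T.τ v) = 1)
    (h : (R.hat lam).LTyp x v l) : R.J x v l l = 0 := by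
  have h2 := J_formula hx (r := 1) (l := l) (t := (-1 : O) • l (T.τ v)) (fun g hg => by
    rw [pow_one, h.ram hv h1 g hg, Lat.act_smul, neg_one_smul, neg_one_smul]
    abel) h
  rw [JLoc_p0_smul, ee_smul_left, ee_self, mul_zero, mul_zero] at h2
  exact two_pow_mul_eq_zero h2

theorem J_zero (hx : T.IsHom x) (h : (R.hat 0).LTyp x v l) (h' : (R.hat 0).LTyp x v l') :
    R.J x v l l' = 0 := by
  obtain ⟨r, t, ht⟩ := h
  have h2 := J_formula hx ht h'
  rw [dQ, mul_zero, zero_mul, zero_mul, zero_mul] at h2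
  exact two_pow_mul_eq_zero h2

theorem J_unr (hx : T.IsHom x) {j : ℕ} (ha : (R.hat lam).Coc x j a) (h1 : VD j (a (T.τ v)))
    (h2 : VD j (b (T.τ v))) : (2 : O) ^ j ∣ R.J x v a b := by
  have k1 : ∀ g, (2 : O) ^ j ∣ R.cupJ x a b g (T.τ v) := fun g => by
    simpa only [cupJ, zero_add] using ee_dvd (VD.triv (p1 (a g)))
      (Lat.act_VD (R := R.toLat) (x := x) h2.q0 g)
  exact ((k1 _).sub (ee_dvd (j := 0) (ha.pow_unr hx h1 _).q1 (VD.triv _))).sub
    (Finset.dvd_sum fun i _ => k1 _)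

/-- isotropy -/
theorem hbr_ll (hx : T.IsHom x) {w w' : W → H → F2} (h : (R.hat lam).LL x v w)
    (h' : (R.hat lam).LL x v w') : R.hbr v w w' = 0 := by
  have z := hat_lz_iff.1 (h.lz hx)
  have z' := hat_lz_iff.1 (h'.lz hx)
  obtain ⟨l, h1, h2⟩ := h
  obtain ⟨l', k1, k2⟩ := h'
  have e1 := (dig_J (R := R) (x := x) (v := v) (a := l) (b := l') (fun _ _ => VD.triv _)
    fun _ _ => VD.triv _).2
  have e2 := (dig_J (R := R) (x := x) (v := v) (a := l') (b := l) (fun _ _ => VD.triv _)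
    fun _ _ => VD.triv _).2
  rw [br_congr (fun g hg => by rw [h2 g hg]) (fun g hg => by rw [k2 g hg])] at e1
  rw [br_congr (fun g hg => by rw [k2 g hg]) (fun g hg => by rw [h2 g hg])] at e2
  have e3 := congrArg res (J_swap hx h1 k1)
  rw [map_sub, dQ, map_mul, map_mul, map_mul, map_mul, res_two, zero_mul, zero_mul, zero_mul,
    zero_mul, F2_sub] at e3
  rw [hbr, br_comm z.1 z'.2, ← e1, ← e2, add_comm]
  exact e3

theorem JLoc_leib {ι : Type} [DecidableEq ι] (U : Finset ι) (i j : ℕ)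
    (f f' : Finset ι → W → H → O)
    (hf : ∀ g ∈ T.D v, ∀ B ⊆ U, VD (i + B.card) (Dl B fun e => f e g))
    (hf' : ∀ g ∈ T.D v, ∀ B ⊆ U, VD (j + B.card) (Dl B fun e => f' e g)) :
    (2 : O) ^ (i + j + U.card) ∣ Dl U (fun e => R.J x v (f e) (f' e)) ∧
      dig (i + j + U.card) (Dl U fun e => R.J x v (f e) (f' e)) = ∑ C ∈ U.powerset,
        R.br v (fun g => p1 (digV (i + C.card) (Dl C fun e => f e g)))
          fun g => p0 (digV (j + (U \ C).card) (Dl (U \ C) fun e => f' e g)) := by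
  have e : Dl U (fun e => R.J x v (f e) (f' e)) =
      T.inv v fun g h => Dl U fun e => ee (p1 (f e g)) (R.act x g (p0 (f' e h))) := by
    simp only [J, cupJ, Pre.inv, Dl_sub, Dl_sum]
  have ea : ∀ (B : Finset ι) (g h : W), Dl B (fun e => R.act x g (p0 (f' e h))) =
      R.act x g (p0 (Dl B fun e => f' e h)) := fun B g h => by
    rw [p0_Dl]
    exact Dl_map (AddMonoidHom.mk' (R.act x g) (Lat.act_add g)) B _
  have k := fun g (hg : g ∈ T.D v) h (hh : h ∈ T.D v) =>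
    JLoc_leib_ee U i j (fun e => p1 (f e g)) (fun e => R.act x g (p0 (f' e h)))
      (fun B hB => by rw [← p1_Dl]; exact (hf g hg B hB).q1)
      (fun B hB => by rw [ea]; exact Lat.act_VD (hf' h hh B hB).q0 g)
  rw [e]
  refine ⟨JLoc_inv_dvd v fun g hg g' hg' => (k g hg g' hg').1, ?_⟩
  rw [← Tame.inv_dig v fun g hg g' hg' => (k g hg g' hg').1]
  simp only [br]
  rw [← Tame.inv_sum]
  refine Tame.inv_congr v fun g hg g' hg' => (k g hg g' hg').2.trans ?_
  refine Finset.sum_congr rfl fun C hC => ?_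
  rw [ea, Lat.digV_act (hf' g' hg' _ Finset.sdiff_subset).q0, ← p1_Dl]
  rfl

theorem lemA {ι : Type} [DecidableEq ι] {U : Finset ι} (hU : 2 ≤ U.card) {i0 : ι} (hi : i0 ∈ U)
    (hx : T.IsHom x) {l : Finset ι → W → H → O} (hl : ∀ e ⊆ U, (R.hat lam).LTyp x v (l e))
    (hg : ∀ g ∈ T.D v, GrV U fun e => l e g) :
    (2 : O) ^ (U.card + 2) ∣ Dl U (fun e => R.J x v (l e) (l e)) -
      R.dQ lam v * Dl U (fun e => gam (p0 (l e (T.τ v)))) -
      (2 : O) ^ (U.card + 1) * lft (∑ B ∈ U.powerset.filter (i0 ∈ ·),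
        R.br v (fun g => p1 (Th l B g)) fun g => p0 (Th l (U \ B) g)) := by
  obtain ⟨U, hi', rfl⟩ : ∃ U', i0 ∉ U' ∧ U = insert i0 U' :=
    ⟨U.erase i0, Finset.notMem_erase _ _, (Finset.insert_erase hi).symm⟩
  replace hi := hi'
  have hni : ∀ C ⊆ U, i0 ∉ C := fun C hC h => hi (hC h)
  have hc : ∀ C ⊆ U, (insert i0 C).card = 1 + C.card := fun C hC => by
    rw [Finset.card_insert_of_notMem (hni C hC), add_comm]
  have hδ : ∀ g, ∀ C ⊆ U, Dl C (fun e => l (insert i0 e) g - l e g) =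
      Dl (insert i0 C) fun e => l e g := fun g C hC => by
    rw [Dl_insert (hni C hC), Dl_sub]
  have g1 : ∀ g ∈ T.D v, ∀ C ⊆ U, VD (1 + C.card) (Dl C fun e => l (insert i0 e) g - l e g) :=
    fun g hg' C hC => by
      rw [hδ g C hC, ← hc C hC]
      exact hg g hg' _ (Finset.insert_subset_insert _ hC)
  have g0 : ∀ g ∈ T.D v, ∀ C ⊆ U, VD (0 + C.card) (Dl C fun e => l e g) := fun g hg' C hC => by
    rw [zero_add]
    exact hg g hg' _ (hC.trans (Finset.subset_insert _ _))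
  have hll : ∀ B ⊆ insert i0 U, (R.hat lam).LL x v (Th l B) := fun B hB => by
    have h1 : (R.hat lam).LTyp x v fun g => Dl B fun e => l e g := by
      simp only [Dl_eq_sum_smul]
      exact Lat.LTyp.sum _ fun e he => (hl e ((Finset.mem_powerset.1 he).trans hB)).smul _
    exact (h1.locOK (j := B.card + 1)).ll (Nat.lt_succ_self _) fun g hg' => hg g hg' B hB
  obtain ⟨a1, a2⟩ := JLoc_leib (R := R) (x := x) U 1 0
    (fun e g => l (insert i0 e) g - l e g) l g1 g0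
  obtain ⟨b1, b2⟩ := JLoc_leib (R := R) (x := x) U 1 1
    (fun e g => l (insert i0 e) g - l e g) (fun e g => l (insert i0 e) g - l e g) g1 g1
  have hτ := Tame.τ_mem (T := T) v
  have eS : ∀ f : Fin gg → Finset ι → O, Dl U (fun e => ∑ j, f j e) = ∑ j, Dl U (f j) := fun f => by
    simp only [Dl, Finset.smul_sum]
    exact Finset.sum_comm
  have c1 : (2 : O) ^ (1 + 1 + U.card) ∣ Dl U fun e => ∑ j : Fin gg,
      (l (insert i0 e) (T.τ v) - l e (T.τ v)) (Sum.inl (Sum.inl j)) *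
        (l (insert i0 e) (T.τ v) - l e (T.τ v)) (Sum.inl (Sum.inr j)) :=
    eS _ ▸ Finset.dvd_sum fun j _ => (cube_leib U 1 1 _ _
      (fun B hB => by rw [← Dl_apply]; exact g1 _ hτ B hB _)
      (fun B hB => by rw [← Dl_apply]; exact g1 _ hτ B hB _)).1
  have c2 : (2 : O) ^ (1 + 0 + U.card) ∣ Dl U fun e => ∑ j : Fin gg,
      (l (insert i0 e) (T.τ v) - l e (T.τ v)) (Sum.inl (Sum.inr j)) *
        l e (T.τ v) (Sum.inl (Sum.inl j)) :=
    eS _ ▸ Finset.dvd_sum fun j _ => (cube_leib U 1 0 _ _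
      (fun B hB => by rw [← Dl_apply]; exact g1 _ hτ B hB _)
      (fun B hB => by rw [← Dl_apply]; exact g0 _ hτ B hB _)).1
  have eG : ∀ a b : H → O, gam (p0 a) - gam (p0 b) = (∑ j : Fin gg,
      (a - b) (Sum.inl (Sum.inl j)) * (a - b) (Sum.inl (Sum.inr j))) +
      2 * (∑ j : Fin gg, (a - b) (Sum.inl (Sum.inr j)) * b (Sum.inl (Sum.inl j))) +
      ee (p0 a) (p0 b) := fun a b => by
    simp only [gam, ee, Finset.mul_sum, ← Finset.sum_add_distrib, ← Finset.sum_sub_distrib]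
    exact Finset.sum_congr rfl fun j _ => by simp only [p0, Pi.sub_apply]; ring
  have hU' : U.Nonempty := by
    rw [hc U subset_rfl] at hU
    exact Finset.card_pos.1 (by omega)
  have b3 : (2 : O) ^ (1 + 1 + U.card + 1) ∣ Dl U fun e => R.J x v
      (fun g => l (insert i0 e) g - l e g) fun g => l (insert i0 e) g - l e g := by
    obtain ⟨i1, h1⟩ := hU'
    rw [← dig_eq_zero_iff b1, b2, JLoc_half h1]
    refine Finset.sum_eq_zero fun B hB => ?_
    have hB' := Finset.mem_powerset.1 (Finset.mem_filter.1 hB).1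
    have k1 := hll _ (Finset.insert_subset_insert i0 hB')
    have k2 := hll _ (Finset.insert_subset_insert i0 (Finset.sdiff_subset (s := U) (t := B)))
    have k3 := hbr_ll hx k1 k2
    rw [hbr, br_comm (hat_lz_iff.1 (k1.lz hx)).1 (hat_lz_iff.1 (k2.lz hx)).2] at k3
    simp only [Finset.sdiff_sdiff_eq_self hB', hδ _ B hB', hδ _ _ Finset.sdiff_subset,
      ← hc B hB', ← hc _ Finset.sdiff_subset]
    exact k3
  have a3 := JLoc_lft a1 (c := ∑ B ∈ (insert i0 U).powerset.filter (i0 ∈ ·),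
      R.br v (fun g => p1 (Th l B g)) fun g => p0 (Th l (insert i0 U \ B) g)) (by
    rw [a2, JLoc_ins hi]
    refine Finset.sum_congr rfl fun C hC => ?_
    have hC' := Finset.mem_powerset.1 hC
    simp only [hδ _ C hC', ← hc C hC', zero_add, Finset.insert_sdiff_insert,
      Finset.sdiff_insert_of_notMem hi]
    rfl)
  have e : Dl (insert i0 U) (fun e => R.J x v (l e) (l e)) -
      R.dQ lam v * Dl (insert i0 U) (fun e => gam (p0 (l e (T.τ v)))) =
      2 * Dl U (fun e => R.J x v (fun g => l (insert i0 e) g - l e g) (l e)) +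
      Dl U (fun e => R.J x v (fun g => l (insert i0 e) g - l e g)
        fun g => l (insert i0 e) g - l e g) -
      R.dQ lam v * Dl U (fun e => ∑ j : Fin gg,
        (l (insert i0 e) (T.τ v) - l e (T.τ v)) (Sum.inl (Sum.inl j)) *
        (l (insert i0 e) (T.τ v) - l e (T.τ v)) (Sum.inl (Sum.inr j))) -
      2 * R.dQ lam v * Dl U (fun e => ∑ j : Fin gg,
        (l (insert i0 e) (T.τ v) - l e (T.τ v)) (Sum.inl (Sum.inr j)) *
        l e (T.τ v) (Sum.inl (Sum.inl j))) := by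
    have m : ∀ (c : O) (f : Finset ι → O), c * Dl U f = Dl U fun e => c * f e := fun c f =>
      (Dl_map (AddMonoidHom.mulLeft c) U f).symm
    rw [Dl_insert hi, Dl_insert hi, ← Dl_sub, ← Dl_sub]
    simp only [m, ← Dl_sub, ← Dl_add]
    refine Dl_congr fun e he => ?_
    have k := J_swap hx (hl _ (Finset.insert_subset_insert i0 he))
      (hl _ (he.trans (Finset.subset_insert _ _)))
    have k' := eG (l (insert i0 e) (T.τ v)) (l e (T.τ v))
    simp only [JLoc_sub_left, JLoc_sub_right] at k ⊢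
    linear_combination k - R.dQ lam v * k'
  rw [e, hc U subset_rfl]
  obtain ⟨a4, a3⟩ := a3
  obtain ⟨b4, b3⟩ := b3
  obtain ⟨c3, c1⟩ := c1
  obtain ⟨c4, c2⟩ := c2
  refine ⟨a4 + b4 - lam * T.dg v * T.Q v * (c3 + c4), ?_⟩
  rw [b3, c1, c2, dQ]
  linear_combination a3

theorem lemB {m : ℕ} (hm : 2 ≤ m) (hx : T.IsHom x) {L l κ ct s tp : W → H → O}
    (hL : (R.hat lam).LTyp x v L) (hl : (R.hat lam).LTyp x v l)
    (h1 : ∀ g ∈ T.D v, VD (m + 2) (ct g - (L g - (2 : O) • l g)))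
    (h2 : ∀ g ∈ T.D v, VD m (s g - (l g + (2 : O) ^ (m - 1) • κ g)))
    (h3 : VD (m + 1) (tp (T.τ v) - (L (T.τ v) + (2 : O) ^ m • κ (T.τ v)))) :
    (2 : O) ^ (m + 2) ∣ R.J x v ct ct + 4 * R.J x v (fun g => ct g + s g) s -
      R.dQ lam v * (gam (p0 (tp (T.τ v))) + 2 * ee (p0 (s (T.τ v))) (p0 (ct (T.τ v)))) -
      (R.J x v L L - R.dQ lam v * gam (p0 (L (T.τ v))) + (2 : O) ^ (m + 1) * lft
        (R.br v (fun g => p1 (digV 0 (κ g))) (fun g => p0 (digV 0 (s g))) +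
          R.br v (fun g => p1 (digV 0 (L g)) + p1 (digV 0 (s g))) fun g => p0 (digV 0 (κ g)))) := by
  obtain ⟨k, rfl⟩ : ∃ k, m = k + 2 := ⟨m - 2, by omega⟩
  have hτ := Tame.τ_mem (T := T) v
  obtain ⟨c0, e0⟩ := JLoc_gam k (L := p0 (L (T.τ v))) (l := p0 (l (T.τ v)))
    (κ := p0 (κ (T.τ v))) (ct := p0 (ct (T.τ v))) (s := p0 (s (T.τ v))) (tp := p0 (tp (T.τ v)))
    (h1 _ hτ).q0 (h2 _ hτ).q0 h3.q0
  obtain ⟨c1, e1⟩ := J_congr (R := R) (x := x) h1 h1
  obtain ⟨c2, e2⟩ := J_congr (R := R) (x := x) (a := fun g => ct g + s g)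
    (a' := fun g => L g - (2 : O) • l g + (l g + (2 : O) ^ (k + 2 - 1) • κ g)) (fun g hg => by
      rw [add_sub_add_comm]
      exact ((h1 g hg).mono (by omega)).add (h2 g hg)) h2
  have hs : ∀ g ∈ T.D v, VD 1 (s g - l g) := fun g hg => by
    have := ((h2 g hg).mono (i := 1) (by omega)).add
      ((VD_pow_smul (k + 2 - 1) (κ g)).mono (by omega))
    rwa [← sub_sub, sub_add_cancel] at this
  have h0 : ∀ g ∈ T.D v, VD 1 (κ g - κ g) := fun g _ => by
    rw [sub_self]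
    exact VD.zero 1
  obtain ⟨c3, e3⟩ := J_congr (R := R) (x := x) h0 hs
  obtain ⟨c4, e4⟩ := J_congr (R := R) (x := x) hs h0
  have e5 := J_swap hx hL hl
  have d1 := (dig_J (R := R) (x := x) (v := v) (a := κ) (b := s) (fun _ _ => VD.triv _)
    fun _ _ => VD.triv _).2
  have d2 := (dig_J (R := R) (x := x) (v := v) (a := L) (b := κ) (fun _ _ => VD.triv _)
    fun _ _ => VD.triv _).2
  have d3 := (dig_J (R := R) (x := x) (v := v) (a := s) (b := κ) (fun _ _ => VD.triv _)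
    fun _ _ => VD.triv _).2
  have e6 := tl_spec (R.J x v κ s + (R.J x v L κ + R.J x v s κ))
  rw [br_add_left, ← d1, ← d2, ← d3, add_zero, dig_zero, dig_zero, dig_zero, ← map_add, ← map_add]
  simp only [J_add_left, J_add_right, JLoc_sub_left, JLoc_sub_right, J_smul_left, J_smul_right,
    Nat.add_succ_sub_one] at e1 e2
  refine ⟨c1 + c2 - lam * T.dg v * T.Q v * c0 + tl (R.J x v κ s + (R.J x v L κ + R.J x v s κ)) -
    c3 - c4 - R.J x v l κ + 2 ^ k * R.J x v κ κ, ?_⟩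
  rw [dQ] at e5 ⊢
  rw [J_add_left]
  linear_combination e1 + 4 * e2 - 2 * e5 - 2 * lam * T.dg v * T.Q v * e0 +
    2 ^ (k + 3) * (e6 - e3 - e4)

end Rep

end

end Pool.Agent.Hyp
end

-- merged part: Pool.Agent.Work.MP_60d5ce_nt.Hy.Cup
section
/-!
# Restricted reciprocity, the Cassels-Tate pairing, the diagonal condition

Hints.
* `ct_vanish`: `θ g h = bil (s g) (act g (y h))` is a cocycle of level `j + 1` for `cq` (`bil_act`).  At
  `v ∈ A` write `s = l + κ`, `y = l'` modulo `2 ^ (j + 1)` on `D v`; the invariant of `bil (l g) (act g (l' h))`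
  vanishes (`bil_iso`), that of `bil (κ g) (act g (y h))` is divisible by `2 ^ j` with digit `hbr`
  (`inv_dig`, `dig_bil`, `digV_act`, `p0_rb`, `p1_rb`).  Outside `A` use `Coc.pow_unr`.  Apply `rrecip`.
* `diag_zero`: the same with `θ = cupJ x s s` (`cupJ_d` with `lam = 0`), `J_zero`, `dig_J`, `br_comm`; `2 j ≥ j + 1`.
* `diag_of_lift`: let `ct` be the Selmer cocycle of level `j + 1` lifting `w`.  By induction on `i ≤ r = j - K1 + 1`
  there is `y` in `Sel (j + 1)` for `hat lam` with `p0 (s g - y g)` divisible by `2 ^ i`: the quotient `s0` is in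
  `Sel (j - i)` for `R` (`sel_p0`, `sel_pow_smul_iff`), `NoLift 0` for the pair `(p0 ct, s0)` (`sel_pair`) shows
  that the digit of `s0` is `db t` or `p0 w + db t`; add to `y` the product of `2 ^ i` and `ct` (or zero) plus the
  coboundary of `(lftV t, 0)` (`sel_of_cob`).  Then `p1 (s - y)` is in `Sel K1` for `R`: locally
  `2 ^ n • l = act g t - t` with `p0 l` divisible by `2 ^ r` on `D v`, so `hfin` gives `2 ^ (n + r - c) ∣ p0 t`, and
  `p1_act`.  `NoLift 0` again, `sel_inr`: the digit of `s` is the digit of an element of `Sel (j + 1)`;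
  `ct_vanish`.
-/

namespace Pool.Agent.Hyp

open Pool.Agent.Quad

variable [Par]

open scoped Classical

noncomputable section

variable {W P : Type} [Group W] {T : Tame W P}

/-- smooth 2-cocycles modulo `(2 : O) ^ j` for the cyclotomic action -/
def CocO (T : Tame W P) (j : ℕ) (θ : W → W → O) : Prop :=
  (∃ U, T.Adm U ∧ ∀ g h, ∀ u ∈ U, ∀ u' ∈ U, (2 : O) ^ j ∣ θ (g * u) (h * u') - θ g h) ∧
    ∀ g h k, (2 : O) ^ j ∣ T.cq g * θ h k - θ (g * h) k + θ g (h * k) - θ g h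

theorem cup_res_eq {j : ℕ} {a b : O} (h : (2 : O) ^ (j + 1) ∣ a - b) : res a = res b := by
  rw [← sub_eq_zero, ← map_sub, res_eq_zero_iff]
  exact (dvd_pow_self (2 : O) (Nat.succ_ne_zero j)).trans h

theorem cup_dvd_pi {j : ℕ} {a : O} (h : (2 : O) ^ (j + 1) ∣ (2 : O) * a) : (2 : O) ^ j ∣ a := by
  rwa [← pow_mul_dvd_iff 1, pow_one, add_comm]

theorem cup_res_sm {j : ℕ} {θ : W → W → O} (hθ : CocO T (j + 1) θ) :
    T.Sm2 fun g h => res (θ g h) := by
  obtain ⟨U, hU, h⟩ := hθ.1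
  exact ⟨U, hU, fun g g' u hu u' hu' => cup_res_eq (h g g' u hu u' hu')⟩

theorem cup_res_coc {j : ℕ} {θ : W → W → O} (hθ : CocO T (j + 1) θ) :
    IsCoc2 fun g h => res (θ g h) := by
  intro g h k
  have := cup_res_eq (b := 0) (by simpa only [sub_zero] using hθ.2 g h k)
  simpa only [map_sub, map_add, map_mul, Tame.res_cq, one_mul, map_zero] using this

theorem cup_res_inv (v : P) (θ : W → W → O) :
    T.inv v (fun g h => res (θ g h)) = res (T.inv v θ) :=
  Tame.inv_map res.toAddMonoidHom v θ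

/-- restricted reciprocity -/
theorem rrecip {j : ℕ} {θ : W → W → O} (hθ : CocO T (j + 1) θ)
    (h : ∀ v, (2 : O) ^ j ∣ T.inv v θ) (S : Finset P) (hS : ∀ v ∉ S, (2 : O) ^ (j + 1) ∣ T.inv v θ) :
    ∑ v ∈ S, dig j (T.inv v θ) = 0 := by
  induction j generalizing θ with
  | zero =>
    have := T.recip _ (cup_res_sm hθ) (cup_res_coc hθ) S fun v hv => by
      rw [cup_res_inv, cup_res_eq (b := 0) (by simpa only [sub_zero] using hS v hv), map_zero]
    simpa only [cup_res_inv, dig_zero] using this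
  | succ j ih =>
    obtain ⟨b, hb, hθb⟩ := T.hasse _ (cup_res_sm hθ) (cup_res_coc hθ) fun v => by
      rw [cup_res_inv, cup_res_eq (b := 0) (by simpa only [sub_zero] using h v), map_zero]
    have h1 : ∀ g g', ∃ c, θ g g' - (lft (b g) + T.cq g * lft (b g') - lft (b (g * g'))) =
        (2 : O) * c := fun g g' => (res_eq_zero_iff _).1 (by
      simp only [map_sub, map_add, map_mul, Tame.res_cq, one_mul, res_lft, hθb, sub_self])
    choose θ' hθ' using h1
    have h2 : ∀ v, T.inv v θ = (2 : O) * T.inv v θ' := fun v => by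
      have e := Tame.inv_cob_cq (T := T) v (b := fun g => lft (b g))
      rw [← Tame.sm_rel hb v, sub_self] at e
      rw [← Tame.inv_mul_left, ← sub_zero (T.inv v θ), ← e, ← Tame.inv_sub]
      simp only [hθ']
    have h3 : CocO T (j + 1) θ' := by
      obtain ⟨U, hU, hθU⟩ := hθ.1
      obtain ⟨U', hU', hbU⟩ := hb
      refine ⟨⟨U ⊓ U', T.adm_inf _ _ hU hU', fun g g' u hu u' hu' => cup_dvd_pi ?_⟩,
        fun g g' k => cup_dvd_pi ?_⟩
      · have e : T.cq (g * u) = T.cq g := by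
          rw [Tame.cq_mul, Tame.cq_of_deg_zero (T.adm_le _ hU hu.1), mul_one]
        rw [mul_sub, ← hθ', ← hθ', e, hbU g u hu.2, hbU g' u' hu'.2, ← mul_assoc, hbU _ u' hu'.2,
          Tame.mul_mid hU' hbU g g' hu.2, sub_sub_sub_cancel_right]
        exact hθU g g' u hu.1 u' hu'.1
      · have e1 := hθ' g' k
        have e2 := hθ' (g * g') k
        have e3 := hθ' g (g' * k)
        have e4 := hθ' g g'
        rw [Tame.cq_mul, mul_assoc g] at e2
        refine (congrArg _ ?_).mp (hθ.2 g g' k)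
        linear_combination T.cq g * e1 - e2 + e3 - e4
    refine Eq.trans (Finset.sum_congr rfl fun v _ => ?_)
      (ih h3 (fun v => cup_dvd_pi (h2 v ▸ h v)) fun v hv => cup_dvd_pi (h2 v ▸ hS v hv))
    rw [h2, dig_succ, tl_eq (c := 0) (b := T.inv v θ') (by rw [lft_zero, zero_add])]

theorem cup_p0_add (a b : H → O) : p0 (a + b) = p0 a + p0 b := rfl

theorem cup_p0_sub (a b : H → O) : p0 (a - b) = p0 a - p0 b := rfl

theorem cup_p0_smul (c : O) (a : H → O) : p0 (c • a) = c • p0 a := rfl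

theorem cup_p1_add (a b : H → O) : p1 (a + b) = p1 a + p1 b := rfl

theorem cup_p1_sub (a b : H → O) : p1 (a - b) = p1 a - p1 b := rfl

theorem cup_p1_smul (c : O) (a : H → O) : p1 (c • a) = c • p1 a := rfl

theorem cup_bil_add_left (a a' b : H → O) : bil (a + a') b = bil a b + bil a' b := by
  simp only [bil, cup_p0_add, cup_p1_add, ee_add_left]; ring

theorem cup_bil_add_right (a b b' : H → O) : bil a (b + b') = bil a b + bil a b' := by
  simp only [bil, cup_p0_add, cup_p1_add, ee_add_right]; ring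

theorem cup_bil_sub_left (a a' b : H → O) : bil (a - a') b = bil a b - bil a' b := by
  simp only [bil, cup_p0_sub, cup_p1_sub, ee_sub_left]; ring

theorem cup_bil_sub_right (a b b' : H → O) : bil a (b - b') = bil a b - bil a b' := by
  simp only [bil, cup_p0_sub, cup_p1_sub, ee_sub_right]; ring

theorem cup_bil_smul_right (c : O) (a b : H → O) : bil a (c • b) = c * bil a b := by
  simp only [bil, cup_p0_smul, cup_p1_smul, ee_smul_right]; ring

theorem cup_bil_left {j : ℕ} {a : H → O} (ha : VD j a) (b : H → O) : (2 : O) ^ j ∣ bil a b :=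
  bil_dvd ha (VD.triv b)

theorem cup_bil_right {j : ℕ} (a : H → O) {b : H → O} (hb : VD j b) : (2 : O) ^ j ∣ bil a b :=
  bil_comm a b ▸ cup_bil_left hb a

theorem cup_ee_left {j : ℕ} {a : V} (ha : VD j a) (b : V) : (2 : O) ^ j ∣ ee a b :=
  ee_dvd ha (VD.triv b)

theorem cup_ee_right {j : ℕ} (a : V) {b : V} (hb : VD j b) : (2 : O) ^ j ∣ ee a b := by
  simpa only [zero_add] using ee_dvd (VD.triv a) hb

theorem cup_dvd_inv (v : P) {j : ℕ} {θ : W → W → O}
    (h : ∀ g ∈ T.D v, ∀ g' ∈ T.D v, (2 : O) ^ j ∣ θ g g') : (2 : O) ^ j ∣ T.inv v θ :=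
  ((h _ (Tame.σ_mem v) _ (Tame.τ_mem v)).sub (h _ (pow_mem (Tame.τ_mem v) _) _ (Tame.σ_mem v))).sub
    (Finset.dvd_sum fun i _ => h _ (pow_mem (Tame.τ_mem v) i) _ (Tame.τ_mem v))

/-- reciprocity in the form that is used below -/
theorem cup_recip {j : ℕ} {θ : W → W → O} (hθ : CocO T (j + 1) θ) {A : Finset P} {f : P → F2}
    (h : ∀ v ∈ A, (2 : O) ^ j ∣ T.inv v θ ∧ dig j (T.inv v θ) = f v)
    (hS : ∀ v ∉ A, (2 : O) ^ (j + 1) ∣ T.inv v θ) : ∑ v ∈ A, f v = 0 := by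
  rw [← Finset.sum_congr rfl fun v hv => (h v hv).2]
  refine rrecip hθ (fun v => ?_) A hS
  by_cases hv : v ∈ A
  · exact (h v hv).1
  · exact (pow_dvd_pow _ (Nat.le_succ j)).trans (hS v hv)

namespace Rep

variable {R : Rep T} {x : W → F2} {lam : O} {A : Finset P} {j : ℕ}

theorem bil_act (g : W) (s t : H → O) :
    bil ((R.hat lam).act x g s) ((R.hat lam).act x g t) = T.cq g * bil s t := by
  simp only [bil, p0_act, p1_act, ee_add_left, ee_add_right, ee_smul_left, ee_smul_right, ee_act]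
  ring

theorem bil_iso (hx : T.IsHom x) {v : P} {l l' : W → H → O} (h : (R.hat lam).LTyp x v l)
    (h' : (R.hat lam).LTyp x v l') :
    T.inv v (fun g k => bil (l g) ((R.hat lam).act x g (l' k))) = 0 := by
  obtain ⟨m, t, ht⟩ := h'
  have e := Tame.inv_cob_cq (T := T) v (b := fun g => bil (l g) ((R.hat lam).act x g t))
  rw [← h.rel hx, ← Lat.act_rel hx, sub_self] at e
  refine two_pow_mul_eq_zero (j := m) ?_
  rw [← Tame.inv_mul_left, ← mul_zero (-1 : O), ← e, ← Tame.inv_mul_left]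
  refine Tame.inv_congr v fun g hg g' hg' => ?_
  rw [← cup_bil_smul_right, ← Lat.act_smul, ht g' hg', Lat.act_sub, cup_bil_sub_right,
    h.coc hx g hg g' hg', cup_bil_add_left, Lat.act_mul hx, bil_act]
  ring

/-- smoothness of the half cup product -/
theorem cupJ_sm (hx : T.IsHom x) {a b : W → H → O} (ha : (R.hat lam).Coc x j a)
    (hb : (R.hat lam).Coc x j b) : ∃ U, T.Adm U ∧ ∀ g h, ∀ u ∈ U, ∀ u' ∈ U,
      (2 : O) ^ j ∣ R.cupJ x a b (g * u) (h * u') - R.cupJ x a b g h := by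
  obtain ⟨U1, hU1, h1⟩ := ha.1
  obtain ⟨U2, hU2, h2⟩ := hb.1
  obtain ⟨U3, hU3, h3⟩ := Lat.act_sm (R := R.toLat) hx j
  refine ⟨U1 ⊓ U2 ⊓ U3, T.adm_inf _ _ (T.adm_inf _ _ hU1 hU2) hU3, fun g h u hu u' hu' => ?_⟩
  have e := (cup_ee_left (h1 g u hu.1.1).q1 (R.act x (g * u) (p0 (b (h * u'))))).add
    (cup_ee_right (p1 (a g)) (Lat.act_VD (R := R.toLat) (x := x)
      ((h3 u hu.2 (p0 (b (h * u')))).add (h2 h u' hu'.1.2).q0) g))
  rw [cup_p0_sub, cup_p1_sub, sub_add_sub_cancel, Lat.act_sub, ← Lat.act_mul hx, ee_sub_left,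
    ee_sub_right, sub_add_sub_cancel] at e
  exact e

/-- the coboundary of the half cup product -/
theorem cupJ_d (hx : T.IsHom x) {a b : W → H → O} (ha : (R.hat lam).Coc x j a)
    (hb : (R.hat lam).Coc x j b) (g h k : W) :
    (2 : O) ^ j ∣ T.cq g * R.cupJ x a b h k - R.cupJ x a b (g * h) k + R.cupJ x a b g (h * k) -
      R.cupJ x a b g h +
        2 * lam * (T.deg g : O) * T.cq g * ee (p0 (a h)) (R.act x h (p0 (b k))) := by
  have e := (cup_ee_left (ha.2 g h).q1 (R.act x (g * h) (p0 (b k)))).sub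
    (cup_ee_right (p1 (a g)) (Lat.act_VD (R := R.toLat) (x := x) (hb.2 h k).q0 g))
  simp only [cup_p0_sub, cup_p0_add, cup_p1_sub, cup_p1_add, p0_act, p1_act, Lat.act_sub,
    Lat.act_add, ee_sub_left, ee_add_left, ee_sub_right, ee_add_right, ee_smul_left,
    Lat.act_mul hx, ee_act] at e
  simp only [cupJ, Lat.act_mul hx]
  refine (congrArg _ ?_).mp e
  ring

theorem cup_cocO (hx : T.IsHom x) {a b : W → H → O} (ha : (R.hat lam).Coc x j a)
    (hb : (R.hat lam).Coc x j b) :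
    CocO T j fun g h => bil (a g) ((R.hat lam).act x g (b h)) := by
  obtain ⟨U1, hU1, h1⟩ := ha.1
  obtain ⟨U2, hU2, h2⟩ := hb.1
  obtain ⟨U3, hU3, h3⟩ := Lat.act_sm (R := R.hat lam) hx j
  refine ⟨⟨U1 ⊓ U2 ⊓ U3, T.adm_inf _ _ (T.adm_inf _ _ hU1 hU2) hU3,
    fun g h u hu u' hu' => ?_⟩, fun g h k => ?_⟩
  · have e := (cup_bil_left (h1 g u hu.1.1) ((R.hat lam).act x (g * u) (b (h * u')))).add
      (cup_bil_right (a g) (Lat.act_VD (R := R.hat lam) (x := x)
        ((h3 u hu.2 (b (h * u'))).add (h2 h u' hu'.1.2)) g))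
    rw [sub_add_sub_cancel, Lat.act_sub, ← Lat.act_mul hx, cup_bil_sub_left, cup_bil_sub_right,
      sub_add_sub_cancel] at e
    exact e
  · have e := (cup_bil_left (ha.2 g h) ((R.hat lam).act x (g * h) (b k))).sub
      (cup_bil_right (a g) (Lat.act_VD (R := R.hat lam) (x := x) (hb.2 h k) g))
    simp only [Lat.act_sub, Lat.act_add, cup_bil_sub_left, cup_bil_add_left, cup_bil_sub_right,
      cup_bil_add_right, Lat.act_mul hx, bil_act] at e
    simp only [Lat.act_mul hx]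
    refine (congrArg _ ?_).mp e
    ring

theorem cup_lz (hx : T.IsHom x) {v : P} {s l : W → H → O} (hs : (R.hat lam).Coc x (j + 1) s)
    (hl : (R.hat lam).LTyp x v l) (h : ∀ g ∈ T.D v, VD j (s g - l g)) :
    (R.hat lam).LZ v fun g => digV j (s g - l g) := by
  refine ⟨fun g hg k hk => ?_, digV_congr ?_⟩
  · beta_reduce
    rw [← Lat.digV_act (x := x) (h k hk), ← digV_add (h g hg) (Lat.act_VD (h k hk) g)]
    refine (digV_congr ((congrArg _ ?_).mp (hs.2 g k))).symm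
    rw [hl.coc hx g hg k hk, Lat.act_sub]
    abel
  · rw [hl.rel hx, sub_sub_sub_cancel_right]
    exact hs.rel v

theorem ct_vanish (hx : T.IsHom x) {s y : W → H → O} (hs : (R.hat lam).Coc x (j + 1) s)
    (hu : ∀ v ∉ A, VD (j + 1) (s (T.τ v))) {l : P → W → H → O}
    (hl : ∀ v ∈ A, (R.hat lam).LTyp x v (l v) ∧ ∀ g ∈ T.D v, VD j (s g - l v g))
    (hy : (R.hat lam).Sel A x (j + 1) y) :
    ∑ v ∈ A, R.hbr v (fun g => digV j (s g - l v g)) (fun g => digV 0 (y g)) = 0 := by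
  refine cup_recip (cup_cocO hx hs hy.1) (fun v hv => ?_) fun v hv => ?_
  · obtain ⟨h1, h2⟩ := hl v hv
    obtain ⟨l', h3, h4⟩ := hy.2.1 v hv
    have h5 : ∀ g ∈ T.D v, ∀ g' ∈ T.D v,
        (2 : O) ^ j ∣ bil (s g - l v g) ((R.hat lam).act x g (y g')) :=
      fun g hg g' _ => cup_bil_left (h2 g hg) _
    have h6 : (2 : O) ^ (j + 1) ∣ T.inv v (fun g h => bil (s g) ((R.hat lam).act x g (y h))) -
        T.inv v fun g h => bil (s g - l v g) ((R.hat lam).act x g (y h)) := by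
      rw [← sub_zero (_ - _), ← bil_iso hx h1 h3, ← Tame.inv_sub]
      refine Tame.inv_dvd v fun g _ g' hg' => ?_
      refine (congrArg _ ?_).mp
        (cup_bil_right (l v g) (Lat.act_VD (R := R.hat lam) (x := x) (h4 g' hg') g))
      rw [Lat.act_sub, cup_bil_sub_left, cup_bil_sub_right]
      ring
    refine ⟨?_, ?_⟩
    · have := ((pow_dvd_pow _ (Nat.le_succ j)).trans h6).add (cup_dvd_inv v h5)
      rwa [sub_add_cancel] at this
    · rw [dig_congr h6, ← Tame.inv_dig v h5, hbr, br, br, ← Tame.inv_add]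
      refine Tame.inv_congr v fun g hg g' _ => ?_
      have h7 := dig_bil (h2 g hg) (VD.triv ((R.hat lam).act x g (y g')))
      rw [add_zero, Lat.digV_act (VD.triv _)] at h7
      rw [h7, bil, p0_rb, p1_rb, F2_sub]
  · have h1 := fun g => cup_bil_right (s g)
      (Lat.act_VD (R := R.hat lam) (x := x) (hy.2.2 v hv) g)
    exact ((h1 _).sub (cup_bil_left (hs.pow_unr hx (hu v hv) _) _)).sub
      (Finset.dvd_sum fun i _ => h1 _)

theorem diag_zero (hx : T.IsHom x) (hj : 1 ≤ j) : R.Diag 0 A x j := by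
  intro s hs hu l hl
  refine cup_recip (θ := R.cupJ x s s) ⟨cupJ_sm hx hs hs, fun g h k => ?_⟩ (fun v hv => ?_)
    fun v hv => J_unr hx hs (hu v hv) (hu v hv)
  · simpa only [mul_zero, zero_mul, add_zero] using cupJ_d hx hs hs g h k
  · obtain ⟨h1, h2⟩ := hl v hv
    have e : (fun g => l v g + (s g - l v g)) = s := funext fun g => add_sub_cancel _ _
    have e1 := J_add_left (R := R) (x := x) (v := v) (l v) (fun g => s g - l v g) s
    have e2 := J_add_right (R := R) (x := x) (v := v) (l v) (l v) fun g => s g - l v g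
    have e3 := J_add_left (R := R) (x := x) (v := v) (l v) (fun g => s g - l v g)
      fun g => s g - l v g
    rw [e] at e1 e2 e3
    rw [J_zero hx h1 h1] at e2
    obtain ⟨a1, a2⟩ := dig_J (R := R) (x := x) (b := s) h2 fun g _ => VD.triv _
    obtain ⟨b1, b2⟩ := dig_J (R := R) (x := x) (a := s) (fun g _ => VD.triv _) h2
    have c1 := (pow_dvd_pow _ (show j + 1 ≤ j + j by omega)).trans
      (dig_J (R := R) (x := x) h2 h2).1
    rw [add_zero] at a1 a2
    rw [zero_add] at b1 b2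
    have h6 : (2 : O) ^ (j + 1) ∣ R.J x v s s -
        (R.J x v (fun g => s g - l v g) s + R.J x v s fun g => s g - l v g) := by
      refine (congrArg _ ?_).mp c1.neg_right
      linear_combination e3 - e1 - e2
    refine ⟨?_, ?_⟩
    · have := ((pow_dvd_pow _ (Nat.le_succ j)).trans h6).add (a1.add b1)
      rwa [sub_add_cancel] at this
    · refine (dig_congr h6).trans ?_
      rw [dig_add a1 b1, a2, b2, hbr, br_comm (a := fun g => p1 (digV 0 (s g)))
        (hat_lz_iff.1 (((hs.mono (Nat.le_add_left 1 j)).z1_dig fun g => VD.triv _).lz v)).2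
        (hat_lz_iff.1 (cup_lz hx hs h1 h2)).1]

theorem cup_two {K : ℕ} (hN : R.NoLift 0 A x K) {c d : W → V} (hc : R.Sel A x K c)
    (h0 : ¬ R.IsCob fun g => digV 0 (c g)) (hd : R.Sel A x K d) :
    ∃ (a : O) (t : V), ∀ g, VD 1 (d g - (a • c g + (R.act x g t - t))) := by
  have key : ∀ (a : O) (t : Vb), (∀ g, res a • digV 0 (c g) + digV 0 (d g) = R.db t g) →
      ∀ g, VD 1 (d g - (a • c g + (R.act x g (lftV t) - lftV t))) := fun a t h g => by
    rw [← digV_eq_zero_iff (j := 0) (VD.triv _), digV_sub (VD.triv _) (VD.triv _),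
      digV_add (VD.triv _) (VD.triv _), digV_smul _ (VD.triv _), Lat.digV_act_sub (VD.triv _),
      digV_lftV, ← h g, ← add_assoc, vb_add_self, zero_add, sub_self]
  by_contra h
  refine hN (fun g => digV 0 (Sum.elim (c g) (d g))) ⟨h0, fun _ => ⟨?_, ?_⟩⟩
    ⟨_, sel_pair hc hd, fun _ => rfl⟩
  · rintro ⟨t, ht⟩
    exact h ⟨0, _, key 0 t fun g => by rw [map_zero, zero_smul, zero_add]; exact ht g⟩
  · rintro ⟨t, ht⟩
    exact h ⟨1, _, key 1 t fun g => by rw [map_one, one_smul]; exact ht g⟩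

theorem cup_sel_p1 {c K r : ℕ}
    (hfin : ∀ v ∈ A, ∀ (m : ℕ) (t : V), VD m (R.act x (T.σ v) t - t) →
      VD m (R.act x (T.τ v) t - t) → VD (m - c) t) (h1 : K + c ≤ r) (h2 : r ≤ j) {u : W → H → O}
    (hu : (R.hat lam).Sel A x j u) (h0 : ∀ g, VD r (p0 (u g))) :
    R.Sel A x K fun g => p1 (u g) := by
  have h3 : K ≤ j := by omega
  obtain ⟨⟨⟨U, hU, k1⟩, k2⟩, k3, k4⟩ := hu
  refine ⟨⟨⟨U, hU, fun g u' hu' => (k1 g u' hu').q1.mono h3⟩, fun g h => ?_⟩, fun v hv => ?_,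
    fun v hv => (k4 v hv).q1.mono h3⟩
  · refine (congrArg _ ?_).mp (((k2 g h).q1.mono h3).sub (((Lat.act_VD (R := R.toLat) (x := x)
      (h0 h) g).mono (by omega)).smul (2 * lam * (T.deg g : O))))
    rw [cup_p1_sub, cup_p1_add, p1_act]
    abel
  · obtain ⟨l, ⟨n, t, ht⟩, hl⟩ := k3 v hv
    have h4 : ∀ g ∈ T.D v, VD (n + r) (R.act x g (p0 t) - p0 t) := fun g hg => by
      rw [← p0_act (lam := lam), ← cup_p0_sub, ← ht g hg, cup_p0_smul, VD_pow_smul_iff]
      have := (h0 g).sub ((hl g hg).q0.mono h2)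
      rwa [cup_p0_sub, sub_sub_cancel] at this
    obtain ⟨t', ht'⟩ := ((hfin v hv _ _ (h4 _ (Tame.σ_mem v)) (h4 _ (Tame.τ_mem v))).mono
      (show n + K ≤ n + r - c by omega)).exists
    refine ⟨fun g => p1 (l g) - (2 : O) ^ K • (2 * lam * (T.deg g : O)) • R.act x g t',
      ⟨n, p1 t, fun g hg => ?_⟩, fun g hg => ?_⟩
    · rw [smul_sub, ← cup_p1_smul, ht g hg, cup_p1_sub, p1_act, ht', Lat.act_smul, smul_smul,
        smul_smul, smul_smul, ← pow_add, mul_comm ((2 : O) ^ (n + K))]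
      abel
    · refine (congrArg _ ?_).mp (((hl g hg).q1.mono h3).add
        (VD_pow_smul K ((2 * lam * (T.deg g : O)) • R.act x g t')))
      rw [cup_p1_sub]
      exact sub_add _ _ _

theorem diag_of_lift (hx : T.IsHom x) (hA : R.Ram x A) {c K1 : ℕ}
    (hfin : ∀ v ∈ A, ∀ (m : ℕ) (t : V), VD m (R.act x (T.σ v) t - t) →
      VD m (R.act x (T.τ v) t - t) → VD (m - c) t)
    (hK : 1 ≤ K1) (hj : 2 * K1 + c ≤ j) (hN : R.NoLift 0 A x K1) {w : W → H → F2}
    (hw : (R.hat lam).Lifts A x (j + 1) w) (h0 : ¬ R.IsCob fun g => p0 (w g)) :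
    R.Diag lam A x j := by
  intro s hs hu l hl
  obtain ⟨ct, hct, hw⟩ := hw
  have hc := sel_p0 hct
  have hc0 : ¬ R.IsCob fun g => digV 0 (p0 (ct g)) := fun h => h0 (by
    simp only [← hw]
    exact h)
  have hsel : (R.hat lam).Sel A x j s := ⟨hs.mono (Nat.le_succ j),
    fun v hv => ⟨l v, hl v hv⟩, fun v hv => (hu v hv).mono (Nat.le_succ j)⟩
  have key : ∀ i, i + K1 ≤ j + 1 →
      ∃ y, (R.hat lam).Sel A x (j + 1) y ∧ ∀ g, VD i (p0 ((s - y) g)) := fun i hi => by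
    induction i with
    | zero => exact ⟨ct, hct, fun g => VD.triv _⟩
    | succ i ih =>
      obtain ⟨y, h1, h2⟩ := ih (by omega)
      choose s0 h3 using fun g => (h2 g).exists
      have h4 : R.Sel A x (i + K1) ((2 : O) ^ i • s0) := by
        rw [show (2 : O) ^ i • s0 = fun g => p0 ((s - y) g) from funext fun g => (h3 g).symm]
        exact (sel_p0 (hsel.sub (h1.mono (Nat.le_succ j)))).mono (by omega)
      obtain ⟨a, t, h5⟩ := cup_two hN (hc.mono (by omega)) hc0 (Lat.sel_pow_smul_iff.1 h4)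
      refine ⟨y + (2 : O) ^ i • (a • ct + fun g => (R.hat lam).act x g (Sum.elim t 0) -
        Sum.elim t 0), h1.add (((hct.smul a).add (Lat.sel_of_cob (m := 0) (t := Sum.elim t 0) hx
          (hat_ram.2 hA) fun g => by rw [pow_zero, one_smul])).smul _), fun g => ?_⟩
      refine (congrArg _ ?_).mp ((VD_pow_smul_iff i 1 _).2 (h5 g))
      rw [smul_sub, ← h3 g]
      simp only [Pi.sub_apply, Pi.add_apply, Pi.smul_apply, cup_p0_sub, cup_p0_add, cup_p0_smul,
        p0_act]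
      rw [sub_sub]
      rfl
  obtain ⟨y, h1, h2⟩ := key (j + 1 - K1) (by omega)
  obtain ⟨a, t, h3⟩ := cup_two hN (hc.mono (by omega)) hc0
    (cup_sel_p1 hfin (by omega) (by omega) (hsel.sub (h1.mono (Nat.le_succ j))) h2)
  have h4 := h1.add (sel_inr (lam := lam) ((hc.smul a).add (Lat.sel_of_cob (m := 0) (t := t) hx hA
    (ψ := fun g => R.act x g t - t) fun g => by rw [pow_zero, one_smul])))
  refine Eq.trans (Finset.sum_congr rfl fun v _ => congrArg _ (funext fun g =>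
    digV_congr (VD_of_p ?_ ?_))) (ct_vanish hx hs hu hl h4)
  · refine (congrArg _ ?_).mp ((h2 g).mono (by omega))
    exact congrArg (p0 (s g) - ·) (add_zero (p0 (y g))).symm
  · refine (congrArg _ ?_).mp (h3 g)
    exact sub_sub (p1 (s g)) _ _

end Rep

end

end Pool.Agent.Hyp
end

-- merged part: Pool.Agent.Work.MP_60d5ce_nt.Hy.Side
section
/-!
# The identity on one side of a cube

`U = univ`, `m = card ι ≥ 2`, `c e = p0 (ψ e)`, `(a ∪ b) g h = ee (a g) (act g (b h))`,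
`d F g h = cq g * F h - F (g * h) + F g`.
* `gam_d`: for one vertex, with `a = c g`, `y = c h`, `b = act g y`, modulo `2 ^ (m + 1)`:
  `ee a b - d (gam ∘ c) g h = 2 a0 b1 + (gam (ρ g y) - det (ρ g) * gam y)`, and the last bracket is
  `α y0 ^ 2 + 2 β y0 y1 + γ y1 ^ 2` with `α β γ` independent of the vertex (`sg_mul_self`).  Apply `Dl U`:
  `Gr.mul`, `grV_act`, `Dl_sq`.
* `xi_coc`: `cupJ_d` for each vertex (level `m + 2`) and for the pair `(ct + s, s)` (level `m`, times four);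
  `d` of `(g, h) ↦ δ g * cq g * F h` is `-δ g * cq g * d F h k`; `gam_d`; `c U = p0 ct + 2 • p0 s`; for
  `F g = ee (s0 g) (ct0 g)` one has `d F = -(s0 ∪ ct0) + ct0 ∪ s0` modulo `2 ^ m`.
* `xi_inv`: `deg τ = 0`, `deg σ = dg`, `cq_σ`.
* `xi_C`: choose `l e` for `e ≠ U` and `lt` (`LocOK`, `LocOK.twist`), `L = -∑ (e ≠ U), ± l e`,
  `l = (L - lt) / 2`, `κ = (ψ U - L) / 2 ^ m` on `D v` (`Dl_top`); the digit of `κ` is `Th ψ U`.  Apply `lemB`, then
  `lemA` to the family `update l U L`, whose `Dl U` vanishes.  `br_comm` with `URel.lz`.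
* `xi_F`: each `J (ψ e) (ψ e)` vanishes modulo `2 ^ (m + 2)` (`unr_of_free` and `J_unr`, or `locOK_of_free` and
  `J_self`).  If the top twist is ramified, `s = l` modulo `2 ^ m`, `ct = lt`, and `J_formula` with `r = 1`
  (`LTyp.ram`) gives `4 J lt l = 2 dQ ee (l0 τ) (lt0 τ)`.  `dig_Dl_gam`: by `URel.cob_of_free` and `uop_of_zero`,
  `Th ψ B τ = 0` if `i ∉ B`.
* `side`: `rrecip`.  `side_diag`: use the same `l` at `v ∈ C`, and `locOK_of_free` of level `m` on `F`.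
-/

namespace Pool.Agent.Hyp

open Pool.Agent.Quad

variable [Par]

open scoped Classical

noncomputable section

variable {W P : Type} [Group W] {T : Tame W P}

theorem side_Dl_mul {ι : Type} [DecidableEq ι] (c : O) (B : Finset ι) (f : Finset ι → O) :
    Dl B (fun e => c * f e) = c * Dl B f := Dl_map (AddMonoidHom.mulLeft c) B f

theorem side_Dl_top {ι A : Type} [DecidableEq ι] [AddCommGroup A] {U : Finset ι}
    {f f' : Finset ι → A} (h : ∀ e, e ≠ U → f e = f' e) : Dl U f - Dl U f' = f U - f' U := by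
  rw [Dl_top, Dl_top U f', Finset.sum_congr rfl fun e he => by rw [h e (Finset.ne_of_mem_erase he)],
    add_sub_add_right_eq_sub]

theorem side_Dl_top_dvd {ι : Type} [DecidableEq ι] {U : Finset ι} {j : ℕ}
    {f f' : Finset ι → O} (h : ∀ e, e ≠ U → (2 : O) ^ j ∣ f e - f' e) :
    (2 : O) ^ j ∣ Dl U f - Dl U f' - (f U - f' U) := by
  rw [← Dl_sub, Dl_top, add_sub_cancel_left]
  refine Finset.dvd_sum fun e he => ?_
  rw [zsmul_eq_mul]
  exact (h e (Finset.ne_of_mem_erase he)).mul_left _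

theorem side_p0_add (a b : H → O) : p0 (a + b) = p0 a + p0 b := rfl

theorem side_p0_smul (c : O) (a : H → O) : p0 (c • a) = c • p0 a := rfl

theorem side_p0_sub {j : ℕ} {a b : H → O} (h : VD j (a - b)) : VD j (p0 a - p0 b) := h.q0

theorem side_gam_congr {j : ℕ} {a b : V} (h : VD j (a - b)) : (2 : O) ^ j ∣ gam a - gam b := by
  rw [gam, gam, ← Finset.sum_sub_distrib]
  refine Finset.dvd_sum fun l _ => ?_
  obtain ⟨c0, h0⟩ := h (Sum.inl l)
  obtain ⟨c1, h1⟩ := h (Sum.inr l)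
  rw [Pi.sub_apply] at h0 h1
  exact ⟨c0 * a (Sum.inr l) + b (Sum.inl l) * c1,
    by linear_combination a (Sum.inr l) * h0 + b (Sum.inl l) * h1⟩

theorem side_ee_congr {j : ℕ} {a a' b b' : V} (ha : VD j (a - a')) (hb : VD j (b - b')) :
    (2 : O) ^ j ∣ ee a b - ee a' b' := by
  have h1 := (ee_dvd ha (VD.triv b)).add
    (by simpa only [zero_add, add_zero] using ee_dvd (VD.triv a') hb)
  rwa [ee_sub_left, ee_sub_right, sub_add_sub_cancel, add_zero] at h1

theorem side_coc0 {R : Rep T} {lam : O} {x : W → F2} {j : ℕ} {ψ : W → H → O}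
    (h : (R.hat lam).Coc x j ψ) (g k : W) :
    VD j (p0 (ψ (g * k)) - (p0 (ψ g) + R.act x g (p0 (ψ k)))) := by
  have := (h.2 g k).neg.q0
  rw [neg_sub] at this
  rw [← Rep.p0_act (lam := lam)]
  exact this

/-- half of the symplectic form -/
def bg (a b : V) : O := ∑ j, a (Sum.inl j) * b (Sum.inr j)

theorem side_bg_sub (a b : V) : bg a b - bg b a = ee a b := by
  rw [bg, bg, ee, ← Finset.sum_sub_distrib]
  exact Finset.sum_congr rfl fun _ _ => by ring

theorem side_bg_expand (M : Matrix Ix Ix O) (y : V) : bg (M.mulVec y) (M.mulVec y) =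
    ∑ i, ∑ j, bg (M.mulVec (Pi.single i 1)) (M.mulVec (Pi.single j 1)) * (y i * y j) := by
  simp only [bg, Matrix.mulVec_single_one, Matrix.col_apply, Finset.sum_mul]
  simp only [Matrix.mulVec, dotProduct, Finset.sum_mul_sum]
  rw [Finset.sum_comm]
  refine Finset.sum_congr rfl fun i _ => ?_
  rw [Finset.sum_comm]
  exact Finset.sum_congr rfl fun j _ => Finset.sum_congr rfl fun l _ => by ring

/-- the symmetric matrix measuring the failure of invariance of `gam` -/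
def sB (R : Rep T) (g : W) (i j : Ix) : O :=
  bg ((R.ρ g).mulVec (Pi.single i 1)) ((R.ρ g).mulVec (Pi.single j 1)) -
    T.cq g * bg (Pi.single i 1) (Pi.single j 1)

theorem side_sB {R : Rep T} (g : W) (i j : Ix) : sB R g i j = sB R g j i := by
  have h1 := side_bg_sub ((R.ρ g).mulVec (Pi.single i 1)) ((R.ρ g).mulVec (Pi.single j 1))
  have h2 := side_bg_sub (Pi.single i 1) (Pi.single j 1)
  rw [R.symp] at h1
  rw [sB, sB]
  linear_combination h1 - T.cq g * h2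

theorem side_gam_id {R : Rep T} (x : W → F2) (g : W) (a y : V) :
    ee a (R.act x g y) - (T.cq g * gam y - gam (a + R.act x g y) + gam a) =
      2 * bg a (R.act x g y) + ∑ i, ∑ j, sB R g i j * (y i * y j) := by
  have h1 := sg_mul_self (x g)
  have h2 := side_bg_expand (R.ρ g) y
  have h3 := side_bg_expand 1 y
  simp only [Matrix.one_mulVec] at h3
  have h4 : gam (a + R.act x g y) = gam a + bg a (R.act x g y) + bg (R.act x g y) a +
      sg (x g) * sg (x g) * bg ((R.ρ g).mulVec y) ((R.ρ g).mulVec y) := by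
    simp only [gam, bg, Lat.act, Finset.mul_sum, ← Finset.sum_add_distrib, Pi.add_apply,
      Pi.smul_apply, smul_eq_mul]
    exact Finset.sum_congr rfl fun _ _ => by ring
  simp only [sB, sub_mul, Finset.sum_sub_distrib, mul_assoc (T.cq g), ← Finset.mul_sum]
  rw [← h2, ← h3, h4, h1, ← side_bg_sub, show gam y = bg y y from rfl]
  ring

theorem side_Dl_sym {ι : Type} [DecidableEq ι] {U : Finset ι} (hU : U.Nonempty) {f : Finset ι → V}
    (hf : GrV U f) (B : Ix → Ix → O) (hB : ∀ i j, B i j = B j i) :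
    (2 : O) ^ (U.card + 1) ∣ Dl U fun e => ∑ i, ∑ j, B i j * (f e i * f e j) := by
  obtain ⟨i0, hi⟩ := hU
  have hf' := grV_iff.1 hf
  have h0 : ∀ i j, Gr U fun e => B i j * (f e i * f e j) := fun i j C hC => by
    rw [side_Dl_mul]
    exact ((hf' i).mul (hf' j) C hC).mul_left _
  have h1 := fun i => cube_gr_sum Finset.univ (h0 i)
  have h2 := cube_gr_sum Finset.univ fun i => (h1 i).1
  rw [← dig_eq_zero_iff (h2.1 U subset_rfl), h2.2]
  have h3 : ∀ i j, dig U.card (Dl U fun e => B i j * (f e i * f e j)) =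
      ∑ C ∈ U.powerset.filter (i0 ∈ ·),
        (res (B i j) * (dig C.card (Dl C fun e => f e i) * dig (U \ C).card (Dl (U \ C) fun e => f e j)) +
        res (B j i) * (dig C.card (Dl C fun e => f e j) *
          dig (U \ C).card (Dl (U \ C) fun e => f e i))) := fun i j => by
    rw [side_Dl_mul, dig_mul_left _ ((hf' i).mul (hf' j) U subset_rfl), leibniz (hf' i) (hf' j),
      JLoc_half hi, Finset.mul_sum]
    refine Finset.sum_congr rfl fun C hC => ?_
    rw [Finset.sdiff_sdiff_eq_self (Finset.mem_powerset.1 (Finset.mem_filter.1 hC).1), hB j i]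
    ring
  simp only [fun i => (h1 i).2, h3, Finset.sum_add_distrib]
  rw [Finset.sum_comm (f := fun i j => ∑ C ∈ U.powerset.filter (i0 ∈ ·), res (B j i) * _),
    F2_add_self]

/-- one side of a cube: common places `C`, free places `F` -/
structure Sd (R : Rep T) (lam : O) (ι : Type) [Fintype ι] [DecidableEq ι] where
  C : Finset P
  F : Finset P
  x0 : W → F2
  β : ι → W → F2
  ψ : Finset ι → W → H → O
  ct : W → H → O
  s : W → H → O
  two : 2 ≤ Fintype.card ι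
  S_sub : R.S ⊆ C
  disj : Disjoint C F
  x0_hom : T.IsHom x0
  β_hom : ∀ i, T.IsHom (β i)
  β_C : ∀ i, ∀ v ∈ C, ∀ g ∈ T.D v, β i g = 0
  free : ∀ v ∈ F, R.Free (T.σ v)
  one : ∀ v ∈ F, ∃ i, ∀ j, j ≠ i → β j (T.τ v) = 0
  coc : ∀ e, e ≠ Finset.univ → (R.hat lam).Coc (xe x0 β e) (Fintype.card ι + 2) (ψ e)
  loc : ∀ e, e ≠ Finset.univ → ∀ v ∈ C, (R.hat lam).LocOK (xe x0 β e) (Fintype.card ι + 2) (ψ e) v
  unr : ∀ e, e ≠ Finset.univ → ∀ v ∉ C ∪ F, VD (Fintype.card ι + 2) (ψ e (T.τ v))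
  coc_top : (R.hat lam).Coc (xe x0 β Finset.univ) (Fintype.card ι + 1) (ψ Finset.univ)
  unr_top : ∀ v ∉ C ∪ F, VD (Fintype.card ι + 1) (ψ Finset.univ (T.τ v))
  gr : ∀ g, GrV Finset.univ fun e => ψ e g
  ct_coc : (R.hat lam).Coc (xe x0 β Finset.univ) (Fintype.card ι + 2) ct
  ct_loc : ∀ v ∈ C, (R.hat lam).LocOK (xe x0 β Finset.univ) (Fintype.card ι + 2) ct v
  ct_unr : ∀ v ∉ C ∪ F, VD (Fintype.card ι + 2) (ct (T.τ v))
  hs : ∀ g, ψ Finset.univ g = ct g + (2 : O) • s g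

namespace Sd

variable {R : Rep T} {lam : O} {ι : Type} [Fintype ι] [DecidableEq ι] (E : Sd R lam ι)

/-- the family with the true top -/
def ψ' : Finset ι → W → H → O := Function.update E.ψ Finset.univ E.ct

/-- the correction -/
def G (h : W) : O :=
  Dl Finset.univ (fun e => gam (p0 (E.ψ e h))) + 2 * ee (p0 (E.s h)) (p0 (E.ct h))

/-- the global cocycle -/
def xi (g h : W) : O :=
  Dl Finset.univ (fun e => R.cupJ (xe E.x0 E.β e) (E.ψ' e) (E.ψ' e) g h) +
    4 * R.cupJ (xe E.x0 E.β Finset.univ) (fun g => E.ct g + E.s g) E.s g h -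
    2 * lam * (T.deg g : O) * T.cq g * E.G h

/-- the local term -/
def term (i0 : ι) (v : P) : F2 :=
  ∑ B ∈ (Finset.univ.filter fun B : Finset ι => i0 ∈ B ∧ B ≠ Finset.univ),
      R.br v (fun g => p1 (Th E.ψ B g)) (fun g => p0 (Th E.ψ Bᶜ g)) +
    R.br v (fun g => p0 (Th E.ψ Finset.univ g)) fun g => p1 (Th E.ψ ∅ g)

theorem side_top : E.ψ' Finset.univ = E.ct := Function.update_self _ _ _

theorem side_ne {e : Finset ι} (he : e ≠ Finset.univ) : E.ψ' e = E.ψ e :=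
  Function.update_of_ne he _ _

theorem side_coc (e : Finset ι) : (R.hat lam).Coc (xe E.x0 E.β e) (Fintype.card ι + 1) (E.ψ e) := by
  by_cases he : e = Finset.univ
  · rw [he]; exact E.coc_top
  · exact (E.coc e he).mono (Nat.le_succ _)

theorem side_coc' (e : Finset ι) :
    (R.hat lam).Coc (xe E.x0 E.β e) (Fintype.card ι + 2) (E.ψ' e) := by
  by_cases he : e = Finset.univ
  · rw [he, side_top]; exact E.ct_coc
  · rw [E.side_ne he]; exact E.coc e he

theorem side_s_unr {v : P} (hv : v ∉ E.C ∪ E.F) : VD (Fintype.card ι) (E.s (T.τ v)) := by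
  have h1 := (E.unr_top v hv).sub ((E.ct_unr v hv).mono (Nat.le_succ _))
  rw [E.hs, add_sub_cancel_left, add_comm, ← pow_one (2 : O)] at h1
  exact (VD_pow_smul_iff 1 _ _).1 h1

theorem side_xe {v : P} (hv : v ∈ E.C) (e : Finset ι) :
    ∀ g ∈ T.D v, xe E.x0 E.β e g = xe E.x0 E.β Finset.univ g := fun g hg => by
  simp only [xe, E.β_C _ v hv g hg, Finset.sum_const_zero]

theorem side_data {v : P} (hv : v ∈ E.C) :
    ∃ (L : Finset ι → W → H → O) (l κ : W → H → O),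
      (∀ e, (R.hat lam).LTyp (xe E.x0 E.β Finset.univ) v (L e)) ∧
      (∀ e, e ≠ Finset.univ → ∀ g ∈ T.D v, VD (Fintype.card ι + 2) (E.ψ e g - L e g)) ∧
      (∀ g, Dl Finset.univ (fun e => L e g) = 0) ∧
      (R.hat lam).LTyp (xe E.x0 E.β Finset.univ) v l ∧
      (∀ g ∈ T.D v, VD (Fintype.card ι + 2) (E.ct g - (L Finset.univ g - (2 : O) • l g))) ∧
      (∀ g ∈ T.D v, VD (Fintype.card ι)
        (E.s g - (l g + (2 : O) ^ (Fintype.card ι - 1) • κ g))) ∧
      (∀ g ∈ T.D v, E.ψ Finset.univ g = L Finset.univ g + (2 : O) ^ Fintype.card ι • κ g) ∧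
      ∀ g ∈ T.D v, digV 0 (κ g) = Th E.ψ Finset.univ g := by
  have h2 := E.two
  have h0 : ∀ e, e ≠ Finset.univ → (R.hat lam).LocOK (xe E.x0 E.β Finset.univ)
      (Fintype.card ι + 2) (E.ψ e) v := fun e he => (E.loc e he v hv).twist (E.side_xe hv e)
  choose! n n1 n2 using h0
  obtain ⟨lt, t1, t2⟩ := E.ct_loc v hv
  set L0 : W → H → O := -fun g => ∑ e ∈ (Finset.univ : Finset ι).powerset.erase Finset.univ,
    (((-1 : ℤ) ^ (Finset.univ \ e).card : ℤ) : O) • n e g with hL0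
  have l1 : (R.hat lam).LTyp (xe E.x0 E.β Finset.univ) v L0 :=
    (Lat.LTyp.sum _ (f := fun e => (((-1 : ℤ) ^ (Finset.univ \ e).card : ℤ) : O) • n e)
      fun e he => (n1 e (Finset.ne_of_mem_erase he)).smul _).neg
  set L := Function.update n Finset.univ L0 with hL
  have lU : L Finset.univ = L0 := Function.update_self _ _ _
  have lne : ∀ e, e ≠ Finset.univ → L e = n e := fun e he => Function.update_of_ne he _ _
  have l3 : ∀ g, Dl Finset.univ (fun e => L e g) = 0 := fun g => by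
    rw [Dl_top, lU, hL0, Pi.neg_apply, neg_add_eq_zero]
    exact Finset.sum_congr rfl fun e he => by
      rw [lne e (Finset.ne_of_mem_erase he), Int.cast_smul_eq_zsmul]
  have l4 : ∀ g ∈ T.D v, VD (Fintype.card ι + 2)
      (Dl Finset.univ (fun e => E.ψ e g) - (E.ψ Finset.univ g - L0 g)) := fun g hg i => by
    have := side_Dl_top_dvd (U := Finset.univ) (f := fun e => E.ψ e g i) (f' := fun e => L e g i)
      fun e he => by rw [lne e he]; exact n2 e he g hg i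
    rwa [← Dl_apply, ← Dl_apply, l3, lU, Pi.zero_apply, sub_zero] at this
  have l5 : ∀ g ∈ T.D v, VD (Fintype.card ι) (E.ψ Finset.univ g - L0 g) := fun g hg => by
    have := (E.gr g _ subset_rfl).sub ((l4 g hg).mono (Nat.le_add_right _ _))
    rwa [sub_sub_cancel] at this
  have l6 : ∀ g ∈ T.D v, ∃ b : H → O, E.ψ Finset.univ g - L0 g = (2 : O) ^ Fintype.card ι • b :=
    fun g hg => (l5 g hg).exists
  choose! κ hκ using l6
  have l7 : ∀ g ∈ T.D v, ∃ b : H → O, (L0 - lt) g = (2 : O) ^ 1 • b := fun g hg => by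
    have := ((VD_pow_smul 1 (E.s g)).add ((t2 g hg).mono (by omega))).sub ((l5 g hg).mono (by omega))
    rw [E.hs, pow_one] at this
    refine VD.exists ?_
    rwa [show (L0 - lt) g = (2 : O) • E.s g + (E.ct g - lt g) - (E.ct g + (2 : O) • E.s g - L0 g) by
      rw [Pi.sub_apply]; abel]
  choose! l hl using l7
  simp only [Pi.sub_apply, pow_one] at hl
  refine ⟨L, l, κ, fun e => ?_, fun e he => ?_, l3, ?_, fun g hg => ?_, fun g hg => ?_,
    fun g hg => ?_, fun g hg => ?_⟩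
  · by_cases he : e = Finset.univ
    · rw [he, lU]; exact l1
    · rw [lne e he]; exact n1 e he
  · rw [lne e he]; exact n2 e he
  · exact (l1.sub t1).of_pow_smul (i := 1) fun g hg => by rw [pow_one, ← hl g hg, Pi.sub_apply]
  · rw [lU, ← hl g hg, sub_sub_cancel]; exact t2 g hg
  · refine (VD_pow_smul_iff 1 _ _).1 ?_
    have e1 : (2 : O) ^ 1 • (E.s g - (l g + (2 : O) ^ (Fintype.card ι - 1) • κ g)) =
        -(E.ct g - lt g) := by
      rw [smul_sub, smul_add, smul_smul, ← pow_add, Nat.add_sub_cancel' (by omega), ← hκ g hg,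
        pow_one, ← hl g hg, E.hs]
      abel
    rw [e1]
    exact ((t2 g hg).mono (by omega)).neg
  · rw [lU, ← hκ g hg, add_sub_cancel]
  · rw [← digV_pow_smul (Fintype.card ι), ← hκ g hg]
    exact (digV_congr ((l4 g hg).mono (Nat.le_succ _))).symm

theorem s_coc : (R.hat lam).Coc (xe E.x0 E.β Finset.univ) (Fintype.card ι) E.s := by
  have h1 := E.coc_top.sub (E.ct_coc.mono (Nat.le_succ _))
  have h2 : E.ψ Finset.univ - E.ct = (2 : O) ^ 1 • E.s := funext fun g => by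
    rw [Pi.sub_apply, E.hs, add_sub_cancel_left, pow_one, Pi.smul_apply]
  rw [h2, add_comm] at h1
  exact (Lat.coc_pow_smul_iff 1).1 h1

theorem urel : (R.hat lam).URel E.β Finset.univ (Th E.ψ) := by
  exact Lat.urel_of_coc (Nat.lt_succ_self _) E.gr fun e _ => E.side_coc e

theorem sm (B : Finset ι) : T.Sm (Th E.ψ B) := by
  exact Lat.sm_Th (Nat.lt_succ_of_le (Finset.card_le_univ B)) fun e _ => E.side_coc e

theorem gam_d (g h : W) : (2 : O) ^ (Fintype.card ι + 1) ∣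
    Dl Finset.univ (fun e => ee (p0 (E.ψ e g)) (R.act (xe E.x0 E.β e) g (p0 (E.ψ e h)))) -
      (T.cq g * Dl Finset.univ (fun e => gam (p0 (E.ψ e h))) -
        Dl Finset.univ (fun e => gam (p0 (E.ψ e (g * h)))) +
        Dl Finset.univ fun e => gam (p0 (E.ψ e g))) := by
  have hU : (Finset.univ : Finset ι).Nonempty := by
    rw [← Finset.card_pos, Finset.card_univ]; have := E.two; omega
  have ha := grV_iff.1 (E.gr g).q0
  have hb := grV_iff.1 (Lat.grV_act (R := R.toLat) (x0 := E.x0) (β := E.β) (E.gr h).q0 g)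
  have d1 : (2 : O) ^ Fintype.card ι ∣ Dl Finset.univ fun e =>
      bg (p0 (E.ψ e g)) (R.act (xe E.x0 E.β e) g (p0 (E.ψ e h))) :=
    (cube_gr_sum Finset.univ fun _ => (ha _).mul (hb _)).1 _ subset_rfl
  have d2 : (2 : O) ^ (Fintype.card ι + 1) ∣ _ :=
    side_Dl_sym hU (E.gr h).q0 (sB R g) (side_sB g)
  have d5 : (2 : O) ^ (Fintype.card ι + 1) ∣ Dl Finset.univ fun e => gam (p0 (E.ψ e (g * h))) -
      gam (p0 (E.ψ e g) + R.act (xe E.x0 E.β e) g (p0 (E.ψ e h))) :=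
    Dl_dvd fun e _ => side_gam_congr (side_coc0 (E.side_coc e) g h)
  have e1 : Dl Finset.univ (fun e => ee (p0 (E.ψ e g)) (R.act (xe E.x0 E.β e) g (p0 (E.ψ e h))) -
      (T.cq g * gam (p0 (E.ψ e h)) -
        gam (p0 (E.ψ e g) + R.act (xe E.x0 E.β e) g (p0 (E.ψ e h))) + gam (p0 (E.ψ e g)))) =
      Dl Finset.univ fun e => 2 * bg (p0 (E.ψ e g)) (R.act (xe E.x0 E.β e) g (p0 (E.ψ e h))) +
        ∑ i, ∑ j, sB R g i j * (p0 (E.ψ e h) i * p0 (E.ψ e h) j) :=
    Dl_congr fun e _ => side_gam_id _ g _ _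
  simp only [Dl_add, Dl_sub, side_Dl_mul] at e1 d5
  obtain ⟨c1, d1⟩ := d1
  obtain ⟨c2, d2⟩ := d2
  obtain ⟨c5, d5⟩ := d5
  rw [d1, d2] at e1
  exact ⟨c1 + c2 + c5, by linear_combination e1 + d5⟩

theorem xi_coc : CocO T (Fintype.card ι + 2) E.xi := by
  have hx := xe_hom E.x0_hom E.β_hom
  have hcs : (R.hat lam).Coc (xe E.x0 E.β Finset.univ) (Fintype.card ι) fun g => E.ct g + E.s g :=
    (E.ct_coc.mono (Nat.le_add_right _ _)).add E.s_coc
  constructor
  · obtain ⟨U1, hU1, h1⟩ := Tame.exists_adm_le (T := T) (Finset.univ : Finset (Finset ι))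
      (fun e U => ∀ g h, ∀ u ∈ U, ∀ u' ∈ U, (2 : O) ^ (Fintype.card ι + 2) ∣
        R.cupJ (xe E.x0 E.β e) (E.ψ' e) (E.ψ' e) (g * u) (h * u') -
          R.cupJ (xe E.x0 E.β e) (E.ψ' e) (E.ψ' e) g h)
      (fun e U U' h hle g k u hu u' hu' => h g k u (hle hu) u' (hle hu'))
      fun e _ => Rep.cupJ_sm (hx e) (E.side_coc' e) (E.side_coc' e)
    obtain ⟨U2, hU2, h2⟩ := Rep.cupJ_sm (hx _) hcs E.s_coc
    obtain ⟨U3, hU3, h3⟩ := Tame.exists_adm_le (T := T) (Finset.univ : Finset (Finset ι))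
      (fun e U => ∀ g, ∀ u ∈ U, VD (Fintype.card ι + 1) (E.ψ e (g * u) - E.ψ e g))
      (fun e U U' h hle g u hu => h g u (hle hu)) fun e _ => (E.side_coc e).1
    obtain ⟨U4, hU4, h4⟩ := E.s_coc.1
    obtain ⟨U5, hU5, h5⟩ := E.ct_coc.1
    refine ⟨U1 ⊓ (U2 ⊓ (U3 ⊓ (U4 ⊓ U5))), T.adm_inf _ _ hU1 (T.adm_inf _ _ hU2 (T.adm_inf _ _ hU3
      (T.adm_inf _ _ hU4 hU5))), fun g h u hu u' hu' => ?_⟩
    have hd : T.deg u = 0 := T.adm_le _ hU1 hu.1
    have k1 := Dl_dvd (B := Finset.univ) fun e _ => h1 e (Finset.mem_univ e) g h u hu.1 u' hu'.1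
    have k2 := h2 g h u hu.2.1 u' hu'.2.1
    have k3 := Dl_dvd (B := Finset.univ) fun e _ =>
      side_gam_congr (side_p0_sub (h3 e (Finset.mem_univ e) h u' hu'.2.2.1))
    have k4 := side_ee_congr (side_p0_sub (h4 h u' hu'.2.2.2.1))
      (side_p0_sub ((h5 h u' hu'.2.2.2.2).mono (Nat.le_add_right _ _)))
    rw [Dl_sub] at k1 k3
    obtain ⟨c1, k1⟩ := k1
    obtain ⟨c2, k2⟩ := k2
    obtain ⟨c3, k3⟩ := k3
    obtain ⟨c4, k4⟩ := k4
    refine ⟨c1 + c2 - lam * (T.deg g : O) * T.cq g * (c3 + c4), ?_⟩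
    simp only [xi, G, T.deg_mul, hd, add_zero, Tame.cq_mul, Tame.cq_of_deg_zero hd, mul_one]
    linear_combination k1 + 4 * k2 - 2 * lam * (T.deg g : O) * T.cq g * (k3 + 2 * k4)
  · intro g h k
    have k1 := Dl_dvd (B := Finset.univ) fun e _ =>
      Rep.cupJ_d (hx e) (E.side_coc' e) (E.side_coc' e) g h k
    have k2 := Rep.cupJ_d (hx _) hcs E.s_coc g h k
    have k3 := E.gam_d h k
    have k4 := side_ee_congr (side_coc0 E.s_coc h k)
      (side_coc0 (E.ct_coc.mono (Nat.le_add_right _ _)) h k)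
    have k5 := side_Dl_top (U := Finset.univ)
      (f := fun e => ee (p0 (E.ψ' e h)) (R.act (xe E.x0 E.β e) h (p0 (E.ψ' e k))))
      (f' := fun e => ee (p0 (E.ψ e h)) (R.act (xe E.x0 E.β e) h (p0 (E.ψ e k))))
      fun e he => by rw [E.side_ne he]
    simp only [Dl_add, Dl_sub, side_Dl_mul] at k1
    simp only [side_top, E.hs, side_p0_add, side_p0_smul, Lat.act_add, Lat.act_smul, ee_add_left,
      ee_add_right, ee_smul_left, ee_smul_right] at k5
    simp only [side_p0_add, ee_add_left] at k2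
    rw [ee_add_left, ee_add_right, ee_add_right, Rep.ee_act,
      ee_swap (R.act _ h (p0 (E.s k))) (p0 (E.ct h))] at k4
    obtain ⟨c1, k1⟩ := k1
    obtain ⟨c2, k2⟩ := k2
    obtain ⟨c3, k3⟩ := k3
    obtain ⟨c4, k4⟩ := k4
    refine ⟨c1 + c2 - lam * (T.deg g : O) * T.cq g * (c3 + c4), ?_⟩
    simp only [xi, G, T.deg_mul, Tame.cq_mul, Int.cast_add]
    linear_combination k1 + 4 * k2 - 2 * lam * (T.deg g : O) * T.cq g * (k3 + 2 * k4 + k5)

theorem xi_inv (v : P) : T.inv v E.xi =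
    Dl Finset.univ (fun e => R.J (xe E.x0 E.β e) v (E.ψ' e) (E.ψ' e)) +
      4 * R.J (xe E.x0 E.β Finset.univ) v (fun g => E.ct g + E.s g) E.s -
      R.dQ lam v * E.G (T.τ v) := by
  have h0 : ∀ i : ℕ, T.deg (T.τ v ^ i) = 0 := fun i =>
    pow_mem (show T.τ v ∈ T.G0 from T.deg_τ v) i
  have h1 : T.inv v (fun g h => 2 * lam * (T.deg g : O) * T.cq g * E.G h) =
      R.dQ lam v * E.G (T.τ v) := by
    simp [Pre.inv, h0, T.deg_σ, Tame.cq_σ, Rep.dQ]
  have h2 : T.inv v (fun g h =>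
      Dl Finset.univ fun e => R.cupJ (xe E.x0 E.β e) (E.ψ' e) (E.ψ' e) g h) =
      Dl Finset.univ fun e => R.J (xe E.x0 E.β e) v (E.ψ' e) (E.ψ' e) := by
    simp only [Rep.J, Pre.inv, Dl_sub, Dl_sum]
  rw [← h1, ← h2, Rep.J, ← Tame.inv_mul_left, ← Tame.inv_add, ← Tame.inv_sub]
  rfl

theorem xi_out {v : P} (hv : v ∉ E.C ∪ E.F) : (2 : O) ^ (Fintype.card ι + 2) ∣ T.inv v E.xi := by
  have hx := xe_hom E.x0_hom E.β_hom
  have hs := E.side_s_unr hv
  have hc := E.ct_unr v hv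
  have u1 : ∀ e, VD (Fintype.card ι + 2) (E.ψ' e (T.τ v)) := fun e => by
    by_cases he : e = Finset.univ
    · rw [he, side_top]; exact hc
    · rw [E.side_ne he]; exact E.unr e he v hv
  have u2 : ∀ e, VD (Fintype.card ι + 1) (E.ψ e (T.τ v)) := fun e => by
    by_cases he : e = Finset.univ
    · rw [he]; exact E.unr_top v hv
    · exact (E.unr e he v hv).mono (Nat.le_succ _)
  obtain ⟨c1, k1⟩ := Dl_dvd (B := Finset.univ) fun e _ =>
    Rep.J_unr (hx e) (E.side_coc' e) (u1 e) (u1 e)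
  obtain ⟨c2, k2⟩ := Rep.J_unr (a := fun g => E.ct g + E.s g) (hx _)
    ((E.ct_coc.mono (Nat.le_add_right _ _)).add E.s_coc)
    ((hc.mono (Nat.le_add_right _ _)).add hs) hs
  obtain ⟨c3, k3⟩ := Dl_dvd (B := Finset.univ) (f := fun e => gam (p0 (E.ψ e (T.τ v))))
    fun e _ => Finset.dvd_sum fun _ _ => ((u2 e).q0 _).mul_right _
  obtain ⟨c4, k4⟩ := ee_dvd hs.q0 (VD.triv (p0 (E.ct (T.τ v))))
  refine ⟨c1 + c2 - lam * (T.dg v : O) * (T.Q v : O) * (c3 + c4), ?_⟩
  rw [xi_inv, G, k1, k2, k3, k4, Rep.dQ]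
  ring

theorem xi_F {v : P} (hv : v ∈ E.F) : (2 : O) ^ (Fintype.card ι + 2) ∣ T.inv v E.xi := by
  have hx := xe_hom E.x0_hom E.β_hom
  have hS : v ∉ (R.hat lam).S := fun h => Finset.disjoint_left.1 E.disj (E.S_sub h) hv
  have hf : (R.hat lam).Free (T.σ v) := Rep.hat_free (E.free v hv)
  have j1 : ∀ e, (2 : O) ^ (Fintype.card ι + 2) ∣ R.J (xe E.x0 E.β e) v (E.ψ' e) (E.ψ' e) := by
    intro e
    rcases F2_cases (xe E.x0 E.β e (T.τ v)) with h0 | h1
    · have u := (E.side_coc' e).unr_of_free (hx e) hS hf h0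
      exact Rep.J_unr (hx e) (E.side_coc' e) u u
    · obtain ⟨l, hl, h2⟩ := (E.side_coc' e).locOK_of_free (hx e) hS hf
      have := Rep.J_congr (R := R) (x := xe E.x0 E.β e) h2 h2
      rwa [Rep.J_self (hx e) hS h1 hl, sub_zero] at this
  have j2 : (2 : O) ^ (Fintype.card ι + 1) ∣ Dl Finset.univ fun e => gam (p0 (E.ψ e (T.τ v))) := by
    obtain ⟨i, hi⟩ := E.one v hv
    obtain ⟨t, ht⟩ := E.urel.cob_of_free E.β_hom (fun B _ => E.sm B) hS hf
    have h1 := dig_Dl_gam (Finset.mem_univ i) (E.gr (T.τ v)).q0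
    refine (dig_eq_zero_iff (gr_gam (E.gr (T.τ v)).q0 _ subset_rfl)).1
      (h1.trans (Finset.sum_eq_zero fun B hB => ?_))
    have h2 := ht (Finset.univ \ B) (Finset.subset_univ _) _ (Tame.τ_mem v)
    rw [Lat.rb_unr hS, Matrix.one_mulVec, uop_of_zero fun j hj => hi j fun e =>
      (Finset.mem_sdiff.1 hj).2 (e ▸ (Finset.mem_filter.1 hB).2), vb_add_self] at h2
    have h3 : digV (Finset.univ \ B).card (Dl (Finset.univ \ B) fun e => p0 (E.ψ e (T.τ v))) = 0 := by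
      rw [← p0_Dl]
      exact congrArg p0 h2
    rw [h3, ee_zero_right]
  have j3 : (2 : O) ^ (Fintype.card ι + 2) ∣
      4 * R.J (xe E.x0 E.β Finset.univ) v (fun g => E.ct g + E.s g) E.s -
        2 * R.dQ lam v * ee (p0 (E.s (T.τ v))) (p0 (E.ct (T.τ v))) := by
    have hc := E.ct_coc.mono (Nat.le_add_right (Fintype.card ι) 2)
    rcases F2_cases (xe E.x0 E.β Finset.univ (T.τ v)) with h0 | h1
    · have u1 := E.s_coc.unr_of_free (hx _) hS hf h0
      have u2 := hc.unr_of_free (hx _) hS hf h0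
      obtain ⟨c2, k2⟩ := Rep.J_unr (a := fun g => E.ct g + E.s g) (hx _) (hc.add E.s_coc)
        (u2.add u1) u1
      obtain ⟨c4, k4⟩ := ee_dvd u1.q0 (VD.triv (p0 (E.ct (T.τ v))))
      refine ⟨c2 - lam * (T.dg v : O) * (T.Q v : O) * c4, ?_⟩
      rw [k2, k4, Rep.dQ]
      ring
    · obtain ⟨l, hl, h2⟩ := E.s_coc.locOK_of_free (hx _) hS hf
      obtain ⟨lt, hlt, h3⟩ := hc.locOK_of_free (hx _) hS hf
      have k1 := Rep.J_congr (R := R) (x := xe E.x0 E.β Finset.univ)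
        (a := fun g => E.ct g + E.s g) (a' := fun g => lt g + l g)
        (fun g hg => by rw [add_sub_add_comm]; exact (h3 g hg).add (h2 g hg)) h2
      rw [Rep.J_add_left lt l l, Rep.J_self (hx _) hS h1 hl, add_zero] at k1
      have k2 := Rep.J_formula (r := 1) (t := -lt (T.τ v)) (l := lt) (hx _) (fun g hg => by
        rw [pow_one, hlt.ram hS h1 g hg, Lat.act_neg]; abel) hl
      have k3 := side_ee_congr (side_p0_sub (h2 _ (Tame.τ_mem v))) (side_p0_sub (h3 _ (Tame.τ_mem v)))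
      have k4 : ee (p0 (-lt (T.τ v))) (p0 (l (T.τ v))) = ee (p0 (l (T.τ v))) (p0 (lt (T.τ v))) := by
        rw [ee_swap (p0 (l (T.τ v))), ← ee_neg_left]; rfl
      rw [k4] at k2
      obtain ⟨c1, k1⟩ := k1
      obtain ⟨c3, k3⟩ := k3
      refine ⟨c1 - lam * (T.dg v : O) * (T.Q v : O) * c3, ?_⟩
      rw [Rep.dQ] at k2 ⊢
      linear_combination 4 * k1 + 2 * k2 - 4 * lam * (T.dg v : O) * (T.Q v : O) * k3
  obtain ⟨c1, k1⟩ := Dl_dvd (B := Finset.univ) fun e _ => j1 e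
  obtain ⟨c2, k2⟩ := j2
  obtain ⟨c3, k3⟩ := j3
  refine ⟨c1 + c3 - lam * (T.dg v : O) * (T.Q v : O) * c2, ?_⟩
  rw [xi_inv, G, k1, k2]
  rw [Rep.dQ] at k3 ⊢
  linear_combination k3

theorem xi_C (i0 : ι) {v : P} (hv : v ∈ E.C) : (2 : O) ^ (Fintype.card ι + 2) ∣ T.inv v E.xi -
    (2 : O) ^ (Fintype.card ι + 1) *
      lft (E.term i0 v + R.hbr v (Th E.ψ Finset.univ) fun g => digV 0 (E.s g)) := by
  have hx := xe_hom E.x0_hom E.β_hom
  obtain ⟨L, l, κ, a1, a2, a3, a4, a5, a6, a7, a8⟩ := E.side_data hv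
  have hτ := Tame.τ_mem (T := T) v
  have hB := Rep.lemB (tp := E.ψ Finset.univ) E.two (hx _) (a1 _) a4 a5 a6
    (by rw [← a7 _ hτ, sub_self]; exact VD.zero _)
  have hth : ∀ B, B ≠ Finset.univ → ∀ g ∈ T.D v, VD (Fintype.card ι + 2)
      (Dl B (fun e => E.ψ e g) - Dl B fun e => L e g) := fun B hB g hg => by
    rw [← Dl_sub]
    exact Dl_VD fun e he => a2 e (fun h => hB (Finset.univ_subset_iff.1 (h ▸ he))) g hg
  have hA := Rep.lemA (U := Finset.univ) (l := L) E.two (Finset.mem_univ i0) (hx _)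
    (fun e _ => a1 e) fun g hg B _ => by
      by_cases hB : B = Finset.univ
      · rw [hB, a3]; exact VD.zero _
      · have := (E.gr g B (Finset.subset_univ _)).sub ((hth B hB g hg).mono
          ((Finset.card_le_univ B).trans (Nat.le_add_right _ _)))
        rwa [sub_sub_cancel] at this
  have hth' : ∀ B, B ≠ Finset.univ → ∀ g ∈ T.D v, Th L B g = Th E.ψ B g := fun B hB g hg =>
    (digV_congr ((hth B hB g hg).mono (by have := Finset.card_le_univ B; omega))).symm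
  have lzU := Rep.hat_lz_iff.1 (E.urel.lz subset_rfl (E.sm _) fun i _ => E.β_C i v hv)
  have lzs := Rep.hat_lz_iff.1 (((E.s_coc.mono (i := 0 + 1) (by have := E.two; omega)).z1_dig
    fun _ => VD.triv _).lz v)
  have lzL := Rep.hat_lz_iff.1 ((a1 Finset.univ).lz (hx _))
  have hL : ∀ g ∈ T.D v, digV 0 (L Finset.univ g) = Th E.ψ ∅ g := fun g hg => by
    have h1 : VD 1 (E.ψ Finset.univ g - L Finset.univ g) := by
      rw [a7 g hg, add_sub_cancel_left]
      exact (VD_pow_smul _ _).mono (by have := E.two; omega)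
    have h2 : VD 1 (E.ψ Finset.univ g - E.ψ ∅ g) := by
      rw [Dl_inversion Finset.univ fun e => E.ψ e g,
        ← Finset.add_sum_erase _ _ (Finset.empty_mem_powerset _), Dl_empty, add_sub_cancel_left]
      exact VD.sum _ fun B hB => (E.gr g B (Finset.subset_univ _)).mono
        (Finset.card_pos.2 (Finset.nonempty_iff_ne_empty.2 (Finset.ne_of_mem_erase hB)))
    rw [← digV_congr h1, digV_congr h2, Th, Dl_empty, Finset.card_empty]
  have e1 : ∑ B ∈ (Finset.univ : Finset ι).powerset.filter (i0 ∈ ·),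
      R.br v (fun g => p1 (Th L B g)) (fun g => p0 (Th L (Finset.univ \ B) g)) =
      ∑ B ∈ (Finset.univ.filter fun B : Finset ι => i0 ∈ B ∧ B ≠ Finset.univ),
        R.br v (fun g => p1 (Th E.ψ B g)) (fun g => p0 (Th E.ψ Bᶜ g)) := by
    rw [← Finset.add_sum_erase _ _ (a := Finset.univ) (by simp), Rep.br_zero_left fun g _ => by
      rw [Th, a3]; funext i; exact dig_zero' _, zero_add]
    refine Finset.sum_congr (by ext B; simp [and_comm]) fun B hB => ?_
    have h1 := (Finset.mem_filter.1 hB).2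
    have h2 : Bᶜ ≠ Finset.univ := fun h =>
      Finset.mem_compl.1 (h ▸ Finset.mem_univ i0 : i0 ∈ Bᶜ) h1.1
    exact Rep.br_congr (fun g hg => congrArg p1 (hth' B h1.2 g hg))
      fun g hg => congrArg p0 (hth' _ h2 g hg)
  have e2 : R.br v (fun g => p1 (digV 0 (κ g))) (fun g => p0 (digV 0 (E.s g))) +
      R.br v (fun g => p1 (digV 0 (L Finset.univ g)) + p1 (digV 0 (E.s g)))
        (fun g => p0 (digV 0 (κ g))) =
      R.br v (fun g => p0 (Th E.ψ Finset.univ g)) (fun g => p1 (Th E.ψ ∅ g)) +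
        R.hbr v (Th E.ψ Finset.univ) fun g => digV 0 (E.s g) := by
    rw [Rep.br_congr (a' := fun g => p1 (Th E.ψ Finset.univ g)) (fun g hg => congrArg p1 (a8 g hg))
        fun _ _ => rfl,
      Rep.br_congr (b := fun g => p0 (digV 0 (κ g))) (b' := fun g => p0 (Th E.ψ Finset.univ g))
        (fun _ _ => rfl) (fun g hg => congrArg p0 (a8 g hg)),
      Rep.br_add_left, Rep.br_comm lzL.2 lzU.1, Rep.br_comm lzs.2 lzU.1,
      Rep.br_congr (b := fun g => p1 (digV 0 (L Finset.univ g))) (b' := fun g => p1 (Th E.ψ ∅ g))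
        (fun _ _ => rfl) (fun g hg => congrArg p1 (hL g hg)), Rep.hbr]
    ring
  rw [e1] at hA
  rw [e2] at hB
  have k1 := side_Dl_top_dvd (U := Finset.univ)
    (f := fun e => R.J (xe E.x0 E.β e) v (E.ψ' e) (E.ψ' e))
    (f' := fun e => R.J (xe E.x0 E.β Finset.univ) v (L e) (L e)) fun e he => by
      rw [E.side_ne he, Rep.J_twist (E.side_xe hv e)]
      exact Rep.J_congr (a2 e he) (a2 e he)
  have k2 := side_Dl_top_dvd (U := Finset.univ) (f := fun e => gam (p0 (E.ψ e (T.τ v))))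
    (f' := fun e => gam (p0 (L e (T.τ v)))) fun e he => side_gam_congr (a2 e he _ hτ).q0
  rw [side_top] at k1
  rw [xi_inv, G, term, add_assoc]
  generalize (∑ B ∈ (Finset.univ.filter fun B : Finset ι => i0 ∈ B ∧ B ≠ Finset.univ),
        R.br v (fun g => p1 (Th E.ψ B g)) (fun g => p0 (Th E.ψ Bᶜ g))) = α at hA ⊢
  generalize (R.br v (fun g => p0 (Th E.ψ Finset.univ g)) (fun g => p1 (Th E.ψ ∅ g)) +
        R.hbr v (Th E.ψ Finset.univ) fun g => digV 0 (E.s g)) = γ at hB ⊢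
  obtain ⟨c0, k0⟩ := (res_eq_zero_iff (lft α + lft γ - lft (α + γ))).1 (by simp)
  rw [Finset.card_univ] at hA
  obtain ⟨c1, k1⟩ := k1
  obtain ⟨c2, k2⟩ := k2
  obtain ⟨c3, k3⟩ := hA
  obtain ⟨c4, k4⟩ := hB
  exact ⟨c1 - R.dQ lam v * c2 + c3 + c4 + c0, by
    linear_combination k1 - R.dQ lam v * k2 + k3 + k4 + 2 ^ (Fintype.card ι + 1) * k0⟩

theorem side (i0 : ι) :
    ∑ v ∈ E.C, (E.term i0 v + R.hbr v (Th E.ψ Finset.univ) fun g => digV 0 (E.s g)) = 0 := by
  have hS : ∀ v ∉ E.C, (2 : O) ^ (Fintype.card ι + 1 + 1) ∣ T.inv v E.xi := fun v hv => by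
    by_cases h : v ∈ E.F
    · exact E.xi_F h
    · exact E.xi_out (by simp [hv, h])
  have h1 := rrecip (j := Fintype.card ι + 1) E.xi_coc (fun v => by
    by_cases h : v ∈ E.C
    · exact (dvd_sub_left (Dvd.intro _ rfl)).1 ((pow_dvd_pow _ (Nat.le_succ _)).trans (E.xi_C i0 h))
    · exact (pow_dvd_pow _ (Nat.le_succ _)).trans (hS v h)) E.C hS
  rw [← h1]
  refine Finset.sum_congr rfl fun v hv => ?_
  rw [dig_congr (E.xi_C i0 hv), dig_pow_mul, res_lft]

/-- the top satisfies the local conditions of level `m` -/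
theorem top_loc {v : P} (hv : v ∈ E.C) :
    (R.hat lam).LocOK (xe E.x0 E.β Finset.univ) (Fintype.card ι) (E.ψ Finset.univ) v := by
  obtain ⟨L, l, κ, a1, a2, a3, a4, a5, a6, a7, a8⟩ := E.side_data hv
  refine ⟨L Finset.univ, a1 _, fun g hg => ?_⟩
  rw [a7 g hg, add_sub_cancel_left]
  exact VD_pow_smul _ _

theorem side_diag {A : Finset P} (h1 : E.C ⊆ A) (h2 : A ⊆ E.C ∪ E.F)
    (h3 : ∀ v ∈ E.F, v ∉ A → xe E.x0 E.β Finset.univ (T.τ v) = 0)
    (hD : R.Diag lam A (xe E.x0 E.β Finset.univ) (Fintype.card ι - 1)) :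
    ∑ v ∈ E.C, R.hbr v (Th E.ψ Finset.univ) (fun g => digV 0 (E.s g)) = 0 := by
  have hx := xe_hom E.x0_hom E.β_hom (Finset.univ : Finset ι)
  have hm : Fintype.card ι - 1 + 1 = Fintype.card ι := by have := E.two; omega
  have hS : ∀ v ∈ E.F, v ∉ (R.hat lam).S := fun v hv h =>
    Finset.disjoint_left.1 E.disj (E.S_sub h) hv
  have key : ∀ v ∈ A, ∃ l : W → H → O, (R.hat lam).LTyp (xe E.x0 E.β Finset.univ) v l ∧
      (∀ g ∈ T.D v, VD (Fintype.card ι - 1) (E.s g - l g)) ∧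
      ∀ g ∈ T.D v, digV (Fintype.card ι - 1) (E.s g - l g) =
        if v ∈ E.C then Th E.ψ Finset.univ g else 0 := by
    intro v hv
    by_cases hc : v ∈ E.C
    · obtain ⟨L, l, κ, a1, a2, a3, a4, a5, a6, a7, a8⟩ := E.side_data hc
      have h4 : ∀ g ∈ T.D v, VD (Fintype.card ι - 1 + 1)
          (E.s g - l g - (2 : O) ^ (Fintype.card ι - 1) • κ g) := fun g hg => by
        rw [hm, sub_sub]; exact a6 g hg
      refine ⟨l, a4, fun g hg => ?_, fun g hg => ?_⟩
      · have := ((h4 g hg).mono (Nat.le_succ _)).add (VD_pow_smul _ (κ g))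
        rwa [sub_add_cancel] at this
      · rw [if_pos hc, digV_congr (h4 g hg), digV_pow_smul, a8 g hg]
    · have hF : v ∈ E.F := (Finset.mem_union.1 (h2 hv)).resolve_left hc
      obtain ⟨l, hl, h4⟩ := E.s_coc.locOK_of_free hx (hS v hF) (Rep.hat_free (E.free v hF))
      refine ⟨l, hl, fun g hg => (h4 g hg).mono (Nat.sub_le _ _), fun g hg => ?_⟩
      rw [if_neg hc]
      exact digV_of_VD (by rw [hm]; exact h4 g hg)
  choose! l k1 k2 k3 using key
  have h5 := hD E.s (by rw [hm]; exact E.s_coc) (fun v hv => by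
    rw [hm]
    by_cases hF : v ∈ E.F
    · exact E.s_coc.unr_of_free hx (hS v hF) (Rep.hat_free (E.free v hF)) (h3 v hF hv)
    · exact E.side_s_unr fun h => (Finset.mem_union.1 h).elim (fun h => hv (h1 h)) hF)
    l fun v hv => ⟨k1 v hv, k2 v hv⟩
  rw [← Finset.sum_subset h1 fun v hv hc => by
    rw [Rep.hbr, Rep.br_zero_left fun g hg => by rw [k3 v hv g hg, if_neg hc]; rfl,
      Rep.br_zero_left fun g hg => by rw [k3 v hv g hg, if_neg hc]; rfl, add_zero]] at h5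
  rw [← h5]
  refine Finset.sum_congr rfl fun v hv => ?_
  unfold Rep.hbr
  rw [Rep.br_congr (a' := fun g => p1 (digV (Fintype.card ι - 1) (E.s g - l v g)))
      (fun g hg => by rw [k3 v (h1 hv) g hg, if_pos hv]) fun _ _ => rfl,
    Rep.br_congr (a := fun g => p0 (Th E.ψ Finset.univ g))
      (a' := fun g => p0 (digV (Fintype.card ι - 1) (E.s g - l v g)))
      (fun g hg => by rw [k3 v (h1 hv) g hg, if_pos hv]) fun _ _ => rfl]

end Sd

end

end Pool.Agent.Hyp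
end

-- merged part: Pool.Agent.Work.MP_60d5ce_nt.Hy.Core
section
/-!
# Completing a cube with two sides; the forced equation

Compare `Sm/Complete.lean` (`top`, `cpl`, `coc_top`).  `U = univ`, `m = card ι`.
* `top g = 2 ^ m • lftV (Φs g) + Dl U (ψ false · g) - ∑ (e ≠ U), ± ψ true e g`; the completed family is graded,
  `Th cpl U = Φs + Th (ψ false) U`, and `top` is a cocycle of level `m + 1` (`defect`, `rel`, `urel_of_coc`).
  It is unramified modulo `2 ^ (m + 1)` outside `insert (a true) C ∪ F` (at `a false` use `own`).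
* `top_lifts`: at `v ∈ insert (a true) C`, `top = -∑ (e ≠ U), ± ψ true e` modulo `2 ^ m` (`LocOK.sum`,
  `LocOK.twist`); on `F` use `locOK_of_free`, `unr_of_free`.
* `side_false`: `Sd.side` for the side `false` with `C := insert (a false) C`, `ct = ψ false U`, `s = 0`.
  `side_true`: `Sd.side` and `Sd.side_diag` for the completed family, `ct` the given lift (on `F` nothing is
  required), `s = (top - ct) / 2`.  At `a s` use `br_good`, `own`, `URel.lz`.
* `cross`: `ξ g h = ∑ B, ee (p1 (Φ B g)) (rb g (uop β g (p0 (Th (ψ false) · h)) Bᶜ))` is a smooth cocycle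
  (`uop_pair`, `uop_mul`, `ee_rb`, `uop_map`); apply `recip`.  On `D v` for `v ∈ C` or `v = a s` all `β i` vanish
  (`uop_of_zero`, `inv_sum`).  For `v ∈ F`, `URel.cob_of_free` shows that `ξ` is the coboundary of
  `g ↦ ∑ B, ee (t B) (p0 (Th (ψ false) Bᶜ g))` on `D v` (`inv_cob`).  Outside, all `Φ B τ` and `Th B τ` vanish, then
  also at the powers of `τ` (induction with `URel`), so every term of `inv` is zero.
* `core`: add the three identities.  At `v ∈ C` expand `Th cpl B = Φ B + Th (ψ false) B`; for `B ∋ i0`, `B ≠ U`,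
  `hbr v (Th (ψ false) B) (Φ Bᶜ) = 0` by `hbr_ll` (`LocOK.ll`, `LL.add`, `LL.twist`); `br_comm`.
-/

namespace Pool.Agent.Hyp

open Pool.Agent.Quad

variable [Par]

open scoped Classical

noncomputable section

variable {W P : Type} [Group W] {T : Tame W P}

section aux

variable {ι : Type} [DecidableEq ι] {I : Type}

theorem Core_top_eq (B : Finset ι) (f : Finset ι → I → O) :
    f B = Dl B f + ∑ e ∈ B.powerset.erase B, (-(-1 : O) ^ (B \ e).card) • f e := by
  rw [Dl_eq_sum_smul, ← Finset.add_sum_erase _ _ (Finset.mem_powerset_self B), add_assoc,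
    ← Finset.sum_add_distrib]
  simp

theorem Core_ssub {B e : Finset ι} (he : e ∈ B.powerset.erase B) : e ⊂ B :=
  Finset.ssubset_iff_subset_ne.2
    ⟨Finset.mem_powerset.1 (Finset.mem_of_mem_erase he), Finset.ne_of_mem_erase he⟩

theorem Core_VD_top {j : ℕ} {B : Finset ι} {f : Finset ι → I → O} (h : VD j (Dl B f))
    (h' : ∀ e ⊂ B, VD j (f e)) : VD j (f B) := by
  rw [Core_top_eq B f]
  exact h.add (VD.sum _ fun e he => (h' e (Core_ssub he)).smul _)

omit [Group W] in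
theorem Core_Th_empty (ψ : Finset ι → W → I → O) (g : W) : Th ψ ∅ g = digV 0 (ψ ∅ g) := by
  rw [Th, Dl_empty, Finset.card_empty]

theorem Core_fin {p q r a s t u b e1 e2 e3 e4 : F2} (h1 : a + b + e4 = 0)
    (h2 : p + q + (r + a) + (s + t) + (e1 + e2) = 0) (h3 : r + q + u + t + b + e2 + e3 + e4 = 0) :
    p + s + u + e1 + e3 = 0 := by
  linear_combination h2 - h1 - h3 + (u + e3 + b + e4) * F2_two

theorem Core_split [Fintype ι] (i0 : ι) (f : Finset ι → F2) : ∑ B, f B =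
    ∑ B ∈ (Finset.univ.filter fun B : Finset ι => i0 ∈ B ∧ B ≠ Finset.univ), (f B + f Bᶜ)
      + (f Finset.univ + f ∅) := by
  have e : (Finset.univ.filter fun B : Finset ι => i0 ∈ B ∧ B ≠ Finset.univ) =
      (Finset.univ.filter fun B : Finset ι => i0 ∈ B).erase Finset.univ := by
    ext B; simp [and_comm]
  rw [e, ← Finset.compl_univ, Finset.sum_erase_add _ (fun B => f B + f Bᶜ) (by simp),
    Finset.sum_add_distrib, ← Finset.sum_filter_add_sum_filter_not _ fun B => i0 ∈ B]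
  congr 1
  exact Finset.sum_nbij' compl compl (by simp) (by simp) (by simp) (by simp) (by simp)

theorem Core_p0_add (a b : H → F2) : p0 (a + b) = p0 a + p0 b := rfl

theorem Core_p1_add (a b : H → F2) : p1 (a + b) = p1 a + p1 b := rfl

theorem Core_p0_zero : p0 (0 : H → F2) = 0 := rfl

theorem Core_p1_zero : p1 (0 : H → F2) = 0 := rfl

variable [Fintype ι] {R : Rep T} {β : ι → W → F2}

omit [DecidableEq ι] in
theorem Core_ne_univ {e B : Finset ι} (he : e ⊆ B) (hB : B ≠ Finset.univ) : e ≠ Finset.univ :=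
  fun h => hB (Finset.univ_subset_iff.1 (h ▸ he))

/-- the pairing of families -/
def Core_pr (a b : Finset ι → Vb) : F2 := ∑ B, ee (a B) (b Bᶜ)

/-- the action on families -/
def Core_ac (R : Rep T) (β : ι → W → F2) (g : W) (b : Finset ι → Vb) (B : Finset ι) : Vb :=
  (R.rb g).mulVec (uop β g b B)

theorem Core_pr_add_left (a a' b : Finset ι → Vb) :
    Core_pr (fun B => a B + a' B) b = Core_pr a b + Core_pr a' b := by
  simp only [Core_pr, ee_add_left, Finset.sum_add_distrib]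

theorem Core_pr_add_right (a b b' : Finset ι → Vb) :
    Core_pr a (fun B => b B + b' B) = Core_pr a b + Core_pr a b' := by
  simp only [Core_pr, ee_add_right, Finset.sum_add_distrib]

theorem Core_pr_ac (g : W) (a b : Finset ι → Vb) :
    Core_pr (Core_ac R β g a) (Core_ac R β g b) = Core_pr a b := by
  have := uop_pair β g a b Finset.univ
  simp only [Finset.powerset_univ, ← Finset.compl_eq_univ_sdiff] at this
  simp only [Core_pr, Core_ac, Rep.ee_rb, this]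

omit [Fintype ι] in
theorem Core_ac_add (g : W) (a b : Finset ι → Vb) :
    Core_ac R β g (fun B => a B + b B) = fun B => Core_ac R β g a B + Core_ac R β g b B := by
  funext B
  simp only [Core_ac, uop_add, Matrix.mulVec_add]

omit [Fintype ι] in
theorem Core_ac_mul (hβ : ∀ i, T.IsHom (β i)) (g h : W) (a : Finset ι → Vb) :
    Core_ac R β (g * h) a = Core_ac R β g (Core_ac R β h a) := by
  funext B
  have := uop_map (R.rb h).mulVecLin β g (fun C => uop β h a C) B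
  simp only [Matrix.mulVecLin_apply] at this
  unfold Core_ac
  rw [this, uop_mul fun i => (hβ i).2 g h, Lat.rb_mul, Matrix.mulVec_mulVec]

theorem Core_urel {a : Finset ι → W → Vb} (ha : R.URel β Finset.univ a) (g h : W) :
    (fun B => a B (g * h)) = fun B => a B g + Core_ac R β g (fun C => a C h) B :=
  funext fun B => ha B (Finset.subset_univ B) g h

/-- reciprocity for two families -/
theorem Core_recip (hβ : ∀ i, T.IsHom (β i)) {a b : Finset ι → W → Vb}
    (ha : R.URel β Finset.univ a) (hb : R.URel β Finset.univ b) (sa : ∀ B, T.Sm (a B))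
    (sb : ∀ B, T.Sm (b B)) {C F : Finset P} (hd : Disjoint C F) (hS : R.S ⊆ C)
    (hC : ∀ v ∈ C, ∀ i, ∀ g ∈ T.D v, β i g = 0) (hF : ∀ v ∈ F, R.Free (T.σ v))
    (h0 : ∀ v ∉ C ∪ F, ∀ B, a B (T.τ v) = 0 ∧ b B (T.τ v) = 0) :
    ∑ v ∈ C, ∑ B, R.br v (a B) (b Bᶜ) = 0 := by
  have key := T.recip (fun g h => Core_pr (fun B => a B g) (Core_ac R β g fun B => b B h))
    (Tame.sm2_of_sm (f := fun g => ((fun B => a B g), R.rb g, fun i => β i g))
      (Tame.sm_comp₂ (Tame.sm_pi sa) (Tame.sm_comp₂ Lat.rb_sm (Tame.sm_pi fun i => (hβ i).1)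
        Prod.mk) Prod.mk) (f' := fun h B => b B h) (Tame.sm_pi sb) fun p c => Core_pr p.1
        fun B => p.2.1.mulVec (∑ D ∈ B.powerset, (∏ i ∈ D, p.2.2 i) • c (B \ D)))
    (fun g h k => by
      simp only [Core_urel ha g h, Core_urel hb h k, Core_ac_mul hβ, Core_ac_add, Core_pr_add_left,
        Core_pr_add_right, Core_pr_ac]
      ring) (C ∪ F) fun v hv => by
      have h1 : ∀ g, Core_pr (fun B => a B g) (Core_ac R β g fun B => b B (T.τ v)) = 0 :=
        fun g => by simp [Core_pr, Core_ac, uop, fun B => (h0 v hv B).2]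
      have h2 : ∀ (n : ℕ) B, a B (T.τ v ^ n) = 0 := fun n => by
        induction n with
        | zero => exact fun B => by rw [pow_zero]; exact ha.one hβ B (Finset.subset_univ B)
        | succ n ih =>
          intro B
          rw [pow_succ, ha B (Finset.subset_univ B), ih]
          simp [uop, fun B => (h0 v hv B).1]
      simp only [Pre.inv, h1, h2]
      simp [Core_pr]
  rw [Finset.sum_union hd, Finset.sum_eq_zero (s := F), add_zero] at key
  · refine Eq.trans (Finset.sum_congr rfl fun v hv => ?_) key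
    simp only [Rep.br, ← Tame.inv_sum]
    refine Tame.inv_congr v fun g hg h _ => ?_
    refine Finset.sum_congr rfl fun B _ => ?_
    rw [Core_ac, uop_of_zero fun i _ => hC v hv i g hg]
  · intro v hv
    obtain ⟨t, ht⟩ := ha.cob_of_free hβ (fun B _ => sa B)
      (fun h => Finset.disjoint_left.1 hd (hS h) hv) (hF v hv)
    rw [← Tame.inv_cob v (b := fun g => Core_pr t fun B => b B g)
      (Tame.sm_rel (Tame.sm_comp (Tame.sm_pi sb) (Core_pr t)) v)]
    refine Tame.inv_congr v fun g hg h _ => ?_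
    have e : (fun B => a B g) = fun B => Core_ac R β g t B + t B :=
      funext fun B => ht B (Finset.subset_univ B) g hg
    rw [e, Core_pr_add_left, Core_pr_ac, Core_urel hb g h, Core_pr_add_right, F2_sub]
    linear_combination -F2_add_self (Core_pr t fun B => b B g)

theorem Core_term_own {lam : O} (E : Sd R lam ι) (i0 : ι) {v : P} (hv : v ∈ E.C) (hS : v ∉ R.S)
    (h : ∀ B : Finset ι, B.Nonempty → Th E.ψ B (T.τ v) = 0) : E.term i0 v =
      ee (p0 (Th E.ψ Finset.univ (T.σ v))) (p1 (Th E.ψ ∅ (T.τ v))) := by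
  have lz : ∀ B, _ ∧ _ := fun B => Rep.hat_lz_iff.1
    (E.urel.lz (Finset.subset_univ B) (E.sm B) fun i _ => E.β_C i v hv)
  rw [Sd.term, Finset.sum_eq_zero, zero_add, Rep.br_unr_left hS (lz _).1 (lz _).2
    (by rw [h _ ⟨i0, Finset.mem_univ _⟩]; rfl)]
  intro B hB
  obtain ⟨-, h1, h2⟩ := Finset.mem_filter.1 hB
  rw [Rep.br_unr_left hS (lz _).2 (lz _).1 (by rw [h _ ⟨i0, h1⟩]; rfl),
    h _ (Finset.nonempty_iff_ne_empty.2 fun e => h2 (by simpa using e)), Core_p0_zero,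
    ee_zero_right]

end aux

/-- a cube with two sides, without its top vertex, and a completion of the governing family -/
structure Cb (R : Rep T) (lam : O) (ι : Type) [Fintype ι] [DecidableEq ι] where
  C : Finset P
  F : Finset P
  a : Bool → P
  x0 : Bool → W → F2
  β : ι → W → F2
  A : Finset P
  ψ : Bool → Finset ι → W → H → O
  Φs : W → H → F2
  two : 2 ≤ Fintype.card ι
  S_sub : R.S ⊆ C
  disj : Disjoint C F
  a_C : ∀ s, a s ∉ C
  a_F : ∀ s, a s ∉ F
  a_ne : a false ≠ a true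
  x0_hom : ∀ s, T.IsHom (x0 s)
  β_hom : ∀ i, T.IsHom (β i)
  β_C : ∀ i s, ∀ v ∈ insert (a s) C, ∀ g ∈ T.D v, β i g = 0
  x_C : ∀ v ∈ C, ∀ g ∈ T.D v, x0 true g = x0 false g
  free : ∀ v ∈ F, R.Free (T.σ v)
  one : ∀ v ∈ F, ∃ i, ∀ j, j ≠ i → β j (T.τ v) = 0
  coc : ∀ s e, (s = true → e ≠ Finset.univ) →
    (R.hat lam).Coc (xe (x0 s) β e) (Fintype.card ι + 2) (ψ s e)
  loc : ∀ s e, (s = true → e ≠ Finset.univ) → ∀ v ∈ insert (a s) C,
    (R.hat lam).LocOK (xe (x0 s) β e) (Fintype.card ι + 2) (ψ s e) v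
  unr : ∀ s e, (s = true → e ≠ Finset.univ) → ∀ v ∉ insert (a s) C ∪ F,
    VD (Fintype.card ι + 2) (ψ s e (T.τ v))
  gr : ∀ s B, (s = true → B ≠ Finset.univ) → ∀ g, VD B.card (Dl B fun e => ψ s e g)
  own : ∀ s B, (s = true → B ≠ Finset.univ) → B.Nonempty → Th (ψ s) B (T.τ (a s)) = 0
  sm : T.Sm Φs
  rel : (R.hat lam).URel β Finset.univ fun B g =>
    if B = Finset.univ then Φs g else Th (ψ true) B g + Th (ψ false) B g
  unr_top : ∀ v ∉ C ∪ F, Φs (T.τ v) = 0
  A1 : insert (a true) C ⊆ A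
  A2 : A ⊆ insert (a true) C ∪ F
  A3 : ∀ v ∈ F, v ∉ A → xe (x0 true) β Finset.univ (T.τ v) = 0

namespace Cb

variable {R : Rep T} {lam : O} {ι : Type} [Fintype ι] [DecidableEq ι] (E : Cb R lam ι)

/-- the class on a side -/
def w (s : Bool) (g : W) : H → F2 := digV 0 (E.ψ s ∅ g)

/-- the governing family -/
def Φ (B : Finset ι) (g : W) : H → F2 :=
  if B = Finset.univ then E.Φs g else Th (E.ψ true) B g + Th (E.ψ false) B g

/-- the twist at the top -/
def xt : W → F2 := xe (E.x0 true) E.β Finset.univ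

/-- the new top vertex -/
def top (g : W) : H → O :=
  (2 : O) ^ Fintype.card ι • lftV (E.Φs g) + Dl Finset.univ (fun e => E.ψ false e g) +
    ∑ e ∈ (Finset.univ : Finset ι).powerset.erase Finset.univ,
      (-(-1 : O) ^ (Finset.univ \ e).card) • E.ψ true e g

/-- the completed family -/
def cpl : Finset ι → W → H → O := Function.update (E.ψ true) Finset.univ E.top

/-- the forced quantity -/
def rhs (i0 : ι) : F2 :=
  ∑ v ∈ E.C, (∑ B ∈ (Finset.univ.filter fun B : Finset ι => i0 ∈ B ∧ B ≠ Finset.univ),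
      R.br v (fun g => p1 (E.Φ B g)) (fun g => p0 (E.Φ Bᶜ g)) +
    R.br v (fun g => p0 (E.Φs g)) (fun g => p1 (E.w true g)) +
    R.br v (fun g => p1 (E.Φs g)) fun g => p0 (E.w false g)) +
  ee (p0 (E.Φs (T.σ (E.a true)))) (p1 (E.w true (T.τ (E.a true)))) +
  ee (p1 (E.Φs (T.σ (E.a false)))) (p0 (E.w false (T.τ (E.a false))))

theorem cpl_old {e : Finset ι} (h : e ≠ Finset.univ) : E.cpl e = E.ψ true e :=
  Function.update_of_ne h _ _

theorem cpl_top : E.cpl Finset.univ = E.top := Function.update_self _ _ _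

theorem Dl_cpl_old {B : Finset ι} (h : B ≠ Finset.univ) (g : W) :
    Dl B (fun e => E.cpl e g) = Dl B fun e => E.ψ true e g :=
  Dl_congr fun e he => by rw [E.cpl_old (Core_ne_univ he h)]

theorem Dl_cpl_top (g : W) : Dl Finset.univ (fun e => E.cpl e g) =
    (2 : O) ^ Fintype.card ι • lftV (E.Φs g) + Dl Finset.univ fun e => E.ψ false e g := by
  have h1 := Core_top_eq Finset.univ fun e => E.cpl e g
  rw [Finset.sum_congr rfl fun e he => by rw [E.cpl_old (Finset.ne_of_mem_erase he)], cpl_top,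
    top] at h1
  exact (add_right_cancel h1).symm

include E in
theorem univ_ne : (Finset.univ : Finset ι).Nonempty :=
  Finset.card_pos.1 (lt_of_lt_of_le two_pos E.two)

theorem a_S (s : Bool) : E.a s ∉ R.S := fun h => E.a_C s (E.S_sub h)

theorem F_S {v : P} (hv : v ∈ E.F) : v ∉ R.S := fun h =>
  Finset.disjoint_left.1 E.disj (E.S_sub h) hv

theorem a_CF (s : Bool) : E.a s ∉ E.C ∪ E.F := by simp [E.a_C, E.a_F]

theorem xe_C (s : Bool) (e : Finset ι) {v : P} (hv : v ∈ insert (E.a s) E.C) :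
    ∀ g ∈ T.D v, xe (E.x0 s) E.β e g = E.x0 s g := fun g hg => by
  simp only [xe, fun i => E.β_C i s v hv g hg, Finset.sum_const_zero, add_zero]

theorem Th_unr {s : Bool} {B : Finset ι} (hB : s = true → B ≠ Finset.univ) {v : P}
    (hv : v ∉ insert (E.a s) E.C ∪ E.F) : Th (E.ψ s) B (T.τ v) = 0 :=
  digV_of_VD ((Dl_VD fun e he => E.unr s e (fun h => Core_ne_univ he (hB h)) v hv).mono
    (by have := Finset.card_le_univ B; omega))

theorem sm_Th {s : Bool} {B : Finset ι} (hB : s = true → B ≠ Finset.univ) :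
    T.Sm (Th (E.ψ s) B) :=
  Lat.sm_Th (j := Fintype.card ι + 2) (by have := Finset.card_le_univ B; omega)
    fun e he => E.coc s e fun h => Core_ne_univ he (hB h)

theorem ll_Th {s : Bool} {B : Finset ι} (hB : s = true → B ≠ Finset.univ) {v : P}
    (hv : v ∈ insert (E.a s) E.C) : (R.hat lam).LL (E.x0 s) v (Th (E.ψ s) B) := by
  refine Lat.LocOK.ll (j := Fintype.card ι + 2) ?_ (by have := Finset.card_le_univ B; omega)
    fun g _ => E.gr s B hB g
  simp only [Dl_eq_sum_smul]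
  exact Lat.LocOK.sum _ _ fun e he => (E.loc s e
    (fun h => Core_ne_univ (Finset.mem_powerset.1 he) (hB h)) v hv).twist (E.xe_C s e hv)

theorem urel_false : (R.hat lam).URel E.β Finset.univ (Th (E.ψ false)) :=
  Lat.urel_of_coc (j := Fintype.card ι + 2) (by rw [Finset.card_univ]; omega)
    (fun g B _ => E.gr false B (by simp) g) fun e _ => E.coc false e (by simp)

theorem urel_Φ : (R.hat lam).URel E.β Finset.univ E.Φ := E.rel

theorem Φ_top : E.Φ Finset.univ = E.Φs := funext fun _ => if_pos rfl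

theorem Φ_old {B : Finset ι} (h : B ≠ Finset.univ) :
    E.Φ B = fun g => Th (E.ψ true) B g + Th (E.ψ false) B g := funext fun _ => if_neg h

theorem sm_Φ (B : Finset ι) : T.Sm (E.Φ B) := by
  by_cases h : B = Finset.univ
  · rw [h, Φ_top]; exact E.sm
  · rw [E.Φ_old h]
    exact Tame.sm_comp₂ (E.sm_Th fun _ => h) (E.sm_Th (s := false) (by simp)) (· + ·)

theorem Th_empty (s : Bool) : Th (E.ψ s) ∅ = E.w s := funext (Core_Th_empty _)

theorem cpl_gr (g : W) : GrV Finset.univ fun e => E.cpl e g := by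
  intro B _
  by_cases hB : B = Finset.univ
  · rw [hB, E.Dl_cpl_top]
    exact (VD_pow_smul _ _).add (E.gr false _ (by simp) g)
  · rw [E.Dl_cpl_old hB]
    exact E.gr true B (fun _ => hB) g

theorem Th_cpl (B : Finset ι) (g : W) : Th E.cpl B g = E.Φ B g + Th (E.ψ false) B g := by
  by_cases hB : B = Finset.univ
  · rw [hB, Φ_top, Th, Th, E.Dl_cpl_top, ← Finset.card_univ,
      digV_add (VD_pow_smul _ _) (E.gr false _ (by simp) g), digV_pow_smul, digV_lftV]
  · rw [E.Φ_old hB, add_assoc, vb_add_self, add_zero, Th, Th, E.Dl_cpl_old hB]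

theorem top_lead (g : W) : digV 0 (E.top g) = E.w true g := by
  have h1 := Dl_inversion Finset.univ fun e => E.cpl e g
  rw [← Finset.add_sum_erase _ _ (Finset.empty_mem_powerset _), Dl_empty, cpl_top,
    E.cpl_old E.univ_ne.ne_empty.symm] at h1
  refine digV_congr ?_
  rw [h1, add_sub_cancel_left]
  exact VD.sum _ fun B hB => (E.cpl_gr g B (Finset.subset_univ B)).mono
    (Finset.card_pos.2 (Finset.nonempty_iff_ne_empty.2 (Finset.ne_of_mem_erase hB)))

theorem top_coc : (R.hat lam).Coc E.xt (Fintype.card ι + 1) E.top := by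
  constructor
  · obtain ⟨U, hU, hU'⟩ := E.sm
    obtain ⟨U', hV, hV'⟩ := Tame.exists_adm_le (T := T)
      (Finset.univ.filter fun z : Bool × Finset ι => z.1 = true → z.2 ≠ Finset.univ)
      (fun z U => ∀ g, ∀ u ∈ U, VD (Fintype.card ι + 2) (E.ψ z.1 z.2 (g * u) - E.ψ z.1 z.2 g))
      (fun _ _ _ h1 h2 g u hu => h1 g u (h2 hu))
      fun z hz => (E.coc z.1 z.2 (Finset.mem_filter.1 hz).2).1
    refine ⟨U ⊓ U', T.adm_inf _ _ hU hV, fun g u hu => ?_⟩
    rw [← cpl_top]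
    refine Core_VD_top (f := fun e => E.cpl e (g * u) - E.cpl e g) ?_ fun e he => ?_
    · rw [Dl_sub, Dl_cpl_top, Dl_cpl_top, hU' g u hu.1, add_sub_add_left_eq_sub, ← Dl_sub]
      exact Dl_VD fun e _ => (hV' (false, e) (by simp) g u hu.2).mono (by omega)
    · rw [E.cpl_old he.ne]
      exact (hV' (true, e) (by simpa using he.ne) g u hu.2).mono (by omega)
  · intro g g'
    obtain ⟨h1, h2⟩ := Lat.defect (R := R.hat lam) (x0 := E.x0 true) (β := E.β) E.cpl_gr g g'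
    rw [((E.urel_Φ.add E.urel_false).congr fun B _ g => (E.Th_cpl B g).symm) _ subset_rfl g g',
      sub_self, digV_eq_zero_iff h1, Finset.card_univ] at h2
    rw [← cpl_top]
    exact Core_VD_top h2 fun e he => by
      rw [E.cpl_old he.ne]
      exact ((E.coc true e fun _ => he.ne).2 g g').mono (by omega)

theorem top_unr {v : P} (hv : v ∉ insert (E.a true) E.C ∪ E.F) :
    VD (Fintype.card ι + 1) (E.top (T.τ v)) := by
  rw [← cpl_top]
  refine Core_VD_top (f := fun e => E.cpl e (T.τ v)) ?_ fun e he => ?_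
  · rw [← Finset.card_univ, ← digV_eq_zero_iff (E.cpl_gr _ _ subset_rfl)]
    refine (E.Th_cpl _ _).trans ?_
    rw [Φ_top, E.unr_top v fun h => hv (by rw [Finset.insert_union]; exact Finset.mem_insert_of_mem h),
      zero_add]
    by_cases h : v = E.a false
    · rw [h]; exact E.own false _ (by simp) E.univ_ne
    · exact E.Th_unr (by simp) (by simp_all)
  · rw [E.cpl_old he.ne]
    exact (E.unr true e (fun _ => he.ne) v hv).mono (by omega)

theorem top_lifts : (R.hat lam).Lifts E.A E.xt (Fintype.card ι) (E.w true) := by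
  have hx : T.IsHom E.xt := xe_hom (E.x0_hom _) E.β_hom _
  have hc := E.top_coc.mono (Nat.le_succ _)
  refine ⟨E.top, ⟨hc, fun v hv => ?_, fun v hv => ?_⟩, E.top_lead⟩
  · rcases Finset.mem_union.1 (E.A2 hv) with h | h
    · refine (Lat.LocOK.sum (Finset.univ.powerset.erase Finset.univ)
        (fun e => -(-1 : O) ^ (Finset.univ \ e).card) fun e he =>
          ((E.loc true e (fun _ => Finset.ne_of_mem_erase he) v h).mono (by omega)).twist
            fun g hg => (E.xe_C true e h g hg).trans (E.xe_C true _ h g hg).symm).congr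
        fun g _ => ?_
      rw [top, sub_add_cancel_right]
      exact ((VD_pow_smul _ _).add (E.gr false _ (by simp) g)).neg
    · exact hc.locOK_of_free hx (E.F_S h) (Rep.hat_free (E.free v h))
  · by_cases h : v ∈ E.F
    · exact hc.unr_of_free hx (E.F_S h) (Rep.hat_free (E.free v h)) (E.A3 v h hv)
    · exact (E.top_unr fun h' => (Finset.mem_union.1 h').elim (fun h' => hv (E.A1 h')) h).mono
        (Nat.le_succ _)

theorem side_false (i0 : ι) :
    ∑ v ∈ E.C, (∑ B ∈ (Finset.univ.filter fun B : Finset ι => i0 ∈ B ∧ B ≠ Finset.univ),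
      R.br v (fun g => p1 (Th (E.ψ false) B g)) (fun g => p0 (Th (E.ψ false) Bᶜ g)) +
      R.br v (fun g => p0 (Th (E.ψ false) Finset.univ g)) fun g => p1 (E.w false g)) +
    ee (p0 (Th (E.ψ false) Finset.univ (T.σ (E.a false)))) (p1 (E.w false (T.τ (E.a false)))) = 0 := by
  let S : Sd R lam ι :=
    { C := insert (E.a false) E.C, F := E.F, x0 := E.x0 false, β := E.β, ψ := E.ψ false
      ct := E.ψ false Finset.univ, s := 0, two := E.two
      S_sub := E.S_sub.trans (Finset.subset_insert _ _)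
      disj := Finset.disjoint_insert_left.2 ⟨E.a_F _, E.disj⟩
      x0_hom := E.x0_hom _, β_hom := E.β_hom, β_C := fun i => E.β_C i false, free := E.free
      one := E.one, coc := fun e _ => E.coc false e (by simp)
      loc := fun e _ => E.loc false e (by simp), unr := fun e _ => E.unr false e (by simp)
      coc_top := (E.coc false _ (by simp)).mono (by omega)
      unr_top := fun v hv => (E.unr false _ (by simp) v hv).mono (by omega)
      gr := fun g B _ => E.gr false B (by simp) g, ct_coc := E.coc false _ (by simp)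
      ct_loc := E.loc false _ (by simp), ct_unr := E.unr false _ (by simp)
      hs := fun g => by simp }
  have h := S.side i0
  have z : ∀ v, R.hbr v (Th S.ψ Finset.univ) (fun g => digV 0 (S.s g)) = 0 := fun v => by
    have : ∀ g, digV 0 (S.s g) = 0 := fun g => digV_of_VD (VD.zero _)
    simp only [Rep.hbr, this, Core_p0_zero, Core_p1_zero]
    rw [Rep.br_zero_right _ fun _ _ => rfl, Rep.br_zero_right _ fun _ _ => rfl, add_zero]
  simp only [z, add_zero] at h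
  rw [Finset.sum_insert (E.a_C false), Core_term_own S i0 (Finset.mem_insert_self _ _) (E.a_S _)
    fun B => E.own false B (by simp), add_comm] at h
  simpa only [Sd.term, S, E.Th_empty] using h

theorem a_out (s : Bool) : E.a s ∉ insert (E.a (!s)) E.C ∪ E.F := by
  cases s <;> simp [E.a_C, E.a_F, E.a_ne, E.a_ne.symm]

theorem side_true (i0 : ι) (h : (R.hat lam).Lifts E.A E.xt (Fintype.card ι + 2) (E.w true))
    (hD : R.Diag lam E.A E.xt (Fintype.card ι - 1)) :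
    ∑ v ∈ E.C, (∑ B ∈ (Finset.univ.filter fun B : Finset ι => i0 ∈ B ∧ B ≠ Finset.univ),
      R.br v (fun g => p1 (Th E.cpl B g)) (fun g => p0 (Th E.cpl Bᶜ g)) +
      R.br v (fun g => p0 (Th E.cpl Finset.univ g)) fun g => p1 (E.w true g)) +
    ee (p0 (Th E.cpl Finset.univ (T.σ (E.a true)))) (p1 (E.w true (T.τ (E.a true)))) = 0 := by
  obtain ⟨ct, hct, hw⟩ := h
  have h1 : ∀ g, ∃ b, E.top g - ct g = (2 : O) ^ 1 • b := fun g =>
    ((digV_eq_zero_iff (VD.triv _)).1 (by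
      rw [digV_sub (VD.triv _) (VD.triv _), E.top_lead, hw, sub_self])).exists
  choose s hs using h1
  let S : Sd R lam ι :=
    { C := insert (E.a true) E.C, F := E.F, x0 := E.x0 true, β := E.β, ψ := E.cpl
      ct := ct, s := s, two := E.two
      S_sub := E.S_sub.trans (Finset.subset_insert _ _)
      disj := Finset.disjoint_insert_left.2 ⟨E.a_F _, E.disj⟩
      x0_hom := E.x0_hom _, β_hom := E.β_hom, β_C := fun i => E.β_C i true, free := E.free
      one := E.one, coc := fun e he => E.cpl_old he ▸ E.coc true e fun _ => he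
      loc := fun e he => E.cpl_old he ▸ E.loc true e fun _ => he
      unr := fun e he => E.cpl_old he ▸ E.unr true e fun _ => he
      coc_top := E.cpl_top ▸ E.top_coc, unr_top := fun v hv => E.cpl_top ▸ E.top_unr hv
      gr := E.cpl_gr, ct_coc := hct.1, ct_loc := fun v hv => hct.2.1 v (E.A1 hv)
      ct_unr := fun v hv => hct.2.2 v fun h => hv (E.A2 h)
      hs := fun g => by rw [cpl_top, ← pow_one (2 : O), ← hs, add_sub_cancel] }
  have h := S.side i0
  have e : Th E.cpl ∅ = E.w true := funext fun g => by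
    rw [Core_Th_empty, E.cpl_old E.univ_ne.ne_empty.symm, w]
  rw [Finset.sum_add_distrib, S.side_diag E.A1 E.A2 E.A3 hD, add_zero,
    Finset.sum_insert (E.a_C true), Core_term_own S i0 (Finset.mem_insert_self _ _) (E.a_S _)
    fun B hB => ?_, add_comm] at h
  · simpa only [Sd.term, S, e] using h
  · by_cases hU : B = Finset.univ
    · refine (E.Th_cpl _ _).trans ?_
      rw [hU, Φ_top, E.unr_top _ (E.a_CF _), zero_add]
      exact E.Th_unr (by simp) (E.a_out true)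
    · exact (congrArg _ (E.Dl_cpl_old hU _)).trans (E.own true B (fun _ => hU) hB)

theorem lz {s : Bool} {v : P} (hv : v ∈ insert (E.a s) E.C) (B : Finset ι) :
    ((R.LZ v fun g => p0 (E.Φ B g)) ∧ R.LZ v fun g => p1 (E.Φ B g)) ∧
    (R.LZ v fun g => p0 (Th (E.ψ false) B g)) ∧ R.LZ v fun g => p1 (Th (E.ψ false) B g) :=
  ⟨Rep.hat_lz_iff.1 (E.urel_Φ.lz (Finset.subset_univ B) (E.sm_Φ B) fun i _ => E.β_C i s v hv),
    Rep.hat_lz_iff.1 (E.urel_false.lz (Finset.subset_univ B) (E.sm_Th (by simp))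
      fun i _ => E.β_C i s v hv)⟩

theorem cross :
    ∑ v ∈ E.C, ∑ B : Finset ι,
      R.br v (fun g => p1 (E.Φ B g)) (fun g => p0 (Th (E.ψ false) Bᶜ g)) +
    ee (p0 (Th (E.ψ false) Finset.univ (T.σ (E.a true)))) (p1 (E.w true (T.τ (E.a true)))) +
    ee (p1 (E.Φs (T.σ (E.a false)))) (p0 (E.w false (T.τ (E.a false)))) +
    ee (p0 (Th (E.ψ false) Finset.univ (T.σ (E.a false)))) (p1 (E.w false (T.τ (E.a false)))) = 0 := by
  have h := Core_recip E.β_hom (Rep.urel_p1 E.urel_Φ) (Rep.urel_p0 E.urel_false)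
    (fun B => Tame.sm_comp (E.sm_Φ B) p1) (fun B => Tame.sm_comp (E.sm_Th (by simp)) p0)
    (C := insert (E.a true) (insert (E.a false) E.C)) (F := E.F)
    (by simp [E.a_F, E.disj]) (E.S_sub.trans fun v hv => by simp [hv])
    (fun v hv i => by
      rcases Finset.mem_insert.1 hv with h | h
      · exact E.β_C i true v (by simp [h])
      · exact E.β_C i false v h) E.free fun v hv B => by
      have h1 : Th (E.ψ false) B (T.τ v) = 0 := E.Th_unr (by simp) (by simp_all)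
      refine ⟨?_, by rw [h1]; rfl⟩
      by_cases hB : B = Finset.univ
      · rw [hB, Φ_top, E.unr_top v (by simp_all)]; rfl
      · simp only [E.Φ_old hB, h1, E.Th_unr (s := true) (fun _ => hB) (v := v) (by simp_all),
          add_zero, Core_p1_zero]
  have g : ∀ s B, R.br (E.a s) (fun g => p1 (E.Φ B g)) (fun g => p0 (Th (E.ψ false) Bᶜ g)) = _ :=
    fun s B => Rep.br_good (E.a_S s) (E.lz (Finset.mem_insert_self _ _) B).1.2
      (E.lz (Finset.mem_insert_self _ _) Bᶜ).2.1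
  have n0 := E.univ_ne.ne_empty.symm
  have t1 : ∀ B, Th (E.ψ false) B (T.τ (E.a true)) = 0 := fun B =>
    E.Th_unr (by simp) (E.a_out true)
  have t2 : ∀ s (B : Finset ι), B ≠ ∅ → E.Φ B (T.τ (E.a s)) = 0 := fun s B hB => by
    have hB' := Finset.nonempty_iff_ne_empty.2 hB
    by_cases hU : B = Finset.univ
    · rw [hU, Φ_top, E.unr_top _ (E.a_CF s)]
    · cases s
      · simp only [E.Φ_old hU, E.own false B (by simp) hB',
          E.Th_unr (s := true) (fun _ => hU) (E.a_out false), add_zero]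
      · simp only [E.Φ_old hU, E.own true B (fun _ => hU) hB', t1, add_zero]
  have t3 : E.Φ ∅ (T.τ (E.a true)) = E.w true (T.τ (E.a true)) := by
    simp only [E.Φ_old n0, t1, add_zero, E.Th_empty true]
  have t4 : E.Φ ∅ (T.τ (E.a false)) = E.w false (T.τ (E.a false)) := by
    simp only [E.Φ_old n0, E.Th_unr (s := true) (fun _ => n0) (E.a_out false), zero_add,
      E.Th_empty false]
  rw [Finset.sum_insert (by simp [E.a_C, E.a_ne.symm]), Finset.sum_insert (E.a_C false),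
    Finset.sum_eq_single ∅ (fun B _ hB => by simp [g, t1, t2 true B hB, Core_p0_zero, Core_p1_zero])
      (by simp), Finset.sum_eq_add ∅ Finset.univ n0 (fun B _ hB => by
        simp [g, t2 false B hB.1, E.own false Bᶜ (by simp) (Finset.nonempty_iff_ne_empty.2
          fun e => hB.2 (by simpa using e)), Core_p0_zero, Core_p1_zero]) (by simp) (by simp),
    g, g, g] at h
  simp only [t1, t3, t4, t2 false _ n0.symm, Finset.compl_empty, Finset.compl_univ,
    E.own false _ (by simp) E.univ_ne, Core_p0_zero, Core_p1_zero, ee_zero_left, ee_zero_right,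
    mul_zero, add_zero, zero_add, E.Th_empty] at h
  rw [Φ_top, ee_comm (p1 (E.w true _)), ee_comm (p1 (E.w false _))] at h
  linear_combination h

theorem cross_C (i0 : ι) {v : P} (hv : v ∈ E.C) :
    ∑ B : Finset ι, R.br v (fun g => p1 (E.Φ B g)) (fun g => p0 (Th (E.ψ false) Bᶜ g)) =
      ∑ B ∈ (Finset.univ.filter fun B : Finset ι => i0 ∈ B ∧ B ≠ Finset.univ),
        (R.br v (fun g => p1 (E.Φ B g)) (fun g => p0 (Th (E.ψ false) Bᶜ g)) +
          R.br v (fun g => p1 (Th (E.ψ false) B g)) fun g => p0 (E.Φ Bᶜ g)) +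
      R.br v (fun g => p1 (E.Φs g)) (fun g => p0 (E.w false g)) +
      R.br v (fun g => p0 (Th (E.ψ false) Finset.univ g)) (fun g => p1 (E.w true g)) +
      R.br v (fun g => p0 (Th (E.ψ false) Finset.univ g)) fun g => p1 (E.w false g) := by
  have hv' : ∀ s, v ∈ insert (E.a s) E.C := fun s => Finset.mem_insert_of_mem hv
  have lz := E.lz (hv' true)
  rw [Core_split i0, Finset.compl_univ, Finset.compl_empty, Φ_top, Th_empty,
    Rep.br_comm (lz ∅).1.2 (lz _).2.1, E.Φ_old E.univ_ne.ne_empty.symm]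
  simp only [Th_empty, Core_p1_add, Rep.br_add_right, add_assoc]
  refine congrArg₂ _ (Finset.sum_congr rfl fun B hB => ?_) rfl
  have hB' : Bᶜ ≠ Finset.univ := fun e =>
    Finset.mem_compl.1 (e ▸ Finset.mem_univ i0) (Finset.mem_filter.1 hB).2.1
  have l2 : (R.hat lam).LL (E.x0 false) v (E.Φ Bᶜ) := by
    rw [E.Φ_old hB']
    exact ((E.ll_Th (fun _ => hB') (hv' true)).twist (E.x_C v hv)).add
      (E.ll_Th (by simp) (hv' false))
  have := Rep.hbr_ll (E.x0_hom false) (E.ll_Th (B := B) (by simp) (hv' false)) l2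
  rw [compl_compl, Rep.br_comm (lz Bᶜ).1.2 (lz B).2.1]
  rw [Rep.hbr, add_eq_zero_iff_eq_neg, F2_neg] at this
  rw [this]

theorem core (i0 : ι) (h : (R.hat lam).Lifts E.A E.xt (Fintype.card ι + 2) (E.w true))
    (hD : R.Diag lam E.A E.xt (Fintype.card ι - 1)) : E.rhs i0 = 0 := by
  have h1 := E.side_false i0
  have h2 := E.side_true i0 h hD
  have h3 := E.cross
  simp only [Th_cpl, Core_p0_add, Core_p1_add, Rep.br_add_left, Rep.br_add_right, ee_add_left,
    Φ_top, Finset.sum_add_distrib] at h1 h2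
  rw [Finset.sum_congr rfl fun v hv => E.cross_C i0 hv] at h3
  simp only [rhs, Finset.sum_add_distrib] at h3 ⊢
  exact Core_fin h1 h2 h3

end Cb

end

end Pool.Agent.Hyp
end

-- merged part: Pool.Agent.Work.MP_60d5ce_nt.Hy.Comm
section
/-!
# Independence of the top symbols  (task QT Comm)

Template `Sm/Comm.lean` (characteristic two: no signs; the action `rb` is trivial on all the elements
that are used, except in the conjugations).
* `count_zeros`: `∑ t, 2 ^ (number of zeros) = 3 ^ card X`, and `27 ≤ 32` after cubing.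
* `URel.conj`: expand `Θ (g * s * g⁻¹ * g) = Θ (g * s)`.
* `exists_comm`: iterated commutators `[t x i, -]` over all `i`, starting from `ta x` (induction on a
  finite set of directions, `uop_single`); a commutator `[t, z]` lies in every normal subgroup
  containing `t`.
* `cheb_zeros`: let `Ψ g n = Mk g n ∧ symbols`, and `Ev g n` the event.  `Ev` is an `MP` for `A0 ∪ A'`
  (`cl_urel`, `cl_pi`, `URel.conj`, `uop_eq_top`, `bil_rb`).  `dM Ev ≤ 2⁻¹ ^ s * dM Ψ` mark by mark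
  (`dens_family_le`; if no `g` has `Mk g n` the density is zero, `dens_false`): take `h x` with
  `bil (rb (h x) (na x)) n = 1` (`Nondeg.exists_bil`), `z' x = h x * z x * (h x)⁻¹`, and the family
  `∏ z' x ^ t x`, `t : X → F2` (compare `comm_exists_top`); it lies in `NC A0` and is killed by all
  homomorphisms, so it preserves `Ψ` (`Cl.nc`).  Finish with `count_zeros`, `prM_upper`, `prM_lower`
  (`η = 1 / 2`, ratio three).
-/

namespace Pool.Agent.Hyp

open Pool.Agent.Quad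

variable [Par]

open scoped Classical

noncomputable section

/-- the index of a governing family -/
def NU (k : ℕ) : ℕ := 2 ^ (Fintype.card H * Fintype.card H + k + Fintype.card H * 2 ^ k)

theorem NU_pos (k : ℕ) : 0 < NU k := by unfold NU; positivity

theorem count_zeros {X : Type} [Fintype X] (c : X → F2) (s : ℕ) :
    (({t : X → F2 | 2 * Fintype.card X + 3 * s ≤ 3 * {x | t x + c x = 0}.ncard}.ncard : ℕ) : ℝ) ≤
      (2 : ℝ)⁻¹ ^ s * 2 ^ Fintype.card X := by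
  have h4 : ∀ c : F2, ∑ a : F2, (if a + c = 0 then 2 else 1 : ℕ) = 3 := by decide
  have hsum : ∑ t : X → F2, (2 : ℝ) ^ {x | t x + c x = 0}.ncard = 3 ^ Fintype.card X := by
    have e1 : ∀ t : X → F2, (2 : ℝ) ^ {x | t x + c x = 0}.ncard
        = ∏ x, if t x + c x = 0 then 2 else 1 := fun t => by
      rw [Finset.prod_ite, Finset.prod_const_one, mul_one, Finset.prod_const,
        ← Set.ncard_coe_finset, Finset.coe_filter_univ]
    simp only [e1]
    rw [← Fintype.piFinset_univ, ← Finset.prod_univ_sum (fun _ => Finset.univ)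
      fun x a => if a + c x = 0 then (2 : ℝ) else 1, ← Finset.card_univ, ← Finset.prod_const]
    exact Finset.prod_congr rfl fun x _ => by exact_mod_cast h4 (c x)
  obtain ⟨r, hr0, hr⟩ : ∃ r : ℝ, 0 < r ∧ r ^ 3 = 2 :=
    ⟨2 ^ ((3 : ℕ)⁻¹ : ℝ), by positivity, Real.rpow_inv_natCast_pow zero_le_two three_ne_zero⟩
  have hr2 : 1 ≤ r := le_of_pow_le_pow_left₀ three_ne_zero hr0.le (by rw [hr]; norm_num)
  have hr1 : 3 ≤ 2 * r ^ 2 := le_of_pow_le_pow_left₀ three_ne_zero (by positivity) (by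
    rw [mul_pow, ← pow_mul, mul_comm 2 3, pow_mul, hr]
    norm_num)
  have hr3 : 0 < (r ^ 2) ^ Fintype.card X * 2 ^ s := by positivity
  set S := {t : X → F2 | 2 * Fintype.card X + 3 * s ≤ 3 * {x | t x + c x = 0}.ncard}
  have h1 : (S.ncard : ℝ) * ((r ^ 2) ^ Fintype.card X * 2 ^ s) ≤ 3 ^ Fintype.card X := by
    rw [← hsum, Set.ncard_eq_toFinset_card', ← nsmul_eq_mul, ← Finset.sum_const]
    refine (Finset.sum_le_sum fun t ht => ?_).trans
      (Finset.sum_le_sum_of_subset_of_nonneg (Finset.subset_univ _) fun _ _ _ => by positivity)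
    have h2 : r ^ (2 * Fintype.card X + 3 * s) ≤ r ^ (3 * {x | t x + c x = 0}.ncard) :=
      pow_le_pow_right₀ hr2 (Set.mem_toFinset (s := S).1 ht)
    rwa [pow_add, pow_mul, pow_mul, pow_mul, hr] at h2
  refine le_of_mul_le_mul_right (h1.trans ((pow_le_pow_left₀ (by norm_num) hr1 _).trans_eq ?_)) hr3
  rw [mul_pow, inv_pow]
  field_simp

variable {W P : Type} [Group W] {T : Tame W P} {ι : Type} [DecidableEq ι]

theorem comm_top [Fintype ι] {X I : Type} {Φ : X → Finset ι → W → I → F2} (Nn : Subgroup W)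
    (hadd : ∀ g ∈ Nn, (∀ h : W → F2, T.IsHom h → h g = 0) →
      ∀ x B h, Φ x B (g * h) = Φ x B g + Φ x B h)
    (hone : ∀ x B, Φ x B 1 = 0) {n : X → I → F2} {z : X → W}
    (hz : ∀ x, z x ∈ Nn ∧ (∀ h : W → F2, T.IsHom h → h (z x) = 0) ∧
      ∀ x' B, Φ x' B (z x) = if B = Finset.univ ∧ x' = x then n x else 0)
    (t : X → F2) (S : Finset X) :
    ∃ w ∈ Nn, (∀ h : W → F2, T.IsHom h → h w = 0) ∧
      ∀ x B, Φ x B w = if B = Finset.univ ∧ x ∈ S then t x • n x else 0 := by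
  induction S using Finset.induction_on with
  | empty => exact ⟨1, one_mem _, fun h hh => Tame.hom_one hh, fun x B => by simpa using hone x B⟩
  | insert v S hv ih =>
    obtain ⟨w, h1, h2, h3⟩ := ih
    rcases F2_cases (t v) with h0 | h0
    · refine ⟨w, h1, h2, fun x B => ?_⟩
      rw [h3]
      by_cases h : x = v
      · subst h
        simp [hv, h0]
      · simp [h]
    · refine ⟨w * z v, mul_mem h1 (hz v).1, fun h hh => ?_, fun x B => ?_⟩
      · rw [hh.2, h2 h hh, (hz v).2.1 h hh, add_zero]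
      · rw [hadd _ h1 h2, h3, (hz v).2.2]
        by_cases h : x = v
        · subst h
          simp [hv, h0]
        · simp [h]

theorem comm_bil (a b n : H → F2) (t : F2) : bil (a + t • b) n = bil a n + t * bil b n := by
  rw [bil, bil, bil, show p0 (a + t • b) = p0 a + t • p0 b from rfl,
    show p1 (a + t • b) = p1 a + t • p1 b from rfl, ee_add_left, ee_add_left, ee_smul_left,
    ee_smul_left]
  ring

namespace Lat

open Quad.Lat

variable {I : Type} [Fintype I] [DecidableEq I] {L : Lat T I}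

theorem comm_rb_conj {s : W} (h : L.rb s = 1) (g : W) : L.rb (g * s * g⁻¹) = 1 := by
  rw [rb_mul, rb_mul, h, mul_one, ← rb_mul, mul_inv_cancel, rb_one]

theorem comm_rb_comm {s t : W} (h : L.rb s = 1) (h' : L.rb t = 1) :
    L.rb (t * s * t⁻¹ * s⁻¹) = 1 := by
  rw [rb_mul, comm_rb_conj h, ← h, ← rb_mul, mul_inv_cancel, rb_one, h]

theorem urel_conj {β : ι → W → F2} (hβ : ∀ i, T.IsHom (β i)) {U : Finset ι}
    {Θ : Finset ι → W → I → F2} (h : L.URel β U Θ) {s : W} (h1 : L.rb s = 1)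
    (hs : ∀ i ∈ U, β i s = 0) (g : W) :
    ∀ B ⊆ U, Θ B (g * s * g⁻¹) = (L.rb g).mulVec (uop β g (fun C => Θ C s) B) := by
  intro B hB
  have h2 := h B hB (g * s * g⁻¹) g
  rw [inv_mul_cancel_right, h B hB g s, comm_rb_conj h1, Matrix.one_mulVec,
    uop_of_zero fun i hi => (Tame.hom_conj (hβ i) s g).trans (hs i (hB hi)), add_comm] at h2
  exact (add_right_cancel h2).symm

theorem exists_comm [Fintype ι] [Nonempty ι] {X : Type} (β : X → ι → W → F2)
    (hβ : ∀ x i, T.IsHom (β x i)) (Φ : X → Finset ι → W → I → F2)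
    (hΦ : ∀ x, L.URel (β x) Finset.univ (Φ x)) {κ : Type} (c : X → ι → κ) (ca : X → κ)
    (hinj : ∀ x x', c x = c x' → ca x = ca x' → x = x') (t : X → ι → W) (ta : X → W)
    (na : X → I → F2) (Nn : Subgroup W) (hN : Nn.Normal) (ht0 : ∀ x i, t x i ∈ Nn)
    (ht1 : ∀ x i, L.rb (t x i) = 1) (hta1 : ∀ x, L.rb (ta x) = 1)
    (ht : ∀ x x' i j, β x' j (t x i) = if j = i ∧ c x' i = c x i then 1 else 0)
    (hta : ∀ x x' j, β x' j (ta x) = 0)
    (hΦa : ∀ x x' B, Φ x' B (ta x) = if B = ∅ ∧ ca x' = ca x then na x else 0) :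
    ∃ z : X → W, ∀ x, z x ∈ Nn ∧ (∀ h : W → F2, T.IsHom h → h (z x) = 0) ∧
      ∀ x' B, Φ x' B (z x) = if B = Finset.univ ∧ x' = x then na x else 0 := by
  have key : ∀ x (J : Finset ι), ∃ z : W, L.rb z = 1 ∧ (∀ x' j, β x' j z = 0) ∧
      (J.Nonempty → z ∈ Nn ∧ ∀ h : W → F2, T.IsHom h → h z = 0) ∧
      ∀ x' B, Φ x' B z = if B = J ∧ (∀ i ∈ J, c x' i = c x i) ∧ ca x' = ca x
        then na x else 0 := by
    intro x J
    induction J using Finset.induction_on with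
    | empty =>
      exact ⟨ta x, hta1 x, hta x, fun h => absurd h Finset.not_nonempty_empty,
        by simpa using hΦa x⟩
    | insert i J hi ih =>
      obtain ⟨z, h0, h1, -, h3⟩ := ih
      have hh : ∀ h : W → F2, T.IsHom h → h (t x i * z * (t x i)⁻¹ * z⁻¹) = 0 := fun h hh => by
        rw [hh.2, Tame.hom_conj hh, Tame.hom_inv hh, add_neg_cancel]
      have h6 := comm_rb_comm h0 (ht1 x i)
      refine ⟨t x i * z * (t x i)⁻¹ * z⁻¹, h6, fun x' j => hh _ (hβ x' j), fun _ => ⟨?_, hh⟩,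
        fun x' B => ?_⟩
      · rw [mul_assoc (t x i), mul_assoc (t x i)]
        exact mul_mem (ht0 x i) (hN.conj_mem _ (inv_mem (ht0 x i)) z)
      · have h4 := hΦ x' B B.subset_univ (t x i * z * (t x i)⁻¹ * z⁻¹) z
        rw [inv_mul_cancel_right, urel_conj (hβ x') (hΦ x') h0 (fun j _ => h1 x' j) _ B B.subset_univ,
          h6, ht1, Matrix.one_mulVec, Matrix.one_mulVec,
          uop_of_zero (g := t x i * z * (t x i)⁻¹ * z⁻¹) fun j _ => hh _ (hβ x' j),
          uop_single (i := i) fun j _ hj => by rw [ht, if_neg fun h => hj h.1], add_comm] at h4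
        rw [← add_right_cancel h4, ht, h3]
        have h5 : B = insert i J ↔ i ∈ B ∧ B.erase i = J :=
          ⟨fun h => by rw [h]; exact ⟨Finset.mem_insert_self _ _, Finset.erase_insert hi⟩,
            fun h => by rw [← h.2, Finset.insert_erase h.1]⟩
        simp only [h5, Finset.forall_mem_insert]
        by_cases a1 : i ∈ B <;> by_cases a2 : c x' i = c x i <;> simp [a1, a2]
  choose z h0 h1 h2 h3 using fun x => key x Finset.univ
  refine ⟨z, fun x => ⟨(h2 x Finset.univ_nonempty).1, (h2 x Finset.univ_nonempty).2, fun x' B => ?_⟩⟩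
  rw [h3]
  refine if_congr (and_congr_right fun _ => ⟨fun h => hinj _ _ ?_ h.2, ?_⟩) rfl rfl
  · exact funext fun i => h.1 i (Finset.mem_univ i)
  · rintro rfl
    exact ⟨fun _ _ => rfl, rfl⟩

end Lat

namespace Rep

variable {R : Rep T} {lam : O}

theorem cheb_zeros [Fintype ι] {X : Type} [Fintype X] {A0 A' : Finset P} (hS : R.S ⊆ A0)
    (hd : ∀ a ∈ A', a ∉ A0) {N0 : ℕ} {Mk : W → (H → F2) → Prop} (hMk : (R.hat lam).MP A0 N0 Mk)
    (hsp : ∀ g n, Mk g n → R.rb g = 1) (c : P → F2) (q0 : ι → P) (q1 : X → ι → P)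
    (h0 : ∀ i, q0 i ∈ A') (h1 : ∀ x i, q1 x i ∈ A' ∧ c (q1 x i) = c (q0 i))
    (Φ : X → Finset ι → W → H → F2)
    (hΦ : ∀ x, (R.hat lam).URel (fun i g => T.χ (q1 x i) g + T.χ (q0 i) g) Finset.univ (Φ x))
    (hsm : ∀ x B, T.Sm (Φ x B)) (hunr : ∀ x B, ∀ v ∉ A0 ∪ A', Φ x B (T.τ v) = 0)
    (na : X → H → F2) (hn : ∀ x g n, Mk g n → R.Nondeg (na x) n) (z : X → W)
    (hz : ∀ x, z x ∈ T.NC A0 ∧ (∀ h : W → F2, T.IsHom h → h (z x) = 0) ∧
      ∀ x' B, Φ x' B (z x) = if B = Finset.univ ∧ x' = x then na x else 0)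
    (C : X → F2) (s e : ℕ) (he : 0 < e)
    (hs : T.Small (1 / 2) (N0 * 2 ^ A'.card *
      NU (Fintype.card ι) ^ Fintype.card X)
      (∑ v ∈ A0 ∪ A', T.dg v) e) :
    ({y | y ∈ T.PrM (A0 ∪ A') (fun g n => Mk g n ∧ ∀ a ∈ A', T.χ a g = c a) e ∧
        (∀ x B, B ≠ Finset.univ → Φ x B (T.σ y.1) = 0) ∧ 2 * Fintype.card X + 3 * s ≤
          3 * {x | bil (Φ x Finset.univ (T.σ y.1)) y.2 + C x = 0}.ncard}.ncard : ℝ) ≤
      3 * (2 : ℝ)⁻¹ ^ s *
        (T.PrM (A0 ∪ A') (fun g n => Mk g n ∧ ∀ a ∈ A', T.χ a g = c a) e).ncard := by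
  have hβ : ∀ x i, T.IsHom fun g => T.χ (q1 x i) g + T.χ (q0 i) g := fun x i =>
    Tame.hom_add (T.χ_hom _) (T.χ_hom _)
  have hinf : T.inf ∈ A0 ∪ A' := Finset.mem_union_left _ (hS R.inf_mem)
  have hΨ := (hMk.mono (Finset.subset_union_left (s₂ := A')) le_rfl).sym hinf
    Finset.subset_union_right c
  have hb0 : ∀ {g : W}, (∀ a ∈ A', T.χ a g = c a) → ∀ x i, T.χ (q1 x i) g + T.χ (q0 i) g = 0 :=
    fun hg x i => by rw [hg _ (h1 x i).1, hg _ (h0 i), (h1 x i).2, F2_add_self]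
  have hr : ∀ {g : W} {n : H → F2}, Mk g n → (R.hat lam).rb g = 1 := fun hg => by
    rw [hat_rb, hsp _ _ hg, Matrix.fromBlocks_one]
  have hcj : ∀ x {g : W}, (R.hat lam).rb g = 1 → (∀ i, T.χ (q1 x i) g + T.χ (q0 i) g = 0) →
      (∀ B, B ≠ Finset.univ → Φ x B g = 0) →
      ∀ h B, Φ x B (h * g * h⁻¹) = ((R.hat lam).rb h).mulVec (Φ x B g) :=
    fun x g k1 k2 k3 h B => by
      rw [Lat.urel_conj (hβ x) (hΦ x) k1 (fun i _ => k2 i) h B B.subset_univ,
        uop_eq_top fun C hC => k3 C (hC.trans_le (Finset.subset_univ B)).ne]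
  have hadd : ∀ x {g : W}, (R.hat lam).rb g = 1 → (∀ i, T.χ (q1 x i) g + T.χ (q0 i) g = 0) →
      ∀ B h, Φ x B (g * h) = Φ x B g + Φ x B h := fun x g k1 k2 B h => by
    rw [hΦ x B B.subset_univ, k1, Matrix.one_mulVec, uop_of_zero fun i _ => k2 i]
  have hχ : ∀ a ∈ A', ∀ v ∉ A0 ∪ A', T.χ a (T.τ v) = 0 := fun a ha v hv =>
    T.χ_ne a v (fun h => hv (h ▸ Finset.mem_union_right _ ha)) fun h => hv (h ▸ hinf)
  have hcl : T.Cl (A0 ∪ A') (NU (Fintype.card ι) ^ Fintype.card X)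
      fun g x B => Φ x B g := Tame.cl_pi fun x =>
    (Lat.cl_urel (L := R.hat lam) (hS.trans Finset.subset_union_left) (hβ x) (fun i v hv => by
      rw [hχ _ (h1 x i).1 v hv, hχ _ (h0 i) v hv, add_zero]) (hΦ x) (hsm x) (hunr x)).mono
      subset_rfl le_rfl
  have hEv : (R.hat lam).MP (A0 ∪ A') _ fun g n => (Mk g n ∧ ∀ a ∈ A', T.χ a g = c a) ∧
      (∀ x B, B ≠ Finset.univ → Φ x B g = 0) ∧ 2 * Fintype.card X + 3 * s ≤
        3 * {x | bil (Φ x Finset.univ g) n + C x = 0}.ncard :=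
    ⟨hΨ.cl.comp₂ hcl fun ψ θ n => ψ n ∧ (∀ x B, B ≠ Finset.univ → θ x B = 0) ∧
      2 * Fintype.card X + 3 * s ≤ 3 * {x | bil (θ x Finset.univ) n + C x = 0}.ncard,
      fun g n h hg => by
        have k := fun x => hcj x (hr hg.1.1) (hb0 hg.1.2 x) (hg.2.1 x) h
        refine ⟨hΨ.eqv g n h hg.1, fun x B hB => by rw [k, hg.2.1 x B hB, Matrix.mulVec_zero], ?_⟩
        simp only [k, bil_rb]
        exact hg.2.2⟩
  have hdM : T.dM (fun g n => (Mk g n ∧ ∀ a ∈ A', T.χ a g = c a) ∧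
      (∀ x B, B ≠ Finset.univ → Φ x B g = 0) ∧ 2 * Fintype.card X + 3 * s ≤
        3 * {x | bil (Φ x Finset.univ g) n + C x = 0}.ncard) e ≤
      (2 : ℝ)⁻¹ ^ s * T.dM (fun g n => Mk g n ∧ ∀ a ∈ A', T.χ a g = c a) e := by
    rw [Tame.dM, Tame.dM, Finset.mul_sum]
    refine Finset.sum_le_sum fun n _ => ?_
    by_cases hex : ∃ g, Mk g n
    swap
    · rw [Tame.dens_false fun g _ hg => hex ⟨g, hg.1.1⟩]
      exact mul_nonneg (by positivity) Tame.dens_nonneg
    obtain ⟨g0, hg0⟩ := hex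
    choose h _ hh using fun x => (hn x g0 n hg0).exists_bil lam
    choose w hw hw' hw'' using fun t : X → F2 => comm_top (T := T) (Φ := Φ) (T.NC A0)
      (fun g hg k x => hadd x (Lat.rb_nc (L := R.hat lam) hS hg) fun i => k _ (hβ x i))
      (fun x B => (hΦ x).one (hβ x) B B.subset_univ)
      (n := fun x => ((R.hat lam).rb (h x)).mulVec (na x)) (z := fun x => h x * z x * (h x)⁻¹)
      (fun x => ⟨Tame.nc_normal.conj_mem _ (hz x).1 _,
        fun f hf => (Tame.hom_conj hf _ _).trans ((hz x).2.1 f hf), fun x' B => by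
          rw [hcj x' (Lat.rb_nc (L := R.hat lam) hS (hz x).1)
            (fun i => (hz x).2.1 _ (hβ x' i))
            (fun B hB => by rw [(hz x).2.2, if_neg fun k => hB k.1]), (hz x).2.2,
            apply_ite ((R.hat lam).rb (h x)).mulVec, Matrix.mulVec_zero]⟩) t Finset.univ
    refine Tame.dens_family_le (Tame.sm_comp hEv.cl.sm fun f => f n)
      (Tame.sm_comp hΨ.cl.sm fun f => f n) w (fun t => Tame.nc_deg (hw t)) (by positivity)
      (fun g _ t hg => ⟨?_, fun a ha => ?_⟩) fun g _ hg => ?_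
    · rw [← hMk.cl.nc g (hw t)]
      exact hg.1.1
    · rw [← hg.1.2 a ha, (T.χ_hom a).2, hw' _ _ (T.χ_hom a), add_zero]
    · refine le_trans (Nat.cast_le.2 (Set.ncard_le_ncard fun t ht => ?_))
        ((count_zeros (fun x => bil (Φ x Finset.univ g) n + C x) s).trans_eq (by simp))
      have k : ∀ x, bil (Φ x Finset.univ (g * w t)) n + C x =
          t x + (bil (Φ x Finset.univ g) n + C x) := fun x => by
        rw [hadd x (hr hg.1) (hb0 hg.2 x), hw'', if_pos ⟨rfl, Finset.mem_univ x⟩, comm_bil, hh]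
        ring
      simpa only [k, Set.mem_ofPred_eq] using ht.2.2
  have k1 := Lat.prM_upper hinf hEv he hs
  have k2 := Lat.prM_lower hinf hΨ he
    (hs.mono le_rfl (Nat.le_mul_of_pos_right _ (pow_pos (NU_pos _) _)) le_rfl)
  have k3 := mul_le_mul_of_nonneg_right hdM (by positivity : (0 : ℝ) ≤ (T.q : ℝ) ^ e / e)
  have k4 := mul_le_mul_of_nonneg_left k2 (by positivity : (0 : ℝ) ≤ (2 : ℝ)⁻¹ ^ s)
  refine le_of_eq_of_le ?_ (k1.trans (by linarith))
  simp only [Tame.PrM, Set.mem_ofPred_eq, and_assoc]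

end Rep

end

end Pool.Agent.Hyp
end

-- merged part: Pool.Agent.Work.MP_60d5ce_nt.Hy.Grid
section
/-!
# Grids of marked primes: definitions

`k + 2` marked primes vary: `b = none`, `a = some none`, and `i = some (some i)`.  All their invariants
are those of a reference point `y0`.  `Y j` is the set of choices for which the class `wy` lifts to
level `j`.
-/

namespace Pool.Agent.Hyp

open Pool.Agent.Quad

variable [Par]

open scoped Classical

noncomputable section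

variable {W P : Type} [Group W] {T : Tame W P}

/-- labels of the varying primes -/
abbrev Jx (k : ℕ) : Type := Option (Option (Fin k))

/-- marked primes -/
abbrev MPr (P : Type) : Type := P × (H → F2)

namespace Rep

variable (R : Rep T)

/-- the invariants of a marked element with respect to the places of `A0` -/
def key (A0 : Finset P) (g : W) (n : H → F2) :
    ℕ × Set (H → F2) × (P → Vb → F2 × F2) × (P → F2) :=
  (R.nf g, {n' | R.Orb n n'},
    fun u n' => if u ∈ A0 then (ee (R.ch u n' g) (p0 n), ee (R.ch u n' g) (p1 n)) else 0,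
    fun u => if u ∈ A0 then T.χ u g else 0)

/-- the values at the bad places of the cocycle of a marked prime -/
def clr (y : MPr P) : R.S → (H → F2) × (H → F2) :=
  fun s => (R.chH y.1 y.2 (T.σ s), R.chH y.1 y.2 (T.τ s))

end Rep

/-- the fixed data of one step -/
structure Env (R : Rep T) (k : ℕ) where
  lam : O
  A0 : Finset P
  Ot : Finset P
  x1 : W → F2
  w1 : W → H → F2
  y0 : Jx k → MPr P
  Ot_sub : Ot ⊆ A0
  Ot_S : ∀ v ∈ Ot, v ∉ R.S
  x1_hom : T.IsHom x1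
  ram : R.Ram x1 A0
  w1_mem : w1 ∈ (R.hat lam).Z1U A0
  y0_A : ∀ j, (y0 j).1 ∉ A0
  y0_inj : Function.Injective fun j => (y0 j).1
  y0_fx : ∀ j, (R.hat lam).Fx (T.σ (y0 j).1) (y0 j).2
  y0_free : ∀ i, R.Free (T.σ (y0 (some (some i))).1)
  y0_a : R.rb (T.σ (y0 (some none)).1) = 1
  y0_b : R.rb (T.σ (y0 none).1) = 1
  nd : R.Nondeg (y0 (some none)).2 (y0 none).2

/-- vertices of a grid -/
abbrev GV (k M : ℕ) : Type := Option (Fin k) × Fin M

/-- the coordinate of a point in a direction -/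
def coord {k M : ℕ} (x : Pt k M) : Option (Fin k) → Fin M
  | none => x.1
  | some i => x.2 i

/-- the primes of a point of the grid -/
def pt {k M : ℕ} (Z : GV k M → MPr P) (pb : MPr P) (x : Pt k M) : Jx k → MPr P
  | none => pb
  | some j => Z (j, coord x j)

/-- vertex of a cube -/
def mix {k M : ℕ} (e : Finset (Fin k)) (z0 z1 : Fin k → Fin M) : Fin k → Fin M :=
  fun i => if i ∈ e then z1 i else z0 i

/-- vertex of a cube with two sides -/
def vtx {k M : ℕ} (x0 x : Pt k M) (s : Bool) (e : Finset (Fin k)) : Pt k M :=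
  (if s then x.1 else x0.1, mix e x0.2 x.2)

/-- the directions in which two points differ -/
def Bx {k M : ℕ} (z0 z : Fin k → Fin M) : Finset (Fin k) := Finset.univ.filter fun i => z i ≠ z0 i

/-- the type of the data attached to a base point -/
abbrev Dt (W : Type) (k M : ℕ) : Type :=
  Pt k M × (Pt k M → Prop × (Finset (Fin k) → W → H → F2))

/-- the recorded difference of the two sides -/
def DPhi {k M : ℕ} (D : Dt W k M) (x : Pt k M) (B : Finset (Fin k)) : W → H → F2 :=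
  (D.2 (vtx D.1 x true B)).2 B

namespace Env

variable {R : Rep T} {k : ℕ} (E : Env R k)

/-- the degrees -/
def e (j : Jx k) : ℕ := T.dg (E.y0 j).1

/-- the unary conditions -/
def Mk (j : Jx k) (g : W) (n : H → F2) : Prop :=
  (R.hat E.lam).Fx g n ∧ R.key E.A0 g n = R.key E.A0 (T.σ (E.y0 j).1) (E.y0 j).2

/-- the mutual symbols -/
def s (j j' : Jx k) : F2 := T.χ (E.y0 j').1 (T.σ (E.y0 j).1)

/-- all the invariants are the prescribed ones -/
def Valid (y : Jx k → MPr P) : Prop :=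
  ValidOn (T.Un E.A0 E.e E.Mk) (T.Bi (fun _ _ => True) E.s) Finset.univ y

/-- the twist -/
def xy (y : Jx k → MPr P) (g : W) : F2 := E.x1 g + ∑ j, T.χ (y j).1 g

/-- the class with given marked primes `a`, `b` -/
def wab (a b : MPr P) (g : W) : H → F2 := E.w1 g + R.chH a.1 a.2 g + R.chH b.1 b.2 g

/-- the class -/
def wy (y : Jx k → MPr P) : W → H → F2 := E.wab (y (some none)) (y none)

/-- the places with a local condition -/
def Ay (y : Jx k → MPr P) : Finset P := E.A0 ∪ Finset.univ.image fun j => (y j).1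

/-- the value of the twist at the Frobenius of a fixed place -/
def xs (v : P) : F2 := E.xy E.y0 (T.σ v)

/-- the choices for which the class lifts to level `j` -/
def Y (j : ℕ) : Set (Jx k → MPr P) :=
  {y | E.Valid y ∧ R.clr (y none) = R.clr (E.y0 none) ∧
    (R.hat E.lam).Lifts (E.Ay y) (E.xy y) j (E.wy y)}

/-- the choices that lift to level `k + 2` with vanishing diagonal pairing -/
def YD : Set (Jx k → MPr P) := {y | y ∈ E.Y (k + 2) ∧ R.Diag E.lam (E.Ay y) (E.xy y) (k - 1)}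

/-- the chosen Selmer cocycle -/
def Psi (y : Jx k → MPr P) : W → H → O :=
  if h : (R.hat E.lam).Lifts (E.Ay y) (E.xy y) (k + 2) (E.wy y) then h.choose else 0

/-- the bound for the number of families -/
def Cfam (k Rb : ℕ) : ℕ := ((Rb * NV ^ (2 * k + 2)) ^ 2) ^ 2 ^ k

/-- the bound for the number of colours -/
def Ccol (k Rb : ℕ) : ℕ := Cfam k Rb * (NV ^ 4) ^ 2 ^ k

variable {M : ℕ}

/-- valid grids -/
def GridOK (Z : GV k M → MPr P) : Prop :=
  ValidOn (T.Un E.A0 (fun ν : GV k M => E.e (some ν.1)) fun ν => E.Mk (some ν.1))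
    (T.Bi (fun ν μ : GV k M => ν.1 ≠ μ.1) fun ν μ => E.s (some ν.1) (some μ.1)) Finset.univ Z

/-- valid last primes -/
def PbOK (Z : GV k M → MPr P) (pb : MPr P) : Prop :=
  T.Un E.A0 E.e E.Mk none pb ∧
    ∀ ν, pb.1 ≠ (Z ν).1 ∧ T.χ (Z ν).1 (T.σ pb.1) = E.s none (some ν.1)

theorem pb_finite (Z : GV k M → MPr P) : {pb | E.PbOK Z pb}.Finite :=
  ((T.dg_fin (E.e none)).prod Set.finite_univ).subset fun _ h => ⟨h.1.1, Set.mem_univ _⟩

/-- the valid last primes -/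
def PP (Z : GV k M → MPr P) : Finset (MPr P) := (E.pb_finite Z).toFinset

variable (Z : GV k M → MPr P) (pb : MPr P)

/-- the points of the grid that lift to level `j` -/
def YG (j : ℕ) : Finset (Pt k M) := Finset.univ.filter fun x => pt Z pb x ∈ E.Y j

/-- the points of the grid in `YD` -/
def YDG : Finset (Pt k M) := Finset.univ.filter fun x => pt Z pb x ∈ E.YD

/-- the cocycles on a cube -/
def cψ (α : Fin M) (z0 z1 : Fin k → Fin M) (e : Finset (Fin k)) : W → H → O :=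
  E.Psi (pt Z pb (α, mix e z0 z1))

/-- the two primes that carry a mark -/
def ab (_E : Env R k) (Z : GV k M → MPr P) (pb : MPr P) (α : Fin M) (s : Bool) : P :=
  if s then (Z (none, α)).1 else pb.1

/-- consistent cubes -/
structure Cons (Y'' : Finset (Pt k M)) (B : Finset (Fin k)) (α : Fin M) (z0 z1 : Fin k → Fin M) :
    Prop where
  diag : ∀ i ∉ B, z1 i = z0 i
  mem : ∀ e ⊆ B, (α, mix e z0 z1) ∈ Y''
  gr : ∀ B' ⊆ B, ∀ g, VD B'.card (Dl B' fun e => E.cψ Z pb α z0 z1 e g)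
  own : ∀ B' ⊆ B, B'.Nonempty → ∀ s, Th (E.cψ Z pb α z0 z1) B' (T.τ (E.ab Z pb α s)) = 0

/-- the colour of a cube -/
def col (B : Finset (Fin k)) (α : Fin M) (z0 z1 : Fin k → Fin M) :
    (Finset (Fin k) → W → H → F2) × (Finset (Fin k) → Bool → H → F2) :=
  (fun B' => if B' ⊆ B then Th (E.cψ Z pb α z0 z1) B' else 0,
    fun B' s => if B' ⊆ B then
      digV (B'.card + 1) (Dl B' fun e => E.cψ Z pb α z0 z1 e (T.τ (E.ab Z pb α s))) else 0)

/-- the cube from `x0` to `y` on the side of `y` is consistent -/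
def ok (x0 y : Pt k M) : Prop := E.Cons Z pb (E.YG Z pb (k + 2)) (Bx x0.2 y.2) y.1 x0.2 y.2

/-- the difference of the two sides -/
def Phi (x0 y : Pt k M) : Finset (Fin k) → W → H → F2 :=
  if E.ok Z pb x0 y ∧ E.ok Z pb x0 (x0.1, y.2) then
    fun B => if B ⊆ Bx x0.2 y.2 then
      fun g => Th (E.cψ Z pb y.1 x0.2 y.2) B g + Th (E.cψ Z pb x0.1 x0.2 y.2) B g else 0
  else 0

/-- the data attached to a base point -/
def dat (x0 : Pt k M) : Dt W k M :=
  (x0, fun y => if y ∈ Quad.star x0 then (E.ok Z pb x0 y, E.Phi Z pb x0 y) else (False, 0))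

/-- all the data -/
def DD : Finset (Dt W k M) := (E.PP Z ×ˢ Finset.univ).image fun z => E.dat Z z.1 z.2

/-- the characters of a cube -/
def βx (_E : Env R k) (Z : GV k M → MPr P) (z0 z1 : Fin k → Fin M) (i : Fin k) (g : W) : F2 :=
  T.χ (Z (some i, z1 i)).1 g + T.χ (Z (some i, z0 i)).1 g

/-- the free primes of a cube -/
def cubeF (_E : Env R k) (Z : GV k M → MPr P) (z0 z1 : Fin k → Fin M) : Finset P :=
  (Finset.univ.image fun i => (Z (some i, z0 i)).1) ∪ Finset.univ.image fun i => (Z (some i, z1 i)).1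

/-- `Φs` completes the recorded family -/
structure Compl (D : Dt W k M) (x : Pt k M) (Φs : W → H → F2) : Prop where
  sm : T.Sm Φs
  rel : (R.hat E.lam).URel (E.βx Z D.1.2 x.2) Finset.univ fun B g =>
    if B = Finset.univ then Φs g else DPhi D x B g
  unr : ∀ v ∉ E.A0 ∪ E.cubeF Z D.1.2 x.2, Φs (T.τ v) = 0

/-- the tops that can be completed -/
def Yp (D : Dt W k M) : Finset (Pt k M) :=
  Finset.univ.filter fun x => x ∉ Quad.star D.1 ∧
    (∀ s e, (s = true → e ≠ Finset.univ) → (D.2 (vtx D.1 x s e)).1) ∧ ∃ Φs, E.Compl Z D x Φs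

/-- the chosen completion -/
def Phs (D : Dt W k M) (x : Pt k M) : W → H → F2 :=
  if h : ∃ Φs, E.Compl Z D x Φs then h.choose else 0

/-- the constant, independent of the last prime -/
def Cst (i0 : Fin k) (D : Dt W k M) (x : Pt k M) : F2 :=
  ∑ v ∈ E.A0, (∑ B ∈ (Finset.univ.filter fun B : Finset (Fin k) => i0 ∈ B ∧ B ≠ Finset.univ),
      R.br v (fun g => p1 (DPhi D x B g)) (fun g => p0 (DPhi D x Bᶜ g)) +
    R.br v (fun g => p0 (E.Phs Z D x g)) (fun g => p1 (E.wab (Z (none, x.1)) (E.y0 none) g)) +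
    R.br v (fun g => p1 (E.Phs Z D x g)) fun g => p0 (E.wab (Z (none, D.1.1)) (E.y0 none) g)) +
  ee (p0 (E.Phs Z D x (T.σ (Z (none, x.1)).1))) (p1 (Z (none, x.1)).2) +
  ee (p1 (E.Phs Z D x (T.σ (Z (none, D.1.1)).1))) (p0 (Z (none, D.1.1)).2)

/-- the equation forced on the last prime -/
def zero (i0 : Fin k) (D : Dt W k M) (x : Pt k M) (pb : MPr P) : Prop :=
  bil (E.Phs Z D x (T.σ pb.1)) pb.2 + E.Cst Z i0 D x = 0

end Env

end

end Pool.Agent.Hyp
end

-- merged part: Pool.Agent.Work.MP_60d5ce_nt.Hy.GridA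
section
/-!
# Grids of marked primes: symbols, marks, the chosen cocycles  (task QT GridA)

Template `Sm/GridA.lean`.  Two characters `χ p`, `χ p'` with `dg p = dg p'` agree on `D v` as soon as they agree
at `σ v` and `τ v` (`hom_eq_on_D`); at `v = inf` use `χ_inf` and `chi_tau_inf`, elsewhere `chi_symm` and
`χ_ne`.  `key_mp`: the condition is a function of `rb g`, of the values `ch u n' g` (`u ∈ A0`, `n'` in `Vb`,
`ch_mem`, `cl_z1'`) and of `χ u g`; the index is at most `16 * 64 ^ (4 * card) * 2 ^ card`; equivariance by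
`fx_conj`, `nf_conj`, `orb_rb`, `ee_conj`, `hom_conj`.
-/

namespace Pool.Agent.Hyp

open Pool.Agent.Quad

variable [Par]

open scoped Classical

noncomputable section

variable {W P : Type} [Group W] {T : Tame W P}

section comb

variable {k M : ℕ}

theorem mix_empty (z0 z1 : Fin k → Fin M) : mix ∅ z0 z1 = z0 := by
  funext i
  simp [mix]

theorem mix_univ (z0 z1 : Fin k → Fin M) : mix Finset.univ z0 z1 = z1 := by
  funext i
  simp [mix]

theorem mix_mix {e B : Finset (Fin k)} (h : e ⊆ B) (z0 z1 : Fin k → Fin M) :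
    mix e z0 (mix B z0 z1) = mix e z0 z1 := by
  funext i
  by_cases hi : i ∈ e
  · simp [mix, hi, h hi]
  · simp [mix, hi]

theorem not_mem_star {x0 x : Pt k M} : x ∉ Quad.star x0 ↔ ∀ j, coord x j ≠ coord x0 j := by
  simp only [Quad.star, Finset.mem_filter, Finset.mem_univ, true_and, not_or, not_exists]
  constructor
  · rintro ⟨h1, h2⟩ (_ | i)
    · exact h1
    · exact h2 i
  · exact fun h => ⟨h none, fun i => h (some i)⟩

theorem Bx_mix {x0 x : Pt k M} (h : x ∉ Quad.star x0) (e : Finset (Fin k)) :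
    Bx x0.2 (mix e x0.2 x.2) = e := by
  ext i
  have : x.2 i ≠ x0.2 i := not_mem_star.1 h (some i)
  by_cases hi : i ∈ e
  · simpa [Bx, mix, hi] using this
  · simp [Bx, mix, hi]

theorem vtx_mem_star (x0 x : Pt k M) {s : Bool} {e : Finset (Fin k)}
    (h : s = true → e ≠ Finset.univ) : vtx x0 x s e ∈ Quad.star x0 := by
  simp only [Quad.star, Finset.mem_filter, Finset.mem_univ, true_and, vtx]
  cases s
  · exact Or.inl rfl
  · obtain ⟨i, hi⟩ : ∃ i, i ∉ e := by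
      by_contra hn
      exact h rfl (Finset.eq_univ_of_forall fun i => by_contra fun hi => hn ⟨i, hi⟩)
    exact Or.inr ⟨i, by simp [mix, hi]⟩

theorem vtx_top (x0 x : Pt k M) : vtx x0 x true Finset.univ = x := by
  simp [vtx, mix_univ]

end comb

theorem Rep.key_mp {R : Rep T} {A0 : Finset P} (hS : R.S ⊆ A0) (lam : O)
    (κ : ℕ × Set (H → F2) × (P → Vb → F2 × F2) × (P → F2)) :
    (R.hat lam).MP A0 (NN A0.card) fun g n => (R.hat lam).Fx g n ∧ R.key A0 g n = κ := by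
  constructor
  · have c1 := Rep.cl_rb' hS
    have c2 : T.Cl A0 ((NM * NV) ^ Fintype.card (A0 × Vb)) fun g (p : A0 × Vb) => R.ch p.1 p.2 g :=
      Tame.cl_pi fun p => (Rep.cl_z1' hS (w := R.ch p.1 p.2) (Rep.z1U_mono
        (Finset.insert_subset p.1.2 hS) (Rep.ch_mem (R := R) p.1 p.2))).comp Prod.snd
    have c3 : T.Cl A0 (2 ^ Fintype.card A0) fun g (u : A0) => T.χ u g :=
      Tame.cl_pi fun u => Tame.cl_chi (hS R.inf_mem) u.2
    obtain ⟨U, hU, hN, hτ, h⟩ := (c1.comp₂ c2 Prod.mk).comp₂ c3 Prod.mk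
    refine ⟨U, hU, hN.trans ?_, hτ, fun g u hu => ?_⟩
    · rw [Fintype.card_prod, Fintype.card_coe, card_Vb, mul_right_comm]
      exact (Nat.mul_le_mul_right _ (Nat.le_mul_of_pos_right _ NM_pos)).trans (NN_bound le_rfl)
    · have h0 := h g u hu
      simp only [Prod.mk.injEq] at h0
      obtain ⟨⟨h1, h2⟩, h3⟩ := h0
      funext n
      have e1 : R.key A0 (g * u) n = R.key A0 g n := by
        refine Prod.ext (Rep.nf_congr h1) (Prod.ext rfl (Prod.ext ?_ ?_))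
        · funext v n'
          by_cases hv : v ∈ A0
          · have h4 : R.ch v n' (g * u) = R.ch v n' g := congrFun h2 (⟨v, hv⟩, n')
            simp only [Rep.key, h4]
          · simp only [Rep.key, if_neg hv]
        · funext v
          by_cases hv : v ∈ A0
          · have h4 : T.χ v (g * u) = T.χ v g := congrFun h3 ⟨v, hv⟩
            simp only [Rep.key, h4]
          · simp only [Rep.key, if_neg hv]
      simp only [e1, Lat.Fx, Rep.hat_rb, h1]
  · rintro g n h ⟨h1, rfl⟩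
    obtain ⟨h2, h3⟩ := Rep.hat_fx_iff.1 h1
    refine ⟨Rep.hat_fx_iff.2 ⟨?_, ?_⟩,
      Prod.ext (Rep.nf_conj g h) (Prod.ext ?_ (Prod.ext ?_ ?_))⟩
    · rw [Rep.p0_rb]
      exact Rep.fx_conj h2 h
    · rw [Rep.p1_rb]
      exact Rep.fx_conj h3 h
    · exact Set.ext fun n' =>
        ⟨(Rep.orb_rb lam h n).trans, (Rep.orb_rb lam h n).symm.trans⟩
    · funext v n'
      simp only [Rep.key, Rep.p0_rb, Rep.p1_rb, Rep.ee_conj (Rep.ch_mem v n').1 h2,
        Rep.ee_conj (Rep.ch_mem v n').1 h3]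
    · funext v
      simp only [Rep.key, Tame.hom_conj (T.χ_hom v)]

namespace Env

variable {R : Rep T} {k : ℕ} {E : Env R k}

theorem S_sub : R.S ⊆ E.A0 := E.ram.1

theorem inf_mem_A0 : T.inf ∈ E.A0 := S_sub R.inf_mem

theorem ne_inf {v : P} (hv : v ∉ E.A0) : v ≠ T.inf := fun h => hv (h ▸ inf_mem_A0)

theorem e_pos (j : Jx k) : 0 < E.e j := T.dg_pos _

theorem mk_mp (j : Jx k) : (R.hat E.lam).MP E.A0 (NN E.A0.card) (E.Mk j) :=
  Rep.key_mp S_sub _ _

theorem s_symm {i j : Jx k} (h : i ≠ j) :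
    E.s i j = E.s j i + T.eps * (E.e i : F2) * (E.e j : F2) := by
  rw [mul_right_comm]
  exact Tame.chi_symm (ne_inf (E.y0_A j)) (ne_inf (E.y0_A i)) fun e => h (E.y0_inj e).symm

section mk

variable {j : Jx k} {g : W} {n : H → F2}

theorem Mk.nf (h : E.Mk j g n) : R.nf g = R.nf (T.σ (E.y0 j).1) := by
  exact congrArg Prod.fst h.2

theorem Mk.orb (h : E.Mk j g n) : R.Orb (E.y0 j).2 n := by
  have h1 : {n' | R.Orb n n'} = {n' | R.Orb (E.y0 j).2 n'} := congrArg (fun z => z.2.1) h.2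
  exact (Set.ext_iff.1 h1 n).1 (Rep.Orb.refl n)

theorem Mk.test (h : E.Mk j g n) {u : P} (hu : u ∈ E.A0) (n' : Vb) :
    ee (R.ch u n' g) (p0 n) = ee (R.ch u n' (T.σ (E.y0 j).1)) (p0 (E.y0 j).2) ∧
      ee (R.ch u n' g) (p1 n) = ee (R.ch u n' (T.σ (E.y0 j).1)) (p1 (E.y0 j).2) := by
  have h1 := congrFun (congrFun (congrArg (fun z => z.2.2.1) h.2) u) n'
  simpa only [Rep.key, if_pos hu, Prod.mk.injEq] using h1

theorem Mk.chi (h : E.Mk j g n) {u : P} (hu : u ∈ E.A0) : T.χ u g = T.χ u (T.σ (E.y0 j).1) := by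
  have h1 := congrFun (congrArg (fun z => z.2.2.2) h.2) u
  simpa only [Rep.key, if_pos hu] using h1

theorem Mk.free {i : Fin k} (h : E.Mk (some (some i)) g n) : R.Free g := by
  exact Rep.nf_eq_one.1 (h.nf.trans (Rep.nf_eq_one.2 (E.y0_free i)))

theorem Mk.split_a (h : E.Mk (some none) g n) : R.rb g = 1 := by
  exact Rep.nf_eq_four.1 (h.nf.trans (Rep.nf_eq_four.2 E.y0_a))

theorem Mk.split_b (h : E.Mk none g n) : R.rb g = 1 := by
  exact Rep.nf_eq_four.1 (h.nf.trans (Rep.nf_eq_four.2 E.y0_b))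

theorem Mk.nondeg {g' : W} {n' : H → F2} (h : E.Mk (some none) g n) (h' : E.Mk none g' n') :
    R.Nondeg n n' := by
  exact E.nd.orb h.orb h'.orb

end mk

theorem valid_y0 : E.Valid E.y0 := by
  exact ⟨fun j _ => ⟨rfl, E.y0_A j, E.y0_fx j, rfl⟩,
    fun i _ j _ hij => ⟨fun h => hij (E.y0_inj h), fun _ => rfl⟩⟩

theorem dM_pos (j : Jx k) : 0 < T.dM (E.Mk j) (E.e j) := by
  exact Tame.dM_pos (mk_mp j).cl.sm (T.deg_σ _) (n := (E.y0 j).2) ⟨E.y0_fx j, rfl⟩

/-- a prime with the invariants of `y0 j` has the same character on the local groups of `A0` -/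
theorem chi_un {j : Jx k} {y : MPr P} (h : T.Un E.A0 E.e E.Mk j y) {v : P} (hv : v ∈ E.A0) :
    ∀ g ∈ T.D v, T.χ y.1 g = T.χ (E.y0 j).1 g := by
  have h1 := ne_inf h.2.1
  have h2 := ne_inf (E.y0_A j)
  have h3 : y.1 ≠ v := fun e => h.2.1 (e ▸ hv)
  have h4 : (E.y0 j).1 ≠ v := fun e => E.y0_A j (e ▸ hv)
  have h5 : T.dg y.1 = T.dg (E.y0 j).1 := h.1
  by_cases hi : v = T.inf
  · subst hi
    exact Tame.hom_eq_on_D (T.χ_hom _) (T.χ_hom _) (by rw [T.χ_inf, T.χ_inf])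
      (by rw [Tame.chi_tau_inf h1, Tame.chi_tau_inf h2, h5])
  · exact Tame.hom_eq_on_D (T.χ_hom _) (T.χ_hom _)
      (by rw [Tame.chi_symm h1 hi h3, Tame.chi_symm h2 hi h4, h.2.2.chi hv, h5])
      (by rw [T.χ_ne _ _ h3.symm hi, T.χ_ne _ _ h4.symm hi])

theorem S_sub_Ay (y : Jx k → MPr P) : R.S ⊆ E.Ay y := by
  exact fun v hv => Finset.mem_union_left _ (S_sub hv)

theorem xy_hom (y : Jx k → MPr P) : T.IsHom (E.xy y) := by
  exact Tame.hom_add E.x1_hom (Tame.hom_sum Finset.univ fun j _ => T.χ_hom (y j).1)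

theorem xy_unr (y : Jx k → MPr P) : ∀ v ∉ E.Ay y, E.xy y (T.τ v) = 0 := by
  intro v hv
  simp only [Ay, Finset.mem_union, Finset.mem_image, Finset.mem_univ, true_and, not_or,
    not_exists] at hv
  rw [xy, E.ram.2.2 v hv.1,
    Finset.sum_eq_zero fun j _ => T.χ_ne _ v (Ne.symm (hv.2 j)) (ne_inf hv.1), add_zero]

theorem wab_mem (a b : MPr P) :
    E.wab a b ∈ (R.hat E.lam).Z1U (insert a.1 (insert b.1 E.A0)) := by
  have ha := Rep.chH_mem (R := R) (lam := E.lam) a.1 a.2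
  have hb := Rep.chH_mem (R := R) (lam := E.lam) b.1 b.2
  refine ⟨(E.w1_mem.1.add ha.1).add hb.1, fun v hv => ?_⟩
  simp only [Finset.mem_insert, not_or] at hv
  rw [wab, E.w1_mem.2 v hv.2.2,
    ha.2 v fun h => (Finset.mem_insert.1 h).elim hv.1 fun h => hv.2.2 (S_sub h),
    hb.2 v fun h => (Finset.mem_insert.1 h).elim hv.2.1 fun h => hv.2.2 (S_sub h),
    add_zero, add_zero]

theorem valid_finite : {y | E.Valid y}.Finite := by
  exact (Set.Finite.pi' fun j => (T.dg_fin (E.e j)).prod (Set.finite_univ (α := H → F2))).subset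
    fun y hy j => ⟨(hy.1 j (Finset.mem_univ _)).1, Set.mem_univ _⟩

theorem Y_anti {i j : ℕ} (h : i ≤ j) : E.Y j ⊆ E.Y i := by
  exact fun y hy => ⟨hy.1, hy.2.1, hy.2.2.mono h⟩

section valid

variable {y : Jx k → MPr P}

theorem Valid.un (h : E.Valid y) (j : Jx k) : T.Un E.A0 E.e E.Mk j (y j) :=
  h.1 j (Finset.mem_univ _)

theorem Valid.notMem (h : E.Valid y) (j : Jx k) : (y j).1 ∉ E.A0 := (h.un j).2.1

theorem Valid.notMem_S (h : E.Valid y) (j : Jx k) : (y j).1 ∉ R.S :=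
  fun hs => h.notMem j (S_sub hs)

theorem Valid.inj (h : E.Valid y) : Function.Injective fun j => (y j).1 := by
  intro i j hij
  by_contra hne
  exact (h.2 i (Finset.mem_univ _) j (Finset.mem_univ _) hne).1 hij

theorem Valid.xy_τ (h : E.Valid y) (j : Jx k) : E.xy y (T.τ (y j).1) = 1 := by
  have hi := ne_inf (h.notMem j)
  rw [xy, E.ram.2.2 _ (h.notMem j), zero_add, Finset.sum_eq_single j
    (fun i _ hij => T.χ_ne _ _ (fun e => hij (h.inj e).symm) hi) (by simp), T.χ_self _ hi]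

theorem Valid.ram (h : E.Valid y) : R.Ram (E.xy y) (E.Ay y) := by
  refine ⟨S_sub_Ay y, fun v hv hS => ?_, xy_unr y⟩
  rcases Finset.mem_union.1 hv with h1 | h1
  · rw [xy, E.ram.2.1 v h1 hS, Finset.sum_eq_zero fun j _ => T.χ_ne (y j).1 v
      (fun e => h.notMem j (e ▸ h1)) fun e => hS (e ▸ R.inf_mem), add_zero]
  · obtain ⟨j, -, rfl⟩ := Finset.mem_image.1 h1
    exact h.xy_τ j

theorem Valid.xy_A0 (h : E.Valid y) {v : P} (hv : v ∈ E.A0) :
    ∀ g ∈ T.D v, E.xy y g = E.xy E.y0 g := by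
  intro g hg
  rw [xy, xy, Finset.sum_congr rfl fun j _ => chi_un (h.un j) hv g hg]

theorem Valid.xy_σ (h : E.Valid y) {v : P} (hv : v ∈ E.A0) : E.xy y (T.σ v) = E.xs v := by
  exact h.xy_A0 hv _ (Tame.σ_mem v)

theorem GridA_chH (h : E.Valid y) {i j : Jx k} (hij : j ≠ i) :
    R.chH (y i).1 (y i).2 (T.τ (y j).1) = 0 :=
  (Rep.chH_mem (R := R) (lam := E.lam) _ _).2 _ fun h1 =>
    (Finset.mem_insert.1 h1).elim (fun e => hij (h.inj e)) (h.notMem_S j)

theorem Valid.wy_τ_a (h : E.Valid y) : E.wy y (T.τ (y (some none)).1) = (y (some none)).2 := by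
  rw [wy, wab, E.w1_mem.2 _ (h.notMem _), Rep.chH_tau (h.notMem_S _) (h.un _).2.2.1,
    GridA_chH h (i := none) (by simp), zero_add, add_zero]

theorem Valid.wy_τ_b (h : E.Valid y) : E.wy y (T.τ (y none).1) = (y none).2 := by
  rw [wy, wab, E.w1_mem.2 _ (h.notMem _), Rep.chH_tau (h.notMem_S none) (h.un _).2.2.1,
    GridA_chH h (i := some none) (by simp), zero_add, zero_add]

theorem Valid.wy_τ (h : E.Valid y) (j : Jx k) : E.wy y (T.τ (y j).1) = (y j).2 := by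
  rcases j with _ | _ | i
  · exact h.wy_τ_b
  · exact h.wy_τ_a
  · rw [wy, wab, E.w1_mem.2 _ (h.notMem _), GridA_chH h (by simp), GridA_chH h (by simp),
      add_zero, add_zero]
    exact (Rep.hat_free (h.un _).2.2.free _ (h.un _).2.2.1).symm

theorem Psi_spec (h : y ∈ E.Y (k + 2)) :
    (R.hat E.lam).Sel (E.Ay y) (E.xy y) (k + 2) (E.Psi y) ∧
      ∀ g, digV 0 (E.Psi y g) = E.wy y g := by
  rw [Psi, dif_pos h.2.2]
  exact h.2.2.choose_spec

end valid

variable {M : ℕ} {Z : GV k M → MPr P} {pb : MPr P}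

theorem mem_PP : pb ∈ E.PP Z ↔ E.PbOK Z pb := by
  simp [PP]

theorem GridOK.un (hZ : E.GridOK Z) (ν : GV k M) : T.Un E.A0 E.e E.Mk (some ν.1) (Z ν) :=
  hZ.1 ν (Finset.mem_univ _)

theorem GridOK.inj (hZ : E.GridOK Z) : Function.Injective fun ν => (Z ν).1 := by
  intro i j hij
  by_contra hne
  exact (hZ.2 i (Finset.mem_univ _) j (Finset.mem_univ _) hne).1 hij

theorem GridOK.notMem (hZ : E.GridOK Z) (ν : GV k M) : (Z ν).1 ∉ E.A0 := (hZ.un ν).2.1

theorem GridOK.free (hZ : E.GridOK Z) (i : Fin k) (m : Fin M) :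
    R.Free (T.σ (Z (some i, m)).1) := (hZ.un (some i, m)).2.2.free

theorem valid_pt (hZ : E.GridOK Z) (hp : E.PbOK Z pb) (x : Pt k M) : E.Valid (pt Z pb x) := by
  refine ⟨?_, ?_⟩
  · rintro (_ | j) -
    · exact hp.1
    · exact hZ.1 (j, coord x j) (Finset.mem_univ _)
  · rintro (_ | j) - (_ | j') - hne
    · exact absurd rfl hne
    · exact ⟨(hp.2 _).1, fun _ => (hp.2 (j', coord x j')).2⟩
    · refine ⟨(hp.2 _).1.symm, fun _ => ?_⟩
      have h1 : T.dg pb.1 = E.e none := hp.1.1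
      have h2 : T.dg (Z (j, coord x j)).1 = E.e (some j) := (hZ.un (j, coord x j)).1
      rw [s_symm hne, ← (hp.2 (j, coord x j)).2, mul_right_comm, ← h1, ← h2]
      exact Tame.chi_symm (ne_inf hp.1.2.1) (ne_inf (hZ.notMem _)) (hp.2 _).1
    · have hj : j ≠ j' := fun e => hne (congrArg some e)
      have := hZ.2 (j, coord x j) (Finset.mem_univ _) (j', coord x j') (Finset.mem_univ _)
        fun e => hj (congrArg Prod.fst e)
      exact ⟨this.1, fun _ => this.2 hj⟩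

theorem chi_eq_A0 (hZ : E.GridOK Z) (j : Option (Fin k)) (m m' : Fin M) {v : P} (hv : v ∈ E.A0) :
    ∀ g ∈ T.D v, T.χ (Z (j, m)).1 g = T.χ (Z (j, m')).1 g := by
  exact fun g hg => (chi_un (hZ.un (j, m)) hv g hg).trans (chi_un (hZ.un (j, m')) hv g hg).symm

theorem chi_eq_pb (hZ : E.GridOK Z) (hp : E.PbOK Z pb) (j : Option (Fin k)) (m m' : Fin M) :
    ∀ g ∈ T.D pb.1, T.χ (Z (j, m)).1 g = T.χ (Z (j, m')).1 g := by
  have hi := ne_inf hp.1.2.1
  exact Tame.hom_eq_on_D (T.χ_hom _) (T.χ_hom _) ((hp.2 (j, m)).2.trans (hp.2 (j, m')).2.symm)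
    ((T.χ_ne _ _ (hp.2 _).1 hi).trans (T.χ_ne _ _ (hp.2 _).1 hi).symm)

theorem chi_eq_Z (hZ : E.GridOK Z) (j : Option (Fin k)) (m m' : Fin M) {ν : GV k M}
    (h : ν.1 ≠ j) : ∀ g ∈ T.D (Z ν).1, T.χ (Z (j, m)).1 g = T.χ (Z (j, m')).1 g := by
  have hi := ne_inf (hZ.notMem ν)
  have h1 := fun m => hZ.2 ν (Finset.mem_univ _) (j, m) (Finset.mem_univ _)
    fun e => h (congrArg Prod.fst e)
  exact Tame.hom_eq_on_D (T.χ_hom _) (T.χ_hom _) (((h1 m).2 h).trans ((h1 m').2 h).symm)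
    ((T.χ_ne _ _ (h1 m).1 hi).trans (T.χ_ne _ _ (h1 m').1 hi).symm)

theorem xy_eq_D (hZ : E.GridOK Z) (hp : E.PbOK Z pb) (x x' : Pt k M) {v : P}
    (hv : v ∈ E.A0 ∨ v = pb.1 ∨ ∃ ν, v = (Z ν).1 ∧ coord x ν.1 = coord x' ν.1) :
    ∀ g ∈ T.D v, E.xy (pt Z pb x) g = E.xy (pt Z pb x') g := by
  intro g hg
  rw [xy, xy]
  refine congrArg _ (Finset.sum_congr rfl ?_)
  rintro (_ | j) -
  · rfl
  · rcases hv with hv | rfl | ⟨ν, rfl, hν⟩
    · exact chi_eq_A0 hZ j _ _ hv g hg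
    · exact chi_eq_pb hZ hp j _ _ g hg
    · by_cases hj : ν.1 = j
      · simp only [pt, ← hj, hν]
      · exact chi_eq_Z hZ j _ _ hj g hg

theorem xy_mix (α : Fin M) (z0 z1 : Fin k → Fin M) (e : Finset (Fin k)) :
    E.xy (pt Z pb (α, mix e z0 z1)) = xe (E.xy (pt Z pb (α, z0))) (E.βx Z z0 z1) e := by
  funext g
  have h1 : ∀ i, T.χ (Z (some i, mix e z0 z1 i)).1 g =
      T.χ (Z (some i, z0 i)).1 g + if i ∈ e then E.βx Z z0 z1 i g else 0 := fun i => by
    by_cases hi : i ∈ e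
    · rw [mix, if_pos hi, if_pos hi, βx, add_left_comm, F2_add_self, add_zero]
    · rw [mix, if_neg hi, if_neg hi, add_zero]
  simp only [xy, xe, Fintype.sum_option, pt, coord, h1, Finset.sum_add_distrib,
    Finset.sum_ite_mem, Finset.univ_inter]
  ring

theorem wy_pt (x : Pt k M) : E.wy (pt Z pb x) = E.wab (Z (none, x.1)) pb := rfl

theorem mem_Ay_pt {x : Pt k M} {v : P} :
    v ∈ E.Ay (pt Z pb x) ↔ v ∈ E.A0 ∨ v = pb.1 ∨ ∃ j, v = (Z (j, coord x j)).1 := by
  simp only [Ay, Finset.mem_union, Finset.mem_image, Finset.mem_univ, true_and]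
  refine or_congr_right ⟨?_, ?_⟩
  · rintro ⟨_ | j, rfl⟩
    · exact Or.inl rfl
    · exact Or.inr ⟨j, rfl⟩
  · rintro (rfl | ⟨j, rfl⟩)
    · exact ⟨none, rfl⟩
    · exact ⟨some j, rfl⟩

theorem βx_hom (z0 z1 : Fin k → Fin M) (i : Fin k) : T.IsHom (E.βx Z z0 z1 i) := by
  exact Tame.hom_add (T.χ_hom _) (T.χ_hom _)

theorem βx_zero (hZ : E.GridOK Z) (hp : E.PbOK Z pb) (z0 z1 : Fin k → Fin M) (i : Fin k) {v : P}
    (hv : v ∈ E.A0 ∨ v = pb.1 ∨ ∃ ν, v = (Z ν).1 ∧ ν.1 ≠ some i) :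
    ∀ g ∈ T.D v, E.βx Z z0 z1 i g = 0 := by
  intro g hg
  have h1 : T.χ (Z (some i, z1 i)).1 g = T.χ (Z (some i, z0 i)).1 g := by
    rcases hv with hv | rfl | ⟨ν, rfl, hν⟩
    · exact chi_eq_A0 hZ _ _ _ hv g hg
    · exact chi_eq_pb hZ hp _ _ _ g hg
    · exact chi_eq_Z hZ _ _ _ hν g hg
  rw [βx, h1, F2_add_self]

theorem mem_cubeF {z0 z1 : Fin k → Fin M} {v : P} : v ∈ E.cubeF Z z0 z1 ↔
    ∃ i, v = (Z (some i, z0 i)).1 ∨ v = (Z (some i, z1 i)).1 := by
  simp only [cubeF, Finset.mem_union, Finset.mem_image, Finset.mem_univ, true_and, exists_or,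
    eq_comm (a := v)]

theorem card_cubeF (z0 z1 : Fin k → Fin M) : (E.cubeF Z z0 z1).card ≤ 2 * k := by
  refine (Finset.card_union_le _ _).trans
    ((Nat.add_le_add Finset.card_image_le Finset.card_image_le).trans ?_)
  rw [Finset.card_univ, Fintype.card_fin, two_mul]

theorem chi_τ (hZ : E.GridOK Z) (ν μ : GV k M) :
    T.χ (Z ν).1 (T.τ (Z μ).1) = if ν = μ then 1 else 0 := by
  have hi := ne_inf (hZ.notMem μ)
  split_ifs with h
  · rw [h, T.χ_self _ hi]
  · exact T.χ_ne _ _ (fun e => h (hZ.inj e).symm) hi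

end Env

end

end Pool.Agent.Hyp
end

-- merged part: Pool.Agent.Work.MP_60d5ce_nt.Hy.BoxB
section
/-!
# From a box to the data of one step  (task QT BoxB)

Template `Sm/BoxB.lean`.  A pair `z = (p, w)` gives marked primes `yz z` at the labels; `bkey z` records the other primes, the
class `w1 z` without the two marked primes, the invariants `key` and the mutual symbols.  For a reference pair
`z0`, `yz` is a bijection from the pairs with the key of `z0` onto the valid points of `benv z0`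
(inverse: `p = Function.extend lab (fun j => (y j).1) z0.1`, `w = wy y`).  The symbol of `p (lab j)` with `p i`, `i ∈ cmp lab`,
is part of `key`.  `gs_eq`: `G1_free` (the primes at the labels `some (some i)` are free), `G1_congr`, `Valid.xy_σ`.
-/

namespace Pool.Agent.Hyp

open Pool.Agent.Quad

variable [Par]

open scoped Classical

noncomputable section

variable {W P : Type} [Group W] {T : Tame W P}

/-- the indices that do not vary -/
def cmp {ι : Type} [Fintype ι] {k : ℕ} (lab : Jx k → ι) : Finset ι :=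
  Finset.univ.filter fun i => ∀ j, lab j ≠ i

/-- labels with the right types -/
structure Lab {ι : Type} {k : ℕ} (ty : ι → ℕ) (lab : Jx k → ι) : Prop where
  inj : Function.Injective lab
  b : ty (lab none) = NV
  a : ty (lab (some none)) = NV
  free : ∀ i, ty (lab (some (some i))) = 1

section cmp

variable {ι : Type} [Fintype ι] {k : ℕ} {lab : Jx k → ι}

theorem BoxB_mem {i : ι} : i ∈ cmp lab ↔ ∀ j, lab j ≠ i := by
  simp [cmp]

theorem BoxB_cases (lab : Jx k → ι) (i : ι) : i ∈ cmp lab ∨ ∃ j, i = lab j := by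
  by_cases h : ∃ j, i = lab j
  · exact Or.inr h
  · exact Or.inl (BoxB_mem.2 fun j e => h ⟨j, e.symm⟩)

theorem BoxB_sum {A : Type} [AddCommMonoid A] (hl : Function.Injective lab) (f : ι → A) :
    ∑ i, f i = ∑ i ∈ cmp lab, f i + ∑ j, f (lab j) := by
  have e : cmp lab = (Finset.univ.image lab)ᶜ := by
    ext i
    simp [cmp]
  rw [e, ← Finset.sum_compl_add_sum (Finset.univ.image lab), Finset.sum_image fun _ _ _ _ h => hl h]

theorem BoxB_jab (hl : Function.Injective lab) : jab (lab (some none)) (lab none) =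
    cmp lab ∪ Finset.univ.image fun i => lab (some (some i)) := by
  ext i
  simp only [jab, Finset.mem_filter, Finset.mem_univ, true_and, Finset.mem_union, Finset.mem_image]
  constructor
  · rintro ⟨h1, h2⟩
    rcases BoxB_cases lab i with hi | ⟨_ | _ | j, rfl⟩
    · exact Or.inl hi
    · exact absurd rfl h2
    · exact absurd rfl h1
    · exact Or.inr ⟨j, rfl⟩
  · rintro (hi | ⟨j, rfl⟩)
    · exact ⟨(BoxB_mem.1 hi _).symm, (BoxB_mem.1 hi _).symm⟩
    · exact ⟨fun e => by simpa using hl e, fun e => by simpa using hl e⟩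

end cmp

theorem BoxB_cancel (c a b : H → F2) : c + a + b + a + b = c := by
  linear_combination vb_add_self a + vb_add_self b

namespace Box

variable {R : Rep T} {ι : Type} [Fintype ι] (X : Box R ι) {k : ℕ} (lab : Jx k → ι)

/-- the marked primes at the labels -/
def yz (_X : Box R ι) (lab : Jx k → ι) (z : (ι → P) × (W → H → F2)) (j : Jx k) : MPr P :=
  (z.1 (lab j), z.2 (T.τ (z.1 (lab j))))

/-- the class without the two marked primes -/
def w1 (z : (ι → P) × (W → H → F2)) (g : W) : H → F2 :=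
  z.2 g + R.chH (X.yz lab z (some none)).1 (X.yz lab z (some none)).2 g +
    R.chH (X.yz lab z none).1 (X.yz lab z none).2 g

/-- the fixed places -/
def A0 (p : ι → P) : Finset P := X.S1 ∪ (cmp lab).image p

/-- the invariants of a pair -/
def bkey (z : (ι → P) × (W → H → F2)) : (cmp lab → P) × (W → H → F2) ×
    (Jx k → ℕ × Set (H → F2) × (P → Vb → F2 × F2) × (P → F2)) × (Jx k → Jx k → F2) :=
  (fun i => z.1 i, X.w1 lab z,
    fun j => R.key (X.A0 lab z.1) (T.σ (X.yz lab z j).1) (X.yz lab z j).2,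
    fun j j' => if j = j' then 0 else T.χ (X.yz lab z j').1 (T.σ (X.yz lab z j).1))

/-- all pairs -/
def TT (ty : ι → ℕ) (lam : O) : Set ((ι → P) × (W → H → F2)) :=
  {z | z.1 ∈ X.tpts ty ∧ z.2 ∈ (R.hat lam).Z1U (X.A z.1)}

variable {X lab} {ty : ι → ℕ} {lam : O} {z z' z0 : (ι → P) × (W → H → F2)}

theorem prs_sub {a b : ι} {Rb j : ℕ} (hj : 1 ≤ j) : X.Prs ty lam a b Rb j ⊆ X.TT ty lam :=
  fun _ hz => ⟨hz.1, (hz.2.2.2.mem hj).1⟩

theorem BoxB_nA {p : ι → P} (hp : p ∈ X.pts) (j : Jx k) : p (lab j) ∉ X.A0 lab p := fun h => by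
  rcases Finset.mem_union.1 h with h | h
  · exact (hp _).2 h
  · obtain ⟨i, hi, e⟩ := Finset.mem_image.1 h
    exact BoxB_mem.1 hi j (inj hp e).symm

theorem BoxB_A (p : ι → P) : X.A0 lab p ∪ Finset.univ.image (fun j => p (lab j)) = X.A p := by
  ext v
  simp only [A0, A, Finset.mem_union, Finset.mem_image, Finset.mem_univ, true_and]
  constructor
  · rintro ((h | ⟨i, -, h⟩) | ⟨j, h⟩)
    · exact Or.inl h
    · exact Or.inr ⟨i, h⟩
    · exact Or.inr ⟨_, h⟩
  · rintro (h | ⟨i, h⟩)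
    · exact Or.inl (Or.inl h)
    · rcases BoxB_cases lab i with hi | ⟨j, rfl⟩
      · exact Or.inl (Or.inr ⟨i, hi, h⟩)
      · exact Or.inr ⟨j, h⟩

theorem BoxB_A0 {p p' : ι → P} (h : ∀ i ∈ cmp lab, p i = p' i) : X.A0 lab p = X.A0 lab p' := by
  rw [A0, A0, Finset.image_congr (f := p) (g := p') fun i hi => h i hi]

theorem BoxB_fx (hz : z ∈ X.TT ty lam) (i : ι) :
    (R.hat lam).Fx (T.σ (z.1 i)) (z.2 (T.τ (z.1 i))) :=
  (hz.2.1.lz _).fx (notMem_S hz.1.1 i)

theorem BoxB_ram {p : ι → P} (hp : p ∈ X.pts) :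
    R.Ram (fun g => X.x0 g + ∑ i ∈ cmp lab, T.χ (p i) g) (X.A0 lab p) := by
  refine ⟨S_sub.trans Finset.subset_union_left, fun v hv hS => ?_, fun v hv => ?_⟩
  · have hi : v ≠ T.inf := fun e => hS (e ▸ R.inf_mem)
    rcases Finset.mem_union.1 hv with h | h
    · simp only
      rw [X.ram.2.1 v h hS, Finset.sum_eq_zero fun i _ =>
        T.χ_ne (p i) v (fun e => (hp i).2 (e ▸ h)) hi, add_zero]
    · obtain ⟨i, hi', rfl⟩ := Finset.mem_image.1 h
      simp only
      rw [X.ram.2.2 _ (hp i).2, zero_add, Finset.sum_eq_single_of_mem i hi' fun j _ hj =>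
        T.χ_ne _ _ (fun e => hj (inj hp e).symm) hi]
      exact T.χ_self _ hi
  · rw [A0, Finset.notMem_union] at hv
    simp only
    rw [X.ram.2.2 v hv.1, zero_add]
    exact Finset.sum_eq_zero fun i hi => T.χ_ne _ _
      (fun e => hv.2 (e ▸ Finset.mem_image_of_mem p hi)) fun e => hv.1 (e ▸ inf_mem)

theorem BoxB_w1 (hl : Lab ty lab) (hz : z ∈ X.TT ty lam) :
    X.w1 lab z ∈ (R.hat lam).Z1U (X.A0 lab z.1) := by
  have hc := fun j => Rep.chH_mem (R := R) (lam := lam) (X.yz lab z j).1 (X.yz lab z j).2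
  refine ⟨(hz.2.1.add (hc _).1).add (hc _).1, fun v hv => ?_⟩
  have hS : v ∉ R.S := fun h => hv (Finset.mem_union_left _ (S_sub h))
  have h0 : ∀ j, v ≠ z.1 (lab j) → R.chH (X.yz lab z j).1 (X.yz lab z j).2 (T.τ v) = 0 :=
    fun j hj => (hc j).2 v fun h => (Finset.mem_insert.1 h).elim hj hS
  have h1 : ∀ j, R.chH (X.yz lab z j).1 (X.yz lab z j).2 (T.τ (z.1 (lab j))) =
      z.2 (T.τ (z.1 (lab j))) := fun j => Rep.chH_tau (notMem_S hz.1.1 _) (BoxB_fx hz _)
  have h2 : ∀ j j', j ≠ j' → z.1 (lab j) ≠ z.1 (lab j') := fun j j' h e => h (hl.inj (inj hz.1.1 e))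
  by_cases h : ∃ j, v = z.1 (lab j)
  · obtain ⟨_ | _ | i, rfl⟩ := h
    · rw [w1, h0 _ (h2 _ _ (by simp)), h1, add_zero, vb_add_self]
    · rw [w1, h0 none (h2 _ _ (by simp)), h1, add_zero, vb_add_self]
    · rw [w1, h0 _ (h2 _ _ (by simp)), h0 _ (h2 _ _ (by simp)), add_zero, add_zero]
      exact Rep.hat_free (Rep.nf_eq_one.1 ((hz.1.2 _).trans (hl.free i))) _ (BoxB_fx hz _)
  · rw [w1, h0 _ fun e => h ⟨_, e⟩, h0 _ fun e => h ⟨_, e⟩, add_zero, add_zero]
    refine hz.2.2 v fun hv' => ?_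
    rw [← BoxB_A (lab := lab)] at hv'
    rcases Finset.mem_union.1 hv' with h' | h'
    · exact hv h'
    · obtain ⟨j, -, e⟩ := Finset.mem_image.1 h'
      exact h ⟨j, e.symm⟩

/-- the data of the step -/
def benv (hl : Lab ty lab) (h0 : z0 ∈ X.TT ty lam)
    (hn : R.Nondeg (X.yz lab z0 (some none)).2 (X.yz lab z0 none).2) : Env R k where
  lam := lam
  A0 := X.A0 lab z0.1
  Ot := (cmp lab).image z0.1
  x1 g := X.x0 g + ∑ i ∈ cmp lab, T.χ (z0.1 i) g
  w1 := X.w1 lab z0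
  y0 := X.yz lab z0
  Ot_sub := Finset.subset_union_right
  Ot_S := image_S h0.1.1 _
  x1_hom := Tame.hom_add X.x0_hom (Tame.hom_sum _ fun _ _ => T.χ_hom _)
  ram := BoxB_ram h0.1.1
  w1_mem := BoxB_w1 hl h0
  y0_A := BoxB_nA h0.1.1
  y0_inj _ _ e := hl.inj (inj h0.1.1 e)
  y0_fx _ := BoxB_fx h0 _
  y0_free i := Rep.nf_eq_one.1 ((h0.1.2 _).trans (hl.free i))
  y0_a := Rep.nf_eq_four.1 ((h0.1.2 _).trans hl.a)
  y0_b := Rep.nf_eq_four.1 ((h0.1.2 _).trans hl.b)
  nd := hn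

variable (hl : Lab ty lab) (h0 : z0 ∈ X.TT ty lam)
  (hn : R.Nondeg (X.yz lab z0 (some none)).2 (X.yz lab z0 none).2)

theorem valid_yz (hz : z ∈ X.TT ty lam) (hk : X.bkey lab z = X.bkey lab z0) :
    (benv hl h0 hn).Valid (X.yz lab z) ∧ (benv hl h0 hn).Ay (X.yz lab z) = X.A z.1 ∧
      (benv hl h0 hn).xy (X.yz lab z) = X.x z.1 ∧ (benv hl h0 hn).wy (X.yz lab z) = z.2 := by
  have k1 : ∀ i ∈ cmp lab, z.1 i = z0.1 i := fun i hi => congrFun (congrArg Prod.fst hk) ⟨i, hi⟩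
  have k2 : X.w1 lab z = X.w1 lab z0 := congrArg (fun t => t.2.1) hk
  have k3 : ∀ j, R.key (X.A0 lab z.1) (T.σ (X.yz lab z j).1) (X.yz lab z j).2 =
      R.key (X.A0 lab z0.1) (T.σ (X.yz lab z0 j).1) (X.yz lab z0 j).2 :=
    fun j => congrFun (congrArg (fun t => t.2.2.1) hk) j
  have k4 : ∀ j j', (if j = j' then 0 else T.χ (X.yz lab z j').1 (T.σ (X.yz lab z j).1)) =
      if j = j' then 0 else T.χ (X.yz lab z0 j').1 (T.σ (X.yz lab z0 j).1) :=
    fun j j' => congrFun (congrFun (congrArg (fun t => t.2.2.2) hk) j) j'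
  have eA : X.A0 lab z.1 = X.A0 lab z0.1 := BoxB_A0 k1
  refine ⟨⟨fun j _ => ⟨(hz.1.1 _).1.trans (h0.1.1 _).1.symm, ?_, BoxB_fx hz _, ?_⟩,
    fun j _ j' _ hj => ⟨fun e => hj (hl.inj (inj hz.1.1 e)), fun _ => ?_⟩⟩, ?_, ?_, ?_⟩
  · change _ ∉ X.A0 lab z0.1
    rw [← eA]
    exact BoxB_nA hz.1.1 j
  · have := k3 j
    rw [eA] at this
    exact this
  · have := k4 j j'
    rw [if_neg hj, if_neg hj] at this
    exact this
  · change X.A0 lab z0.1 ∪ _ = _
    rw [← eA]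
    exact BoxB_A z.1
  · funext g
    change X.x0 g + ∑ i ∈ cmp lab, T.χ (z0.1 i) g + ∑ j, T.χ (z.1 (lab j)) g = _
    rw [x, BoxB_sum hl.inj fun i => T.χ (z.1 i) g, add_assoc,
      Finset.sum_congr rfl fun i hi => by rw [← k1 i hi]]
  · funext g
    change X.w1 lab z0 g + _ + _ = _
    rw [← k2]
    exact BoxB_cancel _ _ _

theorem exists_z {y : Jx k → MPr P} (hy : (benv hl h0 hn).Valid y) :
    ∃ z ∈ X.TT ty lam, X.bkey lab z = X.bkey lab z0 ∧ X.yz lab z = y := by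
  obtain ⟨p, e1, e2⟩ : ∃ p : ι → P, (∀ j, p (lab j) = (y j).1) ∧ ∀ i ∈ cmp lab, p i = z0.1 i :=
    ⟨Function.extend lab (fun j => (y j).1) z0.1, fun j => hl.inj.extend_apply _ _ _, fun i hi =>
      Function.extend_apply' _ _ _ fun ⟨j, e⟩ => BoxB_mem.1 hi j e⟩
  have eA : X.A0 lab p = X.A0 lab z0.1 := BoxB_A0 e2
  have ey : X.yz lab (p, (benv hl h0 hn).wy y) = y := funext fun j =>
    Prod.ext (e1 j) (by
      change (benv hl h0 hn).wy y (T.τ (p (lab j))) = _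
      rw [e1]
      exact hy.wy_τ j)
  have hm := Env.wab_mem (E := benv hl h0 hn) (y (some none)) (y none)
  refine ⟨(p, (benv hl h0 hn).wy y), ⟨⟨fun i => ?_, fun i => ?_⟩, hm.1, fun v hv => ?_⟩,
    Prod.ext (funext fun i => e2 i i.2) (Prod.ext (funext fun g => ?_)
      (Prod.ext (funext fun j => ?_) (funext fun j => funext fun j' => ?_))), ey⟩
  · change T.dg (p i) = _ ∧ p i ∉ _
    rcases BoxB_cases lab i with h | ⟨j, rfl⟩
    · rw [e2 i h]
      exact h0.1.1 i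
    · rw [e1]
      exact ⟨(hy.un j).1.trans (h0.1.1 _).1, fun h => hy.notMem j (Finset.mem_union_left _ h)⟩
  · change R.nf (T.σ (p i)) = _
    rcases BoxB_cases lab i with h | ⟨j, rfl⟩
    · rw [e2 i h]
      exact h0.1.2 i
    · rw [e1]
      exact (hy.un j).2.2.nf.trans (h0.1.2 _)
  · change v ∉ X.A p at hv
    rw [← BoxB_A (lab := lab), eA, Finset.notMem_union] at hv
    have h1 : ∀ j, v ≠ (y j).1 := fun j e =>
      hv.2 (Finset.mem_image.2 ⟨j, Finset.mem_univ _, (e1 j).trans e.symm⟩)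
    exact hm.2 v fun h => (Finset.mem_insert.1 h).elim (h1 _) fun h =>
      (Finset.mem_insert.1 h).elim (h1 _) hv.1
  · change X.w1 lab _ g = X.w1 lab z0 g
    rw [w1, ey]
    exact BoxB_cancel _ _ _
  · change R.key (X.A0 lab p) (T.σ (X.yz lab _ j).1) (X.yz lab _ j).2 = _
    rw [eA, ey]
    exact (hy.un j).2.2.2
  · change (if j = j' then 0 else T.χ (X.yz lab _ j').1 (T.σ (X.yz lab _ j).1)) =
      if j = j' then 0 else _
    rw [ey]
    by_cases h : j = j'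
    · rw [if_pos h, if_pos h]
    · rw [if_neg h, if_neg h]
      exact (hy.2 j (Finset.mem_univ _) j' (Finset.mem_univ _) h).2 trivial

theorem yz_inj (hk : X.bkey lab z = X.bkey lab z') (hy : X.yz lab z = X.yz lab z') : z = z' := by
  refine Prod.ext (funext fun i => ?_) (funext fun g => ?_)
  · rcases BoxB_cases lab i with hi | ⟨j, rfl⟩
    · exact congrFun (congrArg Prod.fst hk) ⟨i, hi⟩
    · exact congrArg Prod.fst (congrFun hy j)
  · have k2 : X.w1 lab z g = X.w1 lab z' g := congrFun (congrArg (fun t => t.2.1) hk) g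
    rw [w1, w1, hy] at k2
    exact add_right_cancel (add_right_cancel k2)

theorem gs_eq (hz : z ∈ X.TT ty lam) (hk : X.bkey lab z = X.bkey lab z0) :
    X.Gs (jab (lab (some none)) (lab none)) z.1 =
      R.G1 (benv hl h0 hn).A0 (benv hl h0 hn).Ot (benv hl h0 hn).xs := by
  have k1 : ∀ i ∈ cmp lab, z.1 i = z0.1 i := fun i hi => congrFun (congrArg Prod.fst hk) ⟨i, hi⟩
  obtain ⟨hv, -, hx, -⟩ := valid_yz hl h0 hn hz hk
  rw [Gs, BoxB_jab hl.inj, Finset.image_union, ← Finset.union_assoc, Rep.G1_free,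
    Finset.image_congr (f := z.1) (g := z0.1) fun i hi => k1 i hi, ← hx]
  · exact Rep.G1_congr fun v h => hv.xy_σ ((benv hl h0 hn).Ot_sub h)
  · intro v h
    obtain ⟨_, h', rfl⟩ := Finset.mem_image.1 h
    obtain ⟨i, -, rfl⟩ := Finset.mem_image.1 h'
    exact ⟨notMem_S hz.1.1 _, Rep.nf_eq_one.1 ((hz.1.2 _).trans (hl.free i))⟩

theorem benv_small {B0 : ℕ} (hB : 0 < B0) {L : Finset ι} (hL : ∀ j, lab j ∈ L)
    (h : X.SmL (B0 + 1) L) (j j' : Jx k) :
    T.Small (1 / (B0 : ℝ)) (B0 * NN (benv hl h0 hn).A0.card)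
      (∑ v ∈ (benv hl h0 hn).A0, T.dg v + B0 * (benv hl h0 hn).e j') ((benv hl h0 hn).e j) := by
  have he : ∀ j, (benv hl h0 hn).e j = X.e (lab j) := fun j => (h0.1.1 _).1
  rw [he, he]
  refine (h _ (hL j)).mono ?_ ?_ ?_
  · exact one_div_le_one_div_of_le (by exact_mod_cast hB) (by simp)
  · refine Nat.mul_le_mul (Nat.le_succ _) (NN_mono ?_)
    exact (Finset.card_union_le _ _).trans (Nat.add_le_add_left
      (Finset.card_image_le.trans (Finset.card_le_univ _)) _)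
  · have a1 : ∑ v ∈ (benv hl h0 hn).A0, T.dg v = ∑ v ∈ X.S1, T.dg v + ∑ i ∈ cmp lab, X.e i := by
      change ∑ v ∈ X.S1 ∪ (cmp lab).image z0.1, T.dg v = _
      rw [Finset.sum_union, Finset.sum_image fun _ _ _ _ e => inj h0.1.1 e,
        Finset.sum_congr rfl fun i _ => (h0.1.1 i).1]
      rw [Finset.disjoint_right]
      intro v hv
      obtain ⟨i, -, rfl⟩ := Finset.mem_image.1 hv
      exact (h0.1.1 i).2
    have a2 : ∑ i ∈ cmp lab, X.e i ≤ ∑ i, X.e i :=
      Finset.sum_le_sum_of_subset (Finset.subset_univ _)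
    have a3 : X.e (lab j') ≤ ∑ i, X.e i :=
      Finset.single_le_sum (fun _ _ => Nat.zero_le _) (Finset.mem_univ _)
    have a4 := Nat.mul_le_mul_left B0 a3
    rw [a1, add_mul, one_mul]
    omega

end Box

end

end Pool.Agent.Hyp
end

-- merged part: Pool.Agent.Work.MP_60d5ce_nt.Hy.BoxM
section
/-!
# The total mass of the classes  (task QT BoxM)

For `z = (p, w)` in the set choose `z0 z ∈ Prs 1` with the same key, and let `φ z` consist of `p`, the two marks of `z` at `a`, `b`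
(16 values each) and the colours `clr (yz (z0 z) (some none))`, `clr (yz (z0 z) none)` (`256 ^ card S` values each).  The pair `z` is
determined by `φ z` and `w1 z`.  If `φ z = φ z'` then `w1 z + w1 z' = w1 z0 + w1 z0'` lies in
`GH (res lam) (A0 p) (image p (cmp lab)) xs`: both are unramified outside `A0 p` (`w1_mem` of `benv`), the classes
`z0.2`, `z0'.2` satisfy `LH` at the primes of `cmp lab` for the same values of the twist (`mem_GH_of_lifts`, `valid_yz`, `Valid.xy_σ`), and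
the sum of the four `chH` is unramified there and orthogonal to the fixed vectors (`ee_ch_eq`; the tests are part of
`key`), so satisfies `LH` (`kap_zero`); `LH.add`.  By `GH_card` and `gs_eq` this set has at most `Rb ^ 2` elements.
Count with `seq_fiber` over `φ` and `fam_diff` (or an injection `z' ↦ w1 z + w1 z'`) in each fibre.
-/

namespace Pool.Agent.Hyp

open Pool.Agent.Quad

variable [Par]

open scoped Classical

noncomputable section

variable {W P : Type} [Group W] {T : Tame W P}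

/-- two marked primes with the same tests and colours cancel at `v` -/
theorem BoxM_lh {R : Rep T} {lam : O} (d s : F2) {v : P} (hv : v ∉ R.S) {y y' : MPr P}
    (hy : y.1 ∉ R.S) (hy' : y'.1 ∉ R.S) (hne : v ≠ y.1) (hne' : v ≠ y'.1)
    (hf : (R.hat lam).Fx (T.σ y.1) y.2) (hf' : (R.hat lam).Fx (T.σ y'.1) y'.2)
    (ht : ∀ n, ee (R.ch v n (T.σ y.1)) (p0 y.2) = ee (R.ch v n (T.σ y'.1)) (p0 y'.2) ∧
      ee (R.ch v n (T.σ y.1)) (p1 y.2) = ee (R.ch v n (T.σ y'.1)) (p1 y'.2))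
    (hc : R.clr y = R.clr y') : R.LH d s v (R.chH y.1 y.2 + R.chH y'.1 y'.2) := by
  have h0 : (R.chH y.1 y.2 + R.chH y'.1 y'.2) (T.τ v) = 0 := by
    rw [Pi.add_apply,
      (Rep.chH_mem (R := R) (lam := lam) y.1 y.2).2 v fun h => (Finset.mem_insert.1 h).elim hne hv,
      (Rep.chH_mem (R := R) (lam := lam) y'.1 y'.2).2 v
        fun h => (Finset.mem_insert.1 h).elim hne' hv, add_zero]
  have z0 : p0 (0 : H → F2) = 0 := rfl
  have z1 : p1 (0 : H → F2) = 0 := rfl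
  refine ⟨fun n hn => ?_, fun n hn => ?_⟩
  · beta_reduce
    rw [h0, z0, Rep.kap_zero, smul_zero, add_zero, add_zero, add_zero]
    have e := Rep.ee_ch_eq hv hy hy' hne hne' hn (Rep.hat_fx_iff.1 hf).1 (Rep.hat_fx_iff.1 hf').1
      (ht n).1 fun u hu =>
      ⟨congrArg (fun z : (H → F2) × (H → F2) => p0 z.1) (congrFun hc ⟨u, hu⟩),
        congrArg (fun z : (H → F2) × (H → F2) => p0 z.2) (congrFun hc ⟨u, hu⟩)⟩
    change ee (R.ch y.1 (p0 y.2) (T.σ v) + R.ch y'.1 (p0 y'.2) (T.σ v)) n = 0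
    rw [ee_comm, ee_add_right, e, F2_add_self]
  · beta_reduce
    rw [h0, z0, z1, Rep.kap_zero, smul_zero, smul_zero, add_zero, add_zero, add_zero]
    have e := Rep.ee_ch_eq hv hy hy' hne hne' hn (Rep.hat_fx_iff.1 hf).2 (Rep.hat_fx_iff.1 hf').2
      (ht n).2 fun u hu =>
      ⟨congrArg (fun z : (H → F2) × (H → F2) => p1 z.1) (congrFun hc ⟨u, hu⟩),
        congrArg (fun z : (H → F2) × (H → F2) => p1 z.2) (congrFun hc ⟨u, hu⟩)⟩
    change ee (R.ch y.1 (p1 y.2) (T.σ v) + R.ch y'.1 (p1 y'.2) (T.σ v)) n = 0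
    rw [ee_comm, ee_add_right, e, F2_add_self]

namespace Box

variable {R : Rep T} {ι : Type} [Fintype ι] {X : Box R ι} {k : ℕ} {lab : Jx k → ι} {ty : ι → ℕ}

/-- the facts about a pair and its reference pair -/
theorem BoxM_ref (hl : Lab ty lab) {lam : O} {Rb : ℕ} {z z0 : (ι → P) × (W → H → F2)}
    (hz : z ∈ X.TT ty lam) (h0 : z0 ∈ X.Prs ty lam (lab (some none)) (lab none) Rb 1)
    (hk : X.bkey lab z = X.bkey lab z0) :
    X.w1 lab z0 ∈ (R.hat lam).Z1U (X.A0 lab z.1) ∧ (R.hat lam).Z1 z0.2 ∧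
      (∀ j, (X.yz lab z0 j).1 ∉ R.S ∧
        (R.hat lam).Fx (T.σ (X.yz lab z0 j).1) (X.yz lab z0 j).2) ∧
      (R.G1 (X.A0 lab z.1) ((cmp lab).image z.1) fun v => X.x z.1 (T.σ v)).ncard ≤ Rb ∧
      ∀ v ∈ (cmp lab).image z.1, R.LH (res lam) (X.x z.1 (T.σ v)) v z0.2 ∧
        ∀ j, v ≠ (X.yz lab z0 j).1 ∧ ∀ n,
          ee (R.ch v n (T.σ (X.yz lab z j).1)) (p0 (X.yz lab z j).2) =
            ee (R.ch v n (T.σ (X.yz lab z0 j).1)) (p0 (X.yz lab z0 j).2) ∧
          ee (R.ch v n (T.σ (X.yz lab z j).1)) (p1 (X.yz lab z j).2) =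
            ee (R.ch v n (T.σ (X.yz lab z0 j).1)) (p1 (X.yz lab z0 j).2) := by
  have t0 : z0 ∈ X.TT ty lam := prs_sub le_rfl h0
  have hn : R.Nondeg (X.yz lab z0 (some none)).2 (X.yz lab z0 none).2 := h0.2.2.1
  have hO : (cmp lab).image z.1 = (benv hl t0 hn).Ot :=
    Finset.image_congr fun i hi => congrFun (congrArg Prod.fst hk) ⟨i, hi⟩
  have hA : X.A0 lab z.1 = (benv hl t0 hn).A0 := congrArg (X.S1 ∪ ·) hO
  obtain ⟨v1, -, x1, -⟩ := valid_yz hl t0 hn hz hk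
  obtain ⟨v0, -, x0, -⟩ := valid_yz hl t0 hn t0 rfl
  have hx : ∀ v ∈ (benv hl t0 hn).Ot, X.x z.1 (T.σ v) = (benv hl t0 hn).xs v := fun v hv => by
    rw [← x1, v1.xy_σ ((benv hl t0 hn).Ot_sub hv)]
  have hx0 : ∀ v ∈ (benv hl t0 hn).Ot, X.x z0.1 (T.σ v) = (benv hl t0 hn).xs v := fun v hv => by
    rw [← x0, v0.xy_σ ((benv hl t0 hn).Ot_sub hv)]
  have hG := Rep.mem_GH_of_lifts (Ot := (benv hl t0 hn).Ot) (x_hom z0.1) (ram_x h0.1.1)
    (fun v hv => Finset.mem_union_right _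
      (Finset.image_subset_image (Finset.subset_univ _) hv)) (benv hl t0 hn).Ot_S one_pos h0.2.2.2
  rw [hA, hO]
  refine ⟨(benv hl t0 hn).w1_mem, t0.2.1, fun j => ⟨v0.notMem_S j, (v0.un j).2.2.1⟩, ?_,
    fun v hv => ⟨?_, fun j => ⟨fun e => v0.notMem j (e ▸ (benv hl t0 hn).Ot_sub hv), fun n =>
      (v1.un j).2.2.test ((benv hl t0 hn).Ot_sub hv) n⟩⟩⟩
  · rw [Rep.G1_congr hx, ← gs_eq hl t0 hn t0 rfl]
    exact h0.2.1
  · rw [hx v hv, ← hx0 v hv]
    exact hG.2 v hv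

/-- the difference of two classes with the same invariants -/
theorem BoxM_mem (hl : Lab ty lab) {lam : O} {Rb : ℕ} {z z0 z' z0' : (ι → P) × (W → H → F2)}
    (hz : z ∈ X.TT ty lam) (h0 : z0 ∈ X.Prs ty lam (lab (some none)) (lab none) Rb 1)
    (hk : X.bkey lab z = X.bkey lab z0) (hz' : z' ∈ X.TT ty lam)
    (h0' : z0' ∈ X.Prs ty lam (lab (some none)) (lab none) Rb 1)
    (hk' : X.bkey lab z' = X.bkey lab z0') (e : z.1 = z'.1)
    (ea : X.yz lab z (some none) = X.yz lab z' (some none))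
    (eb : X.yz lab z none = X.yz lab z' none)
    (ca : R.clr (X.yz lab z0 (some none)) = R.clr (X.yz lab z0' (some none)))
    (cb : R.clr (X.yz lab z0 none) = R.clr (X.yz lab z0' none)) :
    X.w1 lab z + X.w1 lab z' ∈ R.GH (res lam) (X.A0 lab z'.1) ((cmp lab).image z'.1)
      fun v => X.x z'.1 (T.σ v) := by
  obtain ⟨a1, a2, a3, -, a5⟩ := BoxM_ref hl hz h0 hk
  obtain ⟨b1, b2, b3, -, b5⟩ := BoxM_ref hl hz' h0' hk'
  rw [e] at a1 a5
  have w0 : X.w1 lab z = X.w1 lab z0 := congrArg (fun t => t.2.1) hk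
  have w0' : X.w1 lab z' = X.w1 lab z0' := congrArg (fun t => t.2.1) hk'
  rw [w0, w0']
  refine ⟨Rep.hat_z1U_iff.2 (Rep.hat_z1U_iff.1 (Rep.Fam_z1U_add a1 b1)), fun v hv => ?_⟩
  have hS : v ∉ R.S := image_S hz'.1.1 _ v hv
  have hc : ∀ j, X.yz lab z j = X.yz lab z' j → R.clr (X.yz lab z0 j) = R.clr (X.yz lab z0' j) →
      (R.hat lam).Z1 (R.chH (X.yz lab z0 j).1 (X.yz lab z0 j).2 +
        R.chH (X.yz lab z0' j).1 (X.yz lab z0' j).2) ∧
      R.LH (res lam) (X.x z'.1 (T.σ v)) v (R.chH (X.yz lab z0 j).1 (X.yz lab z0 j).2 +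
        R.chH (X.yz lab z0' j).1 (X.yz lab z0' j).2) := fun j ej cj =>
    ⟨(Rep.chH_mem _ _).1.add (Rep.chH_mem _ _).1,
      BoxM_lh _ _ hS (a3 j).1 (b3 j).1 ((a5 v hv).2 j).1 ((b5 v hv).2 j).1 (a3 j).2 (b3 j).2
        (fun n => by
          have k1 := ((a5 v hv).2 j).2 n
          have k2 := ((b5 v hv).2 j).2 n
          rw [ej] at k1
          exact ⟨k1.1.symm.trans k2.1, k1.2.symm.trans k2.2⟩) cj⟩
  have h1 := Rep.LH.add hS (a2.lz v) (b2.lz v) (a5 v hv).1 (b5 v hv).1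
  have h2 := Rep.LH.add hS ((a2.add b2).lz v) ((hc _ ea ca).1.lz v) h1 (hc _ ea ca).2
  have h3 := Rep.LH.add hS (((a2.add b2).add (hc _ ea ca).1).lz v) ((hc _ eb cb).1.lz v) h2
    (hc _ eb cb).2
  convert h3 using 1
  funext g
  simp only [Pi.add_apply, w1]
  abel

theorem mass (hl : Lab ty lab) (lam : O) (Rb : ℕ) :
    {z | z ∈ X.TT ty lam ∧ ∃ z0 ∈ X.Prs ty lam (lab (some none)) (lab none) Rb 1,
      X.bkey lab z = X.bkey lab z0}.Finite ∧
    ({z | z ∈ X.TT ty lam ∧ ∃ z0 ∈ X.Prs ty lam (lab (some none)) (lab none) Rb 1,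
      X.bkey lab z = X.bkey lab z0}.ncard : ℝ) ≤
      NV ^ 4 * ((NV ^ 4) ^ R.S.card) ^ 2 * Rb ^ 2 * (X.tpts ty).ncard := by
  set S := {z | z ∈ X.TT ty lam ∧ ∃ z0 ∈ X.Prs ty lam (lab (some none)) (lab none) Rb 1,
      X.bkey lab z = X.bkey lab z0} with hS
  have hr : ∀ z ∈ S, ∃ z0 ∈ X.Prs ty lam (lab (some none)) (lab none) Rb 1,
      X.bkey lab z = X.bkey lab z0 := fun z hz => hz.2
  choose! r r1 r2 using hr
  let φ : (ι → P) × (W → H → F2) → (ι → P) × ((H → F2) × (H → F2)) ×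
      (R.S → (H → F2) × (H → F2)) × (R.S → (H → F2) × (H → F2)) := fun z =>
    (z.1, ((X.yz lab z (some none)).2, (X.yz lab z none).2),
      R.clr (X.yz lab (r z) (some none)), R.clr (X.yz lab (r z) none))
  have hfib : ∀ y, {z | z ∈ S ∧ φ z = y}.Finite ∧ {z | z ∈ S ∧ φ z = y}.ncard ≤ Rb ^ 2 := by
    intro y
    rcases Set.eq_empty_or_nonempty {z | z ∈ S ∧ φ z = y} with h | ⟨z', hz'⟩
    · rw [h]
      simp
    have he : ∀ z ∈ {z | z ∈ S ∧ φ z = y}, z.1 = z'.1 ∧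
        X.yz lab z (some none) = X.yz lab z' (some none) ∧ X.yz lab z none = X.yz lab z' none ∧
        R.clr (X.yz lab (r z) (some none)) = R.clr (X.yz lab (r z') (some none)) ∧
        R.clr (X.yz lab (r z) none) = R.clr (X.yz lab (r z') none) := fun z hz => by
      have e : φ z = φ z' := hz.2.trans hz'.2.symm
      have e1 : z.1 = z'.1 := congrArg (fun t => t.1) e
      exact ⟨e1, Prod.ext (congrFun e1 _) (congrArg (fun t => t.2.1.1) e),
        Prod.ext (congrFun e1 _) (congrArg (fun t => t.2.1.2) e),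
        congrArg (fun t => t.2.2.1) e, congrArg (fun t => t.2.2.2) e⟩
    have hm : ∀ z ∈ {z | z ∈ S ∧ φ z = y}, X.w1 lab z + X.w1 lab z' ∈
        R.GH (res lam) (X.A0 lab z'.1) ((cmp lab).image z'.1) fun v => X.x z'.1 (T.σ v) :=
      fun z hz => BoxM_mem hl hz.1.1 (r1 z hz.1) (r2 z hz.1) hz'.1.1 (r1 z' hz'.1) (r2 z' hz'.1)
        (he z hz).1 (he z hz).2.1 (he z hz).2.2.1 (he z hz).2.2.2.1 (he z hz).2.2.2.2
    have hi : Set.InjOn (fun z => X.w1 lab z + X.w1 lab z') {z | z ∈ S ∧ φ z = y} := by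
      intro z hz u hu e
      refine Prod.ext ((he z hz).1.trans (he u hu).1.symm) (funext fun g => ?_)
      have e1 := congrFun (add_right_cancel e) g
      rw [w1, w1, (he z hz).2.1, (he z hz).2.2.1, (he u hu).2.1, (he u hu).2.2.1] at e1
      exact add_right_cancel (add_right_cancel e1)
    refine ⟨Set.Finite.of_injOn hm hi (Rep.GH_finite _ _ _ _),
      (Set.ncard_le_ncard_of_injOn _ hm hi (Rep.GH_finite _ _ _ _)).trans
        ((Rep.GH_card (image_S hz'.1.1.1.1 _) _ _ _).trans (Nat.pow_le_pow_left ?_ 2))⟩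
    exact (BoxM_ref hl hz'.1.1 (r1 z' hz'.1) (r2 z' hz'.1)).2.2.2.1
  obtain ⟨k1, -, k2⟩ := seq_fiber S (X.tpts ty ×ˢ Set.univ)
    ((tpts_finite ty).prod Set.finite_univ) φ (fun z hz => ⟨hz.1.1, Set.mem_univ _⟩)
    (fun y _ => (hfib y).1) 0 (Rb ^ 2)
    fun y _ => ⟨Nat.cast_nonneg _, by exact_mod_cast (hfib y).2⟩
  refine ⟨k1, k2.trans_eq ?_⟩
  have hH : Nat.card (H → F2) = NV ^ 2 := by rw [Nat.card_eq_fintype_card, card_Hb]
  rw [Set.ncard_prod, Set.ncard_univ]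
  simp only [Nat.card_prod, Nat.card_fun (α := R.S), hH, Nat.card_eq_fintype_card (α := R.S),
    Fintype.card_coe]
  push_cast
  ring

end Box

end

end Pool.Agent.Hyp
end

-- merged part: Pool.Agent.Work.MP_60d5ce_nt.Hy.GridB
section
/-!
# Properties of consistent cubes  (task QT GridB)

Template `Sm/GridB.lean`.  All vertices `(α, mix e z0 z1)`, `e ⊆ B`, lie in `YG (k + 2)`, so `Psi_spec` applies to
them, with twist `xe ..` (`xy_mix`).  `Dl B'` of the cocycles satisfies the local condition at a place where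
all vertices do and all twists agree on `D v` (`Dl_eq_sum_smul`, `LocOK.sum`, `LocOK.twist`, `xy_eq_D`);
then `LocOK.ll` (`B'.card ≤ k < k + 2`).
* `th_unr`: if `v` is a prime `Z (some i, m)` with `i ∉ B'` use `th_lz` and `LZ.tau_of_free` (`hat_free`);
  if `v` is `a` or `b` use `own`; otherwise `v` is outside `Ay` of all the vertices.
* `th_pb`: the sum of the two sides satisfies `LH` at `pb` (`th_ll`, `LL.twist`, `LL.add`, `lh_of_ll`) and vanishes at `τ pb`
  (`own`, or `wy_τ_b` for `B' = ∅`); `LH.sigma_zero` with `Mk.split_b`.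
-/

namespace Pool.Agent.Hyp

open Pool.Agent.Quad

variable [Par]

open scoped Classical

noncomputable section

variable {W P : Type} [Group W] {T : Tame W P}

namespace Env

variable {R : Rep T} {k : ℕ} {E : Env R k} {M : ℕ} {Z : GV k M → MPr P} {pb : MPr P}

variable {Y'' : Finset (Pt k M)} {B B' : Finset (Fin k)} {α α' : Fin M} {z0 z1 : Fin k → Fin M}

theorem Dl_mix (hB : B' ⊆ B) (g : W) :
    Dl B' (fun e => E.cψ Z pb α z0 (mix B z0 z1) e g) = Dl B' fun e => E.cψ Z pb α z0 z1 e g :=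
  Dl_congr fun e he => by rw [cψ, cψ, mix_mix (he.trans hB)]

theorem th_mix (hB : B' ⊆ B) :
    Th (E.cψ Z pb α z0 (mix B z0 z1)) B' = Th (E.cψ Z pb α z0 z1) B' := by
  funext g
  rw [Th, Th, Dl_mix hB]

theorem Cons.mono (h : E.Cons Z pb Y'' B α z0 z1) {Y3 : Finset (Pt k M)} (hY : Y'' ⊆ Y3) :
    E.Cons Z pb Y3 B α z0 z1 :=
  ⟨h.diag, fun e he => hY (h.mem e he), h.gr, h.own⟩

theorem GridB_Dl {ι I : Type} [DecidableEq ι] [Fintype I] [DecidableEq I] {L : Lat T I} {x : W → F2}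
    {j : ℕ} {v : P} {B : Finset ι} {f : Finset ι → W → I → O} (h : ∀ e ⊆ B, L.LocOK x j (f e) v) :
    L.LocOK x j (fun g => Dl B fun e => f e g) v := by
  simp only [Dl_eq_sum_smul]
  exact Lat.LocOK.sum _ _ fun e he => h e (Finset.mem_powerset.1 he)

theorem GridB_card (B : Finset (Fin k)) : B.card < k + 2 := by
  have := Finset.card_le_univ B
  rw [Fintype.card_fin] at this
  omega

theorem Cons.restrict (h : E.Cons Z pb Y'' B α z0 z1) (hB : B' ⊆ B) :
    E.Cons Z pb Y'' B' α z0 (mix B' z0 z1) := by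
  refine ⟨fun i hi => if_neg hi, fun e he => ?_, fun C hC g => ?_, fun C hC hne s => ?_⟩
  · rw [mix_mix he]
    exact h.mem e (he.trans hB)
  · rw [Dl_mix hC]
    exact h.gr C (hC.trans hB) g
  · rw [th_mix hC]
    exact h.own C (hC.trans hB) hne s

theorem Cons.memY (hY : Y'' ⊆ E.YG Z pb (k + 2)) (h : E.Cons Z pb Y'' B α z0 z1)
    {e : Finset (Fin k)} (he : e ⊆ B) : pt Z pb (α, mix e z0 z1) ∈ E.Y (k + 2) :=
  (Finset.mem_filter.1 (hY (h.mem e he))).2

theorem Cons.coc (hY : Y'' ⊆ E.YG Z pb (k + 2)) (h : E.Cons Z pb Y'' B α z0 z1)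
    {e : Finset (Fin k)} (he : e ⊆ B) : (R.hat E.lam).Coc
      (xe (E.xy (pt Z pb (α, z0))) (E.βx Z z0 z1) e) (k + 2) (E.cψ Z pb α z0 z1 e) := by
  rw [← xy_mix]
  exact (Psi_spec (h.memY hY he)).1.1

theorem Cons.th_empty (hY : Y'' ⊆ E.YG Z pb (k + 2)) (h : E.Cons Z pb Y'' B α z0 z1) :
    Th (E.cψ Z pb α z0 z1) ∅ = E.wab (Z (none, α)) pb := by
  funext g
  rw [Th, Dl_empty, Finset.card_empty]
  exact (Psi_spec (h.memY hY (Finset.empty_subset B))).2 g

theorem Cons.th_sm (hY : Y'' ⊆ E.YG Z pb (k + 2)) (h : E.Cons Z pb Y'' B α z0 z1)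
    (hB : B' ⊆ B) : T.Sm (Th (E.cψ Z pb α z0 z1) B') :=
  Lat.sm_Th (GridB_card B') fun _ he => h.coc hY (he.trans hB)

theorem Cons.urel (hY : Y'' ⊆ E.YG Z pb (k + 2)) (h : E.Cons Z pb Y'' B α z0 z1) :
    (R.hat E.lam).URel (E.βx Z z0 z1) B (Th (E.cψ Z pb α z0 z1)) :=
  Lat.urel_of_coc (GridB_card B) (fun g C hC => h.gr C hC g) fun _ he => h.coc hY he

theorem Cons.th_lz (hZ : E.GridOK Z) (hp : E.PbOK Z pb) (hY : Y'' ⊆ E.YG Z pb (k + 2))
    (h : E.Cons Z pb Y'' B α z0 z1) (hB : B' ⊆ B) {v : P}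
    (hv : v ∈ E.A0 ∨ v = pb.1 ∨ ∃ ν, v = (Z ν).1 ∧ ∀ i ∈ B', ν.1 ≠ some i) :
    (R.hat E.lam).LZ v (Th (E.cψ Z pb α z0 z1) B') :=
  (h.urel hY).lz hB (h.th_sm hY hB) fun i hi => βx_zero hZ hp z0 z1 i
    (hv.imp_right (Or.imp_right fun ⟨ν, h1, h2⟩ => ⟨ν, h1, h2 i hi⟩))

theorem Cons.th_unr (hZ : E.GridOK Z) (hp : E.PbOK Z pb) (hY : Y'' ⊆ E.YG Z pb (k + 2))
    (h : E.Cons Z pb Y'' B α z0 z1) (hB : B' ⊆ B) {v : P} (h0 : v ∉ E.A0)
    (hb : B' = ∅ → v ≠ pb.1) (ha : B' = ∅ → v ≠ (Z (none, α)).1)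
    (hi : ∀ i ∈ B', v ≠ (Z (some i, z0 i)).1 ∧ v ≠ (Z (some i, z1 i)).1) :
    Th (E.cψ Z pb α z0 z1) B' (T.τ v) = 0 := by
  by_cases h1 : ∃ i ∉ B', ∃ m, v = (Z (some i, m)).1
  · obtain ⟨i, hiB, m, rfl⟩ := h1
    exact (h.th_lz hZ hp hY hB (Or.inr (Or.inr ⟨(some i, m), rfl, fun j hj e =>
      hiB ((Option.some.inj e : i = j) ▸ hj)⟩))).tau_of_free (fun hs => h0 (S_sub hs))
      (Rep.hat_free (hZ.free i m))
  by_cases h2 : v = pb.1
  · rw [h2]
    exact h.own B' hB (Finset.nonempty_iff_ne_empty.2 fun e => hb e h2) false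
  by_cases h3 : v = (Z (none, α)).1
  · rw [h3]
    exact h.own B' hB (Finset.nonempty_iff_ne_empty.2 fun e => ha e h3) true
  refine digV_of_VD (VD.mono (Dl_VD fun e he => ?_) (GridB_card B'))
  refine (Psi_spec (h.memY hY (he.trans hB))).1.2.2 v fun hv => ?_
  rcases mem_Ay_pt.1 hv with h4 | h4 | ⟨_ | i, h4⟩
  · exact h0 h4
  · exact h2 h4
  · exact h3 h4
  · by_cases hiB : i ∈ B'
    · by_cases hie : i ∈ e
      · exact (hi i hiB).2 (h4.trans (congrArg (fun m => (Z (some i, m)).1) (if_pos hie)))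
      · exact (hi i hiB).1 (h4.trans (congrArg (fun m => (Z (some i, m)).1) (if_neg hie)))
    · exact h1 ⟨i, hiB, _, h4⟩

theorem Cons.th_ll (hZ : E.GridOK Z) (hp : E.PbOK Z pb) (hY : Y'' ⊆ E.YG Z pb (k + 2))
    (h : E.Cons Z pb Y'' B α z0 z1) (hB : B' ⊆ B) {v : P} (hv : v ∈ E.A0 ∨ v = pb.1) :
    (R.hat E.lam).LL (E.xy (pt Z pb (α, z0))) v (Th (E.cψ Z pb α z0 z1) B') :=
  (GridB_Dl fun _ he => ((Psi_spec (h.memY hY (he.trans hB))).1.2.1 v
    (mem_Ay_pt.2 (hv.imp_right Or.inl))).twist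
      (xy_eq_D hZ hp _ (α, z0) (hv.imp_right Or.inl))).ll (GridB_card B') fun g _ => h.gr B' hB g

theorem Cons.th_lh (hZ : E.GridOK Z) (hp : E.PbOK Z pb) (hY : Y'' ⊆ E.YG Z pb (k + 2))
    (h : E.Cons Z pb Y'' B α z0 z1) (hB : B' ⊆ B) {v : P} (hv : v ∈ E.Ot) :
    R.LH (res E.lam) (E.xs v) v (Th (E.cψ Z pb α z0 z1) B') := by
  have hV := valid_pt hZ hp (α, z0)
  rw [← hV.xy_σ (E.Ot_sub hv)]
  exact Rep.lh_of_ll (xy_hom _) (E.Ot_S v hv)
    (hV.ram.2.1 v (Finset.mem_union_left _ (E.Ot_sub hv)) (E.Ot_S v hv))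
    (h.th_ll hZ hp hY hB (Or.inl (E.Ot_sub hv)))

theorem Cons.th_pb (hZ : E.GridOK Z) (hp : E.PbOK Z pb) (hY : Y'' ⊆ E.YG Z pb (k + 2))
    (h : E.Cons Z pb Y'' B α z0 z1) (h' : E.Cons Z pb Y'' B α' z0 z1) (hB : B' ⊆ B) :
    (Th (E.cψ Z pb α' z0 z1) B' (T.τ pb.1) + Th (E.cψ Z pb α z0 z1) B' (T.τ pb.1) = 0) ∧
      Th (E.cψ Z pb α' z0 z1) B' (T.σ pb.1) + Th (E.cψ Z pb α z0 z1) B' (T.σ pb.1) = 0 := by
  have hV := valid_pt hZ hp (α, z0)
  have h1 : Th (E.cψ Z pb α' z0 z1) B' (T.τ pb.1) + Th (E.cψ Z pb α z0 z1) B' (T.τ pb.1) = 0 := by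
    rcases B'.eq_empty_or_nonempty with rfl | hne
    · have e1 : E.wab (Z (none, α')) pb (T.τ pb.1) = pb.2 := (valid_pt hZ hp (α', z0)).wy_τ_b
      have e2 : E.wab (Z (none, α)) pb (T.τ pb.1) = pb.2 := hV.wy_τ_b
      rw [h.th_empty hY, h'.th_empty hY, e1, e2, vb_add_self]
    · have e1 : Th (E.cψ Z pb α' z0 z1) B' (T.τ pb.1) = 0 := h'.own B' hB hne false
      have e2 : Th (E.cψ Z pb α z0 z1) B' (T.τ pb.1) = 0 := h.own B' hB hne false
      rw [e1, e2, add_zero]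
  exact ⟨h1, (Rep.lh_of_ll (xy_hom _) (hV.notMem_S none) (hV.xy_τ none)
    (((h'.th_ll hZ hp hY hB (Or.inr rfl)).twist
      (xy_eq_D hZ hp (α', z0) (α, z0) (Or.inr (Or.inl rfl)))).add
        (h.th_ll hZ hp hY hB (Or.inr rfl)))).sigma_zero hp.1.2.2.split_b h1⟩

end Env

end

end Pool.Agent.Hyp
end

-- merged part: Pool.Agent.Work.MP_60d5ce_nt.Hy.GridC
section
/-!
# Many consistent cubes  (task QT GridC)

Template `Sm/GridC.lean`.
* `col_card`: the first component lies in `R.FamS lam (βx z0 z1) B (A0 ∪ Zs) Ot xs` with `Zs` the set of `pb`,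
  `Z (none, α)` and `cubeF Z z0 z1` (`urel`, `th_sm`, `th_unr`, `th_lz`, `th_lh`; `famS_ncard`, `G1_union`,
  `G1_zero`); the second component lies in a finite type with `(NV ^ 4) ^ 2 ^ k` elements.
* `glue`: for `B' = insert i B''`, `Dl B' = Dl B'' (second cube) - Dl B'' (first cube)` (`Dl_insert`);
  equal leading digits give one more power of two; at the `τ` of the two marked primes the next digits
  agree as well (`dvd_succ_of_dig_eq`).
* `dens`: `density` with `fun B _ => col B`.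
-/

namespace Pool.Agent.Hyp

open Pool.Agent.Quad

variable [Par]

open scoped Classical

noncomputable section

variable {W P : Type} [Group W] {T : Tame W P}

theorem dvd_succ_of_dig_eq {j : ℕ} {a b : O} (h : (2 : O) ^ j ∣ a - b) (hd : dig j a = dig j b) :
    (2 : O) ^ (j + 1) ∣ a - b := by
  induction j generalizing a b with
  | zero =>
    have h0 : res a = res b := hd
    have := (res_eq_zero_iff (a - b)).1 (by rw [map_sub, h0, sub_self])
    simpa using this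
  | succ j ih =>
    obtain ⟨c, hc⟩ := h
    have h1 : tl a = tl b + (2 : O) ^ j * c :=
      tl_eq (c := res b) (by linear_combination hc + tl_spec b)
    rw [dig_succ, dig_succ] at hd
    obtain ⟨d, hd'⟩ := ih (a := tl a) (b := tl b) ⟨c, by rw [h1]; ring⟩ hd
    refine ⟨d, ?_⟩
    linear_combination hc + 2 * hd' - 2 * h1

theorem GridC_mix_lo {k M : ℕ} {e : Finset (Fin k)} {i : Fin k} (hi : i ∉ e)
    (z0 z1 : Fin k → Fin M) (m m' : Fin M) :
    mix e (Function.update z0 i m) (Function.update z1 i m') =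
      mix e (Function.update z0 i m) (Function.update z1 i m) := by
  funext j
  by_cases hj : j = i
  · subst hj
    simp [mix, hi]
  · simp [mix, Function.update_of_ne hj]

theorem GridC_mix_hi {k M : ℕ} {e : Finset (Fin k)} {i : Fin k} (hi : i ∉ e)
    (z0 z1 : Fin k → Fin M) (m m' : Fin M) :
    mix (insert i e) (Function.update z0 i m) (Function.update z1 i m') =
      mix e (Function.update z0 i m') (Function.update z1 i m') := by
  funext j
  by_cases hj : j = i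
  · subst hj
    simp [mix, hi]
  · simp [mix, Function.update_of_ne hj, hj]

namespace Env

variable {R : Rep T} {k : ℕ} {E : Env R k} {M : ℕ} {Z : GV k M → MPr P} {pb : MPr P}

variable {Y'' : Finset (Pt k M)}

theorem cons_empty {y : Pt k M} (hy : y ∈ Y'') : E.Cons Z pb Y'' ∅ y.1 y.2 y.2 := by
  refine ⟨fun _ _ => rfl, fun e he => ?_, fun B' hB' g => ?_, fun B' hB' hn => ?_⟩
  · rw [Finset.subset_empty.1 he, mix_empty]
    exact hy
  · rw [Finset.subset_empty.1 hB', Finset.card_empty]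
    exact VD.triv _
  · rw [Finset.subset_empty.1 hB'] at hn
    exact absurd hn Finset.not_nonempty_empty

theorem col_card (hZ : E.GridOK Z) (hp : E.PbOK Z pb) (hY : Y'' ⊆ E.YG Z pb (k + 2))
    {Rb : ℕ} (hR : (R.G1 E.A0 E.Ot E.xs).ncard ≤ Rb) (B : Finset (Fin k)) {i : Fin k} (hi : i ∉ B)
    (α : Fin M) (z0 z1 : Fin k → Fin M) :
    ∃ 𝒮 : Finset ((Finset (Fin k) → W → H → F2) × (Finset (Fin k) → Bool → H → F2)),
      𝒮.card ≤ Ccol k Rb ∧ ∀ m,
        E.Cons Z pb Y'' B α (Function.update z0 i m) (Function.update z1 i m) →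
          E.col Z pb B α (Function.update z0 i m) (Function.update z1 i m) ∈ 𝒮 := by
  set Zs : Finset P := insert pb.1 (insert (Z (none, α)).1 (E.cubeF Z z0 z1)) with hZs
  have hcard : Zs.card ≤ 2 * k + 2 := by
    have h1 := card_cubeF (E := E) (Z := Z) z0 z1
    have h4 := Finset.card_insert_le (Z (none, α)).1 (E.cubeF Z z0 z1)
    have h5 := Finset.card_insert_le pb.1 (insert (Z (none, α)).1 (E.cubeF Z z0 z1))
    rw [hZs]
    omega
  obtain ⟨hF, hN⟩ := Rep.famS_ncard E.Ot_S E.lam (E.βx Z z0 z1) B (E.A0 ∪ Zs) E.xs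
  refine ⟨hF.toFinset ×ˢ Finset.univ, ?_, fun m h => ?_⟩
  · rw [Finset.card_product, ← Set.ncard_eq_toFinset_card _ hF, Ccol]
    refine Nat.mul_le_mul ?_ (le_of_eq ?_)
    · have h1 : (R.G1 (E.A0 ∪ Zs) E.Ot E.xs).ncard ≤ Rb * NV ^ (2 * k + 2) :=
        (Rep.G1_union E.Ot_S E.A0 Zs E.xs).trans
          (Nat.mul_le_mul hR (Nat.pow_le_pow_right NV_pos hcard))
      have h2 : 0 < (R.G1 (E.A0 ∪ Zs) E.Ot E.xs).ncard :=
        (Set.ncard_pos (Rep.G1_finite _ _ _)).2 ⟨0, Rep.G1_zero _ _ _⟩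
      have h3 : B.card ≤ k := by simpa using Finset.card_le_univ B
      refine hN.trans ((Nat.pow_le_pow_left (Nat.pow_le_pow_left h1 _) _).trans ?_)
      exact Nat.pow_le_pow_right (Nat.pow_pos (h2.trans_le h1))
        (Nat.pow_le_pow_right (by norm_num) h3)
    · rw [Finset.card_univ, Fintype.card_fun, Fintype.card_fun, card_Hb,
        Fintype.card_finset, Fintype.card_fin, Fintype.card_bool, ← pow_mul NV]
  · refine Finset.mem_product.2 ⟨hF.mem_toFinset.2 ⟨fun B' hB' g g' => ?_,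
      fun B' hB' => ?_, fun B' hB' => ?_⟩, Finset.mem_univ _⟩
    · simp only [col, if_pos hB']
      rw [h.urel hY B' hB' g g']
      congr 2
      unfold uop
      refine Finset.sum_congr rfl fun C hC => ?_
      have hC' := Finset.mem_powerset.1 hC
      simp only [if_pos (Finset.sdiff_subset.trans hB' : B' \ C ⊆ B)]
      congr 1
      refine Finset.prod_congr rfl fun j hj => ?_
      have hji : j ≠ i := fun e => hi (e ▸ hB' (hC' hj))
      simp only [βx, Function.update_of_ne hji]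
    · simp only [col, if_pos hB']
      refine ⟨h.th_sm hY hB', fun v hv => ?_, fun v hv =>
        ⟨h.th_lz hZ hp hY hB' (Or.inl (E.Ot_sub hv)), h.th_lh hZ hp hY hB' hv⟩⟩
      rw [Finset.mem_union, not_or, hZs, Finset.mem_insert, Finset.mem_insert, not_or, not_or,
        mem_cubeF] at hv
      refine h.th_unr hZ hp hY hB' hv.1 (fun _ => hv.2.1) (fun _ => hv.2.2.1) fun j hj => ?_
      have hji : j ≠ i := fun e => hi (e ▸ hB' hj)
      simp only [Function.update_of_ne hji]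
      exact ⟨fun e => hv.2.2.2 ⟨j, Or.inl e⟩, fun e => hv.2.2.2 ⟨j, Or.inr e⟩⟩
    · simp only [col, if_neg hB']

theorem glue (B : Finset (Fin k)) {i : Fin k} (hi : i ∉ B) (α : Fin M) (z0 z1 : Fin k → Fin M)
    (m m' : Fin M) (h : E.Cons Z pb Y'' B α (Function.update z0 i m) (Function.update z1 i m))
    (h' : E.Cons Z pb Y'' B α (Function.update z0 i m') (Function.update z1 i m'))
    (hc : E.col Z pb B α (Function.update z0 i m) (Function.update z1 i m) =
      E.col Z pb B α (Function.update z0 i m') (Function.update z1 i m')) :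
    E.Cons Z pb Y'' (insert i B) α (Function.update z0 i m) (Function.update z1 i m') := by
  have hlo : ∀ e ⊆ B, mix e (Function.update z0 i m) (Function.update z1 i m') =
      mix e (Function.update z0 i m) (Function.update z1 i m) := fun e he =>
    GridC_mix_lo (fun hm => hi (he hm)) z0 z1 m m'
  have hhi : ∀ e ⊆ B, mix (insert i e) (Function.update z0 i m) (Function.update z1 i m') =
      mix e (Function.update z0 i m') (Function.update z1 i m') := fun e he =>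
    GridC_mix_hi (fun hm => hi (he hm)) z0 z1 m m'
  have dlo : ∀ B' ⊆ B, ∀ g,
      (Dl B' fun e => E.cψ Z pb α (Function.update z0 i m) (Function.update z1 i m') e g) =
        Dl B' fun e => E.cψ Z pb α (Function.update z0 i m) (Function.update z1 i m) e g :=
    fun B' hB' g => Dl_congr fun e he => by simp only [cψ, hlo e (he.trans hB')]
  have dhi : ∀ B' ⊆ B, ∀ g,
      (Dl (insert i B') fun e =>
        E.cψ Z pb α (Function.update z0 i m) (Function.update z1 i m') e g) =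
      (Dl B' fun e => E.cψ Z pb α (Function.update z0 i m') (Function.update z1 i m') e g) -
        Dl B' fun e => E.cψ Z pb α (Function.update z0 i m) (Function.update z1 i m) e g := by
    intro B' hB' g
    have e1 : (Dl B' fun e =>
        E.cψ Z pb α (Function.update z0 i m) (Function.update z1 i m') (insert i e) g) =
        Dl B' fun e => E.cψ Z pb α (Function.update z0 i m') (Function.update z1 i m') e g :=
      Dl_congr fun e he => by simp only [cψ, hhi e (he.trans hB')]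
    rw [Dl_insert fun hm => hi (hB' hm), dlo B' hB' g, e1]
  have hone : ∀ B' ⊆ B, ∀ g, VD (B'.card + 1)
      ((Dl B' fun e => E.cψ Z pb α (Function.update z0 i m') (Function.update z1 i m') e g) -
        Dl B' fun e => E.cψ Z pb α (Function.update z0 i m) (Function.update z1 i m) e g) := by
    intro B' hB' g
    have h1 := congrFun (congrFun (congrArg Prod.fst hc) B') g
    simp only [col, if_pos hB', Th] at h1
    refine (digV_eq_zero_iff ((h'.gr B' hB' g).sub (h.gr B' hB' g))).1 ?_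
    rw [digV_sub (h'.gr B' hB' g) (h.gr B' hB' g), h1, sub_self]
  have hsplit : ∀ e ⊆ insert i B, e ⊆ B ∨ ∃ e' ⊆ B, e = insert i e' := by
    intro e he
    by_cases hie : i ∈ e
    · exact Or.inr ⟨e.erase i, Finset.subset_insert_iff.1 he, (Finset.insert_erase hie).symm⟩
    · exact Or.inl ((Finset.subset_insert_iff_of_notMem hie).1 he)
  refine ⟨fun j hj => ?_, fun e he => ?_, fun B' hB' g => ?_, fun B' hB' hn s => ?_⟩
  · rw [Finset.mem_insert, not_or] at hj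
    have := h.diag j hj.2
    simpa only [Function.update_of_ne hj.1] using this
  · rcases hsplit e he with he1 | ⟨e, he1, rfl⟩
    · rw [hlo e he1]
      exact h.mem e he1
    · rw [hhi e he1]
      exact h'.mem e he1
  · rcases hsplit B' hB' with hB | ⟨B', hB, rfl⟩
    · rw [dlo B' hB g]
      exact h.gr B' hB g
    · rw [dhi B' hB g, Finset.card_insert_of_notMem fun hm => hi (hB hm)]
      exact hone B' hB g
  · rcases hsplit B' hB' with hB | ⟨B', hB, rfl⟩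
    · have := h.own B' hB hn s
      simp only [Th] at this ⊢
      rw [dlo B' hB]
      exact this
    · have h2 := congrFun (congrFun (congrArg Prod.snd hc) B') s
      simp only [col, if_pos hB] at h2
      simp only [Th]
      rw [dhi B' hB, Finset.card_insert_of_notMem fun hm => hi (hB hm)]
      funext a
      exact dig_of_dvd (dvd_succ_of_dig_eq (hone B' hB _ a) (congrFun h2 a).symm)

theorem Cfam_pos {Rb : ℕ} (hR : 0 < Rb) : 0 < Cfam k Rb := by
  have := NV_pos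
  unfold Cfam
  positivity

theorem Ccol_pos {Rb : ℕ} (hR : 0 < Rb) : 0 < Ccol k Rb := by
  have := NV_pos
  unfold Ccol Cfam
  positivity

theorem dens (hM : 0 < M) (hZ : E.GridOK Z) (hp : E.PbOK Z pb)
    (hY : Y'' ⊆ E.YG Z pb (k + 2)) {Rb : ℕ} (hR : (R.G1 E.A0 E.Ot E.xs).ncard ≤ Rb) {δ : ℝ}
    (hδ : 0 ≤ δ) (hc : δ * (M : ℝ) ^ (k + 1) ≤ Y''.card) :
    ∃ x0 : Pt k M, dd δ (Ccol k Rb) k ^ 2 * (M : ℝ) ^ (k + 1) ≤
      (Finset.univ.filter fun x : Pt k M => E.Cons Z pb Y'' Finset.univ x0.1 x0.2 x.2 ∧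
        E.Cons Z pb Y'' Finset.univ x.1 x0.2 x.2).card := by
  have h2 : 0 < (R.G1 E.A0 E.Ot E.xs).ncard :=
    (Set.ncard_pos (Rep.G1_finite _ _ _)).2 ⟨0, Rep.G1_zero _ _ _⟩
  exact density hM (Ccol_pos (h2.trans_le hR)) hδ Y'' hc (E.Cons Z pb Y'') (fun B _ => E.col Z pb B)
    (fun y hy => cons_empty hy) (fun B α z0 z1 h => h.diag)
    (fun B i hi α z0 z1 => col_card hZ hp hY hR B hi α z0 z1)
    fun B i hi α z0 z1 m m' h h' hc => glue B hi α z0 z1 m m' h h' hc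

end Env

end

end Pool.Agent.Hyp
end

-- merged part: Pool.Agent.Work.MP_60d5ce_nt.Hy.GridD
section
/-!
# Completed cubes  (task QT GridD)

Template `Sm/GridD.lean`.  `cube` is the structure `Cb` of `Core.lean`; its fields come from `Yp_ok`, `Psi_spec`,
`xy_mix`, `xy_eq_D`, `βx_zero`, `mem_Ay_pt`, `mem_cubeF`, `chi_τ`, `dphi_of_mem`, `Phs_spec`.
* `Yp_sub`: `Cb.top_lifts`; the colour of `pb` comes from the vertex `x0`.
* `br_b`: for `v ∈ S` use `br_eq_of_vals` and the colours; for `v ∉ S` use `br_good`: `ch b m` is unramified at `v`,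
  `n' = a (τ v)` is fixed by `σ v` (`LZ.fx`), and `ee_ch_eq` applies with `Mk.test`.
* `zero_of_lift`: `Cb.core i0`; split the sum over `insert pb A0`.  At `pb`: `Φ B` and `Φ Bᶜ` are unramified
  (`th_pb`), so their pairing vanishes (`br_unr_left`), and the two other terms give `bil` (`br_unr_left`, `wy_τ_b`).
  On `A0` use `br_add_right` and `br_b` (the completion is `LZ` at `v` by `URel.lz`, `hat_lz_iff`).
* `mem_Yp`: the completion is the sum of the top digits of the two sides.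
-/

namespace Pool.Agent.Hyp

open Pool.Agent.Quad

variable [Par]

open scoped Classical

noncomputable section

variable {W P : Type} [Group W] {T : Tame W P}

namespace Env

variable {R : Rep T} {k : ℕ} {E : Env R k} {M : ℕ} {Z : GV k M → MPr P} {pb : MPr P}

variable {x0 x : Pt k M}

theorem dat_vtx {s : Bool} {e : Finset (Fin k)} (h : s = true → e ≠ Finset.univ) :
    (E.dat Z pb x0).2 (vtx x0 x s e) =
      (E.ok Z pb x0 (vtx x0 x s e), E.Phi Z pb x0 (vtx x0 x s e)) := by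
  exact if_pos (vtx_mem_star x0 x h)

theorem ok_vtx (hx : x ∉ Quad.star x0) {s : Bool} {e : Finset (Fin k)} :
    E.ok Z pb x0 (vtx x0 x s e) ↔
      E.Cons Z pb (E.YG Z pb (k + 2)) e (if s then x.1 else x0.1) x0.2 (mix e x0.2 x.2) := by
  unfold ok
  rw [show Bx x0.2 (vtx x0 x s e).2 = e from Bx_mix hx e]
  rfl

theorem dphi_eq (hx : x ∉ Quad.star x0) {B : Finset (Fin k)} (hB : B ≠ Finset.univ)
    (h1 : E.ok Z pb x0 (vtx x0 x true B)) (h0 : E.ok Z pb x0 (vtx x0 x false B)) (g : W) :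
    DPhi (E.dat Z pb x0) x B g =
      Th (E.cψ Z pb x.1 x0.2 x.2) B g + Th (E.cψ Z pb x0.1 x0.2 x.2) B g := by
  have hb : Bx x0.2 (vtx x0 x true B).2 = B := Bx_mix hx B
  have h2 : DPhi (E.dat Z pb x0) x B = E.Phi Z pb x0 (vtx x0 x true B) B :=
    congrArg (fun z : Prop × (Finset (Fin k) → W → H → F2) => z.2 B)
      (dat_vtx (s := true) fun _ => hB)
  rw [h2, Phi, if_pos ⟨h1, h0⟩, hb, if_pos subset_rfl,
    ← th_mix (z1 := x.2) subset_rfl, ← th_mix (α := x0.1) (z1 := x.2) subset_rfl]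
  rfl

theorem Yp_star {D : Dt W k M} (hx : x ∈ E.Yp Z D) : x ∉ Quad.star D.1 :=
  (Finset.mem_filter.1 hx).2.1

theorem Yp_ok (hx : x ∈ E.Yp Z (E.dat Z pb x0)) {s : Bool} {e : Finset (Fin k)}
    (h : s = true → e ≠ Finset.univ) :
    E.Cons Z pb (E.YG Z pb (k + 2)) e (if s then x.1 else x0.1) x0.2 (mix e x0.2 x.2) := by
  obtain ⟨h1, h2, -⟩ := (Finset.mem_filter.1 hx).2
  have h3 : ((E.dat Z pb x0).2 (vtx x0 x s e)).1 := h2 s e h
  rw [dat_vtx h] at h3
  exact (ok_vtx h1).1 h3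

theorem Phs_spec {D : Dt W k M} (hx : x ∈ E.Yp Z D) : E.Compl Z D x (E.Phs Z D x) := by
  have h := (Finset.mem_filter.1 hx).2.2.2
  rw [Phs, dif_pos h]
  exact h.choose_spec

theorem dphi_of_mem (hx : x ∈ E.Yp Z (E.dat Z pb x0)) {B : Finset (Fin k)} (hB : B ≠ Finset.univ)
    (g : W) : DPhi (E.dat Z pb x0) x B g =
      Th (E.cψ Z pb x.1 x0.2 x.2) B g + Th (E.cψ Z pb x0.1 x0.2 x.2) B g := by
  have hs : x ∉ Quad.star x0 := Yp_star hx
  exact dphi_eq hs hB ((ok_vtx hs).2 (Yp_ok hx fun _ => hB))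
    ((ok_vtx hs).2 (Yp_ok hx (by simp))) g

theorem GridD_Y (hx : x ∈ E.Yp Z (E.dat Z pb x0)) {s : Bool} {e : Finset (Fin k)}
    (h : s = true → e ≠ Finset.univ) : pt Z pb (vtx x0 x s e) ∈ E.Y (k + 2) := by
  have h1 := (Yp_ok hx h).memY subset_rfl subset_rfl
  rwa [mix_mix subset_rfl] at h1

theorem GridD_sel (hx : x ∈ E.Yp Z (E.dat Z pb x0)) {s : Bool} {e : Finset (Fin k)}
    (h : s = true → e ≠ Finset.univ) : (R.hat E.lam).Sel (E.Ay (pt Z pb (vtx x0 x s e)))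
      (xe (E.xy (pt Z pb (if s then x.1 else x0.1, x0.2))) (E.βx Z x0.2 x.2) e)
      (Fintype.card (Fin k) + 2) (E.cψ Z pb (if s then x.1 else x0.1) x0.2 x.2 e) := by
  rw [Fintype.card_fin, ← xy_mix]
  exact (Psi_spec (GridD_Y hx h)).1

theorem GridD_notC (hZ : E.GridOK Z) (hp : E.PbOK Z pb) (ν : GV k M) :
    (Z ν).1 ∉ insert pb.1 E.A0 := fun h =>
  (Finset.mem_insert.1 h).elim (fun h => (hp.2 ν).1 h.symm) (hZ.notMem ν)

theorem GridD_inA {m : Fin M} {z : Fin k → Fin M} {v : P}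
    (hv : v ∈ insert (Z (none, m)).1 (insert pb.1 E.A0)) : v ∈ E.Ay (pt Z pb (m, z)) := by
  rcases Finset.mem_insert.1 hv with h | h
  · exact mem_Ay_pt.2 (Or.inr (Or.inr ⟨none, h⟩))
  · rcases Finset.mem_insert.1 h with h | h
    · exact mem_Ay_pt.2 (Or.inr (Or.inl h))
    · exact mem_Ay_pt.2 (Or.inl h)

theorem GridD_ofA {m : Fin M} {z0 z1 : Fin k → Fin M} {e : Finset (Fin k)} {v : P}
    (hv : v ∈ E.Ay (pt Z pb (m, mix e z0 z1))) :
    v ∈ insert (Z (none, m)).1 (insert pb.1 E.A0) ∪ E.cubeF Z z0 z1 := by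
  rcases mem_Ay_pt.1 hv with h | h | ⟨j, h⟩
  · exact Finset.mem_union_left _ (Finset.mem_insert_of_mem (Finset.mem_insert_of_mem h))
  · exact Finset.mem_union_left _ (Finset.mem_insert_of_mem (Finset.mem_insert.2 (Or.inl h)))
  · cases j with
    | none => exact Finset.mem_union_left _ (Finset.mem_insert.2 (Or.inl h))
    | some i =>
      refine Finset.mem_union_right _ (mem_cubeF.2 ⟨i, ?_⟩)
      have h1 : v = (Z (some i, if i ∈ e then z1 i else z0 i)).1 := h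
      split_ifs at h1
      · exact Or.inr h1
      · exact Or.inl h1

theorem GridD_xt : xe (E.xy (pt Z pb (x.1, x0.2))) (E.βx Z x0.2 x.2) Finset.univ =
    E.xy (pt Z pb x) := by
  rw [← xy_mix, mix_univ]

/-- the cube with base `x0` and top `x` -/
def cube (hk : 2 ≤ k) (hZ : E.GridOK Z) (hp : E.PbOK Z pb) (hx : x ∈ E.Yp Z (E.dat Z pb x0)) :
    Cb R E.lam (Fin k) where
  C := insert pb.1 E.A0
  F := E.cubeF Z x0.2 x.2
  a s := (Z (none, if s then x.1 else x0.1)).1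
  x0 s := E.xy (pt Z pb (if s then x.1 else x0.1, x0.2))
  β := E.βx Z x0.2 x.2
  A := E.Ay (pt Z pb x)
  ψ s := E.cψ Z pb (if s then x.1 else x0.1) x0.2 x.2
  Φs := E.Phs Z (E.dat Z pb x0) x
  two := by simpa using hk
  S_sub := S_sub.trans (Finset.subset_insert _ _)
  disj := Finset.disjoint_right.2 fun v hv => by
    obtain ⟨i, h | h⟩ := mem_cubeF.1 hv <;> rw [h] <;> exact GridD_notC hZ hp _
  a_C := fun _ => GridD_notC hZ hp _
  a_F := fun s hv => by
    obtain ⟨i, h | h⟩ := mem_cubeF.1 hv <;> simpa using hZ.inj h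
  a_ne := fun h => not_mem_star.1 (Yp_star hx) none (congrArg Prod.snd (hZ.inj h)).symm
  x0_hom := fun _ => xy_hom _
  β_hom := βx_hom _ _
  β_C := fun i s v hv => βx_zero hZ hp _ _ i (by
    rcases Finset.mem_insert.1 hv with h | h
    · exact Or.inr (Or.inr ⟨_, h, by simp⟩)
    · exact (Finset.mem_insert.1 h).elim (fun h => Or.inr (Or.inl h)) Or.inl)
  x_C := fun v hv => xy_eq_D hZ hp _ _
    ((Finset.mem_insert.1 hv).elim (fun h => Or.inr (Or.inl h)) Or.inl)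
  free := fun v hv => by
    obtain ⟨i, h | h⟩ := mem_cubeF.1 hv <;> rw [h] <;> exact hZ.free _ _
  one := fun v hv => by
    obtain ⟨i, h | h⟩ := mem_cubeF.1 hv <;> refine ⟨i, fun j hj => ?_⟩ <;>
      simp [h, βx, chi_τ hZ, hj]
  coc := fun _ _ h => (GridD_sel hx h).1
  loc := fun _ _ h v hv => (GridD_sel hx h).2.1 v (GridD_inA hv)
  unr := fun _ _ h v hv => (GridD_sel hx h).2.2 v fun h => hv (GridD_ofA h)
  gr := fun s B h g => by
    rw [← Dl_mix subset_rfl]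
    exact (Yp_ok hx h).gr B subset_rfl g
  own := fun s B h hB => by
    rw [← th_mix subset_rfl]
    exact (Yp_ok hx h).own B subset_rfl hB true
  sm := (Phs_spec hx).sm
  rel := (Phs_spec hx).rel.congr fun B _ g => by
    by_cases hB : B = Finset.univ
    · rw [if_pos hB, if_pos hB]
    · rw [if_neg hB, if_neg hB]
      exact dphi_of_mem hx hB g
  unr_top := fun v hv => (Phs_spec hx).unr v fun h => hv
    (Finset.union_subset_union_left (Finset.subset_insert _ _) h)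
  A1 := fun _ hv => GridD_inA (m := x.1) (z := x.2) hv
  A2 := fun v hv => GridD_ofA (m := x.1) (e := Finset.univ) (by rwa [mix_univ])
  A3 := fun v _ hv => (congrFun GridD_xt _).trans (xy_unr _ v hv)

theorem cube_xt (hk : 2 ≤ k) (hZ : E.GridOK Z) (hp : E.PbOK Z pb)
    (hx : x ∈ E.Yp Z (E.dat Z pb x0)) : (cube hk hZ hp hx).xt = E.xy (pt Z pb x) := GridD_xt

theorem cube_w (hk : 2 ≤ k) (hZ : E.GridOK Z) (hp : E.PbOK Z pb)
    (hx : x ∈ E.Yp Z (E.dat Z pb x0)) (s : Bool) :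
    (cube hk hZ hp hx).w s = E.wab (Z (none, if s then x.1 else x0.1)) pb :=
  funext (Psi_spec (GridD_Y (s := s) (e := ∅) hx fun _ =>
    (cube hk hZ hp hx).univ_ne.ne_empty.symm)).2

theorem Yp_sub (hk : 2 ≤ k) (hZ : E.GridOK Z) (hp : E.PbOK Z pb) :
    E.Yp Z (E.dat Z pb x0) ⊆ E.YG Z pb k := by
  intro x hx
  have h := (cube hk hZ hp hx).top_lifts
  rw [cube_xt, cube_w, Fintype.card_fin] at h
  exact Finset.mem_filter.2 ⟨Finset.mem_univ _, valid_pt hZ hp x,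
    (GridD_Y (s := false) (e := ∅) hx (by simp)).2.1, h⟩

theorem br_b (hp : T.Un E.A0 E.e E.Mk none pb) (hc : R.clr pb = R.clr (E.y0 none)) {v : P}
    (hv : v ∈ E.A0) {a : W → Vb} (ha : R.LZ v a) :
    R.br v a (R.ch pb.1 (p0 pb.2)) = R.br v a (R.ch (E.y0 none).1 (p0 (E.y0 none).2)) ∧
      R.br v a (R.ch pb.1 (p1 pb.2)) = R.br v a (R.ch (E.y0 none).1 (p1 (E.y0 none).2)) := by
  have hσ : ∀ s ∈ R.S, R.chH pb.1 pb.2 (T.σ s) = R.chH (E.y0 none).1 (E.y0 none).2 (T.σ s) :=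
    fun s hs => congrArg Prod.fst (congrFun hc ⟨s, hs⟩)
  have hτ : ∀ s ∈ R.S, R.chH pb.1 pb.2 (T.τ s) = R.chH (E.y0 none).1 (E.y0 none).2 (T.τ s) :=
    fun s hs => congrArg Prod.snd (congrFun hc ⟨s, hs⟩)
  have lz : ∀ b m, R.LZ v (R.ch b m) := fun b m => (Rep.ch_mem b m).1.lz v
  by_cases hS : v ∈ R.S
  · exact ⟨Rep.br_eq_of_vals ha ha (lz _ _) (lz _ _) rfl rfl (congrArg p0 (hσ v hS))
      (congrArg p0 (hτ v hS)), Rep.br_eq_of_vals ha ha (lz _ _) (lz _ _) rfl rfl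
      (congrArg p1 (hσ v hS)) (congrArg p1 (hτ v hS))⟩
  · have n1 : v ≠ pb.1 := fun h => hp.2.1 (h ▸ hv)
    have n2 : v ≠ (E.y0 none).1 := fun h => E.y0_A none (h ▸ hv)
    have s1 : pb.1 ∉ R.S := fun h => hp.2.1 (S_sub h)
    have s2 : (E.y0 none).1 ∉ R.S := fun h => E.y0_A none (S_sub h)
    have z : ∀ b m, v ≠ b → R.ch b m (T.τ v) = 0 := fun b m h =>
      (Rep.ch_mem b m).2 v (by simp [h, hS])
    have f1 := Rep.hat_fx_iff.1 hp.2.2.1
    have f2 := Rep.hat_fx_iff.1 (E.y0_fx none)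
    have t := Mk.test hp.2.2 hv (a (T.τ v))
    simp only [Rep.br_good hS ha (lz _ _), z _ _ n1, z _ _ n2]
    rw [Rep.ee_ch_eq hS s1 s2 n1 n2 (ha.fx hS) f1.1 f2.1 t.1 fun s hs =>
        ⟨congrArg p0 (hσ s hs), congrArg p0 (hτ s hs)⟩,
      Rep.ee_ch_eq hS s1 s2 n1 n2 (ha.fx hS) f1.2 f2.2 t.2 fun s hs =>
        ⟨congrArg p1 (hσ s hs), congrArg p1 (hτ s hs)⟩]
    exact ⟨rfl, rfl⟩

theorem zero_of_lift (hk : 2 ≤ k) (i0 : Fin k) (hZ : E.GridOK Z) (hp : E.PbOK Z pb)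
    (hx : x ∈ E.Yp Z (E.dat Z pb x0)) (h1 : x ∈ E.YDG Z pb) :
    E.zero Z i0 (E.dat Z pb x0) x pb := by
  obtain ⟨⟨hv, hc, hl⟩, hD⟩ := (Finset.mem_filter.1 h1).2
  have h := (cube hk hZ hp hx).core i0 (by rw [cube_xt, cube_w, Fintype.card_fin]; exact hl)
    (by rw [cube_xt, Fintype.card_fin]; exact hD)
  have hv0 := valid_pt hZ hp x0
  have hb0 : pb.1 ∉ E.A0 := hp.1.2.1
  have hbS : pb.1 ∉ R.S := fun h => hb0 (S_sub h)
  have hC : ∀ {v}, v ∈ insert pb.1 E.A0 → ∀ B, _ := fun hv B =>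
    ((cube hk hZ hp hx).lz (s := true) (Finset.mem_insert_of_mem hv) B).1
  have hΦ : ∀ B, B ≠ Finset.univ → (cube hk hZ hp hx).Φ B = DPhi (E.dat Z pb x0) x B :=
    fun B hB => funext fun g => (if_neg hB).trans (dphi_of_mem hx hB g).symm
  have hτ : ∀ B, (cube hk hZ hp hx).Φ B (T.τ pb.1) = 0 := fun B => by
    by_cases hB : B = Finset.univ
    · rw [hB, Cb.Φ_top]
      refine (Phs_spec hx).unr _ fun h => (Finset.mem_union.1 h).elim hb0 fun h => ?_
      obtain ⟨i, h | h⟩ := mem_cubeF.1 h <;> exact (hp.2 _).1 h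
    · have h2 := (Cons.th_pb hZ hp subset_rfl (Yp_ok (s := false) (e := B) hx (by simp))
        (Yp_ok (s := true) hx fun _ => hB) subset_rfl).1
      rw [th_mix subset_rfl, th_mix subset_rfl] at h2
      rw [hΦ B hB, dphi_of_mem hx hB]
      exact h2
  have lw : ∀ (a : MPr P) (v : P), _ ∧ _ := fun a v =>
    Rep.hat_lz_iff.1 ((wab_mem (E := E) a pb).1.lz v)
  have e0 := hτ Finset.univ
  have l0 := fun {v} (hv : v ∈ insert pb.1 E.A0) => hC hv Finset.univ
  rw [Cb.Φ_top] at e0 l0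
  have e1 : ∀ a : MPr P, ∀ v ∈ E.A0, ∀ c, R.LZ v c →
      R.br v c (fun g => p0 (E.wab a pb g)) = R.br v c (fun g => p0 (E.wab a (E.y0 none) g)) ∧
      R.br v c (fun g => p1 (E.wab a pb g)) = R.br v c fun g => p1 (E.wab a (E.y0 none) g) :=
    fun a v hv c hl => by
      have h2 := br_b hp.1 hc hv hl
      simp only [wab, Core_p0_add, Core_p1_add, Rep.br_add_right, Rep.p0_chH, Rep.p1_chH]
      exact ⟨congrArg _ h2.1, congrArg _ h2.2⟩
  rw [Cb.rhs, cube_w, cube_w] at h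
  erw [Finset.sum_insert hb0] at h
  rw [Finset.sum_eq_zero fun B _ => by
      rw [Rep.br_unr_left hbS (hC (Finset.mem_insert_self _ _) B).2
        (hC (Finset.mem_insert_self _ _) Bᶜ).1 (by rw [hτ]; rfl), hτ, Core_p0_zero, ee_zero_right],
    Rep.br_unr_left hbS (l0 (Finset.mem_insert_self _ _)).1 (lw _ _).2 (by rw [e0]; rfl),
    Rep.br_unr_left hbS (l0 (Finset.mem_insert_self _ _)).2 (lw _ _).1 (by rw [e0]; rfl),
    Finset.sum_congr rfl fun v hv => by
      rw [(e1 _ v hv _ (l0 (Finset.mem_insert_of_mem hv)).1).2,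
        (e1 _ v hv _ (l0 (Finset.mem_insert_of_mem hv)).2).1,
        Finset.sum_congr rfl fun B hB => by
          rw [hΦ B (Finset.mem_filter.1 hB).2.2, hΦ Bᶜ fun e =>
            Finset.mem_compl.1 (e ▸ Finset.mem_univ i0) (Finset.mem_filter.1 hB).2.1]]] at h
  have t1 : E.wab (Z (none, x.1)) pb (T.τ pb.1) = pb.2 := hv.wy_τ_b
  have t2 : E.wab (Z (none, x0.1)) pb (T.τ pb.1) = pb.2 := hv0.wy_τ_b
  have t3 : E.wab (Z (none, x.1)) pb (T.τ (Z (none, x.1)).1) = (Z (none, x.1)).2 := hv.wy_τ_a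
  have t4 : E.wab (Z (none, x0.1)) pb (T.τ (Z (none, x0.1)).1) = (Z (none, x0.1)).2 := hv0.wy_τ_a
  simp only [cube, if_true, Bool.false_eq_true, if_false, t1, t2, t3, t4] at h
  rw [zero, bil, F2_sub, Cst, show (E.dat Z pb x0).1 = x0 from rfl]
  linear_combination h

theorem mem_Yp (hk : 1 ≤ k) (hZ : E.GridOK Z) (hp : E.PbOK Z pb) {Y'' : Finset (Pt k M)}
    (hY : Y'' ⊆ E.YG Z pb (k + 2)) (hs : x ∉ Quad.star x0)
    (h0 : E.Cons Z pb Y'' Finset.univ x0.1 x0.2 x.2)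
    (h1 : E.Cons Z pb Y'' Finset.univ x.1 x0.2 x.2) : x ∈ E.Yp Z (E.dat Z pb x0) ∩ Y'' := by
  have hc : ∀ (s : Bool) (e : Finset (Fin k)), E.ok Z pb x0 (vtx x0 x s e) := fun s e => by
    rw [ok_vtx hs]
    cases s
    · exact (h0.restrict (Finset.subset_univ e)).mono hY
    · exact (h1.restrict (Finset.subset_univ e)).mono hY
  have hne : (Finset.univ : Finset (Fin k)) ≠ ∅ :=
    Finset.ne_empty_of_mem (Finset.mem_univ ⟨0, hk⟩)
  refine Finset.mem_inter.2 ⟨Finset.mem_filter.2 ⟨Finset.mem_univ _, hs, fun s e h => ?_,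
    fun g => Th (E.cψ Z pb x.1 x0.2 x.2) Finset.univ g +
      Th (E.cψ Z pb x0.1 x0.2 x.2) Finset.univ g, ?_, ?_, fun v hv => ?_⟩, ?_⟩
  · change ((E.dat Z pb x0).2 (vtx x0 x s e)).1
    rw [dat_vtx h]
    exact hc s e
  · exact Tame.sm_comp₂ (h1.th_sm hY subset_rfl) (h0.th_sm hY subset_rfl) (· + ·)
  · refine ((h1.urel hY).add (h0.urel hY)).congr fun B _ g => ?_
    split_ifs with hB
    · rw [hB]
    · exact (dphi_eq hs hB (hc _ _) (hc _ _) g).symm
  · rw [Finset.mem_union, not_or] at hv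
    have hi : ∀ i ∈ (Finset.univ : Finset (Fin k)),
        v ≠ (Z (some i, x0.2 i)).1 ∧ v ≠ (Z (some i, x.2 i)).1 := fun i _ =>
      ⟨fun h => hv.2 (mem_cubeF.2 ⟨i, Or.inl h⟩), fun h => hv.2 (mem_cubeF.2 ⟨i, Or.inr h⟩)⟩
    rw [h1.th_unr hZ hp hY subset_rfl hv.1 (fun h => absurd h hne) (fun h => absurd h hne) hi,
      h0.th_unr hZ hp hY subset_rfl hv.1 (fun h => absurd h hne) (fun h => absurd h hne) hi,
      add_zero]
  · have := h1.mem Finset.univ subset_rfl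
    rwa [mix_univ] at this

end Env

end

end Pool.Agent.Hyp
end

-- merged part: Pool.Agent.Work.MP_60d5ce_nt.Hy.GridE
section
/-!
# The number of data, and independence of the forced equations  (task QT GridE)

Template `Sm/GridE.lean`.
* `phi_mem`: `urel`, `URel.add`, `th_sm`, `th_unr`, `th_pb` (at `pb`), `th_lz`, `th_lh`, `LH.add`; zero is in `FamS`
  (`lh_zero`).
* `DD_card`: `dat pb x0` is determined by `x0` and a function on `Quad.star x0` with values in `Prop × FamS ..`.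
* `zeros_bound`: if no `pb` is valid the set is empty.  Otherwise `D = dat pb0 x0`.  Apply `exists_comm` (with
  `Nn = NC A0`) and `cheb_zeros` with `X = Q`, `A' = image (Z ·).1`, `c (Z ν).1 = s none (some ν.1)`,
  `q0 i = (Z (some i, x0.2 i)).1`, `q1 x i = (Z (some i, x.2 i)).1`,
  `Φ x B = if B = univ then Phs D x else DPhi D x B`, `t x i = τ (q1 x i)`, `ta x = τ (Z (none, x.1)).1`,
  `na x = (Z (none, x.1)).2` (`Mk.nondeg`, `Mk.split_b`, `th_empty`, `chH_tau`, `chH_mem`).  For a valid `pb`,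
  `Φ x B (σ pb) = 0` for `B ≠ univ` by `dphi_of_mem`, `th_mix` and `th_pb`.  `PP Z` is the set `PrM` of `cheb_zeros`.
-/

namespace Pool.Agent.Hyp

open Pool.Agent.Quad

variable [Par]

open scoped Classical

noncomputable section

variable {W P : Type} [Group W] {T : Tame W P}

namespace Env

variable {R : Rep T} {k : ℕ} {E : Env R k} {M : ℕ} {Z : GV k M → MPr P} {pb : MPr P}

variable (E Z) in
/-- the fixed places and the primes of a cube, except the last one -/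
def cubeP (x0 y : Pt k M) : Finset P :=
  E.A0 ∪ insert (Z (none, x0.1)).1 (insert (Z (none, y.1)).1 (E.cubeF Z x0.2 y.2))

theorem phi_mem (hZ : E.GridOK Z) (hp : E.PbOK Z pb) (x0 y : Pt k M) :
    E.Phi Z pb x0 y ∈
      R.FamS E.lam (E.βx Z x0.2 y.2) (Bx x0.2 y.2) (E.cubeP Z x0 y) E.Ot E.xs := by
  unfold Phi
  split_ifs with h
  · have h1 : E.Cons Z pb (E.YG Z pb (k + 2)) (Bx x0.2 y.2) y.1 x0.2 y.2 := h.1
    have h0 : E.Cons Z pb (E.YG Z pb (k + 2)) (Bx x0.2 y.2) x0.1 x0.2 y.2 := h.2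
    refine ⟨fun B hB g g' => ?_, fun B hB => ?_, fun B hB => if_neg hB⟩
    · simp only [if_pos hB]
      refine ((h1.urel subset_rfl).add (h0.urel subset_rfl) B hB g g').trans ?_
      exact congrArg (_ + Matrix.mulVec _ ·)
        (uop_congr fun C hC => by rw [if_pos (hC.trans hB)])
    · simp only [if_pos hB]
      refine ⟨Tame.sm_comp₂ (h1.th_sm subset_rfl hB) (h0.th_sm subset_rfl hB) (· + ·),
        fun v hv => ?_, fun v hv => ?_⟩
      · by_cases hvp : v = pb.1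
        · subst hvp
          exact (h0.th_pb hZ hp subset_rfl h1 hB).1
        · simp only [cubeP, Finset.mem_union, Finset.mem_insert, mem_cubeF, not_or,
            not_exists] at hv
          obtain ⟨hA, hx0, hy, hi⟩ := hv
          rw [h1.th_unr hZ hp subset_rfl hB hA (fun _ => hvp) (fun _ => hy) fun i _ => hi i,
            h0.th_unr hZ hp subset_rfl hB hA (fun _ => hvp) (fun _ => hx0) fun i _ => hi i,
            add_zero]
      · have l1 := h1.th_lz hZ hp subset_rfl hB (Or.inl (E.Ot_sub hv))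
        have l0 := h0.th_lz hZ hp subset_rfl hB (Or.inl (E.Ot_sub hv))
        exact ⟨l1.add l0, (h1.th_lh hZ hp subset_rfl hB hv).add (E.Ot_S v hv) l1 l0
          (h0.th_lh hZ hp subset_rfl hB hv)⟩
  · exact ⟨fun B _ g g' => by simp [uop], fun B _ => ⟨Tame.sm_const 0, fun _ _ => rfl,
      fun v _ => ⟨Lat.z1_zero.lz v, Rep.lh_zero _ _ v⟩⟩, fun _ _ => rfl⟩

theorem GridE_pos {Rb : ℕ} (hR : (R.G1 E.A0 E.Ot E.xs).ncard ≤ Rb) : 0 < Rb :=
  ((Set.ncard_pos (Rep.G1_finite _ _ _)).2 ⟨_, Rep.G1_zero _ _ _⟩).trans_le hR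

theorem GridE_fam {Rb : ℕ} (hR : (R.G1 E.A0 E.Ot E.xs).ncard ≤ Rb) (x0 y : Pt k M) :
    (R.FamS E.lam (E.βx Z x0.2 y.2) (Bx x0.2 y.2) (E.cubeP Z x0 y) E.Ot E.xs).ncard ≤
      Cfam k Rb := by
  have hpos := GridE_pos hR
  have h1 : (R.G1 (E.cubeP Z x0 y) E.Ot E.xs).ncard ≤ Rb * NV ^ (2 * k + 2) :=
    (Rep.G1_union E.Ot_S _ _ _).trans (Nat.mul_le_mul hR (Nat.pow_le_pow_right NV_pos
      ((Finset.card_insert_le _ _).trans (Nat.succ_le_succ ((Finset.card_insert_le _ _).trans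
        (Nat.succ_le_succ (card_cubeF _ _)))))))
  refine (Rep.famS_ncard E.Ot_S _ _ _ _ _).2.trans
    ((Nat.pow_le_pow_left (Nat.pow_le_pow_left h1 _) _).trans ?_)
  have := NV_pos
  exact Nat.pow_le_pow_right (by positivity)
    (Nat.pow_le_pow_right (by norm_num) ((Finset.card_le_univ _).trans (by simp)))

theorem DD_card (hZ : E.GridOK Z) {Rb : ℕ} (hR : (R.G1 E.A0 E.Ot E.xs).ncard ≤ Rb) :
    (E.DD Z).card ≤ M ^ (k + 1) * (2 * Cfam k Rb) ^ ((k + 1) * M ^ k) := by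
  have hpos := GridE_pos hR
  let F : Pt k M → Pt k M → Finset (Prop × (Finset (Fin k) → W → H → F2)) := fun x0 y =>
    Finset.univ ×ˢ (Rep.famS_ncard E.Ot_S E.lam (E.βx Z x0.2 y.2) (Bx x0.2 y.2) (E.cubeP Z x0 y)
      E.xs).1.toFinset
  have hF : ∀ x0 y, (F x0 y).card ≤ 2 * Cfam k Rb := fun x0 y => by
    have := GridE_fam (Z := Z) hR x0 y
    rw [Set.ncard_eq_toFinset_card _ (Rep.famS_ncard E.Ot_S _ _ _ _ _).1] at this
    simp only [F, Finset.card_product, Finset.card_univ, Fintype.card_prop]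
    omega
  have hsub : E.DD Z ⊆ Finset.univ.biUnion fun x0 : Pt k M => ((Quad.star x0).pi (F x0)).image
      fun f => (x0, fun y => if h : y ∈ Quad.star x0 then f y h else (False, 0)) := by
    intro D hD
    obtain ⟨⟨p, x0⟩, hz, rfl⟩ := Finset.mem_image.1 hD
    have hp := mem_PP.1 (Finset.mem_product.1 hz).1
    refine Finset.mem_biUnion.2 ⟨x0, Finset.mem_univ _, Finset.mem_image.2
      ⟨fun y _ => (E.ok Z p x0 y, E.Phi Z p x0 y), Finset.mem_pi.2 fun y _ => ?_, ?_⟩⟩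
    · exact Finset.mem_product.2 ⟨Finset.mem_univ _,
        (Set.Finite.mem_toFinset _).2 (phi_mem hZ hp x0 y)⟩
    · simp only [dat, dite_eq_ite]
  refine (Finset.card_le_card hsub).trans ((Finset.card_biUnion_le_card_mul _ _
    ((2 * Cfam k Rb) ^ ((k + 1) * M ^ k)) fun x0 _ => ?_).trans (le_of_eq ?_))
  · refine Finset.card_image_le.trans ?_
    rw [Finset.card_pi]
    refine (Finset.prod_le_pow_card _ _ _ fun y _ => hF x0 y).trans
      (Nat.pow_le_pow_right ?_ (card_star x0))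
    have := NV_pos
    unfold Cfam
    positivity
  · simp [pow_succ']

variable {x0 x : Pt k M}

variable (Z) in
/-- the primes of the grid -/
def GridE_A : Finset P := Finset.univ.image fun ν => (Z ν).1

theorem GridE_memA (ν : GV k M) : (Z ν).1 ∈ GridE_A Z :=
  Finset.mem_image.2 ⟨ν, Finset.mem_univ _, rfl⟩

theorem GridE_F (z0 z1 : Fin k → Fin M) : E.cubeF Z z0 z1 ⊆ GridE_A Z := fun v hv => by
  obtain ⟨i, rfl | rfl⟩ := mem_cubeF.1 hv
  exacts [GridE_memA _, GridE_memA _]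

theorem GridE_mem (hZ : E.GridOK Z) (hp : E.PbOK Z pb) (hs : x ∉ Quad.star x0)
    {B : Finset (Fin k)} (hB : B ≠ Finset.univ) : T.Sm (DPhi (E.dat Z pb x0) x B) ∧
      ∀ v ∉ E.A0 ∪ GridE_A Z, DPhi (E.dat Z pb x0) x B (T.τ v) = 0 := by
  have h1 : DPhi (E.dat Z pb x0) x B = E.Phi Z pb x0 (vtx x0 x true B) B :=
    congrFun (congrArg Prod.snd (dat_vtx (s := true) fun _ => hB)) B
  have h2 := (phi_mem hZ hp x0 (vtx x0 x true B)).2.1 B (Bx_mix hs B).ge
  rw [h1]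
  exact ⟨h2.1, fun v hv => h2.2.1 v fun hm => hv (Finset.union_subset_union_right
    (Finset.insert_subset (GridE_memA _) (Finset.insert_subset (GridE_memA _) (GridE_F _ _))) hm)⟩

theorem GridE_S (hZ : E.GridOK Z) (ν : GV k M) : (Z ν).1 ∉ R.S := fun h => hZ.notMem ν (S_sub h)

theorem GridE_chH (hZ : E.GridOK Z) (ν μ : GV k M) :
    R.chH (Z ν).1 (Z ν).2 (T.τ (Z μ).1) = if ν = μ then (Z μ).2 else 0 := by
  split_ifs with h
  · rw [h]
    exact Rep.chH_tau (GridE_S hZ μ) (hZ.un μ).2.2.1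
  · exact (Rep.chH_mem (lam := E.lam) _ _).2 _ fun h1 =>
      (Finset.mem_insert.1 h1).elim (fun e => h (hZ.inj e).symm) (GridE_S hZ μ)

theorem GridE_dphi (hx : x ∈ E.Yp Z (E.dat Z pb x0)) {B : Finset (Fin k)} (hB : B ≠ Finset.univ)
    (g : W) : DPhi (E.dat Z pb x0) x B g = Th (E.cψ Z pb x.1 x0.2 (mix B x0.2 x.2)) B g +
      Th (E.cψ Z pb x0.1 x0.2 (mix B x0.2 x.2)) B g := by
  rw [dphi_of_mem hx hB, th_mix subset_rfl, th_mix subset_rfl]

theorem GridE_ta (hk : 1 ≤ k) (hZ : E.GridOK Z) (hp : E.PbOK Z pb)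
    (hx : x ∈ E.Yp Z (E.dat Z pb x0)) {α : Fin M} (hα : α ≠ x0.1) (B : Finset (Fin k)) :
    (if B = Finset.univ then E.Phs Z (E.dat Z pb x0) x (T.τ (Z (none, α)).1)
      else DPhi (E.dat Z pb x0) x B (T.τ (Z (none, α)).1)) =
      if B = ∅ ∧ x.1 = α then (Z (none, α)).2 else 0 := by
  have : Nonempty (Fin k) := ⟨⟨0, hk⟩⟩
  have hne : ∀ i m, (Z (none, α)).1 ≠ (Z (some i, m)).1 := fun i m e => by simpa using hZ.inj e
  by_cases hB : B = Finset.univ
  · rw [if_pos hB, if_neg fun h => Finset.univ_nonempty.ne_empty (hB ▸ h.1)]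
    refine (Phs_spec hx).unr _ fun h => (Finset.mem_union.1 h).elim (hZ.notMem _) fun h => ?_
    obtain ⟨i, h | h⟩ := mem_cubeF.1 h
    exacts [hne _ _ h, hne _ _ h]
  · have h1 := Yp_ok hx (s := true) fun _ => hB
    have h0 := Yp_ok hx (s := false) fun _ => hB
    simp only [if_true, Bool.false_eq_true, if_false] at h1 h0
    rw [if_neg hB, GridE_dphi hx hB]
    by_cases he : B = ∅
    · subst he
      have e : ∀ w a a' b : H → F2, w + a + b + (w + a' + b) = a + a' := fun w a a' b => by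
        rw [show w + a + b + (w + a' + b) = w + b + (w + b) + (a + a') by abel, vb_add_self,
          zero_add]
      rw [h1.th_empty subset_rfl, h0.th_empty subset_rfl, wab, wab, e, GridE_chH hZ, GridE_chH hZ]
      simp only [Prod.mk.injEq, true_and, if_neg hα.symm, add_zero]
    · rw [h1.th_unr hZ hp subset_rfl subset_rfl (hZ.notMem _) (fun h => absurd h he)
          (fun h => absurd h he) fun i _ => ⟨hne _ _, hne _ _⟩,
        h0.th_unr hZ hp subset_rfl subset_rfl (hZ.notMem _) (fun h => absurd h he)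
          (fun h => absurd h he) fun i _ => ⟨hne _ _, hne _ _⟩, add_zero, if_neg fun h => he h.1]

/-- the prescribed symbols -/
def GridE_c (E : Env R k) (Z : GV k M → MPr P) (v : P) : F2 :=
  if h : ∃ ν, v = (Z ν).1 then E.s none (some h.choose.1) else 0

theorem GridE_c_Z (hZ : E.GridOK Z) (ν : GV k M) :
    GridE_c E Z (Z ν).1 = E.s none (some ν.1) := by
  have h : ∃ μ, (Z ν).1 = (Z μ).1 := ⟨ν, rfl⟩
  rw [GridE_c, dif_pos h, ← hZ.inj h.choose_spec]

theorem GridE_pr (hZ : E.GridOK Z) : (E.PP Z : Set (MPr P)) = T.PrM (E.A0 ∪ GridE_A Z)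
    (fun g n => E.Mk none g n ∧ ∀ a ∈ GridE_A Z, T.χ a g = GridE_c E Z a) (E.e none) := by
  ext p
  rw [Finset.mem_coe, mem_PP]
  constructor
  · rintro ⟨⟨h1, h2, h3⟩, h4⟩
    refine ⟨h1, fun h => (Finset.mem_union.1 h).elim h2 fun h => ?_, h3, fun a ha => ?_⟩
    · obtain ⟨ν, -, e⟩ := Finset.mem_image.1 h
      exact (h4 ν).1 e.symm
    · obtain ⟨ν, -, rfl⟩ := Finset.mem_image.1 ha
      rw [GridE_c_Z hZ, (h4 ν).2]
  · rintro ⟨h1, h2, h3, h4⟩
    exact ⟨⟨h1, fun h => h2 (Finset.mem_union_left _ h), h3⟩, fun ν =>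
      ⟨fun e => h2 (e ▸ Finset.mem_union_right _ (GridE_memA ν)),
        (h4 _ (GridE_memA ν)).trans (GridE_c_Z hZ ν)⟩⟩

theorem GridE_disj (hZ : E.GridOK Z) : ∀ a ∈ GridE_A Z, a ∉ E.A0 := fun a ha => by
  obtain ⟨ν, -, rfl⟩ := Finset.mem_image.1 ha
  exact hZ.notMem ν

theorem GridE_dg (hZ : E.GridOK Z) : ∑ v ∈ E.A0 ∪ GridE_A Z, T.dg v =
    ∑ v ∈ E.A0, T.dg v + M * ∑ j, E.e (some j) := by
  rw [Finset.sum_union (Finset.disjoint_right.2 (GridE_disj hZ)), GridE_A,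
    Finset.sum_image fun a _ b _ h => hZ.inj h,
    Finset.sum_congr rfl fun ν _ => (hZ.un ν).1, Fintype.sum_prod_type, Finset.mul_sum]
  simp

theorem zeros_bound (hk : 1 ≤ k) (i0 : Fin k) (hZ : E.GridOK Z)
    (hsm : T.Small (1 / 2) (NN E.A0.card * 2 ^ ((k + 1) * M) * NU k ^ M ^ (k + 1))
      (∑ v ∈ E.A0, T.dg v + M * ∑ j, E.e (some j)) (E.e none))
    (D : Dt W k M) {Q : Finset (Pt k M)} (hQ : Q ⊆ E.Yp Z D) (s : ℕ) :
    (((E.PP Z).filter fun p => D = E.dat Z p D.1 ∧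
      2 * Q.card + 3 * s ≤ 3 * (Q.filter fun x => E.zero Z i0 D x p).card).card : ℝ) ≤
      3 * (2 : ℝ)⁻¹ ^ s * (E.PP Z).card := by
  set S := (E.PP Z).filter fun p => D = E.dat Z p D.1 ∧
    2 * Q.card + 3 * s ≤ 3 * (Q.filter fun x => E.zero Z i0 D x p).card with hS
  rcases S.eq_empty_or_nonempty with h | ⟨p0, hp0⟩
  · rw [h, Finset.card_empty, Nat.cast_zero]
    positivity
  have : Nonempty (Fin k) := ⟨⟨0, hk⟩⟩
  obtain ⟨hp0, hD0, -⟩ := Finset.mem_filter.1 hp0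
  rw [mem_PP] at hp0
  have hst : ∀ x : Q, ∀ j, coord x.1 j ≠ coord D.1 j := fun x =>
    not_mem_star.1 (Yp_star (hQ x.2))
  let Φ : Q → Finset (Fin k) → W → H → F2 := fun x B g =>
    if B = Finset.univ then E.Phs Z D x g else DPhi D x B g
  have hΦ : ∀ x : Q, (R.hat E.lam).URel (E.βx Z D.1.2 x.1.2) Finset.univ (Φ x) := fun x =>
    (Phs_spec (hQ x.2)).rel
  have hrb : ∀ ν, (R.hat E.lam).rb (T.τ (Z ν).1) = 1 := fun ν => Lat.rb_unr (GridE_S hZ ν)
  obtain ⟨z, hz⟩ := Lat.exists_comm (fun x : Q => E.βx Z D.1.2 x.1.2)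
    (fun x i => βx_hom _ _ i) Φ hΦ (fun x => x.1.2) (fun x => x.1.1)
    (fun x x' h h' => Subtype.ext (Prod.ext h' h)) (fun x i => T.τ (Z (some i, x.1.2 i)).1)
    (fun x => T.τ (Z (none, x.1.1)).1) (fun x => (Z (none, x.1.1)).2) (T.NC E.A0) Tame.nc_normal
    (fun x i => Tame.tau_mem_nc (hZ.notMem _)) (fun x i => hrb _) (fun x => hrb _)
    (fun x x' i j => by
      simp only [βx, chi_τ hZ, Prod.mk.injEq, Option.some.injEq]
      by_cases h : j = i
      · subst h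
        have := (hst x (some j)).symm
        simp only [coord] at this
        simp [this]
      · simp [h])
    (fun x x' j => by simp [βx, chi_τ hZ])
    (fun x x' B => by
      have h1 := hQ x'.2
      rw [hD0] at h1
      have h2 := GridE_ta hk hZ hp0 h1 (hst x none) B
      rw [← hD0] at h2
      refine h2.trans ?_
      by_cases h3 : B = ∅ ∧ x'.1.1 = x.1.1
      · exact (if_pos h3).trans (if_pos h3).symm
      · exact (if_neg h3).trans (if_neg h3).symm)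
  have hmem : ∀ (x : Q) B, B ≠ Finset.univ → T.Sm (DPhi D x B) ∧
      ∀ v ∉ E.A0 ∪ GridE_A Z, DPhi D x B (T.τ v) = 0 := fun x B hB => by
    have := GridE_mem hZ hp0 (Yp_star (hQ x.2)) hB
    rwa [← hD0] at this
  have hc1 : (GridE_A Z).card ≤ (k + 1) * M := Finset.card_image_le.trans (by simp)
  have hc2 : Fintype.card Q ≤ M ^ (k + 1) := by
    rw [Fintype.card_coe]
    exact (Finset.card_le_univ _).trans (by simp [pow_succ'])
  have hch := Rep.cheb_zeros S_sub (GridE_disj hZ) (mk_mp none) (fun _ _ h => h.split_b)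
    (GridE_c E Z) (fun i => (Z (some i, D.1.2 i)).1) (fun (x : Q) i => (Z (some i, x.1.2 i)).1)
    (fun _ => GridE_memA _) (fun x i => ⟨GridE_memA _, by rw [GridE_c_Z hZ, GridE_c_Z hZ]⟩) Φ hΦ
    (fun x B => by
      by_cases hB : B = Finset.univ
      · simp only [Φ, if_pos hB]; exact (Phs_spec (hQ x.2)).sm
      · simp only [Φ, if_neg hB]; exact (hmem x B hB).1)
    (fun x B v hv => by
      by_cases hB : B = Finset.univ
      · simp only [Φ, if_pos hB]
        exact (Phs_spec (hQ x.2)).unr v fun hm =>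
          hv (Finset.union_subset_union_right (GridE_F _ _) hm)
      · simp only [Φ, if_neg hB]; exact (hmem x B hB).2 v hv)
    (fun x => (Z (none, x.1.1)).2) (fun x g n h => Mk.nondeg (hZ.un (none, x.1.1)).2.2 h)
    z hz (fun x => E.Cst Z i0 D x) s (E.e none) (e_pos _)
    (hsm.mono le_rfl (by
      rw [Fintype.card_fin]
      exact Nat.mul_le_mul (Nat.mul_le_mul_left _ (Nat.pow_le_pow_right (by norm_num) hc1))
        (Nat.pow_le_pow_right (NU_pos k) hc2)) (GridE_dg hZ).le)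
  rw [← GridE_pr hZ, Set.ncard_coe_finset] at hch
  refine le_trans ?_ hch
  rw [← Set.ncard_coe_finset]
  refine Nat.cast_le.2 (Set.ncard_le_ncard (fun p hp => ?_)
    ((E.PP Z).finite_toSet.subset fun _ h => h.1))
  obtain ⟨hp, hD, hc⟩ := Finset.mem_filter.1 (Finset.mem_coe.1 hp)
  refine ⟨Finset.mem_coe.2 hp, fun x B hB => ?_, ?_⟩
  · have h1 := hQ x.2
    rw [hD] at h1
    have h2 := GridE_dphi h1 hB (T.σ p.1)
    rw [← hD] at h2
    simp only [Φ, if_neg hB]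
    rw [h2]
    exact ((Yp_ok h1 (s := false) fun _ => hB).th_pb hZ (mem_PP.1 hp) subset_rfl
      (Yp_ok h1 (s := true) fun _ => hB) subset_rfl).2
  · rw [Fintype.card_coe]
    refine hc.trans (Nat.mul_le_mul_left _ (le_of_eq ?_))
    rw [← Set.ncard_coe_finset, ← Set.ncard_image_of_injective _ Subtype.val_injective]
    refine congrArg _ (Set.ext fun x => ?_)
    rw [Finset.mem_coe, Finset.mem_filter]
    simp only [Φ, if_true, Set.mem_ofPred_eq, Set.mem_image, Subtype.exists,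
      exists_and_right, exists_eq_right, zero, exists_prop]

end Env

end

end Pool.Agent.Hyp
end

-- merged part: Pool.Agent.Work.MP_60d5ce_nt.Hy.Step
section
/-!
# One step: at most two thirds of the classes of level `k` lift to level `k + 2`  (task QT Step)

Port of `Sm/Step.lean` (copy its auxiliary lemmas `Step_fib`, `Step_lab`, `Step_pos`, `Step_ok`, `Step_sum`, `Step_abs`,
`Step_B0`, replacing primes by marked primes and one half by two thirds).
* `grid`: `cover_union` with `𝒟 = DD Z`, `Y' = Yp Z`, `valid p D := D = dat Z p D.1`, `Yl p = YG Z p k`,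
  `Y p = YG Z p (k + 2)`, `Z p = YDG Z p`, `i0 = ⟨0, _⟩`, `C = 2 * Cfam k Rb'` in `numerics`.
* `step`: `valid_count` with `L = R.hat E.lam`, `N0 = NN A0.card`, `mk_mp`, `s_symm`; the weights are positive by `dM_pos`.
-/

namespace Pool.Agent.Hyp

open Pool.Agent.Quad

variable [Par]

open scoped Classical

noncomputable section

theorem grid {k : ℕ} (hk : 2 ≤ k) (Rb : ℕ) {ε : ℝ} (hε : 0 < ε) :
    ∃ M : ℕ, 0 < M ∧ ∀ {W P : Type} [Group W] {T : Tame W P} {R : Rep T} (E : Env R k),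
      (R.G1 E.A0 E.Ot E.xs).ncard ≤ Rb → ∀ Z : GV k M → MPr P, E.GridOK Z →
      T.Small (1 / 2) (NN E.A0.card * 2 ^ ((k + 1) * M) * NU k ^ M ^ (k + 1))
        (∑ v ∈ E.A0, T.dg v + M * ∑ j, E.e (some j)) (E.e none) →
      ∑ p ∈ E.PP Z, ((E.YDG Z p).card : ℝ) ≤ 2 / 3 * (∑ p ∈ E.PP Z, ((E.YG Z p k).card : ℝ)) +
        ε * (E.PP Z).card * (M : ℝ) ^ (k + 1) := by
  have hR1 : 0 < max Rb 1 := lt_max_of_lt_right one_pos
  obtain ⟨δ, hδ⟩ : ∃ δ : ℝ, δ = dd (ε / 3) (Env.Ccol k (max Rb 1)) k ^ 2 / 2 := ⟨_, rfl⟩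
  have δ0 : 0 < δ := by
    have := dd_pos (δ := ε / 3) (by positivity) (Env.Ccol_pos (k := k) hR1) k
    rw [hδ]
    positivity
  have hJ : 1 ≤ δ * (⌈1 / δ⌉₊ : ℕ) := by
    have := mul_le_mul_of_nonneg_left (Nat.le_ceil (1 / δ)) δ0.le
    rwa [mul_one_div_cancel δ0.ne'] at this
  obtain ⟨M0, hM0⟩ := numerics k (2 * Env.Cfam k (max Rb 1)) ⌈1 / δ⌉₊
    (Nat.ceil_pos.2 (by positivity)) (ε := ε / 3) (by positivity)
  obtain ⟨M, M1, M2, M3⟩ : ∃ M : ℕ, 0 < M ∧ M0 ≤ M ∧ (k + 1 : ℝ) ≤ δ * M := by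
    refine ⟨max M0 ⌈(k + 1 : ℝ) / δ⌉₊ + 1, Nat.succ_pos _,
      (le_max_left _ _).trans (Nat.le_succ _), ?_⟩
    rw [mul_comm, ← div_le_iff₀ δ0]
    exact (Nat.le_ceil _).trans (Nat.cast_le.2 ((le_max_right _ _).trans (Nat.le_succ _)))
  obtain ⟨s, s1, s2⟩ := hM0 M M2
  refine ⟨M, M1, fun {W P} _ {T R} E hR Z hZ hsm => ?_⟩
  have hR' := hR.trans (le_max_left Rb 1)
  have i0 : Fin k := ⟨0, by omega⟩
  have hX : (Fintype.card (Pt k M) : ℝ) = (M : ℝ) ^ (k + 1) := by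
    simp [pow_succ']
  have h := cover_union (E.DD Z) (E.Yp Z) (E.PP Z) (fun p D => D = E.dat Z p D.1)
    (fun p => E.YG Z p k) (fun p => E.YG Z p (k + 2)) (fun p => E.YDG Z p) (E.zero Z i0)
    (ε := ε / 3) (δ := δ)
    (θ := 3 * (2 : ℝ)⁻¹ ^ s * (E.PP Z).card) (s := s) (J := ⌈1 / δ⌉₊) (by positivity) δ0
    (by positivity) hJ
    (fun p _ x hx => Finset.mem_filter.2
      ⟨Finset.mem_univ _, (Finset.mem_filter.1 hx).2.1⟩)
    (fun p hp D _ hD => hD ▸ Env.Yp_sub hk hZ (Env.mem_PP.1 hp))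
    (fun p hp D _ hD x hx hx' => by
      rw [hD] at hx ⊢
      exact Env.zero_of_lift hk _ hZ (Env.mem_PP.1 hp) hx hx')
    (fun p hp Y'' hY hc => by
      rw [hX] at hc ⊢
      obtain ⟨x0, hx0⟩ := Env.dens M1 hZ (Env.mem_PP.1 hp) hY hR' (by positivity) hc
      refine ⟨E.dat Z p x0, Finset.mem_image.2
        ⟨(p, x0), Finset.mem_product.2 ⟨hp, Finset.mem_univ _⟩, rfl⟩, rfl, ?_⟩
      have h1 : (Finset.univ.filter fun x : Pt k M => E.Cons Z p Y'' Finset.univ x0.1 x0.2 x.2 ∧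
          E.Cons Z p Y'' Finset.univ x.1 x0.2 x.2) ⊆ (E.Yp Z (E.dat Z p x0) ∩ Y'') ∪ Quad.star x0 := by
        intro x hx
        by_cases hs : x ∈ Quad.star x0
        · exact Finset.mem_union_right _ hs
        · exact Finset.mem_union_left _ (Env.mem_Yp (by omega) hZ (Env.mem_PP.1 hp) hY hs
            (Finset.mem_filter.1 hx).2.1 (Finset.mem_filter.1 hx).2.2)
      have h2 := (Finset.card_le_card h1).trans ((Finset.card_union_le _ _).trans
        (Nat.add_le_add_left (card_star x0) _))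
      have h3 := hx0.trans (Nat.cast_le.2 h2)
      have h4 := mul_le_mul_of_nonneg_right M3 (by positivity : (0 : ℝ) ≤ (M : ℝ) ^ k)
      push_cast at h3
      rw [show dd (ε / 3) (Env.Ccol k (max Rb 1)) k ^ 2 = 2 * δ by rw [hδ]; ring] at h3
      rw [pow_succ] at h3 ⊢
      refine le_of_le_of_eq (b := ((E.Yp Z (E.dat Z p x0) ∩ Y'').card : ℝ)) (by linarith) ?_
      congr
      exact Subsingleton.elim _ _)
    (fun D _ Q hQ => by
      refine le_of_eq_of_le ?_ (Env.zeros_bound (by omega) i0 hZ hsm D hQ s)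
      congr)
  rw [hX] at h
  have h5 : ((E.DD Z).card : ℝ) ≤ (M : ℝ) ^ (k + 1) *
      ((2 * Env.Cfam k (max Rb 1) : ℕ) : ℝ) ^ ((k + 1) * M ^ k) := by
    exact_mod_cast Env.DD_card hZ hR'
  have h6 : (((E.DD Z).card : ℝ) + 1) ^ (⌈1 / δ⌉₊ + 1) * (3 * (2 : ℝ)⁻¹ ^ s) ≤ ε / 3 :=
    le_trans (by gcongr) s2
  have h7 := mul_le_mul_of_nonneg_right h6
    (by positivity : (0 : ℝ) ≤ (E.PP Z).card * (M : ℝ) ^ (k + 1))
  have h8 := mul_le_mul_of_nonneg_left s1 (Nat.cast_nonneg (α := ℝ) (E.PP Z).card)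
  linarith

section

variable {W P : Type} [Group W] {T : Tame W P}

theorem Step_fib {𝒱 J I : Type} [Fintype 𝒱] [Fintype J] [Fintype I] [DecidableEq I] {L : Lat T I}
    {A0 : Finset P} (hA : T.inf ∈ A0) (e : J → ℕ) {N0 : ℕ} (Mk : J → W → (I → F2) → Prop)
    (hMk : ∀ j, L.MP A0 N0 (Mk j)) (hd : ∀ j, 0 < T.dM (Mk j) (e j)) (s : J → J → F2)
    (hs : ∀ i j, i ≠ j → s i j = s j i + T.eps * (e i : F2) * (e j : F2)) (he : ∀ j, 0 < e j)
    (lab : 𝒱 → J) (pos : J → 𝒱) (hlp : ∀ j, lab (pos j) = j) {η r : ℝ} (η0 : 0 ≤ η) (η1 : η < 1)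
    (hr : ((1 + η) / (1 - η)) ^ Fintype.card 𝒱 ≤ r) {c : ℕ} (hc : ∀ j, e j ≤ c)
    (hsm : ∀ j, T.Small η (N0 * 2 ^ Fintype.card 𝒱)
      (∑ v ∈ A0, T.dg v + Fintype.card 𝒱 * c) (e j)) :
    ∃ a : ℝ, 0 < a ∧ ∀ y, ValidOn (T.Un A0 e Mk) (T.Bi (fun _ _ => True) s) Finset.univ y →
      a ≤ ({g | ValidOn (T.Un A0 (fun ν => e (lab ν)) fun ν => Mk (lab ν))
        (T.Bi (fun ν μ => lab ν ≠ lab μ) fun ν μ => s (lab ν) (lab μ)) Finset.univ g ∧
          (fun j => g (pos j)) = y}.ncard : ℝ) ∧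
      ({g | ValidOn (T.Un A0 (fun ν => e (lab ν)) fun ν => Mk (lab ν))
        (T.Bi (fun ν μ => lab ν ≠ lab μ) fun ν μ => s (lab ν) (lab μ)) Finset.univ g ∧
          (fun j => g (pos j)) = y}.ncard : ℝ) ≤ r * a := by
  let _ : LinearOrder 𝒱 := LinearOrder.lift' (Fintype.equivFin 𝒱) (Fintype.equivFin 𝒱).injective
  obtain ⟨𝒜, h𝒜⟩ : ∃ 𝒜 : Finset 𝒱, ∀ ν, ν ∈ 𝒜 ↔ ∃ j, pos j = ν :=
    ⟨Finset.univ.filter fun ν => ∃ j, pos j = ν, by simp⟩
  obtain ⟨𝒩, h𝒩⟩ : ∃ 𝒩 : Finset 𝒱, ∀ ν, ν ∈ 𝒩 ↔ ν ∉ 𝒜 :=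
    ⟨Finset.univ.filter fun ν => ν ∉ 𝒜, by simp⟩
  have hq : (0 : ℝ) < T.q := by
    have := T.q_ge
    exact_mod_cast (by omega : 0 < T.q)
  have hw : ∀ j n, 0 < T.wtp (T.dM (Mk j) (e j)) (e j) n := fun j n => by
    have : (0 : ℝ) < e j := Nat.cast_pos.2 (he j)
    have := hd j
    unfold Tame.wtp
    positivity
  have HH := Lat.valid_count hA (fun ν => e (lab ν)) (fun ν => Mk (lab ν)) (fun ν => hMk (lab ν))
    (fun ν μ => lab ν ≠ lab μ) (fun _ _ h => h.symm) (fun ν μ => s (lab ν) (lab μ))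
    (fun _ _ h => hs _ _ h) 𝒜 𝒩 (Finset.disjoint_right.2 fun ν h => (h𝒩 ν).1 h) (fun _ => η)
    (fun ν _ => he _) (fun _ _ => η1.le) fun ν _ => (hsm (lab ν)).mono le_rfl
      (Nat.mul_le_mul_left _ (Nat.pow_le_pow_right (by norm_num) (Finset.card_le_univ _)))
      (Nat.add_le_add_left ((Finset.sum_le_card_nsmul _ _ c fun μ _ => hc _).trans
        (Nat.mul_le_mul_right c (Finset.card_le_univ _))) _)
  have η2 : 0 < 1 - η := by linarith
  apply Exists.intro
  constructor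
  swap
  intro y hy
  obtain ⟨-, h1, h2⟩ := HH (fun ν => y (lab ν)) ⟨fun ν _ => hy.1 _ (Finset.mem_univ _),
    fun ν hν μ hμ hne => by
      obtain ⟨i, rfl⟩ := (h𝒜 ν).1 hν
      obtain ⟨j, rfl⟩ := (h𝒜 μ).1 hμ
      have := hy.2 (lab (pos i)) (Finset.mem_univ _) (lab (pos j)) (Finset.mem_univ _)
        (by rw [hlp, hlp]; exact fun h => hne (congrArg pos h))
      exact ⟨this.1, fun _ => this.2 trivial⟩⟩
  have hU : ∀ ν, ν ∈ 𝒜 ∪ 𝒩 := fun ν => by
    rw [Finset.mem_union, h𝒩]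
    exact em _
  rw [Finset.eq_univ_of_forall hU] at h1 h2
  have e1 : ∀ g : 𝒱 → P × (I → F2), (fun j => g (pos j)) = y ↔ ∀ ν ∉ 𝒩, g ν = y (lab ν) := fun g => by
    constructor
    · rintro rfl ν hν
      obtain ⟨j, rfl⟩ := (h𝒜 ν).1 (by rwa [h𝒩, not_not] at hν)
      rw [hlp]
    · intro h
      funext j
      rw [h _ (by rw [h𝒩, not_not, h𝒜]; exact ⟨j, rfl⟩), hlp]
  simp only [e1]
  refine ⟨h1, h2.trans ?_⟩
  have ρ1 : 1 ≤ (1 + η) / (1 - η) := by
    rw [le_div_iff₀ η2]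
    linarith
  refine le_trans (le_of_eq ?_) (mul_le_mul_of_nonneg_right
    ((pow_le_pow_right₀ ρ1 (Finset.card_le_univ 𝒩)).trans hr)
    (Finset.prod_pos fun ν _ => mul_pos η2 (hw _ _)).le)
  rw [← Finset.prod_const, ← Finset.prod_mul_distrib]
  refine Finset.prod_congr rfl fun ν _ => ?_
  field_simp
  exact Finset.prod_pos fun ν _ => mul_pos η2 (hw _ _)

variable {R : Rep T} {k M : ℕ} (E : Env R k)

/-- labels of the vertices together with the last prime -/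
def Step_lab (ν : Option (GV k M)) : Jx k := ν.map Prod.fst

/-- the vertices at a position -/
def Step_pos (x : Pt k M) (j : Jx k) : Option (GV k M) := j.map fun i => (i, coord x i)

/-- valid grids together with a valid last prime -/
def Step_ok (g : Option (GV k M) → MPr P) : Prop :=
  ValidOn (T.Un E.A0 (fun ν => E.e (Step_lab ν)) fun ν => E.Mk (Step_lab ν))
    (T.Bi (fun ν μ => Step_lab ν ≠ Step_lab μ) fun ν μ => E.s (Step_lab ν) (Step_lab μ))
    Finset.univ g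

theorem Step_lab_pos (x : Pt k M) (j : Jx k) : Step_lab (Step_pos x j) = j := by
  cases j <;> rfl

theorem Step_pt (g : Option (GV k M) → MPr P) (x : Pt k M) :
    pt (fun ν => g (some ν)) (g none) x = fun j => g (Step_pos x j) := by
  funext j
  cases j <;> rfl

theorem Step_ok_iff (g : Option (GV k M) → MPr P) : Step_ok E g ↔
    E.GridOK (fun ν => g (some ν)) ∧ E.PbOK (fun ν => g (some ν)) (g none) := by
  have m := fun ν : Option (GV k M) => Finset.mem_univ ν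
  have m' := fun ν : GV k M => Finset.mem_univ ν
  constructor
  · intro h
    refine ⟨⟨fun ν _ => h.1 (some ν) (m _), fun ν _ μ _ hne => ?_⟩, h.1 none (m _), fun ν => ?_⟩
    · have := h.2 (some ν) (m _) (some μ) (m _) fun h' => hne (Option.some.inj h')
      exact ⟨this.1, fun h' => this.2 fun h'' => h' (Option.some.inj h'')⟩
    · have := h.2 none (m _) (some ν) (m _) (by simp)
      exact ⟨this.1, this.2 (by simp [Step_lab])⟩
  · rintro ⟨h1, h2, h3⟩
    refine ⟨fun ν _ => ?_, fun ν _ μ _ hne => ?_⟩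
    · cases ν with
      | none => exact h2
      | some ν => exact h1.1 ν (m' _)
    · cases ν with
      | none =>
        cases μ with
        | none => exact absurd rfl hne
        | some μ => exact ⟨(h3 μ).1, fun _ => (h3 μ).2⟩
      | some ν =>
        cases μ with
        | none =>
          refine ⟨(h3 ν).1.symm, fun _ => ?_⟩
          have e1 : T.dg (g none).1 = E.e none := h2.1
          have e2 : T.dg (g (some ν)).1 = E.e (some ν.1) := (h1.un ν).1
          change T.χ (g none).1 (T.σ (g (some ν)).1) = E.s (some ν.1) none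
          rw [Env.s_symm (by simp), ← (h3 ν).2, mul_right_comm, ← e1, ← e2]
          exact Tame.chi_symm (Env.ne_inf h2.2.1) (Env.ne_inf (h1.notMem ν)) (h3 ν).1
        | some μ =>
          have := h1.2 ν (m' _) μ (m' _) fun h' => hne (congrArg some h')
          exact ⟨this.1, fun h' => this.2 fun h'' => h' (congrArg some h'')⟩

theorem Step_fin : {g : Option (GV k M) → MPr P | Step_ok E g}.Finite :=
  (Set.Finite.pi' fun ν => (T.dg_fin (E.e (Step_lab ν))).prod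
    (Set.finite_univ (α := H → F2))).subset fun _ h ν =>
      ⟨(h.1 ν (Finset.mem_univ _)).1, Set.mem_univ _⟩

theorem Step_sum {Om : Finset (Option (GV k M) → MPr P)} (hO : ∀ g, g ∈ Om ↔ Step_ok E g)
    (F : (GV k M → MPr P) → MPr P → ℝ) (h : ∀ Z, E.GridOK Z → 0 ≤ ∑ p ∈ E.PP Z, F Z p) :
    0 ≤ ∑ g ∈ Om, F (fun ν => g (some ν)) (g none) := by
  rw [← Finset.sum_fiberwise_of_maps_to (g := fun g ν => g (some ν))
    fun g hg => Finset.mem_image_of_mem _ hg]
  refine Finset.sum_nonneg fun Z hZ => ?_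
  obtain ⟨g0, hg0, rfl⟩ := Finset.mem_image.1 hZ
  have hZ' := ((Step_ok_iff E g0).1 ((hO g0).1 hg0)).1
  refine (h _ hZ').trans_eq (Finset.sum_nbij' (fun p ν => ν.elim p fun μ => g0 (some μ))
    (fun g => g none) (fun p hp => ?_) (fun g hg => ?_) (fun _ _ => rfl) (fun g hg => ?_)
    fun _ _ => rfl)
  · exact Finset.mem_filter.2 ⟨(hO _).2 ((Step_ok_iff E _).2 ⟨hZ', Env.mem_PP.1 hp⟩), rfl⟩
  · obtain ⟨h1, h2⟩ := Finset.mem_filter.1 hg
    exact Env.mem_PP.2 (h2 ▸ ((Step_ok_iff E g).1 ((hO g).1 h1)).2)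
  · funext ν
    cases ν with
    | none => rfl
    | some μ => exact (congrFun (Finset.mem_filter.1 hg).2 μ).symm

theorem Step_YDG (Z : GV k M → MPr P) (p : MPr P) :
    {x | pt Z p x ∈ E.YD}.ncard = (E.YDG Z p).card := by
  rw [← Set.ncard_coe_finset]
  congr 1
  ext x
  simp [Env.YDG]

theorem Step_YG (Z : GV k M → MPr P) (p : MPr P) (j : ℕ) :
    {x | pt Z p x ∈ E.Y j}.ncard = (E.YG Z p j).card := by
  rw [← Set.ncard_coe_finset]
  congr 1
  ext x
  simp [Env.YG]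

end

theorem Step_abs {Ω Y X : Type} [Fintype X] [Nonempty X] (Om : Finset Ω) {V Y0 Y1 : Set Y}
    (hV : V.Finite) (h0 : Y0 ⊆ V) (h1 : Y1 ⊆ V) (pr : X → Ω → Y)
    (hpr : ∀ x, ∀ ω ∈ Om, pr x ω ∈ V) {r ε : ℝ} (r0 : 0 ≤ r) (ε0 : 0 ≤ ε)
    (hf : ∀ x, ∃ a : ℝ, 0 < a ∧ ∀ y ∈ V, a ≤ {ω | ω ∈ Om ∧ pr x ω = y}.ncard ∧
      ({ω | ω ∈ Om ∧ pr x ω = y}.ncard : ℝ) ≤ r * a)
    (hs : 0 ≤ ∑ ω ∈ Om, (2 / 3 * ({x | pr x ω ∈ Y0}.ncard : ℝ) + ε * Fintype.card X -
      {x | pr x ω ∈ Y1}.ncard)) :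
    (Y1.ncard : ℝ) ≤ r ^ 2 * (2 / 3) * Y0.ncard + r * ε * V.ncard := by
  lift V to Finset Y using hV
  lift Y0 to Finset Y using V.finite_toSet.subset h0
  lift Y1 to Finset Y using V.finite_toSet.subset h1
  choose a a0 ha using hf
  have e1 : ∀ x y, {ω | ω ∈ Om ∧ pr x ω = y}.ncard = (Om.filter fun ω => pr x ω = y).card :=
    fun x y => by rw [← Set.ncard_coe_finset, Finset.coe_filter]
  have e2 : ∀ B : Finset Y, ∑ ω ∈ Om, (({x | pr x ω ∈ (B : Set Y)}.ncard : ℕ) : ℝ) =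
      ∑ x, ((Om.filter fun ω => pr x ω ∈ B).card : ℝ) := fun B => by
    have e3 : ∀ ω, {x | pr x ω ∈ (B : Set Y)}.ncard =
        (Finset.univ.filter fun x => pr x ω ∈ B).card := fun ω => by
      rw [← Set.ncard_coe_finset]
      congr 1
      ext x
      simp
    simp only [e3, Finset.card_filter]
    push_cast
    exact Finset.sum_comm
  simp only [e1] at ha
  have mg := fun x B hB => marginal Om V (pr x) (hpr x) (a0 x) (ha x) B hB
  simp only [fun x => mul_div_cancel_right₀ r (a0 x).ne'] at mg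
  rw [Finset.sum_sub_distrib, Finset.sum_add_distrib, ← Finset.mul_sum, Finset.sum_const,
    nsmul_eq_mul, e2, e2] at hs
  have g2 := Finset.sum_le_sum fun x (_ : x ∈ Finset.univ) => (mg x Y0 h0).1
  have g3 := Finset.sum_le_sum fun x (_ : x ∈ Finset.univ) => (mg x Y1 h1).2.1
  have g4 := (mg (Classical.arbitrary X) Y0 h0).2.2
  have g5 : (Y1.card : ℝ) ≤ V.card := Nat.cast_le.2 (Finset.card_le_card h1)
  rw [Finset.sum_const, Finset.card_univ, nsmul_eq_mul, ← Finset.sum_mul] at g2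
  rw [Finset.sum_const, Finset.card_univ, nsmul_eq_mul, ← Finset.sum_mul, ← Finset.mul_sum] at g3
  have N0 : (0 : ℝ) < Fintype.card X := Nat.cast_pos.2 Fintype.card_pos
  simp only [Set.ncard_coe_finset]
  rcases (Nat.cast_nonneg (α := ℝ) V.card).eq_or_lt with v0 | v1
  · exact (g5.trans v0.ge).trans (by positivity)
  have o0 : (0 : ℝ) < Om.card := (mul_pos (a0 _) v1).trans_le g4
  have g6 := mul_le_mul_of_nonneg_left (sub_nonneg.1 hs) (by positivity : 0 ≤ r * V.card)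
  have g7 := mul_le_mul_of_nonneg_left g2 (by positivity : 0 ≤ r * (2 / 3))
  exact le_of_mul_le_mul_left (by linarith) (mul_pos N0 o0)

theorem Step_B0 (n N : ℕ) {t : ℝ} (ht : 0 < t) : ∃ B : ℕ, 2 ≤ B ∧ N ≤ B ∧
    ((1 + 1 / (B : ℝ)) / (1 - 1 / (B : ℝ))) ^ n ≤ 1 + t := by
  have h0 := tendsto_one_div_atTop_nhds_zero_nat (𝕜 := ℝ)
  have h1 := ((h0.const_add 1).div (h0.const_sub 1) (by norm_num)).pow n
  have h2 := h1.eventually (ge_mem_nhds (show _ < 1 + t by simpa using ht))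
  obtain ⟨B, b1, b2, b3⟩ := ((Filter.eventually_ge_atTop 2).and
    ((Filter.eventually_ge_atTop N).and h2)).exists
  exact ⟨B, b1, b2, b3⟩

theorem step {k : ℕ} (hk : 2 ≤ k) (Rb : ℕ) {ε : ℝ} (hε : 0 < ε) :
    ∃ B0 : ℕ, 0 < B0 ∧ ∀ {W P : Type} [Group W] {T : Tame W P} {R : Rep T} (E : Env R k),
      (R.G1 E.A0 E.Ot E.xs).ncard ≤ Rb →
      (∀ j j', T.Small (1 / (B0 : ℝ)) (B0 * NN E.A0.card) (∑ v ∈ E.A0, T.dg v + B0 * E.e j')
        (E.e j)) →
      (E.YD.ncard : ℝ) ≤ (2 / 3 + ε) * (E.Y k).ncard + ε * {y | E.Valid y}.ncard := by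
  obtain ⟨M, M0, hM⟩ := grid hk Rb (half_pos hε)
  obtain ⟨t, t0, t1, t2⟩ : ∃ t : ℝ, 0 < t ∧ t ≤ 1 ∧ t ≤ ε / 2 :=
    ⟨min 1 (ε / 2), lt_min one_pos (by positivity), min_le_left _ _, min_le_right _ _⟩
  have hn : Fintype.card (Option (GV k M)) = (k + 1) * M + 1 := by simp
  obtain ⟨B0, b1, b2, b3⟩ := Step_B0 (Fintype.card (Option (GV k M)))
    (2 ^ ((k + 1) * M + 1) * NU k ^ M ^ (k + 1)) t0
  have b4 : 2 ^ ((k + 1) * M + 1) ≤ B0 :=
    (Nat.le_mul_of_pos_right _ (pow_pos (NU_pos k) _)).trans b2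
  have b5 : (k + 1) * M + 1 ≤ B0 := (Nat.lt_pow_self (by norm_num)).le.trans b4
  have b6 : 1 / (B0 : ℝ) ≤ 1 / 2 := one_div_le_one_div_of_le two_pos (by exact_mod_cast b1)
  refine ⟨B0, by omega, fun {W P} _ {T R} E hR hsm => ?_⟩
  obtain ⟨j', hj'⟩ := Finite.exists_max E.e
  obtain ⟨Om, hO⟩ : ∃ Om : Finset (Option (GV k M) → MPr P), ∀ g, g ∈ Om ↔ Step_ok E g :=
    ⟨(Step_fin E).toFinset, fun g => Set.Finite.mem_toFinset _⟩
  have hX : (Fintype.card (Pt k M) : ℝ) = (M : ℝ) ^ (k + 1) := by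
    simp [pow_succ']
  have : Nonempty (Pt k M) := ⟨(⟨0, M0⟩, fun _ => ⟨0, M0⟩)⟩
  have key := Step_abs Om (V := {y | E.Valid y}) (Y0 := E.Y k) (Y1 := E.YD) Env.valid_finite
    (fun _ h => h.1) (fun _ h => h.1.1) (fun x g => pt (fun ν => g (some ν)) (g none) x)
    (fun x g hg => by
      have := (Step_ok_iff E g).1 ((hO g).1 hg)
      exact Env.valid_pt this.1 this.2 x) (r := 1 + t) (ε := ε / 2) (by positivity) (by positivity)
    (fun x => by
      simp only [hO, Step_pt]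
      exact Step_fib (T := T) Env.inf_mem_A0 E.e E.Mk Env.mk_mp Env.dM_pos E.s
        (fun _ _ h => Env.s_symm h) Env.e_pos Step_lab (Step_pos x)
        (Step_lab_pos x) (by positivity) (by linarith) b3 hj' fun i => (hsm i j').mono le_rfl
          (by rw [hn, mul_comm]; exact Nat.mul_le_mul_right _ b4)
          (Nat.add_le_add_left (Nat.mul_le_mul_right _ (hn ▸ b5)) _))
    (by
      simp only [Step_YG, Step_YDG, hX]
      refine Step_sum E hO (fun Z p => 2 / 3 * ((E.YG Z p k).card : ℝ) +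
        ε / 2 * (M : ℝ) ^ (k + 1) - (E.YDG Z p).card) fun Z hZ => ?_
      have := hM E hR Z hZ ((hsm none j').mono b6 ?_ (Nat.add_le_add_left ?_ _))
      · rw [Finset.sum_sub_distrib, Finset.sum_add_distrib, ← Finset.mul_sum, Finset.sum_const,
          nsmul_eq_mul]
        linarith
      · rw [mul_assoc, mul_comm]
        refine Nat.mul_le_mul_right _ (le_trans (Nat.mul_le_mul_right _ ?_) b2)
        exact Nat.pow_le_pow_right (by norm_num) (Nat.le_succ _)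
      · have h1 := Finset.sum_le_card_nsmul Finset.univ (fun j => E.e (some j)) _ fun j _ => hj' _
        rw [Finset.card_univ, Fintype.card_option, Fintype.card_fin, smul_eq_mul] at h1
        refine (Nat.mul_le_mul_left M h1).trans ?_
        rw [← mul_assoc, mul_comm M]
        exact Nat.mul_le_mul_right _ ((Nat.le_succ _).trans b5))
  have g10 : (1 + t) ^ 2 * (2 / 3) * ((E.Y k).ncard : ℝ) ≤ (2 / 3 + ε) * (E.Y k).ncard :=
    mul_le_mul_of_nonneg_right (by nlinarith) (Nat.cast_nonneg _)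
  have g11 : (1 + t) * (ε / 2) * ({y | E.Valid y}.ncard : ℝ) ≤ ε * {y | E.Valid y}.ncard :=
    mul_le_mul_of_nonneg_right (by nlinarith) (Nat.cast_nonneg _)
  linarith

end

end Pool.Agent.Hyp
end

-- merged part: Pool.Agent.Work.MP_60d5ce_nt.Hy.BoxS
section
/-!
# The step inside a box, and its iteration  (task QT BoxS)

* `part2`: sum over the values of `(π, κ)` on `S` (compare `BoxB_part` in `Sm/BoxB.lean`); each value of `π` occurs with
  at most `card γ` values of `κ`.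
* `box_step`: `part2` with `S = Prs 1`, `S'` the set of `mass`, `π = bkey lab`, `κ z = clr (yz z none)`.  For `z0 ∈ S` apply `step` to
  `benv` (with `min (1 / 12) (ε / (NV ^ 4 * ((NV ^ 4) ^ m) ^ 3 * Rb ^ 2 + 1))`, `B = B0 + 1`; `gs_eq`, `benv_small`): `yz` maps the pairs of the class that lift to level `k + 2` with
  `Diag` injectively into `YD` (`valid_yz`, `yz_inj`); every element of `Y k` is `yz z` for a pair of the class in `Prs k` (`exists_z`, `valid_yz`, `gs_eq`,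
  `Mk.nondeg`), and every valid point is `yz z` for a pair of `S'` with the same key.  `card S ≤ card S1 ≤ m`.
* `iter`: induction on `t` (compare `boxC_iter` in `Sm/BoxC.lean`): with `N j = card (Prs j)`, `C = (NV ^ 2 * Rb) ^ 2`,
  `N (j + 2) ≤ 3 / 4 * N j + ε / 4 * n + C * card Bad` (`prs_card`), `N j0 ≤ C * n`; `lab` is built from an injection of
  `Fin k` in `F` (`Finset.equivFin`, `Fin.castLE`).
-/

namespace Pool.Agent.Hyp

open Pool.Agent.Quad

variable [Par]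

open scoped Classical

noncomputable section

theorem BoxS_fib {α β : Type} {S : Set α} (hS : S.Finite) (f : α → β) (D : Finset β) :
    ∑ y ∈ D, ({z | z ∈ S ∧ f z = y}.ncard : ℝ) = {z | z ∈ S ∧ f z ∈ D}.ncard := by
  have e : ∀ (Q : α → Prop) [DecidablePred Q],
      (hS.toFinset.filter Q).card = {z | z ∈ S ∧ Q z}.ncard := fun Q _ => by
    rw [← Set.ncard_coe_finset]
    congr 1
    ext z
    simp
  have h := Finset.sum_card_fiberwise_eq_card_filter hS.toFinset D f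
  simp only [e] at h
  exact_mod_cast h

theorem part2 {α β γ : Type} [Fintype γ] {S S' : Set α} (hS : S.Finite) (hS' : S'.Finite)
    (π : α → β) (κ : α → γ) (Q1 Q2 : α → Prop) {a b : ℝ} (hb : 0 ≤ b)
    (h : ∀ z0 ∈ S, ({z | z ∈ S ∧ π z = π z0 ∧ κ z = κ z0 ∧ Q1 z}.ncard : ℝ) ≤
      a * {z | z ∈ S ∧ π z = π z0 ∧ κ z = κ z0 ∧ Q2 z}.ncard +
        b * {z | z ∈ S' ∧ π z = π z0}.ncard) :
    ({z | z ∈ S ∧ Q1 z}.ncard : ℝ) ≤
      a * {z | z ∈ S ∧ Q2 z}.ncard + b * Fintype.card γ * S'.ncard := by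
  set D := hS.toFinset.image fun z => (π z, κ z) with hD
  have key : ∀ Q : α → Prop, ({z | z ∈ S ∧ Q z}.ncard : ℝ) =
      ∑ y ∈ D, ({z | z ∈ S ∧ π z = y.1 ∧ κ z = y.2 ∧ Q z}.ncard : ℝ) := by
    intro Q
    have h1 := BoxS_fib (S := {z | z ∈ S ∧ Q z}) (hS.subset fun _ h => h.1) (fun z => (π z, κ z)) D
    have e : {z | z ∈ {z | z ∈ S ∧ Q z} ∧ (π z, κ z) ∈ D} = {z | z ∈ S ∧ Q z} :=
      Set.ext fun z => and_iff_left_of_imp fun hz =>
        Finset.mem_image_of_mem _ (hS.mem_toFinset.2 hz.1)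
    rw [e] at h1
    rw [← h1]
    refine Finset.sum_congr rfl fun y _ => ?_
    congr 2
    ext z
    simp only [Set.mem_ofPred_eq, Prod.ext_iff]
    tauto
  have h2 : ∑ y ∈ D, ({z | z ∈ S' ∧ π z = y.1}.ncard : ℝ) ≤ Fintype.card γ * S'.ncard := by
    have h3 : D ⊆ hS.toFinset.image π ×ˢ Finset.univ := fun y hy => by
      obtain ⟨z, hz, rfl⟩ := Finset.mem_image.1 hy
      exact Finset.mem_product.2 ⟨Finset.mem_image_of_mem _ hz, Finset.mem_univ _⟩
    refine (Finset.sum_le_sum_of_subset_of_nonneg h3 fun _ _ _ => Nat.cast_nonneg _).trans ?_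
    rw [Finset.sum_product_right]
    simp only [BoxS_fib hS']
    rw [Finset.sum_const, Finset.card_univ, nsmul_eq_mul]
    exact mul_le_mul_of_nonneg_left (Nat.cast_le.2 (Set.ncard_le_ncard (fun _ h => h.1) hS'))
      (Nat.cast_nonneg _)
  rw [key Q1, key Q2, mul_assoc]
  refine le_trans ?_ (add_le_add_right (mul_le_mul_of_nonneg_left h2 hb) _)
  rw [Finset.mul_sum, Finset.mul_sum, ← Finset.sum_add_distrib]
  refine Finset.sum_le_sum fun y hy => ?_
  obtain ⟨z0, hz0, rfl⟩ := Finset.mem_image.1 hy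
  exact h z0 (hS.mem_toFinset.1 hz0)

theorem BoxS_le {α β : Type} {S : Set α} {Y : Set β} (hS : S.Finite) (f : α → β)
    (h : ∀ y ∈ Y, ∃ z ∈ S, f z = y) : (Y.ncard : ℝ) ≤ S.ncard :=
  Nat.cast_le.2 ((Set.ncard_le_ncard h (hS.image f)).trans (Set.ncard_image_le hS))

theorem BoxS_fin {W P : Type} [Group W] {T : Tame W P} {R : Rep T} {ι : Type} [Fintype ι]
    (X : Box R ι) (ty : ι → ℕ) (lam : O) (a b : ι) (Rb : ℕ) {j : ℕ} (hj : 1 ≤ j) :
    (X.Prs ty lam a b Rb j).Finite :=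
  (Box.prs_card hj fun _ => True).1.subset fun _ h => ⟨h, trivial⟩

theorem box_step {k : ℕ} (hk : 2 ≤ k) (Rb m : ℕ) {ε : ℝ} (hε : 0 < ε) :
    ∃ B : ℕ, 0 < B ∧ ∀ {W P : Type} [Group W] {T : Tame W P} {R : Rep T} {ι : Type} [Fintype ι]
      (X : Box R ι) (L : Finset ι) (ty : ι → ℕ) (lam : O) (lab : Jx k → ι), X.S1.card ≤ m →
      Lab ty lab → (∀ j, lab j ∈ L) → X.SmL B L →
      ({z | z ∈ X.Prs ty lam (lab (some none)) (lab none) Rb (k + 2) ∧
        R.Diag lam (X.A z.1) (X.x z.1) (k - 1)}.ncard : ℝ) ≤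
        3 / 4 * (X.Prs ty lam (lab (some none)) (lab none) Rb k).ncard +
          ε * (X.tpts ty).ncard := by
  set C : ℝ := NV ^ 4 * ((NV ^ 4) ^ m) ^ 3 * Rb ^ 2 with hC
  have hC0 : 0 ≤ C := by positivity
  set δ : ℝ := min (1 / 12) (ε / (C + 1)) with hδ
  have hδ0 : 0 < δ := lt_min (by norm_num) (by positivity)
  have hδ1 : δ ≤ 1 / 12 := min_le_left _ _
  have hδ2 : δ * (C + 1) ≤ ε := (le_div_iff₀ (by positivity)).1 (min_le_right _ _)
  obtain ⟨B0, hB, H0⟩ := step hk Rb hδ0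
  refine ⟨B0 + 1, Nat.succ_pos _, ?_⟩
  intro W P _ T R ι _ X L ty lam lab hm hl hL hS
  obtain ⟨hF, hN⟩ := Box.mass (X := X) hl lam Rb
  have hF1 := BoxS_fin X ty lam (lab (some none)) (lab none) Rb le_rfl
  have h := part2 hF1 hF (X.bkey lab) (fun z => R.clr (X.yz lab z none))
    (fun z => z ∈ X.Prs ty lam (lab (some none)) (lab none) Rb (k + 2) ∧
      R.Diag lam (X.A z.1) (X.x z.1) (k - 1))
    (fun z => z ∈ X.Prs ty lam (lab (some none)) (lab none) Rb k) (a := 2 / 3 + δ) hδ0.le (by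
      intro z0 hz0
      have h0 := Box.prs_sub le_rfl hz0
      have hn : R.Nondeg (X.yz lab z0 (some none)).2 (X.yz lab z0 none).2 := hz0.2.2.1
      have hG := Box.gs_eq hl h0 hn h0 rfl ▸ hz0.2.1
      refine le_trans (Nat.cast_le.2 (Set.ncard_le_ncard_of_injOn (X.yz lab) ?_ ?_
        (Env.valid_finite.subset fun _ h => h.1.1)))
        ((H0 (Box.benv hl h0 hn) hG (Box.benv_small hl h0 hn hB hL hS)).trans (add_le_add
          (mul_le_mul_of_nonneg_left (BoxS_le (hF1.subset fun _ h => h.1) (X.yz lab) ?_)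
            (by positivity))
          (mul_le_mul_of_nonneg_left (BoxS_le (hF.subset fun _ h => h.1) (X.yz lab) ?_) hδ0.le)))
      · rintro z ⟨hz, e1, e2, h1, h2⟩
        obtain ⟨v1, v2, v3, v4⟩ := Box.valid_yz hl h0 hn (Box.prs_sub le_rfl hz) e1
        refine ⟨⟨v1, e2, ?_⟩, ?_⟩
        · rw [v2, v3, v4]
          exact h1.2.2.2
        · rw [v2, v3]
          exact h2
      · exact fun z hz z' hz' e => Box.yz_inj (hz.2.1.trans hz'.2.1.symm) e
      · rintro y ⟨h1, h2, h3⟩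
        obtain ⟨z, hz, e, rfl⟩ := Box.exists_z hl h0 hn h1
        obtain ⟨-, v2, v3, v4⟩ := Box.valid_yz hl h0 hn hz e
        rw [v2, v3, v4] at h3
        have h4 : z ∈ X.Prs ty lam (lab (some none)) (lab none) Rb k :=
          ⟨hz.1, (Box.gs_eq hl h0 hn hz e).symm ▸ hG,
            (h1.un (some none)).2.2.nondeg (h1.un none).2.2, h3⟩
        exact ⟨z, ⟨Box.Prs_anti (by omega) h4, e, h2, h4⟩, rfl⟩
      · intro y hy
        obtain ⟨z, hz, e, rfl⟩ := Box.exists_z hl h0 hn hy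
        exact ⟨z, ⟨⟨hz, z0, hz0, e⟩, e⟩, rfl⟩)
  have e1 : ∀ (j : ℕ) (Q : (ι → P) × (W → H → F2) → Prop), 1 ≤ j →
      (∀ z, Q z → z ∈ X.Prs ty lam (lab (some none)) (lab none) Rb j) →
      {z | z ∈ X.Prs ty lam (lab (some none)) (lab none) Rb 1 ∧ Q z} = {z | Q z} :=
    fun j Q hj hQ => Set.ext fun z => and_iff_right_of_imp fun hz => Box.Prs_anti hj (hQ z hz)
  rw [e1 (k + 2) _ (by omega) fun _ h => h.1, e1 k _ (by omega) fun _ h => h] at h
  have h1 : ((NV : ℝ) ^ 4) ^ R.S.card ≤ (NV ^ 4) ^ m :=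
    pow_le_pow_right₀ (one_le_pow₀ (by exact_mod_cast NV_pos)) ((Finset.card_le_card Box.S_sub).trans hm)
  have h2 : (Fintype.card (R.S → (H → F2) × (H → F2)) : ℝ) = (NV ^ 4) ^ R.S.card := by
    rw [Fintype.card_fun, Fintype.card_prod, card_Hb, Fintype.card_coe]
    push_cast
    ring
  have h3 : (0 : ℝ) ≤ (X.tpts ty).ncard := Nat.cast_nonneg _
  refine h.trans (add_le_add (mul_le_mul_of_nonneg_right (by linarith) (Nat.cast_nonneg _)) ?_)
  rw [h2]
  calc _ ≤ δ * (NV ^ 4) ^ m * (NV ^ 4 * ((NV ^ 4) ^ m) ^ 2 * Rb ^ 2 * ((X.tpts ty).ncard : ℝ)) := by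
        refine mul_le_mul (mul_le_mul_of_nonneg_left h1 hδ0.le) (hN.trans ?_) (Nat.cast_nonneg _)
          (by positivity)
        gcongr
    _ = δ * C * (X.tpts ty).ncard := by
        rw [hC]
        ring
    _ ≤ _ := mul_le_mul_of_nonneg_right (by linarith) h3

theorem iter (Rb m j0 t : ℕ) (hj : 2 ≤ j0) {ε : ℝ} (hε : 0 < ε) :
    ∃ B : ℕ, 0 < B ∧ ∀ {W P : Type} [Group W] {T : Tame W P} {R : Rep T} {ι : Type} [Fintype ι]
      (X : Box R ι) (L F : Finset ι) (ty : ι → ℕ) (lam : O) (a b : ι) (Bad : (ι → P) → Prop),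
      X.S1.card ≤ m → a ≠ b → a ∈ L → b ∈ L → ty a = NV → ty b = NV → F ⊆ L → (∀ i ∈ F, ty i = 1) →
      j0 + 2 * t ≤ F.card → X.SmL B L →
      (∀ j, j0 ≤ j → ∀ z ∈ X.Prs ty lam a b Rb (j + 2), ¬ Bad z.1 →
        R.Diag lam (X.A z.1) (X.x z.1) (j - 1)) →
      ((X.Prs ty lam a b Rb (j0 + 2 * t)).ncard : ℝ) ≤
        ((3 / 4) ^ t * (NV ^ 2 * Rb) ^ 2 + ε) * (X.tpts ty).ncard +
          4 * (NV ^ 2 * Rb) ^ 2 * {p | p ∈ X.tpts ty ∧ Bad p}.ncard := by
  induction t with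
  | zero =>
    refine ⟨1, one_pos, ?_⟩
    intro W P _ T R ι _ X L F ty lam a b Bad _ _ _ _ _ _ _ _ _ _ _
    have h1 := (Box.prs_card (X := X) (ty := ty) (lam := lam) (a := a) (b := b) (Rb := Rb)
      (j := j0) (by omega) fun _ => True).2
    simp only [and_true, Set.ofPred_mem_eq] at h1
    have h2 : 0 ≤ ε * (X.tpts ty).ncard := by positivity
    have h3 : (0 : ℝ) ≤ 4 * (NV ^ 2 * Rb) ^ 2 * {p | p ∈ X.tpts ty ∧ Bad p}.ncard := by positivity
    rw [mul_zero, add_zero, pow_zero, one_mul, add_mul]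
    linarith
  | succ t ih =>
    obtain ⟨B1, hB1, H1⟩ := ih
    obtain ⟨B2, hB2, H2⟩ := box_step (k := j0 + 2 * t) (by omega) Rb m (ε := ε / 4) (by positivity)
    refine ⟨max B1 B2, lt_max_of_lt_left hB1, ?_⟩
    intro W P _ T R ι _ X L F ty lam a b Bad hm hab ha hb ta tb hF hty hc hL hD
    have hk : j0 + 2 * t ≤ F.card := by omega
    have h1 := H1 X L F ty lam a b Bad hm hab ha hb ta tb hF hty hk
      (hL.mono hB1 (le_max_left _ _)) hD
    obtain ⟨f, hf, hfF⟩ : ∃ f : Fin (j0 + 2 * t) → ι, Function.Injective f ∧ ∀ i, f i ∈ F :=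
      ⟨fun i => (F.equivFin.symm (Fin.castLE hk i)).1, fun i j e =>
        Fin.castLE_injective hk (F.equivFin.symm.injective (Subtype.ext e)), fun i => Subtype.prop _⟩
    have hne : ∀ c, ty c = NV → ∀ i, c ≠ f i := fun c h i e =>
      absurd (h.symm.trans (e ▸ hty _ (hfF i))) (by have := four_le_NV; omega)
    have h2 := H2 X L ty lam (fun j => j.elim b fun j' => j'.elim a f) hm
      ⟨by
        rintro (_ | _ | i) (_ | _ | j) h
        · rfl
        · exact absurd h.symm hab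
        · exact absurd h (hne b tb j)
        · exact absurd h hab
        · rfl
        · exact absurd h (hne a ta j)
        · exact absurd h.symm (hne b tb i)
        · exact absurd h.symm (hne a ta i)
        · rw [hf h], tb, ta, fun i => hty _ (hfF i)⟩
      (by
        rintro (_ | _ | i)
        · exact hb
        · exact ha
        · exact hF (hfF i))
      (hL.mono hB2 (le_max_right _ _))
    obtain ⟨h3, h4⟩ := Box.prs_card (X := X) (ty := ty) (lam := lam) (a := a) (b := b) (Rb := Rb)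
      (j := j0 + 2 * t + 2) (by omega) Bad
    have h5 : ((X.Prs ty lam a b Rb (j0 + 2 * t + 2)).ncard : ℝ) ≤
        {z | z ∈ X.Prs ty lam a b Rb (j0 + 2 * t + 2) ∧
          R.Diag lam (X.A z.1) (X.x z.1) (j0 + 2 * t - 1)}.ncard +
        {z | z ∈ X.Prs ty lam a b Rb (j0 + 2 * t + 2) ∧ Bad z.1}.ncard := by
      refine Nat.cast_le.2 (le_trans (Set.ncard_le_ncard (fun z hz => ?_)
        (((BoxS_fin X ty lam a b Rb (by omega)).subset fun _ h => h.1).union h3))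
        (Set.ncard_union_le _ _)) |>.trans_eq (Nat.cast_add _ _)
      by_cases h : Bad z.1
      · exact Or.inr ⟨hz, h⟩
      · exact Or.inl ⟨hz, hD _ (Nat.le_add_right _ _) z hz h⟩
    rw [show j0 + 2 * (t + 1) = j0 + 2 * t + 2 from rfl, pow_succ (3 / 4 : ℝ)]
    simp only [Option.elim] at h2
    linarith

end

end Pool.Agent.Hyp
end

-- merged part: Pool.Agent.Work.MP_60d5ce_nt.Hy.BoxE
section
/-!
# The first moment: the core estimate  (task QT BoxE)

`fm_core`: split `𝒮` according to the colour `γ : R.S → Vb × Vb` of `ch (f a).1 (f a).2` (values at `σ s`, `τ s`; there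
are `16 ^ card S` colours) and apply `seq_upper` to each part.  Let `f` be in the part, `p = fun i => (f i).1`,
`A' = (prev rk i).image p`, `c' u = χ u (σ (p i))`; a competitor `f'` agrees with `f` below `i` and has the same
configuration, so `(f' i).1 ∈ Pr (S1 ∪ A') (TS (ty i) A' c') (e i)`.
* `rk i < rk a`: `cnt_ty` and at most `μ i` marks per prime (`seq_fiber`).
* `i = a`: `cnt_mark` with `A'' = (J ∩ prev rk a).image p` and `b u n' = ee (ch u n' (σ (p a))) (f a).2`.  For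
  `j ∈ J` of smaller rank compare the conditions `LLs` for `f` and `f'` at `p j` (`wf_τ`, `x_eq`; the marks above
  `a` vanish, `ch_zero`): they give `ee (ch (f' a) (σ (p j))) n' = ee (ch (f a) (σ (p j))) n'`; then `recip` twice and
  `br_eq_of_vals` with the colour.
* `rk a < rk i`: the mark is zero and `wf w0 f' = wf w0 f`; it is ramified at `p a` (`not_cob_of_ram`); `cnt_w` if
  `i ∈ J` (`kap_zero`), `cnt_ty` otherwise.
`fm_sum`: `sum_cf`, `tpts_lower`.  `fm_zero`: the set is a product (`cnt_w`, `cnt_ty` with `A' = ∅`), or `seq_upper`.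
-/

namespace Pool.Agent.Hyp

open Pool.Agent.Quad

variable [Par]

open scoped Classical

noncomputable section

variable {W P : Type} [Group W] {T : Tame W P}

namespace Box

variable {R : Rep T} {ι : Type} [Fintype ι] {X : Box R ι} {rk : ι → ℕ} {η : ι → ℝ}

variable (X) in
/-- marked points whose last nonzero mark is at `a`, with the level one condition on `J` -/
structure FMc (rk : ι → ℕ) (ty : ι → ℕ) (w0 : W → Vb) (a : ι) (J : Finset ι) (f : ι → P × Vb) :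
    Prop where
  mem : (fun i => (f i).1) ∈ X.tpts ty
  fx : ∀ i, R.Fx (T.σ (f i).1) (f i).2
  ne : (f a).2 ≠ 0
  last : ∀ i, rk a < rk i → (f i).2 = 0
  ll : ∀ j ∈ J, R.LLs (X.x (fun i => (f i).1) (T.σ (f j).1)) 0 (f j).1 (X.wf w0 f)

theorem BoxE_fin (A : Finset P) (φ : W → Prop) (e : ℕ) : (T.Pr A φ e).Finite :=
  (T.dg_fin e).subset fun _ h => h.1

theorem BoxE_card {p : ι → P} (hp : p ∈ X.pts) (s : Finset ι) : (s.image p).card = s.card :=
  Finset.card_image_of_injective _ (inj hp)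

omit [Fintype ι] in
theorem BoxE_out {p : ι → P} (hp : p ∈ X.pts) (s : Finset ι) : ∀ v ∈ s.image p, v ∉ X.S1 := by
  intro v hv
  obtain ⟨j, -, rfl⟩ := Finset.mem_image.1 hv
  exact (hp j).2

theorem BoxE_small (hsm : X.SmR rk η) {p : ι → P} (hp : p ∈ X.pts) (i : ι) :
    T.Small (η i) (NN ((prev rk i).image p).card)
      (∑ v ∈ X.S1 ∪ (prev rk i).image p, T.dg v) (X.e i) := by
  rw [BoxE_card hp, Finset.sum_union (Finset.disjoint_right.2 (BoxE_out hp _)),
    Finset.sum_image fun x _ y _ h => inj hp h, Finset.sum_congr rfl fun j _ => (hp j).1]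
  exact hsm i

theorem BoxE_pr {ty : ι → ℕ} {p p' : ι → P} (hp' : p' ∈ X.tpts ty)
    (hc : X.cf rk p' = X.cf rk p) {i : ι} (h : ∀ j, rk j < rk i → p' j = p j) :
    p' i ∈ T.Pr (X.S1 ∪ (prev rk i).image p)
      (R.TS (ty i) ((prev rk i).image p) fun u => T.χ u (T.σ (p i))) (X.e i) := by
  refine ⟨(hp'.1 i).1, fun hm => ?_, hp'.2 i, fun v hv => ?_⟩
  · rcases Finset.mem_union.1 hm with hm | hm
    · exact (hp'.1 i).2 hm
    · obtain ⟨j, hj, e⟩ := Finset.mem_image.1 hm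
      have hj' := (Finset.mem_filter.1 hj).2
      rw [← h j hj'] at e
      rw [inj hp'.1 e] at hj'
      exact lt_irrefl _ hj'
  · obtain ⟨j, hj, rfl⟩ := Finset.mem_image.1 hv
    have hj' := (Finset.mem_filter.1 hj).2
    have e := congrFun (congrFun hc i) j
    simp only [cf, if_pos hj'] at e
    rw [h j hj'] at e
    exact e

theorem BoxE_ty (hsm : X.SmR rk η) {p : ι → P} (hp : p ∈ X.pts) (t : ℕ) (c : P → F2) (i : ι) :
    ((T.Pr (X.S1 ∪ (prev rk i).image p) (R.TS t ((prev rk i).image p) c) (X.e i)).ncard : ℝ) ≤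
      (1 + η i) * R.wt t (X.e i) (prev rk i).card := by
  have h := Rep.cnt_ty S_sub (BoxE_out hp _) t c (X.e_pos i) (BoxE_small hsm hp i)
  rwa [BoxE_card hp] at h

omit [Fintype ι] in
theorem BoxE_wf {f f' : ι → P × Vb} {s : Finset ι}
    (h : ∀ k ∈ s, f' k = f k ∨ (f' k).2 = 0 ∧ (f k).2 = 0) (g : W) :
    ∑ k ∈ s, R.ch (f' k).1 (f' k).2 g = ∑ k ∈ s, R.ch (f k).1 (f k).2 g := by
  refine Finset.sum_congr rfl fun k hk => ?_
  rcases h k hk with e | ⟨e1, e2⟩
  · rw [e]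
  · rw [e1, e2, Rep.ch_zero, Rep.ch_zero]

/-- the colour of the last mark -/
def BoxE_col (R : Rep T) (y : P × Vb) (s : R.S) : Vb × Vb :=
  (R.ch y.1 y.2 (T.σ s), R.ch y.1 y.2 (T.τ s))

theorem BoxE_mark (hrk : Function.Injective rk) {ty : ι → ℕ} {w0 : W → Vb}
    (h0 : w0 ∈ R.Z1U X.S1) {a : ι} {J : Finset ι} {f f' : ι → P × Vb}
    (hf : X.FMc rk ty w0 a J f) (hf' : X.FMc rk ty w0 a J f')
    (hc : X.cf rk (fun i => (f' i).1) = X.cf rk fun i => (f i).1)
    (hag : ∀ j, rk j < rk a → f' j = f j) (hcol : BoxE_col R (f' a) = BoxE_col R (f a))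
    {j : ι} (hJ : j ∈ J) (hj : rk j < rk a) {n : Vb} (hn : R.Fx (T.σ (f j).1) n) :
    ee (R.ch (f j).1 n (T.σ (f' a).1)) (f' a).2 = ee (R.ch (f j).1 n (T.σ (f a).1)) (f a).2 := by
  have e := hag j hj
  have k1 := hf.ll j hJ n hn
  have k2 := hf'.ll j hJ n (by rw [e]; exact hn)
  have hx : X.x (fun i => (f' i).1) (T.σ (f' j).1) = X.x (fun i => (f i).1) (T.σ (f j).1) :=
    x_eq hrk hf'.mem.1 hf.mem.1 hc (j := j) (by simp only [e])
  rw [wf_τ h0 hf.mem.1 hf.fx] at k1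
  rw [wf_τ h0 hf'.mem.1 hf'.fx, hx, e] at k2
  have hs := BoxE_wf (R := R) (f := f) (f' := f') (s := Finset.univ.erase a) (fun k hk => by
    rcases lt_trichotomy (rk k) (rk a) with h | h | h
    · exact Or.inl (hag k h)
    · exact absurd (hrk h) (Finset.ne_of_mem_erase hk)
    · exact Or.inr ⟨hf'.last k h, hf.last k h⟩) (T.σ (f j).1)
  simp only [wf] at k1 k2
  rw [← Finset.add_sum_erase _ _ (Finset.mem_univ a)] at k1 k2
  rw [hs] at k2
  simp only [ee_add_left] at k1 k2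
  have k3 : ee (R.ch (f' a).1 (f' a).2 (T.σ (f j).1)) n =
      ee (R.ch (f a).1 (f a).2 (T.σ (f j).1)) n := by linear_combination k2 - k1
  have hja : j ≠ a := fun h => lt_irrefl _ (h ▸ hj)
  have r1 := Rep.recip (notMem_S hf.mem.1 j) (notMem_S hf.mem.1 a)
    (fun h => hja (inj hf.mem.1 h)) hn (hf.fx a)
  have r2 := Rep.recip (notMem_S hf.mem.1 j) (notMem_S hf'.mem.1 a)
    (fun h => hja (inj hf'.mem.1 (show (f' j).1 = (f' a).1 by rw [e]; exact h))) hn (hf'.fx a)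
  have r3 : ∑ s ∈ R.S, R.br s (R.ch (f j).1 n) (R.ch (f' a).1 (f' a).2) =
      ∑ s ∈ R.S, R.br s (R.ch (f j).1 n) (R.ch (f a).1 (f a).2) :=
    Finset.sum_congr rfl fun s hs =>
      Rep.br_eq_of_vals ((Rep.ch_mem _ _).1.lz s) ((Rep.ch_mem _ _).1.lz s)
        ((Rep.ch_mem _ _).1.lz s) ((Rep.ch_mem _ _).1.lz s) rfl rfl
        (congrArg Prod.fst (congrFun hcol ⟨s, hs⟩)) (congrArg Prod.snd (congrFun hcol ⟨s, hs⟩))
  rw [ee_comm _ n, ee_comm _ n] at k3
  linear_combination r1 - r2 - r3 + k3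

theorem BoxE_prod (hrk : Function.Injective rk) (a : ι) (J : Finset ι) (μ t : ι → ℝ) (c : ℝ) :
    ∏ i, ((if rk i < rk a then μ i else 1) *
      (if i = a then c * ∏ j ∈ J.filter (fun j => rk j < rk a), t j else 1) *
      (if rk a < rk i ∧ i ∈ J then t i else 1)) =
      c * (∏ i ∈ prev rk a, μ i) * ∏ j ∈ J.erase a, t j := by
  have e1 : J.erase a = J.filter (fun j => rk j < rk a) ∪
      Finset.univ.filter fun i => rk a < rk i ∧ i ∈ J := by
    ext j
    simp only [Finset.mem_erase, Finset.mem_union, Finset.mem_filter, Finset.mem_univ, true_and]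
    constructor
    · rintro ⟨h1, h2⟩
      rcases lt_trichotomy (rk j) (rk a) with h | h | h
      · exact Or.inl ⟨h2, h⟩
      · exact absurd (hrk h) h1
      · exact Or.inr ⟨h, h2⟩
    · rintro (⟨h1, h2⟩ | ⟨h2, h1⟩)
      · exact ⟨fun h => lt_irrefl _ (h ▸ h2), h1⟩
      · exact ⟨fun h => lt_irrefl _ (h ▸ h2), h1⟩
  have e2 : (Finset.univ.filter fun i => i = a) = {a} := by
    ext j
    simp only [Finset.mem_filter, Finset.mem_univ, true_and, Finset.mem_singleton]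
  rw [Finset.prod_mul_distrib, Finset.prod_mul_distrib, ← Finset.prod_filter, ← Finset.prod_filter,
    ← Finset.prod_filter, e2, Finset.prod_singleton, e1,
    Finset.prod_union (Finset.disjoint_left.2 fun j h1 h2 =>
      lt_asymm (Finset.mem_filter.1 h1).2 (Finset.mem_filter.1 h2).2.1), prev]
  ring

theorem BoxE_part (hrk : Function.Injective rk) (hsm : X.SmR rk η) (ty : ι → ℕ) (c : ι → ι → F2)
    {w0 : W → Vb} (h0 : w0 ∈ R.Z1U X.S1) (a : ι) (J : Finset ι) (μ : ι → ℕ)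
    (𝒮 : Set (ι → P × Vb))
    (h1 : ∀ f ∈ 𝒮, X.FMc rk ty w0 a J f ∧ X.cf rk (fun i => (f i).1) = c)
    (h2 : ∀ i, rk i < rk a → ∀ f ∈ 𝒮, ∀ v,
      {n | ∃ f' ∈ 𝒮, (∀ j, rk j < rk i → f' j = f j) ∧ f' i = (v, n)}.ncard ≤ μ i)
    (γ : R.S → Vb × Vb) (h3 : ∀ f ∈ 𝒮, BoxE_col R (f a) = γ) :
    𝒮.Finite ∧ (𝒮.ncard : ℝ) ≤ NV * (∏ i ∈ prev rk a, (μ i : ℝ)) *
      (∏ j ∈ J.erase a, (ty j : ℝ)⁻¹) *
      ∏ i, (1 + η i) * R.wt (ty i) (X.e i) (prev rk i).card := by
  have hW : ∀ i, 0 ≤ (1 + η i) * R.wt (ty i) (X.e i) (prev rk i).card := fun i =>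
    mul_nonneg (by linarith [(hsm i).nonneg]) (Rep.wt_nonneg _ _ _)
  rw [← BoxE_prod hrk a J (fun i => (μ i : ℝ)) (fun j => (ty j : ℝ)⁻¹) NV, ← Finset.prod_mul_distrib]
  refine seq_upper rk hrk 𝒮 _ (fun i => mul_nonneg ?_ (hW i)) fun i f hf => ?_
  · refine mul_nonneg (mul_nonneg ?_ ?_) ?_ <;> split_ifs <;> positivity
  have hF := (h1 f hf).1
  have hp := hF.mem.1
  have hpr : ∀ f' ∈ 𝒮, (∀ j, rk j < rk i → f' j = f j) → _ := fun f' hf' hag =>
    BoxE_pr (rk := rk) (p := fun i => (f i).1) (h1 f' hf').1.mem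
      ((h1 f' hf').2.trans (h1 f hf).2.symm) (i := i) fun j hj => by simp only [hag j hj]
  rcases lt_trichotomy (rk i) (rk a) with h | h | h
  · have hia : i ≠ a := fun e => lt_irrefl _ (e ▸ h)
    rw [if_pos h, if_neg hia, if_neg fun k => lt_asymm h k.1, mul_one, mul_one]
    have hsub : ∀ v, {x | x ∈ {q | ∃ f' ∈ 𝒮, (∀ j, rk j < rk i → f' j = f j) ∧ f' i = q} ∧
        x.1 = v} ⊆ (fun n => (v, n)) ''
          {n | ∃ f' ∈ 𝒮, (∀ j, rk j < rk i → f' j = f j) ∧ f' i = (v, n)} := by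
      rintro v ⟨v', n⟩ ⟨k1, rfl⟩
      exact ⟨n, k1, rfl⟩
    obtain ⟨k1, -, k3⟩ := seq_fiber
      {q | ∃ f' ∈ 𝒮, (∀ j, rk j < rk i → f' j = f j) ∧ f' i = q} _ (BoxE_fin _ _ _) Prod.fst
      (by
        rintro _ ⟨f', hf', hag, rfl⟩
        exact hpr f' hf' hag)
      (fun v _ => ((Set.toFinite _).image _).subset (hsub v)) 0 (μ i)
      fun v _ => ⟨Nat.cast_nonneg _, Nat.cast_le.2
        ((Set.ncard_le_ncard (hsub v) ((Set.toFinite _).image _)).trans
          ((Set.ncard_image_le (Set.toFinite _)).trans (h2 i h f hf v)))⟩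
    exact ⟨k1, k3.trans (mul_le_mul_of_nonneg_left (BoxE_ty hsm hp _ _ i) (Nat.cast_nonneg _))⟩
  · obtain rfl : i = a := hrk h
    rw [if_neg (lt_irrefl _), if_pos rfl, if_neg fun k => lt_irrefl _ k.1, mul_one, one_mul]
    have k := Rep.cnt_mark S_sub (BoxE_out hp _) (ty i) (fun u => T.χ u (T.σ (f i).1))
      (X.e_pos i) (BoxE_small hsm hp i)
      (A'' := (J.filter fun j => rk j < rk i).image fun j => (f j).1)
      (Finset.image_subset_image fun j hj =>
        Finset.mem_filter.2 ⟨Finset.mem_univ _, (Finset.mem_filter.1 hj).2⟩)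
      fun u n => ee (R.ch u n (T.σ (f i).1)) (f i).2
    rw [BoxE_card hp, Finset.prod_image fun x _ y _ h => inj hp h,
      Finset.prod_congr rfl fun j _ => by rw [hF.mem.2 j]] at k
    refine (fun hsub => ⟨(Tame.prM_finite _ _ _).subset hsub, le_trans
      (Nat.cast_le.2 (Set.ncard_le_ncard hsub (Tame.prM_finite _ _ _))) k⟩) ?_
    rintro _ ⟨f', hf', hag, rfl⟩
    obtain ⟨q1, q2, q3⟩ := hpr f' hf' hag
    refine ⟨q1, q2, q3, (h1 f' hf').1.fx i, (h1 f' hf').1.ne, fun u hu n hn => ?_⟩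
    obtain ⟨j, hj, rfl⟩ := Finset.mem_image.1 hu
    exact BoxE_mark hrk h0 hF (h1 f' hf').1 ((h1 f' hf').2.trans (h1 f hf).2.symm) hag
      ((h3 f' hf').trans (h3 f hf).symm) (Finset.mem_filter.1 hj).1 (Finset.mem_filter.1 hj).2 hn
  · have hia : i ≠ a := fun e => lt_irrefl _ (e ▸ h)
    rw [if_neg (lt_asymm h), if_neg hia, mul_one, one_mul]
    have key : ∀ (φ : W → Prop) (b : ℝ),
        (∀ f' ∈ 𝒮, (∀ j, rk j < rk i → f' j = f j) →
          (f' i).1 ∈ T.Pr (X.S1 ∪ (prev rk i).image fun j => (f j).1) φ (X.e i)) →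
        ((T.Pr (X.S1 ∪ (prev rk i).image fun j => (f j).1) φ (X.e i)).ncard : ℝ) ≤ b →
        {q | ∃ f' ∈ 𝒮, (∀ j, rk j < rk i → f' j = f j) ∧ f' i = q}.Finite ∧
          ({q | ∃ f' ∈ 𝒮, (∀ j, rk j < rk i → f' j = f j) ∧ f' i = q}.ncard : ℝ) ≤ b := by
      intro φ b k1 k2
      have hsub : {q | ∃ f' ∈ 𝒮, (∀ j, rk j < rk i → f' j = f j) ∧ f' i = q} ⊆
          (fun v => (v, (0 : Vb))) ''
            T.Pr (X.S1 ∪ (prev rk i).image fun j => (f j).1) φ (X.e i) := by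
        rintro _ ⟨f', hf', hag, rfl⟩
        exact ⟨(f' i).1, k1 f' hf' hag, Prod.ext rfl ((h1 f' hf').1.last i h).symm⟩
      exact ⟨((BoxE_fin _ _ _).image _).subset hsub, le_trans (Nat.cast_le.2
        ((Set.ncard_le_ncard hsub ((BoxE_fin _ _ _).image _)).trans
          (Set.ncard_image_le (BoxE_fin _ _ _)))) k2⟩
    by_cases hi : i ∈ J
    · rw [if_pos ⟨h, hi⟩]
      have hlast : ∀ k, ¬ rk k < rk i → rk a < rk k := fun k hk => h.trans_le (not_lt.1 hk)
      have k := Rep.cnt_w S_sub (BoxE_out hp _) (ty i) (fun u => T.χ u (T.σ (f i).1))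
        (X.e_pos i) (BoxE_small hsm hp i) (w := X.wf w0 f)
        (wf_mem h0 f fun k hk => hF.last k (hlast k fun k' =>
          hk (Finset.mem_filter.2 ⟨Finset.mem_univ _, k'⟩)))
        (Rep.not_cob_of_ram (notMem_S hp a) (by rw [wf_τ h0 hp hF.fx]; exact hF.ne))
      rw [BoxE_card hp] at k
      refine key _ _ (fun f' hf' hag => ?_) k
      obtain ⟨q1, q2, q3⟩ := hpr f' hf' hag
      have hF' := (h1 f' hf').1
      refine ⟨q1, q2, q3, fun n hn => ?_⟩
      have e : X.wf w0 f (T.σ (f' i).1) = X.wf w0 f' (T.σ (f' i).1) := by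
        simp only [wf]
        rw [BoxE_wf (f := f) (f' := f') fun k _ => (em (rk k < rk i)).imp (hag k)
          fun hk => ⟨hF'.last k (hlast k hk), hF.last k (hlast k hk)⟩]
      rw [e]
      exact (hF'.ll i hi).pair_sigma
        (by rw [wf_τ h0 hF'.mem.1 hF'.fx]; exact hF'.last i h) n hn
    · rw [if_neg fun k => hi k.2, one_mul]
      exact key _ _ hpr (BoxE_ty hsm hp _ _ i)

theorem fm_core (hrk : Function.Injective rk) (hsm : X.SmR rk η) (ty : ι → ℕ) (c : ι → ι → F2)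
    {w0 : W → Vb} (h0 : w0 ∈ R.Z1U X.S1) (a : ι) (J : Finset ι) (μ : ι → ℕ)
    (𝒮 : Set (ι → P × Vb))
    (h1 : ∀ f ∈ 𝒮, X.FMc rk ty w0 a J f ∧ X.cf rk (fun i => (f i).1) = c)
    (h2 : ∀ i, rk i < rk a → ∀ f ∈ 𝒮, ∀ v,
      {n | ∃ f' ∈ 𝒮, (∀ j, rk j < rk i → f' j = f j) ∧ f' i = (v, n)}.ncard ≤ μ i) :
    𝒮.Finite ∧ (𝒮.ncard : ℝ) ≤ NV * (NV ^ 2) ^ R.S.card * (∏ i ∈ prev rk a, (μ i : ℝ)) *
      (∏ j ∈ J.erase a, (ty j : ℝ)⁻¹) *
      ∏ i, (1 + η i) * R.wt (ty i) (X.e i) (prev rk i).card := by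
  have key := fun γ => BoxE_part hrk hsm ty c h0 a J μ
    {f | f ∈ 𝒮 ∧ BoxE_col R (f a) = γ} (fun f hf => h1 f hf.1) (fun i hi f hf v => by
      refine le_trans (Set.ncard_le_ncard ?_ (Set.toFinite _)) (h2 i hi f hf.1 v)
      rintro n ⟨f', hf', k⟩
      exact ⟨f', hf'.1, k⟩) γ fun f hf => hf.2
  obtain ⟨k1, -, k3⟩ := seq_fiber 𝒮 Set.univ Set.finite_univ (fun f => BoxE_col R (f a))
    (fun _ _ => Set.mem_univ _) (fun γ _ => (key γ).1) 0 _
    fun γ _ => ⟨Nat.cast_nonneg _, (key γ).2⟩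
  refine ⟨k1, k3.trans_eq ?_⟩
  have e : (Set.univ : Set (R.S → Vb × Vb)).ncard = (NV ^ 2) ^ R.S.card := by
    rw [Set.ncard_univ, Nat.card_eq_fintype_card, Fintype.card_fun, Fintype.card_coe,
      Fintype.card_prod, card_Vb, sq]
  rw [e]
  push_cast
  ring

theorem fm_sum (hrk : Function.Injective rk) (hsm : X.SmR rk η) (hη : ∑ i, η i ≤ 1 / 8)
    (ty : ι → ℕ) {w0 : W → Vb} (h0 : w0 ∈ R.Z1U X.S1) (a : ι) (J : Finset ι) (μ : ι → ℕ)
    (𝒮 : Set (ι → P × Vb)) (h1 : ∀ f ∈ 𝒮, X.FMc rk ty w0 a J f)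
    (h2 : ∀ i, rk i < rk a → ∀ f ∈ 𝒮, ∀ v, {n | ∃ f' ∈ 𝒮,
      X.cf rk (fun i => (f' i).1) = X.cf rk (fun i => (f i).1) ∧
        (∀ j, rk j < rk i → f' j = f j) ∧ f' i = (v, n)}.ncard ≤ μ i) :
    𝒮.Finite ∧ (𝒮.ncard : ℝ) ≤ 2 * NV * (NV ^ 2) ^ R.S.card * (∏ i ∈ prev rk a, (μ i : ℝ)) *
      (∏ j ∈ J.erase a, (ty j : ℝ)⁻¹) * (X.tpts ty).ncard := by
  have hW : ∀ i, 0 ≤ (1 + η i) * R.wt (ty i) (X.e i) 0 := fun i =>
    mul_nonneg (by linarith [(hsm i).nonneg]) (Rep.wt_nonneg _ _ _)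
  have hC : (0 : ℝ) ≤ NV * (NV ^ 2) ^ R.S.card * (∏ i ∈ prev rk a, (μ i : ℝ)) *
      ∏ j ∈ J.erase a, (ty j : ℝ)⁻¹ := by positivity
  obtain ⟨k1, k2⟩ := sum_cf (X := X) (rk := rk) 𝒮 (fun f i => (f i).1)
    (mul_nonneg hC (Finset.prod_nonneg fun i (_ : i ∈ Finset.univ) => hW i)) fun c => by
      obtain ⟨q1, q2⟩ := fm_core hrk hsm ty c h0 a J μ
        {f | f ∈ 𝒮 ∧ X.cf rk (fun i => (f i).1) = c} (fun f hf => ⟨h1 f hf.1, hf.2⟩)
        fun i hi f hf v => le_trans (Set.ncard_le_ncard (by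
          rintro n ⟨f', hf', k⟩
          exact ⟨f', hf'.1, hf'.2.trans hf.2.symm, k⟩) (Set.toFinite _)) (h2 i hi f hf.1 v)
      refine ⟨q1, q2.trans_eq ?_⟩
      rw [mul_assoc _ (∏ i, _), ← Finset.prod_mul_distrib]
      refine congrArg _ (Finset.prod_congr rfl fun i _ => ?_)
      simp only [Rep.wt]
      ring
  refine ⟨k1, k2.trans ((mul_le_mul_of_nonneg_left (tpts_lower hsm hη ty) hC).trans_eq ?_)⟩
  ring

theorem fm_zero (hsm : X.SmR rk η) (hη : ∑ i, η i ≤ 1 / 8) (ty : ι → ℕ) {w0 : W → Vb}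
    (h0 : w0 ∈ R.Z1U X.S1) (hc : ¬ R.IsCob w0) (J : Finset ι) :
    ({p | p ∈ X.tpts ty ∧ ∀ j ∈ J, ∀ n, R.Fx (T.σ (p j)) n → ee (w0 (T.σ (p j))) n = 0}.ncard : ℝ) ≤
      2 * (∏ j ∈ J, (ty j : ℝ)⁻¹) * (X.tpts ty).ncard := by
  have hW : ∀ i, 0 ≤ (1 + η i) * R.wt (ty i) (X.e i) 0 := fun i =>
    mul_nonneg (by linarith [(hsm i).nonneg]) (Rep.wt_nonneg _ _ _)
  have hs : ∀ i, T.Small (η i) (NN (∅ : Finset P).card) (∑ v ∈ X.S1 ∪ ∅, T.dg v) (X.e i) :=
    fun i => (hsm i).mono le_rfl (NN_mono (Nat.zero_le _)) (by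
      rw [Finset.union_empty]
      exact Nat.le_add_right _ _)
  have hd : ∀ v ∈ (∅ : Finset P), v ∉ X.S1 := fun v hv => absurd hv (Finset.notMem_empty v)
  obtain ⟨-, k⟩ := seq_upper X.e X.e_inj
    {p | p ∈ X.tpts ty ∧ ∀ j ∈ J, ∀ n, R.Fx (T.σ (p j)) n → ee (w0 (T.σ (p j))) n = 0}
    (fun i => (if i ∈ J then (ty i : ℝ)⁻¹ else 1) * ((1 + η i) * R.wt (ty i) (X.e i) 0))
    (fun i => mul_nonneg (by split_ifs <;> positivity) (hW i)) fun i f _ => by
      by_cases hi : i ∈ J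
      · rw [if_pos hi]
        refine (fun hsub => ⟨(BoxE_fin _ _ _).subset hsub, le_trans
          (Nat.cast_le.2 (Set.ncard_le_ncard hsub (BoxE_fin _ _ _)))
          (Rep.cnt_w S_sub hd (ty i) 0 (X.e_pos i) (hs i)
            (Rep.z1U_mono Finset.subset_union_left h0) hc)⟩) ?_
        rintro _ ⟨p, hp, -, rfl⟩
        exact ⟨(hp.1.1 i).1, by rw [Finset.union_empty]; exact (hp.1.1 i).2,
          ⟨hp.1.2 i, fun v hv => absurd hv (Finset.notMem_empty v)⟩, hp.2 i hi⟩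
      · rw [if_neg hi, one_mul]
        refine (fun hsub => ⟨(BoxE_fin _ _ _).subset hsub, le_trans
          (Nat.cast_le.2 (Set.ncard_le_ncard hsub (BoxE_fin _ _ _)))
          (Rep.cnt_ty S_sub hd (ty i) 0 (X.e_pos i) (hs i))⟩) ?_
        rintro _ ⟨p, hp, -, rfl⟩
        exact ⟨(hp.1.1 i).1, by rw [Finset.union_empty]; exact (hp.1.1 i).2,
          hp.1.2 i, fun v hv => absurd hv (Finset.notMem_empty v)⟩
  rw [Finset.prod_mul_distrib, Finset.prod_ite_mem, Finset.univ_inter] at k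
  refine k.trans ((mul_le_mul_of_nonneg_left (tpts_lower hsm hη ty) (by positivity)).trans_eq ?_)
  ring

end Box

end

end Pool.Agent.Hyp
end

-- merged part: Pool.Agent.Work.MP_60d5ce_nt.Hy.BoxF
section
/-!
# The first moment: consequences  (task QT BoxF)

If `tpts ty` is empty all is trivial; otherwise `1 ≤ ty i` (`ty_pos`).  A class `w` is `wf w0 f` with `w0 ∈ Z1U S1`
(`exists_w0`; at most `4 * 16 ^ m` choices, `z1U_card`; `card S ≤ card S1 ≤ m`), `f i = (p i, w (τ (p i)))`.  Either all the marks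
vanish and `w = w0` (`ch_zero`), or let `a` be the index of maximal rank with a nonzero mark; then `2 ≤ ty a`.
* `gs_sum`: `fm_sum` with `μ i = ty i` on `J` (the marks are fixed vectors, `nf`) and one elsewhere; `geom_rk`.
* `gs_tail`: Markov.
* `fm_bound`: `fm_zero` with `I` when all marks vanish (`kap_zero`); otherwise `J = univ`, `μ = 1` on `I`, `ty` elsewhere, and
  `geom_rk` for the complement of `I`.
* `g2_bound`: `a ∈ I` because `I` comes last.  For a marked point `f` let `𝒰 f` be the set of `u ∈ Z1U (S1 ∪ image p Iᶜ)`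
  with the shifted condition at all `j ∉ I`; two elements differ by an element of `Gs Iᶜ p` (`LLs.add`), so it has at most
  `R'` elements, and it only depends on `f` outside `I` and on the configuration (`x_eq`).  With `en` of `exists_enum`
  and `r < R'`, let `𝒮` consist of the `f` with `(f i).2 = en (𝒰 f) r (σ (f i).1)` for `i ∈ I` (the condition at a split prime of odd
  degree where `u` is unramified says `u (σ (p i)) = w (τ (p i))`, `nf_eq_four`).  `fm_sum` with `J = univ`, `μ = 1` on `I`, `ty` elsewhere.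
-/

namespace Pool.Agent.Hyp

open Pool.Agent.Quad

variable [Par]

open scoped Classical

noncomputable section

/-- a union bound -/
theorem BoxF_cover {α β κ : Type} (S : Set α) (s : Finset κ) (F : κ → Set β) (g : κ → β → α)
    (b : κ → ℝ) (hF : ∀ k ∈ s, (F k).Finite ∧ ((F k).ncard : ℝ) ≤ b k)
    (h : ∀ x ∈ S, ∃ k ∈ s, ∃ y ∈ F k, g k y = x) : S.Finite ∧ (S.ncard : ℝ) ≤ ∑ k ∈ s, b k := by
  have hsub : S ⊆ ⋃ k ∈ s, g k '' F k := fun x hx => by
    obtain ⟨k, hk, y, hy, e⟩ := h x hx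
    exact Set.mem_biUnion hk ⟨y, hy, e⟩
  have hfin : (⋃ k ∈ s, g k '' F k).Finite :=
    s.finite_toSet.biUnion fun k hk => (hF k hk).1.image _
  refine ⟨hfin.subset hsub, ?_⟩
  have h1 := (Set.ncard_le_ncard hsub hfin).trans (Finset.set_ncard_biUnion_le s _)
  refine (Nat.cast_le.2 h1).trans ?_
  push_cast
  exact Finset.sum_le_sum fun k hk =>
    (Nat.cast_le.2 (Set.ncard_image_le (hF k hk).1)).trans (hF k hk).2

theorem BoxF_union {α : Type} {S A B : Set α} (h : ∀ x ∈ S, x ∈ A ∨ x ∈ B) {a b : ℝ}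
    (hA : A.Finite ∧ (A.ncard : ℝ) ≤ a) (hB : B.Finite ∧ (B.ncard : ℝ) ≤ b) :
    S.Finite ∧ (S.ncard : ℝ) ≤ a + b := by
  have hfin : (A ∪ B).Finite := hA.1.union hB.1
  refine ⟨hfin.subset h, ?_⟩
  have h1 := (Set.ncard_le_ncard (s := S) h hfin).trans (Set.ncard_union_le A B)
  refine (Nat.cast_le.2 h1).trans ?_
  push_cast
  exact add_le_add hA.2 hB.2

/-- the product that occurs in the first moment -/
theorem BoxF_prod {ι : Type} [Fintype ι] {rk : ι → ℕ} (hrk : Function.Injective rk) {ty : ι → ℕ}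
    (ht : ∀ i, 1 ≤ ty i) (J K : Finset ι) (hK : K ⊆ J) (a : ι) :
    (∏ i ∈ prev rk a, ((if i ∈ K then ty i else 1 : ℕ) : ℝ)) * ∏ j ∈ J.erase a, (ty j : ℝ)⁻¹ =
      (∏ j ∈ (J \ K).erase a, (ty j : ℝ)⁻¹) *
        ∏ j ∈ K.filter (fun j => rk a < rk j), (ty j : ℝ)⁻¹ := by
  have key : ∀ (s : Finset ι) (f : ι → ℝ), ∏ i ∈ s, f i = ∏ i, if i ∈ s then f i else 1 :=
    fun s f => by rw [Finset.prod_ite_mem, Finset.univ_inter]
  rw [key (prev rk a), key (J.erase a), key ((J \ K).erase a), key (K.filter _),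
    ← Finset.prod_mul_distrib, ← Finset.prod_mul_distrib]
  refine Finset.prod_congr rfl fun i _ => ?_
  have h0 : (ty i : ℝ) ≠ 0 := by
    have := ht i
    exact_mod_cast (by omega : ty i ≠ 0)
  simp only [prev, Finset.mem_filter, Finset.mem_univ, true_and, Finset.mem_erase,
    Finset.mem_sdiff]
  by_cases hi : i = a
  · subst hi
    simp
  have hne : rk i ≠ rk a := fun e => hi (hrk e)
  by_cases hk : i ∈ K
  · have hj := hK hk
    rcases lt_or_gt_of_ne hne with h | h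
    · simp [hi, hk, hj, h, not_lt.2 h.le, h0]
    · simp [hi, hk, hj, h, not_lt.2 h.le]
  · simp [hi, hk]

theorem BoxF_one : (1 : ℝ) ≤ NV := by exact_mod_cast NV_pos

theorem BoxF_pow {s m : ℕ} (h : s ≤ m) : ((NV : ℝ) ^ 2) ^ s ≤ (NV ^ 2) ^ m :=
  pow_le_pow_right₀ (one_le_pow₀ BoxF_one) h

theorem BoxF_CC (m : ℕ) : (CC m : ℝ) = 8 * NV ^ 3 * ((NV ^ 2) ^ m * (NV ^ 2) ^ m) := by
  rw [CC, ← mul_pow]
  push_cast
  ring

theorem BoxF_num {N Y a : ℝ} (hN : 1 ≤ N) (hY : 1 ≤ Y) (ha : 0 ≤ a) :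
    N * Y * (2 * a + 4 * N * Y * a) ≤ 8 * N ^ 3 * (Y * Y) * a := by
  have h1 : 1 ≤ N * Y := one_le_mul_of_one_le_of_one_le hN hY
  have h2 : 0 ≤ N * Y * a := by positivity
  have h3 : N * Y * (N * Y * a) ≤ N * (N * Y * (N * Y * a)) :=
    le_mul_of_one_le_left (by positivity) hN
  nlinarith [mul_le_mul_of_nonneg_right h1 h2]

variable {W P : Type} [Group W] {T : Tame W P}

namespace Box

variable {R : Rep T} {ι : Type} [Fintype ι] {X : Box R ι} {rk : ι → ℕ} {η : ι → ℝ} {m : ℕ}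

theorem BoxF_S (hm : X.S1.card ≤ m) : ((NV : ℝ) ^ 2) ^ R.S.card ≤ (NV ^ 2) ^ m :=
  BoxF_pow ((Finset.card_le_card S_sub).trans hm)

theorem BoxF_w0 (hm : X.S1.card ≤ m) :
    (((Rep.z1U_finite (R := R) X.S1).toFinset.card : ℕ) : ℝ) ≤ NV * (NV ^ 2) ^ m := by
  rw [← Set.ncard_eq_toFinset_card _ (Rep.z1U_finite (R := R) X.S1)]
  have h1 : ((R.Z1U X.S1).ncard : ℝ) ≤ NV * (NV ^ 2) ^ X.S1.card := by
    exact_mod_cast Rep.z1U_card (R := R) (S_sub (X := X))
  exact h1.trans (mul_le_mul_of_nonneg_left (BoxF_pow hm) (by positivity))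

theorem BoxF_notMem {p : ι → P} (hp : p ∈ X.pts) {J : Finset ι} {i : ι} (hi : i ∉ J) :
    p i ∉ X.S1 ∪ J.image p := fun h => by
  rcases Finset.mem_union.1 h with h | h
  · exact (hp i).2 h
  · obtain ⟨j, hj, e⟩ := Finset.mem_image.1 h
    exact hi (inj hp e ▸ hj)

omit [Fintype ι] in
theorem BoxF_marks {ty : ι → ℕ} {p : ι → P} (hp : p ∈ X.tpts ty) (i : ι) :
    {n | R.Fx (T.σ (p i)) n}.ncard = ty i := hp.2 i

theorem BoxF_two {ty : ι → ℕ} {w0 : W → Vb} {a : ι} {J : Finset ι} {f : ι → P × Vb}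
    (h : X.FMc rk ty w0 a J f) : 2 ≤ ty a := by
  have h1 : R.nf (T.σ (f a).1) = ty a := h.mem.2 a
  have h2 : R.nf (T.σ (f a).1) ≠ 1 := fun e => h.ne (Rep.nf_eq_one.1 e _ (h.fx a))
  have := Rep.nf_pos (R := R) (T.σ (f a).1)
  omega

/-- the marks of a class of level one -/
theorem BoxF_dec {ty : ι → ℕ} {J : Finset ι} {p : ι → P} (hp : p ∈ X.tpts ty) {w : W → Vb}
    (hw : w ∈ X.Gs J p) : ∃ w0 ∈ R.Z1U X.S1, w = X.wf w0 (fun i => (p i, w (T.τ (p i)))) ∧
      (((∀ i, w (T.τ (p i)) = 0) ∧ w = w0) ∨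
        ∃ a, X.FMc rk ty w0 a J fun i => (p i, w (T.τ (p i)))) := by
  have h1 : w ∈ R.Z1U (X.A p) := Rep.z1U_mono (Finset.union_subset_union_right
    (Finset.image_subset_image (Finset.subset_univ J))) hw.1
  obtain ⟨hfx, w0, h0, e⟩ := exists_w0 hp.1 h1
  refine ⟨w0, h0, e, ?_⟩
  by_cases hz : ∀ i, w (T.τ (p i)) = 0
  · refine Or.inl ⟨hz, e.trans (funext fun g => ?_)⟩
    simp only [wf, hz, Rep.ch_zero, Pi.zero_apply, Finset.sum_const_zero, add_zero]
  · push Not at hz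
    obtain ⟨i0, hi0⟩ := hz
    obtain ⟨a, ha, hmax⟩ := (Finset.univ.filter fun i => w (T.τ (p i)) ≠ 0).exists_max_image rk
      ⟨i0, Finset.mem_filter.2 ⟨Finset.mem_univ _, hi0⟩⟩
    refine Or.inr ⟨a, hp, hfx, (Finset.mem_filter.1 ha).2, fun i hi => ?_, fun j hj => ?_⟩
    · by_contra hne
      exact absurd (hmax i (Finset.mem_filter.2 ⟨Finset.mem_univ _, hne⟩)) (not_le.2 hi)
    · rw [← e]
      exact hw.2 (p j) (Finset.mem_image_of_mem p hj)

/-- marked points whose marks vanish outside `K` -/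
theorem BoxF_main (hm : X.S1.card ≤ m) (hrk : Function.Injective rk) (hsm : X.SmR rk η)
    (hη : ∑ i, η i ≤ 1 / 8) {ty : ι → ℕ} (ht : ∀ i, 1 ≤ ty i) {w0 : W → Vb}
    (h0 : w0 ∈ R.Z1U X.S1) (J K : Finset ι) (hK : K ⊆ J) :
    {f | (∃ a, X.FMc rk ty w0 a J f) ∧ ∀ i ∉ K, (f i).2 = 0}.Finite ∧
      ({f | (∃ a, X.FMc rk ty w0 a J f) ∧ ∀ i ∉ K, (f i).2 = 0}.ncard : ℝ) ≤
        4 * NV * (NV ^ 2) ^ m * (∏ j ∈ J \ K, (ty j : ℝ)⁻¹) * (X.tpts ty).ncard := by
  have key := BoxF_cover {f | (∃ a, X.FMc rk ty w0 a J f) ∧ ∀ i ∉ K, (f i).2 = 0}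
    (K.filter fun a => 2 ≤ ty a) (fun a => {f | X.FMc rk ty w0 a J f ∧ ∀ i ∉ K, (f i).2 = 0})
    (fun _ f => f) (fun a => 2 * NV * (NV ^ 2) ^ m * (∏ j ∈ J \ K, (ty j : ℝ)⁻¹) * (X.tpts ty).ncard *
      ∏ j ∈ K.filter (fun j => rk a < rk j), (ty j : ℝ)⁻¹) (fun a ha => ?_) ?_
  · refine ⟨key.1, key.2.trans ?_⟩
    rw [← Finset.mul_sum]
    refine (mul_le_mul_of_nonneg_left (geom_rk rk hrk ty ht K) (by positivity)).trans_eq ?_
    ring
  · have haK : a ∈ K := (Finset.mem_filter.1 ha).1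
    obtain ⟨h1, h2⟩ := fm_sum hrk hsm hη ty h0 a J (fun i => if i ∈ K then ty i else 1)
      {f | X.FMc rk ty w0 a J f ∧ ∀ i ∉ K, (f i).2 = 0} (fun _ hf => hf.1) (by
        intro i _ f _ v
        by_cases hi : i ∈ K
        · rw [if_pos hi]
          rcases Set.eq_empty_or_nonempty {n | ∃ f' ∈ {f | X.FMc rk ty w0 a J f ∧
              ∀ i ∉ K, (f i).2 = 0}, X.cf rk (fun i => (f' i).1) = X.cf rk (fun i => (f i).1) ∧
              (∀ j, rk j < rk i → f' j = f j) ∧ f' i = (v, n)} with e | ⟨n0, f0, hf0, -, -, e0⟩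
          · rw [e, Set.ncard_empty]
            exact Nat.zero_le _
          · rw [← BoxF_marks hf0.1.mem i]
            refine Set.ncard_le_ncard ?_ (Set.toFinite _)
            rintro n ⟨f', hf', -, -, e⟩
            have := hf'.1.fx i
            rw [e] at this
            simpa only [e0, Set.mem_ofPred_eq] using this
        · rw [if_neg hi, ← Set.ncard_singleton (0 : Vb)]
          refine Set.ncard_le_ncard ?_ (Set.toFinite _)
          rintro n ⟨f', hf', -, -, e⟩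
          have := hf'.2 i hi
          rw [e] at this
          exact this)
    refine ⟨h1, h2.trans ?_⟩
    rw [mul_assoc (2 * (NV : ℝ) * _), BoxF_prod hrk ht J K hK a,
      Finset.erase_eq_of_notMem fun h => (Finset.mem_sdiff.1 h).2 haK]
    calc _ = ((NV : ℝ) ^ 2) ^ R.S.card * (2 * NV * (∏ j ∈ J \ K, (ty j : ℝ)⁻¹) * (X.tpts ty).ncard *
          ∏ j ∈ K.filter (fun j => rk a < rk j), (ty j : ℝ)⁻¹) := by ring
      _ ≤ ((NV : ℝ) ^ 2) ^ m * (2 * NV * (∏ j ∈ J \ K, (ty j : ℝ)⁻¹) * (X.tpts ty).ncard *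
          ∏ j ∈ K.filter (fun j => rk a < rk j), (ty j : ℝ)⁻¹) :=
        mul_le_mul_of_nonneg_right (BoxF_S hm) (by positivity)
      _ = _ := by ring
  · rintro f ⟨⟨a, ha⟩, hf⟩
    exact ⟨a, Finset.mem_filter.2 ⟨by_contra fun h => ha.ne (hf a h), BoxF_two ha⟩, f, ⟨ha, hf⟩, rfl⟩

theorem gs_sum (hm : X.S1.card ≤ m) (hrk : Function.Injective rk) (hsm : X.SmR rk η)
    (hη : ∑ i, η i ≤ 1 / 8) (ty : ι → ℕ) (J : Finset ι) :
    {z : (ι → P) × (W → Vb) | z.1 ∈ X.tpts ty ∧ z.2 ∈ X.Gs J z.1}.Finite ∧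
      ({z : (ι → P) × (W → Vb) | z.1 ∈ X.tpts ty ∧ z.2 ∈ X.Gs J z.1}.ncard : ℝ) ≤
        CC m * (X.tpts ty).ncard := by
  rcases Set.eq_empty_or_nonempty (X.tpts ty) with e | ⟨p0, hp0⟩
  · simp [e]
  have ht : ∀ i, 1 ≤ ty i := ty_pos hp0
  have key := BoxF_cover {z : (ι → P) × (W → Vb) | z.1 ∈ X.tpts ty ∧ z.2 ∈ X.Gs J z.1}
    (Rep.z1U_finite (R := R) X.S1).toFinset
    (fun w0 => {f : ι → P × Vb | ((fun i => (f i).1) ∈ X.tpts ty ∧ ∀ i, (f i).2 = 0) ∨
      ((∃ a, X.FMc rk ty w0 a J f) ∧ ∀ i ∉ J, (f i).2 = 0)})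
    (fun w0 f => (fun i => (f i).1, X.wf w0 f))
    (fun _ => ((X.tpts ty).ncard : ℝ) + 4 * NV * (NV ^ 2) ^ m * (X.tpts ty).ncard) (fun w0 hw0 => ?_) ?_
  · refine ⟨key.1, key.2.trans ?_⟩
    rw [Finset.sum_const, nsmul_eq_mul, BoxF_CC]
    have h1 : (1 : ℝ) ≤ (NV ^ 2) ^ m := one_le_pow₀ (one_le_pow₀ BoxF_one)
    have h2 : (0 : ℝ) ≤ (X.tpts ty).ncard := Nat.cast_nonneg _
    refine (mul_le_mul_of_nonneg_right (BoxF_w0 hm) (by positivity)).trans ?_
    have h3 := BoxF_num BoxF_one h1 h2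
    have h4 : (0 : ℝ) ≤ NV * (NV ^ 2) ^ m * (X.tpts ty).ncard := by positivity
    linarith
  · have h0 : w0 ∈ R.Z1U X.S1 := (Set.Finite.mem_toFinset _).1 hw0
    have h1 := BoxF_main hm hrk hsm hη ht h0 J J subset_rfl
    rw [Finset.sdiff_self, Finset.prod_empty, mul_one] at h1
    refine BoxF_union (fun f hf => hf) ?_ h1
    have hi : Set.InjOn (fun (f : ι → P × Vb) i => (f i).1)
        {f | (fun i => (f i).1) ∈ X.tpts ty ∧ ∀ i, (f i).2 = 0} := fun f hf f' hf' e =>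
      funext fun i => Prod.ext (congrFun e i) ((hf.2 i).trans (hf'.2 i).symm)
    exact ⟨Set.Finite.of_injOn (fun f hf => hf.1) hi (tpts_finite ty),
      Nat.cast_le.2 (Set.ncard_le_ncard_of_injOn _ (fun f hf => hf.1) hi (tpts_finite ty))⟩
  · rintro ⟨p, w⟩ ⟨hp, hw⟩
    obtain ⟨w0, h0, e, h⟩ := BoxF_dec (rk := rk) hp hw
    refine ⟨w0, (Set.Finite.mem_toFinset _).2 h0, fun i => (p i, w (T.τ (p i))), ?_,
      Prod.ext rfl e.symm⟩
    exact h.imp (fun h => ⟨hp, h.1⟩) fun h => ⟨h, fun i hi => hw.1.2 _ (BoxF_notMem hp.1 hi)⟩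

theorem gs_tail (hm : X.S1.card ≤ m) (hrk : Function.Injective rk) (hsm : X.SmR rk η)
    (hη : ∑ i, η i ≤ 1 / 8) (ty : ι → ℕ) (J : Finset ι) (Rb : ℕ) :
    (Rb : ℝ) * {p | p ∈ X.tpts ty ∧ Rb < (X.Gs J p).ncard}.ncard ≤ CC m * (X.tpts ty).ncard := by
  obtain ⟨h1, h2⟩ := gs_sum hm hrk hsm hη ty J
  set S : Set ((ι → P) × (W → Vb)) :=
    {z | (z.1 ∈ X.tpts ty ∧ Rb < (X.Gs J z.1).ncard) ∧ z.2 ∈ X.Gs J z.1} with hS
  have hsub : S ⊆ {z | z.1 ∈ X.tpts ty ∧ z.2 ∈ X.Gs J z.1} := fun z hz => ⟨hz.1.1, hz.2⟩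
  have hfin : S.Finite := h1.subset hsub
  have key := seq_fiber S {p | p ∈ X.tpts ty ∧ Rb < (X.Gs J p).ncard}
    ((tpts_finite ty).subset fun _ h => h.1) Prod.fst (fun z hz => hz.1)
    (fun _ _ => hfin.subset fun _ h => h.1) Rb S.ncard (fun p hp => ⟨?_,
      Nat.cast_le.2 (Set.ncard_le_ncard (fun _ h => h.1) hfin)⟩)
  · exact key.2.1.trans ((Nat.cast_le.2 (Set.ncard_le_ncard hsub h1)).trans h2)
  · refine Nat.cast_le.2 (hp.2.le.trans (Set.ncard_le_ncard_of_injOn (fun w => (p, w))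
      (fun w hw => ⟨⟨hp, hw⟩, rfl⟩) (fun w _ w' _ e => congrArg Prod.snd e)
      (hfin.subset fun _ h => h.1)))

omit [Fintype ι] in
theorem BoxF_four {ty : ι → ℕ} {I : Finset ι} (hI : ∀ i ∈ I, ty i = NV) :
    ∏ j ∈ I, (ty j : ℝ)⁻¹ = (NV : ℝ)⁻¹ ^ I.card := by
  rw [← Finset.prod_const]
  exact Finset.prod_congr rfl fun i hi => by rw [hI i hi]

theorem fm_bound (hm : X.S1.card ≤ m) (hrk : Function.Injective rk) (hsm : X.SmR rk η)
    (hη : ∑ i, η i ≤ 1 / 8) {ty : ι → ℕ} {I : Finset ι} (hI : ∀ i ∈ I, ty i = NV) :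
    ({p | p ∈ X.tpts ty ∧ X.FM I p}.ncard : ℝ) ≤ CC m * (NV : ℝ)⁻¹ ^ I.card * (X.tpts ty).ncard := by
  rcases Set.eq_empty_or_nonempty (X.tpts ty) with e | ⟨p0, hp0⟩
  · simp [e]
  have ht : ∀ i, 1 ≤ ty i := ty_pos hp0
  have key := BoxF_cover {p | p ∈ X.tpts ty ∧ X.FM I p}
    (Rep.z1U_finite (R := R) X.S1).toFinset
    (fun w0 => {p | (¬ R.IsCob w0 ∧ p ∈ X.tpts ty ∧ ∀ j ∈ I, ∀ n, R.Fx (T.σ (p j)) n →
        ee (w0 (T.σ (p j))) n = 0) ∨ p ∈ (fun (f : ι → P × Vb) i => (f i).1) ''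
      {f | (∃ a, X.FMc rk ty w0 a Finset.univ f) ∧ ∀ i ∉ Iᶜ, (f i).2 = 0}})
    (fun _ p => p)
    (fun _ => 2 * (NV : ℝ)⁻¹ ^ I.card * (X.tpts ty).ncard +
      4 * NV * (NV ^ 2) ^ m * (NV : ℝ)⁻¹ ^ I.card * (X.tpts ty).ncard) (fun w0 hw0 => ?_) ?_
  · refine key.2.trans ?_
    rw [Finset.sum_const, nsmul_eq_mul, BoxF_CC]
    have h1 : (1 : ℝ) ≤ (NV ^ 2) ^ m := one_le_pow₀ (one_le_pow₀ BoxF_one)
    have h2 : (0 : ℝ) ≤ (NV : ℝ)⁻¹ ^ I.card * (X.tpts ty).ncard := by positivity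
    refine (mul_le_mul_of_nonneg_right (BoxF_w0 hm) (by positivity)).trans ?_
    have h3 := BoxF_num BoxF_one h1 h2
    have h4 : (0 : ℝ) ≤ NV * (NV ^ 2) ^ m * (X.tpts ty).ncard := by positivity
    linarith
  · have h0 : w0 ∈ R.Z1U X.S1 := (Set.Finite.mem_toFinset _).1 hw0
    have h1 := BoxF_main hm hrk hsm hη ht h0 Finset.univ Iᶜ (Finset.subset_univ _)
    rw [← Finset.compl_eq_univ_sdiff, compl_compl, BoxF_four hI] at h1
    refine BoxF_union (A := {p | ¬ R.IsCob w0 ∧ p ∈ X.tpts ty ∧ ∀ j ∈ I, ∀ n,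
        R.Fx (T.σ (p j)) n → ee (w0 (T.σ (p j))) n = 0}) (fun f hf => hf)
      ⟨(tpts_finite ty).subset fun _ h => h.2.1, ?_⟩
      ⟨h1.1.image _, (Nat.cast_le.2 (Set.ncard_image_le h1.1)).trans h1.2⟩
    by_cases hc : R.IsCob w0
    · simp only [hc, not_true_eq_false, false_and, Set.ofPred_false, Set.ncard_empty,
        Nat.cast_zero]
      positivity
    · have h2 := fm_zero hsm hη ty h0 hc I
      rw [BoxF_four hI] at h2
      simpa only [hc, not_false_eq_true, true_and] using h2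
  · rintro p ⟨hp, w, hw, hc, hz⟩
    obtain ⟨w0, h0, -, h⟩ := BoxF_dec (rk := rk) hp hw
    refine ⟨w0, (Set.Finite.mem_toFinset _).2 h0, p, ?_, rfl⟩
    rcases h with ⟨h1, rfl⟩ | h
    · exact Or.inl ⟨hc, hp, fun j _ n hn =>
        (hw.2 (p j) (Finset.mem_image_of_mem p (Finset.mem_univ j))).pair_sigma (h1 j) n hn⟩
    · exact Or.inr ⟨fun i => (p i, w (T.τ (p i))),
        ⟨h, fun i hi => hz i (by simpa using hi)⟩, rfl⟩

variable (X) in
/-- the candidates for the second cocycle -/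
def BoxFU (I : Finset ι) (f : ι → P × Vb) : Set (W → Vb) :=
  {u | u ∈ R.Z1U (X.S1 ∪ Iᶜ.image fun i => (f i).1) ∧ ∀ j ∉ I,
    R.LLs (X.x (fun i => (f i).1) (T.σ (f j).1)) ((X.e j : F2) • (f j).2) (f j).1 u}

theorem BoxF_U_finite (I : Finset ι) (f : ι → P × Vb) : (X.BoxFU I f).Finite :=
  (Rep.z1U_finite _).subset fun _ h => h.1

theorem BoxF_U_card (I : Finset ι) {f : ι → P × Vb} (hp : (fun i => (f i).1) ∈ X.pts) :
    (X.BoxFU I f).ncard ≤ (X.Gs Iᶜ fun i => (f i).1).ncard := by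
  rcases Set.eq_empty_or_nonempty (X.BoxFU I f) with e | ⟨u0, hu0⟩
  · simp [e]
  refine Set.ncard_le_ncard_of_injOn (fun u => u + u0) (fun u hu => ⟨Rep.Fam_z1U_add hu.1 hu0.1,
    fun v hv => ?_⟩) (fun u _ u' _ e => add_right_cancel e) (Rep.G1_finite _ _ _)
  obtain ⟨j, hj, rfl⟩ := Finset.mem_image.1 hv
  have hj' : j ∉ I := Finset.mem_compl.1 hj
  have k := (hu.2 j hj').add (notMem_S hp j) (hu.1.1.lz _) (hu0.1.1.lz _) (hu0.2 j hj')
  rwa [vb_add_self] at k

theorem BoxF_U_eq (hrk : Function.Injective rk) (I : Finset ι) {f f' : ι → P × Vb}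
    (hp : (fun i => (f i).1) ∈ X.pts) (hp' : (fun i => (f' i).1) ∈ X.pts)
    (hc : X.cf rk (fun i => (f' i).1) = X.cf rk fun i => (f i).1) (h : ∀ j ∉ I, f' j = f j) :
    X.BoxFU I f' = X.BoxFU I f := by
  have h1 : (Iᶜ.image fun i => (f' i).1) = Iᶜ.image fun i => (f i).1 :=
    Finset.image_congr fun j hj => congrArg Prod.fst (h j (Finset.mem_compl.1 hj))
  ext u
  simp only [BoxFU, h1, Set.mem_ofPred_eq]
  refine and_congr_right fun _ => forall₂_congr fun j hj => ?_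
  rw [x_eq hrk hp' hp hc (j := j) (congrArg Prod.fst (h j hj)), h j hj]

theorem BoxF_g2 (hm : X.S1.card ≤ m) (hrk : Function.Injective rk) (hsm : X.SmR rk η)
    (hη : ∑ i, η i ≤ 1 / 8) {ty : ι → ℕ} (ht : ∀ i, 1 ≤ ty i) {I : Finset ι}
    (hI : ∀ i ∈ I, ty i = NV) (hl : ∀ i ∈ I, ∀ j ∉ I, rk j < rk i) {w0 : W → Vb}
    (h0 : w0 ∈ R.Z1U X.S1) {a : ι} (ha : a ∈ I) (en : Set (W → Vb) → W → Vb) :
    {f | X.FMc rk ty w0 a Finset.univ f ∧
      ∀ i ∈ I, (f i).2 = en (X.BoxFU I f) (T.σ (f i).1)}.Finite ∧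
    ({f | X.FMc rk ty w0 a Finset.univ f ∧
      ∀ i ∈ I, (f i).2 = en (X.BoxFU I f) (T.σ (f i).1)}.ncard : ℝ) ≤
        2 * NV * NV * (NV ^ 2) ^ m * (NV : ℝ)⁻¹ ^ I.card * (X.tpts ty).ncard := by
  obtain ⟨h1, h2⟩ := fm_sum hrk hsm hη ty h0 a Finset.univ (fun i => if i ∈ Iᶜ then ty i else 1)
    {f | X.FMc rk ty w0 a Finset.univ f ∧ ∀ i ∈ I, (f i).2 = en (X.BoxFU I f) (T.σ (f i).1)}
    (fun _ hf => hf.1) (by
      intro i _ f hf v
      by_cases hi : i ∈ Iᶜ
      · rw [if_pos hi]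
        rcases Set.eq_empty_or_nonempty {n | ∃ f' ∈ {f | X.FMc rk ty w0 a Finset.univ f ∧
            ∀ i ∈ I, (f i).2 = en (X.BoxFU I f) (T.σ (f i).1)},
            X.cf rk (fun i => (f' i).1) = X.cf rk (fun i => (f i).1) ∧
            (∀ j, rk j < rk i → f' j = f j) ∧ f' i = (v, n)} with e | ⟨n0, f0, hf0, -, -, e0⟩
        · rw [e, Set.ncard_empty]
          exact Nat.zero_le _
        · rw [← BoxF_marks hf0.1.mem i]
          refine Set.ncard_le_ncard ?_ (Set.toFinite _)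
          rintro n ⟨f', hf', -, -, e⟩
          have := hf'.1.fx i
          rw [e] at this
          simpa only [e0, Set.mem_ofPred_eq] using this
      · have hi' : i ∈ I := by simpa using hi
        rw [if_neg hi, ← Set.ncard_singleton (en (X.BoxFU I f) (T.σ v))]
        refine Set.ncard_le_ncard ?_ (Set.toFinite _)
        rintro n ⟨f', hf', hc, hag, e⟩
        have := hf'.2 i hi'
        rw [e, BoxF_U_eq hrk I hf.1.mem.1 hf'.1.mem.1 hc fun j hj => hag j (hl i hi' j hj)] at this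
        exact this)
  refine ⟨h1, h2.trans ?_⟩
  have h3 : Iᶜ.filter (fun j => rk a < rk j) = ∅ := Finset.filter_eq_empty_iff.2 fun j hj =>
    not_lt.2 (hl a ha j (Finset.mem_compl.1 hj)).le
  have h4 : (NV : ℝ)⁻¹ ^ (I.erase a).card = NV * (NV : ℝ)⁻¹ ^ I.card := by
    have := BoxF_one
    rw [← Finset.card_erase_add_one ha, pow_succ]
    field_simp
  rw [mul_assoc (2 * (NV : ℝ) * _), BoxF_prod hrk ht Finset.univ Iᶜ (Finset.subset_univ _) a, h3,
    ← Finset.compl_eq_univ_sdiff, compl_compl, Finset.prod_empty, mul_one,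
    BoxF_four fun i hi => hI i (Finset.mem_of_mem_erase hi), h4]
  calc _ = ((NV : ℝ) ^ 2) ^ R.S.card * (2 * NV * NV * (NV : ℝ)⁻¹ ^ I.card * (X.tpts ty).ncard) := by ring
    _ ≤ ((NV : ℝ) ^ 2) ^ m * (2 * NV * NV * (NV : ℝ)⁻¹ ^ I.card * (X.tpts ty).ncard) :=
      mul_le_mul_of_nonneg_right (BoxF_S hm) (by positivity)
    _ = _ := by ring

theorem g2_bound (hm : X.S1.card ≤ m) (hrk : Function.Injective rk) (hsm : X.SmR rk η)
    (hη : ∑ i, η i ≤ 1 / 8) {ty : ι → ℕ} {I : Finset ι} (hI : ∀ i ∈ I, ty i = NV)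
    (ho : ∀ i ∈ I, X.e i % 2 = 1) (hl : ∀ i ∈ I, ∀ j ∉ I, rk j < rk i) (R' : ℕ) :
    ({p | p ∈ X.tpts ty ∧ X.G2 I p ∧ (X.Gs Iᶜ p).ncard ≤ R'}.ncard : ℝ) ≤
      2 * CC m * R' * I.card * (NV : ℝ)⁻¹ ^ I.card * (X.tpts ty).ncard := by
  rcases Set.eq_empty_or_nonempty (X.tpts ty) with e | ⟨p0, hp0⟩
  · simp [e]
  have ht : ∀ i, 1 ≤ ty i := ty_pos hp0
  obtain ⟨en, hen⟩ := exists_enum (W → Vb)
  have key := BoxF_cover {p | p ∈ X.tpts ty ∧ X.G2 I p ∧ (X.Gs Iᶜ p).ncard ≤ R'}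
    ((Rep.z1U_finite (R := R) X.S1).toFinset ×ˢ (I ×ˢ Finset.range R'))
    (fun k => {f | X.FMc rk ty k.1 k.2.1 Finset.univ f ∧
      ∀ i ∈ I, (f i).2 = en (X.BoxFU I f) k.2.2 (T.σ (f i).1)})
    (fun _ f i => (f i).1)
    (fun _ => 2 * NV * NV * (NV ^ 2) ^ m * (NV : ℝ)⁻¹ ^ I.card * (X.tpts ty).ncard) (fun k hk => ?_) ?_
  · refine key.2.trans ?_
    rw [Finset.sum_const, nsmul_eq_mul, BoxF_CC, Finset.card_product, Finset.card_product,
      Finset.card_range, Nat.cast_mul, Nat.cast_mul]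
    have h2 : (0 : ℝ) ≤ NV ^ 3 * (NV ^ 2) ^ m * (NV ^ 2) ^ m * R' * I.card * (NV : ℝ)⁻¹ ^ I.card * (X.tpts ty).ncard := by
      positivity
    refine (mul_le_mul_of_nonneg_right (mul_le_mul_of_nonneg_right (BoxF_w0 hm) (by positivity))
      (by positivity)).trans ?_
    linarith
  · rw [Finset.mem_product, Finset.mem_product] at hk
    exact BoxF_g2 hm hrk hsm hη ht hI hl ((Set.Finite.mem_toFinset _).1 hk.1) hk.2.1
      fun S => en S k.2.2
  · rintro p ⟨hp, ⟨w, hw, u, hu, hll, i0, hi0, hne⟩, hR⟩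
    obtain ⟨w0, h0, -, h⟩ := BoxF_dec (rk := rk) hp hw
    rcases h with ⟨h1, -⟩ | ⟨a, h⟩
    · exact absurd (h1 i0) hne
    have ha : a ∈ I := by_contra fun ha => hne (h.last i0 (hl i0 hi0 a ha))
    have hU : u ∈ X.BoxFU I fun i => (p i, w (T.τ (p i))) := ⟨hu, fun j _ => hll j⟩
    obtain ⟨r, hr, er⟩ := hen _ (BoxF_U_finite I _) u hU
    have hr' : r < R' := hr.trans_le ((BoxF_U_card I (f := fun i => (p i, w (T.τ (p i)))) hp.1).trans hR)
    refine ⟨(w0, a, r), Finset.mem_product.2 ⟨(Set.Finite.mem_toFinset _).2 h0,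
      Finset.mem_product.2 ⟨ha, Finset.mem_range.2 hr'⟩⟩, fun i => (p i, w (T.τ (p i))),
      ⟨h, fun i hi => ?_⟩, rfl⟩
    have h1 : u (T.τ (p i)) = 0 := hu.2 _ (BoxF_notMem hp.1 (by simpa using hi))
    have h2 : R.rb (T.σ (p i)) = 1 := Rep.nf_eq_four.1 ((hp.2 i).trans (hI i hi))
    have h3 : (X.e i : F2) = 1 := by
      rw [← Nat.div_add_mod (X.e i) 2, ho i hi]
      push_cast
      rw [F2_two]
      simp
    have h4 : u (T.σ (p i)) + w (T.τ (p i)) = 0 := eq_zero_of_ee fun n => by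
      have := hll i n (by rw [Lat.Fx, h2, Matrix.one_mulVec])
      rwa [h1, Rep.kap_zero, smul_zero, add_zero, add_zero, h3, one_smul] at this
    rw [← vb_sub, sub_eq_zero] at h4
    show w (T.τ (p i)) = en (X.BoxFU I fun i => (p i, w (T.τ (p i)))) r (T.σ (p i))
    rw [er, h4]

end Box

end

end Pool.Agent.Hyp
end

-- merged part: Pool.Agent.Work.MP_60d5ce_nt.Hy.BoxC
section
/-!
# In a box, almost all twists are good  (task QT BoxC)

`n = card (tpts ty)`, `C = CC m`.  Union bounds with `cover` (compare `boxC_cover` in `Sm/BoxC.lean`).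
The natural order `rk = X.e` (`SmA`, `e_inj`) is used for `fm_bound` and `gs_tail`.
* `bad0`: for `h` large put `Rb = h ^ 4`, `K1 = c + 2 + 2 * h`; `I1`, `I2` disjoint subsets of `Is` with `h` elements.  By `cover`
  (`res 0 = 0`), `fm_bound`, `gs_tail`, `iter` with `j0 = 2`, `t = h`, `Bad = False` (`diag_zero`) and `Prs_anti`, the number of bad points is at most
  `(2 C / 4 ^ h + h ^ 2 * C / h ^ 4 + h ^ 2 * ((3 / 4) ^ h * (16 * h ^ 4) ^ 2 + ε')) * n`; the number of points with a pair in `Prs` is at most the number of pairs.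
  `numer` gives `h`.
* `tbox`: choose in this order `R'`, `h2`, `Rb` (so that `C / R'`, `2 C / 4 ^ h2`, `2 C R' h2 / 4 ^ h2`, `h2 ^ 2 * C / Rb` are small), then `bad0` with
  `δ = ε / (8 * (1 + 4 * h2 ^ 2 * (16 * Rb) ^ 2))`, giving `K1`; `j0 = 2 * K1 + cf + 1` with `cf` of `exists_fin`; `t` and `ε'` with
  `(4 * K1 + 1) * h2 ^ 2 * ((3 / 4) ^ t * (16 * Rb) ^ 2 + ε')` small; `K = j0 + 2 * t`.  A point that is not good either fails `NoLift 0 K1` or fails
  `NoLift (2 ^ a) K` for some `a ≤ 4 * K1`; the events `FM`, `G2`, large `Gs` of `cover` do not depend on `a`; only the pairs in `Prs` are summed over `a`,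
  with `iter` for `Bad p = ¬ NoLift 0 K1` (`diag_of_lift`, `ram_x`, `Nondeg.p0_ne`, `not_cob_of_ram`, `Lifts.mono`).
  `g2_bound` and `gs_tail` for `I2ᶜ` use the rank of `exists_rk` (`B ≥ 16 * h2`).
* `box`: split `pts` according to the type vector `ty p = fun i => nf (σ (p i))` (finitely many values).  Types with at least `h`
  split and `h` free indices in `L` are handled by `tbox`; the others by `tail_count` twice (`pts` is the product of the sets
  `Pr S1 True (e i)`; `cnt_frac`, `θ = 1 / 32`), with `A` such that `2 ^ h * (63 / 64) ^ A` is small.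
-/

namespace Pool.Agent.Hyp

open Pool.Agent.Quad

variable [Par]

open scoped Classical

noncomputable section

theorem BoxC_tend (k : ℕ) {r : ℝ} (h0 : 0 ≤ r) (h1 : r < 1) (a : ℝ) {δ : ℝ} (hδ : 0 < δ) :
    ∀ᶠ h : ℕ in Filter.atTop, a * ((h : ℝ) ^ k * r ^ h) ≤ δ := by
  have h2 := (tendsto_pow_const_mul_const_pow_of_abs_lt_one k (r := r)
    (by rwa [abs_of_nonneg h0])).const_mul a
  rw [mul_zero] at h2
  exact h2.eventually (ge_mem_nhds hδ)

theorem BoxC_inv (a : ℝ) {δ : ℝ} (hδ : 0 < δ) : ∀ᶠ h : ℕ in Filter.atTop, a / (h : ℝ) ≤ δ :=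
  (tendsto_const_div_atTop_nhds_zero_nat a).eventually (ge_mem_nhds hδ)

theorem BoxC_fibers {α β : Type} {S : Set α} (hS : S.Finite) (f : α → β) (t : Finset β)
    (ht : ∀ p ∈ S, f p ∈ t) :
    (S.ncard : ℝ) = ∑ c ∈ t, ({p | p ∈ S ∧ f p = c}.ncard : ℝ) := by
  rw [Set.ncard_eq_toFinset_card S hS, Finset.card_eq_sum_card_fiberwise (f := f) (t := t)
    fun p hp => Finset.mem_coe.2 (ht p (hS.mem_toFinset.1 (Finset.mem_coe.1 hp))), Nat.cast_sum]
  refine Finset.sum_congr rfl fun c _ => ?_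
  rw [← Set.ncard_coe_finset]
  congr 2
  ext p
  simp

theorem BoxC_biUnion {α β : Type} (Z : Finset β) (F : β → Set α) {r : ℝ}
    (h : ∀ z ∈ Z, ((F z).ncard : ℝ) ≤ r) : ((⋃ z ∈ Z, F z).ncard : ℝ) ≤ Z.card * r := by
  have h1 : ((⋃ z ∈ Z, F z).ncard : ℝ) ≤ ∑ z ∈ Z, ((F z).ncard : ℝ) := by
    exact_mod_cast Finset.set_ncard_biUnion_le Z F
  refine h1.trans ?_
  rw [← nsmul_eq_mul]
  exact Finset.sum_le_card_nsmul Z _ r h

theorem BoxC_union {α : Type} {A B : Set α} {a b : ℝ} (ha : (A.ncard : ℝ) ≤ a)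
    (hb : (B.ncard : ℝ) ≤ b) : ((A ∪ B).ncard : ℝ) ≤ a + b := by
  have h1 : ((A ∪ B).ncard : ℝ) ≤ A.ncard + B.ncard := by exact_mod_cast Set.ncard_union_le A B
  linarith

theorem BoxC_le {α : Type} {A B : Set α} {b : ℝ} (hB : B.Finite) (h : A ⊆ B)
    (hb : (B.ncard : ℝ) ≤ b) : (A.ncard : ℝ) ≤ b :=
  (Nat.cast_le.2 (Set.ncard_le_ncard h hB)).trans hb

theorem BoxC_two {ι : Type} {Is : Finset ι} {h : ℕ} (hc : 2 * h ≤ Is.card) :
    ∃ I1 I2 : Finset ι, I1 ⊆ Is ∧ I2 ⊆ Is ∧ I1.card = h ∧ I2.card = h ∧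
      ∀ a ∈ I1, ∀ b ∈ I2, a ≠ b := by
  obtain ⟨I1, h1, h2⟩ := Finset.exists_subset_card_eq (s := Is) (n := h) (by omega)
  obtain ⟨I2, h3, h4⟩ := Finset.exists_subset_card_eq (s := Is \ I1) (n := h) (by
    rw [Finset.card_sdiff_of_subset h1]
    omega)
  refine ⟨I1, I2, h1, h3.trans Finset.sdiff_subset, h2, h4, fun a ha b hb hab => ?_⟩
  exact (Finset.mem_sdiff.1 (h3 hb)).2 (hab ▸ ha)

theorem BoxC_arith {ε n b k h C u v R' Rb N : ℝ} (hε : 0 < ε) (hn : 0 ≤ n) (hb : 0 ≤ b) (hk : 1 ≤ k)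
    (h1 : C / R' ≤ ε / 8) (h2 : 2 * C * u ≤ ε / 8) (h3 : 2 * C * R' * (h * u) ≤ ε / 8)
    (h4 : h ^ 2 * C / Rb ≤ ε / 8) (h5 : k * b ≤ ε / 8 / (1 + 4 * h ^ 2 * (N * Rb) ^ 2) * n)
    (h6 : k * h ^ 2 * (N * Rb) ^ 2 * v ≤ ε / 8) :
    b + (2 * (C * u * n) + (C / R' * n + 2 * C * R' * h * u * n) + h * h * (C / Rb * n) +
      k * (h * h) * ((v * (N * Rb) ^ 2 + ε / 8 / (k * h ^ 2 + 1)) * n +
        4 * (N * Rb) ^ 2 * b)) ≤ ε * n := by
  have hD : 0 < 1 + 4 * h ^ 2 * (N * Rb) ^ 2 := by positivity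
  have hE : 0 < k * h ^ 2 + 1 := by positivity
  have e1 := mul_le_mul_of_nonneg_right h1 hn
  have e2 := mul_le_mul_of_nonneg_right h2 hn
  have e3 := mul_le_mul_of_nonneg_right h3 hn
  have e4 := mul_le_mul_of_nonneg_right h4 hn
  have e6 := mul_le_mul_of_nonneg_right h6 hn
  have e5 : k * b * (1 + 4 * h ^ 2 * (N * Rb) ^ 2) ≤ ε / 8 * n := by
    rw [div_mul_eq_mul_div, le_div_iff₀ hD] at h5
    exact h5
  have e7 : k * h ^ 2 * (ε / 8 / (k * h ^ 2 + 1)) ≤ ε / 8 := by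
    rw [← mul_div_assoc, div_le_iff₀ hE]
    nlinarith
  have e8 := mul_le_mul_of_nonneg_right e7 hn
  have e9 : b ≤ k * b := le_mul_of_one_le_left hb hk
  have e10 : 0 ≤ ε * n := by positivity
  have e11 : h * h * (C / Rb * n) = h ^ 2 * C / Rb * n := by ring
  rw [e11]
  generalize ε / 8 / (k * h ^ 2 + 1) = y at e8 ⊢
  generalize h ^ 2 * C / Rb = z at e4 ⊢
  generalize C / R' = w at e1 ⊢
  nlinarith

/-- the union bound given by `cover` -/
theorem BoxC_cover {W P : Type} [Group W] {T : Tame W P} {R : Rep T} {ι : Type} [Fintype ι]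
    (X : Box R ι) (ty : ι → ℕ) (I1 I2 : Finset ι) (Z : Finset ℕ) (lam : ℕ → O) {K : ℕ}
    (hK : 1 ≤ K) (Rb : ℕ) {f g s r : ℝ}
    (hf1 : ({p | p ∈ X.tpts ty ∧ X.FM I1 p}.ncard : ℝ) ≤ f)
    (hf2 : ({p | p ∈ X.tpts ty ∧ X.FM I2 p}.ncard : ℝ) ≤ f)
    (hg : ({p | p ∈ X.tpts ty ∧ (∃ z ∈ Z, res (lam z) ≠ 0) ∧ X.G2 I2 p}.ncard : ℝ) ≤ g)
    (hs : ∀ J, ({p | p ∈ X.tpts ty ∧ Rb < (X.Gs J p).ncard}.ncard : ℝ) ≤ s)
    (hr : ∀ z ∈ Z, ∀ a ∈ I1, ∀ b ∈ I2, ((X.Prs ty (lam z) a b Rb K).ncard : ℝ) ≤ r) :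
    ({p | p ∈ X.tpts ty ∧ ∃ z ∈ Z, ¬ R.NoLift (lam z) (X.A p) (X.x p) K}.ncard : ℝ) ≤
      2 * f + g + I1.card * I2.card * s + Z.card * (I1.card * I2.card) * r := by
  have hP : ∀ z a b, (X.Prs ty (lam z) a b Rb K).Finite := fun z a b =>
    (Box.prs_card (X := X) (ty := ty) (lam := lam z) (a := a) (b := b) (Rb := Rb) hK
      fun _ => True).1.subset fun _ h => ⟨h, trivial⟩
  have h4 := BoxC_biUnion (I1 ×ˢ I2)
    (fun q => {p | p ∈ X.tpts ty ∧ Rb < (X.Gs (jab q.1 q.2) p).ncard}) fun q _ => hs _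
  have h5 := BoxC_biUnion (Z ×ˢ (I1 ×ˢ I2))
    (fun q => Prod.fst '' X.Prs ty (lam q.1) q.2.1 q.2.2 Rb K) (r := r) fun q hq => by
      obtain ⟨h1, h2⟩ := Finset.mem_product.1 hq
      obtain ⟨h2, h3⟩ := Finset.mem_product.1 h2
      exact (Nat.cast_le.2 (Set.ncard_image_le (hP _ _ _))).trans (hr _ h1 _ h2 _ h3)
  have h6 := BoxC_union (BoxC_union (BoxC_union (BoxC_union hf1 hf2) hg) h4) h5
  simp only [Finset.card_product, Nat.cast_mul] at h6
  refine (BoxC_le ?_ ?_ h6).trans (le_of_eq (by ring))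
  · refine (Box.tpts_finite (X := X) ty).subset ?_
    rintro p ((((h | h) | h) | h) | h)
    · exact h.1
    · exact h.1
    · exact h.1
    · obtain ⟨q, -, h⟩ := Set.mem_iUnion₂.1 h
      exact h.1
    · obtain ⟨q, -, z, h1, rfl⟩ := Set.mem_iUnion₂.1 h
      exact h1.1
  · rintro p ⟨hp, z, hz, h⟩
    rcases Box.cover hp I1 I2 hK Rb h with h | h | h | ⟨a, ha, b, hb, h | ⟨w, h⟩⟩
    · exact Or.inl (Or.inl (Or.inl (Or.inl ⟨hp, h⟩)))
    · exact Or.inl (Or.inl (Or.inl (Or.inr ⟨hp, h⟩)))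
    · exact Or.inl (Or.inl (Or.inr ⟨hp, ⟨z, hz, h.1⟩, h.2⟩))
    · exact Or.inl (Or.inr (Set.mem_iUnion₂.2 ⟨(a, b), Finset.mem_product.2 ⟨ha, hb⟩, hp, h⟩))
    · exact Or.inr (Set.mem_iUnion₂.2 ⟨(z, a, b),
        Finset.mem_product.2 ⟨hz, Finset.mem_product.2 ⟨ha, hb⟩⟩, (p, w), h, rfl⟩)

theorem BoxC_tail {W P : Type} [Group W] {T : Tame W P} {R : Rep T} {ι : Type} [Fintype ι]
    {X : Box R ι} {m : ℕ} {η : ι → ℝ} (hm : X.S1.card ≤ m) (hA : X.SmA η) (ty : ι → ℕ) {Rb : ℕ}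
    (hRb : 0 < Rb) (J : Finset ι) :
    ({p | p ∈ X.tpts ty ∧ Rb < (X.Gs J p).ncard}.ncard : ℝ) ≤
      CC m / Rb * (X.tpts ty).ncard := by
  have h1 := Box.gs_tail hm X.e_inj hA.2 (hA.1.trans (by norm_num)) ty J Rb
  have h2 : (0 : ℝ) < Rb := Nat.cast_pos.2 hRb
  rw [div_mul_eq_mul_div, le_div_iff₀ h2, mul_comm]
  exact h1

theorem BoxC_NV : (NV : ℝ)⁻¹ < 1 :=
  inv_lt_one_of_one_lt₀ (by exact_mod_cast lt_of_lt_of_le (by norm_num) four_le_NV)

theorem numer (C c : ℕ) {δ : ℝ} (hδ : 0 < δ) : ∃ h : ℕ, 1 ≤ h ∧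
    (4 * ((c : ℝ) + 2 + 2 * h) + 1) * (2 * C * (NV : ℝ)⁻¹ ^ h + (h : ℝ) ^ 2 * (C / (h : ℝ) ^ 4) +
      (h : ℝ) ^ 2 * ((3 / 4) ^ h * (NV ^ 2 * (h : ℝ) ^ 4) ^ 2)) ≤ δ := by
  have h3 : 0 < δ / 3 := by positivity
  obtain ⟨h, ⟨⟨h1, h2⟩, h4⟩, h5⟩ := ((((BoxC_tend 1 (r := (NV : ℝ)⁻¹) (by positivity) BoxC_NV
    ((4 * c + 17) * (2 * C)) h3).and (BoxC_inv ((4 * c + 17) * C) h3)).and
    (BoxC_tend 11 (r := 3 / 4) (by norm_num) (by norm_num) ((4 * c + 17) * NV ^ 4) h3)).and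
    (Filter.eventually_ge_atTop 1)).exists
  refine ⟨h, h5, ?_⟩
  have h6 : (1 : ℝ) ≤ h := by exact_mod_cast h5
  have h7 : 4 * ((c : ℝ) + 2 + 2 * h) + 1 ≤ (4 * c + 17) * h := by
    have : (0 : ℝ) ≤ c := Nat.cast_nonneg _
    nlinarith
  refine (mul_le_mul_of_nonneg_right h7 (by positivity)).trans ?_
  have h8 : (4 * (c : ℝ) + 17) * h * (2 * C * (NV : ℝ)⁻¹ ^ h + (h : ℝ) ^ 2 * (C / (h : ℝ) ^ 4) +
      (h : ℝ) ^ 2 * ((3 / 4) ^ h * (NV ^ 2 * (h : ℝ) ^ 4) ^ 2)) =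
      (4 * c + 17) * (2 * C) * ((h : ℝ) ^ 1 * (NV : ℝ)⁻¹ ^ h) + (4 * c + 17) * C / h +
        (4 * c + 17) * NV ^ 4 * ((h : ℝ) ^ 11 * (3 / 4) ^ h) := by
    field_simp
  rw [h8]
  linarith

theorem bad0 (m c : ℕ) {δ : ℝ} (hδ : 0 < δ) : ∃ K1 h B : ℕ, c ≤ K1 ∧ 1 ≤ K1 ∧ 0 < B ∧
    ∀ {W P : Type} [Group W] {T : Tame W P} {R : Rep T} {ι : Type} [Fintype ι] (X : Box R ι)
      (L Is F : Finset ι) (η : ι → ℝ) (ty : ι → ℕ), X.S1.card ≤ m → Is ⊆ L → F ⊆ L →
      (∀ i ∈ Is, ty i = NV) → (∀ i ∈ F, ty i = 1) → h ≤ Is.card → h ≤ F.card → X.SmA η →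
      X.SmL B L → (4 * (K1 : ℝ) + 1) *
        {p | p ∈ X.tpts ty ∧ ¬ R.NoLift 0 (X.A p) (X.x p) K1}.ncard ≤ δ * (X.tpts ty).ncard := by
  obtain ⟨h, h1, hn⟩ := numer (CC m) c (half_pos hδ)
  have h0 : (0 : ℝ) < h := Nat.cast_pos.2 h1
  have hk : (0 : ℝ) < 4 * ((c : ℝ) + 2 + 2 * h) + 1 := by positivity
  obtain ⟨B, hB, H⟩ := iter (h ^ 4) m 2 h le_rfl
    (ε := δ / 2 / ((4 * ((c : ℝ) + 2 + 2 * h) + 1) * (h : ℝ) ^ 2)) (by positivity)
  refine ⟨c + 2 + 2 * h, 2 + 2 * h, B, by omega, by omega, hB, ?_⟩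
  intro W P _ T R ι _ X L Is F η ty hm hIs hF h4 hF1 hcI hcF hA hL
  obtain ⟨I1, I2, s1, s2, c1, c2, hne⟩ := BoxC_two (Is := Is) (h := h) (by omega)
  have hη : ∑ i, η i ≤ 1 / 8 := hA.1.trans (by norm_num)
  have f1 := Box.fm_bound hm X.e_inj hA.2 hη (ty := ty) (I := I1) fun i hi => h4 i (s1 hi)
  have f2 := Box.fm_bound hm X.e_inj hA.2 hη (ty := ty) (I := I2) fun i hi => h4 i (s2 hi)
  rw [c1] at f1
  rw [c2] at f2
  have key := BoxC_cover X ty I1 I2 {0} (fun _ => 0) (K := c + 2 + 2 * h) (by omega) (h ^ 4)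
    (g := 0) f1 f2 (by simp) (BoxC_tail hm hA ty (pow_pos h1 4))
    (r := ((3 / 4) ^ h * (NV ^ 2 * ((h ^ 4 : ℕ) : ℝ)) ^ 2 +
      δ / 2 / ((4 * ((c : ℝ) + 2 + 2 * h) + 1) * (h : ℝ) ^ 2)) * (X.tpts ty).ncard)
    fun z _ a ha b hb => by
      have h5 := H X L F ty 0 a b (fun _ => False) hm (hne a ha b hb) (hIs (s1 ha)) (hIs (s2 hb))
        (h4 a (s1 ha)) (h4 b (s2 hb)) hF hF1 hcF hL
        fun j hj z _ _ => Rep.diag_zero (Box.x_hom _) (by omega)
      simp only [and_false, Set.ofPred_false, Set.ncard_empty, Nat.cast_zero, mul_zero,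
        add_zero] at h5
      refine BoxC_le ?_ (Box.Prs_anti (by omega)) h5
      exact (Box.prs_card (X := X) (ty := ty) (lam := 0) (a := a) (b := b) (Rb := h ^ 4)
        (j := 2 + 2 * h) (by omega) fun _ => True).1.subset fun _ h => ⟨h, trivial⟩
  simp only [Finset.mem_singleton, exists_eq_left, Finset.card_singleton, c1, c2] at key
  push_cast at key ⊢
  have hN : (0 : ℝ) ≤ (X.tpts ty).ncard := Nat.cast_nonneg _
  refine (mul_le_mul_of_nonneg_left key hk.le).trans ?_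
  have h6 := mul_le_mul_of_nonneg_right hn hN
  refine le_trans (le_of_eq ?_) ((add_le_add_left h6 (δ / 2 * (X.tpts ty).ncard)).trans
    (le_of_eq (by ring)))
  field_simp
  ring

variable {W P : Type} [Group W] {T : Tame W P} (R : Rep T)

theorem tbox (m c : ℕ) {ε : ℝ} (hε : 0 < ε) : ∃ h B : ℕ, 0 < B ∧
    ∀ {ι : Type} [Fintype ι] (X : Box R ι) (L Is F : Finset ι) (η : ι → ℝ) (ty : ι → ℕ),
      X.S1.card ≤ m → Is ⊆ L → F ⊆ L → (∀ i ∈ Is, ty i = NV) → (∀ i ∈ F, ty i = 1) →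
      h ≤ Is.card → h ≤ F.card → (∀ i ∈ L, X.e i % 2 = 1) → X.SmA η → X.SmL B L →
      ({p | p ∈ X.tpts ty ∧ ¬ R.Good (X.A p) (X.x p) c}.ncard : ℝ) ≤ ε * (X.tpts ty).ncard := by
  have e8 : 0 < ε / 8 := by positivity
  obtain ⟨R', hR1, hR0⟩ := ((BoxC_inv (CC m) e8).and (Filter.eventually_gt_atTop 0)).exists
  obtain ⟨h2, a1, a2⟩ := ((BoxC_tend 0 (r := (NV : ℝ)⁻¹) (by positivity) BoxC_NV
    (2 * CC m) e8).and (BoxC_tend 1 (r := (NV : ℝ)⁻¹) (by positivity) BoxC_NV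
    (2 * CC m * R') e8)).exists
  obtain ⟨Rb, hb1, hb0⟩ :=
    ((BoxC_inv ((h2 : ℝ) ^ 2 * CC m) e8).and (Filter.eventually_gt_atTop 0)).exists
  have hD : (0 : ℝ) < 1 + 4 * (h2 : ℝ) ^ 2 * (NV ^ 2 * (Rb : ℝ)) ^ 2 := by positivity
  obtain ⟨K1, h0, B0, hc, hK1, hB0, H0⟩ := bad0 m c
    (δ := ε / 8 / (1 + 4 * (h2 : ℝ) ^ 2 * (NV ^ 2 * (Rb : ℝ)) ^ 2)) (by positivity)
  obtain ⟨cf, -, hcf⟩ := R.exists_fin
  obtain ⟨t, ht⟩ := (BoxC_tend 0 (r := 3 / 4) (by norm_num) (by norm_num)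
    ((4 * (K1 : ℝ) + 1) * (h2 : ℝ) ^ 2 * (NV ^ 2 * (Rb : ℝ)) ^ 2) e8).exists
  have hE : (0 : ℝ) < (4 * (K1 : ℝ) + 1) * (h2 : ℝ) ^ 2 + 1 := by positivity
  obtain ⟨B1, hB1, H1⟩ := iter Rb m (2 * K1 + cf + 1) t (by omega)
    (ε := ε / 8 / ((4 * (K1 : ℝ) + 1) * (h2 : ℝ) ^ 2 + 1)) (by positivity)
  refine ⟨h0 + 2 * h2 + (2 * K1 + cf + 1 + 2 * t), B0 + B1 + 16 * h2, by omega, ?_⟩
  intro ι _ X L Is F η ty hm hIs hF h4 hF1 hcI hcF ho hA hL
  have hbad := H0 X L Is F η ty hm hIs hF h4 hF1 (by omega) (by omega) hA (hL.mono hB0 (by omega))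
  obtain ⟨I1, I2, s1, s2, c1, c2, hne⟩ := BoxC_two (Is := Is) (h := h2) (by omega)
  have hη : ∑ i, η i ≤ 1 / 8 := hA.1.trans (by norm_num)
  have f1 := Box.fm_bound hm X.e_inj hA.2 hη (ty := ty) (I := I1) fun i hi => h4 i (s1 hi)
  have f2 := Box.fm_bound hm X.e_inj hA.2 hη (ty := ty) (I := I2) fun i hi => h4 i (s2 hi)
  rw [c1] at f1
  rw [c2] at f2
  obtain ⟨rk, η', r1, r2, r3, r4⟩ := Box.exists_rk hA hL (s2.trans hIs) (by omega) (by omega)
  have g1 := Box.g2_bound hm r1 r4 r3 (ty := ty) (I := I2) (fun i hi => h4 i (s2 hi))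
    (fun i hi => ho i (hIs (s2 hi))) r2 R'
  rw [c2] at g1
  have g2 := BoxC_union (BoxC_tail hm hA ty hR0 I2ᶜ) g1
  have hT := Box.tpts_finite (X := X) ty
  have key := BoxC_cover X ty I1 I2 (Finset.range (4 * K1 + 1)) (fun a => 2 ^ a)
    (K := 2 * K1 + cf + 1 + 2 * t) (by omega) Rb f1 f2
    (BoxC_le (hT.subset (by rintro p (h | h) <;> exact h.1)) (fun p hp => by
      by_cases hq : R' < (X.Gs I2ᶜ p).ncard
      · exact Or.inl ⟨hp.1, hq⟩
      · exact Or.inr ⟨hp.1, hp.2.2, not_lt.1 hq⟩) g2) (BoxC_tail hm hA ty hb0)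
    fun z _ a ha b hb => H1 X L F ty (2 ^ z) a b (fun p => ¬ R.NoLift 0 (X.A p) (X.x p) K1) hm
      (hne a ha b hb) (hIs (s1 ha)) (hIs (s2 hb)) (h4 a (s1 ha)) (h4 b (s2 hb)) hF hF1 (by omega)
      (hL.mono hB1 (by omega)) fun j hj y hy hn => by
        have hp : y.1 ∈ X.pts := hy.1.1
        refine Rep.diag_of_lift (Box.x_hom _) (Box.ram_x hp) (hcf _ _ (Box.ram_x hp)) hK1
          (by omega) (not_not.1 hn) (hy.2.2.2.mono (by omega)) ?_
        rcases hy.2.2.1.p0_ne with h | h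
        · exact Rep.not_cob_of_ram (Box.notMem_S hp a) h
        · exact Rep.not_cob_of_ram (Box.notMem_S hp b) h
  have hsub := BoxC_le (A := {p | p ∈ X.tpts ty ∧ ¬ R.Good (X.A p) (X.x p) c})
    (hT.subset (by rintro p (h | h) <;> exact h.1)) (fun p hp => by
      by_cases hq : R.NoLift 0 (X.A p) (X.x p) K1
      · refine Or.inr ⟨hp.1, ?_⟩
        by_contra hr
        refine hp.2 ⟨K1, 2 * K1 + cf + 1 + 2 * t, hc, hq, fun a ha => ?_⟩
        by_contra hs
        exact hr ⟨a, Finset.mem_range.2 (by omega), hs⟩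
      · exact Or.inl ⟨hp.1, hq⟩)
    (BoxC_union (A := {p | p ∈ X.tpts ty ∧ ¬ R.NoLift 0 (X.A p) (X.x p) K1}) le_rfl key)
  refine hsub.trans ?_
  rw [c1, c2, Finset.card_range]
  push_cast
  rw [pow_zero, one_mul] at a1 ht
  rw [pow_one] at a2
  have hk : (1 : ℝ) ≤ 4 * K1 + 1 := le_add_of_nonneg_left (by positivity)
  exact BoxC_arith hε (Nat.cast_nonneg _) (Nat.cast_nonneg _) hk hR1 a1 a2 hb1 hbad ht

theorem box (m c : ℕ) {ε : ℝ} (hε : 0 < ε) : ∃ A B : ℕ, 0 < B ∧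
    ∀ {ι : Type} [Fintype ι] (X : Box R ι) (L : Finset ι) (η : ι → ℝ), X.S1.card ≤ m →
      A ≤ L.card → (∀ i ∈ L, X.e i % 2 = 1) → X.SmA η → X.SmL B L →
      ({p | p ∈ X.pts ∧ ¬ R.Good (X.A p) (X.x p) c}.ncard : ℝ) ≤ ε * X.pts.ncard := by
  obtain ⟨h, B, hB, H⟩ := tbox R m c (half_pos hε)
  have hM1 : (1 : ℝ) ≤ NM := by exact_mod_cast NM_pos
  have hM2 : (0 : ℝ) < 1 / (2 * NM) := by positivity
  have hM3 : 1 / (2 * NM : ℝ) ≤ 1 := by rw [div_le_one (by positivity)]; linarith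
  obtain ⟨A, hA⟩ := (BoxC_tend 0 (r := 1 - 1 / (2 * NM) / 2) (by linarith) (by linarith)
    ((2 : ℝ) ^ h) (δ := ε / 4) (by positivity)).exists
  rw [pow_zero, one_mul] at hA
  refine ⟨A, B, hB, ?_⟩
  intro ι _ X L η hm hL ho hSA hSL
  have hsm : ∀ i, T.Small (1 / 8) NM (∑ v ∈ X.S1, T.dg v) (X.e i) := fun i => by
    refine (hSA.2 i).mono ?_ ?_ (Nat.le_add_right _ _)
    · refine (Finset.single_le_sum (fun j _ => (hSA.2 j).nonneg) (Finset.mem_univ i)).trans ?_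
      exact hSA.1.trans (by norm_num)
    · exact NM_le_NN _
  have hpts : X.pts = {p : ι → P | ∀ i, p i ∈ T.Pr X.S1 (fun _ => True) (X.e i)} := by
    ext p
    simp [Box.pts, Tame.Pr]
  have hN : (0 : ℝ) ≤ X.pts.ncard := Nat.cast_nonneg _
  have htail : ∀ t : ℕ, t = 1 ∨ t = NV →
      ({p | p ∈ X.pts ∧ (L.filter fun i => R.nf (T.σ (p i)) = t).card < h}.ncard : ℝ) ≤
        ε / 4 * X.pts.ncard := fun t ht => by
    have h1 := tail_count (fun i => T.Pr X.S1 (fun _ => True) (X.e i))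
      (fun i => T.Pr X.S1 (fun g => R.nf g = t) (X.e i))
      (fun i => (T.dg_fin (X.e i)).subset fun _ h => h.1)
      (fun i _ h => ⟨h.1, h.2.1, trivial⟩) L (θ := 1 / (2 * NM)) hM3
      (fun i _ => Rep.cnt_frac Box.S_sub ht (X.e_pos i) le_rfl (hsm i)) h
    rw [← hpts] at h1
    refine BoxC_le ((Box.pts_finite (X := X)).subset fun p hp i =>
      ⟨(hp.1 i).1, (hp.1 i).2.1⟩) ?_ (h1.trans ?_)
    · rintro p ⟨hp, h2⟩
      refine ⟨fun i => ⟨(hp i).1, (hp i).2, trivial⟩, lt_of_le_of_lt (Finset.card_le_card ?_) h2⟩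
      intro i hi
      exact Finset.mem_filter.2 ⟨(Finset.mem_filter.1 hi).1, (Finset.mem_filter.1 hi).2.2.2⟩
    · refine mul_le_mul_of_nonneg_right (le_trans ?_ hA) hN
      exact mul_le_mul_of_nonneg_left
        (pow_le_pow_of_le_one (by linarith) (by linarith) hL) (by positivity)
  have hty : ∀ p : ι → P, (fun i => R.nf (T.σ (p i))) ∈
      Fintype.piFinset fun _ : ι => Finset.range (NV + 1) := fun p =>
    Fintype.mem_piFinset.2 fun i => Finset.mem_range.2 (Nat.lt_succ_of_le (Rep.nf_le _))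
  have hmain : ({p | p ∈ X.pts ∧ ¬ R.Good (X.A p) (X.x p) c ∧
      h ≤ (L.filter fun i => R.nf (T.σ (p i)) = NV).card ∧
      h ≤ (L.filter fun i => R.nf (T.σ (p i)) = 1).card}.ncard : ℝ) ≤ ε / 2 * X.pts.ncard := by
    rw [BoxC_fibers (Box.pts_finite.subset fun _ h => h.1) _ _ fun p _ => hty p,
      BoxC_fibers Box.pts_finite _ _ fun p _ => hty p, Finset.mul_sum]
    refine Finset.sum_le_sum fun ty _ => ?_
    have h1 : {p | p ∈ X.pts ∧ (fun i => R.nf (T.σ (p i))) = ty} = X.tpts ty := by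
      ext p
      simp [Box.tpts, funext_iff]
    rw [h1]
    by_cases h2 : h ≤ (L.filter fun i => ty i = NV).card ∧ h ≤ (L.filter fun i => ty i = 1).card
    · refine BoxC_le ((Box.tpts_finite ty).subset fun _ h => h.1) ?_
        (H X L _ _ η ty hm (Finset.filter_subset _ _) (Finset.filter_subset _ _)
          (fun i hi => (Finset.mem_filter.1 hi).2) (fun i hi => (Finset.mem_filter.1 hi).2)
          h2.1 h2.2 ho hSA hSL)
      rintro p ⟨⟨hp, h3, -⟩, h4⟩
      exact ⟨⟨hp, fun i => congrFun h4 i⟩, h3⟩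
    · refine BoxC_le (B := ∅) Set.finite_empty ?_ (by
        rw [Set.ncard_empty, Nat.cast_zero]
        positivity)
      rintro p ⟨⟨-, -, h3⟩, rfl⟩
      exact h2 h3
  refine (BoxC_le ?_ ?_ (BoxC_union (BoxC_union (htail NV (Or.inr rfl)) (htail 1 (Or.inl rfl)))
    hmain)).trans (le_of_eq (by ring))
  · refine (Box.pts_finite (X := X)).subset ?_
    rintro p ((h | h) | h) <;> exact h.1
  · rintro p ⟨hp, h1⟩
    by_cases h4 : (L.filter fun i => R.nf (T.σ (p i)) = NV).card < h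
    · exact Or.inl (Or.inl ⟨hp, h4⟩)
    by_cases h5 : (L.filter fun i => R.nf (T.σ (p i)) = 1).card < h
    · exact Or.inl (Or.inr ⟨hp, h5⟩)
    exact Or.inr ⟨hp, h1, not_lt.1 h4, not_lt.1 h5⟩

end

end Pool.Agent.Hyp
end
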