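import Pool.Agent.Work.MP_60d5ce_nt.Hy.GalBasic
import Pool.Agent.Work.MP_60d5ce_nt.Qt.Tsen
import Pool.Agent.Work.MP_60d5ce_nt.Qt.Brauer

/-!
# The geometric group has no second cohomology with values in `F2`

Hint.  `θ` comes from the finite group `G = Gal(MU U / RatFunc Kb)` (`Adm.exists_res`).  `c = (-1) ^ θ` is a coboundary of `b : G → M` by `brauer_sign`; its
norm hypothesis is `norm_surj` for the fixed fields of `H ⊔ <s>` and `H`.  Then `b ^ 2` is a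
1-cocycle, `b g ^ 2 * g a = a` by `hilbert90`.  With `α ^ 2 = a` in `Ω`, `b g * g α / α` is a sign
`(-1) ^ β g`, and `θ = dβ` on `WG0`.  Smoothness: `adm_core` for `H = {u ∈ U | u α = α}`.
Extend `β` by zero outside `WG0`.
-/

namespace Pool.Agent.Hyp

open Pool.Agent.Quad

variable [Par]

section norm

variable {𝕜 : Type} [Field 𝕜] [IsAlgClosed 𝕜] {L : Type} [Field L] [Algebra (RatFunc 𝕜) L]
  [FiniteDimensional (RatFunc 𝕜) L]

theorem H2_cyclic (σ : L ≃ₐ[RatFunc 𝕜] L) (h1 : σ ≠ 1) (h3 : σ ^ 2 = 1) (a : L) (ha : σ a = a) :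
    ∃ x : L, x * σ x = a := by
  classical
  have hord : orderOf σ = 2 := orderOf_eq_prime h3 h1
  let M := IntermediateField.fixedField (Subgroup.zpowers σ)
  have hgal : IsGalois M L := IsGalois.of_fixed_field L (Subgroup.zpowers σ)
  have hfin : Module.finrank M L = 2 := by
    rw [IntermediateField.finrank_fixedField_eq_card, Nat.card_zpowers, hord]
  have hmem : a ∈ M := by
    rw [IntermediateField.mem_fixedField_iff]
    intro f hf
    exact (Subgroup.zpowers_le.2 (show σ ∈ MulAction.stabilizer (L ≃ₐ[RatFunc 𝕜] L) a from ha)) hf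
  obtain ⟨x, hx⟩ := norm_surj (𝕜 := 𝕜) (M := M) (M' := L) hfin ⟨a, hmem⟩
  let τ : L ≃ₐ[M] L := { σ.toRingEquiv with
    commutes' := fun c => (IntermediateField.mem_fixedField_iff _ _).1 c.2 σ
      (Subgroup.mem_zpowers σ) }
  have hτ : ∀ y, τ y = σ y := fun _ => rfl
  have n1 : τ ≠ 1 := fun h => h1 (AlgEquiv.ext fun y => by rw [← hτ, h]; rfl)
  have hu : ({1, τ} : Finset (L ≃ₐ[M] L)) = Finset.univ := by
    refine Finset.eq_univ_of_card _ ?_
    rw [← Nat.card_eq_fintype_card, IsGalois.card_aut_eq_finrank, hfin]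
    exact Finset.card_pair n1.symm
  have h := Algebra.norm_eq_prod_automorphisms M x
  rw [hx, ← hu, Finset.prod_pair n1.symm] at h
  exact ⟨x, h.symm⟩

theorem H2_norm (H : Subgroup (L ≃ₐ[RatFunc 𝕜] L)) (s : L ≃ₐ[RatFunc 𝕜] L) (hs : s ∉ H)
    (h3 : s ^ 2 ∈ H) (hn : ∀ h ∈ H, s * h * s⁻¹ ∈ H) (a : L) (ha : ∀ h ∈ H, h a = a)
    (hsa : s a = a) : ∃ x : L, (∀ h ∈ H, h x = x) ∧ x * s x = a := by
  let N := IntermediateField.fixedField H
  have hn' : ∀ h ∈ H, s⁻¹ * h * s ∈ H := fun h hh => by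
    have := H.mul_mem (H.mul_mem (H.inv_mem h3) (hn h hh)) h3
    have e : s⁻¹ * h * s = (s ^ 2)⁻¹ * (s * h * s⁻¹) * s ^ 2 := by group
    rw [e]
    exact this
  have hmap : ∀ y : N, s y ∈ N := fun y => by
    rw [IntermediateField.mem_fixedField_iff]
    intro h hh
    have := (IntermediateField.mem_fixedField_iff _ _).1 y.2 _ (hn' h hh)
    rw [AlgEquiv.mul_apply, AlgEquiv.mul_apply, AlgEquiv.aut_inv, AlgEquiv.symm_apply_eq] at this
    exact this
  let f : N →ₐ[RatFunc 𝕜] N := ((s : L →ₐ[RatFunc 𝕜] L).comp N.val).codRestrict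
    N.toSubalgebra hmap
  let σ : N ≃ₐ[RatFunc 𝕜] N := AlgEquiv.ofBijective f f.bijective
  have hσ : ∀ y : N, (σ y : L) = s y := fun _ => rfl
  have n1 : σ ≠ 1 := fun h => hs (by
    rw [← IntermediateField.fixingSubgroup_fixedField H, IntermediateField.mem_fixingSubgroup_iff]
    intro y hy
    rw [← hσ ⟨y, hy⟩, h]
    rfl)
  have n3 : σ ^ 2 = 1 := AlgEquiv.ext fun y => Subtype.ext (by
    have := (IntermediateField.mem_fixedField_iff _ _).1 y.2 _ h3
    rw [sq, AlgEquiv.mul_apply] at this ⊢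
    rw [hσ, hσ]
    exact this)
  obtain ⟨x, hx⟩ := H2_cyclic σ n1 n3 ⟨a, (IntermediateField.mem_fixedField_iff _ _).2 ha⟩
    (Subtype.ext hsa)
  exact ⟨x, (IntermediateField.mem_fixedField_iff _ _).1 x.2, congrArg Subtype.val hx⟩

theorem H2_sq {K : Type} [Field K] (n : ℕ) : ((-1 : K) ^ n) ^ 2 = 1 := by
  rw [← pow_mul, mul_comm, pow_mul, neg_one_sq, one_pow]

/-- A cocycle of signs on the group of automorphisms. -/
theorem H2_fin
    (θ : (L ≃ₐ[RatFunc 𝕜] L) → (L ≃ₐ[RatFunc 𝕜] L) → F2) (hθ : IsCoc2 θ) :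
    ∃ (b : (L ≃ₐ[RatFunc 𝕜] L) → L) (a : L), a ≠ 0 ∧ (∀ x, b x ^ 2 * x a = a) ∧
      ∀ x y, (-1) ^ (θ x y).val * b (x * y) = b x * x (b y) := by
  let φ : (L ≃ₐ[RatFunc 𝕜] L) →* (L ≃+* L) := MulSemiringAction.toRingAut _ L
  have hφ : ∀ x y, φ x y = x y := fun _ _ => rfl
  have hinj : Function.Injective φ := fun x y h => AlgEquiv.ext fun c => by
    rw [← hφ, ← hφ, h]
  obtain ⟨b, hb0, hb⟩ := brauer_sign φ hinj
    (fun H s h1 h2 h3 a h4 h5 => H2_norm H s h1 h2 h3 a h4 h5)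
    (fun x y => (-1) ^ (θ x y).val) (fun _ _ => H2_sq _) (fun g h l => by
      rw [map_pow, map_neg, map_one, ← GalKum_pow_add, ← GalKum_pow_add]
      congr 2
      linear_combination hθ g h l)
  obtain ⟨a, ha0, ha⟩ := hilbert90 φ hinj (fun x => b x ^ 2) (fun x => pow_ne_zero _ (hb0 x))
    (fun g h => by rw [map_pow, ← mul_pow, ← hb, mul_pow, H2_sq, one_mul])
  exact ⟨b, a, ha0, ha, hb⟩

end norm

theorem H2_root {K : Type} [Field K] {u : K} (h : u ^ 2 = 1) : ∃ n : F2, u = (-1) ^ n.val := by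
  rcases sq_eq_one_iff.1 h with h | h
  · exact ⟨0, by rw [h, GalKum_val0, pow_zero]⟩
  · exact ⟨1, by rw [h, GalKum_val1, pow_one]⟩

theorem H2_inj {K : Type} [Field K] (h2 : (2 : K) ≠ 0) (m n : F2)
    (h : (-1 : K) ^ m.val = (-1) ^ n.val) : m = n := by
  rcases F2_cases m with rfl | rfl <;> rcases F2_cases n with rfl | rfl
  · rfl
  · rw [GalKum_val0, GalKum_val1, pow_zero, pow_one] at h
    exact (h2 (by linear_combination h)).elim
  · rw [GalKum_val0, GalKum_val1, pow_zero, pow_one] at h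
    exact (h2 (by linear_combination -h)).elim
  · rfl

variable {k : Type} [Field k] [Fintype k] {Ω : Type} [Field Ω] [Algebra (RatFunc k) Ω]
  [Algebra k Ω] [IsScalarTower k (RatFunc k) Ω] [IsSepClosure (RatFunc k) Ω]

theorem h2_geom (h6 : ((mo : ℕ) : k) ≠ 0) (θ : WG k Ω → WG k Ω → F2)
    {U : Subgroup (WG k Ω)} (hU : Adm U)
    (hs : ∀ g h, ∀ u ∈ U, ∀ u' ∈ U, θ (g * u) (h * u') = θ g h) (hθ : IsCoc2 θ) :
    ∃ (b : WG k Ω → F2) (U' : Subgroup (WG k Ω)), Adm U' ∧ (∀ g, ∀ u ∈ U', b (g * u) = b g) ∧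
      ∀ g h, wdeg g = 0 → wdeg h = 0 → θ g h = b g + b h - b (g * h) := by
  classical
  have := hU.finiteDimensional
  obtain ⟨π, hπs, hπ, hπ1⟩ := hU.exists_res
  choose σ hσ using hπs
  have hθπ : ∀ g h : WG0 k Ω, θ (σ (π g)).1 (σ (π h)).1 = θ g.1 h.1 := by
    have e : ∀ g : WG0 k Ω, ((σ (π g))⁻¹ * g).1 ∈ U := fun g =>
      (hπ1 _).1 (by rw [map_mul, map_inv, hσ, inv_mul_cancel])
    intro g h
    rw [← hs _ _ _ (e g) _ (e h)]
    simp
  obtain ⟨b, a, ha0, ha, hb⟩ := H2_fin (𝕜 := Kb k Ω) (L := MU U)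
    (fun x y => θ (σ x).1 (σ y).1) (fun x y w => by
      have e1 := hθπ (σ x * σ y) (σ w)
      have e2 := hθπ (σ x) (σ y * σ w)
      simp only [map_mul, hσ] at e1 e2
      simp only [e1, e2]
      exact hθ _ _ _)
  obtain ⟨α, hα⟩ : ∃ α : Ω, α ^ 2 = a := ⟨_, sqr_spec (k := k) h6 _⟩
  have ha0' : (a : Ω) ≠ 0 := fun h => ha0 (Subtype.ext h)
  have hα0 : α ≠ 0 := fun h => ha0' (by rw [← hα, h, zero_pow two_ne_zero])
  have hβ : ∀ g : WG0 k Ω, ∃ n : F2, (b (π g) : Ω) * gal g.1 α / α = (-1) ^ n.val := fun g => by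
    refine H2_root ?_
    have e : (b (π g) : Ω) ^ 2 * gal g.1 a = a := by
      rw [← hπ]
      exact congrArg Subtype.val (ha (π g))
    rw [div_pow, mul_pow, ← map_pow, hα, e, div_self ha0']
  choose β hβ using hβ
  have hinj := H2_inj (GalKum_two (Ω := Ω) h6)
  let H : Subgroup (WG k Ω) := U ⊓ (MulAction.stabilizer (Gam k Ω) α).comap gal
  have mH : ∀ g, g ∈ H ↔ g ∈ U ∧ gal g α = α := fun g => Iff.rfl
  obtain ⟨S, hS⟩ := hU.2.2.1
  have hH : Adm H.normalCore := by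
    refine adm_core H (inf_le_left.trans hU.le) (insert α S) (fun g hg h => (mH g).2
      ⟨hS g hg fun c hc => h c (Finset.mem_insert_of_mem hc), h α (Finset.mem_insert_self _ _)⟩)
      fun g hg => ?_
    obtain ⟨j, hj⟩ := hU.2.2.2 g hg
    refine ⟨j + 1, ?_⟩
    rw [pow_succ, pow_mul]
    generalize g ^ mo ^ j = u at hj
    obtain ⟨c3, hc3⟩ := two_dvd_mo
    rw [hc3, pow_mul]
    refine H.pow_mem ((mH _).2 ⟨U.pow_mem hj 2, ?_⟩) c3
    obtain ⟨n, hn⟩ := H2_root (u := gal u α / α) (by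
      rw [div_pow, ← map_pow, hα, (mem_MU hU.le).1 a.2 u hj, div_self ha0'])
    have e := (div_eq_iff hα0).1 hn
    have e3 : ((-1 : Ω) ^ n.val) ^ 2 = 1 := H2_sq _
    rw [map_pow, sq, AlgEquiv.mul_apply]
    simp only [e, map_mul, map_pow, map_neg, map_one]
    linear_combination α * e3
  refine ⟨fun g => if h : wdeg g = 0 then β ⟨g, h⟩ else 0, H.normalCore, hH, fun g u hu => ?_,
    fun g h hg hh => ?_⟩
  · obtain ⟨hu1, hu2⟩ := (mH u).1 (H.normalCore_le hu)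
    have hu0 : wdeg u = 0 := hU.le hu1
    by_cases hg : wdeg g = 0
    · have hgu : wdeg (g * u) = 0 := by rw [wdeg_mul, hg, hu0, add_zero]
      simp only [dif_pos hg, dif_pos hgu]
      refine hinj _ _ ?_
      rw [← hβ, ← hβ]
      have e : π ⟨g * u, hgu⟩ = π ⟨g, hg⟩ := by
        rw [show (⟨g * u, hgu⟩ : WG0 k Ω) = ⟨g, hg⟩ * ⟨u, hu0⟩ from rfl, map_mul,
          (hπ1 ⟨u, hu0⟩).2 hu1, mul_one]
      rw [e]
      simp only [map_mul, AlgEquiv.mul_apply, hu2]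
    · have hgu : ¬ wdeg (g * u) = 0 := by rw [wdeg_mul, hu0, add_zero]; exact hg
      simp only [dif_neg hg, dif_neg hgu]
  · have hgh : wdeg (g * h) = 0 := by rw [wdeg_mul, hg, hh, add_zero]
    simp only [dif_pos hg, dif_pos hh, dif_pos hgh]
    rw [eq_sub_iff_add_eq]
    refine hinj _ _ ?_
    rw [GalKum_pow_add, GalKum_pow_add, ← hβ, ← hβ ⟨g, hg⟩]
    have e1 : (-1) ^ (θ g h).val * (b (π ⟨g * h, hgh⟩) : Ω) =
        b (π ⟨g, hg⟩) * gal g (b (π ⟨h, hh⟩)) := by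
      have := congrArg Subtype.val (hb (π ⟨g, hg⟩) (π ⟨h, hh⟩))
      rw [hθπ, ← map_mul] at this
      rw [← hπ ⟨g, hg⟩]
      exact this
    have e2 : (b (π ⟨h, hh⟩) : Ω) * gal h α = (-1) ^ (β ⟨h, hh⟩).val * α :=
      (div_eq_iff hα0).1 (hβ ⟨h, hh⟩)
    have e3 := congrArg (gal g) e2
    simp only [map_mul, map_pow, map_neg, map_one] at e3
    simp only [map_mul, AlgEquiv.mul_apply]
    field_simp
    linear_combination gal g (gal h α) * e1 + (b (π ⟨g, hg⟩) : Ω) * e3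

end Pool.Agent.Hyp
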