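import Pool.Agent.Work.MP_60d5ce_nt.Hy.ChebP
import Pool.Agent.Work.MP_60d5ce_nt.Qt.Stepanov
import Pool.Agent.Work.MP_60d5ce_nt.Lb.LkRat

-- merged part: Pool.Agent.Work.MP_60d5ce_nt.Hy.Cheb
section
/-!
# The Chebotarev upper bound and the prime polynomial lower bound

Hints.  `φ = σ ∞` has degree one.
* `exists_crv`: `M = MU U`; for `y = frob ^ i x_v` (`exists_place`, `place_unique`) let `w (some y)` be
  `(ℓ v).w ∘ gal (φ ^ (-i))` on `M` (`Adm.gal_mem_MU`); `Ram` is the set of `y` over `A`; `disc` is the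
  field `disc` of `Loc`; `tame` from `Adm.card_gal`, `Adm.index_pow`.
* `card_pairs`: for `f ∈ LL m`, `h (g f - f ^ Q) = σ (h f) - (h f) ^ Q` is small (`Loc.σ_res`), where
  `h = φ ^ (-i) * h0`; map `(v, i, h0)` to `(frob ^ i x_v, π h0)` and use `Crv.stepanov`.
* `cheb`: each triple `(v, i, h0 U)` with `σ v ∈ E` determines the coset of `g = h⁻¹ * σ v * h ∈ E`.
  The cosets of degree `e` are `φ ^ e * WG0 / U`, `N'` of them, right multiplication by `z j` permutes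
  them, so at most `θ N'` lie in `E`.  Divide by `N'`.
* `pnt`: the `q ^ e` roots of `X ^ q ^ e - X` in an algebraic closure have minimal polynomials of
  degree `d ∣ e`; those with `d < e` are roots of `X ^ q ^ d - X`, `d ≤ e / 2`.
-/

namespace Pool.Agent.Hyp

open Pool.Agent.Quad

variable [Par]

open scoped Classical

variable {k : Type} [Field k] [Fintype k] {Ω : Type} [Field Ω] [Algebra (RatFunc k) Ω]
  [Algebra k Ω] [IsScalarTower k (RatFunc k) Ω]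

theorem pnt (e : ℕ) (he : 0 < e) : (Fintype.card k : ℝ) ^ e ≤
    e * ({v : Pl k | pdg v = e ∧ v ≠ none}.ncard : ℝ) + 2 * (Fintype.card k : ℝ) ^ ((e + 1) / 2) := by
  exact_mod_cast chebp_lower (k := k) e he

theorem pnt_upper (e : ℕ) :
    e * {v : Pl k | pdg v = e ∧ v ≠ none}.ncard ≤ Fintype.card k ^ e := by
  exact chebp_upper e

/-- the action of the Weil group on the fixed field -/
noncomputable def chebRes {U : Subgroup (WG k Ω)} (hU : Adm U) (g : WG k Ω) : MU U ≃+* MU U where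
  toFun a := ⟨gal g a, hU.gal_mem_MU g a.2⟩
  invFun a := ⟨gal g⁻¹ a, hU.gal_mem_MU g⁻¹ a.2⟩
  left_inv a := Subtype.ext (by
    show gal g⁻¹ (gal g (a : Ω)) = a
    rw [← AlgEquiv.mul_apply, ← map_mul, inv_mul_cancel, map_one, AlgEquiv.one_apply])
  right_inv a := Subtype.ext (by
    show gal g (gal g⁻¹ (a : Ω)) = a
    rw [← AlgEquiv.mul_apply, ← map_mul, mul_inv_cancel, map_one, AlgEquiv.one_apply])
  map_mul' a b := Subtype.ext (map_mul (gal g) (a : Ω) b)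
  map_add' a b := Subtype.ext (map_add (gal g) (a : Ω) b)

theorem chebRes_coe {U : Subgroup (WG k Ω)} (hU : Adm U) (g : WG k Ω) (a : MU U) :
    (chebRes hU g a : Ω) = gal g a := rfl

theorem chebRes_symm_coe {U : Subgroup (WG k Ω)} (hU : Adm U) (g : WG k Ω) (a : MU U) :
    ((chebRes hU g).symm a : Ω) = gal g⁻¹ a := rfl

theorem cheb_tM (U : Subgroup (WG k Ω)) : ((tM (Kb k Ω) (MU U) : MU U) : Ω) = tt k Ω := by
  have h := jK_poly k Ω Polynomial.X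
  rw [Polynomial.aeval_X, RatFunc.algebraMap_X] at h
  exact h

theorem cheb_const (U : Subgroup (WG k Ω)) (c : Kb k Ω) :
    ((algebraMap (Kb k Ω) (MU U) c : MU U) : Ω) = c := rfl

theorem cheb_aeval (U : Subgroup (WG k Ω)) (p : Polynomial (Kb k Ω)) :
    ((Polynomial.aeval (tM (Kb k Ω) (MU U)) p : MU U) : Ω) = Polynomial.aeval (tt k Ω) p := by
  rw [← cheb_tM U]
  exact (Polynomial.aeval_algHom_apply ((MU U).val.restrictScalars (Kb k Ω)) _ p).symm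

/-- a translated absolute value on the fixed field -/
noncomputable def chebW {v : Pl k} (l : Loc Ω v) (U : Subgroup (WG k Ω)) (g : WG k Ω) :
    AbsoluteValue (MU U) ℝ :=
  l.w.comp (f := (gal g : Ω →+* Ω).comp (MU U).subtype) (RingHom.injective _)

theorem chebW_apply {v : Pl k} (l : Loc Ω v) (U : Subgroup (WG k Ω)) (g : WG k Ω)
    (a : MU U) : chebW l U g a = l.w (gal g a) := rfl

theorem chebW_na {v : Pl k} (l : Loc Ω v) (U : Subgroup (WG k Ω)) (g : WG k Ω) :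
    IsNonarchimedean (chebW l U g) := by
  intro a b
  simpa only [chebW_apply, IntermediateField.coe_add, map_add] using l.w_na (gal g a) (gal g b)

theorem chebW_res {v : Pl k} (l : Loc Ω v) (U : Subgroup (WG k Ω)) (g : WG k Ω)
    (a : MU U) (ha : chebW l U g a ≤ 1) :
    ∃ c : Kb k Ω, chebW l U g (a - algebraMap (Kb k Ω) (MU U) c) < 1 := by
  obtain ⟨c, hc⟩ := l.w_res ha
  refine ⟨(frob k Ω ^ wdeg g).symm c, ?_⟩
  rw [chebW_apply, AddSubgroupClass.coe_sub, map_sub, cheb_const, gal_const,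
    AlgEquiv.apply_symm_apply]
  exact hc

variable [IsSepClosure (RatFunc k) Ω]

theorem exists_crv (h6 : ((mo : ℕ) : k) ≠ 0) (ℓ : Locs k Ω) {U : Subgroup (WG k Ω)} (hU : Adm U)
    (A : Finset (Pl k)) (hA : none ∈ A) (hτ : ∀ v ∉ A, (ℓ v).τ ∈ U) :
    ∃ C : Crv (Kb k Ω) (MU U), C.Ram.card + 1 ≤ ∑ v ∈ A, pdg v ∧
      ∀ v ∉ A, ∀ i < pdg v, (frob k Ω ^ i) (ℓ v).x ∉ C.Ram ∧ ∀ a : MU U,
        C.w (some ((frob k Ω ^ i) (ℓ v).x)) a = (ℓ v).w (gal ((ℓ none).σ ^ i)⁻¹ a) := by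
  choose pv pi hv hi hy using exists_place ℓ
  obtain ⟨j, hj⟩ := hU.index_pow
  have hdeg : ∀ i : ℕ, wdeg ((ℓ none).σ ^ i)⁻¹ = -(i : ℤ) := fun i => by
    rw [wdeg_inv, wdeg_pow, (ℓ none).deg_σ]
    simp [pdg]
  let R : Finset (Kb k Ω) := (A.erase none).biUnion fun v =>
    (Finset.range (pdg v)).image fun i => (frob k Ω ^ i) (ℓ v).x
  have hR : ∀ y, y ∉ R → pv y ∉ A := fun y h hA' => h (Finset.mem_biUnion.2
    ⟨pv y, Finset.mem_erase.2 ⟨hv y, hA'⟩,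
      Finset.mem_image.2 ⟨pi y, Finset.mem_range.2 (hi y), (hy y).symm⟩⟩)
  let W : Pl k → ℕ → AbsoluteValue (MU U) ℝ := fun v i => chebW (ℓ v) U ((ℓ none).σ ^ i)⁻¹
  refine ⟨{ w := fun y => y.elim (W none 0) fun y => W (pv y) (pi y)
            na := ?_, w_fin := ?_, w_inf := ?_, res := ?_, Ram := R, disc := ?_
            tame := ?_ }, ?_, ?_⟩
  · rintro (_ | y)
    · exact chebW_na _ _ _
    · exact chebW_na _ _ _
  · intro y p hp
    have hinj : Function.Injective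
        ((frob k Ω ^ (-(pi y : ℤ)) : Kb k Ω ≃ₐ[k] Kb k Ω) : Kb k Ω →+* Kb k Ω) :=
      RingHom.injective _
    show chebW (ℓ (pv y)) U ((ℓ none).σ ^ pi y)⁻¹ _ = _
    rw [chebW_apply, cheb_aeval, gal_aeval, hdeg, (ℓ (pv y)).w_poly (hv y)
      ((Polynomial.map_ne_zero_iff hinj).2 hp), Polynomial.eq_rootMultiplicity_map hinj y]
    have e : ((frob k Ω ^ (-(pi y : ℤ)) : Kb k Ω ≃ₐ[k] Kb k Ω) : Kb k Ω →+* Kb k Ω) y =
        (ℓ (pv y)).x := by
      conv_lhs => arg 2; rw [hy y]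
      rw [zpow_neg, zpow_natCast]
      exact (frob k Ω ^ pi y).symm_apply_apply _
    rw [e]
  · intro p hp
    show chebW (ℓ none) U ((ℓ none).σ ^ 0)⁻¹ _ = _
    rw [chebW_apply, cheb_aeval, pow_zero, inv_one, map_one, AlgEquiv.one_apply, (ℓ none).w_poly_inf hp]
  · rintro (_ | y) a ha
    · exact chebW_res _ _ _ a ha
    · exact chebW_res _ _ _ a ha
  · intro y hyR a ha
    have hm := (mem_MU hU.le).1 (hU.gal_mem_MU ((ℓ none).σ ^ pi y)⁻¹ a.2)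
    exact (ℓ (pv y)).disc U hU _ (by simpa using ha) hm (hm _ (hτ _ (hR y hyR)))
  · obtain ⟨c, hc⟩ := hj
    intro h
    refine pow_ne_zero j (six_ne_map (algebraMap k (Kb k Ω)) h6) ?_
    rw [← Nat.cast_pow, hc, Nat.cast_mul, ← hU.card_gal, h, zero_mul]
  · show R.card + 1 ≤ _
    rw [← Finset.add_sum_erase A _ hA, add_comm]
    refine add_le_add le_rfl (Finset.card_biUnion_le.trans (Finset.sum_le_sum fun v _ => ?_))
    exact Finset.card_image_le.trans (Finset.card_range _).le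
  · intro v hvA i hiv
    have hv0 : v ≠ none := fun h => hvA (h ▸ hA)
    obtain ⟨e1, e2⟩ := place_unique ℓ hv0 (hv _) hiv (hi _) (hy ((frob k Ω ^ i) (ℓ v).x))
    refine ⟨fun h => ?_, fun a => ?_⟩
    · obtain ⟨v', hv', h⟩ := Finset.mem_biUnion.1 h
      obtain ⟨i', hi', h⟩ := Finset.mem_image.1 h
      obtain ⟨h1, h2⟩ := Finset.mem_erase.1 hv'
      exact hvA ((place_unique ℓ h1 hv0 (Finset.mem_range.1 hi') hiv h).1 ▸ h2)
    · show W (pv _) (pi _) a = W v i a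
      rw [← e1, ← e2]

theorem card_pairs (h6 : ((mo : ℕ) : k) ≠ 0) (hq : 4 ≤ Fintype.card k) (ℓ : Locs k Ω)
    {U : Subgroup (WG k Ω)} (hU : Adm U) (A : Finset (Pl k)) (hA : none ∈ A)
    (hτ : ∀ v ∉ A, (ℓ v).τ ∈ U) {e : ℕ} (he : 0 < e) (g : WG k Ω) (hg : wdeg g = e)
    (Z : Finset (Pl k × ℕ × (WG0 k Ω ⧸ U.subgroupOf (WG0 k Ω))))
    (hZ : ∀ z ∈ Z, z.1 ∉ A ∧ pdg z.1 = e ∧ z.2.1 < e ∧
      (((ℓ none).σ ^ z.2.1)⁻¹ * z.2.2.out.1 * g)⁻¹ *
        ((ℓ z.1).σ * (((ℓ none).σ ^ z.2.1)⁻¹ * z.2.2.out.1)) ∈ U) :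
    (Z.card : ℝ) ≤ (Fintype.card k : ℝ) ^ e +
      (pre ℓ).err (U.relIndex (WG0 k Ω)) (∑ v ∈ A, pdg v) e := by
  have := hU.finiteDimensional
  have := hU.isGalois
  obtain ⟨C, hC1, hC2⟩ := exists_crv h6 ℓ hU A hA hτ
  obtain ⟨π, -, hπ1, hπ2⟩ := hU.exists_res
  have hne : ∀ z ∈ Z, z.1 ≠ none := fun z hz h => (hZ z hz).1 (h ▸ hA)
  have hlt : ∀ z ∈ Z, z.2.1 < pdg z.1 := fun z hz => (hZ z hz).2.1 ▸ (hZ z hz).2.2.1
  have hinj : Set.InjOn (fun z : Pl k × ℕ × (WG0 k Ω ⧸ U.subgroupOf (WG0 k Ω)) =>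
      ((frob k Ω ^ z.2.1) (ℓ z.1).x, π z.2.2.out)) Z := by
    intro z hz z' hz' h
    obtain ⟨h1, h2⟩ := Prod.mk.inj h
    obtain ⟨e1, e2⟩ := place_unique ℓ (hne z hz) (hne z' hz') (hlt z hz) (hlt z' hz') h1
    refine Prod.ext e1 (Prod.ext e2 ?_)
    rw [← QuotientGroup.out_eq' z.2.2, ← QuotientGroup.out_eq' z'.2.2, QuotientGroup.eq,
      Subgroup.mem_subgroupOf, ← hπ2, map_mul, map_inv, h2, inv_mul_cancel]
  have key := C.stepanov hq he (fun a b => Subtype.ext (by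
      simpa using map_add (FiniteField.frobeniusAlgHom k Ω) (a : Ω) b))
    (chebRes hU g) (Subtype.ext (by rw [chebRes_coe, cheb_tM, gal_tt]))
    (fun c => ⟨(frob k Ω ^ wdeg g⁻¹) c, Subtype.ext (by
      rw [chebRes_symm_coe, cheb_const, cheb_const, gal_const])⟩)
    (Z.image fun z => ((frob k Ω ^ z.2.1) (ℓ z.1).x, π z.2.2.out)) ?_
  · rw [Finset.card_image_of_injOn hinj, ← IsGalois.card_aut_eq_finrank, hU.card_gal] at key
    refine key.trans (add_le_add le_rfl ?_)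
    have h1 : (C.Ram.card + 2 : ℝ) ≤ (∑ v ∈ A, pdg v : ℕ) + 1 := by
      have : (C.Ram.card + 1 : ℝ) ≤ (∑ v ∈ A, pdg v : ℕ) := by exact_mod_cast hC1
      linarith
    show _ ≤ 18 * _ ^ 2 * (_ + 1) * (Fintype.card k : ℝ) ^ ((e + 1) / 2)
    gcongr
  · intro y hy
    obtain ⟨z, hz, rfl⟩ := Finset.mem_image.1 hy
    obtain ⟨h1, h2, h3, h4⟩ := hZ z hz
    obtain ⟨h5, h6⟩ := hC2 z.1 h1 z.2.1 (hlt z hz)
    refine ⟨h5, fun m f hf => ?_⟩
    have h7 := (C.mem_LL.1 hf).1 ((frob k Ω ^ z.2.1) (ℓ z.1).x) (π z.2.2.out)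
    simp only [h6, hπ1] at h7 ⊢
    rw [← AlgEquiv.mul_apply, ← map_mul] at h7 ⊢
    have h8 := (mem_MU hU.le).1 f.2 _ h4
    generalize ((ℓ none).σ ^ z.2.1)⁻¹ * z.2.2.out.1 = h at h7 h8 ⊢
    have h9 : gal (ℓ z.1).σ (gal h f) = gal h (gal g f) := by
      conv_rhs => rw [← h8]
      simp only [← AlgEquiv.mul_apply, ← map_mul]
      congr 2
      group
    have h10 := (ℓ z.1).σ_res h7
    rw [h9, h2] at h10
    rw [AddSubgroupClass.coe_sub, IntermediateField.coe_pow, chebRes_coe, map_sub, map_pow]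
    exact h10

theorem cheb (h6 : ((mo : ℕ) : k) ≠ 0) (hq : 4 ≤ Fintype.card k) (ℓ : Locs k Ω)
    (U : Subgroup (WG k Ω)) (hU : Adm U) (N : ℕ) (hN : U.relIndex (WG0 k Ω) ≤ N)
    (A : Finset (Pl k)) (hA : none ∈ A) (hτ : ∀ v ∉ A, (ℓ v).τ ∈ U) (E : Set (WG k Ω))
    (hE : ∀ g ∈ E, ∀ u ∈ U, g * u ∈ E) (hc : ∀ g ∈ E, ∀ h, h * g * h⁻¹ ∈ E) (e : ℕ) (he : 0 < e)
    (J : Type) [Fintype J] [Nonempty J] (z : J → WG k Ω) (hz : ∀ j, wdeg (z j) = 0) (θ : ℝ)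
    (hθ : ∀ g, wdeg g = e → (({j | g * z j ∈ E} : Set J).ncard : ℝ) ≤ θ * Fintype.card J) :
    (e : ℝ) * ({v | pdg v = e ∧ v ∉ A ∧ (ℓ v).σ ∈ E}.ncard : ℝ) ≤
      θ * ((Fintype.card k : ℝ) ^ e + (pre ℓ).err N (∑ v ∈ A, pdg v) e) := by
  have := hU.normal
  have : (U.subgroupOf (WG0 k Ω)).FiniteIndex := ⟨hU.index⟩
  have := Fintype.ofFinite (WG0 k Ω ⧸ U.subgroupOf (WG0 k Ω))
  have hcard : Fintype.card (WG0 k Ω ⧸ U.subgroupOf (WG0 k Ω)) = U.relIndex (WG0 k Ω) :=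
    Nat.card_eq_fintype_card.symm
  have hpos : (0 : ℝ) < U.relIndex (WG0 k Ω) := by
    exact_mod_cast Nat.pos_of_ne_zero hU.index
  have hφ : ∀ i : ℕ, wdeg ((ℓ none).σ ^ i) = i := fun i => by
    rw [wdeg_pow, (ℓ none).deg_σ]
    simp [pdg]
  have hE' : ∀ g g', g⁻¹ * g' ∈ U → (g ∈ E ↔ g' ∈ E) := fun g g' h =>
    ⟨fun hg => by simpa using hE g hg _ h, fun hg => by simpa using hE g' hg _ (U.inv_mem h)⟩
  -- representatives
  obtain ⟨rep, hrep⟩ : ∃ rep : WG0 k Ω ⧸ U.subgroupOf (WG0 k Ω) → WG k Ω,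
      ∀ c, rep c = (ℓ none).σ ^ e * c.out.1 := ⟨_, fun _ => rfl⟩
  have hrd : ∀ c, wdeg (rep c) = e := fun c => by
    rw [hrep, wdeg_mul, hφ, mem_WG0.1 c.out.2, add_zero]
  have hrep' : ∀ (c) (x : WG0 k Ω), (x : WG0 k Ω ⧸ U.subgroupOf (WG0 k Ω)) = c →
      (rep c)⁻¹ * ((ℓ none).σ ^ e * x.1) ∈ U := fun c x hx => by
    rw [← QuotientGroup.out_eq' c, eq_comm, QuotientGroup.eq, Subgroup.mem_subgroupOf] at hx
    rw [hrep, mul_inv_rev, mul_assoc, inv_mul_cancel_left]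
    exact hx
  obtain ⟨G, hG⟩ : ∃ G : Finset (WG0 k Ω ⧸ U.subgroupOf (WG0 k Ω)), ∀ c, c ∈ G ↔ rep c ∈ E :=
    ⟨Finset.univ.filter fun c => rep c ∈ E, fun c => by simp⟩
  -- the number of good cosets
  have hGle : (G.card : ℝ) ≤ θ * U.relIndex (WG0 k Ω) := by
    have h1 : ∀ j, (Finset.univ.filter fun c => rep c * z j ∈ E).card = G.card := by
      intro j
      refine Finset.card_bijective _
        (Group.mulRight_bijective ((⟨z j, hz j⟩ : WG0 k Ω) : WG0 k Ω ⧸ U.subgroupOf (WG0 k Ω)))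
        fun c => ?_
      rw [hG, Finset.mem_filter_univ, iff_comm]
      refine hE' _ _ ?_
      have := hrep' (c * ((⟨z j, hz j⟩ : WG0 k Ω) : WG0 k Ω ⧸ U.subgroupOf (WG0 k Ω)))
        (c.out * ⟨z j, hz j⟩) (by rw [QuotientGroup.mk_mul, QuotientGroup.out_eq'])
      rwa [hrep c, mul_assoc]
    have h2 : ∑ c, (Finset.univ.filter fun j => rep c * z j ∈ E).card =
        ∑ j, (Finset.univ.filter fun c => rep c * z j ∈ E).card := by
      simp only [Finset.card_filter]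
      exact Finset.sum_comm
    rw [Finset.sum_congr rfl fun j _ => h1 j, Finset.sum_const, Finset.card_univ,
      smul_eq_mul] at h2
    have h3 : ∀ c, ((Finset.univ.filter fun j => rep c * z j ∈ E).card : ℝ) ≤
        θ * Fintype.card J := fun c => by
      have := hθ (rep c) (hrd c)
      rwa [Set.ncard_eq_toFinset_card', Set.toFinset_ofPred] at this
    have h4 : ((Fintype.card J * G.card : ℕ) : ℝ) ≤
        U.relIndex (WG0 k Ω) * (θ * Fintype.card J) := by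
      rw [← h2, Nat.cast_sum]
      refine (Finset.sum_le_sum fun c _ => h3 c).trans (le_of_eq ?_)
      rw [Finset.sum_const, Finset.card_univ, hcard, nsmul_eq_mul]
    have hJ : (0 : ℝ) < Fintype.card J := by exact_mod_cast Fintype.card_pos
    push_cast at h4
    refine le_of_mul_le_mul_left ?_ hJ
    linarith
  have hθ0 : 0 ≤ θ := by
    have : (0 : ℝ) ≤ θ * U.relIndex (WG0 k Ω) := (Nat.cast_nonneg _).trans hGle
    exact nonneg_of_mul_nonneg_left this hpos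
  -- triples
  have hfin : {v | pdg v = e ∧ v ∉ A ∧ (ℓ v).σ ∈ E}.Finite := (pdg_fin e).subset fun v hv => hv.1
  obtain ⟨B, hB⟩ : ∃ B : ℝ, B = (Fintype.card k : ℝ) ^ e +
      (pre ℓ).err (U.relIndex (WG0 k Ω)) (∑ v ∈ A, pdg v) e := ⟨_, rfl⟩
  have hB0 : 0 ≤ B := by
    rw [hB, Pre.err]
    positivity
  have hBle : B ≤ (Fintype.card k : ℝ) ^ e + (pre ℓ).err N (∑ v ∈ A, pdg v) e := by
    rw [hB, Pre.err, Pre.err]
    gcongr
  obtain ⟨T, hT⟩ : ∃ T : Finset (Pl k × ℕ × (WG0 k Ω ⧸ U.subgroupOf (WG0 k Ω))),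
      T = hfin.toFinset ×ˢ Finset.range e ×ˢ Finset.univ := ⟨_, rfl⟩
  have hTm : ∀ t ∈ T, (pdg t.1 = e ∧ t.1 ∉ A ∧ (ℓ t.1).σ ∈ E) ∧ t.2.1 < e := fun t ht => by
    rw [hT, Finset.mem_product, Finset.mem_product, Set.Finite.mem_toFinset,
      Finset.mem_range] at ht
    exact ⟨ht.1, ht.2.1⟩
  obtain ⟨P, hP⟩ : ∃ P : (WG0 k Ω ⧸ U.subgroupOf (WG0 k Ω)) →
      Finset (Pl k × ℕ × (WG0 k Ω ⧸ U.subgroupOf (WG0 k Ω))), ∀ c t, t ∈ P c ↔ t ∈ T ∧
      (((ℓ none).σ ^ t.2.1)⁻¹ * t.2.2.out.1 * rep c)⁻¹ *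
        ((ℓ t.1).σ * (((ℓ none).σ ^ t.2.1)⁻¹ * t.2.2.out.1)) ∈ U :=
    ⟨fun c => T.filter _, fun c t => Finset.mem_filter⟩
  have hsub : T ⊆ G.biUnion P := by
    intro t ht
    obtain ⟨⟨h1, h2, h3⟩, h4⟩ := hTm t ht
    obtain ⟨h, hh⟩ : ∃ h, h = ((ℓ none).σ ^ t.2.1)⁻¹ * t.2.2.out.1 := ⟨_, rfl⟩
    have hx : ((ℓ none).σ ^ e)⁻¹ * (h⁻¹ * (ℓ t.1).σ * h) ∈ WG0 k Ω := by
      rw [mem_WG0, wdeg_mul, wdeg_mul, wdeg_mul, wdeg_inv, wdeg_inv, hφ, (ℓ t.1).deg_σ, h1]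
      ring
    have h5 := hrep' _ ⟨_, hx⟩ rfl
    rw [mul_inv_cancel_left] at h5
    refine Finset.mem_biUnion.2 ⟨_, (hG _).2 ((hE' _ _ h5).2 ?_), (hP _ _).2 ⟨ht, ?_⟩⟩
    · simpa using hc _ h3 h⁻¹
    · rw [← hh, mul_inv_rev, mul_assoc, ← mul_assoc h⁻¹]
      exact h5
  have hPle : ∀ c, ((P c).card : ℝ) ≤ B := fun c => by
    rw [hB]
    refine card_pairs h6 hq ℓ hU A hA hτ he (rep c) (hrd c) (P c) fun t ht => ?_
    obtain ⟨h1, h2⟩ := (hP c t).1 ht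
    obtain ⟨⟨h3, h4, -⟩, h5⟩ := hTm t h1
    exact ⟨h4, h3, h5, h2⟩
  have hTle : (T.card : ℝ) ≤ G.card * B := by
    have h1 : (T.card : ℝ) ≤ ∑ c ∈ G, ((P c).card : ℝ) := by
      exact_mod_cast (Finset.card_le_card hsub).trans Finset.card_biUnion_le
    refine h1.trans ((Finset.sum_le_sum fun c _ => hPle c).trans (le_of_eq ?_))
    rw [Finset.sum_const, nsmul_eq_mul]
  rw [hT, Finset.card_product, Finset.card_product, Finset.card_range, Finset.card_univ, hcard,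
    ← Set.ncard_eq_toFinset_card _ hfin] at hTle
  push_cast at hTle
  refine le_trans ?_ (mul_le_mul_of_nonneg_left hBle hθ0)
  refine le_of_mul_le_mul_left ?_ hpos
  have := mul_le_mul_of_nonneg_right hGle hB0
  linarith

end Pool.Agent.Hyp
end

-- merged part: Pool.Agent.Work.MP_60d5ce_nt.Hy.LkPlc
section
/-!
# Places of the fixed fields `MU H`  (task LB LkPlc)

`plc l H g` is the place `a ↦ l.w (g⁻¹ a)` of `MU H`.  Write `K = RatFunc (Kb k Ω)`.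
* `exists_plc`: `exists_place_abs` for `chebW l H g⁻¹`; the element `gal g (unif v l.x)` lies in `K` (`gal_jK`) and has value `2⁻¹` (`l.w_unif`).
* `plc_ord`: `abs_disc`; `gal g⁻¹ a` is fixed by an admissible (normal) `U ≤ H` and by `l.τ`: `l.disc`.
* `plc_lin`: which `t - c` vanish at `plc l H g`: `gal g⁻¹ (t - c) = t - (frob ^ wdeg g⁻¹) c` (`gal_tt`, `gal_const`), `Loc.w_lin`, `l.w_unif`, `Loc.w_poly_inf`.
* `plc_base`, `plc_deg`: `plc_lin`; reduce the exponents modulo `pdg v` (`frob_pdg`) and use `place_unique`.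
* `plc_lift`: `conj_of_inv` for the finite group `H ⧸ U.subgroupOf H` (or the range of `(sa hU).comp H.subtype`, finite since it kills `U`) acting on `MU U`; the invariants lie in `MU H`.
* `plc_surj`: first for `H = WG0` (`rat_ext` through `res K`, or through the fact that every element of `MU WG0` comes from `K`, `fixed_geom`; `exists_place`, `g = (ℓ none).σ ^ i`), then for admissible `U`
  (`conj_of_inv` or `exists_smul`, `Adm.exists_res`), then for `H ⊇ U` (`res_surj` for the algebra `IntermediateField.inclusion`).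
* `plc_inertia`: let `H = U ⊔ zpowers l.τ`, `x = plc l U 1`.  For `a ≠ 0` in `MU U` fixed by `τ`: `l.w a = 2 ^ n` (`l.disc`), `l.w (unif v l.x) = 2⁻¹`, so by `abs_ord`
  `x.ord a = -n * x.ord (unif v l.x)`, and `x.ord (unif v l.x) = ee K x` (`ord_res`, `rat_ord`, `rat_ord_inf`).  `fix_of_stab` (with `Adm.exists_res`), then `gb_closed` gives `h ∈ H`;
  a positive power of `τ` lies in `U` (`hU.2.2.2`).
-/

namespace Pool.Agent.Hyp

open Pool.Agent.Lef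

variable [Par]

open PR0 Pool.Agent.Ell.AT Pool.Agent.Quad

noncomputable section

variable {k : Type} [Field k] [Fintype k] {Ω : Type} [Field Ω] [Algebra (RatFunc k) Ω]
  [Algebra k Ω] [IsScalarTower k (RatFunc k) Ω]

/-- open subgroups of the geometric group -/
def Opn (H : Subgroup (WG k Ω)) : Prop := H ≤ WG0 k Ω ∧ ∃ U, Adm U ∧ U ≤ H

theorem opn_of_adm {U : Subgroup (WG k Ω)} (hU : Adm U) : Opn U := ⟨hU.le, U, hU, le_rfl⟩

variable {v v' : Pl k} {H U : Subgroup (WG k Ω)}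

theorem LkPlc_mul (g h : WG k Ω) (a : Ω) : gal (g * h) a = gal g (gal h a) := by
  rw [map_mul, AlgEquiv.mul_apply]

theorem LkPlc_one (a : Ω) : gal (1 : WG k Ω) a = a := by
  rw [map_one, AlgEquiv.one_apply]

theorem LkPlc_X : jK k Ω RatFunc.X = tt k Ω := by
  have h := jK_poly k Ω Polynomial.X
  rwa [Polynomial.aeval_X, RatFunc.algebraMap_X] at h

theorem LkPlc_lin (c : Kb k Ω) :
    jK k Ω (RatFunc.X - algebraMap (Kb k Ω) (RatFunc (Kb k Ω)) c) = tt k Ω - c := by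
  rw [map_sub, LkPlc_X, AlgHom.commutes]
  rfl

theorem LkPlc_ne (c : Kb k Ω) :
    RatFunc.X - algebraMap (Kb k Ω) (RatFunc (Kb k Ω)) c ≠ 0 := fun h =>
  RatFunc.transcendental_X (K := Kb k Ω) (by
    rw [sub_eq_zero.1 h]
    exact isAlgebraic_algebraMap c)

theorem LkPlc_coe (H : Subgroup (WG k Ω)) (b : RatFunc (Kb k Ω)) :
    ((algebraMap (RatFunc (Kb k Ω)) (MU H) b : MU H) : Ω) = jK k Ω b := rfl

theorem LkPlc_unif (v : Pl k) (x : Kb k Ω) : ∃ b, jK k Ω b = unif v x := by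
  cases v with
  | none => exact ⟨RatFunc.X⁻¹, by rw [map_inv₀, LkPlc_X]; rfl⟩
  | some p => exact ⟨_, LkPlc_lin x⟩

theorem LkPlc_pi (l : Loc Ω v) (H : Subgroup (WG k Ω)) (g : WG k Ω) :
    ∃ π : MU H, chebW l H g⁻¹ π = 2⁻¹ := by
  obtain ⟨b, hb⟩ := LkPlc_unif v l.x
  obtain ⟨b', hb'⟩ := gal_jK g b
  refine ⟨algebraMap (RatFunc (Kb k Ω)) (MU H) b', ?_⟩
  rw [chebW_apply, LkPlc_coe, ← hb', ← LkPlc_mul, inv_mul_cancel, LkPlc_one, hb]
  exact l.w_unif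

theorem LkPlc_zpow (l : Loc Ω v) {s : WG k Ω} (hs : ∀ a, l.w (gal s a) = l.w a) (n : ℤ) (a : Ω) :
    l.w (gal (s ^ n) a) = l.w a := by
  induction n using Int.induction_on generalizing a with
  | zero => rw [zpow_zero, LkPlc_one]
  | succ n ih => rw [zpow_add_one, LkPlc_mul, ih, hs]
  | pred n ih =>
    rw [zpow_sub_one, LkPlc_mul, ih, ← hs, ← LkPlc_mul, mul_inv_cancel, LkPlc_one]

theorem LkPlc_anti (hH : H ≤ WG0 k Ω) (hUH : U ≤ H) : MU H ≤ MU U := fun _ ha =>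
  (mem_MU (hUH.trans hH)).2 fun u hu => (mem_MU hH).1 ha u (hUH hu)

theorem exists_plc (l : Loc Ω v) (H : Subgroup (WG k Ω)) (g : WG k Ω) :
    ∃ y : Place (Kb k Ω) (MU H), ∀ a : MU H, a ∈ y.1 ↔ l.w (gal g⁻¹ a) ≤ 1 := by
  refine exists_place_abs (chebW_na l H g⁻¹) (fun c => ?_) ?_
  · rw [chebW_apply, cheb_const, gal_const]
    by_cases h : (frob k Ω ^ wdeg g⁻¹) c = 0
    · rw [h, ZeroMemClass.coe_zero, map_zero]
      exact zero_le_one
    · exact (l.w_const _ h).le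
  · obtain ⟨π, hπ⟩ := LkPlc_pi l H g
    refine ⟨π⁻¹, ?_⟩
    rw [map_inv₀, hπ]
    norm_num

/-- the place given by a local model and an element of the Weil group -/
def plc (l : Loc Ω v) (H : Subgroup (WG k Ω)) (g : WG k Ω) : Place (Kb k Ω) (MU H) :=
  (exists_plc l H g).choose

theorem mem_plc {l : Loc Ω v} {g : WG k Ω} {a : MU H} :
    a ∈ (plc l H g).1 ↔ l.w (gal g⁻¹ a) ≤ 1 := (exists_plc l H g).choose_spec a

/-- the action of the Weil group on `MU U` -/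
def sa (hU : Adm U) : WG k Ω →* SA (Kb k Ω) (MU U) where
  toFun g := ⟨((frob k Ω ^ wdeg g : Kb k Ω ≃ₐ[k] Kb k Ω), chebRes hU g),
    fun c => Subtype.ext (gal_const g c)⟩
  map_one' := Subtype.ext (Prod.ext (by ext c; simp [wdeg_one])
    (by ext a; simp [chebRes_coe]))
  map_mul' g h := Subtype.ext (Prod.ext (by ext c; simp [wdeg_mul, zpow_add])
    (by ext a; simp [chebRes_coe]))

theorem sl_sa (hU : Adm U) (g : WG k Ω) (a : MU U) : (Ell.AT.sl (sa hU g) a : Ω) = gal g a := rfl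

theorem sc_sa (hU : Adm U) (g : WG k Ω) (c : Kb k Ω) : sc (sa hU g) c = (frob k Ω ^ wdeg g) c := rfl

theorem sa_plc (hU : Adm U) (l : Loc Ω v) (g h : WG k Ω) :
    sa hU g • plc l U h = plc l U (g * h) := by
  refine Subtype.ext (SetLike.ext fun a => ?_)
  rw [mem_smul, mem_plc, mem_plc, ← map_inv, sl_sa, mul_inv_rev, LkPlc_mul]

theorem plc_mul_left (hH : H ≤ WG0 k Ω) (l : Loc Ω v) {u : WG k Ω} (hu : u ∈ H) (g : WG k Ω) :
    plc l H (u * g) = plc l H g := by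
  refine Subtype.ext (SetLike.ext fun a => ?_)
  rw [mem_plc, mem_plc, mul_inv_rev, LkPlc_mul, (mem_MU hH).1 a.2 _ (H.inv_mem hu)]

theorem plc_σ (l : Loc Ω v) (g : WG k Ω) (n : ℤ) : plc l H (g * l.σ ^ n) = plc l H g := by
  refine Subtype.ext (SetLike.ext fun a => ?_)
  rw [mem_plc, mem_plc, mul_inv_rev, LkPlc_mul, ← zpow_neg, LkPlc_zpow l l.w_σ]

theorem plc_τ (l : Loc Ω v) (g : WG k Ω) (n : ℤ) : plc l H (g * l.τ ^ n) = plc l H g := by
  refine Subtype.ext (SetLike.ext fun a => ?_)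
  rw [mem_plc, mem_plc, mul_inv_rev, LkPlc_mul, ← zpow_neg, LkPlc_zpow l l.w_τ]

variable [IsSepClosure (RatFunc k) Ω]

theorem Opn.fd (hH : Opn H) : FiniteDimensional (RatFunc (Kb k Ω)) (MU H) := by
  obtain ⟨h0, U, hU, hUH⟩ := hH
  have := hU.finiteDimensional
  exact FiniteDimensional.of_injective
    (IntermediateField.inclusion (LkPlc_anti h0 hUH)).toLinearMap
    (IntermediateField.inclusion_injective (LkPlc_anti h0 hUH))

theorem Opn.isFF (hH : Opn H) : IsFF (Kb k Ω) (MU H) := by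
  have := hH.fd
  exact isFF_of_finite (K := RatFunc (Kb k Ω)) (isFF_ratFunc _)

theorem Opn.mem (hH : Opn H) {g : WG k Ω} (hg : wdeg g = 0) (h : ∀ a ∈ MU H, gal g a = a) :
    g ∈ H := by
  obtain ⟨-, U, ⟨-, -, ⟨S, hS⟩, -⟩, hUH⟩ := hH
  exact gb_closed (S := S) (fun g hg h => hUH (hS g hg h)) hg h

theorem plc_ord [Fact (IsFF (Kb k Ω) (MU H))] (hH : Opn H) (l : Loc Ω v) {g : WG k Ω}
    (hτ : g * l.τ * g⁻¹ ∈ H) {a : MU H} (ha : a ≠ 0) :
    l.w (gal g⁻¹ a) = 2 ^ (-(plc l H g).ord a) := by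
  obtain ⟨h0, U, hU, hUH⟩ := hH
  obtain ⟨π, hπ⟩ := LkPlc_pi l H g
  have key : ∀ (b : MU H) (u : WG k Ω), g * u * g⁻¹ ∈ H →
      gal u (gal g⁻¹ b) = gal g⁻¹ b := fun b u hu => by
    conv_rhs => rw [← (mem_MU h0).1 b.2 _ hu]
    rw [← LkPlc_mul, ← LkPlc_mul, ← mul_assoc, ← mul_assoc, inv_mul_cancel, one_mul]
  refine abs_disc (w := chebW l H g⁻¹) (fun _ => mem_plc) (fun b hb => ?_) hπ ha
  exact l.disc U hU _ (by simpa using hb)
    (fun u hu => key b u (hUH (hU.normal.conj_mem u hu g))) (key b _ hτ)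

theorem plc_lin (l : Loc Ω v) (g : WG k Ω) (c : Kb k Ω) :
    l.w (gal g⁻¹ (tt k Ω - c)) < 1 ↔ v ≠ none ∧ c = (frob k Ω ^ wdeg g) l.x := by
  rw [map_sub, gal_tt, gal_const]
  have e : (frob k Ω ^ wdeg g⁻¹) c = l.x ↔ c = (frob k Ω ^ wdeg g) l.x := by
    rw [wdeg_inv, zpow_neg]
    exact AlgEquiv.symm_apply_eq _
  rw [← e]
  generalize (frob k Ω ^ wdeg g⁻¹) c = y
  cases v with
  | none =>
    have := l.w_poly_inf (Polynomial.X_sub_C_ne_zero y)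
    rw [Polynomial.natDegree_X_sub_C, map_sub, Polynomial.aeval_X, Polynomial.aeval_C] at this
    refine iff_of_false ?_ fun h => h.1 rfl
    rw [show ((y : Kb k Ω) : Ω) = algebraMap (Kb k Ω) Ω y from rfl, this]
    norm_num
  | some p =>
    by_cases h : y = l.x
    · refine iff_of_true ?_ ⟨Option.some_ne_none p, h⟩
      rw [h, show l.w (tt k Ω - l.x) = 2⁻¹ from l.w_unif]
      norm_num
    · refine iff_of_false ?_ fun h' => h h'.2
      rw [l.w_lin (Option.some_ne_none p) h]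
      exact lt_irrefl 1

theorem LkPlc_mem (l : Loc Ω v) (H : Subgroup (WG k Ω)) (g : WG k Ω) (c : Kb k Ω) :
    algebraMap (RatFunc (Kb k Ω)) (MU H)
      (RatFunc.X - algebraMap (Kb k Ω) (RatFunc (Kb k Ω)) c)⁻¹ ∈ (plc l H g).1 ↔
      ¬ (v ≠ none ∧ c = (frob k Ω ^ wdeg g) l.x) := by
  have h0 : gal g⁻¹ (tt k Ω - c) ≠ 0 := by
    rw [← LkPlc_lin, map_ne_zero, map_ne_zero]
    exact LkPlc_ne c
  rw [← plc_lin, mem_plc, LkPlc_coe, map_inv₀, LkPlc_lin, map_inv₀, map_inv₀, not_lt,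
    inv_le_one₀ (l.w.pos h0)]

theorem LkPlc_red (l : Loc Ω v) (hv : v ≠ none) (a : ℤ) : ∃ i : ℕ, i < pdg v ∧
    (i : ℤ) = a % pdg v ∧ (frob k Ω ^ a) l.x = (frob k Ω ^ i) l.x := by
  have hp : (0 : ℤ) < pdg v := by exact_mod_cast pdg_pos v
  obtain ⟨i, hi⟩ := Int.eq_ofNat_of_zero_le (Int.emod_nonneg a hp.ne')
  refine ⟨i, by have := Int.emod_lt_of_pos a hp; omega, hi.symm, ?_⟩
  have h1 : frob k Ω ^ pdg v ∈ MulAction.stabilizer (Kb k Ω ≃ₐ[k] Kb k Ω) l.x := frob_pdg l hv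
  have h2 : ((frob k Ω ^ pdg v) ^ (a / pdg v)) l.x = l.x := Subgroup.zpow_mem _ h1 _
  conv_lhs => rw [← Int.emod_add_mul_ediv a (pdg v), zpow_add, hi, zpow_mul, zpow_natCast,
    zpow_natCast, AlgEquiv.mul_apply, h2]

theorem LkPlc_both (ℓ : Locs k Ω) {g g' : WG k Ω} (h : plc (ℓ v) H g = plc (ℓ v') H g')
    (hv : v ≠ none) : v = v' ∧ wdeg g % pdg v = wdeg g' % pdg v' := by
  have h1 := LkPlc_mem (ℓ v) H g ((frob k Ω ^ wdeg g) (ℓ v).x)
  rw [h, LkPlc_mem, not_iff_not] at h1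
  obtain ⟨hv', e⟩ := h1.2 ⟨hv, rfl⟩
  obtain ⟨i, h2, h3, h4⟩ := LkPlc_red (ℓ v) hv (wdeg g)
  obtain ⟨i', h2', h3', h4'⟩ := LkPlc_red (ℓ v') hv' (wdeg g')
  obtain ⟨e1, e2⟩ := place_unique ℓ hv hv' h2 h2' (h4.symm.trans (e.trans h4'))
  exact ⟨e1, by rw [← h3, ← h3', e2]⟩

theorem LkPlc_sa (hU : Adm U) {s : MU U ≃ₐ[RatFunc (Kb k Ω)] MU U} {g : WG k Ω}
    (h : ∀ a : MU U, (s a : Ω) = gal g a) : toSA (Kb k Ω) s = sa hU g :=
  sa_eq (RingEquiv.ext fun a => Subtype.ext (h a))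

theorem LkPlc_uniq {κ : Type} [Field κ] (z : Place κ (RatFunc κ)) {c c' : κ} (h : c ≠ c') :
    (RatFunc.X - algebraMap κ (RatFunc κ) c)⁻¹ ∈ z.1 ∨
      (RatFunc.X - algebraMap κ (RatFunc κ) c')⁻¹ ∈ z.1 := by
  have h1 : algebraMap κ (RatFunc κ) (c' - c)⁻¹ ∈ z.1 := z.2.2 _
  have h2 : algebraMap κ (RatFunc κ) (c' - c) = (RatFunc.X - algebraMap κ (RatFunc κ) c) -
      (RatFunc.X - algebraMap κ (RatFunc κ) c') := by
    rw [map_sub]
    ring
  have h3 : algebraMap κ (RatFunc κ) (c' - c) ≠ 0 := (map_ne_zero _).2 (sub_ne_zero.2 h.symm)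
  rw [map_inv₀] at h1
  rw [h2] at h1 h3
  generalize RatFunc.X - algebraMap κ (RatFunc κ) c = a at h1 h3 ⊢
  generalize RatFunc.X - algebraMap κ (RatFunc κ) c' = b at h1 h3 ⊢
  by_cases ha : a = 0
  · exact Or.inl (by rw [ha, inv_zero]; exact z.1.zero_mem)
  by_cases hb : b = 0
  · exact Or.inr (by rw [hb, inv_zero]; exact z.1.zero_mem)
  refine (z.1.mem_or_inv_mem (b / a)).imp (fun h4 => ?_) fun h4 => ?_
  · have e : a⁻¹ = (a - b)⁻¹ * (1 - b / a) := by field_simp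
    rw [e]
    exact z.1.mul_mem _ _ h1 (sub_mem z.1.one_mem h4)
  · have e : b⁻¹ = (a - b)⁻¹ * ((b / a)⁻¹ - 1) := by field_simp
    rw [e]
    exact z.1.mul_mem _ _ h1 (sub_mem h4 z.1.one_mem)

theorem LkPlc_rat (ℓ : Locs k Ω) (U : Subgroup (WG k Ω))
    [Algebra.IsAlgebraic (RatFunc (Kb k Ω)) (MU U)] (z : Place (Kb k Ω) (RatFunc (Kb k Ω))) :
    ∃ v g, res (RatFunc (Kb k Ω)) (plc (ℓ v) U g) = z := by
  by_cases h : ∀ c, (RatFunc.X - algebraMap (Kb k Ω) (RatFunc (Kb k Ω)) c)⁻¹ ∈ z.1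
  · refine ⟨none, 1, rat_ext fun c => iff_of_true ?_ (h c)⟩
    rw [mem_res, LkPlc_mem]
    exact fun h => h.1 rfl
  · obtain ⟨c, hc⟩ := not_forall.1 h
    obtain ⟨v, i, hv, -, e⟩ := exists_place ℓ c
    have hd : wdeg ((ℓ none).σ ^ i) = i := by
      rw [wdeg_pow, (ℓ none).deg_σ]
      simp [pdg]
    refine ⟨v, (ℓ none).σ ^ i, rat_ext fun c' => ?_⟩
    rw [mem_res, LkPlc_mem, hd, zpow_natCast, ← e, and_iff_right hv]
    exact ⟨fun h => (LkPlc_uniq z h).resolve_right hc, fun h h' => hc (h' ▸ h)⟩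

theorem LkPlc_surj (ℓ : Locs k Ω) (hU : Adm U) (y : Place (Kb k Ω) (MU U)) :
    ∃ v g, y = plc (ℓ v) U g := by
  have := hU.finiteDimensional
  have := hU.isGalois
  have := Fact.mk (opn_of_adm hU).isFF
  have := Fact.mk (isFF_ratFunc (Kb k Ω))
  obtain ⟨v, g, h⟩ := LkPlc_rat ℓ U (res _ y)
  obtain ⟨s, hs⟩ := exists_smul h
  obtain ⟨π, h1, h2, -⟩ := hU.exists_res
  obtain ⟨u, rfl⟩ := h1 s
  rw [LkPlc_sa hU (h2 u), sa_plc] at hs
  exact ⟨v, _, hs.symm⟩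

theorem plc_base (ℓ : Locs k Ω) {g g' : WG k Ω} (h : plc (ℓ v) H g = plc (ℓ v') H g') : v = v' := by
  by_cases hv : v = none
  · by_contra hv'
    exact hv' (LkPlc_both ℓ h.symm fun e => hv' (hv.trans e.symm)).1.symm
  · exact (LkPlc_both ℓ h hv).1

theorem plc_deg (ℓ : Locs k Ω) {g g' : WG k Ω} (h : plc (ℓ v) H g = plc (ℓ v) H g') :
    (pdg v : ℤ) ∣ wdeg g - wdeg g' := by
  by_cases hv : v = none
  · subst hv
    exact one_dvd _
  · exact Int.ModEq.dvd (LkPlc_both ℓ h hv).2.symm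

theorem plc_lift (hH : H ≤ WG0 k Ω) (hU : Adm U) (hUH : U ≤ H) {l : Loc Ω v} {l' : Loc Ω v'}
    {g g' : WG k Ω} (h : plc l H g = plc l' H g') : ∃ u ∈ H, plc l U (u * g) = plc l' U g' := by
  have := hU.finiteDimensional
  have := Fact.mk (opn_of_adm hU).isFF
  obtain ⟨π, -, h2, -⟩ := hU.exists_res
  obtain ⟨⟨_, u, hu, rfl⟩, hs⟩ := conj_of_inv
    ((toSA (Kb k Ω)).comp ((H.subgroupOf (WG0 k Ω)).map π).subtype)
    (x := plc l U g) (x' := plc l' U g') fun a ha => by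
      have h3 : (a : Ω) ∈ MU H := (mem_MU hH).2 fun u hu => by
        have := ha ⟨π ⟨u, hH hu⟩, _, hu, rfl⟩
        rw [← h2 ⟨u, hH hu⟩ a]
        exact congrArg Subtype.val this
      have h4 := mem_plc (l := l) (g := g) (a := ⟨a, h3⟩)
      rw [h, mem_plc] at h4
      rw [mem_plc, mem_plc]
      exact h4.symm
  refine ⟨u, hu, ?_⟩
  rw [← sa_plc hU, ← LkPlc_sa hU (h2 u)]
  exact hs

private theorem plc_incl_surjH {κ F Ω : Type} [Field κ] [Field F] [Field Ω] [Algebra κ F] [Algebra F Ω]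
    [Algebra κ Ω] [IsScalarTower κ F Ω] [IsAlgClosed κ] {M N : IntermediateField F Ω} (h : M ≤ N)
    (hf : FiniteDimensional F N) (hM : IsFF κ M) (hN : IsFF κ N) (y : Place κ M) :
    ∃ x : Place κ N, ∀ a : M, a ∈ y.1 ↔ IntermediateField.inclusion h a ∈ x.1 := by
  have := Fact.mk hM
  have := Fact.mk hN
  let _ : Algebra M N := (IntermediateField.inclusion h).toRingHom.toAlgebra
  have : IsScalarTower κ M N := IsScalarTower.of_algebraMap_eq fun _ => rfl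
  have : IsScalarTower F M N := IsScalarTower.of_algebraMap_eq fun _ => rfl
  have : FiniteDimensional M N := Module.Finite.right F _ _
  obtain ⟨x, hx⟩ := res_surj (L := N) y
  exact ⟨x, fun a => by rw [← hx, mem_res]; rfl⟩

theorem plc_surj (ℓ : Locs k Ω) (hH : Opn H) (y : Place (Kb k Ω) (MU H)) :
    ∃ v g, y = plc (ℓ v) H g := by
  have hF := hH.isFF
  obtain ⟨h0, U, hU, hUH⟩ := hH
  obtain ⟨x, hx⟩ := plc_incl_surjH (LkPlc_anti h0 hUH) hU.finiteDimensional hF (opn_of_adm hU).isFF y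
  obtain ⟨v, g, rfl⟩ := LkPlc_surj ℓ hU x
  refine ⟨v, g, Subtype.ext (SetLike.ext fun a => (hx a).trans ?_)⟩
  rw [mem_plc, mem_plc]
  rfl

theorem plc_inertia (hU : Adm U) (l : Loc Ω v) {h : WG k Ω} (h0 : wdeg h = 0)
    (e : plc l U h = plc l U 1) : ∃ n : ℕ, (l.τ ^ n)⁻¹ * h ∈ U := by
  have := hU.finiteDimensional
  have := hU.normal
  have := Fact.mk (opn_of_adm hU).isFF
  have := Fact.mk (isFF_ratFunc (Kb k Ω))
  have hH : Opn (Subgroup.zpowers l.τ ⊔ U) :=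
    ⟨sup_le ((Subgroup.zpowers_le).2 l.deg_τ) hU.le, U, hU, le_sup_right⟩
  obtain ⟨π, -, h2, -⟩ := hU.exists_res
  obtain ⟨r0, r1, hr⟩ := abs_ord (w := chebW l U 1⁻¹) (y := plc l U 1) fun _ => mem_plc
  have hw : ∀ a : MU U, chebW l U 1⁻¹ a = l.w a := fun a => by
    rw [chebW_apply, inv_one, LkPlc_one]
  have h3 : ∀ b, jK k Ω b = unif v l.x → b⁻¹ ∉ (res (RatFunc (Kb k Ω)) (plc l U 1)).1 :=
    fun b hb => by
      rw [mem_res, mem_plc, inv_one, LkPlc_one, LkPlc_coe, map_inv₀, map_inv₀, hb,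
        show l.w (unif v l.x) = 2⁻¹ from l.w_unif]
      norm_num
  obtain ⟨b, hb, hb1⟩ : ∃ b, jK k Ω b = unif v l.x ∧
      (res (RatFunc (Kb k Ω)) (plc l U 1)).ord b = 1 := by
    cases v with
    | none =>
      have e1 : jK k Ω RatFunc.X⁻¹ = unif none l.x := by rw [map_inv₀, LkPlc_X]; rfl
      exact ⟨_, e1, rat_ord_inf _ (by simpa using h3 _ e1)⟩
    | some p => exact ⟨_, LkPlc_lin l.x, rat_ord _ _ (h3 _ (LkPlc_lin l.x))⟩
  have hb0 : b ≠ 0 := fun e => h3 b hb (by rw [e, inv_zero]; exact zero_mem _)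
  have h4 := hr _ ((map_ne_zero (algebraMap (RatFunc (Kb k Ω)) (MU U))).2 hb0)
  rw [ord_res _ hb0, hb1, mul_one, hw, LkPlc_coe, hb,
    show l.w (unif v l.x) = 2⁻¹ from l.w_unif] at h4
  have h5 := fix_of_stab ((MU (Subgroup.zpowers l.τ ⊔ U)).comap (MU U).val) (x := plc l U 1)
    (σ := π ⟨h, h0⟩) (fun a ha a0 => by
      obtain ⟨n, hn⟩ := l.disc U hU a (by simpa using a0) ((mem_MU hU.le).1 a.2)
        ((mem_MU hH.1).1 ha _ (Subgroup.mem_sup_left (Subgroup.mem_zpowers _)))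
      have h6 := hr a a0
      rw [hw, show l.w a = 2 ^ n from hn, ← inv_inv (2 : ℝ), h4, inv_zpow', ← zpow_mul] at h6
      exact ⟨-n, (zpow_right_injective₀ r0 r1.ne h6).symm⟩)
    (by rw [LkPlc_sa hU (h2 ⟨h, h0⟩), sa_plc, mul_one, e])
  have h7 := hH.mem h0 fun a ha => by
    have := h5 ⟨a, LkPlc_anti hH.1 le_sup_right ha⟩ ha
    exact (h2 ⟨h, h0⟩ _).symm.trans (congrArg Subtype.val this)
  obtain ⟨_, ⟨m, rfl⟩, u, hu, rfl⟩ := Subgroup.mem_sup_of_normal_right.1 h7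
  obtain ⟨j, hj⟩ := hU.2.2.2 _ l.deg_τ
  have hp : (0 : ℤ) < (mo ^ j : ℕ) := Int.natCast_pos.2 (pow_pos mo_pos _)
  obtain ⟨n, hn⟩ := Int.eq_ofNat_of_zero_le (Int.emod_nonneg m hp.ne')
  refine ⟨n, ?_⟩
  show (l.τ ^ n)⁻¹ * (l.τ ^ m * u) ∈ U
  rw [← Int.emod_add_mul_ediv m (mo ^ j : ℕ), zpow_add, hn, zpow_mul, zpow_natCast, zpow_natCast,
    mul_assoc, inv_mul_cancel_left]
  exact U.mul_mem (U.zpow_mem hj _) hu

end

end Pool.Agent.Hyp
end
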