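import Pool.Agent.Work.MP_60d5ce_nt.Hy.RecipA
import Pool.Agent.Work.MP_60d5ce_nt.Hy.H2
import Pool.Agent.Work.MP_60d5ce_nt.Hy.LkPlc
import Pool.Agent.Work.MP_60d5ce_nt.Hy.BoxC

-- merged part: Pool.Agent.Work.MP_60d5ce_nt.Hy.TameF
section
-- merged part: Pool.Agent.Work.MP_60d5ce_nt.Hy.RecipB
section
/-!
# Reciprocity and the Hasse principle for `F2`-valued 2-cocycles of the Weil group

Hints.  `inv v` kills coboundaries of smooth functions (by `rel`; same computation as `inv_cob` in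
`Basic.lean`, redo it here for `pre ℓ`).  By `h2_geom` assume `θ g h = 0` for `g, h ∈ WG0`.  Put
`H g u = θ g u - θ (g u g⁻¹) g` for `u ∈ WG0`: additive in `u`, `H (g g') u = H g (g' u g'⁻¹) + H g' u`,
`H g = 0` for `g ∈ WG0`, so `H g` depends only on the degree of `g`.  With `φ = σ ∞` and `h = H φ`:
`inv v θ = H (σ v) (τ v) = ∑ i < pdg v, h (φ ^ i * τ v * φ ^ (-i))`.  By `exists_kummer`, `h` is the
Kummer character of `r`, `r ^ 2 = jK b`, and by `ord_conj` the `i`-th term is the order of `b` at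
the constant `frob ^ i x_v` (at infinity: degree of the denominator minus degree of the numerator).
`recip`: all orders add up to zero (`exists_place`, `place_unique`).
`hasse`: if the orders add up to zero modulo two over each Frobenius orbit there is a polynomial
`p` over `Kb` (prescribed orders modulo two) with Kummer character `h'` such that
`h u = h' (φ u φ⁻¹) - h' u` (check on the conjugates of the `τ v`, `uniq_geom`); subtract the
coboundary of `h'` extended by zero, so `h = 0` and `H = 0`; then with `g = u φ ^ n` define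
`b (u φ ^ n) = β n - θ u (φ ^ n)` where `β` trivialises `θ` on the powers of `φ`.
-/

namespace Pool.Agent.Hyp

open Pool.Agent.Quad

variable [Par]

section abstract

variable {W : Type} [Group W] {θ : W → W → F2}

theorem RecipB_one_left (hθ : IsCoc2 θ) (g : W) : θ 1 g = θ 1 1 := by
  have := hθ 1 1 g
  simp only [one_mul] at this
  linear_combination this

theorem RecipB_one_right (hθ : IsCoc2 θ) (g : W) : θ g 1 = θ 1 1 := by
  have := hθ g 1 1
  simp only [mul_one] at this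
  linear_combination -this

/-- the conjugation defect of a cocycle -/
def RecipB_H (θ : W → W → F2) (g u : W) : F2 := θ g u - θ (g * u * g⁻¹) g

theorem RecipB_H_add (hθ : IsCoc2 θ) (g u u' : W) (h1 : θ u u' = 0)
    (h2 : θ (g * u * g⁻¹) (g * u' * g⁻¹) = 0) :
    RecipB_H θ g (u * u') = RecipB_H θ g u + RecipB_H θ g u' := by
  have c1 := hθ g u u'
  have c2 := hθ (g * u * g⁻¹) (g * u' * g⁻¹) g
  have c3 := hθ (g * u * g⁻¹) g u'
  have e1 : g * u * g⁻¹ * (g * u' * g⁻¹) = g * (u * u') * g⁻¹ := by group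
  have e2 : g * u' * g⁻¹ * g = g * u' := by group
  have e3 : g * u * g⁻¹ * g = g * u := by group
  rw [e1, e2] at c2
  rw [e3] at c3
  unfold RecipB_H
  linear_combination c1 + c2 - c3 - h1 + h2

theorem RecipB_H_mul (hθ : IsCoc2 θ) (g g' u : W) :
    RecipB_H θ (g * g') u = RecipB_H θ g (g' * u * g'⁻¹) + RecipB_H θ g' u := by
  have c1 := hθ g g' u
  have c2 := hθ (g * (g' * u * g'⁻¹) * g⁻¹) g g'
  have c3 := hθ g (g' * u * g'⁻¹) g'
  have e1 : g * g' * u * (g * g')⁻¹ = g * (g' * u * g'⁻¹) * g⁻¹ := by group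
  have e2 : g * (g' * u * g'⁻¹) * g⁻¹ * g = g * (g' * u * g'⁻¹) := by group
  have e3 : g' * u * g'⁻¹ * g' = g' * u := by group
  rw [e2] at c2
  rw [e3] at c3
  unfold RecipB_H
  rw [e1]
  linear_combination -c1 - c2 + c3

theorem RecipB_H_one (hθ : IsCoc2 θ) (u : W) : RecipB_H θ 1 u = 0 := by
  unfold RecipB_H
  rw [RecipB_one_left hθ u, RecipB_one_right hθ (1 * u * 1⁻¹), sub_self]

theorem RecipB_H_pow (hθ : IsCoc2 θ) (φ u : W) (n : ℕ) :
    RecipB_H θ (φ ^ n) u =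
      ∑ i ∈ Finset.range n, RecipB_H θ φ (φ ^ (i : ℤ) * u * φ ^ (-(i : ℤ))) := by
  induction n with
  | zero => simpa using RecipB_H_one hθ u
  | succ n ih =>
    rw [pow_succ', RecipB_H_mul hθ, ih, Finset.sum_range_succ, add_comm, zpow_neg, zpow_natCast]

theorem RecipB_exists_seq (c : F2) (f : ℤ → F2) :
    ∃ β : ℤ → F2, β 0 = c ∧ ∀ n, β (n + 1) = β n - f n := by
  refine ⟨fun n => c - ∑ i ∈ Finset.Ico 0 n, f i + ∑ i ∈ Finset.Ico n 0, f i, by simp, fun n => ?_⟩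
  beta_reduce
  rcases le_or_gt 0 n with h | h
  · have h1 : Finset.Ico 0 (n + 1) = insert n (Finset.Ico 0 n) := by
      ext i
      simp only [Finset.mem_Ico, Finset.mem_insert]
      omega
    rw [h1, Finset.sum_insert (by simp), Finset.Ico_eq_empty_of_le (a := n + 1) (by omega),
      Finset.Ico_eq_empty_of_le h]
    ring
  · have h1 : Finset.Ico n 0 = insert n (Finset.Ico (n + 1) 0) := by
      ext i
      simp only [Finset.mem_Ico, Finset.mem_insert]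
      omega
    rw [h1, Finset.sum_insert (by simp), Finset.Ico_eq_empty_of_le (b := n + 1) (by omega),
      Finset.Ico_eq_empty_of_le h.le]
    ring

theorem RecipB_cyclic (hθ : IsCoc2 θ) (φ : W) :
    ∃ β : ℤ → F2, ∀ n m : ℤ, θ (φ ^ n) (φ ^ m) = β n + β m - β (n + m) := by
  obtain ⟨β, h0, h1⟩ := RecipB_exists_seq (θ 1 1) fun n => θ (φ ^ n) φ
  refine ⟨β, fun n m => ?_⟩
  have step : ∀ m : ℤ, θ (φ ^ n) (φ ^ (m + 1)) - (β n + β (m + 1) - β (n + (m + 1))) =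
      θ (φ ^ n) (φ ^ m) - (β n + β m - β (n + m)) := fun m => by
    have c := hθ (φ ^ n) (φ ^ m) φ
    rw [← zpow_add, ← zpow_add_one] at c
    rw [← add_assoc n m 1, h1, h1]
    linear_combination c
  induction m using Int.induction_on with
  | zero => rw [zpow_zero, RecipB_one_right hθ, h0, add_zero]; ring
  | succ m ih => linear_combination step m + ih
  | pred m ih =>
    have := step (-(m : ℤ) - 1)
    rw [sub_add_cancel] at this
    linear_combination ih - this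

theorem RecipB_final (hθ : IsCoc2 θ) (u u' a a' : W) (h1 : θ u (a * u' * a⁻¹) = 0)
    (h2 : RecipB_H θ a u' = 0) :
    θ (u * a) (u' * a') = θ a a' - θ u a - θ u' a' + θ (u * (a * u' * a⁻¹)) (a * a') := by
  have c1 := hθ u a (u' * a')
  have c2 := hθ a u' a'
  have c3 := hθ (a * u' * a⁻¹) a a'
  have c4 := hθ u (a * u' * a⁻¹) (a * a')
  have e1 : a * u' * a⁻¹ * a = a * u' := by group
  have e2 : a * u' * a⁻¹ * (a * a') = a * (u' * a') := by group
  rw [e1] at c3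
  rw [e2] at c4
  unfold RecipB_H at h2
  linear_combination -c1 + c2 - c3 + c4 + h1 + h2

theorem RecipB_tel (f : ℕ → F2) (c : F2) {n : ℕ} (hn : 1 ≤ n) :
    ∑ i ∈ Finset.Ico 1 n, (f i + c - f (i + 1)) = f 1 + (n - 1) * c - f n := by
  induction n, hn using Nat.le_induction with
  | base => simp
  | succ n hn ih =>
    rw [Finset.sum_Ico_succ_top hn, ih]
    push_cast
    ring

theorem RecipB_exists_poly {K : Type} [Field K] (M : K → F2) (hM : {y | M y ≠ 0}.Finite) :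
    ∃ p : Polynomial K, p ≠ 0 ∧ ∀ y, (p.rootMultiplicity y : F2) = M y := by
  classical
  have hfin : (Function.support fun y => (M y).val).Finite :=
    hM.subset fun y hy h => hy (by simp only [h]; rfl)
  refine ⟨((Finsupp.toMultiset (Finsupp.ofSupportFinite _ hfin)).map fun a =>
    Polynomial.X - Polynomial.C a).prod, (Polynomial.monic_multiset_prod_of_monic _ _
      fun a _ => Polynomial.monic_X_sub_C a).ne_zero, fun y => ?_⟩
  rw [← Polynomial.count_roots, Polynomial.roots_multiset_prod_X_sub_C, Finsupp.count_toMultiset,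
    Finsupp.ofSupportFinite_coe, ZMod.natCast_zmod_val]

end abstract

variable {k : Type} [Field k] [Fintype k] {Ω : Type} [Field Ω] [Algebra (RatFunc k) Ω]
  [Algebra k Ω] [IsScalarTower k (RatFunc k) Ω] [IsSepClosure (RatFunc k) Ω]

omit [IsSepClosure (RatFunc k) Ω] in
theorem RecipB_conj_deg (g : WG k Ω) {u : WG k Ω} (hu : wdeg u = 0) : wdeg (g * u * g⁻¹) = 0 := by
  rw [wdeg_mul, wdeg_mul, wdeg_inv, hu]
  ring

omit [IsSepClosure (RatFunc k) Ω] [IsScalarTower k (RatFunc k) Ω] in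
theorem RecipB_deg_inf (ℓ : Locs k Ω) : wdeg (ℓ none).σ = 1 := (ℓ none).deg_σ

theorem RecipB_card (h6 : ((mo : ℕ) : k) ≠ 0) : (Fintype.card k : F2) = 1 := by
    have h1 := (FiniteField.odd_card_of_char_ne_two fun h => two_ne_of_six h6
      (by exact_mod_cast (ringChar.spec k 2).2 (h ▸ dvd_rfl)))
    rw [← ZMod.natCast_mod, h1, Nat.cast_one]

omit [IsSepClosure (RatFunc k) Ω] in
/-- subtracting a smooth coboundary -/
theorem RecipB_sub (h6 : ((mo : ℕ) : k) ≠ 0) (ℓ : Locs k Ω) {θ : WG k Ω → WG k Ω → F2}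
    (hs : (pre ℓ).Sm2 θ) (hθ : IsCoc2 θ) {b : WG k Ω → F2} (hb : (pre ℓ).Sm b) :
    (pre ℓ).Sm2 (fun g h => θ g h - (b g + b h - b (g * h))) ∧
      IsCoc2 (fun g h => θ g h - (b g + b h - b (g * h))) ∧
      ∀ v, (pre ℓ).inv v (fun g h => θ g h - (b g + b h - b (g * h))) = (pre ℓ).inv v θ := by
  obtain ⟨U, hU, h1⟩ := hs
  obtain ⟨U', hU', h2⟩ := hb
  have hU0 : Adm U := hU
  have hU1 : Adm U' := hU'
  refine ⟨⟨U ⊓ U', hU0.inf hU1, fun g h u hu u' hu' => ?_⟩, fun g h l => ?_, fun v => ?_⟩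
  · have e : g * u * (h * u') = g * h * (h⁻¹ * u * h * u') := by group
    simp only
    rw [h1 g h u hu.1 u' hu'.1, h2 g u hu.2, h2 h u' hu'.2, e,
      h2 _ _ (mul_mem (hU1.normal.conj_mem' u hu.2 h) hu'.2)]
  · have := hθ g h l
    simp only [mul_assoc]
    linear_combination this
  · have hQ : ((pre ℓ).Q v : F2) = 1 := by
      change ((Fintype.card k ^ pdg v : ℕ) : F2) = 1
      rw [Nat.cast_pow, RecipB_card h6, one_pow]
    have hQ1 : 1 ≤ (pre ℓ).Q v := Nat.one_le_pow _ _ Fintype.card_pos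
    have hr : b ((pre ℓ).σ v * (pre ℓ).τ v) = b ((pre ℓ).τ v ^ (pre ℓ).Q v * (pre ℓ).σ v) := by
      have := h2 ((ℓ v).σ * (ℓ v).τ) _ ((ℓ v).rel U' hU1)
      rw [mul_inv_cancel_left] at this
      exact this.symm
    have h3 := RecipB_tel (fun i => b ((pre ℓ).τ v ^ i)) (b ((pre ℓ).τ v)) hQ1
    simp only [Pre.inv, Finset.sum_sub_distrib (f := fun i => θ ((pre ℓ).τ v ^ i) ((pre ℓ).τ v)),
      ← pow_succ, h3, hr, hQ, pow_one]
    ring

omit [IsSepClosure (RatFunc k) Ω] in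
/-- the invariant of a cocycle vanishing on the geometric group -/
theorem RecipB_inv (ℓ : Locs k Ω) {θ : WG k Ω → WG k Ω → F2} (hs : (pre ℓ).Sm2 θ) (hθ : IsCoc2 θ)
    (h0 : ∀ g h, wdeg g = 0 → wdeg h = 0 → θ g h = 0) (v : Pl k) :
    (pre ℓ).inv v θ = ∑ i ∈ Finset.range (pdg v),
      RecipB_H θ (ℓ none).σ ((ℓ none).σ ^ (i : ℤ) * (ℓ v).τ * (ℓ none).σ ^ (-(i : ℤ))) := by
  obtain ⟨U, hU, h1⟩ := hs
  have hU0 : Adm U := hU
  have hτ : wdeg (ℓ v).τ = 0 := (ℓ v).deg_τ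
  have e1 : (ℓ v).σ = ((ℓ v).σ * ((ℓ none).σ ^ pdg v)⁻¹) * (ℓ none).σ ^ pdg v := by group
  have d1 : wdeg ((ℓ v).σ * ((ℓ none).σ ^ pdg v)⁻¹) = 0 := by
    rw [wdeg_mul, wdeg_inv, wdeg_pow, RecipB_deg_inf, (ℓ v).deg_σ]
    ring
  have e2 : RecipB_H θ (ℓ v).σ (ℓ v).τ = RecipB_H θ ((ℓ none).σ ^ pdg v) (ℓ v).τ := by
    conv_lhs => rw [e1]
    rw [RecipB_H_mul hθ, RecipB_H, h0 _ _ d1 (RecipB_conj_deg _ hτ),
      h0 _ _ (RecipB_conj_deg _ (RecipB_conj_deg _ hτ)) d1, sub_self, zero_add]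
  rw [← RecipB_H_pow hθ, ← e2]
  have e3 : (ℓ v).τ ^ Fintype.card k ^ pdg v = (ℓ v).σ * (ℓ v).τ * (ℓ v).σ⁻¹ *
      ((ℓ v).σ * (((ℓ v).σ * (ℓ v).τ)⁻¹ * ((ℓ v).τ ^ Fintype.card k ^ pdg v * (ℓ v).σ)) *
        (ℓ v).σ⁻¹) := by group
  have e4 : θ ((ℓ v).τ ^ Fintype.card k ^ pdg v) (ℓ v).σ =
      θ ((ℓ v).σ * (ℓ v).τ * (ℓ v).σ⁻¹) (ℓ v).σ := by
    have := h1 ((ℓ v).σ * (ℓ v).τ * (ℓ v).σ⁻¹) (ℓ v).σ _
      (hU0.normal.conj_mem _ ((ℓ v).rel U hU0) (ℓ v).σ) 1 (one_mem _)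
    rw [← e3, mul_one] at this
    exact this
  have e5 : ∑ i ∈ Finset.Ico 1 (Fintype.card k ^ pdg v), θ ((ℓ v).τ ^ i) (ℓ v).τ = 0 :=
    Finset.sum_eq_zero fun i _ => h0 _ _ (by rw [wdeg_pow, hτ, mul_zero]) hτ
  change θ (ℓ v).σ (ℓ v).τ - θ ((ℓ v).τ ^ Fintype.card k ^ pdg v) (ℓ v).σ -
    ∑ i ∈ Finset.Ico 1 (Fintype.card k ^ pdg v), θ ((ℓ v).τ ^ i) (ℓ v).τ = _
  rw [e4, e5, sub_zero, RecipB_H]

omit [IsSepClosure (RatFunc k) Ω] in
theorem RecipB_ne {r : Ω} {b : RatFunc (Kb k Ω)} (hr : r ≠ 0) (hb : r ^ 2 = jK k Ω b) : b ≠ 0 := by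
    rintro rfl
    rw [map_zero] at hb
    exact pow_ne_zero 2 hr hb

/-- the order of a geometric function at a constant, modulo two -/
noncomputable def RecipB_ord (b : RatFunc (Kb k Ω)) (y : Kb k Ω) : F2 :=
  (b.num.rootMultiplicity y : F2) - (b.denom.rootMultiplicity y : F2)

theorem RecipB_kum_fin (h6 : ((mo : ℕ) : k) ≠ 0) (ℓ : Locs k Ω) {r : Ω} {b : RatFunc (Kb k Ω)}
    (hr : r ≠ 0) (hb : r ^ 2 = jK k Ω b) {v : Pl k} (hv : v ≠ none) (i : ℤ) :
    kum r (gal ((ℓ none).σ ^ i * (ℓ v).τ * (ℓ none).σ ^ (-i))) =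
      RecipB_ord b ((frob k Ω ^ i) (ℓ v).x) := by
  have hb0 := RecipB_ne hr hb
  have hd : wdeg ((ℓ none).σ ^ (-i)) = -i := by rw [wdeg_zpow, RecipB_deg_inf, mul_one]
  have key : ∀ p : Polynomial (Kb k Ω), p ≠ 0 →
      (ℓ v).w (gal ((ℓ none).σ ^ (-i)) (Polynomial.aeval (tt k Ω) p)) =
        2 ^ (-(p.rootMultiplicity ((frob k Ω ^ i) (ℓ v).x) : ℤ)) := fun p hp => by
    have hinj : Function.Injective
        ((frob k Ω ^ (-i) : Kb k Ω ≃ₐ[k] Kb k Ω) : Kb k Ω →+* Kb k Ω) := RingHom.injective _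
    rw [gal_aeval, hd, (ℓ v).w_poly hv ((Polynomial.map_ne_zero_iff hinj).2 hp),
      Polynomial.eq_rootMultiplicity_map hinj ((frob k Ω ^ i) (ℓ v).x)]
    congr 4
    change _ = (frob k Ω ^ (-i)) ((frob k Ω ^ i) (ℓ v).x)
    rw [← AlgEquiv.mul_apply, ← zpow_add, neg_add_cancel, zpow_zero, AlgEquiv.one_apply]
  have h1 := ord_conj h6 (ℓ v) hr hb ((ℓ none).σ ^ (-i))
    (n := (b.num.rootMultiplicity ((frob k Ω ^ i) (ℓ v).x) : ℤ) -
      (b.denom.rootMultiplicity ((frob k Ω ^ i) (ℓ v).x) : ℤ)) (by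
      rw [hb, jK_div, map_div₀, map_div₀, key _ (RatFunc.num_ne_zero hb0), key _ b.denom_ne_zero,
        ← zpow_sub₀ two_ne_zero]
      congr 1
      ring)
  rw [← zpow_neg, neg_neg] at h1
  rw [h1, RecipB_ord]
  push_cast
  rfl

theorem RecipB_kum_inf (h6 : ((mo : ℕ) : k) ≠ 0) (ℓ : Locs k Ω) {r : Ω} {b : RatFunc (Kb k Ω)}
    (hr : r ≠ 0) (hb : r ^ 2 = jK k Ω b) :
    kum r (gal (ℓ none).τ) = (b.denom.natDegree : F2) - (b.num.natDegree : F2) := by
  have hb0 := RecipB_ne hr hb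
  have h1 := (ℓ none).kum_tau h6 hr (by rw [hb, geom_fix (ℓ none).deg_τ])
    (n := (b.denom.natDegree : ℤ) - (b.num.natDegree : ℤ)) (by
      rw [hb, jK_div, map_div₀, (ℓ none).w_poly_inf (RatFunc.num_ne_zero hb0),
        (ℓ none).w_poly_inf b.denom_ne_zero, ← zpow_sub₀ two_ne_zero]
      congr 1
      ring)
  rw [h1]
  push_cast
  rfl

/-- the description of all invariants by one geometric function -/
theorem RecipB_main (h6 : ((mo : ℕ) : k) ≠ 0) (ℓ : Locs k Ω) {θ : WG k Ω → WG k Ω → F2}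
    (hs : (pre ℓ).Sm2 θ) (hθ : IsCoc2 θ) (h0 : ∀ g h, wdeg g = 0 → wdeg h = 0 → θ g h = 0) :
    ∃ (r : Ω) (b : RatFunc (Kb k Ω)), r ≠ 0 ∧ r ^ 2 = jK k Ω b ∧
      (∀ g, wdeg g = 0 → kum r (gal g) = RecipB_H θ (ℓ none).σ g) ∧
      (pre ℓ).inv none θ = (b.denom.natDegree : F2) - (b.num.natDegree : F2) ∧
      ∀ v, v ≠ none → (pre ℓ).inv v θ =
        ∑ i ∈ Finset.range (pdg v), RecipB_ord b ((frob k Ω ^ i) (ℓ v).x) := by
  have hinv := RecipB_inv ℓ hs hθ h0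
  obtain ⟨U, hU, h1⟩ := hs
  have hU0 : Adm U := hU
  obtain ⟨r, b, hr, hb, hk⟩ := exists_kummer h6 (RecipB_H θ (ℓ none).σ)
    (fun g g' hg hg' => RecipB_H_add hθ _ _ _ (h0 _ _ hg hg')
      (h0 _ _ (RecipB_conj_deg _ hg) (RecipB_conj_deg _ hg'))) hU0 (fun u hu => by
      have e1 := h1 (ℓ none).σ 1 1 (one_mem _) u hu
      have e2 := h1 1 (ℓ none).σ _ (hU0.normal.conj_mem u hu (ℓ none).σ) 1 (one_mem _)
      rw [mul_one, one_mul] at e1 e2
      rw [RecipB_H, e1, e2, RecipB_one_left hθ, RecipB_one_right hθ, sub_self])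
  refine ⟨r, b, hr, hb, hk, ?_, fun v hv => ?_⟩
  · rw [hinv, ← RecipB_kum_inf h6 ℓ hr hb, hk _ (ℓ none).deg_τ]
    simp [pdg]
  · rw [hinv]
    refine Finset.sum_congr rfl fun i _ => ?_
    rw [← hk, RecipB_kum_fin h6 ℓ hr hb hv, zpow_natCast]
    rw [zpow_neg]
    exact RecipB_conj_deg _ (ℓ v).deg_τ

open scoped Classical in
theorem RecipB_count (ℓ : Locs k Ω) (S : Finset (Pl k)) (hS : none ∉ S) (s : Multiset (Kb k Ω))
    (hs : ∀ y ∈ s, ∃ v ∈ S, ∃ i < pdg v, y = (frob k Ω ^ i) (ℓ v).x) :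
    ∑ v ∈ S, ∑ i ∈ Finset.range (pdg v), s.count ((frob k Ω ^ i) (ℓ v).x) = s.card := by
  induction s using Multiset.induction_on with
  | empty => simp
  | cons a s ih =>
    obtain ⟨v, hv, i, hi, ha⟩ := hs a (Multiset.mem_cons_self _ _)
    have hne : ∀ w ∈ S, w ≠ none := fun w hw h => hS (h ▸ hw)
    simp only [Multiset.count_cons, Finset.sum_add_distrib]
    rw [ih fun y hy => hs y (Multiset.mem_cons_of_mem hy), Multiset.card_cons]
    congr 1
    rw [Finset.sum_eq_single v, Finset.sum_eq_single i, if_pos ha.symm]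
    · intro j hj hji
      rw [if_neg]
      intro h
      exact hji (place_unique ℓ (hne v hv) (hne v hv) (Finset.mem_range.1 hj) hi (h.trans ha)).2
    · intro h
      exact absurd (Finset.mem_range.2 hi) h
    · intro w hw hwv
      refine Finset.sum_eq_zero fun j hj => if_neg fun h => ?_
      exact hwv (place_unique ℓ (hne w hw) (hne v hv) (Finset.mem_range.1 hj) hi (h.trans ha)).1
    · intro h
      exact absurd hv h

/-- a finite set of finite places carrying all roots of a polynomial -/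
theorem RecipB_places (ℓ : Locs k Ω) (s : Multiset (Kb k Ω)) :
    ∃ T : Finset (Pl k), none ∉ T ∧ ∀ y ∈ s, ∃ v ∈ T, ∃ i < pdg v, y = (frob k Ω ^ i) (ℓ v).x := by
  classical
  choose pl ix h1 h2 h3 using exists_place ℓ
  refine ⟨s.toFinset.image pl, fun h => ?_, fun y hy =>
    ⟨pl y, Finset.mem_image_of_mem _ (Multiset.mem_toFinset.2 hy), ix y, h2 y, h3 y⟩⟩
  obtain ⟨y, -, hy⟩ := Finset.mem_image.1 h
  exact h1 y hy

/-- solving the difference equation along Frobenius orbits -/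
theorem RecipB_solve (ℓ : Locs k Ω) (o : Kb k Ω → F2) (s : Multiset (Kb k Ω))
    (hs : ∀ y, o y ≠ 0 → y ∈ s)
    (h0 : ∀ v, v ≠ none → ∑ i ∈ Finset.range (pdg v), o ((frob k Ω ^ i) (ℓ v).x) = 0) :
    ∃ M : Kb k Ω → F2, {y | M y ≠ 0}.Finite ∧ ∀ y, M (frob k Ω y) - M y = o y := by
  classical
  obtain ⟨T, hT, hT'⟩ := RecipB_places ℓ s
  choose pl ix h1 h2 h3 using exists_place ℓ
  have key : ∀ v, v ≠ none → ∀ i < pdg v,
      pl ((frob k Ω ^ i) (ℓ v).x) = v ∧ ix ((frob k Ω ^ i) (ℓ v).x) = i := fun v hv i hi =>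
    place_unique ℓ (h1 _) hv (h2 _) hi (h3 _).symm
  refine ⟨fun y => ∑ j ∈ Finset.range (ix y), o ((frob k Ω ^ j) (ℓ (pl y)).x), ?_, fun y => ?_⟩
  · refine (T.biUnion fun v => (Finset.range (pdg v)).image
      fun i => (frob k Ω ^ i) (ℓ v).x).finite_toSet.subset fun y hy => ?_
    obtain ⟨j, hj, hj'⟩ := Finset.exists_ne_zero_of_sum_ne_zero hy
    obtain ⟨v, hv, i, hi, e⟩ := hT' _ (hs _ hj')
    have e1 : pl y = v := (place_unique ℓ (h1 y) (fun h => hT (h ▸ hv))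
      ((Finset.mem_range.1 hj).trans (h2 y)) hi e).1
    refine Finset.mem_coe.2 (Finset.mem_biUnion.2 ⟨pl y, e1 ▸ hv, ?_⟩)
    exact Finset.mem_image.2 ⟨ix y, Finset.mem_range.2 (h2 y), (h3 y).symm⟩
  · have e1 : frob k Ω y = (frob k Ω ^ (ix y + 1)) (ℓ (pl y)).x := by
      rw [pow_succ', AlgEquiv.mul_apply, ← h3 y]
    have e2 : ∑ j ∈ Finset.range (ix (frob k Ω y)), o ((frob k Ω ^ j) (ℓ (pl (frob k Ω y))).x) =
        ∑ j ∈ Finset.range (ix y + 1), o ((frob k Ω ^ j) (ℓ (pl y)).x) := by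
      rcases (Nat.succ_le_of_lt (h2 y)).eq_or_lt with h | h
      · have h' : ix y + 1 = pdg (pl y) := h
        have e3 : frob k Ω y = (frob k Ω ^ 0) (ℓ (pl y)).x := by
          rw [e1, h', frob_pdg _ (h1 y), pow_zero, AlgEquiv.one_apply]
        rw [h', h0 _ (h1 y), e3, (key _ (h1 y) 0 (pdg_pos _)).2, Finset.sum_range_zero]
      · obtain ⟨a1, a2⟩ := key _ (h1 y) _ h
        rw [← e1] at a1 a2
        rw [a1, a2]
    simp only
    rw [e2, Finset.sum_range_succ, ← h3 y]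
    ring

/-- reduction to cocycles vanishing on the geometric group -/
theorem RecipB_reduce (h6 : ((mo : ℕ) : k) ≠ 0) (ℓ : Locs k Ω) {θ : WG k Ω → WG k Ω → F2}
    (hs : (pre ℓ).Sm2 θ) (hθ : IsCoc2 θ) :
    ∃ b : WG k Ω → F2, (pre ℓ).Sm b ∧
      ∀ g h, wdeg g = 0 → wdeg h = 0 → θ g h - (b g + b h - b (g * h)) = 0 := by
  obtain ⟨U, hU, h1⟩ := hs
  obtain ⟨b, U', hU', h2, h3⟩ := h2_geom h6 θ hU h1 hθ
  exact ⟨b, ⟨U', hU', h2⟩, fun g h hg hh => sub_eq_zero.2 (h3 g h hg hh)⟩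

omit [IsSepClosure (RatFunc k) Ω] in
/-- the last step of the Hasse principle -/
theorem RecipB_split (ℓ : Locs k Ω) {θ : WG k Ω → WG k Ω → F2} (hs : (pre ℓ).Sm2 θ)
    (hθ : IsCoc2 θ) (h0 : ∀ g h, wdeg g = 0 → wdeg h = 0 → θ g h = 0)
    (hH : ∀ u, wdeg u = 0 → RecipB_H θ (ℓ none).σ u = 0) :
    ∃ b : WG k Ω → F2, (pre ℓ).Sm b ∧ ∀ g h, θ g h = b g + b h - b (g * h) := by
  obtain ⟨U, hU, h1⟩ := hs
  have hU0 : Adm U := hU
  obtain ⟨φ, hφ⟩ : ∃ φ, φ = (ℓ none).σ := ⟨_, rfl⟩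
  have hd : ∀ n : ℤ, wdeg (φ ^ n) = n := fun n => by rw [wdeg_zpow, hφ, RecipB_deg_inf, mul_one]
  rw [← hφ] at hH
  have hH' : ∀ (n : ℤ) u, wdeg u = 0 → RecipB_H θ (φ ^ n) u = 0 := fun n u hu => by
    have step : ∀ n : ℤ, RecipB_H θ (φ ^ (n + 1)) u = RecipB_H θ (φ ^ n) u := fun n => by
      rw [add_comm, zpow_one_add, RecipB_H_mul hθ, hH _ (RecipB_conj_deg _ hu), zero_add]
    induction n using Int.induction_on with
    | zero => rw [zpow_zero, RecipB_H_one hθ]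
    | succ n ih => rw [step, ih]
    | pred n ih => rw [← step, sub_add_cancel, ih]
  obtain ⟨β, hβ⟩ := RecipB_cyclic hθ φ
  refine ⟨fun g => β (wdeg g) - θ (g * (φ ^ wdeg g)⁻¹) (φ ^ wdeg g),
    ⟨U, hU, fun g u hu => ?_⟩, fun g h => ?_⟩
  · have e1 : wdeg (g * u) = wdeg g := by rw [wdeg_mul, hU0.le hu, add_zero]
    have e2 : g * u * (φ ^ wdeg g)⁻¹ =
        g * (φ ^ wdeg g)⁻¹ * (φ ^ wdeg g * u * (φ ^ wdeg g)⁻¹) := by group
    have e3 := h1 (g * (φ ^ wdeg g)⁻¹) (φ ^ wdeg g) _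
      (hU0.normal.conj_mem u hu (φ ^ wdeg g)) 1 (one_mem _)
    rw [mul_one] at e3
    simp only
    rw [e1, e2, e3]
  · have dz : ∀ g : WG k Ω, wdeg (g * (φ ^ wdeg g)⁻¹) = 0 := fun g => by
      rw [wdeg_mul, wdeg_inv, hd, add_neg_cancel]
    have c := RecipB_final hθ (g * (φ ^ wdeg g)⁻¹) (h * (φ ^ wdeg h)⁻¹) (φ ^ wdeg g) (φ ^ wdeg h)
      (h0 _ _ (dz g) (RecipB_conj_deg _ (dz h))) (hH' _ _ (dz h))
    have e1 : g * (φ ^ wdeg g)⁻¹ * (φ ^ wdeg g * (h * (φ ^ wdeg h)⁻¹) * (φ ^ wdeg g)⁻¹) =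
        g * h * (φ ^ (wdeg g + wdeg h))⁻¹ := by
      rw [zpow_add, mul_inv_rev]
      simp only [mul_assoc, inv_mul_cancel_left]
    rw [inv_mul_cancel_right, inv_mul_cancel_right, e1, ← zpow_add, hβ] at c
    simp only [wdeg_mul]
    linear_combination c

theorem recip (h6 : ((mo : ℕ) : k) ≠ 0) (ℓ : Locs k Ω) (θ : WG k Ω → WG k Ω → F2)
    (hs : (pre ℓ).Sm2 θ) (hθ : IsCoc2 θ) (S : Finset (Pl k))
    (hS : ∀ v ∉ S, (pre ℓ).inv v θ = 0) : ∑ v ∈ S, (pre ℓ).inv v θ = 0 := by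
  classical
  obtain ⟨b0, hb0, h0⟩ := RecipB_reduce h6 ℓ hs hθ
  obtain ⟨hs', hθ', hi⟩ := RecipB_sub h6 ℓ hs hθ hb0
  obtain ⟨r, b, hr, hb, -, hinf, hfin⟩ := RecipB_main h6 ℓ hs' hθ' h0
  simp only [hi] at hinf hfin
  obtain ⟨T, hT, hT'⟩ := RecipB_places ℓ (b.num.roots + b.denom.roots)
  have hn : (none : Pl k) ∉ (S ∪ T).erase none := Finset.notMem_erase _ _
  have hsub : S ⊆ insert none ((S ∪ T).erase none) := fun v hv => by
    by_cases h : v = none
    · exact h ▸ Finset.mem_insert_self _ _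
    · exact Finset.mem_insert_of_mem (Finset.mem_erase.2 ⟨h, Finset.mem_union_left _ hv⟩)
  have hc : ∀ p : Polynomial (Kb k Ω), (∀ y ∈ p.roots, y ∈ b.num.roots + b.denom.roots) →
      ∑ v ∈ (S ∪ T).erase none, ∑ i ∈ Finset.range (pdg v),
        (p.rootMultiplicity ((frob k Ω ^ i) (ℓ v).x) : F2) = p.natDegree := fun p hp => by
    have := RecipB_count ℓ _ hn p.roots fun y hy => by
      obtain ⟨v, hv, h⟩ := hT' y (hp y hy)
      exact ⟨v, Finset.mem_erase.2 ⟨fun e => hT (e ▸ hv), Finset.mem_union_right _ hv⟩, h⟩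
    rw [(IsAlgClosed.splits p).natDegree_eq_card_roots, ← this]
    push_cast
    simp only [Polynomial.count_roots]
  rw [Finset.sum_subset hsub fun v _ hv => hS v hv, Finset.sum_insert hn, hinf,
    Finset.sum_congr rfl fun v hv => hfin v (Finset.ne_of_mem_erase hv)]
  simp only [RecipB_ord, Finset.sum_sub_distrib]
  rw [hc _ fun y hy => Multiset.mem_add.2 (Or.inl hy), hc _ fun y hy => Multiset.mem_add.2 (Or.inr hy)]
  ring

theorem hasse (h6 : ((mo : ℕ) : k) ≠ 0) (ℓ : Locs k Ω) (θ : WG k Ω → WG k Ω → F2)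
    (hs : (pre ℓ).Sm2 θ) (hθ : IsCoc2 θ) (h0 : ∀ v, (pre ℓ).inv v θ = 0) :
    ∃ b : WG k Ω → F2, (pre ℓ).Sm b ∧ ∀ g h, θ g h = b g + b h - b (g * h) := by
    classical
    obtain ⟨b0, hb0, hz⟩ := RecipB_reduce h6 ℓ hs hθ
    obtain ⟨hs', hθ', hi⟩ := RecipB_sub h6 ℓ hs hθ hb0
    obtain ⟨θ', hθe⟩ : ∃ θ' : WG k Ω → WG k Ω → F2,
        θ' = fun g h => θ g h - (b0 g + b0 h - b0 (g * h)) := ⟨_, rfl⟩
    have hz' : ∀ g h, wdeg g = 0 → wdeg h = 0 → θ' g h = 0 := by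
      rw [hθe]
      exact hz
    rw [← hθe] at hs' hθ' hi
    obtain ⟨r, b, hr, hb, hk, -, hfin⟩ := RecipB_main h6 ℓ hs' hθ' hz'
    have hbne := RecipB_ne hr hb
    obtain ⟨M, hM, hM'⟩ := RecipB_solve ℓ (RecipB_ord b) (b.num.roots + b.denom.roots)
      (fun y hy => by
        by_contra hc
        rw [Multiset.mem_add, not_or] at hc
        apply hy
        rw [RecipB_ord, ← Polynomial.count_roots, ← Polynomial.count_roots,
          Multiset.count_eq_zero_of_notMem hc.1, Multiset.count_eq_zero_of_notMem hc.2, sub_self])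
      (fun v hv => by rw [← hfin v hv, hi, h0])
    obtain ⟨p, hp, hp'⟩ := RecipB_exists_poly M hM
    obtain ⟨s, hs3⟩ : ∃ s : Ω, s ^ 2 = jK k Ω (algebraMap _ _ p) := ⟨_, sqr_spec h6 _⟩
    have hs0 : s ≠ 0 := by
      rintro rfl
      rw [zero_pow two_ne_zero, eq_comm, map_eq_zero] at hs3
      exact RatFunc.algebraMap_ne_zero hp hs3
    have hord : ∀ y, RecipB_ord (algebraMap _ (RatFunc (Kb k Ω)) p) y = M y := fun y => by
      rw [RecipB_ord, RatFunc.num_algebraMap, RatFunc.denom_algebraMap, hp', ← Polynomial.C_1,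
        Polynomial.rootMultiplicity_C, Nat.cast_zero, sub_zero]
    have hadd : ∀ {t : Ω} {c : RatFunc (Kb k Ω)}, t ≠ 0 → t ^ 2 = jK k Ω c → ∀ g g' : WG k Ω,
        wdeg g = 0 → wdeg g' = 0 → kum t (gal (g * g')) = kum t (gal g) + kum t (gal g') :=
      fun ht hc g g' hg hg' => by
        rw [map_mul, kum_mul h6 ht (by rw [hc, geom_fix hg]) (by rw [hc, geom_fix hg'])]
    have hker : ∀ {t : Ω} (u : WG k Ω), gal u t = t → kum t (gal u) = 0 :=
      fun u hu => kum_eq_zero_iff.2 hu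
    obtain ⟨U1, hU1, hf1⟩ := adm_kum h6 hb
    obtain ⟨U2, hU2, hf2⟩ := adm_kum h6 hs3
    have hD := uniq_geom h6 ℓ (fun u => kum r (gal u) -
        (kum s (gal ((ℓ none).σ * u * (ℓ none).σ⁻¹)) - kum s (gal u)))
      (fun g g' hg hg' => by
        have e : (ℓ none).σ * (g * g') * (ℓ none).σ⁻¹ =
            (ℓ none).σ * g * (ℓ none).σ⁻¹ * ((ℓ none).σ * g' * (ℓ none).σ⁻¹) := by group
        rw [e, hadd hr hb g g' hg hg', hadd hs0 hs3 g g' hg hg',
          hadd hs0 hs3 _ _ (RecipB_conj_deg _ hg) (RecipB_conj_deg _ hg')]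
        ring)
      (hU1.inf hU2) (fun u hu => by
        rw [hker u (hf1 u hu.1), hker u (hf2 u hu.2),
          hker _ (hf2 _ (hU2.normal.conj_mem u hu.2 _))]
        ring)
      (fun v hv i => by
        have e : (ℓ none).σ * ((ℓ none).σ ^ i * (ℓ v).τ * (ℓ none).σ ^ (-i)) * (ℓ none).σ⁻¹ =
            (ℓ none).σ ^ (1 + i) * (ℓ v).τ * (ℓ none).σ ^ (-(1 + i)) := by group
        rw [e, RecipB_kum_fin h6 ℓ hr hb hv, RecipB_kum_fin h6 ℓ hs0 hs3 hv,
          RecipB_kum_fin h6 ℓ hs0 hs3 hv, hord, hord, zpow_one_add, AlgEquiv.mul_apply, hM', sub_self])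
    have hb1 : (pre ℓ).Sm fun g => if wdeg g = 0 then -kum s (gal g) else 0 := by
      refine ⟨U2, hU2, fun g u hu => ?_⟩
      have hu0 : wdeg u = 0 := hU2.le hu
      simp only [wdeg_mul, hu0, add_zero]
      split_ifs with hg
      · rw [hadd hs0 hs3 g u hg hu0, hker u (hf2 u hu), add_zero]
      · rfl
    obtain ⟨hs2, hθ2, -⟩ := RecipB_sub h6 ℓ hs' hθ' hb1
    obtain ⟨b2, hb2, he⟩ := RecipB_split ℓ hs2 hθ2
      (fun g h hg hh => by
        rw [hz' g h hg hh, if_pos hg, if_pos hh, if_pos (by rw [wdeg_mul, hg, hh, add_zero]),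
          hadd hs0 hs3 g h hg hh]
        ring)
      (fun u hu => by
        have e1 := hD u hu
        have e2 := hk u hu
        have e3 : (ℓ none).σ * u * (ℓ none).σ⁻¹ * (ℓ none).σ = (ℓ none).σ * u := by group
        unfold RecipB_H at e2 ⊢
        simp only at e1 ⊢
        rw [e3, if_pos hu, if_pos (RecipB_conj_deg _ hu)]
        linear_combination e1 - e2)
    obtain ⟨V0, hV0, a0⟩ := hb0
    obtain ⟨V1, hV1, a1⟩ := hb1
    obtain ⟨V2, hV2, a2⟩ := hb2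
    refine ⟨fun g => b0 g + (if wdeg g = 0 then -kum s (gal g) else 0) + b2 g,
      ⟨V0 ⊓ V1 ⊓ V2, Adm.inf (Adm.inf hV0 hV1) hV2, fun g u hu => ?_⟩, fun g h => ?_⟩
    · have := a1 g u hu.1.2
      simp only at this ⊢
      rw [a0 g u hu.1.1, this, a2 g u hu.2]
    · have e1 := he g h
      have e2 : θ' g h = θ g h - (b0 g + b0 h - b0 (g * h)) := by rw [hθe]
      linear_combination e1 - e2

end Pool.Agent.Hyp
end

-- merged part: Pool.Agent.Work.MP_60d5ce_nt.Hy.TameF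
section
/-!
# The tame data of `k(t)`
-/

namespace Pool.Agent.Hyp

open Pool.Agent.Quad

variable [Par]

variable {k : Type} [Field k] [Fintype k] {Ω : Type} [Field Ω] [Algebra (RatFunc k) Ω]
  [Algebra k Ω] [IsScalarTower k (RatFunc k) Ω] [IsSepClosure (RatFunc k) Ω]

theorem card_mod (h6 : ((mo : ℕ) : k) ≠ 0) : Fintype.card k % 2 = 1 :=
  FiniteField.odd_card_of_char_ne_two fun h => two_ne_of_six h6 (by
    have := ringChar.spec k 2
    rw [h] at this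
    exact_mod_cast this.2 dvd_rfl)

theorem card_ge (h6 : ((mo : ℕ) : k) ≠ 0) : 4 ≤ Fintype.card k := by
  have h1 := card_mod h6
  have h2 : 1 < Fintype.card k := Fintype.one_lt_card
  have h3 : Fintype.card k ≠ 3 := fun h => three_ne_of_six h6 (by
    have := FiniteField.cast_card_eq_zero k
    rw [h] at this
    exact_mod_cast this)
  omega

/-- the tame data -/
noncomputable def tame (h6 : ((mo : ℕ) : k) ≠ 0) (ℓ : Locs k Ω) : Tame (WG k Ω) (Pl k) where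
  toPre := pre ℓ
  q_mod := card_mod h6
  q_ge := card_ge h6
  dg_pos := pdg_pos
  dg_fin := pdg_fin
  dg_inf := rfl
  deg_σ v := (ℓ v).deg_σ
  deg_τ v := (ℓ v).deg_τ
  adm_G0 := adm_WG0
  adm_normal _ h := Adm.normal h
  adm_le _ h := Adm.le h
  adm_inf _ _ h h' := Adm.inf h h'
  adm_mono _ _ h h1 h2 h3 := Adm.mono h h1 h2 h3
  adm_index _ h := Adm.index h
  rel U h v := (ℓ v).rel U h
  fin _ h := tau_fin ℓ h
  χ := chi ℓ
  χ_hom := chi_hom h6 ℓ
  χ_self := chi_self h6 ℓ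
  χ_ne := chi_ne h6 ℓ
  χ_inf := chi_inf ℓ
  uniq := uniq_hom h6 ℓ
  recip := recip h6 ℓ
  hasse := hasse h6 ℓ
  cheb U hU N hN A hA hτ E hE hc e he J _ _ z hz θ hθ :=
    cheb h6 (card_ge h6) ℓ U hU N hN A hA hτ E hE hc e he J z hz θ hθ
  pnt := pnt

end Pool.Agent.Hyp
end
end

-- merged part: Pool.Agent.Work.MP_60d5ce_nt.Hy.Dens
section
-- merged part: Pool.Agent.Work.MP_60d5ce_nt.Hy.StatA
section
/-!
# Factorisation types of polynomials over a finite field: definitions and basic counts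

Hints.
* `card_dvd`: `d ↦ g * d` is a bijection from `Pn (n - deg g)` onto the multiples of `g` in `Pn n`.
* `decomp`: for `d` of good type put `d0 = C (leadingCoeff d) * ∏ pl v ^ mult d v` over the `v` of degree
  less than `e0`, and `𝓔` the set of degrees of the other prime factors.  The sets
  `{d0 * ∏ pl (p i) | p ∈ BoxP 𝓔}` for the pairs `(d0, 𝓔)` that occur are disjoint subsets of `Pn n`,
  each in bijection with `BoxP 𝓔` (`fac_box`).
-/

namespace Pool.Agent.Hyp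

open Pool.Agent.Quad

variable [Par]

open scoped Classical
open Polynomial

noncomputable section

variable {k : Type} [Field k] [Fintype k]

/-- the polynomial of a finite place -/
def pl : Pl k → k[X]
  | none => 1
  | some p => p.1

/-- the multiplicity of a place in a polynomial -/
def mult (d : k[X]) : Pl k → ℕ
  | none => 0
  | some p => multiplicity p.1 d

/-- the prime factors -/
def fac (d : k[X]) : Finset (Pl k) :=
  if h : {v | mult d v ≠ 0}.Finite then h.toFinset else ∅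

variable (k) in
/-- nonzero polynomials of degree `n` -/
def Pn (n : ℕ) : Set k[X] := {d | d ≠ 0 ∧ d.natDegree = n}

/-- good factorisation types -/
structure GT (e0 A n : ℕ) (d : k[X]) : Prop where
  one : ∀ v ∈ fac d, e0 ≤ pdg v → mult d v = 1
  inj : ∀ v ∈ fac d, ∀ v' ∈ fac d, e0 ≤ pdg v → pdg v = pdg v' → v = v'
  few : ∀ e, e0 ≤ e → 2 ^ ((fac d).filter fun v => pdg v ≤ e).card ≤ e ^ 4
  many : A ≤ ((fac d).filter fun v => n ≤ pdg v ^ 2 ∧ pdg v % 2 = 1).card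

variable (k) in
/-- one finite place in each degree -/
def BoxP (𝓔 : Finset ℕ) : Set (𝓔 → Pl k) := {p | ∀ i, pdg (p i) = i ∧ p i ≠ none}

theorem natDegree_pl {v : Pl k} (hv : v ≠ none) : (pl v).natDegree = pdg v := by
  cases v with
  | none => exact absurd rfl hv
  | some p => rfl

theorem monic_pl (v : Pl k) : (pl v).Monic := by
  cases v with
  | none => exact monic_one
  | some p => exact p.2.1

theorem StatA_ne_zero_iff (d : k[X]) (v : Pl k) : mult d v ≠ 0 ↔ v ≠ none ∧ pl v ∣ d := by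
  cases v with
  | none => simp [mult]
  | some p => simp [mult, pl, multiplicity_eq_zero]

theorem StatA_fin {d : k[X]} (hd : d ≠ 0) : {v | mult d v ≠ 0}.Finite := by
  refine ((Set.finite_Iic d.natDegree).biUnion fun e _ => pdg_fin (k := k) e).subset fun v hv => ?_
  obtain ⟨h1, h2⟩ := (StatA_ne_zero_iff d v).1 hv
  refine Set.mem_biUnion (x := pdg v) ?_ rfl
  rw [Set.mem_Iic, ← natDegree_pl h1]
  exact natDegree_le_of_dvd h2 hd

theorem mem_fac {d : k[X]} (hd : d ≠ 0) {v : Pl k} : v ∈ fac d ↔ mult d v ≠ 0 := by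
  rw [fac, dif_pos (StatA_fin hd), Set.Finite.mem_toFinset]
  rfl

theorem mem_fac_iff {d : k[X]} (hd : d ≠ 0) {v : Pl k} : v ∈ fac d ↔ v ≠ none ∧ pl v ∣ d := by
  rw [mem_fac hd, StatA_ne_zero_iff]

theorem mult_mul {a b : k[X]} (ha : a ≠ 0) (hb : b ≠ 0) (v : Pl k) :
    mult (a * b) v = mult a v + mult b v := by
  cases v with
  | none => rfl
  | some p =>
    exact multiplicity_mul p.2.2.prime
      (FiniteMultiplicity.of_prime_left p.2.2.prime (mul_ne_zero ha hb))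

theorem mult_pl {v : Pl k} (hv : v ≠ none) (w : Pl k) :
    mult (pl v) w = if w = v then 1 else 0 := by
  cases v with
  | none => exact absurd rfl hv
  | some p =>
    cases w with
    | none => simp [mult]
    | some q =>
      by_cases h : q = p
      · subst h
        rw [if_pos rfl]
        exact multiplicity_self
      · rw [if_neg (fun e => h (Option.some_injective _ e))]
        refine multiplicity_eq_zero.2 fun hd => h (Subtype.ext ?_)
        exact eq_of_monic_of_associated q.2.1 p.2.1 (q.2.2.associated_of_dvd p.2.2 hd)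

theorem StatA_mult_unit {d : k[X]} (hd : IsUnit d) (v : Pl k) : mult d v = 0 := by
  cases v with
  | none => rfl
  | some p => exact multiplicity_eq_zero.2 fun h => p.2.2.not_isUnit (isUnit_of_dvd_unit h hd)

theorem StatA_mult_prod {ι : Type} (s : Finset ι) (f : ι → k[X]) (hf : ∀ i, f i ≠ 0) (v : Pl k) :
    mult (∏ i ∈ s, f i) v = ∑ i ∈ s, mult (f i) v := by
  induction s using Finset.induction_on with
  | empty => simpa using StatA_mult_unit isUnit_one v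
  | insert a s ha ih =>
    rw [Finset.prod_insert ha, Finset.sum_insert ha,
      mult_mul (hf a) (Finset.prod_ne_zero_iff.2 fun i _ => hf i), ih]

theorem StatA_mult_pow {a : k[X]} (ha : a ≠ 0) (m : ℕ) (v : Pl k) :
    mult (a ^ m) v = m * mult a v := by
  have := StatA_mult_prod (Finset.range m) (fun _ => a) (fun _ => ha) v
  simpa using this

theorem StatA_prod (n : ℕ) : ∀ d : k[X], d ≠ 0 → d.natDegree = n → ∀ S : Finset (Pl k),
    (∀ v, mult d v ≠ 0 → v ∈ S) → d = C d.leadingCoeff * ∏ v ∈ S, pl v ^ mult d v := by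
  induction n using Nat.strong_induction_on with
  | _ n ih =>
    intro d hd hn S hS
    by_cases hu : IsUnit d
    · have h0 : d.natDegree = 0 := natDegree_eq_zero_of_isUnit hu
      simp only [StatA_mult_unit hu, pow_zero, Finset.prod_const_one, mul_one]
      rw [leadingCoeff, h0]
      exact eq_C_of_natDegree_eq_zero h0
    · obtain ⟨g, hg1, hg2, e, rfl⟩ := exists_monic_irreducible_factor d hu
      have he : e ≠ 0 := right_ne_zero_of_mul hd
      let w : Pl k := some ⟨g, hg1, hg2⟩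
      have hw : w ≠ none := Option.some_ne_none _
      have hm : ∀ v, mult (g * e) v = (if v = w then 1 else 0) + mult e v := fun v => by
        rw [← mult_pl hw v]
        exact mult_mul hg1.ne_zero he v
      have hlt : e.natDegree < n := by
        rw [← hn, natDegree_mul hg1.ne_zero he]
        have := hg2.natDegree_pos
        omega
      have h1 := ih _ hlt e he rfl S fun v hv => hS v (by rw [hm]; omega)
      have hwS : w ∈ S := hS w (by rw [hm, if_pos rfl]; omega)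
      have h2 : ∏ v ∈ S, pl v ^ (if v = w then 1 else 0) = g := by
        rw [Finset.prod_eq_single w (fun v _ hv => by rw [if_neg hv, pow_zero])
          (fun h => absurd hwS h), if_pos rfl, pow_one]
        rfl
      simp only [hm, pow_add, Finset.prod_mul_distrib, h2]
      rw [leadingCoeff_monic_mul hg1, mul_left_comm, ← h1]

theorem prod_fac {d : k[X]} (hd : d ≠ 0) :
    d = C d.leadingCoeff * ∏ v ∈ fac d, pl v ^ mult d v :=
  StatA_prod _ d hd rfl _ fun _ hv => (mem_fac hd).2 hv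

theorem sum_fac {d : k[X]} (hd : d ≠ 0) : ∑ v ∈ fac d, mult d v * pdg v = d.natDegree := by
  have h := congrArg natDegree (prod_fac hd)
  rw [natDegree_C_mul (leadingCoeff_ne_zero.2 hd),
    natDegree_prod_of_monic _ _ fun v _ => (monic_pl v).pow _] at h
  rw [h]
  refine Finset.sum_congr rfl fun v hv => ?_
  rw [natDegree_pow, natDegree_pl ((mem_fac_iff hd).1 hv).1]

theorem StatA_degreeLT (m : ℕ) :
    (degreeLT k m : Set k[X]).Finite ∧ (degreeLT k m : Set k[X]).ncard = Fintype.card k ^ m := by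
  have e := (degreeLTEquiv k m).toEquiv
  refine ⟨Set.finite_coe_iff.1 (Finite.of_equiv _ e.symm), ?_⟩
  rw [← Nat.card_coe_set_eq]
  refine (Nat.card_congr e).trans ?_
  simp

theorem StatA_Pn (n : ℕ) : Pn k n = (degreeLT k (n + 1) : Set k[X]) \ degreeLT k n := by
  ext d
  simp only [Pn, Set.mem_ofPred_eq, Set.mem_sdiff, SetLike.mem_coe, mem_degreeLT]
  by_cases hd : d = 0
  · subst hd
    simp
  · rw [degree_eq_natDegree hd, Nat.cast_lt, Nat.cast_lt]
    constructor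
    · rintro ⟨_, h⟩
      omega
    · rintro ⟨h1, h2⟩
      exact ⟨hd, by omega⟩

theorem Pn_finite (n : ℕ) : (Pn k n).Finite := by
  rw [StatA_Pn]
  exact (StatA_degreeLT (n + 1)).1.sdiff

theorem Pn_ncard (n : ℕ) : (Pn k n).ncard = (Fintype.card k - 1) * Fintype.card k ^ n := by
  have hs : (degreeLT k n : Set k[X]) ⊆ degreeLT k (n + 1) := fun d hd => by
    rw [SetLike.mem_coe, mem_degreeLT] at hd ⊢
    exact hd.trans (Nat.cast_lt.2 n.lt_succ_self)
  rw [StatA_Pn, Set.ncard_sdiff hs (StatA_degreeLT n).1, (StatA_degreeLT n).2,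
    (StatA_degreeLT (n + 1)).2, Nat.sub_mul, one_mul, pow_succ']

theorem card_dvd_eq {g : k[X]} (hg : g ≠ 0) {n : ℕ} (hn : g.natDegree ≤ n) :
    {d | d ∈ Pn k n ∧ g ∣ d}.ncard * Fintype.card k ^ g.natDegree = (Pn k n).ncard := by
  have h : {d | d ∈ Pn k n ∧ g ∣ d} = (fun e => g * e) '' Pn k (n - g.natDegree) := by
    ext d
    constructor
    · rintro ⟨⟨h0, h1⟩, e, rfl⟩
      have he : e ≠ 0 := right_ne_zero_of_mul h0
      rw [natDegree_mul hg he] at h1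
      exact ⟨e, ⟨he, by omega⟩, rfl⟩
    · rintro ⟨e, ⟨he, h1⟩, rfl⟩
      refine ⟨⟨mul_ne_zero hg he, ?_⟩, dvd_mul_right _ _⟩
      rw [natDegree_mul hg he]
      omega
  rw [h, Set.ncard_image_of_injective _ (mul_right_injective₀ hg), Pn_ncard, Pn_ncard, mul_assoc,
    ← pow_add, Nat.sub_add_cancel hn]

theorem card_dvd {g : k[X]} (hg : g ≠ 0) (n : ℕ) :
    {d | d ∈ Pn k n ∧ g ∣ d}.ncard * Fintype.card k ^ g.natDegree ≤ (Pn k n).ncard := by
  by_cases hn : g.natDegree ≤ n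
  · exact (card_dvd_eq hg hn).le
  · have h : {d | d ∈ Pn k n ∧ g ∣ d} = ∅ := by
      refine Set.eq_empty_of_forall_notMem fun d hd => hn ?_
      rw [← hd.1.2]
      exact natDegree_le_of_dvd hd.2 hd.1.1
    simp [h]

theorem BoxP_finite (𝓔 : Finset ℕ) : (BoxP k 𝓔).Finite :=
  (Set.Finite.pi' fun i : 𝓔 => pdg_fin (k := k) i).subset fun _ hp i => (hp i).1

theorem StatA_box_inj {𝓔 : Finset ℕ} {p p' : 𝓔 → Pl k} (hp : p ∈ BoxP k 𝓔) (hp' : p' ∈ BoxP k 𝓔)
    {i j : 𝓔} (h : p i = p' j) : i = j :=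
  Subtype.ext (by rw [← (hp i).1, ← (hp' j).1, h])

theorem StatA_monic {𝓔 : Finset ℕ} (p : 𝓔 → Pl k) : (∏ i, pl (p i)).Monic :=
  monic_prod_of_monic _ _ fun i _ => monic_pl (p i)

theorem StatA_mult_box {d0 : k[X]} (h0 : d0 ≠ 0) {𝓔 : Finset ℕ} {p : 𝓔 → Pl k}
    (hp : p ∈ BoxP k 𝓔) (v : Pl k) :
    mult (d0 * ∏ i, pl (p i)) v = mult d0 v + ∑ i, if v = p i then 1 else 0 := by
  rw [mult_mul h0 (StatA_monic p).ne_zero, StatA_mult_prod _ _ fun i => (monic_pl (p i)).ne_zero]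
  simp only [mult_pl (hp _).2]

theorem fac_box {e0 : ℕ} {d0 : k[X]} (h0 : d0 ≠ 0) (hs : ∀ v ∈ fac d0, pdg v < e0) {𝓔 : Finset ℕ}
    (hE : ∀ e ∈ 𝓔, e0 ≤ e) {p : 𝓔 → Pl k} (hp : p ∈ BoxP k 𝓔) :
    fac (d0 * ∏ i, pl (p i)) = fac d0 ∪ Finset.univ.image p ∧
      (∀ v ∈ fac d0, mult (d0 * ∏ i, pl (p i)) v = mult d0 v) ∧
      ∀ i, mult (d0 * ∏ i, pl (p i)) (p i) = 1 := by
  have hne : ∀ i, p i ∉ fac d0 := fun i hi => by
    have h1 := hs _ hi
    have h2 := hE i i.2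
    rw [(hp i).1] at h1
    omega
  refine ⟨?_, fun v hv => ?_, fun i => ?_⟩
  · ext v
    rw [mem_fac (mul_ne_zero h0 (StatA_monic p).ne_zero), StatA_mult_box h0 hp, Finset.mem_union,
      mem_fac h0, Finset.mem_image]
    constructor
    · intro h
      by_contra hc
      rw [not_or, not_not, not_exists] at hc
      refine h ?_
      rw [hc.1, zero_add]
      exact Finset.sum_eq_zero fun i _ => if_neg fun e => hc.2 i ⟨Finset.mem_univ _, e.symm⟩
    · rintro (h | ⟨i, _, rfl⟩)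
      · omega
      · have : (if p i = p i then 1 else 0 : ℕ) ≤ ∑ j, if p i = p j then 1 else 0 :=
          Finset.single_le_sum (f := fun j => if p i = p j then 1 else 0)
            (fun _ _ => Nat.zero_le _) (Finset.mem_univ i)
        rw [if_pos rfl] at this
        omega
  · rw [StatA_mult_box h0 hp,
      Finset.sum_eq_zero fun i _ => if_neg fun (e : v = p i) => hne i (e ▸ hv), add_zero]
  · have h1 : mult d0 (p i) = 0 := by
      by_contra h
      exact hne i ((mem_fac h0).2 h)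
    rw [StatA_mult_box h0 hp, h1, zero_add, Finset.sum_eq_single i
      (fun j _ hj => if_neg fun e => hj (StatA_box_inj hp hp e).symm)
      (fun h => absurd (Finset.mem_univ i) h), if_pos rfl]

/-- the small part of a polynomial and the degrees of its other prime factors -/
def StatA_key (e0 : ℕ) (d : k[X]) : k[X] × Finset ℕ :=
  (C d.leadingCoeff * ∏ v ∈ (fac d).filter (fun v => pdg v < e0), pl v ^ mult d v,
    ((fac d).filter fun v => ¬ pdg v < e0).image pdg)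

theorem StatA_key_ne {e0 : ℕ} {d : k[X]} (hd : d ≠ 0) : (StatA_key e0 d).1 ≠ 0 :=
  mul_ne_zero (C_ne_zero.2 (leadingCoeff_ne_zero.2 hd))
    (monic_prod_of_monic _ _ fun v _ => (monic_pl v).pow _).ne_zero

theorem StatA_key_small {e0 : ℕ} {d : k[X]} (hd : d ≠ 0) :
    ∀ v ∈ fac (StatA_key e0 d).1, pdg v < e0 := by
  intro v hv
  rw [mem_fac (StatA_key_ne hd)] at hv
  by_contra hc
  refine hv ?_
  have hC : C d.leadingCoeff ≠ 0 := C_ne_zero.2 (leadingCoeff_ne_zero.2 hd)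
  simp only [StatA_key]
  rw [mult_mul hC (monic_prod_of_monic _ _ fun v _ => (monic_pl v).pow _).ne_zero,
    StatA_mult_unit (isUnit_C.2 (leadingCoeff_ne_zero.2 hd).isUnit), zero_add,
    StatA_mult_prod _ _ fun w => ((monic_pl w).pow _).ne_zero]
  refine Finset.sum_eq_zero fun w hw => ?_
  rw [Finset.mem_filter] at hw
  rw [StatA_mult_pow (monic_pl w).ne_zero, mult_pl ((mem_fac_iff hd).1 hw.1).1,
    if_neg fun (e : v = w) => hc (e ▸ hw.2), mul_zero]

theorem StatA_key_big {e0 : ℕ} (d : k[X]) : ∀ e ∈ (StatA_key e0 d).2, e0 ≤ e := by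
  intro e he
  obtain ⟨v, hv, rfl⟩ := Finset.mem_image.1 he
  exact not_lt.1 (Finset.mem_filter.1 hv).2

theorem StatA_key_ex {e0 A n : ℕ} {d : k[X]} (hd : d ≠ 0) (hG : GT e0 A n d) :
    ∃ p ∈ BoxP k (StatA_key e0 d).2, d = (StatA_key e0 d).1 * ∏ i, pl (p i) := by
  have hex : ∀ i : (StatA_key e0 d).2, ∃ v ∈ (fac d).filter fun v => ¬ pdg v < e0, pdg v = i :=
    fun i => Finset.mem_image.1 i.2
  choose p hp1 hp2 using hex
  have hbox : p ∈ BoxP k (StatA_key e0 d).2 := fun i =>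
    ⟨hp2 i, ((mem_fac_iff hd).1 (Finset.mem_filter.1 (hp1 i)).1).1⟩
  refine ⟨p, hbox, ?_⟩
  have h1 : ∏ i, pl (p i) = ∏ v ∈ (fac d).filter (fun v => ¬ pdg v < e0), pl v ^ mult d v := by
    refine Finset.prod_bij (fun i _ => p i) (fun i _ => hp1 i)
      (fun i _ j _ h => StatA_box_inj hbox hbox h) (fun v hv => ?_) (fun i _ => ?_)
    · refine ⟨⟨pdg v, Finset.mem_image_of_mem _ hv⟩, Finset.mem_univ _, ?_⟩
      have h2 := Finset.mem_filter.1 hv
      have h3 := Finset.mem_filter.1 (hp1 ⟨pdg v, Finset.mem_image_of_mem _ hv⟩)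
      exact hG.inj _ h3.1 _ h2.1 (not_lt.1 h3.2) (hp2 _)
    · have h3 := Finset.mem_filter.1 (hp1 i)
      rw [hG.one _ h3.1 (not_lt.1 h3.2), pow_one]
  rw [h1]
  simp only [StatA_key]
  rw [mul_assoc, Finset.prod_filter_mul_prod_filter_not]
  exact prod_fac hd

theorem StatA_key_box {e0 : ℕ} {d0 : k[X]} (h0 : d0 ≠ 0) (hs : ∀ v ∈ fac d0, pdg v < e0)
    {𝓔 : Finset ℕ} (hE : ∀ e ∈ 𝓔, e0 ≤ e) {p : 𝓔 → Pl k} (hp : p ∈ BoxP k 𝓔) :
    StatA_key e0 (d0 * ∏ i, pl (p i)) = (d0, 𝓔) := by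
  obtain ⟨h1, h2, _⟩ := fac_box h0 hs hE hp
  have hbig : ∀ i, ¬ pdg (p i) < e0 := fun i => by
    rw [(hp i).1]
    exact not_lt.2 (hE i i.2)
  have h3 : (fac (d0 * ∏ i, pl (p i))).filter (fun v => pdg v < e0) = fac d0 := by
    ext v
    rw [Finset.mem_filter, h1, Finset.mem_union, Finset.mem_image]
    constructor
    · rintro ⟨h | ⟨i, _, rfl⟩, h'⟩
      · exact h
      · exact absurd h' (hbig i)
    · exact fun h => ⟨Or.inl h, hs v h⟩
  refine Prod.ext ?_ ?_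
  · simp only [StatA_key]
    rw [h3, leadingCoeff_mul_monic (StatA_monic p), Finset.prod_congr rfl fun v hv => by rw [h2 v hv]]
    exact (prod_fac h0).symm
  · simp only [StatA_key]
    ext e
    rw [Finset.mem_image]
    constructor
    · rintro ⟨v, hv, rfl⟩
      rw [Finset.mem_filter, h1, Finset.mem_union, Finset.mem_image] at hv
      obtain ⟨h | ⟨i, _, rfl⟩, h'⟩ := hv
      · exact absurd (hs v h) h'
      · rw [(hp i).1]
        exact i.2
    · intro he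
      refine ⟨p ⟨e, he⟩, ?_, (hp ⟨e, he⟩).1⟩
      rw [Finset.mem_filter, h1]
      exact ⟨Finset.mem_union_right _ (Finset.mem_image_of_mem _ (Finset.mem_univ _)), hbig _⟩

theorem StatA_deg_box {d0 : k[X]} (h0 : d0 ≠ 0) {𝓔 : Finset ℕ} {p : 𝓔 → Pl k}
    (hp : p ∈ BoxP k 𝓔) : (d0 * ∏ i, pl (p i)).natDegree = d0.natDegree + ∑ i : 𝓔, (i : ℕ) := by
  rw [natDegree_mul h0 (StatA_monic p).ne_zero,
    natDegree_prod_of_monic _ _ fun i _ => monic_pl (p i)]
  simp only [natDegree_pl (hp _).2, (hp _).1]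

theorem StatA_injOn {e0 : ℕ} {d0 : k[X]} (h0 : d0 ≠ 0) (hs : ∀ v ∈ fac d0, pdg v < e0)
    {𝓔 : Finset ℕ} (hE : ∀ e ∈ 𝓔, e0 ≤ e) :
    Set.InjOn (fun p : 𝓔 → Pl k => d0 * ∏ i, pl (p i)) (BoxP k 𝓔) := by
  intro p hp p' hp' h
  funext i
  have h1 : p i ∈ fac (d0 * ∏ i, pl (p i)) := by
    rw [(fac_box h0 hs hE hp).1]
    exact Finset.mem_union_right _ (Finset.mem_image_of_mem _ (Finset.mem_univ _))
  have h' : d0 * ∏ i, pl (p i) = d0 * ∏ i, pl (p' i) := h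
  rw [h', (fac_box h0 hs hE hp').1, Finset.mem_union, Finset.mem_image] at h1
  obtain h2 | ⟨j, _, h2⟩ := h1
  · have h3 := hs _ h2
    have h4 := hE i i.2
    rw [(hp i).1] at h3
    omega
  · rw [← h2, StatA_box_inj hp' hp h2]

theorem decomp (e0 A n : ℕ) (Bad : k[X] → Prop) {ε : ℝ} (hε : 0 ≤ ε)
    (h : ∀ (d0 : k[X]) (𝓔 : Finset ℕ), d0 ≠ 0 → (∀ v ∈ fac d0, pdg v < e0) → (∀ e ∈ 𝓔, e0 ≤ e) →
      (∃ p ∈ BoxP k 𝓔, (d0 * ∏ i, pl (p i)).natDegree = n ∧ GT e0 A n (d0 * ∏ i, pl (p i))) →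
      ({p | p ∈ BoxP k 𝓔 ∧ Bad (d0 * ∏ i, pl (p i))}.ncard : ℝ) ≤ ε * (BoxP k 𝓔).ncard) :
    ({d | d ∈ Pn k n ∧ GT e0 A n d ∧ Bad d}.ncard : ℝ) ≤ ε * (Pn k n).ncard := by
  set P := (Pn_finite (k := k) n).toFinset with hP
  have hmem : ∀ d, d ∈ P ↔ d ∈ Pn k n := fun d => Set.Finite.mem_toFinset _
  set B := P.filter fun d => GT e0 A n d ∧ Bad d with hB
  set K := B.image (StatA_key e0) with hK
  have e1 : {d | d ∈ Pn k n ∧ GT e0 A n d ∧ Bad d} = (B : Set k[X]) := by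
    ext d
    rw [Finset.mem_coe, Finset.mem_filter, hmem]
    rfl
  have e2 : (Pn k n).ncard = P.card := Set.ncard_eq_toFinset_card _ _
  have e3 : B.card = ∑ κ ∈ K, (B.filter fun d => StatA_key e0 d = κ).card :=
    Finset.card_eq_sum_card_fiberwise fun d hd => Finset.mem_image_of_mem _ hd
  have e4 : ∑ κ ∈ K, (P.filter fun d => StatA_key e0 d = κ).card ≤ P.card := by
    rw [Finset.sum_card_fiberwise_eq_card_filter]
    exact Finset.card_filter_le _ _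
  have key : ∀ κ ∈ K, ((B.filter fun d => StatA_key e0 d = κ).card : ℝ) ≤
      ε * (P.filter fun d => StatA_key e0 d = κ).card := by
    intro κ hκ
    obtain ⟨d, hd, rfl⟩ := Finset.mem_image.1 hκ
    obtain ⟨hdP, hdG, _⟩ := Finset.mem_filter.1 hd
    obtain ⟨hd0, hdn⟩ := (hmem d).1 hdP
    have h0 := StatA_key_ne (e0 := e0) hd0
    have hs := StatA_key_small (e0 := e0) hd0
    have hE := StatA_key_big (e0 := e0) d
    obtain ⟨p, hp, hdp⟩ := StatA_key_ex hd0 hdG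
    have h1 := h _ _ h0 hs hE ⟨p, hp, hdp ▸ hdn, hdp ▸ hdG⟩
    have h2 : (B.filter fun d' => StatA_key e0 d' = StatA_key e0 d).card ≤
        {p | p ∈ BoxP k (StatA_key e0 d).2 ∧ Bad ((StatA_key e0 d).1 * ∏ i, pl (p i))}.ncard := by
      rw [← Set.ncard_coe_finset]
      refine (Set.ncard_le_ncard ?_ (((BoxP_finite _).subset fun _ hq => hq.1).image
        fun p => (StatA_key e0 d).1 * ∏ i, pl (p i))).trans
        (Set.ncard_image_le ((BoxP_finite _).subset fun _ hq => hq.1))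
      intro d' hd'
      obtain ⟨hd1, hd2⟩ := Finset.mem_filter.1 (Finset.mem_coe.1 hd')
      obtain ⟨hd3, hd4, hd5⟩ := Finset.mem_filter.1 hd1
      have h3 := StatA_key_ex ((hmem d').1 hd3).1 hd4
      rw [hd2] at h3
      obtain ⟨q, hq, hdq⟩ := h3
      exact ⟨q, ⟨hq, hdq ▸ hd5⟩, hdq.symm⟩
    have h3 : (BoxP k (StatA_key e0 d).2).ncard ≤
        (P.filter fun d' => StatA_key e0 d' = StatA_key e0 d).card := by
      rw [← Set.ncard_coe_finset, ← (StatA_injOn h0 hs hE).ncard_image]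
      refine Set.ncard_le_ncard ?_ (Finset.finite_toSet _)
      rintro _ ⟨q, hq, rfl⟩
      refine Finset.mem_coe.2 (Finset.mem_filter.2 ⟨(hmem _).2
        ⟨mul_ne_zero h0 (StatA_monic q).ne_zero, ?_⟩, StatA_key_box h0 hs hE hq⟩)
      rw [StatA_deg_box h0 hq, ← StatA_deg_box h0 hp, ← hdp, hdn]
    exact (Nat.cast_le.2 h2).trans (h1.trans (mul_le_mul_of_nonneg_left (Nat.cast_le.2 h3) hε))
  rw [e1, Set.ncard_coe_finset, e2, e3, Nat.cast_sum]
  refine (Finset.sum_le_sum key).trans ?_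
  rw [← Finset.mul_sum, ← Nat.cast_sum]
  exact mul_le_mul_of_nonneg_left (Nat.cast_le.2 e4) hε

end

end Pool.Agent.Hyp
end

-- merged part: Pool.Agent.Work.MP_60d5ce_nt.Hy.Rt
section
/-!
# The pencil and its roots  (task HY Rt)

Templates: `Qt/EllDef.lean` (`bp`, `w_base`, `small_fin`), `Lb/DLoc.lean` (`res_bp`, `sigma_pow_res`).
* `disc_eq`: `resultant_deriv`, `resultant_map_map`, `resultant_eq_prod_eval`, `derivative_prod`; `f.natDegree = Fintype.card Z` (`Monic.natDegree_map`).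
* `w_root_le`: if `c < w a` then all the terms `coeff i * a ^ i`, `i < n`, are smaller than `a ^ n` (`IsNonarchimedean.finset_image_add`-like lemmas, or induction).
* `exists_bp`: `fixed_all` with `(ℓ none).σ`; write the element as `num / denom`; a prime factor of `denom` does not divide `num` (`RatFunc.isCoprime_num_denom`), `w_base`.
* `exists_rts`: `f.map (bp Ω)` is separable (split it in the algebraic closure of `Ω` and use `disc_eq`, or `resultant_eq_zero_iff`), so it splits in `Ω` (`IsSepClosed.splits_of_separable`-like); number the roots.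
* `adm`: `adm_core` for the subgroup of the `g` of degree zero with `π g = 1`; `pow_card_eq_one`, `Fintype.card_perm`.
-/

namespace Pool.Agent.Hyp

open scoped Classical
open Pool.Agent.Quad Polynomial

theorem Rt_res {R K : Type} [CommRing R] [Field K] (φ : R →+* K) {f : R[X]} (hm : f.Monic)
    (hd : 0 < f.natDegree) :
    resultant (f.map φ) (derivative (f.map φ)) f.natDegree (f.natDegree - 1) =
      (-1) ^ (f.natDegree * (f.natDegree - 1) / 2) * φ f.discr := by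
  rw [derivative_map, resultant_map_map, resultant_deriv (natDegree_pos_iff_degree_pos.1 hd),
    hm.leadingCoeff]
  simp

theorem Rt_sep {R K : Type} [CommRing R] [Field K] (φ : R →+* K) {f : R[X]} (hm : f.Monic)
    (hd : 0 < f.natDegree) (h0 : φ f.discr ≠ 0) : (f.map φ).Separable := by
  obtain ⟨p, q, -, -, e⟩ := exists_mul_add_mul_eq_C_resultant (m := f.natDegree)
    (n := f.natDegree - 1) (f.map φ) (derivative (f.map φ)) natDegree_map_le
    ((natDegree_derivative_le _).trans (Nat.sub_le_sub_right natDegree_map_le 1)) (Or.inl hd.ne')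
  rw [Rt_res φ hm hd] at e
  have hu : (-1 : K) ^ (f.natDegree * (f.natDegree - 1) / 2) * φ f.discr ≠ 0 :=
    mul_ne_zero (pow_ne_zero _ (neg_ne_zero.2 one_ne_zero)) h0
  generalize (-1 : K) ^ (f.natDegree * (f.natDegree - 1) / 2) * φ f.discr = u at e hu
  refine ⟨C u⁻¹ * p, C u⁻¹ * q, ?_⟩
  have e1 : C u⁻¹ * C u = (1 : K[X]) := by rw [← C_mul, inv_mul_cancel₀ hu, C_1]
  rw [← e1, ← e]
  ring

section na

variable {K : Type} [Field K] {w : AbsoluteValue K ℝ}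

theorem Rt_add_lt (na : IsNonarchimedean w) {a b : K} {M : ℝ} (ha : w a < M) (hb : w b < M) :
    w (a + b) < M :=
  (na a b).trans_lt (max_lt ha hb)

theorem Rt_add_le (na : IsNonarchimedean w) {a b : K} {M : ℝ} (ha : w a ≤ M) (hb : w b ≤ M) :
    w (a + b) ≤ M :=
  (na a b).trans (max_le ha hb)

theorem Rt_trans (na : IsNonarchimedean w) {a b c : K} (h : w (a - b) < 1) (h' : w (b - c) < 1) :
    w (a - c) < 1 := by
  have := Rt_add_lt na h h'
  rwa [sub_add_sub_cancel] at this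

theorem Rt_mul_lt {a b : K} (h : w a < 1) (h' : w b ≤ 1) : w (a * b) < 1 := by
  rw [map_mul]
  exact mul_lt_one_of_nonneg_of_lt_one_left (w.nonneg a) h h'

theorem Rt_pow_sub (na : IsNonarchimedean w) {a b : K} (ha : w a ≤ 1) (hb : w b ≤ 1)
    (h : w (a - b) < 1) (n : ℕ) : w (a ^ n - b ^ n) < 1 := by
  induction n with
  | zero => simp
  | succ n ih =>
    have e : a ^ (n + 1) - b ^ (n + 1) = (a ^ n - b ^ n) * a + (a - b) * b ^ n := by ring
    rw [e]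
    refine Rt_add_lt na (Rt_mul_lt ih ha) (Rt_mul_lt h ?_)
    rw [map_pow]
    exact pow_le_one₀ (w.nonneg b) hb

theorem Rt_sum {ι : Type} (hw : IsNonarchimedean w) (s : Finset ι) (f : ι → K) {B : ℝ}
    (hB : 0 < B) (h : ∀ i ∈ s, w (f i) < B) : w (∑ i ∈ s, f i) < B := by
  induction s using Finset.induction_on with
  | empty => simpa using hB
  | insert a s ha ih =>
    rw [Finset.sum_insert ha]
    exact Rt_add_lt hw (h a (Finset.mem_insert_self _ _))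
      (ih fun i hi => h i (Finset.mem_insert_of_mem hi))

end na

theorem disc_eq {R K Z : Type} [CommRing R] [Field K] [Fintype Z] [Nonempty Z] (φ : R →+* K)
    {f : R[X]} (hm : f.Monic) {α : Z → K} (h : f.map φ = ∏ a, (X - C (α a))) :
    φ f.discr = ∏ a, ∏ b ∈ Finset.univ.erase a, (α a - α b) ∨
      φ f.discr = -∏ a, ∏ b ∈ Finset.univ.erase a, (α a - α b) := by
  have hn : f.natDegree = Fintype.card Z := by
    rw [← hm.natDegree_map φ, h, natDegree_finsetProd_X_sub_C_eq_card, Finset.card_univ]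
  have hd : 0 < f.natDegree := hn ▸ Fintype.card_pos
  have h1 := Rt_res φ hm hd
  have hs : (f.map φ).Splits := h ▸ Splits.prod fun _ _ => Splits.X_sub_C _
  have h2 := resultant_eq_prod_eval (f.map φ) (derivative (f.map φ)) (f.natDegree - 1)
    ((natDegree_derivative_le _).trans (Nat.sub_le_sub_right natDegree_map_le 1)) hs
  have hr : (f.map φ).roots = Finset.univ.val.map α := by
    rw [h, ← roots_multiset_prod_X_sub_C (Finset.univ.val.map α), Multiset.map_map]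
    rfl
  have he : ∀ a, (derivative (f.map φ)).eval (α a) = ∏ b ∈ Finset.univ.erase a, (α a - α b) := by
    intro a
    rw [h, derivative_prod_finset, eval_finsetSum, Finset.sum_eq_single a]
    · simp [eval_prod]
    · intro b _ hb
      rw [eval_mul, eval_prod, Finset.prod_eq_zero (i := a) (by simp [hb.symm]) (by simp), zero_mul]
    · simp
  rw [hm.natDegree_map φ, h1, (hm.map φ).leadingCoeff, one_pow, one_mul, hr, Multiset.map_map] at h2
  have h3 : (Finset.univ.val.map ((fun x => eval x (derivative (f.map φ))) ∘ α)).prod =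
      ∏ a, ∏ b ∈ Finset.univ.erase a, (α a - α b) :=
    Finset.prod_congr rfl fun a _ => he a
  rw [← h3]
  rcases neg_one_pow_eq_or K (f.natDegree * (f.natDegree - 1) / 2) with e | e
  · left
    rw [e, one_mul] at h2
    exact h2
  · right
    rw [e, neg_one_mul, neg_eq_iff_eq_neg] at h2
    exact h2

theorem w_root_le {K : Type} [Field K] {w : AbsoluteValue K ℝ} (hw : IsNonarchimedean w) {p : K[X]}
    (hp : p.Monic) {c : ℝ} (hc : 0 ≤ c) (h : ∀ i < p.natDegree, w (p.coeff i) ≤ c ^ (p.natDegree - i))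
    {a : K} (ha : p.eval a = 0) : w a ≤ c := by
  by_contra hlt
  rw [not_le] at hlt
  have ha0 : 0 < w a := hc.trans_lt hlt
  have e : a ^ p.natDegree = -∑ i ∈ Finset.range p.natDegree, p.coeff i * a ^ i := by
    rw [hp.as_sum] at ha
    simp only [eval_add, eval_pow, eval_X, eval_finsetSum, eval_mul, eval_C] at ha
    exact eq_neg_of_add_eq_zero_left ha
  have h1 : w (∑ i ∈ Finset.range p.natDegree, p.coeff i * a ^ i) < w a ^ p.natDegree := by
    refine Rt_sum hw _ _ (pow_pos ha0 _) fun i hi => ?_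
    have hi' := Finset.mem_range.1 hi
    rw [map_mul, map_pow]
    calc w (p.coeff i) * w a ^ i < w a ^ (p.natDegree - i) * w a ^ i :=
          mul_lt_mul_of_pos_right ((h i hi').trans_lt
            (pow_lt_pow_left₀ hlt hc (Nat.sub_ne_zero_of_lt hi'))) (pow_pos ha0 _)
      _ = w a ^ p.natDegree := by rw [← pow_add, Nat.sub_add_cancel hi'.le]
  rw [← map_pow, e, w.map_neg] at h1
  exact lt_irrefl _ h1

variable [Par] {k : Type} [Field k]

/-- the hypotheses on the pencil -/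
structure Pen (f : k[X][X]) : Prop where
  fac : (2 * gg + 1).factorial ∣ mo
  monic : f.Monic
  deg : f.natDegree = 2 * gg + 1
  sqf : Squarefree f.discr
  pos : 0 < f.discr.natDegree
  inf : ∀ i, (2 * gg + 1) * (2 * gg) * (f.coeff i).natDegree ≤ (2 * gg + 1 - i) * f.discr.natDegree

variable {f : k[X][X]}

theorem Pen.ne (h : Pen f) : f.discr ≠ 0 := h.sqf.ne_zero

omit [Par] in
/-- polynomials in `t` as elements of `Ω` -/
noncomputable def bp (Ω : Type) [Field Ω] [Algebra (RatFunc k) Ω] : k[X] →+* Ω :=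
  (algebraMap (RatFunc k) Ω).comp (algebraMap k[X] (RatFunc k))

variable {Ω : Type} [Field Ω] [Algebra (RatFunc k) Ω]

omit [Par] in
theorem bp_apply (p : k[X]) :
    bp Ω p = algebraMap (RatFunc k) Ω (algebraMap k[X] (RatFunc k) p) := rfl

omit [Par] in
theorem bp_ne {p : k[X]} (hp : p ≠ 0) : bp Ω p ≠ 0 :=
  (_root_.map_ne_zero (algebraMap (RatFunc k) Ω)).2 (RatFunc.algebraMap_ne_zero hp)

omit [Par] in
theorem fix_bp (s : Ω ≃ₐ[RatFunc k] Ω) (p : k[X]) : s (bp Ω p) = bp Ω p := s.commutes _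

variable [Fintype k]

theorem Pen.mult_eq (h : Pen f) {v : Pl k} (hv : v ∈ Hyp.fac f.discr) : mult f.discr v = 1 := by
  have h0 := (mem_fac h.ne).1 hv
  obtain ⟨q, rfl⟩ := Option.ne_none_iff_exists'.1 ((mem_fac_iff h.ne).1 hv).1
  by_contra h1
  have h2 : 2 ≤ multiplicity q.1 f.discr := by
    have e : mult f.discr (some q) = multiplicity q.1 f.discr := rfl
    omega
  have h3 := pow_dvd_of_le_multiplicity h2
  exact q.2.2.not_isUnit (h.sqf q.1 (by rwa [← sq]))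

theorem small_fin (n : ℕ) : {v : Pl k | pdg v ≤ n}.Finite := by
  refine ((Set.finite_le_nat n).biUnion fun e _ => pdg_fin (k := k) e).subset fun v hv => ?_
  exact Set.mem_biUnion hv rfl

/-- the places of small degree -/
noncomputable def badS (f : k[X][X]) : Finset (Pl k) := (small_fin f.discr.natDegree).toFinset

theorem mem_badS {v : Pl k} : v ∈ badS f ↔ pdg v ≤ f.discr.natDegree :=
  (small_fin _).mem_toFinset

theorem Pen.inf_mem (h : Pen f) : none ∈ badS f := mem_badS.2 h.pos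

theorem Pen.fac_sub (h : Pen f) : Hyp.fac f.discr ⊆ badS f := by
  intro v hv
  obtain ⟨h1, h2⟩ := (mem_fac_iff h.ne).1 hv
  rw [mem_badS, ← natDegree_pl h1]
  exact natDegree_le_of_dvd h2 h.ne

theorem none_not_fac (d : k[X]) : none ∉ fac d := by
  unfold fac
  split_ifs with h
  · rw [Set.Finite.mem_toFinset]
    exact fun h0 => h0 rfl
  · exact Finset.notMem_empty _

variable [Algebra k Ω] [IsScalarTower k (RatFunc k) Ω] {v : Pl k}

theorem Rt_le (l : Loc Ω v) (c : Kb k Ω) : l.w c ≤ 1 := by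
  by_cases h : c = 0
  · simp [h]
  · exact (l.w_const c h).le

theorem Loc.sigma_pow_res (l : Loc Ω v) (i : ℕ) {z : Ω} (hz : l.w z ≤ 1) :
    l.w (gal (l.σ ^ i) z - z ^ Fintype.card k ^ (pdg v * i)) < 1 := by
  induction i with
  | zero => simp
  | succ i ih =>
    have h1 : l.w (z ^ Fintype.card k ^ (pdg v * i)) ≤ 1 := by
      rw [map_pow]
      exact pow_le_one₀ (l.w.nonneg z) hz
    have h2 : l.w (gal (l.σ ^ i) z) ≤ 1 := by
      simpa only [sub_add_cancel] using Rt_add_le l.w_na ih.le h1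
    rw [pow_succ', map_mul, AlgEquiv.mul_apply, mul_add_one, pow_add, pow_mul z]
    exact Rt_trans l.w_na (l.σ_res h2) (Rt_pow_sub l.w_na h2 h1 ih _)

theorem Loc.res_bp (l : Loc Ω v) (hv : v ≠ none) (p : k[X]) :
    l.w (bp Ω p - (aeval l.x p : Kb k Ω)) < 1 := by
  have h1 : l.w (tt k Ω - l.x) < 1 := by
    obtain ⟨q, rfl⟩ := Option.ne_none_iff_exists'.1 hv
    exact (l.w_unif : l.w (tt k Ω - l.x) = 2⁻¹).trans_lt (by norm_num)
  have h2 : l.w (tt k Ω) ≤ 1 := by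
    simpa using Rt_add_le l.w_na h1.le (Rt_le l l.x)
  have e : ((aeval l.x p : Kb k Ω) : Ω) = aeval (l.x : Ω) p :=
    (aeval_algebraMap_apply Ω l.x p).symm
  rw [bp_apply, ← aeval_tt_base, e]
  clear e
  induction p using Polynomial.induction_on' with
  | add p q hp hq =>
    rw [map_add, map_add, add_sub_add_comm]
    exact Rt_add_lt l.w_na hp hq
  | monomial n c =>
    rw [aeval_monomial, aeval_monomial, ← mul_sub, mul_comm]
    exact Rt_mul_lt (Rt_pow_sub l.w_na h2 (Rt_le l l.x) h1 n) (Rt_le l (algebraMap k (Kb k Ω) c))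

variable (Ω) in
/-- a numbering of the roots -/
structure Rts (f : k[X][X]) (Z : Type) [Fintype Z] where
  α : Z → Ω
  inj : Function.Injective α
  eq : f.map (bp Ω) = ∏ a, (X - C (α a))
  π : WG k Ω →* Equiv.Perm Z
  gal_α : ∀ g a, gal g (α a) = α (π g a)

variable [IsSepClosure (RatFunc k) Ω]

theorem Loc.w_two (h6 : ((mo : ℕ) : k) ≠ 0) (l : Loc Ω v) : l.w 2 = 1 := by
  exact l.w_const 2 (two_ne_of_six (six_ne_map (algebraMap k (Kb k Ω)) h6))

theorem Loc.w_base (l : Loc Ω v) (hv : v ≠ none) {p : k[X]} (hp : p ≠ 0) :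
    l.w (bp Ω p) = 2 ^ (-(mult p v : ℤ)) := by
  obtain ⟨q, rfl⟩ := Option.ne_none_iff_exists'.1 hv
  have key : ∀ r : k[X], r ≠ 0 → l.w (bp Ω r) =
        2 ^ (-((r.map (algebraMap k (Kb k Ω))).rootMultiplicity l.x : ℤ)) := fun r hr => by
    rw [bp_apply, ← aeval_tt_base, ← aeval_tt_map]
    exact l.w_poly hv (Polynomial.map_ne_zero hr)
  have hfin : FiniteMultiplicity q.1 p :=
    finiteMultiplicity_of_degree_pos_of_monic (degree_pos_of_irreducible q.2.2) q.2.1 hp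
  obtain ⟨r, hr, hqr⟩ := hfin.exists_eq_pow_mul_and_not_dvd
  have hr0 : r ≠ 0 := fun h0 => hqr (h0 ▸ dvd_zero _)
  have h1 : (q.1.map (algebraMap k (Kb k Ω))).rootMultiplicity l.x = 1 := by
    have hs : (q.1.map (algebraMap k (Kb k Ω))).Separable :=
      (PerfectField.separable_of_irreducible q.2.2).map
    have ha := rootMultiplicity_le_one_of_separable hs l.x
    have hb : 0 < (q.1.map (algebraMap k (Kb k Ω))).rootMultiplicity l.x := by
      rw [rootMultiplicity_pos (Polynomial.map_ne_zero q.2.1.ne_zero), IsRoot, eval_map_algebraMap]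
      exact l.root q rfl
    omega
  have h2 : (r.map (algebraMap k (Kb k Ω))).rootMultiplicity l.x = 0 := by
    refine rootMultiplicity_eq_zero ?_
    rw [IsRoot, eval_map_algebraMap]
    intro h0
    exact hqr (by rw [galloc_min l]; exact minpoly.dvd k l.x h0)
  have e : mult p (some q) = multiplicity q.1 p := rfl
  rw [e]
  generalize multiplicity q.1 p = m at hr
  rw [hr, map_mul, map_mul, map_pow, map_pow, key _ q.2.1.ne_zero, key _ hr0, h1,
    h2, ← zpow_natCast, ← zpow_mul]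
  simp

theorem Loc.w_bp_le (l : Loc Ω v) (hv : v ≠ none) (p : k[X]) : l.w (bp Ω p) ≤ 1 := by
  by_cases hp : p = 0
  · simp [hp]
  · rw [l.w_base hv hp]
    exact zpow_le_one_of_nonpos₀ (by norm_num) (by omega)

theorem Loc.w_bp_inf (l : Loc Ω (none : Pl k)) {p : k[X]} (hp : p ≠ 0) :
    l.w (bp Ω p) = 2 ^ p.natDegree := by
  rw [bp_apply, ← aeval_tt_base, ← aeval_tt_map, l.w_poly_inf (Polynomial.map_ne_zero hp),
    natDegree_map, zpow_natCast]

theorem Loc.aeval_eq_zero (l : Loc Ω v) (hv : v ≠ none) (p : k[X]) :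
    aeval l.x p = 0 ↔ pl v ∣ p := by
  obtain ⟨q, rfl⟩ := Option.ne_none_iff_exists'.1 hv
  have e : pl (some q) = minpoly k l.x := galloc_min l
  rw [e, minpoly.dvd_iff]

theorem exists_bp (ℓ : Locs k Ω) {a : Ω} (h : ∀ g : WG k Ω, gal g a = a)
    (hw : ∀ v, v ≠ none → (ℓ v).w a ≤ 1) : ∃ p : k[X], bp Ω p = a := by
  obtain ⟨b, rfl⟩ := fixed_all (ℓ none).σ (ℓ none).deg_σ h
  have hd0 : b.denom ≠ 0 := b.denom_ne_zero
  have e : bp Ω b.num = algebraMap (RatFunc k) Ω b * bp Ω b.denom := by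
    rw [bp_apply, bp_apply, ← map_mul, ← div_eq_iff (RatFunc.algebraMap_ne_zero hd0) |>.1
      (RatFunc.num_div_denom b)]
  by_cases hu : IsUnit b.denom
  · refine ⟨b.num, ?_⟩
    rw [e, b.monic_denom.eq_one_of_isUnit hu, map_one, mul_one]
  exfalso
  obtain ⟨q, hq1, hq2, hq3⟩ := exists_monic_irreducible_factor _ hu
  have hq4 : ¬ q ∣ b.num := fun h4 =>
    hq2.not_isUnit (b.isCoprime_num_denom.isUnit_of_dvd' h4 hq3)
  have hn0 : b.num ≠ 0 := fun h0 => hq4 (h0 ▸ dvd_zero _)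
  have hv : (some ⟨q, hq1, hq2⟩ : Pl k) ≠ none := Option.some_ne_none _
  generalize hv' : (some ⟨q, hq1, hq2⟩ : Pl k) = v at hv
  have hp : pl v = q := hv' ▸ rfl
  have m1 : mult b.num v = 0 := not_not.1 fun h0 => hq4 (hp ▸ ((StatA_ne_zero_iff _ _).1 h0).2)
  have m2 : mult b.denom v ≠ 0 := (StatA_ne_zero_iff _ _).2 ⟨hv, hp ▸ hq3⟩
  have h1 := (ℓ v).w_base hv hn0
  have h2 : (ℓ v).w (bp Ω b.denom) < 1 := by
    rw [(ℓ v).w_base hv hd0]
    exact zpow_lt_one_of_neg₀ (by norm_num) (by omega)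
  rw [m1, e, mul_comm] at h1
  exact (Rt_mul_lt h2 (hw v hv)).ne (by simpa using h1)

variable (Ω) in
theorem exists_rts (h : Pen f) : Nonempty (Rts Ω f (Fin (2 * gg + 1))) := by
  have := IsSepClosure.sep_closed (RatFunc k) (K := Ω)
  have hs : (f.map (bp Ω)).Separable :=
    Rt_sep (bp Ω) h.monic (by rw [h.deg]; omega) (bp_ne h.ne)
  have hsp := IsSepClosed.splits_of_separable _ hs
  have hm : (f.map (bp Ω)).Monic := h.monic.map _
  have hnd := nodup_roots hs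
  have hc : (f.map (bp Ω)).roots.toFinset.card = 2 * gg + 1 := by
    rw [Multiset.toFinset_card_of_nodup hnd, ← hsp.natDegree_eq_card_roots,
      h.monic.natDegree_map, h.deg]
  let e := (Finset.equivFinOfCardEq hc).symm
  let α : Fin (2 * gg + 1) → Ω := fun i => (e i : Ω)
  have inj : Function.Injective α := fun i j hij => e.injective (Subtype.ext hij)
  have hroot : ∀ (g : WG k Ω) a, ∃ b, gal g (α a) = α b := by
    intro g a
    have h1 : (f.map (bp Ω)).IsRoot (α a) :=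
      (mem_roots hm.ne_zero).1 (Multiset.mem_toFinset.1 (e a).2)
    have h2 : (f.map (bp Ω)).IsRoot (gal g (α a)) := by
      have e1 : ((gal g : Ω ≃ₐ[RatFunc k] Ω) : Ω →+* Ω).comp (bp Ω) = bp Ω :=
        RingHom.ext fun p => fix_bp (gal g) p
      have e2 := hom_eval₂ f (bp Ω) ((gal g : Ω ≃ₐ[RatFunc k] Ω) : Ω →+* Ω) (α a)
      rw [IsRoot, eval_map] at h1 ⊢
      rw [e1, h1, map_zero] at e2
      exact e2.symm
    refine ⟨e.symm ⟨_, Multiset.mem_toFinset.2 ((mem_roots hm.ne_zero).2 h2)⟩, ?_⟩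
    simp only [α, Equiv.apply_symm_apply]
  choose π hπ using hroot
  let F : WG k Ω →* Function.End (Fin (2 * gg + 1)) :=
    { toFun := π
      map_one' := funext fun a => inj (by rw [← hπ, map_one]; rfl)
      map_mul' := fun g g' => funext fun a => inj (by
        rw [← hπ, map_mul, AlgEquiv.mul_apply, hπ, hπ]; rfl) }
  refine ⟨⟨α, inj, ?_, F.toHomPerm, hπ⟩⟩
  rw [Equiv.prod_comp e (fun x => X - C (x : Ω)),
    Finset.prod_coe_sort (f.map (bp Ω)).roots.toFinset (fun x => X - C x), Finset.prod,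
    Multiset.toFinset_val, hnd.dedup]
  exact hsp.eq_prod_roots_of_monic hm

namespace Rts

variable {Z : Type} [Fintype Z] (r : Rts Ω f Z)

include r in
theorem card (h : Pen f) : Fintype.card Z = 2 * gg + 1 := by
  have := congrArg natDegree r.eq
  rw [h.monic.natDegree_map, h.deg, natDegree_finsetProd_X_sub_C_eq_card, Finset.card_univ] at this
  exact this.symm

theorem disc (h : Pen f) : bp Ω f.discr = ∏ a, ∏ b ∈ Finset.univ.erase a, (r.α a - r.α b) ∨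
    bp Ω f.discr = -∏ a, ∏ b ∈ Finset.univ.erase a, (r.α a - r.α b) := by
  have : Nonempty Z := Fintype.card_pos_iff.1 (by rw [r.card h]; omega)
  exact disc_eq (bp Ω) h.monic r.eq

theorem pow_mo (h : Pen f) (g : WG k Ω) : r.π (g ^ mo) = 1 := by
  obtain ⟨c, hc⟩ := h.fac
  rw [map_pow, hc, pow_mul, ← r.card h, ← Fintype.card_perm, pow_card_eq_one, one_pow]

theorem adm (h : Pen f) : ∃ U : Subgroup (WG k Ω), Adm U ∧ ∀ u ∈ U, r.π u = 1 := by
  refine ⟨(WG0 k Ω ⊓ r.π.ker).normalCore, adm_core _ inf_le_left (Finset.univ.image r.α)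
    (fun g hg hf => ⟨hg, ?_⟩) (fun g hg => ⟨1, ?_, ?_⟩),
    fun u hu => (Subgroup.normalCore_le _ hu).2⟩
  · refine MonoidHom.mem_ker.2 (Equiv.ext fun a => r.inj ?_)
    rw [← r.gal_α, hf _ (Finset.mem_image_of_mem _ (Finset.mem_univ a))]
    rfl
  · exact (WG0 k Ω).pow_mem hg _
  · rw [pow_one]
    exact r.pow_mo h g

end Rts

end Pool.Agent.Hyp
end

-- merged part: Pool.Agent.Work.MP_60d5ce_nt.Hy.EKum
section
/-!
# Quadratic characters at Frobenius elements  (task HY EKum)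

* `kum_near`: `z ^ 2 ≡ 1` gives `z ≡ 1` or `z ≡ -1`; `gal g z = z` or `- z` (`kum_spec`).  For `σ`: `gal σ z ≡ z ^ Q = z * (z ^ 2) ^ ((Q - 1) / 2) ≡ z` (`σ_res`, `card_mod`); for `τ`: `τ_res`.  If `gal g z = - z` then `w (2 z) < 1`, but `w_two`.
* `xq_inf`, `xq_fin`: `z = sqr (bp d') / sqr (bp d)`, `kum_mul_left`, `w_bp_inf`, `w_base`.  `xq_tau`: `Loc.kum_tau`.  `xq_hom`: `kum_hom`.
* `exists_nonsq`: `AdjoinRoot (pl v)` is a finite field with `Q = q ^ pdg v` elements, of odd characteristic; `FiniteField.exists_nonsquare`, `FiniteField.isSquare_iff`, `FiniteField.pow_dichotomy`: `pl v ∣ u ^ (Q / 2) + 1`.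
  With `δ ^ 2 = bp u`: `gal σ δ ≡ δ ^ Q = δ * (bp u) ^ (Q / 2) ≡ - δ`, so `gal σ δ ≠ δ`.
* `exists_u`: choose `v0 ∈ fac D` (`sum_fac`), `D = pl v0 * D'` with coprime factors (`Squarefree`), `a * pl v0 + b * D' = 1`, `u = a * pl v0 + u0 * b * D'`; `xq_fin`, `xq_one`.
-/

namespace Pool.Agent.Hyp

open scoped Classical
open Pool.Agent.Quad Polynomial

variable [Par] {k : Type} [Field k] [Fintype k] {Ω : Type} [Field Ω]
  [Algebra (RatFunc k) Ω] [Algebra k Ω] [IsScalarTower k (RatFunc k) Ω]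
  [IsSepClosure (RatFunc k) Ω] {v : Pl k} {d d' : k[X]}

omit [Par] in
theorem EKum_unit {K : Type} [Field K] {w : AbsoluteValue K ℝ} (na : IsNonarchimedean w) {a : K}
    (h : w (a - 1) < 1) : w a = 1 := by
  have h1 := Rt_add_le na h.le (map_one w).le
  rw [sub_add_cancel] at h1
  refine h1.eq_or_lt.resolve_right fun h2 => ?_
  rw [w.map_sub] at h
  have h3 := Rt_add_lt na h h2
  rw [sub_add_cancel, map_one] at h3
  exact lt_irrefl _ h3

omit [Par] in
theorem EKum_sq {K : Type} [Field K] {w : AbsoluteValue K ℝ} {a : K} (h : w (a ^ 2) = 1) :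
    w a = 1 := by
  rw [map_pow] at h
  exact (pow_eq_one_iff_of_nonneg (w.nonneg a) two_ne_zero).1 h

theorem EKum_two (h6 : ((mo : ℕ) : k) ≠ 0) (l : Loc Ω v) {z : Ω} (hz : l.w z = 1) :
    ¬ l.w (z + z) < 1 := by
  rw [← two_mul, map_mul, l.w_two h6, hz, one_mul]
  exact lt_irrefl _

theorem EKum_fix (h6 : ((mo : ℕ) : k) ≠ 0) (l : Loc Ω v) {z : Ω} (hz : l.w z = 1) {g : Gam k Ω}
    (h2 : g (z ^ 2) = z ^ 2) (h : l.w (g z - z) < 1) : g z = z := by
  rw [map_pow] at h2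
  refine (sq_eq_sq_iff_eq_or_eq_neg.1 h2).resolve_right fun e => EKum_two h6 l hz ?_
  rwa [e, l.w.map_sub, sub_neg_eq_add] at h

theorem EKum_σ (h6 : ((mo : ℕ) : k) ≠ 0) (l : Loc Ω v) {z : Ω} (hz : l.w z = 1) :
    l.w (gal l.σ z - z * (z ^ 2) ^ (Fintype.card k ^ pdg v / 2)) < 1 := by
  have h1 : Fintype.card k ^ pdg v % 2 = 1 := by
    rw [Nat.pow_mod, card_mod h6, one_pow, Nat.one_mod]
  rw [← pow_mul, ← pow_succ', show 2 * (Fintype.card k ^ pdg v / 2) + 1 =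
    Fintype.card k ^ pdg v by omega]
  exact l.σ_res hz.le

theorem EKum_lt (l : Loc Ω v) (hv : v ≠ none) (h : pl v ∣ d) : l.w (bp Ω d) < 1 := by
  have h1 := l.res_bp hv d
  rwa [(l.aeval_eq_zero hv d).2 h, ZeroMemClass.coe_zero, sub_zero] at h1

theorem EKum_eq (l : Loc Ω v) (hv : v ≠ none) (h : ¬ pl v ∣ d) : l.w (bp Ω d) = 1 := by
  have h1 : mult d v = 0 := not_not.1 fun e => h ((StatA_ne_zero_iff d v).1 e).2
  rw [l.w_base hv (fun e : d = 0 => h (e ▸ dvd_zero _)), h1]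
  simp

theorem Loc.kum_near (h6 : ((mo : ℕ) : k) ≠ 0) (l : Loc Ω v) {z : Ω} {a : RatFunc k}
    (hz : z ^ 2 = algebraMap (RatFunc k) Ω a) (h : l.w (z ^ 2 - 1) < 1) :
    gal l.σ z = z ∧ gal l.τ z = z := by
  have h1 := EKum_unit l.w_na h
  have h2 := EKum_sq h1
  have h3 : ∀ g : Gam k Ω, g (z ^ 2) = z ^ 2 := fun g => by rw [hz, AlgEquiv.commutes]
  refine ⟨EKum_fix h6 l h2 (h3 _) (Rt_trans l.w_na (EKum_σ h6 l h2) ?_),
    EKum_fix h6 l h2 (h3 _) (l.τ_res h2.le)⟩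
  have h4 := Rt_mul_lt (Rt_pow_sub l.w_na h1.le (map_one l.w).le h (Fintype.card k ^ pdg v / 2)) h2.le
  rwa [one_pow, sub_mul, one_mul, mul_comm] at h4

/-- the quadratic character attached to a polynomial -/
noncomputable def xq (d : k[X]) (g : WG k Ω) : F2 := kum (sqr (bp Ω d)) (gal g)

theorem EKum_ne (h6 : ((mo : ℕ) : k) ≠ 0) (hd : d ≠ 0) : sqr (bp Ω d) ≠ 0 := fun e =>
  bp_ne (Ω := Ω) hd (by rw [← sqr_spec h6 (bp Ω d), e, zero_pow two_ne_zero])

theorem EKum_gal (h6 : ((mo : ℕ) : k) ≠ 0) (d : k[X]) (g : Gam k Ω) :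
    g (sqr (bp Ω d) ^ 2) = sqr (bp Ω d) ^ 2 := by
  rw [sqr_spec h6, fix_bp]

theorem EKum_cmp (h6 : ((mo : ℕ) : k) ≠ 0) (l : Loc Ω v) (hd : d ≠ 0)
    (h : l.w (bp Ω (d' - d)) < l.w (bp Ω d)) : xq d' l.σ = xq d l.σ ∧ xq d' l.τ = xq d l.τ := by
  have h0 := EKum_ne (Ω := Ω) h6 hd
  have hb := bp_ne (Ω := Ω) hd
  have h1 : (sqr (bp Ω d') / sqr (bp Ω d)) ^ 2 = bp Ω d' / bp Ω d := by
    rw [div_pow, sqr_spec h6, sqr_spec h6]
  have h2 : l.w ((sqr (bp Ω d') / sqr (bp Ω d)) ^ 2 - 1) < 1 := by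
    rwa [h1, div_sub_one hb, map_div₀, div_lt_one (l.w.pos hb), ← map_sub]
  have h3 : sqr (bp Ω d') / sqr (bp Ω d) ≠ 0 := fun e => by simp [e] at h2
  have h4 : ∀ g : WG k Ω, gal g (sqr (bp Ω d') / sqr (bp Ω d)) = sqr (bp Ω d') / sqr (bp Ω d) →
      xq d' g = xq d g := fun g hg => by
    rw [xq, xq, kum, kum, ← div_mul_cancel₀ (sqr (bp Ω d')) h0, map_mul, hg]
    simp only [mul_right_inj' h3]
  obtain ⟨h5, h7⟩ := l.kum_near h6 (h1.trans (map_div₀ (algebraMap (RatFunc k) Ω) _ _).symm) h2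
  exact ⟨h4 _ h5, h4 _ h7⟩

theorem xq_hom (h6 : ((mo : ℕ) : k) ≠ 0) (ℓ : Locs k Ω) (hd : d ≠ 0) :
    (tame h6 ℓ).IsHom (xq d) := by
  exact kum_hom h6 ℓ (EKum_ne h6 hd) (sqr_spec h6 _)

theorem xq_one (h6 : ((mo : ℕ) : k) ≠ 0) (g : WG k Ω) : xq 1 g = 0 := by
  rw [xq, kum_congr (s := 1) (by rw [sqr_spec h6, map_one, one_pow]), kum_eq_zero_iff, map_one]

theorem xq_mul (h6 : ((mo : ℕ) : k) ≠ 0) (hd : d ≠ 0) (hd' : d' ≠ 0) (g : WG k Ω) :
    xq (d * d') g = xq d g + xq d' g := by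
  rw [xq, kum_congr (s := sqr (bp Ω d) * sqr (bp Ω d'))
    (by rw [mul_pow, sqr_spec h6, sqr_spec h6, sqr_spec h6, map_mul])]
  exact kum_mul_left h6 (EKum_ne h6 hd) (EKum_ne h6 hd') (EKum_gal h6 _ _) (EKum_gal h6 _ _)

theorem xq_tau (h6 : ((mo : ℕ) : k) ≠ 0) (l : Loc Ω v) (hv : v ≠ none) (hd : d ≠ 0) :
    xq d l.τ = (mult d v : F2) := by
  rw [← Int.cast_natCast]
  exact l.kum_tau h6 (EKum_ne h6 hd) (EKum_gal h6 _ _) (by rw [sqr_spec h6, l.w_base hv hd])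

theorem xq_inf (h6 : ((mo : ℕ) : k) ≠ 0) (l : Loc Ω (none : Pl k))
    (h : (d' - d).degree < d.degree) : xq d' l.σ = xq d l.σ ∧ xq d' l.τ = xq d l.τ := by
  have hd : d ≠ 0 := ne_zero_of_degree_gt h
  refine EKum_cmp h6 l hd ?_
  by_cases h0 : d' - d = 0
  · rw [h0, map_zero, map_zero]
    exact l.w.pos (bp_ne hd)
  · rw [l.w_bp_inf h0, l.w_bp_inf hd]
    exact pow_lt_pow_right₀ one_lt_two (natDegree_lt_natDegree h0 h)

theorem xq_fin (h6 : ((mo : ℕ) : k) ≠ 0) (l : Loc Ω v) (hv : v ≠ none) (hd : ¬ pl v ∣ d)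
    (h : pl v ∣ d' - d) : xq d' l.σ = xq d l.σ := by
  refine (EKum_cmp h6 l (fun e : d = 0 => hd (e ▸ dvd_zero _)) ?_).1
  rw [EKum_eq l hv hd]
  exact EKum_lt l hv h

theorem exists_nonsq (h6 : ((mo : ℕ) : k) ≠ 0) (l : Loc Ω v) (hv : v ≠ none) :
    ∃ u : k[X], ¬ pl v ∣ u ∧ xq u l.σ = 1 := by
  obtain ⟨p, rfl⟩ := Option.ne_none_iff_exists'.1 hv
  have : Fact (Irreducible p.1) := ⟨p.2.2⟩
  have : Module.Finite k (AdjoinRoot p.1) := (AdjoinRoot.powerBasis p.2.2.ne_zero).finite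
  have : Finite (AdjoinRoot p.1) := Module.finite_of_finite k
  have := Fintype.ofFinite (AdjoinRoot p.1)
  have hc : Fintype.card (AdjoinRoot p.1) = Fintype.card k ^ pdg (some p) := by
    rw [Module.card_eq_pow_finrank (K := k), (AdjoinRoot.powerBasis p.2.2.ne_zero).finrank]
    rfl
  have h2 : ringChar (AdjoinRoot p.1) ≠ 2 := fun e =>
    two_ne_of_six (six_ne_map (algebraMap k (AdjoinRoot p.1)) h6) (by
      exact_mod_cast (ringChar.spec (AdjoinRoot p.1) 2).2 (e ▸ dvd_rfl))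
  obtain ⟨a, ha⟩ := FiniteField.exists_nonsquare h2
  have h0 : a ≠ 0 := fun e => ha (e ▸ IsSquare.zero)
  have h1 := (FiniteField.pow_dichotomy h2 h0).resolve_left (mt (FiniteField.isSquare_iff h2 h0).2 ha)
  obtain ⟨u, rfl⟩ := AdjoinRoot.mk_surjective a
  have h3 : ¬ pl (some p) ∣ u := fun e => h0 (AdjoinRoot.mk_eq_zero.2 e)
  have h4 : pl (some p) ∣ u ^ (Fintype.card k ^ pdg (some p) / 2) + 1 :=
    (AdjoinRoot.mk_eq_zero (f := p.1)).1 (by rw [map_add, map_pow, ← hc, h1, map_one, neg_add_cancel])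
  have h5 : l.w (sqr (bp Ω u)) = 1 := EKum_sq (by rw [sqr_spec h6, EKum_eq l hv h3])
  refine ⟨u, h3, if_neg fun e => EKum_two h6 l h5 ?_⟩
  have h7 := EKum_σ h6 l h5
  rw [e, sqr_spec h6] at h7
  refine lt_of_eq_of_lt (congrArg l.w ?_)
    (Rt_add_lt l.w_na h7 (Rt_mul_lt (EKum_lt l hv h4) h5.le))
  rw [map_add, map_pow, map_one]
  ring

theorem exists_u (h6 : ((mo : ℕ) : k) ≠ 0) (ℓ : Locs k Ω) {D : k[X]} (hD : Squarefree D)
    (h0 : 0 < D.natDegree) : ∃ u : k[X], IsCoprime u D ∧ ∑ v ∈ fac D, xq u (ℓ v).σ = 1 := by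
  have hD0 := hD.ne_zero
  obtain ⟨v0, hv0⟩ : (fac D).Nonempty := Finset.nonempty_of_sum_ne_zero ((sum_fac hD0).trans_ne h0.ne')
  obtain ⟨h1, D', rfl⟩ := (mem_fac_iff hD0).1 hv0
  obtain ⟨a, b, hab⟩ := (IsRelPrime.of_squarefree_mul hD).isCoprime
  obtain ⟨u0, h2, h3⟩ := exists_nonsq h6 (ℓ v0) h1
  have h4 : pl v0 ∣ a * pl v0 + u0 * b * D' - u0 := ⟨a - u0 * a, by linear_combination u0 * hab⟩
  have h5 : Irreducible (pl v0) := by
    obtain ⟨p, rfl⟩ := Option.ne_none_iff_exists'.1 h1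
    exact p.2.2
  refine ⟨a * pl v0 + u0 * b * D', IsCoprime.mul_right (h5.coprime_iff_not_dvd.2 fun e => h2 ?_).symm
    ⟨1, b - u0 * b, by linear_combination hab⟩, ?_⟩
  · simpa using e.sub h4
  rw [Finset.sum_eq_single_of_mem v0 hv0 fun v hv hne => ?_, xq_fin h6 _ h1 h2 h4, h3]
  have h7 := ((mem_fac_iff hD0).1 hv).1
  have h8 := (mem_fac hD0).1 hv
  rw [mult_mul h5.ne_zero (right_ne_zero_of_mul hD0), mult_pl h1, if_neg hne, zero_add,
    StatA_ne_zero_iff] at h8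
  rw [xq_fin h6 _ h7 (d := 1)
    (fun e => (StatA_ne_zero_iff 1 v).2 ⟨h7, e⟩ (StatA_mult_unit isUnit_one v))
    (h8.2.trans ⟨u0 * b - b, by linear_combination hab⟩), xq_one h6]

end Pool.Agent.Hyp
end

-- merged part: Pool.Agent.Work.MP_60d5ce_nt.Hy.EDens
section
/-!
# Counting polynomials prime to `D`  (task HY EDens)

* `beta`: `EuclideanDomain.div_add_mod`, `degree_mod_lt` (or `EuclideanDomain.mod_lt`).  `beta_inj`: `D ∣ u * (d - d')`, so `D ∣ d - d'`, so the remainders agree (`mod_eq_of_dvd_sub`-like, or: their difference is divisible by `D` and of smaller degree).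
* `Pn_le_Cn`: `e ↦ D * e + 1` maps `Pn k (n - D.natDegree)` injectively into `Cn D n`; `Pn_ncard`.
* `sq_small`: `prod_fac` shows `d = C c * e ^ 2` with `e ∈ degreeLT k (n / 2 + 1)`; so the set has at most `q * q ^ (n / 2 + 1)` elements (`StatA_degreeLT`), while `Pn k n` has at least `q ^ n`.
-/

namespace Pool.Agent.Hyp

open Polynomial Filter

variable {k : Type} [Field k] {D u : k[X]} {n : ℕ}

/-- the polynomials of degree `n` prime to `D` -/
def Cn (D : k[X]) (n : ℕ) : Set k[X] := {d | d ≠ 0 ∧ d.natDegree = n ∧ IsCoprime d D}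

/-- multiply the residue modulo `D` by `u` -/
noncomputable def beta (D u d : k[X]) : k[X] := d + (u - 1) * d % D

theorem beta_deg (hD : D ≠ 0) (u d : k[X]) : (beta D u d - d).degree < D.degree := by
  rw [beta, add_sub_cancel_left]
  exact degree_mod_lt _ hD

theorem beta_dvd (D u d : k[X]) : D ∣ beta D u d - u * d := by
  refine ⟨-((u - 1) * d / D), ?_⟩
  rw [beta]
  linear_combination EuclideanDomain.div_add_mod ((u - 1) * d) D

theorem beta_inj (hu : IsCoprime u D) : Function.Injective (beta D u) := by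
  intro d d' h
  have h1 : D ∣ u * (d - d') := by
    have := dvd_sub (beta_dvd D u d') (beta_dvd D u d)
    rwa [h, sub_sub_sub_cancel_left, ← mul_sub] at this
  have h2 : D ∣ (u - 1) * d - (u - 1) * d' :=
    mul_sub (u - 1) d d' ▸ (hu.symm.dvd_of_dvd_mul_left h1).mul_left _
  rw [beta, beta, mod_eq_of_dvd_sub h2] at h
  exact add_right_cancel h

theorem beta_mem (hD : D ≠ 0) (hu : IsCoprime u D) (hn : D.natDegree ≤ n) :
    Set.MapsTo (beta D u) (Cn D n) (Cn D n) := by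
  rintro d ⟨h0, rfl, hc⟩
  have h1 : (beta D u d).degree = d.degree := by
    rw [← add_sub_cancel d (beta D u d)]
    refine degree_add_eq_left_of_degree_lt ((beta_deg hD u d).trans_le ?_)
    rw [degree_eq_natDegree hD, degree_eq_natDegree h0]
    exact Nat.cast_le.2 hn
  refine ⟨fun e => h0 (degree_eq_bot.1 (by rw [← h1, e, degree_zero])),
    natDegree_eq_of_degree_eq h1, ?_⟩
  obtain ⟨c, e⟩ := beta_dvd D u d
  rw [sub_eq_iff_eq_add'.1 e]
  exact (hu.mul_left hc).add_mul_left_left c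

variable [Par] [Fintype k]

theorem Cn_finite (D : k[X]) (n : ℕ) : (Cn D n).Finite :=
  (Pn_finite n).subset fun _ h => ⟨h.1, h.2.1⟩

omit [Par] [Fintype k] in
theorem EDens_mem (h0 : 0 < D.natDegree) (hn : D.natDegree ≤ n) :
    Set.MapsTo (fun e => D * e + 1) (Pn k (n - D.natDegree)) (Cn D n) := by
  rintro e ⟨he, h1⟩
  have hD : D ≠ 0 := ne_zero_of_natDegree_gt h0
  have h2 : (D * e + 1).natDegree = n := by
    rw [← C_1, natDegree_add_C, natDegree_mul hD he]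
    omega
  exact ⟨ne_zero_of_natDegree_gt (n := 0) (by rw [h2]; omega), h2, ⟨1, -e, by ring⟩⟩

theorem Pn_le_Cn (h0 : 0 < D.natDegree) (hn : D.natDegree ≤ n) :
    (Pn k n).ncard ≤ Fintype.card k ^ D.natDegree * (Cn D n).ncard := by
  have h := Set.ncard_le_ncard_of_injOn _ (EDens_mem h0 hn) (fun a _ b _ e =>
    mul_left_cancel₀ (ne_zero_of_natDegree_gt h0) (add_right_cancel e)) (Cn_finite D n)
  refine le_trans (le_of_eq ?_) (Nat.mul_le_mul_left _ h)
  rw [Pn_ncard, Pn_ncard, mul_left_comm, ← pow_add, Nat.add_sub_cancel' hn]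

theorem Cn_nonempty (h0 : 0 < D.natDegree) (hn : D.natDegree ≤ n) : (Cn D n).Nonempty := by
  exact ⟨_, EDens_mem h0 hn (x := X ^ (n - D.natDegree))
    ⟨pow_ne_zero _ X_ne_zero, natDegree_X_pow _⟩⟩

theorem EDens_sq (n : ℕ) : {d | d ∈ Pn k n ∧ ∀ v, Even (mult d v)}.ncard ≤
    Fintype.card k * Fintype.card k ^ (n / 2 + 1) := by
  have h : {d | d ∈ Pn k n ∧ ∀ v, Even (mult d v)} ⊆ (fun p : k × k[X] => C p.1 * p.2 ^ 2) ''
      Set.univ ×ˢ (degreeLT k (n / 2 + 1) : Set k[X]) := by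
    rintro d ⟨⟨h0, rfl⟩, h1⟩
    choose m hm using h1
    have h2 : d = C d.leadingCoeff * (∏ v ∈ fac d, pl v ^ m v) ^ 2 := by
      rw [← Finset.prod_pow]
      refine (prod_fac h0).trans (congrArg _ (Finset.prod_congr rfl fun v _ => ?_))
      rw [hm, pow_add, sq]
    generalize ∏ v ∈ fac d, pl v ^ m v = e at h2
    refine ⟨(_, e), ⟨trivial, mem_degreeLT.2 (degree_le_natDegree.trans_lt (Nat.cast_lt.2 ?_))⟩,
      h2.symm⟩
    have h3 := congrArg natDegree h2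
    rw [natDegree_C_mul (leadingCoeff_ne_zero.2 h0), natDegree_pow] at h3
    dsimp only
    omega
  have hf := (Set.finite_univ (α := k)).prod (StatA_degreeLT (k := k) (n / 2 + 1)).1
  refine (Set.ncard_le_ncard h (hf.image _)).trans ((Set.ncard_image_le hf).trans (le_of_eq ?_))
  rw [Set.ncard_prod, (StatA_degreeLT _).2, Set.ncard_univ, Nat.card_eq_fintype_card]

variable (k) in
theorem sq_small {ε : ℝ} (hε : 0 < ε) : ∀ᶠ n in atTop,
    ({d | d ∈ Pn k n ∧ ∀ v, Even (mult d v)}.ncard : ℝ) ≤ ε * (Pn k n).ncard := by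
  have hq : 1 < Fintype.card k := Fintype.one_lt_card
  have hq' : (1 : ℝ) < Fintype.card k := by exact_mod_cast hq
  obtain ⟨m, hm⟩ := pow_unbounded_of_one_lt ε⁻¹ hq'
  filter_upwards [eventually_ge_atTop (2 * m + 4)] with n hn
  have h1 : Fintype.card k ^ m * {d | d ∈ Pn k n ∧ ∀ v, Even (mult d v)}.ncard ≤ (Pn k n).ncard := by
    refine (Nat.mul_le_mul_left _ (EDens_sq n)).trans ?_
    rw [Pn_ncard, ← pow_succ', ← pow_add]
    exact (Nat.pow_le_pow_right hq.le (by omega)).trans (Nat.le_mul_of_pos_left _ (by omega))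
  rw [← inv_mul_le_iff₀ hε]
  refine (mul_le_mul_of_nonneg_right hm.le (Nat.cast_nonneg _)).trans ?_
  exact_mod_cast h1

end Pool.Agent.Hyp
end

-- merged part: Pool.Agent.Work.MP_60d5ce_nt.Hy.LkH2
section
/-!
# No second cohomology for open subgroups of the geometric group  (task LB LkH2)

Adapt `H2_fin` and `h2_geom` of `Qt/H2.lean`.  `h2_sub`: `brauer_sign` and `hilbert90` for `φ = toRingAut ∘ G.subtype`; the norm hypothesis is `H2_norm` for `H.map G.subtype`.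
`h2_open`: replace `U₁` by `U₁ ⊓ U ≤ H`, let `G` be the image of `H` under the map `π` of `Adm.exists_res`.
-/

namespace Pool.Agent.Hyp

open Pool.Agent.Lef

variable [Par]

open Pool.Agent.Quad

theorem h2_sub {𝕜 : Type} [Field 𝕜] [IsAlgClosed 𝕜] {L : Type} [Field L] [Algebra (RatFunc 𝕜) L]
    [FiniteDimensional (RatFunc 𝕜) L] (G : Subgroup (L ≃ₐ[RatFunc 𝕜] L)) (θ : G → G → F2)
    (hθ : IsCoc2 θ) : ∃ (b : G → L) (a : L), a ≠ 0 ∧ (∀ x : G, b x ^ 2 * x.1 a = a) ∧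
      ∀ x y : G, (-1) ^ (θ x y).val * b (x * y) = b x * x.1 (b y) := by
  let φ : G →* (L ≃+* L) := (MulSemiringAction.toRingAut _ L).comp G.subtype
  have hφ : ∀ (x : G) y, φ x y = x.1 y := fun _ _ => rfl
  have hinj : Function.Injective φ := fun x y h => Subtype.ext (AlgEquiv.ext fun c => by
    rw [← hφ, ← hφ, h])
  obtain ⟨b, hb0, hb⟩ := brauer_sign φ hinj
    (fun H s h1 h2 h3 a h4 h5 => by
      obtain ⟨x, hx, hx'⟩ := H2_norm (H.map G.subtype) s.1
        (fun h => h1 ((Subgroup.mem_map_iff_mem G.subtype_injective).1 h)) ⟨s ^ 2, h2, rfl⟩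
        (by rintro _ ⟨h, hh, rfl⟩; exact ⟨s * h * s⁻¹, h3 h hh, rfl⟩) a
        (by rintro _ ⟨h, hh, rfl⟩; exact h4 h hh) h5
      exact ⟨x, fun h hh => hx _ ⟨h, hh, rfl⟩, hx'⟩)
    (fun x y => (-1) ^ (θ x y).val) (fun _ _ => H2_sq _) (fun g h l => by
      rw [map_pow, map_neg, map_one, ← GalKum_pow_add, ← GalKum_pow_add]
      congr 2
      linear_combination hθ g h l)
  obtain ⟨a, ha0, ha⟩ := hilbert90 φ hinj (fun x => b x ^ 2) (fun x => pow_ne_zero _ (hb0 x))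
    (fun g h => by rw [map_pow, ← mul_pow, ← hb, mul_pow, H2_sq, one_mul])
  exact ⟨b, a, ha0, ha, hb⟩

variable {k : Type} [Field k] [Fintype k] {Ω : Type} [Field Ω] [Algebra (RatFunc k) Ω]
  [Algebra k Ω] [IsScalarTower k (RatFunc k) Ω] [IsSepClosure (RatFunc k) Ω]

theorem h2_open (h6 : ((mo : ℕ) : k) ≠ 0) {H : Subgroup (WG k Ω)} (hH : Opn H)
    (θ : WG k Ω → WG k Ω → F2)
    (hs : ∃ U₁, Adm U₁ ∧ ∀ g ∈ H, ∀ h ∈ H, ∀ u ∈ U₁, ∀ u' ∈ U₁, θ (g * u) (h * u') = θ g h)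
    (hθ : ∀ g ∈ H, ∀ h ∈ H, ∀ l ∈ H, θ h l - θ (g * h) l + θ g (h * l) - θ g h = 0) :
    ∃ b : WG k Ω → F2, (∃ U₁, Adm U₁ ∧ ∀ g ∈ H, ∀ u ∈ U₁, b (g * u) = b g) ∧
      ∀ g ∈ H, ∀ h ∈ H, θ g h = b g + b h - b (g * h) := by
  classical
  obtain ⟨U₁, hU₁, hs⟩ := hs
  obtain ⟨hH0, U₀, hU₀, hle⟩ := hH
  have hU := hU₁.inf hU₀
  replace hs : ∀ g ∈ H, ∀ h ∈ H, ∀ u ∈ U₁ ⊓ U₀, ∀ u' ∈ U₁ ⊓ U₀, θ (g * u) (h * u') = θ g h :=
    fun g hg h hh u hu u' hu' => hs g hg h hh u hu.1 u' hu'.1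
  replace hle : U₁ ⊓ U₀ ≤ H := inf_le_right.trans hle
  generalize U₁ ⊓ U₀ = U at hU hs hle
  have := hU.finiteDimensional
  obtain ⟨G, π, hπs, hπ, hπ1⟩ : ∃ (G : Subgroup (MU U ≃ₐ[RatFunc (Kb k Ω)] MU U)) (π : H →* G),
      Function.Surjective π ∧ (∀ g (a : MU U), ((π g).1 a : Ω) = gal g.1 a) ∧
        ∀ g, π g = 1 ↔ g.1 ∈ U := by
    obtain ⟨π, -, hπ, hπ1⟩ := hU.exists_res
    exact ⟨_, (π.comp (Subgroup.inclusion hH0)).rangeRestrict,
      MonoidHom.rangeRestrict_surjective _, fun g a => hπ (Subgroup.inclusion hH0 g) a,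
      fun g => Subtype.ext_iff.trans (hπ1 (Subgroup.inclusion hH0 g))⟩
  choose σ hσ using hπs
  have hθπ : ∀ g h : H, θ (σ (π g)).1 (σ (π h)).1 = θ g.1 h.1 := by
    have e : ∀ g : H, ((σ (π g))⁻¹ * g).1 ∈ U := fun g =>
      (hπ1 _).1 (by rw [map_mul, map_inv, hσ, inv_mul_cancel])
    intro g h
    rw [← hs _ (σ (π g)).2 _ (σ (π h)).2 _ (e g) _ (e h)]
    simp
  obtain ⟨b, a, ha0, ha, hb⟩ := h2_sub (𝕜 := Kb k Ω) (L := MU U) G
    (fun x y => θ (σ x).1 (σ y).1) (fun x y w => by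
      have e1 := hθπ (σ x * σ y) (σ w)
      have e2 := hθπ (σ x) (σ y * σ w)
      simp only [map_mul, hσ] at e1 e2
      simp only [e1, e2]
      exact hθ _ (σ x).2 _ (σ y).2 _ (σ w).2)
  obtain ⟨α, hα⟩ : ∃ α : Ω, α ^ 2 = a := ⟨_, sqr_spec (k := k) h6 _⟩
  have ha0' : (a : Ω) ≠ 0 := fun h => ha0 (Subtype.ext h)
  have hα0 : α ≠ 0 := fun h => ha0' (by rw [← hα, h, zero_pow two_ne_zero])
  have hβ : ∀ g : H, ∃ n : F2, (b (π g) : Ω) * gal g.1 α / α = (-1) ^ n.val := fun g => by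
    refine H2_root ?_
    have e : (b (π g) : Ω) ^ 2 * gal g.1 a = a := by
      rw [← hπ]
      exact congrArg Subtype.val (ha (π g))
    rw [div_pow, mul_pow, ← map_pow, hα, e, div_self ha0']
  choose β hβ using hβ
  have hinj := H2_inj (GalKum_two (Ω := Ω) h6)
  let H' : Subgroup (WG k Ω) := U ⊓ (MulAction.stabilizer (Gam k Ω) α).comap gal
  have mH : ∀ g, g ∈ H' ↔ g ∈ U ∧ gal g α = α := fun g => Iff.rfl
  obtain ⟨S, hS⟩ := hU.2.2.1
  have hH' : Adm H'.normalCore := by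
    refine adm_core H' (inf_le_left.trans hU.le) (insert α S) (fun g hg h => (mH g).2
      ⟨hS g hg fun c hc => h c (Finset.mem_insert_of_mem hc), h α (Finset.mem_insert_self _ _)⟩)
      fun g hg => ?_
    obtain ⟨j, hj⟩ := hU.2.2.2 g hg
    refine ⟨j + 1, ?_⟩
    rw [pow_succ, pow_mul]
    generalize g ^ mo ^ j = u at hj
    obtain ⟨c3, hc3⟩ := two_dvd_mo
    rw [hc3, pow_mul]
    refine H'.pow_mem ((mH _).2 ⟨U.pow_mem hj 2, ?_⟩) c3
    obtain ⟨n, hn⟩ := H2_root (u := gal u α / α) (by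
      rw [div_pow, ← map_pow, hα, (mem_MU hU.le).1 a.2 u hj, div_self ha0'])
    have e := (div_eq_iff hα0).1 hn
    have e3 : ((-1 : Ω) ^ n.val) ^ 2 = 1 := H2_sq _
    rw [map_pow, sq, AlgEquiv.mul_apply]
    simp only [e, map_mul, map_pow, map_neg, map_one]
    linear_combination α * e3
  refine ⟨fun g => if h : g ∈ H then β ⟨g, h⟩ else 0, ⟨H'.normalCore, hH', fun g hg u hu => ?_⟩,
    fun g hg h hh => ?_⟩
  · obtain ⟨hu1, hu2⟩ := (mH u).1 (H'.normalCore_le hu)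
    have hu0 : u ∈ H := hle hu1
    have hgu : g * u ∈ H := H.mul_mem hg hu0
    simp only [dif_pos hg, dif_pos hgu]
    refine hinj _ _ ?_
    rw [← hβ, ← hβ]
    have e : π ⟨g * u, hgu⟩ = π ⟨g, hg⟩ := by
      rw [show (⟨g * u, hgu⟩ : H) = ⟨g, hg⟩ * ⟨u, hu0⟩ from rfl, map_mul,
        (hπ1 ⟨u, hu0⟩).2 hu1, mul_one]
    rw [e]
    simp only [map_mul, AlgEquiv.mul_apply, hu2]
  · have hgh : g * h ∈ H := H.mul_mem hg hh
    simp only [dif_pos hg, dif_pos hh, dif_pos hgh]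
    rw [eq_sub_iff_add_eq]
    refine hinj _ _ ?_
    rw [GalKum_pow_add, GalKum_pow_add, ← hβ, ← hβ ⟨g, hg⟩]
    have e1 : (-1) ^ (θ g h).val * (b (π ⟨g * h, hgh⟩) : Ω) =
        b (π ⟨g, hg⟩) * gal g (b (π ⟨h, hh⟩)) := by
      have := congrArg Subtype.val (hb (π ⟨g, hg⟩) (π ⟨h, hh⟩))
      rw [hθπ, ← map_mul] at this
      rw [← hπ ⟨g, hg⟩]
      exact this
    have e2 : (b (π ⟨h, hh⟩) : Ω) * gal h α = (-1) ^ (β ⟨h, hh⟩).val * α :=
      (div_eq_iff hα0).1 (hβ ⟨h, hh⟩)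
    have e3 := congrArg (gal g) e2
    simp only [map_mul, map_pow, map_neg, map_one] at e3
    simp only [map_mul, AlgEquiv.mul_apply]
    field_simp
    linear_combination gal g (gal h α) * e1 + (b (π ⟨g, hg⟩) : Ω) * e3

end Pool.Agent.Hyp
end

-- merged part: Pool.Agent.Work.MP_60d5ce_nt.Hy.StatB
section
/-!
# Almost all polynomials have a good factorisation type

Write `π e` for the number of finite places of degree `e`: `e * π e ≤ q ^ e` (`pnt_upper`) and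
`q ^ e ≤ e * π e + 2 * q ^ ((e + 1) / 2)` (`pnt`).  The proportion of multiples of `g` in `Pn n` is at
most `q ^ (-deg g)` (`card_dvd`), with equality if `deg g ≤ n` (`card_dvd_eq`).
* `bad_one`: `pl v ^ 2 ∣ d`; `∑ e ≥ e0, π e * q ^ (-2 e) ≤ ∑ 2 ^ (-e)`.
* `bad_inj`: `pl v * pl v' ∣ d`; `∑ e ≥ e0, 1 / e ^ 2 ≤ 1 / (e0 - 1)`.
* `bad_few`: `2 ^ card` is the number of subsets `B` of the places of degree at most `e` with
  `∏ v ∈ B, pl v ∣ d`; its mean is at most `∏ (1 + q ^ (-deg v)) ≤ exp (∑ j ≤ e, 1 / j) ≤ 3 e`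
  (`Finset.prod_one_add`, `harmonic_le_one_add_log`); Markov: proportion at most `3 / e ^ 3`.
  Only `e ≤ max e0 n` matters.
* `bad_many`: second moment for the number `X` of prime factors with degree in
  `I = {e | n ≤ e ^ 2, 2 e ≤ n, e odd}`: mean `μ = ∑ e ∈ I, π e * q ^ (-e)`, mean of `X (X - 1)` at most
  `μ ^ 2`, so the variance is at most `μ`, and `μ ≥ (1 / 2) ∑ e ∈ I, 1 / e` tends to infinity.
-/

namespace Pool.Agent.Hyp

open Pool.Agent.Quad

variable [Par]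

open scoped Classical
open Polynomial Filter

variable {k : Type} [Field k] [Fintype k]

variable (k) in
/-- the sample space -/
noncomputable def StatB_Om (n : ℕ) : Finset k[X] := (Pn_finite (k := k) n).toFinset

theorem StatB_mem {n : ℕ} {d : k[X]} : d ∈ StatB_Om k n ↔ d ∈ Pn k n := Set.Finite.mem_toFinset _

theorem StatB_cnt (n : ℕ) (p : k[X] → Prop) : ({d | d ∈ Pn k n ∧ p d}.ncard : ℝ) =
    ∑ d ∈ StatB_Om k n, if p d then (1 : ℝ) else 0 := by
  rw [Finset.sum_boole, ← Set.ncard_coe_finset]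
  congr 2
  ext d
  simp [StatB_mem]

theorem StatB_N (n : ℕ) : ((Pn k n).ncard : ℝ) = (StatB_Om k n).card := by
  rw [← Set.ncard_coe_finset, StatB_Om, Set.Finite.coe_toFinset]

theorem StatB_markov (n : ℕ) (p : k[X] → Prop) (f : k[X] → ℝ) (c : ℝ)
    (h0 : ∀ d ∈ Pn k n, 0 ≤ f d) (h : ∀ d ∈ Pn k n, p d → c ≤ f d) :
    c * ({d | d ∈ Pn k n ∧ p d}.ncard : ℝ) ≤ ∑ d ∈ StatB_Om k n, f d := by
  rw [StatB_cnt, Finset.mul_sum]
  refine Finset.sum_le_sum fun d hd => ?_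
  split_ifs with hp
  · rw [mul_one]
    exact h d (StatB_mem.1 hd) hp
  · rw [mul_zero]
    exact h0 d (StatB_mem.1 hd)

theorem StatB_union {ι : Type} (n : ℕ) (p : k[X] → Prop) (s : Finset ι) (r : ι → k[X] → Prop)
    (h : ∀ d ∈ Pn k n, p d → ∃ i ∈ s, r i d) :
    ({d | d ∈ Pn k n ∧ p d}.ncard : ℝ) ≤ ∑ i ∈ s, ({d | d ∈ Pn k n ∧ r i d}.ncard : ℝ) := by
  have := StatB_markov n p (fun d => ∑ i ∈ s, if r i d then (1 : ℝ) else 0) 1
    (fun d _ => Finset.sum_nonneg fun i _ => by split_ifs <;> norm_num) (fun d hd hp => by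
      obtain ⟨i, hi, hr⟩ := h d hd hp
      have := Finset.single_le_sum (f := fun i => if r i d then (1 : ℝ) else 0)
        (fun i _ => by split_ifs <;> norm_num) hi
      simpa [hr] using this)
  rw [one_mul, Finset.sum_comm] at this
  simpa only [StatB_cnt] using this

variable (k) in
/-- the finite places of degree `e` -/
noncomputable def StatB_Pe (e : ℕ) : Finset (Pl k) :=
  Set.Finite.toFinset (s := {v : Pl k | pdg v = e ∧ v ≠ none})
    ((pdg_fin (k := k) e).subset fun _ hv => hv.1)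

theorem StatB_mem_Pe {e : ℕ} {v : Pl k} : v ∈ StatB_Pe k e ↔ pdg v = e ∧ v ≠ none :=
  Set.Finite.mem_toFinset _

theorem StatB_card_Pe (e : ℕ) :
    {v : Pl k | pdg v = e ∧ v ≠ none}.ncard = (StatB_Pe k e).card := by
  rw [← Set.ncard_coe_finset, StatB_Pe, Set.Finite.coe_toFinset]

theorem StatB_q : (2 : ℝ) ≤ Fintype.card k := by
  exact_mod_cast Fintype.one_lt_card

theorem StatB_upper {e : ℕ} (he : 0 < e) :
    ((StatB_Pe k e).card : ℝ) * ((Fintype.card k : ℝ) ^ e)⁻¹ ≤ (e : ℝ)⁻¹ := by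
  have h := pnt_upper (k := k) e
  rw [StatB_card_Pe] at h
  have h' : (e : ℝ) * (StatB_Pe k e).card ≤ (Fintype.card k : ℝ) ^ e := by exact_mod_cast h
  have hq : (0 : ℝ) < (Fintype.card k : ℝ) ^ e := pow_pos (by linarith [StatB_q (k := k)]) _
  have he' : (0 : ℝ) < e := by exact_mod_cast he
  rw [← div_eq_mul_inv, inv_eq_one_div, div_le_div_iff₀ hq he']
  linarith

theorem StatB_lower {e : ℕ} (he : 4 ≤ e) :
    (2 * e : ℝ)⁻¹ ≤ ((StatB_Pe k e).card : ℝ) * ((Fintype.card k : ℝ) ^ e)⁻¹ := by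
  have h := pnt (k := k) e (by omega)
  rw [StatB_card_Pe] at h
  have h2 := StatB_q (k := k)
  have hq : (0 : ℝ) < (Fintype.card k : ℝ) ^ e := pow_pos (by linarith) _
  have he' : (0 : ℝ) < e := by exact_mod_cast (by omega : 0 < e)
  have h3 : (Fintype.card k : ℝ) ^ ((e + 1) / 2 + 2) ≤ (Fintype.card k : ℝ) ^ e :=
    pow_le_pow_right₀ (by linarith) (by omega)
  have h4 : (0 : ℝ) < (Fintype.card k : ℝ) ^ ((e + 1) / 2) := pow_pos (by linarith) _
  have h5 : (4 : ℝ) ≤ (Fintype.card k : ℝ) ^ 2 := by nlinarith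
  rw [pow_add] at h3
  have h6 := mul_le_mul_of_nonneg_left h5 h4.le
  rw [← div_eq_mul_inv, inv_eq_one_div, div_le_div_iff₀ (by positivity) hq]
  linarith

/-- the weight of a place -/
noncomputable def StatB_w (v : Pl k) : ℝ := ((Fintype.card k : ℝ) ^ pdg v)⁻¹

theorem StatB_w_nonneg (v : Pl k) : 0 ≤ StatB_w v := by
  unfold StatB_w
  positivity

theorem StatB_sum_w (I : Finset ℕ) : ∑ v ∈ I.biUnion (StatB_Pe k), StatB_w v =
    ∑ e ∈ I, ((StatB_Pe k e).card : ℝ) * ((Fintype.card k : ℝ) ^ e)⁻¹ := by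
  rw [Finset.sum_biUnion]
  · refine Finset.sum_congr rfl fun e _ => ?_
    rw [← nsmul_eq_mul, ← Finset.sum_const]
    exact Finset.sum_congr rfl fun v hv => by rw [StatB_w, (StatB_mem_Pe.1 hv).1]
  · intro e _ e' _ hne
    exact Finset.disjoint_left.2 fun v hv hv' =>
      hne ((StatB_mem_Pe.1 hv).1.symm.trans (StatB_mem_Pe.1 hv').1)

theorem StatB_dvd {g : k[X]} (hg : g ≠ 0) (n : ℕ) : ({d | d ∈ Pn k n ∧ g ∣ d}.ncard : ℝ) ≤
    ((Fintype.card k : ℝ) ^ g.natDegree)⁻¹ * (Pn k n).ncard := by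
  have h := card_dvd hg n
  have hq : (0 : ℝ) < (Fintype.card k : ℝ) ^ g.natDegree :=
    pow_pos (by linarith [StatB_q (k := k)]) _
  rw [le_inv_mul_iff₀ hq, mul_comm]
  exact_mod_cast h

theorem StatB_dvd_eq {v : Pl k} (hv : v ≠ none) {n : ℕ} (hn : pdg v ≤ n) :
    ({d | d ∈ Pn k n ∧ pl v ∣ d}.ncard : ℝ) = StatB_w v * (Pn k n).ncard := by
  have h := card_dvd_eq (monic_pl v).ne_zero (n := n) (by rw [natDegree_pl hv]; exact hn)
  rw [natDegree_pl hv] at h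
  have hq : (0 : ℝ) < (Fintype.card k : ℝ) ^ pdg v := pow_pos (by linarith [StatB_q (k := k)]) _
  rw [StatB_w, eq_inv_mul_iff_mul_eq₀ hq.ne', mul_comm]
  exact_mod_cast h

omit [Fintype k] in
theorem StatB_coprime {v v' : Pl k} (hv : v ≠ none) (hv' : v' ≠ none) (h : v ≠ v') :
    IsCoprime (pl v) (pl v') := by
  obtain _ | p := v
  · exact absurd rfl hv
  obtain _ | p' := v'
  · exact absurd rfl hv'
  refine p.2.2.coprime_iff_not_dvd.2 fun hd => h ?_
  exact congrArg some (Subtype.ext (eq_of_monic_of_associated p.2.1 p'.2.1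
    (p.2.2.associated_of_dvd p'.2.2 hd)))

theorem StatB_prod (B : Finset (Pl k)) (hB : ∀ v ∈ B, v ≠ none) (n : ℕ) :
    ({d | d ∈ Pn k n ∧ ∀ v ∈ B, pl v ∣ d}.ncard : ℝ) ≤ (∏ v ∈ B, StatB_w v) * (Pn k n).ncard := by
  have hm : (∏ v ∈ B, pl v).Monic := monic_prod_of_monic _ _ fun v _ => monic_pl v
  have h := StatB_dvd hm.ne_zero n
  rw [natDegree_prod_of_monic _ _ fun v _ => monic_pl v,
    Finset.sum_congr rfl fun v hv => natDegree_pl (hB v hv), ← Finset.prod_pow_eq_pow_sum,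
    ← Finset.prod_inv_distrib] at h
  refine le_trans ?_ h
  refine Nat.cast_le.2 (Set.ncard_le_ncard (fun d hd => ⟨hd.1, ?_⟩)
    ((Pn_finite n).subset fun d hd => hd.1))
  exact Finset.prod_dvd_of_coprime (fun v hv v' hv' hne => StatB_coprime (hB v hv) (hB v' hv') hne)
    hd.2

theorem StatB_pair {v v' : Pl k} (hv : v ≠ none) (hv' : v' ≠ none) (h : v ≠ v') (n : ℕ) :
    ({d | d ∈ Pn k n ∧ (pl v ∣ d ∧ pl v' ∣ d)}.ncard : ℝ) ≤
      StatB_w v * StatB_w v' * (Pn k n).ncard := by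
  have := StatB_prod {v, v'} (by simp [hv, hv']) n
  rw [Finset.prod_pair h] at this
  simpa using this

theorem StatB_pdg_le {n : ℕ} {d : k[X]} (hd : d ∈ Pn k n) {v : Pl k} (hv : v ∈ fac d) :
    pdg v ≤ n := by
  obtain ⟨h1, h2⟩ := (mem_fac_iff hd.1).1 hv
  rw [← natDegree_pl h1, ← hd.2]
  exact natDegree_le_of_dvd h2 hd.1

theorem StatB_inv_sq {e0 : ℕ} (he : 1 ≤ e0) (m : ℕ) :
    ∑ e ∈ Finset.Icc e0 m, ((e : ℝ) ^ 2)⁻¹ ≤ 2 / e0 := by
  obtain ⟨j, rfl⟩ := Nat.exists_eq_add_of_le' he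
  have h := sum_Ioo_inv_sq_le (α := ℝ) j (m + 1)
  have e : Finset.Icc (j + 1) m = Finset.Ioo j (m + 1) := by
    ext i
    simp only [Finset.mem_Icc, Finset.mem_Ioo]
    omega
  rw [e]
  push_cast
  exact h

theorem StatB_few {e : ℕ} (he : 1 ≤ e) (n : ℕ) :
    ({d | d ∈ Pn k n ∧ e ^ 4 < 2 ^ ((fac d).filter fun v => pdg v ≤ e).card}.ncard : ℝ) ≤
      3 * ((e : ℝ) ^ 2)⁻¹ * (Pn k n).ncard := by
  set L := (Finset.Icc 1 e).biUnion (StatB_Pe k) with hL
  have he' : (1 : ℝ) ≤ e := by exact_mod_cast he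
  have h1 := StatB_markov n (fun d => e ^ 4 < 2 ^ ((fac d).filter fun v => pdg v ≤ e).card)
    (fun d => ∑ B ∈ L.powerset, if ∀ v ∈ B, pl v ∣ d then (1 : ℝ) else 0) ((e : ℝ) ^ 4)
    (fun d _ => Finset.sum_nonneg fun i _ => by split_ifs <;> norm_num) (fun d hd hp => by
      rw [Finset.sum_boole]
      rw [← Finset.card_powerset] at hp
      refine le_trans (by exact_mod_cast hp.le) (Nat.cast_le.2 (Finset.card_le_card fun B hB => ?_))
      have hB' := Finset.mem_powerset.1 hB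
      refine Finset.mem_filter.2 ⟨Finset.mem_powerset.2 fun v hv => ?_, fun v hv => ?_⟩
      · obtain ⟨h1, h2⟩ := Finset.mem_filter.1 (hB' hv)
        exact Finset.mem_biUnion.2 ⟨pdg v, Finset.mem_Icc.2 ⟨pdg_pos v, h2⟩,
          StatB_mem_Pe.2 ⟨rfl, ((mem_fac_iff hd.1).1 h1).1⟩⟩
      · exact ((mem_fac_iff hd.1).1 (Finset.mem_filter.1 (hB' hv)).1).2)
  have h2 : ∑ d ∈ StatB_Om k n, ∑ B ∈ L.powerset, (if ∀ v ∈ B, pl v ∣ d then (1 : ℝ) else 0) ≤
      (∏ v ∈ L, (1 + StatB_w v)) * (Pn k n).ncard := by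
    rw [Finset.sum_comm, Finset.prod_one_add, Finset.sum_mul]
    refine Finset.sum_le_sum fun B hB => ?_
    have := StatB_prod B (fun v hv => by
      obtain ⟨j, -, hj⟩ := Finset.mem_biUnion.1 (Finset.mem_powerset.1 hB hv)
      exact (StatB_mem_Pe.1 hj).2) n
    rw [StatB_cnt] at this
    exact le_trans (le_of_eq (Finset.sum_congr rfl fun d _ => by congr)) this
  have h3 : ∑ v ∈ L, StatB_w v ≤ 1 + Real.log e := by
    rw [hL, StatB_sum_w]
    refine le_trans (Finset.sum_le_sum fun j hj => StatB_upper (Finset.mem_Icc.1 hj).1) ?_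
    have := harmonic_le_one_add_log e
    rw [harmonic_eq_sum_Icc] at this
    push_cast at this
    exact this
  have h4 : ∏ v ∈ L, (1 + StatB_w v) ≤ 3 * (e : ℝ) ^ 2 := by
    refine (Real.prod_one_add_le_exp_sum L StatB_w_nonneg).trans ((Real.exp_le_exp.2 h3).trans ?_)
    rw [Real.exp_add, Real.exp_log (by linarith)]
    exact mul_le_mul Real.exp_one_lt_three.le (by nlinarith) (by linarith) (by norm_num)
  have h5 := h1.trans (h2.trans (mul_le_mul_of_nonneg_right h4 (Nat.cast_nonneg _)))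
  have h6 : (0 : ℝ) < (e : ℝ) ^ 4 := by positivity
  refine le_of_mul_le_mul_left (h5.trans_eq ?_) h6
  field_simp

theorem StatB_var (L : Finset (Pl k)) (n : ℕ) (hL : ∀ v ∈ L, v ≠ none ∧ pdg v ≤ n) :
    ∑ d ∈ StatB_Om k n, ((∑ v ∈ L, if pl v ∣ d then (1 : ℝ) else 0) - ∑ v ∈ L, StatB_w v) ^ 2 ≤
      (∑ v ∈ L, StatB_w v) * (Pn k n).ncard := by
  set μ := ∑ v ∈ L, StatB_w v with hμ
  have h1 : ∑ d ∈ StatB_Om k n, ∑ v ∈ L, (if pl v ∣ d then (1 : ℝ) else 0) =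
      μ * (Pn k n).ncard := by
    rw [Finset.sum_comm, hμ, Finset.sum_mul]
    refine Finset.sum_congr rfl fun v hv => ?_
    rw [← StatB_dvd_eq (hL v hv).1 (hL v hv).2, StatB_cnt]
  have h2 : ∑ d ∈ StatB_Om k n, (∑ v ∈ L, if pl v ∣ d then (1 : ℝ) else 0) ^ 2 ≤
      (μ ^ 2 + μ) * (Pn k n).ncard := by
    have e1 : (μ ^ 2 + μ) * (Pn k n).ncard = ∑ v ∈ L, ∑ v' ∈ L,
        (StatB_w v * StatB_w v' + if v = v' then StatB_w v else 0) * (Pn k n).ncard := by
      simp only [← Finset.sum_mul, Finset.sum_add_distrib, Finset.sum_ite_eq]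
      rw [Finset.sum_congr rfl fun v hv => if_pos hv, sq, hμ, Finset.sum_mul_sum]
    simp only [sq, Finset.sum_mul_sum] at e1 ⊢
    rw [e1, Finset.sum_comm]
    refine Finset.sum_le_sum fun v hv => ?_
    rw [Finset.sum_comm]
    refine Finset.sum_le_sum fun v' hv' => ?_
    have e2 : ∑ d ∈ StatB_Om k n, (if pl v ∣ d then (1 : ℝ) else 0) *
        (if pl v' ∣ d then (1 : ℝ) else 0) =
        ({d | d ∈ Pn k n ∧ (pl v ∣ d ∧ pl v' ∣ d)}.ncard : ℝ) := by
      rw [StatB_cnt]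
      refine Finset.sum_congr rfl fun d _ => ?_
      by_cases a1 : pl v ∣ d <;> by_cases a2 : pl v' ∣ d <;> simp [a1, a2]
    rw [e2]
    by_cases hvv : v = v'
    · subst hvv
      simp only [and_self, if_true]
      rw [StatB_dvd_eq (hL v hv).1 (hL v hv).2]
      exact mul_le_mul_of_nonneg_right (le_add_of_nonneg_left (mul_self_nonneg _))
        (Nat.cast_nonneg _)
    · rw [if_neg hvv, add_zero]
      exact StatB_pair (hL v hv).1 (hL v' hv').1 hvv n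
  simp only [sub_sq, Finset.sum_add_distrib, Finset.sum_sub_distrib, ← Finset.sum_mul,
    ← Finset.mul_sum, h1, Finset.sum_const, nsmul_eq_mul, ← StatB_N]
  linarith

theorem StatB_harm {s : ℕ} (hs : 1 ≤ s) (K : ℕ) :
    (K : ℝ) / 2 ≤ ∑ j ∈ Finset.Ico s (2 ^ K * s), (j : ℝ)⁻¹ := by
  induction K with
  | zero => simp
  | succ K ih =>
    have h1 : s ≤ 2 ^ K * s := Nat.le_mul_of_pos_left _ (by positivity)
    have h2 : 2 ^ (K + 1) * s = 2 ^ K * s + 2 ^ K * s := by ring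
    rw [← Finset.sum_Ico_consecutive _ h1 (by omega : 2 ^ K * s ≤ 2 ^ (K + 1) * s), h2]
    set a := 2 ^ K * s with ha
    have ha0 : (0 : ℝ) < a := by exact_mod_cast (by omega : 0 < a)
    have h3 : ∑ _j ∈ Finset.Ico a (a + a), (2 * a : ℝ)⁻¹ ≤ ∑ j ∈ Finset.Ico a (a + a), (j : ℝ)⁻¹ := by
      refine Finset.sum_le_sum fun j hj => ?_
      obtain ⟨h4, h5⟩ := Finset.mem_Ico.1 hj
      refine inv_anti₀ (by exact_mod_cast (by omega : 0 < j)) ?_
      exact_mod_cast (by omega : j ≤ 2 * a)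
    rw [Finset.sum_const, Nat.card_Ico, Nat.add_sub_cancel, nsmul_eq_mul] at h3
    have h6 : (a : ℝ) * (2 * a : ℝ)⁻¹ = 1 / 2 := by field_simp
    push_cast
    linarith

theorem StatB_mean (K : ℕ) : ∀ᶠ n : ℕ in atTop, ∃ L : Finset (Pl k),
    (∀ v ∈ L, v ≠ none ∧ pdg v ≤ n ∧ n ≤ pdg v ^ 2 ∧ pdg v % 2 = 1) ∧
      (K : ℝ) / 16 ≤ ∑ v ∈ L, StatB_w v := by
  filter_upwards [eventually_ge_atTop ((6 * 2 ^ K + 1) * (6 * 2 ^ K + 1))] with n hn
  have h1 : 6 * 2 ^ K + 1 ≤ Nat.sqrt n := Nat.le_sqrt.2 hn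
  have h2 : Nat.sqrt n * Nat.sqrt n ≤ n := Nat.sqrt_le n
  have h3 : n < (Nat.sqrt n + 1) * (Nat.sqrt n + 1) := Nat.lt_succ_sqrt n
  set r := Nat.sqrt n with hr
  refine ⟨((Finset.Ico (r + 1) (2 ^ K * (r + 1))).image fun j => 2 * j + 1).biUnion (StatB_Pe k),
    fun v hv => ?_, ?_⟩
  · obtain ⟨e, he, hve⟩ := Finset.mem_biUnion.1 hv
    obtain ⟨j, hj, rfl⟩ := Finset.mem_image.1 he
    obtain ⟨h4, h5⟩ := Finset.mem_Ico.1 hj
    obtain ⟨h6, h7⟩ := StatB_mem_Pe.1 hve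
    rw [h6]
    refine ⟨h7, ?_, ?_, by omega⟩
    · have a1 : 2 ^ K * (r + 1) ≤ 2 ^ K * (2 * r) := Nat.mul_le_mul_left _ (by omega)
      have a2 : (6 * 2 ^ K + 1) * r ≤ r * r := Nat.mul_le_mul_right _ h1
      have a3 : (6 * 2 ^ K + 1) * r = 3 * (2 ^ K * (2 * r)) + r := by ring
      omega
    · rw [sq]
      exact h3.le.trans (Nat.mul_le_mul (by omega) (by omega))
  · rw [StatB_sum_w, Finset.sum_image fun a _ b _ h => by simpa using h]
    have h4 := StatB_harm (s := r + 1) (by omega) K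
    have h5 : (K : ℝ) / 16 ≤ ∑ j ∈ Finset.Ico (r + 1) (2 ^ K * (r + 1)), 8⁻¹ * (j : ℝ)⁻¹ := by
      rw [← Finset.mul_sum]
      linarith
    refine h5.trans (Finset.sum_le_sum fun j hj => ?_)
    have h6 : 1 ≤ j := by have := (Finset.mem_Ico.1 hj).1; omega
    have h7 : (1 : ℝ) ≤ j := by exact_mod_cast h6
    have h8 : 2 ≤ j := by
      have := (Finset.mem_Ico.1 hj).1
      have : 0 < 2 ^ K := by positivity
      omega
    refine le_trans ?_ (StatB_lower (by omega))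
    rw [← mul_inv]
    refine inv_anti₀ (by positivity) ?_
    push_cast
    linarith

theorem bad_one {e0 : ℕ} (he : 1 ≤ e0) (n : ℕ) :
    ({d | d ∈ Pn k n ∧ ∃ v ∈ fac d, e0 ≤ pdg v ∧ mult d v ≠ 1}.ncard : ℝ) ≤
      2 / e0 * (Pn k n).ncard := by
  refine (StatB_union n _ ((Finset.Icc e0 n).sigma (StatB_Pe k)) (fun i d => pl i.2 ^ 2 ∣ d)
    fun d hd hp => ?_).trans ?_
  · obtain ⟨v, hv, h1, h2⟩ := hp
    have h3 := (mem_fac hd.1).1 hv
    have h4 := ((mem_fac_iff hd.1).1 hv).1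
    refine ⟨⟨pdg v, v⟩, Finset.mem_sigma.2 ⟨Finset.mem_Icc.2 ⟨h1, StatB_pdg_le hd hv⟩,
      StatB_mem_Pe.2 ⟨rfl, h4⟩⟩, ?_⟩
    obtain _ | p := v
    · exact absurd rfl h4
    · exact pow_dvd_of_le_multiplicity (show 2 ≤ mult d (some p) by omega)
  rw [Finset.sum_sigma]
  refine le_trans (Finset.sum_le_sum fun e hE => ?_) ((Finset.sum_mul _ _ _).symm.trans_le
    (mul_le_mul_of_nonneg_right (StatB_inv_sq he n) (Nat.cast_nonneg _)))
  have he0 : 0 < e := lt_of_lt_of_le he (Finset.mem_Icc.1 hE).1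
  have h1 : ∀ v ∈ StatB_Pe k e, ({d | d ∈ Pn k n ∧ pl v ^ 2 ∣ d}.ncard : ℝ) ≤
      ((Fintype.card k : ℝ) ^ e)⁻¹ * ((Fintype.card k : ℝ) ^ e)⁻¹ * (Pn k n).ncard := by
    intro v hv
    have := StatB_dvd (pow_ne_zero 2 (monic_pl v).ne_zero) n
    rwa [natDegree_pow, natDegree_pl (StatB_mem_Pe.1 hv).2, (StatB_mem_Pe.1 hv).1, two_mul, pow_add,
      mul_inv] at this
  refine (Finset.sum_le_card_nsmul _ _ _ h1).trans ?_
  rw [nsmul_eq_mul, ← mul_assoc, ← mul_assoc, sq, mul_inv]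
  refine mul_le_mul_of_nonneg_right (mul_le_mul (StatB_upper he0) ?_ (by positivity)
    (by positivity)) (Nat.cast_nonneg _)
  refine inv_anti₀ (by exact_mod_cast he0) ?_
  exact_mod_cast (Nat.lt_pow_self Fintype.one_lt_card).le

theorem bad_inj {e0 : ℕ} (he : 1 ≤ e0) (n : ℕ) :
    ({d | d ∈ Pn k n ∧ ∃ v ∈ fac d, ∃ v' ∈ fac d, e0 ≤ pdg v ∧ pdg v = pdg v' ∧ v ≠ v'}.ncard : ℝ)
      ≤ 2 / e0 * (Pn k n).ncard := by
  refine (StatB_union n _ ((Finset.Icc e0 n).sigma fun e => (StatB_Pe k e).offDiag)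
    (fun i d => pl i.2.1 ∣ d ∧ pl i.2.2 ∣ d) fun d hd hp => ?_).trans ?_
  · obtain ⟨v, hv, v', hv', h1, h2, h3⟩ := hp
    have h4 := (mem_fac_iff hd.1).1 hv
    have h5 := (mem_fac_iff hd.1).1 hv'
    exact ⟨⟨pdg v, v, v'⟩, Finset.mem_sigma.2 ⟨Finset.mem_Icc.2 ⟨h1, StatB_pdg_le hd hv⟩,
      Finset.mem_offDiag.2 ⟨StatB_mem_Pe.2 ⟨rfl, h4.1⟩, StatB_mem_Pe.2 ⟨h2.symm, h5.1⟩, h3⟩⟩,
      h4.2, h5.2⟩
  rw [Finset.sum_sigma]
  refine le_trans (Finset.sum_le_sum fun e hE => ?_) ((Finset.sum_mul _ _ _).symm.trans_le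
    (mul_le_mul_of_nonneg_right (StatB_inv_sq he n) (Nat.cast_nonneg _)))
  have he0 : 0 < e := lt_of_lt_of_le he (Finset.mem_Icc.1 hE).1
  have h1 : ∀ p ∈ (StatB_Pe k e).offDiag,
      ({d | d ∈ Pn k n ∧ (pl p.1 ∣ d ∧ pl p.2 ∣ d)}.ncard : ℝ) ≤
      ((Fintype.card k : ℝ) ^ e)⁻¹ * ((Fintype.card k : ℝ) ^ e)⁻¹ * (Pn k n).ncard := by
    intro p hp
    obtain ⟨a1, a2, a3⟩ := Finset.mem_offDiag.1 hp
    have := StatB_pair (StatB_mem_Pe.1 a1).2 (StatB_mem_Pe.1 a2).2 a3 n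
    rwa [StatB_w, StatB_w, (StatB_mem_Pe.1 a1).1, (StatB_mem_Pe.1 a2).1] at this
  refine (Finset.sum_le_card_nsmul _ _ _ h1).trans ?_
  rw [nsmul_eq_mul, ← mul_assoc, sq, mul_inv]
  refine mul_le_mul_of_nonneg_right ?_ (Nat.cast_nonneg _)
  have h2 : ((StatB_Pe k e).offDiag.card : ℝ) ≤ (StatB_Pe k e).card * (StatB_Pe k e).card := by
    rw [Finset.offDiag_card]
    exact_mod_cast Nat.sub_le _ _
  refine (mul_le_mul_of_nonneg_right h2 (by positivity)).trans ?_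
  rw [mul_mul_mul_comm]
  exact mul_le_mul (StatB_upper he0) (StatB_upper he0) (by positivity) (by positivity)

theorem bad_few {e0 : ℕ} (he : 1 ≤ e0) (n : ℕ) :
    ({d | d ∈ Pn k n ∧ ∃ e, e0 ≤ e ∧ e ^ 4 < 2 ^ ((fac d).filter fun v => pdg v ≤ e).card}.ncard
      : ℝ) ≤ 6 / e0 * (Pn k n).ncard := by
  refine (StatB_union n _ (Finset.Icc e0 (max e0 n))
    (fun e d => e ^ 4 < 2 ^ ((fac d).filter fun v => pdg v ≤ e).card) fun d hd hp => ?_).trans ?_
  · obtain ⟨e, h1, h2⟩ := hp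
    by_cases h3 : e ≤ max e0 n
    · exact ⟨e, Finset.mem_Icc.2 ⟨h1, h3⟩, h2⟩
    · refine ⟨max e0 n, Finset.mem_Icc.2 ⟨le_max_left _ _, le_rfl⟩, ?_⟩
      refine lt_of_le_of_lt (Nat.pow_le_pow_left (not_le.1 h3).le 4) (h2.trans_le ?_)
      refine Nat.pow_le_pow_right (by norm_num) (Finset.card_le_card fun v hv => ?_)
      have h4 := (Finset.mem_filter.1 hv).1
      exact Finset.mem_filter.2 ⟨h4, (StatB_pdg_le hd h4).trans (le_max_right _ _)⟩
  refine (Finset.sum_le_sum fun e hE => StatB_few (he.trans (Finset.mem_Icc.1 hE).1) n).trans ?_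
  rw [← Finset.sum_mul, ← Finset.mul_sum]
  refine mul_le_mul_of_nonneg_right ?_ (Nat.cast_nonneg _)
  have := StatB_inv_sq he (max e0 n)
  calc _ ≤ 3 * (2 / (e0 : ℝ)) := by linarith
    _ = _ := by ring

theorem bad_many (A : ℕ) {δ : ℝ} (hδ : 0 < δ) : ∀ᶠ n in atTop,
    ({d | d ∈ Pn k n ∧
      ((fac d).filter fun v => n ≤ pdg v ^ 2 ∧ pdg v % 2 = 1).card < A}.ncard : ℝ) ≤
      δ * (Pn k n).ncard := by
  obtain ⟨K, hK⟩ := exists_nat_ge (16 * (2 * A + 4 / δ))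
  filter_upwards [StatB_mean (k := k) K] with n hn
  obtain ⟨L, hL, hμ⟩ := hn
  have hv := StatB_var L n fun v hv => ⟨(hL v hv).1, (hL v hv).2.1⟩
  set μ := ∑ v ∈ L, StatB_w v with hμdef
  have h1 : 0 < 4 / δ := by positivity
  have hA : (0 : ℝ) ≤ A := Nat.cast_nonneg _
  have h2 : 2 * A ≤ μ := by linarith
  have h3 : 4 / δ ≤ μ := by linarith
  have h4 : 0 < μ := by linarith
  have h5 := StatB_markov n
    (fun d => ((fac d).filter fun v => n ≤ pdg v ^ 2 ∧ pdg v % 2 = 1).card < A)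
    (fun d => ((∑ v ∈ L, if pl v ∣ d then (1 : ℝ) else 0) - μ) ^ 2) ((μ / 2) ^ 2)
    (fun d _ => sq_nonneg _) (fun d hd hp => by
      rw [Finset.sum_boole]
      have a1 : (L.filter fun v => pl v ∣ d).card ≤ A := by
        refine le_trans (Finset.card_le_card fun v hv => ?_) hp.le
        obtain ⟨b1, b2⟩ := Finset.mem_filter.1 hv
        exact Finset.mem_filter.2 ⟨(mem_fac_iff hd.1).2 ⟨(hL v b1).1, b2⟩, (hL v b1).2.2⟩
      have a2 : ((L.filter fun v => pl v ∣ d).card : ℝ) ≤ A := by exact_mod_cast a1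
      rw [← neg_sq (_ - μ)]
      exact pow_le_pow_left₀ (by positivity) (by linarith) 2)
  have h6 := h5.trans hv
  rw [div_le_iff₀ hδ] at h3
  refine le_of_mul_le_mul_left (h6.trans ?_) (by positivity : 0 < (μ / 2) ^ 2)
  rw [← mul_assoc]
  refine mul_le_mul_of_nonneg_right ?_ (Nat.cast_nonneg _)
  nlinarith

theorem stat_good {δ : ℝ} (hδ : 0 < δ) : ∃ e1 : ℕ, ∀ e0, e1 ≤ e0 → ∀ A, ∀ᶠ n in atTop,
    ({d | d ∈ Pn k n ∧ ¬ GT e0 A n d}.ncard : ℝ) ≤ δ * (Pn k n).ncard := by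
  obtain ⟨e1, he1⟩ := exists_nat_ge (20 / δ)
  refine ⟨e1 + 1, fun e0 he0 A => ?_⟩
  filter_upwards [bad_many (k := k) A (half_pos hδ)] with n h4
  have he : 1 ≤ e0 := by omega
  have h1 := bad_one (k := k) he n
  have h2 := bad_inj (k := k) he n
  have h3 := bad_few (k := k) he n
  have h5 := StatB_union (k := k) n (fun d => ¬ GT e0 A n d) (Finset.univ : Finset (Fin 4))
    ![fun d => ∃ v ∈ fac d, e0 ≤ pdg v ∧ mult d v ≠ 1,
      fun d => ∃ v ∈ fac d, ∃ v' ∈ fac d, e0 ≤ pdg v ∧ pdg v = pdg v' ∧ v ≠ v',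
      fun d => ∃ e, e0 ≤ e ∧ e ^ 4 < 2 ^ ((fac d).filter fun v => pdg v ≤ e).card,
      fun d => ((fac d).filter fun v => n ≤ pdg v ^ 2 ∧ pdg v % 2 = 1).card < A] fun d _ hp => by
    by_contra hc
    have hc' := fun i hi => hc ⟨i, Finset.mem_univ i, hi⟩
    refine hp ⟨fun v hv h => ?_, fun v hv v' hv' h h' => ?_, fun e h => ?_, ?_⟩
    · by_contra hn
      exact hc' 0 ⟨v, hv, h, hn⟩
    · by_contra hn
      exact hc' 1 ⟨v, hv, v', hv', h, h', hn⟩
    · by_contra hn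
      exact hc' 2 ⟨e, h, not_le.1 hn⟩
    · by_contra hn
      exact hc' 3 (not_le.1 hn)
  rw [Fin.sum_univ_four] at h5
  have h6 : (10 : ℝ) / e0 ≤ δ / 2 := by
    have a1 : (e1 : ℝ) + 1 ≤ e0 := by exact_mod_cast he0
    rw [div_le_iff₀ hδ] at he1
    rw [div_le_iff₀ (by exact_mod_cast he)]
    nlinarith
  have h7 := mul_le_mul_of_nonneg_right h6 (Nat.cast_nonneg (Pn k n).ncard)
  refine h5.trans ((add_le_add (add_le_add (add_le_add h1 h2) h3) h4).trans ?_)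
  have e : (10 : ℝ) / e0 = 2 / e0 + 2 / e0 + 6 / e0 := by ring
  rw [e] at h7
  linarith

end Pool.Agent.Hyp
end

-- merged part: Pool.Agent.Work.MP_60d5ce_nt.Hy.Dens
section
/-!
# Almost all twists are good
-/

namespace Pool.Agent.Hyp

open Pool.Agent.Quad

variable [Par]

open scoped Classical
open Polynomial Filter

theorem small_of_poly (C D : ℕ) : ∃ e1 : ℕ, ∀ {W P : Type} [Group W] (T : Tame W P) (e N c : ℕ)
    (η : ℝ), e1 ≤ e → N ≤ C * e ^ D → c ≤ C * e ^ D → 1 ≤ η * (C * (e : ℝ) ^ D) →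
    T.Small η N c e := by
  have ht := (tendsto_pow_const_div_const_pow_of_one_lt (D * 5) (one_lt_two (α := ℝ))).const_mul
    (78 * (C : ℝ) ^ 5)
  rw [mul_zero] at ht
  obtain ⟨e1, h1⟩ := eventually_atTop.1 (ht.eventually_le_const one_pos)
  refine ⟨e1, fun T e N c η he hN hc hη => ?_⟩
  have h2 := h1 e he
  rw [← mul_div_assoc, div_le_one (by positivity)] at h2
  have hN' : (N : ℝ) ≤ C * (e : ℝ) ^ D := by exact_mod_cast hN
  have hc' : (c : ℝ) ≤ C * (e : ℝ) ^ D := by exact_mod_cast hc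
  have hM : (1 : ℝ) ≤ C * (e : ℝ) ^ D := by
    have : C * e ^ D ≠ 0 := fun h => by
      have h' : (C : ℝ) * (e : ℝ) ^ D = 0 := by exact_mod_cast h
      rw [h', mul_zero] at hη
      linarith
    exact_mod_cast Nat.one_le_iff_ne_zero.2 this
  have h3 : 78 * (C * (e : ℝ) ^ D) ^ 5 ≤ 2 ^ e := by rwa [mul_pow, ← pow_mul, ← mul_assoc]
  generalize (C : ℝ) * (e : ℝ) ^ D = M at *
  have hq : (4 : ℝ) ≤ T.q := by exact_mod_cast T.q_ge
  have hQ : (1 : ℝ) ≤ (T.q : ℝ) ^ ((e + 1) / 2) := one_le_pow₀ (by linarith)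
  have h4 : (2 : ℝ) ^ e ≤ 2 * (T.q : ℝ) ^ (e / 2) :=
    calc (2 : ℝ) ^ e ≤ 2 ^ (2 * (e / 2) + 1) := pow_le_pow_right₀ one_le_two (by omega)
      _ = 2 * 4 ^ (e / 2) := by rw [pow_succ, pow_mul, mul_comm]; norm_num
      _ ≤ _ := by gcongr
  have h5 : (T.q : ℝ) ^ e = (T.q : ℝ) ^ (e / 2) * (T.q : ℝ) ^ ((e + 1) / 2) := by
    rw [← pow_add]
    congr 1
    omega
  have hη0 : 0 ≤ η := by
    by_contra hn
    nlinarith
  unfold Tame.Small Pre.err
  rw [h5]
  generalize (T.q : ℝ) ^ ((e + 1) / 2) = Q at *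
  have p2 : M ≤ M ^ 3 := le_self_pow₀ hM three_ne_zero
  calc (N : ℝ) * (18 * (N : ℝ) ^ 2 * (c + 1) * Q + 2 * Q + c)
      ≤ M * (18 * M ^ 2 * (M + M) * Q + 2 * (M ^ 3 * Q) + M ^ 3 * Q) := by
        gcongr
        · exact le_mul_of_one_le_left (by linarith) (hM.trans p2)
        · exact (hc'.trans p2).trans (le_mul_of_one_le_right (by positivity) hQ)
    _ = 1 * (39 * M ^ 4 * Q) := by ring
    _ ≤ (η * M) * (39 * M ^ 4 * Q) := by gcongr
    _ = η * (39 * M ^ 5 * Q) := by ring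
    _ ≤ _ := by
        gcongr
        linarith

variable {k : Type} [Field k] [Fintype k] {Ω : Type} [Field Ω] [Algebra (RatFunc k) Ω]
  [Algebra k Ω] [IsScalarTower k (RatFunc k) Ω] [IsSepClosure (RatFunc k) Ω]

/-- the character with the ramification of a cube root of `d` and value `m` at `σ ∞` -/
noncomputable def xd (ℓ : Locs k Ω) (d : k[X]) (m : F2) (g : WG k Ω) : F2 :=
  ∑ v ∈ fac d, (mult d v : F2) * chi ℓ v g + (wdeg g : F2) * m

theorem xd_hom (h6 : ((mo : ℕ) : k) ≠ 0) (ℓ : Locs k Ω) (d : k[X]) (m : F2) :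
    (tame h6 ℓ).IsHom (xd ℓ d m) := by
  have h := Tame.hom_add (Tame.hom_sum (T := tame h6 ℓ) (fac d)
    fun v _ => Tame.hom_smul_const ((tame h6 ℓ).χ_hom v) (mult d v : F2))
    (Tame.hom_smul_const Tame.hom_deg m)
  refine (congrArg _ (funext fun g => ?_)).mp h
  simp only [xd, Pi.add_apply, smul_eq_mul, mul_comm (mult d _ : F2)]
  rfl

theorem Dens_root (ℓ : Locs k Ω) {d : k[X]} (hd : d ≠ 0) {v : Pl k} (hv : v ≠ none) :
    (d.map (algebraMap k (Kb k Ω))).rootMultiplicity (ℓ v).x = mult d v := by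
  obtain ⟨p, rfl⟩ := Option.ne_none_iff_exists'.1 hv
  obtain ⟨c, hc, hn⟩ :=
    (FiniteMultiplicity.of_not_isUnit p.2.2.not_isUnit hd).exists_eq_pow_mul_and_not_dvd
  have h1 := rootMultiplicity_le_one_of_separable
    ((PerfectField.separable_of_irreducible p.2.2).map (f := algebraMap k (Kb k Ω))) (ℓ (some p)).x
  have h2 := (rootMultiplicity_pos (Polynomial.map_ne_zero (f := algebraMap k (Kb k Ω))
    p.2.1.ne_zero) (x := (ℓ (some p)).x)).2 (by
      rw [IsRoot, eval_map_algebraMap]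
      exact (ℓ (some p)).root p rfl)
  have h3 : (c.map (algebraMap k (Kb k Ω))).rootMultiplicity (ℓ (some p)).x = 0 := by
    refine rootMultiplicity_eq_zero fun h => hn ?_
    rw [IsRoot, eval_map_algebraMap] at h
    rw [galloc_min (ℓ (some p))]
    exact minpoly.dvd _ _ h
  have h4 := Polynomial.map_ne_zero (f := algebraMap k (Kb k Ω)) hd
  show _ = multiplicity p.1 d
  generalize multiplicity p.1 d = m at hc
  rw [hc, Polynomial.map_mul] at h4 ⊢
  rw [rootMultiplicity_mul h4, h3, Polynomial.map_pow, ← count_roots, roots_pow,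
    Multiset.count_nsmul, count_roots, le_antisymm h1 h2, mul_one, add_zero]

theorem kum_eq_xd (h6 : ((mo : ℕ) : k) ≠ 0) (ℓ : Locs k Ω) {d : k[X]} (hd : d ≠ 0) {δ : Ω}
    (hδ : δ ^ 2 = algebraMap (RatFunc k) Ω (algebraMap k[X] (RatFunc k) d)) :
    ∃ m, ∀ g, kum δ (gal g) = xd ℓ d m g := by
  have h0 : δ ≠ 0 := by
    rintro rfl
    rw [zero_pow two_ne_zero] at hδ
    exact (_root_.map_ne_zero _).2 (RatFunc.algebraMap_ne_zero hd) hδ.symm
  have hh : (tame h6 ℓ).IsHom fun g => kum δ (gal g) := kum_hom h6 ℓ h0 hδ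
  have hτ : ∀ v, v ≠ none → kum δ (gal (ℓ v).τ) = (mult d v : F2) := fun v hv => by
    have := (ℓ v).kum_tau h6 h0 (by rw [hδ, AlgEquiv.commutes])
      (n := ((d.map (algebraMap k (Kb k Ω))).rootMultiplicity (ℓ v).x : ℤ)) (by
        rw [hδ, ← aeval_tt_base, ← aeval_tt_map]
        exact (ℓ v).w_poly hv (Polynomial.map_ne_zero hd))
    rw [this, Dens_root ℓ hd hv, Int.cast_natCast]
  refine ⟨kum δ (gal (ℓ none).σ), fun g => ?_⟩
  have h1 := Tame.hom_expand hh (A := fac d) (fun v hv hi => by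
    have h2 : mult d v = 0 := not_not.1 fun h => hv ((mem_fac hd).2 h)
    exact (hτ v hi).trans (by rw [h2, Nat.cast_zero])) g
  have h2 : (tame h6 ℓ).inf ∉ fac d := fun h => ((mem_fac_iff hd).1 h).1 rfl
  rw [@Finset.erase_eq_of_notMem _ (_) _ _ h2] at h1
  refine h1.trans (congrArg₂ (· + ·) (Finset.sum_congr rfl fun v hv => ?_) rfl)
  exact (mul_comm _ _).trans (congrArg₂ (· * ·) (hτ v ((mem_fac_iff hd).1 hv).1) rfl)

/-- the places with a local condition for the twist by `d` -/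
noncomputable def Ad {h6 : ((mo : ℕ) : k) ≠ 0} {ℓ : Locs k Ω} (R : Rep (tame h6 ℓ)) (d : k[X]) :
    Finset (Pl k) :=
  R.S ∪ (fac d).filter fun v => Odd (mult d v)

theorem xd_tau (h6 : ((mo : ℕ) : k) ≠ 0) (ℓ : Locs k Ω) {d : k[X]} (hd : d ≠ 0) (m : F2) {v : Pl k}
    (hv : v ≠ none) : xd ℓ d m (ℓ v).τ = (mult d v : F2) := by
  rw [xd, (ℓ v).deg_τ, Finset.sum_eq_single v (fun w _ hw => by
      rw [chi_ne h6 ℓ w v hw.symm hv, mul_zero]) fun h => by
      rw [not_not.1 fun h' => h ((mem_fac hd).2 h'), Nat.cast_zero, zero_mul], chi_self h6 ℓ v hv]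
  simp

theorem ram_xd {h6 : ((mo : ℕ) : k) ≠ 0} {ℓ : Locs k Ω} (R : Rep (tame h6 ℓ)) {d : k[X]} (hd : d ≠ 0)
    (m : F2) : R.Ram (xd ℓ d m) (Ad R d) := by
  refine ⟨Finset.subset_union_left, fun v hv hS => ?_, fun v hv => ?_⟩
  · refine (xd_tau h6 ℓ hd m (v := v) fun h => hS (h ▸ R.inf_mem)).trans (ZMod.natCast_eq_one_iff_odd.2 ?_)
    exact (Finset.mem_filter.1 ((Finset.mem_union.1 hv).resolve_left hS)).2
  · rw [Ad, Finset.mem_union, not_or, Finset.mem_filter, not_and, mem_fac hd] at hv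
    refine (xd_tau h6 ℓ hd m (v := v) fun h => hv.1 (h ▸ R.inf_mem)).trans
      (ZMod.natCast_eq_zero_iff_even.2 ?_)
    by_cases h : mult d v = 0
    · rw [h]
      exact Even.zero
    · exact Nat.not_odd_iff_even.1 (hv.2 h)

theorem Ad_sub {h6 : ((mo : ℕ) : k) ≠ 0} {ℓ : Locs k Ω} (R : Rep (tame h6 ℓ)) (d : k[X]) :
    Ad R d ⊆ R.S ∪ fac d := Finset.union_subset_union_right (Finset.filter_subset _ _)

/-- the box of a factorisation type -/
noncomputable def DensBox {h6 : ((mo : ℕ) : k) ≠ 0} {ℓ : Locs k Ω} (R : Rep (tame h6 ℓ))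
    {d0 : k[X]} (h0 : d0 ≠ 0) (m : F2) (𝓔 : Finset ℕ) (hE : ∀ e ∈ 𝓔, 0 < e) : Box R 𝓔 where
  S1 := Ad R d0
  x0 := xd ℓ d0 m
  e i := i
  x0_hom := xd_hom h6 ℓ d0 m
  ram := ram_xd R h0 m
  e_inj := Subtype.val_injective
  e_pos i := hE i i.2

theorem two_le_KK : 2 ≤ KK := by
  have h : 1 ≤ 2 * gg * (2 * gg) := Nat.mul_pos (Nat.mul_pos two_pos Par.gg_pos) (Nat.mul_pos two_pos Par.gg_pos)
  unfold KK
  omega

theorem NN_add (a b : ℕ) : NN (a + b) = NN a * (2 ^ b) ^ KK := by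
  rw [NN, NN, ← pow_mul, ← pow_add]
  congr 1
  ring

section aux

variable {h6 : ((mo : ℕ) : k) ≠ 0} {ℓ : Locs k Ω} (R : Rep (tame h6 ℓ)) {e0 A n : ℕ} {d0 : k[X]}
  {𝓔 : Finset ℕ} {p : 𝓔 → Pl k}

theorem Dens_inj (hp : p ∈ BoxP k 𝓔) : Function.Injective p := fun i j h =>
  Subtype.ext (by rw [← (hp i).1, ← (hp j).1, h])

theorem Dens_disj (hs : ∀ v ∈ fac d0, pdg v < e0) (hE : ∀ e ∈ 𝓔, e0 ≤ e) (hp : p ∈ BoxP k 𝓔)
    (J : Finset 𝓔) : Disjoint (fac d0) (J.image p) := by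
  refine Finset.disjoint_left.2 fun v hv hv' => ?_
  obtain ⟨i, -, rfl⟩ := Finset.mem_image.1 hv'
  have h1 := hs _ hv
  have h2 := hE i i.2
  rw [(hp i).1] at h1
  omega

theorem Dens_pts (h0 : d0 ≠ 0) (hs : ∀ v ∈ fac d0, pdg v < e0) (hE : ∀ e ∈ 𝓔, e0 ≤ e)
    (hS : ∀ v ∈ R.S, pdg v < e0) {m : F2} {hE' : ∀ e ∈ 𝓔, 0 < e} :
    (DensBox R h0 m 𝓔 hE').pts = BoxP k 𝓔 := by
  refine Set.ext fun p => forall_congr' fun i => and_congr_right fun h => ⟨fun h1 h2 =>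
    h1 (Finset.mem_union_left _ (h2 ▸ R.inf_mem)), fun _ h2 => ?_⟩
  have h3 : pdg (p i) = i := h
  have h4 := hE i i.2
  rcases Finset.mem_union.1 (Ad_sub R d0 h2) with h2 | h2
  · have := hS _ h2
    omega
  · have := hs _ h2
    omega

theorem Dens_A (h0 : d0 ≠ 0) (hs : ∀ v ∈ fac d0, pdg v < e0) (hE : ∀ e ∈ 𝓔, e0 ≤ e)
    (hp : p ∈ BoxP k 𝓔) {m : F2} {hE' : ∀ e ∈ 𝓔, 0 < e} :
    (DensBox R h0 m 𝓔 hE').A p = Ad R (d0 * ∏ i, pl (p i)) := by
  obtain ⟨h1, h2, h3⟩ := fac_box h0 hs hE hp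
  ext v
  simp only [Box.A, DensBox, Ad, h1, Finset.mem_union, Finset.mem_filter, or_and_right, or_assoc,
    Finset.mem_image]
  refine or_congr_right (or_congr (and_congr_right fun hv => by rw [h2 v hv])
    (and_iff_left_of_imp fun hv => ?_).symm)
  obtain ⟨i, -, rfl⟩ := hv
  rw [h3]
  exact odd_one

theorem Dens_x (h0 : d0 ≠ 0) (hs : ∀ v ∈ fac d0, pdg v < e0) (hE : ∀ e ∈ 𝓔, e0 ≤ e)
    (hp : p ∈ BoxP k 𝓔) {m : F2} {hE' : ∀ e ∈ 𝓔, 0 < e} :
    (DensBox R h0 m 𝓔 hE').x p = xd ℓ (d0 * ∏ i, pl (p i)) m := by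
  obtain ⟨h1, h2, h3⟩ := fac_box h0 hs hE hp
  funext g
  show xd ℓ d0 m g + ∑ i, chi ℓ (p i) g = _
  rw [xd, xd, h1, Finset.sum_union (Dens_disj hs hE hp _),
    Finset.sum_image (Dens_inj hp).injOn, add_right_comm]
  simp only [h3, Nat.cast_one, one_mul]
  rw [Finset.sum_congr rfl fun v hv => by rw [← h2 v hv]]

theorem Dens_cnt (h0 : d0 ≠ 0) (hs : ∀ v ∈ fac d0, pdg v < e0) (hE : ∀ e ∈ 𝓔, e0 ≤ e)
    (hp : p ∈ BoxP k 𝓔) (hG : GT e0 A n (d0 * ∏ i, pl (p i))) {e : ℕ} (he : e0 ≤ e)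
    (J : Finset 𝓔) (hJ : ∀ j ∈ J, (j : ℕ) ≤ e) :
    (2 ^ ((fac d0).card + J.card)) ^ KK ≤ e ^ (4 * KK) ∧ (fac d0).card + J.card ≤ e ^ 4 ∧
      ∑ v ∈ fac d0, pdg v ≤ e ^ 5 ∧ ∑ j ∈ J, (j : ℕ) ≤ e ^ 5 := by
  have h1 : 2 ^ ((fac d0).card + J.card) ≤ e ^ 4 := by
    refine le_trans (Nat.pow_le_pow_right two_pos ?_) (hG.few e he)
    rw [← Finset.card_image_of_injective J (Dens_inj hp),
      ← Finset.card_union_of_disjoint (Dens_disj hs hE hp J), (fac_box h0 hs hE hp).1]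
    refine Finset.card_le_card fun v hv => Finset.mem_filter.2 ?_
    rcases Finset.mem_union.1 hv with hv | hv
    · exact ⟨Finset.mem_union_left _ hv, (hs v hv).le.trans he⟩
    · obtain ⟨i, hi, rfl⟩ := Finset.mem_image.1 hv
      exact ⟨Finset.mem_union_right _ (Finset.mem_image_of_mem _ (Finset.mem_univ _)),
        (hp i).1.trans_le (hJ i hi)⟩
  have h2 : (fac d0).card + J.card ≤ e ^ 4 := Nat.lt_two_pow_self.le.trans h1
  refine ⟨?_, h2, ?_, ?_⟩
  · exact (Nat.pow_le_pow_left h1 KK).trans_eq (by rw [← pow_mul])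
  · refine (Finset.sum_le_card_nsmul _ _ e fun v hv => (hs v hv).le.trans he).trans ?_
    rw [smul_eq_mul, pow_succ]
    exact Nat.mul_le_mul_right _ (by omega)
  · refine (Finset.sum_le_card_nsmul _ _ e hJ).trans ?_
    rw [smul_eq_mul, pow_succ]
    exact Nat.mul_le_mul_right _ (by omega)

theorem Dens_L (h0 : d0 ≠ 0) (hs : ∀ v ∈ fac d0, pdg v < e0) (hE : ∀ e ∈ 𝓔, e0 ≤ e)
    (hp : p ∈ BoxP k 𝓔) (hG : GT e0 A n (d0 * ∏ i, pl (p i))) (hn : e0 ^ 2 ≤ n) :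
    A ≤ (Finset.univ.filter fun i : 𝓔 => n ≤ (i : ℕ) ^ 2 ∧ (i : ℕ) % 2 = 1).card := by
  refine hG.many.trans (le_trans (Finset.card_le_card fun v hv => ?_)
    (Finset.card_image_le (f := p)))
  rw [Finset.mem_filter, (fac_box h0 hs hE hp).1, Finset.mem_union] at hv
  rcases hv with ⟨hv | hv, h⟩
  · exact absurd (hn.trans h.1) (not_le.2 (Nat.pow_lt_pow_left (hs v hv) two_ne_zero))
  · obtain ⟨i, -, rfl⟩ := Finset.mem_image.1 hv
    rw [(hp i).1] at h
    exact Finset.mem_image_of_mem _ (Finset.mem_filter.2 ⟨Finset.mem_univ _, h⟩)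

theorem Dens_sum (d : k[X]) : ∑ v ∈ Ad R d, pdg v ≤ ∑ v ∈ R.S, pdg v + ∑ v ∈ fac d, pdg v := by
  refine (Finset.sum_le_sum_of_subset (Ad_sub R d)).trans ?_
  rw [← Finset.sum_union_inter]
  exact Nat.le_add_right _ _

theorem Dens_card (d : k[X]) : (Ad R d).card ≤ R.S.card + (fac d).card :=
  (Finset.card_le_card (Ad_sub R d)).trans (Finset.card_union_le _ _)

theorem Dens_smA (h0 : d0 ≠ 0) (hs : ∀ v ∈ fac d0, pdg v < e0) (hE : ∀ e ∈ 𝓔, e0 ≤ e)
    (hp : p ∈ BoxP k 𝓔) (hG : GT e0 A n (d0 * ∏ i, pl (p i))) (h9 : 17 ≤ e0) (m : F2)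
    (hE' : ∀ e ∈ 𝓔, 0 < e) {C : ℕ} (hC : NN 0 + ∑ v ∈ R.S, pdg v + 1 ≤ C)
    (h : ∀ (e N c : ℕ) (η : ℝ), e0 ≤ e → N ≤ C * e ^ (4 * KK) → c ≤ C * e ^ (4 * KK) →
      1 ≤ η * ((C : ℝ) * (e : ℝ) ^ (4 * KK)) → (tame h6 ℓ).Small η N c e) :
    (DensBox R h0 m 𝓔 hE').SmA fun i => 1 / (i : ℝ) ^ 2 := by
  refine ⟨?_, fun i => ?_⟩
  · rw [Finset.sum_coe_sort 𝓔 fun i => 1 / (i : ℝ) ^ 2]
    have h1 := sum_Ioc_inv_sq_le_sub (α := ℝ) (k := 16) (n := 16 + 𝓔.sup id) (by norm_num)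
      (Nat.le_add_right _ _)
    have h2 : (0 : ℝ) ≤ ((16 + 𝓔.sup id : ℕ) : ℝ)⁻¹ := by positivity
    have h3 : ∑ i ∈ 𝓔, ((i : ℝ) ^ 2)⁻¹ ≤ ∑ i ∈ Finset.Ioc 16 (16 + 𝓔.sup id), ((i : ℝ) ^ 2)⁻¹ :=
      Finset.sum_le_sum_of_subset_of_nonneg (fun i hi => Finset.mem_Ioc.2
        ⟨by have := hE i hi; omega, (Finset.le_sup (f := id) hi).trans (Nat.le_add_left _ _)⟩)
        fun _ _ _ => by positivity
    simp only [one_div]
    push_cast at h1 h2
    linarith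
  · have hi := hE i i.2
    have key : ∀ J : Finset 𝓔, (∀ j ∈ J, (j : ℕ) ≤ i) → (tame h6 ℓ).Small (1 / (i : ℝ) ^ 2)
        (NN J.card) (∑ v ∈ Ad R d0, pdg v + ∑ j ∈ J, (j : ℕ)) i := by
      intro J hJ
      obtain ⟨c1, -, c3, c4⟩ := Dens_cnt h0 hs hE hp hG hi J hJ
      have c5 := Dens_sum R d0
      generalize (i : ℕ) = e at *
      have e1 : 1 ≤ e ^ (4 * KK) := Nat.one_le_pow _ _ (by omega)
      have e2 : 2 * e ^ 5 ≤ e ^ (4 * KK) :=
        calc 2 * e ^ 5 ≤ e * e ^ 5 := Nat.mul_le_mul_right _ (by omega)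
          _ = e ^ 6 := by ring
          _ ≤ e ^ (4 * KK) := Nat.pow_le_pow_right (by omega) (by have := two_le_KK; omega)
      refine h _ _ _ _ hi ?_ ?_ ?_
      · calc NN J.card ≤ NN (0 + ((fac d0).card + J.card)) := NN_mono (by omega)
          _ ≤ NN 0 * e ^ (4 * KK) := by
            rw [NN_add]
            exact Nat.mul_le_mul_left _ c1
          _ ≤ _ := Nat.mul_le_mul_right _ (by omega)
      · have a1 := Nat.le_mul_of_pos_right (∑ v ∈ R.S, pdg v) e1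
        have a2 := Nat.mul_le_mul_right (e ^ (4 * KK)) hC
        rw [add_mul, add_mul] at a2
        generalize e ^ (4 * KK) = M at *
        omega
      · have e3 : (1 : ℝ) ≤ e := by exact_mod_cast (by omega : 1 ≤ e)
        have e4 : (1 : ℝ) ≤ C := by exact_mod_cast (by omega : 1 ≤ C)
        rw [one_div, ← div_eq_inv_mul, one_le_div (by positivity)]
        exact (pow_le_pow_right₀ e3 (by have := two_le_KK; omega)).trans
          (le_mul_of_one_le_left (by positivity) e4)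
    exact key _ fun j hj => le_of_lt (Finset.mem_filter.1 hj).2

theorem Dens_smL (h0 : d0 ≠ 0) (hs : ∀ v ∈ fac d0, pdg v < e0) (hE : ∀ e ∈ 𝓔, e0 ≤ e)
    (hp : p ∈ BoxP k 𝓔) (hG : GT e0 A n (d0 * ∏ i, pl (p i)))
    (hd : (d0 * ∏ i, pl (p i)).natDegree = n) (hn : e0 ^ 2 ≤ n) (h9 : 17 ≤ e0) (m : F2)
    (hE' : ∀ e ∈ 𝓔, 0 < e) {B e3 C : ℕ} (hB : 0 < B) (hn3 : e3 ^ 2 ≤ n)
    (hC : B * NN R.S.card + ∑ v ∈ R.S, pdg v + B + 1 ≤ C)
    (h : ∀ (e N c : ℕ) (η : ℝ), e3 ≤ e → N ≤ C * e ^ (8 * KK) → c ≤ C * e ^ (8 * KK) →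
      1 ≤ η * ((C : ℝ) * (e : ℝ) ^ (8 * KK)) → (tame h6 ℓ).Small η N c e) :
    (DensBox R h0 m 𝓔 hE').SmL B
      (Finset.univ.filter fun i : 𝓔 => n ≤ (i : ℕ) ^ 2 ∧ (i : ℕ) % 2 = 1) := by
  intro i hi
  have h1 := (Finset.mem_filter.1 hi).2.1
  have hne : d0 * ∏ i, pl (p i) ≠ 0 :=
    mul_ne_zero h0 (Finset.prod_ne_zero_iff.2 fun j _ => (monic_pl _).ne_zero)
  obtain ⟨c1, -, c3, c4⟩ := Dens_cnt h0 hs hE hp hG ((Nat.le_self_pow two_ne_zero e0).trans hn)
    Finset.univ fun j _ => by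
      rw [← (hp j).1, ← natDegree_pl (hp j).2, ← hd]
      exact natDegree_le_of_dvd
        ((Finset.dvd_prod_of_mem (fun i => pl (p i)) (Finset.mem_univ j)).mul_left _) hne
  have c5 := Dens_sum R d0
  have c6 := Dens_card R d0
  have hi' := hE i i.2
  show (tame h6 ℓ).Small _ (B * NN ((Ad R d0).card + (Finset.univ : Finset 𝓔).card))
    (∑ v ∈ Ad R d0, pdg v + B * ∑ j : 𝓔, (j : ℕ)) i
  generalize (i : ℕ) = e at *
  have e1 : 1 ≤ e ^ (8 * KK) := Nat.one_le_pow _ _ (by omega)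
  have e2 : n ^ (4 * KK) ≤ e ^ (8 * KK) :=
    (Nat.pow_le_pow_left h1 (4 * KK)).trans_eq (by rw [← pow_mul]; exact congrArg _ (by ring))
  have e5 : n ^ 5 ≤ e ^ (8 * KK) :=
    ((Nat.pow_le_pow_left h1 5).trans_eq (by rw [← pow_mul] : (e ^ 2) ^ 5 = e ^ 10)).trans
      (Nat.pow_le_pow_right (by omega) (by have := two_le_KK; omega))
  refine h _ _ _ _ ((Nat.pow_le_pow_iff_left two_ne_zero).1 (hn3.trans h1)) ?_ ?_ ?_
  · calc B * NN ((Ad R d0).card + (Finset.univ : Finset 𝓔).card)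
        ≤ B * NN (R.S.card + ((fac d0).card + (Finset.univ : Finset 𝓔).card)) :=
          Nat.mul_le_mul_left _ (NN_mono (by omega))
      _ ≤ B * NN R.S.card * e ^ (8 * KK) := by
        rw [NN_add, ← mul_assoc]
        exact Nat.mul_le_mul_left _ (c1.trans e2)
      _ ≤ _ := Nat.mul_le_mul_right _ (by omega)
  · have a1 := Nat.le_mul_of_pos_right (∑ v ∈ R.S, pdg v) e1
    have a2 := Nat.mul_le_mul_left B (c4.trans e5)
    have a3 := Nat.mul_le_mul_right (e ^ (8 * KK)) hC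
    rw [add_mul, add_mul, add_mul] at a3
    generalize e ^ (8 * KK) = M at *
    omega
  · have e3 : (1 : ℝ) ≤ (e : ℝ) ^ (8 * KK) := by exact_mod_cast e1
    have e4 : (B : ℝ) ≤ C := by exact_mod_cast (by omega : B ≤ C)
    rw [one_div, ← div_eq_inv_mul, one_le_div (by positivity)]
    exact e4.trans (le_mul_of_one_le_right (by positivity) e3)

end aux

theorem good_density (h6 : ((mo : ℕ) : k) ≠ 0) (ℓ : Locs k Ω) (R : Rep (tame h6 ℓ)) (c : ℕ) {ε : ℝ}
    (hε : 0 < ε) : ∀ᶠ n in atTop,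
    ({d | d ∈ Pn k n ∧ ¬ ∀ m, R.Good (Ad R d) (xd ℓ d m) c}.ncard : ℝ) ≤ ε * (Pn k n).ncard := by
  obtain ⟨e1, h1⟩ := stat_good (k := k) (half_pos hε)
  obtain ⟨e2, h2⟩ := small_of_poly (NN 0 + ∑ v ∈ R.S, pdg v + 1) (4 * KK)
  obtain ⟨e0, he1, he2, h9, hS⟩ : ∃ e0, e1 ≤ e0 ∧ e2 ≤ e0 ∧ 17 ≤ e0 ∧ ∀ v ∈ R.S, pdg v < e0 :=
    ⟨e1 + e2 + 17 + ∑ v ∈ R.S, pdg v, by omega, by omega, by omega, fun v hv => by
      have := Finset.single_le_sum (f := pdg) (fun _ _ => Nat.zero_le _) hv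
      omega⟩
  obtain ⟨A, B, hB, hbox⟩ := box R (R.S.card + e0 ^ 4) c (ε := ε / 4) (by positivity)
  obtain ⟨e3, h3⟩ := small_of_poly (B * NN R.S.card + ∑ v ∈ R.S, pdg v + B + 1) (8 * KK)
  filter_upwards [h1 e0 he1 A, eventually_ge_atTop (e0 ^ 2), eventually_ge_atTop (e3 ^ 2)]
    with n hn hn0 hn3
  have key := decomp e0 A n (fun d => ¬ ∀ m, R.Good (Ad R d) (xd ℓ d m) c) (half_pos hε).le
    fun d0 𝓔 h0 hs hE ⟨p0, hp0, hdeg, hG⟩ => by
      have hE' : ∀ e ∈ 𝓔, 0 < e := fun e he => by have := hE e he; omega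
      have hm : ∀ m : F2, ({p | p ∈ BoxP k 𝓔 ∧ ¬ R.Good (Ad R (d0 * ∏ i, pl (p i)))
          (xd ℓ (d0 * ∏ i, pl (p i)) m) c}.ncard : ℝ) ≤ ε / 4 * (BoxP k 𝓔).ncard := by
        intro m
        have hw := Dens_cnt h0 hs hE hp0 hG le_rfl ∅ (by simp)
        have := hbox (DensBox R h0 m 𝓔 hE') _ (fun i => 1 / (i : ℝ) ^ 2)
          ((Dens_card R d0).trans (Nat.add_le_add_left (by simpa using hw.2.1) _))
          (Dens_L h0 hs hE hp0 hG hn0) (fun i hi => (Finset.mem_filter.1 hi).2.2)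
          (Dens_smA R h0 hs hE hp0 hG h9 m hE' le_rfl fun e N c η he =>
            h2 _ e N c η (he2.trans he))
          (Dens_smL R h0 hs hE hp0 hG hdeg hn0 h9 m hE' hB hn3 le_rfl (h3 _))
        rw [Dens_pts R h0 hs hE hS] at this
        refine le_of_eq_of_le (congrArg _ (congrArg _ (Set.ext fun p => ?_))) this
        exact and_congr_right fun hp => by rw [Dens_x R h0 hs hE hp, Dens_A R h0 hs hE hp]
      have hf := BoxP_finite (k := k) 𝓔
      have hu : {p | p ∈ BoxP k 𝓔 ∧ ¬ ∀ m, R.Good (Ad R (d0 * ∏ i, pl (p i)))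
            (xd ℓ (d0 * ∏ i, pl (p i)) m) c}.ncard ≤
          {p | p ∈ BoxP k 𝓔 ∧ ¬ R.Good (Ad R (d0 * ∏ i, pl (p i)))
            (xd ℓ (d0 * ∏ i, pl (p i)) 0) c}.ncard +
          {p | p ∈ BoxP k 𝓔 ∧ ¬ R.Good (Ad R (d0 * ∏ i, pl (p i)))
            (xd ℓ (d0 * ∏ i, pl (p i)) 1) c}.ncard := by
        refine le_trans ?_ (Set.ncard_union_le _ _)
        refine Set.ncard_le_ncard (fun p hp => ?_)
          ((hf.subset fun _ h => h.1).union (hf.subset fun _ h => h.1))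
        obtain ⟨m, hm⟩ := not_forall.1 hp.2
        rcases F2_cases m with rfl | rfl
        exacts [.inl ⟨hp.1, hm⟩, .inr ⟨hp.1, hm⟩]
      have hu' := (Nat.cast_le (α := ℝ)).2 hu
      push_cast at hu'
      linarith [hm 0, hm 1]
  have hf := Pn_finite (k := k) n
  have hu : {d | d ∈ Pn k n ∧ ¬ ∀ m, R.Good (Ad R d) (xd ℓ d m) c}.ncard ≤
      {d | d ∈ Pn k n ∧ ¬ GT e0 A n d}.ncard +
      {d | d ∈ Pn k n ∧ GT e0 A n d ∧ ¬ ∀ m, R.Good (Ad R d) (xd ℓ d m) c}.ncard := by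
    refine le_trans (Set.ncard_le_ncard (fun d hd => ?_) ((hf.subset fun _ h => h.1).union
      (hf.subset fun _ h => h.1))) (Set.ncard_union_le _ _)
    by_cases hG : GT e0 A n d
    exacts [.inr ⟨hd.1, hG, hd.2⟩, .inl ⟨hd.1, hG⟩]
  have hu' := (Nat.cast_le (α := ℝ)).2 hu
  push_cast at hu'
  linarith

end Pool.Agent.Hyp
end
end
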