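import Mathlib

/-!
# The `L`-series of `y ^ 2 = d(t) f(x, t)` by point counts
-/

namespace Pool.Agent.Hyp

open Polynomial

variable {k : Type} [Field k]

/-- The sum, over the `t ∈ F` with `d(t) disc(f)(t) ≠ 0`, of the trace of Frobenius
`#F - #{(x, y) ∈ F × F | y ^ 2 = d(t) f(x, t)}`; `f` is a polynomial in `x` over `k[t]`. -/
noncomputable def frobSum (F : Type) [Field F] [Algebra k F] (f : k[X][X]) (d : k[X]) : ℤ :=
  ∑ᶠ (t : F) (_ : aeval t (d * f.discr) ≠ 0), ((Nat.card F : ℤ) -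
    Nat.card {z : F × F // z.2 ^ 2 = aeval t d * f.eval₂ (aeval t : k[X] →ₐ[k] F) z.1})

/-- `exp (∑ frobSum (F n) f d * T ^ (n + 1) / (n + 1))`; `F n` is to be of degree `n + 1`. -/
noncomputable def LSer (F : ℕ → Type) [∀ n, Field (F n)] [∀ n, Algebra k (F n)] (f : k[X][X])
    (d : k[X]) : PowerSeries ℚ :=
  (PowerSeries.exp ℚ).subst
    (PowerSeries.X * PowerSeries.mk fun n => (frobSum (F n) f d : ℚ) / (n + 1))

end Pool.Agent.Hyp
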