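import Pool.Agent.Work.MP_60d5ce_nt.Hy.LkPlc
import Pool.Agent.Work.MP_60d5ce_nt.Qt.Alg
import Pool.Agent.Work.MP_60d5ce_nt.Lb.Gen
import Pool.Agent.Work.MP_60d5ce_nt.Hy.Dens

/-!
# Places over `A`, fixed places  (task LB LkFix)

* `over_finite`: lift to an admissible `U ≤ H` is not needed: `plc l H g` depends only on the coset of `g` modulo the normal subgroup `U` (`plc_mul_left`), and by `plc_σ` one may take
  `0 ≤ wdeg g < pdg v`; `Gn_finite`.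
* `isFr_sa`: `FiniteField.card`, `frob_pow_apply`, `t = tM` (`cheb_tM`, `transcendental_tt`, `gal_tt`).
* `fix_count`: `(v, s) ↦ plc (ℓ v) U s.out` is a bijection from `Σ v ∈ Pd, cjs` to the fixed places outside `ovr`.  Into: `γ g = u g x` with `x = σ ^ m`; `plc_mul_left`, `plc_σ`, `plc_base`.
  Injective: `plc_base`, `plc_deg`, then `h = g⁻¹ g'` has degree zero and `plc l U h = plc l U 1` (apply `sa hU g⁻¹`, `sa_plc`), `plc_inertia`, `τ ∈ U`.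
  Onto: `plc_surj`, normalise the degree, `plc_deg` gives `pdg v ∣ n`, `plc_inertia` for `g⁻¹ γ g σ ^ (-m)`.
-/

namespace Pool.Agent.Hyp

open Pool.Agent.Lef

variable [Par]

open PR0 Pool.Agent.Ell.AT Pool.Agent.Quad

variable {k : Type} [Field k] [Fintype k] {Ω : Type} [Field Ω] [Algebra (RatFunc k) Ω]
  [Algebra k Ω] [IsScalarTower k (RatFunc k) Ω]

/-- the places over `A` -/
def ovr (ℓ : Locs k Ω) (H : Subgroup (WG k Ω)) (A : Finset (Pl k)) :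
    Set (Place (Kb k Ω) (MU H)) := {y | ∃ v ∈ A, ∃ g, y = plc (ℓ v) H g}

variable {ℓ : Locs k Ω} {H U : Subgroup (WG k Ω)} {A : Finset (Pl k)}

theorem LkFix_coset (hU : Adm U) (hH : H ≤ WG0 k Ω) (hUH : U ≤ H) {v : Pl k} (l : Loc Ω v)
    {g g' : WG k Ω} (e : g⁻¹ * g' ∈ U) : plc l H g' = plc l H g := by
  rw [← plc_mul_left hH l (hUH (hU.normal.conj_mem _ e g)) g]
  congr 1
  group

theorem LkFix_out (hU : Adm U) (hH : H ≤ WG0 k Ω) (hUH : U ≤ H) {v : Pl k} (l : Loc Ω v)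
    (g : WG k Ω) : plc l H (g : WG k Ω ⧸ U).out = plc l H g :=
  LkFix_coset hU hH hUH l (QuotientGroup.eq.1 (QuotientGroup.out_eq' _).symm)

theorem LkFix_norm {v : Pl k} (l : Loc Ω v) (g : WG k Ω) :
    ∃ g', 0 ≤ wdeg g' ∧ wdeg g' < pdg v ∧ plc l H g' = plc l H g := by
  have h0 : (0 : ℤ) < pdg v := by exact_mod_cast pdg_pos v
  have e : wdeg (g * l.σ ^ (-(wdeg g / pdg v))) = wdeg g % pdg v := by
    rw [wdeg_mul, wdeg_zpow, l.deg_σ, Int.emod_def]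
    ring
  exact ⟨_, e ▸ Int.emod_nonneg _ h0.ne', e ▸ Int.emod_lt_of_pos _ h0, plc_σ l g _⟩

theorem over_nonempty (hA : A.Nonempty) : (ovr ℓ H A).Nonempty := by
  obtain ⟨v, hv⟩ := hA
  exact ⟨_, v, hv, 1, rfl⟩

theorem over_smul (hU : Adm U) (γ : WG k Ω) (y : Place (Kb k Ω) (MU U)) :
    sa hU γ • y ∈ ovr ℓ U A ↔ y ∈ ovr ℓ U A := by
  constructor
  · rintro ⟨v, hv, g, e⟩
    refine ⟨v, hv, γ⁻¹ * g, ?_⟩
    rw [← sa_plc hU, ← e, map_inv, inv_smul_smul]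
  · rintro ⟨v, hv, g, rfl⟩
    exact ⟨v, hv, γ * g, sa_plc hU _ _ _⟩

theorem isFr_sa (p : ℕ) [Fact p.Prime] [CharP k p] (hU : Adm U) {γ : WG k Ω} {n : ℕ} (hn : 0 < n)
    (hγ : wdeg γ = n) : IsFr p (sa hU γ) (Fintype.card k ^ n) := by
  refine ⟨?_, fun c => ?_, tM (Kb k Ω) (MU U), fun ht => transcendental_tt k Ω ?_,
    Subtype.ext ?_⟩
  · obtain ⟨f, -, hf⟩ := FiniteField.card k p
    exact ⟨f * n, Nat.mul_pos f.pos hn, by rw [hf, pow_mul]⟩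
  · rw [sc_sa, hγ, zpow_natCast, frob_pow_apply]
  · rw [← cheb_tM U]
    exact ht.algHom ((MU U).val.restrictScalars (Kb k Ω))
  · rw [sl_sa, cheb_tM, gal_tt]

variable [IsSepClosure (RatFunc k) Ω]

theorem LkFix_key (hU : Adm U) {v : Pl k} (l : Loc Ω v) (hτ : l.τ ∈ U) {g g' : WG k Ω}
    (hd : wdeg g = wdeg g') (e : plc l U g = plc l U g') : g⁻¹ * g' ∈ U := by
  obtain ⟨m, hm⟩ := plc_inertia hU l (h := g⁻¹ * g')
    (by rw [wdeg_mul, wdeg_inv, hd, neg_add_cancel])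
    (by rw [← sa_plc hU, ← e, sa_plc, inv_mul_cancel])
  simpa only [mul_inv_cancel_left] using mul_mem (pow_mem hτ m) hm

theorem plc_mem_over {v : Pl k} {g : WG k Ω} : plc (ℓ v) H g ∈ ovr ℓ H A ↔ v ∈ A := by
  refine ⟨?_, fun h => ⟨v, h, g, rfl⟩⟩
  rintro ⟨v', hv', g', e⟩
  exact plc_base ℓ e ▸ hv'

theorem over_finite (h6 : ((mo : ℕ) : k) ≠ 0) (hH : Opn H) : (ovr ℓ H A).Finite := by
  obtain ⟨h0, U, hU, hUH⟩ := hH
  refine (A.finite_toSet.biUnion fun v _ =>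
    (((Set.finite_Ico (0 : ℤ) (pdg v)).biUnion fun n _ =>
      Gn_finite (T := tame h6 ℓ) hU n).image fun s => plc (ℓ v) H s.out)).subset ?_
  rintro _ ⟨v, hv, g, rfl⟩
  obtain ⟨g', h1, h2, h3⟩ := LkFix_norm (H := H) (ℓ v) g
  refine Set.mem_biUnion hv ⟨g', Set.mem_biUnion (x := wdeg g') ⟨h1, h2⟩ ⟨g', rfl, rfl⟩, ?_⟩
  exact (LkFix_out hU h0 hUH _ g').trans h3

theorem fix_count (h6 : ((mo : ℕ) : k) ≠ 0) (hU : Adm U) (hτ : ∀ v ∉ A, (ℓ v).τ ∈ U) {γ : WG k Ω} {n : ℕ}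
    (hn : 0 < n) (hγ : wdeg γ = n) :
    {y | y ∉ ovr ℓ U A ∧ sa hU γ • y = y}.ncard = fixY (tame h6 ℓ) U A γ n := by
  classical
  have e : fixY (tame h6 ℓ) U A γ n = ((Pd (tame h6 ℓ) A n).sigma fun v =>
      (cjs_finite (T := tame h6 ℓ) hU (pdg v) γ ((ℓ v).σ ^ (n / pdg v))).toFinset).card := by
    rw [Finset.card_sigma]
    exact Finset.sum_congr rfl fun v _ => Set.ncard_eq_toFinset_card _ _
  rw [e, ← Set.ncard_coe_finset, ← Set.InjOn.ncard_image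
    (f := fun z : (_ : Pl k) × (WG k Ω ⧸ U) => plc (ℓ z.1) U z.2.out)]
  · congr 1
    ext y
    constructor
    · rintro ⟨h1, h2⟩
      obtain ⟨v, g₀, rfl⟩ := plc_surj ℓ (opn_of_adm hU) y
      obtain ⟨g, g1, g2, g3⟩ := LkFix_norm (H := U) (ℓ v) g₀
      rw [← g3] at h1 h2 ⊢
      rw [plc_mem_over] at h1
      rw [sa_plc] at h2
      have h3 := plc_deg ℓ h2
      rw [wdeg_mul, hγ, add_sub_cancel_right, Int.natCast_dvd_natCast] at h3
      have h4 := LkFix_key hU (ℓ v) (hτ v h1) (g := g * (ℓ v).σ ^ (n / pdg v)) (g' := γ * g)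
        (by rw [wdeg_mul, wdeg_mul, wdeg_pow, (ℓ v).deg_σ, hγ, ← Nat.cast_mul,
          Nat.div_mul_cancel h3, add_comm])
        (by rw [h2, ← zpow_natCast, plc_σ])
      refine ⟨⟨v, g⟩, Finset.mem_coe.2 (Finset.mem_sigma.2 ⟨(mem_Pd (T := tame h6 ℓ)).2
        ⟨h1, h3, hn.ne'⟩, (Set.Finite.mem_toFinset _).2 ⟨g, rfl, g1, g2, ?_⟩⟩),
        LkFix_out hU hU.le le_rfl _ g⟩
      simpa only [mul_inv_rev, mul_assoc] using h4
    · rintro ⟨⟨v, s⟩, hz, rfl⟩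
      obtain ⟨h1, h2⟩ := Finset.mem_sigma.1 (Finset.mem_coe.1 hz)
      obtain ⟨g, rfl, -, -, h3⟩ := (Set.Finite.mem_toFinset _).1 h2
      dsimp only at h1 h3 ⊢
      rw [LkFix_out hU hU.le le_rfl]
      refine ⟨fun h => ((mem_Pd (T := tame h6 ℓ)).1 h1).1 (plc_mem_over.1 h), ?_⟩
      rw [sa_plc, LkFix_coset hU hU.le le_rfl (ℓ v) (g := g * (ℓ v).σ ^ (n / pdg v))
        (by simpa only [mul_inv_rev, mul_assoc] using h3), ← zpow_natCast, plc_σ]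
  · rintro ⟨v, s⟩ hz ⟨v', s'⟩ hz' e
    obtain rfl : v = v' := plc_base ℓ e
    obtain ⟨h1, h2⟩ := Finset.mem_sigma.1 (Finset.mem_coe.1 hz)
    obtain ⟨-, h2'⟩ := Finset.mem_sigma.1 (Finset.mem_coe.1 hz')
    obtain ⟨g, rfl, a1, a2, -⟩ := (Set.Finite.mem_toFinset _).1 h2
    obtain ⟨g', rfl, b1, b2, -⟩ := (Set.Finite.mem_toFinset _).1 h2'
    dsimp only at e
    rw [LkFix_out hU hU.le le_rfl, LkFix_out hU hU.le le_rfl] at e
    have h3 := plc_deg ℓ e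
    have h4 : wdeg g - wdeg g' = 0 := by
      change 0 ≤ wdeg g at a1
      change wdeg g < pdg v at a2
      change 0 ≤ wdeg g' at b1
      change wdeg g' < pdg v at b2
      exact Int.eq_zero_of_abs_lt_dvd h3 (abs_lt.2 ⟨by omega, by omega⟩)
    exact congrArg _ (QuotientGroup.eq.2 (LkFix_key hU (ℓ v)
      (hτ v ((mem_Pd (T := tame h6 ℓ)).1 h1).1) (sub_eq_zero.1 h4) e))

end Pool.Agent.Hyp
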