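import Pool.Agent.Work.MP_60d5ce_nt.Hy.LkPlc
import Pool.Agent.Work.MP_60d5ce_nt.Qt.Brauer

/-!
# Kummer theory over `MU H`  (task LB LkKum)

`KR ζ N H χ f`: `χ` is the Kummer character of an `N`-th root of `f`.
* `exists_kr`: take the witness `U₁ ≤ H` of smoothness; `hilbert90` for the finite group `H ⧸ U₁.subgroupOf H` acting faithfully on `MU U₁` (`chebRes`, `Adm.mem_iff`) and the cocycle
  `ζ⁻¹ ^ (χ g).val`; then `r ^ N` is fixed by `H` (`mem_MU`).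
* `kr_exists`: `r` from `IsSepClosed.exists_pow_nat_eq`; `gal u r / r` is an `N`-th root of unity, a power of `ζ` (`IsPrimitiveRoot.eq_pow_of_pow_eq_one`); smooth by `adm_core` for
  `U ⊓ stabilizer r` as in the proof of `h2_geom` (`N ∣ mo ^ j`).
* `KR.unr`: with `r' = gal g⁻¹ r` one has `gal τ r' = ζ' ^ (χ (g τ g⁻¹)).val * r'`, `ζ' = (frob ^ wdeg g⁻¹) ζ` primitive, and `l.w r' ^ N = 2 ^ (-ord f)` (`plc_ord`).
  If `ord f = N * m`, then `r' / unif v l.x ^ m` has value one and `τ` fixes `unif v l.x` (`geom_fix`): `Loc.τ_res`, `l.w_const`.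
  If the character vanishes, `τ` fixes `r'`, which is fixed by an admissible subgroup (`KR.adm`): `l.disc`.
-/

namespace Pool.Agent.Hyp

open Pool.Agent.Lef

variable [Par]

open PR0 Pool.Agent.Ell.AT Pool.Agent.Quad

variable {k : Type} [Field k] [Fintype k] {Ω : Type} [Field Ω] [Algebra (RatFunc k) Ω]
  [Algebra k Ω] [IsScalarTower k (RatFunc k) Ω]

/-- Kummer characters -/
def KR (ζ : Kb k Ω) (N : ℕ) (H : Subgroup (WG k Ω)) (χ : WG k Ω → ZMod N) (f : MU H) : Prop :=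
  f ≠ 0 ∧ ∃ r : Ω, r ^ N = f ∧ ∀ u ∈ H, gal u r = (ζ : Ω) ^ (χ u).val * r

variable {ζ : Kb k Ω} {N : ℕ} [NeZero N] {H : Subgroup (WG k Ω)} {χ χ' : WG k Ω → ZMod N}
  {f f' : MU H}

theorem lkKum_add {M : Type} [Monoid M] {z : M} (hz : z ^ N = 1) (a b : ZMod N) :
    z ^ (a + b).val = z ^ a.val * z ^ b.val := by
  rw [ZMod.val_add, ← pow_eq_pow_mod _ hz, pow_add]

omit [NeZero N] in
theorem lkKum_cast {M : Type} [Monoid M] {z : M} (hz : z ^ N = 1) (m : ℕ) :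
    z ^ (m : ZMod N).val = z ^ m := by
  rw [ZMod.val_natCast, ← pow_eq_pow_mod _ hz]

theorem lkKum_inj {z : Ω} (hz : IsPrimitiveRoot z N) {a b : ZMod N} {r : Ω} (hr : r ≠ 0)
    (h : z ^ a.val * r = z ^ b.val * r) : a = b :=
  ZMod.val_injective N (hz.pow_inj (ZMod.val_lt a) (ZMod.val_lt b) (mul_right_cancel₀ hr h))

omit [NeZero N] [Fintype k] [Algebra (RatFunc k) Ω] [IsScalarTower k (RatFunc k) Ω] in
theorem lkKum_prim (hζ : IsPrimitiveRoot ζ N) : IsPrimitiveRoot (ζ : Ω) N :=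
  hζ.map_of_injective (f := algebraMap (Kb k Ω) Ω) (algebraMap (Kb k Ω) Ω).injective

theorem lkKum_fix {u : WG k Ω} (hu : wdeg u = 0) (c : Kb k Ω) : gal u (c : Ω) = c := by
  rw [gal_const, hu, zpow_zero, AlgEquiv.one_apply]

theorem lkKum_ne {r : Ω} (hf : f ≠ 0) (hr : r ^ N = f) : r ≠ 0 := by
  rintro rfl
  rw [zero_pow (NeZero.ne N)] at hr
  exact hf (Subtype.ext hr.symm)

theorem lkKum_root (hζ : IsPrimitiveRoot ζ N) {r s : Ω} (hr : r ≠ 0) (h : s ^ N = r ^ N) :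
    ∃ i : ZMod N, s = (ζ : Ω) ^ i.val * r := by
  obtain ⟨i, -, hi⟩ := (lkKum_prim hζ).eq_pow_of_pow_eq_one (ξ := s / r)
    (by rw [div_pow, h, div_self (pow_ne_zero _ hr)])
  exact ⟨i, by rw [lkKum_cast (lkKum_prim hζ).pow_eq_one, hi, div_mul_cancel₀ _ hr]⟩

omit [IsScalarTower k (RatFunc k) Ω] in
theorem lkKum_comp (g h : WG k Ω) (a : Ω) : gal (g * h) a = gal g (gal h a) := by
  rw [map_mul, AlgEquiv.mul_apply]

theorem KR.mul (hζ : IsPrimitiveRoot ζ N) (h : KR ζ N H χ f) (h' : KR ζ N H χ' f') :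
    KR ζ N H (χ + χ') (f * f') := by
  obtain ⟨h0, r, hr, h1⟩ := h
  obtain ⟨h0', r', hr', h1'⟩ := h'
  refine ⟨mul_ne_zero h0 h0', r * r', by rw [mul_pow, hr, hr']; rfl, fun u hu => ?_⟩
  rw [map_mul, h1 u hu, h1' u hu, Pi.add_apply, lkKum_add (lkKum_prim hζ).pow_eq_one]
  ring

theorem KR.eq_iff (hζ : IsPrimitiveRoot ζ N) (hH : H ≤ WG0 k Ω) (h : KR ζ N H χ f)
    (h' : KR ζ N H χ' f') : (∀ u ∈ H, χ u = χ' u) ↔ ∃ b, b ≠ 0 ∧ f = f' * b ^ N := by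
  obtain ⟨h0, r, hr, h1⟩ := h
  obtain ⟨h0', r', hr', h1'⟩ := h'
  have e := lkKum_ne h0 hr
  have e' := lkKum_ne h0' hr'
  have hz : (ζ : Ω) ≠ 0 := (lkKum_prim hζ).ne_zero (NeZero.ne N)
  constructor
  · intro h
    refine ⟨⟨r / r', (mem_MU hH).2 fun u hu => ?_⟩, fun h2 => ?_, Subtype.ext ?_⟩
    · rw [map_div₀, h1 u hu, h1' u hu, h u hu, mul_div_mul_left _ _ (pow_ne_zero _ hz)]
    · exact div_ne_zero e e' (congrArg Subtype.val h2)
    · show (f : Ω) = f' * (r / r') ^ N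
      rw [div_pow, ← hr, ← hr', mul_div_cancel₀ _ (pow_ne_zero _ e')]
  · rintro ⟨b, hb, h2⟩ u hu
    have hb' : (b : Ω) ≠ 0 := fun h => hb (Subtype.ext h)
    obtain ⟨i, hi⟩ := lkKum_root hζ (s := r) (mul_ne_zero e' hb') (by
      rw [hr, mul_pow, hr', h2]; rfl)
    refine lkKum_inj (lkKum_prim hζ) e ?_
    rw [← h1 u hu]
    conv_lhs => rw [hi]
    rw [map_mul, map_mul, map_pow, lkKum_fix (hH hu), h1' u hu, (mem_MU hH).1 b.2 u hu]
    conv_rhs => rw [hi]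
    ring

theorem KR.hom (hζ : IsPrimitiveRoot ζ N) (hH : H ≤ WG0 k Ω) (h : KR ζ N H χ f) :
    ∀ g ∈ H, ∀ g' ∈ H, χ (g * g') = χ g + χ g' := by
  obtain ⟨h0, r, hr, h1⟩ := h
  intro g hg g' hg'
  refine lkKum_inj (lkKum_prim hζ) (lkKum_ne h0 hr) ?_
  rw [← h1 _ (H.mul_mem hg hg'), lkKum_comp, h1 g' hg', map_mul, map_pow, lkKum_fix (hH hg),
    h1 g hg, lkKum_add (lkKum_prim hζ).pow_eq_one]
  ring

theorem KR.op (hζ : IsPrimitiveRoot ζ N) {U : Subgroup (WG k Ω)} (hU : Adm U) {f : MU U}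
    (h : KR ζ N U χ f) {γ : WG k Ω} {n : ℕ} (hγ : wdeg γ = n) :
    KR ζ N U (fun g => (Fintype.card k : ZMod N) ^ n * χ (γ⁻¹ * g * γ))
      (Ell.AT.sl (sa hU γ) f) := by
  obtain ⟨h0, r, hr, h1⟩ := h
  refine ⟨fun h2 => h0 (Subtype.ext ?_), gal γ r, by rw [← map_pow, hr, sl_sa], fun u hu => ?_⟩
  · have h3 : gal γ (f : Ω) = 0 := by
      rw [← sl_sa hU, h2]
      rfl
    exact (map_eq_zero _).1 h3
  · have h3 : gal u (gal γ r) = gal γ (gal (γ⁻¹ * u * γ) r) := by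
      rw [← lkKum_comp, ← lkKum_comp, ← mul_assoc, ← mul_assoc, mul_inv_cancel, one_mul]
    have h4 : (Fintype.card k : ZMod N) ^ n * χ (γ⁻¹ * u * γ) =
        ((Fintype.card k ^ n * (χ (γ⁻¹ * u * γ)).val : ℕ) : ZMod N) := by
      rw [Nat.cast_mul, Nat.cast_pow, ZMod.natCast_zmod_val]
    show _ = (ζ : Ω) ^ ((Fintype.card k : ZMod N) ^ n * χ (γ⁻¹ * u * γ)).val * _
    rw [h3, h1 _ (hU.normal.conj_mem' u hu γ), map_mul, map_pow, gal_const, hγ, zpow_natCast,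
      frob_pow_apply, h4, lkKum_cast (lkKum_prim hζ).pow_eq_one, pow_mul]
    rfl

variable [IsSepClosure (RatFunc k) Ω]

theorem exists_zeta (h6 : ((mo : ℕ) : k) ≠ 0) (J : ℕ) : ∃ ζ : Kb k Ω, IsPrimitiveRoot ζ (2 ^ J) := by
  have h2 : (2 : k) ≠ 0 := two_ne_of_six h6
  have : NeZero ((2 ^ J : ℕ) : Kb k Ω) := ⟨by
    rw [Nat.cast_pow]
    refine pow_ne_zero _ fun h => h2 ((algebraMap k (Kb k Ω)).injective ?_)
    rw [map_zero, map_ofNat]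
    exact_mod_cast h⟩
  exact HasEnoughRootsOfUnity.exists_primitiveRoot _ _

theorem KR.adm (hζ : IsPrimitiveRoot ζ N) (hN : ∃ j, N ∣ mo ^ j) (hH : Opn H) {r : Ω}
    (hr : r ^ N = f) : ∃ U, Adm U ∧ U ≤ H ∧ ∀ u ∈ U, gal u r = r := by
  obtain ⟨h0, U, hU, hUH⟩ := hH
  rcases eq_or_ne r 0 with rfl | e
  · exact ⟨U, hU, hUH, fun u _ => map_zero _⟩
  obtain ⟨j', c, hc⟩ := hN
  obtain ⟨S, hS⟩ := hU.2.2.1
  classical
  refine ⟨_, adm_core (U ⊓ gb_fix k {r}) (inf_le_left.trans hU.le) (insert r S)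
    (fun g hg h => ⟨hS g hg fun a ha => h a (Finset.mem_insert_of_mem ha), fun a ha => ?_⟩)
    fun g hg => ?_, fun u hu => hUH (Subgroup.normalCore_le _ hu).1, fun u hu =>
      (Subgroup.normalCore_le _ hu).2 r (Finset.mem_singleton_self r)⟩
  · rw [Finset.mem_singleton.1 ha]
    exact h r (Finset.mem_insert_self _ _)
  · obtain ⟨j, hj⟩ := hU.2.2.2 g hg
    refine ⟨j + j', ?_⟩
    rw [pow_add, pow_mul]
    generalize g ^ mo ^ j = u at hj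
    refine ⟨U.pow_mem hj _, fun a ha => ?_⟩
    obtain ⟨i, hi⟩ := lkKum_root hζ (s := gal u r) e (by
      rw [← map_pow, hr, (mem_MU h0).1 f.2 u (hUH hj)])
    have h2 : ∀ n : ℕ, gal (u ^ n) r = ((ζ : Ω) ^ n) ^ i.val * r := by
      intro n
      induction n with
      | zero => simp
      | succ n ih =>
        rw [pow_succ', lkKum_comp, ih, map_mul, map_pow, map_pow, lkKum_fix (hU.le hj), hi]
        ring
    rw [Finset.mem_singleton.1 ha, h2, hc, pow_mul, (lkKum_prim hζ).pow_eq_one, one_pow, one_pow,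
      one_mul]

theorem exists_kr (hζ : IsPrimitiveRoot ζ N) (hH : Opn H)
    (hs : ∃ U, Adm U ∧ ∀ g ∈ H, ∀ u ∈ U, χ (g * u) = χ g)
    (hh : ∀ g ∈ H, ∀ g' ∈ H, χ (g * g') = χ g + χ g') : ∃ f, KR ζ N H χ f := by
  obtain ⟨h0, U₂, hU₂, hUH⟩ := hH
  obtain ⟨U₀, hU₀, hs⟩ := hs
  have hU := hU₀.inf hU₂
  set U := U₀ ⊓ U₂ with hUdef
  obtain ⟨π, -, hπ, hπ1⟩ := hU.exists_res
  have := hU.finiteDimensional
  let ρ := π.comp (Subgroup.inclusion h0)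
  have hz := (lkKum_prim hζ).pow_eq_one
  have hz0 : (ζ : Ω) ≠ 0 := (lkKum_prim hζ).ne_zero (NeZero.ne N)
  have key : ∀ g g' : H, ρ g = ρ g' → χ g = χ g' := fun g g' h => by
    have h1 : ρ (g⁻¹ * g') = 1 := by rw [map_mul, map_inv, h, inv_mul_cancel]
    have h2 : g.1⁻¹ * g'.1 ∈ U := (hπ1 _).1 h1
    rw [← hs g.1 g.2 _ h2.1, mul_inv_cancel_left]
  let c : ρ.range → H := fun s => s.2.choose
  have hc : ∀ s, ρ (c s) = s := fun s => s.2.choose_spec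
  have hact : ∀ (s : ρ.range) (a : MU U), (s.1 a : Ω) = gal (c s).1 a := fun s a => by
    rw [← hc s]
    exact hπ _ a
  let z : MU U := algebraMap (Kb k Ω) (MU U) ζ
  have hzc : (z : Ω) = ζ := rfl
  have hz1 : z ≠ 0 := fun h => hz0 (congrArg Subtype.val h)
  obtain ⟨a, ha0, ha⟩ := hilbert90 (G := ρ.range) (M := MU U)
    ((MulSemiringAction.toRingAut (MU U ≃ₐ[RatFunc (Kb k Ω)] MU U) (MU U)).comp ρ.range.subtype)
    (fun s t h => Subtype.ext (AlgEquiv.ext fun a => DFunLike.congr_fun h a))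
    (fun s => (z ^ (χ (c s)).val)⁻¹) (fun s => inv_ne_zero (pow_ne_zero _ hz1))
    (fun s t => Subtype.ext (by
      have h1 : χ (c (s * t)) = χ (c s) + χ (c t) := by
        rw [← hh _ (c s).2 _ (c t).2]
        exact key (c (s * t)) (c s * c t) (by rw [map_mul, hc, hc, hc]; rfl)
      show ((ζ : Ω) ^ (χ (c (s * t))).val)⁻¹ =
        ((ζ : Ω) ^ (χ (c s)).val)⁻¹ * (s.1 (z ^ (χ (c t)).val)⁻¹ : Ω)
      rw [hact, h1, lkKum_add hz, mul_inv]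
      congr 1
      show _ = gal (c s).1 ((ζ : Ω) ^ (χ (c t)).val)⁻¹
      rw [map_inv₀, map_pow, lkKum_fix (h0 (c s).2)]))
  have h3 : ∀ u ∈ H, gal u (a : Ω) = (ζ : Ω) ^ (χ u).val * a := fun u hu => by
    have h4 : ((ζ : Ω) ^ (χ (c ⟨ρ ⟨u, hu⟩, _, rfl⟩)).val)⁻¹ * (ρ ⟨u, hu⟩ a : Ω) = a :=
      congrArg Subtype.val (ha ⟨ρ ⟨u, hu⟩, _, rfl⟩)
    rw [key _ ⟨u, hu⟩ (hc _)] at h4
    have h5 : (ρ ⟨u, hu⟩ a : Ω) = gal u a := hπ _ a
    rw [h5, inv_mul_eq_iff_eq_mul₀ (pow_ne_zero _ hz0)] at h4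
    exact h4
  have ha1 : (a : Ω) ≠ 0 := fun h => ha0 (Subtype.ext h)
  refine ⟨⟨(a : Ω) ^ N, (mem_MU h0).2 fun u hu => ?_⟩,
    fun h => pow_ne_zero N ha1 (congrArg Subtype.val h), a, rfl, h3⟩
  rw [map_pow, h3 u hu, mul_pow, ← pow_mul, mul_comm _ N, pow_mul, hz, one_pow, one_mul]

theorem kr_exists (hζ : IsPrimitiveRoot ζ N) (hN : ∃ j, N ∣ mo ^ j) (hH : Opn H) (hf : f ≠ 0) :
    ∃ χ, KR ζ N H χ f ∧ (∀ g ∉ H, χ g = 0) ∧
      ∃ U, Adm U ∧ ∀ g ∈ H, ∀ u ∈ U, χ (g * u) = χ g := by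
  classical
  have := IsSepClosure.sep_closed (RatFunc k) (K := Ω)
  have := (lkKum_prim hζ).neZero'
  obtain ⟨r, hr⟩ := IsSepClosed.exists_pow_nat_eq (f : Ω) N
  have e := lkKum_ne hf hr
  have h1 : ∀ u ∈ H, ∃ i : ZMod N, gal u r = (ζ : Ω) ^ i.val * r := fun u hu =>
    lkKum_root hζ e (by rw [← map_pow, hr, (mem_MU hH.1).1 f.2 u hu])
  obtain ⟨U, hU, hUH, hUr⟩ := KR.adm hζ hN hH hr
  have h2 : ∀ u ∈ H, gal u r =
      (ζ : Ω) ^ (if h : u ∈ H then (h1 u h).choose else 0).val * r := fun u hu => by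
    rw [dif_pos hu]
    exact (h1 u hu).choose_spec
  refine ⟨fun u => if h : u ∈ H then (h1 u h).choose else 0, ⟨hf, r, hr, h2⟩,
    fun g hg => dif_neg hg, U, hU, fun g hg u hu => ?_⟩
  refine lkKum_inj (lkKum_prim hζ) e ?_
  rw [← h2 _ (H.mul_mem hg (hUH hu)), ← h2 _ hg, lkKum_comp, hUr u hu]

theorem KR.unr [Fact (IsFF (Kb k Ω) (MU H))] (hζ : IsPrimitiveRoot ζ N) (hN : ∃ j, N ∣ mo ^ j)
    (hH : Opn H) (h : KR ζ N H χ f) {v : Pl k} (l : Loc Ω v) {g : WG k Ω}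
    (hτ : g * l.τ * g⁻¹ ∈ H) : χ (g * l.τ * g⁻¹) = 0 ↔ (N : ℤ) ∣ (plc l H g).ord f := by
  obtain ⟨h0, r, hr, h1⟩ := h
  have e := lkKum_ne h0 hr
  have e' : gal g⁻¹ r ≠ 0 := (map_ne_zero _).2 e
  have hζ' : IsPrimitiveRoot ((frob k Ω ^ wdeg g⁻¹) ζ) N :=
    hζ.map_of_injective (frob k Ω ^ wdeg g⁻¹).injective
  have h2 : gal l.τ (gal g⁻¹ r) =
      (((frob k Ω ^ wdeg g⁻¹) ζ ^ (χ (g * l.τ * g⁻¹)).val : Kb k Ω) : Ω) * gal g⁻¹ r := by
    have h3 : gal l.τ (gal g⁻¹ r) = gal g⁻¹ (gal (g * l.τ * g⁻¹) r) := by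
      rw [← lkKum_comp, ← lkKum_comp, ← mul_assoc, ← mul_assoc, inv_mul_cancel, one_mul]
    rw [h3, h1 _ hτ, map_mul, map_pow, gal_const]
    rfl
  have h4 : l.w (gal g⁻¹ r) ^ N = 2 ^ (-(plc l H g).ord f) := by
    rw [← map_pow, ← map_pow, hr, plc_ord hH l hτ h0]
  constructor
  · intro hc
    obtain ⟨U, hU, -, hUr⟩ := KR.adm hζ hN hH hr
    obtain ⟨n, hn⟩ := l.disc U hU (gal g⁻¹ r) e' (fun u hu => by
      conv_rhs => rw [← hUr _ (hU.normal.conj_mem u hu g)]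
      rw [← lkKum_comp, ← lkKum_comp, ← mul_assoc, ← mul_assoc, inv_mul_cancel, one_mul])
      (by rw [h2, hc, ZMod.val_zero, pow_zero]; exact one_mul _)
    rw [Loc.w_apply, hn, ← zpow_natCast, ← zpow_mul] at h4
    have h5 := zpow_right_injective₀ (by norm_num : (0 : ℝ) < 2) (by norm_num) h4
    exact ⟨-n, by linarith⟩
  · rintro ⟨m, hm⟩
    have h5 : l.w (gal g⁻¹ r) = 2 ^ (-m) := by
      refine (pow_left_inj₀ (l.w.nonneg _) (by positivity) (NeZero.ne N)).1 ?_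
      rw [h4, hm, ← zpow_natCast, ← zpow_mul]
      congr 1
      ring
    have h6 : l.w (unif v l.x) = 2⁻¹ := l.w_unif
    have h7 : gal l.τ (unif v l.x) = unif v l.x := by
      cases v with
      | none => exact (map_inv₀ _ _).trans (by rw [gal_tt]; rfl)
      | some p => exact (map_sub _ _ _).trans (by rw [gal_tt, lkKum_fix l.deg_τ]; rfl)
    have h8 : l.w (gal g⁻¹ r / unif v l.x ^ m) = 1 := by
      rw [map_div₀, map_zpow₀, h5, h6, inv_zpow', div_self (by positivity)]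
    have h9 := l.τ_res h8.le
    rw [map_div₀, map_zpow₀, h7, h2, mul_div_assoc, ← sub_one_mul, map_mul, h8, mul_one] at h9
    by_contra hc
    have h10 : (frob k Ω ^ wdeg g⁻¹) ζ ^ (χ (g * l.τ * g⁻¹)).val - 1 ≠ 0 := fun h =>
      hζ'.pow_ne_one_of_pos_of_lt (fun h' => hc ((ZMod.val_eq_zero _).1 h')) (ZMod.val_lt _)
        (sub_eq_zero.1 h)
    exact h9.ne (l.w_const _ h10)

end Pool.Agent.Hyp
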