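import Pool.Agent.Work.MP_60d5ce_nt.Lb.LkAbs
import Pool.Agent.Work.MP_60d5ce_nt.Hy.LkKum
import Pool.Agent.Work.MP_60d5ce_nt.Hy.LkFix
import Pool.Agent.Work.MP_60d5ce_nt.Hy.Dens
import Pool.Agent.Work.MP_60d5ce_nt.Hy.Form
import Pool.Agent.Work.MP_60d5ce_nt.Hy.WeX

-- merged part: Pool.Agent.Work.MP_60d5ce_nt.Hy.LkMain
section
/-!
# The axioms of the trace formula hold for `k(t)`  (task LB LkMain)

* `eps_eq`: let `U₁ ≤ U` be the witness of smoothness.  `plc_lift` gives `u ∈ H` with `plc l U₁ (u g) = plc l U₁ g'`.  Put `h = (u g)⁻¹ g'`; it stabilises `plc l U₁ 1` (`sa_plc`), so do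
  `h τ h⁻¹` and `h⁻¹ τ h` (`plc_τ`), hence by `plc_inertia` `h τ h⁻¹ ≡ τ ^ m`, `h⁻¹ τ h ≡ τ ^ m'` modulo `U₁`.  With `x = ε (g' τ g'⁻¹)`, `y = ε (u g τ g⁻¹ u⁻¹) = ε (g τ g⁻¹)`:
  `x = m • y`, `y = m' • x`, so `x = y` in `F2`.
* `ram_open`: `e y = (ε (g τ g⁻¹)).val` for `y = plc (ℓ v) H g ∉ ovr ℓ H A` (`plc_surj`, `plc_base`, `eps_eq`), zero on `ovr`; the support is finite (`tau_fin` for `U₁`, `ε 1 = 0`, `over_finite`).
  Correct the degree at a place of `ovr`, `pic_div` with `N = 2`, `kr_exists` with `ζ = -1`, `KR.hom`, `KR.unr`.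
* `km`: `LkKum`, `plc_surj`, `plc_mem_over`.  `lefAx`: `KM.hasTr`, `isFr_sa`, `fix_count`; `p = ringChar k`.
-/

namespace Pool.Agent.Hyp

open Pool.Agent.Lef

variable [Par]

open PR0 Pool.Agent.Ell.AT Pool.Agent.Quad

variable {k : Type} [Field k] [Fintype k] {Ω : Type} [Field Ω] [Algebra (RatFunc k) Ω]
  [Algebra k Ω] [IsScalarTower k (RatFunc k) Ω] [IsSepClosure (RatFunc k) Ω]
  {h6 : ((mo : ℕ) : k) ≠ 0} {ℓ : Locs k Ω} {U H : Subgroup (WG k Ω)} {A : Finset (Pl k)}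

theorem LkMain_F2 : ∀ x y : F2, (x = 0 ↔ y = 0) → x = y := by decide

theorem LkMain_conj (hU : Adm U) {v : Pl k} (l : Loc Ω v) {a b : WG k Ω}
    (h : plc l U a = plc l U b) : ∃ m : ℕ, ∃ u ∈ U, b * l.τ * b⁻¹ = (a * l.τ * a⁻¹) ^ m * u := by
  have e1 : plc l U (a⁻¹ * b * l.τ * b⁻¹ * a) = plc l U 1 := by
    rw [← sa_plc hU, h, sa_plc, inv_mul_cancel_right, ← zpow_one l.τ, plc_τ, ← sa_plc hU, ← h,
      sa_plc, inv_mul_cancel]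
  obtain ⟨m, hm⟩ := plc_inertia hU l (by
    simp only [wdeg_mul, wdeg_inv, l.deg_τ]
    ring) e1
  refine ⟨m, _, hU.normal.conj_mem _ hm a, ?_⟩
  rw [conj_pow]
  group

theorem eps_eq (hU : Adm U) (hUH : U ≤ H) (hH : H ≤ WG0 k Ω) (hτ : ∀ v ∉ A, (ℓ v).τ ∈ U)
    {ε : WG k Ω → F2} (hs : SmOn (tame h6 ℓ) U ε)
    (hc : ∀ t ∈ TA (tame h6 ℓ) A, ∀ x ∈ H, ε (x * t * x⁻¹) = ε t)
    (hp : ∀ t ∈ TA (tame h6 ℓ) A, ∀ n : ℕ, ε (t ^ n) = n • ε t) {v : Pl k} (hv : v ∉ A)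
    {g g' : WG k Ω} (h : plc (ℓ v) H g = plc (ℓ v) H g') :
    ε (g * (ℓ v).τ * g⁻¹) = ε (g' * (ℓ v).τ * g'⁻¹) := by
  obtain ⟨U₁, hU₁, hle, e1⟩ := hs.le hU
  have key : ∀ a b : WG k Ω, plc (ℓ v) U₁ a = plc (ℓ v) U₁ b → ε (a * (ℓ v).τ * a⁻¹) = 0 →
      ε (b * (ℓ v).τ * b⁻¹) = 0 := by
    intro a b e h0
    obtain ⟨m, u, hu, e2⟩ := LkMain_conj hU₁ (ℓ v) e
    rw [e2, e1 _ (U.pow_mem (hU.normal.conj_mem _ (hτ v hv) a) m) u hu,
      hp (a * (ℓ v).τ * a⁻¹) ⟨v, hv, a, rfl⟩, h0, nsmul_zero]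
  obtain ⟨u, hu, e⟩ := plc_lift hH hU₁ (hle.trans hUH) h
  have e3 : u * g * (ℓ v).τ * (u * g)⁻¹ = u * (g * (ℓ v).τ * g⁻¹) * u⁻¹ := by group
  rw [← hc (g * (ℓ v).τ * g⁻¹) ⟨v, hv, g, rfl⟩ u hu]
  exact (congrArg ε e3).symm.trans (LkMain_F2 _ _ ⟨key _ _ e, key _ _ e.symm⟩)

theorem ram_open (hU : Adm U) (hUH : U ≤ H) (hH : H ≤ WG0 k Ω) (hA : A.Nonempty)
    (hτ : ∀ v ∉ A, (ℓ v).τ ∈ U) {ε : WG k Ω → F2} (hs : SmOn (tame h6 ℓ) U ε)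
    (hc : ∀ t ∈ TA (tame h6 ℓ) A, ∀ x ∈ H, ε (x * t * x⁻¹) = ε t)
    (hp : ∀ t ∈ TA (tame h6 ℓ) A, ∀ n : ℕ, ε (t ^ n) = n • ε t) :
    ∃ χ : WG k Ω → F2, SmOn (tame h6 ℓ) H χ ∧ (∀ g ∈ H, ∀ h ∈ H, χ (g * h) = χ g + χ h) ∧
      ∀ t ∈ TA (tame h6 ℓ) A, χ t = ε t := by
  classical
  have hO : Opn H := ⟨hH, U, hU, hUH⟩
  have : Fact (IsFF (Kb k Ω) (MU H)) := ⟨hO.isFF⟩
  choose pv pg hpl using plc_surj ℓ hO
  obtain ⟨U₁, hU₁, hle, e1⟩ := hs.le hU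
  let e : Place (Kb k Ω) (MU H) → ℤ := fun y =>
    if pv y ∈ A then 0 else ((ε (pg y * (ℓ (pv y)).τ * (pg y)⁻¹)).val : ℤ)
  have hfin : (Function.support e).Finite := by
    refine (over_finite (ℓ := ℓ) (A := (tau_fin ℓ hU₁).toFinset) h6 hO).subset fun y hy => ?_
    refine ⟨pv y, ?_, pg y, hpl y⟩
    by_contra hn
    rw [Set.Finite.mem_toFinset, Set.mem_ofPred_eq, not_not] at hn
    refine hy ?_
    by_cases hA' : pv y ∈ A
    · exact if_pos hA'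
    · refine (if_neg hA').trans ?_
      have e2 := e1 1 U.one_mem _ (hU₁.normal.conj_mem _ hn (pg y))
      have e3 := hp _ ⟨pv y, hA', pg y, rfl⟩ 0
      rw [pow_zero, zero_nsmul] at e3
      rw [one_mul, e3] at e2
      rw [e2, ZMod.val_zero, Nat.cast_zero]
  obtain ⟨y0, hy0⟩ := over_nonempty (ℓ := ℓ) (H := H) hA
  obtain ⟨a, E, ha, hE⟩ := pic_div (κ := Kb k Ω) (N := 2)
    (by exact_mod_cast two_ne_of_six (six_ne_map (algebraMap k (Kb k Ω)) h6))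
    (D := Finsupp.ofSupportFinite e hfin - Finsupp.single y0 (dg (Finsupp.ofSupportFinite e hfin)))
    (by rw [dg_sub, dg_single, sub_self])
  obtain ⟨ζ, hζ⟩ := exists_zeta (Ω := Ω) h6 1
  rw [pow_one] at hζ
  have hN : ∃ j, 2 ∣ mo ^ j := ⟨1, by rw [pow_one]; exact two_dvd_mo⟩
  obtain ⟨χ, h1, -, h2⟩ := kr_exists hζ hN hO ha
  refine ⟨χ, h2, h1.hom hζ hH, ?_⟩
  rintro _ ⟨v, hv, g, rfl⟩
  have hy : y0 ≠ plc (ℓ v) H g := fun e' => hv (plc_mem_over.1 (e' ▸ hy0))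
  have e2 : ∀ v' g', plc (ℓ v) H g = plc (ℓ v') H g' →
      (if v' ∈ A then 0 else ((ε (g' * (ℓ v').τ * g'⁻¹)).val : ℤ)) =
        (ε (g * (ℓ v).τ * g⁻¹)).val := by
    intro v' g' e'
    obtain rfl := plc_base ℓ e'
    rw [if_neg hv, eps_eq hU hUH hH hτ hs hc hp hv e']
  have e3 : (plc (ℓ v) H g).ord a = (ε (g * (ℓ v).τ * g⁻¹)).val + 2 * E (plc (ℓ v) H g) := by
    rw [← dv_apply ha, hE, Finsupp.add_apply, Finsupp.sub_apply, Finsupp.single_eq_of_ne' hy,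
      sub_zero, Finsupp.smul_apply, nsmul_eq_mul, Nat.cast_ofNat, ← e2 _ _ (hpl _)]
    rfl
  refine LkMain_F2 _ _ ((h1.unr hζ hN hO (ℓ v)
    (hUH (hU.normal.conj_mem _ (hτ v hv) g))).trans ?_)
  rw [e3, Nat.cast_ofNat, dvd_add_left (dvd_mul_right _ _)]
  change (2 : ℤ) ∣ _ ↔ ε (g * (ℓ v).τ * g⁻¹) = 0
  generalize ε (g * (ℓ v).τ * g⁻¹) = z
  revert z
  decide

theorem km (hU : Adm U) (hτ : ∀ v ∉ A, (ℓ v).τ ∈ U) {J : ℕ} {ζ : Kb k Ω}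
    (hζ : IsPrimitiveRoot ζ (2 ^ (J + 1))) {γ : WG k Ω} {n : ℕ} (hγ : wdeg γ = n) :
    KM (2 ^ (J + 1)) (ovr ℓ U A) (sa hU γ)
      (ZH (tame h6 ℓ) U (fun _ => AddMonoidHom.id (ZMod (2 ^ (J + 1)))) A)
      (fun χ g => (Fintype.card k : ZMod (2 ^ (J + 1))) ^ n * χ (γ⁻¹ * g * γ))
      (KR ζ (2 ^ (J + 1)) U) := by
  have hO := opn_of_adm hU
  have : Fact (IsFF (Kb k Ω) (MU U)) := ⟨hO.isFF⟩
  have hN : ∃ j, 2 ^ (J + 1) ∣ mo ^ j := ⟨J + 1, pow_dvd_pow_of_dvd two_dvd_mo _⟩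
  have hn := hU.normal
  refine ⟨?_, fun χ f h => h.1, ?_, ?_, fun χ χ' f f' h h' => h.mul hζ h', ?_, ?_,
    fun χ f h => h.op hζ hU hγ⟩
  · rintro χ ⟨-, hs, h2, -⟩
    exact exists_kr hζ hO hs h2
  · rintro χ ⟨-, -, -, h3⟩ f h y hy
    obtain ⟨v, g, rfl⟩ := plc_surj ℓ hO y
    have hv : v ∉ A := fun hv => hy (plc_mem_over.2 hv)
    exact (h.unr hζ hN hO (ℓ v) (hn.conj_mem _ (hτ v hv) g)).1 (h3 _ ⟨v, hv, g, rfl⟩)
  · intro f hf h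
    obtain ⟨χ, h1, h0, hs⟩ := kr_exists hζ hN hO hf
    refine ⟨χ, ⟨h0, hs, h1.hom hζ hU.le, ?_⟩, h1⟩
    rintro _ ⟨v, hv, g, rfl⟩
    exact (h1.unr hζ hN hO (ℓ v) (hn.conj_mem _ (hτ v hv) g)).2
      (h _ fun hy => hv (plc_mem_over.1 hy))
  · intro χ hχ χ' hχ' f f' h h'
    rw [← h.eq_iff hζ hU.le h']
    refine ⟨fun e u _ => congrFun e u, fun e => funext fun g => ?_⟩
    by_cases hg : g ∈ U
    · exact e g hg
    · rw [hχ.1 g hg, hχ'.1 g hg]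
  · rintro χ ⟨h0, ⟨U₁, hU₁, hs⟩, h2, h3⟩
    have e : ∀ g g' : WG k Ω, γ⁻¹ * (g * g') * γ = γ⁻¹ * g * γ * (γ⁻¹ * g' * γ) := fun g g' => by
      group
    refine ⟨fun g hg => ?_, ⟨U₁, hU₁, fun g hg u hu => ?_⟩, fun g hg g' hg' => ?_, fun t ht => ?_⟩
    · have : γ⁻¹ * g * γ ∉ U := fun h => hg (by simpa [mul_assoc] using hn.conj_mem _ h γ)
      simp only [h0 _ this, mul_zero]
    · simp only [e, hs _ (hn.conj_mem' g hg γ) _ ((Adm.normal hU₁).conj_mem' u hu γ)]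
    · simp only [e, h2 _ (hn.conj_mem' g hg γ) _ (hn.conj_mem' g' hg' γ), AddMonoidHom.id_apply,
        mul_add]
    · simp only [h3 _ (TA_conj' ht γ), mul_zero]

variable (h6 ℓ) in
theorem lefAx : LefAx (tame h6 ℓ) := by
  refine ⟨fun U U' hU h1 h2 θ hs hθ => h2_open h6 ⟨h2, U, hU, h1⟩ θ hs hθ,
    fun U U' hU h1 h2 A hA hτ ε hs hc hp => ram_open hU h1 h2 hA hτ hs hc hp,
    fun U hU A hA hτ J n γ hn hγ => ?_⟩
  obtain ⟨ζ, hζ⟩ := exists_zeta (Ω := Ω) h6 (J + 1)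
  obtain ⟨p, hp⟩ := CharP.exists k
  have : Fact p.Prime := ⟨CharP.char_is_prime k p⟩
  have : CharP (Kb k Ω) p := charP_of_injective_algebraMap (algebraMap k (Kb k Ω)).injective p
  have hO := opn_of_adm hU
  have : Fact (IsFF (Kb k Ω) (MU U)) := ⟨hO.isFF⟩
  have h := (km (h6 := h6) hU hτ hζ hγ).hasTr
    (two_ne_of_six (six_ne_map (algebraMap k (Kb k Ω)) h6)) (isFr_sa p hU hn hγ)
    (over_finite h6 hO) (over_nonempty hA) (over_smul hU γ)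
  rw [fix_count h6 hU hτ hn hγ, Nat.cast_pow] at h
  exact h

end Pool.Agent.Hyp
end

-- merged part: Pool.Agent.Work.MP_60d5ce_nt.Hy.Lk2Fix
section
/-!
# Fixed places over ramified places  (task HY Lk2Fix)

* `per_sum`: a function `c : ℕ → ℕ` with periods `o` and `N` has `N * ∑ i < o, c i = ∑ i < o * N, c i = o * ∑ i < N, c i`.
* `fix_over`: it suffices to treat one `v ∈ A` (`plc_base`; if `pdg v ∤ n` nothing over `v` is fixed, `plc_deg`).  Put `e = pdg v`, `x = σ ^ (n / e)`, `o` the order of `τ` in `WG k Ω ⧸ U` (positive, `hU.2.2.2`),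
  `c i = (cjs _ U e γ (x * τ ^ i)).ncard`.  The sets `cjs` for `i < o` are disjoint, and `s ↦ plc (ℓ v) U s.out` maps their union onto the fixed places over `v` with fibres `s * ⟨τ⟩` of size `o`
  (`plc_inertia`, `plc_τ`, `plc_σ`, `plc_deg`, `LkFix_norm`, `LkFix_coset`, `sa_plc`).  `c` has period `o`, and period `q ^ n - 1`: modulo `U`, `x * τ = τ ^ q ^ n * x` (`Loc.rel`, iterated), so
  `x * τ ^ (i + q ^ n - 1)` is conjugate to `x * τ ^ i` by a power of `τ`, and `s ↦ s * τ ^ j` is a bijection between the two sets `cjs`.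
* `exists_saN`: as `sa` and `chebRes`, with `mem_MU`.  `isFr_saN`: as `isFr_sa`.
* `fix_orb`: as `fix_count`.  With `U = WG0 ⊓ ker π` (admissible by `Adm.mono`), for `wdeg g = wdeg g'`: `plc l H g = plc l H g' ↔ (π τ).SameCycle (π g⁻¹ z) (π g'⁻¹ z)` (`plc_lift`, `plc_inertia`;
  `plc_mul_left`, `plc_τ`).  The fixed places are in bijection with the triples `(v, i, D)`, `v ∈ Pd _ ∅ n`, `i < pdg v`, `D` a cycle of `π τ` fixed by `π σ ^ (n / pdg v)`; for given `i` and `z'`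
  there is `g` of degree `i` with `π g⁻¹ z = z'` (transitivity).
-/

namespace Pool.Agent.Hyp

open Pool.Agent.Lef

variable [Par]

open PR0 Pool.Agent.Ell.AT Pool.Agent.Quad

omit [Par] in
theorem Lk2Fix_per {c : ℕ → ℕ} {o : ℕ} (h : ∀ i, c (i + o) = c i) (N : ℕ) :
    ∑ i ∈ Finset.range (o * N), c i = N * ∑ i ∈ Finset.range o, c i := by
  have h1 : ∀ m i, c (o * m + i) = c i := fun m i => by
    induction m with
    | zero => simp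
    | succ m ih => rw [← ih, ← h (o * m + i)]; congr 1; ring
  induction N with
  | zero => simp
  | succ N ih =>
    rw [Nat.mul_succ, Finset.sum_range_add, ih, Nat.succ_mul]
    simp only [h1]

omit [Par] in
theorem Lk2Fix_ncard {α ι : Type} {S : Set α} (I : Finset ι) (t : ι → Set α)
    (hf : ∀ i ∈ I, (t i).Finite) (hd : ∀ i ∈ I, ∀ j ∈ I, ∀ a ∈ t i, a ∈ t j → i = j)
    (hS : ∀ a, a ∈ S ↔ ∃ i ∈ I, a ∈ t i) : S.ncard = ∑ i ∈ I, (t i).ncard := by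
  have e : S = ⋃ i ∈ (I : Set ι), t i := by
    ext a
    simp [hS]
  rw [e, I.finite_toSet.ncard_biUnion hf fun i hi j hj hij =>
    Set.disjoint_left.2 fun a h1 h2 => hij (hd i hi j hj a h1 h2), finsum_mem_coe_finset]

omit [Par] in
theorem Lk2Fix_mem {W P : Type} [Group W] {T : Tame W P} {U : Subgroup W} [U.Normal]
    (hU : T.Adm U) {e : ℕ} {γ x g : W} : (g : W ⧸ U) ∈ cjs T U e γ x ↔
      0 ≤ T.deg g ∧ T.deg g < e ∧ (x : W ⧸ U) = (g : W ⧸ U)⁻¹ * γ * g := by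
  constructor
  · rintro ⟨g', h1, h2, h3, h4⟩
    rw [← deg_eq_of_mk hU h1, ← h1]
    exact ⟨h2, h3, QuotientGroup.eq.2 h4⟩
  · rintro ⟨h2, h3, h4⟩
    exact ⟨g, rfl, h2, h3, QuotientGroup.eq.1 h4⟩

omit [Par] in
theorem Lk2Fix_conj {W P : Type} [Group W] {T : Tame W P} {U : Subgroup W} [U.Normal]
    (hU : T.Adm U) {e : ℕ} {γ x x' h : W} (h0 : T.deg h = 0)
    (hx : (x' : W ⧸ U) = (h : W ⧸ U)⁻¹ * x * h) :
    (cjs T U e γ x').ncard = (cjs T U e γ x).ncard := by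
  rw [← Set.ncard_image_of_injective (cjs T U e γ x) (mul_left_injective (h : W ⧸ U))]
  congr 1
  ext s
  obtain ⟨g, rfl⟩ := QuotientGroup.mk_surjective s
  rw [Set.image_mul_right, Set.mem_preimage, ← QuotientGroup.mk_inv, ← QuotientGroup.mk_mul,
    Lk2Fix_mem hU, Lk2Fix_mem hU, T.deg_mul, T.deg_inv, h0, neg_zero, add_zero, hx,
    QuotientGroup.mk_mul, QuotientGroup.mk_inv]
  refine and_congr_right fun _ => and_congr_right fun _ => ⟨fun h1 => ?_, fun h1 => ?_⟩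
  · rw [mul_inv_rev, inv_inv, mul_assoc _ _ (γ : W ⧸ U), mul_assoc, ← mul_assoc _ (g : W ⧸ U),
      ← h1]
    group
  · rw [h1]
    group

omit [Par] in
theorem Lk2Fix_rel {G : Type} [Group G] {s t : G} {Q : ℕ} (h : s * t = t ^ Q * s) (m : ℕ) :
    s ^ m * t = t ^ Q ^ m * s ^ m := by
  induction m with
  | zero => simp
  | succ m ih =>
    have h1 : s * t ^ Q ^ m = (t ^ Q) ^ Q ^ m * s := SemiconjBy.pow_right h _
    rw [pow_succ', mul_assoc, ih, ← mul_assoc, h1, ← pow_mul, ← pow_succ', mul_assoc]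

theorem per_sum {c : ℕ → ℕ} {o N : ℕ} (h : ∀ i, c (i + o) = c i) (h' : ∀ i, c (i + N) = c i) :
    N * ∑ i ∈ Finset.range o, c i = o * ∑ i ∈ Finset.range N, c i := by
  rw [← Lk2Fix_per h, ← Lk2Fix_per h', mul_comm]

variable {k : Type} [Field k] [Fintype k] {Ω : Type} [Field Ω] [Algebra (RatFunc k) Ω]
  [Algebra k Ω] [IsScalarTower k (RatFunc k) Ω] {ℓ : Locs k Ω} {H U : Subgroup (WG k Ω)}
  {A : Finset (Pl k)}

theorem exists_saN (hH : H ≤ WG0 k Ω) {γ : WG k Ω} (hγ : ∀ u, γ * u * γ⁻¹ ∈ H ↔ u ∈ H) :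
    ∃ s : SA (Kb k Ω) (MU H), (∀ a, (Ell.AT.sl s a : Ω) = gal γ a) ∧
      ∀ c, sc s c = (frob k Ω ^ wdeg γ) c := by
  have h1 : ∀ a ∈ MU H, gal γ a ∈ MU H := fun a ha => (mem_MU hH).2 fun u hu => by
    have h2 : γ⁻¹ * u * γ ∈ H := (hγ _).1 (by simpa [mul_assoc] using hu)
    conv_rhs => rw [← (mem_MU hH).1 ha _ h2]
    rw [← LkPlc_mul, ← LkPlc_mul, ← mul_assoc, ← mul_assoc, mul_inv_cancel, one_mul]
  have h2 : ∀ a ∈ MU H, gal γ⁻¹ a ∈ MU H := fun a ha => (mem_MU hH).2 fun u hu => by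
    conv_rhs => rw [← (mem_MU hH).1 ha _ ((hγ u).2 hu)]
    rw [← LkPlc_mul, ← LkPlc_mul, ← mul_assoc, ← mul_assoc, inv_mul_cancel, one_mul]
  let r : MU H ≃+* MU H :=
    { toFun a := ⟨gal γ a, h1 a a.2⟩
      invFun a := ⟨gal γ⁻¹ a, h2 a a.2⟩
      left_inv a := Subtype.ext (by
        show gal γ⁻¹ (gal γ (a : Ω)) = a
        rw [← LkPlc_mul, inv_mul_cancel, LkPlc_one])
      right_inv a := Subtype.ext (by
        show gal γ (gal γ⁻¹ (a : Ω)) = a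
        rw [← LkPlc_mul, mul_inv_cancel, LkPlc_one])
      map_mul' a b := Subtype.ext (map_mul (gal γ) (a : Ω) b)
      map_add' a b := Subtype.ext (map_add (gal γ) (a : Ω) b) }
  exact ⟨⟨((frob k Ω ^ wdeg γ : Kb k Ω ≃ₐ[k] Kb k Ω), r),
    fun c => Subtype.ext (gal_const γ c)⟩, fun _ => rfl, fun _ => rfl⟩

theorem saN_plc {γ : WG k Ω} {s : SA (Kb k Ω) (MU H)} (hs : ∀ a, (Ell.AT.sl s a : Ω) = gal γ a)
    {v : Pl k} (l : Loc Ω v) (g : WG k Ω) (n : ℕ) : s ^ n • plc l H g = plc l H (γ ^ n * g) := by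
  have h1 : ∀ g, s • plc l H g = plc l H (γ * g) := fun g => by
    refine Subtype.ext (SetLike.ext fun a => ?_)
    obtain ⟨b, rfl⟩ := (Ell.AT.sl s).surjective a
    rw [sl_mem, mem_plc, mem_plc, hs, ← LkPlc_mul, mul_inv_rev, inv_mul_cancel_right]
  induction n with
  | zero => rw [pow_zero, pow_zero, one_smul, one_mul]
  | succ n ih => rw [pow_succ', mul_smul, ih, h1, pow_succ', mul_assoc]

theorem isFr_saN (p : ℕ) [Fact p.Prime] [CharP k p] {γ : WG k Ω} (hγ : wdeg γ = 1)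
    {s : SA (Kb k Ω) (MU H)} (hs : ∀ a, (Ell.AT.sl s a : Ω) = gal γ a)
    (hc : ∀ c, sc s c = (frob k Ω ^ wdeg γ) c) : IsFr p s (Fintype.card k) := by
  refine ⟨?_, fun c => ?_, tM (Kb k Ω) (MU H), fun ht => transcendental_tt k Ω ?_,
    Subtype.ext ?_⟩
  · obtain ⟨f, -, hf⟩ := FiniteField.card k p
    exact ⟨f, f.pos, hf⟩
  · rw [hc, hγ, ← Nat.cast_one, zpow_natCast, frob_pow_apply, pow_one]
  · rw [← cheb_tM H]
    exact ht.algHom ((MU H).val.restrictScalars (Kb k Ω))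
  · rw [hs, cheb_tM, gal_tt]

variable [IsSepClosure (RatFunc k) Ω]

theorem Lk2Fix_key [U.Normal] (hU : Adm U) {v : Pl k} (l : Loc Ω v) {g g' : WG k Ω}
    (hd : wdeg g = wdeg g') (e : plc l U g = plc l U g') :
    ∃ m : ℕ, (g' : WG k Ω ⧸ U) = g * (l.τ : WG k Ω ⧸ U) ^ m := by
  obtain ⟨m, hm⟩ := plc_inertia hU l (h := g⁻¹ * g')
    (by rw [wdeg_mul, wdeg_inv, hd, neg_add_cancel])
    (by rw [← sa_plc hU, ← e, sa_plc, inv_mul_cancel])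
  refine ⟨m, ?_⟩
  rw [← QuotientGroup.mk_pow, ← QuotientGroup.mk_mul, eq_comm, QuotientGroup.eq]
  simpa only [mul_inv_rev, mul_assoc] using hm

theorem Lk2Fix_one (h6 : ((mo : ℕ) : k) ≠ 0) (hU : Adm U) {γ : WG k Ω} {n : ℕ}
    (hγ : wdeg γ = n) {v : Pl k} (hv : pdg v ∣ n) :
    (Fintype.card k ^ n - 1) * {y | (∃ g, y = plc (ℓ v) U g) ∧ sa hU γ • y = y}.ncard =
      ∑ i ∈ Finset.range (Fintype.card k ^ n - 1),
        (cjs (tame h6 ℓ) U (pdg v) γ ((ℓ v).σ ^ (n / pdg v) * (ℓ v).τ ^ i)).ncard := by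
  have := hU.normal
  obtain ⟨t, ht⟩ : ∃ t : WG k Ω ⧸ U, t = (ℓ v).τ := ⟨_, rfl⟩
  have ho : 0 < orderOf t := by
    obtain ⟨j, hj⟩ := hU.2.2.2 _ (ℓ v).deg_τ
    refine orderOf_pos_iff.2 (isOfFinOrder_iff_pow_eq_one.2 ⟨_, pow_pos mo_pos j, ?_⟩)
    rw [ht, ← QuotientGroup.mk_pow]
    exact (QuotientGroup.eq_one_iff _).2 hj
  have hmem : ∀ x g : WG k Ω, (g : WG k Ω ⧸ U) ∈ cjs (tame h6 ℓ) U (pdg v) γ x ↔
      0 ≤ wdeg g ∧ wdeg g < pdg v ∧ (x : WG k Ω ⧸ U) = (g : WG k Ω ⧸ U)⁻¹ * γ * g :=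
    fun x g => Lk2Fix_mem (T := tame h6 ℓ) hU
  have hmk : ∀ {g g' : WG k Ω}, (g : WG k Ω ⧸ U) = g' → plc (ℓ v) U g' = plc (ℓ v) U g :=
    fun e => LkFix_coset hU hU.le le_rfl _ (QuotientGroup.eq.1 e)
  have hτ : ∀ (g : WG k Ω) (j : ℕ), plc (ℓ v) U (g * (ℓ v).τ ^ j) = plc (ℓ v) U g := fun g j => by
    rw [← zpow_natCast, plc_τ]
  have hσ : ∀ (g : WG k Ω) (j : ℕ), plc (ℓ v) U (g * (ℓ v).σ ^ j) = plc (ℓ v) U g := fun g j => by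
    rw [← zpow_natCast, plc_σ]
  have hrel : ((ℓ v).σ : WG k Ω ⧸ U) ^ (n / pdg v) * t =
      t ^ Fintype.card k ^ n * ((ℓ v).σ : WG k Ω ⧸ U) ^ (n / pdg v) := by
    have h1 := QuotientGroup.eq.2 ((ℓ v).rel U hU)
    rw [QuotientGroup.mk_mul, QuotientGroup.mk_mul, QuotientGroup.mk_pow, ← ht] at h1
    rw [Lk2Fix_rel h1, ← pow_mul, Nat.mul_div_cancel' hv]
  have hper := per_sum (o := orderOf t) (N := Fintype.card k ^ n - 1)
    (c := fun i => (cjs (tame h6 ℓ) U (pdg v) γ ((ℓ v).σ ^ (n / pdg v) * (ℓ v).τ ^ i)).ncard)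
    (fun i => Lk2Fix_conj (T := tame h6 ℓ) hU (h := 1) wdeg_one (by
      simp only [QuotientGroup.mk_mul, QuotientGroup.mk_pow, ← ht, pow_add, pow_orderOf_eq_one,
        QuotientGroup.mk_one, inv_one, one_mul, mul_one]))
    (fun i => Lk2Fix_conj (T := tame h6 ℓ) hU (h := (ℓ v).τ ^ Fintype.card k ^ n)
      ((wdeg_pow _ _).trans (by rw [(ℓ v).deg_τ, mul_zero])) (by
      simp only [QuotientGroup.mk_mul, QuotientGroup.mk_pow, ← ht]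
      obtain ⟨N, hN⟩ : ∃ N, Fintype.card k ^ n = N + 1 :=
        Nat.exists_eq_succ_of_ne_zero (pow_pos Fintype.card_pos n).ne'
      rw [mul_assoc, eq_inv_mul_iff_mul_eq, ← mul_assoc, ← hrel, hN, Nat.add_sub_cancel,
        mul_assoc, mul_assoc, ← pow_succ', ← pow_add, add_assoc]))
  let F : Set (WG k Ω ⧸ U) := {s | ∃ g : WG k Ω, (g : WG k Ω ⧸ U) = s ∧ 0 ≤ wdeg g ∧
    wdeg g < pdg v ∧ plc (ℓ v) U (γ * g) = plc (ℓ v) U g}
  have hF : F.ncard = ∑ i ∈ Finset.range (orderOf t),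
      (cjs (tame h6 ℓ) U (pdg v) γ ((ℓ v).σ ^ (n / pdg v) * (ℓ v).τ ^ i)).ncard := by
    refine Lk2Fix_ncard _ _ (fun i _ => cjs_finite (T := tame h6 ℓ) hU _ _ _)
      (fun i hi j hj s h1 h2 => ?_) fun s => ⟨?_, ?_⟩
    · obtain ⟨g, rfl⟩ := QuotientGroup.mk_surjective s
      have h3 := ((hmem _ g).1 h1).2.2.trans ((hmem _ g).1 h2).2.2.symm
      simp only [QuotientGroup.mk_mul, QuotientGroup.mk_pow, ← ht, mul_right_inj] at h3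
      exact pow_injOn_Iio_orderOf (Finset.mem_range.1 hi) (Finset.mem_range.1 hj) h3
    · rintro ⟨g, rfl, g1, g2, g3⟩
      obtain ⟨m, hm⟩ := Lk2Fix_key hU (ℓ v) (g := g * (ℓ v).σ ^ (n / pdg v)) (g' := γ * g)
        (by rw [wdeg_mul, wdeg_mul, wdeg_pow, (ℓ v).deg_σ, hγ, ← Nat.cast_mul,
          Nat.div_mul_cancel hv, add_comm]) (by rw [g3, hσ])
      refine ⟨m % orderOf t, Finset.mem_range.2 (Nat.mod_lt _ ho), (hmem _ g).2 ⟨g1, g2, ?_⟩⟩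
      simp only [QuotientGroup.mk_mul, QuotientGroup.mk_pow, ← ht] at hm ⊢
      rw [pow_mod_orderOf, mul_assoc, hm, mul_assoc, inv_mul_cancel_left]
    · rintro ⟨i, -, h1⟩
      obtain ⟨g, rfl⟩ := QuotientGroup.mk_surjective s
      obtain ⟨g1, g2, g3⟩ := (hmem _ g).1 h1
      refine ⟨g, rfl, g1, g2, ?_⟩
      rw [hmk (g := g * (ℓ v).σ ^ (n / pdg v) * (ℓ v).τ ^ i) (by
        rw [mul_assoc, QuotientGroup.mk_mul, g3, QuotientGroup.mk_mul, mul_assoc,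
          mul_inv_cancel_left]), hτ, hσ]
  have hfin : {y | (∃ g, y = plc (ℓ v) U g) ∧ sa hU γ • y = y}.Finite :=
    (over_finite (ℓ := ℓ) (A := {v}) h6 (opn_of_adm hU)).subset fun y hy =>
      ⟨v, Finset.mem_singleton_self v, hy.1⟩
  have hfib : ∀ y, (∃ g, y = plc (ℓ v) U g) → ∃ g : WG k Ω,
      {s : WG k Ω ⧸ U | ∃ g : WG k Ω, (g : WG k Ω ⧸ U) = s ∧ 0 ≤ wdeg g ∧ wdeg g < pdg v ∧
        plc (ℓ v) U g = y} = (fun j => (g : WG k Ω ⧸ U) * t ^ j) '' Set.Iio (orderOf t) := by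
    rintro _ ⟨g₀, rfl⟩
    obtain ⟨g, g1, g2, g3⟩ := LkFix_norm (H := U) (ℓ v) g₀
    refine ⟨g, Set.ext fun s => ⟨?_, ?_⟩⟩
    · rintro ⟨g', rfl, b1, b2, b3⟩
      have h3 := plc_deg ℓ (g3.trans b3.symm)
      obtain ⟨m, hm⟩ := Lk2Fix_key hU (ℓ v) (sub_eq_zero.1
        (Int.eq_zero_of_abs_lt_dvd h3 (abs_lt.2 ⟨by omega, by omega⟩))) (g3.trans b3.symm)
      exact ⟨m % orderOf t, Nat.mod_lt _ ho, by simp only [pow_mod_orderOf, hm, ht]⟩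
    · rintro ⟨j, -, rfl⟩
      have h4 : wdeg (g * (ℓ v).τ ^ j) = wdeg g := by
        rw [wdeg_mul, wdeg_pow, (ℓ v).deg_τ, mul_zero, add_zero]
      exact ⟨g * (ℓ v).τ ^ j, by simp only [QuotientGroup.mk_mul, QuotientGroup.mk_pow, ht],
        h4 ▸ g1, h4 ▸ g2, (hτ g j).trans g3⟩
  have hG : F.ncard = ∑ y ∈ hfin.toFinset, {s : WG k Ω ⧸ U | ∃ g : WG k Ω,
      (g : WG k Ω ⧸ U) = s ∧ 0 ≤ wdeg g ∧ wdeg g < pdg v ∧ plc (ℓ v) U g = y}.ncard := by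
    refine Lk2Fix_ncard _ _ (fun y hy => ?_) ?_ fun s => ⟨?_, ?_⟩
    · obtain ⟨g, hg⟩ := hfib y (hfin.mem_toFinset.1 hy).1
      rw [hg]
      exact (Set.finite_Iio _).image _
    · rintro _ - _ - _ ⟨g, rfl, -, -, rfl⟩ ⟨g', e, -, -, rfl⟩
      exact hmk e
    · rintro ⟨g, rfl, g1, g2, g3⟩
      exact ⟨_, hfin.mem_toFinset.2 ⟨⟨g, rfl⟩, (sa_plc hU _ _ _).trans g3⟩, g, rfl, g1, g2, rfl⟩
    · rintro ⟨_, hy, g, rfl, g1, g2, rfl⟩
      exact ⟨g, rfl, g1, g2, (sa_plc hU _ _ _).symm.trans (hfin.mem_toFinset.1 hy).2⟩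
  rw [Finset.sum_congr rfl (g := fun _ => orderOf t) fun y hy => by
    obtain ⟨g, hg⟩ := hfib y (hfin.mem_toFinset.1 hy).1
    rw [hg, Set.InjOn.ncard_image fun i hi j hj e =>
      pow_injOn_Iio_orderOf hi hj (mul_left_cancel e), Set.ncard_Iio_nat], Finset.sum_const,
    smul_eq_mul, ← Set.ncard_eq_toFinset_card _ hfin] at hG
  refine Nat.eq_of_mul_eq_mul_left ho ?_
  rw [← hper, ← hF, hG]
  ring

theorem fix_over (h6 : ((mo : ℕ) : k) ≠ 0) (hU : Adm U) {γ : WG k Ω} {n : ℕ} (hn : 0 < n)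
    (hγ : wdeg γ = n) :
    (Fintype.card k ^ n - 1) * {y | y ∈ ovr ℓ U A ∧ sa hU γ • y = y}.ncard =
      fixT (tame h6 ℓ) U A γ n := by
  have _ := hn
  obtain ⟨I, hI, e⟩ : ∃ I : Finset (Pl k), (∀ v, v ∈ I ↔ v ∈ A ∧ pdg v ∣ n) ∧
      fixT (tame h6 ℓ) U A γ n = ∑ v ∈ I, ∑ i ∈ Finset.range (Fintype.card k ^ n - 1),
        (cjs (tame h6 ℓ) U (pdg v) γ ((ℓ v).σ ^ (n / pdg v) * (ℓ v).τ ^ i)).ncard :=
    ⟨_, fun v => Finset.mem_filter, rfl⟩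
  rw [e, Lk2Fix_ncard I (fun v => {y | (∃ g, y = plc (ℓ v) U g) ∧ sa hU γ • y = y})
    (fun v _ => (over_finite (ℓ := ℓ) (A := {v}) h6 (opn_of_adm hU)).subset fun y hy =>
      ⟨v, Finset.mem_singleton_self v, hy.1⟩) ?_ ?_, Finset.mul_sum]
  · exact Finset.sum_congr rfl fun v hv => Lk2Fix_one h6 hU hγ ((hI v).1 hv).2
  · rintro v - v' - _ ⟨⟨g, rfl⟩, -⟩ ⟨⟨g', e'⟩, -⟩
    exact plc_base ℓ e'
  · refine fun y => ⟨?_, ?_⟩
    · rintro ⟨⟨v, hv, g, rfl⟩, h2⟩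
      refine ⟨v, (hI v).2 ⟨hv, ?_⟩, ⟨g, rfl⟩, h2⟩
      have h3 := plc_deg ℓ ((sa_plc hU _ _ _).symm.trans h2)
      rwa [wdeg_mul, hγ, add_sub_cancel_right, Int.natCast_dvd_natCast] at h3
    · rintro ⟨v, hv, h1, h2⟩
      exact ⟨⟨v, ((hI v).1 hv).1, h1⟩, h2⟩

theorem Lk2Fix_cyc {Z : Type} (π : WG k Ω →* Equiv.Perm Z) (hU : Adm U) (hπ : ∀ u ∈ U, π u = 1)
    {z : Z} (hH : ∀ u, u ∈ H ↔ wdeg u = 0 ∧ π u z = z) {v : Pl k} (l : Loc Ω v) {g g' : WG k Ω}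
    (hd : wdeg g = wdeg g') :
    plc l H g = plc l H g' ↔ (π l.τ).SameCycle (π g⁻¹ z) (π g'⁻¹ z) := by
  have := hU.normal
  have h0 : H ≤ WG0 k Ω := fun u hu => ((hH u).1 hu).1
  constructor
  · intro e
    obtain ⟨u, hu, e'⟩ := plc_lift h0 hU
      (fun u hu => (hH u).2 ⟨hU.le hu, by rw [hπ u hu]; rfl⟩) e
    obtain ⟨m, hm⟩ := Lk2Fix_key hU l
      (by rw [wdeg_mul, ((hH u).1 hu).1, zero_add, hd]) e'
    rw [← QuotientGroup.mk_pow, ← QuotientGroup.mk_mul, QuotientGroup.eq] at hm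
    have h1 := hπ _ hm
    have h2 : π g'⁻¹ = π l.τ ^ (-(m : ℤ)) * π g⁻¹ * π u⁻¹ := by
      rw [map_mul, mul_eq_one_iff_eq_inv] at h1
      rw [h1, ← map_zpow, ← map_mul, ← map_mul, ← map_inv]
      congr 1
      group
    refine ⟨-(m : ℤ), ?_⟩
    rw [h2, Equiv.Perm.mul_apply, Equiv.Perm.mul_apply, ((hH _).1 (H.inv_mem hu)).2]
  · rintro ⟨i, hi⟩
    have hu : g' * l.τ ^ i * g⁻¹ ∈ H := by
      refine (hH _).2 ⟨?_, ?_⟩
      · rw [wdeg_mul, wdeg_mul, wdeg_zpow, l.deg_τ, wdeg_inv, hd, mul_zero, add_zero,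
          add_neg_cancel]
      · rw [map_mul, map_mul, map_zpow, Equiv.Perm.mul_apply, Equiv.Perm.mul_apply, hi,
          ← Equiv.Perm.mul_apply, ← map_mul, mul_inv_cancel, map_one, Equiv.Perm.one_apply]
    rw [← plc_mul_left h0 l hu g, inv_mul_cancel_right, plc_τ]

theorem fix_orb (h6 : ((mo : ℕ) : k) ≠ 0) {Z : Type} [Fintype Z] (π : WG k Ω →* Equiv.Perm Z)
    (hU : Adm U) (hπ : ∀ u ∈ U, π u = 1) (ht : ∀ z z', ∃ g, wdeg g = 0 ∧ π g z = z') {z : Z}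
    (hH : ∀ u, u ∈ H ↔ wdeg u = 0 ∧ π u z = z) {γ : WG k Ω} (hγ : wdeg γ = 1) (hz : π γ z = z)
    {s : SA (Kb k Ω) (MU H)} (hs : ∀ a, (Ell.AT.sl s a : Ω) = gal γ a) {n : ℕ} (hn : 0 < n) :
    {y : Place (Kb k Ω) (MU H) | s ^ n • y = y}.ncard = ∑ v ∈ Pd (tame h6 ℓ) ∅ n,
      pdg v * fo (π (ℓ v).σ ^ (n / pdg v)) (π (ℓ v).τ) := by
  have h0 : H ≤ WG0 k Ω := fun u hu => ((hH u).1 hu).1
  have hO : Opn H := ⟨h0, U, hU, fun u hu => (hH u).2 ⟨hU.le hu, by rw [hπ u hu]; rfl⟩⟩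
  have hz' : ∀ m : ℕ, π (γ ^ m) z = z := fun m => by
    rw [map_pow]
    exact Equiv.Perm.pow_apply_eq_self_of_apply_eq_self hz m
  have hex : ∀ (i : ℕ) (z' : Z), ∃ g, wdeg g = i ∧ π g⁻¹ z = z' := fun i z' => by
    obtain ⟨h, h1, h2⟩ := ht z' z
    refine ⟨γ ^ i * h, by rw [wdeg_mul, wdeg_pow, hγ, h1, mul_one, add_zero], ?_⟩
    rw [map_inv, Equiv.Perm.inv_eq_iff_eq, map_mul, Equiv.Perm.mul_apply, h2, hz']
  have hfix : ∀ v, pdg v ∣ n → ∀ g, s ^ n • plc (ℓ v) H g = plc (ℓ v) H g ↔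
      (π (ℓ v).τ).SameCycle (π g⁻¹ z) ((π (ℓ v).σ ^ (n / pdg v)) (π g⁻¹ z)) := fun v hv g => by
    have h1 : s ^ n • plc (ℓ v) H ((γ ^ n)⁻¹ * g) = plc (ℓ v) H g := by
      rw [saN_plc hs, mul_inv_cancel_left]
    have h2 := Lk2Fix_cyc π hU hπ hH (ℓ v) (g := (γ ^ n)⁻¹ * g)
      (g' := g * (ℓ v).σ ^ (-((n / pdg v : ℕ) : ℤ))) (by
        rw [wdeg_mul, wdeg_mul, wdeg_inv, wdeg_pow, wdeg_zpow, (ℓ v).deg_σ, hγ, neg_mul,
          ← Nat.cast_mul, Nat.div_mul_cancel hv, mul_one, add_comm])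
    rw [plc_σ, mul_inv_rev, mul_inv_rev, inv_inv, zpow_neg, inv_inv, zpow_natCast, map_mul,
      map_mul, Equiv.Perm.mul_apply, Equiv.Perm.mul_apply, hz', map_pow] at h2
    rw [← h2]
    conv_lhs => rhs; rw [← h1]
    rw [smul_left_cancel_iff, eq_comm]
  let D : Pl k → ℕ → Place (Kb k Ω) (MU H) → Set Z := fun v i y =>
    {z' | ∃ g, wdeg g = i ∧ y = plc (ℓ v) H g ∧ π g⁻¹ z = z'}
  have hD : ∀ v (i : ℕ) g, wdeg g = i →
      D v i (plc (ℓ v) H g) = {z' | (π (ℓ v).τ).SameCycle (π g⁻¹ z) z'} := fun v i g hg => by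
    refine Set.ext fun z' => ⟨?_, fun h => ?_⟩
    · rintro ⟨g', h1, h2, rfl⟩
      exact (Lk2Fix_cyc π hU hπ hH (ℓ v) (hg.trans h1.symm)).1 h2
    · obtain ⟨g', h1, rfl⟩ := hex i z'
      exact ⟨g', h1, (Lk2Fix_cyc π hU hπ hH (ℓ v) (hg.trans h1.symm)).2 h, rfl⟩
  let t : ((_ : Pl k) × ℕ) → Set (Place (Kb k Ω) (MU H)) := fun x =>
    {y | (∃ g, wdeg g = x.2 ∧ y = plc (ℓ x.1) H g) ∧ s ^ n • y = y}
  have hinj : ∀ x, Set.InjOn (D x.1 x.2) (t x) := by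
    rintro ⟨v, i⟩ _ ⟨⟨g, h1, rfl⟩, -⟩ _ ⟨⟨g', h2, rfl⟩, -⟩ e
    rw [hD v i g h1, hD v i g' h2] at e
    refine (Lk2Fix_cyc π hU hπ hH (ℓ v) (h1.trans h2.symm)).2 ?_
    have h3 : π g'⁻¹ z ∈ {z' | (π (ℓ v).τ).SameCycle (π g'⁻¹ z) z'} := Equiv.Perm.SameCycle.rfl
    rwa [← e] at h3
  rw [Lk2Fix_ncard ((Pd (tame h6 ℓ) ∅ n).sigma fun v => Finset.range (pdg v)) t
    (fun x _ => Set.Finite.of_finite_image (Set.toFinite _) (hinj x)) ?_ ?_, Finset.sum_sigma]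
  · refine Finset.sum_congr rfl fun v hv => ?_
    have hv' : pdg v ∣ n := ((mem_Pd (T := tame h6 ℓ)).1 hv).2.1
    rw [Finset.sum_congr rfl (g := fun _ => fo (π (ℓ v).σ ^ (n / pdg v)) (π (ℓ v).τ))
      fun i _ => ?_, Finset.sum_const, Finset.card_range, smul_eq_mul]
    rw [← (hinj ⟨v, i⟩).ncard_image, fo]
    congr 1
    refine Set.ext fun E => ⟨?_, ?_⟩
    · rintro ⟨_, ⟨⟨g, h1, rfl⟩, h2⟩, rfl⟩
      exact ⟨_, hD v i g h1, (hfix v hv' g).1 h2⟩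
    · rintro ⟨z', rfl, h2⟩
      obtain ⟨g, h1, rfl⟩ := hex i z'
      exact ⟨_, ⟨⟨g, h1, rfl⟩, (hfix v hv' g).2 h2⟩, hD v i g h1⟩
  · rintro ⟨v, i⟩ hx ⟨v', i'⟩ hx' _ ⟨⟨g, h1, rfl⟩, -⟩ ⟨⟨g', h2, e⟩, -⟩
    obtain rfl : v = v' := plc_base ℓ e
    have a1 := Finset.mem_range.1 (Finset.mem_sigma.1 hx).2
    have a2 := Finset.mem_range.1 (Finset.mem_sigma.1 hx').2
    have h3 := plc_deg ℓ e
    dsimp only at h1 h2 h3 a1 a2
    have h4 := Int.eq_zero_of_abs_lt_dvd h3 (abs_lt.2 ⟨by omega, by omega⟩)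
    obtain rfl : i = i' := by omega
    rfl
  · refine fun y => ⟨fun h => ?_, fun ⟨_, _, h⟩ => h.2⟩
    obtain ⟨v, g₀, rfl⟩ := plc_surj ℓ hO y
    obtain ⟨g, g1, g2, g3⟩ := LkFix_norm (H := H) (ℓ v) g₀
    obtain ⟨i, hi⟩ := Int.eq_ofNat_of_zero_le g1
    have h2 : s ^ n • plc (ℓ v) H g₀ = plc (ℓ v) H g₀ := h
    have h3 := plc_deg ℓ ((saN_plc hs _ _ n).symm.trans h2)
    rw [wdeg_mul, wdeg_pow, hγ, mul_one, add_sub_cancel_right, Int.natCast_dvd_natCast] at h3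
    exact ⟨⟨v, i⟩, Finset.mem_sigma.2 ⟨(mem_Pd (T := tame h6 ℓ)).2
      ⟨Finset.notMem_empty v, h3, hn.ne'⟩, Finset.mem_range.2 (by dsimp only; omega)⟩,
      ⟨g, hi, g3.symm⟩, h2⟩

end Pool.Agent.Hyp
end

-- merged part: Pool.Agent.Work.MP_60d5ce_nt.Hy.ThmB
section
/-!
# The inverse of Frobenius, the determinant of Frobenius  (task HY ThmB)

* `isFr_pow`: `sc (γ ^ n) c = c ^ Q ^ n`.  `cyc_of_isFr`: `rO j (Q : O) = Q`, `ZMod.val_natCast`, `pow_eq_pow_mod`.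
* `thmZ`: `exists_sympT` with `we_nondeg`; `Φ = B.mat (pa γ)`; `det_sim` (`Q` is odd, so a unit of `O`); `Φ ^ n` is the matrix of `pa (γ ^ n)`; `TateI.hasTr`, `thmA`, `HasTr.unique`, `eq_of_rO`.
* `thmB`: the same with `trace_sim` for `B.mat (pa γ)`, `B.mat (pa γ⁻¹)` (`TateI.mat_mul`, `TateI.mat_one`).
* `km_hasTr_gen`: copy the proof of `KM.hasTr` in `Lb/LkAbs.lean` up to `key`.
-/

namespace Pool.Agent.Hyp

open PR0 Pool.Agent.Ell.AT Pool.Agent.Quad Pool.Agent.Lef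

variable {κ K : Type} [Field κ] [Field K] [Algebra κ K] {p : ℕ} {γ : SA κ K} {Q : ℕ}

theorem isFr_pow (hγ : IsFr p γ Q) {n : ℕ} (hn : 0 < n) : IsFr p (γ ^ n) (Q ^ n) := by
  obtain ⟨f, hf, e⟩ := hγ.pow
  obtain ⟨t, ht, e'⟩ := hγ.fix
  refine ⟨⟨f * n, Nat.mul_pos hf hn, by rw [e, pow_mul]⟩, fun c => ?_, t, ht, ?_⟩
  · clear hn
    induction n with
    | zero => simp
    | succ n ih => rw [pow_succ', map_mul, RingAut.mul_apply, ih, hγ.c, ← pow_mul, pow_succ]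
  · clear hn
    induction n with
    | zero => simp
    | succ n ih => rw [pow_succ', map_mul, RingAut.mul_apply, ih, e']

theorem cyc_of_isFr (hγ : IsFr p γ Q) : Cyc γ (Q : O) := by
  intro j z hz
  rw [hγ.c, map_natCast, ZMod.val_natCast]
  exact pow_eq_pow_mod Q hz

variable [IsAlgClosed κ] [Fact (IsFF κ K)]

theorem km_hasTr_gen (h2 : (2 : κ) ≠ 0) {J : ℕ} {t : ZMod (2 ^ (J + 1))}
    (hT : HasTr (2 ^ (J + 1)) (tors (Pic κ K) (2 ^ (J + 1))) (pa γ) t) {S : Set (Place κ K)}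
    (hS : S.Finite) (hne : S.Nonempty) (hst : ∀ y, γ • y ∈ S ↔ y ∈ S) {B : Type} [AddCommGroup B]
    {H : AddSubgroup B} {φ : B → B} {Rl : B → K → Prop} (h : KM (2 ^ (J + 1)) S γ H φ Rl) :
    HasTr (2 ^ (J + 1)) H φ (t + (({y | y ∈ S ∧ γ • y = y}.ncard : ZMod (2 ^ (J + 1))) - 1)) := by
  classical
  have hN' : ((2 ^ (J + 1) : ℕ) : κ) ≠ 0 := by
    rw [Nat.cast_pow, Nat.cast_ofNat]
    exact pow_ne_zero _ h2
  have hN : 2 ^ (J + 1) ≠ 0 := pow_ne_zero _ two_ne_zero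
  have := hS.fintype
  have := hne.to_subtype
  let π : Equiv.Perm S := Equiv.Perm.subtypePerm (MulAction.toPerm γ⁻¹) fun y => by
    rw [← hst, MulAction.toPerm_apply, smul_inv_smul]
  have hπ : ∀ s : S, (π s).1 = γ⁻¹ • s.1 := fun _ => rfl
  have hZ := hasTr_sumZ (J := J) π
  generalize 2 ^ (J + 1) = N at *
  have k0 : ∀ χ : B, ∃ f : K, χ ∈ H → Rl χ f := fun χ => by
    by_cases q : χ ∈ H
    · exact (h.ex χ q).imp fun f hf _ => hf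
    · exact ⟨0, fun k => absurd k q⟩
  choose fn hfn using k0
  have same : ∀ χ ∈ H, ∀ f, Rl χ f → ∃ b, b ≠ 0 ∧ fn χ = f * b ^ N := fun χ hχ f hf =>
    (h.uniq χ hχ χ hχ _ _ (hfn χ hχ) hf).1 rfl
  let j : B → S → ZMod N := fun χ y => (y.1.ord (fn χ) : ZMod N)
  have hj : ∀ χ ∈ H, ∀ f, Rl χ f → ∀ y : S, j χ y = (y.1.ord f : ZMod N) := fun χ hχ f hf y => by
    obtain ⟨b, hb, e⟩ := same χ hχ f hf
    change (y.1.ord (fn χ) : ZMod N) = _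
    rw [e, y.1.ord_mul (h.ne _ _ hf) (pow_ne_zero _ hb), y.1.ord_pow hb, Int.cast_add, Int.cast_mul,
      Int.cast_natCast, ZMod.natCast_self, zero_mul, add_zero]
  have ha : AddOn H j := fun x hx y hy => funext fun s => by
    rw [hj _ (H.add_mem hx hy) _ (h.mul _ _ _ _ (hfn x hx) (hfn y hy)),
      s.1.ord_mul (h.ne _ _ (hfn x hx)) (h.ne _ _ (hfn y hy)), Int.cast_add]
    rfl
  have hc : ∀ x ∈ H, j (φ x) = fun s => j x (π s) := fun x hx => funext fun s => by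
    rw [hj _ (h.mem x hx) _ (h.op _ _ (hfn x hx)), hj x hx _ (hfn x hx), hπ,
      ← ord_smul γ _ (h.ne _ _ (hfn x hx)), smul_inv_smul]
  have hE : EndOn H φ := ⟨h.mem, fun x hx y hy =>
    (h.uniq _ (h.mem _ (H.add_mem hx hy)) _ (H.add_mem (h.mem x hx) (h.mem y hy)) _ _
      (h.op _ _ (h.mul _ _ _ _ (hfn x hx) (hfn y hy)))
      (h.mul _ _ _ _ (h.op _ _ (hfn x hx)) (h.op _ _ (hfn y hy)))).2
      ⟨1, one_ne_zero, by rw [one_pow, mul_one, map_mul]⟩⟩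
  have hK : ∀ x ∈ H, N • x = 0 := fun x hx => by
    have k : ∀ n : ℕ, Rl (n • x) (fn 0 * fn x ^ n) := fun n => by
      induction n with
      | zero =>
        rw [zero_smul, pow_zero, mul_one]
        exact hfn 0 H.zero_mem
      | succ n ih =>
        rw [succ_nsmul, pow_succ, ← mul_assoc]
        exact h.mul _ _ _ _ ih (hfn x hx)
    exact (h.uniq _ (H.nsmul_mem hx N) 0 H.zero_mem _ _ (k N) (hfn 0 H.zero_mem)).2
      ⟨fn x, h.ne _ _ (hfn x hx), rfl⟩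
  have hs : j '' H = sumZ S N := by
    ext F
    constructor
    · rintro ⟨x, hx, rfl⟩
      exact LkAbs_sum (h.ne _ _ (hfn x hx)) (h.unr x hx _ (hfn x hx))
    · intro hF
      obtain ⟨f, hf, k1, k2⟩ := LkAbs_lift hN' hne.some hF
      obtain ⟨x, hx, k3⟩ := h.back f hf k1
      exact ⟨x, hx, funext fun y => (hj x hx f k3 y).trans (k2 y)⟩
  let H1 : AddSubgroup B := ha.hom.ker.map H.subtype
  have hk : ∀ x, x ∈ H1 ↔ x ∈ H ∧ j x = 0 := fun x =>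
    ⟨by rintro ⟨y, hy, rfl⟩; exact ⟨y.2, hy⟩, fun k => ⟨⟨x, k.1⟩, k.2, rfl⟩⟩
  have k1 : ∀ χ : B, ∃ c : Pic κ K, χ ∈ H1 → Kum N (fn χ) c := fun χ => by
    by_cases q : χ ∈ H1
    · obtain ⟨q1, q2⟩ := (hk χ).1 q
      refine (LkAbs_kum (h.ne _ _ (hfn χ q1)) fun y => ?_).imp fun c k _ => k
      by_cases hy : y ∈ S
      · exact (ZMod.intCast_zmod_eq_zero_iff_dvd _ _).1 (congrFun q2 ⟨y, hy⟩)
      · exact h.unr χ q1 _ (hfn χ q1) y hy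
    · exact ⟨0, fun k => absurd k q⟩
  choose cf hcf using k1
  have hB : ∀ χ ∈ H1, ∀ f c, Rl χ f → Kum N f c → cf χ = c := fun χ hχ f c hf k =>
    ((hcf χ hχ).eq_iff hN k).2 (same χ ((hk χ).1 hχ).1 f hf)
  have hφ : ∀ x ∈ H1, φ x ∈ H1 := fun x hx => (hk _).2 ⟨h.mem x ((hk x).1 hx).1, by
    rw [hc x ((hk x).1 hx).1, ((hk x).1 hx).2]
    rfl⟩
  have h1 : HasTr N H1 φ _ := hT.comap (j := cf)
    (fun x hx y hy => hB _ (H1.add_mem hx hy) _ _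
      (h.mul _ _ _ _ (hfn x ((hk x).1 hx).1) (hfn y ((hk y).1 hy).1)) ((hcf x hx).mul (hcf y hy)))
    (fun x hx y hy e => (h.uniq x ((hk x).1 hx).1 y ((hk y).1 hy).1 _ _ (hfn x ((hk x).1 hx).1)
      (hfn y ((hk y).1 hy).1)).2 (((hcf x hx).eq_iff hN (hcf y hy)).1 e))
    (by
      ext c
      constructor
      · rintro ⟨x, hx, rfl⟩
        exact (hcf x hx).tors
      · intro hc'
        obtain ⟨u, hu⟩ := exists_kum (mem_tors.1 hc')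
        obtain ⟨x, hx, k⟩ := h.back u hu.1 fun y _ => LkAbs_dvd hu y
        have hx' : x ∈ H1 := (hk x).2 ⟨hx, funext fun y => (hj x hx u k y).trans
          ((ZMod.intCast_zmod_eq_zero_iff_dvd _ _).2 (LkAbs_dvd hu y.1))⟩
        exact ⟨x, hx', hB x hx' u c k hu⟩)
    hφ fun x hx => hB _ (hφ x hx) _ _ (h.op _ _ (hfn x ((hk x).1 hx).1)) ((hcf x hx).sl γ)
  have key := h1.add hZ ha hk hs hE hK hc
  have e2 : {y | y ∈ S ∧ γ • y = y}.ncard = (Finset.univ.filter fun s => π s = s).card := by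
    rw [← Set.ncard_coe_finset, ← Set.ncard_image_of_injective _ Subtype.val_injective]
    refine congrArg Set.ncard (Set.ext fun y => ?_)
    simp only [Set.mem_ofPred_eq, Set.mem_image, Finset.coe_filter, Finset.mem_univ, true_and]
    constructor
    · rintro ⟨hy, k⟩
      exact ⟨⟨y, hy⟩, Subtype.ext (by rw [hπ, inv_smul_eq_iff, k]), rfl⟩
    · rintro ⟨s, k, rfl⟩
      have k' := congrArg Subtype.val k
      rw [hπ, inv_smul_eq_iff] at k'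
      exact ⟨s.2, k'.symm⟩
  rw [e2]
  exact key

variable [Fact p.Prime] [CharP κ p]

omit [IsAlgClosed κ] [Fact (IsFF κ K)] in
theorem ThmB_unit (h2 : (2 : κ) ≠ 0) (hγ : IsFr p γ Q) : IsUnit (Q : O) := by
  obtain ⟨f, -, e⟩ := hγ.pow
  have hp : p ≠ 2 := fun e' => h2 (by rw [← CharP.cast_eq_zero κ p, e', Nat.cast_ofNat])
  have ho : Odd Q := e ▸ ((Fact.out : p.Prime).odd_of_ne_two hp).pow
  refine isUnit_of_res_ne_zero ?_
  rw [res_natCast_of_mod (Nat.odd_iff.1 ho)]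
  exact one_ne_zero

omit [Fact p.Prime] [CharP κ p] in
theorem ThmB_pow {I : Type} [Fintype I] [DecidableEq I] (B : TateI I (Pic κ K)) (n : ℕ) :
    B.mat (pa γ) ^ n = B.mat (pa (γ ^ n)) := by
  induction n with
  | zero => rw [pow_zero, pow_zero, B.mat_one fun _ P _ => pa_one P]
  | succ n ih => rw [pow_succ, pow_succ, ih, B.mat_mul (pa_mul _ _)]

theorem ThmB_tr (h2 : (2 : κ) ≠ 0) (hγ : IsFr p γ Q) {I : Type} [Fintype I] [DecidableEq I]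
    (B : TateI I (Pic κ K)) (J : ℕ) : rO (J + 1) (B.mat (pa γ)).trace =
      1 + Q - ({y : Place κ K | γ • y = y}.ncard : ZMod (2 ^ (J + 1))) :=
  (B.hasTr (B.mat_spec (pa γ) (J + 1))).unique (thmA h2 hγ J)



theorem thmZ (h2 : (2 : κ) ≠ 0) (hγ : IsFr p γ Q) :
    ∃ (r : ℕ) (Φ : Matrix (Fin r ⊕ Fin r) (Fin r ⊕ Fin r) O), Φ.det = (Q : O) ^ r ∧
      ∀ n, 0 < n → (Φ ^ n).trace =
        1 + (Q : O) ^ n - ({y : Place κ K | γ ^ n • y = y}.ncard : O) := by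
  obtain ⟨r, B, hB⟩ := exists_sympT h2 (we_nondeg h2 hγ)
  refine ⟨r, B.mat (pa γ), det_sim (ThmB_unit h2 hγ) (hB γ _ (cyc_of_isFr hγ)), fun n hn => ?_⟩
  refine eq_of_rO fun j => ?_
  rw [ThmB_pow, ThmB_tr h2 (isFr_pow hγ hn), map_sub, map_add, map_one, map_pow, map_natCast,
    map_natCast, Nat.cast_pow]

theorem thmB (h2 : (2 : κ) ≠ 0) (hγ : IsFr p γ Q) (J : ℕ) :
    ∃ t, HasTr (2 ^ (J + 1)) (tors (Pic κ K) (2 ^ (J + 1))) (pa γ⁻¹) t ∧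
      (Q : ZMod (2 ^ (J + 1))) * t =
        1 + Q - ({y : Place κ K | γ • y = y}.ncard : ZMod (2 ^ (J + 1))) := by
  obtain ⟨r, B, hB⟩ := exists_sympT h2 (we_nondeg h2 hγ)
  refine ⟨_, B.hasTr (B.mat_spec (pa γ⁻¹) (J + 1)), ?_⟩
  have h1 : B.mat (pa γ) * B.mat (pa γ⁻¹) = 1 := by
    rw [← B.mat_mul (pa_mul γ γ⁻¹), mul_inv_cancel, B.mat_one fun _ P _ => pa_one P]
  rw [← ThmB_tr h2 hγ B, ← trace_sim (hB γ _ (cyc_of_isFr hγ)) h1, map_mul, map_natCast]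

end Pool.Agent.Hyp
end

-- merged part: Pool.Agent.Work.MP_60d5ce_nt.Hy.Lk2Main
section
/-!
# The dual axioms hold for `k(t)`  (task HY Lk2Main)

* `kr_op_inv`: as `KR.op`; `gal γ⁻¹ ζ = ζ ^ c.val` because `gal γ` of the right side is `ζ ^ (q ^ n * c.val) = ζ`.
* `km_inv`: as `km`.
* `lefAx2`, field `tr`: `q ^ n` is odd, so it has an inverse `c` in `ZMod (2 ^ (J + 1))`; `thmB`, `km_hasTr_gen` for `(sa hU γ)⁻¹` (same fixed places as `sa hU γ`); multiply the operator and the matrix by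
  `q ^ n` (unfold `HasTr`, `HasTr.congr`); split the fixed places (`fix_finite`), `fix_count`, `fix_over`.
  Field `zz`: `z` any point, `H` its stabiliser in `WG0`, `γ = g * (ℓ none).σ` with `g` of degree zero from transitivity; `exists_saN`, `isFr_saN`, `thmZ`, `fix_orb`.
-/

namespace Pool.Agent.Hyp

open Pool.Agent.Lef

variable [Par]

open PR0 Pool.Agent.Ell.AT Pool.Agent.Quad

omit [Par] in
theorem Lk2Main_smul {B : Type} [AddCommGroup B] {N : ℕ} {H : AddSubgroup B} {f : B → B}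
    {t : ZMod N} (h : HasTr N H f t) (m : ℕ) : HasTr N H (fun x => m • f x) (m * t) := by
  obtain ⟨r, e, M, h1, h2, h3, h4⟩ := h
  refine ⟨r, e, m • M, h1, h2, fun x => ?_, ?_⟩
  · show m • f (e x) = _
    rw [h3, Matrix.smul_mulVec, map_nsmul]
  · rw [Matrix.trace_smul, h4, nsmul_eq_mul]

variable {k : Type} [Field k] [Fintype k] {Ω : Type} [Field Ω] [Algebra (RatFunc k) Ω]
  [Algebra k Ω] [IsScalarTower k (RatFunc k) Ω]

theorem kr_op_inv {ζ : Kb k Ω} {N : ℕ} [NeZero N] (hζ : IsPrimitiveRoot ζ N)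
    {U : Subgroup (WG k Ω)} (hU : Adm U) {χ : WG k Ω → ZMod N} {f : MU U} (h : KR ζ N U χ f)
    {γ : WG k Ω} {n : ℕ} (hγ : wdeg γ = n) {c : ZMod N}
    (hc : (Fintype.card k : ZMod N) ^ n * c = 1) :
    KR ζ N U (fun g => c * χ (γ * g * γ⁻¹)) (Ell.AT.sl (sa hU γ)⁻¹ f) := by
  obtain ⟨h0, r, hr, h1⟩ := h
  have hz := (lkKum_prim hζ).pow_eq_one
  rw [← map_inv]
  refine ⟨fun h2 => h0 (Subtype.ext ?_), gal γ⁻¹ r, by rw [← map_pow, hr, sl_sa], fun u hu => ?_⟩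
  · have h3 : gal γ⁻¹ (f : Ω) = 0 := by
      rw [← sl_sa hU, h2]
      rfl
    exact (map_eq_zero _).1 h3
  · have h3 : gal u (gal γ⁻¹ r) = gal γ⁻¹ (gal (γ * u * γ⁻¹) r) := by
      rw [← lkKum_comp, ← lkKum_comp, ← mul_assoc, ← mul_assoc, inv_mul_cancel, one_mul]
    have h4 : ∀ a : ZMod N, gal γ ((ζ : Ω) ^ (c * a).val) = (ζ : Ω) ^ a.val := fun a => by
      have h5 : a = ((Fintype.card k ^ n * (c * a).val : ℕ) : ZMod N) := by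
        rw [Nat.cast_mul, Nat.cast_pow, ZMod.natCast_zmod_val, ← mul_assoc, hc, one_mul]
      conv_rhs => rw [h5]
      rw [map_pow, gal_const, hγ, zpow_natCast, frob_pow_apply, lkKum_cast hz, pow_mul]
      rfl
    show _ = (ζ : Ω) ^ (c * χ (γ * u * γ⁻¹)).val * _
    rw [h3, h1 _ (hU.normal.conj_mem u hu γ), map_mul, ← h4, ← lkKum_comp, inv_mul_cancel,
      LkPlc_one]

variable [IsSepClosure (RatFunc k) Ω] {h6 : ((mo : ℕ) : k) ≠ 0} {ℓ : Locs k Ω}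
  {U : Subgroup (WG k Ω)} {A : Finset (Pl k)}

theorem km_inv (hU : Adm U) (hτ : ∀ v ∉ A, (ℓ v).τ ∈ U) {J : ℕ} {ζ : Kb k Ω}
    (hζ : IsPrimitiveRoot ζ (2 ^ (J + 1))) {γ : WG k Ω} {n : ℕ} (hγ : wdeg γ = n)
    {c : ZMod (2 ^ (J + 1))} (hc : (Fintype.card k : ZMod (2 ^ (J + 1))) ^ n * c = 1) :
    KM (2 ^ (J + 1)) (ovr ℓ U A) (sa hU γ)⁻¹
      (ZH (tame h6 ℓ) U (fun _ => AddMonoidHom.id (ZMod (2 ^ (J + 1)))) A)
      (fun χ g => c * χ (γ * g * γ⁻¹)) (KR ζ (2 ^ (J + 1)) U) := by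
  have hn := hU.normal
  have h := km (h6 := h6) hU hτ hζ hγ
  refine ⟨h.ex, h.ne, h.unr, h.back, h.mul, h.uniq, ?_, fun χ f h => kr_op_inv hζ hU h hγ hc⟩
  rintro χ ⟨h0, ⟨U₁, hU₁, hs⟩, h2, h3⟩
  have e : ∀ g g' : WG k Ω, γ * (g * g') * γ⁻¹ = γ * g * γ⁻¹ * (γ * g' * γ⁻¹) := fun g g' => by
    group
  refine ⟨fun g hg => ?_, ⟨U₁, hU₁, fun g hg u hu => ?_⟩, fun g hg g' hg' => ?_, fun t ht => ?_⟩
  · have : γ * g * γ⁻¹ ∉ U := fun h => hg (by simpa [mul_assoc] using hn.conj_mem' _ h γ)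
    simp only [h0 _ this, mul_zero]
  · simp only [e, hs _ (hn.conj_mem g hg γ) _ ((Adm.normal hU₁).conj_mem u hu γ)]
  · simp only [e, h2 _ (hn.conj_mem g hg γ) _ (hn.conj_mem g' hg' γ), AddMonoidHom.id_apply,
      mul_add]
  · have := TA_conj' ht γ⁻¹
    rw [inv_inv] at this
    simp only [h3 _ this, mul_zero]

theorem Lk2Main_tr (hU : Adm U) (hA : A.Nonempty) (hτ : ∀ v ∉ A, (ℓ v).τ ∈ U) (J : ℕ) {n : ℕ}
    {γ : WG k Ω} (hn : 0 < n) (hγ : wdeg γ = n) :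
    HasTr (2 ^ (J + 1)) (ZH (tame h6 ℓ) U (fun _ => AddMonoidHom.id (ZMod (2 ^ (J + 1)))) A)
      (fun χ g => χ (γ * g * γ⁻¹))
      (1 - fixY (tame h6 ℓ) U A γ n + fixT (tame h6 ℓ) U A γ n) := by
  obtain ⟨ζ, hζ⟩ := exists_zeta (Ω := Ω) h6 (J + 1)
  obtain ⟨p, hp⟩ := CharP.exists k
  have : Fact p.Prime := ⟨CharP.char_is_prime k p⟩
  have : CharP (Kb k Ω) p := charP_of_injective_algebraMap (algebraMap k (Kb k Ω)).injective p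
  have hO := opn_of_adm hU
  have : Fact (IsFF (Kb k Ω) (MU U)) := ⟨hO.isFF⟩
  have h2 : (2 : Kb k Ω) ≠ 0 := two_ne_of_six (six_ne_map (algebraMap k (Kb k Ω)) h6)
  have hF := isFr_sa p hU hn hγ
  have hco : Nat.Coprime (Fintype.card k ^ n) (2 ^ (J + 1)) :=
    Nat.Coprime.pow _ _ (Nat.coprime_two_right.2 (Nat.odd_iff.2 (card_mod h6)))
  obtain ⟨c, hc⟩ : ∃ c : ZMod (2 ^ (J + 1)), (Fintype.card k : ZMod (2 ^ (J + 1))) ^ n * c = 1 :=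
    ⟨_, by rw [← Nat.cast_pow]; exact ZMod.coe_mul_inv_eq_one _ hco⟩
  obtain ⟨t, ht, e⟩ := thmB h2 hF J
  have h := Lk2Main_smul (km_hasTr_gen h2 ht (over_finite h6 hO) (over_nonempty hA)
    (fun y => by rw [← map_inv]; exact over_smul hU γ⁻¹ y) (km_inv (h6 := h6) hU hτ hζ hγ hc))
    (Fintype.card k ^ n)
  have e1 : {y | y ∈ ovr ℓ U A ∧ (sa hU γ)⁻¹ • y = y} = {y | y ∈ ovr ℓ U A ∧ sa hU γ • y = y} := by
    ext y
    rw [Set.mem_ofPred_eq, Set.mem_ofPred_eq, inv_smul_eq_iff, eq_comm]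
  have e2 : {y : Place (Kb k Ω) (MU U) | sa hU γ • y = y}.ncard =
      {y | y ∉ ovr ℓ U A ∧ sa hU γ • y = y}.ncard + {y | y ∈ ovr ℓ U A ∧ sa hU γ • y = y}.ncard := by
    rw [← Set.ncard_union_eq (Set.disjoint_left.2 fun y k1 k2 => k1.1 k2.1)
      ((fix_finite hF).subset fun y k1 => k1.2) ((fix_finite hF).subset fun y k1 => k1.2)]
    refine congrArg Set.ncard (Set.ext fun y => ⟨fun k1 => ?_, fun k1 => k1.elim And.right And.right⟩)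
    by_cases hy : y ∈ ovr ℓ U A
    exacts [Or.inr ⟨hy, k1⟩, Or.inl ⟨hy, k1⟩]
  have e3 := congrArg (Nat.cast : ℕ → ZMod (2 ^ (J + 1))) (fix_over (ℓ := ℓ) (A := A) h6 hU hn hγ)
  rw [Nat.cast_mul, Nat.cast_pred (pow_pos Fintype.card_pos n)] at e3
  rw [e2, fix_count h6 hU hτ hn hγ, Nat.cast_add] at e
  rw [e1] at h
  have e4 : ((Fintype.card k ^ n : ℕ) : ZMod (2 ^ (J + 1))) *
      (t + (({y | y ∈ ovr ℓ U A ∧ sa hU γ • y = y}.ncard : ZMod (2 ^ (J + 1))) - 1)) =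
      1 - fixY (tame h6 ℓ) U A γ n + fixT (tame h6 ℓ) U A γ n := by
    linear_combination e + e3
  rw [e4] at h
  refine h.congr fun χ _ => funext fun g => ?_
  show (Fintype.card k ^ n) • (c * χ (γ * g * γ⁻¹)) = χ (γ * g * γ⁻¹)
  rw [nsmul_eq_mul, Nat.cast_pow, ← mul_assoc, hc, one_mul]

theorem Lk2Main_zz {Z : Type} [Fintype Z] [Nonempty Z] (π : WG k Ω →* Equiv.Perm Z) (hU : Adm U)
    (hπ : ∀ u ∈ U, π u = 1) (ht : ∀ z z', ∃ g, wdeg g = 0 ∧ π g z = z') :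
    ∃ (r : ℕ) (Φ : Matrix (Fin r ⊕ Fin r) (Fin r ⊕ Fin r) O), Φ.det = (Fintype.card k : O) ^ r ∧
      ∀ n, 0 < n → (Φ ^ n).trace = 1 + (Fintype.card k : O) ^ n -
        eul (tame h6 ℓ) ∅ (fun v m => (fo (π (ℓ v).σ ^ m) (π (ℓ v).τ) : O)) n := by
  obtain ⟨z⟩ := ‹Nonempty Z›
  obtain ⟨H, hH⟩ : ∃ H : Subgroup (WG k Ω), ∀ u, u ∈ H ↔ wdeg u = 0 ∧ π u z = z :=
    ⟨WG0 k Ω ⊓ (MulAction.stabilizer (Equiv.Perm Z) z).comap π, fun u => Iff.rfl⟩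
  have h0 : H ≤ WG0 k Ω := fun u hu => ((hH u).1 hu).1
  have hO : Opn H := ⟨h0, U, hU, fun u hu => (hH u).2 ⟨hU.le hu, by rw [hπ u hu]; rfl⟩⟩
  have : Fact (IsFF (Kb k Ω) (MU H)) := ⟨hO.isFF⟩
  obtain ⟨p, hp⟩ := CharP.exists k
  have : Fact p.Prime := ⟨CharP.char_is_prime k p⟩
  have : CharP (Kb k Ω) p := charP_of_injective_algebraMap (algebraMap k (Kb k Ω)).injective p
  have h2 : (2 : Kb k Ω) ≠ 0 := two_ne_of_six (six_ne_map (algebraMap k (Kb k Ω)) h6)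
  obtain ⟨g, hg, hgz⟩ := ht (π (ℓ none).σ z) z
  have hγ : wdeg (g * (ℓ none).σ) = 1 := by
    rw [wdeg_mul, hg, (ℓ none).deg_σ, zero_add]
    rfl
  have hz : π (g * (ℓ none).σ) z = z := by rw [map_mul, Equiv.Perm.mul_apply, hgz]
  generalize g * (ℓ none).σ = γ at hγ hz
  obtain ⟨s, hs, hc⟩ := exists_saN h0 (γ := γ) fun u => by
    have e1 : wdeg (γ * u * γ⁻¹) = wdeg u := by
      rw [wdeg_mul, wdeg_mul, wdeg_inv]
      ring
    have e2 : π γ⁻¹ z = z := by rw [map_inv, Equiv.Perm.inv_eq_iff_eq, hz]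
    rw [hH, hH, e1, map_mul, map_mul, Equiv.Perm.mul_apply, Equiv.Perm.mul_apply, e2]
    refine and_congr_right fun _ => ?_
    conv_lhs => rw [← hz]
    rw [hz]
    exact ⟨fun e => (π γ).injective (e.trans hz.symm), fun e => by rw [e, hz]⟩
  obtain ⟨r, Φ, e1, e2⟩ := thmZ h2 (isFr_saN p hγ hs hc)
  refine ⟨r, Φ, e1, fun n hn => ?_⟩
  rw [e2 n hn, fix_orb (ℓ := ℓ) h6 π hU hπ ht hH hγ hz hs hn, Nat.cast_sum, eul]
  simp only [Nat.cast_mul]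
  rfl

variable (h6 ℓ) in
theorem lefAx2 : LefAx2 (tame h6 ℓ) := by
  refine ⟨fun U hU A hA hτ J n γ hn hγ => Lk2Main_tr hU hA hτ J hn hγ, ?_⟩
  rintro Z _ _ π ⟨U, hU, hπ⟩ ht
  exact Lk2Main_zz π hU hπ ht

end Pool.Agent.Hyp
end
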