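import Pool.Agent.Work.MP_60d5ce_nt.Hy.ChebP

/-!
# Characters of the Weil group: existence, uniqueness, finiteness

Hints.
* `ord_conj`: `kum r (g⁻¹ τ g) = kum (g r) τ`, then `Loc.kum_tau`.
* `uniq_geom`: `exists_kummer` gives `r ^ 2 = jK b`; for a constant `y = frob ^ i x_v`
  (`exists_place`) and `g = φ ^ (-i)`, `Loc.kum_tau` and `Loc.w_poly` show that two divides the order
  of `b` at `y`; so `b` is a constant times a square, constants are squares, `r ∈ jK`-range.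
* `tau_fin`: `U` contains the fixer of a finite set; for `a` in it, the minimal polynomial over
  `RatFunc k` has integral coefficients and its roots have differences of size one at all places
  outside a finite set (a nonzero element of `RatFunc k` has size one at almost all places; use the
  product of the differences of the roots, or Bezout `u f + v f' = 1`), and `w (τ a - a) < 1`.
-/

namespace Pool.Agent.Hyp

open Pool.Agent.Quad

variable [Par]

open Polynomial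

theorem RecipA_square {K : Type} [Field K] [IsAlgClosed K] (p : K[X])
    (h : ∀ y, 2 ∣ p.rootMultiplicity y) : ∃ s, p = s ^ 2 := by
  classical
  obtain ⟨u, hu⟩ := Multiset.exists_smul_of_dvd_count p.roots (k := 2) fun a _ => by
    rw [count_roots]
    exact h a
  obtain ⟨d, hd⟩ := IsAlgClosed.exists_pow_nat_eq p.leadingCoeff (n := 2) (by norm_num)
  refine ⟨C d * (u.map fun a => X - C a).prod, ?_⟩
  rw [mul_pow, ← map_pow, hd, ← Multiset.prod_nsmul, ← Multiset.map_nsmul, ← hu]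
  exact (IsAlgClosed.splits p).eq_prod_roots

theorem RecipA_sum {Ω ι : Type} [Field Ω] {w : AbsoluteValue Ω ℝ} (hw : IsNonarchimedean w)
    (s : Finset ι) (f : ι → Ω) {B : ℝ} (hB : 0 < B) (h : ∀ i ∈ s, w (f i) < B) :
    w (∑ i ∈ s, f i) < B := by
  classical
  induction s using Finset.induction_on with
  | empty => simpa using hB
  | insert i s hi ih =>
    rw [Finset.sum_insert hi]
    exact (hw _ _).trans_lt (max_lt (h i (Finset.mem_insert_self _ _))
      (ih fun j hj => h j (Finset.mem_insert_of_mem hj)))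

variable {k : Type} [Field k] [Fintype k] {Ω : Type} [Field Ω] [Algebra (RatFunc k) Ω]
  [Algebra k Ω] [IsScalarTower k (RatFunc k) Ω] [IsSepClosure (RatFunc k) Ω]

omit [Fintype k] [Algebra k Ω] [IsScalarTower k (RatFunc k) Ω] [IsSepClosure (RatFunc k) Ω] in
theorem RecipA_congr {r s : Ω} {g g' : Gam k Ω} (h : g r = r ↔ g' s = s) : kum r g = kum s g' := by
  classical
  unfold kum
  by_cases h1 : g' s = s
  · rw [if_pos h1, if_pos (h.2 h1)]
  · rw [if_neg h1, if_neg (mt h.1 h1)]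

theorem ord_conj (h6 : ((mo : ℕ) : k) ≠ 0) {v : Pl k} (l : Loc Ω v) {r : Ω}
    {b : RatFunc (Kb k Ω)} (hr : r ≠ 0) (hb : r ^ 2 = jK k Ω b) (g : WG k Ω) {n : ℤ}
    (hn : l.w (gal g (r ^ 2)) = 2 ^ (-n)) : kum r (gal (g⁻¹ * l.τ * g)) = (n : F2) := by
    obtain ⟨b', hb'⟩ := gal_jK g b
    have h1 : gal g r ≠ 0 := (_root_.map_ne_zero _).2 hr
    have h2 : gal l.τ (gal g r ^ 2) = gal g r ^ 2 := by
      rw [← map_pow, hb, hb', geom_fix l.deg_τ]
    have h3 := kum_spec h6 h1 h2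
    rw [l.kum_tau h6 h1 h2 (by rwa [← map_pow])] at h3
    refine kum_eq h6 hr ?_
    rw [map_mul, map_mul, AlgEquiv.mul_apply, AlgEquiv.mul_apply, h3, map_mul, map_pow, map_neg,
      map_one, ← AlgEquiv.mul_apply, ← map_mul, inv_mul_cancel, map_one, AlgEquiv.one_apply]

theorem kum_hom (h6 : ((mo : ℕ) : k) ≠ 0) (ℓ : Locs k Ω) {r : Ω} {a : RatFunc k} (hr : r ≠ 0)
    (ha : r ^ 2 = algebraMap (RatFunc k) Ω a) : (pre ℓ).IsHom fun g => kum r (gal g) := by
    obtain ⟨b, hb⟩ := jK_range (Ω := Ω) a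
    obtain ⟨U, hU, h⟩ := adm_kum h6 (ha.trans hb.symm)
    have h3 : ∀ g : Gam k Ω, g (r ^ 2) = r ^ 2 := fun g => by rw [ha, AlgEquiv.commutes]
    refine ⟨⟨U, hU, fun g u hu => ?_⟩, fun g g' => ?_⟩
    · refine RecipA_congr ?_
      rw [map_mul, AlgEquiv.mul_apply, h u hu]
    · simp only [map_mul]
      exact kum_mul h6 hr (h3 _) (h3 _)

theorem deg_hom (ℓ : Locs k Ω) (c : F2) : (pre ℓ).IsHom fun g => (wdeg g : F2) * c := by
  refine ⟨⟨_, adm_WG0, fun g u hu => ?_⟩, fun g g' => ?_⟩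
  · simp only [wdeg_mul, mem_WG0.1 hu, add_zero]
  · simp only [wdeg_mul, Int.cast_add, add_mul]

theorem RecipA_sqr (h6 : ((mo : ℕ) : k) ≠ 0) {p : k[X]} (hp : p ≠ 0) :
    sqr (aeval (tt k Ω) p) ≠ 0 ∧ sqr (aeval (tt k Ω) p) ^ 2 = aeval (tt k Ω) p := by
    have h := sqr_spec (k := k) h6 (aeval (tt k Ω) p)
    refine ⟨fun h0 => ?_, h⟩
    rw [h0, zero_pow two_ne_zero, aeval_tt_base] at h
    exact (_root_.map_ne_zero _).2 (RatFunc.algebraMap_ne_zero hp) h.symm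

theorem RecipA_chi_tau (h6 : ((mo : ℕ) : k) ≠ 0) (ℓ : Locs k Ω)
    (p : {p : k[X] // p.Monic ∧ Irreducible p}) {w : Pl k} (hw : w ≠ none) :
    chi ℓ (some p) (ℓ w).τ =
      ((p.1.map (algebraMap k (Kb k Ω))).rootMultiplicity (ℓ w).x : ℤ) := by
  obtain ⟨h1, h2⟩ := RecipA_sqr (Ω := Ω) h6 p.2.1.ne_zero
  simp only [chi, (ℓ w).deg_τ, Int.cast_zero, zero_mul, sub_zero]
  refine (ℓ w).kum_tau h6 h1 (by rw [h2, aeval_tt_base, AlgEquiv.commutes]) ?_
  rw [h2, ← aeval_tt_map]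
  exact (ℓ w).w_poly hw (Polynomial.map_ne_zero p.2.1.ne_zero)

theorem chi_hom (h6 : ((mo : ℕ) : k) ≠ 0) (ℓ : Locs k Ω) (v : Pl k) :
    (pre ℓ).IsHom (chi ℓ v) := by
  cases v with
  | none => exact ⟨⟨_, adm_WG0, fun _ _ _ => rfl⟩, fun _ _ => (add_zero _).symm⟩
  | some p =>
    obtain ⟨h1, h2⟩ := RecipA_sqr (Ω := Ω) h6 p.2.1.ne_zero
    obtain ⟨⟨U, hU, a1⟩, a2⟩ := kum_hom h6 ℓ h1 (h2.trans (aeval_tt_base _))
    refine ⟨⟨U, hU, fun g u hu => ?_⟩, fun g g' => ?_⟩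
    · have h3 : wdeg u = 0 := hU.2.1 u hu
      have h4 := a1 g u hu
      simp only [chi, wdeg_mul, h3, add_zero] at h4 ⊢
      rw [h4]
    · have h4 := a2 g g'
      simp only [chi, wdeg_mul, Int.cast_add] at h4 ⊢
      rw [h4]
      ring

theorem chi_self (h6 : ((mo : ℕ) : k) ≠ 0) (ℓ : Locs k Ω) (v : Pl k) (hv : v ≠ none) :
    chi ℓ v (ℓ v).τ = 1 := by
  obtain ⟨p, rfl⟩ := Option.ne_none_iff_exists'.1 hv
  have h1 := rootMultiplicity_le_one_of_separable
    ((PerfectField.separable_of_irreducible p.2.2).map (f := algebraMap k (Kb k Ω))) (ℓ (some p)).x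
  have h2 := (rootMultiplicity_pos (Polynomial.map_ne_zero (f := algebraMap k (Kb k Ω))
    p.2.1.ne_zero) (x := (ℓ (some p)).x)).2 (by
      rw [IsRoot, eval_map_algebraMap]
      exact (ℓ (some p)).root p rfl)
  rw [RecipA_chi_tau h6 ℓ p hv, le_antisymm h1 h2]
  rfl

theorem chi_ne (h6 : ((mo : ℕ) : k) ≠ 0) (ℓ : Locs k Ω) (v w : Pl k) (h : w ≠ v) (hw : w ≠ none) :
    chi ℓ v (ℓ w).τ = 0 := by
  cases v with
  | none => rfl
  | some p =>
    rw [RecipA_chi_tau h6 ℓ p hw, rootMultiplicity_eq_zero]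
    · rfl
    · obtain ⟨p', rfl⟩ := Option.ne_none_iff_exists'.1 hw
      rw [IsRoot, eval_map_algebraMap]
      exact fun h0 => h (congrArg some (Subtype.ext ((galloc_min _).trans
        (minpoly.eq_of_irreducible_of_monic p.2.2 h0 p.2.1).symm)))

theorem chi_inf (ℓ : Locs k Ω) (v : Pl k) : chi ℓ v (ℓ none).σ = 0 := by
  cases v with
  | none => rfl
  | some p => simp [chi, (ℓ none).deg_σ, pdg]

theorem RecipA_deg (ℓ : Locs k Ω) (i : ℤ) : wdeg ((ℓ none).σ ^ i) = i := by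
  rw [wdeg_zpow, (ℓ none).deg_σ]
  exact mul_one i

theorem uniq_geom (h6 : ((mo : ℕ) : k) ≠ 0) (ℓ : Locs k Ω) (h : WG k Ω → F2)
    (hh : ∀ g g', wdeg g = 0 → wdeg g' = 0 → h (g * g') = h g + h g') {U : Subgroup (WG k Ω)}
    (hU : Adm U) (hs : ∀ u ∈ U, h u = 0)
    (h0 : ∀ v, v ≠ none → ∀ i : ℤ, h ((ℓ none).σ ^ i * (ℓ v).τ * (ℓ none).σ ^ (-i)) = 0) :
    ∀ g, wdeg g = 0 → h g = 0 := by
    obtain ⟨r0, b, hr0, hb, hk0⟩ := exists_kummer h6 h hh hU hs
    have hfix : ∀ g : WG k Ω, wdeg g = 0 → ∀ p : (Kb k Ω)[X],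
        gal g (aeval (tt k Ω) p) = aeval (tt k Ω) p := fun g hg p => by
      rw [← jK_poly, geom_fix hg]
    have hd : aeval (tt k Ω) b.denom ≠ 0 :=
      (map_ne_zero_iff _ (aeval_tt_injective k Ω)).2 b.denom_ne_zero
    obtain ⟨r, p, hr, hp, hk⟩ : ∃ (r : Ω) (p : (Kb k Ω)[X]), r ≠ 0 ∧ r ^ 2 = aeval (tt k Ω) p ∧
        ∀ g, wdeg g = 0 → kum r (gal g) = h g := by
      refine ⟨r0 * aeval (tt k Ω) b.denom, b.num * b.denom, mul_ne_zero hr0 hd, ?_,
        fun g hg => ?_⟩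
      · rw [mul_pow, hb, jK_div, map_mul]
        field_simp
      · rw [← hk0 g hg]
        refine RecipA_congr ?_
        rw [map_mul, hfix g hg, mul_left_inj' hd]
    have hp0 : p ≠ 0 := by
      rintro rfl
      exact pow_ne_zero 2 hr (hp.trans (map_zero _))
    obtain ⟨s, rfl⟩ := RecipA_square p fun y => by
      obtain ⟨v, i, hv, -, rfl⟩ := exists_place ℓ y
      have h1 := ord_conj h6 (ℓ v) hr (hp.trans (jK_poly k Ω p).symm) ((ℓ none).σ ^ (-(i : ℤ)))
        (by rw [hp, gal_aeval]; exact (ℓ v).w_poly hv (Polynomial.map_ne_zero hp0))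
      rw [hk _ (by rw [wdeg_mul, wdeg_mul, wdeg_inv, (ℓ v).deg_τ]; ring), ← zpow_neg, neg_neg,
        h0 v hv, RecipA_deg] at h1
      rw [eq_rootMultiplicity_map (f := ((frob k Ω ^ (-(i : ℤ)) : Kb k Ω ≃ₐ[k] Kb k Ω) :
        Kb k Ω →+* Kb k Ω)) (RingHom.injective _), RingHom.coe_coe, ← AlgEquiv.mul_apply,
        ← zpow_natCast, ← zpow_add, neg_add_cancel, zpow_zero, AlgEquiv.one_apply]
      exact Int.natCast_dvd_natCast.1 ((ZMod.intCast_zmod_eq_zero_iff_dvd _ 2).1 h1.symm)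
    intro g hg
    rw [map_pow] at hp
    rw [← hk g hg, kum_congr hp, kum_eq_zero_iff, hfix g hg]

theorem uniq_hom (h6 : ((mo : ℕ) : k) ≠ 0) (ℓ : Locs k Ω) (h : WG k Ω → F2)
    (hh : (pre ℓ).IsHom h) (h0 : ∀ v, v ≠ none → h (ℓ v).τ = 0) (h1 : h (ℓ none).σ = 0) :
    h = 0 := by
  obtain ⟨⟨U, hU, a1⟩, a2⟩ := hh
  have h2 : h 1 = 0 := by simpa using a2 1 1
  have h3 : ∀ i : ℤ, h ((ℓ none).σ ^ i) = 0 := fun i => by
    have := map_zpow (MonoidHom.mk' (fun g => Multiplicative.ofAdd (h g))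
      fun g g' => congrArg Multiplicative.ofAdd (a2 g g')) (ℓ none).σ i
    simpa [h1] using this
  have h4 := uniq_geom h6 ℓ h (fun g g' _ _ => a2 g g') hU
    (fun u hu => by rw [← h2, ← a1 1 u hu, one_mul])
    fun v hv i => by rw [a2, a2, h3, h3, h0 v hv, add_zero, add_zero]
  funext g
  have h5 := h4 (g * (ℓ none).σ ^ (-wdeg g)) (by rw [wdeg_mul, RecipA_deg, add_neg_cancel])
  rwa [a2, h3, add_zero] at h5

theorem RecipA_int0 (ℓ : Locs k Ω) (b : RatFunc k) :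
    {v | ¬ (ℓ v).w (algebraMap (RatFunc k) Ω b) ≤ 1}.Finite := by
  refine (((Set.finite_le_nat b.denom.natDegree).biUnion fun e _ => pdg_fin (k := k) e).insert
    none).subset fun v hv => ?_
  by_contra hc
  rw [Set.mem_insert_iff, not_or] at hc
  obtain ⟨p, rfl⟩ := Option.ne_none_iff_exists'.1 hc.1
  refine hv ?_
  rw [← b.num_div_denom, map_div₀, map_div₀, ← aeval_tt_base, ← aeval_tt_base, ← aeval_tt_map,
    ← aeval_tt_map b.denom, (ℓ _).w_poly hc.1 (Polynomial.map_ne_zero b.denom_ne_zero),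
    rootMultiplicity_eq_zero, Nat.cast_zero, neg_zero, zpow_zero, div_one]
  · by_cases h0 : b.num = 0
    · simp [h0]
    · rw [(ℓ _).w_poly hc.1 (Polynomial.map_ne_zero h0)]
      exact zpow_le_one_of_nonpos₀ one_le_two (by simp)
  · rw [IsRoot, eval_map_algebraMap]
    refine fun h0 => hc.2 (Set.mem_biUnion (x := p.1.natDegree) ?_ rfl)
    refine natDegree_le_of_dvd ?_ b.denom_ne_zero
    rw [galloc_min (ℓ (some p))]
    exact minpoly.dvd _ _ h0

theorem RecipA_int (ℓ : Locs k Ω) (c : Ω) : {v | ¬ (ℓ v).w c ≤ 1}.Finite := by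
  have : Algebra.IsSeparable (RatFunc k) Ω := IsSepClosure.separable
  have hc : IsIntegral (RatFunc k) c := Algebra.IsIntegral.isIntegral c
  refine ((Finset.range (minpoly (RatFunc k) c).natDegree).finite_toSet.biUnion
    fun i _ => RecipA_int0 ℓ ((minpoly (RatFunc k) c).coeff i)).subset fun v hv => ?_
  by_contra hn
  have h1 : 1 < (ℓ v).w c := not_le.1 hv
  have h2 := minpoly.aeval (RatFunc k) c
  rw [(minpoly.monic hc).as_sum, map_add, map_pow, aeval_X, map_sum, add_eq_zero_iff_eq_neg] at h2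
  have h3 := congrArg (ℓ v).w h2
  rw [AbsoluteValue.map_neg, map_pow] at h3
  refine (RecipA_sum (ℓ v).w_na _ _ (pow_pos (zero_lt_one.trans h1) _) fun i hi => ?_).ne h3.symm
  rw [map_mul, aeval_C, map_pow, aeval_X, map_mul, map_pow]
  exact (mul_le_of_le_one_left (pow_nonneg ((ℓ v).w.nonneg c) i)
    (by_contra fun h => hn (Set.mem_biUnion hi h))).trans_lt
    (pow_lt_pow_right₀ h1 (Finset.mem_range.1 hi))

theorem tau_fin (ℓ : Locs k Ω) {U : Subgroup (WG k Ω)} (hU : Adm U) :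
    {v | (ℓ v).τ ∉ U}.Finite := by
  obtain ⟨S, hS⟩ := hU.2.2.1
  obtain ⟨S', h1, h2⟩ := exists_stable (k := k) S
  refine (S'.finite_toSet.biUnion fun a _ => (RecipA_int ℓ a).union
    (S'.finite_toSet.biUnion fun a' _ => RecipA_int ℓ (a' - a)⁻¹)).subset fun v hv => ?_
  by_contra hn
  refine hv (hS _ (ℓ v).deg_τ fun a ha => by_contra fun hne => ?_)
  have h3 : (ℓ v).w a ≤ 1 := by_contra fun h => hn (Set.mem_biUnion (h1 ha) (Or.inl h))
  have h4 : (ℓ v).w (gal (ℓ v).τ a - a)⁻¹ ≤ 1 := by_contra fun h =>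
    hn (Set.mem_biUnion (h1 ha) (Or.inr (Set.mem_biUnion (h2 _ a (h1 ha)) h)))
  rw [map_inv₀, inv_le_one₀ ((ℓ v).w.pos (sub_ne_zero.2 hne))] at h4
  exact h4.not_gt ((ℓ v).τ_res h3)

end Pool.Agent.Hyp
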